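import Mathlib
import Pool.Agent.P.MP_ea46f5_nt.LRDefs

-- part Pool.Agent.P.MP_ea46f5_nt.LRTheta
section

/-!
Theta function of an even real function mod q that is self dual under the finite Fourier
transform, and the balanced integral formula for the central value.
-/

namespace Pool.Agent.LRes

open Real MeasureTheory Set HurwitzZeta Finset

variable {q : ℕ} [NeZero q]

/-- The theta function in the normalisation of the Hurwitz kernels. -/
noncomputable def EE (Φ : ZMod q → ℝ) (t : ℝ) : ℝ :=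
  ∑ a : ZMod q, Φ a * evenKernel (ZMod.toAddCircle a) t

/-- The theta function. -/
noncomputable def Th (Φ : ZMod q → ℝ) (τ : ℝ) : ℝ := EE Φ ((q : ℝ) ^ 2 * τ)

theorem q_pos : (0 : ℝ) < q := by exact_mod_cast Nat.pos_of_ne_zero (NeZero.ne q)

theorem hasSum_class (a : ZMod q) {τ : ℝ} (hτ : 0 < τ) :
    HasSum (fun m : ℤ => if (m : ZMod q) = a then exp (-π * (m : ℝ) ^ 2 * τ) else 0)
      (evenKernel (ZMod.toAddCircle a) ((q : ℝ) ^ 2 * τ)) := by
  have hq : (0 : ℝ) < q := q_pos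
  have hqz : (q : ℤ) ≠ 0 := by exact_mod_cast NeZero.ne q
  have h := hasSum_int_evenKernel ((a.val : ℝ) / q) (t := (q : ℝ) ^ 2 * τ) (by positivity)
  rw [← ZMod.toAddCircle_apply] at h
  have hinj : Function.Injective (fun n : ℤ => n * q + a.val) := by
    intro n n' hn
    simp only [add_left_inj] at hn
    exact mul_right_cancel₀ hqz hn
  rw [← hinj.hasSum_iff]
  · refine h.congr_fun fun n => ?_
    have : (((n * q + a.val : ℤ)) : ZMod q) = a := by push_cast; simp
    simp only [Function.comp, this, if_true]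
    congr 1
    push_cast
    field_simp
  · intro m hm
    rw [if_neg]
    intro hma
    apply hm
    have : ((m - a.val : ℤ) : ZMod q) = 0 := by push_cast; simp [hma]
    obtain ⟨c, hc⟩ := (ZMod.intCast_zmod_eq_zero_iff_dvd _ _).1 this
    exact ⟨c, by simp only; linarith⟩

theorem hasSum_Th (Φ : ZMod q → ℝ) {τ : ℝ} (hτ : 0 < τ) :
    HasSum (fun m : ℤ => Φ m * exp (-π * (m : ℝ) ^ 2 * τ)) (Th Φ τ) := by
  have h := hasSum_sum (s := (univ : Finset (ZMod q)))
    (fun a _ => (hasSum_class a hτ).mul_left (Φ a))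
  refine h.congr_fun fun m => ?_
  simp

/-- Self duality under the finite Fourier transform with root number one. -/
def SelfDual (Φ : ZMod q → ℝ) : Prop :=
  ∀ m : ℤ, ∑ a : ZMod q, (Φ a : ℂ) * Complex.exp (2 * π * Complex.I * ((a.val : ℝ) / q : ℝ) * m)
    = (√q * Φ m : ℝ)

theorem sum_cos {Φ : ZMod q → ℝ} (h : SelfDual Φ) {u : ℝ} (hu : 0 < u) :
    ∑ a : ZMod q, Φ a * cosKernel (ZMod.toAddCircle a) u = √q * Th Φ u := by
  have h1 := hasSum_sum (s := (univ : Finset (ZMod q)))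
    (fun a _ => (hasSum_int_cosKernel ((a.val : ℝ) / q) hu).mul_left (Φ a : ℂ))
  have h2 := Complex.hasSum_ofReal.2 ((hasSum_Th Φ hu).mul_left √q)
  have h3 : (fun m : ℤ => ∑ a : ZMod q, (Φ a : ℂ) *
      (Complex.exp (2 * π * Complex.I * ((a.val : ℝ) / q : ℝ) * m) *
        (exp (-π * (m : ℝ) ^ 2 * u) : ℝ))) =
      fun m : ℤ => ((√q * (Φ m * exp (-π * (m : ℝ) ^ 2 * u)) : ℝ) : ℂ) := by
    funext m
    simp_rw [← mul_assoc]
    rw [← sum_mul, h m]
    push_cast
    ring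
  rw [h3] at h1
  have h4 := h1.unique h2
  simp_rw [ZMod.toAddCircle_apply]
  exact_mod_cast h4

theorem Th_feq {Φ : ZMod q → ℝ} (h : SelfDual Φ) {τ : ℝ} (hτ : 0 < τ) :
    Th Φ (1 / ((q : ℝ) ^ 2 * τ)) = √(q * τ) * Th Φ τ := by
  have hq : (0 : ℝ) < q := q_pos
  have h1 : Th Φ τ = 1 / ((q : ℝ) ^ 2 * τ) ^ (1 / 2 : ℝ) *
      (√q * Th Φ (1 / ((q : ℝ) ^ 2 * τ))) := by
    rw [← sum_cos h (by positivity), mul_sum]
    unfold Th EE
    refine sum_congr rfl fun a _ => ?_
    rw [evenKernel_functional_equation]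
    ring
  rw [h1, ← sqrt_eq_rpow]
  have h2 : √((q : ℝ) ^ 2 * τ) = √q * √(q * τ) := by
    rw [← sqrt_mul hq.le]; congr 1; ring
  rw [h2]
  have : 0 < √(q : ℝ) := sqrt_pos.2 hq
  have : 0 < √((q : ℝ) * τ) := sqrt_pos.2 (by positivity)
  field_simp

theorem hasMellin_EE {Φ : ZMod q → ℝ} (h0 : Φ 0 = 0) (hs : ∑ a, Φ a = 0) :
    HasMellin (fun t => (EE Φ t : ℂ)) (1 / 4)
      (2 * ∑ a : ZMod q, (Φ a : ℂ) * completedHurwitzZetaEven (ZMod.toAddCircle a) (1 / 2)) := by
  set P := fun a : ZMod q => hurwitzEvenFEPair (ZMod.toAddCircle a) with hP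
  have hc : ∀ a, MellinConvergent (P a).f_modif (1 / 4) := fun a =>
    ((P a).isStrongFEPair_toStrongFEPair.hasMellin (1 / 4)).1
  have hsC : ∑ a, (Φ a : ℂ) = 0 := by exact_mod_cast hs
  have hae : ∀ᵐ t : ℝ ∂(volume.restrict (Set.Ioi (0 : ℝ))),
      ∑ a, (Φ a : ℂ) * ((t : ℂ) ^ ((1 / 4 : ℂ) - 1) • (P a).f_modif t) =
        (t : ℂ) ^ ((1 / 4 : ℂ) - 1) • (EE Φ t : ℂ) := by
    refine (ae_restrict_iff' measurableSet_Ioi).mpr ?_
    filter_upwards [compl_mem_ae_iff.mpr (Subsingleton.measure_zero (s := {1}) (by simp) _)]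
      with t (ht₁ : t ≠ 1) (ht₀ : 0 < t)
    have key : ∑ a, (Φ a : ℂ) * (P a).f_modif t = (EE Φ t : ℂ) := by
      rcases lt_or_gt_of_ne ht₁ with ht | ht
      · have : ∀ a, (P a).f_modif t = (evenKernel (ZMod.toAddCircle a) t : ℝ) -
            ((t ^ (-(1 / 2 : ℝ)) : ℝ) : ℂ) := by
          intro a
          rw [WeakFEPair.f_modif, Pi.add_apply, indicator_of_notMem (by simpa using ht.le),
            indicator_of_mem (by exact ⟨ht₀, ht⟩)]
          simp [hP, hurwitzEvenFEPair]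
        simp_rw [this, mul_sub, sum_sub_distrib, ← sum_mul, hsC]
        simp [EE]
      · have : ∀ a, (Φ a : ℂ) * (P a).f_modif t =
            (Φ a : ℂ) * (evenKernel (ZMod.toAddCircle a) t : ℝ) := by
          intro a
          rw [WeakFEPair.f_modif, Pi.add_apply, indicator_of_mem (by exact ht),
            indicator_of_notMem (by simp; intro _; exact ht.le)]
          by_cases ha : a = 0
          · simp [ha, h0]
          · simp [hP, hurwitzEvenFEPair, ha]
        simp_rw [this]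
        simp [EE]
    rw [← key, smul_eq_mul, mul_sum]
    refine sum_congr rfl fun a _ => ?_
    rw [smul_eq_mul]; ring
  have hint : ∀ a ∈ (univ : Finset (ZMod q)), Integrable
      (fun t : ℝ => (Φ a : ℂ) * ((t : ℂ) ^ ((1 / 4 : ℂ) - 1) • (P a).f_modif t))
      (volume.restrict (Set.Ioi (0 : ℝ))) := fun a _ => (hc a).const_mul _
  refine ⟨(integrable_finsetSum _ hint).congr hae, ?_⟩
  rw [mellin, ← integral_congr_ae hae, integral_finsetSum _ hint]
  have h1 : ∀ a, ∫ t : ℝ in Set.Ioi 0, (Φ a : ℂ) * ((t : ℂ) ^ ((1 / 4 : ℂ) - 1) • (P a).f_modif t) =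
      2 * ((Φ a : ℂ) * completedHurwitzZetaEven (ZMod.toAddCircle a) (1 / 2)) + 8 * (Φ a : ℂ) / 2 := by
    intro a
    rw [integral_const_mul]
    have h2 : ∫ t : ℝ in Set.Ioi 0, (t : ℂ) ^ ((1 / 4 : ℂ) - 1) • (P a).f_modif t =
        2 * completedHurwitzZetaEven₀ (ZMod.toAddCircle a) (1 / 2) := by
      rw [completedHurwitzZetaEven₀, WeakFEPair.Λ₀, mellin]
      have : (1 / 2 : ℂ) / 2 = 1 / 4 := by norm_num
      rw [this]; ring
    rw [h2, completedHurwitzZetaEven_eq]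
    by_cases ha : a = 0
    · simp [ha, h0]
    · simp [ha]; ring
  simp_rw [h1]
  rw [sum_add_distrib, ← mul_sum, ← sum_div, ← mul_sum, hsC]
  simp

/-- The constant `Gamma_R(1/2)`. -/
noncomputable def c0 : ℝ := π ^ (-(1 / 4 : ℝ)) * Gamma (1 / 4)

theorem c0_pos : 0 < c0 := by
  unfold c0
  have := Gamma_pos_of_pos (s := 1 / 4) (by norm_num)
  positivity

theorem Gammaℝ_half : Complex.Gammaℝ (1 / 2) = (c0 : ℂ) := by
  rw [Complex.Gammaℝ_def, c0]
  push_cast
  rw [Complex.ofReal_cpow pi_pos.le, ← Complex.Gamma_ofReal]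
  congr 2 <;> push_cast <;> ring

theorem integral_Th {Φ : ZMod q → ℝ} (he : ∀ a, Φ (-a) = Φ a) (h0 : Φ 0 = 0)
    (hs : ∑ a, Φ a = 0) :
    IntegrableOn (fun τ => τ ^ (-(3 / 4 : ℝ)) * Th Φ τ) (Set.Ioi 0) ∧
    ∫ τ in Set.Ioi 0, τ ^ (-(3 / 4 : ℝ)) * Th Φ τ =
      2 * (c0 * (ZMod.LFunction (fun a => (Φ a : ℂ)) (1 / 2)).re) := by
  have hq : (0 : ℝ) < q := q_pos
  obtain ⟨h1, h2⟩ := hasMellin_EE h0 hs
  have hq2 : (0 : ℝ) < (q : ℝ) ^ 2 := by positivity
  have h3 : MellinConvergent (fun t => (Th Φ t : ℂ)) (1 / 4) :=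
    (MellinConvergent.comp_mul_left hq2).2 h1
  have h4 : mellin (fun t => (Th Φ t : ℂ)) (1 / 4) =
      2 * (c0 * ZMod.LFunction (fun a => (Φ a : ℂ)) (1 / 2)) := by
    have hev : Function.Even (fun a => (Φ a : ℂ)) := fun a => by simp [he]
    have h5 := mellin_comp_mul_left (fun t => (EE Φ t : ℂ)) (1 / 4) hq2
    rw [ZMod.LFunction_eq_completed_div_gammaFactor_even hev _ (Or.inl (by norm_num)),
      ZMod.completedLFunction_def_even hev, Gammaℝ_half]
    have h6 : (((q : ℝ) ^ 2 : ℝ) : ℂ) ^ (-(1 / 4 : ℂ)) = (q : ℂ) ^ (-(1 / 2 : ℂ)) := by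
      have e1 : (-(1 / 4 : ℂ)) = ((-(1 / 4) : ℝ) : ℂ) := by push_cast; ring
      have e2 : (-(1 / 2 : ℂ)) = ((-(1 / 2) : ℝ) : ℂ) := by push_cast; ring
      rw [e1, e2, ← Complex.ofReal_cpow hq2.le, ← Complex.ofReal_natCast,
        ← Complex.ofReal_cpow hq.le, ← rpow_natCast, ← rpow_mul hq.le]
      norm_num
    have h7 : (c0 : ℂ) ≠ 0 := by exact_mod_cast c0_pos.ne'
    unfold Th
    rw [h5, h2, h6, smul_eq_mul]
    field_simp
  have hfun : ∀ t ∈ Set.Ioi (0 : ℝ), (t : ℂ) ^ ((1 / 4 : ℂ) - 1) • (Th Φ t : ℂ) =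
      ((t ^ (-(3 / 4 : ℝ)) * Th Φ t : ℝ) : ℂ) := by
    intro t ht
    have e1 : ((1 / 4 : ℂ) - 1) = ((-(3 / 4) : ℝ) : ℂ) := by push_cast; ring
    rw [e1, ← Complex.ofReal_cpow (le_of_lt ht), smul_eq_mul]
    push_cast; ring
  constructor
  · have := (h3.congr_fun hfun measurableSet_Ioi).re
    simpa [IntegrableOn] using this
  · rw [mellin, setIntegral_congr_fun measurableSet_Ioi hfun, integral_complex_ofReal] at h4
    have := congrArg Complex.re h4
    simpa using this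

theorem integral_inv_comp (g : ℝ → ℝ) {c : ℝ} (hc : 0 < c) :
    ∫ τ in Set.Ioi 0, g τ = ∫ τ in Set.Ioi 0, 1 / (c * τ ^ 2) * g (1 / (c * τ)) := by
  have h1 := integral_comp_rpow_Ioi (fun y => g (c⁻¹ * y)) (p := -1) (by norm_num)
  have h2 := integral_comp_mul_left_Ioi g 0 (b := c⁻¹) (by positivity)
  rw [mul_zero, inv_inv, smul_eq_mul] at h2
  rw [h2] at h1
  have h3 : ∫ τ in Set.Ioi 0, g τ = c⁻¹ * (c * ∫ τ in Set.Ioi 0, g τ) := by field_simp
  rw [h3, ← h1, ← integral_const_mul]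
  refine setIntegral_congr_fun measurableSet_Ioi fun t ht => ?_
  have ht' : (0 : ℝ) < t := ht
  have e1 : t ^ ((-1 : ℝ) - 1) = 1 / t ^ 2 := by
    rw [show ((-1 : ℝ) - 1) = -(2 : ℕ) by norm_num, rpow_neg ht'.le, rpow_natCast]; simp
  simp only [e1, rpow_neg_one, smul_eq_mul, abs_neg, abs_one]
  have e2 : c⁻¹ * t⁻¹ = 1 / (c * t) := by field_simp
  rw [e2]
  field_simp

/-- The balanced formula for the central value. -/
theorem balanced {Φ : ZMod q → ℝ} (he : ∀ a, Φ (-a) = Φ a) (h0 : Φ 0 = 0)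
    (hs : ∑ a, Φ a = 0) (hd : SelfDual Φ) :
    IntegrableOn (fun τ => τ ^ (-(3 / 4 : ℝ)) * (q * τ / (1 + q * τ) * Th Φ τ)) (Set.Ioi 0) ∧
    ∫ τ in Set.Ioi 0, τ ^ (-(3 / 4 : ℝ)) * (q * τ / (1 + q * τ) * Th Φ τ) =
      c0 * (ZMod.LFunction (fun a => (Φ a : ℂ)) (1 / 2)).re := by
  have hq : (0 : ℝ) < q := q_pos
  obtain ⟨h1, h2⟩ := integral_Th he h0 hs
  have hm : ∀ w : ℝ → ℝ, ContinuousOn w (Set.Ioi 0) → (∀ t ∈ Set.Ioi (0 : ℝ), |w t| ≤ 1) →
      IntegrableOn (fun τ => τ ^ (-(3 / 4 : ℝ)) * (w τ * Th Φ τ)) (Set.Ioi 0) := by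
    intro w hw hw1
    have := Integrable.bdd_mul (c := 1) h1 (hw.aestronglyMeasurable measurableSet_Ioi)
      ((ae_restrict_iff' measurableSet_Ioi).2 (Filter.Eventually.of_forall fun t ht => by
        simpa using hw1 t ht))
    refine IntegrableOn.congr_fun this (fun t _ => by ring) measurableSet_Ioi
  have hA := hm (fun τ => q * τ / (1 + q * τ))
    (ContinuousOn.div (by fun_prop) (by fun_prop) fun t ht => by
      have : (0 : ℝ) < t := ht
      positivity)
    (fun t ht => by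
      have : (0 : ℝ) < t := ht
      rw [abs_of_nonneg (by positivity), div_le_one (by positivity)]
      linarith)
  have hB := hm (fun τ => 1 / (1 + q * τ))
    (ContinuousOn.div (by fun_prop) (by fun_prop) fun t ht => by
      have : (0 : ℝ) < t := ht
      positivity)
    (fun t ht => by
      have : (0 : ℝ) < t := ht
      rw [abs_of_nonneg (by positivity), div_le_one (by positivity)]
      have : (0 : ℝ) < q * t := by positivity
      linarith)
  refine ⟨hA, ?_⟩
  have h3 : ∫ τ in Set.Ioi 0, τ ^ (-(3 / 4 : ℝ)) * (1 / (1 + q * τ) * Th Φ τ) =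
      ∫ τ in Set.Ioi 0, τ ^ (-(3 / 4 : ℝ)) * (q * τ / (1 + q * τ) * Th Φ τ) := by
    rw [integral_inv_comp _ (c := (q : ℝ) ^ 2) (by positivity)]
    refine setIntegral_congr_fun measurableSet_Ioi fun t ht => ?_
    have ht' : (0 : ℝ) < t := ht
    rw [Th_feq hd ht']
    have e1 : (1 / ((q : ℝ) ^ 2 * t)) ^ (-(3 / 4 : ℝ)) =
        (q : ℝ) * √q * (t * √t * t ^ (-(3 / 4 : ℝ))) := by
      rw [one_div, inv_rpow (by positivity), ← rpow_neg (by positivity), neg_neg,
        mul_rpow (by positivity) ht'.le, ← rpow_natCast, ← rpow_mul hq.le, sqrt_eq_rpow,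
        sqrt_eq_rpow]
      congr 1
      · rw [show ((2 : ℕ) : ℝ) * (3 / 4) = 1 + 1 / 2 by norm_num, rpow_add hq, rpow_one]
      · rw [show (3 / 4 : ℝ) = 1 + 1 / 2 + -(3 / 4) by norm_num, rpow_add ht', rpow_add ht',
          rpow_one]
        congr 2
        norm_num
    rw [e1, sqrt_mul hq.le]
    have e2 : √(q : ℝ) * √q = q := mul_self_sqrt hq.le
    have e3 : √t * √t = t := mul_self_sqrt ht'.le
    have e4 : 1 / (1 + q * (1 / ((q : ℝ) ^ 2 * t))) = q * t / (1 + q * t) := by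
      field_simp; ring
    rw [e4]
    calc 1 / ((q : ℝ) ^ 2 * t ^ 2) * ((q : ℝ) * √q * (t * √t * t ^ (-(3 / 4 : ℝ))) *
          (q * t / (1 + q * t) * (√q * √t * Th Φ t)))
        = 1 / ((q : ℝ) ^ 2 * t ^ 2) * (q * (√q * √q) * (t * (√t * √t))) *
          (t ^ (-(3 / 4 : ℝ)) * (q * t / (1 + q * t) * Th Φ t)) := by ring
      _ = _ := by rw [e2, e3]; field_simp
  have h4 : ∫ τ in Set.Ioi 0, τ ^ (-(3 / 4 : ℝ)) * Th Φ τ =
      (∫ τ in Set.Ioi 0, τ ^ (-(3 / 4 : ℝ)) * (q * τ / (1 + q * τ) * Th Φ τ)) +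
      ∫ τ in Set.Ioi 0, τ ^ (-(3 / 4 : ℝ)) * (1 / (1 + q * τ) * Th Φ τ) := by
    rw [← integral_add hA hB]
    refine setIntegral_congr_fun measurableSet_Ioi fun t ht => ?_
    have ht' : (0 : ℝ) < t := ht
    have : (0 : ℝ) < 1 + q * t := by positivity
    field_simp
    ring
  linarith

end Pool.Agent.LRes
end

-- part Pool.Agent.P.MP_ea46f5_nt.LRGauss
section

/-!
Gauss sums of products of two Legendre symbols.
-/

namespace Pool.Agent.LRes

open Real Finset NumberTheorySymbols MeasureTheory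

/-- The quadratic Gauss sum. -/
noncomputable def gs (p : ℕ) : ℂ :=
  if h : p = 0 then 0 else
    haveI : NeZero p := ⟨h⟩
    ∑ a : ZMod p, (J((a.val : ℤ) | p) : ℂ) * ZMod.stdAddChar a

/-- The class of a prime. -/
noncomputable def cls (p : ℕ) : Bool × Bool :=
  (decide (p % 4 = 1), decide (0 < (gs p).re + (gs p).im))

section prime

variable {p : ℕ} [Fact p.Prime]

/-- The quadratic character with complex values. -/
noncomputable def qc (p : ℕ) [Fact p.Prime] : MulChar (ZMod p) ℂ :=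
  (quadraticChar (ZMod p)).ringHomComp (Int.castRingHom ℂ)

theorem qc_int (m : ℤ) : qc p (m : ZMod p) = (J(m | p) : ℂ) := by
  rw [← jacobiSym.legendreSym.to_jacobiSym]
  simp [qc, legendreSym]

theorem qc_val (a : ZMod p) : qc p a = (J((a.val : ℤ) | p) : ℂ) := by
  rw [← qc_int]; simp

theorem gs_eq : gs p = gaussSum (qc p) ZMod.stdAddChar := by
  rw [gs, dif_neg (Fact.out : p.Prime).ne_zero, gaussSum]
  exact sum_congr rfl fun a _ => by rw [qc_val]

theorem qc_ne_one (hp : p ≠ 2) : qc p ≠ 1 := by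
  have h := quadraticChar_ne_one (F := ZMod p) (by rw [ZMod.ringChar_zmod_n]; exact hp)
  exact (MulChar.ringHomComp_ne_one_iff (RingHom.injective_int _)).2 h

theorem qc_quad : (qc p).IsQuadratic := (quadraticChar_isQuadratic (ZMod p)).comp _

theorem gs_sq (hp : p ≠ 2) : gs p ^ 2 = (ZMod.χ₄ (p : ZMod 4) : ℤ) * p := by
  have hodd : Odd p := (Fact.out : p.Prime).odd_of_ne_two hp
  rw [gs_eq, gaussSum_sq (χ := qc p) (qc_ne_one hp) qc_quad (ZMod.isPrimitive_stdAddChar p),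
    ZMod.card, ← jacobiSym.at_neg_one hodd, ← qc_int]
  simp

theorem gs_shift (hp : p ≠ 2) (m : ℤ) :
    ∑ a : ZMod p, qc p a * ZMod.stdAddChar (a * (m : ZMod p)) = (J(m | p) : ℂ) * gs p := by
  rw [← qc_int, gs_eq]
  by_cases hm : (m : ZMod p) = 0
  · rw [hm]
    simp [MulChar.sum_eq_zero_of_ne_one (qc_ne_one hp), MulChar.map_zero]
  · have h := gaussSum_mulShift_eq (qc p) ZMod.stdAddChar (Units.mk0 _ hm)
    rw [qc_quad.inv] at h
    simpa [gaussSum, mul_comm] using h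

end prime

/-- The character attached to a pair of primes. -/
noncomputable def Phi (x y : ℕ) (a : ZMod (x * y)) : ℝ :=
  (J((a.val : ℤ) | x) : ℝ) * (J((a.val : ℤ) | y) : ℝ)

theorem Phi_int {x y : ℕ} [NeZero (x * y)] (m : ℤ) :
    Phi x y (m : ZMod (x * y)) = (J(m | x) : ℝ) * (J(m | y) : ℝ) := by
  unfold Phi
  rw [ZMod.val_intCast]
  congr 2
  · apply jacobiSym.mod_left'
    exact Int.emod_emod_of_dvd _ (by push_cast; exact dvd_mul_right _ _)
  · apply jacobiSym.mod_left'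
    exact Int.emod_emod_of_dvd _ (by push_cast; exact dvd_mul_left _ _)

theorem gauss_pair {x y : ℕ} [Fact x.Prime] [Fact y.Prime] [NeZero (x * y)] (hx : x ≠ 2)
    (hy : y ≠ 2) (hxy : x ≠ y) (m : ℤ) :
    ∑ a : ZMod (x * y), (Phi x y a : ℂ) *
      Complex.exp (2 * π * Complex.I * ((a.val : ℝ) / (x * y : ℕ) : ℝ) * m) =
      (J(m | x) : ℂ) * J(m | y) * (J(y | x) * J(x | y) * (gs x * gs y)) := by
  have hxp : x.Prime := Fact.out
  have hyp : y.Prime := Fact.out
  have hx0 : (x : ℂ) ≠ 0 := by exact_mod_cast hxp.ne_zero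
  have hy0 : (y : ℂ) ≠ 0 := by exact_mod_cast hyp.ne_zero
  let e : ZMod x × ZMod y → ZMod (x * y) :=
    fun ab => ((ab.1.val * y + ab.2.val * x : ℤ) : ZMod (x * y))
  have hyx : (y : ZMod x) ≠ 0 := by
    rw [Ne, ZMod.natCast_eq_zero_iff, Nat.prime_dvd_prime_iff_eq hxp hyp]; exact hxy
  have hxy' : (x : ZMod y) ≠ 0 := by
    rw [Ne, ZMod.natCast_eq_zero_iff, Nat.prime_dvd_prime_iff_eq hyp hxp]; exact hxy.symm
  have hinj : Function.Injective e := by
    rintro ⟨a, b⟩ ⟨a', b'⟩ h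
    have h1 := congrArg (ZMod.castHom (dvd_mul_right x y) (ZMod x)) h
    have h2 := congrArg (ZMod.castHom (dvd_mul_left y x) (ZMod y)) h
    simp only [e, map_intCast] at h1 h2
    push_cast at h1 h2
    simp only [ZMod.natCast_val, ZMod.cast_id', id_eq, ZMod.natCast_self, mul_zero, add_zero,
      zero_add] at h1 h2
    exact Prod.ext (mul_right_cancel₀ hyx h1) (mul_right_cancel₀ hxy' h2)
  have hbij : Function.Bijective e :=
    (Fintype.bijective_iff_injective_and_card e).2 ⟨hinj, by simp [ZMod.card]⟩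
  have hterm : ∀ a : ZMod (x * y),
      Complex.exp (2 * π * Complex.I * ((a.val : ℝ) / (x * y : ℕ) : ℝ) * m) =
        ZMod.stdAddChar (a * (m : ZMod (x * y))) := by
    intro a
    have : a * (m : ZMod (x * y)) = ((a.val * m : ℤ) : ZMod (x * y)) := by push_cast; simp
    rw [this, ZMod.stdAddChar_coe]
    congr 1
    push_cast
    ring
  simp_rw [hterm]
  rw [← hbij.sum_comp, Fintype.sum_prod_type]
  have h3 : ∀ (a : ZMod x) (b : ZMod y), (Phi x y (e (a, b)) : ℂ) *
      ZMod.stdAddChar (e (a, b) * (m : ZMod (x * y))) =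
      (J(y | x) * J(x | y) : ℂ) * ((qc x a * ZMod.stdAddChar (a * (m : ZMod x))) *
        (qc y b * ZMod.stdAddChar (b * (m : ZMod y)))) := by
    intro a b
    have e1 : e (a, b) * (m : ZMod (x * y)) =
        (((a.val * y + b.val * x) * m : ℤ) : ZMod (x * y)) := by simp [e]
    have e2 : a * (m : ZMod x) = ((a.val * m : ℤ) : ZMod x) := by push_cast; simp
    have e3 : b * (m : ZMod y) = ((b.val * m : ℤ) : ZMod y) := by push_cast; simp
    have e4 : J(a.val * y + b.val * x | x) = J(a.val | x) * J(y | x) := by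
      rw [← jacobiSym.mul_left]
      apply jacobiSym.mod_left'
      simp
    have e5 : J(a.val * y + b.val * x | y) = J(b.val | y) * J(x | y) := by
      rw [← jacobiSym.mul_left]
      apply jacobiSym.mod_left'
      rw [add_comm]
      simp
    rw [e1, e2, e3, ZMod.stdAddChar_coe, ZMod.stdAddChar_coe, ZMod.stdAddChar_coe, qc_val, qc_val]
    simp only [e]
    rw [Phi_int, e4, e5]
    have e6 : Complex.exp (2 * π * Complex.I * (((a.val * y + b.val * x) * m : ℤ) : ℂ) /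
        ((x * y : ℕ) : ℂ)) =
        Complex.exp (2 * π * Complex.I * ((a.val * m : ℤ) : ℂ) / (x : ℂ)) *
          Complex.exp (2 * π * Complex.I * ((b.val * m : ℤ) : ℂ) / (y : ℂ)) := by
      rw [← Complex.exp_add]
      congr 1
      push_cast
      field_simp
    rw [e6]
    push_cast
    ring
  simp_rw [h3, ← mul_sum]
  rw [← sum_mul, gs_shift hx, gs_shift hy]
  ring

theorem root_number {x y : ℕ} [Fact x.Prime] [Fact y.Prime] (hx : x ≠ 2)
    (hy : y ≠ 2) (hxy : x ≠ y) (hc : cls x = cls y) :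
    (J(y | x) * J(x | y) * (gs x * gs y) : ℂ) = (√((x * y : ℕ) : ℝ) : ℝ) := by
  have hxp : x.Prime := Fact.out
  have hyp : y.Prime := Fact.out
  have hox : Odd x := hxp.odd_of_ne_two hx
  have hoy : Odd y := hyp.odd_of_ne_two hy
  have hsx : 0 < √(x : ℝ) := sqrt_pos.2 (by exact_mod_cast hxp.pos)
  have hsy : 0 < √(y : ℝ) := sqrt_pos.2 (by exact_mod_cast hyp.pos)
  have hsq : J(y | x) ^ 2 = 1 := jacobiSym.sq_one (by
    rw [Int.gcd_natCast_natCast]
    exact (Nat.coprime_primes hyp hxp).2 hxy.symm)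
  have hsqC : (J(y | x) : ℂ) * J(y | x) = 1 := by rw [← sq]; exact_mod_cast hsq
  have hmul : √((x * y : ℕ) : ℝ) = √x * √y := by
    push_cast; exact sqrt_mul (by positivity) _
  have h1 := gs_sq hx
  have h2 := gs_sq hy
  simp only [cls, Prod.mk.injEq, decide_eq_decide] at hc
  obtain ⟨hc1, hc2⟩ := hc
  have hX : ((√(x : ℝ) : ℝ) : ℂ) ^ 2 = x := by
    rw [← Complex.ofReal_pow, sq_sqrt (by positivity)]; simp
  have hY : ((√(y : ℝ) : ℝ) : ℂ) ^ 2 = y := by
    rw [← Complex.ofReal_pow, sq_sqrt (by positivity)]; simp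
  by_cases h4 : x % 4 = 1
  · have h4' := hc1.1 h4
    rw [ZMod.χ₄_nat_one_mod_four h4] at h1
    rw [ZMod.χ₄_nat_one_mod_four h4'] at h2
    rw [jacobiSym.quadratic_reciprocity_one_mod_four h4 hoy, hsqC, hmul]
    have a1 : gs x = (√(x : ℝ) : ℝ) ∨ gs x = -(√(x : ℝ) : ℝ) :=
      sq_eq_sq_iff_eq_or_eq_neg.1 (by rw [h1, hX]; simp)
    have a2 : gs y = (√(y : ℝ) : ℝ) ∨ gs y = -(√(y : ℝ) : ℝ) :=
      sq_eq_sq_iff_eq_or_eq_neg.1 (by rw [h2, hY]; simp)
    rcases a1 with a1 | a1 <;> rcases a2 with a2 | a2 <;> rw [a1, a2] at hc2 ⊢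
    · push_cast; ring
    · simp at hc2; exfalso; have := hc2.1 (by simpa using hxp.pos); linarith
    · simp at hc2; exfalso; have := hc2.2 (by simpa using hyp.pos); linarith
    · push_cast; ring
  · have h3 : x % 4 = 3 := by have := Nat.odd_iff.1 hox; omega
    have h3' : y % 4 = 3 := by
      have := Nat.odd_iff.1 hoy
      have : ¬ y % 4 = 1 := fun h => h4 (hc1.2 h)
      omega
    rw [ZMod.χ₄_nat_three_mod_four h3] at h1
    rw [ZMod.χ₄_nat_three_mod_four h3'] at h2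
    rw [jacobiSym.quadratic_reciprocity_three_mod_four h3 h3', hmul]
    have a1 : gs x = (√(x : ℝ) : ℝ) * Complex.I ∨ gs x = -((√(x : ℝ) : ℝ) * Complex.I) :=
      sq_eq_sq_iff_eq_or_eq_neg.1 (by rw [h1, mul_pow, hX]; simp)
    have a2 : gs y = (√(y : ℝ) : ℝ) * Complex.I ∨ gs y = -((√(y : ℝ) : ℝ) * Complex.I) :=
      sq_eq_sq_iff_eq_or_eq_neg.1 (by rw [h2, mul_pow, hY]; simp)
    have hI : Complex.I * Complex.I = -1 := Complex.I_mul_I
    rcases a1 with a1 | a1 <;> rcases a2 with a2 | a2 <;> rw [a1, a2] at hc2 ⊢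
    · push_cast
      linear_combination (-(√(x : ℝ) : ℝ) * (√(y : ℝ) : ℝ) * Complex.I * Complex.I) * hsqC
        - (√(x : ℝ) : ℝ) * (√(y : ℝ) : ℝ) * hI
    · simp at hc2; exfalso; have := hc2.1 (by simpa using hxp.pos); linarith
    · simp at hc2; exfalso; have := hc2.2 (by simpa using hyp.pos); linarith
    · push_cast
      linear_combination (-(√(x : ℝ) : ℝ) * (√(y : ℝ) : ℝ) * Complex.I * Complex.I) * hsqC
        - (√(x : ℝ) : ℝ) * (√(y : ℝ) : ℝ) * hI

theorem kron_pair {x y : ℕ} (hx : Odd x) (hy : Odd y) (hx1 : 1 < x) (h4 : x % 4 = y % 4) (n : ℕ) :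
    kron (x * y) n = J(n | x) * J(n | y) := by
  unfold kron
  split_ifs with hn
  · rw [hn, Nat.cast_zero, jacobiSym.zero_left hx1, zero_mul]
  · have key : ∀ l : List ℕ, (∀ p ∈ l, p.Prime) →
        (l.map fun p => if p = 2 then ZMod.χ₈ ((x * y : ℕ) : ZMod 8)
          else jacobiSym (x * y : ℕ) p).prod = J((l.prod : ℕ) | x) * J((l.prod : ℕ) | y) := by
      intro l hl
      induction l with
      | nil => simp
      | cons p l ih =>
        rw [List.map_cons, List.prod_cons, List.prod_cons, ih fun r hr => hl r (by simp [hr])]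
        have hp := hl p (by simp)
        have : (if p = 2 then ZMod.χ₈ ((x * y : ℕ) : ZMod 8) else jacobiSym (x * y : ℕ) p) =
            J(p | x) * J(p | y) := by
          split_ifs with h2
          · rw [h2, Nat.cast_ofNat, jacobiSym.at_two hx, jacobiSym.at_two hy, Nat.cast_mul, map_mul]
          · have hop : Odd p := hp.odd_of_ne_two h2
            rw [Nat.cast_mul, jacobiSym.mul_left]
            have h1 := Nat.odd_iff.1 hx
            have h1' := Nat.odd_iff.1 hop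
            by_cases hx4 : x % 4 = 1
            · rw [jacobiSym.quadratic_reciprocity_one_mod_four hx4 hop,
                jacobiSym.quadratic_reciprocity_one_mod_four (h4 ▸ hx4) hop]
            · have hx3 : x % 4 = 3 := by omega
              by_cases hp4 : p % 4 = 1
              · rw [jacobiSym.quadratic_reciprocity_one_mod_four' hx hp4,
                  jacobiSym.quadratic_reciprocity_one_mod_four' hy hp4]
              · have hp3 : p % 4 = 3 := by omega
                rw [jacobiSym.quadratic_reciprocity_three_mod_four hx3 hp3,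
                  jacobiSym.quadratic_reciprocity_three_mod_four (h4 ▸ hx3) hp3]
                ring
        rw [this, Nat.cast_mul, jacobiSym.mul_left, jacobiSym.mul_left]
        ring
    rw [key _ fun p hp => Nat.prime_of_mem_primeFactorsList hp, Nat.prod_primeFactorsList hn]

theorem mod_four_of_cls {x y : ℕ} (hx : Odd x) (hy : Odd y) (hc : cls x = cls y) :
    x % 4 = y % 4 := by
  simp only [cls, Prod.mk.injEq, decide_eq_decide] at hc
  have := hc.1
  have := Nat.odd_iff.1 hx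
  have := Nat.odd_iff.1 hy
  omega

theorem isFund_pair {x y : ℕ} (hxp : x.Prime) (hyp : y.Prime) (hx : x ≠ 2) (hy : y ≠ 2)
    (hxy : x ≠ y) (hc : cls x = cls y) : IsFund (x * y) := by
  have hox := hxp.odd_of_ne_two hx
  have hoy := hyp.odd_of_ne_two hy
  have h4 := mod_four_of_cls hox hoy hc
  refine ⟨Nat.one_lt_mul_iff.2 ⟨hxp.pos, hyp.pos, Or.inl hxp.one_lt⟩, Or.inl ⟨?_, ?_⟩⟩
  · have := Nat.odd_iff.1 hox
    rw [Nat.mul_mod, ← h4]
    have : x % 4 = 1 ∨ x % 4 = 3 := by omega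
    rcases this with h | h <;> rw [h]
  · rw [Nat.squarefree_mul ((Nat.coprime_primes hxp hyp).2 hxy)]
    exact ⟨hxp.prime.squarefree, hyp.prime.squarefree⟩

/-- The analytic input for a pair of primes of one class. -/
theorem pair_formula {x y : ℕ} (hxp : x.Prime) (hyp : y.Prime) (hx : x ≠ 2) (hy : y ≠ 2)
    (hxy : x ≠ y) (hc : cls x = cls y) : ∃ T : ℝ → ℝ,
    (∀ τ, 0 < τ → HasSum (fun m : ℤ => (J(m | x) : ℝ) * J(m | y) * exp (-π * (m : ℝ) ^ 2 * τ))
      (T τ)) ∧
    IntegrableOn (fun τ => τ ^ (-(3 / 4 : ℝ)) * (x * y * τ / (1 + x * y * τ) * T τ))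
      (Set.Ioi 0) ∧
    ∫ τ in Set.Ioi 0, τ ^ (-(3 / 4 : ℝ)) * (x * y * τ / (1 + x * y * τ) * T τ) =
      c0 * Lhalf (x * y) := by
  have := Fact.mk hxp
  have := Fact.mk hyp
  have h0 : x * y ≠ 0 := mul_ne_zero hxp.ne_zero hyp.ne_zero
  have : NeZero (x * y) := ⟨h0⟩
  have hox := hxp.odd_of_ne_two hx
  have hoy := hyp.odd_of_ne_two hy
  have h4 := mod_four_of_cls hox hoy hc
  have hd : SelfDual (Phi x y) := by
    intro m
    rw [gauss_pair hx hy hxy, root_number hx hy hxy hc, Phi_int]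
    push_cast
    ring
  have hz : Phi x y 0 = 0 := by
    have := Phi_int (x := x) (y := y) 0
    simpa [jacobiSym.zero_left hxp.one_lt] using this
  have hs : ∑ a, Phi x y a = 0 := by
    have := hd 0
    simp only [Int.cast_zero, mul_zero, Complex.exp_zero, mul_one, hz] at this
    exact_mod_cast this
  have he : ∀ a, Phi x y (-a) = Phi x y a := by
    intro a
    obtain ⟨m, rfl⟩ := ZMod.intCast_surjective a
    rw [← Int.cast_neg, Phi_int, Phi_int, jacobiSym.neg _ hox, jacobiSym.neg _ hoy]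
    have : ZMod.χ₄ (x : ZMod 4) * ZMod.χ₄ (y : ZMod 4) = 1 := by
      have := Nat.odd_iff.1 hox
      have : x % 4 = 1 ∨ x % 4 = 3 := by omega
      rcases this with h | h
      · rw [ZMod.χ₄_nat_one_mod_four h, ZMod.χ₄_nat_one_mod_four (h4 ▸ h)]; rfl
      · rw [ZMod.χ₄_nat_three_mod_four h, ZMod.χ₄_nat_three_mod_four (h4 ▸ h)]; rfl
    have h5 : ((ZMod.χ₄ (x : ZMod 4) : ℤ) : ℝ) * (ZMod.χ₄ (y : ZMod 4) : ℤ) = 1 := by
      exact_mod_cast this
    push_cast
    linear_combination (J(m | x) : ℝ) * J(m | y) * h5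
  obtain ⟨h1, h2⟩ := balanced he hz hs hd
  refine ⟨Th (Phi x y), fun τ hτ => ?_, ?_, ?_⟩
  · simpa only [Phi_int] using hasSum_Th (Phi x y) hτ
  · simpa only [Nat.cast_mul] using h1
  · rw [Lhalf, dif_neg h0]
    have : (fun a : ZMod (x * y) => (kron (x * y) a.val : ℂ)) = fun a => (Phi x y a : ℂ) := by
      funext a
      rw [kron_pair hox hoy hxp.one_lt h4, Phi]
      push_cast; rfl
    rw [this, ← h2]
    simp only [Nat.cast_mul]

end Pool.Agent.LRes
end
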