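import Pool.Agent.P.MP_ea46f5_nt.QM.S2
import Pool.Agent.P.MP_ea46f5_nt.QM.S1

-- part Pool.Agent.P.MP_ea46f5_nt.QM.FAF1
section

namespace Pool.Agent.QM

open Complex MeasureTheory Finset
open scoped Real ComplexConjugate

/-- The function whose value at `0` is the central value. -/
noncomputable def af1F (k : ℤ) (s : ℂ) : ℂ :=
  Gammaℝ (1 / 2 + par k + s) / Gammaℝ (1 / 2 + par k) * cexp (s ^ 2) * (qk k : ℂ) ^ (s / 2) *
    Lf k (1 / 2 + s)

theorem af1_gam_diff {s : ℂ} (hs : 0 < s.re) : DifferentiableAt ℂ Gammaℝ s := by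
  have e : Gammaℝ = fun s : ℂ => (π : ℂ) ^ (-s / 2) * Gamma (s / 2) := funext Gammaℝ_def
  rw [e]
  refine DifferentiableAt.mul (DifferentiableAt.const_cpow (by fun_prop)
    (Or.inl (ofReal_ne_zero.mpr Real.pi_ne_zero))) ?_
  refine DifferentiableAt.comp (g := Gamma) (f := fun s : ℂ => s / 2) s
    (Complex.differentiableAt_Gamma _ fun m h => ?_) (by fun_prop)
  have := congrArg Complex.re h
  simp at this
  have : (0 : ℝ) ≤ m := Nat.cast_nonneg m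
  linarith

theorem af1_q1 (hBRG : BRG) {k : ℤ} (hk : Squarefree k) : 1 ≤ qk k := by
  have h := (hBRG.2.1 k).1
  have : (1 : ℝ) ≤ |(k : ℝ)| := by exact_mod_cast Int.one_le_abs hk.ne_zero
  linarith

theorem af1_diff (hBRG : BRG) {k : ℤ} (hk : Squarefree k) (h1 : k ≠ 1) {s : ℂ}
    (hs : -(1 / 2) < s.re) : DifferentiableAt ℂ (af1F k) s := by
  have hO : IsOpen {s : ℂ | 0 < s.re} := isOpen_lt continuous_const Complex.continuous_re
  have hp : (0 : ℝ) ≤ par k := Nat.cast_nonneg _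
  have hq : (qk k : ℂ) ≠ 0 := ofReal_ne_zero.mpr (by linarith [af1_q1 hBRG hk])
  have d₁ : DifferentiableAt ℂ (fun s : ℂ => Gammaℝ (1 / 2 + par k + s)) s :=
    DifferentiableAt.comp (g := Gammaℝ) (f := fun s : ℂ => 1 / 2 + par k + s) s
      (af1_gam_diff (by simp; linarith)) (by fun_prop)
  have d₂ : DifferentiableAt ℂ (fun s : ℂ => (qk k : ℂ) ^ (s / 2)) s :=
    DifferentiableAt.const_cpow (by fun_prop) (Or.inl hq)
  have d₃ : DifferentiableAt ℂ (fun s : ℂ => Lf k (1 / 2 + s)) s :=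
    DifferentiableAt.comp (g := Lf k) (f := fun s : ℂ => 1 / 2 + s) s
      ((hBRG.2.2.2 k hk h1).differentiableAt (hO.mem_nhds (by simp; linarith))) (by fun_prop)
  unfold af1F
  exact (((d₁.div_const _).mul (by fun_prop)).mul d₂).mul d₃

theorem af1_zero (k : ℤ) : af1F k 0 = Lf k (1 / 2) := by
  have hp : (0 : ℝ) ≤ par k := Nat.cast_nonneg _
  have hg : Gammaℝ (1 / 2 + par k) ≠ 0 := Gammaℝ_ne_zero_of_re_pos (by simp; linarith)
  simp only [af1F, add_zero, div_self hg]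
  simp

theorem af1_lam (hBRG : BRG) {k : ℤ} (hk : Squarefree k) (s : ℂ) :
    af1F k s = Lam k (1 / 2 + s) * cexp (s ^ 2) /
      ((qk k : ℂ) ^ (1 / 4 : ℂ) * Gammaℝ (1 / 2 + par k)) := by
  have hp : (0 : ℝ) ≤ par k := Nat.cast_nonneg _
  have hg : Gammaℝ (1 / 2 + par k) ≠ 0 := Gammaℝ_ne_zero_of_re_pos (by simp; linarith)
  have hq : (qk k : ℂ) ≠ 0 := ofReal_ne_zero.mpr (by linarith [af1_q1 hBRG hk])
  have hq4 : (qk k : ℂ) ^ (1 / 4 : ℂ) ≠ 0 := by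
    rw [Ne, Complex.cpow_eq_zero_iff]
    exact fun h => hq h.1
  have e₁ : (1 / 2 + s) / 2 = 1 / 4 + s / 2 := by ring
  have e₂ : 1 / 2 + s + par k = 1 / 2 + par k + s := by ring
  unfold af1F Lam
  rw [e₁, e₂, Complex.cpow_add _ _ hq]
  field_simp

theorem af1_bound (hGAM2 : GAM2) (hLOB : LOB) (hBRG : BRG) (hDEC : DEC) {k : ℤ}
    (hk : Squarefree k) (h1 : k ≠ 1) : ∃ C : ℝ, 0 ≤ C ∧ ∀ s : ℂ, -(1 / 4) ≤ s.re → s.re ≤ 13 →
      ‖af1F k s‖ ≤ C / br s.im ^ 2 := by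
  obtain ⟨h, C, hC, hG⟩ := hGAM2
  obtain ⟨D, hD, hE⟩ := hDEC.2.1 (h + 3)
  have hq := af1_q1 hBRG hk
  have hp : (0 : ℝ) ≤ par k := Nat.cast_nonneg _
  have hg : Gammaℝ (1 / 2 + par k) ≠ 0 := Gammaℝ_ne_zero_of_re_pos (by simp; linarith)
  refine ⟨C * Real.exp 170 * qk k ^ (7 : ℝ) * (7 * (16 * |(k : ℝ)| * 14)) * D, by positivity,
    fun s l u => ?_⟩
  have hb : 1 ≤ br s.im := by unfold br; linarith [abs_nonneg s.im]
  have b0 : br 0 = 1 := by simp [br]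
  have b₁ : ‖Gammaℝ (1 / 2 + par k + s) / Gammaℝ (1 / 2 + par k)‖ ≤
      C * br s.im ^ h * Real.exp |s.im| := by
    have := hG (par k) 0 s (hBRG.2.1 k).2.2.1 l u
    simp only [ofReal_zero, zero_mul, add_zero, b0, one_pow, mul_one] at this
    rw [norm_div, div_le_iff₀ (norm_pos_iff.mpr hg)]
    exact this
  have b₂ : ‖cexp (s ^ 2)‖ ≤ Real.exp (169 - s.im ^ 2) := by
    rw [Complex.norm_exp]
    refine Real.exp_le_exp.mpr ?_
    have : (s ^ 2).re = s.re ^ 2 - s.im ^ 2 := by simp [pow_two]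
    rw [this]
    nlinarith
  have b₃ : ‖(qk k : ℂ) ^ (s / 2)‖ ≤ qk k ^ (7 : ℝ) := by
    rw [Complex.norm_cpow_eq_rpow_re_of_pos (by linarith)]
    refine Real.rpow_le_rpow_of_exponent_le hq ?_
    simp
    linarith
  have hre : (1 / 2 + s).re = 1 / 2 + s.re := by simp
  have b₄ : ‖Lf k (1 / 2 + s)‖ ≤ 7 * (16 * |(k : ℝ)| * 14) * br s.im := by
    have r : 1 / 4 ≤ (1 / 2 + s).re := by rw [hre]; linarith
    have n : ‖1 / 2 + s‖ ≤ 14 * br s.im := by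
      refine (Complex.norm_le_abs_re_add_abs_im _).trans ?_
      have e : (1 / 2 + s).im = s.im := by simp
      rw [e, abs_of_nonneg (by linarith), hre]
      unfold br
      linarith [abs_nonneg s.im]
    calc ‖Lf k (1 / 2 + s)‖ ≤ 7 * ‖Lo k (1 / 2 + s)‖ := (hBRG.2.2.1 k _ r).2
      _ ≤ 7 * (4 * |(k : ℝ)| * ‖1 / 2 + s‖ / (1 / 2 + s).re) := by
        gcongr
        exact hLOB k _ hk h1 (by linarith)
      _ ≤ 7 * (4 * |(k : ℝ)| * (14 * br s.im) / (1 / 4)) := by gcongr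
      _ = 7 * (16 * |(k : ℝ)| * 14) * br s.im := by ring
  have b₅ : Real.exp |s.im| * Real.exp (169 - s.im ^ 2) ≤
      Real.exp 170 * Real.exp (-|s.im - 0| / 2) := by
    rw [← Real.exp_add, ← Real.exp_add, sub_zero]
    refine Real.exp_le_exp.mpr ?_
    nlinarith [sq_abs s.im, sq_nonneg (|s.im| - 1), abs_nonneg s.im]
  have b₆ := hE s.im 0
  rw [b0, one_pow, mul_one] at b₆
  rw [le_div_iff₀ (by positivity)]
  unfold af1F
  rw [norm_mul, norm_mul, norm_mul]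
  calc _ ≤ C * br s.im ^ h * Real.exp |s.im| * Real.exp (169 - s.im ^ 2) * qk k ^ (7 : ℝ) *
        (7 * (16 * |(k : ℝ)| * 14) * br s.im) * br s.im ^ 2 := by gcongr
    _ = C * qk k ^ (7 : ℝ) * (7 * (16 * |(k : ℝ)| * 14)) *
        (Real.exp |s.im| * Real.exp (169 - s.im ^ 2)) * br s.im ^ (h + 3) := by ring
    _ ≤ C * qk k ^ (7 : ℝ) * (7 * (16 * |(k : ℝ)| * 14)) *
        (Real.exp 170 * Real.exp (-|s.im - 0| / 2)) * br s.im ^ (h + 3) := by gcongr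
    _ = C * Real.exp 170 * qk k ^ (7 : ℝ) * (7 * (16 * |(k : ℝ)| * 14)) *
        (Real.exp (-|s.im - 0| / 2) * br s.im ^ (h + 3)) := by ring
    _ ≤ _ := by gcongr

theorem af1_refl {F : ℂ → ℂ} {W : ℂ} (hF : ∀ s : ℂ, s.re = 1 / 4 → F (-s) = W * F s) :
    Iv (-(1 / 4)) (fun s => F s / (s - 0)) = -W * Iv (1 / 4) (fun s => F s / (s - 0)) := by
  unfold Iv
  rw [← integral_neg_eq_self, ← integral_const_mul]
  refine integral_congr_ae (Filter.Eventually.of_forall fun t => ?_)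
  have e : ((-(1 / 4) : ℝ) : ℂ) + ((-t : ℝ) : ℂ) * I = -(((1 / 4 : ℝ) : ℂ) + t * I) := by
    push_cast
    ring
  simp only [sub_zero]
  rw [e, hF _ (by simp), div_neg]
  ring

theorem pAF1 (hFE : FE) (hSH0 : SH0) (hSH1 : SH1) (hGAM2 : GAM2) (hG0B : G0B) (hLOP : LOP) (hLOB : LOB) (hBRG : BRG) (hDEC : DEC) : AF1 := by
  intro k hk h1
  obtain ⟨⟨W, hW, hL⟩, -⟩ := hFE k hk h1
  obtain ⟨C, hC, hB⟩ := af1_bound hGAM2 hLOB hBRG hDEC hk h1
  have hb : ∀ t : ℝ, 1 ≤ br t := fun t => by unfold br; linarith [abs_nonneg t]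
  have s₁ := hSH1 (-(1 / 4)) (1 / 4) C (af1F k) 0 (by norm_num) (by norm_num)
    ⟨fun s hs => (af1_diff hBRG hk h1 (by linarith [hs.1])).continuousAt.continuousWithinAt,
      fun s hs => (af1_diff hBRG hk h1 (by linarith [hs.1])).differentiableWithinAt⟩
    (fun s hs => (hB s hs.1 (by linarith [hs.2])).trans (by
      have := hb s.im
      gcongr
      nlinarith))
  have hd : ∀ s : ℂ, 1 / 4 ≤ s.re → DifferentiableAt ℂ (fun s => af1F k s / (s - 0)) s := by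
    intro s hs
    refine (af1_diff hBRG hk h1 (by linarith)).div (by fun_prop) fun h => ?_
    rw [sub_zero] at h
    rw [h] at hs
    norm_num at hs
  have s₂ := hSH0 (1 / 4) 12 (4 * C) (fun s => af1F k s / (s - 0)) (by norm_num)
    ⟨fun s hs => (hd s hs.1).continuousAt.continuousWithinAt,
      fun s hs => (hd s hs.1.le).differentiableWithinAt⟩
    (fun s hs => by
      have n : 1 / 4 ≤ ‖s‖ := hs.1.trans (Complex.re_le_norm s)
      have := hb s.im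
      rw [sub_zero, norm_div]
      calc ‖af1F k s‖ / ‖s‖ ≤ C / br s.im ^ 2 / (1 / 4) := by
            gcongr
            exact hB s (by linarith [hs.1]) (by linarith [hs.2])
        _ = 4 * C / br s.im ^ 2 := by ring)
  have hr : ∀ s : ℂ, s.re = 1 / 4 → af1F k (-s) = W * af1F k s := by
    intro s hs
    have hre : (1 / 2 + s).re = 3 / 4 := by simp [hs]; norm_num
    have e : 1 / 2 + -s = 1 - (1 / 2 + s) := by ring
    rw [af1_lam hBRG hk, af1_lam hBRG hk, e, hL _ (by rw [hre]; norm_num) (by rw [hre]; norm_num),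
      neg_sq]
    ring
  have e₃ : (Iv 12 fun s => g0 (par k) (gam k) s * (qk k : ℂ) ^ (s / 2) * LS k (1 / 2 + s)) =
      Iv 12 fun s => af1F k s / (s - 0) := by
    unfold Iv
    refine integral_congr_ae (Filter.Eventually.of_forall fun t => ?_)
    simp only [sub_zero]
    rw [← hLOP.1 k _ hk.ne_zero (by simp; norm_num)]
    unfold g0 af1F Lf
    ring
  rw [e₃, s₂]
  rw [af1_refl hr, af1_zero] at s₁
  have hW1 : ‖W‖ = 1 := by
    have := congrArg norm hW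
    rw [norm_pow, norm_one] at this
    exact (pow_eq_one_iff_of_nonneg (norm_nonneg _) two_ne_zero).mp this
  have e₄ : 2 * (π : ℂ) * Lf k (1 / 2) = (1 + W) * Iv (1 / 4) fun s => af1F k s / (s - 0) := by
    linear_combination -s₁
  have e₅ := congrArg norm e₄
  rw [norm_mul, norm_mul, norm_mul, Complex.norm_real, Real.norm_of_nonneg Real.pi_pos.le,
    Complex.norm_ofNat] at e₅
  have n : ‖1 + W‖ ≤ 2 := (norm_add_le _ _).trans (by rw [norm_one, hW1]; norm_num)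
  have := mul_le_mul_of_nonneg_right n (norm_nonneg (Iv (1 / 4) fun s => af1F k s / (s - 0)))
  linarith

end Pool.Agent.QM
end

-- part Pool.Agent.P.MP_ea46f5_nt.QM.FAFE
section

namespace Pool.Agent.QM

open Complex MeasureTheory Finset
open scoped Real ComplexConjugate

/-- The integrand of the shifted integral, without the factor `1 / u`. -/
noncomputable def afe_F (k : ℤ) (t : ℝ) (u : ℂ) : ℂ :=
  hh (par k) (gam k) t u * (qk k : ℂ) ^ u * Lo k (1 / 2 + t * I + u) ^ 2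

/-- The normalising constant. -/
noncomputable def afe_c (k : ℤ) (t : ℝ) : ℂ :=
  (qk k : ℂ) ^ (1 / 2 + t * I : ℂ) * Gammaℝ (1 / 2 + par k + t * I) ^ 2

lemma afe_q (hBRG : BRG) {k : ℤ} (hk : Squarefree k) : 1 ≤ qk k := by
  have h := (hBRG.2.1 k).1
  have h0 : k ≠ 0 := hk.ne_zero
  have h1 : (1 : ℝ) ≤ |(k : ℝ)| := by
    have : (1 : ℤ) ≤ |k| := Int.one_le_abs h0
    exact_mod_cast this
  linarith

lemma afe_G_ne (a : ℕ) (t : ℝ) : Gammaℝ (1 / 2 + a + t * I) ≠ 0 := by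
  apply Gammaℝ_ne_zero_of_re_pos
  have : (0 : ℝ) ≤ a := Nat.cast_nonneg a
  simp
  linarith

lemma afe_c_ne {k : ℤ} (hq : 1 ≤ qk k) (t : ℝ) : afe_c k t ≠ 0 := by
  have hq0 : (qk k : ℂ) ≠ 0 := by
    have : qk k ≠ 0 := by linarith
    exact_mod_cast this
  unfold afe_c
  refine mul_ne_zero ?_ (pow_ne_zero _ (afe_G_ne _ _))
  rw [Ne, cpow_eq_zero_iff]
  exact fun h => hq0 h.1

lemma afe_G_norm (a : ℕ) (t : ℝ) :
    ‖Gammaℝ (1 / 2 + a + (-t : ℝ) * I)‖ = ‖Gammaℝ (1 / 2 + a + t * I)‖ := by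
  have h1 : ((1 / 2 + a + (-t : ℝ) * I : ℂ) / 2) = conj ((1 / 2 + a + t * I : ℂ) / 2) := by
    simp only [map_div₀, map_add, map_mul, map_one, map_ofNat, map_natCast, conj_ofReal, conj_I]
    push_cast
    ring
  rw [Gammaℝ_def, Gammaℝ_def, norm_mul, norm_mul, h1, Gamma_conj, Complex.norm_conj,
    norm_cpow_eq_rpow_re_of_pos Real.pi_pos, norm_cpow_eq_rpow_re_of_pos Real.pi_pos]
  simp

lemma afe_c_norm {k : ℤ} (hq : 1 ≤ qk k) (t : ℝ) : ‖afe_c k (-t)‖ = ‖afe_c k t‖ := by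
  have hq0 : 0 < qk k := by linarith
  unfold afe_c
  rw [norm_mul, norm_mul, norm_pow, norm_pow, afe_G_norm, norm_cpow_eq_rpow_re_of_pos hq0,
    norm_cpow_eq_rpow_re_of_pos hq0]
  simp

lemma afe_F_eq {k : ℤ} (hq : 1 ≤ qk k) (t : ℝ) (u : ℂ) :
    afe_F k t u = Lam k (1 / 2 + t * I + u) ^ 2 * gt t u / afe_c k t := by
  have hq0 : (qk k : ℂ) ≠ 0 := by
    have : qk k ≠ 0 := by linarith
    exact_mod_cast this
  have hG := afe_G_ne (par k) t
  have hp : (qk k : ℂ) ^ (1 / 2 + t * I : ℂ) ≠ 0 := by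
    rw [Ne, cpow_eq_zero_iff]
    exact fun h => hq0 h.1
  have h2 : ((qk k : ℂ) ^ ((1 / 2 + t * I + u) / 2 : ℂ)) ^ 2 =
      (qk k : ℂ) ^ (1 / 2 + t * I : ℂ) * (qk k : ℂ) ^ u := by
    rw [sq, ← cpow_add _ _ hq0, ← cpow_add _ _ hq0]
    congr 1
    ring
  have h3 : (1 / 2 + t * I + u + (par k : ℂ)) = 1 / 2 + par k + t * I + u := by ring
  unfold afe_F afe_c Lam Lf hh
  rw [mul_pow, mul_pow, h2, h3, div_pow, div_pow]
  generalize Gammaℝ (1 / 2 + par k + t * I + u) = G1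
  generalize Gammaℝ (1 / 2 + par k + t * I) = G0 at hG
  generalize (1 - (gam k : ℂ) * (2 : ℂ) ^ (-(1 / 2 + t * I + u))) ^ 2 = D
  generalize (qk k : ℂ) ^ (1 / 2 + t * I : ℂ) = Q at hp
  generalize Lo k (1 / 2 + t * I + u) = L
  rw [eq_div_iff (mul_ne_zero hp (pow_ne_zero 2 hG))]
  simp only [div_eq_mul_inv]
  have h4 : (G0 ^ 2)⁻¹ * G0 ^ 2 = 1 := inv_mul_cancel₀ (pow_ne_zero 2 hG)
  linear_combination (G1 ^ 2 * gt t u * D⁻¹ * (qk k : ℂ) ^ u * L ^ 2 * Q) * h4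

lemma afe_gt (t : ℝ) (u : ℂ) : gt t (-u) = gt (-t) u := by
  unfold gt
  push_cast
  have h1 : (-u) ^ 2 = u ^ 2 := by ring
  have h2 : (-(t : ℂ)) ^ 2 = (t : ℂ) ^ 2 := by ring
  have h3 : (1 / 2 - -(t : ℂ) * I) = 1 / 2 + t * I := by ring
  have h4 : (1 / 2 + -(t : ℂ) * I) = 1 / 2 - t * I := by ring
  rw [h1, h2, h3, h4, mul_comm (u ^ 2 - (1 / 2 - t * I) ^ 2)]

lemma afe_refl (hFE : FE) {k : ℤ} (hk : Squarefree k) (h1 : k ≠ 1) (hq : 1 ≤ qk k) (t : ℝ)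
    (u : ℂ) (hu : u.re = 1 / 4) :
    afe_F k t (-u) = afe_c k (-t) / afe_c k t * afe_F k (-t) u := by
  obtain ⟨W, hW, hL⟩ := (hFE k hk h1).1
  have e1 : (1 / 2 + t * I + -u : ℂ) = 1 - (1 / 2 + (-t : ℝ) * I + u) := by
    push_cast
    ring
  have e2 : (1 / 2 + (-t : ℝ) * I + u : ℂ).re = 3 / 4 := by
    simp [hu]
    norm_num
  rw [afe_F_eq hq, afe_F_eq hq, e1, hL _ (by rw [e2]; norm_num) (by rw [e2]; norm_num),
    mul_pow, hW, afe_gt]
  have c1 := afe_c_ne hq t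
  have c2 := afe_c_ne hq (-t)
  field_simp

lemma afe_diff (hHB : HB) (hLOP : LOP) (hBRG : BRG) {k : ℤ} (hk : Squarefree k) (h1 : k ≠ 1)
    (t : ℝ) : DifferentiableOn ℂ (afe_F k t) {s | -(1 / 2) < s.re} := by
  obtain ⟨h, C, -, hb⟩ := hHB
  obtain ⟨-, -, hp, hg⟩ := hBRG.2.1 k
  obtain ⟨-, ⟨g, hgd, hge⟩, -⟩ := hb (par k) (gam k) t hp hg
  have hq := afe_q hBRG hk
  have hq0 : (qk k : ℂ) ≠ 0 := by
    have : qk k ≠ 0 := by linarith
    exact_mod_cast this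
  have hL := hLOP.2.1 k hk h1
  have e : afe_F k t = fun u => (u - (1 / 2 - t * I)) ^ 2 * g u * (qk k : ℂ) ^ u *
      Lo k (1 / 2 + t * I + u) ^ 2 := by
    funext u
    unfold afe_F
    rw [hge]
  rw [e]
  refine DifferentiableOn.mul (DifferentiableOn.mul (DifferentiableOn.mul ?_ hgd) ?_) ?_
  · exact ((differentiable_id.sub_const _).pow 2).differentiableOn
  · exact (differentiable_id.const_cpow (Or.inl hq0)).differentiableOn
  · exact ((hL.comp (differentiable_id.const_add _)).pow 2).differentiableOn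

lemma afe_bound (hHB : HB) (hLOB : LOB) (hBRG : BRG) (hDEC : DEC) {k : ℤ} (hk : Squarefree k)
    (h1 : k ≠ 1) (t : ℝ) : ∃ C : ℝ, 0 ≤ C ∧ ∀ s : ℂ, -(1 / 4) ≤ s.re → s.re ≤ 12 →
      ‖afe_F k t s‖ ≤ C / br s.im ^ 2 := by
  obtain ⟨h, C, hC, hb⟩ := hHB
  obtain ⟨-, -, hp, hg⟩ := hBRG.2.1 k
  obtain ⟨hb1, -, -⟩ := hb (par k) (gam k) t hp hg
  obtain ⟨D, hD, hd⟩ := hDEC.2.1 4
  have hq := afe_q hBRG hk
  have hq0 : 0 < qk k := by linarith
  have hbr : ∀ y : ℝ, 1 ≤ br y := fun y => by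
    unfold br
    have := abs_nonneg y
    linarith
  have hbt := hbr t
  refine ⟨C * br t ^ h * (Real.exp (1 / 8) * D) * qk k ^ (12 : ℝ) *
    (16 * |(k : ℝ)| * (13 * br t)) ^ 2, by positivity, fun s hs1 hs2 => ?_⟩
  have hbs := hbr s.im
  have hre : (1 / 2 + t * I + s : ℂ).re = 1 / 2 + s.re := by simp
  have him : (1 / 2 + t * I + s : ℂ).im = t + s.im := by simp
  have hn : ‖(1 / 2 + t * I + s : ℂ)‖ ≤ 13 * br t * br s.im := by
    refine (Complex.norm_le_abs_re_add_abs_im _).trans ?_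
    rw [hre, him]
    have a1 : |1 / 2 + s.re| ≤ 13 := abs_le.2 ⟨by linarith, by linarith⟩
    have a2 := abs_add_le t s.im
    have a3 := abs_nonneg t
    have a4 := abs_nonneg s.im
    have a5 := mul_nonneg a3 a4
    unfold br
    nlinarith
  have hL : ‖Lo k (1 / 2 + t * I + s)‖ ≤ 16 * |(k : ℝ)| * (13 * br t) * br s.im := by
    refine (hLOB k _ hk h1 (by rw [hre]; linarith)).trans ?_
    rw [hre, div_le_iff₀ (by linarith)]
    have a1 : 4 * |(k : ℝ)| * ‖(1 / 2 + t * I + s : ℂ)‖ ≤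
        4 * |(k : ℝ)| * (13 * br t * br s.im) := by gcongr
    have a2 : 16 * |(k : ℝ)| * (13 * br t) * br s.im * (1 / 4) ≤
        16 * |(k : ℝ)| * (13 * br t) * br s.im * (1 / 2 + s.re) := by
      gcongr
      linarith
    linarith
  have hQ : ‖(qk k : ℂ) ^ s‖ ≤ qk k ^ (12 : ℝ) := by
    rw [norm_cpow_eq_rpow_re_of_pos hq0]
    exact Real.rpow_le_rpow_of_exponent_le hq hs2
  have hE : Real.exp (-s.im ^ 2 / 2) * br s.im ^ 4 ≤ Real.exp (1 / 8) * D := by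
    have a1 := hd s.im 0
    have a2 : br 0 = 1 := by simp [br]
    rw [a2, sub_zero, one_pow, mul_one] at a1
    have a3 : Real.exp (-s.im ^ 2 / 2) ≤ Real.exp (1 / 8) * Real.exp (-|s.im| / 2) := by
      rw [← Real.exp_add]
      apply Real.exp_le_exp.2
      have := sq_abs s.im
      nlinarith [sq_nonneg (|s.im| - 1 / 2)]
    calc Real.exp (-s.im ^ 2 / 2) * br s.im ^ 4
        ≤ Real.exp (1 / 8) * Real.exp (-|s.im| / 2) * br s.im ^ 4 := by gcongr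
      _ = Real.exp (1 / 8) * (Real.exp (-|s.im| / 2) * br s.im ^ 4) := by ring
      _ ≤ Real.exp (1 / 8) * D := by gcongr
  have hH := hb1 s hs1 (by linarith)
  unfold afe_F
  rw [norm_mul, norm_mul, norm_pow, le_div_iff₀ (by positivity)]
  calc ‖hh (par k) (gam k) t s‖ * ‖(qk k : ℂ) ^ s‖ * ‖Lo k (1 / 2 + t * I + s)‖ ^ 2 *
        br s.im ^ 2
      ≤ C * br t ^ h * Real.exp (-s.im ^ 2 / 2) * qk k ^ (12 : ℝ) *
        (16 * |(k : ℝ)| * (13 * br t) * br s.im) ^ 2 * br s.im ^ 2 := by gcongr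
    _ = C * br t ^ h * (Real.exp (-s.im ^ 2 / 2) * br s.im ^ 4) * qk k ^ (12 : ℝ) *
        (16 * |(k : ℝ)| * (13 * br t)) ^ 2 := by ring
    _ ≤ _ := by gcongr

lemma afe_nice {f : ℂ → ℂ} {c a b : ℝ} (hf : DifferentiableOn ℂ f {s | c < s.re}) (h : c < a) :
    Nice a b f :=
  ⟨hf.continuousOn.mono fun _ hs => lt_of_lt_of_le h hs.1, hf.mono fun _ hs => lt_trans h hs.1⟩

lemma afe_Dq (hLOP : LOP) {k : ℤ} (hk : Squarefree k) (t : ℝ) :
    Dq t (fun s => 1 / s) k = Iv 12 fun u => afe_F k t u / u := by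
  unfold Dq Dw Iv
  rw [← integral_add_right_eq_self _ t]
  congr 1
  funext y
  have e1 : (((12 : ℝ) : ℂ) + ((y + t : ℝ) : ℂ) * I - t * I) = (12 : ℝ) + y * I := by
    push_cast
    ring
  have e2 : (1 / 2 + (((12 : ℝ) : ℂ) + ((y + t : ℝ) : ℂ) * I)) =
      1 / 2 + t * I + ((12 : ℝ) + y * I) := by
    push_cast
    ring
  unfold ww afe_F
  simp only []
  rw [e1, e2, ← hLOP.1 k _ hk.ne_zero (by simp; norm_num)]
  ring

lemma afe_shift (hSH0 : SH0) (hHB : HB) (hLOP : LOP) (hLOB : LOB) (hBRG : BRG) (hDEC : DEC)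
    {k : ℤ} (hk : Squarefree k) (h1 : k ≠ 1) (t : ℝ) :
    (Iv 12 fun u => afe_F k t u / u) = Iv (1 / 4) fun u => afe_F k t u / u := by
  obtain ⟨C, hC, hb⟩ := afe_bound hHB hLOB hBRG hDEC hk h1 t
  have hd := afe_diff hHB hLOP hBRG hk h1 t
  refine hSH0 (1 / 4) 12 (4 * C) _ (by norm_num) (afe_nice (c := 0) ?_ (by norm_num)) ?_
  · refine DifferentiableOn.div (hd.mono fun s hs => ?_) differentiableOn_id fun s hs h0 => ?_
    · have : 0 < s.re := hs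
      show -(1 / 2) < s.re
      linarith
    · have : 0 < s.re := hs
      rw [h0] at this
      simp at this
  · intro s hs
    have a1 : 1 / 4 ≤ ‖s‖ := hs.1.trans ((le_abs_self _).trans (Complex.abs_re_le_norm s))
    have a2 := hb s (by linarith [hs.1]) hs.2
    have a3 : 0 ≤ C / br s.im ^ 2 := by positivity
    rw [norm_div, div_le_iff₀ (by linarith)]
    calc ‖afe_F k t s‖ ≤ C / br s.im ^ 2 := a2
      _ = 4 * C / br s.im ^ 2 * (1 / 4) := by ring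
      _ ≤ 4 * C / br s.im ^ 2 * ‖s‖ := by gcongr

theorem pAFE (hFE : FE) (hSH0 : SH0) (hSH1 : SH1) (hHB : HB) (hLOP : LOP) (hLOB : LOB) (hBRG : BRG) (hDEC : DEC) : AFE := by
  intro k t hk h1
  have hq := afe_q hBRG hk
  obtain ⟨C, hC, hb⟩ := afe_bound hHB hLOB hBRG hDEC hk h1 t
  have hd := afe_diff hHB hLOP hBRG hk h1 t
  have s1 := hSH1 (-(1 / 4)) 12 C (afe_F k t) 0 (by simp) (by simp)
    (afe_nice hd (by norm_num)) (fun s hs => by
      refine (hb s hs.1 hs.2).trans ?_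
      have a1 : 1 ≤ br s.im := by
        unfold br
        have := abs_nonneg s.im
        linarith
      apply div_le_div_of_nonneg_left hC (by linarith)
      nlinarith)
  simp only [sub_zero] at s1
  have s2 : (Iv (-(1 / 4)) fun u => afe_F k t u / u) =
      -(afe_c k (-t) / afe_c k t * Iv (1 / 4) fun u => afe_F k (-t) u / u) := by
    unfold Iv
    rw [← integral_neg_eq_self, ← integral_const_mul, ← integral_neg]
    congr 1
    funext y
    have e1 : (((-(1 / 4) : ℝ) : ℂ) + ((-y : ℝ) : ℂ) * I) = -(((1 / 4 : ℝ) : ℂ) + y * I) := by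
      push_cast
      ring
    simp only []
    rw [e1, afe_refl hFE hk h1 hq t _ (by simp), div_neg]
    ring
  have s3 : afe_F k t 0 = Lf k (1 / 2 + t * I) ^ 2 := by
    obtain ⟨h, C', -, hb'⟩ := hHB
    obtain ⟨-, -, hp, hg⟩ := hBRG.2.1 k
    obtain ⟨-, -, h0⟩ := hb' (par k) (gam k) t hp hg
    unfold afe_F Lf
    rw [h0, cpow_zero, add_zero, div_pow]
    ring
  rw [afe_Dq hLOP hk, afe_Dq hLOP hk, afe_shift hSH0 hHB hLOP hLOB hBRG hDEC hk h1 (-t)]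
  have s4 : 2 * π * Lf k (1 / 2 + t * I) ^ 2 = (Iv 12 fun u => afe_F k t u / u) +
      afe_c k (-t) / afe_c k t * Iv (1 / 4) fun u => afe_F k (-t) u / u := by
    rw [s1, s2, s3]
    ring
  have s5 : ‖afe_c k (-t) / afe_c k t‖ = 1 := by
    rw [norm_div, afe_c_norm hq, div_self (norm_ne_zero_iff.2 (afe_c_ne hq t))]
  have s6 : 2 * π * ‖Lf k (1 / 2 + t * I)‖ ^ 2 = ‖2 * π * Lf k (1 / 2 + t * I) ^ 2‖ := by
    rw [norm_mul, norm_mul, norm_pow, Complex.norm_real, Real.norm_of_nonneg Real.pi_pos.le]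
    simp
  rw [s6, s4]
  refine (norm_add_le _ _).trans ?_
  rw [norm_mul, s5, one_mul]

end Pool.Agent.QM
end

-- part Pool.Agent.P.MP_ea46f5_nt.QM.FDEC
section

namespace Pool.Agent.QM

open Complex MeasureTheory Finset
open scoped Real ComplexConjugate

lemma dec_abs {f : ℝ → ℝ} (h : IntegrableOn f (Set.Ioi 0)) : Integrable fun x => f |x| := by
  have hf : IntegrableOn (fun x => f |x|) (Set.Ioi 0) :=
    h.congr_fun (fun x hx => by simp only [abs_of_pos (show (0 : ℝ) < x from hx)])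
      measurableSet_Ioi
  have hi : IntegrableOn (fun x => f |x|) (Set.Iic 0) := by
    rw [← Measure.map_neg_eq_self (volume : Measure ℝ)]
    let m : MeasurableEmbedding fun x : ℝ => -x := (Homeomorph.neg ℝ).measurableEmbedding
    rw [m.integrableOn_map_iff]
    simp_rw [Function.comp_def, abs_neg, Set.neg_preimage, Set.neg_Iic, neg_zero]
    exact Iff.mpr integrableOn_Ici_iff_integrableOn_Ioi hf
  rw [← integrableOn_univ, ← Set.Iic_union_Ioi (a := (0 : ℝ))]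
  exact hi.union hf

lemma dec_br (t u : ℝ) : br (t + u) ≤ br t * br u := by
  unfold br
  have h1 := abs_add_le t u
  have h2 := mul_nonneg (abs_nonneg t) (abs_nonneg u)
  nlinarith

lemma dec_pos (t : ℝ) : 0 < br t := by
  unfold br
  positivity

lemma dec_pow (n : ℕ) (x : ℝ) :
    Real.exp (-|x| / 2) * br x ^ n ≤ 2 ^ n * (n.factorial : ℝ) * Real.exp (1 / 2) := by
  have hb := dec_pos x
  have h1 := Real.pow_div_factorial_le_exp (br x / 2) (by positivity) n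
  have hn : (0 : ℝ) < n.factorial := by exact_mod_cast n.factorial_pos
  rw [div_le_iff₀ hn] at h1
  have h2 : br x ^ n = 2 ^ n * (br x / 2) ^ n := by
    rw [← mul_pow]
    congr 1
    ring
  have h3 : Real.exp (-|x| / 2) * Real.exp (br x / 2) = Real.exp (1 / 2) := by
    rw [← Real.exp_add]
    congr 1
    unfold br
    ring
  calc Real.exp (-|x| / 2) * br x ^ n = 2 ^ n * Real.exp (-|x| / 2) * (br x / 2) ^ n := by
        rw [h2]; ring
    _ ≤ 2 ^ n * Real.exp (-|x| / 2) * (Real.exp (br x / 2) * n.factorial) := by gcongr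
    _ = 2 ^ n * (n.factorial : ℝ) * (Real.exp (-|x| / 2) * Real.exp (br x / 2)) := by ring
    _ = _ := by rw [h3]

lemma dec_exp : Integrable (fun t : ℝ => Real.exp (-|t| / 2)) ∧
    ∫ t : ℝ, Real.exp (-|t| / 2) = 4 := by
  have e : (fun t : ℝ => Real.exp (-|t| / 2)) =
      fun t : ℝ => (fun x : ℝ => Real.exp (-(1 / 2) * x)) |t| := by
    funext t
    congr 1
    ring
  rw [e]
  refine ⟨dec_abs (integrableOn_exp_mul_Ioi (by norm_num) 0), ?_⟩
  rw [integral_comp_abs (f := fun x : ℝ => Real.exp (-(1 / 2) * x)),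
    integral_exp_mul_Ioi (by norm_num)]
  norm_num

lemma dec_sq : Integrable (fun t : ℝ => 1 / br t ^ 2) ∧ ∫ t : ℝ, 1 / br t ^ 2 ≤ 2 := by
  have hd : ∀ x ∈ Set.Ici (0 : ℝ),
      HasDerivAt (fun x : ℝ => -(1 + x)⁻¹) (1 / (1 + x) ^ 2) x := by
    intro x hx
    have hx0 : (1 + x) ≠ 0 := by
      have : (0 : ℝ) ≤ x := hx
      positivity
    have h1 : HasDerivAt (fun x : ℝ => 1 + x) 1 x := (hasDerivAt_id x).const_add 1
    have h2 := (h1.inv hx0).neg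
    refine h2.congr_deriv ?_
    ring
  have hp : ∀ x ∈ Set.Ioi (0 : ℝ), 0 ≤ 1 / (1 + x) ^ 2 := fun x _ => by positivity
  have hl : Filter.Tendsto (fun x : ℝ => -(1 + x)⁻¹) Filter.atTop (nhds 0) := by
    have := (Filter.tendsto_atTop_add_const_left Filter.atTop (1 : ℝ)
      Filter.tendsto_id).inv_tendsto_atTop.neg
    simpa using this
  refine ⟨dec_abs (f := fun x => 1 / (1 + x) ^ 2)
    (integrableOn_Ioi_deriv_of_nonneg' hd hp hl), ?_⟩
  have := integral_comp_abs (f := fun x : ℝ => 1 / (1 + x) ^ 2)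
  unfold br
  rw [this, integral_Ioi_of_hasDerivAt_of_nonneg' hd hp hl]
  norm_num

lemma dec_line (ε : ℝ) (m : ℕ) (hε : 0 < ε) (hm : 2 ≤ m) :
    Integrable (fun t : ℝ => 1 / ‖(ε + t * I : ℂ)‖ ^ m) ∧
      ∫ t : ℝ, 1 / ‖(ε + t * I : ℂ)‖ ^ m ≤ π * ε / ε ^ m := by
  obtain ⟨k, rfl⟩ := Nat.exists_eq_add_of_le hm
  have hsq : ∀ t : ℝ, ‖(ε + t * I : ℂ)‖ ^ 2 = ε ^ 2 + t ^ 2 := by
    intro t
    rw [← Complex.normSq_eq_norm_sq, Complex.normSq_add_mul_I]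
  have hge : ∀ t : ℝ, ε ≤ ‖(ε + t * I : ℂ)‖ := by
    intro t
    have := Complex.re_le_norm (ε + t * I : ℂ)
    simpa using this
  have hb : ∀ t : ℝ, 1 / ‖(ε + t * I : ℂ)‖ ^ (2 + k) ≤
      (1 / ε ^ (2 + k)) * (1 + (t / ε) ^ 2)⁻¹ := by
    intro t
    have e : (1 / ε ^ (2 + k)) * (1 + (t / ε) ^ 2)⁻¹ = 1 / ((ε ^ 2 + t ^ 2) * ε ^ k) := by
      field_simp
      ring
    rw [e, pow_add, hsq]
    apply one_div_le_one_div_of_le (by positivity)
    have := pow_le_pow_left₀ hε.le (hge t) k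
    gcongr
  have hi : Integrable fun t : ℝ => (1 / ε ^ (2 + k)) * (1 + (t / ε) ^ 2)⁻¹ :=
    ((integrable_comp_div_iff (fun x : ℝ => (1 + x ^ 2)⁻¹) hε.ne').2
      integrable_inv_one_add_sq).const_mul _
  have hc : Continuous fun t : ℝ => 1 / ‖(ε + t * I : ℂ)‖ ^ (2 + k) := by
    refine continuous_const.div (by fun_prop) fun t => ?_
    exact (pow_pos (hε.trans_le (hge t)) _).ne'
  have hf : Integrable fun t : ℝ => 1 / ‖(ε + t * I : ℂ)‖ ^ (2 + k) := by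
    refine hi.mono' hc.aestronglyMeasurable (Filter.Eventually.of_forall fun t => ?_)
    rw [Real.norm_of_nonneg (by positivity)]
    exact hb t
  refine ⟨hf, (integral_mono hf hi hb).trans (le_of_eq ?_)⟩
  rw [integral_const_mul, Measure.integral_comp_div (fun x : ℝ => (1 + x ^ 2)⁻¹),
    integral_univ_inv_one_add_sq, abs_of_pos hε, smul_eq_mul]
  ring

theorem pDEC : DEC := by
  refine ⟨dec_br, fun n => ⟨2 ^ n * (n.factorial : ℝ) * Real.exp (1 / 2), by positivity,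
    fun t u => ?_⟩, fun u => ⟨dec_exp.1.comp_sub_right u, ?_⟩, dec_sq,
    π, Real.pi_pos, fun ε m hε hm _ => dec_line ε m hε hm⟩
  · have h1 : br t ≤ br (t - u) * br u := by simpa using dec_br (t - u) u
    have h2 := dec_pos t
    have h3 := dec_pos u
    calc Real.exp (-|t - u| / 2) * br t ^ n
        ≤ Real.exp (-|t - u| / 2) * (br (t - u) * br u) ^ n := by gcongr
      _ = Real.exp (-|t - u| / 2) * br (t - u) ^ n * br u ^ n := by rw [mul_pow]; ring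
      _ ≤ _ := by
        have := dec_pow n (t - u)
        gcongr
  · rw [integral_sub_right_eq_self (fun t : ℝ => Real.exp (-|t| / 2)) u, dec_exp.2]

lemma prd_one (z : ℂ) : ‖1 + z‖ ≤ Real.exp (z.re + ‖z‖ ^ 2 / 2) := by
  have h1 : ‖1 + z‖ ^ 2 = 1 + 2 * z.re + ‖z‖ ^ 2 := by
    rw [← Complex.normSq_eq_norm_sq, ← Complex.normSq_eq_norm_sq, Complex.normSq_apply,
      Complex.normSq_apply]
    simp
    ring
  have h2 : Real.exp (z.re + ‖z‖ ^ 2 / 2) ^ 2 = Real.exp (2 * z.re + ‖z‖ ^ 2) := by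
    rw [← Real.exp_nat_mul]
    congr 1
    push_cast
    ring
  refine le_of_sq_le_sq ?_ (Real.exp_pos _).le
  rw [h1, h2]
  have := Real.add_one_le_exp (2 * z.re + ‖z‖ ^ 2)
  linarith

lemma prd_le {u : Nat.Primes → ℂ} (hu : Summable fun p => ‖u p‖) {g : Nat.Primes → ℝ}
    (hg : Summable g) (h : ∀ p, ‖1 + u p‖ ≤ Real.exp (g p)) :
    ‖∏' p, (1 + u p)‖ ≤ Real.exp (∑' p, g p) := by
  have h1 := (multipliable_one_add_of_summable hu).hasProd.norm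
  have h2 := hg.hasSum.rexp
  refine le_of_tendsto_of_tendsto' h1 h2 fun s => ?_
  exact Finset.prod_le_prod (fun p _ => norm_nonneg _) fun p _ => h p

theorem pPRD : PRD := by
  intro u hu
  have h1 : Summable fun p => (u p).re :=
    hu.of_norm_bounded fun p => by simpa using Complex.abs_re_le_norm (u p)
  have h2 : Summable fun p => ‖u p‖ ^ 2 := by
    refine (hu.mul_left (∑' p, ‖u p‖)).of_nonneg_of_le (fun p => by positivity) fun p => ?_
    have := hu.le_tsum p fun q _ => norm_nonneg _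
    rw [sq]
    gcongr
  have h3 : Summable fun p => (u p).re + ‖u p‖ ^ 2 / 2 := h1.add (h2.div_const 2)
  refine ⟨h3, prd_le hu h3 fun p => prd_one _, prd_le hu hu fun p => ?_⟩
  have h4 := norm_add_le (1 : ℂ) (u p)
  have h5 := Real.add_one_le_exp ‖u p‖
  rw [norm_one] at h4
  linarith

end Pool.Agent.QM
end

-- part Pool.Agent.P.MP_ea46f5_nt.QM.FDL
section

namespace Pool.Agent.QM

open Complex MeasureTheory Finset
open scoped Real ComplexConjugate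

theorem dl_int (hHB : HB) (hLSP : LSP) {a : ℕ} {γ : ℤ} (ha : a ≤ 1) (hγ : γ ∈ T3) (t : ℝ)
    {φ : ℂ → ℂ} {ε V Y : ℝ} (hε : ε ≤ 1) (hφ : FarP φ ε 0 V) (hY : 0 < Y) (k : ℤ) :
    LI fun s => ww a γ t φ Y s * LS k (1 / 2 + s) ^ 2 := by
  obtain ⟨h, C, hC, hB⟩ := hHB
  obtain ⟨hb, ⟨g, hg, hgg⟩, -⟩ := hB a γ t ha hγ
  obtain ⟨-, -, hL2, hLd, -⟩ := hLSP
  have e1 : ∀ τ : ℝ, (12 + τ * I - t * I : ℂ).re = 12 := fun τ => by simp
  have e2 : ∀ τ : ℝ, (12 + τ * I - t * I : ℂ).im = τ - t := fun τ => by simp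
  have e3 : ∀ τ : ℝ, (1 / 2 + (12 + τ * I) : ℂ).re = 25 / 2 := fun τ => by simp; norm_num
  have c0 : Continuous fun τ : ℝ => (12 + τ * I - t * I : ℂ) := by fun_prop
  have c1 : Continuous fun τ : ℝ => hh a γ t (12 + τ * I - t * I) := by
    simp_rw [hgg]
    refine Continuous.mul (by fun_prop) (hg.continuousOn.comp_continuous c0 fun τ => ?_)
    rw [Set.mem_ofPred_eq, e1]; norm_num
  have c2 : Continuous fun τ : ℝ => (Y : ℂ) ^ (12 + τ * I - t * I : ℂ) :=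
    c0.const_cpow (Or.inl (by exact_mod_cast hY.ne'))
  have c3 : Continuous fun τ : ℝ => φ (12 + τ * I - t * I) := by
    refine hφ.1.continuousOn.comp_continuous c0 fun τ => ?_
    rw [Set.mem_ofPred_eq, e1]; norm_num
  have c4 : Continuous fun τ : ℝ => LS k (1 / 2 + (12 + τ * I)) := by
    refine (hLd k).continuousOn.comp_continuous (by fun_prop) fun τ => ?_
    rw [Set.mem_ofPred_eq, e3]; norm_num
  have hI : Integrable fun τ : ℝ => Real.exp (-(1 / 2) * (τ - t) ^ 2) :=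
    (integrable_exp_neg_mul_sq (b := 1 / 2) (by norm_num)).comp_sub_right t
  refine (hI.const_mul (C * br t ^ h * Y ^ (12 : ℝ) * V * 2 ^ 2)).mono'
    (((c1.mul c2).mul c3).mul (c4.pow 2)).aestronglyMeasurable
    (Filter.Eventually.of_forall fun τ => ?_)
  have b1 := hb _ (by rw [e1 τ]; norm_num) (by rw [e1 τ]; norm_num)
  have b3 := hφ.2 _ (by rw [e1 τ]; linarith) (by rw [e1 τ]; norm_num)
  have b4 := hL2 k _ (by rw [e3 τ]; norm_num)
  rw [e2] at b1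
  rw [neg_zero, zero_mul, Real.exp_zero, mul_one] at b3
  have hV : 0 ≤ V := (norm_nonneg _).trans b3
  have hb0 : 0 ≤ C * br t ^ h * Real.exp (-(τ - t) ^ 2 / 2) := (norm_nonneg _).trans b1
  simp only [ww]
  rw [norm_mul, norm_mul, norm_mul, norm_pow, Complex.norm_cpow_eq_rpow_re_of_pos hY, e1]
  calc _ ≤ C * br t ^ h * Real.exp (-(τ - t) ^ 2 / 2) * Y ^ (12 : ℝ) * V * 2 ^ 2 := by gcongr
    _ = _ := by
      rw [show -(τ - t) ^ 2 / 2 = -(1 / 2) * (τ - t) ^ 2 by ring]; ring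

theorem pDL (hHB : HB) (hLSP : LSP) (hBRG : BRG) (hDEC : DEC) : DL := by
  intro t k n φ ψ ε hk hε hψ hφ
  obtain ⟨hq, -, ha, hγ⟩ := hBRG.2.1 k
  have hk' : (0 : ℝ) < |(k : ℝ)| := abs_pos.2 (by exact_mod_cast hk)
  have hI : ∀ j ∈ range n, Integrable fun τ : ℝ =>
      ww (par k) (gam k) t (ψ j) (qk k) (((12 : ℝ) : ℂ) + τ * I) *
        LS k (1 / 2 + (((12 : ℝ) : ℂ) + τ * I)) ^ 2 := by
    intro j hj
    obtain ⟨V, hV⟩ := hψ j (mem_range.1 hj)
    exact dl_int hHB hLSP ha hγ t hε hV (hk'.trans_le hq) k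
  simp only [Dq, Dw, Iv]
  rw [← integral_finsetSum _ hI]
  refine integral_congr_ae (Filter.Eventually.of_forall fun τ => ?_)
  simp only [ww]
  rw [hφ _ (by simp), mul_sum, sum_mul]

theorem pSQD (hSEP : SEP) (hHB : HB) (hLSP : LSP) (hBRG : BRG) (hDEC : DEC) : SQD := by
  classical
  obtain ⟨C, hC, hS⟩ := hSEP
  refine ⟨6 * C, by positivity, fun φ ρ X t M ε V hX hε hφ hρ hM => ?_⟩
  have hX0 : 0 < X := by linarith
  have hmap : ∀ k ∈ Sq X, (par k, gam k) ∈ range 2 ×ˢ T3 := fun k _ => by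
    obtain ⟨-, -, ha, hγ⟩ := hBRG.2.1 k
    exact mem_product.2 ⟨mem_range.2 (by simp only; omega), hγ⟩
  rw [← sum_fiberwise_of_maps_to hmap]
  have hcard : (range 2 ×ˢ T3).card = 6 := by decide
  refine (sum_le_card_nsmul _ _ (C * M) fun c hc => ?_).trans
    (le_of_eq (by rw [hcard, nsmul_eq_mul]; push_cast; ring))
  obtain ⟨a, γ⟩ := c
  have ha : a ≤ 1 := by have := mem_range.1 (mem_product.1 hc).1; simp only at this; omega
  have hγ : γ ∈ T3 := (mem_product.1 hc).2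
  have hq : ∀ k ∈ Sq X, X / 2 < qk k ∧ qk k ≤ 4 * X := fun k hk => by
    obtain ⟨h1, h2, -⟩ := hBRG.2.1 k
    obtain ⟨-, -, -, h3, h4⟩ := mem_filter.1 hk
    constructor <;> linarith
  refine le_trans (le_of_eq ?_) (hS ((Sq X).filter fun k => (par k, gam k) = (a, γ))
    (fun k s => ww a γ t φ X s * LS k (1 / 2 + s) ^ 2) ρ (fun k => Real.log (qk k / X)) t M
    (fun k hk => ⟨dl_int hHB hLSP ha hγ t hε hφ hX0 k, hρ k, ?_⟩) fun y => ?_)
  · refine sum_congr rfl fun k hk => ?_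
    obtain ⟨hk1, hk2⟩ := mem_filter.1 hk
    obtain ⟨h1, h2⟩ := Prod.mk.inj hk2
    have hq0 : 0 < qk k := lt_trans (by positivity) (hq k hk1).1
    rw [Dq, Dw, h1, h2]
    congr 4
    funext s
    have e : ((qk k : ℝ) : ℂ) ^ (s - t * I) =
        (X : ℂ) ^ (s - t * I) * cexp ((Real.log (qk k / X) : ℝ) * (s - t * I)) := by
      rw [cpow_def_of_ne_zero (by exact_mod_cast hq0.ne'),
        cpow_def_of_ne_zero (by exact_mod_cast hX0.ne'), ← Complex.exp_add,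
        ← ofReal_log hq0.le, ← ofReal_log hX0.le, Real.log_div hq0.ne' hX0.ne']
      congr 1
      push_cast
      ring
    simp only [ww]
    rw [e]
    ring
  · obtain ⟨h1, h2⟩ := hq k (mem_filter.1 hk).1
    have h3 : 1 / 4 ≤ qk k / X := by rw [le_div_iff₀ hX0]; linarith
    have h4 : qk k / X ≤ 4 := by rw [div_le_iff₀ hX0]; linarith
    have h5 : Real.log 4 ≤ 2 := by
      have : Real.log 4 = 2 * Real.log 2 := by
        rw [show (4 : ℝ) = 2 ^ 2 by norm_num, Real.log_pow]; norm_num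
      linarith [Real.log_two_lt_d9]
    have h6 := Real.log_le_log (by norm_num) h3
    have h7 := Real.log_le_log (by linarith) h4
    rw [one_div, Real.log_inv] at h6
    exact abs_le.2 ⟨by linarith, by linarith⟩
  · refine le_trans (le_of_eq ?_) ((sum_le_sum_of_subset_of_nonneg
      (filter_subset (fun k => (par k, gam k) = (a, γ)) _)
      fun k _ _ => mul_nonneg (hρ k) (sq_nonneg _)).trans (hM a γ y ha hγ))
    refine sum_congr rfl fun k _ => ?_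
    rw [Dw]
    congr 4
    funext s
    simp only [ww, phy]
    ring

end Pool.Agent.QM
end

-- part Pool.Agent.P.MP_ea46f5_nt.QM.FE0
section

namespace Pool.Agent.QM

open Complex MeasureTheory Finset
open scoped Real ComplexConjugate

theorem e0_term (f : ℕ → ℂ) (h0 : f 0 = 0) : LSeries.term f 0 = f := by
  funext n
  rcases eq_or_ne n 0 with rfl | hn
  · simp [h0]
  · rw [LSeries.term_of_ne_zero hn, Complex.cpow_zero, div_one]

theorem e0_conv (f g : ArithmeticFunction ℂ) (χ : ℕ → ℂ) (hχ : ∀ a b, χ (a * b) = χ a * χ b)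
    (a b : ℂ) (hf : HasSum (fun n => f n * χ n) a) (hg : HasSum (fun n => g n * χ n) b) :
    HasSum (fun n => (f * g) n * χ n) (a * b) := by
  have h1 : LSeriesHasSum (fun n => f n * χ n) 0 a := by
    unfold LSeriesHasSum
    rw [e0_term _ (by simp)]
    exact hf
  have h2 : LSeriesHasSum (fun n => g n * χ n) 0 b := by
    unfold LSeriesHasSum
    rw [e0_term _ (by simp)]
    exact hg
  have h3 := LSeriesHasSum.convolution h1 h2
  unfold LSeriesHasSum at h3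
  rw [e0_term _ (LSeries.convolution_map_zero _ _), LSeries.convolution_def] at h3
  have h4 : (fun n => (f * g) n * χ n) =
      fun n : ℕ => ∑ p ∈ n.divisorsAntidiagonal, f p.1 * χ p.1 * (g p.2 * χ p.2) := by
    funext n
    rw [ArithmeticFunction.mul_apply, Finset.sum_mul]
    refine Finset.sum_congr rfl fun p hp => ?_
    rw [← (Nat.mem_divisorsAntidiagonal.mp hp).1, hχ]
    ring
  rw [h4]
  exact h3

theorem e0_cf (χ : ℕ → ℂ) (hχ : ∀ a b, χ (a * b) = χ a * χ b) (s₁ s₂ a b : ℂ)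
    (h1 : HasSum (fun n => po s₁ n * χ n) a) (h2 : HasSum (fun n => po s₂ n * χ n) b) :
    HasSum (fun n => Cf s₁ s₂ n * χ n) (a ^ 2 * b ^ 2) := by
  have h := e0_conv _ _ χ hχ _ _ (e0_conv _ _ χ hχ _ _ h1 h1) (e0_conv _ _ χ hχ _ _ h2 h2)
  rw [sq, sq]
  exact h

theorem e0_po (s : ℂ) (n : ℕ) :
    po s n = if Odd n then (n : ℂ) ^ (-(1 / 2 + s)) else 0 := rfl

theorem e0_po_mul (s : ℂ) (a b : ℕ) : po s (a * b) = po s a * po s b := by
  rw [e0_po, e0_po, e0_po]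
  by_cases ha : Odd a
  · by_cases hb : Odd b
    · rw [if_pos ha, if_pos hb, if_pos (ha.mul hb), Nat.cast_mul, Complex.natCast_mul_natCast_cpow]
    · rw [if_neg hb, if_neg (fun h => hb (Nat.odd_mul.mp h).2), mul_zero]
  · rw [if_neg ha, if_neg (fun h => ha (Nat.odd_mul.mp h).1), zero_mul]

theorem e0_po_mult (s : ℂ) : (po s).IsMultiplicative :=
  ⟨by rw [e0_po]; simp, fun {a b} _ => e0_po_mul s a b⟩

theorem e0_even (f g : ArithmeticFunction ℂ) (hf : ∀ n, ¬ Odd n → f n = 0)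
    (hg : ∀ n, ¬ Odd n → g n = 0) (n : ℕ) (hn : ¬ Odd n) : (f * g) n = 0 := by
  rw [ArithmeticFunction.mul_apply]
  refine Finset.sum_eq_zero fun p hp => ?_
  have h := (Nat.mem_divisorsAntidiagonal.mp hp).1
  by_cases ha : Odd p.1
  · have hb : ¬ Odd p.2 := fun hb => hn (h ▸ ha.mul hb)
    rw [hg _ hb, mul_zero]
  · rw [hf _ ha, zero_mul]

theorem e0_po_even (s : ℂ) (n : ℕ) (hn : ¬ Odd n) : po s n = 0 := by
  rw [e0_po, if_neg hn]

theorem e0_cf_even (s₁ s₂ : ℂ) (n : ℕ) (hn : ¬ Odd n) : Cf s₁ s₂ n = 0 :=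
  e0_even _ _ (e0_even _ _ (e0_po_even s₁) (e0_po_even s₁))
    (e0_even _ _ (e0_po_even s₂) (e0_po_even s₂)) n hn

theorem e0_card (n : ℕ) : n.divisorsAntidiagonal.card ≤ n := by
  rw [← Nat.map_div_right_divisors, Finset.card_map]
  exact Nat.card_divisors_le_self n

theorem e0_bd (f g : ArithmeticFunction ℂ) (c : ℝ) (hf : ∀ n : ℕ, ‖f n‖ ≤ (n : ℝ) ^ c)
    (hg : ∀ n : ℕ, ‖g n‖ ≤ (n : ℝ) ^ c) (n : ℕ) : ‖(f * g) n‖ ≤ (n : ℝ) ^ (c + 1) := by
  rcases eq_or_ne n 0 with rfl | hn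
  · rw [ArithmeticFunction.map_zero, norm_zero]
    exact Real.rpow_nonneg (Nat.cast_nonneg _) _
  have hn' : (0 : ℝ) < n := by exact_mod_cast Nat.pos_of_ne_zero hn
  rw [ArithmeticFunction.mul_apply]
  refine (norm_sum_le _ _).trans ?_
  have h1 : ∀ p ∈ n.divisorsAntidiagonal, ‖f p.1 * g p.2‖ ≤ (n : ℝ) ^ c := by
    intro p hp
    rw [norm_mul, ← (Nat.mem_divisorsAntidiagonal.mp hp).1, Nat.cast_mul,
      Real.mul_rpow (Nat.cast_nonneg _) (Nat.cast_nonneg _)]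
    exact mul_le_mul (hf _) (hg _) (norm_nonneg _) (Real.rpow_nonneg (Nat.cast_nonneg _) _)
  refine (Finset.sum_le_card_nsmul _ _ _ h1).trans ?_
  rw [nsmul_eq_mul, Real.rpow_add hn', Real.rpow_one, mul_comm]
  refine mul_le_mul_of_nonneg_left ?_ (Real.rpow_nonneg hn'.le _)
  exact_mod_cast e0_card n

theorem e0_po_bd (s : ℂ) (hs : s.re = 12) (n : ℕ) : ‖po s n‖ ≤ (n : ℝ) ^ (-(25 / 2) : ℝ) := by
  rw [e0_po]
  split_ifs with h
  · rw [Complex.norm_natCast_cpow_of_pos h.pos]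
    have : (-(1 / 2 + s)).re = -(25 / 2) := by
      simp [hs]
      norm_num
    rw [this]
  · rw [norm_zero]
    exact Real.rpow_nonneg (Nat.cast_nonneg _) _

theorem e0_cf_bd (s₁ s₂ : ℂ) (n : ℕ) (h1 : s₁.re = 12) (h2 : s₂.re = 12) :
    ‖Cf s₁ s₂ n‖ ≤ (n : ℝ) ^ (-(19 / 2) : ℝ) := by
  rcases eq_or_ne n 0 with rfl | hn
  · rw [ArithmeticFunction.map_zero, norm_zero]
    exact Real.rpow_nonneg (Nat.cast_nonneg _) _
  have h := e0_bd _ _ _ (e0_bd _ _ _ (e0_po_bd s₁ h1) (e0_po_bd s₁ h1))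
    (e0_bd _ _ _ (e0_po_bd s₂ h2) (e0_po_bd s₂ h2)) n
  refine le_trans h (Real.rpow_le_rpow_of_exponent_le ?_ (by norm_num))
  exact_mod_cast Nat.pos_of_ne_zero hn

theorem e0_po_cont (n : ℕ) : Continuous fun s : ℂ => po s n := by
  simp only [e0_po]
  by_cases h : Odd n
  · simp only [if_pos h]
    have hn : (n : ℂ) ≠ 0 := by exact_mod_cast h.pos.ne'
    exact Continuous.const_cpow (by fun_prop) (Or.inl hn)
  · simp only [if_neg h]
    exact continuous_const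

theorem e0_mul_cont (f g : ℂ × ℂ → ArithmeticFunction ℂ) (hf : ∀ n, Continuous fun x => f x n)
    (hg : ∀ n, Continuous fun x => g x n) (n : ℕ) : Continuous fun x => (f x * g x) n := by
  simp only [ArithmeticFunction.mul_apply]
  exact continuous_finsetSum _ fun p _ => (hf _).mul (hg _)

theorem e0_cf_cont (n : ℕ) : Continuous fun x : ℂ × ℂ => Cf x.1 x.2 n := by
  have h1 : ∀ n, Continuous fun x : ℂ × ℂ => po x.1 n :=
    fun n => (e0_po_cont n).comp continuous_fst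
  have h2 : ∀ n, Continuous fun x : ℂ × ℂ => po x.2 n :=
    fun n => (e0_po_cont n).comp continuous_snd
  exact e0_mul_cont (fun x => po x.1 * po x.1) (fun x => po x.2 * po x.2)
    (e0_mul_cont (fun x => po x.1) (fun x => po x.1) h1 h1)
    (e0_mul_cont (fun x => po x.2) (fun x => po x.2) h2 h2) n

theorem e0_jo_mul (m : ℤ) (a b : ℕ) : jo m (a * b) = jo m a * jo m b := by
  unfold jo
  by_cases ha : Odd a
  · by_cases hb : Odd b
    · rw [if_pos ha, if_pos hb, if_pos (ha.mul hb),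
        jacobiSym.mul_right' m ha.pos.ne' hb.pos.ne', Int.cast_mul]
    · rw [if_neg hb, if_neg (fun h => hb (Nat.odd_mul.mp h).2), mul_zero]
  · rw [if_neg ha, if_neg (fun h => ha (Nat.odd_mul.mp h).1), zero_mul]

theorem e0_po_jo (hLSP : LSP) (m : ℤ) (s : ℂ) (hs : s.re = 12) :
    HasSum (fun n => po s n * jo m n) (LS m (1 / 2 + s)) := by
  have h := hLSP.1 m (1 / 2 + s) (by simp [hs]; norm_num)
  have h2 : (fun n => po s n * jo m n) = fun n : ℕ => jo m n * (n : ℂ) ^ (-(1 / 2 + s)) := by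
    funext n
    rw [e0_po]
    by_cases hn : Odd n
    · rw [if_pos hn, mul_comm]
    · rw [if_neg hn, jo, if_neg hn, zero_mul, zero_mul]
  rw [h2]
  exact h

theorem e0_six (hLSP : LSP) (m : ℤ) (s₁ s₂ : ℂ) (h1 : s₁.re = 12) (h2 : s₂.re = 12) :
    HasSum (fun n : ℕ => Cf s₁ s₂ n * (jacobiSym m n : ℂ))
      (LS m (1 / 2 + s₁) ^ 2 * LS m (1 / 2 + s₂) ^ 2) := by
  have h := e0_cf (jo m) (e0_jo_mul m) s₁ s₂ _ _ (e0_po_jo hLSP m s₁ h1) (e0_po_jo hLSP m s₂ h2)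
  have h3 : (fun n : ℕ => Cf s₁ s₂ n * (jacobiSym m n : ℂ)) = fun n => Cf s₁ s₂ n * jo m n := by
    funext n
    by_cases hn : Odd n
    · rw [jo, if_pos hn]
    · rw [e0_cf_even s₁ s₂ n hn, zero_mul, zero_mul]
  rw [h3]
  exact h

/-- The completely multiplicative function with value `y` at `p` and `0` at the other primes. -/
noncomputable def e0_chi (p : ℕ) (y : ℂ) (n : ℕ) : ℂ :=
  if n = 0 then 0 else n.factorization.prod fun q e => (if q = p then y else 0) ^ e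

theorem e0_chi_mul (p : ℕ) (y : ℂ) (a b : ℕ) :
    e0_chi p y (a * b) = e0_chi p y a * e0_chi p y b := by
  unfold e0_chi
  rcases eq_or_ne a 0 with rfl | ha
  · simp
  rcases eq_or_ne b 0 with rfl | hb
  · simp
  rw [if_neg ha, if_neg hb, if_neg (mul_ne_zero ha hb), Nat.factorization_mul ha hb,
    Finsupp.prod_add_index' (fun _ => pow_zero _) (fun _ _ _ => pow_add _ _ _)]

theorem e0_chi_pow (p : ℕ) (hp : p.Prime) (y : ℂ) (j : ℕ) : e0_chi p y (p ^ j) = y ^ j := by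
  unfold e0_chi
  rw [if_neg (pow_ne_zero j hp.ne_zero), hp.factorization_pow,
    Finsupp.prod_single_index (h := fun q e => (if q = p then y else 0) ^ e) (pow_zero _),
    if_pos rfl]

theorem e0_chi_zero (p : ℕ) (y : ℂ) (n : ℕ) (hn : n ∉ Set.range fun j : ℕ => p ^ j) :
    e0_chi p y n = 0 := by
  unfold e0_chi
  split_ifs with h0
  · rfl
  by_contra hne
  refine hn ⟨n.primeFactorsList.length, (Nat.eq_prime_pow_of_unique_prime_dvd h0 ?_).symm⟩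
  intro d hd hdn
  by_contra hdp
  apply hne
  have hmem : d ∈ n.factorization.support := by
    rw [Nat.support_factorization]
    exact Nat.mem_primeFactors.mpr ⟨hd, hdn, h0⟩
  refine Finset.prod_eq_zero hmem ?_
  show (if d = p then y else 0) ^ n.factorization d = 0
  rw [if_neg hdp]
  exact zero_pow (Finsupp.mem_support_iff.mp hmem)

theorem e0_restrict (p : ℕ) (hp : p.Prime) (y a : ℂ) (f : ℕ → ℂ) :
    HasSum (fun j : ℕ => f (p ^ j) * y ^ j) a ↔ HasSum (fun n => f n * e0_chi p y n) a := by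
  have hinj : Function.Injective fun j : ℕ => p ^ j := Nat.pow_right_injective hp.two_le
  rw [← hinj.hasSum_iff (f := fun n => f n * e0_chi p y n)
    (fun n hn => by rw [e0_chi_zero p y n hn, mul_zero])]
  have : ((fun n => f n * e0_chi p y n) ∘ fun j : ℕ => p ^ j) =
      fun j : ℕ => f (p ^ j) * y ^ j := by
    funext j
    simp only [Function.comp, e0_chi_pow p hp]
  rw [this]

theorem e0_geom (s : ℂ) (p : ℕ) (y : ℤ) (hp : p.Prime) (h2 : p ≠ 2) (hs : 0 ≤ s.re)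
    (hy : y ∈ T3) :
    HasSum (fun j : ℕ => po s (p ^ j) * (y : ℂ) ^ j) (1 - xs s p * y)⁻¹ := by
  have hodd : Odd p := hp.odd_of_ne_two h2
  have hpo : ∀ j : ℕ, po s (p ^ j) = xs s p ^ j := by
    intro j
    induction j with
    | zero => rw [pow_zero, pow_zero]; exact (e0_po_mult s).1
    | succ j ih => rw [pow_succ, pow_succ, e0_po_mul, ih, e0_po, if_pos hodd, xs]
  have hy1 : ‖(y : ℂ)‖ ≤ 1 := by
    simp only [T3, Finset.mem_insert, Finset.mem_singleton] at hy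
    rcases hy with rfl | rfl | rfl <;> simp
  have hx : ‖xs s p‖ < 1 := by
    rw [xs, Complex.norm_natCast_cpow_of_pos hp.pos]
    refine Real.rpow_lt_one_of_one_lt_of_neg (by exact_mod_cast hp.one_lt) ?_
    have : (-(1 / 2 + s)).re = -(1 / 2 + s.re) := by simp
    rw [this]
    linarith
  have hn : ‖xs s p * y‖ < 1 := by
    rw [norm_mul]
    exact lt_of_le_of_lt (mul_le_of_le_one_right (norm_nonneg _) hy1) hx
  have h := hasSum_geometric_of_norm_lt_one hn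
  simp only [hpo, ← mul_pow]
  exact h

theorem e0_seven (s₁ s₂ : ℂ) (p : ℕ) (y : ℤ) (hp : p.Prime) (h2 : p ≠ 2) (hs₁ : 0 ≤ s₁.re)
    (hs₂ : 0 ≤ s₂.re) (hy : y ∈ T3) :
    HasSum (fun j : ℕ => Cf s₁ s₂ (p ^ j) * (y : ℂ) ^ j) (Fy s₁ s₂ p y) := by
  rw [e0_restrict p hp y _ (fun n => Cf s₁ s₂ n)]
  have h := e0_cf (e0_chi p y) (e0_chi_mul p y) s₁ s₂ _ _
    ((e0_restrict p hp y _ (fun n => po s₁ n)).mp (e0_geom s₁ p y hp h2 hs₁ hy))
    ((e0_restrict p hp y _ (fun n => po s₂ n)).mp (e0_geom s₂ p y hp h2 hs₂ hy))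
  rw [Fy, one_div, mul_inv, ← inv_pow, ← inv_pow]
  exact h

theorem pE0 (hLSP : LSP) : E0 := by
  refine ⟨?_, ?_, e0_cf_even, e0_cf_bd, e0_cf_cont, e0_six hLSP, e0_seven⟩
  · intro χ s₁ s₂ _ hχ h1 h2
    have h := e0_cf χ hχ s₁ s₂ _ _ h1.of_norm.hasSum h2.of_norm.hasSum
    exact ⟨h.summable.norm, h.tsum_eq⟩
  · intro s₁ s₂
    exact ((e0_po_mult s₁).mul (e0_po_mult s₁)).mul ((e0_po_mult s₂).mul (e0_po_mult s₂))

end Pool.Agent.QM
end

-- part Pool.Agent.P.MP_ea46f5_nt.QM.FE1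
section

namespace Pool.Agent.QM

open Complex MeasureTheory Finset
open scoped Real ComplexConjugate

/-- The local value of `Tk` at a prime power. -/
noncomputable def e1_t (k : ℤ) (z : ℂ) (p v : ℕ) : ℂ :=
  if v = 0 then 1 else if Odd v then ok k z p else ek k z p

/-- The signed measure whose moments are the local values. -/
noncomputable def e1_m (k : ℤ) (z : ℂ) (p : ℕ) (y : ℤ) : ℂ :=
  if y = 0 then 1 - ek k z p else (ek k z p + y * ok k z p) / 2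

theorem e1_sumT3 (f : ℤ → ℂ) : ∑ y ∈ T3, f y = f (-1) + f 0 + f 1 := by
  rw [T3, sum_insert (by decide), sum_insert (by decide), sum_singleton, add_assoc]

theorem e1_mom (k : ℤ) (z : ℂ) (p v : ℕ) :
    e1_t k z p v = ∑ y ∈ T3, e1_m k z p y * (y : ℂ) ^ v := by
  rw [e1_sumT3, e1_t]
  rw [e1_m, e1_m, e1_m, if_neg (show (-1 : ℤ) ≠ 0 by decide), if_pos (rfl : (0 : ℤ) = 0),
    if_neg (show (1 : ℤ) ≠ 0 by decide)]
  push_cast
  split_ifs with h0 ho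
  · subst h0; ring
  · rw [ho.neg_one_pow, zero_pow h0]; ring
  · rw [(Nat.not_odd_iff_even.1 ho).neg_one_pow, zero_pow h0]; ring

theorem e1_mu (k : ℤ) (z s₁ s₂ : ℂ) (p : ℕ) (y : ℤ) :
    mu k z s₁ s₂ p y = e1_m k z p y * Fy s₁ s₂ p y := by
  unfold mu e1_m
  split_ifs with h
  · subst h; simp [Fy]
  · ring

theorem e1_Tk (k : ℤ) (z : ℂ) (n : ℕ) (S : Finset ℕ) (hS : n.primeFactors ⊆ S) :
    Tk k z n = ∏ p ∈ S, e1_t k z p (n.factorization p) := by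
  rw [← prod_subset hS fun p _ hp => by
    rw [← Nat.support_factorization, Finsupp.notMem_support_iff] at hp
    rw [hp, e1_t, if_pos rfl]]
  refine prod_congr rfl fun p hp => ?_
  rw [← Nat.support_factorization, Finsupp.mem_support_iff] at hp
  rw [e1_t, if_neg hp]

/-- The local factor of the multiplicative function attached to a point. -/
noncomputable def e1_g (P : Finset ℕ) (x : ℕ → ℤ) (k : ℤ) (z : ℂ) (p v : ℕ) : ℂ :=
  if p ∈ P then (x p : ℂ) ^ v else e1_t k z p v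

/-- The multiplicative function attached to a point. -/
noncomputable def e1_W (P : Finset ℕ) (x : ℕ → ℤ) (k : ℤ) (z : ℂ) (n : ℕ) : ℂ :=
  n.factorization.prod (e1_g P x k z)

theorem e1_W_mul (P : Finset ℕ) (x : ℕ → ℤ) (k : ℤ) (z : ℂ) {m n : ℕ} (h : Nat.Coprime m n) :
    e1_W P x k z (m * n) = e1_W P x k z m * e1_W P x k z n := by
  unfold e1_W
  rw [Nat.factorization_mul_of_coprime h, Finsupp.prod_add_index_of_disjoint]
  simpa using h.disjoint_primeFactors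

theorem e1_W_pow (P : Finset ℕ) (x : ℕ → ℤ) (k : ℤ) (z : ℂ) {p : ℕ} (hp : p.Prime) (v : ℕ) :
    e1_W P x k z (p ^ v) = e1_g P x k z p v := by
  rw [e1_W, hp.factorization_pow, Finsupp.prod_single_index]
  simp [e1_g, e1_t]

theorem e1_W_split (P : Finset ℕ) (x : ℕ → ℤ) (k : ℤ) (z : ℂ) (n : ℕ) :
    e1_W P x k z n = (∏ p ∈ P, (x p : ℂ) ^ n.factorization p) *
      ∏ p ∈ n.primeFactors \ P, e1_t k z p (n.factorization p) := by
  rw [e1_W, Nat.prod_factorization_eq_prod_primeFactors,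
    ← prod_inter_mul_prod_sdiff n.primeFactors P]
  congr 1
  · refine (prod_congr rfl fun p hp => if_pos (mem_inter.1 hp).2).trans
      (prod_subset inter_subset_right fun p hp hp' => ?_)
    have : p ∉ n.primeFactors := fun h => hp' (mem_inter.2 ⟨h, hp⟩)
    rw [← Nat.support_factorization, Finsupp.notMem_support_iff] at this
    rw [this, pow_zero]
  · exact prod_congr rfl fun p hp => if_neg (mem_sdiff.1 hp).2

theorem e1_Tk_mul (P : Finset ℕ) (k : ℤ) (z : ℂ) {n l : ℕ} (hn : n ≠ 0) (hl : l ≠ 0)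
    (hP : l.primeFactors ⊆ P) : Tk k z (n * l) =
      (∏ p ∈ P, e1_t k z p (l.factorization p + n.factorization p)) *
        ∏ p ∈ n.primeFactors \ P, e1_t k z p (n.factorization p) := by
  rw [e1_Tk k z (n * l) (P ∪ n.primeFactors \ P) (by
      rw [Nat.primeFactors_mul hn hl, union_sdiff_self_eq_union]
      exact union_subset subset_union_right (hP.trans subset_union_left)),
    prod_union disjoint_sdiff, Nat.factorization_mul hn hl]
  congr 1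
  · exact prod_congr rfl fun p _ => by rw [Finsupp.add_apply, add_comm]
  · refine prod_congr rfl fun p hp => ?_
    have : p ∉ l.primeFactors := fun h => (mem_sdiff.1 hp).2 (hP h)
    rw [← Nat.support_factorization, Finsupp.notMem_support_iff] at this
    rw [Finsupp.add_apply, this, add_zero]

theorem e1_norm_T3 {y : ℤ} (hy : y ∈ T3) : ‖(y : ℂ)‖ ≤ 1 := by
  simp only [T3, mem_insert, mem_singleton] at hy
  rcases hy with rfl | rfl | rfl <;> simp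

theorem e1_W_le (hTKB : TKB) (P : Finset ℕ) {x : ℕ → ℤ} (hx : ∀ p, x p ∈ T3) (k : ℤ) {z : ℂ}
    (h0 : 0 ≤ z.re) (h6 : z.re ≤ 6) {n : ℕ} (hn : n ≠ 0) : ‖e1_W P x k z n‖ ≤ (n : ℝ) ^ 7 := by
  have h1 : (n : ℝ) ^ 7 = ∏ p ∈ n.primeFactors, ((p ^ n.factorization p : ℕ) : ℝ) ^ 7 := by
    conv_lhs => rw [← Nat.prod_factorization_pow_eq_self hn]
    rw [Nat.prod_factorization_eq_prod_primeFactors, Nat.cast_prod, prod_pow]
  rw [h1, e1_W, Nat.prod_factorization_eq_prod_primeFactors, norm_prod]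
  refine prod_le_prod (fun _ _ => norm_nonneg _) fun p hp => ?_
  have hpp := Nat.prime_of_mem_primeFactors hp
  have hv : p ^ n.factorization p ≠ 0 := pow_ne_zero _ hpp.ne_zero
  unfold e1_g
  split_ifs
  · rw [norm_pow]
    exact (pow_le_one₀ (norm_nonneg _) (e1_norm_T3 (hx p))).trans
      (one_le_pow₀ (by exact_mod_cast Nat.pos_of_ne_zero hv))
  · have h2 := hTKB.2.1 k z _ h0 h6 hv
    rwa [e1_Tk k z _ {p} (by
      intro q hq
      rw [mem_singleton]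
      exact (Nat.prime_dvd_prime_iff_eq (Nat.prime_of_mem_primeFactors hq) hpp).1
        ((Nat.prime_of_mem_primeFactors hq).dvd_of_dvd_pow (Nat.dvd_of_mem_primeFactors hq))),
      prod_singleton, hpp.factorization_pow, Finsupp.single_eq_same] at h2

theorem e1_summable (hE0 : E0) (hTKB : TKB) (P : Finset ℕ) {x : ℕ → ℤ} (hx : ∀ p, x p ∈ T3)
    (k : ℤ) {z s₁ s₂ : ℂ} (h0 : 0 ≤ z.re) (h6 : z.re ≤ 6) (h1 : s₁.re = 12) (h2 : s₂.re = 12) :
    Summable fun n => ‖Cf s₁ s₂ n * e1_W P x k z n‖ := by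
  refine Summable.of_nonneg_of_le (fun _ => norm_nonneg _) (fun n => ?_)
    (Real.summable_nat_rpow.2 (show (-(5 / 2) : ℝ) < -1 by norm_num))
  rcases eq_or_ne n 0 with rfl | hn
  · simp only [ArithmeticFunction.map_zero, zero_mul, norm_zero]; positivity
  · have hn0 : (0 : ℝ) < n := by exact_mod_cast Nat.pos_of_ne_zero hn
    rw [norm_mul]
    calc _ ≤ (n : ℝ) ^ (-(19 / 2) : ℝ) * (n : ℝ) ^ 7 := by
          gcongr
          · exact hE0.2.2.2.1 s₁ s₂ n h1 h2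
          · exact e1_W_le hTKB P hx k h0 h6 hn
      _ = _ := by
          rw [← Real.rpow_natCast, ← Real.rpow_add hn0]; norm_num

theorem e1_hasProd_mem {P : Finset ℕ} (hP : ∀ p ∈ P, p.Prime) (g : ℕ → ℂ) :
    HasProd (fun p : Nat.Primes => if (p : ℕ) ∈ P then g p else 1) (∏ p ∈ P, g p) := by
  have h := hasProd_prod_of_ne_finset_one (L := SummationFilter.unconditional Nat.Primes)
    (f := fun p : Nat.Primes => if (p : ℕ) ∈ P then g p else 1) (s := P.subtype Nat.Prime)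
    (fun p hp => if_neg fun h => hp (mem_subtype.2 h))
  have h2 := prod_subtype_of_mem (fun p : ℕ => if p ∈ P then g p else 1) hP
  rw [prod_congr rfl fun p hp => if_pos hp] at h2
  exact h2 ▸ h

theorem e1_euler (hE0 : E0) (hTKB : TKB) {P : Finset ℕ} (hP : OP P) {x : ℕ → ℤ}
    (hx : ∀ p, x p ∈ T3) (k : ℤ) {z s₁ s₂ : ℂ} (h0 : 0 ≤ z.re) (h6 : z.re ≤ 6) (h1 : s₁.re = 12)
    (h2 : s₂.re = 12) :
    HasProd (fun p : Nat.Primes => (if (p : ℕ) ∈ P then Fy s₁ s₂ p (x p) else 1) *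
      if (p : ℕ) = 2 ∨ (p : ℕ) ∈ P then 1 else locv k z s₁ s₂ p 0)
      (∑' n, Cf s₁ s₂ n * e1_W P x k z n) := by
  have hm := hE0.2.1 s₁ s₂
  have h := EulerProduct.eulerProduct_hasProd (f := fun n => Cf s₁ s₂ n * e1_W P x k z n)
    (by simp [hm.map_one, e1_W])
    (fun {m n} hmn => by rw [hm.map_mul_of_coprime hmn, e1_W_mul P x k z hmn]; ring)
    (e1_summable hE0 hTKB P hx k h0 h6 h1 h2) (by simp)
  refine h.congr_fun fun p => ?_
  have hF := fun (hp2 : (p : ℕ) ≠ 2) (y : ℤ) (hy : y ∈ T3) =>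
    hE0.2.2.2.2.2.2 s₁ s₂ p y p.2 hp2 (by rw [h1]; norm_num) (by rw [h2]; norm_num) hy
  simp only [e1_W_pow P x k z p.2]
  by_cases hp : (p : ℕ) ∈ P
  · simp only [e1_g, hp, or_true, if_true, mul_one]
    exact (hF (hP p hp).2 _ (hx p)).tsum_eq.symm
  · by_cases hp2 : (p : ℕ) = 2
    · rw [if_neg hp, if_pos (Or.inl hp2), one_mul, tsum_eq_single 0]
      · simp [hm.map_one, e1_g, e1_t]
      · intro e he
        rw [hE0.2.2.1 s₁ s₂ _ (by
          rw [hp2, Nat.not_odd_iff_even]; exact (Nat.even_pow' he).2 even_two), zero_mul]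
    · rw [if_neg hp, if_neg (not_or.2 ⟨hp2, hp⟩), one_mul]
      simp only [e1_g, if_neg hp, e1_mom, mul_sum, locv, pow_zero, mul_one, e1_mu]
      refine (HasSum.tsum_eq (hasSum_sum fun y hy => ?_)).symm
      exact ((hF hp2 y hy).mul_left _).congr_fun fun e => by ring

theorem pE1 (hE0 : E0) (hEXL : EXL) (hTKB : TKB) : E1 := by
  intro P l k z s₁ s₂ hP hl hlP h0 h6 h1 h2
  have hT0 : (0 : ℤ) ∈ T3 := by decide
  have hb := (e1_euler hE0 hTKB hP (x := fun _ => 0) (fun _ => hT0) k h0 h6 h1 h2)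
  simp only [Fy, Int.cast_zero, mul_zero, sub_zero, one_pow, mul_one, div_one, ite_self,
    one_mul] at hb
  set B : ℂ := ∏' p : Nat.Primes, if (p : ℕ) = 2 ∨ (p : ℕ) ∈ P then 1 else locv k z s₁ s₂ p 0
    with hB
  have hsum : ∀ x : ℕ → ℤ, (∀ p, x p ∈ T3) →
      HasSum (fun n => Cf s₁ s₂ n * e1_W P x k z n) ((∏ p ∈ P, Fy s₁ s₂ p (x p)) * B) := by
    intro x hx
    have a1 := e1_euler hE0 hTKB hP hx k h0 h6 h1 h2
    have a2 := (e1_hasProd_mem (fun p hp => (hP p hp).1) fun p => Fy s₁ s₂ p (x p)).mul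
      hb.multipliable.hasProd
    rw [← a1.unique a2]
    exact (e1_summable hE0 hTKB P hx k h0 h6 h1 h2).of_norm.hasSum
  have hext : ∀ x ∈ Fintype.piFinset (fun _ : P => T3), ∀ p, ext0 P x p ∈ T3 := by
    intro x hx p
    unfold ext0
    split_ifs with h
    · exact Fintype.mem_piFinset.1 hx _
    · exact hT0
  have h3 := hasSum_sum fun x hx => (hsum _ (hext x hx)).mul_left
    ((∏ p : P, e1_m k z p (x p)) * ∏ p ∈ P, (ext0 P x p : ℂ) ^ l.factorization p)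
  have h4 : Z1 l k z s₁ s₂ = _ := (h3.congr_fun fun n => ?_).tsum_eq
  · rw [h4, Zk, ← hB, Ex, sum_mul]
    refine sum_congr rfl fun x _ => ?_
    have : ∏ p ∈ P, Fy s₁ s₂ p (ext0 P x p) = ∏ p : P, Fy s₁ s₂ p (x p) := by
      rw [← prod_coe_sort P]
      exact prod_congr rfl fun p _ => by simp [ext0]
    rw [this, hEXL.2.2.1 P _ l hlP]
    simp only [e1_mu, prod_mul_distrib]
    push_cast
    ring
  · rcases eq_or_ne n 0 with rfl | hn
    · simp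
    · rw [e1_Tk_mul P k z hn hl hlP]
      simp only [e1_mom k z _ (_ + _)]
      rw [← hEXL.1 P (e1_m k z) (fun p y => (y : ℂ) ^ (l.factorization p + n.factorization p)),
        Ex, sum_mul, mul_sum]
      refine sum_congr rfl fun x _ => ?_
      simp only [e1_W_split, pow_add, prod_mul_distrib]
      ring

end Pool.Agent.QM
end

-- part Pool.Agent.P.MP_ea46f5_nt.QM.FE2
section

namespace Pool.Agent.QM

open Complex MeasureTheory Finset
open scoped Real ComplexConjugate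

lemma e2_jo_norm (k : ℤ) (n : ℕ) : ‖jo k n‖ ≤ 1 := by
  unfold jo
  split_ifs
  · rcases jacobiSym.trichotomy k n with h | h | h <;> simp [h]
  · simp

lemma e2_pow_norm (p : ℕ) (hp : p.Prime) (s : ℂ) : ‖(p : ℂ) ^ s‖ = (p : ℝ) ^ s.re :=
  Complex.norm_natCast_cpow_of_pos hp.pos s

lemma e2_ne (p : ℕ) (hp : p.Prime) (c s : ℂ) (hc : ‖c‖ ≤ 1) (hs : 0 < s.re) :
    1 - c * (p : ℂ) ^ (-s) ≠ 0 := by
  intro h
  have h1 : c * (p : ℂ) ^ (-s) = 1 := (sub_eq_zero.mp h).symm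
  have h2 : ‖(p : ℂ) ^ (-s)‖ < 1 := by
    rw [e2_pow_norm p hp]
    exact Real.rpow_lt_one_of_one_lt_of_neg (by exact_mod_cast hp.one_lt) (by simpa using hs)
  have h3 : ‖c * (p : ℂ) ^ (-s)‖ < 1 := by
    rw [norm_mul]
    calc ‖c‖ * ‖(p : ℂ) ^ (-s)‖ ≤ 1 * ‖(p : ℂ) ^ (-s)‖ := by gcongr
      _ < 1 := by simpa using h2
  rw [h1] at h3
  simp at h3

lemma e2_xs (p : ℕ) (hp : p.Prime) (s : ℂ) (hs : s.re = 12) :
    ‖xs s p‖ ≤ (p : ℝ) ^ (-(27 / 20) : ℝ) ∧ ‖xs s p‖ ≤ 1 := by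
  have h1 : (1 : ℝ) ≤ p := by exact_mod_cast hp.one_lt.le
  have hre : (-(1 / 2 + s)).re = -(25 / 2) := by
    simp [hs]
    norm_num
  unfold xs
  rw [e2_pow_norm p hp, hre]
  exact ⟨Real.rpow_le_rpow_of_exponent_le h1 (by norm_num),
    Real.rpow_le_one_of_one_le_of_nonpos h1 (by norm_num)⟩

lemma e2_loc (hLOC : LOC) : ∃ C : ℝ, ∀ (p : ℕ) (k : ℤ) (z s₁ s₂ : ℂ), p.Prime → p ≠ 2 →
    0 < z.re → z.re ≤ 6 → s₁.re = 12 → s₂.re = 12 →
    ‖locv k z s₁ s₂ p 0 * fp k z s₁ s₂ p - 1‖ ≤ C * (p : ℝ) ^ (-(27 / 20) : ℝ) := by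
  obtain ⟨C, B, -, -, h⟩ := hLOC
  refine ⟨C + 14, fun p k z s₁ s₂ hp h2 hz hz6 h₁ h₂ => ?_⟩
  have hU : UU z s₁ s₂ := by
    unfold UU
    simp only [sub_re, h₁, h₂]
    refine ⟨by linarith, by linarith, by norm_num, by norm_num, hz, by linarith⟩
  have h0 := (h p k z s₁ s₂ hp h2 hU).1
  obtain ⟨a1, b1⟩ := e2_xs p hp s₁ h₁
  obtain ⟨a2, b2⟩ := e2_xs p hp s₂ h₂
  set r := (p : ℝ) ^ (-(27 / 20) : ℝ)
  have m : ∀ x y : ℂ, ‖x‖ ≤ 1 → ‖y‖ ≤ r → ‖x * y‖ ≤ r := fun x y hx hy => by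
    rw [norm_mul]
    calc ‖x‖ * ‖y‖ ≤ 1 * r := by gcongr
      _ = r := one_mul r
  have hQ : ‖Qp s₁ s₂ p‖ ≤ 10 * r := by
    unfold Qp
    have e1 : ‖3 * xs s₁ p ^ 2‖ ≤ 3 * r := by
      rw [norm_mul, sq]
      have := m _ _ b1 a1
      simp only [Complex.norm_ofNat]
      linarith
    have e2 : ‖4 * (xs s₁ p * xs s₂ p)‖ ≤ 4 * r := by
      rw [norm_mul]
      have := m _ _ b1 a2
      simp only [Complex.norm_ofNat]
      linarith
    have e3 : ‖3 * xs s₂ p ^ 2‖ ≤ 3 * r := by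
      rw [norm_mul, sq]
      have := m _ _ b2 a2
      simp only [Complex.norm_ofNat]
      linarith
    have := norm_add₃_le (a := 3 * xs s₁ p ^ 2) (b := 4 * (xs s₁ p * xs s₂ p))
      (c := 3 * xs s₂ p ^ 2)
    linarith
  have hV : ‖2 * Up k z s₁ s₂ p‖ ≤ 4 * r := by
    unfold Up
    have h1 : (1 : ℝ) ≤ p := by exact_mod_cast hp.one_lt.le
    have e0 : ‖(p : ℂ) ^ (-(z + 1 / 2))‖ ≤ 1 := by
      rw [e2_pow_norm p hp]
      refine Real.rpow_le_one_of_one_le_of_nonpos h1 ?_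
      simp
      linarith
    have e1 : ‖jo k p * (p : ℂ) ^ (-(z + 1 / 2))‖ ≤ 1 := by
      rw [norm_mul]
      exact mul_le_one₀ (e2_jo_norm k p) (norm_nonneg _) e0
    have e2 := m _ _ e1 a1
    have e3 := m _ _ e1 a2
    rw [norm_mul, mul_add]
    have := norm_add_le (jo k p * (p : ℂ) ^ (-(z + 1 / 2)) * xs s₁ p)
      (jo k p * (p : ℂ) ^ (-(z + 1 / 2)) * xs s₂ p)
    simp only [Complex.norm_ofNat]
    linarith
  have e : locv k z s₁ s₂ p 0 * fp k z s₁ s₂ p - 1 =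
      (locv k z s₁ s₂ p 0 * fp k z s₁ s₂ p - 1 - Qp s₁ s₂ p + 2 * Up k z s₁ s₂ p) +
        Qp s₁ s₂ p - 2 * Up k z s₁ s₂ p := by ring
  rw [e]
  have t1 := norm_sub_le ((locv k z s₁ s₂ p 0 * fp k z s₁ s₂ p - 1 - Qp s₁ s₂ p +
    2 * Up k z s₁ s₂ p) + Qp s₁ s₂ p) (2 * Up k z s₁ s₂ p)
  have t2 := norm_add_le (locv k z s₁ s₂ p 0 * fp k z s₁ s₂ p - 1 - Qp s₁ s₂ p +
    2 * Up k z s₁ s₂ p) (Qp s₁ s₂ p)
  linarith

lemma e2_ex (P : Finset ℕ) (μ : ℕ → ℤ → ℂ) (c : ℕ → ℂ) (R : (ℕ → ℤ) → ℂ) :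
    Ex P (fun p y => μ p y * c p) R = (∏ p ∈ P, c p) * Ex P μ R := by
  unfold Ex
  rw [Finset.mul_sum]
  refine Finset.sum_congr rfl fun x _ => ?_
  rw [Finset.prod_mul_distrib, Finset.prod_coe_sort P c]
  ring

lemma e2_fin (P : Finset ℕ) (hP : OP P) (c : ℕ → ℂ) :
    HasProd (fun p : Nat.Primes => if (p : ℕ) ∈ P then c p else 1) (∏ p ∈ P, c p) := by
  have h1 : HasProd (fun p : Nat.Primes => if (p : ℕ) ∈ P then c p else 1)
      (∏ p ∈ (P.subtype Nat.Prime : Finset Nat.Primes), if (p : ℕ) ∈ P then c p else 1) := by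
    refine hasProd_prod_of_ne_finset_one fun b hb => ?_
    exact if_neg fun h => hb (Finset.mem_subtype.mpr h)
  have h2 : (∏ p ∈ (P.subtype Nat.Prime : Finset Nat.Primes), if (p : ℕ) ∈ P then c p else 1) =
      ∏ p ∈ P, c p := by
    rw [← Finset.prod_subtype_of_mem c (p := Nat.Prime) fun x hx => (hP x hx).1]
    exact Finset.prod_congr rfl fun x hx => if_pos (Finset.mem_subtype.mp hx)
  rwa [h2] at h1

lemma e2_alg (v a b c d e : ℂ) (ha : a ≠ 0) (hb : b ≠ 0) (hc : c ≠ 0) (hd : d ≠ 0) (he : e ≠ 0) :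
    1 = a⁻¹ ^ 2 * b⁻¹ ^ 2 * (c ^ 3 * d ^ 4 * e ^ 3) * 1 * (a ^ 2 * b ^ 2 / (c ^ 3 * d ^ 4 * e ^ 3)) ∧
    v = a⁻¹ ^ 2 * b⁻¹ ^ 2 * (c ^ 3 * d ^ 4 * e ^ 3) *
      (v * (a ^ 2 * b ^ 2 / (c ^ 3 * d ^ 4 * e ^ 3))) * 1 := by
  constructor <;> field_simp

theorem pE2 (hLOC : LOC) (hLSP : LSP) (hLOP : LOP) (hIZ : IZ) : E2 := by
  intro P R k z s₁ s₂ hP hk hz hz6 h₁ h₂
  obtain ⟨C, hC⟩ := e2_loc hLOC
  have r1 : 1 < (1 + (s₁ - z)).re := by simp [h₁]; linarith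
  have r2 : 1 < (1 + (s₂ - z)).re := by simp [h₂]; linarith
  have r3 : 1 < (2 + 2 * (s₁ - z)).re := by simp [h₁]; linarith
  have r4 : 1 < (2 + (s₁ - z) + (s₂ - z)).re := by simp [h₁, h₂]; linarith
  have r5 : 1 < (2 + 2 * (s₂ - z)).re := by simp [h₂]; linarith
  have hW := ((((hLSP.2.1 k _ r1).pow 2).mul ((hLSP.2.1 k _ r2).pow 2)).mul
    ((((hIZ.2.2 _ r3).pow 3).mul ((hIZ.2.2 _ r4).pow 4)).mul ((hIZ.2.2 _ r5).pow 3)))
  have hs : Summable fun p : Nat.Primes =>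
      ‖(if (p : ℕ) = 2 ∨ (p : ℕ) ∈ P then 1 else locv k z s₁ s₂ p 0 * fp k z s₁ s₂ p) - 1‖ := by
    refine Summable.of_nonneg_of_le (fun _ => norm_nonneg _) (fun p => ?_)
      ((Nat.Primes.summable_rpow.mpr (show (-(27 / 20) : ℝ) < -1 by norm_num)).mul_left |C|)
    have h0 : (0 : ℝ) ≤ ((p : ℕ) : ℝ) ^ (-(27 / 20) : ℝ) := by positivity
    split_ifs with h
    · simp only [sub_self, norm_zero]
      positivity
    · exact (hC p k z s₁ s₂ p.2 (fun e => h (Or.inl e)) hz hz6 h₁ h₂).trans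
        (mul_le_mul_of_nonneg_right (le_abs_self C) h0)
  have hM : Multipliable fun p : Nat.Primes =>
      (if (p : ℕ) = 2 ∨ (p : ℕ) ∈ P then 1 else locv k z s₁ s₂ p 0 * fp k z s₁ s₂ p) := by
    simpa using multipliable_one_add_of_summable hs
  have hA := (hW.mul hM.hasProd).mul (e2_fin P hP (fp k z s₁ s₂))
  have hB : HasProd (fun p : Nat.Primes =>
      if (p : ℕ) = 2 ∨ (p : ℕ) ∈ P then 1 else locv k z s₁ s₂ p 0) _ := hA.congr_fun fun p => by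
    by_cases h2 : (p : ℕ) = 2
    · have hn : (2 : ℕ) ∉ P := fun h => (hP 2 h).2 rfl
      have hj : jo k 2 = 0 := by simp [jo]
      simp [h2, hn, hj]
    · have n1 := e2_ne p p.2 _ _ (e2_jo_norm k p) (lt_trans zero_lt_one r1)
      have n2 := e2_ne p p.2 _ _ (e2_jo_norm k p) (lt_trans zero_lt_one r2)
      have n3 := e2_ne p p.2 1 _ (by simp) (lt_trans zero_lt_one r3)
      have n4 := e2_ne p p.2 1 _ (by simp) (lt_trans zero_lt_one r4)
      have n5 := e2_ne p p.2 1 _ (by simp) (lt_trans zero_lt_one r5)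
      rw [one_mul] at n3 n4 n5
      by_cases hp : (p : ℕ) ∈ P
      · simp only [h2, hp, or_true, if_true, if_false, fp]
        exact (e2_alg 1 _ _ _ _ _ n1 n2 n3 n4 n5).1
      · simp only [h2, hp, or_false, if_false, fp]
        exact (e2_alg _ _ _ _ _ _ n1 n2 n3 n4 n5).2
  unfold Zk Zc Hh IZ3
  rw [hB.tprod_eq, e2_ex, hLOP.1 k _ hk r1, hLOP.1 k _ hk r2]
  ring

end Pool.Agent.QM
end

-- part Pool.Agent.P.MP_ea46f5_nt.QM.FEXA
section

namespace Pool.Agent.QM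

open Complex MeasureTheory Finset
open scoped Real ComplexConjugate

theorem exa_jac (m : ℤ) (n : ℕ) : |(jacobiSym m n : ℝ)| ≤ 1 := by
  rcases jacobiSym.trichotomy m n with h | h | h <;> simp [h]

theorem exa_conj (t : ℝ) : conj ((12 : ℂ) + t * I) = 12 + ((-t : ℝ) : ℂ) * I := by
  apply Complex.ext <;> simp

theorem exa_wt (w : ℂ → ℂ) (hw : LI w) : LI (wt w) := by
  unfold LI wt at *
  simp only [exa_conj]
  exact (Complex.conjCLE.toContinuousLinearMap.integrable_comp hw.comp_neg)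

theorem exa_cont (hLSP : LSP) (m : ℤ) :
    Continuous fun t : ℝ => LS m (1 / 2 + (12 + t * I)) ^ 2 := by
  refine Continuous.pow ?_ 2
  refine (hLSP.2.2.2.1 m).continuousOn.comp_continuous (by fun_prop) fun t => ?_
  simp only [Set.mem_ofPred_eq]
  norm_num

theorem exa_bd (hLSP : LSP) (m : ℤ) (t : ℝ) : ‖LS m (1 / 2 + (12 + t * I)) ^ 2‖ ≤ 4 := by
  have := hLSP.2.2.1 m (1 / 2 + (12 + t * I)) (by norm_num)
  rw [norm_pow]
  nlinarith [norm_nonneg (LS m (1 / 2 + (12 + t * I)))]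

theorem exa_int (hLSP : LSP) (w : ℂ → ℂ) (hw : LI w) (m : ℤ) :
    Integrable fun t : ℝ => w (12 + t * I) * LS m (1 / 2 + (12 + t * I)) ^ 2 :=
  Integrable.mul_bdd hw (exa_cont hLSP m).aestronglyMeasurable
    (Filter.Eventually.of_forall (exa_bd hLSP m))

theorem exa_Dw (w : ℂ → ℂ) (m : ℤ) :
    Dw w m = ∫ t : ℝ, w (12 + t * I) * LS m (1 / 2 + (12 + t * I)) ^ 2 := by
  unfold Dw Iv
  simp only [Complex.ofReal_ofNat]

theorem exa_Dw_conj (hLSP : LSP) (w : ℂ → ℂ) (m : ℤ) : conj (Dw w m) = Dw (wt w) m := by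
  rw [exa_Dw, exa_Dw, ← integral_conj, ← integral_neg_eq_self]
  refine integral_congr_ae (Filter.Eventually.of_forall fun t => ?_)
  have h := hLSP.2.2.2.2.1 m (1 / 2 + (12 + t * I)) (by norm_num)
  have e : conj ((1 : ℂ) / 2 + (12 + t * I)) = 1 / 2 + (12 + ((-t : ℝ) : ℂ) * I) := by
    apply Complex.ext <;> simp
  rw [e] at h
  simp only [wt, exa_conj, map_mul, map_pow, h]

theorem exa_sq (hLSP : LSP) (w : ℂ → ℂ) (m : ℤ) :
    ((‖Dw w m‖ ^ 2 : ℝ) : ℂ) = ∫ t : ℝ × ℝ,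
      (w (12 + t.1 * I) * LS m (1 / 2 + (12 + t.1 * I)) ^ 2) *
        (wt w (12 + t.2 * I) * LS m (1 / 2 + (12 + t.2 * I)) ^ 2) := by
  rw [Measure.volume_eq_prod, integral_prod_mul
    (fun t : ℝ => w (12 + t * I) * LS m (1 / 2 + (12 + t * I)) ^ 2)
    (fun t : ℝ => wt w (12 + t * I) * LS m (1 / 2 + (12 + t * I)) ^ 2), ← exa_Dw, ← exa_Dw,
    ← exa_Dw_conj hLSP, Complex.mul_conj, Complex.normSq_eq_norm_sq]

theorem exa_swap (hE0 : E0) (X : ℝ) (l : ℕ) (hl : l ≠ 0) (hG : Summable fun m : ℤ => GX X m)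
    (s₁ s₂ : ℂ) (h1 : s₁.re = 12) (h2 : s₂.re = 12) :
    ∑' m : ℤ, ((GX X m * (jacobiSym m l : ℝ) : ℝ) : ℂ) *
        (LS m (1 / 2 + s₁) ^ 2 * LS m (1 / 2 + s₂) ^ 2) =
      ∑' n : ℕ, Cf s₁ s₂ n * (Sg X (n * l) : ℂ) := by
  have G0 : ∀ m, 0 ≤ GX X m := fun m => (Real.exp_pos _).le
  have hs : Summable fun n : ℕ => (n : ℝ) ^ (-(19 / 2) : ℝ) :=
    Real.summable_nat_rpow.2 (by norm_num)
  have hF : Summable (Function.uncurry fun (m : ℤ) (n : ℕ) =>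
      ((GX X m * (jacobiSym m l : ℝ) : ℝ) : ℂ) * (Cf s₁ s₂ n * (jacobiSym m n : ℂ))) := by
    refine Summable.of_norm_bounded (hG.mul_of_nonneg hs G0 fun n => by positivity) fun x => ?_
    simp only [Function.uncurry]
    rw [norm_mul, norm_mul, Complex.norm_real, Real.norm_eq_abs, abs_mul, abs_of_nonneg (G0 _),
      Complex.norm_intCast]
    exact mul_le_mul (mul_le_of_le_one_right (G0 _) (exa_jac _ _))
      ((mul_le_of_le_one_right (norm_nonneg _) (exa_jac _ _)).trans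
        (hE0.2.2.2.1 s₁ s₂ _ h1 h2)) (by positivity) (G0 _)
  have e1 : ∀ m : ℤ, ((GX X m * (jacobiSym m l : ℝ) : ℝ) : ℂ) *
        (LS m (1 / 2 + s₁) ^ 2 * LS m (1 / 2 + s₂) ^ 2) =
      ∑' n : ℕ, ((GX X m * (jacobiSym m l : ℝ) : ℝ) : ℂ) *
        (Cf s₁ s₂ n * (jacobiSym m n : ℂ)) := fun m => by
    rw [tsum_mul_left, (hE0.2.2.2.2.2.1 m s₁ s₂ h1 h2).tsum_eq]
  simp only [e1]
  rw [← hF.tsum_comm]
  refine tsum_congr fun n => ?_
  rcases eq_or_ne n 0 with rfl | hn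
  · simp
  · unfold Sg
    rw [Complex.ofReal_tsum, ← tsum_mul_left]
    refine tsum_congr fun m => ?_
    rw [jacobiSym.mul_right' m hn hl]
    push_cast
    ring

theorem pEXA (hE0 : E0) (hLSP : LSP) (hP2 : P2) : EXA := by
  intro w X l hw hX hl
  have hG := (hP2 X l hX hl).1
  have G0 : ∀ m, 0 ≤ GX X m := fun m => (Real.exp_pos _).le
  have hw' := exa_wt w hw
  let F : ℤ → ℝ × ℝ → ℂ := fun m t => ((GX X m * (jacobiSym m l : ℝ) : ℝ) : ℂ) *
    ((w (12 + t.1 * I) * LS m (1 / 2 + (12 + t.1 * I)) ^ 2) *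
      (wt w (12 + t.2 * I) * LS m (1 / 2 + (12 + t.2 * I)) ^ 2))
  have hF : ∀ m, Integrable (F m) := fun m =>
    ((exa_int hLSP w hw m).mul_prod (exa_int hLSP (wt w) hw' m)).const_mul _
  have hg : Integrable fun t : ℝ × ℝ => ‖w (12 + t.1 * I)‖ * ‖wt w (12 + t.2 * I)‖ :=
    Integrable.mul_prod hw.norm hw'.norm
  have hb : ∀ m, ∫ t, ‖F m t‖ ≤
      GX X m * (16 * ∫ t : ℝ × ℝ, ‖w (12 + t.1 * I)‖ * ‖wt w (12 + t.2 * I)‖) := by
    intro m
    rw [← integral_const_mul, ← integral_const_mul]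
    refine integral_mono (hF m).norm ((hg.const_mul _).const_mul _) fun t => ?_
    simp only [F]
    rw [norm_mul, Complex.norm_real, Real.norm_eq_abs, abs_mul, abs_of_nonneg (G0 _), norm_mul,
      norm_mul, norm_mul]
    refine mul_le_mul (mul_le_of_le_one_right (G0 _) (exa_jac _ _)) ?_ (by positivity) (G0 _)
    calc _ ≤ (‖w (12 + t.1 * I)‖ * 4) * (‖wt w (12 + t.2 * I)‖ * 4) := by
          gcongr
          · exact exa_bd hLSP m _
          · exact exa_bd hLSP m _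
      _ = _ := by ring
  have hS : Summable fun m => ∫ t, ‖F m t‖ :=
    Summable.of_nonneg_of_le (fun m => integral_nonneg fun t => norm_nonneg _) hb
      (hG.mul_right _)
  have H := hasSum_integral_of_summable_integral_norm hF hS
  have e1 : ∀ m, ∫ t, F m t = ((GX X m * ‖Dw w m‖ ^ 2 * (jacobiSym m l : ℝ) : ℝ) : ℂ) := by
    intro m
    simp only [F]
    rw [integral_const_mul, ← exa_sq hLSP]
    push_cast
    ring
  have e2 : ∫ t, ∑' m, F m t = PsI w X l := by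
    unfold PsI I2
    simp only [Complex.ofReal_ofNat]
    refine integral_congr_ae (Filter.Eventually.of_forall fun t => ?_)
    simp only
    rw [← exa_swap hE0 X l hl.pos.ne' hG _ _ (by simp) (by simp), ← tsum_mul_left]
    refine tsum_congr fun m => ?_
    simp only [F]
    ring
  simp only [e1] at H
  rw [e2] at H
  exact H

end Pool.Agent.QM
end

-- part Pool.Agent.P.MP_ea46f5_nt.QM.FEXB
section

namespace Pool.Agent.QM

open Complex MeasureTheory Finset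
open scoped Real ComplexConjugate

theorem pEXB (hMG : MG) (hPL : PL) : EXB := by
  obtain ⟨C, hC, hM⟩ := hMG
  obtain ⟨C', hC', -, hP, -⟩ := hPL
  have hsum : Summable fun n : ℕ => (n : ℝ) ^ (-(3 / 2) : ℝ) :=
    Real.summable_nat_rpow.2 (by norm_num)
  set S := ∑' n : ℕ, (n : ℝ) ^ (-(3 / 2) : ℝ) with hS
  refine ⟨Real.exp (C * (C' + S)), ⌈C⌉₊, Real.exp_pos _,
    fun P B R lam T Y z s₁ s₂ hT hz h1 h2 h5 => ?_⟩
  set τ := ‖z‖ + ‖s₁‖ + ‖s₂‖ with hτ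
  have hτ0 : 0 ≤ τ := by positivity
  have hlam := hT.lam0
  have h := hT.hr (fun p y => ‖mu 1 z s₁ s₂ p y‖)
    (fun p => C * (min 1 (τ * Real.log p) / p + (p : ℝ) ^ (-(3 / 2) : ℝ)))
    (fun _ _ => norm_nonneg _)
    (fun p => by
      have := Real.log_natCast_nonneg p
      positivity)
    (fun p hp θ hθ => by
      have hp0 : (0 : ℝ) < p := by exact_mod_cast (hT.op p hp).1.pos
      have hl : Real.log p ≤ lam := (Real.log_le_iff_le_exp hp0).2 (hT.le p hp)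
      refine hM p z s₁ s₂ θ (hT.op p hp).1 (hT.op p hp).2 hz h1 h2 (le_trans ?_ h5) hθ
      exact mul_le_mul_of_nonneg_left hl (by positivity))
  have h3 := hP P lam τ (fun p hp => ⟨(hT.op p hp).1, hT.le p hp⟩) hlam hτ0
  have h4 : ∑ p ∈ P, (p : ℝ) ^ (-(3 / 2) : ℝ) ≤ S :=
    hsum.sum_le_tsum P fun n _ => by positivity
  have hx : 1 ≤ 1 + lam * τ := le_add_of_nonneg_right (by positivity)
  have h6 : ∑ p ∈ P, C * (min 1 (τ * Real.log p) / p + (p : ℝ) ^ (-(3 / 2) : ℝ)) ≤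
      C * (C' + S) + (⌈C⌉₊ : ℝ) * Real.log (1 + lam * τ) := by
    rw [← mul_sum, sum_add_distrib]
    have h7 := mul_le_mul_of_nonneg_right (Nat.le_ceil C) (Real.log_nonneg hx)
    nlinarith
  have h8 : Real.exp ((⌈C⌉₊ : ℝ) * Real.log (1 + lam * τ)) = (1 + lam * τ) ^ ⌈C⌉₊ := by
    rw [Real.exp_nat_mul, Real.exp_log (by linarith)]
  refine h.trans ?_
  calc T * Real.exp (10 * sg P +
        ∑ p ∈ P, C * (min 1 (τ * Real.log p) / p + (p : ℝ) ^ (-(3 / 2) : ℝ)))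
      ≤ T * Real.exp (10 * sg P + (C * (C' + S) + (⌈C⌉₊ : ℝ) * Real.log (1 + lam * τ))) :=
        mul_le_mul_of_nonneg_left (Real.exp_le_exp.2 (by linarith)) hT.T0
    _ = _ := by rw [Real.exp_add, Real.exp_add, h8]; ring

end Pool.Agent.QM
end

-- part Pool.Agent.P.MP_ea46f5_nt.QM.FEXC
section

namespace Pool.Agent.QM

open Complex MeasureTheory Finset
open scoped Real ComplexConjugate

/-- The product weight on the two lines. -/
noncomputable def exc_W (w : ℂ → ℂ) (t : ℝ × ℝ) : ℂ := w (12 + t.1 * I) * wt w (12 + t.2 * I)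

/-- The averaged coefficient. -/
noncomputable def exc_a (w : ℂ → ℂ) (n : ℕ) : ℂ :=
  ∫ t : ℝ × ℝ, exc_W w t * Cf (12 + t.1 * I) (12 + t.2 * I) n

theorem exc_wt {w : ℂ → ℂ} (hw : LI w) : Integrable fun t : ℝ => wt w (12 + t * I) := by
  have h1 : Integrable fun t : ℝ => w (12 + ((-t : ℝ) : ℂ) * I) :=
    Integrable.comp_neg (f := fun t : ℝ => w (12 + t * I)) hw
  have h2 := (Complex.conjCLE.toContinuousLinearMap.integrable_comp h1)
  refine h2.congr (Filter.Eventually.of_forall fun t => ?_)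
  have e : conj (12 + (t : ℂ) * I) = 12 + ((-t : ℝ) : ℂ) * I := by
    rw [map_add, map_mul, conj_ofReal, conj_I, map_ofNat]; push_cast; ring
  simp only [wt, e]
  rfl

theorem exc_W_int {w : ℂ → ℂ} (hw : LI w) : Integrable (exc_W w) := by
  have := Integrable.mul_prod (μ := (volume : Measure ℝ)) (ν := (volume : Measure ℝ))
    (f := fun t : ℝ => w (12 + t * I)) (g := fun t : ℝ => wt w (12 + t * I)) hw (exc_wt hw)
  exact this

theorem exc_re (t : ℝ) : (12 + (t : ℂ) * I).re = 12 := by simp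

theorem exc_cf_le (hE0 : E0) (t : ℝ × ℝ) (n : ℕ) :
    ‖Cf (12 + t.1 * I) (12 + t.2 * I) n‖ ≤ (n : ℝ) ^ (-(19 / 2) : ℝ) :=
  hE0.2.2.2.1 _ _ n (exc_re _) (exc_re _)

theorem exc_cf_cont (hE0 : E0) (n : ℕ) :
    Continuous fun t : ℝ × ℝ => Cf (12 + t.1 * I) (12 + t.2 * I) n := by
  have h : Continuous fun t : ℝ × ℝ => ((12 + (t.1 : ℂ) * I, 12 + (t.2 : ℂ) * I) : ℂ × ℂ) := by
    fun_prop
  exact Continuous.comp (g := fun x : ℂ × ℂ => Cf x.1 x.2 n)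
    (f := fun t : ℝ × ℝ => ((12 + (t.1 : ℂ) * I, 12 + (t.2 : ℂ) * I) : ℂ × ℂ))
    (hE0.2.2.2.2.1 n) h

theorem exc_term_int (hE0 : E0) {w : ℂ → ℂ} (hw : LI w) (n : ℕ) :
    Integrable fun t : ℝ × ℝ => exc_W w t * Cf (12 + t.1 * I) (12 + t.2 * I) n :=
  (exc_W_int hw).mul_bdd (c := (n : ℝ) ^ (-(19 / 2) : ℝ)) (exc_cf_cont hE0 n).aestronglyMeasurable
    (Filter.Eventually.of_forall fun t => exc_cf_le hE0 t n)

theorem exc_term_le (hE0 : E0) {w : ℂ → ℂ} (hw : LI w) (n : ℕ) :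
    ∫ t : ℝ × ℝ, ‖exc_W w t * Cf (12 + t.1 * I) (12 + t.2 * I) n‖ ≤
      (∫ t, ‖exc_W w t‖) * (n : ℝ) ^ (-(19 / 2) : ℝ) := by
  rw [← integral_mul_const]
  refine integral_mono (exc_term_int hE0 hw n).norm ((exc_W_int hw).norm.mul_const _) fun t => ?_
  simp only [norm_mul]
  exact mul_le_mul_of_nonneg_left (exc_cf_le hE0 t n) (norm_nonneg _)

theorem exc_a_le (hE0 : E0) {w : ℂ → ℂ} (hw : LI w) (n : ℕ) :
    ‖exc_a w n‖ ≤ (∫ t, ‖exc_W w t‖) * (n : ℝ) ^ (-(19 / 2) : ℝ) :=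
  (norm_integral_le_integral_norm _).trans (exc_term_le hE0 hw n)

theorem exc_a_even (hE0 : E0) (w : ℂ → ℂ) {n : ℕ} (hn : ¬ Odd n) : exc_a w n = 0 := by
  simp [exc_a, hE0.2.2.1 _ _ n hn]

theorem exc_pow (n : ℕ) : (n : ℝ) ^ (-(19 / 2) : ℝ) * (n : ℝ) ^ 7 = (n : ℝ) ^ (-(5 / 2) : ℝ) := by
  rcases Nat.eq_zero_or_pos n with rfl | hn
  · simp
  · have h : (0 : ℝ) < n := by exact_mod_cast hn
    rw [← Real.rpow_natCast (n : ℝ) 7, ← Real.rpow_add h]
    norm_num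

theorem exc_sum : Summable fun n : ℕ => (n : ℝ) ^ (-(5 / 2) : ℝ) :=
  Real.summable_nat_rpow.mpr (by norm_num)

/-- The majorant for the coefficients against any sequence of polynomial growth. -/
theorem exc_u (hE0 : E0) {w : ℂ → ℂ} (hw : LI w) :
    Summable fun n : ℕ => ‖exc_a w n‖ * (n : ℝ) ^ 7 := by
  refine Summable.of_nonneg_of_le (fun n => by positivity) (fun n => ?_)
    (exc_sum.mul_left (∫ t, ‖exc_W w t‖))
  rw [← exc_pow, ← mul_assoc]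
  exact mul_le_mul_of_nonneg_right (exc_a_le hE0 hw n) (by positivity)

theorem exc_ab_le (hE0 : E0) (w : ℂ → ℂ) {b : ℕ → ℂ} {M : ℝ}
    (hb : ∀ n, Odd n → ‖b n‖ ≤ M * (n : ℝ) ^ 7) (n : ℕ) :
    ‖exc_a w n * b n‖ ≤ ‖exc_a w n‖ * (n : ℝ) ^ 7 * M := by
  by_cases hn : Odd n
  · rw [norm_mul, mul_assoc, mul_comm _ M]
    exact mul_le_mul_of_nonneg_left (hb n hn) (norm_nonneg _)
  · rw [exc_a_even hE0 w hn]; simp

theorem exc_ab_sum (hE0 : E0) {w : ℂ → ℂ} (hw : LI w) {b : ℕ → ℂ} {M : ℝ}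
    (hb : ∀ n, Odd n → ‖b n‖ ≤ M * (n : ℝ) ^ 7) : Summable fun n => exc_a w n * b n :=
  Summable.of_norm_bounded ((exc_u hE0 hw).mul_right M) (exc_ab_le hE0 w hb)

/-- Termwise integration of the Dirichlet series on the two lines. -/
theorem exc_swap (hE0 : E0) {w : ℂ → ℂ} (hw : LI w) {b : ℕ → ℂ} {M : ℝ} (hM : 0 ≤ M)
    (hb : ∀ n, Odd n → ‖b n‖ ≤ M * (n : ℝ) ^ 7) :
    I2 12 (fun s₁ s₂ => w s₁ * wt w s₂ * ∑' n : ℕ, Cf s₁ s₂ n * b n) =
      ∑' n, exc_a w n * b n := by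
  have hi : ∀ n : ℕ, Integrable fun t : ℝ × ℝ =>
      exc_W w t * Cf (12 + t.1 * I) (12 + t.2 * I) n * b n :=
    fun n => (exc_term_int hE0 hw n).mul_const _
  have hs : Summable fun n : ℕ =>
      ∫ t : ℝ × ℝ, ‖exc_W w t * Cf (12 + t.1 * I) (12 + t.2 * I) n * b n‖ := by
    refine Summable.of_nonneg_of_le (fun n => integral_nonneg fun t => norm_nonneg _) (fun n => ?_)
      (exc_sum.mul_left ((∫ t, ‖exc_W w t‖) * M))
    have h0 : 0 ≤ ∫ t, ‖exc_W w t‖ := integral_nonneg fun t => norm_nonneg _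
    by_cases hn : Odd n
    · simp only [norm_mul _ (b n)]
      rw [integral_mul_const, ← exc_pow]
      calc _ ≤ ((∫ t, ‖exc_W w t‖) * (n : ℝ) ^ (-(19 / 2) : ℝ)) * (M * (n : ℝ) ^ 7) :=
            mul_le_mul (exc_term_le hE0 hw n) (hb n hn) (norm_nonneg _) (by positivity)
        _ = _ := by ring
    · simp only [hE0.2.2.1 _ _ n hn, mul_zero, zero_mul, norm_zero, integral_zero]
      positivity
  have h := integral_tsum_of_summable_integral_norm hi hs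
  have e1 : ∀ n : ℕ, ∫ t : ℝ × ℝ, exc_W w t * Cf (12 + t.1 * I) (12 + t.2 * I) n * b n =
      exc_a w n * b n := fun n => integral_mul_const _ _
  simp only [e1] at h
  rw [h, I2]
  refine integral_congr_ae (Filter.Eventually.of_forall fun t => ?_)
  simp only [mul_assoc (exc_W w t), tsum_mul_left]
  rfl

theorem exc_T_le (hTKB : TKB) (k : ℤ) {z : ℂ} (h0 : 0 ≤ z.re) (h6 : z.re ≤ 6) {l : ℕ} (hl : Odd l)
    (n : ℕ) (hn : Odd n) : ‖Tk k z (n * l)‖ ≤ (l : ℝ) ^ 7 * (n : ℝ) ^ 7 := by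
  have := hTKB.2.1 k z (n * l) h0 h6 (hn.mul hl).pos.ne'
  rwa [Nat.cast_mul, mul_pow, mul_comm ((n : ℝ) ^ 7)] at this

theorem exc_J (hE0 : E0) (hTKB : TKB) {w : ℂ → ℂ} (hw : LI w) (k : ℤ) {z : ℂ} (h0 : 0 ≤ z.re)
    (h6 : z.re ≤ 6) {l : ℕ} (hl : Odd l) :
    J1 w l k z = ∑' n, exc_a w n * Tk k z (n * l) :=
  exc_swap hE0 hw (b := fun n => Tk k z (n * l)) (by positivity) (exc_T_le hTKB k h0 h6 hl)

theorem exc_S_le (hP2 : P2) (hTKB : TKB) {X : ℝ} (hX : 0 < X) {l : ℕ} (hl : Odd l) (n : ℕ)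
    (hn : Odd n) : ‖(Sg X (n * l) : ℂ)‖ ≤ (X + l) * (n : ℝ) ^ 7 := by
  have h := (hP2 X (n * l) hX (hn.mul hl)).2.2
  obtain ⟨t0, t1, -⟩ := hTKB.2.2.2 (n * l)
  have hn1 : (1 : ℝ) ≤ n := by exact_mod_cast hn.pos
  have hl1 : (1 : ℝ) ≤ l := by exact_mod_cast hl.pos
  have hnl : (1 : ℝ) ≤ ((n * l : ℕ) : ℝ) := by exact_mod_cast (hn.mul hl).pos
  have hs : √((n * l : ℕ) : ℝ) ≤ ((n * l : ℕ) : ℝ) := by
    rw [Real.sqrt_le_left (by linarith)]; nlinarith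
  have h7 : (n : ℝ) ≤ (n : ℝ) ^ 7 := le_self_pow₀ hn1 (by norm_num)
  have hx : X * T0 (n * l) ≤ X := mul_le_of_le_one_right hX.le t1
  have hx0 : 0 ≤ X * T0 (n * l) := mul_nonneg hX.le t0
  rw [norm_real, Real.norm_eq_abs]
  have h1 : |Sg X (n * l)| ≤ X + (n : ℝ) * l := by
    have := abs_le.mp (h.trans hs)
    push_cast at this
    rw [abs_le]; constructor <;> nlinarith [this.1, this.2]
  have h2 : X ≤ X * (n : ℝ) ^ 7 := le_mul_of_one_le_right hX.le (hn1.trans h7)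
  have h3 : (n : ℝ) * l ≤ l * (n : ℝ) ^ 7 := by
    rw [mul_comm]; exact mul_le_mul_of_nonneg_left h7 (by linarith)
  linarith [add_mul X (l : ℝ) ((n : ℝ) ^ 7)]

theorem exc_K_cont {k : ℤ} (hk : k ≠ 0) {X σ : ℝ} (hX : 0 < X) (hσ : 1 / 2 < σ) :
    Continuous fun y : ℝ => Kz k X (σ + y * I) := by
  have hb : (0 : ℝ) < |(k : ℝ)| * X := mul_pos (abs_pos.mpr (by exact_mod_cast hk)) hX
  have hl : Continuous fun y : ℝ => (σ : ℂ) + y * I := by fun_prop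
  have hre : ∀ y : ℝ, ((σ : ℂ) + y * I).re = σ := fun y => by simp
  refine continuous_iff_continuousAt.mpr fun y => ?_
  have h1 : ContinuousAt Gammaℝ ((σ : ℂ) + y * I) := by
    have hd : DifferentiableAt ℂ Gammaℝ ((σ : ℂ) + y * I) := by
      have hne : Gammaℝ ((σ : ℂ) + y * I) ≠ 0 :=
        Gammaℝ_ne_zero_of_re_pos (by rw [hre]; linarith)
      have := (differentiable_Gammaℝ_inv ((σ : ℂ) + y * I)).inv (inv_ne_zero hne)
      have e : (fun s : ℂ => (Gammaℝ s)⁻¹)⁻¹ = Gammaℝ := by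
        funext s; simp
      rwa [e] at this
    exact hd.continuousAt
  have h2 : ContinuousAt riemannZeta (2 * ((σ : ℂ) + y * I)) := by
    refine (differentiableAt_riemannZeta fun h => ?_).continuousAt
    have := congrArg Complex.re h
    simp at this; linarith
  have c1 : ContinuousAt (fun y : ℝ => Gammaℝ ((σ : ℂ) + y * I)) y :=
    ContinuousAt.comp (f := fun y : ℝ => (σ : ℂ) + y * I) h1 hl.continuousAt
  have c2 : ContinuousAt (fun y : ℝ => riemannZeta (2 * ((σ : ℂ) + y * I))) y :=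
    ContinuousAt.comp (f := fun y : ℝ => 2 * ((σ : ℂ) + y * I)) h2 (by fun_prop)
  have c3 : ContinuousAt (fun y : ℝ => ((|(k : ℝ)| * X : ℝ) : ℂ) ^ (-((σ : ℂ) + y * I))) y :=
    (Continuous.const_cpow hl.neg (Or.inl (ofReal_ne_zero.mpr hb.ne'))).continuousAt
  exact ((c1.div_const 2).mul c2).mul c3

theorem exc_K_le (hKZ : KZ) : ∃ C : ℝ, 0 < C ∧ ∀ (k : ℤ) (X σ y : ℝ), k ≠ 0 → 0 < X → 1 / 2 < σ →
    σ ≤ 6 → ‖Kz k X (σ + y * I)‖ ≤
      C * (1 + 1 / (σ - 1 / 2)) * (|(k : ℝ)| * X) ^ (-σ) * (1 / br y ^ 2) := by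
  obtain ⟨C, hC, h⟩ := hKZ 2
  refine ⟨C / 2, by positivity, fun k X σ y hk hX h1 h6 => ?_⟩
  have hb : (0 : ℝ) < |(k : ℝ)| * X := mul_pos (abs_pos.mpr (by exact_mod_cast hk)) hX
  have hre : ((σ : ℂ) + y * I).re = σ := by simp
  have him : ((σ : ℂ) + y * I).im = y := by simp
  have h2 := (h (σ + y * I)).2.1 (by rw [hre]; exact h1) (by rw [hre]; linarith)
  rw [hre, him] at h2
  have e : Kz k X (σ + y * I) = (1 / 2) * (Gammaℝ (σ + y * I) * riemannZeta (2 * (σ + y * I))) *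
      ((|(k : ℝ)| * X : ℝ) : ℂ) ^ (-((σ : ℂ) + y * I)) := by
    unfold Kz; ring
  rw [e, norm_mul, norm_mul, norm_cpow_eq_rpow_re_of_pos hb, neg_re, hre]
  have e2 : ‖(1 / 2 : ℂ)‖ = 1 / 2 := by simp
  rw [e2]
  calc _ ≤ 1 / 2 * (C * (1 + 1 / (σ - 1 / 2)) / br y ^ 2) * (|(k : ℝ)| * X) ^ (-σ) := by
        gcongr
    _ = _ := by ring

theorem exc_K_int (hKZ : KZ) (hDEC : DEC) {k : ℤ} (hk : k ≠ 0) {X σ : ℝ} (hX : 0 < X)
    (h1 : 1 / 2 < σ) (h6 : σ ≤ 6) : Integrable fun y : ℝ => Kz k X (σ + y * I) := by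
  obtain ⟨C, -, h⟩ := exc_K_le hKZ
  exact (hDEC.2.2.2.1.1.const_mul _).mono' (exc_K_cont hk hX h1).aestronglyMeasurable
    (Filter.Eventually.of_forall fun y => h k X σ y hk hX h1 h6)

theorem exc_KT_int (hKZ : KZ) (hDEC : DEC) (hTKB : TKB) {k : ℤ} (hk : k ≠ 0) {X σ : ℝ}
    (hX : 0 < X) (h1 : 1 / 2 < σ) (h6 : σ ≤ 6) {l : ℕ} (hl : Odd l) {n : ℕ} (hn : Odd n) :
    Integrable (fun y : ℝ => Kz k X (σ + y * I) * Tk k (σ + y * I) (n * l)) ∧
      ∫ y : ℝ, ‖Kz k X (σ + y * I) * Tk k (σ + y * I) (n * l)‖ ≤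
        (∫ y : ℝ, ‖Kz k X (σ + y * I)‖) * (l : ℝ) ^ 7 * (n : ℝ) ^ 7 := by
  have hre : ∀ y : ℝ, ((σ : ℂ) + y * I).re = σ := fun y => by simp
  have hb : ∀ y : ℝ, ‖Tk k (σ + y * I) (n * l)‖ ≤ (l : ℝ) ^ 7 * (n : ℝ) ^ 7 := fun y =>
    exc_T_le hTKB k (by rw [hre]; linarith) (by rw [hre]; exact h6) hl n hn
  have hc : Continuous fun y : ℝ => Tk k (σ + y * I) (n * l) :=
    Continuous.comp (g := fun z => Tk k z (n * l)) (f := fun y : ℝ => (σ : ℂ) + y * I)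
      (hTKB.2.2.1 k (n * l)) (by fun_prop)
  have hK := exc_K_int hKZ hDEC hk hX h1 h6
  have hi := hK.mul_bdd hc.aestronglyMeasurable (Filter.Eventually.of_forall hb)
  refine ⟨hi, ?_⟩
  rw [mul_assoc, ← integral_mul_const]
  refine integral_mono hi.norm (hK.norm.mul_const _) fun y => ?_
  simp only [norm_mul]
  exact mul_le_mul_of_nonneg_left (hb y) (norm_nonneg _)

theorem exc_A_le (hKZ : KZ) (hDEC : DEC) (hTKB : TKB) {k : ℤ} (hk : k ≠ 0) {X σ : ℝ}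
    (hX : 0 < X) (h1 : 1 / 2 < σ) (h6 : σ ≤ 6) {l : ℕ} (hl : Odd l) (n : ℕ) (hn : Odd n) :
    ‖(X : ℂ) * Ak k X σ (n * l)‖ ≤
      X * ((∫ y : ℝ, ‖Kz k X (σ + y * I)‖) * (l : ℝ) ^ 7) * (n : ℝ) ^ 7 := by
  have h := (exc_KT_int hKZ hDEC hTKB hk hX h1 h6 hl hn).2
  have h2 : ‖Iv σ fun z => Kz k X z * Tk k z (n * l)‖ ≤ _ :=
    (norm_integral_le_integral_norm _).trans h
  have h3 : ‖(1 / (2 * π) : ℂ)‖ ≤ 1 := by
    rw [norm_div, norm_one, norm_mul, norm_real, Real.norm_eq_abs, abs_of_pos Real.pi_pos,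
      Complex.norm_two, div_le_one (by positivity)]
    linarith [Real.pi_gt_three]
  rw [Ak, norm_mul, norm_mul, norm_real, Real.norm_eq_abs, abs_of_pos hX, mul_assoc]
  refine mul_le_mul_of_nonneg_left ?_ hX.le
  exact (mul_le_of_le_one_left (norm_nonneg _) h3).trans h2

/-- One term of the dual sum as a series over `n`. -/
theorem exc_term (hE0 : E0) (hKZ : KZ) (hDEC : DEC) (hTKB : TKB) {w : ℂ → ℂ} (hw : LI w) {k : ℤ}
    (hk : k ≠ 0) {X σ : ℝ} (hX : 0 < X) (h1 : 1 / 2 < σ) (h6 : σ ≤ 6) {l : ℕ} (hl : Odd l) :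
    (X : ℂ) * (1 / (2 * π) * Iv σ fun z => Kz k X z * J1 w l k z) =
      ∑' n, exc_a w n * ((X : ℂ) * Ak k X σ (n * l)) := by
  have hre : ∀ y : ℝ, ((σ : ℂ) + y * I).re = σ := fun y => by simp
  have hi : ∀ n : ℕ, Integrable fun y : ℝ =>
      exc_a w n * (Kz k X (σ + y * I) * Tk k (σ + y * I) (n * l)) := by
    intro n
    by_cases hn : Odd n
    · exact (exc_KT_int hKZ hDEC hTKB hk hX h1 h6 hl hn).1.const_mul _
    · simp [exc_a_even hE0 w hn]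
  have hs : Summable fun n : ℕ =>
      ∫ y : ℝ, ‖exc_a w n * (Kz k X (σ + y * I) * Tk k (σ + y * I) (n * l))‖ := by
    refine Summable.of_nonneg_of_le (fun n => integral_nonneg fun t => norm_nonneg _) (fun n => ?_)
      ((exc_u hE0 hw).mul_right ((∫ y : ℝ, ‖Kz k X (σ + y * I)‖) * (l : ℝ) ^ 7))
    by_cases hn : Odd n
    · simp only [norm_mul (exc_a w n)]
      rw [integral_const_mul, mul_assoc, mul_comm ((n : ℝ) ^ 7)]
      exact mul_le_mul_of_nonneg_left (exc_KT_int hKZ hDEC hTKB hk hX h1 h6 hl hn).2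
        (norm_nonneg _)
    · simp [exc_a_even hE0 w hn]
  have h := integral_tsum_of_summable_integral_norm hi hs
  have e : (Iv σ fun z => Kz k X z * J1 w l k z) =
      ∑' n, exc_a w n * Iv σ fun z => Kz k X z * Tk k z (n * l) := by
    simp only [integral_const_mul] at h
    simp only [Iv]
    rw [h]
    refine integral_congr_ae (Filter.Eventually.of_forall fun y => ?_)
    simp only
    rw [exc_J hE0 hTKB hw k (by rw [hre]; linarith) (by rw [hre]; exact h6) hl, ← tsum_mul_left]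
    exact tsum_congr fun n => by ring
  rw [e, ← tsum_mul_left, ← tsum_mul_left]
  exact tsum_congr fun n => by rw [Ak]; ring

theorem exc_v (hKZ : KZ) (hDEC : DEC) {X K : ℝ} (hX : 0 < X) {σ : ℤ → ℝ}
    (hK : ∀ k : ℤ, K < |(k : ℝ)| → σ k = 6) :
    Summable fun k : SF => ∫ y : ℝ, ‖Kz k X (σ k + y * I)‖ := by
  obtain ⟨C, hC, h⟩ := exc_K_le hKZ
  have hg : Summable fun k : SF => (C * (1 + 1 / (6 - 1 / 2)) * X ^ (-6 : ℝ) * 2) *
      (1 / ((k : ℤ) : ℝ) ^ 6) :=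
    ((Real.summable_one_div_int_pow.mpr (by norm_num : 1 < 6)).subtype _).mul_left _
  refine Summable.of_norm_bounded_eventually hg ?_
  have hfin : {k : SF | ¬ K < |((k : ℤ) : ℝ)|}.Finite := by
    refine Set.Finite.subset
      ((Set.finite_Icc (-⌈K⌉) ⌈K⌉).preimage (f := fun k : SF => (k : ℤ))
        Subtype.val_injective.injOn) fun k hk => ?_
    have h1 : |((k : ℤ) : ℝ)| ≤ (⌈K⌉ : ℝ) := (not_lt.mp hk).trans (Int.le_ceil K)
    have h2 : |(k : ℤ)| ≤ ⌈K⌉ := by exact_mod_cast h1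
    exact abs_le.mp h2
  refine Filter.mem_of_superset hfin.compl_mem_cofinite fun k hk => ?_
  have hk1 : K < |((k : ℤ) : ℝ)| := not_not.mp hk
  have hk0 : (k : ℤ) ≠ 0 := k.2.ne_zero
  have hkp : (0 : ℝ) < |((k : ℤ) : ℝ)| := abs_pos.mpr (by exact_mod_cast hk0)
  show ‖∫ y : ℝ, ‖Kz k X (σ k + y * I)‖‖ ≤ _
  rw [hK k hk1, Real.norm_of_nonneg (integral_nonneg fun y => norm_nonneg _)]
  have hi := exc_K_int hKZ hDEC hk0 hX (σ := 6) (by norm_num) le_rfl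
  have h1 := integral_mono hi.norm (hDEC.2.2.2.1.1.const_mul _)
    fun y => h k X 6 y hk0 hX (by norm_num) le_rfl
  rw [integral_const_mul] at h1
  have e : (|((k : ℤ) : ℝ)| * X) ^ (-6 : ℝ) = 1 / ((k : ℤ) : ℝ) ^ 6 * X ^ (-6 : ℝ) := by
    rw [Real.mul_rpow hkp.le hX.le, Real.rpow_neg hkp.le, one_div]
    congr 2
    rw [show (6 : ℝ) = ((6 : ℕ) : ℝ) by norm_num, Real.rpow_natCast]
    exact Even.pow_abs (by norm_num) _
  refine h1.trans ?_
  rw [e]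
  calc _ ≤ C * (1 + 1 / (6 - 1 / 2)) * (1 / ((k : ℤ) : ℝ) ^ 6 * X ^ (-6 : ℝ)) * 2 :=
        mul_le_mul_of_nonneg_left hDEC.2.2.2.1.2 (by positivity)
    _ = _ := by ring

theorem pEXC (hP1 : P1) (hP2 : P2) (hE0 : E0) (hTKB : TKB) (hKZ : KZ) (hDEC : DEC) (hINT : INT) : EXC := by
  intro w X K l σ hw hX hl hσ hK
  have hb : ∀ (k : SF) (n : ℕ), ‖exc_a w n * ((X : ℂ) * Ak k X (σ k) (n * l))‖ ≤
      ‖exc_a w n‖ * (n : ℝ) ^ 7 * (X * ((∫ y : ℝ, ‖Kz k X (σ k + y * I)‖) * (l : ℝ) ^ 7)) :=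
    fun k n => exc_ab_le hE0 w (b := fun n => (X : ℂ) * Ak k X (σ k) (n * l))
      (exc_A_le hKZ hDEC hTKB k.2.ne_zero hX (hσ k).1 (hσ k).2 hl) n
  have hv : Summable fun k : SF => X * ((∫ y : ℝ, ‖Kz k X (σ k + y * I)‖) * (l : ℝ) ^ 7) :=
    ((exc_v hKZ hDEC hX hK).mul_right _).mul_left _
  have hp := Summable.mul_of_nonneg (exc_u hE0 hw) hv (fun n => by positivity)
    (fun k => mul_nonneg hX.le
      (mul_nonneg (integral_nonneg fun y => norm_nonneg _) (by positivity)))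
  have hf : Summable fun x : ℕ × SF => exc_a w x.1 * ((X : ℂ) * Ak x.2 X (σ x.2) (x.1 * l)) :=
    Summable.of_norm_bounded hp fun x => hb x.2 x.1
  have hrow : ∀ n : ℕ, HasSum (fun k : SF => exc_a w n * ((X : ℂ) * Ak k X (σ k) (n * l)))
      (exc_a w n * (Sg X (n * l) : ℂ) - X * (exc_a w n * Tk 1 0 (n * l))) := by
    intro n
    by_cases hn : Odd n
    · have h := (hP1 X (n * l) σ hX (hn.mul hl) hσ).mul_left (exc_a w n)
      have e : exc_a w n * (Sg X (n * l) : ℂ) - X * (exc_a w n * Tk 1 0 (n * l)) =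
          exc_a w n * ((Sg X (n * l) - X * T0 (n * l) : ℝ) : ℂ) := by
        rw [hTKB.1 _ (hn.mul hl)]; push_cast; ring
      rw [e]; exact h
    · simp [exc_a_even hE0 w hn, hasSum_zero]
  have s1 : Summable fun n => exc_a w n * (Sg X (n * l) : ℂ) :=
    exc_ab_sum hE0 hw (b := fun n => (Sg X (n * l) : ℂ)) (exc_S_le hP2 hTKB hX hl)
  have s2 : Summable fun n => exc_a w n * Tk 1 0 (n * l) :=
    exc_ab_sum hE0 hw (b := fun n => Tk 1 0 (n * l)) (exc_T_le hTKB 1 (by simp) (by simp) hl)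
  have e1 : PsI w X l = ∑' n, exc_a w n * (Sg X (n * l) : ℂ) :=
    exc_swap hE0 hw (b := fun n => (Sg X (n * l) : ℂ)) (by positivity) (exc_S_le hP2 hTKB hX hl)
  have e2 := exc_J hE0 hTKB hw 1 (z := 0) (by simp) (by simp) hl
  have tot := hf.hasSum.prod_fiberwise hrow
  have tot2 := s1.hasSum.sub (s2.hasSum.mul_left (X : ℂ))
  have e3 := tot2.unique tot
  rw [e1, e2, e3]
  have hsw := (Equiv.prodComm SF ℕ).hasSum_iff.mpr hf.hasSum
  refine hsw.prod_fiberwise fun k => ?_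
  rw [exc_term hE0 hKZ hDEC hTKB hw k.2.ne_zero hX (hσ k).1 (hσ k).2 hl]
  exact (exc_ab_sum hE0 hw (b := fun n => (X : ℂ) * Ak k X (σ k) (n * l))
    (exc_A_le hKZ hDEC hTKB k.2.ne_zero hX (hσ k).1 (hσ k).2 hl)).hasSum

end Pool.Agent.QM
end

-- part Pool.Agent.P.MP_ea46f5_nt.QM.FEXL
section

namespace Pool.Agent.QM

open Complex MeasureTheory Finset
open scoped Real ComplexConjugate

theorem exl_ext0 {P : Finset ℕ} (x : P → ℤ) (p : P) : ext0 P x p = x p := by simp [ext0]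

theorem exl_prod {K : Type} [CommSemiring K] (P : Finset ℕ) (μ g : ℕ → ℤ → K) :
    Ex P μ (fun x => ∏ p ∈ P, g p (x p)) = ∏ p ∈ P, ∑ y ∈ T3, μ p y * g p y := by
  unfold Ex
  rw [← prod_coe_sort P (fun p => ∑ y ∈ T3, μ p y * g p y), prod_univ_sum]
  refine sum_congr rfl fun x _ => ?_
  beta_reduce
  rw [← prod_coe_sort P (fun p => g p (ext0 P x p)), ← prod_mul_distrib]
  exact prod_congr rfl fun p _ => by rw [exl_ext0]

theorem exl_mon {P : Finset ℕ} {l : ℕ} (h : l.primeFactors ⊆ P) (x : ℕ → ℤ) :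
    mon x l = ∏ p ∈ P, x p ^ l.factorization p := by
  unfold mon
  refine prod_subset h fun p _ hp => ?_
  have : l.factorization p = 0 := by
    rwa [← Finsupp.notMem_support_iff, Nat.support_factorization]
  rw [this, pow_zero]

theorem exl_mul (x : ℕ → ℤ) {a b : ℕ} (ha : a ≠ 0) (hb : b ≠ 0) :
    mon x (a * b) = mon x a * mon x b := by
  have h1 : a.primeFactors ⊆ (a * b).primeFactors := by
    rw [Nat.primeFactors_mul ha hb]; exact subset_union_left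
  have h2 : b.primeFactors ⊆ (a * b).primeFactors := by
    rw [Nat.primeFactors_mul ha hb]; exact subset_union_right
  rw [exl_mon h1, exl_mon h2, ← prod_mul_distrib]
  unfold mon
  refine prod_congr rfl fun p _ => ?_
  rw [Nat.factorization_mul ha hb, Finsupp.add_apply, pow_add]

theorem exl_jv (m : ℤ) {l : ℕ} (hl : l ≠ 0) : mon (jv m) l = jacobiSym m l := by
  induction l using induction_on_primes with
  | zero => exact absurd rfl hl
  | one => simp [mon]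
  | prime_mul p a hp ih =>
    have ha : a ≠ 0 := fun h => hl (by rw [h, mul_zero])
    have : NeZero p := ⟨hp.ne_zero⟩
    have : NeZero a := ⟨ha⟩
    rw [exl_mul _ hp.ne_zero ha, ih ha, jacobiSym.mul_right]
    simp [mon, hp.primeFactors, hp.factorization_self, jv]

theorem pEXL : EXL := by
  refine ⟨fun P μ f => exl_prod P μ f, fun P μ f => exl_prod P μ f, fun P x l h => exl_mon h x,
    fun m l hl _ => exl_jv m hl, fun x a b ha hb => exl_mul x ha hb, fun P μ c R hR => ?_,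
    fun P ν R R' hν h => ?_⟩
  · unfold Ex
    rw [mul_sum]
    refine (norm_sum_le _ _).trans (le_of_eq (sum_congr rfl fun x _ => ?_))
    rw [norm_mul, norm_prod, Complex.norm_real, Real.norm_eq_abs, abs_of_nonneg (hR _),
      ← prod_coe_sort P (fun p => ‖c p‖), ← mul_assoc, ← prod_mul_distrib]
    congr 1
    exact prod_congr rfl fun p _ => by rw [norm_mul, mul_comm]
  · unfold Ex
    exact sum_le_sum fun x _ =>
      mul_le_mul_of_nonneg_left (h _) (prod_nonneg fun p _ => hν p p.2 _)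

theorem exl_union {A B : Finset ℕ} (hd : Disjoint A B) (ν : ℕ → ℤ → ℝ) (F G : (ℕ → ℤ) → ℝ)
    (hF : ∀ x x' : ℕ → ℤ, (∀ p ∈ A, x p = x' p) → F x = F x')
    (hG : ∀ x x' : ℕ → ℤ, (∀ p ∈ B, x p = x' p) → G x = G x') :
    Ex (A ∪ B) ν (fun x => F x * G x) = Ex A ν F * Ex B ν G := by
  unfold Ex
  rw [sum_mul_sum, ← sum_product']
  refine sum_nbij'
    (fun x => ((fun p : A => ext0 (A ∪ B) x p), (fun p : B => ext0 (A ∪ B) x p)))
    (fun ab => fun p : ↥(A ∪ B) => if (p : ℕ) ∈ A then ext0 A ab.1 p else ext0 B ab.2 p)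
    (fun x hx => ?_) (fun ab hab => ?_) (fun x _ => ?_) (fun ab _ => ?_) (fun x _ => ?_)
  · have hx' := Fintype.mem_piFinset.1 hx
    refine mem_product.2 ⟨Fintype.mem_piFinset.2 fun p => ?_, Fintype.mem_piFinset.2 fun p => ?_⟩
    · have := exl_ext0 x ⟨p, mem_union_left _ p.2⟩
      simpa only [this] using hx' _
    · have := exl_ext0 x ⟨p, mem_union_right _ p.2⟩
      simpa only [this] using hx' _
  · obtain ⟨ha, hb⟩ := mem_product.1 hab
    refine Fintype.mem_piFinset.2 fun p => ?_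
    by_cases h : (p : ℕ) ∈ A
    · have := exl_ext0 ab.1 ⟨p, h⟩
      simpa only [if_pos h, this] using Fintype.mem_piFinset.1 ha _
    · have h' : (p : ℕ) ∈ B := (mem_union.1 p.2).resolve_left h
      have := exl_ext0 ab.2 ⟨p, h'⟩
      simpa only [if_neg h, this] using Fintype.mem_piFinset.1 hb _
  · funext p
    by_cases h : (p : ℕ) ∈ A
    · simp [ext0, h]
    · have h' : (p : ℕ) ∈ B := (mem_union.1 p.2).resolve_left h
      simp [ext0, h, h']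
  · refine Prod.ext (funext fun p => ?_) (funext fun p => ?_)
    · simp [ext0]
    · have h : (p : ℕ) ∉ A := disjoint_right.1 hd p.2
      simp [ext0, h]
  · have e1 : ∏ p : ↥(A ∪ B), ν p (x p) = (∏ p : A, ν p (ext0 (A ∪ B) x p)) *
        ∏ p : B, ν p (ext0 (A ∪ B) x p) := by
      rw [prod_coe_sort A (fun p => ν p (ext0 (A ∪ B) x p)),
        prod_coe_sort B (fun p => ν p (ext0 (A ∪ B) x p)), ← prod_union hd,
        ← prod_coe_sort (A ∪ B) (fun p => ν p (ext0 (A ∪ B) x p))]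
      exact prod_congr rfl fun p _ => by rw [exl_ext0]
    have e2 := hF (ext0 (A ∪ B) x) (ext0 A fun p : A => ext0 (A ∪ B) x p) fun p hp => by
      simp [ext0, hp]
    have e3 := hG (ext0 (A ∪ B) x) (ext0 B fun p : B => ext0 (A ∪ B) x p) fun p hp => by
      simp [ext0, hp]
    beta_reduce
    rw [e1, e2, e3]
    ring

theorem exl_Pb {S : Finset ℕ} {x x' : ℕ → ℤ} (h : ∀ p ∈ S, x p = x' p) : Pb S x = Pb S x' :=
  sum_congr rfl fun p hp => by rw [h p hp]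

theorem pEXF : EXF := by
  intro S Bl ν f
  induction S using Finset.induction_on with
  | empty =>
    intro _
    simpa using exl_prod (∅ : Finset ℕ) ν (fun _ _ => 1)
  | insert a S ha ih =>
    intro hd
    have hd' : Disjoint (Bl a) (S.biUnion Bl) := by
      rw [disjoint_biUnion_right]
      exact fun i hi => hd a (mem_insert_self _ _) i (mem_insert_of_mem hi)
        (fun h => ha (h ▸ hi))
    simp only [prod_insert ha, biUnion_insert]
    rw [exl_union hd' ν (fun x => f a (Pb (Bl a) x)) (fun x => ∏ i ∈ S, f i (Pb (Bl i) x))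
      (fun x x' h => by rw [exl_Pb h])
      (fun x x' h => prod_congr rfl fun i hi => by
        rw [exl_Pb fun p hp => h p (mem_biUnion.2 ⟨i, hi, hp⟩)]),
      ih fun i hi j hj => hd i (mem_insert_of_mem hi) j (mem_insert_of_mem hj)]

end Pool.Agent.QM
end

-- part Pool.Agent.P.MP_ea46f5_nt.QM.FFL
section

namespace Pool.Agent.QM

open Complex MeasureTheory Finset
open scoped Real ComplexConjugate

theorem fl_inj {k k' : ℤ} {r r' : ℕ} (hk' : Squarefree k') (hr : r.Prime) (hr' : r'.Prime)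
    (h : k * (r : ℤ) ^ 2 = k' * (r' : ℤ) ^ 2) : k = k' ∧ r = r' := by
  have e : r = r' := by
    by_contra hne
    have hc : IsCoprime ((r : ℤ) ^ 2) ((r' : ℤ) ^ 2) :=
      (Nat.isCoprime_iff_coprime.2 ((Nat.coprime_primes hr hr').2 hne)).pow
    have hd : (r : ℤ) ^ 2 ∣ k' := hc.dvd_of_dvd_mul_right ⟨k, by rw [← h]; ring⟩
    have hu := hk' (r : ℤ) (by rwa [← sq])
    have h1 := Int.isUnit_iff_natAbs_eq.1 hu
    simp only [Int.natAbs_natCast] at h1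
    exact hr.one_lt.ne' h1
  subst e
  refine ⟨mul_right_cancel₀ (pow_ne_zero 2 ?_) h, rfl⟩
  exact_mod_cast hr.ne_zero

/-- FL (inflation), abstract form: `d b m` plays the role of `‖D_{w b^{-s}}(m)‖`. -/
theorem fl_abs (K : Finset ℤ) (hK : ∀ k ∈ K, Squarefree k) (P : Finset ℕ)
    (hP : ∀ r ∈ P, r.Prime ∧ 100 < r) (hPne : P.Nonempty)
    (d : ℝ → ℤ → ℝ) (hd0 : ∀ b m, 0 ≤ d b m)
    (hrel : ∀ b : ℝ, 1 ≤ b → ∀ k ∈ K, ∀ r ∈ P, d b k ≤ d b (k * (r : ℤ) ^ 2) +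
      2 / Real.sqrt r * d (b * r) k + 1 / r * d (b * (r : ℝ) ^ 2) k)
    (B : ℝ) (hB : ∀ b : ℝ, 1 ≤ b → ∀ k ∈ K, d b k ≤ B)
    (G : ℤ → ℝ) (g : ℝ) (hg : 0 < g) (hG : ∀ k ∈ K, ∀ r ∈ P, g ≤ G (k * (r : ℤ) ^ 2))
    (M : ℝ) (hM : ∀ b : ℝ, 1 ≤ b → ∀ T : Finset ℤ, ∑ m ∈ T, G m * d b m ^ 2 ≤ M) :
    ∑ k ∈ K, d 1 k ^ 2 ≤ 2 * M / (g * P.card) := by
  classical
  have hc : (0 : ℝ) < P.card := by exact_mod_cast hPne.card_pos
  set M' := M / (g * P.card) with hM'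
  let N : ℝ → ℝ := fun b => ∑ k ∈ K, d b k ^ 2
  let S : Set ℝ := N '' Set.Ici 1
  have hSne : S.Nonempty := ⟨N 1, 1, Set.mem_Ici.2 le_rfl, rfl⟩
  have hSb : BddAbove S := by
    refine ⟨∑ _k ∈ K, B ^ 2, ?_⟩
    rintro _ ⟨b, hb, rfl⟩
    exact sum_le_sum fun k hk => pow_le_pow_left₀ (hd0 _ _) (hB b hb k hk) 2
  have hΓ : ∀ b : ℝ, 1 ≤ b → N b ≤ sSup S := fun b hb => le_csSup hSb ⟨b, hb, rfl⟩
  have hsel : ∀ b : ℝ, 1 ≤ b → ∃ r ∈ P, ∑ k ∈ K, d b (k * (r : ℤ) ^ 2) ^ 2 ≤ M' := by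
    intro b hb
    refine exists_le_of_sum_le hPne ?_
    have hinj : Set.InjOn (fun q : ℕ × ℤ => q.2 * (q.1 : ℤ) ^ 2) (P ×ˢ K : Finset (ℕ × ℤ)) := by
      intro q hq q' hq' e
      rw [mem_coe, mem_product] at hq hq'
      have := fl_inj (hK _ hq'.2) (hP _ hq.1).1 (hP _ hq'.1).1 e
      exact Prod.ext this.2 this.1
    have h1 := hM b hb ((P ×ˢ K).image fun q : ℕ × ℤ => q.2 * (q.1 : ℤ) ^ 2)
    rw [sum_image hinj, sum_product] at h1
    have h2 : g * ∑ r ∈ P, ∑ k ∈ K, d b (k * (r : ℤ) ^ 2) ^ 2 ≤ M := by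
      refine le_trans ?_ h1
      rw [mul_sum]
      refine sum_le_sum fun r hr => ?_
      rw [mul_sum]
      exact sum_le_sum fun k hk => mul_le_mul_of_nonneg_right (hG k hk r hr) (sq_nonneg _)
    rw [sum_const, nsmul_eq_mul, hM']
    have : (P.card : ℝ) * (M / (g * P.card)) = M / g := by field_simp
    rw [this, le_div_iff₀ hg]
    linarith
  have hstep : ∀ b : ℝ, 1 ≤ b → N b ≤ 100 / 79 * M' + 21 / 100 * sSup S := by
    intro b hb
    obtain ⟨r, hr, hrM⟩ := hsel b hb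
    have hr100 : (100 : ℝ) < r := by exact_mod_cast (hP r hr).2
    have hs : (10 : ℝ) ≤ Real.sqrt r := Real.le_sqrt_of_sq_le (by linarith)
    have ha : 2 / Real.sqrt r ≤ 1 / 5 := by
      rw [div_le_div_iff₀ (by linarith) (by norm_num)]; linarith
    have hc' : 1 / (r : ℝ) ≤ 1 / 100 := by
      rw [div_le_div_iff₀ (by linarith) (by norm_num)]; linarith
    have hb1 : 1 ≤ b * r := by nlinarith
    have hb2 : 1 ≤ b * (r : ℝ) ^ 2 := by nlinarith
    have h1 : N b ≤ ∑ k ∈ K, (100 / 79 * d b (k * (r : ℤ) ^ 2) ^ 2 +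
        1 / 5 * d (b * r) k ^ 2 + 1 / 100 * d (b * (r : ℝ) ^ 2) k ^ 2) := by
      refine sum_le_sum fun k hk => ?_
      have h2 := hrel b hb k hk r hr
      have hx := hd0 b (k * (r : ℤ) ^ 2)
      have hy := hd0 (b * r) k
      have hz := hd0 (b * (r : ℝ) ^ 2) k
      set x := d b (k * (r : ℤ) ^ 2)
      set y := d (b * r) k
      set z := d (b * (r : ℝ) ^ 2) k
      have h3 : d b k ≤ x + 1 / 5 * y + 1 / 100 * z := by
        nlinarith [mul_le_mul_of_nonneg_right ha hy, mul_le_mul_of_nonneg_right hc' hz]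
      have h4 := pow_le_pow_left₀ (hd0 b k) h3 2
      nlinarith [sq_nonneg (100 / 79 * x - y), sq_nonneg (100 / 79 * x - z), sq_nonneg (y - z)]
    rw [sum_add_distrib, sum_add_distrib, ← mul_sum, ← mul_sum, ← mul_sum] at h1
    have h5 := hΓ _ hb1
    have h6 := hΓ _ hb2
    simp only [N] at h5 h6
    linarith
  have hfin : sSup S ≤ 100 / 79 * M' + 21 / 100 * sSup S := by
    refine csSup_le hSne ?_
    rintro _ ⟨b, hb, rfl⟩
    exact hstep b hb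
  have hM0 : 0 ≤ M' := by
    have := hM 1 le_rfl ∅
    rw [sum_empty] at this
    positivity
  have h7 := hΓ 1 le_rfl
  simp only [N] at h7
  rw [mul_div_assoc, ← hM']
  linarith

/-- FL with the Gaussian weight of length `X R ^ 2` and complex values. -/
theorem fl_main (K : Finset ℤ) (X R : ℝ) (hX : 0 < X)
    (hK : ∀ k ∈ K, Squarefree k ∧ |(k : ℝ)| ≤ X) (P : Finset ℕ)
    (hP : ∀ r ∈ P, r.Prime ∧ 100 < r ∧ (r : ℝ) ≤ R) (hPne : P.Nonempty)
    (D : ℝ → ℤ → ℂ)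
    (hrel : ∀ b : ℝ, 1 ≤ b → ∀ k ∈ K, ∀ r ∈ P, ‖D b k‖ ≤ ‖D b (k * (r : ℤ) ^ 2)‖ +
      2 / Real.sqrt r * ‖D (b * r) k‖ + 1 / r * ‖D (b * (r : ℝ) ^ 2) k‖)
    (B : ℝ) (hB : ∀ b : ℝ, 1 ≤ b → ∀ k ∈ K, ‖D b k‖ ≤ B) (M : ℝ)
    (hM : ∀ b : ℝ, 1 ≤ b → ∀ T : Finset ℤ, ∑ m ∈ T,
      Real.exp (-Real.pi * (m : ℝ) ^ 2 / (X * R ^ 2) ^ 2) * ‖D b m‖ ^ 2 ≤ M) :
    ∑ k ∈ K, ‖D 1 k‖ ^ 2 ≤ 2 * Real.exp Real.pi * M / P.card := by
  have h := fl_abs K (fun k hk => (hK k hk).1) P (fun r hr => ⟨(hP r hr).1, (hP r hr).2.1⟩) hPne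
    (fun b m => ‖D b m‖) (fun _ _ => norm_nonneg _) hrel B hB
    (fun m => Real.exp (-Real.pi * (m : ℝ) ^ 2 / (X * R ^ 2) ^ 2)) (Real.exp (-Real.pi))
    (Real.exp_pos _) ?_ M hM
  · refine h.trans (le_of_eq ?_)
    rw [Real.exp_neg]
    have := Real.exp_pos Real.pi
    field_simp
  · intro k hk r hr
    have hr100 : (100 : ℝ) < r := by exact_mod_cast (hP r hr).2.1
    have hrR := (hP r hr).2.2
    have hR : 0 < R := by linarith
    have h1 : |(k : ℝ) * (r : ℝ) ^ 2| ≤ X * R ^ 2 := by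
      rw [abs_mul, abs_of_nonneg (sq_nonneg (r : ℝ))]
      exact mul_le_mul (hK k hk).2 (pow_le_pow_left₀ (by linarith) hrR 2) (sq_nonneg _) hX.le
    have h2 : ((k : ℝ) * (r : ℝ) ^ 2) ^ 2 ≤ (X * R ^ 2) ^ 2 := by
      rw [← sq_abs ((k : ℝ) * _)]; exact pow_le_pow_left₀ (abs_nonneg _) h1 2
    refine Real.exp_le_exp.2 ?_
    push_cast
    rw [le_div_iff₀ (by positivity)]
    nlinarith [Real.pi_pos]

theorem fl_cont (hLSP : LSP) (m : ℤ) :
    Continuous fun t : ℝ => LS m (1 / 2 + (12 + t * I)) := by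
  refine (hLSP.2.2.2.1 m).continuousOn.comp_continuous (by fun_prop) fun t => ?_
  simp only [Set.mem_ofPred_eq, add_re, mul_re, ofReal_re, I_re, ofReal_im, I_im]
  norm_num

theorem fl_bd (hLSP : LSP) (m : ℤ) (t : ℝ) : ‖LS m (1 / 2 + (12 + t * I)) ^ 2‖ ≤ 4 := by
  have h := hLSP.2.2.1 m (1 / 2 + (12 + t * I)) (by
    simp only [add_re, mul_re, ofReal_re, I_re, ofReal_im, I_im]
    norm_num)
  rw [norm_pow]
  nlinarith [norm_nonneg (LS m (1 / 2 + (12 + t * I)))]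

theorem fl_pow {b : ℝ} (hb : 1 ≤ b) (t : ℝ) : ‖(b : ℂ) ^ (-(12 + t * I : ℂ))‖ ≤ 1 := by
  rw [norm_cpow_eq_rpow_re_of_pos (by linarith)]
  refine Real.rpow_le_one_of_one_le_of_nonpos hb ?_
  simp

theorem fl_powc {b : ℝ} (hb : 1 ≤ b) : Continuous fun t : ℝ => (b : ℂ) ^ (-(12 + t * I : ℂ)) := by
  refine Continuous.const_cpow (by fun_prop) (Or.inl ?_)
  exact ofReal_ne_zero.2 (by linarith)

theorem fl_intg (hLSP : LSP) {w : ℂ → ℂ} (hw : LI w) {b : ℝ} (hb : 1 ≤ b) (m : ℤ) :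
    Integrable fun t : ℝ => w (12 + t * I) * (b : ℂ) ^ (-(12 + t * I : ℂ)) *
      LS m (1 / 2 + (12 + t * I)) ^ 2 :=
  (Integrable.mul_bdd hw (fl_powc hb).aestronglyMeasurable
    (Filter.Eventually.of_forall (fl_pow hb))).mul_bdd
    ((fl_cont hLSP m).pow 2).aestronglyMeasurable (Filter.Eventually.of_forall (fl_bd hLSP m))

theorem fl_Dw (w : ℂ → ℂ) (b : ℝ) (m : ℤ) : Dw (fun s => w s * (b : ℂ) ^ (-s)) m =
    ∫ t : ℝ, w (12 + t * I) * (b : ℂ) ^ (-(12 + t * I : ℂ)) *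
      LS m (1 / 2 + (12 + t * I)) ^ 2 := by
  unfold Dw Iv
  simp only [ofReal_ofNat]

theorem fl_jo (k : ℤ) (r : ℕ) : ‖jo k r‖ ≤ 1 := by
  unfold jo
  split_ifs
  · rcases jacobiSym.trichotomy k r with h | h | h <;> simp [h]
  · simp

theorem fl_rel (hLSP : LSP) {w : ℂ → ℂ} (hw : LI w) {b : ℝ} (hb : 1 ≤ b) (k : ℤ) {r : ℕ}
    (hr : r.Prime) (hr2 : r ≠ 2) :
    ‖Dw (fun s => w s * (b : ℂ) ^ (-s)) k‖ ≤
      ‖Dw (fun s => w s * (b : ℂ) ^ (-s)) (k * (r : ℤ) ^ 2)‖ +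
      2 / Real.sqrt r * ‖Dw (fun s => w s * ((b * r : ℝ) : ℂ) ^ (-s)) k‖ +
      1 / r * ‖Dw (fun s => w s * ((b * (r : ℝ) ^ 2 : ℝ) : ℂ) ^ (-s)) k‖ := by
  have hr1 : (1 : ℝ) ≤ r := by exact_mod_cast hr.one_le
  have hb1 : 1 ≤ b * r := by nlinarith
  have hb2 : 1 ≤ b * (r : ℝ) ^ 2 := by nlinarith
  have hr0 : (r : ℂ) ≠ 0 := by exact_mod_cast hr.ne_zero
  set a : ℂ := jo k r * (r : ℂ) ^ (-(1 / 2 : ℂ)) with ha
  have hna : ‖a‖ ≤ 1 / Real.sqrt r := by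
    have e : ‖(r : ℂ) ^ (-(1 / 2 : ℂ))‖ = 1 / Real.sqrt r := by
      rw [norm_natCast_cpow_of_pos hr.pos, Real.sqrt_eq_rpow, one_div ((r : ℝ) ^ _),
        ← Real.rpow_neg (by linarith)]
      congr 1
      simp
    rw [ha, norm_mul, e]
    exact mul_le_of_le_one_left (by positivity) (fl_jo k r)
  have hs : Real.sqrt r * Real.sqrt r = r := Real.mul_self_sqrt (by linarith)
  have hna2 : ‖a ^ 2‖ ≤ 1 / r := by
    rw [norm_pow]
    refine (pow_le_pow_left₀ (norm_nonneg _) hna 2).trans (le_of_eq ?_)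
    rw [div_pow, one_pow, sq, hs]
  have key : Dw (fun s => w s * (b : ℂ) ^ (-s)) k =
      Dw (fun s => w s * (b : ℂ) ^ (-s)) (k * (r : ℤ) ^ 2) +
      2 * a * Dw (fun s => w s * ((b * r : ℝ) : ℂ) ^ (-s)) k -
      a ^ 2 * Dw (fun s => w s * ((b * (r : ℝ) ^ 2 : ℝ) : ℂ) ^ (-s)) k := by
    rw [eq_sub_iff_add_eq, fl_Dw, fl_Dw, fl_Dw, fl_Dw, ← integral_const_mul, ← integral_const_mul,
      ← integral_add (fl_intg hLSP hw hb _) ((fl_intg hLSP hw hb1 _).const_mul _),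
      ← integral_add (fl_intg hLSP hw hb _) ((fl_intg hLSP hw hb2 _).const_mul _)]
    refine integral_congr_ae (Filter.Eventually.of_forall fun t => ?_)
    have h1 := hLSP.2.2.2.2.2 k r (1 / 2 + (12 + t * I)) hr hr2 (by
      simp only [add_re, mul_re, ofReal_re, I_re, ofReal_im, I_im]
      norm_num)
    have e1 : ((b * r : ℝ) : ℂ) ^ (-(12 + t * I : ℂ)) =
        (b : ℂ) ^ (-(12 + t * I : ℂ)) * (r : ℂ) ^ (-(12 + t * I : ℂ)) := by
      rw [ofReal_mul, mul_cpow_ofReal_nonneg (by linarith) (by linarith), ofReal_natCast]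
    have e2 : ((b * (r : ℝ) ^ 2 : ℝ) : ℂ) ^ (-(12 + t * I : ℂ)) =
        (b : ℂ) ^ (-(12 + t * I : ℂ)) * (r : ℂ) ^ (-(12 + t * I : ℂ)) *
          (r : ℂ) ^ (-(12 + t * I : ℂ)) := by
      rw [sq, ← mul_assoc, ofReal_mul, mul_cpow_ofReal_nonneg (by linarith) (by linarith), e1,
        ofReal_natCast]
    have e3 : (r : ℂ) ^ (-(1 / 2 + (12 + t * I) : ℂ)) =
        (r : ℂ) ^ (-(1 / 2 : ℂ)) * (r : ℂ) ^ (-(12 + t * I : ℂ)) := by
      rw [← cpow_add _ _ hr0]; congr 1; ring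
    simp only
    rw [h1, e1, e2, e3, ha]
    ring
  rw [key]
  refine (norm_sub_le _ _).trans (add_le_add ((norm_add_le _ _).trans (add_le_add le_rfl ?_)) ?_)
  · rw [norm_mul, norm_mul]
    refine mul_le_mul_of_nonneg_right ?_ (norm_nonneg _)
    rw [Complex.norm_two, div_eq_mul_one_div]
    linarith
  · rw [norm_mul]
    exact mul_le_mul_of_nonneg_right hna2 (norm_nonneg _)

theorem pFL (hLSP : LSP) (hPC : PC) : FL := by
  obtain ⟨⟨c, R₀, hc, hR₀, hP⟩, -⟩ := hPC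
  refine ⟨2 * Real.exp π / c, R₀, by positivity, hR₀, fun w X R M F hw hX hR hF hM => ?_⟩
  have hR1 : 1 < R := by linarith
  have hL : 0 < Real.log R := Real.log_pos hR1
  have hcard := hP R hR
  set P := (Ioc 100 ⌊R⌋₊).filter Nat.Prime with hPdef
  have hpos : 0 < c * R / Real.log R := by positivity
  have hPne : P.Nonempty := by
    rw [← card_pos]
    exact_mod_cast hpos.trans_le hcard
  have hM0 : 0 ≤ M := by simpa using hM 1 le_rfl ∅
  have hPm : ∀ r ∈ P, r.Prime ∧ 100 < r ∧ (r : ℝ) ≤ R := by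
    intro r hr
    rw [hPdef, mem_filter, mem_Ioc] at hr
    exact ⟨hr.2, hr.1.1, (Nat.le_floor_iff (by linarith)).1 hr.1.2⟩
  have h := fl_main F X R hX hF P hPm hPne (fun b m => Dw (fun s => w s * (b : ℂ) ^ (-s)) m)
    (fun b hb k _ r hr => fl_rel hLSP hw hb k (hPm r hr).1 (by have := (hPm r hr).2.1; omega))
    (∫ t : ℝ, 4 * ‖w (12 + t * I)‖) ?_ M hM
  · simp only [ofReal_one, one_cpow, mul_one] at h
    refine h.trans ?_
    have := Real.exp_pos π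
    calc 2 * Real.exp π * M / P.card ≤ 2 * Real.exp π * M / (c * R / Real.log R) :=
          div_le_div_of_nonneg_left (by positivity) hpos hcard
      _ = _ := by field_simp
  · intro b hb k _
    rw [fl_Dw]
    refine norm_integral_le_of_norm_le (hw.norm.const_mul 4)
      (Filter.Eventually.of_forall fun t => ?_)
    rw [norm_mul, norm_mul]
    have h1 := fl_pow hb t
    have h2 := fl_bd hLSP k t
    have h3 := norm_nonneg (w (12 + t * I))
    calc _ ≤ ‖w (12 + t * I)‖ * 1 * 4 := by gcongr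
      _ = _ := by ring

end Pool.Agent.QM
end

-- part Pool.Agent.P.MP_ea46f5_nt.QM.FFW
section

namespace Pool.Agent.QM

open Complex MeasureTheory Finset
open scoped Real ComplexConjugate

lemma fw_open : IsOpen {s : ℂ | 0 < s.re} := isOpen_lt continuous_const Complex.continuous_re

lemma fw_pow_le (b : ℝ) (hb : 1 ≤ b) (s : ℂ) (hs : 0 ≤ s.re) : ‖(b : ℂ) ^ (-s)‖ ≤ 1 := by
  rw [Complex.norm_cpow_eq_rpow_re_of_pos (by linarith)]
  apply Real.rpow_le_one_of_one_le_of_nonpos hb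
  simpa using hs

lemma fw_diff (w : ℂ → ℂ) (ε N t₀ W : ℝ) (h : Far w ε N t₀ W) :
    DifferentiableOn ℂ w {s | 0 < s.re} := by
  obtain ⟨⟨g, hg, hw⟩, -⟩ := h
  have h1 : DifferentiableOn ℂ (fun s : ℂ => (s - 1 / 2) ^ 2 * g s) {s | 0 < s.re} :=
    DifferentiableOn.mul (by fun_prop) hg
  exact h1.congr (fun s hs => hw s hs)

theorem pFW (hDEC : DEC) : FW := by
  refine ⟨?_, ?_, ?_, ?_, ?_⟩
  · rintro w ε N t₀ W ⟨⟨g, hg, hw⟩, hb⟩
    refine ⟨⟨fun s => conj (g (conj s)), ?_, ?_⟩, ?_⟩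
    · intro s hs
      have hs' : (conj s) ∈ {s : ℂ | 0 < s.re} := by simpa using hs
      have h1 : DifferentiableAt ℂ g (conj s) := hg.differentiableAt (fw_open.mem_nhds hs')
      have h2 := h1.conj_conj
      rw [Complex.conj_conj] at h2
      exact h2.differentiableWithinAt
    · intro s hs
      have hs' : 0 < (conj s).re := by simpa using hs
      unfold wt
      rw [hw _ hs']
      simp [map_ofNat]
    · intro s h1 h2
      have h3 := hb (conj s) (by simpa using h1) (by simpa using h2)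
      unfold wt
      rw [Complex.norm_conj]
      have e : |s.im - -t₀| = |(conj s).im - t₀| := by
        rw [Complex.conj_im, ← abs_neg]
        congr 1
        ring
      rw [e]
      simpa using h3
  · intro w ε N t₀ W hε hε1 h
    have hd := fw_diff w ε N t₀ W h
    refine ⟨hd, ?_, ?_⟩
    · unfold LI
      have hc : Continuous fun t : ℝ => w (12 + t * I) := by
        refine hd.continuousOn.comp_continuous (by fun_prop) ?_
        intro t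
        simp
      refine Integrable.mono' (((hDEC.2.2.1 t₀).1).const_mul |W * N ^ (12 : ℝ)|)
        hc.aestronglyMeasurable (Filter.Eventually.of_forall fun t => ?_)
      have h1 := h.2 (12 + t * I) (by simp; linarith) (by simp; norm_num)
      have e1 : ((12 : ℂ) + t * I).re = 12 := by simp
      have e2 : ((12 : ℂ) + t * I).im = t := by simp
      rw [e1, e2] at h1
      refine h1.trans ?_
      have h2 : Real.exp (-|t - t₀|) ≤ Real.exp (-|t - t₀| / 2) := by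
        apply Real.exp_le_exp.2
        have := abs_nonneg (t - t₀)
        linarith
      exact mul_le_mul (le_abs_self _) h2 (Real.exp_pos _).le (abs_nonneg _)
    · intro hN
      have h1 := h.2 1 (by simp; linarith) (by simp)
      have h2 : 0 < N ^ (1 : ℂ).re * Real.exp (-|(1 : ℂ).im - t₀|) :=
        mul_pos (Real.rpow_pos_of_pos hN _) (Real.exp_pos _)
      have h3 : 0 ≤ W * (N ^ (1 : ℂ).re * Real.exp (-|(1 : ℂ).im - t₀|)) := by
        rw [← mul_assoc]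
        exact (norm_nonneg _).trans h1
      exact nonneg_of_mul_nonneg_left h3 h2
  · intro w ε lam t₀ W α C₀ h s t hs
    have e0 : ((ε : ℂ) + ((-t : ℝ) : ℂ) * I) = conj ((ε : ℂ) + t * I) := by
      simp
    have h1 := h (conj s) (-t) (by rw [e0, ← map_sub, Complex.norm_conj]; exact hs)
    rw [e0, Complex.norm_conj, abs_neg] at h1
    have e1 : |-t - t₀| = |t + t₀| := by
      rw [← abs_neg]
      congr 1
      ring
    have e2 : |-t + t₀| = |t - t₀| := by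
      rw [← abs_neg]
      congr 1
      ring
    rw [e1, e2, add_comm (Real.exp _)] at h1
    unfold wt
    rw [Complex.norm_conj]
    exact h1
  · rintro w ε N t₀ W b hε hb ⟨⟨g, hg, hw⟩, hf⟩
    have hb0 : (b : ℂ) ≠ 0 := by
      rw [Complex.ofReal_ne_zero]
      linarith
    refine ⟨⟨fun s => g s * (b : ℂ) ^ (-s), ?_, ?_⟩, ?_⟩
    · refine hg.mul ?_
      exact (differentiable_neg.const_cpow (Or.inl hb0)).differentiableOn
    · intro s hs
      simp only [hw s hs]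
      ring
    · intro s h1 h2
      refine le_trans ?_ (hf s h1 h2)
      rw [norm_mul]
      exact mul_le_of_le_one_right (norm_nonneg _) (fw_pow_le b hb s (by linarith))
  · intro w ε lam t₀ W b α C₀ hε hb h s t hs
    refine le_trans ?_ (h s t hs)
    rw [norm_mul]
    refine mul_le_of_le_one_right (norm_nonneg _) (fw_pow_le b hb s ?_)
    have h1 := (Complex.abs_re_le_norm (s - (ε + t * I))).trans hs
    have e : (s - (ε + t * I)).re = s.re - ε := by simp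
    rw [e, abs_le] at h1
    linarith [h1.1]

theorem pTW0 : TW0 := by
  intro B
  refine ⟨?_, ?_, le_rfl, fun _ => zero_le_one, ?_, ?_, zero_le_one⟩
  · intro p hp
    simp at hp
  · intro p hp
    simp at hp
  · refine ⟨Unit, inferInstance, fun _ => 1, fun _ => 1, ?_, ?_, ?_⟩
    · intro i
      simp
    · intro x
      simp [mon]
    · simp
  · intro ν η _ _ _
    simp [Ex, sg]

end Pool.Agent.QM
end

-- part Pool.Agent.P.MP_ea46f5_nt.QM.FH1
section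

namespace Pool.Agent.QM

open Complex MeasureTheory Finset
open scoped Real ComplexConjugate

theorem h1_jo (k : ℤ) (n : ℕ) : ‖jo k n‖ ≤ 1 := by
  unfold jo
  split_ifs
  · rcases jacobiSym.trichotomy k n with h | h | h <;> simp [h]
  · simp

theorem h1_xs (p : ℕ) (hp : 0 < p) (s : ℂ) : ‖xs s p‖ = (p : ℝ) ^ (-(1 / 2 + s.re)) := by
  unfold xs
  rw [Complex.norm_natCast_cpow_of_pos hp]
  simp

theorem h1_QU (p : ℕ) (hp : 0 < p) (k : ℤ) (z s₁ s₂ : ℂ) :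
    ‖Qp s₁ s₂ p‖ ≤ 3 * (p : ℝ) ^ (-(1 + 2 * s₁.re)) + 4 * (p : ℝ) ^ (-(1 + (s₁.re + s₂.re))) +
      3 * (p : ℝ) ^ (-(1 + 2 * s₂.re)) ∧
    ‖Up k z s₁ s₂ p‖ ≤ (p : ℝ) ^ (-(1 + (z.re + s₁.re))) + (p : ℝ) ^ (-(1 + (z.re + s₂.re))) := by
  have hp' : (0 : ℝ) < p := by exact_mod_cast hp
  have e : ∀ a b : ℝ, (p : ℝ) ^ (-(1 / 2 + a)) * (p : ℝ) ^ (-(1 / 2 + b)) =
      (p : ℝ) ^ (-(1 + (a + b))) := by
    intro a b
    rw [← Real.rpow_add hp']
    congr 1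
    ring
  constructor
  · unfold Qp
    refine (norm_add₃_le).trans (le_of_eq ?_)
    simp only [norm_mul, h1_xs p hp, pow_two, e, Complex.norm_ofNat, two_mul]
  · unfold Up
    have h1 : ‖(p : ℂ) ^ (-(z + 1 / 2))‖ = (p : ℝ) ^ (-(1 / 2 + z.re)) := by
      rw [Complex.norm_natCast_cpow_of_pos hp]
      simp [add_comm]
    have h2 : ‖xs s₁ p + xs s₂ p‖ ≤ (p : ℝ) ^ (-(1 / 2 + s₁.re)) + (p : ℝ) ^ (-(1 / 2 + s₂.re)) := by
      rw [← h1_xs p hp, ← h1_xs p hp]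
      exact norm_add_le _ _
    rw [norm_mul, norm_mul, h1, ← e, ← e, ← mul_add]
    have h3 : (0 : ℝ) ≤ (p : ℝ) ^ (-(1 / 2 + z.re)) := by positivity
    exact mul_le_mul (mul_le_of_le_one_left h3 (h1_jo k p)) h2 (norm_nonneg _) h3

/-- The majorant of the local factor minus one. -/
noncomputable def h1b (C a b c : ℝ) (p : ℕ) : ℝ :=
  C * (p : ℝ) ^ (-(1 + 7 / 20 : ℝ)) + 3 * (p : ℝ) ^ (-(1 + a)) + 4 * (p : ℝ) ^ (-(1 + (a + b))) +
    3 * (p : ℝ) ^ (-(1 + b)) + 2 * (p : ℝ) ^ (-(1 + (c + a))) + 2 * (p : ℝ) ^ (-(1 + (c + b)))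

theorem h1b_nonneg {C : ℝ} (hC : 0 < C) (a b c : ℝ) (p : ℕ) : 0 ≤ h1b C a b c p := by
  unfold h1b
  positivity

theorem h1_y {C : ℝ} (p : ℕ) (hp : p.Prime) (k : ℤ) (z s₁ s₂ : ℂ) (hU : UU z s₁ s₂)
    (h0 : ‖locv k z s₁ s₂ p 0 * fp k z s₁ s₂ p - 1 - Qp s₁ s₂ p + 2 * Up k z s₁ s₂ p‖ ≤
      C * (p : ℝ) ^ (-(27 / 20) : ℝ)) :
    ‖locv k z s₁ s₂ p 0 * fp k z s₁ s₂ p - 1‖ ≤ h1b C s₁.re s₂.re z.re p := by
  obtain ⟨hQ, hV⟩ := h1_QU p hp.pos k z s₁ s₂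
  obtain ⟨-, -, h1, h2, -, -⟩ := hU
  have hp1 : (1 : ℝ) ≤ (p : ℝ) := by exact_mod_cast hp.one_le
  have a1 : (p : ℝ) ^ (-(1 + 2 * s₁.re)) ≤ (p : ℝ) ^ (-(1 + s₁.re)) :=
    Real.rpow_le_rpow_of_exponent_le hp1 (by linarith)
  have a2 : (p : ℝ) ^ (-(1 + 2 * s₂.re)) ≤ (p : ℝ) ^ (-(1 + s₂.re)) :=
    Real.rpow_le_rpow_of_exponent_le hp1 (by linarith)
  have e0 : (-(27 / 20) : ℝ) = -(1 + 7 / 20) := by norm_num
  rw [e0] at h0
  generalize locv k z s₁ s₂ p 0 * fp k z s₁ s₂ p = y at h0 ⊢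
  generalize Qp s₁ s₂ p = Q at h0 hQ
  generalize Up k z s₁ s₂ p = U at h0 hV
  have e : y - 1 = (y - 1 - Q + 2 * U) + Q - 2 * U := by ring
  have n1 : ‖y - 1‖ ≤ ‖y - 1 - Q + 2 * U‖ + ‖Q‖ + 2 * ‖U‖ := by
    calc ‖y - 1‖ = ‖(y - 1 - Q + 2 * U) + Q - 2 * U‖ := by rw [← e]
      _ ≤ ‖(y - 1 - Q + 2 * U) + Q‖ + ‖2 * U‖ := norm_sub_le _ _
      _ ≤ _ := by
        rw [norm_mul, Complex.norm_ofNat]
        exact add_le_add_left (norm_add_le _ _) _
  unfold h1b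
  linarith

theorem h1_tsum (hPZ : PZ) (C : ℝ) {a b c : ℝ} (ha : 0 < a) (hb : 0 < b) (hc : 0 < c) :
    Summable (fun p : Nat.Primes => h1b C a b c p) ∧
    Real.exp (∑' p : Nat.Primes, h1b C a b c p) ≤
      Real.exp (C * ∑' p : Nat.Primes, ((p : ℕ) : ℝ) ^ (-(1 + 7 / 20 : ℝ))) * (1 + 1 / a) ^ 3 *
        (1 + 1 / (a + b)) ^ 4 * (1 + 1 / b) ^ 3 * (1 + 1 / (c + a)) ^ 2 * (1 + 1 / (c + b)) ^ 2 := by
  obtain ⟨s0, -⟩ := hPZ.1 (7 / 20) (by norm_num)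
  obtain ⟨s1, e1⟩ := hPZ.1 a ha
  obtain ⟨s2, e2⟩ := hPZ.1 (a + b) (by positivity)
  obtain ⟨s3, e3⟩ := hPZ.1 b hb
  obtain ⟨s4, e4⟩ := hPZ.1 (c + a) (by positivity)
  obtain ⟨s5, e5⟩ := hPZ.1 (c + b) (by positivity)
  have H := (((((s0.hasSum.mul_left C).add (s1.hasSum.mul_left 3)).add
    (s2.hasSum.mul_left 4)).add (s3.hasSum.mul_left 3)).add (s4.hasSum.mul_left 2)).add
    (s5.hasSum.mul_left 2)
  have H' : HasSum (fun p : Nat.Primes => h1b C a b c p) _ := H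
  refine ⟨H'.summable, ?_⟩
  rw [H'.tsum_eq]
  have n3 : ∀ x : ℝ, Real.exp (3 * x) = Real.exp x ^ 3 := fun x => by
    rw [← Real.exp_nat_mul]; norm_num
  have n4 : ∀ x : ℝ, Real.exp (4 * x) = Real.exp x ^ 4 := fun x => by
    rw [← Real.exp_nat_mul]; norm_num
  have n2 : ∀ x : ℝ, Real.exp (2 * x) = Real.exp x ^ 2 := fun x => by
    rw [← Real.exp_nat_mul]; norm_num
  simp only [Real.exp_add, n2, n3, n4]
  gcongr

theorem h1_split (P : Finset ℕ) (hP : OP P) (b : ℕ → ℝ) (hb : ∀ p, 0 ≤ b p)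
    (hs : Summable fun p : Nat.Primes => b p) :
    Summable (fun p : Nat.Primes => if (p : ℕ) ∈ P then 0 else b p) ∧
    ∑ p ∈ P, b p + ∑' p : Nat.Primes, (if (p : ℕ) ∈ P then 0 else b p) =
      ∑' p : Nat.Primes, b p := by
  have s1 : Summable fun p : Nat.Primes => if (p : ℕ) ∈ P then 0 else b p :=
    hs.of_nonneg_of_le (fun p => by split_ifs <;> simp [hb]) (fun p => by split_ifs <;> simp [hb])
  have s2 : Summable fun p : Nat.Primes => if (p : ℕ) ∈ P then b p else 0 :=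
    hs.of_nonneg_of_le (fun p => by split_ifs <;> simp [hb]) (fun p => by split_ifs <;> simp [hb])
  refine ⟨s1, ?_⟩
  have e1 : ∑ p ∈ P, b p = ∑' p : Nat.Primes, (if (p : ℕ) ∈ P then b p else 0) := by
    have t1 : ∑' p : {p : ℕ // p.Prime}, (if (p : ℕ) ∈ P then b p else 0) =
        ∑ p ∈ P.subtype Nat.Prime, (if (p : ℕ) ∈ P then b p else 0) :=
      tsum_eq_sum fun p hp => if_neg fun h => hp (Finset.mem_subtype.2 h)
    refine Eq.trans ?_ t1.symm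
    rw [← Finset.sum_subtype_of_mem b (p := Nat.Prime) (fun p hp => (hP p hp).1)]
    refine Finset.sum_congr rfl fun p hp => ?_
    rw [if_pos (Finset.mem_subtype.1 hp)]
  rw [e1, ← s2.tsum_add s1]
  refine tsum_congr fun p => ?_
  split_ifs <;> simp

theorem h1_lin (P : Finset ℕ) (μ : ℕ → ℤ → ℂ) {ι : Type} [Fintype ι] (r : ι → ℂ)
    (g : ι → (ℕ → ℤ) → ℂ) :
    Ex P μ (fun x => ∑ i, r i * g i x) = ∑ i, r i * Ex P μ (g i) := by
  unfold Ex
  simp only [Finset.mul_sum]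
  rw [Finset.sum_comm]
  refine Finset.sum_congr rfl fun i _ => Finset.sum_congr rfl fun x _ => ?_
  ring

theorem h1_mon (hEXL : EXL) (P : Finset ℕ) (l : ℕ) (hl : l.primeFactors ⊆ P) (k : ℤ)
    (z s₁ s₂ : ℂ) :
    Ex P (fun p y => mu k z s₁ s₂ p y * fp k z s₁ s₂ p) (fun x => (mon x l : ℂ)) =
      ∏ p ∈ P, locv k z s₁ s₂ p (l.factorization p) * fp k z s₁ s₂ p := by
  have e : (fun x : ℕ → ℤ => (mon x l : ℂ)) =
      fun x => ∏ p ∈ P, (fun (p : ℕ) (y : ℤ) => (y : ℂ) ^ l.factorization p) p (x p) := by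
    funext x
    rw [hEXL.2.2.1 P x l hl]
    push_cast
    rfl
  rw [e]
  refine (hEXL.1 P _ (fun (p : ℕ) (y : ℤ) => (y : ℂ) ^ l.factorization p)).trans ?_
  refine Finset.prod_congr rfl fun p _ => ?_
  unfold locv
  rw [Finset.sum_mul]
  refine Finset.sum_congr rfl fun y _ => ?_
  ring

theorem h1_pl (P : Finset ℕ) (l B : ℕ) (h0 : l ≠ 0) (hl : l.primeFactors ⊆ P) :
    ∏ p ∈ P, ((p : ℝ) ^ l.factorization p) ^ B = (l : ℝ) ^ B := by
  rw [Finset.prod_pow]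
  congr 1
  rw [← Finset.prod_subset hl]
  · have := Nat.prod_factorization_pow_eq_self h0
    rw [Finsupp.prod, Nat.support_factorization] at this
    exact_mod_cast this
  · intro p _ hp
    have : l.factorization p = 0 := by
      rwa [← Nat.support_factorization, Finsupp.notMem_support_iff] at hp
    rw [this, pow_zero]

theorem pH1 (hLOC : LOC) (hEXL : EXL) (hPRD : PRD) (hPZ : PZ) : H1 := by
  obtain ⟨C, B, hC, hB, h⟩ := hLOC
  refine ⟨Real.exp (C * ∑' p : Nat.Primes, ((p : ℕ) : ℝ) ^ (-(1 + 7 / 20 : ℝ))), B,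
    Real.exp_pos _, hB, ?_⟩
  intro P R Y k z s₁ s₂ hP hR hU
  obtain ⟨ι, _, l, r, hl, hRe, hY⟩ := hR
  obtain ⟨hs, hE⟩ := h1_tsum hPZ C hU.2.2.1 hU.2.2.2.1 hU.2.2.2.2.1
  have hb0 := h1b_nonneg hC s₁.re s₂.re z.re
  have hy : ∀ p : ℕ, p.Prime → p ≠ 2 →
      ‖locv k z s₁ s₂ p 0 * fp k z s₁ s₂ p - 1‖ ≤ h1b C s₁.re s₂.re z.re p :=
    fun p hp h2 => h1_y p hp k z s₁ s₂ hU (h p k z s₁ s₂ hp h2 hU).1
  generalize h1b C s₁.re s₂.re z.re = b at hs hE hb0 hy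
  obtain ⟨s1, e1⟩ := h1_split P hP b hb0 hs
  have hY0 : 0 ≤ Y := le_trans (Finset.sum_nonneg fun i _ => by positivity) hY
  have A1 : ∀ i, ‖∏ p ∈ P, locv k z s₁ s₂ p ((l i).factorization p) * fp k z s₁ s₂ p‖ ≤
      (l i : ℝ) ^ B * Real.exp (∑ p ∈ P, b p) := by
    intro i
    rw [norm_prod, ← h1_pl P (l i) B (hl i).1 (hl i).2, Real.exp_sum, ← Finset.prod_mul_distrib]
    refine Finset.prod_le_prod (fun _ _ => norm_nonneg _) fun p hp => ?_
    obtain ⟨hp1, hp2⟩ := hP p hp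
    rcases Nat.eq_zero_or_pos ((l i).factorization p) with hv | hv
    · rw [hv, pow_zero, one_pow, one_mul]
      have t1 := hy p hp1 hp2
      have t2 := norm_sub_norm_le (locv k z s₁ s₂ p 0 * fp k z s₁ s₂ p) 1
      rw [norm_one] at t2
      have t3 := Real.add_one_le_exp (b p)
      linarith
    · have t1 := (h p k z s₁ s₂ hp1 hp2 hU).2 _ hv
      have hp3 : (1 : ℝ) ≤ (p : ℝ) := by exact_mod_cast hp1.one_le
      have t2 : (p : ℝ) ^ B ≤ ((p : ℝ) ^ (l i).factorization p) ^ B :=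
        pow_le_pow_left₀ (by positivity) (le_self_pow₀ hp3 hv.ne') B
      have t3 : 1 ≤ Real.exp (b p) := Real.one_le_exp (hb0 p)
      exact (t1.trans t2).trans (le_mul_of_one_le_right (by positivity) t3)
  have A2 : ‖Ex P (fun p y => mu k z s₁ s₂ p y * fp k z s₁ s₂ p) (fun x => (R x : ℂ))‖ ≤
      Y * Real.exp (∑ p ∈ P, b p) := by
    have e : (fun x => (R x : ℂ)) = fun x => ∑ i, (r i : ℂ) * (mon x (l i) : ℂ) := by
      funext x
      rw [hRe x]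
      push_cast
      rfl
    rw [e, h1_lin]
    refine (norm_sum_le _ _).trans (le_trans ?_ (mul_le_mul_of_nonneg_right hY (Real.exp_pos _).le))
    rw [Finset.sum_mul]
    refine Finset.sum_le_sum fun i _ => ?_
    rw [norm_mul, Complex.norm_real, Real.norm_eq_abs, h1_mon hEXL P (l i) (hl i).2, mul_assoc]
    exact mul_le_mul_of_nonneg_left (A1 i) (abs_nonneg _)
  have A3 : ‖∏' p : Nat.Primes,
      if (p : ℕ) = 2 ∨ (p : ℕ) ∈ P then 1 else locv k z s₁ s₂ p 0 * fp k z s₁ s₂ p‖ ≤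
      Real.exp (∑' p : Nat.Primes, if (p : ℕ) ∈ P then 0 else b p) := by
    have hu : ∀ p : Nat.Primes, ‖(if (p : ℕ) = 2 ∨ (p : ℕ) ∈ P then 1 else
        locv k z s₁ s₂ p 0 * fp k z s₁ s₂ p) - 1‖ ≤ if (p : ℕ) ∈ P then 0 else b p := by
      intro p
      by_cases hc : (p : ℕ) = 2 ∨ (p : ℕ) ∈ P
      · rw [if_pos hc, sub_self, norm_zero]
        split_ifs
        · exact le_rfl
        · exact hb0 p
      · rw [if_neg hc, if_neg fun e => hc (Or.inr e)]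
        exact hy p p.2 fun e => hc (Or.inl e)
    have su := s1.of_nonneg_of_le (fun _ => norm_nonneg _) hu
    have t := (hPRD _ su).2.2
    simp only [add_sub_cancel] at t
    exact t.trans (Real.exp_le_exp.2 (su.tsum_le_tsum hu s1))
  unfold Hh
  rw [norm_mul]
  refine (mul_le_mul A2 A3 (norm_nonneg _) (by positivity)).trans ?_
  rw [mul_assoc Y, ← Real.exp_add, e1]
  refine (mul_le_mul_of_nonneg_left hE hY0).trans (le_of_eq ?_)
  ring

end Pool.Agent.QM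
end

-- part Pool.Agent.P.MP_ea46f5_nt.QM.FHA
section

namespace Pool.Agent.QM

open Complex MeasureTheory Finset
open scoped Real ComplexConjugate

theorem ha_jo (k : ℤ) (n : ℕ) : ‖jo k n‖ ≤ 1 := by
  unfold jo
  split_ifs
  · rcases jacobiSym.trichotomy k n with h | h | h <;> simp [h]
  · simp

theorem ha_xs (p : ℕ) (hp : 0 < p) (s : ℂ) : ‖xs s p‖ = (p : ℝ) ^ (-(1 / 2 + s.re)) := by
  unfold xs
  rw [Complex.norm_natCast_cpow_of_pos hp]
  simp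

theorem ha_QU (p : ℕ) (hp : 0 < p) (k : ℤ) (z s₁ s₂ : ℂ) :
    ‖Qp s₁ s₂ p‖ ≤ 3 * (p : ℝ) ^ (-(1 + 2 * s₁.re)) + 4 * (p : ℝ) ^ (-(1 + (s₁.re + s₂.re))) +
      3 * (p : ℝ) ^ (-(1 + 2 * s₂.re)) ∧
    ‖Up k z s₁ s₂ p‖ ≤ (p : ℝ) ^ (-(1 + (z.re + s₁.re))) + (p : ℝ) ^ (-(1 + (z.re + s₂.re))) := by
  have hp' : (0 : ℝ) < p := by exact_mod_cast hp
  have e : ∀ a b : ℝ, (p : ℝ) ^ (-(1 / 2 + a)) * (p : ℝ) ^ (-(1 / 2 + b)) =
      (p : ℝ) ^ (-(1 + (a + b))) := by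
    intro a b
    rw [← Real.rpow_add hp']
    congr 1
    ring
  constructor
  · unfold Qp
    refine (norm_add₃_le).trans (le_of_eq ?_)
    simp only [norm_mul, ha_xs p hp, pow_two, e, Complex.norm_ofNat, two_mul]
  · unfold Up
    have h1 : ‖(p : ℂ) ^ (-(z + 1 / 2))‖ = (p : ℝ) ^ (-(1 / 2 + z.re)) := by
      rw [Complex.norm_natCast_cpow_of_pos hp]
      simp [add_comm]
    have h2 : ‖xs s₁ p + xs s₂ p‖ ≤ (p : ℝ) ^ (-(1 / 2 + s₁.re)) + (p : ℝ) ^ (-(1 / 2 + s₂.re)) := by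
      rw [← ha_xs p hp, ← ha_xs p hp]
      exact norm_add_le _ _
    rw [norm_mul, norm_mul, h1, ← e, ← e, ← mul_add]
    have h3 : (0 : ℝ) ≤ (p : ℝ) ^ (-(1 / 2 + z.re)) := by positivity
    exact mul_le_mul (mul_le_of_le_one_left h3 (ha_jo k p)) h2 (norm_nonneg _) h3

theorem ha_pow (p : ℕ) (hp : p ≠ 0) {f : ℂ × ℂ × ℂ → ℂ} {x : ℂ × ℂ × ℂ}
    (hf : DifferentiableAt ℂ f x) : DifferentiableAt ℂ (fun t => (p : ℂ) ^ f t) x :=
  hf.const_cpow (Or.inl (by exact_mod_cast hp))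

theorem ha_div {f g : ℂ × ℂ × ℂ → ℂ} {x : ℂ × ℂ × ℂ} (hf : DifferentiableAt ℂ f x)
    (hg : DifferentiableAt ℂ g x) (h : g x ≠ 0) : DifferentiableAt ℂ (fun t => f t / g t) x := by
  simp only [div_eq_mul_inv]
  exact hf.fun_mul (hg.fun_inv h)

theorem ha_prod {ι : Type} (s : Finset ι) {f : ι → ℂ × ℂ × ℂ → ℂ} {x : ℂ × ℂ × ℂ}
    (h : ∀ i ∈ s, DifferentiableAt ℂ (f i) x) :
    DifferentiableAt ℂ (fun t => ∏ i ∈ s, f i t) x := by
  classical
  exact (HasFDerivAt.finsetProd fun i hi => (h i hi).hasFDerivAt).differentiableAt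

theorem ha_ne (p : ℕ) (hp : 2 ≤ p) (w : ℂ) (hw : 0 < w.re) (y : ℂ) (hy : ‖y‖ ≤ 1) :
    1 - (p : ℂ) ^ (-w) * y ≠ 0 := by
  intro h
  have h1 : (p : ℂ) ^ (-w) * y = 1 := by linear_combination -h
  have h2 : ‖(p : ℂ) ^ (-w)‖ < 1 := by
    rw [Complex.norm_natCast_cpow_of_pos (by omega)]
    exact Real.rpow_lt_one_of_one_lt_of_neg (by exact_mod_cast hp) (by simpa using hw)
  have h3 : ‖(p : ℂ) ^ (-w) * y‖ < 1 := by
    rw [norm_mul]
    exact lt_of_le_of_lt (mul_le_of_le_one_right (norm_nonneg _) hy) h2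
  rw [h1] at h3
  simp at h3

theorem ha_ne1 (p : ℕ) (hp : 2 ≤ p) (w : ℂ) (hw : 0 < w.re) : 1 - (p : ℂ) ^ (-w) ≠ 0 := by
  simpa using ha_ne p hp w hw 1 (by simp)

theorem ha_T3 {y : ℤ} (hy : y ∈ T3) : ‖(y : ℂ)‖ ≤ 1 := by
  simp only [T3, mem_insert, mem_singleton] at hy
  rcases hy with h | h | h <;> simp [h]

theorem ha_mu (k : ℤ) (p : ℕ) (hp : 2 ≤ p) (y : ℤ) (hy : y ∈ T3) (x : ℂ × ℂ × ℂ)
    (hx : UU x.1 x.2.1 x.2.2) :
    DifferentiableAt ℂ (fun t : ℂ × ℂ × ℂ => mu k t.1 t.2.1 t.2.2 p y) x := by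
  have hp0 : p ≠ 0 := by omega
  have hek : DifferentiableAt ℂ (fun t : ℂ × ℂ × ℂ => ek k t.1 p) x := by
    unfold ek
    split_ifs
    · exact (differentiableAt_const _).sub (ha_pow p hp0 (by fun_prop))
    · exact differentiableAt_const _
  have hok : DifferentiableAt ℂ (fun t : ℂ × ℂ × ℂ => ok k t.1 p) x := by
    unfold ok
    exact (differentiableAt_const _).mul
      ((ha_pow p hp0 (by fun_prop)).sub (ha_pow p hp0 (by fun_prop)))
  have hx1 : DifferentiableAt ℂ (fun t : ℂ × ℂ × ℂ => xs t.2.1 p) x := by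
    unfold xs
    exact ha_pow p hp0 (by fun_prop)
  have hx2 : DifferentiableAt ℂ (fun t : ℂ × ℂ × ℂ => xs t.2.2 p) x := by
    unfold xs
    exact ha_pow p hp0 (by fun_prop)
  have hF : DifferentiableAt ℂ (fun t : ℂ × ℂ × ℂ => Fy t.2.1 t.2.2 p y) x := by
    unfold Fy
    refine ha_div (differentiableAt_const _)
      ((((differentiableAt_const _).fun_sub (hx1.mul_const _)).fun_pow 2).fun_mul
        (((differentiableAt_const _).fun_sub (hx2.mul_const _)).fun_pow 2)) ?_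
    refine mul_ne_zero (pow_ne_zero _ ?_) (pow_ne_zero _ ?_)
    · exact ha_ne p hp _ (by have := hx.2.2.1; simp only [add_re]; norm_num; linarith) _ (ha_T3 hy)
    · exact ha_ne p hp _ (by have := hx.2.2.2.1; simp only [add_re]; norm_num; linarith) _
        (ha_T3 hy)
  unfold mu
  split_ifs
  · exact (differentiableAt_const _).sub hek
  · exact ha_div ((hek.fun_add (hok.const_mul _)).fun_mul hF) (differentiableAt_const _)
      two_ne_zero

theorem ha_fp (k : ℤ) (p : ℕ) (hp : 2 ≤ p) (x : ℂ × ℂ × ℂ) (hx : UU x.1 x.2.1 x.2.2) :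
    DifferentiableAt ℂ (fun t : ℂ × ℂ × ℂ => fp k t.1 t.2.1 t.2.2 p) x := by
  have hp0 : p ≠ 0 := by omega
  obtain ⟨h1, h2, -⟩ := hx
  unfold fp
  refine ha_div (DifferentiableAt.fun_mul ?_ ?_)
    (DifferentiableAt.fun_mul (DifferentiableAt.fun_mul ?_ ?_) ?_) ?_
  · exact ((differentiableAt_const _).fun_sub ((ha_pow p hp0 (by fun_prop)).const_mul _)).fun_pow 2
  · exact ((differentiableAt_const _).fun_sub ((ha_pow p hp0 (by fun_prop)).const_mul _)).fun_pow 2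
  · exact ((differentiableAt_const _).fun_sub (ha_pow p hp0 (by fun_prop))).fun_pow 3
  · exact ((differentiableAt_const _).fun_sub (ha_pow p hp0 (by fun_prop))).fun_pow 4
  · exact ((differentiableAt_const _).fun_sub (ha_pow p hp0 (by fun_prop))).fun_pow 3
  · simp only [sub_re] at h1 h2
    refine mul_ne_zero (mul_ne_zero (pow_ne_zero _ ?_) (pow_ne_zero _ ?_)) (pow_ne_zero _ ?_)
    · exact ha_ne1 p hp _ (by simp; linarith)
    · exact ha_ne1 p hp _ (by simp; linarith)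
    · exact ha_ne1 p hp _ (by simp; linarith)

theorem ha_locv (k : ℤ) (p v : ℕ) (hp : 2 ≤ p) (x : ℂ × ℂ × ℂ) (hx : UU x.1 x.2.1 x.2.2) :
    DifferentiableAt ℂ (fun t : ℂ × ℂ × ℂ => locv k t.1 t.2.1 t.2.2 p v) x := by
  unfold locv
  exact DifferentiableAt.fun_sum fun y hy => (ha_mu k p hp y hy x hx).mul_const _

theorem ha_Ex (P : Finset ℕ) (R : (ℕ → ℤ) → ℝ) (k : ℤ) (hP : OP P) (x : ℂ × ℂ × ℂ)
    (hx : UU x.1 x.2.1 x.2.2) :
    DifferentiableAt ℂ (fun t : ℂ × ℂ × ℂ => Ex P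
      (fun p y => mu k t.1 t.2.1 t.2.2 p y * fp k t.1 t.2.1 t.2.2 p) (fun x => (R x : ℂ))) x := by
  unfold Ex
  refine DifferentiableAt.fun_sum fun y hy => DifferentiableAt.mul_const ?_ _
  refine ha_prod _ fun p _ => ?_
  have hp : 2 ≤ (p : ℕ) := (hP p p.2).1.two_le
  exact (ha_mu k p hp _ (Fintype.mem_piFinset.1 hy p) x hx).fun_mul (ha_fp k p hp x hx)

/-- The part of `UU` with both real parts above `δ`. -/
def haU (δ : ℝ) : Set (ℂ × ℂ × ℂ) := {x | UU x.1 x.2.1 x.2.2 ∧ δ < x.2.1.re ∧ δ < x.2.2.re}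

theorem ha_open (δ : ℝ) : IsOpen (haU δ) := by
  unfold haU UU
  simp only [Set.ofPred_and]
  refine IsOpen.inter (IsOpen.inter ?_ (IsOpen.inter ?_ (IsOpen.inter ?_ (IsOpen.inter ?_
    (IsOpen.inter ?_ ?_))))) (IsOpen.inter ?_ ?_) <;> exact isOpen_lt (by fun_prop) (by fun_prop)

/-- The factor of the infinite product. -/
noncomputable def haF (P : Finset ℕ) (k : ℤ) (p : Nat.Primes) (x : ℂ × ℂ × ℂ) : ℂ :=
  if (p : ℕ) = 2 ∨ (p : ℕ) ∈ P then 1 else locv k x.1 x.2.1 x.2.2 p 0 * fp k x.1 x.2.1 x.2.2 p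

theorem ha_F (P : Finset ℕ) (k : ℤ) (p : Nat.Primes) (x : ℂ × ℂ × ℂ) (hx : UU x.1 x.2.1 x.2.2) :
    DifferentiableAt ℂ (haF P k p) x := by
  unfold haF
  split_ifs
  · exact differentiableAt_const _
  · exact (ha_locv k p 0 p.2.two_le x hx).fun_mul (ha_fp k p p.2.two_le x hx)

theorem ha_loc (hLOC : LOC) (P : Finset ℕ) (k : ℤ) (δ : ℝ) (hδ : 0 < δ) :
    TendstoLocallyUniformlyOn (fun (s : Finset Nat.Primes) x => ∏ p ∈ s, haF P k p x)
      (fun x => ∏' p, haF P k p x) Filter.atTop (haU δ) := by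
  obtain ⟨C, B, hC, -, h⟩ := hLOC
  have hs : Summable fun p : Nat.Primes =>
      C * ((p : ℕ) : ℝ) ^ (-(27 / 20) : ℝ) + 14 * ((p : ℕ) : ℝ) ^ (-(1 + δ)) :=
    ((Nat.Primes.summable_rpow.2 (by norm_num)).mul_left C).add
      ((Nat.Primes.summable_rpow.2 (by linarith)).mul_left 14)
  have key := hs.hasProdLocallyUniformlyOn_one_add (f := fun p x => haF P k p x - 1)
    (ha_open δ) (Filter.Eventually.of_forall fun p x hx => ?_)
    (fun p x hx => ((ha_F P k p x hx.1).sub_const 1).continuousAt.continuousWithinAt)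
  · simpa only [HasProdLocallyUniformlyOn, add_sub_cancel] using key
  · have hp1 : (1 : ℝ) ≤ ((p : ℕ) : ℝ) := by exact_mod_cast p.2.one_le
    unfold haF
    split_ifs with hc
    · simp only [sub_self, norm_zero]
      positivity
    · have h0 := (h p k _ _ _ p.2 (fun e => hc (Or.inl e)) hx.1).1
      obtain ⟨hQ, hU⟩ := ha_QU p p.2.pos k x.1 x.2.1 x.2.2
      obtain ⟨⟨-, -, -, -, hz, -⟩, h1, h2⟩ := hx
      have m : ∀ a : ℝ, δ ≤ a → ((p : ℕ) : ℝ) ^ (-(1 + a)) ≤ ((p : ℕ) : ℝ) ^ (-(1 + δ)) :=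
        fun a ha => Real.rpow_le_rpow_of_exponent_le hp1 (by linarith)
      have a1 := m (2 * x.2.1.re) (by linarith)
      have a2 := m (x.2.1.re + x.2.2.re) (by linarith)
      have a3 := m (2 * x.2.2.re) (by linarith)
      have a4 := m (x.1.re + x.2.1.re) (by linarith)
      have a5 := m (x.1.re + x.2.2.re) (by linarith)
      set y := locv k x.1 x.2.1 x.2.2 p 0 * fp k x.1 x.2.1 x.2.2 p
      set Q := Qp x.2.1 x.2.2 p
      set U := Up k x.1 x.2.1 x.2.2 p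
      have e : y - 1 = (y - 1 - Q + 2 * U) + Q - 2 * U := by ring
      have n1 : ‖y - 1‖ ≤ ‖y - 1 - Q + 2 * U‖ + ‖Q‖ + 2 * ‖U‖ := by
        calc ‖y - 1‖ = ‖(y - 1 - Q + 2 * U) + Q - 2 * U‖ := by rw [← e]
          _ ≤ ‖(y - 1 - Q + 2 * U) + Q‖ + ‖2 * U‖ := norm_sub_le _ _
          _ ≤ _ := by
            rw [norm_mul, Complex.norm_ofNat]
            exact add_le_add_left (norm_add_le _ _) _
      linarith

theorem ha_mem (x : ℂ × ℂ × ℂ) (hx : UU x.1 x.2.1 x.2.2) : ∃ δ : ℝ, 0 < δ ∧ x ∈ haU δ := by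
  have h1 := hx.2.2.1
  have h2 := hx.2.2.2.1
  refine ⟨min x.2.1.re x.2.2.re / 2, by positivity, hx, ?_, ?_⟩
  · have := min_le_left x.2.1.re x.2.2.re
    linarith
  · have := min_le_right x.2.1.re x.2.2.re
    linarith

theorem ha_curve (hLOC : LOC) (P : Finset ℕ) (R : (ℕ → ℤ) → ℝ) (k : ℤ) (hP : OP P)
    (γ : ℂ → ℂ × ℂ × ℂ) (hγ : Differentiable ℂ γ) (u : ℂ) (hu : UU (γ u).1 (γ u).2.1 (γ u).2.2) :
    DifferentiableAt ℂ (fun t => Hh P R k (γ t).1 (γ t).2.1 (γ t).2.2) u := by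
  obtain ⟨δ, hδ, hm⟩ := ha_mem _ hu
  have ho : IsOpen (γ ⁻¹' haU δ) := (ha_open δ).preimage hγ.continuous
  have h1 := (ha_loc hLOC P k δ hδ).comp γ (Set.mapsTo_preimage γ _) hγ.continuous.continuousOn
  have h2 := h1.differentiableOn (Filter.Eventually.of_forall fun s t ht =>
    ((ha_prod s fun p _ => ha_F P k p (γ t) ht.1).comp t
      (hγ t)).differentiableWithinAt) ho
  exact ((ha_Ex P R k hP _ hu).comp u (hγ u)).fun_mul (h2.differentiableAt (ho.mem_nhds hm))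

theorem pHA (hLOC : LOC) : HA := by
  intro P R k hP
  refine ⟨fun x hx => ?_, fun z s₁ s₂ h => ⟨?_, ?_, ?_⟩⟩
  · obtain ⟨δ, hδ, hm⟩ := ha_mem x hx
    have h1 := (ha_loc hLOC P k δ hδ).continuousOn (Filter.Eventually.frequently
      (Filter.Eventually.of_forall fun s t ht =>
        (ha_prod s fun p _ =>
          ha_F P k p t ht.1).continuousAt.continuousWithinAt))
    exact ((ha_Ex P R k hP x hx).continuousAt.mul
      (h1.continuousAt ((ha_open δ).mem_nhds hm))).continuousWithinAt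
  · exact ha_curve hLOC P R k hP (fun u => (z, u, s₂)) (by fun_prop) s₁ h
  · exact ha_curve hLOC P R k hP (fun u => (z, s₁, u)) (by fun_prop) s₂ h
  · exact ha_curve hLOC P R k hP (fun u => (u, u + (s₁ - z), u + (s₂ - z))) (by fun_prop) z
      (by simpa using h)

end Pool.Agent.QM
end

-- part Pool.Agent.P.MP_ea46f5_nt.QM.FHB
section

namespace Pool.Agent.QM

open Complex MeasureTheory Finset
open scoped Real ComplexConjugate

lemma hb_gamR_diff {w : ℂ} (hw : 0 < w.re) : DifferentiableAt ℂ Gammaℝ w := by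
  have h := (Complex.differentiable_Gammaℝ_inv w).inv
    (inv_ne_zero (Complex.Gammaℝ_ne_zero_of_re_pos hw))
  have e : (fun s : ℂ => (Gammaℝ s)⁻¹)⁻¹ = Gammaℝ := by
    funext s; simp
  rwa [e] at h

lemma hb_T3 {γ : ℤ} (h : γ ∈ T3) : ‖(γ : ℂ)‖ ≤ 1 := by
  simp only [T3, mem_insert, mem_singleton] at h
  rcases h with h | h | h <;> simp [h]

lemma hb_two_pow (w : ℂ) : ‖(2 : ℂ) ^ (-w)‖ = (2 : ℝ) ^ (-w.re) := by
  have := Complex.norm_cpow_eq_rpow_re_of_pos (x := 2) (by norm_num) (-w)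
  simpa using this

lemma hb_den_ne {γ : ℤ} (h : γ ∈ T3) {w : ℂ} (hw : 0 < w.re) :
    1 - (γ : ℂ) * (2 : ℂ) ^ (-w) ≠ 0 := by
  intro h0
  have h1 : (γ : ℂ) * (2 : ℂ) ^ (-w) = 1 := by linear_combination -h0
  have h2 : ‖(γ : ℂ) * (2 : ℂ) ^ (-w)‖ < 1 := by
    rw [norm_mul, hb_two_pow]
    have h3 : (2 : ℝ) ^ (-w.re) < 1 := Real.rpow_lt_one_of_one_lt_of_neg (by norm_num) (by linarith)
    have h4 : (0 : ℝ) ≤ (2 : ℝ) ^ (-w.re) := by positivity
    have h5 := hb_T3 h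
    nlinarith
  rw [h1, norm_one] at h2
  exact lt_irrefl _ h2

lemma hb_den_ge {γ : ℤ} (h : γ ∈ T3) {w : ℂ} (hw : 1 / 4 ≤ w.re) :
    1 / 7 ≤ ‖1 - (γ : ℂ) * (2 : ℂ) ^ (-w)‖ := by
  have h3 : (2 : ℝ) ^ (-w.re) ≤ 6 / 7 := by
    have h1 : (2 : ℝ) ^ (-w.re) ≤ (2 : ℝ) ^ (-(1 / 4) : ℝ) :=
      Real.rpow_le_rpow_of_exponent_le (by norm_num) (by linarith)
    refine h1.trans ?_
    have h2 : ((2 : ℝ) ^ (-(1 / 4) : ℝ)) ^ 4 = 1 / 2 := by
      rw [← Real.rpow_natCast, ← Real.rpow_mul (by norm_num)]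
      norm_num
    refine le_of_pow_le_pow_left₀ (n := 4) (by norm_num) (by norm_num) ?_
    rw [h2]; norm_num
  have h4 : ‖(γ : ℂ) * (2 : ℂ) ^ (-w)‖ ≤ 6 / 7 := by
    rw [norm_mul, hb_two_pow]
    have h5 := hb_T3 h
    have h6 : (0 : ℝ) ≤ (2 : ℝ) ^ (-w.re) := by positivity
    nlinarith
  have h7 := norm_sub_norm_le (1 : ℂ) ((γ : ℂ) * (2 : ℂ) ^ (-w))
  rw [norm_one] at h7
  linarith

lemma hb_br_le (x : ℝ) : br x ≤ Real.exp |x| := by
  unfold br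
  have := Real.add_one_le_exp |x|
  linarith

lemma hb_br_pos (x : ℝ) : 0 < br x := by unfold br; positivity

lemma hb_br_pow (x : ℝ) (n : ℕ) : br x ^ n ≤ Real.exp (n * |x|) := by
  rw [Real.exp_nat_mul]
  exact pow_le_pow_left₀ (hb_br_pos x).le (hb_br_le x) n

lemma hb_norm_exp_sq (s : ℂ) : ‖cexp (s ^ 2)‖ = Real.exp (s.re ^ 2 - s.im ^ 2) := by
  rw [Complex.norm_exp]
  congr 1
  simp [pow_two]

lemma hb_abs_exp {K x : ℝ} :
    Real.exp (K * |x|) * Real.exp (-x ^ 2) ≤ Real.exp (K ^ 2 / 2) * Real.exp (-x ^ 2 / 2) := by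
  rw [← Real.exp_add, ← Real.exp_add]
  apply Real.exp_le_exp.2
  have h := sq_nonneg (K - |x|)
  have h2 : |x| ^ 2 = x ^ 2 := sq_abs x
  nlinarith

lemma hb_exp_sq_le {s : ℂ} (h0 : -(1 / 4) ≤ s.re) (h1 : s.re ≤ 13) :
    ‖cexp (s ^ 2)‖ ≤ Real.exp 169 * Real.exp (-s.im ^ 2) := by
  rw [hb_norm_exp_sq, ← Real.exp_add]
  apply Real.exp_le_exp.2
  nlinarith

lemma hb_q_pos (t : ℝ) : (0 : ℝ) < 1 / 4 + t ^ 2 := by positivity

lemma hb_q_cast (t : ℝ) : (1 / 4 + (t : ℂ) ^ 2) = ((1 / 4 + t ^ 2 : ℝ) : ℂ) := by push_cast; ring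

lemma hb_q_ne (t : ℝ) : (1 / 4 + (t : ℂ) ^ 2) ≠ 0 := by
  rw [hb_q_cast]
  exact_mod_cast (hb_q_pos t).ne'

lemma hb_gt_zero (t : ℝ) : gt t 0 = 1 := by
  unfold gt
  rw [div_eq_one_iff_eq (pow_ne_zero _ (hb_q_ne t))]
  have e : (1 / 2 - (t : ℂ) * I) * (1 / 2 + t * I) = 1 / 4 + (t : ℂ) ^ 2 := by
    linear_combination (-(t : ℂ) ^ 2) * I_sq
  rw [← e]
  simp only [ne_eq, OfNat.ofNat_ne_zero, not_false_eq_true, zero_pow, Complex.exp_zero]
  ring

lemma hb_fac {s u : ℂ} {q : ℝ} (hq : 1 / 4 ≤ q) (hu : ‖u‖ ^ 2 = q) :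
    ‖s ^ 2 - u ^ 2‖ ≤ 4 * (1 + ‖s‖) ^ 2 * q := by
  refine (norm_sub_le _ _).trans ?_
  rw [norm_pow, norm_pow, hu]
  have h := norm_nonneg s
  have h1 : ‖s‖ ^ 2 ≤ 4 * ‖s‖ ^ 2 * q := by nlinarith [sq_nonneg ‖s‖]
  have h2 : 0 ≤ ‖s‖ * q := by positivity
  nlinarith

lemma hb_gt_le (t : ℝ) (s : ℂ) : ‖gt t s‖ ≤ 256 * ‖cexp (s ^ 2)‖ * (1 + ‖s‖) ^ 8 := by
  have hq := hb_q_pos t
  have hq4 : (1 : ℝ) / 4 ≤ 1 / 4 + t ^ 2 := by nlinarith [sq_nonneg t]
  have h1 : ‖(1 / 2 - (t : ℂ) * I)‖ ^ 2 = 1 / 4 + t ^ 2 := by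
    rw [Complex.sq_norm, Complex.normSq_apply]
    simp; ring
  have h2 : ‖(1 / 2 + (t : ℂ) * I)‖ ^ 2 = 1 / 4 + t ^ 2 := by
    rw [Complex.sq_norm, Complex.normSq_apply]
    simp; ring
  have h3 := hb_fac (s := s) hq4 h1
  have h4 := hb_fac (s := s) hq4 h2
  unfold gt
  rw [norm_div, norm_mul, norm_pow, norm_mul, norm_pow, hb_q_cast, Complex.norm_real,
    Real.norm_of_nonneg hq.le, div_le_iff₀ (by positivity)]
  calc ‖cexp (s ^ 2)‖ * (‖s ^ 2 - (1 / 2 - (t : ℂ) * I) ^ 2‖ * ‖s ^ 2 - (1 / 2 + (t : ℂ) * I) ^ 2‖) ^ 2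
      ≤ ‖cexp (s ^ 2)‖ * (4 * (1 + ‖s‖) ^ 2 * (1 / 4 + t ^ 2)
          * (4 * (1 + ‖s‖) ^ 2 * (1 / 4 + t ^ 2))) ^ 2 := by gcongr
    _ = 256 * ‖cexp (s ^ 2)‖ * (1 + ‖s‖) ^ 8 * (1 / 4 + t ^ 2) ^ 4 := by ring

lemma hb_one_add_norm {s : ℂ} (h0 : -(1 / 4) ≤ s.re) (h1 : s.re ≤ 13) :
    1 + ‖s‖ ≤ 14 * br s.im := by
  have h := Complex.norm_le_abs_re_add_abs_im s
  have h2 : |s.re| ≤ 13 := abs_le.2 ⟨by linarith, h1⟩
  unfold br
  have := abs_nonneg s.im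
  linarith

lemma hb_base_re (a : ℕ) (t : ℝ) (s : ℂ) : (1 / 2 + (a : ℂ) + t * I + s).re = 1 / 2 + a + s.re := by
  simp

lemma hb_ratio {w v : ℂ} (hv : 0 < v.re) {B : ℝ} (hle : ‖Gammaℝ w‖ ≤ B * ‖Gammaℝ v‖) :
    ‖Gammaℝ w / Gammaℝ v‖ ≤ B := by
  have hp : 0 < ‖Gammaℝ v‖ := norm_pos_iff.2 (Complex.Gammaℝ_ne_zero_of_re_pos hv)
  rw [norm_div, div_le_iff₀ hp]
  exact hle

theorem pHB (hGAM2 : GAM2) : HB := by
  obtain ⟨h, C, hC, hG⟩ := hGAM2
  refine ⟨2 * h, C ^ 2 * (256 * Real.exp 169 * 14 ^ 8) * 49 * Real.exp ((2 * h + 10 : ℝ) ^ 2 / 2),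
    by positivity, ?_⟩
  intro a γ t ha hγ
  have ha0 : (0 : ℝ) ≤ a := Nat.cast_nonneg a
  have hbase : 0 < (1 / 2 + (a : ℂ) + t * I).re := by
    have := hb_base_re a t 0
    rw [add_zero] at this
    rw [this]; simp only [zero_re]; linarith
  refine ⟨fun s h0 h1 => ?_, ?_, ?_⟩
  · have hr := hb_ratio hbase (hG a t s ha h0 h1)
    have hd : 1 / 7 ≤ ‖1 - (γ : ℂ) * (2 : ℂ) ^ (-(1 / 2 + t * I + s))‖ := by
      apply hb_den_ge hγ
      simp only [add_re, mul_re, ofReal_re, I_re, mul_zero, ofReal_im, I_im, mul_one, sub_self,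
        add_zero]
      norm_num
      linarith
    have hb := hb_br_pos s.im
    have hbt := hb_br_pos t
    have hg : ‖gt t s‖ ≤ 256 * (Real.exp 169 * Real.exp (-s.im ^ 2)) * (14 * br s.im) ^ 8 := by
      refine (hb_gt_le t s).trans ?_
      have h2 := hb_exp_sq_le h0 h1
      have h3 := hb_one_add_norm h0 h1
      gcongr
    have hk : br s.im ^ (2 * h + 8) * Real.exp |s.im| ^ 2 * Real.exp (-s.im ^ 2)
        ≤ Real.exp ((2 * h + 10 : ℝ) ^ 2 / 2) * Real.exp (-s.im ^ 2 / 2) := by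
      refine le_trans ?_ (hb_abs_exp (K := 2 * h + 10) (x := s.im))
      have h2 := hb_br_pow s.im (2 * h + 8)
      have e : Real.exp ((2 * h + 10 : ℝ) * |s.im|)
          = Real.exp (((2 * h + 8 : ℕ) : ℝ) * |s.im|) * Real.exp |s.im| ^ 2 := by
        rw [← Real.exp_nat_mul, ← Real.exp_add]
        congr 1
        push_cast; ring
      rw [e]
      gcongr
    unfold hh
    rw [norm_div, norm_mul, norm_pow, norm_pow]
    calc ‖Gammaℝ (1 / 2 + a + t * I + s) / Gammaℝ (1 / 2 + a + t * I)‖ ^ 2 * ‖gt t s‖ /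
          ‖1 - (γ : ℂ) * (2 : ℂ) ^ (-(1 / 2 + t * I + s))‖ ^ 2
        ≤ (C * br t ^ h * br s.im ^ h * Real.exp |s.im|) ^ 2 *
          (256 * (Real.exp 169 * Real.exp (-s.im ^ 2)) * (14 * br s.im) ^ 8) / (1 / 7) ^ 2 := by
          gcongr
      _ = C ^ 2 * (256 * Real.exp 169 * 14 ^ 8) * 49 * br t ^ (2 * h) *
          (br s.im ^ (2 * h + 8) * Real.exp |s.im| ^ 2 * Real.exp (-s.im ^ 2)) := by ring
      _ ≤ C ^ 2 * (256 * Real.exp 169 * 14 ^ 8) * 49 * br t ^ (2 * h) *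
          (Real.exp ((2 * h + 10 : ℝ) ^ 2 / 2) * Real.exp (-s.im ^ 2 / 2)) := by gcongr
      _ = _ := by ring
  · refine ⟨fun s => (Gammaℝ (1 / 2 + a + t * I + s) / Gammaℝ (1 / 2 + a + t * I)) ^ 2 *
      (cexp (s ^ 2) * ((s + (1 / 2 - t * I)) * (s ^ 2 - (1 / 2 + t * I) ^ 2)) ^ 2 /
        (1 / 4 + (t : ℂ) ^ 2) ^ 4) / (1 - γ * (2 : ℂ) ^ (-(1 / 2 + t * I + s))) ^ 2, ?_, ?_⟩
    · intro s hs
      have hs' : -(1 / 2) < s.re := hs
      apply DifferentiableAt.differentiableWithinAt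
      have h1 : DifferentiableAt ℂ (fun s : ℂ => Gammaℝ (1 / 2 + a + t * I + s)) s := by
        refine DifferentiableAt.comp (f := fun s : ℂ => 1 / 2 + (a : ℂ) + t * I + s) s
          (hb_gamR_diff ?_) (by fun_prop)
        rw [hb_base_re]; linarith
      have h2 : DifferentiableAt ℂ (fun s : ℂ => (2 : ℂ) ^ (-(1 / 2 + t * I + s))) s :=
        DifferentiableAt.const_cpow (by fun_prop) (Or.inl two_ne_zero)
      have h3 : 1 - (γ : ℂ) * (2 : ℂ) ^ (-(1 / 2 + t * I + s)) ≠ 0 := by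
        apply hb_den_ne hγ
        simp only [add_re, mul_re, ofReal_re, I_re, mul_zero, ofReal_im, I_im, mul_one, sub_self,
          add_zero]
        norm_num
        linarith
      refine DifferentiableAt.div (((h1.div_const _).pow 2).mul (by fun_prop))
        (((differentiableAt_const _).sub (h2.const_mul _)).pow 2) (pow_ne_zero _ h3)
    · intro s
      unfold hh gt
      ring
  · unfold hh
    rw [add_zero, add_zero, div_self (Complex.Gammaℝ_ne_zero_of_re_pos hbase), hb_gt_zero]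
    ring

theorem pG0B (hGAM2 : GAM2) : G0B := by
  obtain ⟨h, C, hC, hG⟩ := hGAM2
  refine ⟨C * Real.exp 169 * 7 * Real.exp ((h + 1 : ℝ) ^ 2 / 2), by positivity, ?_⟩
  intro a γ ha hγ
  have ha0 : (0 : ℝ) ≤ a := Nat.cast_nonneg a
  have hbase : 0 < (1 / 2 + (a : ℂ)).re := by
    simp only [add_re, natCast_re]; norm_num; linarith
  have hre : ∀ s : ℂ, (1 / 2 + s).re = 1 / 2 + s.re := by intro s; simp
  have hne : ∀ s : ℂ, 0 < s.re → s ≠ 0 := by
    intro s hs h0; rw [h0] at hs; simp at hs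
  refine ⟨fun s hs => ?_, fun s h0 h1 => ?_⟩
  · have hs' : 0 < s.re := hs
    apply DifferentiableAt.differentiableWithinAt
    have h1 : DifferentiableAt ℂ (fun s : ℂ => Gammaℝ (1 / 2 + a + s)) s := by
      refine DifferentiableAt.comp (f := fun s : ℂ => 1 / 2 + (a : ℂ) + s) s
        (hb_gamR_diff ?_) (by fun_prop)
      rw [add_re]; linarith
    have h2 : DifferentiableAt ℂ (fun s : ℂ => (2 : ℂ) ^ (-(1 / 2 + s))) s :=
      DifferentiableAt.const_cpow (by fun_prop) (Or.inl two_ne_zero)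
    have h3 : 1 - (γ : ℂ) * (2 : ℂ) ^ (-(1 / 2 + s)) ≠ 0 := by
      apply hb_den_ne hγ
      rw [hre]; linarith
    unfold g0
    exact (DifferentiableAt.div ((h1.div_const _).mul (by fun_prop))
      ((differentiableAt_const _).sub (h2.const_mul _)) h3).div differentiableAt_id (hne s hs')
  · have h0' : -(1 / 4) ≤ s.re := by linarith
    have hg := hG a 0 s ha h0' h1
    simp only [ofReal_zero, zero_mul, add_zero] at hg
    have hb0 : br 0 = 1 := by simp [br]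
    rw [hb0, one_pow, mul_one] at hg
    have hr := hb_ratio hbase hg
    have hd : 1 / 7 ≤ ‖1 - (γ : ℂ) * (2 : ℂ) ^ (-(1 / 2 + s))‖ := by
      apply hb_den_ge hγ
      rw [hre]; linarith
    have he := hb_exp_sq_le h0' h1
    have hb := hb_br_pos s.im
    have hk : br s.im ^ h * Real.exp |s.im| * Real.exp (-s.im ^ 2)
        ≤ Real.exp ((h + 1 : ℝ) ^ 2 / 2) * Real.exp (-s.im ^ 2 / 2) := by
      refine le_trans ?_ (hb_abs_exp (K := h + 1) (x := s.im))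
      have h2 := hb_br_pow s.im h
      have e : Real.exp ((h + 1 : ℝ) * |s.im|) = Real.exp ((h : ℝ) * |s.im|) * Real.exp |s.im| := by
        rw [← Real.exp_add]
        congr 1
        ring
      rw [e]
      gcongr
    have hp : 0 < ‖s‖ := norm_pos_iff.2 (hne s h0)
    unfold g0
    rw [norm_div, norm_div, norm_mul]
    gcongr
    calc ‖Gammaℝ (1 / 2 + a + s) / Gammaℝ (1 / 2 + a)‖ * ‖cexp (s ^ 2)‖ /
          ‖1 - (γ : ℂ) * (2 : ℂ) ^ (-(1 / 2 + s))‖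
        ≤ (C * br s.im ^ h * Real.exp |s.im|) * (Real.exp 169 * Real.exp (-s.im ^ 2)) / (1 / 7) := by
          gcongr
      _ = C * Real.exp 169 * 7 * (br s.im ^ h * Real.exp |s.im| * Real.exp (-s.im ^ 2)) := by ring
      _ ≤ C * Real.exp 169 * 7 *
          (Real.exp ((h + 1 : ℝ) ^ 2 / 2) * Real.exp (-s.im ^ 2 / 2)) := by gcongr
      _ = _ := by ring

end Pool.Agent.QM
end

-- part Pool.Agent.P.MP_ea46f5_nt.QM.FHCa
section

namespace Pool.Agent.QM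

open Complex MeasureTheory Finset
open scoped Real ComplexConjugate

theorem hc_cpow_exp {p : ℕ} (hp : 0 < p) (w : ℂ) :
    (p : ℂ) ^ w = cexp ((Real.log p : ℝ) * w) := by
  have h : (p : ℂ) ≠ 0 := by exact_mod_cast hp.ne'
  rw [cpow_def_of_ne_zero h, natCast_log]

theorem hc_log_nonneg (p : ℕ) : 0 ≤ Real.log p := Real.log_natCast_nonneg p

theorem hc_norm_mul {p : ℕ} (w : ℂ) : ‖((Real.log p : ℝ) : ℂ) * w‖ = Real.log p * ‖w‖ := by
  rw [norm_mul, Complex.norm_real, Real.norm_of_nonneg (hc_log_nonneg p)]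

theorem hc_sub_one_min {p : ℕ} (hp : 0 < p) (w : ℂ) (hw : 0 ≤ w.re) :
    ‖(p : ℂ) ^ (-w) - 1‖ ≤ 2 * min 1 (‖w‖ * Real.log p) := by
  have hn : ‖((Real.log p : ℝ) : ℂ) * (-w)‖ = ‖w‖ * Real.log p := by
    rw [hc_norm_mul, norm_neg, mul_comm]
  rcases le_total (‖w‖ * Real.log p) 1 with h | h
  · rw [min_eq_right h, hc_cpow_exp hp, ← hn]
    exact norm_exp_sub_one_le (by rw [hn]; exact h)
  · rw [min_eq_left h]
    have h1 : ‖(p : ℂ) ^ (-w)‖ ≤ 1 := by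
      rw [norm_natCast_cpow_of_pos hp]
      exact Real.rpow_le_one_of_one_le_of_nonpos (by exact_mod_cast hp) (by simpa using hw)
    calc ‖(p : ℂ) ^ (-w) - 1‖ ≤ ‖(p : ℂ) ^ (-w)‖ + ‖(1 : ℂ)‖ := norm_sub_le _ _
      _ ≤ 2 * 1 := by rw [norm_one]; linarith

theorem hc_b {p : ℕ} (hp : 0 < p) (a : ℂ) (ε : ℝ) (ha : ‖a‖ ≤ ε / 2) :
    ‖(p : ℂ) ^ (-a)‖ ≤ (p : ℝ) ^ (ε / 2) ∧
      ‖(p : ℂ) ^ (-a) - 1‖ ≤ ε / 2 * Real.log p * (p : ℝ) ^ (ε / 2) := by
  have hp1 : (1 : ℝ) ≤ p := by exact_mod_cast hp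
  constructor
  · rw [norm_natCast_cpow_of_pos hp]
    apply Real.rpow_le_rpow_of_exponent_le hp1
    have := abs_re_le_norm (-a)
    rw [norm_neg] at this
    exact (le_abs_self _).trans (this.trans ha)
  · have h := norm_exp_sub_sum_le_norm_mul_exp (((Real.log p : ℝ) : ℂ) * (-a)) 1
    simp only [range_one, sum_singleton, pow_zero, Nat.factorial_zero, Nat.cast_one, div_one,
      pow_one] at h
    rw [hc_cpow_exp hp]
    refine h.trans ?_
    rw [hc_norm_mul, norm_neg, Real.rpow_def_of_pos (by linarith)]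
    have hl := hc_log_nonneg p
    have h1 : Real.log p * ‖a‖ ≤ Real.log p * (ε / 2) := mul_le_mul_of_nonneg_left ha hl
    have h2 : Real.exp (Real.log p * ‖a‖) ≤ Real.exp (Real.log p * (ε / 2)) :=
      Real.exp_le_exp.mpr h1
    calc Real.log p * ‖a‖ * Real.exp (Real.log p * ‖a‖)
        ≤ Real.log p * (ε / 2) * Real.exp (Real.log p * (ε / 2)) :=
          mul_le_mul h1 h2 (Real.exp_pos _).le ((mul_nonneg hl (norm_nonneg _)).trans h1)
      _ = _ := by ring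

theorem hc_alg (b₁ b₂ : ℂ) (E δ : ℝ) (hE : 1 ≤ E) (h1 : ‖b₁‖ ≤ E) (h2 : ‖b₂‖ ≤ E)
    (d1 : ‖b₁ - 1‖ ≤ δ) (d2 : ‖b₂ - 1‖ ≤ δ) :
    ‖3 * b₁ ^ 2 + 4 * (b₁ * b₂) + 3 * b₂ ^ 2 - 2 * (b₁ + b₂) - 6‖ ≤ 24 * (E * δ) := by
  have hδ : 0 ≤ δ := (norm_nonneg _).trans d1
  have e : 3 * b₁ ^ 2 + 4 * (b₁ * b₂) + 3 * b₂ ^ 2 - 2 * (b₁ + b₂) - 6 =
      (b₁ - 1) * (3 * b₁ + 5) + (b₂ - 1) * (3 * b₂ + 4 * b₁ + 1) := by ring
  have n3 : ‖(3 : ℂ)‖ = 3 := by simp
  have n4 : ‖(4 : ℂ)‖ = 4 := by simp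
  have n5 : ‖(5 : ℂ)‖ = 5 := by simp
  have k1 : ‖3 * b₁ + 5‖ ≤ 8 * E := by
    have := norm_add_le (3 * b₁) 5
    rw [norm_mul, n3, n5] at this
    linarith
  have k2 : ‖3 * b₂ + 4 * b₁ + 1‖ ≤ 8 * E := by
    have a1 := norm_add_le (3 * b₂ + 4 * b₁) 1
    have a2 := norm_add_le (3 * b₂) (4 * b₁)
    rw [norm_mul, norm_mul, n3, n4] at a2
    rw [norm_one] at a1
    linarith
  rw [e]
  have a := norm_add_le ((b₁ - 1) * (3 * b₁ + 5)) ((b₂ - 1) * (3 * b₂ + 4 * b₁ + 1))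
  rw [norm_mul, norm_mul] at a
  have m1 : ‖b₁ - 1‖ * ‖3 * b₁ + 5‖ ≤ δ * (8 * E) := mul_le_mul d1 k1 (norm_nonneg _) hδ
  have m2 : ‖b₂ - 1‖ * ‖3 * b₂ + 4 * b₁ + 1‖ ≤ δ * (8 * E) :=
    mul_le_mul d2 k2 (norm_nonneg _) hδ
  have : 0 ≤ E * δ := mul_nonneg (by linarith) hδ
  linarith

theorem hc_jo {p : ℕ} (hp : p.Prime) (h2 : p ≠ 2) : jo 1 p = 1 := by
  unfold jo
  rw [if_pos (hp.odd_of_ne_two h2), jacobiSym.one_left]
  simp

/-- The main term of the local factor. -/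
theorem hc_QU {p : ℕ} (hp : p.Prime) (h2 : p ≠ 2) (ε : ℝ) (z s₁ s₂ : ℂ) (hε : 0 < ε)
    (hz : z.re = ε) (h₁ : ‖s₁ - z‖ ≤ ε / 2) (h₂ : ‖s₂ - z‖ ≤ ε / 2) :
    ‖Qp s₁ s₂ p - 2 * Up 1 z s₁ s₂ p - 6 * (p : ℂ) ^ (-(1 + 2 * z))‖ ≤
      12 * ε * (Real.log p * (p : ℝ) ^ (-(1 + ε))) := by
  have hp0 := hp.pos
  have hc : (p : ℂ) ≠ 0 := by exact_mod_cast hp0.ne'
  have hr : (0 : ℝ) < p := by exact_mod_cast hp0
  have hp1 : (1 : ℝ) ≤ p := by exact_mod_cast hp0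
  set w : ℂ := (p : ℂ) ^ (-(z + 1 / 2)) with hw
  have hx : ∀ s : ℂ, xs s p = w * (p : ℂ) ^ (-(s - z)) := by
    intro s
    unfold xs
    rw [hw, ← cpow_add _ _ hc]
    congr 1
    ring
  have hw2 : (p : ℂ) ^ (-(1 + 2 * z)) = w ^ 2 := by
    rw [hw, sq, ← cpow_add _ _ hc]
    congr 1
    ring
  obtain ⟨a1, d1⟩ := hc_b hp0 (s₁ - z) ε h₁
  obtain ⟨a2, d2⟩ := hc_b hp0 (s₂ - z) ε h₂
  have hE : 1 ≤ (p : ℝ) ^ (ε / 2) := Real.one_le_rpow hp1 (by linarith)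
  have key := hc_alg _ _ _ _ hE a1 a2 d1 d2
  have e : Qp s₁ s₂ p - 2 * Up 1 z s₁ s₂ p - 6 * (p : ℂ) ^ (-(1 + 2 * z)) =
      (p : ℂ) ^ (-(1 + 2 * z)) * (3 * ((p : ℂ) ^ (-(s₁ - z))) ^ 2 +
        4 * ((p : ℂ) ^ (-(s₁ - z)) * (p : ℂ) ^ (-(s₂ - z))) + 3 * ((p : ℂ) ^ (-(s₂ - z))) ^ 2 -
        2 * ((p : ℂ) ^ (-(s₁ - z)) + (p : ℂ) ^ (-(s₂ - z))) - 6) := by
    unfold Qp Up
    rw [hc_jo hp h2, hx s₁, hx s₂, hw2, ← hw]
    ring
  rw [e, norm_mul, norm_natCast_cpow_of_pos hp0]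
  have hre : (-(1 + 2 * z)).re = -(1 + 2 * ε) := by simp [hz]
  rw [hre]
  have hpw : (p : ℝ) ^ (-(1 + 2 * ε)) * ((p : ℝ) ^ (ε / 2) * (p : ℝ) ^ (ε / 2)) =
      (p : ℝ) ^ (-(1 + ε)) := by
    rw [← Real.rpow_add hr, ← Real.rpow_add hr]
    congr 1
    ring
  calc _ ≤ (p : ℝ) ^ (-(1 + 2 * ε)) *
        (24 * ((p : ℝ) ^ (ε / 2) * (ε / 2 * Real.log p * (p : ℝ) ^ (ε / 2)))) :=
        mul_le_mul_of_nonneg_left key (Real.rpow_nonneg hr.le _)
    _ = 12 * ε * (Real.log p * ((p : ℝ) ^ (-(1 + 2 * ε)) *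
        ((p : ℝ) ^ (ε / 2) * (p : ℝ) ^ (ε / 2)))) := by ring
    _ = _ := by rw [hpw]

theorem hc_xs {p : ℕ} (hp : 0 < p) (s : ℂ) (hs : 0 ≤ s.re) :
    ‖xs s p‖ ≤ (p : ℝ) ^ (-(1 / 2) : ℝ) := by
  have hp1 : (1 : ℝ) ≤ p := by exact_mod_cast hp
  unfold xs
  rw [norm_natCast_cpow_of_pos hp]
  apply Real.rpow_le_rpow_of_exponent_le hp1
  simp
  linarith

/-- Crude bound of the main term. -/
theorem hc_crude {p : ℕ} (hp : p.Prime) (h2 : p ≠ 2) (z s₁ s₂ : ℂ) (hz : 0 ≤ z.re)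
    (h₁ : 0 ≤ s₁.re) (h₂ : 0 ≤ s₂.re) :
    ‖Qp s₁ s₂ p - 2 * Up 1 z s₁ s₂ p‖ ≤ 14 * (p : ℝ) ^ (-1 : ℝ) := by
  have hp0 := hp.pos
  have hr : (0 : ℝ) < p := by exact_mod_cast hp0
  have hw : (p : ℂ) ^ (-(z + 1 / 2)) = xs z p := by
    unfold xs
    rw [add_comm]
  have a0 := hc_xs hp0 z hz
  have a1 := hc_xs hp0 s₁ h₁
  have a2 := hc_xs hp0 s₂ h₂
  set r : ℝ := (p : ℝ) ^ (-(1 / 2) : ℝ) with hrr
  have hr0 : 0 ≤ r := Real.rpow_nonneg hr.le _
  have hr2 : (p : ℝ) ^ (-1 : ℝ) = r * r := by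
    rw [hrr, ← Real.rpow_add hr]
    norm_num
  unfold Qp Up
  rw [hc_jo hp h2, hw, one_mul, hr2]
  set x := xs z p
  set x₁ := xs s₁ p
  set x₂ := xs s₂ p
  have n2 : ‖(2 : ℂ)‖ = 2 := by simp
  have n3 : ‖(3 : ℂ)‖ = 3 := by simp
  have n4 : ‖(4 : ℂ)‖ = 4 := by simp
  have m11 : ‖x₁‖ * ‖x₁‖ ≤ r * r := mul_le_mul a1 a1 (norm_nonneg _) hr0
  have m12 : ‖x₁‖ * ‖x₂‖ ≤ r * r := mul_le_mul a1 a2 (norm_nonneg _) hr0
  have m22 : ‖x₂‖ * ‖x₂‖ ≤ r * r := mul_le_mul a2 a2 (norm_nonneg _) hr0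
  have ms : ‖x₁ + x₂‖ ≤ 2 * r := (norm_add_le _ _).trans (by linarith)
  have m0 : ‖x‖ * ‖x₁ + x₂‖ ≤ r * (2 * r) := mul_le_mul a0 ms (norm_nonneg _) hr0
  have b1 := norm_sub_le (3 * x₁ ^ 2 + 4 * (x₁ * x₂) + 3 * x₂ ^ 2) (2 * (x * (x₁ + x₂)))
  have b2 := norm_add_le (3 * x₁ ^ 2 + 4 * (x₁ * x₂)) (3 * x₂ ^ 2)
  have b3 := norm_add_le (3 * x₁ ^ 2) (4 * (x₁ * x₂))
  simp only [norm_mul, n2, n3, n4, sq] at b1 b2 b3
  simp only [sq]
  linarith

theorem hc_ind (P : Finset ℕ) (hP : ∀ p ∈ P, p.Prime) (f : ℕ → ℝ) :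
    HasSum (fun p : Nat.Primes => if (p : ℕ) ∈ P then f p else 0) (∑ p ∈ P, f p) := by
  have h := hasSum_sum_of_ne_finset_zero (s := P.subtype Nat.Prime)
    (f := fun p : {p : ℕ // p.Prime} => if (p : ℕ) ∈ P then f p else 0)
    (L := SummationFilter.unconditional _) (by
      intro b hb
      rw [mem_subtype] at hb
      simp [hb])
  have e : ∑ b ∈ P.subtype Nat.Prime, (if (b : ℕ) ∈ P then f b else 0) = ∑ p ∈ P, f p := by
    rw [← sum_subtype_of_mem f hP]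
    refine sum_congr rfl fun b hb => ?_
    rw [mem_subtype] at hb
    simp [hb]
  rw [e] at h
  exact h

theorem hc_pz (hPZ : PZ) (x : ℝ) (hx : 0 < x) :
    ∑' p : Nat.Primes, ((p : ℕ) : ℝ) ^ (-(1 + x)) ≤ 1 / x := by
  have h := (hPZ.1 x hx).2
  have := Real.add_one_le_exp (∑' p : Nat.Primes, ((p : ℕ) : ℝ) ^ (-(1 + x)))
  linarith

theorem hc_fin32 (hPZ : PZ) (P : Finset ℕ) (hP : ∀ p ∈ P, p.Prime) :
    ∑ p ∈ P, (p : ℝ) ^ (-(3 / 2) : ℝ) ≤ 2 := by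
  have h1 := hc_ind P hP fun p => (p : ℝ) ^ (-(3 / 2) : ℝ)
  have h2 := (hPZ.1 (1 / 2) (by norm_num)).1
  have h3 := hc_pz hPZ (1 / 2) (by norm_num)
  have h4 := hasSum_le (fun p : Nat.Primes => (show
    (if (p : ℕ) ∈ P then ((p : ℕ) : ℝ) ^ (-(3 / 2) : ℝ) else 0) ≤
      ((p : ℕ) : ℝ) ^ (-(1 + 1 / 2) : ℝ) by
      split_ifs
      · norm_num
      · positivity)) h1 h2.hasSum
  linarith

theorem hc_pt {p : ℕ} (hp : p.Prime) (h2 : p ≠ 2) (ε C : ℝ) (z s₁ s₂ y : ℂ) (hε : 0 < ε)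
    (hC : 0 < C) (hz : z.re = ε) (h₁ : ‖s₁ - z‖ ≤ ε / 2) (h₂ : ‖s₂ - z‖ ≤ ε / 2)
    (r₁ : 0 ≤ s₁.re) (r₂ : 0 ≤ s₂.re)
    (hL : ‖y - 1 - Qp s₁ s₂ p + 2 * Up 1 z s₁ s₂ p‖ ≤ C * (p : ℝ) ^ (-(27 / 20) : ℝ)) :
    ‖y - 1‖ ≤ 6 * (p : ℝ) ^ (-(1 + 2 * ε)) + 12 * ε * (Real.log p * (p : ℝ) ^ (-(1 + ε))) +
        C * (p : ℝ) ^ (-(1 + 7 / 20) : ℝ) ∧
      (y - 1).re + ‖y - 1‖ ^ 2 / 2 ≤ 6 * ((p : ℂ) ^ (-(1 + 2 * z))).re +
        12 * ε * (Real.log p * (p : ℝ) ^ (-(1 + ε))) +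
        (C + (14 + C) ^ 2) * (p : ℝ) ^ (-(1 + 7 / 20) : ℝ) := by
  have hp0 := hp.pos
  have hr : (0 : ℝ) < p := by exact_mod_cast hp0
  have hp1 : (1 : ℝ) ≤ p := by exact_mod_cast hp0
  have hQ := hc_QU hp h2 ε z s₁ s₂ hε hz h₁ h₂
  have hcr := hc_crude hp h2 z s₁ s₂ (by rw [hz]; exact hε.le) r₁ r₂
  have he : (-(27 / 20) : ℝ) = -(1 + 7 / 20) := by norm_num
  rw [he] at hL
  set g : ℝ := (p : ℝ) ^ (-(1 + 7 / 20) : ℝ) with hg
  set W : ℂ := (p : ℂ) ^ (-(1 + 2 * z)) with hW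
  set M : ℂ := Qp s₁ s₂ p - 2 * Up 1 z s₁ s₂ p with hM
  set D : ℂ := y - 1 - Qp s₁ s₂ p + 2 * Up 1 z s₁ s₂ p with hD
  have e1 : y - 1 = D + M := by rw [hD, hM]; ring
  have e2 : y - 1 = 6 * W + ((M - 6 * W) + D) := by rw [e1]; ring
  have nW : ‖W‖ = (p : ℝ) ^ (-(1 + 2 * ε)) := by
    rw [hW, norm_natCast_cpow_of_pos hp0]
    congr 1
    simp [hz]
  have n6 : ‖(6 : ℂ)‖ = 6 := by simp
  have t1 := norm_add_le (M - 6 * W) D
  constructor
  · have t2 := norm_add_le (6 * W) ((M - 6 * W) + D)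
    rw [← e2, norm_mul, n6, nW] at t2
    linarith
  · have g1 : g ≤ (p : ℝ) ^ (-1 : ℝ) := Real.rpow_le_rpow_of_exponent_le hp1 (by norm_num)
    have g2 : (p : ℝ) ^ (-1 : ℝ) * (p : ℝ) ^ (-1 : ℝ) ≤ g := by
      rw [← Real.rpow_add hr]
      exact Real.rpow_le_rpow_of_exponent_le hp1 (by norm_num)
    have g0 : 0 ≤ g := Real.rpow_nonneg hr.le _
    have t3 : ‖y - 1‖ ≤ (14 + C) * (p : ℝ) ^ (-1 : ℝ) := by
      have := norm_add_le D M
      rw [← e1] at this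
      have h5 := mul_le_mul_of_nonneg_left g1 hC.le
      linarith
    have t4 : ‖y - 1‖ ^ 2 ≤ (14 + C) ^ 2 * g := by
      calc ‖y - 1‖ ^ 2 ≤ ((14 + C) * (p : ℝ) ^ (-1 : ℝ)) ^ 2 :=
            pow_le_pow_left₀ (norm_nonneg _) t3 2
        _ = (14 + C) ^ 2 * ((p : ℝ) ^ (-1 : ℝ) * (p : ℝ) ^ (-1 : ℝ)) := by ring
        _ ≤ _ := mul_le_mul_of_nonneg_left g2 (sq_nonneg _)
    have t5 : (y - 1).re = 6 * W.re + ((M - 6 * W) + D).re := by
      rw [e2, add_re]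
      simp
    have t6 : ((M - 6 * W) + D).re ≤ ‖(M - 6 * W) + D‖ := re_le_norm _
    have t7 : 0 ≤ (14 + C) ^ 2 * g := mul_nonneg (sq_nonneg _) g0
    rw [t5]
    linarith

theorem hc_inP {p : ℕ} (hp0 : 0 < p) (z : ℂ) (hz : 0 ≤ z.re) :
    0 ≤ 6 * ((p : ℂ) ^ (-(1 + 2 * z))).re +
      (-6 * (1 / (p : ℝ)) + 12 * (min 1 (2 * ‖z‖ * Real.log p) / p)) := by
  have hc : (p : ℂ) ≠ 0 := by exact_mod_cast hp0.ne'
  have hr : (0 : ℝ) < p := by exact_mod_cast hp0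
  have h := hc_sub_one_min hp0 (2 * z) (by simpa using hz)
  have n2 : ‖2 * z‖ = 2 * ‖z‖ := by simp
  rw [n2] at h
  have e : (p : ℂ) ^ (-(1 + 2 * z)) = ((1 / (p : ℝ) : ℝ) : ℂ) * (p : ℂ) ^ (-(2 * z)) := by
    rw [neg_add, cpow_add _ _ hc, cpow_neg_one]
    simp
  have h1 : -‖(p : ℂ) ^ (-(2 * z)) - 1‖ ≤ ((p : ℂ) ^ (-(2 * z))).re - 1 := by
    have := abs_re_le_norm ((p : ℂ) ^ (-(2 * z)) - 1)
    rw [sub_re, one_re] at this
    linarith [neg_abs_le (((p : ℂ) ^ (-(2 * z))).re - 1)]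
  rw [e, re_ofReal_mul]
  have h3 : 0 ≤ 1 / (p : ℝ) * (((p : ℂ) ^ (-(2 * z))).re - 1 +
      2 * min 1 (2 * ‖z‖ * Real.log p)) := mul_nonneg (by positivity) (by linarith)
  have h4 : min 1 (2 * ‖z‖ * Real.log p) / p = 1 / (p : ℝ) * min 1 (2 * ‖z‖ * Real.log p) := by
    ring
  rw [h4]
  linarith

theorem hc_two (z : ℂ) (hz : 0 ≤ z.re) :
    0 ≤ 6 * (((2 : ℕ) : ℂ) ^ (-(1 + 2 * z))).re + 12 * ((2 : ℕ) : ℝ) ^ (-(1 + 7 / 20) : ℝ) := by
  have h1 : ‖((2 : ℕ) : ℂ) ^ (-(1 + 2 * z))‖ ≤ ((2 : ℕ) : ℝ) ^ (-1 : ℝ) := by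
    rw [norm_natCast_cpow_of_pos (by norm_num)]
    apply Real.rpow_le_rpow_of_exponent_le (by norm_num)
    simp
    linarith
  have h2 : ((2 : ℕ) : ℝ) ^ (-2 : ℝ) ≤ ((2 : ℕ) : ℝ) ^ (-(1 + 7 / 20) : ℝ) :=
    Real.rpow_le_rpow_of_exponent_le (by norm_num) (by norm_num)
  have h3 : ((2 : ℕ) : ℝ) ^ (-1 : ℝ) = 1 / 2 := by
    rw [Real.rpow_neg_one]
    norm_num
  have h4 : ((2 : ℕ) : ℝ) ^ (-2 : ℝ) = 1 / 4 := by
    rw [Real.rpow_neg (by norm_num), Real.rpow_two]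
    norm_num
  have h5 := (abs_le.mp ((abs_re_le_norm (((2 : ℕ) : ℂ) ^ (-(1 + 2 * z)))).trans h1)).1
  rw [h3] at h5
  rw [h4] at h2
  generalize (((2 : ℕ) : ℂ) ^ (-(1 + 2 * z))).re = a at h5 ⊢
  generalize ((2 : ℕ) : ℝ) ^ (-(1 + 7 / 20) : ℝ) = b at h2 ⊢
  linarith

end Pool.Agent.QM
end
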