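import Pool.Agent.P.MP_ea46f5_nt.QM.S2
import Mathlib
import Pool.Agent.P.MP_ea46f5_nt.QM.S1
import Pool.Agent.Lib.Sieve.Mertens

-- part Pool.Agent.P.MP_ea46f5_nt.QM.FJCA
section

namespace Pool.Agent.QM

open Complex MeasureTheory Finset
open scoped Real ComplexConjugate

/-- The entire numerator of `Lo 1 (1 + a)`. -/
noncomputable def jcaN (a : ℂ) : ℂ := (1 - (2 : ℂ) ^ (-(1 + a))) * riemannZeta₁ (1 + a)

/-- The three inverse zeta factors in the relative variables. -/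
noncomputable def jcaI (a₁ a₂ : ℂ) : ℂ :=
  iz (2 + 2 * a₁) ^ 3 * iz (2 + a₁ + a₂) ^ 4 * iz (2 + 2 * a₂) ^ 3

/-- The part of `Zc` that depends only on the relative variables. -/
noncomputable def jcaF (a₁ a₂ : ℂ) : ℂ := (jcaN a₁ / a₁) ^ 2 * (jcaN a₂ / a₂) ^ 2 * jcaI a₁ a₂

theorem jca_N_diff : Differentiable ℂ jcaN := by
  unfold jcaN
  refine Differentiable.mul ?_ (differentiable_riemannZeta₁.comp (by fun_prop))
  exact (differentiable_const _).sub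
    (Differentiable.const_cpow (by fun_prop) (Or.inl two_ne_zero))

theorem jca_Lo (hLOP : LOP) {a : ℂ} (ha : a ≠ 0) : Lo 1 (1 + a) = jcaN a / a := by
  rw [hLOP.2.2 (1 + a) (by simpa using ha)]
  simp [jcaN]

theorem jca_Zc (hLOP : LOP) (P : Finset ℕ) (R : (ℕ → ℤ) → ℝ) (z : ℂ) {a₁ a₂ : ℂ} (h₁ : a₁ ≠ 0)
    (h₂ : a₂ ≠ 0) :
    Zc P R 1 z (z + a₁) (z + a₂) = jcaF a₁ a₂ * Hh P R 1 z (z + a₁) (z + a₂) := by
  simp only [Zc, IZ3, add_sub_cancel_left, jca_Lo hLOP h₁, jca_Lo hLOP h₂, jcaF, jcaI]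

theorem jca_re {a : ℂ} {ρ : ℝ} (h : ‖a‖ ≤ ρ) : -ρ ≤ a.re ∧ a.re ≤ ρ :=
  abs_le.mp ((Complex.abs_re_le_norm a).trans h)

theorem jca_I_diff (hIZ : IZ) {a₁ a₂ : ℂ} (h₁ : ‖a₁‖ ≤ 1 / 2) (h₂ : ‖a₂‖ ≤ 1 / 2) :
    DifferentiableAt ℂ (fun x : ℂ × ℂ => jcaI x.1 x.2) (a₁, a₂) := by
  have r₁ := (jca_re h₁).1
  have r₂ := (jca_re h₂).1
  have d₁ : DifferentiableAt ℂ (fun x : ℂ × ℂ => iz (2 + 2 * x.1)) (a₁, a₂) :=
    DifferentiableAt.comp (g := iz) (f := fun x : ℂ × ℂ => 2 + 2 * x.1) _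
      (hIZ.1 _ (by simp; linarith)) (by fun_prop)
  have d₂ : DifferentiableAt ℂ (fun x : ℂ × ℂ => iz (2 + x.1 + x.2)) (a₁, a₂) :=
    DifferentiableAt.comp (g := iz) (f := fun x : ℂ × ℂ => 2 + x.1 + x.2) _
      (hIZ.1 _ (by simp; linarith)) (by fun_prop)
  have d₃ : DifferentiableAt ℂ (fun x : ℂ × ℂ => iz (2 + 2 * x.2)) (a₁, a₂) :=
    DifferentiableAt.comp (g := iz) (f := fun x : ℂ × ℂ => 2 + 2 * x.2) _
      (hIZ.1 _ (by simp; linarith)) (by fun_prop)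
  exact ((d₁.pow 3).mul (d₂.pow 4)).mul (d₃.pow 3)

theorem jca_F_cont (hIZ : IZ) {ρ : ℝ} (h0 : 0 < ρ) (h1 : ρ ≤ 1 / 2) :
    ContinuousOn (fun x : ℂ × ℂ => jcaF x.1 x.2)
      (Metric.sphere (0 : ℂ) ρ ×ˢ Metric.sphere (0 : ℂ) ρ) := by
  rintro ⟨a₁, a₂⟩ ⟨m₁, m₂⟩
  have n₁ : ‖a₁‖ = ρ := by simpa using m₁
  have n₂ : ‖a₂‖ = ρ := by simpa using m₂
  have z₁ : a₁ ≠ 0 := norm_pos_iff.mp (n₁ ▸ h0)
  have z₂ : a₂ ≠ 0 := norm_pos_iff.mp (n₂ ▸ h0)
  have cN := jca_N_diff.continuous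
  have c₁ : ContinuousAt (fun x : ℂ × ℂ => jcaN x.1 / x.1) (a₁, a₂) :=
    ((cN.comp continuous_fst).continuousAt).div continuous_fst.continuousAt z₁
  have c₂ : ContinuousAt (fun x : ℂ × ℂ => jcaN x.2 / x.2) (a₁, a₂) :=
    ((cN.comp continuous_snd).continuousAt).div continuous_snd.continuousAt z₂
  have c₃ := (jca_I_diff hIZ (n₁.le.trans h1) (n₂.le.trans h1)).continuousAt
  exact (((c₁.pow 2).mul (c₂.pow 2)).mul c₃).continuousWithinAt

theorem jca_UU {ε : ℝ} (h1 : ε ≤ 1 / 100) {z a₁ a₂ : ℂ} (hz : ε / 2 < z.re) (hz' : z.re < 6)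
    (h₁ : ‖a₁‖ ≤ ε / 2) (h₂ : ‖a₂‖ ≤ ε / 2) : UU z (z + a₁) (z + a₂) := by
  have r₁ := (jca_re h₁).1
  have r₂ := (jca_re h₂).1
  have e0 : 0 ≤ ε / 2 := (norm_nonneg _).trans h₁
  unfold UU
  simp only [add_sub_cancel_left, Complex.add_re]
  refine ⟨?_, ?_, ?_, ?_, ?_, ?_⟩ <;> linarith

theorem jca_shift (z : ℂ) (ρ : ℝ) (f : ℂ → ℂ) : Oc z ρ f = Oc 0 ρ fun a => f (z + a) := by
  simp only [Oc, zero_add]

theorem jca_Jc (w : ℂ → ℂ) (P : Finset ℕ) (R : (ℕ → ℤ) → ℝ) (ε : ℝ) (z : ℂ) :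
    Jc w P R ε z = Oc 0 (ε / 2) fun a₁ => Oc 0 (ε / 2) fun a₂ =>
      w (z + a₁) * wt w (z + a₂) * Zc P R 1 z (z + a₁) (z + a₂) := by
  simp only [Jc, Oc, zero_add]

theorem jca_part1 (hPH2 : PH2) (hHA : HA) (hIZ : IZ) (hLOP : LOP) {w : ℂ → ℂ} {P : Finset ℕ}
    (R : (ℕ → ℤ) → ℝ) {ε : ℝ} (hP : OP P) (h0 : 0 < ε) (h1 : ε ≤ 1 / 100)
    (dw : DifferentiableOn ℂ w {s | 0 < s.re}) (dv : DifferentiableOn ℂ (wt w) {s | 0 < s.re}) :
    DifferentiableOn ℂ (Jc w P R ε) (OStrip (ε / 2) 6) := by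
  have hρ : 0 < ε / 2 := by linarith
  have hO : IsOpen {s : ℂ | 0 < s.re} := isOpen_lt continuous_const Complex.continuous_re
  have hU : IsOpen (OStrip (ε / 2) 6) :=
    (isOpen_lt continuous_const Complex.continuous_re).inter
      (isOpen_lt Complex.continuous_re continuous_const)
  obtain ⟨hc, hd⟩ := hHA P R 1 hP
  have key := hPH2.1 (OStrip (ε / 2) 6) (ε / 2)
    (fun z a₁ a₂ => w (z + a₁) * wt w (z + a₂) * Zc P R 1 z (z + a₁) (z + a₂)) hU hρ ?_ ?_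
  · exact key.congr fun z _ => jca_Jc w P R ε z
  · have hm : ∀ x ∈ OStrip (ε / 2) 6 ×ˢ Metric.sphere (0 : ℂ) (ε / 2) ×ˢ
        Metric.sphere (0 : ℂ) (ε / 2), UU x.1 (x.1 + x.2.1) (x.1 + x.2.2) := by
      rintro ⟨z, a₁, a₂⟩ ⟨⟨hz, hz'⟩, m₁, m₂⟩
      exact jca_UU h1 hz hz' (le_of_eq (by simpa using m₁)) (le_of_eq (by simpa using m₂))
    have c₁ : ContinuousOn (fun x : ℂ × ℂ × ℂ => w (x.1 + x.2.1)) (OStrip (ε / 2) 6 ×ˢ
        Metric.sphere (0 : ℂ) (ε / 2) ×ˢ Metric.sphere (0 : ℂ) (ε / 2)) :=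
      dw.continuousOn.comp (by fun_prop) fun x hx => (hm x hx).2.2.1
    have c₂ : ContinuousOn (fun x : ℂ × ℂ × ℂ => wt w (x.1 + x.2.2)) (OStrip (ε / 2) 6 ×ˢ
        Metric.sphere (0 : ℂ) (ε / 2) ×ˢ Metric.sphere (0 : ℂ) (ε / 2)) :=
      dv.continuousOn.comp (by fun_prop) fun x hx => (hm x hx).2.2.2.1
    have c₃ : ContinuousOn (fun x : ℂ × ℂ × ℂ => jcaF x.2.1 x.2.2) (OStrip (ε / 2) 6 ×ˢ
        Metric.sphere (0 : ℂ) (ε / 2) ×ˢ Metric.sphere (0 : ℂ) (ε / 2)) :=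
      (jca_F_cont hIZ hρ (by linarith)).comp continuous_snd.continuousOn fun x hx => hx.2
    have c₄ : ContinuousOn (fun x : ℂ × ℂ × ℂ => Hh P R 1 x.1 (x.1 + x.2.1) (x.1 + x.2.2))
        (OStrip (ε / 2) 6 ×ˢ Metric.sphere (0 : ℂ) (ε / 2) ×ˢ Metric.sphere (0 : ℂ) (ε / 2)) :=
      hc.comp (f := fun x : ℂ × ℂ × ℂ => (x.1, x.1 + x.2.1, x.1 + x.2.2)) (by fun_prop) hm
    refine ((c₁.mul c₂).mul (c₃.mul c₄)).congr ?_
    rintro ⟨z, a₁, a₂⟩ ⟨_, m₁, m₂⟩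
    have n₁ : ‖a₁‖ = ε / 2 := by simpa using m₁
    have n₂ : ‖a₂‖ = ε / 2 := by simpa using m₂
    simp only [Pi.mul_apply]
    rw [jca_Zc hLOP P R z (norm_pos_iff.mp (n₁ ▸ hρ)) (norm_pos_iff.mp (n₂ ▸ hρ))]
  · intro a₁ m₁ a₂ m₂ z hz
    have n₁ : ‖a₁‖ = ε / 2 := by simpa using m₁
    have n₂ : ‖a₂‖ = ε / 2 := by simpa using m₂
    have hu := jca_UU h1 hz.1 hz.2 n₁.le n₂.le
    have d₁ : DifferentiableAt ℂ (fun u => w (u + a₁)) z :=
      (dw.differentiableAt (hO.mem_nhds hu.2.2.1)).comp z (f := fun u => u + a₁) (by fun_prop)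
    have d₂ : DifferentiableAt ℂ (fun u => wt w (u + a₂)) z :=
      (dv.differentiableAt (hO.mem_nhds hu.2.2.2.1)).comp z (f := fun u => u + a₂) (by fun_prop)
    have d₃ := (hd z (z + a₁) (z + a₂) hu).2.2
    simp only [add_sub_cancel_left] at d₃
    have e : (fun u => w (u + a₁) * wt w (u + a₂) * Zc P R 1 u (u + a₁) (u + a₂)) =
        fun u => w (u + a₁) * wt w (u + a₂) * (jcaF a₁ a₂ * Hh P R 1 u (u + a₁) (u + a₂)) := by
      funext u
      rw [jca_Zc hLOP P R u (norm_pos_iff.mp (n₁ ▸ hρ)) (norm_pos_iff.mp (n₂ ▸ hρ))]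
    rw [e]
    exact ((d₁.mul d₂).mul ((differentiableAt_const _).mul d₃)).differentiableWithinAt

theorem jca_part2 (hPH2 : PH2) (hHA : HA) (hIZ : IZ) (hLOP : LOP) {w : ℂ → ℂ} {P : Finset ℕ}
    (R : (ℕ → ℤ) → ℝ) {ε : ℝ} (hP : OP P) (h0 : 0 < ε) (h1 : ε ≤ 1 / 100) {g : ℂ → ℂ}
    (dg : DifferentiableOn ℂ g {s | 0 < s.re})
    (eg : ∀ s : ℂ, 0 < s.re → wt w s = (s - 1 / 2) ^ 2 * g s) : Jc w P R ε (1 / 2) = 0 := by
  have hρ : 0 < ε / 2 := by linarith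
  have hO : IsOpen {s : ℂ | 0 < s.re} := isOpen_lt continuous_const Complex.continuous_re
  obtain ⟨-, hd⟩ := hHA P R 1 hP
  have hre : ((1 / 2 : ℂ)).re = 1 / 2 := by norm_num
  rw [jca_Jc]
  refine hPH2.2.2 0 (ε / 2) _ (fun _ => 0) hρ ?_ (differentiableOn_const 0)
  intro a₁ m₁
  have n₁ : ‖a₁‖ = ε / 2 := by simpa using m₁
  refine hPH2.2.2 0 (ε / 2) _ (fun a₂ => w (1 / 2 + a₁) * g (1 / 2 + a₂) *
    ((jcaN a₁ / a₁) ^ 2 * jcaN a₂ ^ 2 * jcaI a₁ a₂ *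
      Hh P R 1 (1 / 2) (1 / 2 + a₁) (1 / 2 + a₂))) hρ ?_ ?_
  · intro a₂ m₂
    have n₂ : ‖a₂‖ = ε / 2 := by simpa using m₂
    have z₂ : a₂ ≠ 0 := norm_pos_iff.mp (n₂ ▸ hρ)
    have hu : UU (1 / 2) (1 / 2 + a₁) (1 / 2 + a₂) :=
      jca_UU h1 (by rw [hre]; linarith) (by rw [hre]; linarith) n₁.le n₂.le
    rw [jca_Zc hLOP P R _ (norm_pos_iff.mp (n₁ ▸ hρ)) z₂, eg _ hu.2.2.2.1, add_sub_cancel_left,
      jcaF]
    field_simp
  · intro a₂ m₂
    have n₂ : ‖a₂‖ ≤ ε / 2 := by simpa using m₂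
    have hu : UU (1 / 2) (1 / 2 + a₁) (1 / 2 + a₂) :=
      jca_UU h1 (by rw [hre]; linarith) (by rw [hre]; linarith) n₁.le n₂
    have d₁ : DifferentiableAt ℂ (fun u => g (1 / 2 + u)) a₂ :=
      (dg.differentiableAt (hO.mem_nhds hu.2.2.2.1)).comp a₂ (f := fun u => 1 / 2 + u)
        (by fun_prop)
    have d₂ : DifferentiableAt ℂ (fun u => jcaI a₁ u) a₂ :=
      (jca_I_diff hIZ (n₁.le.trans (by linarith)) (n₂.trans (by linarith))).comp a₂
        (f := fun u => (a₁, u)) (by fun_prop)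
    have d₃ : DifferentiableAt ℂ (fun u => Hh P R 1 (1 / 2) (1 / 2 + a₁) (1 / 2 + u)) a₂ :=
      (hd _ _ _ hu).2.1.comp a₂ (f := fun u => 1 / 2 + u) (by fun_prop)
    exact (((differentiableAt_const _).mul d₁).mul
      ((((differentiableAt_const _).mul ((jca_N_diff a₂).pow 2)).mul d₂).mul
        d₃)).differentiableWithinAt

theorem jca_wle {w : ℂ → ℂ} {ε N t₀ W : ℝ} (h1 : ε ≤ 1 / 100) (hN : 1 ≤ N) (hW : 0 ≤ W)
    (hF : Far w ε N t₀ W) {s : ℂ} (l : ε / 2 ≤ s.re) (u : s.re ≤ 1) : ‖w s‖ ≤ W * N := by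
  refine (hF.2 s l (by linarith)).trans ?_
  have a : N ^ s.re ≤ N := by
    simpa using Real.rpow_le_rpow_of_exponent_le hN u
  have b : Real.exp (-|s.im - t₀|) ≤ 1 := Real.exp_le_one_iff.mpr (by simp)
  calc W * N ^ s.re * Real.exp (-|s.im - t₀|) ≤ W * N ^ s.re * 1 := by gcongr
    _ ≤ W * N := by rw [mul_one]; gcongr

theorem pJCA (hPH2 : PH2) (hHA : HA) (hH1 : H1) (hIZ : IZ) (hLOP : LOP) (hZT : ZT) (hFW : FW) (hLEN : LEN) : JCA := by
  intro w P B R Y ε N t₀ W hP hL h0 h1 hN hF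
  have hF' := hFW.1 w ε N t₀ W hF
  obtain ⟨dw, -, hW⟩ := hFW.2.1 w ε N t₀ W h0 (by linarith) hF
  obtain ⟨dv, -, -⟩ := hFW.2.1 (wt w) ε N (-t₀) W h0 (by linarith) hF'
  have hW0 : 0 ≤ W := hW (by linarith)
  obtain ⟨g, dg, eg⟩ := hF'.1
  refine ⟨jca_part1 hPH2 hHA hIZ hLOP R hP h0 h1 dw dv,
    jca_part2 hPH2 hHA hIZ hLOP R hP h0 h1 dg eg, ?_⟩
  have hρ : 0 < ε / 2 := by linarith
  obtain ⟨C, B', hC, -, hH⟩ := hH1
  obtain ⟨Y', hY'⟩ := (hLEN.2.1 P B R Y hL).2 B'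
  have hY0 := (hLEN.2.1 P B' R Y' hY').1
  obtain ⟨M, hM⟩ := ((isCompact_sphere (0 : ℂ) (ε / 2)).prod
    (isCompact_sphere (0 : ℂ) (ε / 2))).exists_bound_of_continuousOn
      (jca_F_cont hIZ hρ (by linarith))
  set q : ℝ := 1 + 1 / (ε / 2) with hq
  refine ⟨2 * π * (ε / 2) * (2 * π * (ε / 2) *
    (W * N * (W * N) * (M * (C * Y' * q ^ 3 * q ^ 4 * q ^ 3 * q ^ 2 * q ^ 2)))), ?_⟩
  intro z hz
  rw [jca_Jc]
  refine hPH2.2.1 0 (ε / 2) _ _ hρ fun a₁ m₁ => hPH2.2.1 0 (ε / 2) _ _ hρ fun a₂ m₂ => ?_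
  have n₁ : ‖a₁‖ = ε / 2 := by simpa using m₁
  have n₂ : ‖a₂‖ = ε / 2 := by simpa using m₂
  have r₁ := jca_re n₁.le
  have r₂ := jca_re n₂.le
  obtain ⟨zl, zu⟩ := hz
  have hu : UU z (z + a₁) (z + a₂) := jca_UU h1 (by linarith) (by linarith) n₁.le n₂.le
  have l₁ : ε / 2 ≤ (z + a₁).re := by rw [Complex.add_re]; linarith [r₁.1]
  have l₂ : ε / 2 ≤ (z + a₂).re := by rw [Complex.add_re]; linarith [r₂.1]
  have u₁ : (z + a₁).re ≤ 1 := by rw [Complex.add_re]; linarith [r₁.2]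
  have u₂ : (z + a₂).re ≤ 1 := by rw [Complex.add_re]; linarith [r₂.2]
  have b₁ := jca_wle h1 hN hW0 hF l₁ u₁
  have b₂ := jca_wle h1 hN hW0 hF' l₂ u₂
  have b₃ : ‖jcaF a₁ a₂‖ ≤ M := hM (a₁, a₂) ⟨m₁, m₂⟩
  have hM0 : 0 ≤ M := (norm_nonneg _).trans b₃
  have hx : ∀ x : ℝ, ε / 2 ≤ x → 0 ≤ 1 + 1 / x ∧ 1 + 1 / x ≤ q := fun x hx =>
    ⟨by have : 0 < x := hρ.trans_le hx
        positivity, by rw [hq]; gcongr⟩
  have hq0 : 0 ≤ q := by positivity
  obtain ⟨p₁, q₁⟩ := hx _ l₁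
  obtain ⟨p₂, q₂⟩ := hx _ l₂
  obtain ⟨p₃, q₃⟩ := hx ((z + a₁).re + (z + a₂).re) (by linarith)
  obtain ⟨p₄, q₄⟩ := hx (z.re + (z + a₁).re) (by linarith)
  obtain ⟨p₅, q₅⟩ := hx (z.re + (z + a₂).re) (by linarith)
  have b₄ : ‖Hh P R 1 z (z + a₁) (z + a₂)‖ ≤ C * Y' * q ^ 3 * q ^ 4 * q ^ 3 * q ^ 2 * q ^ 2 := by
    refine (hH P R Y' 1 z _ _ hP hY' hu).trans ?_
    gcongr
  rw [jca_Zc hLOP P R z (norm_pos_iff.mp (n₁ ▸ hρ)) (norm_pos_iff.mp (n₂ ▸ hρ)), norm_mul,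
    norm_mul, norm_mul]
  have hWN : 0 ≤ W * N := by positivity
  gcongr

end Pool.Agent.QM
end

-- part Pool.Agent.P.MP_ea46f5_nt.QM.FLEN
section

namespace Pool.Agent.QM

open Real Finset

section

variable {P P' : Finset ℕ} {B B' : ℕ} {Y Y' : ℝ} {R R' : (ℕ → ℤ) → ℝ}

theorem len_nonneg (h : HasLen P B R Y) : 0 ≤ Y := by
  obtain ⟨ι, _, l, r, -, -, h3⟩ := h
  exact le_trans (sum_nonneg fun i _ => by positivity) h3

theorem len_mono (h : HasLen P B R Y) (hP : P ⊆ P') (hB : B' ≤ B) (hY : Y ≤ Y') :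
    HasLen P' B' R Y' := by
  obtain ⟨ι, _, l, r, h1, h2, h3⟩ := h
  refine ⟨ι, inferInstance, l, r, fun i => ⟨(h1 i).1, (h1 i).2.trans hP⟩, h2,
    le_trans (sum_le_sum fun i _ => ?_) (h3.trans hY)⟩
  have : (1 : ℝ) ≤ l i := by exact_mod_cast Nat.one_le_iff_ne_zero.2 (h1 i).1
  exact mul_le_mul_of_nonneg_left (pow_le_pow_right₀ this hB) (abs_nonneg _)

theorem len_congr (h : HasLen P B R Y) (hR : ∀ x, R' x = R x) : HasLen P B R' Y := by
  rwa [show R' = R from funext hR]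

theorem len_const (P : Finset ℕ) (B : ℕ) (c : ℝ) : HasLen P B (fun _ => c) |c| :=
  ⟨Unit, inferInstance, fun _ => 1, fun _ => c, fun _ => by simp, fun x => by simp [mon], by simp⟩

theorem len_var {p : ℕ} (hp : p.Prime) (hP : p ∈ P) (B : ℕ) :
    HasLen P B (fun x => (x p : ℝ)) ((p : ℝ) ^ B) :=
  ⟨Unit, inferInstance, fun _ => p, fun _ => 1,
    fun _ => ⟨hp.ne_zero, by simpa [hp.primeFactors] using hP⟩,
    fun x => by simp [mon, hp.primeFactors, hp.factorization_self], by simp⟩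

theorem len_add (h : HasLen P B R Y) (h' : HasLen P B R' Y') :
    HasLen P B (fun x => R x + R' x) (Y + Y') := by
  obtain ⟨ι, _, l, r, h1, h2, h3⟩ := h
  obtain ⟨ι', _, l', r', h1', h2', h3'⟩ := h'
  refine ⟨ι ⊕ ι', inferInstance, Sum.elim l l', Sum.elim r r', ?_, fun x => ?_, ?_⟩
  · rintro (i | i)
    · exact h1 i
    · exact h1' i
  · beta_reduce
    rw [Fintype.sum_sum_type, h2, h2']; rfl
  · rw [Fintype.sum_sum_type]; exact add_le_add h3 h3'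

theorem len_mul (hE : EXL) (h : HasLen P B R Y) (h' : HasLen P B R' Y') :
    HasLen P B (fun x => R x * R' x) (Y * Y') := by
  have hY := len_nonneg h
  obtain ⟨ι, _, l, r, h1, h2, h3⟩ := h
  obtain ⟨ι', _, l', r', h1', h2', h3'⟩ := h'
  refine ⟨ι × ι', inferInstance, fun i => l i.1 * l' i.2, fun i => r i.1 * r' i.2, ?_,
    fun x => ?_, ?_⟩
  · rintro ⟨i, j⟩
    refine ⟨mul_ne_zero (h1 i).1 (h1' j).1, ?_⟩
    rw [Nat.primeFactors_mul (h1 i).1 (h1' j).1]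
    exact union_subset (h1 i).2 (h1' j).2
  · beta_reduce
    rw [h2, h2', sum_mul_sum, Fintype.sum_prod_type]
    refine sum_congr rfl fun i _ => sum_congr rfl fun j _ => ?_
    rw [hE.2.2.2.2.1 x _ _ (h1 i).1 (h1' j).1]
    push_cast
    ring
  · have h0 : 0 ≤ ∑ i, |r' i| * (l' i : ℝ) ^ B := sum_nonneg fun i _ => by positivity
    refine le_trans (le_of_eq ?_) (mul_le_mul h3 h3' h0 hY)
    rw [sum_mul_sum, Fintype.sum_prod_type]
    refine sum_congr rfl fun i _ => sum_congr rfl fun j _ => ?_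
    rw [abs_mul, Nat.cast_mul, mul_pow]
    ring

theorem len_smul (hE : EXL) (h : HasLen P B R Y) (c : ℝ) :
    HasLen P B (fun x => c * R x) (|c| * Y) := len_mul hE (len_const P B c) h

theorem len_pow (hE : EXL) (h : HasLen P B R Y) (n : ℕ) :
    HasLen P B (fun x => R x ^ n) (Y ^ n) := by
  induction n with
  | zero => simpa using len_const P B 1
  | succ n ih => simpa [pow_succ] using len_mul hE ih h

theorem len_sum (s : Finset ℕ) {F : ℕ → (ℕ → ℤ) → ℝ} {y : ℕ → ℝ}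
    (h : ∀ i ∈ s, HasLen P B (F i) (y i)) :
    HasLen P B (fun x => ∑ i ∈ s, F i x) (∑ i ∈ s, y i) := by
  induction s using Finset.induction_on with
  | empty => simpa using len_const P B 0
  | insert a s ha ih =>
    simp only [sum_insert ha]
    exact len_add (h a (mem_insert_self _ _)) (ih fun i hi => h i (mem_insert_of_mem hi))

theorem len_prod (hE : EXL) (s : Finset ℕ) {F : ℕ → (ℕ → ℤ) → ℝ} {y : ℕ → ℝ}
    (h : ∀ i ∈ s, HasLen P B (F i) (y i)) :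
    HasLen P B (fun x => ∏ i ∈ s, F i x) (∏ i ∈ s, y i) := by
  induction s using Finset.induction_on with
  | empty => simpa using len_const P B 1
  | insert a s ha ih =>
    simp only [prod_insert ha]
    exact len_mul hE (h a (mem_insert_self _ _)) (ih fun i hi => h i (mem_insert_of_mem hi))

end

theorem len_Pb (hE : EXL) {S : Finset ℕ} {lam : ℝ} (B : ℕ)
    (hS : ∀ p ∈ S, p.Prime ∧ (p : ℝ) ≤ exp lam) : HasLen S B (Pb S) (exp ((B + 1) * lam)) := by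
  have h := len_sum (P := S) (B := B) S (F := fun p x => (1 / √p) * (x p : ℝ))
    (y := fun p => |1 / √p| * (p : ℝ) ^ B) fun p hp => len_smul hE (len_var (hS p hp).1 hp B) _
  refine len_mono (len_congr h fun x => sum_congr rfl fun p _ => by ring) Subset.rfl le_rfl ?_
  have hc : (S.card : ℝ) ≤ exp lam := by
    have : S ⊆ Icc 1 ⌊exp lam⌋₊ := fun p hp =>
      mem_Icc.2 ⟨(hS p hp).1.one_le, Nat.le_floor (hS p hp).2⟩
    have h2 := card_le_card this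
    rw [Nat.card_Icc, Nat.add_sub_cancel] at h2
    exact le_trans (by exact_mod_cast h2) (Nat.floor_le (exp_pos _).le)
  have h3 : ∀ p ∈ S, |1 / √p| * (p : ℝ) ^ B ≤ exp (B * lam) := by
    intro p hp
    have hp1 : (1 : ℝ) ≤ p := by exact_mod_cast (hS p hp).1.one_le
    have h4 : |1 / √p| ≤ 1 := by
      rw [abs_of_nonneg (by positivity), div_le_one (by positivity)]
      exact Real.one_le_sqrt.2 hp1
    have h5 : (p : ℝ) ^ B ≤ exp (B * lam) := by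
      rw [exp_nat_mul]
      exact pow_le_pow_left₀ (by positivity) (hS p hp).2 B
    calc |1 / √p| * (p : ℝ) ^ B ≤ 1 * exp (B * lam) := by gcongr
      _ = _ := one_mul _
  refine (sum_le_card_nsmul _ _ _ h3).trans ?_
  rw [nsmul_eq_mul, add_mul, one_mul, exp_add, mul_comm]
  gcongr

theorem len_Et (hE : EXL) {S : Finset ℕ} {lam θ : ℝ} (B : ℕ) (hlam : 0 ≤ lam) (hθ : |θ| ≤ 2)
    (l : ℕ) (hS : ∀ p ∈ S, p.Prime ∧ (p : ℝ) ≤ exp lam) :
    HasLen S B (fun x => Et l (θ * Pb S x) ^ 2) (exp (4 + 2 * (B + 1) * lam * l)) := by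
  have h0 := len_smul hE (len_Pb hE B hS) θ
  have h := len_sum (P := S) (B := B) (range (l + 1))
    (F := fun j x => (1 / (j.factorial : ℝ)) * (θ * Pb S x) ^ j)
    (y := fun j => |1 / (j.factorial : ℝ)| * (|θ| * exp ((B + 1) * lam)) ^ j)
    fun j _ => len_smul hE (len_pow hE h0 j) _
  have h1 : HasLen S B (fun x => Et l (θ * Pb S x)) (exp (2 + (B + 1) * lam * l)) := by
    refine len_mono (len_congr h fun x => sum_congr rfl fun j _ => by ring) Subset.rfl le_rfl ?_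
    have hY : 1 ≤ exp ((B + 1) * lam) := one_le_exp (by positivity)
    have h2 : ∀ j ∈ range (l + 1), |1 / (j.factorial : ℝ)| * (|θ| * exp ((B + 1) * lam)) ^ j ≤
        2 ^ j / (j.factorial : ℝ) * exp ((B + 1) * lam * l) := by
      intro j hj
      have hj' : j ≤ l := Nat.lt_succ_iff.1 (mem_range.1 hj)
      have h3 : exp ((B + 1) * lam) ^ j ≤ exp ((B + 1) * lam * l) := by
        rw [mul_comm _ (l : ℝ), exp_nat_mul]
        exact pow_le_pow_right₀ hY hj'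
      rw [abs_of_nonneg (by positivity), mul_pow]
      calc 1 / (j.factorial : ℝ) * (|θ| ^ j * exp ((B + 1) * lam) ^ j)
          ≤ 1 / (j.factorial : ℝ) * (2 ^ j * exp ((B + 1) * lam * l)) := by gcongr
        _ = _ := by ring
    refine (sum_le_sum h2).trans ?_
    rw [← sum_mul, exp_add]
    gcongr
    exact Real.sum_le_exp_of_nonneg (by norm_num) _
  refine len_mono (len_pow hE h1 2) Subset.rfl le_rfl (le_of_eq ?_)
  rw [← exp_nat_mul]
  congr 1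
  push_cast
  ring

theorem len_QQ (hE : EXL) {S : Finset ℕ} {lam : ℝ} (B l : ℕ)
    (hS : ∀ p ∈ S, p.Prime ∧ (p : ℝ) ≤ exp lam) :
    HasLen S B (QQ S l) (exp (2 * (l : ℝ) * (4 + (B + 1) * lam))) := by
  have h := len_pow hE (len_smul hE (len_Pb hE B hS) (40 / l)) (2 * l)
  refine len_mono (len_congr h fun x => by unfold QQ; congr 1; ring) Subset.rfl le_rfl ?_
  have h1 : |(40 : ℝ) / l| ≤ exp 4 := by
    rw [abs_of_nonneg (by positivity)]
    have h2 : (40 : ℝ) / l ≤ 40 := by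
      rcases Nat.eq_zero_or_pos l with h | h
      · simp [h]
      · exact div_le_self (by norm_num) (by exact_mod_cast h)
    have h3 : exp 4 = exp 1 ^ 4 := by rw [← exp_nat_mul]; norm_num
    have h4 : (2.7 : ℝ) ^ 4 ≤ exp 1 ^ 4 :=
      pow_le_pow_left₀ (by norm_num) (by linarith [Real.exp_one_gt_d9]) _
    rw [h3]
    refine h2.trans (le_trans (by norm_num) h4)
  calc (|(40 : ℝ) / l| * exp ((B + 1) * lam)) ^ (2 * l)
      ≤ (exp 4 * exp ((B + 1) * lam)) ^ (2 * l) := by gcongr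
    _ = _ := by
      rw [← exp_add, ← exp_nat_mul]
      congr 1
      push_cast
      ring

theorem pLEN (hEXL : EXL) : LEN := by
  refine ⟨fun P P' B B' R Y Y' h hP hB hY => len_mono h hP hB hY,
    fun P B R Y h => ⟨len_nonneg h, fun B' => ?_⟩,
    fun P B R R' Y Y' h h' => len_mul hEXL h h', fun S Bl l lam θ B hθ hS => ?_,
    fun Bl l lam B _ hS => len_QQ hEXL B l hS⟩
  · obtain ⟨ι, _, l, r, h1, h2, -⟩ := h
    exact ⟨_, ι, inferInstance, l, r, h1, h2, le_rfl⟩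
  · rw [exp_sum]
    exact len_prod hEXL S fun i hi => len_mono
      (len_Et hEXL B (hS i hi).1 hθ (l i) (hS i hi).2) (subset_biUnion_of_mem Bl hi) le_rfl le_rfl

end Pool.Agent.QM
end

-- part Pool.Agent.P.MP_ea46f5_nt.QM.FLOCa
section

/-! Local factors (LOC, MG): uniform second-order expansions. -/

namespace Pool.Agent.QM

open Complex

/-- `f` is uniformly `O(r ^ k)`. -/
def Og {ι : Type} (r : ι → ℝ) (k : ℕ) (f : ι → ℂ) : Prop :=
  ∃ C : ℝ, 0 ≤ C ∧ ∀ i, ‖f i‖ ≤ C * r i ^ k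

section og
variable {ι : Type} {r : ι → ℝ} {k l : ℕ} {f g : ι → ℂ}

theorem Og.congr (h : Og r k f) (e : ∀ i, g i = f i) : Og r k g := by
  obtain ⟨C, h0, h⟩ := h
  exact ⟨C, h0, fun i => by rw [e i]; exact h i⟩

theorem Og.add (hf : Og r k f) (hg : Og r k g) : Og r k (fun i => f i + g i) := by
  obtain ⟨C, h0, h⟩ := hf
  obtain ⟨D, h1, h'⟩ := hg
  refine ⟨C + D, add_nonneg h0 h1, fun i => ?_⟩
  calc ‖f i + g i‖ ≤ ‖f i‖ + ‖g i‖ := norm_add_le _ _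
    _ ≤ C * r i ^ k + D * r i ^ k := add_le_add (h i) (h' i)
    _ = (C + D) * r i ^ k := by ring

theorem Og.neg (hf : Og r k f) : Og r k (fun i => -f i) := by
  obtain ⟨C, h0, h⟩ := hf
  exact ⟨C, h0, fun i => by rw [norm_neg]; exact h i⟩

theorem Og.sub (hf : Og r k f) (hg : Og r k g) : Og r k (fun i => f i - g i) :=
  (hf.add hg.neg).congr fun i => by ring

theorem Og.mul (hf : Og r k f) (hg : Og r l g) : Og r (k + l) (fun i => f i * g i) := by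
  obtain ⟨C, h0, h⟩ := hf
  obtain ⟨D, h1, h'⟩ := hg
  refine ⟨C * D, mul_nonneg h0 h1, fun i => ?_⟩
  calc ‖f i * g i‖ = ‖f i‖ * ‖g i‖ := norm_mul _ _
    _ ≤ (C * r i ^ k) * (D * r i ^ l) :=
        mul_le_mul (h i) (h' i) (norm_nonneg _) ((norm_nonneg _).trans (h i))
    _ = C * D * r i ^ (k + l) := by ring

theorem Og.const (r : ι → ℝ) (c : ℂ) : Og r 0 (fun _ => c) :=
  ⟨‖c‖, norm_nonneg _, fun i => by simp⟩

theorem Og.zero (r : ι → ℝ) (k : ℕ) : Og r k (fun _ => 0) :=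
  ⟨0, le_rfl, fun i => by simp⟩

theorem Og.cmul (c : ℂ) (hf : Og r k f) : Og r k (fun i => c * f i) := by
  have := (Og.const r c).mul hf
  rwa [zero_add] at this

theorem Og.mono (hr : ∀ i, 0 ≤ r i ∧ r i ≤ 1) (hkl : k ≤ l) (hf : Og r l f) : Og r k f := by
  obtain ⟨C, h0, h⟩ := hf
  exact ⟨C, h0, fun i => (h i).trans
    (mul_le_mul_of_nonneg_left (pow_le_pow_of_le_one (hr i).1 (hr i).2 hkl) h0)⟩

theorem Og.of_le (h : ∀ i, ‖f i‖ ≤ r i ^ k) : Og r k f :=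
  ⟨1, zero_le_one, fun i => by rw [one_mul]; exact h i⟩

theorem Og.inv_one_sub {q : ℝ} (hq : q < 1) (h : ∀ i, ‖f i‖ ≤ q) :
    Og r 0 (fun i => (1 - f i)⁻¹) := by
  refine ⟨(1 - q)⁻¹, inv_nonneg.2 (by linarith), fun i => ?_⟩
  rw [pow_zero, mul_one, norm_inv]
  refine inv_anti₀ (by linarith) ?_
  have := norm_sub_norm_le (1 : ℂ) (f i)
  rw [norm_one] at this
  linarith [h i]

end og

theorem one_sub_ne {x : ℂ} {q : ℝ} (hq : q < 1) (h : ‖x‖ ≤ q) : 1 - x ≠ 0 := by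
  intro e
  have : x = 1 := by linear_combination -e
  rw [this, norm_one] at h
  linarith

/-- `A = 1 + a + b + O(r^3)` with `a = O(r)`, `b = O(r^2)`. -/
def Jet {ι : Type} (r : ι → ℝ) (A a b : ι → ℂ) : Prop :=
  Og r 1 a ∧ Og r 2 b ∧ Og r 3 (fun i => A i - 1 - a i - b i)

section jet
variable {ι : Type} {r : ι → ℝ} {A B a b c d : ι → ℂ}

theorem Jet.congr (h : Jet r A a b) {A' a' b' : ι → ℂ} (e0 : ∀ i, A' i = A i)
    (e1 : ∀ i, a' i = a i) (e2 : ∀ i, b' i = b i) : Jet r A' a' b' :=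
  ⟨h.1.congr e1, h.2.1.congr e2, h.2.2.congr fun i => by rw [e0, e1, e2]⟩

theorem Jet.mul (hr : ∀ i, 0 ≤ r i ∧ r i ≤ 1) (h : Jet r A a b) (h' : Jet r B c d) :
    Jet r (fun i => A i * B i) (fun i => a i + c i) (fun i => b i + d i + a i * c i) := by
  obtain ⟨ha, hb, he⟩ := h
  obtain ⟨hc, hd, hf⟩ := h'
  refine ⟨ha.add hc, (hb.add hd).add (ha.mul hc), ?_⟩
  have hB : Og r 0 B :=
    ((((Og.const r 1).add (hc.mono hr (by norm_num))).add (hd.mono hr (by norm_num))).add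
      (hf.mono hr (by norm_num))).congr fun i => by ring
  have hT : Og r 0 (fun i => 1 + a i + b i) :=
    ((Og.const r 1).add (ha.mono hr (by norm_num))).add (hb.mono hr (by norm_num))
  have h1 : Og r 3 _ := he.mul hB
  have h2 : Og r 3 _ := hT.mul hf
  have h3 : Og r 3 _ := ha.mul hd
  have h4 : Og r 3 _ := hb.mul hc
  have h5 : Og r 3 _ := (hb.mul hd).mono hr (by norm_num)
  exact ((((h1.add h2).add h3).add h4).add h5).congr fun i => by ring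

theorem Jet.bdd (hr : ∀ i, 0 ≤ r i ∧ r i ≤ 1) (h : Jet r A a b) : Og r 0 A :=
  ((((Og.const r 1).add (h.1.mono hr (by norm_num))).add (h.2.1.mono hr (by norm_num))).add
    (h.2.2.mono hr (by norm_num))).congr fun i => by ring

theorem Jet.lin (ha : Og r 1 a) : Jet r (fun i => 1 + a i) a (fun _ => 0) :=
  ⟨ha, Og.zero r 2, (Og.zero r 3).congr fun i => by ring⟩

theorem Jet.quad (hb : Og r 2 b) : Jet r (fun i => 1 + b i) (fun _ => 0) b :=
  ⟨Og.zero r 1, hb, (Og.zero r 3).congr fun i => by ring⟩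

theorem Jet.inv1 {q : ℝ} (hq : q < 1) (ha : Og r 1 a) (h : ∀ i, ‖a i‖ ≤ q) :
    Jet r (fun i => (1 - a i)⁻¹) a (fun i => a i * a i) := by
  refine ⟨ha, ha.mul ha, ?_⟩
  have h1 : Og r 3 _ := ((ha.mul ha).mul ha).mul (Og.inv_one_sub hq h)
  refine h1.congr fun i => ?_
  have := one_sub_ne hq (h i)
  field_simp
  ring

theorem Jet.inv2 (hr : ∀ i, 0 ≤ r i ∧ r i ≤ 1) {q : ℝ} (hq : q < 1) (hb : Og r 2 b)
    (h : ∀ i, ‖b i‖ ≤ q) : Jet r (fun i => (1 - b i)⁻¹) (fun _ => 0) b := by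
  refine ⟨Og.zero r 1, hb, ?_⟩
  have h1 : Og r 3 _ := ((hb.mul hb).mul (Og.inv_one_sub hq h)).mono hr (by norm_num)
  refine h1.congr fun i => ?_
  have := one_sub_ne hq (h i)
  field_simp
  ring

theorem Jet.exp (hr : ∀ i, 0 ≤ r i ∧ r i ≤ 1) (ha : Og r 1 a) (hb : Og r 2 b) :
    Jet r (fun i => cexp (a i + b i)) a (fun i => b i + a i * a i / 2) := by
  have hs : Og r 1 (fun i => a i + b i) := ha.add (hb.mono hr (by norm_num))
  refine ⟨ha, hb.add (((ha.mul ha).cmul (1 / 2)).congr fun i => by ring), ?_⟩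
  have h1 : Og r 3 (fun i => cexp (a i + b i) -
      ∑ m ∈ Finset.range 3, (a i + b i) ^ m / (m.factorial : ℂ)) := by
    obtain ⟨C, h0, h⟩ := hs
    refine ⟨C ^ 3 * Real.exp C, by positivity, fun i => ?_⟩
    have hi : ‖a i + b i‖ ≤ C * r i := by simpa using h i
    have hC : ‖a i + b i‖ ≤ C := hi.trans (mul_le_of_le_one_right h0 (hr i).2)
    calc _ ≤ ‖a i + b i‖ ^ 3 * Real.exp ‖a i + b i‖ :=
          Complex.norm_exp_sub_sum_le_norm_mul_exp _ _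
      _ ≤ (C * r i) ^ 3 * Real.exp C := by
          have := (norm_nonneg _).trans hi
          gcongr
      _ = C ^ 3 * Real.exp C * r i ^ 3 := by ring
  have h2 : Og r 3 _ := ha.mul hb
  have h3 : Og r 3 _ := ((hb.mul hb).cmul (1 / 2)).mono hr (by norm_num)
  refine ((h1.add h2).add h3).congr fun i => ?_
  simp [Finset.sum_range_succ, Nat.factorial]
  ring

/-- the jet of `((1 - x)^2 (1 - y)^2)⁻¹`. -/
theorem jet_F (hr : ∀ i, 0 ≤ r i ∧ r i ≤ 1) {q : ℝ} (hq : q < 1) {x y : ι → ℂ}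
    (hx : Og r 1 x) (hy : Og r 1 y) (hx' : ∀ i, ‖x i‖ ≤ q) (hy' : ∀ i, ‖y i‖ ≤ q) :
    Jet r (fun i => ((1 - x i) ^ 2 * (1 - y i) ^ 2)⁻¹) (fun i => 2 * x i + 2 * y i)
      (fun i => 3 * x i ^ 2 + 4 * x i * y i + 3 * y i ^ 2) := by
  have j1 := Jet.inv1 hq hx hx'
  have j2 := Jet.inv1 hq hy hy'
  exact ((j1.mul hr j1).mul hr (j2.mul hr j2)).congr
    (fun i => by rw [mul_inv, sq, sq, mul_inv, mul_inv]) (fun i => by ring) (fun i => by ring)

/-- the jet of `((1 - a)^3 (1 - b)^4 (1 - c)^3)⁻¹` for quadratic `a b c`. -/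
theorem jet_Z (hr : ∀ i, 0 ≤ r i ∧ r i ≤ 1) {q : ℝ} (hq : q < 1)
    (ha : Og r 2 a) (hb : Og r 2 b) (hc : Og r 2 c) (ha' : ∀ i, ‖a i‖ ≤ q)
    (hb' : ∀ i, ‖b i‖ ≤ q) (hc' : ∀ i, ‖c i‖ ≤ q) :
    Jet r (fun i => ((1 - a i) ^ 3 * (1 - b i) ^ 4 * (1 - c i) ^ 3)⁻¹) (fun _ => 0)
      (fun i => 3 * a i + 4 * b i + 3 * c i) := by
  have j1 := Jet.inv2 hr hq ha ha'
  have j2 := Jet.inv2 hr hq hb hb'
  have j3 := Jet.inv2 hr hq hc hc'
  exact ((((j1.mul hr j1).mul hr j1).mul hr (((j2.mul hr j2).mul hr j2).mul hr j2)).mul hr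
    ((j3.mul hr j3).mul hr j3)).congr
    (fun i => by rw [mul_inv, mul_inv, ← inv_pow, ← inv_pow, ← inv_pow]; ring)
    (fun i => by ring) (fun i => by ring)

end jet

/-- parameters of the unramified local factor. -/
structure LU (q : ℝ) where
  r : ℝ
  x : ℂ
  y : ℂ
  u : ℂ
  v : ℂ
  h0 : 0 ≤ r
  h1 : r ≤ q
  hx : ‖x‖ ≤ r
  hy : ‖y‖ ≤ r
  hv : ‖v‖ ≤ r
  hux : ‖u * x‖ ≤ r
  huy : ‖u * y‖ ≤ r
  huv : ‖u * v‖ ≤ r ^ 2

/-- LOC, unramified case, free variables. -/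
theorem loc_unram_abs {q : ℝ} (hq : q < 1) : ∃ C : ℝ, 0 ≤ C ∧ ∀ (r : ℝ) (x y u v : ℂ),
    0 ≤ r → r ≤ q → ‖x‖ ≤ r → ‖y‖ ≤ r → ‖v‖ ≤ r → ‖u * x‖ ≤ r → ‖u * y‖ ≤ r →
    ‖u * v‖ ≤ r ^ 2 →
    ‖(u * v + ((1 - u * v) + (u - v)) * ((1 - x) ^ 2 * (1 - y) ^ 2)⁻¹ / 2
        + ((1 - u * v) - (u - v)) * ((1 + x) ^ 2 * (1 + y) ^ 2)⁻¹ / 2)
      * ((1 - u * x) ^ 2 * (1 - u * y) ^ 2 /
        ((1 - (u * x) * (u * x)) ^ 3 * (1 - (u * x) * (u * y)) ^ 4 * (1 - (u * y) * (u * y)) ^ 3))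
      - 1 - (3 * x ^ 2 + 4 * x * y + 3 * y ^ 2) + 2 * v * (x + y)‖ ≤ C * r ^ 3 := by
  let r : LU q → ℝ := fun i => i.r
  have hr : ∀ i, 0 ≤ r i ∧ r i ≤ 1 := fun i => ⟨i.h0, i.h1.trans hq.le⟩
  have o1 : ∀ {f : LU q → ℂ}, (∀ i, ‖f i‖ ≤ i.r) → Og r 1 f :=
    fun h => Og.of_le fun i => by rw [pow_one]; exact h i
  have hx : Og r 1 (fun i => i.x) := o1 fun i => i.hx
  have hy : Og r 1 (fun i => i.y) := o1 fun i => i.hy
  have hv : Og r 1 (fun i => i.v) := o1 fun i => i.hv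
  have hux : Og r 1 (fun i => i.u * i.x) := o1 fun i => i.hux
  have huy : Og r 1 (fun i => i.u * i.y) := o1 fun i => i.huy
  have huv : Og r 2 (fun i => i.u * i.v) := Og.of_le fun i => i.huv
  have bx : ∀ i : LU q, ‖i.x‖ ≤ q := fun i => i.hx.trans i.h1
  have bY : ∀ i : LU q, ‖i.y‖ ≤ q := fun i => i.hy.trans i.h1
  have bx' : ∀ i : LU q, ‖-i.x‖ ≤ q := fun i => by rw [norm_neg]; exact bx i
  have bY' : ∀ i : LU q, ‖-i.y‖ ≤ q := fun i => by rw [norm_neg]; exact bY i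
  have bm : ∀ (i : LU q) (s t : ℂ), ‖s‖ ≤ i.r → ‖t‖ ≤ i.r → ‖s * t‖ ≤ q := by
    intro i s t hs ht
    rw [norm_mul]
    calc ‖s‖ * ‖t‖ ≤ i.r * 1 := mul_le_mul hs (ht.trans (hr i).2) (norm_nonneg _) i.h0
      _ ≤ q := by rw [mul_one]; exact i.h1
  have jp := jet_F hr hq hx hy bx bY
  have jm := jet_F hr hq hx.neg hy.neg bx' bY'
  have jz := jet_Z hr hq (hux.mul hux) (hux.mul huy) (huy.mul huy)
    (fun i => bm i _ _ i.hux i.hux) (fun i => bm i _ _ i.hux i.huy) (fun i => bm i _ _ i.huy i.huy)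
  have jn := (((Jet.lin hux.neg).mul hr (Jet.lin hux.neg)).mul hr
    ((Jet.lin huy.neg).mul hr (Jet.lin huy.neg))).mul hr jz
  have jw := ((Jet.quad (hx.mul hy)).mul hr jp).mul hr jm
  -- the local factor
  have hQ : Og r 2 (fun i => 3 * i.x ^ 2 + 4 * i.x * i.y + 3 * i.y ^ 2) := jp.2.1
  have hvS : Og r 2 (fun i => 2 * i.v * (i.x + i.y)) :=
    ((hv.mul (hx.add hy)).cmul 2).congr fun i => by ring
  have hxi : Og r 1 (fun i => 2 * (i.u * i.x) + 2 * (i.u * i.y)) := (hux.cmul 2).add (huy.cmul 2)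
  have hE : Og r 3 (fun i => (((1 - i.x) ^ 2 * (1 - i.y) ^ 2)⁻¹
      + ((1 + i.x) ^ 2 * (1 + i.y) ^ 2)⁻¹) / 2 - 1 - (3 * i.x ^ 2 + 4 * i.x * i.y + 3 * i.y ^ 2)) :=
    ((jp.2.2.add jm.2.2).cmul (1 / 2)).congr fun i => by
      simp only [sub_neg_eq_add]; ring
  have hW : Og r 2 (fun i => (1 + i.x * i.y) * ((1 - i.x) ^ 2 * (1 - i.y) ^ 2)⁻¹
      * ((1 + i.x) ^ 2 * (1 + i.y) ^ 2)⁻¹ - 1) :=
    (jw.2.1.add (jw.2.2.mono hr (by norm_num))).congr fun i => by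
      simp only [sub_neg_eq_add]; ring
  have jl : Jet r (fun i => i.u * i.v
      + ((1 - i.u * i.v) + (i.u - i.v)) * ((1 - i.x) ^ 2 * (1 - i.y) ^ 2)⁻¹ / 2
      + ((1 - i.u * i.v) - (i.u - i.v)) * ((1 + i.x) ^ 2 * (1 + i.y) ^ 2)⁻¹ / 2)
      (fun i => 2 * (i.u * i.x) + 2 * (i.u * i.y))
      (fun i => (3 * i.x ^ 2 + 4 * i.x * i.y + 3 * i.y ^ 2) - 2 * i.v * (i.x + i.y)) := by
    refine ⟨hxi, hQ.sub hvS, ?_⟩
    have t1 : Og r 3 _ := (huv.mul (hQ.add (hE.mono hr (by norm_num)))).mono hr (by norm_num)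
    have t2 : Og r 3 _ := (hxi.sub (hvS.mono hr (by norm_num))).mul hW
    refine ((hE.sub t1).add t2).congr fun i => ?_
    have n1 := one_sub_ne hq (bx i)
    have n2 := one_sub_ne hq (bY i)
    have n3 : 1 + i.x ≠ 0 := by simpa using one_sub_ne hq (bx' i)
    have n4 : 1 + i.y ≠ 0 := by simpa using one_sub_ne hq (bY' i)
    field_simp
    ring
  obtain ⟨C, hC0, hC⟩ := (jl.mul hr jn).2.2
  refine ⟨C, hC0, fun r x y u v h0 h1 hx hy hv hux huy huv => ?_⟩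
  have := hC ⟨r, x, y, u, v, h0, h1, hx, hy, hv, hux, huy, huv⟩
  refine le_of_eq_of_le (congrArg _ ?_) this
  simp only [div_eq_mul_inv]
  ring

/-- parameters of the ramified local factor. -/
structure LR (q : ℝ) where
  r : ℝ
  x : ℂ
  y : ℂ
  w : ℂ
  h0 : 0 ≤ r
  h1 : r ≤ q
  hx : ‖x‖ ≤ r
  hy : ‖y‖ ≤ r
  h11 : ‖w * x * x‖ ≤ r ^ 2
  h12 : ‖w * x * y‖ ≤ r ^ 2
  h22 : ‖w * y * y‖ ≤ r ^ 2

/-- LOC, ramified case, free variables. -/
theorem loc_ram_abs {q : ℝ} (hq : q < 1) : ∃ C : ℝ, 0 ≤ C ∧ ∀ (r : ℝ) (x y w : ℂ),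
    0 ≤ r → r ≤ q → ‖x‖ ≤ r → ‖y‖ ≤ r → ‖w * x * x‖ ≤ r ^ 2 → ‖w * x * y‖ ≤ r ^ 2 →
    ‖w * y * y‖ ≤ r ^ 2 →
    ‖(w + (1 - w) * ((1 - x) ^ 2 * (1 - y) ^ 2)⁻¹ / 2
        + (1 - w) * ((1 + x) ^ 2 * (1 + y) ^ 2)⁻¹ / 2)
      * ((1 - w * x * x) ^ 3 * (1 - w * x * y) ^ 4 * (1 - w * y * y) ^ 3)⁻¹
      - 1 - (3 * x ^ 2 + 4 * x * y + 3 * y ^ 2)‖ ≤ C * r ^ 3 := by
  let r : LR q → ℝ := fun i => i.r
  have hr : ∀ i, 0 ≤ r i ∧ r i ≤ 1 := fun i => ⟨i.h0, i.h1.trans hq.le⟩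
  have o1 : ∀ {f : LR q → ℂ}, (∀ i, ‖f i‖ ≤ i.r) → Og r 1 f :=
    fun h => Og.of_le fun i => by rw [pow_one]; exact h i
  have hx : Og r 1 (fun i => i.x) := o1 fun i => i.hx
  have hy : Og r 1 (fun i => i.y) := o1 fun i => i.hy
  have h11 : Og r 2 (fun i => i.w * i.x * i.x) := Og.of_le fun i => i.h11
  have h12 : Og r 2 (fun i => i.w * i.x * i.y) := Og.of_le fun i => i.h12
  have h22 : Og r 2 (fun i => i.w * i.y * i.y) := Og.of_le fun i => i.h22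
  have bx : ∀ i : LR q, ‖i.x‖ ≤ q := fun i => i.hx.trans i.h1
  have bY : ∀ i : LR q, ‖i.y‖ ≤ q := fun i => i.hy.trans i.h1
  have bx' : ∀ i : LR q, ‖-i.x‖ ≤ q := fun i => by rw [norm_neg]; exact bx i
  have bY' : ∀ i : LR q, ‖-i.y‖ ≤ q := fun i => by rw [norm_neg]; exact bY i
  have b2 : ∀ i : LR q, i.r ^ 2 ≤ q := fun i =>
    (pow_le_of_le_one i.h0 (hr i).2 two_ne_zero).trans i.h1
  have jp := jet_F hr hq hx hy bx bY
  have jm := jet_F hr hq hx.neg hy.neg bx' bY'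
  have jz := jet_Z hr hq h11 h12 h22 (fun i => i.h11.trans (b2 i)) (fun i => i.h12.trans (b2 i))
    (fun i => i.h22.trans (b2 i))
  have jw := jp.mul hr jm
  have hQ : Og r 2 (fun i => 3 * i.x ^ 2 + 4 * i.x * i.y + 3 * i.y ^ 2) := jp.2.1
  have hZ : Og r 2 (fun i => 3 * (i.w * i.x * i.x) + 4 * (i.w * i.x * i.y)
      + 3 * (i.w * i.y * i.y)) := jz.2.1
  have hE : Og r 3 (fun i => (((1 - i.x) ^ 2 * (1 - i.y) ^ 2)⁻¹
      + ((1 + i.x) ^ 2 * (1 + i.y) ^ 2)⁻¹) / 2 - 1 - (3 * i.x ^ 2 + 4 * i.x * i.y + 3 * i.y ^ 2)) :=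
    ((jp.2.2.add jm.2.2).cmul (1 / 2)).congr fun i => by
      simp only [sub_neg_eq_add]; ring
  have hW : Og r 1 (fun i => ((1 - i.x) ^ 2 * (1 - i.y) ^ 2)⁻¹
      * ((1 + i.x) ^ 2 * (1 + i.y) ^ 2)⁻¹ - 1) :=
    ((jw.2.1.mono hr (by norm_num)).add (jw.2.2.mono hr (by norm_num))).congr fun i => by
      simp only [sub_neg_eq_add]; ring
  have hW0 : Og r 0 (fun i => ((1 - i.x) ^ 2 * (1 - i.y) ^ 2)⁻¹
      * ((1 + i.x) ^ 2 * (1 + i.y) ^ 2)⁻¹) :=
    ((hW.mono hr (by norm_num)).add (Og.const r 1)).congr fun i => by ring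
  have hxx : Og r 1 _ := (hx.mul hx).mono hr (by norm_num)
  have hxy : Og r 1 _ := (hx.mul hy).mono hr (by norm_num)
  have hyy : Og r 1 _ := (hy.mul hy).mono hr (by norm_num)
  have hN : Og r 3 (fun i => -(i.w * i.x * i.x) * (i.x * i.x) - (i.w * i.y * i.y) * (i.y * i.y)
      - 3 * ((i.w * i.x * i.y) * (i.x * i.y)) + 2 * ((i.w * i.x * i.x) * (i.y * i.y) * (i.y * i.y))
      + 2 * ((i.w * i.y * i.y) * (i.x * i.x) * (i.x * i.x))
      - (i.w * i.x * i.y) * (i.x * i.y) * (i.x * i.y) * (i.x * i.y)) :=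
    (((((h11.neg.mul hxx).sub (h22.mul hyy)).sub ((h12.mul hxy).cmul 3)).add
      ((((h11.mul hyy).mul hyy).mono hr (by norm_num)).cmul 2)).add
      ((((h22.mul hxx).mul hxx).mono hr (by norm_num)).cmul 2)).sub
      ((((h12.mul hxy).mul hxy).mul hxy).mono hr (by norm_num))
  have jl : Jet r (fun i => i.w + (1 - i.w) * ((1 - i.x) ^ 2 * (1 - i.y) ^ 2)⁻¹ / 2
      + (1 - i.w) * ((1 + i.x) ^ 2 * (1 + i.y) ^ 2)⁻¹ / 2) (fun _ => 0)
      (fun i => (3 * i.x ^ 2 + 4 * i.x * i.y + 3 * i.y ^ 2) - (3 * (i.w * i.x * i.x)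
        + 4 * (i.w * i.x * i.y) + 3 * (i.w * i.y * i.y))) := by
    refine ⟨Og.zero r 1, hQ.sub hZ, ?_⟩
    have t1 : Og r 3 _ := hZ.mul hW
    have t2 : Og r 3 _ := hN.mul hW0
    refine ((hE.sub t1).sub t2).congr fun i => ?_
    have n1 := one_sub_ne hq (bx i)
    have n2 := one_sub_ne hq (bY i)
    have n3 : 1 + i.x ≠ 0 := by simpa using one_sub_ne hq (bx' i)
    have n4 : 1 + i.y ≠ 0 := by simpa using one_sub_ne hq (bY' i)
    field_simp
    ring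
  obtain ⟨C, hC0, hC⟩ := (jl.mul hr jz).2.2
  refine ⟨C, hC0, fun r x y w h0 h1 hx hy h11 h12 h22 => ?_⟩
  have := hC ⟨r, x, y, w, h0, h1, hx, hy, h11, h12, h22⟩
  refine le_of_eq_of_le (congrArg _ ?_) this
  ring

theorem norm_inv_one_sub_le {x : ℂ} {q : ℝ} (hq : q < 1) (h : ‖x‖ ≤ q) :
    ‖(1 - x)⁻¹‖ ≤ (1 - q)⁻¹ := by
  rw [norm_inv]
  refine inv_anti₀ (by linarith) ?_
  have := norm_sub_norm_le (1 : ℂ) x
  rw [norm_one] at this
  linarith

/-- norm of a power of a natural number `p ≥ 1`. -/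
theorem norm_cp {p : ℕ} (hp : 0 < p) (s : ℂ) : ‖(p : ℂ) ^ s‖ = (p : ℝ) ^ s.re :=
  Complex.norm_natCast_cpow_of_pos hp s

theorem norm_cp_le {p : ℕ} (hp : 0 < p) {s : ℂ} {a : ℝ} (h : s.re ≤ a) :
    ‖(p : ℂ) ^ s‖ ≤ (p : ℝ) ^ a := by
  rw [norm_cp hp]
  exact Real.rpow_le_rpow_of_exponent_le (by exact_mod_cast hp) h

theorem cp_add {p : ℕ} (hp : 0 < p) (s t : ℂ) : (p : ℂ) ^ s * (p : ℂ) ^ t = (p : ℂ) ^ (s + t) :=
  (Complex.cpow_add _ _ (by exact_mod_cast hp.ne')).symm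

theorem three_le_of {p : ℕ} (hp : p.Prime) (h2 : p ≠ 2) : (3 : ℝ) ≤ p := by
  have := hp.two_le
  exact_mod_cast (by omega : 3 ≤ p)

theorem rpow_neg_le {p : ℕ} (h3 : (3 : ℝ) ≤ p) {a : ℝ} (ha : 1 / 3 ≤ a) :
    (p : ℝ) ^ (-a) ≤ 7 / 10 := by
  have h1 : (p : ℝ) ^ (-a) ≤ (p : ℝ) ^ (-(1 / 3) : ℝ) :=
    Real.rpow_le_rpow_of_exponent_le (by linarith) (by linarith)
  have h2 : (p : ℝ) ^ (-(1 / 3) : ℝ) ≤ (3 : ℝ) ^ (-(1 / 3) : ℝ) :=
    Real.rpow_le_rpow_of_nonpos (by norm_num) h3 (by norm_num)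
  have h4 : (3 : ℝ) ^ (-(1 / 3) : ℝ) ≤ 7 / 10 := by
    refine le_of_pow_le_pow_left₀ (n := 3) (by norm_num) (by norm_num) ?_
    rw [← Real.rpow_natCast, ← Real.rpow_mul (by norm_num)]
    norm_num
  linarith

end Pool.Agent.QM
end

-- part Pool.Agent.P.MP_ea46f5_nt.QM.FPH2
section

namespace Pool.Agent.QM

open Complex MeasureTheory Finset
open scoped Real ComplexConjugate

open Filter Topology Metric

/-- Holomorphy of an integral over a finite measure with a locally bounded integrand. -/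
theorem ph2_dom {T : Type} [MeasurableSpace T] {μ : Measure T} [IsFiniteMeasure μ] {U : Set ℂ}
    (hU : IsOpen U) {φ : ℂ → T → ℂ} (hm : ∀ z ∈ U, AEStronglyMeasurable (φ z) μ)
    (hd : ∀ t, DifferentiableOn ℂ (fun z => φ z t) U)
    (hb : ∀ z r, closedBall z r ⊆ U → ∃ M : ℝ, ∀ t, ∀ u ∈ closedBall z r, ‖φ u t‖ ≤ M) :
    DifferentiableOn ℂ (fun z => ∫ t, φ z t ∂μ) U := by
  classical
  intro z hz
  obtain ⟨r, hr, hsub⟩ := nhds_basis_closedBall.mem_iff.1 (hU.mem_nhds hz)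
  obtain ⟨M, hM⟩ := hb z r hsub
  have hr2 : 0 < r / 2 := by positivity
  have hin : ∀ u ∈ ball z (r / 2), closedBall u (r / 2) ⊆ closedBall z r := fun u hu =>
    closedBall_subset_closedBall' (by have := mem_ball.1 hu; linarith)
  have hat : ∀ t, ∀ u ∈ U, HasDerivAt (fun z => φ z t) (deriv (fun z => φ z t) u) u :=
    fun t u hu => ((hd t).differentiableAt (hU.mem_nhds hu)).hasDerivAt
  have hm' : AEStronglyMeasurable (fun t => deriv (fun z => φ z t) z) μ := by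
    refine aestronglyMeasurable_of_tendsto_ae (𝓝[≠] z)
      (f := fun u t => if u ∈ U then (u - z)⁻¹ * (φ u t - φ z t) else 0) (fun u => ?_)
      (Eventually.of_forall fun t => ?_)
    · by_cases hu : u ∈ U
      · simp only [hu, if_true]
        exact ((hm u hu).sub (hm z hz)).const_mul _
      · simp only [hu, if_false]
        exact aestronglyMeasurable_const
    · refine (hat t z hz).tendsto_slope.congr' ?_
      filter_upwards [mem_nhdsWithin_of_mem_nhds (hU.mem_nhds hz)] with u hu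
      simp [hu, slope]
  refine (hasDerivAt_integral_of_dominated_loc_of_deriv_le (μ := μ) (F := φ)
    (F' := fun u t => deriv (fun z => φ z t) u) (bound := fun _ => M / (r / 2))
    (ball_mem_nhds z hr2) ((hU.eventually_mem hz).mono hm)
    (Integrable.of_bound (hm z hz) M
      (Eventually.of_forall fun t => hM t z (mem_closedBall_self hr.le)))
    hm' (Eventually.of_forall fun t u hu => ?_) (integrable_const _)
    (Eventually.of_forall fun t u hu =>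
      hat t u (hsub (hin u hu (mem_closedBall_self hr2.le))))).2.differentiableAt.differentiableWithinAt
  exact norm_deriv_le_of_forall_mem_sphere_norm_le hr2
    ((hd t).diffContOnCl_ball ((hin u hu).trans hsub))
    fun x hx => hM t x (hin u hu (sphere_subset_closedBall hx))

theorem ph2_mem (z : ℂ) {ρ : ℝ} (hρ : 0 < ρ) (θ : ℝ) : z + ρ * cexp (θ * I) ∈ sphere z ρ := by
  rw [mem_sphere_iff_norm, add_sub_cancel_left, norm_mul, norm_exp_ofReal_mul_I, mul_one,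
    norm_real, Real.norm_of_nonneg hρ.le]

theorem ph2_norm {ρ : ℝ} (hρ : 0 < ρ) (θ : ℝ) : ‖(ρ * cexp (θ * I) : ℂ)‖ = ρ := by
  rw [norm_mul, norm_exp_ofReal_mul_I, mul_one, norm_real, Real.norm_of_nonneg hρ.le]

theorem pPH2 : PH2 := by
  refine ⟨fun U ρ g hU hρ hc hd => ?_, fun z ρ M f hρ hf => ?_, fun z ρ f g hρ he hg => ?_⟩
  · set μ : Measure ℝ := volume.restrict (Set.Ioc 0 (2 * π)) with hμ
    set φ : ℂ → ℝ × ℝ → ℂ := fun z t => (ρ * cexp (t.1 * I)) * ((ρ * cexp (t.2 * I)) *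
      g z (0 + ρ * cexp (t.1 * I)) (0 + ρ * cexp (t.2 * I))) with hφ
    have hm : ∀ z ∈ U, AEStronglyMeasurable (φ z) (μ.prod μ) := by
      intro z hz
      have := ContinuousOn.comp_continuous (g := fun x : ℂ × ℂ × ℂ => g x.1 x.2.1 x.2.2)
        (f := fun t : ℝ × ℝ => (z, (0 + ρ * cexp (t.1 * I) : ℂ), (0 + ρ * cexp (t.2 * I) : ℂ)))
        hc (by fun_prop) fun t => ⟨hz, ph2_mem 0 hρ _, ph2_mem 0 hρ _⟩
      exact (Continuous.mul (by fun_prop) (Continuous.mul (by fun_prop) this)).aestronglyMeasurable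
    have hb : ∀ z r, closedBall z r ⊆ U → ∃ M : ℝ, ∀ t, ∀ u ∈ closedBall z r, ‖φ u t‖ ≤ M := by
      intro z r hsub
      obtain ⟨M, hM⟩ := ((isCompact_closedBall z r).prod
        ((isCompact_sphere (0 : ℂ) ρ).prod (isCompact_sphere (0 : ℂ) ρ))).exists_bound_of_continuousOn
        (hc.mono (Set.prod_mono hsub subset_rfl))
      refine ⟨ρ * (ρ * M), fun t u hu => ?_⟩
      have := hM (u, 0 + ρ * cexp (t.1 * I), 0 + ρ * cexp (t.2 * I))
        ⟨hu, ph2_mem 0 hρ _, ph2_mem 0 hρ _⟩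
      simp only [hφ]
      rw [norm_mul, ph2_norm hρ, norm_mul, ph2_norm hρ]
      exact mul_le_mul_of_nonneg_left (mul_le_mul_of_nonneg_left this hρ.le) hρ.le
    refine (ph2_dom hU hm (fun t => ?_) hb).congr fun z hz => ?_
    · exact ((hd _ (ph2_mem 0 hρ t.1) _ (ph2_mem 0 hρ t.2)).const_mul _).const_mul _
    · obtain ⟨M, hM⟩ := hb z 0 (by simpa using hz)
      rw [integral_prod _ (Integrable.of_bound (hm z hz) M
        (Eventually.of_forall fun t => hM t z (mem_closedBall_self le_rfl)))]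
      unfold Oc
      have h2 : (0 : ℝ) ≤ 2 * π := by positivity
      simp only [intervalIntegral.integral_of_le h2, hφ, integral_const_mul, hμ]
  · have := intervalIntegral.norm_integral_le_of_norm_le_const (a := 0) (b := 2 * π) (C := ρ * M)
      (f := fun θ : ℝ => (ρ * cexp (θ * I)) * f (z + ρ * cexp (θ * I))) fun θ _ => by
        rw [norm_mul, ph2_norm hρ]
        exact mul_le_mul_of_nonneg_left (hf _ (ph2_mem z hρ θ)) hρ.le
    rw [sub_zero, abs_of_pos (by positivity)] at this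
    unfold Oc
    linarith
  · have h1 : I * Oc z ρ f = ∮ s in C(z, ρ), g s := by
      unfold Oc circleIntegral
      rw [← intervalIntegral.integral_const_mul]
      refine intervalIntegral.integral_congr fun θ _ => ?_
      simp only [deriv_circleMap, circleMap, smul_eq_mul, he _ (ph2_mem z hρ θ)]
      ring
    rw [(hg.diffContOnCl_ball subset_rfl).circleIntegral_eq_zero hρ.le] at h1
    exact (mul_eq_zero.1 h1).resolve_left I_ne_zero

end Pool.Agent.QM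
end

-- part Pool.Agent.P.MP_ea46f5_nt.QM.FPLa
section

/-! Sums over primes used by the twisted mean value theorem. -/

namespace Pool.Agent.QM

open Finset Real

/-- Primes in a range: the sum of reciprocals. -/
theorem pr_primes_block (S : Finset ℕ) {a b : ℝ} (ha : 0 < a) (hab : a ≤ b)
    (hS : ∀ r ∈ S, r.Prime ∧ a ≤ log r ∧ log r ≤ b) :
    ∑ r ∈ S, 1 / (r : ℝ) ≤ log (b / a) + 11 := by
  have hρ : 1 ≤ b / a := by rw [le_div_iff₀ ha]; linarith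
  set ρ := b / a with hρd
  have hb : b = ρ * a := by rw [hρd]; field_simp
  have hρ0 := log_nonneg hρ
  rcases S.eq_empty_or_nonempty with rfl | ⟨r₀, h₀⟩
  · rw [sum_empty]
    linarith
  have hpos : ∀ r ∈ S, (0 : ℝ) < r := fun r hr => by exact_mod_cast (hS r hr).1.pos
  set z := exp b with hzd
  set w := exp a with hwd
  have hz' : ∀ r ∈ S, (r : ℝ) ≤ z := fun r hr => by
    rw [hzd, ← log_le_iff_le_exp (hpos r hr)]; exact (hS r hr).2.2
  have hw' : ∀ r ∈ S, w ≤ (r : ℝ) := fun r hr => by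
    rw [hwd, ← le_log_iff_exp_le (hpos r hr)]; exact (hS r hr).2.1
  have hw : 1 ≤ w := one_le_exp ha.le
  have hz : log z ≤ ρ * log w := by rw [hzd, hwd, log_exp, log_exp, hb]
  have a1 := (hS r₀ h₀).1
  have hZ : ∀ r ∈ S, r ≤ ⌊z⌋₊ := fun r hr => Nat.le_floor (hz' r hr)
  have hZ2 : 2 ≤ ⌊z⌋₊ := a1.two_le.trans (hZ r₀ h₀)
  have hZ2' : (2 : ℝ) ≤ ⌊z⌋₊ := by exact_mod_cast hZ2
  have hz0 : 0 ≤ z := (exp_pos _).le
  have hl := Pool.Agent.Lib.Sieve.one_half_le_log hZ2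
  have h1 : log ⌊z⌋₊ ≤ log z := log_le_log (by linarith) (Nat.floor_le hz0)
  have h2 := Pool.Agent.Lib.Sieve.sum_inv_primes_le hZ2
  have l2 := log_two_lt_d9
  by_cases hw2 : w < 2
  · have h3 : log w ≤ 1 := (log_le_log (by linarith) hw2.le).trans (by linarith)
    have h4 : log ⌊z⌋₊ ≤ ρ := by nlinarith
    have h5 := log_le_log (by linarith) h4
    have h6 : ∑ r ∈ S, 1 / (r : ℝ) ≤ ∑ r ∈ Nat.primesLE ⌊z⌋₊, 1 / (r : ℝ) :=
      sum_le_sum_of_subset_of_nonneg (fun r hr => Nat.mem_primesLE.2 ⟨hZ r hr, (hS r hr).1⟩)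
        fun r _ _ => by positivity
    linarith
  · have hw2' : 2 ≤ w := not_lt.1 hw2
    have hW2 : 2 ≤ ⌊w⌋₊ := Nat.le_floor (by exact_mod_cast hw2')
    have hW2' : (2 : ℝ) ≤ ⌊w⌋₊ := by exact_mod_cast hW2
    have hWw : (⌊w⌋₊ : ℝ) ≤ w := Nat.floor_le (by linarith)
    have hWZ : ⌊w⌋₊ ≤ ⌊z⌋₊ := Nat.floor_mono ((hw' r₀ h₀).trans (hz' r₀ h₀))
    have hlW := Pool.Agent.Lib.Sieve.one_half_le_log hW2
    have h3 := Pool.Agent.Lib.Sieve.le_sum_inv_primes hW2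
    have h4 : log w ≤ 2 * log ⌊w⌋₊ := by
      have h5 := Nat.lt_floor_add_one w
      have h6 := log_le_log (by linarith) (show w ≤ (⌊w⌋₊ : ℝ) ^ 2 by nlinarith)
      rw [log_pow] at h6
      exact_mod_cast h6
    have h5 : log ⌊z⌋₊ ≤ ρ * (2 * log ⌊w⌋₊) :=
      h1.trans (hz.trans (mul_le_mul_of_nonneg_left h4 (by linarith)))
    have h6 := log_le_log (by linarith) h5
    rw [log_mul (by linarith) (by linarith), log_mul (by norm_num) (by linarith)] at h6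
    have hsub : Nat.primesLE ⌊w⌋₊ ⊆ Nat.primesLE ⌊z⌋₊ := fun r hr =>
      Nat.mem_primesLE.2 ⟨(Nat.mem_primesLE.1 hr).1.trans hWZ, (Nat.mem_primesLE.1 hr).2⟩
    have h7 := sum_sdiff (f := fun r : ℕ => 1 / (r : ℝ)) hsub
    have h8 : ∑ r ∈ S, 1 / (r : ℝ) ≤
        ∑ r ∈ insert ⌊w⌋₊ (Nat.primesLE ⌊z⌋₊ \ Nat.primesLE ⌊w⌋₊), 1 / (r : ℝ) := by
      refine sum_le_sum_of_subset_of_nonneg (fun r hr => ?_) fun r _ _ => by positivity
      have h9 : ⌊w⌋₊ ≤ r := by exact_mod_cast hWw.trans (hw' r hr)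
      rcases h9.eq_or_lt with h10 | h10
      · exact mem_insert.2 (Or.inl h10.symm)
      · exact mem_insert_of_mem (mem_sdiff.2 ⟨Nat.mem_primesLE.2 ⟨hZ r hr, (hS r hr).1⟩,
          fun h => absurd (Nat.mem_primesLE.1 h).1 (not_le.2 h10)⟩)
    have h9 : ∑ r ∈ insert ⌊w⌋₊ (Nat.primesLE ⌊z⌋₊ \ Nat.primesLE ⌊w⌋₊), 1 / (r : ℝ) ≤
        1 + ∑ r ∈ Nat.primesLE ⌊z⌋₊ \ Nat.primesLE ⌊w⌋₊, 1 / (r : ℝ) := by
      by_cases h : ⌊w⌋₊ ∈ Nat.primesLE ⌊z⌋₊ \ Nat.primesLE ⌊w⌋₊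
      · rw [insert_eq_of_mem h]
        linarith
      · rw [sum_insert h]
        have h10 : 1 / (⌊w⌋₊ : ℝ) ≤ 1 := by
          rw [div_le_one (by linarith)]
          linarith
        linarith
    linarith

/-- First Mertens bound for a finite set of primes below `exp b`. -/
theorem pr_primes_log_div (S : Finset ℕ) {b : ℝ} (hb : 0 ≤ b)
    (hS : ∀ r ∈ S, r.Prime ∧ log r ≤ b) : ∑ r ∈ S, log r / r ≤ b + log 4 := by
  have hz : 1 ≤ ⌊exp b⌋₊ := Nat.le_floor (by simpa using hb)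
  have h1 := Pool.Agent.Lib.Sieve.sum_log_div_le hz
  have hz' : (1 : ℝ) ≤ ⌊exp b⌋₊ := by exact_mod_cast hz
  have h2 : log ⌊exp b⌋₊ ≤ b := by
    rw [log_le_iff_le_exp (by linarith)]; exact Nat.floor_le (exp_pos _).le
  have h3 : ∑ r ∈ S, log r / r ≤ ∑ r ∈ Nat.primesLE ⌊exp b⌋₊, log r / (r : ℝ) := by
    refine sum_le_sum_of_subset_of_nonneg (fun r hr => Nat.mem_primesLE.2 ⟨?_, (hS r hr).1⟩)
      fun r _ _ => div_nonneg (log_natCast_nonneg r) (Nat.cast_nonneg r)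
    refine Nat.le_floor ?_
    have : (0 : ℝ) < r := by exact_mod_cast (hS r hr).1.pos
    rw [← log_le_iff_le_exp this]; exact (hS r hr).2
  linarith

/-- Second Mertens bound, upper side, for a finite set of primes below `exp b`. -/
theorem pr_primes_inv_le (S : Finset ℕ) {b : ℝ} (hb : 1 ≤ b)
    (hS : ∀ r ∈ S, r.Prime ∧ log r ≤ b) : ∑ r ∈ S, 1 / (r : ℝ) ≤ log b + 7 := by
  have he : (2 : ℝ) ≤ exp b := by linarith [add_one_le_exp b]
  have hz : 2 ≤ ⌊exp b⌋₊ := Nat.le_floor (by exact_mod_cast he)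
  have h1 := Pool.Agent.Lib.Sieve.sum_inv_primes_le hz
  have hl := Pool.Agent.Lib.Sieve.one_half_le_log hz
  have hz' : (2 : ℝ) ≤ ⌊exp b⌋₊ := by exact_mod_cast hz
  have h2 : log ⌊exp b⌋₊ ≤ b := by
    rw [log_le_iff_le_exp (by linarith)]; exact Nat.floor_le (exp_pos _).le
  have h4 := log_le_log (by linarith) h2
  have h3 : ∑ r ∈ S, 1 / (r : ℝ) ≤ ∑ r ∈ Nat.primesLE ⌊exp b⌋₊, 1 / (r : ℝ) := by
    refine sum_le_sum_of_subset_of_nonneg (fun r hr => Nat.mem_primesLE.2 ⟨?_, (hS r hr).1⟩)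
      fun r _ _ => by positivity
    refine Nat.le_floor ?_
    have : (0 : ℝ) < r := by exact_mod_cast (hS r hr).1.pos
    rw [← log_le_iff_le_exp this]; exact (hS r hr).2
  linarith

/-- Second Mertens bound, lower side, for a set holding all odd primes below `exp b`. -/
theorem pr_le_primes_inv (S : Finset ℕ) {b : ℝ} (hb : 1 ≤ b)
    (hS : ∀ r : ℕ, r.Prime → r ≠ 2 → log r ≤ b → r ∈ S) : log b - 5 ≤ ∑ r ∈ S, 1 / (r : ℝ) := by
  have he : (2 : ℝ) ≤ exp b := by linarith [add_one_le_exp b]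
  have hz : 2 ≤ ⌊exp b⌋₊ := Nat.le_floor (by exact_mod_cast he)
  have h1 := Pool.Agent.Lib.Sieve.le_sum_inv_primes hz
  have hl := Pool.Agent.Lib.Sieve.one_half_le_log hz
  have hz' : (2 : ℝ) ≤ ⌊exp b⌋₊ := by exact_mod_cast hz
  have h4 : b ≤ 2 * log ⌊exp b⌋₊ := by
    have h5 := Nat.lt_floor_add_one (exp b)
    have h6 := log_le_log (exp_pos b) (show exp b ≤ (⌊exp b⌋₊ : ℝ) ^ 2 by nlinarith)
    rw [log_pow, log_exp] at h6
    exact_mod_cast h6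
  have h6 := log_le_log (by linarith) h4
  rw [log_mul (by norm_num) (by linarith)] at h6
  have l2 := log_two_lt_d9
  have h3 : ∑ r ∈ Nat.primesLE ⌊exp b⌋₊, 1 / (r : ℝ) ≤ ∑ r ∈ insert 2 S, 1 / (r : ℝ) := by
    refine sum_le_sum_of_subset_of_nonneg (fun r hr => ?_) fun r _ _ => by positivity
    obtain ⟨h7, h8⟩ := Nat.mem_primesLE.1 hr
    by_cases h2 : r = 2
    · exact mem_insert.2 (Or.inl h2)
    · refine mem_insert_of_mem (hS r h8 h2 ?_)
      have : (0 : ℝ) < r := by exact_mod_cast h8.pos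
      rw [log_le_iff_le_exp this]
      exact le_trans (by exact_mod_cast h7) (Nat.floor_le (exp_pos _).le)
  have h9 : ∑ r ∈ insert 2 S, 1 / (r : ℝ) ≤ 1 + ∑ r ∈ S, 1 / (r : ℝ) := by
    by_cases h : 2 ∈ S
    · rw [insert_eq_of_mem h]
      linarith
    · rw [sum_insert h]
      norm_num
  linarith

/-- (PM) -/
theorem pr_PM (S : Finset ℕ) {lam τ : ℝ} (hl : 0 ≤ lam) (hτ : 0 ≤ τ)
    (hS : ∀ r ∈ S, r.Prime ∧ log r ≤ lam) :
    ∑ r ∈ S, min 1 (τ * log r) / r ≤ log (1 + lam * τ) + 15 := by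
  have hlt : 0 ≤ lam * τ := mul_nonneg hl hτ
  have hlog : 0 ≤ log (1 + lam * τ) := log_nonneg (by linarith)
  rcases hτ.eq_or_lt with rfl | hτ0
  · have : ∀ r ∈ S, min 1 (0 * log r) / (r : ℝ) = 0 := fun r _ => by simp
    rw [sum_congr rfl this, sum_const_zero]
    linarith
  rw [← sum_filter_add_sum_filter_not S (fun r : ℕ => 1 / τ ≤ log r)]
  have hi : 0 < 1 / τ := by positivity
  have h1 : ∑ r ∈ S.filter (fun r : ℕ => 1 / τ ≤ log r), min 1 (τ * log r) / (r : ℝ) ≤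
      log (1 + lam * τ) + 11 := by
    have h2 := pr_primes_block (S.filter (fun r : ℕ => 1 / τ ≤ log r)) hi
      (show 1 / τ ≤ 1 / τ + lam by linarith) (fun r hr => by
        obtain ⟨h3, h4⟩ := mem_filter.1 hr
        exact ⟨(hS r h3).1, h4, by linarith [(hS r h3).2]⟩)
    have h3 : (1 / τ + lam) / (1 / τ) = 1 + lam * τ := by field_simp
    rw [h3] at h2
    refine le_trans (sum_le_sum fun r _ => ?_) h2
    exact div_le_div_of_nonneg_right (min_le_left _ _) (Nat.cast_nonneg r)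
  have h2 : ∑ r ∈ S.filter (fun r : ℕ => ¬ 1 / τ ≤ log r), min 1 (τ * log r) / (r : ℝ) ≤ 4 := by
    have l2 := log_two_gt_d9
    have l2' := log_two_lt_d9
    by_cases h : τ ≤ 2
    · have h3 := pr_primes_log_div (S.filter (fun r : ℕ => ¬ 1 / τ ≤ log r)) hi.le (fun r hr => by
        obtain ⟨h3, h4⟩ := mem_filter.1 hr
        exact ⟨(hS r h3).1, (not_le.1 h4).le⟩)
      have h4 : log 4 = 2 * log 2 := by
        rw [show (4 : ℝ) = 2 ^ 2 by norm_num, log_pow]; norm_num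
      have h5 : ∑ r ∈ S.filter (fun r : ℕ => ¬ 1 / τ ≤ log r), min 1 (τ * log r) / (r : ℝ) ≤
          τ * ∑ r ∈ S.filter (fun r : ℕ => ¬ 1 / τ ≤ log r), log r / (r : ℝ) := by
        rw [mul_sum]
        refine sum_le_sum fun r _ => ?_
        rw [← mul_div_assoc]
        exact div_le_div_of_nonneg_right (min_le_right _ _) (Nat.cast_nonneg r)
      have h6 := mul_le_mul_of_nonneg_left h3 hτ
      have h7 : τ * (1 / τ + log 4) = 1 + τ * log 4 := by field_simp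
      nlinarith
    · have : S.filter (fun r : ℕ => ¬ 1 / τ ≤ log r) = ∅ := by
        refine filter_eq_empty_iff.2 fun r hr h4 => h4 ?_
        have h5 := Pool.Agent.Lib.Sieve.one_half_le_log (hS r hr).1.two_le
        have h6 : 1 / τ ≤ 1 / 2 := one_div_le_one_div_of_le (by norm_num) (not_le.1 h).le
        linarith
      rw [this, sum_empty]
      norm_num
  linarith

/-- (PL), finite form. -/
theorem pr_PL_fin {ε : ℝ} (h0 : 0 < ε) (h1 : ε ≤ 1) (S : Finset ℕ) (hS : ∀ r ∈ S, r.Prime) :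
    ∑ r ∈ S, log r * (r : ℝ) ^ (-(1 + ε)) ≤ 9 / ε := by
  have l2 := log_two_gt_d9
  have l2' := log_two_lt_d9
  have h4 : log 4 = 2 * log 2 := by
    rw [show (4 : ℝ) = 2 ^ 2 by norm_num, log_pow]; norm_num
  set q : ℝ := exp (-(ε * log 2)) with hq
  have hq0 : 0 < q := exp_pos _
  have hq1 : q * (1 + ε * log 2) ≤ 1 := by
    have h5 := add_one_le_exp (ε * log 2)
    have h6 : q * exp (ε * log 2) = 1 := by rw [hq, ← exp_add]; simp
    nlinarith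
  have hq2 : ε / 3 ≤ 1 - q := by
    have h5 : 0 < 1 + ε * log 2 := by positivity
    have h6 : (1 - ε / 3) * (1 + ε * log 2) ≥ 1 := by
      have : 0 ≤ ε * (log 2 - 1 / 3 - ε * log 2 / 3) := mul_nonneg h0.le (by nlinarith)
      nlinarith
    by_contra h7
    have h8 : 1 - ε / 3 < q := by linarith
    nlinarith
  have hq3 : q < 1 := by linarith
  rw [← sum_fiberwise_of_maps_to (g := fun r => Nat.log 2 r) (t := S.image (Nat.log 2))
    (fun r hr => mem_image_of_mem _ hr)]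
  have h5 : ∀ j ∈ S.image (Nat.log 2),
      ∑ r ∈ S.filter (fun r => Nat.log 2 r = j), log r * (r : ℝ) ^ (-(1 + ε)) ≤ 3 * q ^ j := by
    intro j _
    have h6 : ∀ r ∈ S.filter (fun r => Nat.log 2 r = j),
        log r * (r : ℝ) ^ (-(1 + ε)) ≤ log r * (q ^ j / 2 ^ j) := by
      intro r hr
      obtain ⟨h7, h8⟩ := mem_filter.1 hr
      refine mul_le_mul_of_nonneg_left ?_ (log_natCast_nonneg r)
      have h9 : 2 ^ j ≤ r := h8 ▸ Nat.pow_log_le_self 2 (hS r h7).ne_zero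
      have h10 : ((2 : ℝ) ^ j) ≤ r := by exact_mod_cast h9
      refine (rpow_le_rpow_of_nonpos (by positivity) h10 (by linarith)).trans (le_of_eq ?_)
      rw [rpow_def_of_pos (by positivity), log_pow, hq, ← exp_nat_mul, eq_div_iff (by positivity)]
      rw [show (2 : ℝ) ^ j = exp (j * log 2) by rw [exp_nat_mul, exp_log (by norm_num)], ← exp_add]
      congr 1; ring
    refine (sum_le_sum h6).trans ?_
    rw [← sum_mul]
    have h7 : ∑ r ∈ S.filter (fun r => Nat.log 2 r = j), log r ≤ log 4 * (2 ^ (j + 1) : ℕ) := by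
      refine le_trans ?_ (Chebyshev.theta_le_log4_mul_x (Nat.cast_nonneg _))
      rw [Chebyshev.theta_eq_sum_primesLE_log]
      refine sum_le_sum_of_subset_of_nonneg (fun r hr => ?_) fun r _ _ => log_natCast_nonneg r
      obtain ⟨h7, h8⟩ := mem_filter.1 hr
      exact Nat.mem_primesLE.2 ⟨(h8 ▸ Nat.lt_pow_succ_log_self (by norm_num) r).le, hS r h7⟩
    refine (mul_le_mul_of_nonneg_right h7 (by positivity)).trans ?_
    push_cast
    rw [show log 4 * 2 ^ (j + 1) * (q ^ j / 2 ^ j) = (2 * log 4) * q ^ j by field_simp; ring]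
    exact mul_le_mul_of_nonneg_right (by linarith) (by positivity)
  refine (sum_le_sum h5).trans ?_
  rw [← mul_sum]
  have h6 := (summable_geometric_of_lt_one hq0.le hq3).sum_le_tsum (S.image (Nat.log 2))
    (fun _ _ => by positivity)
  rw [tsum_geometric_of_lt_one hq0.le hq3] at h6
  have h7 : (1 - q)⁻¹ ≤ (ε / 3)⁻¹ := inv_anti₀ (by positivity) hq2
  have h8 : (ε / 3)⁻¹ = 3 / ε := by field_simp
  have h9 : 9 / ε = 3 * (3 / ε) := by ring
  linarith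

theorem pr_summable_primes_rpow {δ : ℝ} (h : 0 < δ) :
    Summable fun p : Nat.Primes => ((p : ℕ) : ℝ) ^ (-(1 + δ)) :=
  Nat.Primes.summable_rpow.2 (by linarith)

theorem pr_sum_primes_eq (f : ℕ → ℝ) (T : Finset Nat.Primes) :
    ∑ p ∈ T, f p = ∑ r ∈ T.image (fun p : Nat.Primes => (p : ℕ)), f r := by
  symm
  exact sum_image (fun a _ b _ h => Subtype.ext h)

theorem pr_PL_summable {ε : ℝ} (h0 : 0 < ε) (h1 : ε ≤ 1) :
    Summable fun p : Nat.Primes => log (p : ℕ) * ((p : ℕ) : ℝ) ^ (-(1 + ε)) := by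
  refine summable_of_sum_le (c := 9 / ε)
    (fun p => mul_nonneg (log_natCast_nonneg _) (by positivity)) fun T => ?_
  rw [pr_sum_primes_eq (fun r => log r * (r : ℝ) ^ (-(1 + ε)))]
  refine pr_PL_fin h0 h1 _ fun r hr => ?_
  obtain ⟨p, _, rfl⟩ := mem_image.1 hr
  exact p.2

/-- (PL) -/
theorem pr_PL {ε : ℝ} (h0 : 0 < ε) (h1 : ε ≤ 1) :
    ∑' p : Nat.Primes, log (p : ℕ) * ((p : ℕ) : ℝ) ^ (-(1 + ε)) ≤ 9 / ε := by
  refine (pr_PL_summable h0 h1).tsum_le_of_sum_le fun T => ?_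
  rw [pr_sum_primes_eq (fun r => log r * (r : ℝ) ^ (-(1 + ε)))]
  refine pr_PL_fin h0 h1 _ fun r hr => ?_
  obtain ⟨p, _, rfl⟩ := mem_image.1 hr
  exact p.2

theorem pr_norm_prime_cpow (p : Nat.Primes) (s : ℂ) :
    ‖((p : ℕ) : ℂ) ^ (-(1 + s))‖ = ((p : ℕ) : ℝ) ^ (-(1 + s.re)) := by
  rw [Complex.norm_natCast_cpow_of_pos p.2.pos]; simp

theorem pr_summable_norm_primes_cpow {s : ℂ} (h : 0 < s.re) :
    Summable fun p : Nat.Primes => ‖((p : ℕ) : ℂ) ^ (-(1 + s))‖ := by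
  simp only [pr_norm_prime_cpow]; exact pr_summable_primes_rpow h

theorem pr_summable_primes_cpow {s : ℂ} (h : 0 < s.re) :
    Summable fun p : Nat.Primes => ((p : ℕ) : ℂ) ^ (-(1 + s)) :=
  (pr_summable_norm_primes_cpow h).of_norm

theorem pr_prime_rpow_le_inv (p : Nat.Primes) {δ : ℝ} (h : 0 ≤ δ) :
    ((p : ℕ) : ℝ) ^ (-(1 + δ)) ≤ 1 / ((p : ℕ) : ℝ) := by
  have h1 : (1 : ℝ) ≤ (p : ℕ) := by exact_mod_cast p.2.one_le
  rw [one_div, ← rpow_neg_one]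
  exact rpow_le_rpow_of_exponent_le h1 (by linarith)

theorem pr_summable_primes_inv_sq : Summable fun p : Nat.Primes => (1 / ((p : ℕ) : ℝ)) ^ 2 := by
  refine (Nat.Primes.summable_rpow.2 (show (-2 : ℝ) < -1 by norm_num)).congr fun p => ?_
  rw [rpow_neg (Nat.cast_nonneg _), one_div, inv_pow]
  norm_num

theorem pr_tsum_primes_inv_sq_le : ∑' p : Nat.Primes, (1 / ((p : ℕ) : ℝ)) ^ 2 ≤ 1 := by
  refine pr_summable_primes_inv_sq.tsum_le_of_sum_le fun T => ?_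
  rw [pr_sum_primes_eq (fun r => (1 / (r : ℝ)) ^ 2)]
  refine Pool.Agent.Lib.Sieve.sum_inv_sq_primes_le _ fun r hr => ?_
  obtain ⟨p, _, rfl⟩ := mem_image.1 hr
  exact p.2

/-- The prime sum and the logarithm of zeta differ by at most one. -/
theorem pr_abs_log_zeta_sub {s : ℂ} (h : 0 < s.re) :
    |log ‖riemannZeta (1 + s)‖ - (∑' p : Nat.Primes, ((p : ℕ) : ℂ) ^ (-(1 + s))).re| ≤ 1 := by
  have h1 := riemannZeta_eulerProduct_exp_log (s := 1 + s) (by simpa using h)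
  have hb : ∀ p : Nat.Primes, ‖-Complex.log (1 - ((p : ℕ) : ℂ) ^ (-(1 + s))) -
      ((p : ℕ) : ℂ) ^ (-(1 + s))‖ ≤ (1 / ((p : ℕ) : ℝ)) ^ 2 := by
    intro p
    set x := ((p : ℕ) : ℂ) ^ (-(1 + s)) with hx
    have h2 : ‖x‖ ≤ 1 / ((p : ℕ) : ℝ) := by
      rw [hx, pr_norm_prime_cpow]; exact pr_prime_rpow_le_inv p h.le
    have h3 : (2 : ℝ) ≤ (p : ℕ) := by exact_mod_cast p.2.two_le
    have h4 : 1 / ((p : ℕ) : ℝ) ≤ 1 / 2 := one_div_le_one_div_of_le (by norm_num) h3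
    have h5 := Complex.norm_log_one_add_sub_self_le (z := -x) (by rw [norm_neg]; linarith)
    rw [norm_neg] at h5
    have h6 : -Complex.log (1 - x) - x = -(Complex.log (1 + -x) - -x) := by
      rw [← sub_eq_add_neg]; ring
    rw [h6, norm_neg]
    have h7 : (1 - ‖x‖)⁻¹ ≤ 2 := by
      rw [inv_le_comm₀ (by linarith) (by norm_num)]; linarith
    have h8 : ‖x‖ ^ 2 ≤ (1 / ((p : ℕ) : ℝ)) ^ 2 := pow_le_pow_left₀ (norm_nonneg _) h2 2
    have h9 : ‖x‖ ^ 2 * (1 - ‖x‖)⁻¹ ≤ ‖x‖ ^ 2 * 2 := mul_le_mul_of_nonneg_left h7 (by positivity)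
    linarith
  have hs1 := Summable.of_norm_bounded pr_summable_primes_inv_sq hb
  have hs2 := pr_summable_primes_cpow h
  have h2 : ∑' p : Nat.Primes, -Complex.log (1 - ((p : ℕ) : ℂ) ^ (-(1 + s))) =
      ∑' p : Nat.Primes, (-Complex.log (1 - ((p : ℕ) : ℂ) ^ (-(1 + s))) -
        ((p : ℕ) : ℂ) ^ (-(1 + s))) + ∑' p : Nat.Primes, ((p : ℕ) : ℂ) ^ (-(1 + s)) := by
    rw [← hs1.tsum_add hs2]; simp
  have h3 := (tsum_of_norm_bounded pr_summable_primes_inv_sq.hasSum hb).trans pr_tsum_primes_inv_sq_le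
  rw [← h1, Complex.norm_exp, log_exp]
  erw [h2]
  rw [Complex.add_re, add_sub_cancel_right]
  exact (Complex.abs_re_le_norm _).trans h3

/-- (PZ) -/
theorem pr_PZ {s : ℂ} (h : 0 < s.re) :
    exp (∑' p : Nat.Primes, ((p : ℕ) : ℂ) ^ (-(1 + s))).re ≤ exp 1 * ‖riemannZeta (1 + s)‖ := by
  have h0 : 0 < ‖riemannZeta (1 + s)‖ :=
    norm_pos_iff.2 (riemannZeta_ne_zero_of_one_lt_re (by simpa using h))
  have h1 := (abs_le.1 (pr_abs_log_zeta_sub h)).1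
  rw [← exp_log h0, ← exp_add]
  exact exp_le_exp.2 (by linarith)

/-- (PZ), other direction. -/
theorem pr_PZlow {s : ℂ} (h : 0 < s.re) :
    ‖riemannZeta (1 + s)‖ ≤ exp 1 * exp (∑' p : Nat.Primes, ((p : ℕ) : ℂ) ^ (-(1 + s))).re := by
  have h0 : 0 < ‖riemannZeta (1 + s)‖ :=
    norm_pos_iff.2 (riemannZeta_ne_zero_of_one_lt_re (by simpa using h))
  have h1 := (abs_le.1 (pr_abs_log_zeta_sub h)).2
  rw [← exp_log h0, ← exp_add]
  exact exp_le_exp.2 (by linarith)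

/-- A real bound for the prime sum. -/
theorem pr_exp_tsum_primes_le {δ : ℝ} (h : 0 < δ) :
    exp (∑' p : Nat.Primes, ((p : ℕ) : ℝ) ^ (-(1 + δ))) ≤ 1 + 1 / δ := by
  have hs := pr_summable_primes_rpow h
  have h1 := riemannZeta_eulerProduct_hasProd (s := 1 + δ) (by simpa using h)
  have h2 : ‖riemannZeta (1 + δ)‖ ≤ 1 + 1 / δ := by
    have h3 : 1 < ((1 : ℂ) + δ).re := by simpa using h
    have h4 : ∀ n : ℕ, ‖1 / (n : ℂ) ^ ((1 : ℂ) + δ)‖ =
        if n = 0 then 0 else (n : ℝ) ^ (-(1 + δ)) := by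
      intro n
      split_ifs with h5
      · subst h5
        rw [Nat.cast_zero, Complex.zero_cpow (fun h6 => by rw [h6] at h3; norm_num at h3)]
        simp
      · rw [norm_div, norm_one, Complex.norm_natCast_cpow_of_pos (Nat.pos_of_ne_zero h5),
          rpow_neg (Nat.cast_nonneg _), one_div]
        simp
    have h5 : ∀ T : Finset ℕ, ∑ n ∈ T, ‖1 / (n : ℂ) ^ ((1 : ℂ) + δ)‖ ≤ 1 + 1 / δ := by
      intro T
      refine le_trans ?_ (Pool.Agent.Lib.Sieve.sum_rpow_le h (T.sup id))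
      simp only [h4]
      rw [← sum_filter_add_sum_filter_not T (fun n => n = 0), sum_eq_zero (fun n hn => by
        rw [if_pos (mem_filter.1 hn).2]), zero_add,
        sum_congr rfl (fun n hn => if_neg (mem_filter.1 hn).2)]
      refine sum_le_sum_of_subset_of_nonneg (fun n hn => ?_) fun n _ _ => by positivity
      obtain ⟨h6, h7⟩ := mem_filter.1 hn
      exact mem_Ioc.2 ⟨Nat.pos_of_ne_zero h7, le_sup (f := id) h6⟩
    have h6 := summable_of_sum_le (fun n => norm_nonneg _) h5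
    rw [zeta_eq_tsum_one_div_nat_cpow h3]
    exact (norm_tsum_le_tsum_norm h6).trans (h6.tsum_le_of_sum_le h5)
  have h3 := (continuous_exp.tendsto _).comp hs.hasSum
  have h4 := (continuous_norm.tendsto _).comp h1
  refine le_trans (le_of_tendsto_of_tendsto' h3 h4 fun T => ?_) h2
  simp only [Function.comp]
  rw [exp_sum, norm_prod]
  refine prod_le_prod (fun p _ => (exp_pos _).le) fun p _ => ?_
  have h5 := pr_norm_prime_cpow p δ
  rw [Complex.ofReal_re] at h5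
  have h6 := pr_prime_rpow_le_inv p h.le
  have h7 : (2 : ℝ) ≤ (p : ℕ) := by exact_mod_cast p.2.two_le
  have h8 : 1 / ((p : ℕ) : ℝ) ≤ 1 / 2 := one_div_le_one_div_of_le (by norm_num) h7
  have h9 : ((p : ℕ) : ℂ) ^ (-((1 : ℂ) + δ)) = (((p : ℕ) : ℝ) ^ (-(1 + δ)) : ℝ) := by
    rw [Complex.ofReal_cpow (Nat.cast_nonneg _)]; push_cast; rfl
  rw [h9]
  set x := ((p : ℕ) : ℝ) ^ (-(1 + δ))
  rw [norm_inv, ← Complex.ofReal_one, ← Complex.ofReal_sub, Complex.norm_real, norm_eq_abs,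
    abs_of_pos (by linarith), le_inv_comm₀ (exp_pos _) (by linarith), ← exp_neg]
  linarith [add_one_le_exp (-x)]

/-- Many primes between 100 and `R`. -/
theorem pr_many_primes_le : ∃ R₀ : ℝ, 3 ≤ R₀ ∧ ∀ R : ℝ, R₀ ≤ R →
    R / (2 * log R) ≤ (((Ioc 100 ⌊R⌋₊).filter Nat.Prime).card : ℝ) := by
  have e1 := (isLittleO_log_id_atTop).bound (c := 1 / 2000) (by norm_num)
  obtain ⟨R₁, hR₁⟩ := Filter.eventually_atTop.1 e1
  refine ⟨max 100 R₁, le_trans (by norm_num) (le_max_left _ _), fun R hR => ?_⟩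
  have h100 : 100 ≤ R := (le_max_left _ _).trans hR
  have h1 := hR₁ R ((le_max_right _ _).trans hR)
  have hl : 1 ≤ log R := by
    rw [le_log_iff_exp_le (by linarith)]; linarith [exp_one_lt_d9]
  simp only [id, norm_eq_abs] at h1
  rw [abs_of_nonneg (by linarith), abs_of_nonneg (by linarith)] at h1
  have h2 := Chebyshev.pi_ge' (x := R) (by linarith)
  have h3 : (Nat.primeCounting ⌊R⌋₊ : ℝ) ≤ 101 + ((Ioc 100 ⌊R⌋₊).filter Nat.Prime).card := by
    rw [← Nat.primesLE_card_eq_primeCounting]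
    have : Nat.primesLE ⌊R⌋₊ ⊆ range 101 ∪ (Ioc 100 ⌊R⌋₊).filter Nat.Prime := fun r hr => by
      obtain ⟨h4, h5⟩ := Nat.mem_primesLE.1 hr
      by_cases h6 : r < 101
      · exact mem_union_left _ (mem_range.2 h6)
      · exact mem_union_right _ (mem_filter.2 ⟨mem_Ioc.2 ⟨by omega, h4⟩, h5⟩)
    have h7 := (card_le_card this).trans (card_union_le _ _)
    rw [card_range] at h7
    exact_mod_cast h7
  have h4 : log (R + 2) ≤ 2 * log R := by
    have h6 := log_le_log (by linarith) (show R + 2 ≤ R ^ 2 by nlinarith)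
    rw [log_pow] at h6
    exact_mod_cast h6
  have l2 := log_two_gt_d9
  rw [div_le_iff₀ (by linarith)] at h2 ⊢
  have h5 : (R - 1) * 0.69 ≤ (R - 1) * log 2 := mul_le_mul_of_nonneg_left (by linarith) (by linarith)
  have h6 := mul_le_mul_of_nonneg_right h3 (show 0 ≤ log R by linarith)
  nlinarith

end Pool.Agent.QM
end

-- part Pool.Agent.P.MP_ea46f5_nt.QM.FPoisb
section

/-!
The Mellin representation of the Gaussian.
-/

namespace Pool.Agent.QM.Po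

open Real MeasureTheory Set

theorem norm_Gamma_le_re {s : ℂ} (hs : 0 < s.re) : ‖Complex.Gamma s‖ ≤ Real.Gamma s.re := by
  rw [Complex.Gamma_eq_integral hs, Real.Gamma_eq_integral hs, Complex.GammaIntegral]
  refine (norm_integral_le_integral_norm _).trans (le_of_eq ?_)
  refine setIntegral_congr_fun measurableSet_Ioi fun x hx => ?_
  simp only [norm_mul, Complex.norm_real, Real.norm_of_nonneg (exp_pos _).le,
    Complex.norm_cpow_eq_rpow_re_of_pos hx, Complex.sub_re, Complex.one_re]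

theorem continuous_GammaR_line {σ : ℝ} (hσ : 0 < σ) :
    Continuous fun t : ℝ => Complex.Gammaℝ (σ + t * Complex.I) := by
  refine continuous_iff_continuousAt.2 fun t => ?_
  have h : DifferentiableAt ℂ Complex.Gammaℝ (σ + t * Complex.I) := by
    unfold Complex.Gammaℝ
    refine DifferentiableAt.mul ?_ ?_
    · exact DifferentiableAt.const_cpow (by fun_prop) (Or.inl (by exact_mod_cast pi_ne_zero))
    · refine (Complex.differentiableAt_Gamma _ fun m hm => ?_).comp _ (by fun_prop)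
      have := congrArg Complex.re hm
      simp at this
      have : (0 : ℝ) ≤ m := m.cast_nonneg
      linarith
  exact h.continuousAt.comp (f := fun t : ℝ => (σ + t * Complex.I : ℂ)) (by fun_prop)

theorem integrable_GammaR_line {σ : ℝ} (hσ : 0 < σ) :
    Integrable fun t : ℝ => Complex.Gammaℝ (σ + t * Complex.I) := by
  set c : ℝ := min (σ ^ 2) 1 with hc
  have hc0 : 0 < c := lt_min (by positivity) one_pos
  refine ((integrable_inv_one_add_sq.const_mul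
    (π ^ (-σ / 2) * (4 * Real.Gamma (σ / 2 + 2)) / c)).mono'
    (continuous_GammaR_line hσ).aestronglyMeasurable (Filter.Eventually.of_forall fun t => ?_))
  set s : ℂ := (σ + t * Complex.I) / 2 with hs
  have hre : s.re = σ / 2 := by simp [hs]
  have him : s.im = t / 2 := by simp [hs]
  have hs0 : s ≠ 0 := fun h => by rw [h] at hre; simp at hre; linarith
  have hs1 : s + 1 ≠ 0 := fun h => by
    have := congrArg Complex.re h
    simp [hre] at this; linarith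
  have h1 : Complex.Gamma (s + 1 + 1) = (s + 1) * (s * Complex.Gamma s) := by
    rw [Complex.Gamma_add_one _ hs1, Complex.Gamma_add_one _ hs0]
  have h2 : ‖Complex.Gamma (s + 1 + 1)‖ ≤ Real.Gamma (σ / 2 + 2) := by
    have := norm_Gamma_le_re (s := s + 1 + 1) (by simp [hre]; linarith)
    have h3 : (s + 1 + 1).re = σ / 2 + 2 := by simp [hre]; ring
    rwa [h3] at this
  rw [h1, norm_mul, norm_mul] at h2
  have h3 : ‖s‖ ≤ ‖s + 1‖ := by
    rw [← sq_le_sq₀ (norm_nonneg _) (norm_nonneg _), Complex.sq_norm, Complex.sq_norm,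
      Complex.normSq_apply, Complex.normSq_apply]
    simp [hre]; nlinarith
  have h4 : c * (1 + t ^ 2) ≤ 4 * (‖s‖ * ‖s‖) := by
    rw [← sq, Complex.sq_norm, Complex.normSq_apply, hre, him]
    have a1 : c ≤ σ ^ 2 := min_le_left _ _
    have a2 : c ≤ 1 := min_le_right _ _
    nlinarith [sq_nonneg t]
  have h5 : c * (1 + t ^ 2) * ‖Complex.Gamma s‖ ≤ 4 * Real.Gamma (σ / 2 + 2) := by
    calc c * (1 + t ^ 2) * ‖Complex.Gamma s‖ ≤ 4 * (‖s‖ * ‖s‖) * ‖Complex.Gamma s‖ := by gcongr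
      _ = 4 * (‖s‖ * (‖s‖ * ‖Complex.Gamma s‖)) := by ring
      _ ≤ 4 * (‖s + 1‖ * (‖s‖ * ‖Complex.Gamma s‖)) := by gcongr
      _ ≤ _ := by gcongr
  rw [Complex.Gammaℝ_def, norm_mul, Complex.norm_cpow_eq_rpow_re_of_pos pi_pos, ← hs]
  have h6 : (-(σ + t * Complex.I : ℂ) / 2).re = -σ / 2 := by simp
  rw [h6, mul_div_assoc, mul_assoc]
  gcongr
  rw [div_mul_eq_mul_div, ← div_eq_mul_inv, div_div, le_div_iff₀ (by positivity)]
  linarith

theorem mellin_gauss {s : ℂ} (hs : 0 < s.re) :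
    HasMellin (fun x : ℝ => ((exp (-π * x ^ 2) : ℝ) : ℂ)) s (Complex.Gammaℝ s / 2) := by
  have hs2 : 0 < (s / 2).re := by simpa using hs
  have h0 : MellinConvergent (fun t : ℝ => ((exp (-t) : ℝ) : ℂ)) (s / 2) := by
    simpa only [MellinConvergent, smul_eq_mul, mul_comm] using Complex.GammaIntegral_convergent hs2
  have h1 : MellinConvergent (fun t : ℝ => ((exp (-(π * t)) : ℝ) : ℂ)) (s / 2) :=
    (MellinConvergent.comp_mul_left (f := fun t : ℝ => ((exp (-t) : ℝ) : ℂ)) pi_pos).2 h0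
  have he : (fun x : ℝ => ((exp (-π * x ^ 2) : ℝ) : ℂ)) =
      fun x : ℝ => (fun t : ℝ => ((exp (-(π * t)) : ℝ) : ℂ)) (x ^ (2 : ℝ)) := by
    funext x
    simp only [rpow_two, neg_mul]
  rw [he]
  refine ⟨(MellinConvergent.comp_rpow (f := fun t : ℝ => ((exp (-(π * t)) : ℝ) : ℂ))
    two_ne_zero).2 (by rw [Complex.ofReal_ofNat]; exact h1), ?_⟩
  rw [mellin_comp_rpow (fun t : ℝ => ((exp (-(π * t)) : ℝ) : ℂ)), mellin_comp_mul_left (fun t : ℝ => ((exp (-t) : ℝ) : ℂ)) _ pi_pos,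
    ← Complex.GammaIntegral_eq_mellin, Complex.ofReal_ofNat, ← Complex.Gamma_eq_integral hs2,
    Complex.Gammaℝ_def, neg_div]
  simp only [smul_eq_mul, Complex.real_smul]
  norm_num
  ring

/-- Mellin inversion for the Gaussian. -/
theorem gauss_eq_integral {σ x : ℝ} (hσ : 0 < σ) (hx : 0 < x) :
    ((exp (-π * x ^ 2) : ℝ) : ℂ) = (1 / (2 * π) : ℂ) * ∫ t : ℝ,
      Complex.Gammaℝ (σ + t * Complex.I) / 2 * (x : ℂ) ^ (-(σ + t * Complex.I)) := by
  have hm : ∀ t : ℝ, mellin (fun x : ℝ => ((exp (-π * x ^ 2) : ℝ) : ℂ)) (σ + t * Complex.I) =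
      Complex.Gammaℝ (σ + t * Complex.I) / 2 := fun t => (mellin_gauss (by simpa using hσ)).2
  have h := mellinInv_mellin_eq σ (fun x : ℝ => ((exp (-π * x ^ 2) : ℝ) : ℂ)) hx
    (mellin_gauss (by simpa using hσ)).1
    (by
      unfold Complex.VerticalIntegrable
      simp_rw [hm]
      exact (integrable_GammaR_line hσ).div_const 2)
    (by fun_prop)
  rw [← h, mellinInv]
  simp_rw [hm, smul_eq_mul, Complex.real_smul, mul_comm]
  push_cast
  rfl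

end Pool.Agent.QM.Po
end

-- part Pool.Agent.P.MP_ea46f5_nt.QM.FSD0
section

namespace Pool.Agent.QM

open Complex MeasureTheory Finset
open scoped Real ComplexConjugate

theorem sd0_mem {a b x : ℝ} (y : ℝ) (h1 : a ≤ x) (h2 : x ≤ b) : (x + y * I : ℂ) ∈ Strip a b := by
  simpa [Strip] using ⟨h1, h2⟩

theorem pSD0 (hSH0 : SH0) (hDEC : DEC) : SD0 := by
  intro a b C G hab hG hb
  have hi := hDEC.2.2.2.1.1
  have hint : ∀ c d : ℝ, a ≤ c → c ≤ b → a ≤ d → d ≤ b →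
      Integrable (fun t : ℝ × ℝ => G (c + t.1 * I) (d + t.2 * I)) (volume.prod volume) := by
    intro c d h1 h2 h3 h4
    refine ((hi.mul_prod hi).const_mul C).mono' (Continuous.aestronglyMeasurable ?_)
      (Filter.Eventually.of_forall fun t => ?_)
    · exact hG.1.comp_continuous (f := fun t : ℝ × ℝ => ((c + t.1 * I : ℂ), (d + t.2 * I : ℂ)))
        (by fun_prop) fun t => ⟨sd0_mem _ h1 h2, sd0_mem _ h3 h4⟩
    · have := hb _ (sd0_mem t.1 h1 h2) _ (sd0_mem t.2 h3 h4)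
      simp only [add_im, ofReal_im, mul_im, ofReal_re, I_im, mul_one, I_re, mul_zero, add_zero,
        zero_add] at this
      refine this.trans (le_of_eq ?_)
      rw [div_mul_div_comm, mul_one, mul_one_div]
  have s2 : ∀ s ∈ Strip a b, Iv b (G s) = Iv a (G s) := fun s hs =>
    hSH0 a b (C / br s.im ^ 2) _ hab
      ⟨hG.1.comp (f := fun u : ℂ => (s, u)) (by fun_prop) fun u hu => ⟨hs, hu⟩, hG.2.2 s hs⟩
      fun u hu => by rw [div_div]; exact hb s hs u hu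
  have s1 : ∀ s ∈ Strip a b, Iv b (fun u => G u s) = Iv a (fun u => G u s) := fun s hs =>
    hSH0 a b (C / br s.im ^ 2) _ hab
      ⟨hG.1.comp (f := fun u : ℂ => (u, s)) (by fun_prop) fun u hu => ⟨hu, hs⟩, hG.2.1 s hs⟩
      fun u hu => by rw [div_div, mul_comm]; exact hb u hu s hs
  unfold I2
  rw [Measure.volume_eq_prod, integral_prod _ (hint b b hab le_rfl hab le_rfl),
    integral_prod_symm _ (hint a a le_rfl hab le_rfl hab)]
  calc ∫ x : ℝ, ∫ y : ℝ, G (b + x * I) (b + y * I)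
      = ∫ x : ℝ, ∫ y : ℝ, G (b + x * I) (a + y * I) :=
        integral_congr_ae (Filter.Eventually.of_forall fun x => s2 _ (sd0_mem x hab le_rfl))
    _ = ∫ y : ℝ, ∫ x : ℝ, G (b + x * I) (a + y * I) :=
        integral_integral_swap (hint b a hab le_rfl le_rfl hab)
    _ = ∫ y : ℝ, ∫ x : ℝ, G (a + x * I) (a + y * I) :=
        integral_congr_ae (Filter.Eventually.of_forall fun y => s1 _ (sd0_mem y le_rfl hab))

end Pool.Agent.QM
end

-- part Pool.Agent.P.MP_ea46f5_nt.QM.FSD2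
section

namespace Pool.Agent.QM

open Complex MeasureTheory Finset
open scoped Real ComplexConjugate

/-- Integral along a weighted path. -/
noncomputable def sd2_L (μ : Measure ℝ) (γ w : ℝ → ℂ) (f : ℂ → ℂ) : ℂ := ∫ t, w t * f (γ t) ∂μ

/-- An admissible weighted path inside the set `S`. -/
def sd2_Ok (S : Set ℂ) (μ : Measure ℝ) (γ w : ℝ → ℂ) : Prop :=
  Continuous γ ∧ Continuous w ∧ (∀ t, γ t ∈ S) ∧
    Integrable (fun t => ‖w t‖ * (1 / br (γ t).im ^ 2)) μ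

section two

variable {S : Set ℂ} {μ ν : Measure ℝ} [SFinite μ] [SFinite ν] {γ w δ v : ℝ → ℂ} {F : ℂ → ℂ → ℂ}
  {C : ℝ}

omit [SFinite μ] [SFinite ν] in
theorem sd2_int (h1 : sd2_Ok S μ γ w) (h2 : sd2_Ok S ν δ v)
    (hc : ContinuousOn (fun x : ℂ × ℂ => F x.1 x.2) (S ×ˢ S))
    (hb : ∀ s ∈ S, ∀ u ∈ S, ‖F s u‖ ≤ C / (br s.im ^ 2 * br u.im ^ 2)) :
    Integrable (fun t : ℝ × ℝ => w t.1 * (v t.2 * F (γ t.1) (δ t.2))) (μ.prod ν) := by
  obtain ⟨a1, a2, a3, a4⟩ := h1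
  obtain ⟨b1, b2, b3, b4⟩ := h2
  refine ((a4.mul_prod b4).const_mul C).mono' (Continuous.aestronglyMeasurable ?_)
    (Filter.Eventually.of_forall fun t => ?_)
  · have := hc.comp_continuous (f := fun t : ℝ × ℝ => (γ t.1, δ t.2)) (by fun_prop)
      fun t => ⟨a3 _, b3 _⟩
    exact (a2.comp continuous_fst).mul ((b2.comp continuous_snd).mul this)
  · rw [norm_mul, norm_mul]
    refine (mul_le_mul_of_nonneg_left (mul_le_mul_of_nonneg_left (hb _ (a3 _) _ (b3 _))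
      (norm_nonneg _)) (norm_nonneg _)).trans (le_of_eq ?_)
    rw [div_eq_mul_one_div C, ← one_div_mul_one_div]
    ring

theorem sd2_swap (h1 : sd2_Ok S μ γ w) (h2 : sd2_Ok S ν δ v)
    (hc : ContinuousOn (fun x : ℂ × ℂ => F x.1 x.2) (S ×ˢ S))
    (hb : ∀ s ∈ S, ∀ u ∈ S, ‖F s u‖ ≤ C / (br s.im ^ 2 * br u.im ^ 2)) :
    sd2_L μ γ w (fun s => sd2_L ν δ v (F s)) = sd2_L ν δ v fun u => sd2_L μ γ w fun s => F s u := by
  unfold sd2_L
  simp_rw [← integral_const_mul]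
  rw [integral_integral_swap (sd2_int h1 h2 hc hb)]
  simp_rw [mul_left_comm]

omit [SFinite μ] in
theorem sd2_left (h1 : sd2_Ok S μ γ w) (h2 : sd2_Ok S ν δ v)
    (hc : ContinuousOn (fun x : ℂ × ℂ => F x.1 x.2) (S ×ˢ S))
    (hb : ∀ s ∈ S, ∀ u ∈ S, ‖F s u‖ ≤ C / (br s.im ^ 2 * br u.im ^ 2)) :
    Integrable (fun t => w t * sd2_L ν δ v (F (γ t))) μ := by
  have := (sd2_int h1 h2 hc hb).integral_prod_left
  simpa only [integral_const_mul, sd2_L] using this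

omit [SFinite μ] in
theorem sd2_add {f g h : ℂ → ℂ} (h1 : sd2_Ok S μ γ w) (he : ∀ s ∈ S, f s = g s + h s)
    (hg : Integrable (fun t => w t * g (γ t)) μ) (hh : Integrable (fun t => w t * h (γ t)) μ) :
    sd2_L μ γ w f = sd2_L μ γ w g + sd2_L μ γ w h := by
  unfold sd2_L
  rw [← integral_add hg hh]
  refine integral_congr_ae (Filter.Eventually.of_forall fun t => ?_)
  simp only [he _ (h1.2.2.1 t), mul_add]

theorem sd2_main {κ : Measure ℝ} [SFinite κ] {ε x : ℝ → ℂ} (hA : sd2_Ok S μ γ w)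
    (hB : sd2_Ok S ν δ v) (hO : sd2_Ok S κ ε x)
    (hc : ContinuousOn (fun x : ℂ × ℂ => F x.1 x.2) (S ×ˢ S))
    (hb : ∀ s ∈ S, ∀ u ∈ S, ‖F s u‖ ≤ C / (br s.im ^ 2 * br u.im ^ 2))
    (s2 : ∀ s ∈ S, sd2_L ν δ v (F s) = sd2_L μ γ w (F s) + sd2_L κ ε x (F s))
    (s1 : ∀ u ∈ S, sd2_L ν δ v (fun s => F s u) =
      sd2_L μ γ w (fun s => F s u) + sd2_L κ ε x fun s => F s u) :
    sd2_L ν δ v (fun s => sd2_L ν δ v (F s)) = sd2_L μ γ w (fun s => sd2_L μ γ w (F s)) +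
      sd2_L μ γ w (fun s => sd2_L κ ε x (F s)) +
      sd2_L μ γ w (fun u => sd2_L κ ε x fun s => F s u) +
      sd2_L κ ε x fun s => sd2_L κ ε x (F s) := by
  have hc' : ContinuousOn (fun x : ℂ × ℂ => F x.2 x.1) (S ×ˢ S) :=
    ContinuousOn.comp (g := fun x : ℂ × ℂ => F x.1 x.2) (f := Prod.swap) hc
      continuous_swap.continuousOn fun x hx => ⟨hx.2, hx.1⟩
  have hb' : ∀ s ∈ S, ∀ u ∈ S, ‖F u s‖ ≤ C / (br s.im ^ 2 * br u.im ^ 2) :=
    fun s hs u hu => by rw [mul_comm (br s.im ^ 2)]; exact hb u hu s hs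
  have e1 := sd2_add hB s2 (sd2_left hB hA hc hb) (sd2_left hB hO hc hb)
  have e2 := sd2_add hA s1 (sd2_left (F := fun u s => F s u) hA hA hc' hb')
    (sd2_left (F := fun u s => F s u) hA hO hc' hb')
  have e3 := sd2_add hO s1 (sd2_left (F := fun u s => F s u) hO hA hc' hb')
    (sd2_left (F := fun u s => F s u) hO hO hc' hb')
  have e4 := sd2_swap hB hA hc hb
  have e5 := sd2_swap hB hO hc hb
  have e6 := sd2_swap hA hA hc hb
  have e7 := sd2_swap hA hO hc hb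
  have e8 := sd2_swap hO hO hc hb
  linear_combination e1 + e2 + e3 + e4 + e5 - e6 - e7 - e8

end two

theorem sd2_Iv (c : ℝ) (f : ℂ → ℂ) :
    Iv c f = sd2_L volume (fun t => c + t * I) (fun _ => 1) f := by
  simp [Iv, sd2_L]

theorem sd2_Oc (z : ℂ) (ρ : ℝ) (f : ℂ → ℂ) :
    Oc z ρ f = sd2_L (volume.restrict (Set.Ioc 0 (2 * π))) (fun t => z + ρ * cexp (t * I))
      (fun t => ρ * cexp (t * I)) f := by
  unfold Oc sd2_L
  rw [intervalIntegral.integral_of_le (by positivity)]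

theorem sd2_br (t : ℝ) : 1 ≤ br t := by
  unfold br
  linarith [abs_nonneg t]

theorem sd2_okL (hDEC : DEC) {a b c ρ : ℝ} {z : ℂ} (h1 : a ≤ c) (h2 : c ≤ b)
    (h3 : ρ ≤ |c - z.re|) :
    sd2_Ok (Strip a b ∩ {s | ρ ≤ ‖s - z‖}) volume (fun t => c + t * I) fun _ => 1 := by
  refine ⟨by fun_prop, by fun_prop, fun t => ⟨by simpa [Strip] using ⟨h1, h2⟩, ?_⟩, ?_⟩
  · refine le_trans ?_ (abs_re_le_norm _)
    simpa using h3
  · simpa using hDEC.2.2.2.1.1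

theorem sd2_okO {a b ρ : ℝ} {z : ℂ} (hρ : 0 < ρ) (ha : a < z.re - ρ) (hb : z.re + ρ < b) :
    sd2_Ok (Strip a b ∩ {s | ρ ≤ ‖s - z‖}) (volume.restrict (Set.Ioc 0 (2 * π)))
      (fun t => z + ρ * cexp (t * I)) fun t => ρ * cexp (t * I) := by
  refine ⟨by fun_prop, by fun_prop, fun t => ⟨?_, ?_⟩, ?_⟩
  · have h1 := mul_le_mul_of_nonneg_left (Real.cos_le_one t) hρ.le
    have h2 := mul_le_mul_of_nonneg_left (Real.neg_one_le_cos t) hρ.le
    constructor <;> rw [add_re, re_ofReal_mul, exp_ofReal_mul_I_re] <;> linarith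
  · change ρ ≤ ‖z + ρ * cexp (t * I) - z‖
    rw [add_sub_cancel_left, norm_mul, norm_exp_ofReal_mul_I, mul_one, norm_real,
      Real.norm_of_nonneg hρ.le]
  · refine Continuous.integrableOn_Ioc (Continuous.mul (by fun_prop)
      (Continuous.div (by fun_prop) (by unfold br; fun_prop) fun t => ?_))
    exact (pow_pos (one_pos.trans_le (sd2_br _)) 2).ne'

theorem sd2_aux {C : ℝ} (z x s u : ℂ) (h : ‖x‖ ≤ C / (br s.im ^ 2 * br u.im ^ 2)) :
    ‖x / (s - z) ^ 2‖ ≤ C / br s.im ^ 2 / ‖s - z‖ ^ 2 / br u.im := by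
  have h1 := sd2_br u.im
  have h2 := sd2_br s.im
  have hC : 0 ≤ C := by
    by_contra hC
    have := div_neg_of_neg_of_pos (not_le.1 hC)
      (show 0 < br s.im ^ 2 * br u.im ^ 2 by positivity)
    linarith [norm_nonneg x]
  rw [norm_div, norm_pow, div_right_comm, div_div C]
  refine div_le_div_of_nonneg_right (h.trans ?_) (by positivity)
  refine div_le_div_of_nonneg_left hC (by positivity) ?_
  exact mul_le_mul_of_nonneg_left (le_self_pow₀ h1 two_ne_zero) (by positivity)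

theorem sd2_I2 {S : Set ℂ} {F : ℂ → ℂ → ℂ} {C c : ℝ}
    (ok : sd2_Ok S volume (fun t => c + t * I) fun _ => 1)
    (hc : ContinuousOn (fun x : ℂ × ℂ => F x.1 x.2) (S ×ˢ S))
    (hb : ∀ s ∈ S, ∀ u ∈ S, ‖F s u‖ ≤ C / (br s.im ^ 2 * br u.im ^ 2)) :
    I2 c F = Iv c fun s => Iv c (F s) := by
  have := sd2_int ok ok hc hb
  simp only [one_mul] at this
  unfold I2 Iv
  rw [Measure.volume_eq_prod, integral_prod _ this]

theorem sd2_fin (hDEC : DEC) {a b C ρ : ℝ} {z : ℂ} {F : ℂ → ℂ → ℂ} (hρ : 0 < ρ)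
    (ha : a < z.re - ρ) (hb : z.re + ρ < b) {S : Set ℂ} (hS : S = Strip a b ∩ {s | ρ ≤ ‖s - z‖})
    (hc : ContinuousOn (fun x : ℂ × ℂ => F x.1 x.2) (S ×ˢ S))
    (hm : ∀ s ∈ S, ∀ u ∈ S, ‖F s u‖ ≤ C / (br s.im ^ 2 * br u.im ^ 2))
    (s2 : ∀ s ∈ S, Iv b (F s) = Iv a (F s) + Oc z ρ (F s))
    (s1 : ∀ u ∈ S, Iv b (fun s => F s u) = Iv a (fun s => F s u) + Oc z ρ fun s => F s u) :
    I2 b F = I2 a F + Iv a (fun s => Oc z ρ (F s)) + Iv a (fun u => Oc z ρ fun s => F s u) +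
      Oc z ρ fun s => Oc z ρ (F s) := by
  subst hS
  have hab : a ≤ b := by linarith
  have okA := sd2_okL hDEC (z := z) (ρ := ρ) le_rfl hab (by rw [le_abs]; right; linarith)
  have okB := sd2_okL hDEC (z := z) (ρ := ρ) hab le_rfl (by rw [le_abs]; left; linarith)
  rw [sd2_I2 okA hc hm, sd2_I2 okB hc hm]
  simp only [sd2_Iv, sd2_Oc] at s1 s2 ⊢
  exact sd2_main okA okB (sd2_okO hρ ha hb) hc hm s2 s1

theorem pSD2 (hSH2 : SH2) (hDEC : DEC) : SD2 := by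
  intro a b C ρ G z hρ ha hb hG hm
  have hne : ∀ s ∈ Strip a b ∩ {s | ρ ≤ ‖s - z‖}, s - z ≠ 0 := fun s hs h => by
    have := hs.2
    rw [Set.mem_ofPred_eq, h, norm_zero] at this
    linarith
  refine sd2_fin hDEC (C := C / (ρ ^ 2 * ρ ^ 2)) hρ ha hb rfl ?_ (fun s hs u hu => ?_)
    (fun s hs => ?_) fun s hs => ?_
  · exact (hG.1.mono (Set.prod_mono Set.inter_subset_left Set.inter_subset_left)).div
      (by fun_prop)
      fun x hx => mul_ne_zero (pow_ne_zero _ (hne _ hx.1)) (pow_ne_zero _ (hne _ hx.2))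
  · have h1 := hm s hs.1 u hu.1
    rw [div_right_comm, norm_div, norm_mul, norm_pow, norm_pow]
    exact div_le_div₀ ((norm_nonneg _).trans h1) h1 (by positivity)
      (mul_le_mul (pow_le_pow_left₀ hρ.le hs.2 2) (pow_le_pow_left₀ hρ.le hu.2 2)
        (by positivity) (by positivity))
  · have := hSH2 a b _ ρ (fun u => G s u / (s - z) ^ 2) z hρ ha hb
      ⟨(hG.1.comp (f := fun u : ℂ => (s, u)) (by fun_prop) fun u hu => ⟨hs.1, hu⟩).div_const _,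
        (hG.2.2 s hs.1).div_const _⟩ fun u hu => sd2_aux z _ s u (hm s hs.1 u hu)
    simpa only [div_div] using this
  · have := hSH2 a b _ ρ (fun u => G u s / (s - z) ^ 2) z hρ ha hb
      ⟨(hG.1.comp (f := fun u : ℂ => (u, s)) (by fun_prop) fun u hu => ⟨hu, hs.1⟩).div_const _,
        (hG.2.1 s hs.1).div_const _⟩ fun u hu => sd2_aux z _ s u (by
          rw [mul_comm]; exact hm u hu s hs.1)
    simpa only [div_div, mul_comm ((s - z) ^ 2)] using this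

end Pool.Agent.QM
end
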