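import Pool.Agent.P.MP_ea46f5_nt.QM.S2
import Pool.Agent.P.MP_ea46f5_nt.Q4.T
import Pool.Agent.K.MP_ea46f5_nt.C3
import Pool.Agent.K.MP_ea46f5_nt.C1

-- part Pool.Agent.P.MP_ea46f5_nt.Q4.DP
section

/-! The functional equation in the discriminant: definitions and statements. -/

namespace Pool.Agent.Q4

open Complex MeasureTheory Finset Pool.Agent.QM
open scoped Real ComplexConjugate

noncomputable section

/-- The class of `k`: sign `τ` and residue `r` modulo 8. -/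
def Cl (τ r k : ℤ) : Prop := 0 < τ * k ∧ k % 8 = r

abbrev CL (τ r : ℤ) : Type := {k : ℤ // Cl τ r k}

def RS : Finset ℤ := {1, 2, 3, 5, 6, 7}

def cq (r : ℤ) : ℝ := if r % 4 = 1 then 1 else 4

def w8 (c : ℤ) : ℂ := cexp (2 * π * I * c / 8)

def eg (n : ℕ) : ℂ := if n % 4 = 1 then 1 else I

def io (f k : ℤ) : ℤ := if 2 ∣ f ∧ 2 ∣ k then f * k / 4 else f * k

def F4 : Finset ℤ := {1, -1, 2, -2}

def N4 : Finset ℕ := {1, 3, 5, 7}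

def brk (c : ℤ) (z : ℂ) : ℂ :=
  w8 c + (w8 (4 * c) - w8 c) * (4 : ℂ) ^ (-z) + (1 - w8 (4 * c)) * (16 : ℂ) ^ (-z)

def Aq (τ r : ℤ) (ν : ℕ) (k : ℤ) (z : ℂ) : ℂ :=
  eg ν * (jacobiSym (-2 * τ) ν : ℂ) * brk (-(ν * τ * r * k)) z

def cf (τ r f k : ℤ) (z : ℂ) : ℂ := 1 / 4 * ∑ ν ∈ N4, Aq τ r ν k z * (jacobiSym f ν : ℂ)

def ph (h : ℤ) (z : ℂ) : ℂ := cexp (π * I * z * (h.sign : ℂ) / 2)

def EG (τ r κ : ℤ) (z : ℂ) : ℂ :=
  Gamma (z + 1) * (2 * π : ℂ) ^ (-z) * (8 : ℂ) ^ (z - 1) * ∑ f ∈ F4, ph (io f κ) z *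
    ((|(io f κ : ℝ)| / |(κ : ℝ)| : ℝ) : ℂ) ^ (-z) * cf τ r f (io f κ) z

def Kd (E : ℤ → ℂ → ℂ) (κ : ℤ) (z : ℂ) : ℂ :=
  E κ z / z * riemannZeta (2 * z) * ((|(κ : ℝ)| : ℝ) : ℂ) ^ (-z)

def ft (N : ℕ) (f : ℤ → ℂ) (h : ℤ) : ℂ :=
  ∑ x ∈ range N, f x * cexp (-(2 * π * I * x * h / N))

def Phi (ν : ℕ) (b x : ℤ) : ℂ := if x % 8 = b % 8 then (jacobiSym x ν : ℂ) else 0

/-- Analytic properties of the kernel. -/
def KA (E : ℤ → ℂ → ℂ) (C : ℝ) : Prop :=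
  (∀ κ : ℤ, κ ≠ 0 → DifferentiableOn ℂ (E κ) {z | -1 < z.re}) ∧
  (∀ (κ : ℤ) (z : ℂ), κ ≠ 0 → -(1 / 2) ≤ z.re → z.re ≤ 7 → ‖E κ z‖ ≤ C * br z.im ^ 10) ∧
  E 1 0 = 1 / 8

/-- The identity for Dirichlet series. -/
def FEI (τ r : ℤ) (E : ℤ → ℂ → ℂ) : Prop := ∀ n : ℕ, Odd n → ∃ (g : ℂ → ℂ) (C : ℝ),
  Differentiable ℂ g ∧ g 1 = (T0 n : ℂ) / 8 ∧ (∀ u ∈ Strip (-1) 2, ‖g u‖ ≤ C * br u.im ^ 6) ∧
  (∀ u : ℂ, u.re = 2 → HasSum (fun k : CL τ r =>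
    (jacobiSym k n : ℂ) * ((|((k : ℤ) : ℝ)| : ℝ) : ℂ) ^ (-u)) (g u / (u - 1))) ∧
  (∀ z : ℂ, z.re = 2 → HasSum (fun κ : SF => Kd E κ z * Tk κ z n) (g (1 - z) / (-z)))

/-- The identity with a weight. -/
def PDI (τ r : ℤ) (E : ℤ → ℂ → ℂ) : Prop :=
  ∀ (n : ℕ) (ρ : ℂ → ℂ) (M : ℝ) (σ : ℤ → ℝ), Odd n → Nice (-5) 2 ρ →
    (∀ u ∈ Strip (-5) 2, ‖ρ u‖ ≤ M / br u.im ^ 14) → (∀ κ, 1 / 2 < σ κ ∧ σ κ ≤ 6) →
    HasSum (fun κ : SF => 1 / (2 * π) * Iv (σ κ) fun z => ρ (1 - z) * Kd E κ z * Tk κ z n)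
      ((∑' k : CL τ r, (jacobiSym k n : ℂ) *
        (1 / (2 * π) * Iv 2 fun u => ρ u * ((|((k : ℤ) : ℝ)| : ℝ) : ℂ) ^ (-u))) -
        ρ 1 * (T0 n : ℂ) / 8)

end

/-- Dirichlet series of periodic functions. -/
def PER : Prop := ∀ (N : ℕ) (f : ℤ → ℂ), N ≠ 0 → (∀ x, f (x + N) = f x) →
  ∃ (g : ℂ → ℂ) (C : ℝ), Differentiable ℂ g ∧ g 1 = ft N f 0 / N ∧
    (∀ u ∈ Strip (-1) 2, ‖g u‖ ≤ C * br u.im ^ 6) ∧
    (∀ u : ℂ, 1 < u.re → HasSum (fun m : ℕ => if m = 0 then 0 else f m * (m : ℂ) ^ (-u))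
      (g u / (u - 1))) ∧
    (∀ z : ℂ, 1 < z.re → HasSum (fun h : ℤ => if h = 0 then 0 else
      (N : ℂ) ^ (z - 1) * (2 * π : ℂ) ^ (-z) * Gamma z * ph h z * ft N f h *
        ((|(h : ℝ)| : ℝ) : ℂ) ^ (-z)) (g (1 - z) / (-z)))

def DFT : Prop := ∀ (ν : ℕ) (b h : ℤ), Odd ν → Squarefree ν →
  ft (8 * ν) (Phi ν b) h =
    (jacobiSym (-2 * h) ν : ℂ) * eg ν * ((√(ν : ℝ) : ℝ) : ℂ) * w8 (-(ν * b * h))

/-- Characters modulo 8 and the twists. -/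
def CH8 : Prop :=
  (∀ (τ r k : ℤ) (ν : ℕ) (z : ℂ), (τ = 1 ∨ τ = -1) → Odd ν →
    Aq τ r ν k z = ∑ f ∈ F4, cf τ r f k z * (jacobiSym f ν : ℂ)) ∧
  (∀ f ∈ F4, ∀ k : ℤ, Squarefree k → Squarefree (io f k) ∧ io f (io f k) = k) ∧
  (∀ f ∈ F4, ∀ (k : ℤ) (z : ℂ) (n : ℕ), Odd n →
    (jacobiSym f (n0 n) : ℂ) * Tk k z n = Tk (io f k) z n)

def KAx : Prop := ∀ τ r : ℤ, (τ = 1 ∨ τ = -1) → ∃ C : ℝ, 0 < C ∧ KA (EG τ r) C

def FEx : Prop := ∀ τ r : ℤ, (τ = 1 ∨ τ = -1) → 0 ≤ r → r < 8 → FEI τ r (EG τ r)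

def PDx : Prop := ∀ (τ r : ℤ) (E : ℤ → ℂ → ℂ) (C : ℝ), KA E C → FEI τ r E → PDI τ r E

/-- Size and holomorphy of the kernel and of the local data. -/
def KDB : Prop :=
  (∃ D : ℝ, 0 < D ∧ ∀ (E : ℤ → ℂ → ℂ) (C : ℝ) (κ : ℤ) (z : ℂ), KA E C → κ ≠ 0 → 1 / 2 < z.re →
    z.re ≤ 7 → DifferentiableAt ℂ (Kd E κ) z ∧
      ‖Kd E κ z‖ ≤ D * C * (1 + 1 / (z.re - 1 / 2)) * br z.im ^ 11 * |(κ : ℝ)| ^ (-z.re)) ∧
  ∀ (k : ℤ) (n : ℕ), Differentiable ℂ fun z => Tk k z n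

/-- The functional equation in the discriminant. -/
def PD : Prop := ∀ τ r : ℤ, (τ = 1 ∨ τ = -1) → 0 ≤ r → r < 8 →
  ∃ (E : ℤ → ℂ → ℂ) (C : ℝ), 0 < C ∧ KA E C ∧ PDI τ r E

/-- The Gauss sum of the Kronecker symbol. -/
def GSK : Prop := ∀ k : ℤ, Squarefree k → k ≠ 1 →
  ft (disc k).natAbs (fun x => (kron (disc k) x.toNat : ℂ)) (-1) =
    I ^ par k * ((√(qk k) : ℝ) : ℂ)

/-- The root number is one. -/
def FE1 : Prop := ∀ k : ℤ, Squarefree k → k ≠ 1 → ∀ s : ℂ, 0 < s.re → s.re < 1 →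
  Lam k (1 - s) = Lam k s

end Pool.Agent.Q4
end

-- part Pool.Agent.P.MP_ea46f5_nt.Q4.FA4H
section

namespace Pool.Agent.Q4

open Complex MeasureTheory Finset
open scoped Real
open Pool.Agent.QM

theorem prod_Ici4 {M : Type} [CommMonoid M] (f : Fin 4 → Fin 4 → M) :
    ∏ i, ∏ j ∈ Ici i, f i j =
      f 0 0 * f 0 1 * f 0 2 * f 0 3 * (f 1 1 * f 1 2 * f 1 3) * (f 2 2 * f 2 3) * f 3 3 := by
  have h0 : Ici (0 : Fin 4) = {0, 1, 2, 3} := by decide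
  have h1 : Ici (1 : Fin 4) = {1, 2, 3} := by decide
  have h2 : Ici (2 : Fin 4) = {2, 3} := by decide
  have h3 : Ici (3 : Fin 4) = {3} := by decide
  rw [Fin.prod_univ_four, h0, h1, h2, h3]
  simp [mul_assoc]

theorem prod_Ioi4 {M : Type} [CommMonoid M] (f : Fin 4 → Fin 4 → M) :
    ∏ i, ∏ j ∈ Ioi i, f i j = f 0 1 * f 0 2 * f 0 3 * (f 1 2 * f 1 3) * f 2 3 := by
  have h0 : Ioi (0 : Fin 4) = {1, 2, 3} := by decide
  have h1 : Ioi (1 : Fin 4) = {2, 3} := by decide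
  have h2 : Ioi (2 : Fin 4) = {3} := by decide
  have h3 : Ioi (3 : Fin 4) = ∅ := by decide
  rw [Fin.prod_univ_four, h0, h1, h2, h3]
  simp [mul_assoc]

theorem diff_prod {E ι : Type} [NormedAddCommGroup E] [NormedSpace ℂ E] {s : Finset ι}
    {f : ι → E → ℂ} {x : E} (h : ∀ i ∈ s, DifferentiableAt ℂ (f i) x) :
    DifferentiableAt ℂ (fun t => ∏ i ∈ s, f i t) x := by
  classical
  exact (HasFDerivAt.finsetProd fun i hi => (h i hi).hasFDerivAt).differentiableAt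

structure LA where
  r : ℝ
  x : Fin 4 → ℂ
  w : ℂ
  h0 : 0 ≤ r
  h1 : r ≤ 4 / 5
  hx : ∀ j, ‖x j‖ ≤ r
  hw : ‖w‖ ≤ r ^ 2

/-- The local factor in free variables. -/
noncomputable def afac (x : Fin 4 → ℂ) (w : ℂ) : ℂ :=
  (∏ i, ∏ j ∈ Ici i, (1 - x i * x j)) *
    (1 / 2 * (∏ j, (1 - x j)⁻¹ + ∏ j, (1 + x j)⁻¹) + w) * (1 + w)⁻¹

theorem afac_abs : ∃ C : ℝ, 0 ≤ C ∧ ∀ (r : ℝ) (x : Fin 4 → ℂ) (w : ℂ), 0 ≤ r → r ≤ 4 / 5 →
    (∀ j, ‖x j‖ ≤ r) → ‖w‖ ≤ r ^ 2 → ‖afac x w - 1‖ ≤ C * r ^ 3 := by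
  have hq : (4 / 5 : ℝ) < 1 := by norm_num
  let r : LA → ℝ := fun i => i.r
  have hr : ∀ i, 0 ≤ r i ∧ r i ≤ 1 := fun i => ⟨i.h0, i.h1.trans hq.le⟩
  have hx : ∀ j, Og r 1 (fun i => i.x j) := fun j =>
    Og.of_le fun i => by rw [pow_one]; exact i.hx j
  have hw : Og r 2 (fun i => i.w) := Og.of_le fun i => i.hw
  have bx : ∀ j, ∀ i : LA, ‖i.x j‖ ≤ 4 / 5 := fun j i => (i.hx j).trans i.h1
  have bx' : ∀ j, ∀ i : LA, ‖-i.x j‖ ≤ 4 / 5 := fun j i => by rw [norm_neg]; exact bx j i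
  have bw : ∀ i : LA, ‖-i.w‖ ≤ 4 / 5 := fun i => by
    rw [norm_neg]
    nlinarith [i.hw, i.h0, i.h1]
  have p := fun j => Jet.inv1 hq (hx j) (bx j)
  have m := fun j => Jet.inv1 hq (hx j).neg (bx' j)
  have jp := (((p 0).mul hr (p 1)).mul hr (p 2)).mul hr (p 3)
  have jm := (((m 0).mul hr (m 1)).mul hr (m 2)).mul hr (m 3)
  have q := fun j l => Jet.quad ((hx j).mul (hx l)).neg
  have jq := ((((((q 0 0).mul hr (q 0 1)).mul hr (q 0 2)).mul hr (q 0 3)).mul hr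
    (((q 1 1).mul hr (q 1 2)).mul hr (q 1 3))).mul hr ((q 2 2).mul hr (q 2 3))).mul hr (q 3 3)
  have je : Jet r (fun i => 1 / 2 * (∏ j, (1 - i.x j)⁻¹ + ∏ j, (1 + i.x j)⁻¹) + i.w) (fun _ => 0) _ :=
    ⟨Og.zero r 1, jp.2.1.add hw, ((jp.2.2.add jm.2.2).cmul (1 / 2)).congr fun i => by
      simp only [Fin.prod_univ_four, sub_neg_eq_add]; ring⟩
  have jw := Jet.inv2 hr hq hw.neg bw
  obtain ⟨C, hC0, hC⟩ : Og r 3 (fun i => afac i.x i.w - 1) :=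
    ((jq.mul hr je).mul hr jw).2.2.congr fun i => by
      simp only [afac, prod_Ici4, sub_neg_eq_add, ← sub_eq_add_neg]; ring
  exact ⟨C, hC0, fun r x w h0 h1 hx hw => hC ⟨r, x, w, h0, h1, hx, hw⟩⟩

noncomputable def aF (p : Nat.Primes) (z : Fin 4 → ℂ) : ℂ :=
  afac (fun j => ((p : ℕ) : ℂ) ^ (-1 / 2 - z j)) (1 / ((p : ℕ) : ℂ))

theorem Aprod_eq (z : Fin 4 → ℂ) : Aprod 4 z = ∏' p : Nat.Primes, aF p z := by
  refine tprod_congr fun p => ?_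
  have hp : ((p : ℕ) : ℂ) ≠ 0 := Nat.cast_ne_zero.2 p.2.ne_zero
  have : ∀ i j, ((p : ℕ) : ℂ) ^ (-1 - z i - z j) =
      ((p : ℕ) : ℂ) ^ (-1 / 2 - z i) * ((p : ℕ) : ℂ) ^ (-1 / 2 - z j) := fun i j => by
    rw [← cpow_add _ _ hp]; congr 1; ring
  simp only [aF, afac, this]

def aU : Set (Fin 4 → ℂ) := {z | ∀ i, -(1 / 8) < (z i).re}

theorem aU_open : IsOpen aU := by
  unfold aU
  rw [Set.ofPred_forall]
  exact isOpen_iInter_of_finite fun i => isOpen_lt continuous_const (by fun_prop)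

theorem ax_le (p : Nat.Primes) {z : Fin 4 → ℂ} (hz : z ∈ aU) (j : Fin 4) :
    ‖((p : ℕ) : ℂ) ^ (-1 / 2 - z j)‖ ≤ ((p : ℕ) : ℝ) ^ (-(3 / 8) : ℝ) := by
  rw [norm_natCast_cpow_of_pos p.2.pos]
  refine Real.rpow_le_rpow_of_exponent_le (by exact_mod_cast p.2.one_le) ?_
  have := hz j
  simp only [sub_re, div_ofNat_re, neg_re, one_re]
  linarith

theorem ar_le (p : Nat.Primes) : ((p : ℕ) : ℝ) ^ (-(3 / 8) : ℝ) ≤ 4 / 5 := by
  have h2 : (2 : ℝ) ≤ (p : ℕ) := by exact_mod_cast p.2.two_le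
  refine (Real.rpow_le_rpow_of_nonpos two_pos h2 (by norm_num)).trans ?_
  refine le_of_pow_le_pow_left₀ (n := 8) (by norm_num) (by norm_num) ?_
  rw [← Real.rpow_natCast, ← Real.rpow_mul two_pos.le]
  norm_num

theorem aF_le : ∃ C : ℝ, 0 ≤ C ∧ ∀ (p : Nat.Primes), ∀ z ∈ aU,
    ‖aF p z - 1‖ ≤ C * ((p : ℕ) : ℝ) ^ (-(9 / 8) : ℝ) := by
  obtain ⟨C, hC, h⟩ := afac_abs
  refine ⟨C, hC, fun p z hz => ?_⟩
  have pp : (0 : ℝ) < (p : ℕ) := by exact_mod_cast p.2.pos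
  have := h _ _ (1 / ((p : ℕ) : ℂ)) (Real.rpow_nonneg pp.le _) (ar_le p) (ax_le p hz) (by
    rw [norm_div, norm_one, norm_natCast, ← Real.rpow_natCast, ← Real.rpow_mul pp.le, one_div,
      ← Real.rpow_neg_one]
    exact Real.rpow_le_rpow_of_exponent_le (by exact_mod_cast p.2.one_le) (by norm_num))
  rw [← Real.rpow_natCast, ← Real.rpow_mul pp.le] at this
  exact this.trans (le_of_eq (by norm_num))

theorem aF_diff (p : Nat.Primes) {z : Fin 4 → ℂ} (hz : z ∈ aU) : DifferentiableAt ℂ (aF p) z := by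
  have hp : ((p : ℕ) : ℂ) ≠ 0 := Nat.cast_ne_zero.2 p.2.ne_zero
  have hx : ∀ j, DifferentiableAt ℂ (fun z : Fin 4 → ℂ => ((p : ℕ) : ℂ) ^ (-1 / 2 - z j)) z :=
    fun j => DifferentiableAt.const_cpow (by fun_prop) (Or.inl hp)
  have hq : (4 / 5 : ℝ) < 1 := by norm_num
  have n1 : ∀ j, 1 - ((p : ℕ) : ℂ) ^ (-1 / 2 - z j) ≠ 0 := fun j =>
    one_sub_ne hq ((ax_le p hz j).trans (ar_le p))
  have n2 : ∀ j, 1 + ((p : ℕ) : ℂ) ^ (-1 / 2 - z j) ≠ 0 := fun j => by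
    have := one_sub_ne (x := -((p : ℕ) : ℂ) ^ (-1 / 2 - z j)) hq
      (by rw [norm_neg]; exact (ax_le p hz j).trans (ar_le p))
    rwa [sub_neg_eq_add] at this
  unfold aF afac
  refine (DifferentiableAt.fun_mul ?_ ?_).mul_const _
  · exact diff_prod fun i _ => diff_prod fun j _ =>
      ((hx i).fun_mul (hx j)).const_sub _
  · refine (DifferentiableAt.const_mul (DifferentiableAt.fun_add ?_ ?_) _).add_const _
    · exact diff_prod fun j _ => ((hx j).const_sub _).fun_inv (n1 j)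
    · exact diff_prod fun j _ => ((hx j).const_add _).fun_inv (n2 j)

theorem aF_zero_ne (p : Nat.Primes) : aF p 0 ≠ 0 := by
  have pp : (0 : ℝ) < (p : ℕ) := by exact_mod_cast p.2.pos
  set y : ℝ := ((p : ℕ) : ℝ) ^ (-1 / 2 : ℝ) with hy
  have y0 : 0 < y := Real.rpow_pos_of_pos pp _
  have y1 : y < 1 := Real.rpow_lt_one_of_one_lt_of_neg (by exact_mod_cast p.2.one_lt) (by norm_num)
  have e : ((p : ℕ) : ℂ) ^ (-1 / 2 - 0 : ℂ) = (y : ℂ) := by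
    rw [hy, ofReal_cpow pp.le]; norm_num
  have : aF p 0 = (((1 - y * y) ^ 10 * (1 / 2 * ((1 - y)⁻¹ ^ 4 + (1 + y)⁻¹ ^ 4) + 1 / ((p : ℕ) : ℝ)) *
      (1 + 1 / ((p : ℕ) : ℝ))⁻¹ : ℝ) : ℂ) := by
    rw [aF, afac, prod_Ici4]
    simp only [Pi.zero_apply, e, Fin.prod_univ_four]
    push_cast
    ring
  rw [this, ofReal_ne_zero]
  have h1 : 0 < 1 - y := by linarith
  have h2 : 0 < 1 - y * y := by nlinarith
  positivity

theorem pA4H : A4H := by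
  obtain ⟨C, hC, h⟩ := aF_le
  have hs : Summable fun p : Nat.Primes => C * ((p : ℕ) : ℝ) ^ (-(9 / 8) : ℝ) :=
    (Nat.Primes.summable_rpow.2 (by norm_num)).mul_left C
  have key := hs.hasProdLocallyUniformlyOn_one_add (f := fun p z => aF p z - 1) aU_open
    (Filter.Eventually.of_forall fun p z hz => h p z hz)
    (fun p z hz => ((aF_diff p hz).sub_const 1).continuousAt.continuousWithinAt)
  have key' : TendstoLocallyUniformlyOn (fun (s : Finset Nat.Primes) z => ∏ p ∈ s, aF p z)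
      (Aprod 4) Filter.atTop aU := by
    have e : Aprod 4 = fun z => ∏' p, aF p z := funext Aprod_eq
    rw [e]
    simpa only [HasProdLocallyUniformlyOn, add_sub_cancel] using key
  have hsum : ∀ z ∈ aU, Summable fun p => ‖aF p z - 1‖ := fun z hz =>
    hs.of_nonneg_of_le (fun _ => norm_nonneg _) fun p => h p z hz
  have hone : ∀ z, Aprod 4 z = ∏' p, (1 + (aF p z - 1)) := fun z => by
    simp only [Aprod_eq, add_sub_cancel]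
  refine ⟨⟨?_, fun z hz i => ?_⟩, ⟨Real.exp (∑' p : Nat.Primes, C * ((p : ℕ) : ℝ) ^ (-(9 / 8) : ℝ)),
    fun z hz => ?_⟩, ?_⟩
  · exact key'.continuousOn (Filter.Eventually.frequently (Filter.Eventually.of_forall
      fun s z hz => (diff_prod fun p _ =>
        aF_diff p hz).continuousAt.continuousWithinAt))
  · have hγ : Differentiable ℂ fun w : ℂ => Function.update z i w := fun w =>
      (hasDerivAt_update z i w).differentiableAt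
    have ho : IsOpen ((fun w : ℂ => Function.update z i w) ⁻¹' aU) :=
      aU_open.preimage hγ.continuous
    have h1 := key'.comp _ (Set.mapsTo_preimage _ _) hγ.continuous.continuousOn
    have h2 := h1.differentiableOn (Filter.Eventually.of_forall fun s t ht =>
      ((diff_prod fun p _ => aF_diff p ht).comp t
        (hγ t)).differentiableWithinAt) ho
    exact h2.differentiableAt (ho.mem_nhds (by
      change Function.update z i (z i) ∈ aU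
      rw [Function.update_eq_self]; exact hz))
  · rw [hone]
    exact (pPRD _ (hsum z hz)).2.2.trans
      (Real.exp_le_exp.2 ((hsum z hz).tsum_le_tsum (fun p => h p z hz) hs))
  · rw [hone]
    exact tprod_one_add_ne_zero_of_summable (fun p => by simpa using aF_zero_ne p)
      (hsum 0 fun i => by simp)

end Pool.Agent.Q4
end
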