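import Pool.Agent.P.MP_ea46f5_nt.QM.S1

namespace Pool.Agent.QM

open Complex MeasureTheory Finset
open scoped Real ComplexConjugate

open Filter Topology

theorem sh_br_one (t : ℝ) : 1 ≤ br t := by
  unfold br
  linarith [abs_nonneg t]

theorem sh_br_pos (t : ℝ) : 0 < br t := lt_of_lt_of_le one_pos (sh_br_one t)

theorem sh_int_maj (C : ℝ) : Integrable fun t : ℝ => C / br t ^ 2 := by
  have h : Integrable fun t : ℝ => (br t ^ 2)⁻¹ := by
    refine integrable_inv_one_add_sq.mono' ?_ (Eventually.of_forall fun t => ?_)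
    · refine Continuous.aestronglyMeasurable (Continuous.inv₀ (by unfold br; fun_prop) fun t => ?_)
      exact (pow_pos (sh_br_pos t) 2).ne'
    · rw [Real.norm_of_nonneg (by positivity)]
      refine inv_anti₀ (by positivity) ?_
      unfold br
      nlinarith [abs_nonneg t, sq_abs t]
  simpa only [div_eq_mul_inv] using h.const_mul C

theorem sh_int {c C : ℝ} {f : ℂ → ℂ} (hc : Continuous fun t : ℝ => f (c + t * I))
    (hb : ∀ t : ℝ, ‖f (c + t * I)‖ ≤ C / br t ^ 2) : Integrable fun t : ℝ => f (c + t * I) :=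
  (sh_int_maj C).mono' hc.aestronglyMeasurable (Eventually.of_forall hb)

theorem sh_tend (C : ℝ) : Tendsto (fun T : ℝ => C / br T ^ 2) atTop (𝓝 0) := by
  refine Tendsto.div_atTop tendsto_const_nhds ((tendsto_pow_atTop two_ne_zero).comp ?_)
  exact tendsto_atTop_add_const_left _ 1 tendsto_abs_atTop_atTop

theorem sh_lim {a b C T₀ : ℝ} {f : ℂ → ℂ} {K : ℂ} (hab : a ≤ b)
    (ha : Integrable fun t : ℝ => f (a + t * I)) (hb : Integrable fun t : ℝ => f (b + t * I))
    (hh : ∀ T : ℝ, T₀ ≤ |T| → ∀ x : ℝ, a ≤ x → x ≤ b → ‖f (x + T * I)‖ ≤ C / br T ^ 2)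
    (hr : ∀ T : ℝ, T₀ ≤ T → (∫ x : ℝ in a..b, f (x + (-T : ℝ) * I)) -
      (∫ x : ℝ in a..b, f (x + T * I)) + I * (∫ y : ℝ in (-T)..T, f (b + y * I)) -
      I * (∫ y : ℝ in (-T)..T, f (a + y * I)) = I * K) :
    Iv b f = Iv a f + K := by
  have hz : ∀ σ : ℝ → ℝ, (∀ T, |σ T| = |T|) →
      Tendsto (fun T : ℝ => ∫ x : ℝ in a..b, f (x + (σ T : ℝ) * I)) atTop (𝓝 0) := by
    intro σ hσ
    have h0 := (sh_tend C).mul_const |b - a|
    rw [zero_mul] at h0
    refine squeeze_zero_norm' ?_ h0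
    filter_upwards [eventually_ge_atTop T₀] with T hT
    refine intervalIntegral.norm_integral_le_of_norm_le_const fun x hx => ?_
    rw [Set.uIoc_of_le hab] at hx
    have := hh (σ T) (by rw [hσ]; exact hT.trans (le_abs_self T)) x hx.1.le hx.2
    rwa [br, hσ] at this
  have h1 := intervalIntegral_tendsto_integral ha tendsto_neg_atTop_atBot tendsto_id
  have h2 := intervalIntegral_tendsto_integral hb tendsto_neg_atTop_atBot tendsto_id
  have h3 := (((hz (fun T => -T) abs_neg).sub (hz (fun T => T) fun _ => rfl)).add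
    (h2.const_mul I)).sub (h1.const_mul I)
  have h4 := tendsto_nhds_unique_of_eventuallyEq h3 (tendsto_const_nhds (x := I * K))
    ((eventually_ge_atTop T₀).mono hr)
  refine mul_left_cancel₀ I_ne_zero ?_
  unfold Iv
  linear_combination h4

theorem sh_mem {a b x : ℝ} (y : ℝ) (h1 : a ≤ x) (h2 : x ≤ b) : (x + y * I : ℂ) ∈ Strip a b := by
  simpa [Strip] using ⟨h1, h2⟩

theorem sh_line {S : Set ℂ} {c : ℝ} {f : ℂ → ℂ} (hf : ContinuousOn f S)
    (h : ∀ t : ℝ, (c + t * I : ℂ) ∈ S) : Continuous fun t : ℝ => f (c + t * I) :=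
  hf.comp_continuous (by fun_prop) h

theorem pSH0 : SH0 := by
  intro a b C f hab hf hb
  have hb' : ∀ x y : ℝ, a ≤ x → x ≤ b → ‖f (x + y * I)‖ ≤ C / br y ^ 2 := fun x y h1 h2 => by
    simpa using hb _ (sh_mem y h1 h2)
  have h := sh_lim (C := C) (T₀ := 0) (K := 0) hab
    (sh_int (sh_line hf.1 fun t => sh_mem t le_rfl hab) fun t => hb' a t le_rfl hab)
    (sh_int (sh_line hf.1 fun t => sh_mem t hab le_rfl) fun t => hb' b t hab le_rfl)
    (fun T _ x h1 h2 => hb' x T h1 h2) fun T _ => ?_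
  · rw [h, add_zero]
  have := integral_boundary_rect_eq_zero_of_continuousOn_of_differentiableOn f
    (a + (-T : ℝ) * I) (b + T * I) (hf.1.mono fun s hs => ?_) (hf.2.mono fun s hs => ?_)
  · simpa using this
  · have := hs.1
    simpa [Set.uIcc_of_le hab, Strip] using this
  · have := hs.1
    simpa [hab, OStrip] using this

theorem sh_path {U : Set ℂ} {f F : ℂ → ℂ} (hF : ∀ s ∈ U, HasDerivAt F (f s) s)
    (hc : ContinuousOn f U) {γ γ' : ℝ → ℂ} (hγ : ∀ t, HasDerivAt γ (γ' t) t) (hγ' : Continuous γ')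
    {u v : ℝ} (hm : ∀ t ∈ Set.uIcc u v, γ t ∈ U) :
    ∫ t in u..v, γ' t * f (γ t) = F (γ v) - F (γ u) := by
  have hγc : Continuous γ := continuous_iff_continuousAt.2 fun t => (hγ t).continuousAt
  refine intervalIntegral.integral_eq_sub_of_hasDerivAt (f := fun t => F (γ t)) (fun t ht => ?_)
    (ContinuousOn.intervalIntegrable (hγ'.continuousOn.mul (hc.comp hγc.continuousOn hm)))
  have := (hF _ (hm t ht)).scomp t (hγ t)
  simpa [Function.comp_def] using this

theorem sh_prim {U : Set ℂ} {f : ℂ → ℂ} (ho : IsOpen U) (hc : Convex ℝ U)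
    (hf : DifferentiableOn ℂ f U) : ∃ F : ℂ → ℂ, ∀ s ∈ U, HasDerivAt F (f s) s := by
  obtain ⟨F, hF⟩ := hc.exists_forall_hasDerivWithinAt hf
  exact ⟨F, fun s hs => (hF s hs).hasDerivAt (ho.mem_nhds hs)⟩

theorem sh_seg {U : Set ℂ} {f F : ℂ → ℂ} (hU : Convex ℝ U) (hF : ∀ s ∈ U, HasDerivAt F (f s) s)
    (hc : ContinuousOn f U) {p q : ℂ} (hp : p ∈ U) (hq : q ∈ U) :
    ∫ t in (0 : ℝ)..1, (q - p) * f (p + t * (q - p)) = F q - F p := by
  have h := sh_path hF hc (γ := fun t : ℝ => p + t * (q - p)) (γ' := fun _ => q - p)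
    (fun t => by simpa using ((ofRealCLM.hasDerivAt (x := t)).mul_const (q - p)).const_add p)
    continuous_const (u := 0) (v := 1) fun t ht => by
      rw [Set.uIcc_of_le zero_le_one] at ht
      simpa using hU.add_smul_sub_mem hp hq ht
  simpa using h

theorem sh_hor {U : Set ℂ} {f F : ℂ → ℂ} (hF : ∀ s ∈ U, HasDerivAt F (f s) s)
    (hc : ContinuousOn f U) {u v y : ℝ} (hm : ∀ t ∈ Set.uIcc u v, (t + y * I : ℂ) ∈ U) :
    ∫ t in u..v, f (t + y * I) = F (v + y * I) - F (u + y * I) := by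
  have h := sh_path hF hc (γ := fun t : ℝ => t + y * I) (γ' := fun _ => 1)
    (fun t => by simpa using (ofRealCLM.hasDerivAt (x := t)).add_const (y * I))
    continuous_const hm
  simpa using h

theorem sh_ver {U : Set ℂ} {f F : ℂ → ℂ} (hF : ∀ s ∈ U, HasDerivAt F (f s) s)
    (hc : ContinuousOn f U) {u v x : ℝ} (hm : ∀ t ∈ Set.uIcc u v, (x + t * I : ℂ) ∈ U) :
    I * ∫ t in u..v, f (x + t * I) = F (x + v * I) - F (x + u * I) := by
  have h := sh_path hF hc (γ := fun t : ℝ => x + t * I) (γ' := fun _ => I)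
    (fun t => by simpa using ((ofRealCLM.hasDerivAt (x := t)).mul_const I).const_add (x : ℂ))
    continuous_const hm
  rwa [intervalIntegral.integral_const_mul] at h

theorem sh_circ_re (z : ℂ) (ρ θ : ℝ) : (z + ρ * cexp (θ * I)).re = z.re + ρ * Real.cos θ := by
  rw [add_re, re_ofReal_mul, exp_ofReal_mul_I_re]

theorem sh_circ_im (z : ℂ) (ρ θ : ℝ) : (z + ρ * cexp (θ * I)).im = z.im + ρ * Real.sin θ := by
  rw [add_im, im_ofReal_mul, exp_ofReal_mul_I_im]

theorem sh_circ_norm (z : ℂ) {ρ : ℝ} (hρ : 0 < ρ) (θ : ℝ) :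
    ‖z + ρ * cexp (θ * I) - z‖ = ρ := by
  rw [add_sub_cancel_left, norm_mul, norm_exp_ofReal_mul_I, mul_one, norm_real,
    Real.norm_of_nonneg hρ.le]

theorem sh_circ_ne (z : ℂ) {ρ : ℝ} (hρ : 0 < ρ) (θ : ℝ) : z + ρ * cexp (θ * I) ≠ z := by
  intro h
  have := sh_circ_norm z hρ θ
  rw [h, sub_self, norm_zero] at this
  exact hρ.ne this

theorem sh_circ_mem {a b ρ : ℝ} {z : ℂ} (hρ : 0 < ρ) (ha : a < z.re - ρ) (hb : z.re + ρ < b)
    (θ : ℝ) : z + ρ * cexp (θ * I) ∈ OStrip a b := by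
  have h1 := mul_le_mul_of_nonneg_left (Real.cos_le_one θ) hρ.le
  have h2 := mul_le_mul_of_nonneg_left (Real.neg_one_le_cos θ) hρ.le
  constructor <;> rw [sh_circ_re] <;> linarith

theorem sh_arc {U : Set ℂ} {f F : ℂ → ℂ} (hF : ∀ s ∈ U, HasDerivAt F (f s) s)
    (hc : ContinuousOn f U) {z : ℂ} {ρ u v : ℝ} (huv : u ≤ v)
    (hm : ∀ t : ℝ, u ≤ t → t ≤ v → z + ρ * cexp (t * I) ∈ U) :
    I * ∫ t in u..v, (ρ * cexp (t * I)) * f (z + ρ * cexp (t * I)) =
      F (z + ρ * cexp (v * I)) - F (z + ρ * cexp (u * I)) := by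
  have h := sh_path hF hc (γ := fun t : ℝ => z + ρ * cexp (t * I))
    (γ' := fun t : ℝ => I * (ρ * cexp (t * I))) (fun t => ?_) (by fun_prop) (u := u) (v := v)
    fun t ht => by
      rw [Set.uIcc_of_le huv] at ht
      exact hm t ht.1 ht.2
  · rw [← h, ← intervalIntegral.integral_const_mul]
    simp only [mul_assoc]
  · have := (((ofRealCLM.hasDerivAt (x := t)).mul_const I).cexp.const_mul (ρ : ℂ)).const_add z
    refine HasDerivAt.congr_deriv this ?_
    simp only [ofRealCLM_apply, ofReal_one]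
    ring

/-- A rectangle around an isolated singularity against a circle. -/
theorem sh_rect {a b ρ T : ℝ} {f : ℂ → ℂ} {z : ℂ} (hρ : 0 < ρ) (ha : a < z.re - ρ)
    (hb : z.re + ρ < b) (hf : DifferentiableOn ℂ f (OStrip a b \ {z})) (hT : |z.im| < T) :
    (∫ x : ℝ in (z.re - ρ)..(z.re + ρ), f (x + (-T : ℝ) * I)) -
      (∫ x : ℝ in (z.re - ρ)..(z.re + ρ), f (x + T * I)) +
      I * (∫ y : ℝ in (-T)..T, f ((z.re + ρ : ℝ) + y * I)) -
      I * (∫ y : ℝ in (-T)..T, f ((z.re - ρ : ℝ) + y * I)) = I * Oc z ρ f := by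
  have hWo : IsOpen (OStrip a b) :=
    (isOpen_lt continuous_const continuous_re).inter (isOpen_lt continuous_re continuous_const)
  have hWc : Convex ℝ (OStrip a b) := (convex_halfSpace_re_gt a).inter (convex_halfSpace_re_lt b)
  have hT' := abs_lt.1 hT
  have hpi := Real.pi_pos
  set R := OStrip a b ∩ {s : ℂ | z.re < s.re} with hR
  set U := OStrip a b ∩ {s : ℂ | z.im < s.im} with hU
  set L := OStrip a b ∩ {s : ℂ | s.re < z.re} with hL
  set D := OStrip a b ∩ {s : ℂ | s.im < z.im} with hD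
  have cR : Convex ℝ R := hWc.inter (convex_halfSpace_re_gt _)
  have cU : Convex ℝ U := hWc.inter (convex_halfSpace_im_gt _)
  have cL : Convex ℝ L := hWc.inter (convex_halfSpace_re_lt _)
  have cD : Convex ℝ D := hWc.inter (convex_halfSpace_im_lt _)
  have dR : DifferentiableOn ℂ f R := hf.mono fun s hs =>
    ⟨hs.1, fun h => by rw [h] at hs; exact lt_irrefl _ (show z.re < z.re from hs.2)⟩
  have dU : DifferentiableOn ℂ f U := hf.mono fun s hs =>
    ⟨hs.1, fun h => by rw [h] at hs; exact lt_irrefl _ (show z.im < z.im from hs.2)⟩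
  have dL : DifferentiableOn ℂ f L := hf.mono fun s hs =>
    ⟨hs.1, fun h => by rw [h] at hs; exact lt_irrefl _ (show z.re < z.re from hs.2)⟩
  have dD : DifferentiableOn ℂ f D := hf.mono fun s hs =>
    ⟨hs.1, fun h => by rw [h] at hs; exact lt_irrefl _ (show z.im < z.im from hs.2)⟩
  obtain ⟨FR, hFR⟩ := sh_prim (hWo.inter (isOpen_lt continuous_const continuous_re)) cR dR
  obtain ⟨FU, hFU⟩ := sh_prim (hWo.inter (isOpen_lt continuous_const continuous_im)) cU dU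
  obtain ⟨FL, hFL⟩ := sh_prim (hWo.inter (isOpen_lt continuous_re continuous_const)) cL dL
  obtain ⟨FD, hFD⟩ := sh_prim (hWo.inter (isOpen_lt continuous_im continuous_const)) cD dD
  have mW : ∀ x y : ℝ, z.re - ρ ≤ x → x ≤ z.re + ρ → (x + y * I : ℂ) ∈ OStrip a b := by
    intro x y h1 h2
    constructor <;> simp <;> linarith
  have hle : z.re - ρ ≤ z.re + ρ := by linarith
  have mR : ∀ y : ℝ, ((z.re + ρ : ℝ) + y * I : ℂ) ∈ R := fun y =>
    ⟨mW _ y hle le_rfl, by simpa using hρ⟩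
  have mL : ∀ y : ℝ, ((z.re - ρ : ℝ) + y * I : ℂ) ∈ L := fun y =>
    ⟨mW _ y le_rfl hle, by simpa using hρ⟩
  have mU : ∀ x : ℝ, z.re - ρ ≤ x → x ≤ z.re + ρ → (x + T * I : ℂ) ∈ U := fun x h1 h2 =>
    ⟨mW x T h1 h2, by simpa using hT'.2⟩
  have mD : ∀ x : ℝ, z.re - ρ ≤ x → x ≤ z.re + ρ → (x + (-T : ℝ) * I : ℂ) ∈ D := fun x h1 h2 =>
    ⟨mW x (-T) h1 h2, by simpa using hT'.1⟩
  have aR : ∀ θ : ℝ, 0 < Real.cos θ → z + ρ * cexp (θ * I) ∈ R := fun θ h =>
    ⟨sh_circ_mem hρ ha hb θ, by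
      change z.re < _
      rw [sh_circ_re]; linarith [mul_pos hρ h]⟩
  have aU : ∀ θ : ℝ, 0 < Real.sin θ → z + ρ * cexp (θ * I) ∈ U := fun θ h =>
    ⟨sh_circ_mem hρ ha hb θ, by
      change z.im < _
      rw [sh_circ_im]; linarith [mul_pos hρ h]⟩
  have aL : ∀ θ : ℝ, Real.cos θ < 0 → z + ρ * cexp (θ * I) ∈ L := fun θ h =>
    ⟨sh_circ_mem hρ ha hb θ, by
      change _ < z.re
      rw [sh_circ_re]; linarith [mul_neg_of_pos_of_neg hρ h]⟩
  have aD : ∀ θ : ℝ, Real.sin θ < 0 → z + ρ * cexp (θ * I) ∈ D := fun θ h =>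
    ⟨sh_circ_mem hρ ha hb θ, by
      change _ < z.im
      rw [sh_circ_im]; linarith [mul_neg_of_pos_of_neg hρ h]⟩
  have b1 : ∀ t : ℝ, 0 ≤ t → t ≤ π / 4 → z + ρ * cexp (t * I) ∈ R := fun t h1 h2 =>
    aR t (Real.cos_pos_of_mem_Ioo ⟨by linarith, by linarith⟩)
  have b2 : ∀ t : ℝ, π / 4 ≤ t → t ≤ 3 * π / 4 → z + ρ * cexp (t * I) ∈ U := fun t h1 h2 =>
    aU t (Real.sin_pos_of_pos_of_lt_pi (by linarith) (by linarith))
  have b3 : ∀ t : ℝ, 3 * π / 4 ≤ t → t ≤ 5 * π / 4 → z + ρ * cexp (t * I) ∈ L := fun t h1 h2 =>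
    aL t (Real.cos_neg_of_pi_div_two_lt_of_lt (by linarith) (by linarith))
  have b4 : ∀ t : ℝ, 5 * π / 4 ≤ t → t ≤ 7 * π / 4 → z + ρ * cexp (t * I) ∈ D := fun t h1 h2 =>
    aD t (by
      rw [← Real.sin_sub_two_pi]
      exact Real.sin_neg_of_neg_of_neg_pi_lt (by linarith) (by linarith))
  have b5 : ∀ t : ℝ, 7 * π / 4 ≤ t → t ≤ 2 * π → z + ρ * cexp (t * I) ∈ R := fun t h1 h2 =>
    aR t (by
      rw [← Real.cos_sub_two_pi]
      exact Real.cos_pos_of_mem_Ioo ⟨by linarith, by linarith⟩)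
  have e1 := sh_arc hFR dR.continuousOn (by linarith) b1
  have e2 := sh_arc hFU dU.continuousOn (by linarith) b2
  have e3 := sh_arc hFL dL.continuousOn (by linarith) b3
  have e4 := sh_arc hFD dD.continuousOn (by linarith) b4
  have e5 := sh_arc hFR dR.continuousOn (by linarith) b5
  have e0 : cexp (((2 * π : ℝ) : ℂ) * I) = cexp (((0 : ℝ) : ℂ) * I) := by
    push_cast
    rw [exp_two_pi_mul_I, zero_mul, Complex.exp_zero]
  rw [e0] at e5
  have hint : ∀ u v : ℝ, IntervalIntegrable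
      (fun t : ℝ => (ρ * cexp (t * I)) * f (z + ρ * cexp (t * I))) volume u v := fun u v =>
    Continuous.intervalIntegrable (Continuous.mul (by fun_prop)
      (hf.continuousOn.comp_continuous (by fun_prop) fun t =>
        ⟨sh_circ_mem hρ ha hb t, sh_circ_ne z hρ t⟩)) u v
  have s1 := intervalIntegral.integral_add_adjacent_intervals (hint 0 (π / 4))
    (hint (π / 4) (3 * π / 4))
  have s2 := intervalIntegral.integral_add_adjacent_intervals (hint 0 (3 * π / 4))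
    (hint (3 * π / 4) (5 * π / 4))
  have s3 := intervalIntegral.integral_add_adjacent_intervals (hint 0 (5 * π / 4))
    (hint (5 * π / 4) (7 * π / 4))
  have s4 := intervalIntegral.integral_add_adjacent_intervals (hint 0 (7 * π / 4))
    (hint (7 * π / 4) (2 * π))
  have r1 := sh_ver hFR dR.continuousOn (u := -T) (v := T) fun t _ => mR t
  have r2 := sh_ver hFL dL.continuousOn (u := -T) (v := T) fun t _ => mL t
  have r3 := sh_hor hFU dU.continuousOn (u := z.re - ρ) (v := z.re + ρ) fun t ht => by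
    rw [Set.uIcc_of_le hle] at ht
    exact mU t ht.1 ht.2
  have r4 := sh_hor hFD dD.continuousOn (u := z.re - ρ) (v := z.re + ρ) fun t ht => by
    rw [Set.uIcc_of_le hle] at ht
    exact mD t ht.1 ht.2
  have c1 := (sh_seg cR hFR dR.continuousOn (b1 (π / 4) (by linarith) le_rfl) (mR T)).symm.trans
    (sh_seg cU hFU dU.continuousOn (b2 (π / 4) le_rfl (by linarith)) (mU _ hle le_rfl))
  have c2 := (sh_seg cL hFL dL.continuousOn (b3 (3 * π / 4) le_rfl (by linarith)) (mL T)).symm.trans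
    (sh_seg cU hFU dU.continuousOn (b2 (3 * π / 4) (by linarith) le_rfl) (mU _ le_rfl hle))
  have c3 := (sh_seg cL hFL dL.continuousOn (b3 (5 * π / 4) (by linarith) le_rfl)
    (mL (-T))).symm.trans
    (sh_seg cD hFD dD.continuousOn (b4 (5 * π / 4) le_rfl (by linarith)) (mD _ le_rfl hle))
  have c4 := (sh_seg cR hFR dR.continuousOn (b5 (7 * π / 4) le_rfl (by linarith))
    (mR (-T))).symm.trans
    (sh_seg cD hFD dD.continuousOn (b4 (7 * π / 4) (by linarith) le_rfl) (mD _ hle le_rfl))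
  unfold Oc
  rw [← s4, ← s3, ← s2, ← s1]
  linear_combination r4 - r3 + r1 - r2 - e1 - e2 - e3 - e4 - e5 + c1 - c2 + c3 - c4

/-- Shift of a line integral across an isolated singularity. -/
theorem sh_gen {a b C ρ : ℝ} {f : ℂ → ℂ} {z : ℂ} (hρ : 0 < ρ) (ha : a < z.re - ρ)
    (hb : z.re + ρ < b) (hc : ContinuousOn f (Strip a b \ {z}))
    (hf : DifferentiableOn ℂ f (OStrip a b \ {z}))
    (hm : ∀ s ∈ Strip a b, ρ ≤ ‖s - z‖ → ‖f s‖ ≤ C / br s.im ^ 2) :
    Iv b f = Iv a f + Oc z ρ f := by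
  have far : ∀ s : ℂ, s.re ≤ z.re - ρ ∨ z.re + ρ ≤ s.re → ρ ≤ ‖s - z‖ := by
    intro s hs
    refine le_trans ?_ (abs_re_le_norm _)
    rw [sub_re, le_abs]
    rcases hs with h | h
    · right; linarith
    · left; linarith
  have ne : ∀ s : ℂ, ρ ≤ ‖s - z‖ → s ≠ z := by
    rintro s hs rfl
    simp at hs
    linarith
  have h1 : Iv (z.re - ρ) f = Iv a f := by
    refine pSH0 a _ C f ha.le ⟨hc.mono fun s hs => ?_, hf.mono fun s hs => ?_⟩ fun s hs => ?_
    · exact ⟨⟨hs.1, by linarith [hs.2]⟩, ne s (far s (Or.inl hs.2))⟩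
    · exact ⟨⟨hs.1, by linarith [hs.2]⟩, ne s (far s (Or.inl hs.2.le))⟩
    · exact hm s ⟨hs.1, by linarith [hs.2]⟩ (far s (Or.inl hs.2))
  have h2 : Iv b f = Iv (z.re + ρ) f := by
    refine pSH0 _ b C f hb.le ⟨hc.mono fun s hs => ?_, hf.mono fun s hs => ?_⟩ fun s hs => ?_
    · exact ⟨⟨by linarith [hs.1], hs.2⟩, ne s (far s (Or.inr hs.1))⟩
    · exact ⟨⟨by linarith [hs.1], hs.2⟩, ne s (far s (Or.inr hs.1.le))⟩
    · exact hm s ⟨by linarith [hs.1], hs.2⟩ (far s (Or.inr hs.1))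
  have hi : ∀ c : ℝ, a ≤ c → c ≤ b → (c ≤ z.re - ρ ∨ z.re + ρ ≤ c) →
      Integrable fun t : ℝ => f (c + t * I) := by
    intro c g1 g2 g3
    have g4 : ∀ t : ℝ, ρ ≤ ‖(c + t * I : ℂ) - z‖ := fun t => far _ (by simpa using g3)
    refine sh_int (C := C) (sh_line hc fun t => ⟨sh_mem t g1 g2, ne _ (g4 t)⟩) fun t => ?_
    simpa using hm _ (sh_mem t g1 g2) (g4 t)
  rw [h2, ← h1]
  refine sh_lim (C := C) (T₀ := |z.im| + ρ) (by linarith)
    (hi _ ha.le (by linarith) (Or.inl le_rfl)) (hi _ (by linarith) hb.le (Or.inr le_rfl))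
    (fun T hT x g1 g2 => ?_) fun T hT => sh_rect hρ ha hb hf (by linarith)
  have g4 : ρ ≤ ‖(x + T * I : ℂ) - z‖ := by
    refine le_trans ?_ (abs_im_le_norm _)
    have := abs_sub_abs_le_abs_sub T z.im
    simp only [sub_im, add_im, ofReal_im, mul_im, ofReal_re, I_im, mul_one, I_re, mul_zero,
      add_zero, zero_add]
    linarith
  simpa using hm _ (sh_mem T (by linarith) (by linarith)) g4

theorem sh_inv_le {ρ : ℝ} {s z : ℂ} (hρ : 0 < ρ) (h : ρ ≤ ‖s - z‖) :
    1 / ‖s - z‖ ≤ (br z.im / ρ + 1) / br s.im := by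
  have h0 : 0 < ‖s - z‖ := hρ.trans_le h
  rw [div_le_div_iff₀ h0 (sh_br_pos _), one_mul, add_mul, one_mul]
  have h1 : br z.im ≤ br z.im / ρ * ‖s - z‖ := by
    rw [div_mul_eq_mul_div, le_div_iff₀ hρ]
    exact mul_le_mul_of_nonneg_left h (sh_br_pos _).le
  have h2 := abs_im_le_norm (s - z)
  have h3 := abs_sub_abs_le_abs_sub s.im z.im
  rw [sub_im] at h2
  unfold br at h1 ⊢
  linarith

theorem sh_pole (n : ℕ) {a b C ρ : ℝ} {f : ℂ → ℂ} {z : ℂ} (hρ : 0 < ρ) (ha : a < z.re - ρ)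
    (hb : z.re + ρ < b) (hf : Nice a b f) (hm : ∀ s ∈ Strip a b, ‖f s‖ ≤ C / br s.im) :
    Iv b (fun s => f s / (s - z) ^ (n + 1)) =
      Iv a (fun s => f s / (s - z) ^ (n + 1)) + Oc z ρ (fun s => f s / (s - z) ^ (n + 1)) := by
  have hne : ∀ {S : Set ℂ}, ∀ s ∈ S \ {z}, (s - z) ^ (n + 1) ≠ 0 := fun s hs =>
    pow_ne_zero _ (sub_ne_zero.2 hs.2)
  refine sh_gen (C := C * (br z.im / ρ + 1) / ρ ^ n) hρ ha hb
    ((hf.1.mono Set.sdiff_subset).div (by fun_prop) hne)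
    ((hf.2.mono Set.sdiff_subset).div (by fun_prop) hne) fun s hs h => ?_
  have h0 : 0 < ‖s - z‖ := hρ.trans_le h
  have h1 := hm s hs
  have h2 := sh_inv_le hρ h
  have h3 : 1 / ‖s - z‖ ^ n ≤ 1 / ρ ^ n :=
    one_div_le_one_div_of_le (by positivity) (pow_le_pow_left₀ hρ.le h n)
  have hb0 := sh_br_pos s.im
  have hz0 := sh_br_pos z.im
  calc ‖f s / (s - z) ^ (n + 1)‖ = ‖f s‖ * (1 / ‖s - z‖ * (1 / ‖s - z‖ ^ n)) := by
        rw [norm_div, norm_pow, pow_succ]; field_simp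
    _ ≤ C / br s.im * ((br z.im / ρ + 1) / br s.im * (1 / ρ ^ n)) :=
        mul_le_mul h1 (mul_le_mul h2 h3 (by positivity) (by positivity)) (by positivity)
          ((norm_nonneg _).trans h1)
    _ = _ := by field_simp

theorem sh_Oc (z : ℂ) (ρ : ℝ) (f : ℂ → ℂ) : I * Oc z ρ f = ∮ s in C(z, ρ), f s := by
  unfold Oc circleIntegral
  rw [← intervalIntegral.integral_const_mul]
  refine intervalIntegral.integral_congr fun θ _ => ?_
  simp only [deriv_circleMap, circleMap, smul_eq_mul]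
  ring

theorem pSH1 : SH1 := by
  intro a b C f z ha hb hf hm
  set ρ := min (z.re - a) (b - z.re) / 2 with hρ
  have h1 := min_le_left (z.re - a) (b - z.re)
  have h2 := min_le_right (z.re - a) (b - z.re)
  have h0 : 0 < min (z.re - a) (b - z.re) := lt_min (by linarith) (by linarith)
  have hρ0 : 0 < ρ := by positivity
  have h := sh_pole 0 hρ0 (by linarith) (by linarith) hf hm
  simp only [zero_add, pow_one] at h
  rw [h]
  congr 1
  refine mul_left_cancel₀ I_ne_zero ?_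
  have hd : DifferentiableOn ℂ f (Metric.closedBall z ρ) := hf.2.mono fun s hs => by
    have := (abs_re_le_norm (s - z)).trans (mem_closedBall_iff_norm.1 hs)
    rw [sub_re, abs_le] at this
    constructor <;> linarith [this.1, this.2]
  have := hd.circleIntegral_sub_inv_smul (Metric.mem_ball_self hρ0)
  rw [sh_Oc]
  simp only [smul_eq_mul] at this
  simp only [div_eq_inv_mul]
  rw [this]
  ring

theorem pSH2 : SH2 := fun _ _ _ _ _ _ hρ ha hb hf hm => sh_pole 1 hρ ha hb hf hm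

end Pool.Agent.QM
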