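import Pool.Agent.P.MP_ea46f5_nt.Q4.T
import Pool.Agent.K.MP_ea46f5_nt.C4
import Pool.Agent.K.MP_ea46f5_nt.C1

namespace Pool.Agent.Q4

open Complex MeasureTheory Finset
open scoped Real
open Pool.Agent.QM

theorem pt_re {n : ℕ} (c t : Fin n → ℝ) (i : Fin n) : (pt c t i).re = c i := by simp [pt]

theorem pt_im {n : ℕ} (c t : Fin n → ℝ) (i : Fin n) : (pt c t i).im = t i := by simp [pt]

theorem pt_cont {n : ℕ} (c : Fin n → ℝ) : Continuous (pt c) := by
  unfold pt; fun_prop

theorem dk_pt {n : ℕ} (c t : Fin n → ℝ) : dk (pt c t) = ∏ i, 1 / br (t i) ^ 2 := by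
  simp only [dk, pt_im]

theorem dk_pos {n : ℕ} (s : Fin n → ℂ) : 0 < dk s :=
  prod_pos fun i _ => by have := sh_br_pos (s i).im; positivity

theorem one_div_br_le (t : ℝ) : 1 / br t ^ 2 ≤ 1 := by
  rw [div_le_one (pow_pos (sh_br_pos t) 2)]
  exact one_le_pow₀ (sh_br_one t)

theorem dk_le_one {n : ℕ} (s : Fin n → ℂ) : dk s ≤ 1 :=
  prod_le_one (fun i _ => by have := sh_br_pos (s i).im; positivity) fun i _ => one_div_br_le _

theorem dk_int {n : ℕ} : Integrable fun t : Fin n → ℝ => ∏ i, 1 / br (t i) ^ 2 :=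
  Integrable.fintype_prod (f := fun _ (x : ℝ) => 1 / br x ^ 2) fun _ => pDEC.2.2.2.1.1

theorem dk_integral {n : ℕ} : ∫ t : Fin n → ℝ, ∏ i, 1 / br (t i) ^ 2 ≤ 2 ^ n := by
  rw [integral_fintype_prod_volume_eq_pow (fun x : ℝ => 1 / br x ^ 2), Fintype.card_fin]
  exact pow_le_pow_left₀ (integral_nonneg fun x => by positivity) pDEC.2.2.2.1.2 n

theorem pINB : INB := by
  intro n c C G hc hb
  simp only [dk_pt] at hb
  have hC : 0 ≤ C := by
    have h := (norm_nonneg _).trans (hb 0)
    simpa [br] using h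
  refine ⟨(dk_int.const_mul C).mono' hc.aestronglyMeasurable (.of_forall hb), ?_⟩
  refine (norm_integral_le_of_norm_le (dk_int.const_mul C) (.of_forall hb)).trans ?_
  rw [integral_const_mul]
  exact mul_le_mul_of_nonneg_left dk_integral hC

/-- Fubini, coordinate `i` inside. -/
theorem int_ins {n : ℕ} (i : Fin (n + 1)) (f : (Fin (n + 1) → ℝ) → ℂ) (hf : Integrable f) :
    ∫ t, f t = ∫ y : Fin n → ℝ, ∫ x : ℝ, f (i.insertNth x y) := by
  have hem := (volume_preserving_piFinSuccAbove (fun _ : Fin (n + 1) => ℝ) i).symm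
  rw [← hem.integral_comp', Measure.volume_eq_prod, integral_prod_symm]
  · rfl
  · exact (hem.integrable_comp_emb (MeasurableEquiv.measurableEmbedding _)).2 hf

theorem int_ins_int {n : ℕ} (i : Fin (n + 1)) (f : (Fin (n + 1) → ℝ) → ℂ) (hf : Integrable f) :
    Integrable (fun p : ℝ × (Fin n → ℝ) => f (i.insertNth p.1 p.2)) (volume.prod volume) := by
  have hem := (volume_preserving_piFinSuccAbove (fun _ : Fin (n + 1) => ℝ) i).symm
  exact (hem.integrable_comp_emb (MeasurableEquiv.measurableEmbedding _)).2 hf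

theorem pt_ins {n : ℕ} (i : Fin (n + 1)) (c : Fin (n + 1) → ℝ) (b x : ℝ) (y : Fin n → ℝ) :
    pt (Function.update c i b) (i.insertNth x y) =
      Function.update (pt c (i.insertNth 0 y)) i (b + x * I) := by
  funext j
  refine i.succAboveCases ?_ (fun j => ?_) j
  · simp [pt]
  · simp [pt, Fin.succAbove_ne]

theorem dk_update {n : ℕ} (s : Fin n → ℂ) (i : Fin n) (w : ℂ) :
    dk (Function.update s i w) ≤ 1 / br w.im ^ 2 := by
  unfold dk
  rw [← mul_prod_erase univ _ (mem_univ i), Function.update_self]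
  refine mul_le_of_le_one_right (by positivity) ?_
  exact prod_le_one (fun j _ => by positivity) fun j _ => one_div_br_le _

theorem Sep.line {n : ℕ} {U : Set (Fin n → ℂ)} {G : (Fin n → ℂ) → ℂ} (h : Sep U G)
    (s : Fin n → ℂ) (i : Fin n) {w : ℂ} (hw : Function.update s i w ∈ U) :
    DifferentiableAt ℂ (fun v => G (Function.update s i v)) w := by
  have := h.2 _ hw i
  simpa only [Function.update_idem, Function.update_self] using this

theorem Sep.mono {n : ℕ} {U U' : Set (Fin n → ℂ)} {G : (Fin n → ℂ) → ℂ} (h : Sep U G)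
    (hU : U' ⊆ U) : Sep U' G := ⟨h.1.mono hU, fun s hs => h.2 s (hU hs)⟩

theorem box_update {n : ℕ} {a b : Fin n → ℝ} {s : Fin n → ℂ} (hs : s ∈ Box a b) (i : Fin n)
    {w : ℂ} (h1 : a i ≤ w.re) (h2 : w.re ≤ b i) : Function.update s i w ∈ Box a b := by
  intro j
  rcases eq_or_ne j i with rfl | h
  · simpa using ⟨h1, h2⟩
  · simpa [h] using hs j

theorem pt_box {n : ℕ} {a b c : Fin n → ℝ} (h : ∀ i, a i ≤ c i ∧ c i ≤ b i) (t : Fin n → ℝ) :
    pt c t ∈ Box a b := fun i => by rw [pt_re]; exact h i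

/-- Changing the coordinates one at a time. -/
theorem one_at_a_time {n : ℕ} {a b : Fin n → ℝ} (Φ : (Fin n → ℝ) → ℂ)
    (h : ∀ (c : Fin n → ℝ) (i : Fin n) (x : ℝ), (∀ j, a j ≤ c j ∧ c j ≤ b j) → a i ≤ x → x ≤ b i →
      Φ (Function.update c i x) = Φ c)
    {c c' : Fin n → ℝ} (hc : ∀ i, a i ≤ c i ∧ c i ≤ b i) (hc' : ∀ i, a i ≤ c' i ∧ c' i ≤ b i) :
    Φ c = Φ c' := by
  have key : ∀ S : Finset (Fin n), Φ (S.piecewise c' c) = Φ c := by
    intro S
    induction S using Finset.induction_on with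
    | empty => simp
    | insert i S _ ih =>
      rw [Finset.piecewise_insert, h _ i _ (fun j => ?_) (hc' i).1 (hc' i).2, ih]
      by_cases hj : j ∈ S
      · rw [Finset.piecewise_eq_of_mem _ _ _ hj]; exact hc' j
      · rw [Finset.piecewise_eq_of_notMem _ _ _ hj]; exact hc j
  have := key univ
  rw [Finset.piecewise_univ] at this
  exact this.symm

theorem In_ins {n : ℕ} (i : Fin (n + 1)) (c : Fin (n + 1) → ℝ) (b : ℝ) (G : (Fin (n + 1) → ℂ) → ℂ)
    (hG : Integrable fun t => G (pt (Function.update c i b) t)) :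
    In (Function.update c i b) G =
      ∫ y : Fin n → ℝ, Iv b fun w => G (Function.update (pt c (i.insertNth 0 y)) i w) := by
  unfold In
  rw [int_ins i _ hG]
  simp only [pt_ins, Iv]

theorem pSDn : SDn := by
  intro n a b c c' C G hc hc' hG hb
  refine one_at_a_time (fun c => In c G) (fun c i x hc h1 h2 => ?_) hc hc'
  have hint : ∀ c : Fin n → ℝ, (∀ j, a j ≤ c j ∧ c j ≤ b j) → Integrable fun t => G (pt c t) :=
    fun c hc => (pINB n c C G (hG.1.comp_continuous (pt_cont c) (pt_box hc))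
      fun t => hb _ (pt_box hc t)).1
  have hup : ∀ x : ℝ, a i ≤ x → x ≤ b i →
      ∀ j, a j ≤ Function.update c i x j ∧ Function.update c i x j ≤ b j := by
    intro x h1 h2 j
    rcases eq_or_ne j i with rfl | h
    · simpa using ⟨h1, h2⟩
    · simpa [h] using hc j
  have hC : 0 ≤ C := by
    have h := (norm_nonneg _).trans (hb _ (pt_box hc 0))
    exact nonneg_of_mul_nonneg_left h (dk_pos _)
  cases n with
  | zero => exact i.elim0
  | succ n =>
    have e : ∀ x : ℝ, a i ≤ x → x ≤ b i →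
        In (Function.update c i x) G = In (Function.update c i (a i)) G := by
      intro x h1 h2
      rw [In_ins i c x G (hint _ (hup x h1 h2)),
        In_ins i c (a i) G (hint _ (hup _ le_rfl (h1.trans h2)))]
      refine integral_congr_ae (.of_forall fun y => ?_)
      have hm : ∀ w ∈ Strip (a i) x, Function.update (pt c (i.insertNth 0 y)) i w ∈ Box a b :=
        fun w hw => box_update (pt_box hc _) i hw.1 (hw.2.trans h2)
      refine pSH0 (a i) x C _ h1 ⟨fun w hw => (hG.line _ i (hm w hw)).continuousAt.continuousWithinAt,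
        fun w hw => (hG.line _ i (hm w ⟨hw.1.le, hw.2.le⟩)).differentiableWithinAt⟩ fun w hw => ?_
      refine (hb _ (hm w hw)).trans ?_
      rw [div_eq_mul_one_div]
      exact mul_le_mul_of_nonneg_left (dk_update _ _ _) hC
    change In _ G = In c G
    rw [e x h1 h2, ← e (c i) (hc i).1 (hc i).2, Function.update_eq_self]

end Pool.Agent.Q4
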