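import Pool.Agent.P.MP_ea46f5_nt.QM.S2
import Pool.Agent.P.MP_ea46f5_nt.QM.S1
import Mathlib
import Pool.Agent.K.MP_ea46f5_nt.C0
import Pool.Agent.P.MP_27a476_gt.Gauss
import Pool.Agent.P.MP_ad7a55_nt.SgB
import Pool.Agent.P.MP_ea46f5_nt.QM.D

-- part Pool.Agent.P.MP_ea46f5_nt.QM.FTQF
section

namespace Pool.Agent.QM

open Complex MeasureTheory Finset
open scoped Real ComplexConjugate

lemma tqf_dual_nonneg {A : ℕ} {K M : ℝ} (h : Dual A K M) : 0 ≤ M := by
  have := h ∅ (by intro k hk; simp at hk) 0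
  simpa [br] using this

lemma tqf_rpow {X : ℝ} (hX : 1 ≤ X) (hL : 100 ≤ Real.log X) :
    X ^ (3 * (1 / Real.log X)) = Real.exp 3 := by
  rw [Real.rpow_def_of_pos (by linarith)]
  congr 1
  have : Real.log X ≠ 0 := by linarith
  field_simp

lemma tqf_sq {X : ℝ} {k : ℤ} (hk : k ∈ Sq X) : Squarefree k ∧ |(k : ℝ)| ≤ X := by
  classical
  simp only [Sq, Finset.mem_filter] at hk
  exact ⟨hk.2.1, hk.2.2.2.2⟩

lemma tqf_near {φ : ℂ → ℂ} {ε t V : ℝ} {α : ℕ} (C₀ : ℕ) (h : NearP φ ε 0 t α 0 V) :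
    NearP φ ε 0 t α C₀ V := by
  intro s τ hs
  have := h s τ hs
  simpa using this

/-- The arithmetic of the final bound. -/
lemma tqf_arith {X R L M V₀ V₁ u e E bA : ℝ} {α : ℕ} (hX : 1 ≤ X) (hR : 200 ≤ R) (hL : 100 ≤ L)
    (hM : 0 ≤ M) (hE : 1 ≤ E) (hb : 0 ≤ bA) :
    X * R ^ 2 * 1 * (u * V₀ * e) ^ 2 * (1 / L) ^ (2 * α) / (1 / L) ^ 8 +
      1 * (u * V₁ * e) ^ 2 * (X * R ^ 2 / X * M * bA + E * √(X * R ^ 2 * X) / (1 / L) ^ 5 +
        E * √(X * R ^ 2) / (1 / L) ^ 11) ≤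
    E * u ^ 2 * (X * R ^ 2 * V₀ ^ 2 * L ^ 8 / L ^ (2 * α) + V₁ ^ 2 *
        (R ^ 2 * M * bA + L ^ 5 * X * R + L ^ 11 * √X * R)) * e ^ 2 := by
  have hX0 : 0 < X := by linarith
  have hR0 : 0 < R := by linarith
  have hL0 : 0 < L := by linarith
  have h1 : √(X * R ^ 2 * X) = X * R := by
    rw [show X * R ^ 2 * X = (X * R) ^ 2 by ring]
    exact Real.sqrt_sq (by positivity)
  have h2 : √(X * R ^ 2) = √X * R := by
    rw [Real.sqrt_mul hX0.le, Real.sqrt_sq hR0.le]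
  have h3 : X * R ^ 2 * 1 * (u * V₀ * e) ^ 2 * (1 / L) ^ (2 * α) / (1 / L) ^ 8 =
      u ^ 2 * e ^ 2 * (X * R ^ 2 * V₀ ^ 2 * L ^ 8 / L ^ (2 * α)) := by
    rw [one_div, inv_pow, inv_pow]
    field_simp
  have h4 : 1 * (u * V₁ * e) ^ 2 * (X * R ^ 2 / X * M * bA + E * (X * R) / (1 / L) ^ 5 +
        E * (√X * R) / (1 / L) ^ 11) =
      u ^ 2 * e ^ 2 * (V₁ ^ 2 * (R ^ 2 * M * bA + E * (L ^ 5 * X * R) + E * (L ^ 11 * √X * R))) := by
    field_simp
  rw [h1, h2, h3, h4]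
  set a := X * R ^ 2 * V₀ ^ 2 * L ^ 8 / L ^ (2 * α) with ha
  set b := R ^ 2 * M * bA with hb'
  set c := L ^ 5 * X * R
  set d := L ^ 11 * √X * R
  have ha0 : 0 ≤ a := by positivity
  have hb0 : 0 ≤ b := by positivity
  have hk : 0 ≤ u ^ 2 * e ^ 2 := by positivity
  have h5 : a + V₁ ^ 2 * (b + E * c + E * d) ≤ E * (a + V₁ ^ 2 * (b + c + d)) := by
    have h6 : 0 ≤ (E - 1) * a := mul_nonneg (by linarith) ha0
    have h7 : 0 ≤ (E - 1) * (V₁ ^ 2 * b) := mul_nonneg (by linarith) (by positivity)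
    nlinarith
  calc u ^ 2 * e ^ 2 * a + u ^ 2 * e ^ 2 * (V₁ ^ 2 * (b + E * c + E * d))
      = u ^ 2 * e ^ 2 * (a + V₁ ^ 2 * (b + E * c + E * d)) := by ring
    _ ≤ u ^ 2 * e ^ 2 * (E * (a + V₁ ^ 2 * (b + c + d))) := mul_le_mul_of_nonneg_left h5 hk
    _ = E * u ^ 2 * (a + V₁ ^ 2 * (b + c + d)) * e ^ 2 := by ring

theorem pTQF (hTM : TM) (hWT : WT) (hSQD : SQD) (hFL : FL) (hFW : FW) (hTW0 : TW0) : TQF := by
  obtain ⟨C₀, B, c, -, hTM⟩ := hTM
  obtain ⟨h, Cw, hCw, hWT⟩ := hWT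
  obtain ⟨Cs, hCs, hSQD⟩ := hSQD
  obtain ⟨Cf, R₀, hCf, hR₀, hFL⟩ := hFL
  obtain ⟨-, hF2, -, hF4, hF5⟩ := hFW
  refine ⟨c + 2 * h, R₀, hR₀, fun A => ?_⟩
  obtain ⟨C, hC, hTM⟩ := hTM A
  refine ⟨Cs * (Cf * C * Real.exp 3 * Cw ^ 2), by positivity, ?_⟩
  intro φ X R t V₀ V₁ M α hX hL hR hα hV₀ hFar hNear hDual
  have hX0 : 0 < X := by linarith
  have hR2 : 200 ≤ R := le_trans hR₀ hR
  have hR0 : 0 < R := by linarith
  have hL0 : 0 < Real.log X := by linarith
  have hε0 : 0 < 1 / Real.log X := by positivity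
  have hε1 : 1 / Real.log X ≤ 1 / 100 := one_div_le_one_div_of_le (by norm_num) hL
  have hM : 0 ≤ M := tqf_dual_nonneg hDual
  have hbr : 0 ≤ br t := by unfold br; positivity
  have hlR : 0 ≤ Real.log R / R := div_nonneg (Real.log_nonneg (by linarith)) hR0.le
  have hE : 1 ≤ Real.exp 3 := Real.one_le_exp (by norm_num)
  set S := X * R ^ 2 * V₀ ^ 2 * Real.log X ^ 8 / Real.log X ^ (2 * α) + V₁ ^ 2 *
    (R ^ 2 * M * br t ^ A + Real.log X ^ 5 * X * R + Real.log X ^ 11 * √X * R) with hS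
  have key := hSQD φ (fun _ => 1) X t
    (Cf * C * Real.exp 3 * Cw ^ 2 * br t ^ (c + 2 * h) * (Real.log R / R) * S)
    (1 / Real.log X) V₁ hX (by linarith) hFar (fun _ => zero_le_one) ?_
  · simp only [one_mul] at key
    calc _ ≤ _ := key
      _ = _ := by ring
  intro a γ y ha hγ
  obtain ⟨hw1, hw2⟩ := hWT a γ t y X 0 0 V₀ V₁ φ α C₀ ha hγ hL hX le_rfl hV₀
  have hfar := hw1 hFar
  have hnear := hw2 (tqf_near C₀ hNear)
  rw [neg_zero, Real.exp_zero, mul_one] at hfar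
  have hLI := (hF2 _ _ _ _ _ hε0 (by linarith) hfar).2.1
  have hD : Dual A (X ^ 2 / (X * R ^ 2)) M := by
    rw [show X ^ 2 / (X * R ^ 2) = X / R ^ 2 by field_simp]
    exact hDual
  have hXR : 1 ≤ X * R ^ 2 := by nlinarith
  have h1 := hFL (ww a γ t (phy φ y) X) X R _ (Sq X) hLI hX0 hR (fun k hk => tqf_sq hk)
    (fun b hb F' => by
      have h2 := hTM _ ∅ (fun _ => 1) 0 1 1 (1 / Real.log X) (X * R ^ 2) X t _ _ M α F' (hTW0 B)
        hε0 hε1 (by simp) hXR hX hα (by positivity) (hF4 _ _ _ _ _ b hε0 hb hfar)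
        (hF5 _ _ _ _ _ b _ _ hε0 hb hnear) hD
      simp only [mul_one (_ * ‖_‖ ^ 2)] at h2
      exact h2)
  rw [tqf_rpow hX hL] at h1
  have h3 := tqf_arith (X := X) (R := R) (L := Real.log X) (M := M) (V₀ := V₀) (V₁ := V₁)
    (u := Cw * br t ^ h) (e := Real.exp (-|y|)) (E := Real.exp 3) (bA := br t ^ A) (α := α)
    hX hR2 hL hM hE (by positivity)
  have h4 : Real.exp (-|y|) ^ 2 = Real.exp (-2 * |y|) := by
    rw [← Real.exp_nat_mul]
    congr 1
    push_cast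
    ring
  rw [h4, ← hS] at h3
  simp only [one_mul ((‖_‖ : ℝ) ^ 2)]
  calc _ ≤ _ := h1
    _ ≤ Cf * (Real.log R / R) * (C * br t ^ c *
        (Real.exp 3 * (Cw * br t ^ h) ^ 2 * S * Real.exp (-2 * |y|))) :=
      mul_le_mul_of_nonneg_left (mul_le_mul_of_nonneg_left h3 (by positivity)) (by positivity)
    _ = _ := by ring

end Pool.Agent.QM
end

-- part Pool.Agent.P.MP_ea46f5_nt.QM.FWT
section

namespace Pool.Agent.QM

open Complex MeasureTheory Finset
open scoped Real ComplexConjugate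

lemma wt_gauss (u : ℂ) (y : ℝ) (h0 : 0 ≤ u.re) (h1 : u.re ≤ 13) :
    Real.exp (-u.im ^ 2 / 2) * ‖cexp ((u + y * I) ^ 2 / 4)‖ ≤
      Real.exp 46 * (Real.exp (-|u.im|) * Real.exp (-|y|)) := by
  have e : ((u + y * I) ^ 2 / 4).re = (u.re ^ 2 - (u.im + y) ^ 2) / 4 := by
    have : ((u + y * I) ^ 2 / 4) = ((1 / 4 : ℝ) : ℂ) * ((u + y * I) * (u + y * I)) := by
      push_cast; ring
    rw [this, Complex.re_ofReal_mul]
    simp only [mul_re, add_re, ofReal_re, I_re, mul_zero, ofReal_im, I_im, mul_one, sub_self,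
      add_zero, add_im, mul_im]
    ring
  rw [Complex.norm_exp, e, ← Real.exp_add, ← Real.exp_add, ← Real.exp_add]
  apply Real.exp_le_exp.2
  have h2 : |y| ≤ |u.im + y| + |u.im| := by
    have := abs_sub (u.im + y) u.im
    rwa [add_sub_cancel_left] at this
  have h3 : |u.im| ^ 2 = u.im ^ 2 := sq_abs _
  have h4 : |u.im + y| ^ 2 = (u.im + y) ^ 2 := sq_abs _
  have h5 := sq_nonneg (|u.im| - 2)
  have h6 := sq_nonneg (|u.im + y| - 2)
  have h7 : u.re ^ 2 ≤ 169 := by nlinarith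
  nlinarith

/-- The pointwise bound behind the far and the near bound. -/
lemma wt_master {C : ℝ} {a : ℕ} {γ : ℤ} {t : ℝ} (hC : 0 ≤ C)
    (hb : ∀ s : ℂ, -(1 / 4) ≤ s.re → s.re ≤ 13 → ‖hh a γ t s‖ ≤ C * Real.exp (-s.im ^ 2 / 2))
    (φ : ℂ → ℂ) (y : ℝ) {X : ℝ} (hX : 0 < X) {s : ℂ} (h0 : 0 ≤ s.re) (h1 : s.re ≤ 13) :
    ‖ww a γ t (phy φ y) X s‖ ≤ C * Real.exp 46 * Real.exp (-|y|) * Real.exp (-|s.im - t|) *
      X ^ s.re * ‖φ (s - t * I)‖ := by
  have hre : (s - t * I).re = s.re := by simp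
  have him : (s - t * I).im = s.im - t := by simp
  have h2 := hb (s - t * I) (by rw [hre]; linarith) (by rw [hre]; exact h1)
  have h3 := wt_gauss (s - t * I) y (by rw [hre]; exact h0) (by rw [hre]; exact h1)
  unfold ww phy
  rw [norm_mul, norm_mul, norm_mul, Complex.norm_cpow_eq_rpow_re_of_pos hX, hre]
  rw [him] at h2 h3
  have hp : 0 ≤ X ^ s.re := by positivity
  calc ‖hh a γ t (s - t * I)‖ * X ^ s.re *
        (‖φ (s - t * I)‖ * ‖cexp ((s - t * I + y * I) ^ 2 / 4)‖)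
      ≤ C * Real.exp (-(s.im - t) ^ 2 / 2) * X ^ s.re *
        (‖φ (s - t * I)‖ * ‖cexp ((s - t * I + y * I) ^ 2 / 4)‖) := by gcongr
    _ = C * X ^ s.re * ‖φ (s - t * I)‖ *
        (Real.exp (-(s.im - t) ^ 2 / 2) * ‖cexp ((s - t * I + y * I) ^ 2 / 4)‖) := by ring
    _ ≤ C * X ^ s.re * ‖φ (s - t * I)‖ *
        (Real.exp 46 * (Real.exp (-|s.im - t|) * Real.exp (-|y|))) := by gcongr
    _ = _ := by ring

theorem pWT (hHB : HB) : WT := by
  obtain ⟨h, C, hC, hH⟩ := hHB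
  refine ⟨h, C * Real.exp 46 * Real.exp 3, by positivity, ?_⟩
  intro a γ t y X Δ lam V₀ V₁ φ α C₀ ha hγ hL hX hlam hV
  obtain ⟨hb, ⟨g, hg, hgs⟩, _⟩ := hH a γ t ha hγ
  have hX0 : 0 < X := by linarith
  have hL0 : 0 < Real.log X := by linarith
  have he : 0 < 1 / Real.log X := by positivity
  have he1 : 1 / Real.log X ≤ 1 / 100 := by
    apply one_div_le_one_div_of_le (by norm_num) hL
  have hbr : 0 < br t := by unfold br; positivity
  have hC' : 0 ≤ C * br t ^ h := by positivity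
  have h3 : (1 : ℝ) ≤ Real.exp 3 := Real.one_le_exp (by norm_num)
  have hre : ∀ s : ℂ, (s - t * I).re = s.re := by intro s; simp
  constructor
  · rintro ⟨hd, hf⟩
    refine ⟨⟨fun s => g (s - t * I) * (X : ℂ) ^ (s - t * I) * phy φ y (s - t * I), ?_, ?_⟩, ?_⟩
    · intro s hs
      have hs' : 0 < s.re := hs
      apply DifferentiableAt.differentiableWithinAt
      have hl : DifferentiableAt ℂ (fun s : ℂ => s - t * I) s := by fun_prop
      have h1 : DifferentiableAt ℂ g (s - t * I) := by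
        apply hg.differentiableAt
        apply (isOpen_lt continuous_const Complex.continuous_re).mem_nhds
        show -(1 / 2) < (s - t * I).re
        rw [hre]; linarith
      have h2 : DifferentiableAt ℂ φ (s - t * I) := by
        apply hd.differentiableAt
        apply (isOpen_lt continuous_const Complex.continuous_re).mem_nhds
        show 0 < (s - t * I).re
        rw [hre]; exact hs'
      have h4 : DifferentiableAt ℂ (fun s : ℂ => (X : ℂ) ^ (s - t * I)) s :=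
        DifferentiableAt.const_cpow hl (Or.inl (by exact_mod_cast hX0.ne'))
      have h5 : DifferentiableAt ℂ (fun s : ℂ => phy φ y (s - t * I)) s := by
        unfold phy
        exact (DifferentiableAt.comp (f := fun s : ℂ => s - t * I) s h2 hl).mul (by fun_prop)
      exact ((DifferentiableAt.comp (f := fun s : ℂ => s - t * I) s h1 hl).mul h4).mul h5
    · intro s _
      unfold ww
      rw [hgs]
      ring
    · intro s h0 h1
      have h0' : 0 ≤ s.re := by linarith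
      have h2 := hf (s - t * I) (by rw [hre]; exact h0) (by rw [hre]; exact h1)
      rw [hre] at h2
      have hV1 : 0 ≤ V₁ := by
        have h4 := (norm_nonneg _).trans h2
        exact nonneg_of_mul_nonneg_left h4 (Real.exp_pos _)
      refine (wt_master hC' hb φ y hX0 h0' h1).trans ?_
      have e : (X * Real.exp (-Δ)) ^ s.re = X ^ s.re * Real.exp (-Δ * s.re) := by
        rw [Real.mul_rpow hX0.le (Real.exp_pos _).le, ← Real.exp_mul]
      rw [e]
      have hp : 0 ≤ X ^ s.re := by positivity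
      calc C * br t ^ h * Real.exp 46 * Real.exp (-|y|) * Real.exp (-|s.im - t|) * X ^ s.re *
            ‖φ (s - t * I)‖
          ≤ C * br t ^ h * Real.exp 46 * Real.exp (-|y|) * Real.exp (-|s.im - t|) * X ^ s.re *
            (V₁ * Real.exp (-Δ * s.re)) := by gcongr
        _ = C * Real.exp 46 * 1 * br t ^ h * V₁ * Real.exp (-|y|) *
            (X ^ s.re * Real.exp (-Δ * s.re)) * Real.exp (-|s.im - t|) := by ring
        _ ≤ _ := by gcongr
  · intro hn s τ hs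
    have h2 := hn s τ hs
    have hr := (Complex.abs_re_le_norm _).trans hs
    have hi := (Complex.abs_im_le_norm _).trans hs
    simp only [sub_re, add_re, ofReal_re, mul_re, I_re, mul_zero, ofReal_im, I_im, mul_one,
      sub_self, add_zero] at hr
    simp only [sub_im, add_im, ofReal_im, mul_im, ofReal_re, I_im, mul_one, I_re, mul_zero,
      add_zero, zero_add] at hi
    rw [abs_le] at hr
    have h0' : 0 ≤ s.re := by linarith [hr.1]
    have h1 : s.re ≤ 13 := by linarith [hr.2]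
    refine (wt_master hC' hb φ y hX0 h0' h1).trans ?_
    have h4 : X ^ s.re ≤ Real.exp 2 := by
      rw [Real.rpow_def_of_pos hX0]
      apply Real.exp_le_exp.2
      have h5 : s.re ≤ 2 * (1 / Real.log X) := by linarith [hr.2]
      calc Real.log X * s.re ≤ Real.log X * (2 * (1 / Real.log X)) := by gcongr
        _ = 2 := by field_simp
    have h6 : Real.exp (-|s.im - t|) ≤
        Real.exp 1 * (Real.exp (-|τ - t|) + Real.exp (-|τ + t|)) := by
      have h7 : Real.exp (-|s.im - t|) ≤ Real.exp 1 * Real.exp (-|τ - t|) := by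
        rw [← Real.exp_add]
        apply Real.exp_le_exp.2
        have h8 : |τ - t| ≤ |τ - s.im| + |s.im - t| := abs_sub_le _ _ _
        rw [abs_sub_comm τ s.im] at h8
        linarith
      have h9 : 0 ≤ Real.exp 1 * Real.exp (-|τ + t|) := by positivity
      linarith
    have e3 : Real.exp 3 = Real.exp 1 * Real.exp 2 := by
      rw [← Real.exp_add]; norm_num
    have hq : 0 < 1 + lam * |τ| := by positivity
    calc C * br t ^ h * Real.exp 46 * Real.exp (-|y|) * Real.exp (-|s.im - t|) * X ^ s.re *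
          ‖φ (s - t * I)‖
        ≤ C * br t ^ h * Real.exp 46 * Real.exp (-|y|) *
          (Real.exp 1 * (Real.exp (-|τ - t|) + Real.exp (-|τ + t|))) * Real.exp 2 *
          (V₀ * ‖((1 / Real.log X : ℝ) + τ * I : ℂ)‖ ^ α / (1 + lam * |τ|) ^ C₀) := by gcongr
      _ = _ := by rw [e3]; ring

end Pool.Agent.QM
end

-- part Pool.Agent.P.MP_ea46f5_nt.QM.FZDA
section

namespace Pool.Agent.QM

open Complex MeasureTheory Finset
open scoped Real ComplexConjugate

theorem zda_norm_xs (s : ℂ) (p : ℕ) (hp : 0 < p) :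
    ‖xs s p‖ = (p : ℝ) ^ (-(1 / 2 + s.re)) := by
  unfold xs
  rw [Complex.norm_natCast_cpow_of_pos hp]
  congr 1
  simp

theorem zda_xs_le (s : ℂ) (p : ℕ) (hp : 3 ≤ p) (hs : 0 ≤ s.re) : ‖xs s p‖ ≤ 3 / 5 := by
  rw [zda_norm_xs s p (by omega)]
  have h3 : (3 : ℝ) ≤ p := by exact_mod_cast hp
  have h1 : (p : ℝ) ^ (-(1 / 2 + s.re)) ≤ (p : ℝ) ^ (-(1 / 2 : ℝ)) :=
    Real.rpow_le_rpow_of_exponent_le (by linarith) (by linarith)
  refine h1.trans ?_
  rw [Real.rpow_neg (by linarith), ← Real.sqrt_eq_rpow]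
  have h2 : (5 / 3 : ℝ) ≤ √(p : ℝ) := Real.le_sqrt_of_sq_le (by linarith)
  calc (√(p : ℝ))⁻¹ ≤ (5 / 3 : ℝ)⁻¹ := inv_anti₀ (by norm_num) h2
    _ = 3 / 5 := by norm_num

theorem zda_den (s : ℂ) (p : ℕ) (y : ℤ) (hp : 3 ≤ p) (hs : 0 ≤ s.re) (hy : y ∈ T3) :
    2 / 5 ≤ ‖1 - xs s p * y‖ := by
  have h1 := zda_xs_le s p hp hs
  have h2 : ‖(y : ℂ)‖ ≤ 1 := by
    simp only [T3, mem_insert, mem_singleton] at hy
    rcases hy with rfl | rfl | rfl <;> simp
  have h3 : ‖xs s p * y‖ ≤ 3 / 5 := by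
    rw [norm_mul]
    calc ‖xs s p‖ * ‖(y : ℂ)‖ ≤ 3 / 5 * 1 := mul_le_mul h1 h2 (norm_nonneg _) (by norm_num)
      _ = 3 / 5 := by norm_num
  have h4 := norm_sub_norm_le (1 : ℂ) (xs s p * y)
  rw [norm_one] at h4
  linarith

theorem zda_Fy_le (s₁ s₂ : ℂ) (p : ℕ) (y : ℤ) (hp : 3 ≤ p) (h₁ : 0 ≤ s₁.re) (h₂ : 0 ≤ s₂.re)
    (hy : y ∈ T3) : ‖Fy s₁ s₂ p y‖ ≤ 40 := by
  have a := zda_den s₁ p y hp h₁ hy
  have b := zda_den s₂ p y hp h₂ hy
  unfold Fy
  rw [norm_div, norm_one, norm_mul, norm_pow, norm_pow]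
  have a2 : (2 / 5 : ℝ) ^ 2 ≤ ‖1 - xs s₁ p * y‖ ^ 2 := pow_le_pow_left₀ (by norm_num) a 2
  have b2 : (2 / 5 : ℝ) ^ 2 ≤ ‖1 - xs s₂ p * y‖ ^ 2 := pow_le_pow_left₀ (by norm_num) b 2
  have c : (2 / 5 : ℝ) ^ 2 * (2 / 5) ^ 2 ≤ ‖1 - xs s₁ p * y‖ ^ 2 * ‖1 - xs s₂ p * y‖ ^ 2 :=
    mul_le_mul a2 b2 (by norm_num) (by positivity)
  calc 1 / (‖1 - xs s₁ p * y‖ ^ 2 * ‖1 - xs s₂ p * y‖ ^ 2) ≤ 1 / ((2 / 5 : ℝ) ^ 2 * (2 / 5) ^ 2) :=
        one_div_le_one_div_of_le (by norm_num) c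
    _ ≤ 40 := by norm_num

theorem zda_xs_diff (p : ℕ) (hp : 0 < p) : Differentiable ℂ fun s => xs s p := by
  unfold xs
  intro s
  refine DifferentiableAt.const_cpow (by fun_prop) (Or.inl ?_)
  exact_mod_cast hp.ne'

theorem zda_mu_diff (p : ℕ) (y : ℤ) (hp : 3 ≤ p) (hy : y ∈ T3) (x : ℂ × ℂ) (h₁ : 0 ≤ x.1.re)
    (h₂ : 0 ≤ x.2.re) : DifferentiableAt ℂ (fun x : ℂ × ℂ => mu 1 0 x.1 x.2 p y) x := by
  unfold mu
  by_cases h0 : y = 0
  · simp only [h0, if_true]
    exact differentiableAt_const _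
  · simp only [h0, if_false]
    have d1 : DifferentiableAt ℂ (fun x : ℂ × ℂ => xs x.1 p) x :=
      (zda_xs_diff p (by omega) x.1).comp x differentiableAt_fst
    have d2 : DifferentiableAt ℂ (fun x : ℂ × ℂ => xs x.2 p) x :=
      (zda_xs_diff p (by omega) x.2).comp x differentiableAt_snd
    have n1 : 1 - xs x.1 p * y ≠ 0 := by
      have := zda_den x.1 p y hp h₁ hy
      intro h; rw [h, norm_zero] at this; linarith
    have n2 : 1 - xs x.2 p * y ≠ 0 := by
      have := zda_den x.2 p y hp h₂ hy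
      intro h; rw [h, norm_zero] at this; linarith
    have dF : DifferentiableAt ℂ (fun x : ℂ × ℂ => Fy x.1 x.2 p y) x := by
      unfold Fy
      simp only [one_div]
      refine DifferentiableAt.fun_inv ?_ (mul_ne_zero (pow_ne_zero _ n1) (pow_ne_zero _ n2))
      exact (((differentiableAt_const _).sub (d1.mul_const _)).pow 2).mul
        (((differentiableAt_const _).sub (d2.mul_const _)).pow 2)
    simp only [div_eq_mul_inv]
    exact (dF.const_mul _).mul_const _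

theorem zda_mu_le (p : ℕ) (y : ℤ) (hp : 3 ≤ p) (hy : y ∈ T3) (s₁ s₂ : ℂ) (h₁ : 0 ≤ s₁.re)
    (h₂ : 0 ≤ s₂.re) :
    ‖mu 1 0 s₁ s₂ p y‖ ≤ ‖1 - ek 1 0 p‖ + ‖ek 1 0 p + y * ok 1 0 p‖ * 40 := by
  unfold mu
  have a := norm_nonneg (1 - ek 1 0 p)
  have b := norm_nonneg (ek 1 0 p + y * ok 1 0 p)
  split_ifs with h0
  · linarith
  · have c := zda_Fy_le s₁ s₂ p y hp h₁ h₂ hy
    have d := mul_le_mul_of_nonneg_left c b
    have e := mul_nonneg b (norm_nonneg (Fy s₁ s₂ p y))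
    rw [norm_div, norm_mul]
    have : ‖(2 : ℂ)‖ = 2 := by simp
    rw [this]
    linarith

/-- The factors of the infinite product, minus one. -/
noncomputable def zdaF (P : Finset ℕ) (p : Nat.Primes) (x : ℂ × ℂ) : ℂ :=
  if (p : ℕ) = 2 ∨ (p : ℕ) ∈ P then 0 else locv 1 0 x.1 x.2 p 0 - 1

theorem zda_three (p : ℕ) (hp : p.Prime) (h2 : p ≠ 2) : 3 ≤ p := by
  have := hp.two_le
  omega

theorem zda_F_diff (P : Finset ℕ) (p : Nat.Primes) (x : ℂ × ℂ) (h₁ : 0 ≤ x.1.re)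
    (h₂ : 0 ≤ x.2.re) : DifferentiableAt ℂ (zdaF P p) x := by
  unfold zdaF
  by_cases h : (p : ℕ) = 2 ∨ (p : ℕ) ∈ P
  · simp only [h, if_true]
    exact differentiableAt_const _
  · simp only [h, if_false]
    have h3 := zda_three p p.2 (fun h' => h (Or.inl h'))
    refine DifferentiableAt.sub_const ?_ _
    unfold locv
    exact DifferentiableAt.fun_sum fun y hy => (zda_mu_diff p y h3 hy x h₁ h₂).mul_const _

theorem zda_Zk (P : Finset ℕ) (R : (ℕ → ℤ) → ℝ) (x : ℂ × ℂ) :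
    Zk P R 1 0 x.1 x.2 = Ex P (mu 1 0 x.1 x.2) (fun x => (R x : ℂ)) *
      ∏' p : Nat.Primes, (1 + zdaF P p x) := by
  unfold Zk zdaF
  congr 1
  refine tprod_congr fun p => ?_
  split_ifs <;> ring

theorem zda_Ex_diff (P : Finset ℕ) (R : (ℕ → ℤ) → ℝ) (hP : OP P) (x : ℂ × ℂ) (h₁ : 0 ≤ x.1.re)
    (h₂ : 0 ≤ x.2.re) :
    DifferentiableAt ℂ (fun x : ℂ × ℂ => Ex P (mu 1 0 x.1 x.2) (fun x => (R x : ℂ))) x := by
  unfold Ex
  refine DifferentiableAt.fun_sum fun v hv => DifferentiableAt.mul_const ?_ _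
  exact (HasFDerivAt.finsetProd fun (p : P) _ => (zda_mu_diff p (v p)
    (zda_three p (hP p p.2).1 (hP p p.2).2)
    (Fintype.mem_piFinset.1 hv p) x h₁ h₂).hasFDerivAt).differentiableAt

theorem zda_maj (hLOC0 : LOC0) (a : ℝ) (ha : 0 < a) : ∃ u : Nat.Primes → ℝ, Summable u ∧
    ∀ (P : Finset ℕ) (p : Nat.Primes) (x : ℂ × ℂ), a ≤ x.1.re → a ≤ x.2.re →
      ‖zdaF P p x‖ ≤ u p := by
  obtain ⟨C, hC, h, -⟩ := hLOC0
  refine ⟨fun p => C / ((p : ℕ) : ℝ) ^ 2 + 10 * ((p : ℕ) : ℝ) ^ (-(1 + 2 * a)), ?_, ?_⟩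
  · have s1 : Summable fun n : ℕ => C / (n : ℝ) ^ 2 + 10 * (n : ℝ) ^ (-(1 + 2 * a)) := by
      refine Summable.add ?_ (Summable.mul_left _ (Real.summable_nat_rpow.2 (by linarith)))
      have := (Real.summable_nat_pow_inv.2 (by norm_num : 1 < 2)).mul_left C
      simpa [div_eq_mul_inv] using this
    exact s1.subtype {p | Nat.Prime p}
  · intro P p x h₁ h₂
    have hp0 : 0 < (p : ℕ) := p.2.pos
    have hp1 : (1 : ℝ) ≤ ((p : ℕ) : ℝ) := by exact_mod_cast hp0
    have hr : 0 ≤ ((p : ℕ) : ℝ) ^ (-(1 + 2 * a)) := Real.rpow_nonneg (by linarith) _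
    unfold zdaF
    split_ifs with hh
    · rw [norm_zero]; positivity
    · have h1 := h p x.1 x.2 p.2 (fun h' => hh (Or.inl h')) (by linarith) (by linarith)
      set r : ℝ := ((p : ℕ) : ℝ) ^ (-(1 / 2 + a)) with hrdef
      have hr0 : 0 ≤ r := Real.rpow_nonneg (by linarith) _
      have hrr : r * r = ((p : ℕ) : ℝ) ^ (-(1 + 2 * a)) := by
        rw [hrdef, ← Real.rpow_add (by linarith)]
        congr 1; ring
      have b1 : ‖xs x.1 p‖ ≤ r := by
        rw [zda_norm_xs _ _ hp0]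
        exact Real.rpow_le_rpow_of_exponent_le hp1 (by linarith)
      have b2 : ‖xs x.2 p‖ ≤ r := by
        rw [zda_norm_xs _ _ hp0]
        exact Real.rpow_le_rpow_of_exponent_le hp1 (by linarith)
      have q : ‖Qp x.1 x.2 p‖ ≤ 10 * (r * r) := by
        unfold Qp
        have e1 : ‖3 * xs x.1 p ^ 2‖ ≤ 3 * (r * r) := by
          rw [norm_mul, norm_pow, sq]
          have := mul_le_mul b1 b1 (norm_nonneg _) hr0
          have t : ‖(3 : ℂ)‖ = 3 := by simp
          rw [t]; linarith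
        have e2 : ‖4 * (xs x.1 p * xs x.2 p)‖ ≤ 4 * (r * r) := by
          rw [norm_mul, norm_mul]
          have := mul_le_mul b1 b2 (norm_nonneg _) hr0
          have t : ‖(4 : ℂ)‖ = 4 := by simp
          rw [t]; linarith
        have e3 : ‖3 * xs x.2 p ^ 2‖ ≤ 3 * (r * r) := by
          rw [norm_mul, norm_pow, sq]
          have := mul_le_mul b2 b2 (norm_nonneg _) hr0
          have t : ‖(3 : ℂ)‖ = 3 := by simp
          rw [t]; linarith
        have := norm_add₃_le (a := 3 * xs x.1 p ^ 2) (b := 4 * (xs x.1 p * xs x.2 p))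
          (c := 3 * xs x.2 p ^ 2)
        linarith
      have t := norm_add_le (locv 1 0 x.1 x.2 p 0 - 1 - Qp x.1 x.2 p) (Qp x.1 x.2 p)
      rw [sub_add_cancel] at t
      rw [hrr] at q
      linarith

theorem zda_curve (P : Finset ℕ) (a : ℝ) (ha : 0 < a) (u : Nat.Primes → ℝ) (hu : Summable u)
    (hb : ∀ (p : Nat.Primes) (x : ℂ × ℂ), a ≤ x.1.re → a ≤ x.2.re → ‖zdaF P p x‖ ≤ u p)
    (γ : ℂ → ℂ × ℂ) (hγ : Differentiable ℂ γ) (V : Set ℂ) (hV : IsOpen V)
    (hm : ∀ s ∈ V, a ≤ (γ s).1.re ∧ a ≤ (γ s).2.re) :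
    DifferentiableOn ℂ (fun s => ∏' p : Nat.Primes, (1 + zdaF P p (γ s))) V := by
  have hd : ∀ p : Nat.Primes, DifferentiableOn ℂ (fun s => zdaF P p (γ s)) V := fun p s hs =>
    ((zda_F_diff P p (γ s) (by linarith [(hm s hs).1]) (by linarith [(hm s hs).2])).comp s
      (hγ s)).differentiableWithinAt
  have h := Summable.hasProdLocallyUniformlyOn_one_add (f := fun p s => zdaF P p (γ s)) hV hu
    (Filter.Eventually.of_forall fun p s hs => hb p _ (hm s hs).1 (hm s hs).2)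
    (fun p => (hd p).continuousOn)
  refine TendstoLocallyUniformlyOn.differentiableOn h (Filter.Eventually.of_forall fun F => ?_) hV
  exact DifferentiableOn.fun_finsetProd fun p _ => (hd p).const_add _

theorem pZDA (hLOC0 : LOC0) (hPRD : PRD) : ZDA := by
  intro P R a b hP ha hab
  obtain ⟨u, hu, hb⟩ := zda_maj hLOC0 (a / 2) (by linarith)
  have hO : IsOpen (OStrip a b) :=
    (isOpen_lt continuous_const continuous_re).inter (isOpen_lt continuous_re continuous_const)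
  refine ⟨⟨?_, ?_, ?_⟩, ?_⟩
  · let K : Set (ℂ × ℂ) := {x | a / 2 < x.1.re ∧ a / 2 < x.2.re}
    have hK : IsOpen K :=
      (isOpen_lt continuous_const (continuous_re.comp continuous_fst)).inter
        (isOpen_lt continuous_const (continuous_re.comp continuous_snd))
    have hc : ∀ p : Nat.Primes, ContinuousOn (zdaF P p) K := fun p x hx =>
      (zda_F_diff P p x (by linarith [hx.1]) (by linarith [hx.2])).continuousAt.continuousWithinAt
    have h := Summable.hasProdLocallyUniformlyOn_one_add (f := zdaF P) hK hu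
      (Filter.Eventually.of_forall fun p x hx => hb P p x hx.1.le hx.2.le) hc
    have h2 : ContinuousOn (fun x => ∏' p : Nat.Primes, (1 + zdaF P p x)) K :=
      TendstoLocallyUniformlyOn.continuousOn h (Filter.Eventually.frequently
        (Filter.Eventually.of_forall fun F =>
          continuousOn_finsetProd _ fun p _ => continuousOn_const.add (hc p)))
    have hs : Strip a b ×ˢ Strip a b ⊆ K := fun x hx =>
      ⟨by linarith [hx.1.1], by linarith [hx.2.1]⟩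
    simp only [zda_Zk]
    refine ContinuousOn.mul (fun x hx => ?_) (h2.mono hs)
    exact (zda_Ex_diff P R hP x (by linarith [hx.1.1])
      (by linarith [hx.2.1])).continuousAt.continuousWithinAt
  · intro s hs
    have hγ : Differentiable ℂ fun v : ℂ => (v, s) := differentiable_id.prodMk (differentiable_const _)
    have e : (fun v => Zk P R 1 0 v s) = fun v => Ex P (mu 1 0 (v, s).1 (v, s).2)
        (fun x => (R x : ℂ)) * ∏' p : Nat.Primes, (1 + zdaF P p (v, s)) :=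
      funext fun v => zda_Zk P R (v, s)
    rw [e]
    refine DifferentiableOn.mul (fun v hv => ?_) (zda_curve P (a / 2) (by linarith) u hu (hb P) _ hγ
      _ hO fun v hv => ⟨by linarith [hv.1], by linarith [hs.1]⟩)
    exact ((zda_Ex_diff P R hP (v, s) (by linarith [hv.1]) (by linarith [hs.1])).comp v
      (hγ v)).differentiableWithinAt
  · intro s hs
    have hγ : Differentiable ℂ fun v : ℂ => (s, v) := (differentiable_const _).prodMk differentiable_id
    have e : (fun v => Zk P R 1 0 s v) = fun v => Ex P (mu 1 0 (s, v).1 (s, v).2)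
        (fun x => (R x : ℂ)) * ∏' p : Nat.Primes, (1 + zdaF P p (s, v)) :=
      funext fun v => zda_Zk P R (s, v)
    rw [e]
    refine DifferentiableOn.mul (fun v hv => ?_) (zda_curve P (a / 2) (by linarith) u hu (hb P) _ hγ
      _ hO fun v hv => ⟨by linarith [hs.1], by linarith [hv.1]⟩)
    exact ((zda_Ex_diff P R hP (s, v) (by linarith [hs.1]) (by linarith [hv.1])).comp v
      (hγ v)).differentiableWithinAt
  · refine ⟨(∑ v ∈ Fintype.piFinset (fun _ : P => T3),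
      (∏ p : P, (‖1 - ek 1 0 p‖ + ‖ek 1 0 p + (v p) * ok 1 0 p‖ * 40)) *
        ‖(R (ext0 P v) : ℂ)‖) * Real.exp (∑' p, u p), fun s₁ h₁ s₂ h₂ => ?_⟩
    have r1 : a ≤ s₁.re := h₁.1
    have r2 : a ≤ s₂.re := h₂.1
    have e := zda_Zk P R (s₁, s₂)
    simp only at e
    rw [e, norm_mul]
    have hle : ∀ p, ‖zdaF P p (s₁, s₂)‖ ≤ u p := fun p =>
      hb P p (s₁, s₂) (by simp only; linarith) (by simp only; linarith)
    have hsum : Summable fun p => ‖zdaF P p (s₁, s₂)‖ :=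
      Summable.of_nonneg_of_le (fun p => norm_nonneg _) hle hu
    have g2 : ‖∏' p : Nat.Primes, (1 + zdaF P p (s₁, s₂))‖ ≤ Real.exp (∑' p, u p) :=
      (hPRD _ hsum).2.2.trans (Real.exp_le_exp.2 (hsum.tsum_le_tsum hle hu))
    refine mul_le_mul ?_ g2 (norm_nonneg _) (Finset.sum_nonneg fun v _ => by positivity)
    unfold Ex
    refine (norm_sum_le _ _).trans (Finset.sum_le_sum fun v hv => ?_)
    rw [norm_mul, norm_prod]
    refine mul_le_mul_of_nonneg_right (Finset.prod_le_prod (fun p _ => norm_nonneg _)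
      fun p _ => ?_) (norm_nonneg _)
    exact zda_mu_le p (v p) (zda_three p (hP p p.2).1 (hP p p.2).2)
      (Fintype.mem_piFinset.1 hv p) s₁ s₂ (by linarith) (by linarith)

end Pool.Agent.QM
end

-- part Pool.Agent.P.MP_ea46f5_nt.QM.Gam
section

/-!
Crude two-sided bounds for the Gamma function on vertical strips.
-/

namespace Pool.Agent.QM.Gm

open Complex MeasureTheory Set
open scoped Real

theorem norm_sin_le_exp (z : ℂ) : ‖Complex.sin z‖ ≤ Real.exp |z.im| := by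
  have h1 : ‖cexp (-z * I)‖ ≤ Real.exp |z.im| := by
    rw [Complex.norm_exp]; apply Real.exp_le_exp.2; simpa using le_abs_self _
  have h2 : ‖cexp (z * I)‖ ≤ Real.exp |z.im| := by
    rw [Complex.norm_exp]; apply Real.exp_le_exp.2; simpa using neg_le_abs _
  have h3 := norm_sub_le (cexp (-z * I)) (cexp (z * I))
  rw [Complex.sin, norm_div, norm_mul, norm_I, Complex.norm_two]
  linarith

theorem gam_half (τ : ℝ) : ‖Gamma (1 / 2 + τ * I)‖ ≤ 3 * Real.exp (-π * |τ| / 2) := by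
  have h := Complex.Gamma_mul_Gamma_one_sub (1 / 2 + τ * I)
  have hc : (1 - (1 / 2 + τ * I) : ℂ) = (starRingEnd ℂ) (1 / 2 + τ * I) := by
    apply Complex.ext <;> (simp; try norm_num)
  have hs : Complex.sin (π * (1 / 2 + τ * I)) = (Real.cosh (π * τ) : ℝ) := by
    have : (π * (1 / 2 + τ * I) : ℂ) = ((π * τ : ℝ) : ℂ) * I + π / 2 := by push_cast; ring
    rw [this, Complex.sin_add_pi_div_two, Complex.cos_mul_I, ofReal_cosh]
  rw [hc, Complex.Gamma_conj, hs] at h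
  have h2 := congrArg norm h
  rw [norm_mul, Complex.norm_conj, norm_div, Complex.norm_real, Complex.norm_real,
    Real.norm_of_nonneg Real.pi_pos.le, Real.norm_of_nonneg (Real.cosh_pos _).le] at h2
  have hE : Real.exp (π * |τ|) / 2 ≤ Real.cosh (π * τ) := by
    rw [← Real.cosh_abs, abs_mul, abs_of_pos Real.pi_pos, Real.cosh_eq]
    have := Real.exp_pos (-(π * |τ|))
    linarith
  apply abs_le_of_sq_le_sq' _ (by positivity) |>.2
  rw [sq, h2, mul_pow, ← Real.exp_nat_mul, div_le_iff₀ (Real.cosh_pos _)]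
  have h3 : Real.exp (((2 : ℕ) : ℝ) * (-π * |τ| / 2)) * Real.exp (π * |τ|) = 1 := by
    rw [← Real.exp_add]; push_cast; ring_nf; simp
  have h4 := Real.exp_pos (((2 : ℕ) : ℝ) * (-π * |τ| / 2))
  have h5 := Real.pi_le_four
  nlinarith [mul_le_mul_of_nonneg_left hE h4.le]

theorem gam_line (n : ℕ) (τ : ℝ) : ‖Gamma (1 / 2 + n + τ * I)‖ ≤
    3 * n.factorial * (1 + |τ|) ^ n * Real.exp (-π * |τ| / 2) := by
  induction n with
  | zero => simpa using gam_half τ
  | succ n ih =>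
    have hne : (1 / 2 + n + τ * I : ℂ) ≠ 0 := by
      intro h
      have := congrArg re h
      simp at this
      have : (0 : ℝ) ≤ n := Nat.cast_nonneg n
      linarith
    have e : (1 / 2 + ((n + 1 : ℕ) : ℂ) + τ * I : ℂ) = (1 / 2 + n + τ * I) + 1 := by
      push_cast; ring
    have hn : ‖(1 / 2 + n + τ * I : ℂ)‖ ≤ (n + 1) * (1 + |τ|) := by
      refine (Complex.norm_le_abs_re_add_abs_im _).trans ?_
      have h0 : (0 : ℝ) ≤ n := Nat.cast_nonneg n
      have h1 : (1 / 2 + n + τ * I : ℂ).re = 1 / 2 + n := by simp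
      have h2 : (1 / 2 + n + τ * I : ℂ).im = τ := by simp
      rw [h1, h2, abs_of_nonneg (by linarith)]
      nlinarith [abs_nonneg τ]
    rw [e, Complex.Gamma_add_one _ hne, norm_mul, Nat.factorial_succ]
    refine (mul_le_mul hn ih (norm_nonneg _) (by positivity)).trans (le_of_eq ?_)
    push_cast; ring

theorem norm_beta_le {z : ℂ} {b : ℝ} (hz : 1 / 8 ≤ z.re) (hb : 1 ≤ b) :
    ‖betaIntegral z b‖ ≤ 8 := by
  have hI : IntervalIntegrable (fun x : ℝ => x ^ (-(7 / 8) : ℝ)) volume 0 1 :=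
    intervalIntegral.intervalIntegrable_rpow' (by norm_num)
  have h8 : ∫ x in (0 : ℝ)..1, x ^ (-(7 / 8) : ℝ) = 8 := by
    rw [integral_rpow (Or.inl (by norm_num))]
    norm_num
  rw [betaIntegral, ← h8]
  refine intervalIntegral.norm_integral_le_of_norm_le zero_le_one ?_ hI
  refine Filter.Eventually.of_forall fun x hx => ?_
  have hx0 : 0 < x := hx.1
  have hx1 : 0 ≤ 1 - x := sub_nonneg.2 hx.2
  rw [norm_mul, Complex.norm_cpow_eq_rpow_re_of_pos hx0]
  have h1 : x ^ (z - 1).re ≤ x ^ (-(7 / 8) : ℝ) :=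
    Real.rpow_le_rpow_of_exponent_ge hx0 hx.2 (by simp; linarith)
  have h2 : ‖(1 - (x : ℂ)) ^ ((b : ℂ) - 1)‖ ≤ 1 := by
    have e1 : (1 - (x : ℂ)) = ((1 - x : ℝ) : ℂ) := by push_cast; ring
    have e2 : ((b : ℂ) - 1) = ((b - 1 : ℝ) : ℂ) := by push_cast; ring
    rw [e1, e2, ← ofReal_cpow hx1, Complex.norm_real, Real.norm_of_nonneg (by positivity)]
    exact Real.rpow_le_one hx1 (by linarith) (by linarith)
  calc _ ≤ x ^ (-(7 / 8) : ℝ) * 1 := mul_le_mul h1 h2 (norm_nonneg _) (by positivity)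
    _ = _ := mul_one _

/-- Upper bound on the strip `1/8 ≤ Re z ≤ N`. -/
theorem gam_upper (N : ℕ) {z : ℂ} (h0 : 1 / 8 ≤ z.re) (h1 : z.re ≤ N) :
    ‖Gamma z‖ ≤ 24 * (N + 2).factorial * (1 + |z.im|) ^ (N + 2) * Real.exp (-π * |z.im| / 2) := by
  set b : ℝ := 1 / 2 + (N + 2 : ℕ) - z.re with hb
  have hb2 : 2 ≤ b := by rw [hb]; push_cast; linarith
  have h := Complex.Gamma_mul_Gamma_eq_betaIntegral (s := z) (t := b) (by linarith)
    (by simp only [ofReal_re]; linarith)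
  have e : z + b = 1 / 2 + ((N + 2 : ℕ) : ℂ) + z.im * I := by
    apply Complex.ext <;> simp [hb]
  have hG : 1 ≤ Real.Gamma b := by
    rw [← Real.Gamma_two]
    exact Real.Gamma_strictMonoOn_Ici.monotoneOn (by simp) hb2 hb2
  have h2 := congrArg norm h
  rw [norm_mul, norm_mul, e, Complex.Gamma_ofReal, Complex.norm_real,
    Real.norm_of_nonneg (by linarith)] at h2
  have h3 := mul_le_mul (gam_line (N + 2) z.im) (norm_beta_le (b := b) h0 (by linarith))
    (norm_nonneg _) (by positivity)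
  rw [← h2] at h3
  nlinarith [norm_nonneg (Gamma z)]

/-- Lower bound on the strip `1/8 ≤ Re z ≤ 7/8`. -/
theorem gam_lower {z : ℂ} (h0 : 1 / 8 ≤ z.re) (h1 : z.re ≤ 7 / 8) :
    Real.exp (-π * |z.im| / 2) ≤ 48 * (1 + |z.im|) ^ 3 * ‖Gamma z‖ := by
  have h := Complex.Gamma_mul_Gamma_one_sub z
  have hz : Gamma z ≠ 0 := Complex.Gamma_ne_zero_of_re_pos (by linarith)
  have hz' : Gamma (1 - z) ≠ 0 := Complex.Gamma_ne_zero_of_re_pos (by simp; linarith)
  have hs : Complex.sin (π * z) ≠ 0 := by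
    intro h0; rw [h0, div_zero] at h; exact mul_ne_zero hz hz' h
  have h2 := congrArg norm h
  rw [norm_mul, norm_div, Complex.norm_real, Real.norm_of_nonneg Real.pi_pos.le,
    eq_div_iff (norm_ne_zero_iff.2 hs)] at h2
  have h3 := gam_upper 1 (z := 1 - z) (by simp; linarith) (by simp; linarith)
  have h4 := norm_sin_le_exp (π * z)
  have e1 : |(1 - z).im| = |z.im| := by simp
  have e2 : |(π * z).im| = π * |z.im| := by
    rw [im_ofReal_mul, abs_mul, abs_of_pos Real.pi_pos]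
  rw [e1] at h3
  rw [e2] at h4
  set E := Real.exp (-π * |z.im| / 2) with hE
  have hE0 : 0 < E := Real.exp_pos _
  have h5 : E * E * Real.exp (π * |z.im|) = 1 := by
    rw [hE, ← Real.exp_add, ← Real.exp_add]; ring_nf; simp
  have h6 := mul_le_mul (mul_le_mul_of_nonneg_left h3 (norm_nonneg (Gamma z))) h4
    (norm_nonneg _) (by positivity)
  rw [h2] at h6
  have h7 := mul_le_mul_of_nonneg_left h6 hE0.le
  have h8 : E * (‖Gamma z‖ * (24 * ((1 + 2).factorial : ℕ) * (1 + |z.im|) ^ (1 + 2) * E) *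
      Real.exp (π * |z.im|)) = 144 * (1 + |z.im|) ^ 3 * ‖Gamma z‖ := by
    have : ((1 + 2).factorial : ℕ) = 6 := by decide
    rw [this]; push_cast
    linear_combination (144 * (1 + |z.im|) ^ 3 * ‖Gamma z‖) * h5
  rw [h8] at h7
  nlinarith [Real.pi_gt_three]

theorem norm_GammaR (w : ℂ) : ‖Gammaℝ w‖ = π ^ (-w.re / 2) * ‖Gamma (w / 2)‖ := by
  rw [Complex.Gammaℝ_def, norm_mul, Complex.norm_cpow_eq_rpow_re_of_pos Real.pi_pos]
  simp

theorem pi_rpow_le_one {x : ℝ} (hx : 0 ≤ x) : π ^ (-x / 2) ≤ 1 :=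
  Real.rpow_le_one_of_one_le_of_nonpos (by linarith [Real.pi_gt_three]) (by linarith)

/-- Upper bound for the real Gamma factor on `1/4 ≤ Re w ≤ 2N`. -/
theorem gamR_upper (N : ℕ) {w : ℂ} (h0 : 1 / 4 ≤ w.re) (h1 : w.re ≤ 2 * N) :
    ‖Gammaℝ w‖ ≤
      24 * (N + 2).factorial * (1 + |w.im|) ^ (N + 2) * Real.exp (-π * |w.im| / 4) := by
  have h := gam_upper N (z := w / 2) (by simp; linarith) (by simp; linarith)
  have e : |(w / 2).im| = |w.im| / 2 := by simp [abs_div]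
  rw [e] at h
  rw [norm_GammaR]
  have h2 : (1 + |w.im| / 2) ^ (N + 2) ≤ (1 + |w.im|) ^ (N + 2) :=
    pow_le_pow_left₀ (by positivity) (by linarith [abs_nonneg w.im]) _
  have e2 : -π * (|w.im| / 2) / 2 = -π * |w.im| / 4 := by ring
  rw [e2] at h
  calc _ ≤ 1 * ‖Gamma (w / 2)‖ :=
        mul_le_mul_of_nonneg_right (pi_rpow_le_one (by linarith)) (norm_nonneg _)
    _ ≤ _ := by rw [one_mul]; exact h.trans (by gcongr)

/-- Lower bound for the real Gamma factor on `1/4 ≤ Re w ≤ 7/4`. -/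
theorem gamR_lower {w : ℂ} (h0 : 1 / 4 ≤ w.re) (h1 : w.re ≤ 7 / 4) :
    Real.exp (-π * |w.im| / 4) ≤ 192 * (1 + |w.im|) ^ 3 * ‖Gammaℝ w‖ := by
  have h := gam_lower (z := w / 2) (by simp; linarith) (by simp; linarith)
  have e : |(w / 2).im| = |w.im| / 2 := by simp [abs_div]
  have e2 : -π * (|w.im| / 2) / 2 = -π * |w.im| / 4 := by ring
  rw [e, e2] at h
  have h2 : (1 + |w.im| / 2) ^ 3 ≤ (1 + |w.im|) ^ 3 :=
    pow_le_pow_left₀ (by positivity) (by linarith [abs_nonneg w.im]) _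
  have h3 : 1 / 4 ≤ π ^ (-w.re / 2) := by
    have h4 : π ^ (-1 : ℝ) ≤ π ^ (-w.re / 2) :=
      Real.rpow_le_rpow_of_exponent_le (by linarith [Real.pi_gt_three]) (by linarith)
    rw [Real.rpow_neg_one] at h4
    refine le_trans ?_ h4
    rw [one_div]
    exact inv_anti₀ Real.pi_pos Real.pi_le_four
  rw [norm_GammaR]
  have h5 : ‖Gamma (w / 2)‖ ≤ 4 * (π ^ (-w.re / 2) * ‖Gamma (w / 2)‖) := by
    nlinarith [norm_nonneg (Gamma (w / 2))]
  calc _ ≤ _ := h
    _ ≤ 48 * (1 + |w.im|) ^ 3 * (4 * (π ^ (-w.re / 2) * ‖Gamma (w / 2)‖)) := by gcongr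
    _ = _ := by ring

theorem pow_mul_exp_le (n : ℕ) {c x : ℝ} (hc : 0 < c) (hc1 : c ≤ 1) (hx : 0 ≤ x) :
    (1 + x) ^ n * Real.exp (-(c * x)) ≤ 3 * n.factorial / c ^ n := by
  have h := Real.pow_div_factorial_le_exp (c * (1 + x)) (by positivity) n
  have hf : (0 : ℝ) < n.factorial := by exact_mod_cast n.factorial_pos
  rw [div_le_iff₀ hf, mul_pow] at h
  have e : Real.exp (c * (1 + x)) * Real.exp (-(c * x)) = Real.exp c := by
    rw [← Real.exp_add]; congr 1; ring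
  have h3 : Real.exp c ≤ 3 := (Real.exp_le_exp.2 hc1).trans Real.exp_one_lt_three.le
  rw [le_div_iff₀ (by positivity)]
  have h4 := mul_le_mul_of_nonneg_right h (Real.exp_pos (-(c * x))).le
  calc _ = c ^ n * (1 + x) ^ n * Real.exp (-(c * x)) := by ring
    _ ≤ _ := h4
    _ = Real.exp c * n.factorial := by rw [← e]; ring
    _ ≤ _ := by gcongr

/-- Exponential form of Gamma1, on `0 < Re z ≤ 2N`. -/
theorem gamma1_exp (N : ℕ) : ∃ C : ℝ, 0 < C ∧ ∀ z : ℂ, 0 < z.re → z.re ≤ 2 * N →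
    ‖Gammaℝ z‖ ≤ C / ‖z‖ * Real.exp (-|z.im| / 2) := by
  refine ⟨8 * (24 * (N + 1 + 2).factorial * (3 * (N + 1 + 2).factorial / (1 / 4) ^ (N + 1 + 2))),
    by positivity, fun z h0 h1 => ?_⟩
  have hz : z ≠ 0 := fun h => by simp [h] at h0
  have hn : 0 < ‖z‖ := norm_pos_iff.2 hz
  have h := gamR_upper (N + 1) (w := z + 2) (by simp; linarith) (by simp; linarith)
  have e : (z + 2).im = z.im := by simp
  rw [e, Complex.Gammaℝ_add_two hz, norm_div, norm_div, norm_mul, Complex.norm_two,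
    Complex.norm_real, Real.norm_of_nonneg Real.pi_pos.le] at h
  have h2 := pow_mul_exp_le (N + 1 + 2) (c := 1 / 4) (x := |z.im|) (by norm_num) (by norm_num)
    (abs_nonneg _)
  have h3 : Real.exp (-π * |z.im| / 4) ≤
      Real.exp (-(1 / 4 * |z.im|)) * Real.exp (-|z.im| / 2) := by
    rw [← Real.exp_add]
    apply Real.exp_le_exp.2
    nlinarith [Real.pi_gt_three, abs_nonneg z.im]
  have h4 : (1 + |z.im|) ^ (N + 1 + 2) * Real.exp (-π * |z.im| / 4) ≤
      (3 * (N + 1 + 2).factorial / (1 / 4) ^ (N + 1 + 2)) * Real.exp (-|z.im| / 2) := by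
    calc _ ≤ (1 + |z.im|) ^ (N + 1 + 2) *
          (Real.exp (-(1 / 4 * |z.im|)) * Real.exp (-|z.im| / 2)) := by gcongr
      _ = _ := (mul_assoc _ _ _).symm
      _ ≤ _ := by gcongr
  have h5 : ‖Gammaℝ z‖ * ‖z‖ ≤ 8 * (‖Gammaℝ z‖ * ‖z‖ / 2 / π) := by
    have hp := Real.pi_pos
    have : 8 * (‖Gammaℝ z‖ * ‖z‖ / 2 / π) = ‖Gammaℝ z‖ * ‖z‖ * (4 / π) := by ring
    rw [this]
    refine le_mul_of_one_le_right (by positivity) ?_
    rw [le_div_iff₀ hp]; linarith [Real.pi_le_four]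
  rw [div_mul_eq_mul_div, le_div_iff₀ hn]
  refine h5.trans ?_
  rw [mul_assoc 8]
  refine mul_le_mul_of_nonneg_left (h.trans ?_) (by norm_num)
  rw [mul_assoc (24 * _ : ℝ), mul_assoc (24 * _ : ℝ)]
  exact mul_le_mul_of_nonneg_left h4 (by positivity)

/-- Gamma1 of the paper. -/
theorem gamma1 (n : ℕ) : ∃ C : ℝ, 0 < C ∧ ∀ z : ℂ, 0 < z.re → z.re ≤ 7 →
    ‖Gammaℝ z‖ ≤ C / ‖z‖ / (1 + |z.im|) ^ n := by
  obtain ⟨C, hC, h⟩ := gamma1_exp 4
  refine ⟨C * (3 * n.factorial / (1 / 2) ^ n), by positivity, fun z h0 h1 => ?_⟩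
  refine (h z h0 (by push_cast; linarith)).trans ?_
  have h2 := pow_mul_exp_le n (c := 1 / 2) (x := |z.im|) (by norm_num) (by norm_num)
    (abs_nonneg _)
  have e : -|z.im| / 2 = -(1 / 2 * |z.im|) := by ring
  rw [le_div_iff₀ (by positivity), e, mul_assoc, mul_comm (Real.exp _), mul_div_right_comm]
  exact mul_le_mul_of_nonneg_left h2 (by positivity)

/-- Gamma2 for a base point `w` with `1/2 ≤ Re w ≤ 3/2`. -/
theorem gamma2_base : ∃ C : ℝ, 0 < C ∧ ∀ w s : ℂ, 1 / 2 ≤ w.re → w.re ≤ 3 / 2 →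
    -1 / 4 ≤ s.re → s.re ≤ 13 →
    ‖Gammaℝ (w + s)‖ ≤
      C * (1 + |w.im|) ^ 13 * (1 + |s.im|) ^ 13 * Real.exp |s.im| * ‖Gammaℝ w‖ := by
  refine ⟨24 * (8 + 2).factorial * 192, by positivity, fun w s h0 h1 h2 h3 => ?_⟩
  have hu := gamR_upper 8 (w := w + s) (by simp; linarith) (by simp; linarith)
  have hl := gamR_lower (w := w) (by linarith) (by linarith)
  have ht := abs_nonneg w.im
  have hy := abs_nonneg s.im
  have e : (w + s).im = w.im + s.im := by simp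
  rw [e] at hu
  have h4 : 1 + |w.im + s.im| ≤ (1 + |w.im|) * (1 + |s.im|) := by
    nlinarith [abs_add_le w.im s.im, mul_nonneg ht hy]
  have h5 : Real.exp (-π * |w.im + s.im| / 4) ≤
      Real.exp |s.im| * Real.exp (-π * |w.im| / 4) := by
    rw [← Real.exp_add]
    apply Real.exp_le_exp.2
    have : |w.im| ≤ |w.im + s.im| + |s.im| := by
      simpa using abs_sub (w.im + s.im) s.im
    nlinarith [Real.pi_pos, Real.pi_le_four]
  have h6 : (1 + |s.im|) ^ 10 ≤ (1 + |s.im|) ^ 13 :=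
    pow_le_pow_right₀ (by linarith) (by norm_num)
  calc _ ≤ _ := hu
    _ ≤ 24 * (8 + 2).factorial * ((1 + |w.im|) * (1 + |s.im|)) ^ (8 + 2) *
          (Real.exp |s.im| * (192 * (1 + |w.im|) ^ 3 * ‖Gammaℝ w‖)) := by
        gcongr
        exact h5.trans (by gcongr)
    _ = 24 * (8 + 2).factorial * 192 * (1 + |w.im|) ^ 13 * (1 + |s.im|) ^ 10 *
          Real.exp |s.im| * ‖Gammaℝ w‖ := by ring
    _ ≤ _ := by gcongr

/-- Gamma2 of the paper, with `h = 13`. -/
theorem gamma2 : ∃ C : ℝ, 0 < C ∧ ∀ (a : ℕ) (t : ℝ) (s : ℂ), a ≤ 1 →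
    -1 / 4 ≤ s.re → s.re ≤ 13 →
    ‖Gammaℝ (1 / 2 + a + t * I + s)‖ ≤
      C * (1 + |t|) ^ 13 * (1 + |s.im|) ^ 13 * Real.exp |s.im| * ‖Gammaℝ (1 / 2 + a + t * I)‖ := by
  obtain ⟨C, hC, h⟩ := gamma2_base
  refine ⟨C, hC, fun a t s ha h2 h3 => ?_⟩
  have h0 : (0 : ℝ) ≤ a := Nat.cast_nonneg a
  have h1 : (a : ℝ) ≤ 1 := by exact_mod_cast ha
  have e1 : (1 / 2 + a + t * I : ℂ).re = 1 / 2 + a := by simp
  have e2 : (1 / 2 + a + t * I : ℂ).im = t := by simp
  have := h (1 / 2 + a + t * I) s (by rw [e1]; linarith) (by rw [e1]; linarith) h2 h3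
  rwa [e2] at this

end Pool.Agent.QM.Gm
end

-- part Pool.Agent.P.MP_ea46f5_nt.QM.Gauss
section

/-!
The Gauss sum of the Jacobi symbol to a squarefree odd modulus, with its sign.
-/

namespace Pool.Agent.QM

open Real Finset NumberTheorySymbols Pool.Agent.LRes

/-- The twisted Gauss sum of the Jacobi symbol. -/
noncomputable def gsum (n : ℕ) [NeZero n] (h : ℤ) : ℂ :=
  ∑ a : ZMod n, (J((a.val : ℤ) | n) : ℂ) * ZMod.stdAddChar (a * (h : ZMod n))

/-- The sign of the Gauss sum. -/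
noncomputable def gsgn (n : ℕ) : ℂ := if n % 4 = 1 then 1 else Complex.I

theorem jac_val {n : ℕ} [NeZero n] (m : ℤ) : J((((m : ZMod n)).val : ℤ) | n) = J(m | n) := by
  rw [ZMod.val_intCast]
  exact (jacobiSym.mod_left m n).symm

theorem gsum_mul {x y : ℕ} [NeZero x] [NeZero y] [NeZero (x * y)] (hxy : Nat.Coprime x y)
    (m : ℤ) : gsum (x * y) m = (J(y | x) * J(x | y) : ℂ) * (gsum x m * gsum y m) := by
  have hx0 : (x : ℂ) ≠ 0 := by exact_mod_cast NeZero.ne x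
  have hy0 : (y : ℂ) ≠ 0 := by exact_mod_cast NeZero.ne y
  let e : ZMod x × ZMod y → ZMod (x * y) :=
    fun ab => ((ab.1.val * y + ab.2.val * x : ℤ) : ZMod (x * y))
  have hyx : IsUnit (y : ZMod x) := (ZMod.isUnit_iff_coprime y x).2 hxy.symm
  have hxy' : IsUnit (x : ZMod y) := (ZMod.isUnit_iff_coprime x y).2 hxy
  have hinj : Function.Injective e := by
    rintro ⟨a, b⟩ ⟨a', b'⟩ h
    have h1 := congrArg (ZMod.castHom (dvd_mul_right x y) (ZMod x)) h
    have h2 := congrArg (ZMod.castHom (dvd_mul_left y x) (ZMod y)) h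
    simp only [e, map_intCast] at h1 h2
    push_cast at h1 h2
    simp only [ZMod.natCast_val, ZMod.cast_id', id_eq, ZMod.natCast_self, mul_zero, add_zero,
      zero_add] at h1 h2
    exact Prod.ext (hyx.mul_right_cancel h1) (hxy'.mul_right_cancel h2)
  have hbij : Function.Bijective e :=
    (Fintype.bijective_iff_injective_and_card e).2 ⟨hinj, by simp [ZMod.card]⟩
  unfold gsum
  rw [← hbij.sum_comp, Fintype.sum_prod_type, sum_mul_sum, mul_sum]
  refine sum_congr rfl fun a _ => ?_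
  rw [mul_sum]
  refine sum_congr rfl fun b _ => ?_
  have e1 : e (a, b) * (m : ZMod (x * y)) =
      (((a.val * y + b.val * x) * m : ℤ) : ZMod (x * y)) := by simp [e]
  have e2 : a * (m : ZMod x) = ((a.val * m : ℤ) : ZMod x) := by push_cast; simp
  have e3 : b * (m : ZMod y) = ((b.val * m : ℤ) : ZMod y) := by push_cast; simp
  have e4 : J(a.val * y + b.val * x | x) = J(a.val | x) * J(y | x) := by
    rw [← jacobiSym.mul_left]
    apply jacobiSym.mod_left'
    simp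
  have e5 : J(a.val * y + b.val * x | y) = J(b.val | y) * J(x | y) := by
    rw [← jacobiSym.mul_left]
    apply jacobiSym.mod_left'
    rw [add_comm]
    simp
  rw [e1, e2, e3, ZMod.stdAddChar_coe, ZMod.stdAddChar_coe, ZMod.stdAddChar_coe]
  simp only [e]
  rw [jac_val, jacobiSym.mul_right, e4, e5]
  have e6 : Complex.exp (2 * π * Complex.I * (((a.val * y + b.val * x) * m : ℤ) : ℂ) /
      ((x * y : ℕ) : ℂ)) =
      Complex.exp (2 * π * Complex.I * ((a.val * m : ℤ) : ℂ) / (x : ℂ)) *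
        Complex.exp (2 * π * Complex.I * ((b.val * m : ℤ) : ℂ) / (y : ℂ)) := by
    rw [← Complex.exp_add]
    congr 1
    push_cast
    field_simp
  rw [e6]
  push_cast
  ring

theorem sum_sq_eq_gs {p : ℕ} [Fact p.Prime] (hp : p ≠ 2) :
    ∑ x : ZMod p, ZMod.stdAddChar (x ^ 2) = gs p := by
  have hc : ringChar (ZMod p) ≠ 2 := by rw [ZMod.ringChar_zmod_n]; exact hp
  rw [← sum_fiberwise_of_maps_to (s := univ) (t := univ) (g := fun x : ZMod p => x ^ 2)
    (fun _ _ => mem_univ _)]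
  have h1 : ∀ a : ZMod p, ∑ x ∈ univ.filter (fun x : ZMod p => x ^ 2 = a),
      ZMod.stdAddChar (x ^ 2) = (qc p a + 1) * ZMod.stdAddChar a := by
    intro a
    rw [sum_congr rfl (g := fun _ => ZMod.stdAddChar a)
      (fun x hx => by rw [(mem_filter.1 hx).2]), sum_const, nsmul_eq_mul]
    congr 1
    have h := quadraticChar_card_sqrts hc a
    have h2 : (univ.filter fun x : ZMod p => x ^ 2 = a) = {x : ZMod p | x ^ 2 = a}.toFinset := by
      ext x; simp
    rw [h2]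
    have h3 := congrArg (fun z : ℤ => (z : ℂ)) h
    simpa [qc] using h3
  simp_rw [h1, add_mul, one_mul]
  rw [sum_add_distrib, gs_eq, gaussSum]
  have h0 : ∑ a : ZMod p, ZMod.stdAddChar a = 0 := by
    apply AddChar.sum_eq_zero_of_ne_one
    have := (ZMod.isPrimitive_stdAddChar p) (a := 1) one_ne_zero
    simpa using this
  rw [h0, add_zero]

theorem gs_prime {p : ℕ} [Fact p.Prime] (hp : p ≠ 2) : gs p = gsgn p * (√(p : ℝ) : ℝ) := by
  have hpp : p.Prime := Fact.out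
  have hp0 : (0 : ℝ) < p := by exact_mod_cast hpp.pos
  have hs : 0 < √(p : ℝ) := sqrt_pos.2 hp0
  have hsC : ((√(p : ℝ) : ℝ) : ℂ) ≠ 0 := by exact_mod_cast hs.ne'
  have hsq : ((√(p : ℝ) : ℝ) : ℂ) ^ 2 = p := by
    rw [← Complex.ofReal_pow, sq_sqrt hp0.le]; simp
  have h := Pool.Agent.P.MP_27a476_gt.gauss_reciprocity p hpp.pos 2 two_ne_zero 0
    (by simp)
  have h1 : ∑ j ∈ range p, Complex.exp (π * Complex.I * ((2 : ℤ) * (j : ℂ) ^ 2 + (0 : ℤ) * j) / p)
      = gs p := by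
    rw [← sum_sq_eq_gs hp]
    refine sum_nbij' (fun j => (j : ZMod p)) (fun a => a.val) (fun _ _ => mem_univ _)
      (fun a _ => mem_range.2 (ZMod.val_lt a))
      (fun j hj => ZMod.val_cast_of_lt (mem_range.1 hj)) (fun a _ => by simp) fun j _ => ?_
    have : (j : ZMod p) ^ 2 = (((j : ℤ) ^ 2 : ℤ) : ZMod p) := by push_cast; rfl
    rw [this, ZMod.stdAddChar_coe]
    congr 1
    push_cast
    ring
  rw [h1] at h
  have h2 : (-Complex.I * ((2 : ℤ) : ℂ) / p) ^ (1 / 2 : ℂ) =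
      (1 - Complex.I) / (√(p : ℝ) : ℝ) := by
    have h3 : -Complex.I * ((2 : ℤ) : ℂ) / p = ((1 - Complex.I) / (√(p : ℝ) : ℝ)) ^ 2 := by
      rw [div_pow, hsq]
      congr 1
      push_cast
      linear_combination (-1 : ℂ) * Complex.I_sq
    rw [h3, one_div]
    apply Complex.sq_cpow_two_inv
    rw [Complex.div_ofReal_re]
    simpa using hs
  rw [h2] at h
  have h4 : (2 : ℤ).natAbs = 2 := rfl
  rw [h4, sum_range_succ, sum_range_one] at h
  have hI : Complex.exp (-π * Complex.I / 2) = -Complex.I := by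
    rw [show -π * Complex.I / 2 = -(π / 2 * Complex.I : ℂ) by ring, Complex.exp_neg,
      Complex.exp_pi_div_two_mul_I, Complex.inv_I]
  have h5 : Complex.exp (-π * Complex.I * ((p : ℂ) * ((1 : ℕ) : ℂ) ^ 2 - ((0 : ℤ) : ℂ) * (1 : ℕ)) /
      ((2 : ℤ) : ℂ)) = (-Complex.I) ^ p := by
    rw [← hI, ← Complex.exp_nat_mul]
    congr 1
    push_cast
    ring
  rw [h5] at h
  simp only [Int.cast_zero, Nat.cast_zero, ne_eq, OfNat.ofNat_ne_zero, not_false_eq_true,
    zero_pow, mul_zero, zero_div, Complex.exp_zero, one_mul, sub_zero] at h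
  have h6 : (-Complex.I) ^ p = (-Complex.I) ^ (p % 4) := by
    conv_lhs => rw [← Nat.div_add_mod p 4, pow_add, pow_mul]
    have : (-Complex.I) ^ 4 = 1 := by rw [neg_pow, Complex.I_pow_four]; norm_num
    rw [this, one_pow, one_mul]
  rw [h6] at h
  have h7 : (1 - Complex.I) ≠ 0 := by
    intro h0
    have := congrArg Complex.re h0
    simp at this
  apply mul_left_cancel₀ h7
  have h8 : (1 - Complex.I) * gs p = (√(p : ℝ) : ℝ) * (1 + (-Complex.I) ^ (p % 4)) := by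
    rw [← h]; field_simp
  rw [h8]
  unfold gsgn
  by_cases hm : p % 4 = 1
  · rw [if_pos hm, hm]; ring
  · have h3 : p % 4 = 3 := by have := Nat.odd_iff.1 (hpp.odd_of_ne_two hp); omega
    rw [if_neg hm, h3]
    linear_combination ((√(p : ℝ) : ℝ) : ℂ) * (1 - Complex.I) * Complex.I_sq

theorem gsgn_mul {x y : ℕ} (hx : Odd x) (hy : Odd y) (hxy : Nat.Coprime x y) :
    (J(y | x) * J(x | y) : ℂ) * (gsgn x * gsgn y) = gsgn (x * y) := by
  have hsq : J(y | x) ^ 2 = 1 := jacobiSym.sq_one (by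
    rw [Int.gcd_natCast_natCast]; exact hxy.symm)
  have hsqC : (J(y | x) : ℂ) * J(y | x) = 1 := by rw [← sq]; exact_mod_cast hsq
  have h1 := Nat.odd_iff.1 hx
  have h2 := Nat.odd_iff.1 hy
  unfold gsgn
  by_cases h4 : x % 4 = 1
  · rw [jacobiSym.quadratic_reciprocity_one_mod_four h4 hy, hsqC, if_pos h4, Nat.mul_mod, h4]
    simp
  · have h3 : x % 4 = 3 := by omega
    by_cases h4' : y % 4 = 1
    · rw [← jacobiSym.quadratic_reciprocity_one_mod_four h4' hx, hsqC, if_pos h4', Nat.mul_mod, h4']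
      simp
    · have h3' : y % 4 = 3 := by omega
      rw [jacobiSym.quadratic_reciprocity_three_mod_four h3 h3', if_neg h4, if_neg h4',
        Nat.mul_mod, h3, h3', if_pos (by norm_num)]
      push_cast
      linear_combination (-(Complex.I * Complex.I)) * hsqC - Complex.I_mul_I

/-- The Gauss sum to a squarefree odd modulus. -/
theorem gsum_eq (n : ℕ) : ∀ [NeZero n], Odd n → Squarefree n → ∀ m : ℤ,
    gsum n m = (J(m | n) : ℂ) * (gsgn n * (√(n : ℝ) : ℝ)) := by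
  induction n using induction_on_primes with
  | zero => intro _ ho; simp at ho
  | one =>
    intro _ _ _ m
    have : ∀ a : ZMod 1, ZMod.stdAddChar a = 1 := fun a => by
      rw [Subsingleton.elim a 0, AddChar.map_zero_eq_one]
    simp [gsum, gsgn, this]
  | prime_mul p a hp ih =>
    intro _ ho hs m
    have := Fact.mk hp
    have ha0 : a ≠ 0 := by rintro rfl; simp at ho
    have : NeZero a := ⟨ha0⟩
    have hop : Odd p := (Nat.odd_mul.1 ho).1
    have hoa : Odd a := (Nat.odd_mul.1 ho).2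
    have hco : Nat.Coprime p a := Nat.coprime_of_squarefree_mul hs
    have hp2 : p ≠ 2 := by rintro rfl; exact absurd hop (by decide)
    have h1 : gsum p m = (J(m | p) : ℂ) * gs p := by
      rw [← gs_shift hp2]
      exact sum_congr rfl fun b _ => by rw [qc_val]
    rw [gsum_mul hco, h1, gs_prime hp2, ih hoa hs.of_mul_right, ← gsgn_mul hop hoa hco,
      jacobiSym.mul_right, Nat.cast_mul, sqrt_mul (by positivity)]
    push_cast
    ring

/-- The Jacobi symbol as a real function on residues. -/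
noncomputable def jf (n : ℕ) (a : ZMod n) : ℝ := (J((a.val : ℤ) | n) : ℝ)

theorem jf_int {n : ℕ} [NeZero n] (m : ℤ) : jf n (m : ZMod n) = (J(m | n) : ℝ) := by
  rw [jf, jac_val]

theorem selfDual_jf {n : ℕ} [NeZero n] (h4 : n % 4 = 1) (hs : Squarefree n) :
    SelfDual (jf n) := by
  intro m
  have h := gsum_eq n (Nat.odd_iff.2 (by omega)) hs m
  rw [gsgn, if_pos h4, one_mul] at h
  rw [jf_int]
  push_cast
  rw [mul_comm ((√(n : ℝ) : ℝ) : ℂ), ← h]
  refine sum_congr rfl fun a _ => ?_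
  have : a * (m : ZMod n) = ((a.val * m : ℤ) : ZMod n) := by push_cast; simp
  rw [this, ZMod.stdAddChar_coe]
  simp only [jf]
  push_cast
  congr 2
  ring

/-- The theta transformation formula for the Jacobi symbol. -/
theorem theta_jac {n : ℕ} (h4 : n % 4 = 1) (hs : Squarefree n) {y : ℝ} (hy : 0 < y) :
    ∑' m : ℤ, (J(m | n) : ℝ) * exp (-π * (m : ℝ) ^ 2 * y) =
      (√(n * y))⁻¹ * ∑' h : ℤ, (J(h | n) : ℝ) * exp (-π * (h : ℝ) ^ 2 * (1 / ((n : ℝ) ^ 2 * y))) := by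
  have : NeZero n := ⟨by omega⟩
  have hn : (0 : ℝ) < n := q_pos
  have h1 := (hasSum_Th (jf n) hy).tsum_eq
  have h2 := (hasSum_Th (jf n) (τ := 1 / ((n : ℝ) ^ 2 * y)) (by positivity)).tsum_eq
  simp only [jf_int] at h1 h2
  rw [h1, h2, Th_feq (selfDual_jf h4 hs) hy]
  have : 0 < √(n * y) := sqrt_pos.2 (by positivity)
  field_simp

theorem summable_gauss {y : ℝ} (hy : 0 < y) :
    Summable fun m : ℤ => exp (-π * (m : ℝ) ^ 2 * y) := by
  simpa using (hasSum_Th (q := 1) (fun _ => 1) hy).summable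

theorem abs_jac_le (m : ℤ) (n : ℕ) : |(J(m | n) : ℝ)| ≤ 1 := by
  rcases jacobiSym.trichotomy m n with h | h | h <;> simp [h]

theorem summable_jac (n : ℕ) {y : ℝ} (hy : 0 < y) :
    Summable fun m : ℤ => (J(m | n) : ℝ) * exp (-π * (m : ℝ) ^ 2 * y) := by
  refine (summable_gauss hy).of_norm_bounded fun m => ?_
  rw [norm_mul, Real.norm_eq_abs, Real.norm_of_nonneg (exp_pos _).le]
  exact mul_le_of_le_one_left (exp_pos _).le (abs_jac_le m n)

end Pool.Agent.QM
end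

-- part Pool.Agent.P.MP_ea46f5_nt.QM.LoB
section

/-!
The characters `n ↦ (m | n)` on odd `n` and their L-functions.
-/

namespace Pool.Agent.QM

open Complex Finset NumberTheorySymbols

/-- `χ_m(n)`: the Jacobi symbol `(m | n)` for odd `n`, zero for even `n`. -/
def chi (m : ℤ) (n : ℕ) : ℤ := if Odd n then J(m | n) else 0

theorem jo_eq (m : ℤ) (n : ℕ) : jo m n = (chi m n : ℂ) := by
  unfold jo chi
  split_ifs <;> simp

theorem exists_char (q : ℕ) [NeZero q] (f : ℕ → ℤ) (h1 : f 1 = 1)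
    (hm : ∀ a b, f (a * b) = f a * f b) (hp : ∀ a, f (a % q) = f a)
    (h0 : ∀ a, ¬ Nat.Coprime a q → f a = 0) :
    ∃ χ : DirichletCharacter ℂ q, ∀ n : ℕ, χ (n : ZMod q) = (f n : ℂ) := by
  let χ : DirichletCharacter ℂ q :=
    { toFun := fun x => (f x.val : ℂ)
      map_one' := by rw [ZMod.val_one_eq_one_mod, hp, h1, Int.cast_one]
      map_mul' := fun x y => by rw [ZMod.val_mul, hp, hm, Int.cast_mul]
      map_nonunit' := fun x hx => by
        have h2 : ¬ Nat.Coprime x.val q := fun h => hx (by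
          have := (ZMod.isUnit_iff_coprime x.val q).2 h
          rwa [ZMod.natCast_zmod_val] at this)
        simp only [h0 _ h2, Int.cast_zero] }
  refine ⟨χ, fun n => ?_⟩
  change (f (n : ZMod q).val : ℂ) = f n
  rw [ZMod.val_natCast, hp]

theorem LP_eq {q : ℕ} [NeZero q] {f : ℕ → ℂ} {χ : DirichletCharacter ℂ q}
    (h : ∀ n : ℕ, χ (n : ZMod q) = f n) (s : ℂ) :
    ZMod.LFunction (fun a : ZMod q => f a.val) s = χ.LFunction s := by
  rw [DirichletCharacter.LFunction]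
  congr 1
  funext a
  rw [← h, ZMod.natCast_zmod_val]

theorem chi_odd {n : ℕ} (m : ℤ) (h : Odd n) : chi m n = J(m | n) := if_pos h

theorem chi_even {n : ℕ} (m : ℤ) (h : ¬ Odd n) : chi m n = 0 := if_neg h

theorem chi_zero (m : ℤ) : chi m 0 = 0 := chi_even m (by decide)

theorem chi_two (m : ℤ) : chi m 2 = 0 := chi_even m (by decide)

theorem chi_one (m : ℤ) : chi m 1 = 1 := by rw [chi_odd m odd_one, jacobiSym.one_right]

theorem chi_mul (m : ℤ) (a b : ℕ) : chi m (a * b) = chi m a * chi m b := by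
  by_cases ha : Odd a
  · by_cases hb : Odd b
    · rw [chi_odd m ha, chi_odd m hb, chi_odd m (ha.mul hb),
        jacobiSym.mul_right' m ha.pos.ne' hb.pos.ne']
    · rw [chi_even m hb, chi_even m (fun h => hb (Nat.odd_mul.1 h).2), mul_zero]
  · rw [chi_even m ha, chi_even m (fun h => ha (Nat.odd_mul.1 h).1), zero_mul]

theorem chi_mul_left (m l : ℤ) (n : ℕ) : chi (m * l) n = chi m n * chi l n := by
  by_cases h : Odd n
  · rw [chi_odd _ h, chi_odd _ h, chi_odd _ h, jacobiSym.mul_left]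
  · rw [chi_even _ h, chi_even _ h, zero_mul]

theorem chi_mod (m : ℤ) (a : ℕ) : chi m (a % (4 * m.natAbs)) = chi m a := by
  have h : Odd (a % (4 * m.natAbs)) ↔ Odd a := by
    rw [Nat.odd_iff, Nat.odd_iff, Nat.mod_mod_of_dvd _ (Dvd.intro (2 * m.natAbs) (by ring))]
  by_cases ha : Odd a
  · rw [chi_odd m ha, chi_odd m (h.2 ha), ← jacobiSym.mod_right m ha]
  · rw [chi_even m ha, chi_even m (fun h' => ha (h.1 h'))]

theorem chi_tri (m : ℤ) (n : ℕ) : chi m n = 0 ∨ chi m n = 1 ∨ chi m n = -1 := by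
  by_cases h : Odd n
  · rw [chi_odd m h]; exact jacobiSym.trichotomy m n
  · exact Or.inl (chi_even m h)

theorem norm_chi_le (m : ℤ) (n : ℕ) : ‖(chi m n : ℂ)‖ ≤ 1 := by
  rcases chi_tri m n with h | h | h <;> simp [h]

theorem abs_chi_le (m : ℤ) (n : ℕ) : |(chi m n : ℝ)| ≤ 1 := by
  rcases chi_tri m n with h | h | h <;> simp [h]

theorem chi_not_coprime (m : ℤ) (a : ℕ) (h : ¬ Nat.Coprime a (4 * m.natAbs)) : chi m a = 0 := by
  by_cases ha : Odd a
  · rw [chi_odd m ha, jacobiSym.eq_zero_iff]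
    refine ⟨ha.pos.ne', fun h1 => h ?_⟩
    rw [Int.gcd_eq_natAbs, Int.natAbs_natCast] at h1
    refine Nat.Coprime.mul_right ?_ (Nat.Coprime.symm h1)
    have : Nat.Coprime a 2 := (Nat.coprime_two_right).2 ha
    exact this.pow_right 2
  · exact chi_even m ha

theorem four_ne {k : ℤ} (hk : k ≠ 0) : NeZero (4 * k.natAbs) := ⟨by omega⟩

/-- The character modulo `4|k|` behind `Lo k`. -/
theorem exists_chiO (k : ℤ) [NeZero (4 * k.natAbs)] :
    ∃ χ : DirichletCharacter ℂ (4 * k.natAbs), (∀ n : ℕ, χ (n : ZMod _) = (chi k n : ℂ)) ∧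
      Lo k = χ.LFunction := by
  obtain ⟨χ, h⟩ := exists_char (4 * k.natAbs) (chi k) (chi_one k) (chi_mul k) (chi_mod k)
    (chi_not_coprime k)
  refine ⟨χ, h, funext fun s => ?_⟩
  rw [Lo, dif_neg (NeZero.ne _)]
  exact LP_eq (f := jo k) (fun n => by rw [h, jo_eq]) s

theorem LSeriesSummable_chi (m : ℤ) {s : ℂ} (hs : 1 < s.re) :
    LSeriesSummable (fun n => (chi m n : ℂ)) s :=
  LSeriesSummable_of_bounded_of_one_lt_re (m := 1) (fun n _ => norm_chi_le m n) hs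

/-- The Dirichlet series of `Lo k`. -/
theorem Lo_eq_LSeries {k : ℤ} (hk : k ≠ 0) {s : ℂ} (hs : 1 < s.re) :
    Lo k s = LSeries (fun n => (chi k n : ℂ)) s := by
  have := four_ne hk
  obtain ⟨χ, h, e⟩ := exists_chiO k
  rw [e, χ.LFunction_eq_LSeries hs]
  congr 1
  funext n
  exact h n

theorem LSeries_term_chi (m : ℤ) (s : ℂ) (n : ℕ) :
    LSeries.term (fun n => (chi m n : ℂ)) s n = (chi m n : ℂ) * (n : ℂ) ^ (-s) := by
  rcases eq_or_ne n 0 with rfl | hn
  · simp [chi_zero]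
  · rw [LSeries.term_of_ne_zero hn, cpow_neg, div_eq_mul_inv]

theorem hasSum_LSeries_chi (m : ℤ) {s : ℂ} (hs : 1 < s.re) :
    HasSum (fun n : ℕ => (chi m n : ℂ) * (n : ℂ) ^ (-s)) (LSeries (fun n => (chi m n : ℂ)) s) := by
  have h := (LSeriesSummable_chi m hs).hasSum
  simpa only [LSeries, funext (LSeries_term_chi m s)] using h

theorem hasSum_Lo {k : ℤ} (hk : k ≠ 0) {s : ℂ} (hs : 1 < s.re) :
    HasSum (fun n : ℕ => (chi k n : ℂ) * (n : ℂ) ^ (-s)) (Lo k s) := by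
  rw [Lo_eq_LSeries hk hs]
  exact hasSum_LSeries_chi k hs

/-- The Euler product of `Lo k`. -/
theorem hasProd_Lo {k : ℤ} (hk : k ≠ 0) {s : ℂ} (hs : 1 < s.re) :
    HasProd (fun p : Nat.Primes => (1 - (chi k p : ℂ) * ((p : ℕ) : ℂ) ^ (-s))⁻¹) (Lo k s) := by
  have := four_ne hk
  obtain ⟨χ, h, e⟩ := exists_chiO k
  rw [e, χ.LFunction_eq_LSeries hs]
  simpa only [h] using χ.LSeries_eulerProduct_hasProd hs

theorem differentiableAt_Lo {k : ℤ} (hk : k ≠ 0) {s : ℂ} (hs : s ≠ 1) :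
    DifferentiableAt ℂ (Lo k) s := by
  have := four_ne hk
  obtain ⟨χ, -, e⟩ := exists_chiO k
  rw [e]
  exact χ.differentiableAt_LFunction s (Or.inl hs)

/-- For `k = 1` only the Euler factor at `2` of the zeta function is removed. -/
theorem Lo_one {s : ℂ} (hs : s ≠ 1) : Lo 1 s = (1 - (2 : ℂ) ^ (-s)) * riemannZeta s := by
  have := four_ne (k := 1) one_ne_zero
  obtain ⟨χ, h, e⟩ := exists_chiO 1
  have h1 : χ = 1 := by
    refine MulChar.ext fun a => ?_
    have hu : Nat.Coprime (a : ZMod (4 * (1 : ℤ).natAbs)).val (4 * (1 : ℤ).natAbs) :=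
      ZMod.val_coe_unit_coprime a
    have ho : Odd (a : ZMod (4 * (1 : ℤ).natAbs)).val :=
      (Nat.coprime_two_right).1 (hu.coprime_dvd_right (by decide))
    rw [MulChar.one_apply_coe, ← ZMod.natCast_zmod_val (a : ZMod (4 * (1 : ℤ).natAbs)), h,
      chi_odd _ ho, jacobiSym.one_left, Int.cast_one]
  rw [e, h1]
  have h2 := DirichletCharacter.LFunctionTrivChar_eq_mul_riemannZeta (N := 4 * (1 : ℤ).natAbs) hs
  have h3 : (4 * (1 : ℤ).natAbs).primeFactors = {2} := by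
    rw [show 4 * (1 : ℤ).natAbs = 2 ^ 2 from rfl, Nat.primeFactors_prime_pow two_ne_zero
      Nat.prime_two]
  rw [h3, prod_singleton] at h2
  exact_mod_cast h2

/-- An odd prime factor of a squarefree `k` is seen by `χ_k`. -/
theorem exists_neg_odd {k : ℤ} (hk : Squarefree k) {p : ℕ} (hp : p.Prime) (h2 : p ≠ 2)
    (hd : (p : ℤ) ∣ k) :
    ∃ a : ℕ, a ≡ 1 [MOD 4 * (k.natAbs / p)] ∧ chi k a = -1 := by
  obtain ⟨l, rfl⟩ := hd
  have := Fact.mk hp
  have e : ((p : ℤ) * l).natAbs / p = l.natAbs := by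
    rw [Int.natAbs_mul, Int.natAbs_natCast, Nat.mul_div_cancel_left _ hp.pos]
  rw [e]
  have hsq : Squarefree (p * l.natAbs) := by
    have := Int.squarefree_natAbs.2 hk
    rwa [Int.natAbs_mul, Int.natAbs_natCast] at this
  have hc : Nat.Coprime (4 * l.natAbs) p := by
    refine Nat.Coprime.mul_left ?_ (Nat.coprime_of_squarefree_mul hsq).symm
    exact (((Nat.coprime_primes Nat.prime_two hp).2 h2.symm).pow_left 2 :)
  have hc2 : ringChar (ZMod p) ≠ 2 := by rw [ZMod.ringChar_zmod_n]; exact h2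
  obtain ⟨b, hb⟩ := quadraticChar_exists_neg_one hc2
  obtain ⟨a, ha1, ha2⟩ := Nat.chineseRemainder hc 1 b.val
  have h4 : a % 4 = 1 := (ha1.of_mul_right l.natAbs :)
  have ho : Odd a := Nat.odd_iff.2 (by omega)
  have hl : l ≠ 0 := by
    rintro rfl
    simp at hk
  refine ⟨a, ha1, ?_⟩
  have e1 : J(l | a) = 1 := by
    rw [jacobiSym.mod_right l ho, ha1, Nat.mod_eq_of_lt (by omega), jacobiSym.one_right]
  have e2 : J(p | a) = -1 := by
    rw [jacobiSym.quadratic_reciprocity_one_mod_four' (hp.odd_of_ne_two h2) h4,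
      ← jacobiSym.legendreSym.to_jacobiSym, legendreSym, Int.cast_natCast,
      (ZMod.natCast_eq_natCast_iff _ _ _).2 ha2, ZMod.natCast_zmod_val, hb]
  rw [chi_odd _ ho, jacobiSym.mul_left, e1, e2, mul_one]

/-- The prime `2` is seen by `χ_k` when `k` is not `1` modulo `4`. -/
theorem exists_neg_two {k : ℤ} (hk : Squarefree k) (h4 : k % 4 ≠ 1) :
    chi k (1 + 2 * k.natAbs) = -1 := by
  have ho : Odd (1 + 2 * k.natAbs) := Nat.odd_iff.2 (by omega)
  have h0 : k % 4 ≠ 0 := fun h => by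
    have h1 : (2 : ℤ) * 2 ∣ k := Int.dvd_of_emod_eq_zero h
    have := Int.isUnit_iff.1 (hk 2 h1)
    omega
  rw [chi_odd _ ho]
  by_cases h2 : k % 2 = 0
  · obtain ⟨l, rfl⟩ := Int.dvd_of_emod_eq_zero h2
    have e : 1 + 2 * (2 * l).natAbs = 1 + 4 * l.natAbs := by omega
    rw [e] at ho ⊢
    have e1 : J(l | 1 + 4 * l.natAbs) = 1 := by
      rw [jacobiSym.mod_right l ho, Nat.add_mod_right, Nat.mod_eq_of_lt (by omega),
        jacobiSym.one_right]
    rw [jacobiSym.mul_left, e1, mul_one, jacobiSym.at_two ho, ZMod.χ₈_nat_eq_if_mod_eight,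
      if_neg (by omega), if_neg (by omega)]
  · have hn : Odd k.natAbs := Nat.odd_iff.2 (by omega)
    have e1 : J(((1 + 2 * k.natAbs : ℕ) : ℤ) | k.natAbs) = 1 := by
      rw [← jacobiSym.one_left k.natAbs]
      apply jacobiSym.mod_left'
      push_cast
      rw [Int.add_mul_emod_self_right]
    have h3 : (1 + 2 * k.natAbs) % 4 = 3 := by omega
    rcases Int.natAbs_eq k with h | h
    · have h5 : k.natAbs % 4 = 3 := by omega
      have e2 := jacobiSym.quadratic_reciprocity_three_mod_four h5 h3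
      rw [← h, e1] at e2
      exact e2
    · have h5 : k.natAbs % 4 = 1 := by omega
      have e2 := jacobiSym.quadratic_reciprocity_one_mod_four h5 ho
      have e3 := jacobiSym.neg (k.natAbs : ℤ) ho
      rw [← h, e2, e1, ZMod.χ₄_nat_three_mod_four h3] at e3
      rw [e3, mul_one]

theorem exists_neg {k : ℤ} (hk : Squarefree k) (h1 : k ≠ 1) : ∃ a : ℕ, chi k a = -1 := by
  by_cases h4 : k % 4 = 1
  · obtain ⟨p, hp, hd⟩ := Nat.exists_prime_and_dvd (n := k.natAbs) (by omega)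
    have h2 : p ≠ 2 := by
      rintro rfl
      omega
    obtain ⟨a, -, ha⟩ := exists_neg_odd hk hp h2 (Int.natCast_dvd.2 hd)
    exact ⟨a, ha⟩
  · exact ⟨_, exists_neg_two hk h4⟩

theorem ne_one_of_neg {q : ℕ} {χ : DirichletCharacter ℂ q} {a : ZMod q} (h : χ a = -1) :
    χ ≠ 1 := by
  rintro rfl
  by_cases h3 : IsUnit a
  · rw [MulChar.one_apply h3] at h
    norm_num at h
  · rw [MulChar.map_nonunit _ h3] at h
    norm_num at h

theorem exists_chiO_ne {k : ℤ} [NeZero (4 * k.natAbs)] (hk : Squarefree k) (h1 : k ≠ 1) :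
    ∃ χ : DirichletCharacter ℂ (4 * k.natAbs), χ ≠ 1 ∧
      (∀ n : ℕ, χ (n : ZMod _) = (chi k n : ℂ)) ∧ Lo k = χ.LFunction := by
  obtain ⟨χ, h, e⟩ := exists_chiO k
  obtain ⟨a, ha⟩ := exists_neg hk h1
  exact ⟨χ, ne_one_of_neg (a := a) (by rw [h, ha]; norm_num), h, e⟩

/-- `Lo k` is entire for squarefree `k ≠ 1`. -/
theorem differentiable_Lo {k : ℤ} (hk : Squarefree k) (h1 : k ≠ 1) : Differentiable ℂ (Lo k) := by
  have := four_ne hk.ne_zero
  obtain ⟨χ, h, -, e⟩ := exists_chiO_ne hk h1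
  rw [e]
  exact DirichletCharacter.differentiable_LFunction h

/-- The bound (L1). -/
theorem norm_Lo_le {k : ℤ} (hk : Squarefree k) (h1 : k ≠ 1) {s : ℂ} (hs : 0 < s.re) :
    ‖Lo k s‖ ≤ 4 * |(k : ℝ)| * ‖s‖ / s.re := by
  have := four_ne hk.ne_zero
  obtain ⟨χ, h, -, e⟩ := exists_chiO_ne hk h1
  have h2 := Pool.Agent.EQ.L_le h one_pos le_rfl (s := s) (by simpa using hs)
  rw [e]
  refine h2.trans (le_of_eq ?_)
  rw [Real.rpow_one, Nat.cast_mul, Nat.cast_natAbs, Int.cast_abs]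
  norm_num
  ring

end Pool.Agent.QM
end

-- part Pool.Agent.P.MP_ea46f5_nt.QM.MtAbs
section

/-!
Dyadic summation against the dual weight `min (x ^ (-3/4)) (x ^ (-6))`.
-/

namespace Pool.Agent.QM

open Real Finset

theorem min_inv_le_tel {r x : ℝ} (hr : 1 < r) (hx : 0 < x) :
    min x x⁻¹ ≤ 4 * r / (r - 1) * (r * x / (1 + r * x) - x / (1 + x)) := by
  have h1 : 0 < r - 1 := by linarith
  have h2 : 0 < 1 + x := by linarith
  have h3 : 0 < 1 + r * x := by positivity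
  have e : 4 * r / (r - 1) * (r * x / (1 + r * x) - x / (1 + x)) =
      4 * r * x / ((1 + r * x) * (1 + x)) := by
    field_simp
    ring
  rw [e, le_div_iff₀ (by positivity)]
  have h4 : 1 + r * x ≤ r * (1 + x) := by nlinarith
  have h5 : min x x⁻¹ * (1 + x) ^ 2 ≤ 4 * x := by
    rcases le_total x 1 with h | h
    · calc min x x⁻¹ * (1 + x) ^ 2 ≤ x * (1 + x) ^ 2 := by gcongr; exact min_le_left _ _
        _ ≤ x * 2 ^ 2 := by gcongr; linarith
        _ = 4 * x := by ring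
    · calc min x x⁻¹ * (1 + x) ^ 2 ≤ x⁻¹ * (1 + x) ^ 2 := by gcongr; exact min_le_right _ _
        _ ≤ x⁻¹ * (2 * x) ^ 2 := by gcongr; linarith
        _ = 4 * x := by field_simp; ring
  have h6 : 0 ≤ min x x⁻¹ := le_min hx.le (by positivity)
  calc min x x⁻¹ * ((1 + r * x) * (1 + x)) ≤ min x x⁻¹ * ((r * (1 + x)) * (1 + x)) := by gcongr
    _ = r * (min x x⁻¹ * (1 + x) ^ 2) := by ring
    _ ≤ r * (4 * x) := by gcongr
    _ = 4 * r * x := by ring

theorem geo_min_sum {r v : ℝ} (hr : 1 < r) (hv : 0 < v) (n : ℕ) :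
    ∑ j ∈ range n, min (v * r ^ j) (v * r ^ j)⁻¹ ≤ 4 * r / (r - 1) := by
  have h1 : 0 < r - 1 := by linarith
  have hr0 : 0 < r := by linarith
  set g : ℕ → ℝ := fun j => v * r ^ j / (1 + v * r ^ j) with hg
  have hb : ∀ j, min (v * r ^ j) (v * r ^ j)⁻¹ ≤ 4 * r / (r - 1) * (g (j + 1) - g j) := by
    intro j
    have := min_inv_le_tel hr (x := v * r ^ j) (by positivity)
    have e : r * (v * r ^ j) = v * r ^ (j + 1) := by ring
    rw [e] at this
    exact this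
  calc ∑ j ∈ range n, min (v * r ^ j) (v * r ^ j)⁻¹
      ≤ ∑ j ∈ range n, 4 * r / (r - 1) * (g (j + 1) - g j) := sum_le_sum fun j _ => hb j
    _ = 4 * r / (r - 1) * (g n - g 0) := by rw [← mul_sum, sum_range_sub]
    _ ≤ 4 * r / (r - 1) * 1 := by
        gcongr
        have a1 : g n ≤ 1 := by
          simp only [hg]
          rw [div_le_one (by positivity)]
          linarith
        have a2 : 0 ≤ g 0 := by simp only [hg]; positivity
        linarith
    _ = 4 * r / (r - 1) := mul_one _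

theorem lg_ge {K : ℝ} (hK : 0 ≤ K) : 2 / 3 ≤ log (2 + K) := by
  have h := Real.log_two_gt_d9
  have : log 2 ≤ log (2 + K) := log_le_log (by norm_num) (by linarith)
  linarith

/-- One dyadic block. -/
theorem mt_block {y K Y : ℝ} (hy : 0 < y) (hK : 0 < K) (hY : 0 < Y) :
    min ((y ^ 40 / 2) ^ (-3 / 4 : ℝ)) ((y ^ 40 / 2) ^ (-6 : ℝ)) *
        ((y ^ 40 * K) * log (2 + y ^ 40 * K) ^ 10 * max 1 (y ^ 40 * K / Y) ^ 4) ≤
      64 * 61 ^ 10 * (K * log (2 + K) ^ 10 * max 1 (K / Y) ^ 4) * min y y⁻¹ := by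
  have hl := lg_ge hK.le
  have hu : 0 < y ^ 40 := by positivity
  have hl2 := lg_ge (K := y ^ 40 * K) (by positivity)
  have hm : (0 : ℝ) ≤ max 1 (K / Y) := le_trans zero_le_one (le_max_left _ _)
  have hm2 : (0 : ℝ) ≤ max 1 (y ^ 40 * K / Y) := le_trans zero_le_one (le_max_left _ _)
  rcases le_total y 1 with h | h
  · have hu1 : y ^ 40 ≤ 1 := pow_le_one₀ hy.le h
    have e1 : min y y⁻¹ = y := min_eq_left (le_trans h (one_le_inv₀ hy |>.2 h))
    have e2 : (y ^ 40 / 2) ^ (-3 / 4 : ℝ) ≤ 2 * (y ^ 30)⁻¹ := by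
      rw [div_rpow hu.le (by norm_num), ← rpow_natCast, ← rpow_mul hy.le]
      have a1 : ((40 : ℕ) : ℝ) * (-3 / 4) = -((30 : ℕ) : ℝ) := by norm_num
      rw [a1, rpow_neg hy.le, rpow_natCast, div_eq_mul_inv, ← rpow_neg (by norm_num), mul_comm]
      gcongr
      calc (2 : ℝ) ^ (-(-3 / 4 : ℝ)) ≤ 2 ^ (1 : ℝ) :=
            rpow_le_rpow_of_exponent_le (by norm_num) (by norm_num)
        _ = 2 := rpow_one _
    have e3 : y ^ 40 * K ≤ K := by nlinarith
    have e4 : log (2 + y ^ 40 * K) ≤ log (2 + K) := log_le_log (by positivity) (by linarith)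
    have e5 : max 1 (y ^ 40 * K / Y) ≤ max 1 (K / Y) := by gcongr
    have e6 : y ^ 10 ≤ y := by
      calc y ^ 10 ≤ y ^ 1 := pow_le_pow_of_le_one hy.le h (by norm_num)
        _ = y := pow_one _
    rw [e1]
    calc _ ≤ (2 * (y ^ 30)⁻¹) * ((y ^ 40 * K) * log (2 + K) ^ 10 * max 1 (K / Y) ^ 4) := by
          gcongr
          exact (min_le_left _ _).trans e2
      _ = 2 * (K * log (2 + K) ^ 10 * max 1 (K / Y) ^ 4) * y ^ 10 := by field_simp
      _ ≤ 64 * 61 ^ 10 * (K * log (2 + K) ^ 10 * max 1 (K / Y) ^ 4) * y := by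
          gcongr
          norm_num
  · have hu1 : 1 ≤ y ^ 40 := one_le_pow₀ h
    have e1 : min y y⁻¹ = y⁻¹ := min_eq_right (le_trans (inv_le_one_of_one_le₀ h) h)
    have e2 : (y ^ 40 / 2) ^ (-6 : ℝ) = 64 * (y ^ 240)⁻¹ := by
      have a1 : (-6 : ℝ) = -((6 : ℕ) : ℝ) := by norm_num
      rw [a1, rpow_neg (by positivity), rpow_natCast]
      field_simp
      norm_num
    have e4 : log (2 + y ^ 40 * K) ≤ 61 * y * log (2 + K) := by
      have a1 : log (2 + y ^ 40 * K) ≤ log (y ^ 40 * (2 + K)) :=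
        log_le_log (by positivity) (by nlinarith)
      rw [log_mul hu.ne' (by positivity), log_pow] at a1
      have a2 : log y ≤ y := (log_le_sub_one_of_pos hy).trans (by linarith)
      push_cast at a1
      nlinarith
    have e5 : max 1 (y ^ 40 * K / Y) ≤ y ^ 40 * max 1 (K / Y) := by
      refine max_le ?_ ?_
      · have := le_max_left (1 : ℝ) (K / Y)
        nlinarith
      · rw [mul_div_assoc]
        gcongr
        exact le_max_right _ _
    have e6 : (y ^ 30)⁻¹ ≤ y⁻¹ := by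
      apply inv_anti₀ hy
      calc y = y ^ 1 := (pow_one _).symm
        _ ≤ y ^ 30 := pow_le_pow_right₀ h (by norm_num)
    rw [e1]
    calc _ ≤ (64 * (y ^ 240)⁻¹) *
          ((y ^ 40 * K) * (61 * y * log (2 + K)) ^ 10 * (y ^ 40 * max 1 (K / Y)) ^ 4) := by
          gcongr
          exact (min_le_right _ _).trans e2.le
      _ = 64 * 61 ^ 10 * (K * log (2 + K) ^ 10 * max 1 (K / Y) ^ 4) * (y ^ 30)⁻¹ := by
          field_simp
      _ ≤ _ := by gcongr

/-- Dyadic bounds give the dual bound. -/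
theorem mt_abs : ∃ C : ℝ, 0 < C ∧ ∀ {ι : Type} (P : ι → Prop) (n a : ι → ℝ) (ν Y K : ℝ),
    0 ≤ ν → 0 < Y → 0 < K → (∀ k, 0 ≤ a k) → (∀ k, P k → 1 ≤ n k) →
    (∀ Z : ℝ, 1 ≤ Z → ∀ S : Finset ι, (∀ k ∈ S, P k ∧ Z / 2 < n k ∧ n k ≤ Z) →
      ∑ k ∈ S, a k ≤ ν * (Z * log (2 + Z) ^ 10 * max 1 (Z / Y) ^ 4)) →
    ∀ S : Finset ι, (∀ k ∈ S, P k) →
      ∑ k ∈ S, min ((n k / K) ^ (-3 / 4 : ℝ)) ((n k / K) ^ (-6 : ℝ)) * a k ≤
        C * ν * (K * log (2 + K) ^ 10 * max 1 (K / Y) ^ 4) := by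
  classical
  set r : ℝ := 2 ^ (1 / 40 : ℝ) with hr
  have hr1 : 1 < r := one_lt_rpow (by norm_num) (by norm_num)
  have hr40 : r ^ 40 = 2 := by
    rw [hr, ← rpow_natCast, ← rpow_mul (by norm_num)]
    norm_num
  have hc : 0 < 4 * r / (r - 1) := div_pos (by linarith) (by linarith)
  refine ⟨64 * 61 ^ 10 * (4 * r / (r - 1)), by positivity, ?_⟩
  intro ι P n a ν Y K hν hY hK ha hn H S hS
  set v : ℝ := K ^ (-1 / 40 : ℝ) with hv
  have hv0 : 0 < v := rpow_pos_of_pos hK _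
  have hv40 : v ^ 40 * K = 1 := by
    rw [hv, ← rpow_natCast, ← rpow_mul hK.le]
    have : (-1 / 40 : ℝ) * ((40 : ℕ) : ℝ) = -1 := by norm_num
    rw [this, rpow_neg_one]
    field_simp
  have hZ : ∀ j : ℕ, (v * r ^ j) ^ 40 * K = 2 ^ j := by
    intro j
    rw [mul_pow, ← pow_mul, mul_comm j, pow_mul, hr40]
    linear_combination (2 : ℝ) ^ j * hv40
  have hex : ∀ k, ∃ j : ℕ, n k ≤ 2 ^ j := fun k =>
    (pow_unbounded_of_one_lt (n k) (by norm_num : (1 : ℝ) < 2)).imp fun _ h => h.le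
  set c : ι → ℕ := fun k => Nat.find (hex k) with hcdef
  have hc1 : ∀ k, n k ≤ 2 ^ c k := fun k => Nat.find_spec (hex k)
  have hc2 : ∀ k, P k → (2 : ℝ) ^ c k / 2 < n k := by
    intro k hk
    rcases h0 : c k with _ | j
    · have := hn k hk
      norm_num
      linarith
    · have hj : j < Nat.find (hex k) := by
        change j < c k
        omega
      have := Nat.find_min (hex k) hj
      rw [pow_succ]
      push Not at this
      linarith
  set B : ℝ := K * log (2 + K) ^ 10 * max 1 (K / Y) ^ 4 with hB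
  have hB0 : 0 ≤ B := by
    have := lg_ge hK.le
    have hm : (0 : ℝ) ≤ max 1 (K / Y) := le_trans zero_le_one (le_max_left _ _)
    positivity
  obtain ⟨N, hN⟩ : ∃ N, ∀ k ∈ S, c k ∈ range N :=
    ⟨S.sup c + 1, fun k hk => mem_range.2 (Nat.lt_succ_of_le (le_sup hk))⟩
  rw [← sum_fiberwise_of_maps_to hN]
  have key : ∀ j ∈ range N, ∑ k ∈ S with c k = j,
      min ((n k / K) ^ (-3 / 4 : ℝ)) ((n k / K) ^ (-6 : ℝ)) * a k ≤
        64 * 61 ^ 10 * ν * B * min (v * r ^ j) (v * r ^ j)⁻¹ := by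
    intro j _
    set y := v * r ^ j with hy
    have hy0 : 0 < y := by positivity
    have hb := mt_block hy0 hK hY
    have hw : 0 ≤ min ((y ^ 40 / 2) ^ (-3 / 4 : ℝ)) ((y ^ 40 / 2) ^ (-6 : ℝ)) :=
      le_min (by positivity) (by positivity)
    have hH := H (2 ^ j) (one_le_pow₀ (by norm_num)) (S.filter fun k => c k = j) (by
      intro k hk
      obtain ⟨h1, h2⟩ := mem_filter.1 hk
      exact ⟨hS k h1, h2 ▸ hc2 k (hS k h1), h2 ▸ hc1 k⟩)
    rw [← hZ j, ← hy] at hH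
    calc _ ≤ ∑ k ∈ S with c k = j,
          min ((y ^ 40 / 2) ^ (-3 / 4 : ℝ)) ((y ^ 40 / 2) ^ (-6 : ℝ)) * a k := by
          refine sum_le_sum fun k hk => ?_
          obtain ⟨h1, h2⟩ := mem_filter.1 hk
          have h3 := hc2 k (hS k h1)
          rw [h2, ← hZ j, ← hy] at h3
          have h4 : y ^ 40 / 2 ≤ n k / K := by
            rw [le_div_iff₀ hK]
            linarith
          refine mul_le_mul_of_nonneg_right (min_le_min ?_ ?_) (ha k)
          · exact rpow_le_rpow_of_nonpos (by positivity) h4 (by norm_num)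
          · exact rpow_le_rpow_of_nonpos (by positivity) h4 (by norm_num)
      _ = min ((y ^ 40 / 2) ^ (-3 / 4 : ℝ)) ((y ^ 40 / 2) ^ (-6 : ℝ)) *
          ∑ k ∈ S with c k = j, a k := by rw [mul_sum]
      _ ≤ min ((y ^ 40 / 2) ^ (-3 / 4 : ℝ)) ((y ^ 40 / 2) ^ (-6 : ℝ)) *
          (ν * ((y ^ 40 * K) * log (2 + y ^ 40 * K) ^ 10 * max 1 (y ^ 40 * K / Y) ^ 4)) := by
          gcongr
      _ = ν * (min ((y ^ 40 / 2) ^ (-3 / 4 : ℝ)) ((y ^ 40 / 2) ^ (-6 : ℝ)) *
          ((y ^ 40 * K) * log (2 + y ^ 40 * K) ^ 10 * max 1 (y ^ 40 * K / Y) ^ 4)) := by ring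
      _ ≤ ν * (64 * 61 ^ 10 * B * min y y⁻¹) := by gcongr
      _ = _ := by ring
  calc _ ≤ ∑ j ∈ range N, 64 * 61 ^ 10 * ν * B * min (v * r ^ j) (v * r ^ j)⁻¹ := sum_le_sum key
    _ = 64 * 61 ^ 10 * ν * B * ∑ j ∈ range N, min (v * r ^ j) (v * r ^ j)⁻¹ := by rw [mul_sum]
    _ ≤ 64 * 61 ^ 10 * ν * B * (4 * r / (r - 1)) := by
        gcongr
        exact geo_min_sum hr1 hv0 N
    _ = _ := by ring

end Pool.Agent.QM
end
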