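import Mathlib
import Pool.Agent.P.MP_ea46f5_nt.QM.S2
import Pool.Agent.P.MP_45ff98_nt.JA2z
import Pool.Agent.K.MP_ea46f5_nt.C6
import Pool.Agent.P.MP_ea46f5_nt.QM.S1
import Pool.Agent.K.MP_ea46f5_nt.C1
import Pool.Agent.K.MP_ea46f5_nt.C3

-- part Pool.Agent.P.MP_ea46f5_nt.QM.SepAbs
section

/-!
Separation of the conductor from the contour variable by a Gaussian kernel.
-/

namespace Pool.Agent.QM

open Real Finset MeasureTheory Complex

theorem exp_neg_abs_le (y : ℝ) : rexp (-|y|) ≤ 2 * (1 + y ^ 2)⁻¹ := by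
  have h := Real.quadratic_le_exp_of_nonneg (abs_nonneg y)
  rw [Real.exp_neg, ← div_eq_mul_inv, le_div_iff₀ (by positivity), inv_mul_le_iff₀ (Real.exp_pos _)]
  rw [sq_abs] at h
  nlinarith [abs_nonneg y]

theorem integrable_exp_neg_abs : Integrable fun y : ℝ => rexp (-|y|) :=
  (integrable_inv_one_add_sq.const_mul 2).mono' (by fun_prop)
    (Filter.Eventually.of_forall fun y => by
      rw [Real.norm_of_nonneg (Real.exp_pos _).le]
      exact exp_neg_abs_le y)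

theorem integral_exp_neg_abs_le : ∫ y : ℝ, rexp (-|y|) ≤ 7 := by
  calc ∫ y : ℝ, rexp (-|y|) ≤ ∫ y : ℝ, 2 * (1 + y ^ 2)⁻¹ :=
        integral_mono integrable_exp_neg_abs (integrable_inv_one_add_sq.const_mul 2) exp_neg_abs_le
    _ = 2 * π := by rw [integral_const_mul, integral_univ_inv_one_add_sq]
    _ ≤ 7 := by linarith [Real.pi_lt_d2]

theorem sep_kernel (s : ℂ) (v : ℝ) :
    ∫ y : ℝ, cexp ((s + y * I) ^ 2 / 4) * cexp (-(v * y * I)) =
      (2 * √π : ℝ) * cexp (v * s - v ^ 2) := by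
  have hb : (-1 / 4 : ℂ).re < 0 := by norm_num
  have h := integral_cexp_quadratic hb (s * I / 2 - v * I) (s ^ 2 / 4)
  have e1 : ∀ y : ℝ, cexp ((s + y * I) ^ 2 / 4) * cexp (-(v * y * I)) =
      cexp (-1 / 4 * y ^ 2 + (s * I / 2 - v * I) * y + s ^ 2 / 4) := by
    intro y
    rw [← Complex.exp_add]
    congr 1
    linear_combination (y : ℂ) ^ 2 / 4 * I_sq
  simp_rw [e1]
  rw [h]
  congr 1
  · have e2 : (π : ℂ) / -(-1 / 4) = ((4 * π : ℝ) : ℂ) := by push_cast; ring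
    have e3 : (1 / 2 : ℂ) = ((1 / 2 : ℝ) : ℂ) := by push_cast; ring
    rw [e2, e3, ← ofReal_cpow (by positivity), ← Real.sqrt_eq_rpow, Real.sqrt_mul (by norm_num)]
    have : √(4 : ℝ) = 2 := by
      rw [show (4 : ℝ) = 2 ^ 2 by norm_num, Real.sqrt_sq (by norm_num)]
    rw [this]
  · congr 1
    linear_combination (s / 2 - v) ^ 2 * I_sq

theorem norm_sep_gauss (σ u : ℝ) :
    ‖cexp (((σ : ℂ) + u * I) ^ 2 / 4)‖ = rexp (σ ^ 2 / 4) * rexp (-(1 / 4) * u ^ 2) := by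
  rw [Complex.norm_exp, ← Real.exp_add]
  congr 1
  have : ((σ : ℂ) + u * I) ^ 2 / 4 = ((σ ^ 2 / 4 - u ^ 2 / 4 : ℝ) : ℂ) + (σ * u / 2 : ℝ) * I := by
    push_cast
    linear_combination (u : ℂ) ^ 2 / 4 * I_sq
  rw [this]
  simp only [add_re, ofReal_re, mul_re, I_re, mul_zero, ofReal_im, I_im, mul_one, sub_self, add_zero]
  ring

theorem sep_integrable {F : ℝ → ℂ} (hF : Integrable F) (σ t v : ℝ) :
    Integrable (Function.uncurry fun τ y : ℝ =>
      F τ * cexp (((σ : ℂ) + (τ - t) * I + y * I) ^ 2 / 4) * cexp (-(v * y * I)))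
      (volume.prod volume) := by
  have hn : ∀ τ y : ℝ, ‖F τ * cexp (((σ : ℂ) + (τ - t) * I + y * I) ^ 2 / 4) * cexp (-(v * y * I))‖ =
      ‖F τ‖ * (rexp (σ ^ 2 / 4) * rexp (-(1 / 4) * ((τ - t) + y) ^ 2)) := by
    intro τ y
    have e : (σ : ℂ) + (τ - t) * I + y * I = σ + ((τ - t + y : ℝ) : ℂ) * I := by push_cast; ring
    have e2 : -((v : ℂ) * y * I) = ((-(v * y) : ℝ) : ℂ) * I := by push_cast; ring
    rw [norm_mul, norm_mul, e, norm_sep_gauss, e2, norm_exp_ofReal_mul_I, mul_one]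
  have hm : AEStronglyMeasurable (Function.uncurry fun τ y : ℝ =>
      F τ * cexp (((σ : ℂ) + (τ - t) * I + y * I) ^ 2 / 4) * cexp (-(v * y * I)))
      (volume.prod volume) := by
    refine (hF.1.comp_fst.mul ?_).mul ?_
    · exact Continuous.aestronglyMeasurable (by fun_prop)
    · exact Continuous.aestronglyMeasurable (by fun_prop)
  have hg : Integrable fun y : ℝ => rexp (-(1 / 4) * y ^ 2) := integrable_exp_neg_mul_sq (by norm_num)
  rw [integrable_prod_iff hm]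
  constructor
  · refine Filter.Eventually.of_forall fun τ => ?_
    refine Integrable.mono' (((hg.comp_add_left (τ - t)).const_mul (rexp (σ ^ 2 / 4))).const_mul
      ‖F τ‖) (Continuous.aestronglyMeasurable (by simp only [Function.uncurry]; fun_prop)) ?_
    exact Filter.Eventually.of_forall fun y => (hn τ y).le
  · have e : ∀ τ : ℝ, ∫ y : ℝ, ‖(Function.uncurry fun τ y : ℝ =>
        F τ * cexp (((σ : ℂ) + (τ - t) * I + y * I) ^ 2 / 4) * cexp (-(v * y * I))) (τ, y)‖ =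
        ‖F τ‖ * (rexp (σ ^ 2 / 4) * ∫ y : ℝ, rexp (-(1 / 4) * y ^ 2)) := by
      intro τ
      simp only [Function.uncurry, hn]
      rw [integral_const_mul, integral_const_mul,
        integral_add_left_eq_self (fun y : ℝ => rexp (-(1 / 4) * y ^ 2)) (τ - t)]
    simp_rw [e]
    exact hF.norm.mul_const _

theorem sep_one {F : ℝ → ℂ} (hF : Integrable F) (σ t v : ℝ) :
    (Integrable fun y : ℝ => (∫ τ : ℝ, F τ * cexp (((σ : ℂ) + (τ - t) * I + y * I) ^ 2 / 4)) *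
      cexp (-(v * y * I))) ∧
    ∫ τ : ℝ, F τ * cexp (v * (σ + (τ - t) * I)) = (rexp (v ^ 2) / (2 * √π) : ℝ) *
      ∫ y : ℝ, (∫ τ : ℝ, F τ * cexp (((σ : ℂ) + (τ - t) * I + y * I) ^ 2 / 4)) *
        cexp (-(v * y * I)) := by
  have h := sep_integrable hF σ t v
  constructor
  · have := h.integral_prod_right
    simp only [Function.uncurry, integral_mul_const] at this
    exact this
  · have h2 := integral_integral_swap h
    simp only [integral_mul_const] at h2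
    rw [← h2, ← integral_const_mul]
    refine integral_congr_ae (Filter.Eventually.of_forall fun τ => ?_)
    simp only [mul_assoc (F τ), integral_const_mul, sep_kernel]
    have hp : (√π : ℂ) ≠ 0 := by
      have : 0 < √π := Real.sqrt_pos.2 Real.pi_pos
      exact_mod_cast this.ne'
    rw [Complex.exp_sub]
    push_cast
    field_simp

/-- Separation: a mean square bound for the Gaussian pieces gives the mean square bound with the
varying factor `exp (v k * s)`. -/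
theorem sep_abs {ι : Type} (S : Finset ι) (ρ v : ι → ℝ) (F : ι → ℝ → ℂ) (σ t M : ℝ)
    (hρ : ∀ k ∈ S, 0 ≤ ρ k) (hv : ∀ k ∈ S, |v k| ≤ 2) (hF : ∀ k ∈ S, Integrable (F k))
    (hM : ∀ y : ℝ, ∑ k ∈ S, ρ k *
      ‖∫ τ : ℝ, F k τ * cexp (((σ : ℂ) + (τ - t) * I + y * I) ^ 2 / 4)‖ ^ 2 ≤
        M * rexp (-|y|) ^ 2) :
    ∑ k ∈ S, ρ k * ‖∫ τ : ℝ, F k τ * cexp (v k * (σ + (τ - t) * I))‖ ^ 2 ≤
      49 * rexp 8 * M := by
  set D : ι → ℂ := fun k => ∫ τ : ℝ, F k τ * cexp (v k * (σ + (τ - t) * I)) with hD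
  set E : ι → ℝ → ℂ := fun k y =>
    ∫ τ : ℝ, F k τ * cexp (((σ : ℂ) + (τ - t) * I + y * I) ^ 2 / 4) with hE
  have hM0 : 0 ≤ M := by
    have h1 := hM 0
    have h2 : 0 ≤ ∑ k ∈ S, ρ k * ‖E k 0‖ ^ 2 :=
      sum_nonneg fun k hk => mul_nonneg (hρ k hk) (by positivity)
    simp only [abs_zero, neg_zero, Real.exp_zero, one_pow, mul_one] at h1
    exact h2.trans h1
  have hn : ∀ k (y : ℝ), ‖E k y * cexp (-(v k * y * I))‖ = ‖E k y‖ := by
    intro k y
    have e2 : -((v k : ℂ) * y * I) = ((-(v k * y) : ℝ) : ℂ) * I := by push_cast; ring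
    rw [norm_mul, e2, norm_exp_ofReal_mul_I, mul_one]
  have hI : ∀ k ∈ S, Integrable fun y : ℝ => ‖E k y‖ := by
    intro k hk
    have := (sep_one (hF k hk) σ t (v k)).1.norm
    exact this.congr (Filter.Eventually.of_forall fun y => hn k y)
  have hD1 : ∀ k ∈ S, ‖D k‖ ≤ rexp 4 * ∫ y : ℝ, ‖E k y‖ := by
    intro k hk
    have h := (sep_one (hF k hk) σ t (v k)).2
    have hp : 1 ≤ √π := Real.one_le_sqrt.2 (by linarith [Real.pi_gt_three])
    change D k = _ at h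
    rw [h, norm_mul, Complex.norm_real, Real.norm_of_nonneg (by positivity)]
    refine mul_le_mul ?_ ?_ (norm_nonneg _) (by positivity)
    · have a1 : v k ^ 2 ≤ 4 := by
        have := hv k hk
        nlinarith [sq_abs (v k), abs_nonneg (v k)]
      calc rexp (v k ^ 2) / (2 * √π) ≤ rexp 4 / 1 := by gcongr; linarith
        _ = rexp 4 := div_one _
    · refine (norm_integral_le_integral_norm _).trans (le_of_eq ?_)
      exact integral_congr_ae (Filter.Eventually.of_forall fun y => hn k y)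
  set A : ℝ := ∑ k ∈ S, ρ k * ‖D k‖ ^ 2 with hA
  have hA0 : 0 ≤ A := sum_nonneg fun k hk => mul_nonneg (hρ k hk) (by positivity)
  have hcs : ∀ y : ℝ, ∑ k ∈ S, ρ k * ‖D k‖ * ‖E k y‖ ≤ √A * √M * rexp (-|y|) := by
    intro y
    have h1 : (∑ k ∈ S, ρ k * ‖D k‖ * ‖E k y‖) ^ 2 ≤
        (∑ k ∈ S, ρ k * ‖D k‖ ^ 2) * ∑ k ∈ S, ρ k * ‖E k y‖ ^ 2 :=
      sum_sq_le_sum_mul_sum_of_sq_le_mul S (fun k hk => mul_nonneg (hρ k hk) (by positivity))
        (fun k hk => mul_nonneg (hρ k hk) (by positivity)) (fun k _ => le_of_eq (by ring))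
    refine le_of_sq_le_sq ?_ (by positivity)
    rw [mul_pow, mul_pow, Real.sq_sqrt hA0, Real.sq_sqrt hM0, mul_assoc]
    exact h1.trans (mul_le_mul_of_nonneg_left (hM y) hA0)
  have hmain : A ≤ rexp 4 * (√A * √M * 7) := by
    calc A = ∑ k ∈ S, ρ k * ‖D k‖ * ‖D k‖ := sum_congr rfl fun k _ => by ring
      _ ≤ ∑ k ∈ S, ρ k * ‖D k‖ * (rexp 4 * ∫ y : ℝ, ‖E k y‖) :=
          sum_le_sum fun k hk => mul_le_mul_of_nonneg_left (hD1 k hk)
            (mul_nonneg (hρ k hk) (norm_nonneg _))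
      _ = rexp 4 * ∫ y : ℝ, ∑ k ∈ S, ρ k * ‖D k‖ * ‖E k y‖ := by
          rw [integral_finsetSum _ fun k hk => (hI k hk).const_mul _, mul_sum]
          refine sum_congr rfl fun k _ => ?_
          rw [integral_const_mul]
          ring
      _ ≤ rexp 4 * ∫ y : ℝ, √A * √M * rexp (-|y|) := by
          exact mul_le_mul_of_nonneg_left (integral_mono
            (integrable_finsetSum _ fun k hk => (hI k hk).const_mul _)
            (integrable_exp_neg_abs.const_mul _) hcs) (Real.exp_pos _).le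
      _ ≤ rexp 4 * (√A * √M * 7) := by
          rw [integral_const_mul]
          gcongr
          exact integral_exp_neg_abs_le
  have h8 : rexp 8 = rexp 4 ^ 2 := by rw [← Real.exp_nat_mul]; norm_num
  have a1 := Real.sq_sqrt hA0
  have a2 := Real.sq_sqrt hM0
  rw [h8]
  change A ≤ _
  nlinarith [sq_nonneg (√A - 7 * rexp 4 * √M)]

end Pool.Agent.QM
end

-- part Pool.Agent.P.MP_ea46f5_nt.QM.StAux
section

/-! Helper facts for the fourth moment recursion. -/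

namespace Pool.Agent.QM

open Complex MeasureTheory Finset
open scoped Real ComplexConjugate

theorem st_br (t : ℝ) : 1 ≤ br t := by
  unfold br
  linarith [abs_nonneg t]

theorem st_br_neg (t : ℝ) : br (-t) = br t := by
  unfold br
  rw [abs_neg]

theorem st_lg_mono {K X : ℝ} (hK : 0 ≤ K) (h : K ≤ X) : lg K ≤ lg X :=
  Real.log_le_log (by linarith) (by linarith)

theorem st_lg_nonneg {K : ℝ} (hK : 0 ≤ K) : 0 ≤ lg K := Real.log_nonneg (by linarith)

theorem st_lg_one {X : ℝ} (hX : 1 ≤ X) : 1 ≤ lg X := by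
  unfold lg
  rw [Real.le_log_iff_exp_le (by linarith)]
  linarith [Real.exp_one_lt_d9]

theorem st_log_le_lg {X : ℝ} (hX : 1 ≤ X) : Real.log X ≤ lg X :=
  Real.log_le_log (by linarith) (by linarith)

theorem st_big (a : ℝ) : ∃ Z₀ : ℝ, ∀ X : ℝ, Z₀ ≤ X →
    1 ≤ X ∧ 100 ≤ Real.log X ∧ a ≤ Real.log X ∧ Real.log X ^ 6 ≤ X := by
  refine ⟨Real.exp (max 5040 a), fun X hX => ?_⟩
  have h0 : 0 < X := lt_of_lt_of_le (Real.exp_pos _) hX
  have h1 : max 5040 a ≤ Real.log X := (Real.le_log_iff_exp_le h0).2 hX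
  have h2 : 5040 ≤ Real.log X := (le_max_left _ _).trans h1
  refine ⟨?_, by linarith, (le_max_right _ _).trans h1, ?_⟩
  · by_contra h
    have := Real.log_nonpos h0.le (not_le.1 h).le
    linarith
  · have h3 := Real.pow_div_factorial_le_exp (Real.log X) (by linarith) 7
    rw [Real.exp_log h0] at h3
    have e : ((Nat.factorial 7 : ℕ) : ℝ) = 5040 := by norm_num [Nat.factorial]
    rw [e] at h3
    have h4 : 0 ≤ Real.log X ^ 6 := by positivity
    have h5 : Real.log X ^ 7 = Real.log X * Real.log X ^ 6 := by ring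
    nlinarith

theorem st_delta (B : ℕ) {η : ℝ} (hη : 0 < η) : ∃ L₀ : ℝ, ∀ L b : ℝ, L₀ ≤ L → 1 ≤ L → 1 ≤ b →
    Real.log (L ^ 3 * b ^ B) ^ 3 ≤ η * L * b := by
  refine ⟨max (720 * (216 / η) ^ 2) (48 * B ^ 3 / η), fun L b hL h1 hb => ?_⟩
  have a1 : 720 * (216 / η) ^ 2 ≤ L := (le_max_left _ _).trans hL
  have a2 : 48 * B ^ 3 / η ≤ L := (le_max_right _ _).trans hL
  have hx : 0 ≤ Real.log L := Real.log_nonneg h1
  have hy : 0 ≤ Real.log b := Real.log_nonneg hb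
  rw [Real.log_mul (by positivity) (by positivity), Real.log_pow, Real.log_pow]
  have b1 := Real.pow_div_factorial_le_exp (Real.log L) hx 6
  have b2 := Real.pow_div_factorial_le_exp (Real.log b) hy 3
  rw [Real.exp_log (by linarith)] at b1 b2
  have e1 : ((Nat.factorial 6 : ℕ) : ℝ) = 720 := by norm_num [Nat.factorial]
  have e2 : ((Nat.factorial 3 : ℕ) : ℝ) = 6 := by norm_num [Nat.factorial]
  rw [e1] at b1
  rw [e2] at b2
  have c1 : Real.log L ^ 3 ≤ η / 216 * L := by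
    refine le_of_sq_le_sq ?_ (by positivity)
    have d1 : 720 ≤ (η / 216) ^ 2 * L := by
      calc (720 : ℝ) = (η / 216) ^ 2 * (720 * (216 / η) ^ 2) := by field_simp
        _ ≤ _ := by gcongr
    calc (Real.log L ^ 3) ^ 2 = Real.log L ^ 6 := by ring
      _ ≤ 720 * L := by linarith
      _ ≤ ((η / 216) ^ 2 * L) * L := by gcongr
      _ = _ := by ring
  have c2 : 24 * (B : ℝ) ^ 3 ≤ η / 2 * L := by
    rw [div_le_iff₀ hη] at a2
    linarith
  have c3 : ∀ u v : ℝ, 0 ≤ u → 0 ≤ v → (u + v) ^ 3 ≤ 4 * u ^ 3 + 4 * v ^ 3 := by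
    intro u v hu hv
    nlinarith [mul_nonneg (add_nonneg hu hv) (sq_nonneg (u - v))]
  have c4 := c3 (3 * Real.log L) (B * Real.log b) (by positivity) (by positivity)
  have c5 : 0 ≤ η * L := by positivity
  push_cast
  calc _ ≤ 4 * (3 * Real.log L) ^ 3 + 4 * (B * Real.log b) ^ 3 := c4
    _ = 108 * Real.log L ^ 3 + 4 * B ^ 3 * Real.log b ^ 3 := by ring
    _ ≤ 108 * (η / 216 * L) + 4 * B ^ 3 * (6 * b) := by gcongr; linarith
    _ = η * L / 2 * 1 + (24 * B ^ 3) * b := by ring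
    _ ≤ η * L / 2 * b + (η / 2 * L) * b := by gcongr
    _ = η * L * b := by ring

theorem st_phs_diff (Δ : ℝ) : DifferentiableOn ℂ (phs Δ) {s | 0 < s.re} := by
  intro s hs
  have h0 : s ≠ 0 := fun h => by simp [h] at hs
  unfold phs
  exact DifferentiableAt.differentiableWithinAt (by fun_prop (disch := exact h0))

theorem st_phm_diff (Δ : ℝ) : DifferentiableOn ℂ (phm Δ) {s | 0 < s.re} := by
  intro s hs
  have h0 : s ≠ 0 := fun h => by simp [h] at hs
  unfold phm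
  exact DifferentiableAt.differentiableWithinAt (by fun_prop (disch := exact h0))

theorem st_norm_exp (Δ : ℝ) (s : ℂ) : ‖cexp (-(s * Δ))‖ = Real.exp (-Δ * s.re) := by
  rw [Complex.norm_exp]
  congr 1
  simp [mul_comm]

theorem st_phs_le {Δ ε : ℝ} {s : ℂ} (hε : 0 < ε) (hs : ε / 2 ≤ s.re) :
    ‖phs Δ s‖ ≤ 2 / ε * Real.exp (-Δ * s.re) := by
  unfold phs
  have h1 : ε / 2 ≤ ‖s‖ := hs.trans (re_le_norm s)
  rw [norm_div, st_norm_exp]
  calc Real.exp (-Δ * s.re) / ‖s‖ ≤ Real.exp (-Δ * s.re) / (ε / 2) := by gcongr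
    _ = _ := by field_simp

theorem st_phm_le {Δ : ℝ} {s : ℂ} (hΔ : 0 ≤ Δ) (hs : 0 < s.re) : ‖phm Δ s‖ ≤ 2 * Δ := by
  unfold phm
  have h1 : 0 < ‖s‖ := hs.trans_le (re_le_norm s)
  have h2 : ‖-(s * (Δ : ℂ))‖ = ‖s‖ * Δ := by
    rw [norm_neg, norm_mul, Complex.norm_real, Real.norm_of_nonneg hΔ]
  rw [norm_div, div_le_iff₀ h1, norm_sub_rev]
  rcases le_total ‖-(s * (Δ : ℂ))‖ 1 with h | h
  · have := Complex.norm_exp_sub_one_le h
    rw [h2] at this
    linarith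
  · have h3 : ‖cexp (-(s * Δ))‖ ≤ 1 := by
      rw [st_norm_exp, Real.exp_le_one_iff]
      nlinarith
    have h4 := norm_sub_le (cexp (-(s * Δ))) 1
    rw [norm_one] at h4
    rw [h2] at h
    linarith

theorem st_near_re {ε τ t : ℝ} {s : ℂ} (h : ‖s - (ε + τ * I)‖ ≤ ε / 2) :
    ε / 2 ≤ (s - t * I).re := by
  have h1 := (abs_re_le_norm (s - (ε + τ * I))).trans h
  have e1 : (s - (ε + τ * I)).re = s.re - ε := by simp
  have e2 : (s - t * I).re = s.re := by simp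
  rw [e1] at h1
  rw [e2]
  linarith [(abs_le.1 h1).1]

theorem st_far_phs {Δ ε : ℝ} (hε : 0 < ε) : FarP (phs Δ) ε Δ (2 / ε) :=
  ⟨st_phs_diff Δ, fun _ h _ => st_phs_le hε h⟩

theorem st_far_phs0 {Δ ε : ℝ} (hε : 0 < ε) (hΔ : 0 ≤ Δ) : FarP (phs Δ) ε 0 (2 / ε) := by
  refine ⟨st_phs_diff Δ, fun s h _ => (st_phs_le hε h).trans ?_⟩
  have : 0 ≤ s.re := by linarith
  gcongr

theorem st_far_phm {Δ ε : ℝ} (hε : 0 < ε) (hΔ : 0 ≤ Δ) : FarP (phm Δ) ε 0 (2 * Δ) := by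
  refine ⟨st_phm_diff Δ, fun s h _ => (st_phm_le hΔ (by linarith)).trans ?_⟩
  simp

theorem st_near_phs {Δ ε t : ℝ} (C₀ : ℕ) (hε : 0 < ε) (hΔ : 0 ≤ Δ) :
    NearP (phs Δ) ε 0 t 0 C₀ (2 / ε) := by
  intro s τ h
  have h1 := st_near_re (t := t) h
  refine (st_phs_le hε h1).trans ?_
  have h2 : Real.exp (-Δ * (s - t * I).re) ≤ 1 := by
    rw [Real.exp_le_one_iff]
    nlinarith
  have h3 : 0 ≤ 2 / ε := by positivity
  simp only [pow_zero, mul_one, zero_mul, add_zero, one_pow, div_one]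
  nlinarith

theorem st_near_phm {Δ ε t : ℝ} (C₀ : ℕ) (hε : 0 < ε) (hΔ : 0 ≤ Δ) :
    NearP (phm Δ) ε 0 t 0 C₀ (2 * Δ) := by
  intro s τ h
  have h1 := st_near_re (t := t) h
  refine (st_phm_le hΔ (by linarith)).trans ?_
  simp

/-- The dual bound at a smaller scale. -/
theorem st_dual_le {K X Y : ℝ} (hK : 0 ≤ K) (h : K ≤ X) (hY : 1 ≤ Y) :
    lg K ^ 10 * max 1 (K / Y) ^ 4 ≤ lg X ^ 10 * max 1 (X / Y) ^ 4 := by
  have h1 := st_lg_nonneg hK
  have h2 := st_lg_mono hK h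
  have h3 : (0 : ℝ) ≤ max 1 (K / Y) := zero_le_one.trans (le_max_left _ _)
  have h4 : max 1 (K / Y) ≤ max 1 (X / Y) := by gcongr
  have h5 := st_lg_nonneg (hK.trans h)
  gcongr

theorem st_sqrt {X L : ℝ} (hX : 0 ≤ X) (h : L ^ 6 ≤ X) : L ^ 3 * √X ≤ X := by
  have h1 : L ^ 3 ≤ √X := Real.le_sqrt_of_sq_le (by linarith [show (L ^ 3) ^ 2 = L ^ 6 by ring])
  calc L ^ 3 * √X ≤ √X * √X := by gcongr
    _ = X := Real.mul_self_sqrt hX

end Pool.Agent.QM
end

-- part Pool.Agent.P.MP_ea46f5_nt.QM.Zeta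
section

/-!
Crude bounds for the zeta function and for the inverse of the zeta function without its factor
at two.
-/

namespace Pool.Agent.QM.Zt

open Complex MeasureTheory Set Filter Topology

theorem zeta0_le {s : ℂ} (hs : 0 < s.re) : ‖riemannZeta₀ s‖ ≤ 1 + ‖s‖ / s.re := by
  rw [Jac.zeta0_repr hs]
  refine (norm_sub_le _ _).trans ?_
  rw [norm_one, norm_mul, div_eq_mul_inv]
  have hI : IntegrableOn (fun u : ℝ => u ^ (-(s.re + 1))) (Ioi 1) :=
    integrableOn_Ioi_rpow_of_lt (by linarith) zero_lt_one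
  have h2 : ∫ u in Ioi (1 : ℝ), u ^ (-(s.re + 1)) = (s.re)⁻¹ := by
    rw [integral_Ioi_rpow_of_lt (by linarith) zero_lt_one, Real.one_rpow]
    have : -(s.re + 1) + 1 = -s.re := by ring
    rw [this, neg_div_neg_eq, one_div]
  gcongr
  rw [← h2]
  refine norm_integral_le_of_norm_le hI ?_
  refine (ae_restrict_iff' measurableSet_Ioi).2 (Eventually.of_forall fun u hu => ?_)
  have hu0 : 0 < u := zero_lt_one.trans hu
  rw [norm_mul, Complex.norm_cpow_eq_rpow_re_of_pos hu0]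
  have e : (-(s + 1)).re = -(s.re + 1) := by simp
  rw [e]
  exact mul_le_of_le_one_left (by positivity) (Jac.ja1r_fract_le u)

theorem zeta_le {s : ℂ} (hs : 0 < s.re) (h1 : s ≠ 1) :
    ‖riemannZeta s‖ ≤ 1 / ‖s - 1‖ + 1 + ‖s‖ / s.re := by
  rw [riemannZeta_eq_inv_sub_add h1]
  refine (norm_add_le _ _).trans ?_
  rw [norm_inv, one_div, add_assoc]
  exact add_le_add le_rfl (zeta0_le hs)

theorem norm_div_re_le {s : ℂ} {c : ℝ} (hc : 0 < c) (hs : c ≤ s.re) :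
    ‖s‖ / s.re ≤ 1 + |s.im| / c := by
  have h0 : 0 < s.re := hc.trans_le hs
  have h1 := Complex.norm_le_abs_re_add_abs_im s
  rw [abs_of_pos h0] at h1
  calc ‖s‖ / s.re ≤ (s.re + |s.im|) / s.re := by gcongr
    _ = 1 + |s.im| / s.re := by field_simp
    _ ≤ _ := by gcongr

/-- The entire function `(s - 1) ζ(s)` at `1 + s`. -/
theorem zeta1_le {s : ℂ} (hs : -3 / 4 ≤ s.re) :
    ‖riemannZeta₁ (1 + s)‖ ≤ 4 * (1 + |s.im|) * (1 + ‖s‖) := by
  have h1 := zeta0_le (s := 1 + s) (by simp; linarith)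
  have h2 := norm_div_re_le (s := 1 + s) (c := 1 / 4) (by norm_num) (by simp; linarith)
  have e : (1 + s).im = s.im := by simp
  rw [e] at h2
  rw [riemannZeta₁, add_sub_cancel_left]
  refine (norm_add_le _ _).trans ?_
  rw [norm_one, norm_mul]
  have h3 : ‖riemannZeta₀ (1 + s)‖ ≤ 4 * (1 + |s.im|) := by linarith
  nlinarith [mul_le_mul_of_nonneg_left h3 (norm_nonneg s), abs_nonneg s.im, norm_nonneg s]

/-- Z1, first part. -/
theorem z1a {s : ℂ} (hs : -3 / 4 ≤ s.re) (h0 : s ≠ 0) :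
    ‖riemannZeta (1 + s)‖ ≤ 4 * (1 + |s.im|) * (1 + 1 / ‖s‖) := by
  have hn : 0 < ‖s‖ := norm_pos_iff.2 h0
  rw [riemannZeta_eq_inv_sub_mul (by simpa using h0), add_sub_cancel_left, norm_mul, norm_inv,
    inv_mul_le_iff₀ hn]
  refine (zeta1_le hs).trans (le_of_eq ?_)
  field_simp
  ring

/-- Z1, second part. -/
theorem z1b {s : ℂ} (h0 : 0 < s.re) (h1 : s.re ≤ 1 / 2) : ‖riemannZeta s‖ ≤ ‖s‖ / s.re + 3 := by
  have hs : s ≠ 1 := by rintro rfl; norm_num at h1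
  have h2 : 1 / 2 ≤ ‖s - 1‖ := by
    refine le_trans ?_ (Complex.abs_re_le_norm _)
    rw [sub_re, one_re, abs_of_nonpos (by linarith)]; linarith
  have h3 : 1 / ‖s - 1‖ ≤ 2 := by
    rw [div_le_iff₀ (by linarith)]; linarith
  linarith [zeta_le h0 hs]

/-- Z1, second part, in the form used on the line `Re z = ε`. -/
theorem z1b' {s : ℂ} (h0 : 0 < s.re) (h1 : s.re ≤ 1 / 2) :
    ‖riemannZeta s‖ ≤ 3 * (1 + |s.im|) / s.re := by
  refine (z1b h0 h1).trans ((add_le_add (norm_div_re_le h0 le_rfl) le_rfl).trans ?_)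
  rw [le_div_iff₀ h0]
  have : (1 + |s.im| / s.re + 3) * s.re = 4 * s.re + |s.im| := by field_simp; ring
  rw [this]
  linarith [abs_nonneg s.im]

/-- Z1, third part. -/
theorem z1c (t : ℝ) : ‖riemannZeta (1 / 2 + t * I)‖ ≤ 4 * (1 + |t|) := by
  have e1 : (1 / 2 + t * I : ℂ).re = 1 / 2 := by simp
  have e2 : (1 / 2 + t * I : ℂ).im = t := by simp
  have h := z1b (s := 1 / 2 + t * I) (by rw [e1]; norm_num) e1.le
  have h2 := norm_div_re_le (s := 1 / 2 + t * I) (c := 1 / 2) (by norm_num) e1.ge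
  rw [e2] at h2
  linarith [abs_nonneg t]

/-- The real zeta value as a sum of norms. -/
theorem tsum_norm_term_one_le {σ : ℝ} (hσ : 1 < σ) :
    ∑' n : ℕ, ‖LSeries.term 1 (σ : ℂ) n‖ ≤ 2 + 1 / (σ - 1) := by
  have hs : 1 < (σ : ℂ).re := by simpa using hσ
  have h1 : ((∑' n : ℕ, ‖LSeries.term 1 (σ : ℂ) n‖ : ℝ) : ℂ) = riemannZeta σ := by
    rw [← LSeries_one_eq_riemannZeta hs, LSeries, ofReal_tsum]
    refine tsum_congr fun n => ?_
    rcases eq_or_ne n 0 with rfl | hn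
    · simp
    · rw [LSeries.norm_term_eq, if_neg hn, LSeries.term_of_ne_zero hn]
      simp [ofReal_cpow (Nat.cast_nonneg n)]
  have h2 := zeta_le (s := σ) (by linarith) (by intro h; rw [h] at hs; simp at hs)
  have e : ((σ : ℂ) - 1) = ((σ - 1 : ℝ) : ℂ) := by push_cast; ring
  rw [← h1, e, Complex.norm_real, Complex.norm_real, Complex.norm_real, ofReal_re,
    Real.norm_of_nonneg (r := σ - 1) (by linarith), Real.norm_of_nonneg (r := σ) (by linarith),
    div_self (by linarith)] at h2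
  linarith [Real.le_norm_self (∑' n : ℕ, ‖LSeries.term 1 (σ : ℂ) n‖)]

/-- A Dirichlet series with coefficients bounded by one. -/
theorem norm_LSeries_le {f : ℕ → ℂ} (hf : ∀ n, n ≠ 0 → ‖f n‖ ≤ 1) {s : ℂ} (hs : 1 < s.re) :
    ‖LSeries f s‖ ≤ 2 + 1 / (s.re - 1) := by
  have h1 : Summable fun n => ‖LSeries.term 1 (s.re : ℂ) n‖ :=
    (LSeriesSummable_one_iff.2 (by simpa using hs)).norm
  refine le_trans ?_ (tsum_norm_term_one_le hs)
  refine tsum_of_norm_bounded h1.hasSum fun n => ?_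
  rw [LSeries.norm_term_eq, LSeries.norm_term_eq]
  split_ifs with hn
  · exact le_rfl
  · simp only [Pi.one_apply, norm_one, ofReal_re]
    gcongr
    exact hf n hn

/-- Bound without growth in the imaginary direction. -/
theorem z1d {s : ℂ} (hs : 0 < s.re) : ‖riemannZeta (1 + s)‖ ≤ 2 + 1 / s.re := by
  have h : 1 < (1 + s).re := by simpa using hs
  rw [← LSeries_one_eq_riemannZeta h]
  simpa using norm_LSeries_le (f := 1) (by simp) h

/-- The inverse of `(1 - 2^(-s)) ζ(s)`, with the value `0` at `s = 1`. -/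
noncomputable def iZ (s : ℂ) : ℂ := (s - 1) / ((1 - 2 ^ (-s)) * riemannZeta₁ s)

theorem half_le_norm_two {s : ℂ} (hs : 1 ≤ s.re) : 1 / 2 ≤ ‖1 - (2 : ℂ) ^ (-s)‖ := by
  have h1 : ‖(2 : ℂ) ^ (-s)‖ ≤ 1 / 2 := by
    have := Complex.norm_natCast_cpow_of_pos (n := 2) (by norm_num) (-s)
    simp only [Nat.cast_ofNat, neg_re] at this
    rw [this]
    calc (2 : ℝ) ^ (-s.re) ≤ 2 ^ (-1 : ℝ) :=
          Real.rpow_le_rpow_of_exponent_le (by norm_num) (by linarith)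
      _ = 1 / 2 := by rw [Real.rpow_neg_one]; norm_num
  have h2 := norm_sub_norm_le (1 : ℂ) (2 ^ (-s))
  rw [norm_one] at h2
  linarith

theorem two_fac_ne {s : ℂ} (hs : 1 ≤ s.re) : 1 - (2 : ℂ) ^ (-s) ≠ 0 := fun h => by
  have := half_le_norm_two hs
  rw [h, norm_zero] at this
  norm_num at this

theorem zeta1_ne {s : ℂ} (hs : 1 ≤ s.re) : riemannZeta₁ s ≠ 0 := fun h =>
  Jac.ja2z_ne hs (by rw [Jac.zf, h, zero_div])

theorem differentiable_two_fac : Differentiable ℂ fun s : ℂ => 1 - (2 : ℂ) ^ (-s) :=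
  (differentiable_const _).sub (differentiable_id.neg.const_cpow (Or.inl two_ne_zero))

/-- The open set on which `iZ` is holomorphic. -/
def iZdom : Set ℂ := {s | (1 - 2 ^ (-s)) * riemannZeta₁ s ≠ 0}

theorem isOpen_iZdom : IsOpen iZdom :=
  isOpen_ne_fun (differentiable_two_fac.mul differentiable_riemannZeta₁).continuous
    continuous_const

theorem mem_iZdom {s : ℂ} (hs : 1 ≤ s.re) : s ∈ iZdom :=
  mul_ne_zero (two_fac_ne hs) (zeta1_ne hs)

theorem iZ_differentiableAt_of_mem {s : ℂ} (hs : s ∈ iZdom) : DifferentiableAt ℂ iZ s :=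
  (differentiableAt_id.sub_const 1).div
    ((differentiable_two_fac.mul differentiable_riemannZeta₁) s) hs

theorem iZ_differentiableOn : DifferentiableOn ℂ iZ iZdom := fun _ hs =>
  (iZ_differentiableAt_of_mem hs).differentiableWithinAt

theorem iZ_differentiableAt {s : ℂ} (hs : 1 ≤ s.re) : DifferentiableAt ℂ iZ s :=
  iZ_differentiableAt_of_mem (mem_iZdom hs)

theorem iZ_analyticAt {s : ℂ} (hs : 1 ≤ s.re) : AnalyticAt ℂ iZ s :=
  iZ_differentiableOn.analyticAt (isOpen_iZdom.mem_nhds (mem_iZdom hs))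

theorem iZ_continuousAt {s : ℂ} (hs : 1 ≤ s.re) : ContinuousAt iZ s :=
  (iZ_differentiableAt hs).continuousAt

theorem iZ_continuousOn : ContinuousOn iZ {s | 1 ≤ s.re} := fun _ hs =>
  (iZ_continuousAt hs).continuousWithinAt

theorem iZ_measurable : Measurable iZ :=
  (measurable_id.sub_const 1).div
    (differentiable_two_fac.mul differentiable_riemannZeta₁).continuous.measurable

theorem iZ_one : iZ 1 = 0 := by simp [iZ]

theorem iZ_eq {s : ℂ} (h1 : s ≠ 1) : iZ s = ((1 - 2 ^ (-s)) * riemannZeta s)⁻¹ := by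
  rw [iZ, riemannZeta_eq_inv_sub_mul h1, mul_left_comm, mul_inv, inv_inv, div_eq_mul_inv]

theorem iZ_mul {s : ℂ} (hs : 1 ≤ s.re) (h1 : s ≠ 1) :
    iZ s * ((1 - 2 ^ (-s)) * riemannZeta s) = 1 := by
  rw [iZ_eq h1]
  exact inv_mul_cancel₀ (mul_ne_zero (two_fac_ne hs) (riemannZeta_ne_zero_of_one_le_re hs))

theorem norm_inv_zeta_le {s : ℂ} (hs : 1 < s.re) : ‖(riemannZeta s)⁻¹‖ ≤ 2 + 1 / (s.re - 1) := by
  have h := LSeries_one_mul_Lseries_moebius hs
  rw [LSeries_one_eq_riemannZeta hs] at h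
  rw [← eq_inv_of_mul_eq_one_right h]
  refine norm_LSeries_le (fun n _ => ?_) hs
  rw [Complex.norm_intCast]
  exact_mod_cast ArithmeticFunction.abs_moebius_le_one

/-- Z2 with the first power. -/
theorem iZ_le : ∃ C : ℝ, 0 < C ∧ ∀ s : ℂ, 1 ≤ s.re → ‖iZ s‖ ≤ C * (1 + |s.im|) := by
  obtain ⟨c, hc, h⟩ := Jac.zf_low (η := 1) one_pos le_rfl
  refine ⟨6 + 4 / c, by positivity, fun s hs => ?_⟩
  have ht := abs_nonneg s.im
  have h2 := half_le_norm_two hs
  have hc4 : 0 < 4 / c := by positivity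
  rcases le_total s.re 2 with h3 | h3
  · have h4 := h s.re s.im hs h3
    rw [re_add_im, Real.rpow_neg_one, Jac.zf, norm_div] at h4
    have hs0 : 0 < ‖s‖ := by
      refine lt_of_lt_of_le ?_ (Complex.re_le_norm s); linarith
    have h5 : ‖s - 1‖ ≤ ‖s‖ := by
      apply abs_le_of_sq_le_sq' _ (norm_nonneg _) |>.2
      rw [Complex.sq_norm, Complex.sq_norm, normSq_apply, normSq_apply]
      simp only [sub_re, one_re, sub_im, one_im, sub_zero]
      nlinarith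
    have h6 : 0 < ‖riemannZeta₁ s‖ := norm_pos_iff.2 (zeta1_ne hs)
    rw [le_div_iff₀ hs0, mul_assoc, ← le_div_iff₀' hc, inv_mul_le_iff₀ (by positivity)] at h4
    rw [iZ, norm_div, norm_mul, div_le_iff₀ (by positivity)]
    calc ‖s - 1‖ ≤ (|s.im| + 2) * (‖riemannZeta₁ s‖ / c) := h5.trans h4
      _ ≤ (2 * (1 + |s.im|)) * (‖riemannZeta₁ s‖ / c) := by gcongr; linarith
      _ = (4 / c) * (1 + |s.im|) * (1 / 2 * ‖riemannZeta₁ s‖) := by ring
      _ ≤ _ := by gcongr; linarith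
  · have h1 : s ≠ 1 := by rintro rfl; norm_num at h3
    have h4 := norm_inv_zeta_le (s := s) (by linarith)
    have h5 : 1 / (s.re - 1) ≤ 1 := by rw [div_le_one (by linarith)]; linarith
    have h6 : ‖(1 - (2 : ℂ) ^ (-s))⁻¹‖ ≤ 2 := by
      rw [norm_inv]
      exact inv_le_of_inv_le₀ (by norm_num) (by linarith)
    rw [iZ_eq h1, mul_inv, norm_mul]
    calc _ ≤ 2 * 3 := mul_le_mul h6 (by linarith) (norm_nonneg _) (by norm_num)
      _ ≤ _ := by nlinarith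

/-- Z2 of the paper. -/
theorem iZ_le_sq : ∃ C : ℝ, 0 < C ∧ ∀ s : ℂ, 1 ≤ s.re → ‖iZ s‖ ≤ C * (1 + |s.im|) ^ 2 := by
  obtain ⟨C, hC, h⟩ := iZ_le
  refine ⟨C, hC, fun s hs => (h s hs).trans ?_⟩
  gcongr
  nlinarith [abs_nonneg s.im]

theorem hasProd_inv {ι : Type*} {f : ι → ℂ} {a : ℂ} (h : HasProd f a) (ha : a ≠ 0) :
    HasProd (fun i => (f i)⁻¹) a⁻¹ := by
  have := Tendsto.inv₀ h ha
  simpa only [HasProd, Finset.prod_inv_distrib] using this

/-- Euler product of `(1 - 2^(-s)) ζ(s)` over the odd primes. -/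
theorem oddZeta_hasProd {s : ℂ} (hs : 1 < s.re) :
    HasProd (fun p : Nat.Primes => if (p : ℕ) = 2 then 1 else (1 - ((p : ℕ) : ℂ) ^ (-s))⁻¹)
      ((1 - 2 ^ (-s)) * riemannZeta s) := by
  classical
  have h1 := hasProd_ite_eq (⟨2, Nat.prime_two⟩ : Nat.Primes) (1 - (2 : ℂ) ^ (-s))
  refine (h1.mul (riemannZeta_eulerProduct_hasProd hs)).congr_fun fun p => ?_
  by_cases hp : (p : ℕ) = 2
  · have : p = ⟨2, Nat.prime_two⟩ := Subtype.ext hp
    rw [if_pos hp, if_pos this, hp]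
    exact (mul_inv_cancel₀ (two_fac_ne hs.le)).symm
  · have : p ≠ ⟨2, Nat.prime_two⟩ := fun h => hp (congrArg Subtype.val h)
    rw [if_neg hp, if_neg this, one_mul]

/-- Euler product of `iZ` over the odd primes. -/
theorem iZ_hasProd {s : ℂ} (hs : 1 < s.re) :
    HasProd (fun p : Nat.Primes => if (p : ℕ) = 2 then 1 else 1 - ((p : ℕ) : ℂ) ^ (-s)) (iZ s) := by
  have h1 : s ≠ 1 := by rintro rfl; simp at hs
  rw [iZ_eq h1]
  refine (hasProd_inv (oddZeta_hasProd hs)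
    (mul_ne_zero (two_fac_ne hs.le) (riemannZeta_ne_zero_of_one_le_re hs.le))).congr_fun
    fun p => ?_
  split_ifs <;> simp

end Pool.Agent.QM.Zt
end

-- part Pool.Agent.P.MP_ea46f5_nt.QM.FFE
section

namespace Pool.Agent.QM

open Complex MeasureTheory Finset
open scoped Real ComplexConjugate

theorem fe_mod {f : ℕ → ℤ} {q : ℕ} (h : ∀ n, f (n + q) = f n) (a : ℕ) : f (a % q) = f a := by
  have h1 : ∀ j b : ℕ, f (b + q * j) = f b := by
    intro j b
    induction j with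
    | zero => simp
    | succ j ih => rw [Nat.mul_succ, ← add_assoc, h, ih]
  conv_rhs => rw [← Nat.mod_add_div a q, h1]

theorem fe_prim {q : ℕ} [NeZero q] (χ : DirichletCharacter ℂ q)
    (h : ∀ p : ℕ, p.Prime → p ∣ q → ∃ n : ℕ, n ≡ 1 [MOD q / p] ∧ χ (n : ZMod q) = -1) :
    χ.IsPrimitive := by
  by_contra hn
  obtain ⟨c, hc⟩ := χ.conductor_dvd_level
  have hc1 : c ≠ 1 := fun h1 => hn (by rw [h1, mul_one] at hc; exact hc.symm)
  obtain ⟨p, hp, e, rfl⟩ := Nat.exists_prime_and_dvd hc1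
  have hq : q = p * (χ.conductor * e) := by rw [← mul_left_comm]; exact hc
  obtain ⟨n, hn1, hn2⟩ := h p hp ⟨_, hq⟩
  have hd : q / p = χ.conductor * e := Nat.div_eq_of_eq_mul_right hp.pos hq
  rw [hd] at hn1
  have hn3 : n ≡ 1 [MOD χ.conductor] := hn1.of_mul_right e
  obtain ⟨hdv, χ₀, h0⟩ := χ.factorsThrough_conductor
  have hne : χ ((n : ℤ) : ZMod q) ≠ 0 := by
    rw [Int.cast_natCast, hn2]
    norm_num
  have hco := (χ.apply_ne_zero_iff n).1 hne
  have h2 := DirichletCharacter.changeLevel_eq_cast_of_dvd' χ₀ hdv hco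
  rw [← h0, Int.cast_natCast, Int.cast_natCast, hn2, (ZMod.natCast_eq_natCast_iff _ _ _).2 hn3,
    Nat.cast_one, map_one] at h2
  norm_num at h2

/-- The functional equation of a primitive real character, up to a sign. -/
theorem fe_sq {q : ℕ} [NeZero q] {χ : DirichletCharacter ℂ q} (hp : χ.IsPrimitive)
    (hi : χ⁻¹ = χ) : χ.rootNumber ^ 2 = 1 := by
  have hq : (q : ℂ) ≠ 0 := by exact_mod_cast NeZero.ne q
  have h1 := hp.completedLFunction_one_sub 2
  have h2 := hp.completedLFunction_one_sub (1 - 2)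
  rw [hi] at h1 h2
  rw [h1, sub_sub_cancel] at h2
  have h3 : χ.completedLFunction 2 ≠ 0 := by
    intro h
    have h4 := χ.LFunction_eq_completed_div_gammaFactor 2 (Or.inl two_ne_zero)
    rw [h, zero_div] at h4
    exact χ.LFunction_ne_zero_of_one_le_re (Or.inr (by norm_num)) (by norm_num) h4
  have h5 : (q : ℂ) ^ ((1 : ℂ) - 2 - 1 / 2) * (q : ℂ) ^ ((2 : ℂ) - 1 / 2) = 1 := by
    rw [← cpow_add _ _ hq]
    norm_num
  apply mul_right_cancel₀ h3
  linear_combination -h2 - χ.rootNumber ^ 2 * χ.completedLFunction 2 * h5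

theorem fe_dvd (k : ℤ) : (disc k).natAbs ∣ 4 * k.natAbs := by
  unfold disc
  split_ifs
  · exact dvd_mul_left _ _
  · exact Dvd.intro 1 (by omega)

theorem fe_dvd' (k : ℤ) : k.natAbs ∣ (disc k).natAbs := by
  unfold disc
  split_ifs
  · exact dvd_rfl
  · exact Dvd.intro_left 4 (by omega)

theorem fe_ne (k : ℤ) {s : ℂ} (hs : 0 < s.re) : 1 - (gam k : ℂ) * (2 : ℂ) ^ (-s) ≠ 0 := by
  intro h
  have h0 : ‖(2 : ℂ) ^ (-s)‖ = (2 : ℝ) ^ (-s.re) := by
    have := norm_natCast_cpow_of_pos (n := 2) two_pos (-s)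
    simpa using this
  have h1 : ‖(gam k : ℂ) * (2 : ℂ) ^ (-s)‖ ≤ (2 : ℝ) ^ (-s.re) := by
    rw [norm_mul, h0]
    refine mul_le_of_le_one_left (by positivity) ?_
    unfold gam
    split_ifs <;> simp
  rw [← sub_eq_zero.1 h, norm_one] at h1
  have h2 : (2 : ℝ) ^ (-s.re) < 1 :=
    Real.rpow_lt_one_of_one_lt_of_neg (by norm_num) (by linarith)
  linarith

theorem pFE (hKR : KR) (hPRI : PRI) (hLOP : LOP) (hLSP : LSP) : FE := by
  have _ := And.intro hLOP hLSP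
  intro k hk h1
  obtain ⟨k1, k2, k3, k4, k5, k6, k7, k8⟩ := hKR k hk h1
  have hq : NeZero (disc k).natAbs := ⟨by omega⟩
  have h4 := four_ne hk.ne_zero
  obtain ⟨χ, hχ⟩ := exists_char (disc k).natAbs (kron (disc k)) (by simp [kron]) k3 (fe_mod k4) k7
  obtain ⟨ψ, hψ, eψ⟩ := exists_chiO k
  have hprim : χ.IsPrimitive := fe_prim χ fun p hp hd => by
    obtain ⟨n, a, b⟩ := hPRI k hk h1 p hp hd
    exact ⟨n, a, by rw [hχ, b]; norm_num⟩
  have hne : χ ≠ 1 := by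
    intro h
    rw [DirichletCharacter.isPrimitive_def, h, DirichletCharacter.conductor_one] at hprim
    omega
  have hi : χ⁻¹ = χ := by
    refine MulChar.IsQuadratic.inv fun x => ?_
    rw [← ZMod.natCast_zmod_val x, hχ]
    by_cases hc : x.val.Coprime (disc k).natAbs
    · rcases sq_eq_one_iff.1 (k8 _ hc) with h | h <;> simp [h]
    · simp [k7 _ hc]
  have hcl : ψ = DirichletCharacter.changeLevel (fe_dvd k) χ := by
    refine MulChar.ext fun a => ?_
    have hu : Nat.Coprime (a : ZMod (4 * k.natAbs)).val (4 * k.natAbs) :=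
      ZMod.val_coe_unit_coprime a
    have ho : Odd (a : ZMod (4 * k.natAbs)).val :=
      Nat.coprime_two_right.1 (hu.coprime_dvd_right (by omega))
    rw [DirichletCharacter.changeLevel_eq_cast_of_dvd, ZMod.cast_eq_val, hχ, k1 _ ho, jo_eq, ← hψ,
      ZMod.natCast_zmod_val]
  have hL : ∀ s : ℂ, 0 < s.re → Lf k s = χ.LFunction s := by
    intro s hs
    have e : ∏ p ∈ (4 * k.natAbs).primeFactors, (1 - χ p * (p : ℂ) ^ (-s)) =
        1 - (gam k : ℂ) * (2 : ℂ) ^ (-s) := by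
      rw [prod_eq_single_of_mem 2 (Nat.mem_primeFactors.2 ⟨Nat.prime_two, by omega, h4.1⟩),
        hχ, k2, Nat.cast_ofNat]
      intro p hp h2
      have hpp := Nat.prime_of_mem_primeFactors hp
      have hc : Nat.Coprime p 4 := (((Nat.coprime_primes hpp Nat.prime_two).2 h2).pow_right 2 :)
      have hd : p ∣ (disc k).natAbs :=
        (hc.dvd_of_dvd_mul_left (Nat.dvd_of_mem_primeFactors hp)).trans (fe_dvd' k)
      rw [hχ, k7 p (fun h => (hpp.coprime_iff_not_dvd.1 h) hd)]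
      simp
    rw [Lf, eψ, hcl, DirichletCharacter.LFunction_changeLevel _ _ (Or.inl hne), e,
      mul_div_cancel_right₀ _ (fe_ne k hs)]
  have hm : χ (-1) = (-1) ^ par k := by
    have e : (-1 : ZMod (disc k).natAbs) = (((disc k).natAbs - 1 : ℕ) : ZMod _) := by
      rw [Nat.cast_sub k6.le, ZMod.natCast_self, Nat.cast_one, zero_sub]
    rw [e, hχ, k5]
    push_cast
    rfl
  have hg : ∀ s : ℂ, χ.gammaFactor s = Gammaℝ (s + par k) := by
    intro s
    unfold par at hm ⊢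
    split_ifs at hm ⊢ with h
    · rw [DirichletCharacter.Even.gammaFactor_def (hm.trans (pow_zero _))]
      simp
    · rw [DirichletCharacter.Odd.gammaFactor_def (hm.trans (pow_one _))]
      simp
  have hqk : (qk k : ℂ) = ((disc k).natAbs : ℂ) := by
    rw [qk, ← Int.cast_abs, ← Nat.cast_natAbs]
    rfl
  have hLam : ∀ s : ℂ, 0 < s.re →
      Lam k s = ((disc k).natAbs : ℂ) ^ (s / 2) * χ.completedLFunction s := by
    intro s hs
    have h0 : s ≠ 0 := by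
      rintro rfl
      simp at hs
    have hG : Gammaℝ (s + par k) ≠ 0 := Gammaℝ_ne_zero_of_re_pos (by
      rw [add_re, natCast_re]
      positivity)
    rw [Lam, hL s hs, χ.LFunction_eq_completed_div_gammaFactor s (Or.inl h0), hg, hqk, mul_assoc,
      mul_div_cancel₀ _ hG]
  refine ⟨⟨χ.rootNumber, fe_sq hprim hi, fun s hs0 hs1 => ?_⟩, ?_⟩
  · have hqc : ((disc k).natAbs : ℂ) ≠ 0 := by exact_mod_cast hq.1
    have e : ((disc k).natAbs : ℂ) ^ ((1 - s) / 2) * ((disc k).natAbs : ℂ) ^ (s - 1 / 2) =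
        ((disc k).natAbs : ℂ) ^ (s / 2) := by
      rw [← cpow_add _ _ hqc]
      congr 1
      ring
    rw [hLam s hs0, hLam (1 - s) (by simpa using hs1), hprim.completedLFunction_one_sub, hi, ← e]
    ring
  · rw [hL _ (by norm_num), Lhalf, dif_neg hq.1]
    exact LP_eq (f := fun n => (kron (disc k) n : ℂ)) hχ _

end Pool.Agent.QM
end

-- part Pool.Agent.P.MP_ea46f5_nt.QM.FGam1
section

namespace Pool.Agent.QM

open Complex MeasureTheory Finset
open scoped Real ComplexConjugate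

theorem pGAM1 : GAM1 := by
  intro n
  obtain ⟨C, hC, h⟩ := Gm.gamma1_exp 8
  refine ⟨C * (3 * n.factorial / (1 / 2) ^ n), by positivity, fun z h0 h1 => ?_⟩
  refine (h z h0 (by push_cast; linarith)).trans ?_
  have h2 := Gm.pow_mul_exp_le n (c := 1 / 2) (x := |z.im|) (by norm_num) (by norm_num)
    (abs_nonneg _)
  have e : -|z.im| / 2 = -(1 / 2 * |z.im|) := by ring
  rw [← div_div, br, le_div_iff₀ (by positivity), e, mul_assoc, mul_comm (Real.exp _),
    mul_div_right_comm C]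
  exact mul_le_mul_of_nonneg_left h2 (by positivity)

end Pool.Agent.QM
end

-- part Pool.Agent.P.MP_ea46f5_nt.QM.FGam2
section

namespace Pool.Agent.QM

open Complex MeasureTheory Finset
open scoped Real ComplexConjugate

theorem pGAM2 : GAM2 := by
  obtain ⟨C, hC, h⟩ := Gm.gamma2
  exact ⟨13, C, hC, fun a t s ha h1 h2 => h a t s ha (by linarith) h2⟩

end Pool.Agent.QM
end

-- part Pool.Agent.P.MP_ea46f5_nt.QM.FHC
section

namespace Pool.Agent.QM

open Complex MeasureTheory Finset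
open scoped Real ComplexConjugate

/-- The product over the primes outside `P`. -/
theorem hc_prod (hLOC : LOC) (hPRD : PRD) (hPZ : PZ) (hPL : PL) : ∃ C : ℝ, 0 < C ∧
    ∀ (P : Finset ℕ) (lam ε : ℝ) (z s₁ s₂ : ℂ), OP P → (∀ p ∈ P, (p : ℝ) ≤ Real.exp lam) →
      0 ≤ lam → 0 < ε → ε ≤ 1 / 100 → ε * lam ≤ 1 → z.re = ε → ‖s₁ - z‖ ≤ ε / 2 →
      ‖s₂ - z‖ ≤ ε / 2 →
      ‖∏' p : Nat.Primes, (if (p : ℕ) = 2 ∨ (p : ℕ) ∈ P then 1 else
          locv 1 z s₁ s₂ p 0 * fp 1 z s₁ s₂ p)‖ ≤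
        C * Real.exp (-6 * sg P) * (1 + lam * |z.im|) ^ 12 * (br z.im * (1 + 1 / ‖z‖)) ^ 6 := by
  obtain ⟨C, B, hC, -, hL⟩ := hLOC
  obtain ⟨C₂, hC₂, hZ⟩ := hPZ.2
  obtain ⟨C₃, hC₃, hL1, hL2, -⟩ := hPL
  obtain ⟨C', hC'⟩ : ∃ C' : ℝ, C' = C + (14 + C) ^ 2 := ⟨_, rfl⟩
  have hC12 : 12 ≤ C' := by rw [hC']; nlinarith
  have hC0 : 0 ≤ C' := le_trans (by norm_num) hC12
  refine ⟨(2 * C₂) ^ 6 * Real.exp (12 * C₃ + C' * (20 / 7) + 12 * C₃) * 3 ^ 12, by positivity, ?_⟩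
  intro P lam ε z s₁ s₂ hP hle hlam hε hε1 hel hz h₁ h₂
  have a1 := abs_le.mp ((abs_re_le_norm (s₁ - z)).trans h₁)
  have a2 := abs_le.mp ((abs_re_le_norm (s₂ - z)).trans h₂)
  have r₁ : 0 < s₁.re := by have := a1.1; rw [sub_re] at this; linarith
  have r₂ : 0 < s₂.re := by have := a2.1; rw [sub_re] at this; linarith
  have hU : UU z s₁ s₂ := ⟨by linarith [a1.1], by linarith [a2.1], r₁, r₂, by linarith, by linarith⟩
  have hz0 : 0 ≤ z.re := by linarith
  set u : Nat.Primes → ℂ := fun p => if (p : ℕ) = 2 ∨ (p : ℕ) ∈ P then 0 else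
    locv 1 z s₁ s₂ p 0 * fp 1 z s₁ s₂ p - 1 with hu
  have e : (fun p : Nat.Primes => if (p : ℕ) = 2 ∨ (p : ℕ) ∈ P then (1 : ℂ) else
      locv 1 z s₁ s₂ p 0 * fp 1 z s₁ s₂ p) = fun p => 1 + u p := by
    funext p
    simp only [hu]
    split_ifs <;> ring
  have S1 := (hPZ.1 (2 * ε) (by linarith)).1
  have S2 := hL1 ε hε (by linarith)
  have S3 := (hPZ.1 (7 / 20) (by norm_num)).1
  have S3' := hc_pz hPZ (7 / 20) (by norm_num)
  have pt := fun (p : Nat.Primes) (h2 : (p : ℕ) ≠ 2) =>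
    hc_pt p.2 h2 ε C z s₁ s₂ _ hε hC hz h₁ h₂ r₁.le r₂.le (hL p 1 z s₁ s₂ p.2 h2 hU).1
  have pos2 : ∀ p : ℕ, 0 ≤ 12 * ε * (Real.log p * (p : ℝ) ^ (-(1 + ε))) := fun p =>
    mul_nonneg (by linarith) (mul_nonneg (hc_log_nonneg p) (by positivity))
  have Su : Summable fun p => ‖u p‖ := by
    refine Summable.of_nonneg_of_le (fun p => norm_nonneg _) (fun p => ?_)
      (((S1.mul_left 6).add (S2.1.mul_left (12 * ε))).add (S3.mul_left C))
    simp only [hu]
    split_ifs with h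
    · rw [norm_zero]
      exact add_nonneg (add_nonneg (by positivity) (pos2 p)) (by positivity)
    · exact (pt p (not_or.mp h).1).1
  obtain ⟨Sv, hb, -⟩ := hPRD u Su
  have S0 : Summable fun p : Nat.Primes => (((p : ℕ) : ℂ) ^ (-(1 + 2 * z))).re := by
    refine Summable.of_norm_bounded S1 fun p => ?_
    refine (abs_re_le_norm _).trans (le_of_eq ?_)
    rw [norm_natCast_cpow_of_pos p.2.pos]
    congr 1
    simp [hz]
  have S4 := hc_ind P (fun p hp => (hP p hp).1) fun p =>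
    -6 * (1 / (p : ℝ)) + 12 * (min 1 (2 * ‖z‖ * Real.log p) / p)
  have H := (((S0.hasSum.mul_left 6).add (S2.1.hasSum.mul_left (12 * ε))).add
    (S3.hasSum.mul_left C')).add S4
  have hle2 := hasSum_le (fun p : Nat.Primes => (show (u p).re + ‖u p‖ ^ 2 / 2 ≤ _ by
    have g0 : 0 ≤ ((p : ℕ) : ℝ) ^ (-(1 + 7 / 20) : ℝ) := by positivity
    have q2 := pos2 p
    simp only [hu]
    by_cases hm : (p : ℕ) ∈ P
    · rw [if_pos (Or.inr hm), if_pos hm]
      have k1 := hc_inP p.2.pos z hz0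
      have k2 := mul_nonneg hC0 g0
      simp only [zero_re, norm_zero]
      linarith only [k1, k2, q2]
    · rw [if_neg hm]
      by_cases h2 : (p : ℕ) = 2
      · rw [if_pos (Or.inl h2)]
        have k1 := hc_two z hz0
        rw [← h2] at k1
        have k2 := mul_le_mul_of_nonneg_right hC12 g0
        simp only [zero_re, norm_zero]
        linarith only [k1, k2, q2]
      · rw [if_neg (not_or.mpr ⟨h2, hm⟩), add_zero, hC']
        exact (pt p h2).2)) Sv.hasSum H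
  have k2 : 12 * ε * ∑' p : Nat.Primes, Real.log (p : ℕ) * ((p : ℕ) : ℝ) ^ (-(1 + ε)) ≤
      12 * C₃ := by
    calc _ ≤ 12 * ε * (C₃ / ε) := mul_le_mul_of_nonneg_left S2.2 (by positivity)
      _ = 12 * C₃ := by field_simp
  have k3 : C' * ∑' p : Nat.Primes, ((p : ℕ) : ℝ) ^ (-(1 + 7 / 20) : ℝ) ≤ C' * (20 / 7) :=
    mul_le_mul_of_nonneg_left (S3'.trans (by norm_num)) hC0
  have k4 := hL2 P lam (2 * ‖z‖) (fun p hp => ⟨(hP p hp).1, hle p hp⟩) hlam (by positivity)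
  have k5 : ∑ p ∈ P, (-6 * (1 / (p : ℝ)) + 12 * (min 1 (2 * ‖z‖ * Real.log p) / p)) =
      -6 * sg P + 12 * ∑ p ∈ P, min 1 (2 * ‖z‖ * Real.log p) / p := by
    rw [sum_add_distrib, ← mul_sum, ← mul_sum, sg]
  have hzn : ‖z‖ ≤ ε + |z.im| := by
    have := norm_le_abs_re_add_abs_im z
    rwa [hz, abs_of_pos hε] at this
  have hly : 0 ≤ lam * |z.im| := mul_nonneg hlam (abs_nonneg _)
  have k6 : 1 + lam * (2 * ‖z‖) ≤ 3 * (1 + lam * |z.im|) := by
    have := mul_le_mul_of_nonneg_left hzn hlam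
    linarith only [this, hel, hly]
  have k7 : 0 < 1 + lam * (2 * ‖z‖) := by positivity
  have k8 := hZ (2 * z) (by simp [hz, hε]) (by simp [hz]; linarith only [hε1])
  have hzp : 0 < ‖z‖ := lt_of_lt_of_le (by rw [hz, abs_of_pos hε]; exact hε) (abs_re_le_norm z)
  have k9 : C₂ * br (2 * z).im * (1 + 1 / ‖2 * z‖) ≤ 2 * C₂ * (br z.im * (1 + 1 / ‖z‖)) := by
    have b1 : br (2 * z).im ≤ 2 * br z.im := by
      unfold br
      simp [abs_mul]
      linarith only []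
    have b2 : 1 + 1 / ‖2 * z‖ ≤ 1 + 1 / ‖z‖ := by
      have n2 : ‖2 * z‖ = 2 * ‖z‖ := by simp
      rw [n2]
      have := one_div_le_one_div_of_le hzp (by linarith only [hzp] : ‖z‖ ≤ 2 * ‖z‖)
      linarith only [this]
    have b3 : 0 ≤ br z.im := by unfold br; positivity
    calc _ = C₂ * (br (2 * z).im * (1 + 1 / ‖2 * z‖)) := by ring
      _ ≤ C₂ * (2 * br z.im * (1 + 1 / ‖z‖)) :=
          mul_le_mul_of_nonneg_left (mul_le_mul b1 b2 (by positivity) (by positivity)) hC₂.le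
      _ = _ := by ring
  rw [e]
  refine hb.trans ?_
  set A : ℝ := ∑' p : Nat.Primes, (((p : ℕ) : ℂ) ^ (-(1 + 2 * z))).re with hA
  have k10 : ∑' p, ((u p).re + ‖u p‖ ^ 2 / 2) ≤ ((6 : ℕ) : ℝ) * A +
      (12 * C₃ + C' * (20 / 7) + 12 * C₃) + -6 * sg P +
      ((12 : ℕ) : ℝ) * Real.log (1 + lam * (2 * ‖z‖)) := by
    push_cast
    rw [k5] at hle2
    linarith only [hle2, k2, k3, k4]
  refine (Real.exp_le_exp.mpr k10).trans ?_
  rw [Real.exp_add, Real.exp_add, Real.exp_add _ (12 * C₃ + C' * (20 / 7) + 12 * C₃),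
    Real.exp_nat_mul, Real.exp_nat_mul, Real.exp_log k7]
  have m1 : Real.exp A ^ 6 ≤ (2 * C₂ * (br z.im * (1 + 1 / ‖z‖))) ^ 6 :=
    pow_le_pow_left₀ (Real.exp_pos _).le (k8.trans k9) 6
  have m2 : (1 + lam * (2 * ‖z‖)) ^ 12 ≤ (3 * (1 + lam * |z.im|)) ^ 12 :=
    pow_le_pow_left₀ k7.le k6 12
  calc _ ≤ (2 * C₂ * (br z.im * (1 + 1 / ‖z‖))) ^ 6 *
        Real.exp (12 * C₃ + C' * (20 / 7) + 12 * C₃) * Real.exp (-6 * sg P) *
        (3 * (1 + lam * |z.im|)) ^ 12 := by gcongr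
    _ = _ := by
      generalize br z.im * (1 + 1 / ‖z‖) = a₁
      generalize 1 + lam * |z.im| = c₁
      ring

theorem pHC (hEXB : EXB) (hEXL : EXL) (hLOC : LOC) (hLOC0 : LOC0) (hPRD : PRD) (hPZ : PZ) (hPL : PL) : HC := by
  obtain ⟨C₁, hC₁, hprod⟩ := hc_prod hLOC hPRD hPZ hPL
  obtain ⟨C₂, c, hC₂, hE⟩ := hEXB
  obtain ⟨C₃, hC₃, -, hF⟩ := hLOC0
  obtain ⟨C₄, -, -, -, hL3⟩ := hPL
  refine ⟨Real.exp (C₃ * 4) * (C₂ * 5 ^ c) * C₁, c + 12, by positivity, ?_⟩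
  intro P B R lam T Y ε z s₁ s₂ hT hε hε1 hel hz h₁ h₂
  have a1 := abs_le.mp ((abs_re_le_norm (s₁ - z)).trans h₁)
  have a2 := abs_le.mp ((abs_re_le_norm (s₂ - z)).trans h₂)
  rw [sub_re] at a1 a2
  have hlam := hT.lam0
  have hT0 := hT.T0
  have p1 := hprod P lam ε z s₁ s₂ hT.op hT.le hlam hε hε1 hel hz h₁ h₂
  have p2 := hEXL.2.2.2.2.2.1 P (mu 1 z s₁ s₂) (fp 1 z s₁ s₂) R hT.pos
  have p3 := hE P B R lam T Y z s₁ s₂ hT (by linarith) (by linarith [a1.1]) (by linarith [a2.1])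
    (by
      have : (z.re + s₁.re + s₂.re) * lam ≤ (4 * ε) * lam :=
        mul_le_mul_of_nonneg_right (by linarith [a1.2, a2.2]) hlam
      linarith)
  have hzn : ‖z‖ ≤ ε + |z.im| := by
    have := norm_le_abs_re_add_abs_im z
    rwa [hz, abs_of_pos hε] at this
  have n1 : ‖s₁‖ ≤ ‖z‖ + ε / 2 := by linarith [norm_sub_norm_le s₁ z]
  have n2 : ‖s₂‖ ≤ ‖z‖ + ε / 2 := by linarith [norm_sub_norm_le s₂ z]
  have hly : 0 ≤ lam * |z.im| := mul_nonneg hlam (abs_nonneg _)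
  have k1 : 1 + lam * (‖z‖ + ‖s₁‖ + ‖s₂‖) ≤ 5 * (1 + lam * |z.im|) := by
    have := mul_le_mul_of_nonneg_left
      (show ‖z‖ + ‖s₁‖ + ‖s₂‖ ≤ 4 * ε + 3 * |z.im| by linarith) hlam
    linarith
  have k2 : (1 + lam * (‖z‖ + ‖s₁‖ + ‖s₂‖)) ^ c ≤ (5 * (1 + lam * |z.im|)) ^ c :=
    pow_le_pow_left₀ (by positivity) k1 c
  have p4 : Ex P (fun p y => ‖mu 1 z s₁ s₂ p y‖) R ≤
      C₂ * T * Real.exp (10 * sg P) * (5 * (1 + lam * |z.im|)) ^ c :=
    p3.trans (mul_le_mul_of_nonneg_left k2 (by positivity))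
  have p5 : ∏ p ∈ P, ‖fp 1 z s₁ s₂ p‖ ≤ Real.exp (-4 * sg P + C₃ * 4) := by
    have q1 : ∏ p ∈ P, ‖fp 1 z s₁ s₂ p‖ ≤ ∏ p ∈ P, Real.exp (-4 / p +
        C₃ * (ε * Real.log p / p + (p : ℝ) ^ (-(3 / 2) : ℝ))) := by
      refine prod_le_prod (fun p _ => norm_nonneg _) fun p hp => ?_
      have hp0 : (0 : ℝ) < p := by exact_mod_cast (hT.op p hp).1.pos
      have hl : Real.log p ≤ lam := (Real.log_le_iff_le_exp hp0).mpr (hT.le p hp)
      have := hF p z (s₁ - z) (s₂ - z) ε (hT.op p hp).1 (hT.op p hp).2 hε1 (by linarith only [h₁, hε])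
        (by linarith only [h₂, hε]) ((mul_le_mul_of_nonneg_left hl hε.le).trans hel)
      rwa [add_sub_cancel, add_sub_cancel] at this
    rw [← Real.exp_sum] at q1
    refine q1.trans (Real.exp_le_exp.mpr ?_)
    have q2 := hL3 P lam (fun p hp => ⟨(hT.op p hp).1, hT.le p hp⟩) hlam
    have q3 := hc_fin32 hPZ P fun p hp => (hT.op p hp).1
    have q4 : ∑ p ∈ P, (-4 / (p : ℝ) + C₃ * (ε * Real.log p / p + (p : ℝ) ^ (-(3 / 2) : ℝ))) =
        -4 * sg P + C₃ * (ε * ∑ p ∈ P, Real.log p / p + ∑ p ∈ P, (p : ℝ) ^ (-(3 / 2) : ℝ)) := by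
      rw [sg, mul_sum, mul_sum, ← sum_add_distrib, mul_sum, ← sum_add_distrib]
      refine sum_congr rfl fun p _ => ?_
      ring
    rw [q4]
    have q5 := mul_le_mul_of_nonneg_left q2 hε.le
    have q6 : ε * ∑ p ∈ P, Real.log p / p + ∑ p ∈ P, (p : ℝ) ^ (-(3 / 2) : ℝ) ≤ 4 := by
      linarith only [q5, q3, hel, hε1]
    linarith only [mul_le_mul_of_nonneg_left q6 hC₃.le]
  have p6 : 0 ≤ Ex P (fun p y => ‖mu 1 z s₁ s₂ p y‖) R := by
    unfold Ex
    exact sum_nonneg fun x _ => mul_nonneg (prod_nonneg fun _ _ => norm_nonneg _) (hT.pos _)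
  have p7 := p2.trans (mul_le_mul p5 p4 p6 (Real.exp_pos _).le)
  have hex : Real.exp (-4 * sg P) * Real.exp (10 * sg P) * Real.exp (-6 * sg P) = 1 := by
    rw [← Real.exp_add, ← Real.exp_add, ← Real.exp_zero]
    congr 1
    ring
  unfold Hh
  rw [norm_mul]
  refine (mul_le_mul p7 p1 (norm_nonneg _) (by positivity)).trans (le_of_eq ?_)
  rw [Real.exp_add, mul_pow 5, pow_add]
  generalize br z.im * (1 + 1 / ‖z‖) = a₁
  generalize 1 + lam * |z.im| = c₁
  linear_combination (Real.exp (C₃ * 4) * (C₂ * 5 ^ c) * C₁ * T * (c₁ ^ c * c₁ ^ 12) * a₁ ^ 6) * hex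

end Pool.Agent.QM
end

-- part Pool.Agent.P.MP_ea46f5_nt.QM.FIZ
section

namespace Pool.Agent.QM

open Complex MeasureTheory Finset
open scoped Real ComplexConjugate

theorem pIZ : IZ :=
  ⟨fun _ hs => Zt.iZ_differentiableAt hs, Zt.iZ_le_sq, fun _ hs => Zt.iZ_hasProd hs⟩

end Pool.Agent.QM
end

-- part Pool.Agent.P.MP_ea46f5_nt.QM.FKR
section

namespace Pool.Agent.QM

open Complex MeasureTheory Finset
open scoped Real ComplexConjugate
open NumberTheorySymbols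

theorem kr_zero (d : ℤ) : kron d 0 = 0 := if_pos rfl

theorem kr_one (d : ℤ) : kron d 1 = 1 := by simp [kron]

theorem kr_mul (d : ℤ) (a b : ℕ) : kron d (a * b) = kron d a * kron d b := by
  rcases eq_or_ne a 0 with rfl | ha
  · rw [zero_mul, kr_zero, zero_mul]
  rcases eq_or_ne b 0 with rfl | hb
  · rw [mul_zero, kr_zero, mul_zero]
  unfold kron
  rw [if_neg ha, if_neg hb, if_neg (mul_ne_zero ha hb),
    ((Nat.perm_primeFactorsList_mul ha hb).map _).prod_eq, List.map_append, List.prod_append]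

theorem kr_prime (d : ℤ) {p : ℕ} (hp : p.Prime) :
    kron d p = if p = 2 then ZMod.χ₈ (d : ZMod 8) else J(d | p) := by
  unfold kron
  rw [if_neg hp.ne_zero, Nat.primeFactorsList_prime hp]
  simp

/-- A completely multiplicative function that agrees with `kron d` at the primes. -/
theorem kr_ext (d : ℤ) (f : ℕ → ℤ) (h0 : f 0 = 0) (h1 : f 1 = 1)
    (hm : ∀ a b, f (a * b) = f a * f b) (hp : ∀ p, p.Prime → kron d p = f p) (n : ℕ) :
    kron d n = f n := by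
  induction n using induction_on_primes with
  | zero => rw [kr_zero, h0]
  | one => rw [kr_one, h1]
  | prime_mul p a h ih => rw [kr_mul, hm, hp p h, ih]

theorem kr_recip {k : ℤ} (h4 : k % 4 = 1) {n : ℕ} (hn : Odd n) : J(k | n) = J(n | k.natAbs) := by
  have hn2 := Nat.odd_iff.1 hn
  rcases Int.natAbs_eq k with h | h
  · have e := jacobiSym.quadratic_reciprocity_one_mod_four (a := k.natAbs) (by omega) hn
    rwa [← h] at e
  · have h3 : k.natAbs % 4 = 3 := by omega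
    have e := jacobiSym.neg (k.natAbs : ℤ) hn
    rw [← h] at e
    rw [e]
    by_cases hn4 : n % 4 = 1
    · rw [ZMod.χ₄_nat_one_mod_four hn4, one_mul,
        jacobiSym.quadratic_reciprocity_one_mod_four' (Nat.odd_iff.2 (by omega)) hn4]
    · have hn3 : n % 4 = 3 := by omega
      rw [ZMod.χ₄_nat_three_mod_four hn3,
        jacobiSym.quadratic_reciprocity_three_mod_four h3 hn3]
      ring

theorem kr_jac {k : ℤ} (h4 : k % 4 = 1) (h1 : k ≠ 1) (n : ℕ) : kron k n = J(n | k.natAbs) := by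
  refine kr_ext k (fun n => J(n | k.natAbs)) ?_ ?_ ?_ ?_ n
  · exact jacobiSym.zero_left (by omega)
  · exact jacobiSym.one_left _
  · intro a b
    rw [Nat.cast_mul, jacobiSym.mul_left]
  · intro p hp
    rw [kr_prime k hp]
    split_ifs with h2
    · subst h2
      rw [Nat.cast_ofNat, jacobiSym.at_two (Nat.odd_iff.2 (by omega)),
        ZMod.χ₈_int_eq_if_mod_eight, ZMod.χ₈_nat_eq_if_mod_eight]
      split_ifs <;> omega
    · exact kr_recip h4 (hp.odd_of_ne_two h2)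

theorem kr_chi (k : ℤ) (n : ℕ) : kron (4 * k) n = chi k n := by
  refine kr_ext (4 * k) (chi k) (chi_zero k) (chi_one k) (chi_mul k) ?_ n
  intro p hp
  rw [kr_prime _ hp]
  split_ifs with h2
  · subst h2
    rw [chi_two, ZMod.χ₈_int_eq_if_mod_eight, if_pos (by omega)]
  · have ho := hp.odd_of_ne_two h2
    rw [chi_odd k ho, jacobiSym.mul_left, jacobiSym.at_four ho, one_mul]

theorem kr_last {k : ℤ} (h0 : k ≠ 0) : chi k (4 * k.natAbs - 1) = (-1) ^ par k := by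
  have ho : Odd (4 * k.natAbs - 1) := Nat.odd_iff.2 (by omega)
  have h3 : (4 * k.natAbs - 1) % 4 = 3 := by omega
  have hpos : ∀ a : ℕ, a ≠ 0 → J(a | 4 * a - 1) = 1 := by
    intro a ha
    have ho : Odd (4 * a - 1) := Nat.odd_iff.2 (by omega)
    have e1 : J(((4 * a : ℕ) : ℤ) | 4 * a - 1) = J(1 | 4 * a - 1) := by
      apply jacobiSym.mod_left'
      have : ((4 * a : ℕ) : ℤ) = 1 + ((4 * a - 1 : ℕ) : ℤ) := by omega
      rw [this, Int.add_emod_right]
    rwa [jacobiSym.one_left, Nat.cast_mul, jacobiSym.mul_left, Nat.cast_ofNat,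
      jacobiSym.at_four ho, one_mul] at e1
  have e := hpos k.natAbs (by omega)
  rw [chi_odd k ho, par]
  split_ifs with h
  · have h1 : (k.natAbs : ℤ) = k := by omega
    rw [h1] at e
    rw [e, pow_zero]
  · have e2 := jacobiSym.neg (k.natAbs : ℤ) ho
    have h1 : -(k.natAbs : ℤ) = k := by omega
    rw [h1, e, ZMod.χ₄_nat_three_mod_four h3] at e2
    rw [e2]
    rfl

theorem pKR : KR := by
  intro k hk h1
  have h0 : k ≠ 0 := hk.ne_zero
  by_cases h4 : k % 4 = 1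
  · have hd : disc k = k := if_pos h4
    have hq : NeZero k.natAbs := ⟨by omega⟩
    have ho : Odd k.natAbs := Nat.odd_iff.2 (by omega)
    rw [hd]
    refine ⟨fun n hn => ?_, ?_, kr_mul k, fun n => ?_, ?_, by omega, fun n hn => ?_, fun n hn => ?_⟩
    · rw [jo_eq, chi_odd k hn, kr_jac h4 h1, kr_recip h4 hn]
    · rw [kr_prime k Nat.prime_two, if_pos rfl, ZMod.χ₈_int_eq_if_mod_eight, gam]
      split_ifs <;> omega
    · rw [kr_jac h4 h1, kr_jac h4 h1]
      apply jacobiSym.mod_left'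
      rw [Nat.cast_add, Int.add_emod_right]
    · have e : J(((k.natAbs - 1 : ℕ) : ℤ) | k.natAbs) = J(-1 | k.natAbs) := by
        apply jacobiSym.mod_left'
        have : ((k.natAbs - 1 : ℕ) : ℤ) = -1 + (k.natAbs : ℤ) := by omega
        rw [this, Int.add_emod_right]
      rw [kr_jac h4 h1, e, jacobiSym.at_neg_one ho, par]
      split_ifs with h
      · rw [ZMod.χ₄_nat_one_mod_four (by omega), pow_zero]
      · rw [ZMod.χ₄_nat_three_mod_four (by omega), pow_one]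
    · rw [kr_jac h4 h1, jacobiSym.eq_zero_iff_not_coprime, Int.gcd_natCast_natCast]
      exact hn
    · rw [kr_jac h4 h1]
      exact jacobiSym.sq_one (by rw [Int.gcd_natCast_natCast]; exact hn)
  · have hd : disc k = 4 * k := if_neg h4
    have hq : (4 * k).natAbs = 4 * k.natAbs := by omega
    rw [hd, hq]
    refine ⟨fun n _ => ?_, ?_, kr_mul _, fun n => ?_, ?_, by omega, fun n hn => ?_, fun n hn => ?_⟩
    · rw [jo_eq, kr_chi]
    · rw [kr_chi, chi_two, gam, if_neg (by omega), if_neg (by omega)]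
    · rw [kr_chi, kr_chi, ← chi_mod, Nat.add_mod_right, chi_mod]
    · rw [kr_chi, kr_last h0]
    · rw [kr_chi, chi_not_coprime k n hn]
    · have ho : Odd n := Nat.coprime_two_right.1 (hn.coprime_dvd_right (by omega))
      rw [kr_chi, chi_odd k ho]
      refine jacobiSym.sq_one ?_
      rw [Int.gcd_eq_natAbs, Int.natAbs_natCast]
      exact (hn.coprime_dvd_right (dvd_mul_left _ _)).symm

end Pool.Agent.QM
end

-- part Pool.Agent.P.MP_ea46f5_nt.QM.FLOB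
section

namespace Pool.Agent.QM

open Complex MeasureTheory Finset
open scoped Real ComplexConjugate

theorem pLOB (hLOP : LOP) : LOB := by
  have _ := hLOP
  exact fun _ _ hk h1 hs => norm_Lo_le hk h1 hs

end Pool.Agent.QM
end

-- part Pool.Agent.P.MP_ea46f5_nt.QM.FLOCb
section

namespace Pool.Agent.QM

open Complex MeasureTheory Finset
open scoped Real ComplexConjugate

theorem loc_sum (f : ℤ → ℂ) : ∑ y ∈ T3, f y = f 0 + f 1 + f (-1) := by
  unfold T3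
  rw [sum_insert (by decide), sum_insert (by decide), sum_singleton]
  ring

theorem loc_zero (k : ℤ) (z s₁ s₂ : ℂ) (p : ℕ) : locv k z s₁ s₂ p 0 = (1 - ek k z p)
    + (ek k z p + ok k z p) * ((1 - xs s₁ p) ^ 2 * (1 - xs s₂ p) ^ 2)⁻¹ / 2
    + (ek k z p - ok k z p) * ((1 + xs s₁ p) ^ 2 * (1 + xs s₂ p) ^ 2)⁻¹ / 2 := by
  unfold locv
  rw [loc_sum]
  simp [mu, Fy, sub_eq_add_neg]

theorem loc_jo {p : ℕ} (hp : p.Prime) (h2 : p ≠ 2) (k : ℤ) : jo k p = (jacobiSym k p : ℂ) := by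
  unfold jo
  rw [if_pos (hp.odd_of_ne_two h2)]

theorem loc_j0 {p : ℕ} (hp : p.Prime) {k : ℤ} (h : (p : ℤ) ∣ k) : jacobiSym k p = 0 := by
  have : NeZero p := ⟨hp.ne_zero⟩
  rw [jacobiSym.eq_zero_iff_not_coprime]
  intro hc
  have h1 : (p : ℤ) ∣ (Int.gcd k p : ℤ) := Int.dvd_coe_gcd h dvd_rfl
  rw [hc] at h1
  have : p ∣ 1 := by exact_mod_cast h1
  exact hp.one_lt.ne' (Nat.dvd_one.1 this)

theorem loc_j1 {p : ℕ} (hp : p.Prime) {k : ℤ} (h : ¬ (p : ℤ) ∣ k) :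
    (jacobiSym k p : ℂ) * (jacobiSym k p : ℂ) = 1 := by
  have hc : Int.gcd k p = 1 := by
    have : Nat.Coprime p k.natAbs := (hp.coprime_iff_not_dvd).2 fun hd => h (Int.natCast_dvd.2 hd)
    rw [Int.gcd_comm]
    simpa [Int.gcd] using this
  have := jacobiSym.sq_one hc
  rw [sq] at this
  exact_mod_cast this

theorem loc_jle (k : ℤ) (p : ℕ) : ‖(jacobiSym k p : ℂ)‖ ≤ 1 := by
  rcases jacobiSym.trichotomy k p with h | h | h <;> simp [h]

theorem loc_xs {p : ℕ} (hp : 0 < p) {s : ℂ} (hs : 0 ≤ s.re) {a : ℝ} (ha : a ≤ 1 / 2) :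
    ‖xs s p‖ ≤ (p : ℝ) ^ (-a) := by
  unfold xs
  refine norm_cp_le hp ?_
  simp
  linarith

theorem loc_mul_le {a b : ℂ} {t : ℝ} (ha : ‖a‖ ≤ 1) (hb : ‖b‖ ≤ t) : ‖a * b‖ ≤ t := by
  rw [norm_mul]
  calc ‖a‖ * ‖b‖ ≤ 1 * ‖b‖ := mul_le_mul_of_nonneg_right ha (norm_nonneg _)
    _ ≤ t := by rw [one_mul]; exact hb

theorem loc_fp_le {p : ℕ} (hp : p.Prime) (h2 : p ≠ 2) (k : ℤ) {z s₁ s₂ : ℂ}
    (a1 : -(11 / 20) < (s₁ - z).re) (a2 : -(11 / 20) < (s₂ - z).re) :
    ‖fp k z s₁ s₂ p‖ ≤ 2 ^ 4 * (10 / 3) ^ 10 := by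
  have h3 := three_le_of hp h2
  have q1 : (p : ℝ) ^ (-(9 / 20) : ℝ) ≤ 7 / 10 := rpow_neg_le h3 (by norm_num)
  have hq : (7 / 10 : ℝ) < 1 := by norm_num
  have e : (1 - 7 / 10 : ℝ)⁻¹ = 10 / 3 := by norm_num
  have b : ∀ s : ℂ, 9 / 20 ≤ s.re → ‖(p : ℂ) ^ (-s)‖ ≤ 7 / 10 := fun s hs =>
    (norm_cp_le hp.pos (by rw [neg_re]; linarith)).trans q1
  have n : ∀ s : ℂ, 9 / 20 ≤ s.re → ‖1 - jo k p * (p : ℂ) ^ (-s)‖ ≤ 2 := by
    intro s hs
    have := loc_mul_le (loc_jle k p) (b s hs)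
    rw [loc_jo hp h2]
    refine (norm_sub_le _ _).trans ?_
    rw [norm_one]
    linarith
  have d : ∀ s : ℂ, 9 / 20 ≤ s.re → ‖(1 - (p : ℂ) ^ (-s))⁻¹‖ ≤ 10 / 3 := fun s hs =>
    e ▸ norm_inv_one_sub_le hq (b s hs)
  simp only [sub_re] at a1 a2
  have n1 := n (1 + (s₁ - z)) (by simp; linarith)
  have n2 := n (1 + (s₂ - z)) (by simp; linarith)
  have d1 := d (2 + 2 * (s₁ - z)) (by simp; linarith)
  have d2 := d (2 + (s₁ - z) + (s₂ - z)) (by simp; linarith)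
  have d3 := d (2 + 2 * (s₂ - z)) (by simp; linarith)
  unfold fp
  rw [div_eq_mul_inv, mul_inv, mul_inv, ← inv_pow, ← inv_pow, ← inv_pow]
  simp only [norm_mul, norm_pow]
  calc _ ≤ (2 : ℝ) ^ 2 * 2 ^ 2 * ((10 / 3) ^ 3 * (10 / 3) ^ 4 * (10 / 3) ^ 3) := by gcongr
    _ = _ := by norm_num

theorem loc_Fy_le {p : ℕ} (hp : p.Prime) (h2 : p ≠ 2) {s₁ s₂ : ℂ} (h1 : 0 ≤ s₁.re)
    (h2' : 0 ≤ s₂.re) {y : ℤ} (hy : ‖(y : ℂ)‖ ≤ 1) : ‖Fy s₁ s₂ p y‖ ≤ (10 / 3) ^ 4 := by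
  have h3 := three_le_of hp h2
  have q1 : (p : ℝ) ^ (-(1 / 2) : ℝ) ≤ 7 / 10 := rpow_neg_le h3 (by norm_num)
  have hq : (7 / 10 : ℝ) < 1 := by norm_num
  have e : (1 - 7 / 10 : ℝ)⁻¹ = 10 / 3 := by norm_num
  have d : ∀ s : ℂ, 0 ≤ s.re → ‖(1 - xs s p * y)⁻¹‖ ≤ 10 / 3 := fun s hs =>
    e ▸ norm_inv_one_sub_le hq (by
      rw [mul_comm]
      exact loc_mul_le hy ((loc_xs hp.pos hs le_rfl).trans q1))
  have d1 := d s₁ h1
  have d2 := d s₂ h2'
  unfold Fy
  rw [one_div, mul_inv, ← inv_pow, ← inv_pow]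
  simp only [norm_mul, norm_pow]
  calc _ ≤ ((10 / 3 : ℝ)) ^ 2 * (10 / 3) ^ 2 := by gcongr
    _ = _ := by norm_num

theorem loc_mu_le {p : ℕ} (hp : p.Prime) (h2 : p ≠ 2) (k : ℤ) {z s₁ s₂ : ℂ} (h1 : 0 ≤ s₁.re)
    (h2' : 0 ≤ s₂.re) (z0 : 0 ≤ z.re) (z7 : z.re ≤ 7) {y : ℤ} (hy0 : y ≠ 0) (hy : ‖(y : ℂ)‖ ≤ 1) :
    ‖mu k z s₁ s₂ p y‖ ≤ 2 * (p : ℝ) ^ 13 * (10 / 3) ^ 4 := by
  have h3 := three_le_of hp h2
  have p1 : (1 : ℝ) ≤ (p : ℝ) ^ 13 := one_le_pow₀ (by linarith)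
  have b : ∀ s : ℂ, s.re ≤ 13 → ‖(p : ℂ) ^ s‖ ≤ (p : ℝ) ^ 13 := fun s hs => by
    have := norm_cp_le hp.pos (a := ((13 : ℕ) : ℝ)) (s := s) (by exact_mod_cast hs)
    rwa [Real.rpow_natCast] at this
  have he : ‖ek k z p‖ ≤ 2 * (p : ℝ) ^ 13 := by
    unfold ek
    split_ifs
    · have := b (2 * z - 1) (by simp; linarith)
      refine (norm_sub_le _ _).trans ?_
      rw [norm_one]
      linarith
    · refine (norm_sub_le _ _).trans ?_
      rw [norm_one, norm_div, norm_one, Complex.norm_natCast]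
      have : 1 / (p : ℝ) ≤ 1 := (div_le_one (by linarith)).2 (by linarith)
      linarith
  have ho : ‖ok k z p‖ ≤ 2 * (p : ℝ) ^ 13 := by
    unfold ok
    have t1 : ‖(p : ℂ) ^ (-(1 / 2 : ℂ))‖ ≤ 1 := by
      have := norm_cp_le hp.pos (a := 0) (s := -(1 / 2 : ℂ)) (by simp)
      rwa [Real.rpow_zero] at this
    refine loc_mul_le (loc_mul_le (loc_jle k p) t1) ((norm_sub_le _ _).trans ?_)
    have := b z (by linarith)
    have := b (-z) (by rw [neg_re]; linarith)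
    linarith
  have hF := loc_Fy_le hp h2 h1 h2' hy
  have hs : ‖ek k z p + y * ok k z p‖ ≤ 4 * (p : ℝ) ^ 13 := by
    have := loc_mul_le hy ho
    refine (norm_add_le _ _).trans ?_
    linarith
  unfold mu
  rw [if_neg hy0, norm_div, norm_mul, Complex.norm_two]
  calc _ ≤ 4 * (p : ℝ) ^ 13 * (10 / 3) ^ 4 / 2 := by gcongr
    _ = _ := by ring

end Pool.Agent.QM
end

-- part Pool.Agent.P.MP_ea46f5_nt.QM.FLOP
section

namespace Pool.Agent.QM

open Complex MeasureTheory Finset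
open scoped Real ComplexConjugate

theorem pLOP (hKR : KR) (hPRI : PRI) : LOP := by
  have _ := And.intro hKR hPRI
  refine ⟨fun k s hk hs => ?_, fun k hk h1 => differentiable_Lo hk h1, fun s hs => ?_⟩
  · rw [Lo_eq_LSeries hk hs, LS, funext (jo_eq k)]
  · rw [Lo_one hs, riemannZeta_eq_inv_sub_mul hs]
    ring

end Pool.Agent.QM
end
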