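import Pool.Agent.P.MP_ea46f5_nt.Q4.T
import Pool.Agent.K.MP_ea46f5_nt.C7
import Pool.Agent.K.MP_ea46f5_nt.C6
import Pool.Agent.K.MP_ea46f5_nt.C1
import Pool.Agent.K.MP_ea46f5_nt.C10

-- part Pool.Agent.P.MP_ea46f5_nt.Q4.FTAY
section

namespace Pool.Agent.Q4

open Complex MeasureTheory Finset Pool.Agent.QM Filter
open scoped Real Topology

/-- One step of the Taylor expansion of an even germ. -/
theorem tay_step {k : ℂ → ℂ} (hk : AnalyticAt ℂ k 0) (he : ∀ᶠ u in 𝓝 (0 : ℂ), k (-u) = k u) :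
    ∃ k₁ : ℂ → ℂ, AnalyticAt ℂ k₁ 0 ∧ (∀ᶠ u in 𝓝 (0 : ℂ), k₁ (-u) = k₁ u) ∧
      ∀ u, k u = k 0 + u ^ 2 * k₁ u := by
  have ds : ∀ f : ℂ → ℂ, AnalyticAt ℂ f 0 → AnalyticAt ℂ (dslope f 0) 0 := fun f ⟨_, hp⟩ =>
    ⟨_, hp.has_fpower_series_dslope_fslope⟩
  have e : ∀ (f : ℂ → ℂ) (u : ℂ), f u = f 0 + u * dslope f 0 u := fun f u => by
    have := sub_smul_dslope f 0 u
    rw [sub_zero, smul_eq_mul] at this
    rw [this]
    ring
  have h0 : dslope k 0 0 = 0 := by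
    have h1 : deriv (fun u => k (-u)) 0 = deriv k 0 := Filter.EventuallyEq.deriv_eq he
    rw [deriv_comp_neg, neg_zero] at h1
    rw [dslope_same]
    linear_combination (-1 / 2 : ℂ) * h1
  have h2 : ∀ u, k u = k 0 + u ^ 2 * dslope (dslope k 0) 0 u := fun u => by
    rw [e k u, e (dslope k 0) u, h0]
    ring
  refine ⟨_, ds _ (ds _ hk), he.mono fun u hu => ?_, h2⟩
  rcases eq_or_ne u 0 with rfl | h
  · rw [neg_zero]
  · rw [h2 u, h2 (-u), neg_sq] at hu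
    exact mul_left_cancel₀ (pow_ne_zero 2 h) (add_left_cancel hu)

theorem tay_gam {w : ℂ} (h : 0 < w.re) : DifferentiableAt ℂ Gammaℝ w := by
  have h1 := (Complex.differentiable_Gammaℝ_inv w).inv (inv_ne_zero (Gammaℝ_ne_zero_of_re_pos h))
  exact h1.congr_of_eventuallyEq (Filter.Eventually.of_forall fun s => (inv_inv _).symm)

theorem tay_Xf (a : ℕ) (u : ℂ) :
    Xf a (1 / 2 + u) = Gammaℝ (1 / 2 + a + -u) / Gammaℝ (1 / 2 + a + u) := by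
  have hp : (π : ℂ) ≠ 0 := by exact_mod_cast Real.pi_ne_zero
  have e1 : (π : ℂ) ^ (-(1 / 2 + a + -u) / 2) =
      (π : ℂ) ^ (1 / 2 + u - 1 / 2) * (π : ℂ) ^ (-(1 / 2 + a + u) / 2) := by
    rw [← cpow_add _ _ hp]
    congr 1
    ring
  have e2 : (π : ℂ) ^ (-(1 / 2 + a + u) / 2) ≠ 0 := by simp
  rw [Xf, Gammaℝ_def, Gammaℝ_def, e1, show (1 - (1 / 2 + u) + a) / 2 = (1 / 2 + a + -u) / 2 by ring,
    show (1 / 2 + u + a) / 2 = (1 / 2 + a + u) / 2 by ring, mul_right_comm,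
    mul_comm (_ ^ (-(1 / 2 + (a : ℂ) + u) / 2)), mul_div_mul_right _ _ e2]

theorem tay_small (a : ℕ) : ∀ᶠ u in 𝓝 (0 : ℂ),
    0 < (1 / 2 + a + u : ℂ).re ∧ 0 < (1 / 2 + a + -u : ℂ).re := by
  have h : (0 : ℝ) < 1 / 2 + a := by positivity
  refine Filter.Eventually.and ?_ ?_
  · exact ContinuousAt.eventually_lt continuousAt_const (by fun_prop) (by simpa using h)
  · exact ContinuousAt.eventually_lt continuousAt_const (by fun_prop) (by simpa using h)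

theorem tay_an (a : ℕ) : AnalyticAt ℂ (fun u : ℂ => Gammaℝ (1 / 2 + a + u)) 0 ∧
    AnalyticAt ℂ (fun u : ℂ => Gammaℝ (1 / 2 + a + -u)) 0 :=
  ⟨analyticAt_iff_eventually_differentiableAt.2 ((tay_small a).mono fun u hu =>
      (tay_gam hu.1).comp u (f := fun u : ℂ => 1 / 2 + a + u) (by fun_prop)),
    analyticAt_iff_eventually_differentiableAt.2 ((tay_small a).mono fun u hu =>
      (tay_gam hu.2).comp u (f := fun u : ℂ => 1 / 2 + a + -u) (by fun_prop))⟩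

theorem tay_Xh (a : ℕ) : AnalyticAt ℂ (Xh a) 0 ∧ Xh a 0 = 1 ∧
    ∀ᶠ u in 𝓝 (0 : ℂ), gr a (-u) / Xh a (-u) = gr a u / Xh a u := by
  have n0 : Gammaℝ (1 / 2 + a + 0) ≠ 0 := Gammaℝ_ne_zero_of_re_pos (tay_small a).self_of_nhds.1
  have hF : AnalyticAt ℂ (fun u : ℂ => Xf a (1 / 2 + u)) 0 := by
    simp only [tay_Xf]
    exact (tay_an a).2.div (tay_an a).1 n0
  have h1 : Xf a (1 / 2 + 0) = 1 := by rw [tay_Xf, neg_zero, div_self n0]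
  have hs : Xf a (1 / 2 + 0) ∈ slitPlane := by rw [h1]; exact one_mem_slitPlane
  refine ⟨hF.cpow analyticAt_const hs, by rw [Xh, h1, one_cpow], ?_⟩
  filter_upwards [tay_small a, hF.continuousAt.eventually (isOpen_slitPlane.mem_nhds hs)]
    with u hu hv
  have m1 := Gammaℝ_ne_zero_of_re_pos hu.1
  have m2 := Gammaℝ_ne_zero_of_re_pos hu.2
  have m3 := slitPlane_ne_zero hv
  have e1 : Xh a (-u) = (Xh a u)⁻¹ := by
    rw [Xh, Xh, ← inv_cpow _ _ (slitPlane_arg_ne_pi hv), tay_Xf, tay_Xf, neg_neg, inv_div]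
  have e2 : Xh a u * Xh a u = Gammaℝ (1 / 2 + a + u) / Gammaℝ (1 / 2 + a + -u) := by
    rw [Xh, ← cpow_add _ _ m3, show (-1 / 2 + -1 / 2 : ℂ) = -1 by norm_num, cpow_neg_one, tay_Xf,
      inv_div]
  have m4 : Xh a u ≠ 0 := fun h => by
    rw [h, mul_zero] at e2
    exact div_ne_zero m1 m2 e2.symm
  rw [e1, div_inv_eq_mul, eq_div_iff m4, mul_assoc, e2, gr, gr]
  generalize Gammaℝ (1 / 2 + a + -u) = x at m2 ⊢
  generalize Gammaℝ (1 / 2 + a + u) = y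
  generalize Gammaℝ (1 / 2 + a) = z
  rw [div_mul_div_comm, mul_comm x, mul_div_mul_right _ _ m2]

theorem pTAY : TAY := by
  intro a _ g hg he h0
  obtain ⟨x1, x2, x3⟩ := tay_Xh a
  have n0 : Gammaℝ (1 / 2 + a) ≠ 0 := by
    simpa using Gammaℝ_ne_zero_of_re_pos (tay_small a).self_of_nhds.1
  set h : ℂ → ℂ := fun u => gr a u / Xh a u * g u with hh
  have h1 : h 0 = 1 := by simp only [hh, x2, h0, gr, add_zero, div_self n0, div_one, mul_one]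
  have ha : AnalyticAt ℂ h 0 :=
    (((tay_an a).1.div analyticAt_const n0).div x1 (by rw [x2]; exact one_ne_zero)).mul
      (hg.analyticAt 0)
  have hn : h 0 ≠ 0 := by rw [h1]; exact one_ne_zero
  obtain ⟨k1, a1, b1, c1⟩ := tay_step (k := fun u => (h u)⁻¹) (ha.inv hn)
    (x3.mono fun u hu => by simp only [hh, hu, he])
  obtain ⟨k2, a2, b2, c2⟩ := tay_step a1 b1
  obtain ⟨k3, a3, b3, c3⟩ := tay_step a2 b2
  obtain ⟨k4, a4, -, c4⟩ := tay_step a3 b3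
  have hx : ∀ᶠ u in 𝓝 (0 : ℂ), Xh a u ≠ 0 :=
    x1.continuousAt.eventually_ne (by rw [x2]; exact one_ne_zero)
  obtain ⟨r, hr, hb⟩ := Metric.nhds_basis_closedBall.eventually_iff.1
    (x1.eventually_analyticAt.and ((ha.mul a4).neg.eventually_analyticAt.and
      (hx.and (ha.continuousAt.eventually_ne hn))))
  refine ⟨r, k1 0, k2 0, k3 0, -(h * k4), hr, fun u hu => ?_⟩
  obtain ⟨d1, d2, d3, d4⟩ := hb (mem_closedBall_zero_iff.2 hu)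
  refine ⟨d1.differentiableAt, d2.differentiableAt, ?_⟩
  have e1 := c1 u
  rw [c2 u, c3 u, c4 u, h1, inv_one] at e1
  have e2 : gr a u * g u = Xh a u * h u := by
    simp only [hh]
    field_simp
  have e3 := mul_inv_cancel₀ d4
  rw [e1] at e3
  rw [e2, Pi.neg_apply, Pi.mul_apply]
  linear_combination Xh a u * e3

theorem tay_KZ4 : Differentiable ℂ KZ4 := by
  have := differentiable_riemannZeta₁
  unfold KZ4 Vd
  fun_prop

theorem pPH0 (hA : A4H) : PH0 := by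
  intro a _
  obtain ⟨r, hr, hb⟩ := Metric.nhds_basis_closedBall.eventually_iff.1
    (tay_Xh a).1.eventually_analyticAt
  refine ⟨min r (1 / 16), by positivity, min_le_right _ _, ?_⟩
  have hU : Pd 4 (min r (1 / 16)) ⊆ {z | ∀ i, -(1 / 8) < (z i).re} := fun z hz i => by
    have := (abs_le.1 ((abs_re_le_norm (z i)).trans ((hz i).trans (min_le_right _ _)))).1
    linarith
  have hP : ∀ z ∈ Pd 4 (min r (1 / 16)),
      DifferentiableAt ℂ (fun z : Fin 4 → ℂ => ∏ j, Xh a (z j)) z := fun z hz => by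
    have h : ∀ j, DifferentiableAt ℂ (fun z : Fin 4 → ℂ => Xh a (z j)) z := fun j =>
      (hb (mem_closedBall_zero_iff.2 ((hz j).trans (min_le_left _ _)))).differentiableAt.comp z
        (f := fun z : Fin 4 → ℂ => z j) (differentiableAt_apply j z)
    simp only [Fin.prod_univ_four]
    exact (((h 0).mul (h 1)).mul (h 2)).mul (h 3)
  have hu : ∀ (G : (Fin 4 → ℂ) → ℂ) (s : Fin 4 → ℂ) (i : Fin 4), DifferentiableAt ℂ G s →
      DifferentiableAt ℂ (fun w => G (Function.update s i w)) (s i) := fun G s i hG =>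
    DifferentiableAt.comp (s i) (g := G) (by rwa [Function.update_eq_self])
      (hasDerivAt_update s i (s i)).differentiableAt
  exact ⟨(tay_KZ4.continuous.continuousOn.mul (hA.1.1.mono hU)).mul
      fun z hz => (hP z hz).continuousAt.continuousWithinAt,
    fun s hs i => ((hu _ s i (tay_KZ4 s)).mul (hA.1.2 s (hU hs) i)).mul (hu _ s i (hP s hs))⟩

end Pool.Agent.Q4
end

-- part Pool.Agent.P.MP_ea46f5_nt.Q4.ZG
section

/-! Zeta and Gamma bounds for the fourth moment. -/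

namespace Pool.Agent.Q4.Zg

open Complex MeasureTheory Set Pool.Agent.QM
open scoped Real

theorem br_one (t : ℝ) : 1 ≤ br t := by rw [br]; linarith [abs_nonneg t]

/-- The entire function `w ζ(1 + w) (1 - 2 ^ (-1 - w))`. -/
noncomputable def lz0 (w : ℂ) : ℂ := (1 - (2 : ℂ) ^ (-(1 + w))) * riemannZeta₁ (1 + w)

theorem lz_diff : Differentiable ℂ lz0 :=
  (Zt.differentiable_two_fac.mul differentiable_riemannZeta₁).comp
    ((differentiable_const 1).add differentiable_id)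

theorem lz_zero : lz0 0 = 1 / 2 := by
  rw [lz0, add_zero, riemannZeta₁_one, cpow_neg_one]; norm_num

theorem two_fac_le {s : ℂ} (hs : 0 ≤ s.re) : ‖1 - (2 : ℂ) ^ (-s)‖ ≤ 2 := by
  have h := Complex.norm_natCast_cpow_of_pos (n := 2) (by norm_num) (-s)
  simp only [Nat.cast_ofNat, neg_re] at h
  have h1 : (2 : ℝ) ^ (-s.re) ≤ 1 :=
    Real.rpow_le_one_of_one_le_of_nonpos (by norm_num) (by linarith)
  refine (norm_sub_le _ _).trans ?_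
  rw [norm_one, h]; linarith

theorem lz_le {w : ℂ} (h0 : -(3 / 4) ≤ w.re) (h1 : w.re ≤ 29) : ‖lz0 w‖ ≤ 240 * br w.im ^ 2 := by
  have h := Zt.zeta1_le (s := w) (by linarith)
  have h2 := Complex.norm_le_abs_re_add_abs_im w
  have h3 : |w.re| ≤ 29 := by rw [abs_le]; constructor <;> linarith
  have ht := abs_nonneg w.im
  have h4 : 1 + ‖w‖ ≤ 30 * (1 + |w.im|) := by linarith
  have h5 := two_fac_le (s := 1 + w) (by simp; linarith)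
  rw [lz0, norm_mul]
  calc _ ≤ 2 * (4 * (1 + |w.im|) * (30 * (1 + |w.im|))) := by
        refine mul_le_mul h5 (h.trans ?_) (norm_nonneg _) (by norm_num)
        gcongr
    _ = _ := by rw [br]; ring

theorem lz_ne {w : ℂ} (h : 0 ≤ w.re) : lz0 w ≠ 0 :=
  mul_ne_zero (Zt.two_fac_ne (by simpa using h)) (Zt.zeta1_ne (by simpa using h))

theorem iz_eq (w : ℂ) : iz (1 + w) = w / lz0 w := by
  rw [iz, lz0, add_sub_cancel_left]

theorem inv_lz_le : ∃ C : ℝ, 0 < C ∧ ∀ w : ℂ, 0 ≤ w.re → ‖(lz0 w)⁻¹‖ ≤ C * br w.im := by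
  obtain ⟨C, hC, h⟩ := Zt.iZ_le
  have hK : IsCompact (Metric.closedBall (0 : ℂ) 1 ∩ {w | 0 ≤ w.re}) :=
    (isCompact_closedBall _ _).inter_right (isClosed_le continuous_const Complex.continuous_re)
  obtain ⟨D, hD⟩ := hK.exists_bound_of_continuousOn (f := fun w => (lz0 w)⁻¹)
    (lz_diff.continuous.continuousOn.inv₀ fun w hw => lz_ne hw.2)
  refine ⟨C + |D|, by positivity, fun w hw => ?_⟩
  have hb := br_one w.im
  have hD0 := abs_nonneg D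
  rcases le_total ‖w‖ 1 with h1 | h1
  · have := hD w ⟨by simpa using h1, hw⟩
    nlinarith [le_abs_self D]
  · have h2 := h (1 + w) (by simpa using hw)
    have e : Zt.iZ (1 + w) = w / lz0 w := iz_eq w
    rw [e, div_eq_mul_inv, norm_mul] at h2
    have e2 : 1 + |(1 + w).im| = br w.im := by simp [br]
    rw [e2] at h2
    nlinarith [norm_nonneg (lz0 w)⁻¹]

theorem iz_le_min : ∃ C : ℝ, 0 < C ∧ ∀ w : ℂ, 0 ≤ w.re →
    ‖iz (1 + w)‖ ≤ C * min 1 ‖w‖ * br w.im := by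
  obtain ⟨C, hC, h⟩ := Zt.iZ_le
  obtain ⟨D, hD, h'⟩ := inv_lz_le
  refine ⟨C + D, by positivity, fun w hw => ?_⟩
  have hb := br_one w.im
  rcases le_total ‖w‖ 1 with h1 | h1
  · rw [min_eq_right h1, iz_eq, div_eq_mul_inv, norm_mul]
    have := mul_le_mul_of_nonneg_left (h' w hw) (norm_nonneg w)
    have h3 : 0 ≤ C * ‖w‖ * br w.im := by positivity
    nlinarith
  · have h2 := h (1 + w) (by simpa using hw)
    have e2 : 1 + |(1 + w).im| = br w.im := by simp [br]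
    rw [e2] at h2
    rw [min_eq_left h1]
    refine le_trans h2 ?_
    nlinarith

theorem lz_near : ∃ r : ℝ, 0 < r ∧ ∀ w : ℂ, ‖w‖ ≤ r → 1 / 4 ≤ ‖lz0 w‖ := by
  have h := Metric.continuousAt_iff.1 (lz_diff.continuous.continuousAt (x := 0)) (1 / 4)
    (by norm_num)
  obtain ⟨δ, hδ, h⟩ := h
  refine ⟨δ / 2, by positivity, fun w hw => ?_⟩
  have h1 := h (x := w) (by rw [dist_zero_right]; linarith)
  rw [lz_zero, dist_eq_norm] at h1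
  have h2 := norm_sub_norm_le (1 / 2 : ℂ) (lz0 w)
  rw [norm_sub_rev] at h2
  have h3 : ‖(1 / 2 : ℂ)‖ = 1 / 2 := by simp
  linarith

theorem norm_cos_le_exp (z : ℂ) : ‖Complex.cos z‖ ≤ Real.exp |z.im| := by
  have h := Gm.norm_sin_le_exp (z + π / 2)
  rw [Complex.sin_add_pi_div_two] at h
  simpa using h

/-- The zeta function to the left of the critical line. -/
theorem zeta_left : ∃ C : ℝ, 0 < C ∧ ∀ s : ℂ, -1 ≤ s.re → s.re ≤ 1 / 2 →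
    ‖riemannZeta s‖ ≤ C * br s.im ^ 5 := by
  obtain ⟨D, hD⟩ := (isCompact_closedBall (0 : ℂ) (1 / 2)).exists_bound_of_continuousOn
    (f := riemannZeta) fun s hs => (differentiableAt_riemannZeta (by
      rintro rfl; norm_num at hs)).continuousAt.continuousWithinAt
  refine ⟨2 * (24 * (2 + 2).factorial) * 12 + |D|, by positivity, fun s h0 h1 => ?_⟩
  have hb := br_one s.im
  have hb5 : 1 ≤ br s.im ^ 5 := one_le_pow₀ hb
  have hD0 := abs_nonneg D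
  rcases le_total ‖s‖ (1 / 2) with h2 | h2
  · have := hD s (by simpa using h2)
    have h3 : (0 : ℝ) ≤ 2 * (24 * (2 + 2).factorial) * 12 := by positivity
    nlinarith [le_abs_self D]
  · have hs0 : s ≠ 0 := by rintro rfl; norm_num at h2
    have hre : (1 - s).re = 1 - s.re := by simp
    have him : |(1 - s).im| = |s.im| := by simp
    have e := riemannZeta_one_sub (s := 1 - s) (fun n hn => by
      have := congrArg Complex.re hn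
      simp at this
      linarith [n.cast_nonneg (α := ℝ)]) (by simpa using hs0)
    rw [sub_sub_cancel] at e
    have g1 := Gm.gam_upper 2 (z := 1 - s) (by rw [hre]; linarith) (by rw [hre]; push_cast; linarith)
    have g2 := norm_cos_le_exp (π * (1 - s) / 2)
    have e2 : |(π * (1 - s) / 2 : ℂ).im| = π * |s.im| / 2 := by
      simp [abs_div, abs_mul, abs_of_pos Real.pi_pos]
    have g3 := Zt.z1a (s := -s) (by simp; linarith) (neg_ne_zero.2 hs0)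
    have e3 : |(-s).im| = |s.im| := by simp
    rw [← sub_eq_add_neg, e3, norm_neg] at g3
    have g4 : 1 / ‖s‖ ≤ 2 := by rw [div_le_iff₀ (by linarith)]; linarith
    have g5 : ‖riemannZeta (1 - s)‖ ≤ 12 * br s.im := by
      refine g3.trans ?_
      rw [br]; nlinarith [abs_nonneg s.im]
    have g6 : ‖((2 * π : ℂ)) ^ (-(1 - s))‖ ≤ 1 := by
      have : (2 * π : ℂ) = ((2 * π : ℝ) : ℂ) := by push_cast; rfl
      rw [this, Complex.norm_cpow_eq_rpow_re_of_pos (by positivity)]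
      exact Real.rpow_le_one_of_one_le_of_nonpos (by linarith [Real.pi_gt_three])
        (by simp; linarith)
    rw [him] at g1
    rw [e2] at g2
    have e4 : Real.exp (-π * |s.im| / 2) * Real.exp (π * |s.im| / 2) = 1 := by
      rw [← Real.exp_add]; simp; ring
    rw [e, norm_mul, norm_mul, norm_mul, norm_mul, Complex.norm_two]
    calc _ ≤ 2 * 1 * (24 * (2 + 2).factorial * (1 + |s.im|) ^ (2 + 2) * Real.exp (-π * |s.im| / 2)) *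
          Real.exp (π * |s.im| / 2) * (12 * br s.im) := by gcongr
      _ = 2 * (24 * (2 + 2).factorial) * 12 * br s.im ^ 5 *
          (Real.exp (-π * |s.im| / 2) * Real.exp (π * |s.im| / 2)) := by rw [br]; ring
      _ ≤ _ := by rw [e4]; nlinarith

theorem kz2 (n : ℕ) : ∃ C : ℝ, 0 < C ∧ ∀ z : ℂ, 0 < z.re → z.re ≤ 1 / 4 →
    ‖z * Gammaℝ z * riemannZeta (2 * z)‖ ≤ C / br z.im ^ n := by
  obtain ⟨C, hC, h⟩ := Gm.gamma1 (n + 5)
  obtain ⟨D, hD, h'⟩ := zeta_left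
  refine ⟨C * (D * 2 ^ 5), by positivity, fun z h0 h1 => ?_⟩
  have hb := br_one z.im
  have hn : 0 < ‖z‖ := h0.trans_le (Complex.re_le_norm z)
  have h2 := h z h0 (by linarith)
  have h3 := h' (2 * z) (by simp; linarith) (by simp; linarith)
  have h4 : br (2 * z).im ≤ 2 * br z.im := by
    simp [br, abs_mul]; linarith
  have h5 : ‖riemannZeta (2 * z)‖ ≤ D * (2 * br z.im) ^ 5 :=
    h3.trans (by have := dec_pos (2 * z).im; gcongr)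
  rw [norm_mul, norm_mul]
  calc _ ≤ ‖z‖ * (C / ‖z‖ / (1 + |z.im|) ^ (n + 5)) * (D * (2 * br z.im) ^ 5) := by gcongr
    _ = _ := by
      rw [← br, pow_add]
      field_simp

theorem inv_gam_le (N : ℕ) {z : ℂ} (h0 : 1 - N ≤ z.re) (h1 : z.re ≤ 7 / 8) :
    ‖(Gamma z)⁻¹‖ ≤
      24 * (N + 2).factorial * (1 + |z.im|) ^ (N + 2) * Real.exp (π * |z.im| / 2) := by
  by_cases hz : Gamma z = 0
  · rw [hz, inv_zero, norm_zero]; positivity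
  have h := Complex.Gamma_mul_Gamma_one_sub z
  have hre : (1 - z).re = 1 - z.re := by simp
  have him : |(1 - z).im| = |z.im| := by simp
  have hz' : Gamma (1 - z) ≠ 0 := Complex.Gamma_ne_zero_of_re_pos (by rw [hre]; linarith)
  have hp : (π : ℂ) ≠ 0 := ofReal_ne_zero.2 Real.pi_ne_zero
  have hs : Complex.sin (π * z) ≠ 0 := fun e => by
    rw [e, div_zero] at h
    exact mul_ne_zero hz hz' h
  have e : (Gamma z)⁻¹ = Gamma (1 - z) * Complex.sin (π * z) / π := by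
    rw [eq_div_iff hs] at h
    rw [eq_div_iff hp, inv_mul_eq_iff_eq_mul₀ hz, ← mul_assoc]
    exact h.symm
  have g1 := Gm.gam_upper N (z := 1 - z) (by rw [hre]; linarith) (by rw [hre]; linarith)
  have g2 := Gm.norm_sin_le_exp (π * z)
  have e2 : |(π * z : ℂ).im| = π * |z.im| := by simp [abs_mul, abs_of_pos Real.pi_pos]
  rw [him] at g1
  rw [e2] at g2
  have e4 : Real.exp (-π * |z.im| / 2) * Real.exp (π * |z.im|) = Real.exp (π * |z.im| / 2) := by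
    rw [← Real.exp_add]; congr 1; ring
  rw [e, norm_div, norm_mul, Complex.norm_real, Real.norm_of_nonneg Real.pi_pos.le]
  refine (div_le_self (by positivity) (by linarith [Real.pi_gt_three])).trans ?_
  rw [← e4, ← mul_assoc]
  gcongr

theorem inv_gamR_le (N : ℕ) {w : ℂ} (h0 : 2 - 2 * N ≤ w.re) (h1 : w.re ≤ 7 / 4) :
    ‖(Gammaℝ w)⁻¹‖ ≤
      96 * (N + 2).factorial * (1 + |w.im|) ^ (N + 2) * Real.exp (π * |w.im| / 4) := by
  have h := inv_gam_le N (z := w / 2) (by simp; linarith) (by simp; linarith)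
  have e : |(w / 2).im| = |w.im| / 2 := by simp [abs_div]
  rw [e] at h
  have h2 : (π ^ (-w.re / 2))⁻¹ ≤ 4 := by
    rw [← Real.rpow_neg Real.pi_pos.le]
    calc _ ≤ π ^ (1 : ℝ) :=
          Real.rpow_le_rpow_of_exponent_le (by linarith [Real.pi_gt_three]) (by linarith)
      _ ≤ 4 := by rw [Real.rpow_one]; exact Real.pi_le_four
  rw [norm_inv, Gm.norm_GammaR, mul_inv, ← norm_inv]
  have ht := abs_nonneg w.im
  calc _ ≤ 4 * (24 * (N + 2).factorial * (1 + |w.im| / 2) ^ (N + 2) *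
        Real.exp (π * (|w.im| / 2) / 2)) := by gcongr
    _ ≤ 4 * (24 * (N + 2).factorial * (1 + |w.im|) ^ (N + 2) *
        Real.exp (π * (|w.im| / 2) / 2)) := by gcongr; linarith
    _ = _ := by rw [show π * (|w.im| / 2) / 2 = π * |w.im| / 4 by ring]; ring

theorem gamR_diff {w : ℂ} (h : 0 < w.re) : DifferentiableAt ℂ Gammaℝ w := by
  have h1 := (Complex.differentiable_Gammaℝ_inv w).inv (inv_ne_zero (Gammaℝ_ne_zero_of_re_pos h))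
  exact h1.congr_of_eventuallyEq (Filter.Eventually.of_forall fun s => (inv_inv _).symm)

theorem xi_diff (a : ℕ) {u : ℂ} (h : -(1 / 2) < u.re) :
    DifferentiableAt ℂ (fun u => Gammaℝ (1 / 2 + a + u) / Gammaℝ (1 / 2 + a - u)) u := by
  have h1 : DifferentiableAt ℂ (fun u => Gammaℝ (1 / 2 + a + u)) u :=
    (gamR_diff (by simp; linarith [a.cast_nonneg (α := ℝ)])).comp u
      ((differentiableAt_const _).add differentiableAt_id)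
  have h2 : DifferentiableAt ℂ (fun u => (Gammaℝ (1 / 2 + a - u))⁻¹) u :=
    (Complex.differentiable_Gammaℝ_inv _).comp u
      ((differentiableAt_const _).sub differentiableAt_id)
  exact (h1.mul h2).congr_of_eventuallyEq (Filter.Eventually.of_forall fun s => div_eq_mul_inv _ _)

theorem xi_le : ∃ C : ℝ, 0 < C ∧ ∀ (a : ℕ) (u : ℂ), a ≤ 1 → -(1 / 4) ≤ u.re → u.re ≤ 3 →
    ‖Gammaℝ (1 / 2 + a + u) / Gammaℝ (1 / 2 + a - u)‖ ≤ C * br u.im ^ 10 := by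
  refine ⟨24 * (3 + 2).factorial * (96 * (3 + 2).factorial), by positivity,
    fun a u ha h0 h1 => ?_⟩
  have ha0 := a.cast_nonneg (α := ℝ)
  have ha1 : (a : ℝ) ≤ 1 := by exact_mod_cast ha
  have g1 := Gm.gamR_upper 3 (w := 1 / 2 + a + u) (by simp; linarith) (by simp; linarith)
  have g2 := inv_gamR_le 3 (w := 1 / 2 + a - u) (by simp; linarith) (by simp; linarith)
  have e1 : |(1 / 2 + a + u : ℂ).im| = |u.im| := by simp
  have e2 : |(1 / 2 + a - u : ℂ).im| = |u.im| := by simp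
  rw [e1] at g1
  rw [e2] at g2
  have e4 : Real.exp (-π * |u.im| / 4) * Real.exp (π * |u.im| / 4) = 1 := by
    rw [← Real.exp_add]; simp; ring
  rw [div_eq_mul_inv, norm_mul]
  refine (mul_le_mul g1 g2 (norm_nonneg _) (by positivity)).trans (le_of_eq ?_)
  rw [br]
  linear_combination (24 * (3 + 2).factorial * (96 * (3 + 2).factorial) * (1 + |u.im|) ^ 10) * e4

end Pool.Agent.Q4.Zg
end

-- part Pool.Agent.P.MP_ea46f5_nt.Q4.D4
section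

/-! Definitions for the core (paper: MP_ea46f5_nt_paper_h35.md). -/

namespace Pool.Agent.Q4

open Complex MeasureTheory Finset Pool.Agent.QM
open scoped Real ComplexConjugate

noncomputable section

abbrev V4 : Type := Fin 4 → ℂ

abbrev R4 : Type := Fin 4 → ℝ

def cs (c : ℝ) : R4 := fun _ => c

/-- Jointly complex differentiable at every point of `U`. -/
def Hol {E : Type} [NormedAddCommGroup E] [NormedSpace ℂ E] (U : Set E) (G : E → ℂ) : Prop :=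
  ∀ x ∈ U, DifferentiableAt ℂ G x

def Bx (a b : ℝ) : Set V4 := Box (cs a) (cs b)

def dn (n : ℕ) (s : V4) : ℝ := ∏ i, 1 / br (s i).im ^ n

def gn (n : ℕ) (s : V4) : ℝ := ∏ i, br (s i).im ^ n

def IL (c : R4) (G : V4 → ℂ) : Prop := Integrable fun t : R4 => G (pt c t)

def Lc (c : ℝ) (f : ℂ → ℂ) : Prop := Integrable fun t : ℝ => f (c + t * I)

def lz (w : ℂ) : ℂ := (1 - (2 : ℂ) ^ (-(1 + w))) * riemannZeta₁ (1 + w)

def xi (a : ℕ) (u : ℂ) : ℂ := Gammaℝ (1 / 2 + a + u) * (Gammaℝ (1 / 2 + a - u))⁻¹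

def th8 (z : ℂ) : ℂ := cexp (-z) * ∑ j ∈ range 8, z ^ j / (j.factorial : ℂ)

def rho (η : ℝ) (v : ℂ) : ℂ := cexp (η ^ 2 * v ^ 2) / v

def phi (η x : ℝ) : ℝ :=
  1 / (2 * η * √π) * ∫ s in Set.Ioi (0 : ℝ), Real.exp (-(Real.log x + s) ^ 2 / (4 * η ^ 2))

/-! Euler products -/

def C4 (u : V4) : ArithmeticFunction ℂ := ∏ j, po (u j)

def LL (m : ℤ) (u : V4) : ℂ := ∏ j, LS m (1 / 2 + u j)

def AY (Y : ℕ) : Finset ℕ := (Icc 1 Y).filter Odd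

def cY (Y : ℕ) (z : ℂ) (n : ℕ) : ℂ :=
  ∑ a ∈ (AY Y).filter (fun a => a.Coprime n),
    (ArithmeticFunction.moebius a : ℂ) * (a : ℂ) ^ (2 * z - 2)

def sY (Y : ℕ) (m : ℤ) : ℤ :=
  ∑ a ∈ (AY Y).filter (fun a : ℕ => (a : ℤ) ^ 2 ∣ m), ArithmeticFunction.moebius a

def ZY (Y : ℕ) (k : ℤ) (z : ℂ) (u : V4) : ℂ := ∑' n : ℕ, C4 u n * (cY Y z n * Tk k z n)

def Fq (u : V4) (p : ℕ) (y : ℂ) : ℂ := ∏ j, (1 - y * xs (u j) p)⁻¹

def loc4 (k : ℤ) (z : ℂ) (u : V4) (p : ℕ) : ℂ :=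
  1 - ek k z p + (ek k z p + ok k z p) / 2 * Fq u p 1 + (ek k z p - ok k z p) / 2 * Fq u p (-1)

def fk (k : ℤ) (z : ℂ) (u : V4) (p : ℕ) : ℂ :=
  (∏ j, (1 - jo k p * (p : ℂ) ^ (-(1 + (u j - z))))) /
    ∏ i, ∏ j ∈ Ici i, (1 - (p : ℂ) ^ (-(2 + (u i - z) + (u j - z))))

def n1 (z : ℂ) (u : V4) (p : ℕ) : ℂ :=
  (∏ j, (1 - (p : ℂ) ^ (-(1 + (u j - z))))) *
    (∏ i, ∏ j ∈ Ici i, (1 - (p : ℂ) ^ (-(1 + u i + u j)))) / ∏ j, (1 - (p : ℂ) ^ (-(1 + u j + z)))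

def HP (y F : ℕ → ℂ) (a : ℕ) : ℂ :=
  (∏ p ∈ a.primeFactors, F p) *
    ∏' p : Nat.Primes, if (p : ℕ) = 2 ∨ (p : ℕ) ∣ a then 1 else y p

def HY (Y : ℕ) (z : ℂ) (y F : ℕ → ℂ) : ℂ :=
  ∑ a ∈ AY Y, (ArithmeticFunction.moebius a : ℂ) * (a : ℂ) ^ (2 * z - 2) * HP y F a

def Hk (Y : ℕ) (k : ℤ) (z : ℂ) (u : V4) : ℂ :=
  HY Y z (fun p => loc4 k z u p * fk k z u p) (fk k z u)

def Hone (Y : ℕ) (z : ℂ) (u : V4) : ℂ := HY Y z (fun p => loc4 1 z u p * n1 z u p) (n1 z u)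

def HJ (y F : ℕ → ℂ) : ℂ :=
  ∏' p : Nat.Primes, if (p : ℕ) = 2 then 1 else y p - F p / ((p : ℕ) : ℂ) ^ 2

def HI (u : V4) : ℂ := HJ (fun p => loc4 1 0 u p * n1 0 u p) (n1 0 u)

def Vk : Set (ℂ × V4) :=
  {x | 1 / 2 < x.1.re ∧ x.1.re < 7 ∧ ∀ j, 1 / 6 < (x.2 j).re ∧ -(11 / 20) < (x.2 j - x.1).re}

def V1 : Set (ℂ × V4) :=
  {x | -(1 / 40) < x.1.re ∧ x.1.re < 7 ∧
    ∀ j, -(1 / 40) < (x.2 j).re ∧ -(9 / 20) < (x.2 j - x.1).re}

def sh (z : ℂ) (s : V4) : V4 := fun j => z - 1 / 2 + s j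

def IZ4 (s : V4) : ℂ := ∏ i, ∏ j ∈ Ici i, iz (1 + s i + s j)

def ZO (u : V4) : ℂ := ∏ i, ∏ j ∈ Ici i, Lo 1 (1 + u i + u j)

def ZR (z : ℂ) (u : V4) : ℂ := ZO u * ∏ j, iz (1 + u j + z)

def ZX (i : Fin 4) (u : V4) : ℂ :=
  ∏ j ∈ univ.erase i, ∏ l ∈ (Ici j).erase i, Lo 1 (1 + u j + u l)

def FZ (i : Fin 4) (u : V4) : ℂ := (∏ j ∈ univ.erase i, Lo 1 (1 + (u j - u i))) * ZX i u

/-! Expansion -/

/-- Admissible abscissae. -/
def SG (σ : ℤ → ℝ) : Prop :=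
  (∀ κ, 1 / 2 < σ κ ∧ σ κ ≤ 6) ∧ ∃ K : ℝ, ∀ κ : ℤ, K < |(κ : ℝ)| → σ κ = 6

def s1 (K : ℝ) (κ : ℤ) : ℝ := if κ = 1 then 3 / 4 else sk K κ

/-- A Poisson formula with parameters `u` on the lines of abscissa 12. -/
structure PoD (Y : ℕ) (a : ℤ → V4 → ℂ) (c0 : V4 → ℂ) (K : ℤ → ℂ → V4 → ℂ) (σ : ℤ → ℝ) : Prop where
  sg : ∀ κ, 1 / 2 < σ κ ∧ σ κ ≤ 6
  id : ∀ (t : R4) (n : ℕ), Odd n → HasSum
    (fun κ : SF => 1 / (2 * π) * Iv (σ κ) fun z => K κ z (pt (cs 12) t) * (cY Y z n * Tk κ z n))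
    ((∑' m : ℤ, a m (pt (cs 12) t) * (jacobiSym m n : ℂ)) -
      c0 (pt (cs 12) t) * (cY Y 0 n * Tk 1 0 n))
  ca : ∀ m, Continuous fun t : R4 => a m (pt (cs 12) t)
  ba : ∃ A : ℤ → ℝ, Summable A ∧ ∀ m t, ‖a m (pt (cs 12) t)‖ ≤ A m * dk (pt (cs 12) t)
  cc : Continuous fun t : R4 => c0 (pt (cs 12) t)
  bc : ∃ M : ℝ, ∀ t, ‖c0 (pt (cs 12) t)‖ ≤ M * dk (pt (cs 12) t)
  cK : ∀ κ : SF, Continuous fun x : ℝ × R4 => K κ (σ κ + x.1 * I) (pt (cs 12) x.2)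
  bK : ∃ B : SF → ℝ, Summable B ∧ ∀ (κ : SF) (y : ℝ) (t : R4),
    ‖K κ (σ κ + y * I) (pt (cs 12) t)‖ ≤ B κ / br y ^ 2 * dk (pt (cs 12) t)

def Yk (Y : ℕ) (K : ℤ → ℂ → V4 → ℂ) (σ : ℝ) (κ : ℤ) : ℂ :=
  1 / (2 * π) * Iv σ fun z => In (cs 12) fun u => K κ z u * ZY Y κ z u

def KG (X : ℝ) (W : V4 → ℂ) (κ : ℤ) (z : ℂ) (u : V4) : ℂ := X * Kz κ X z * W u

def KP (E : ℤ → ℂ → ℂ) (Ω : ℂ → V4 → ℂ) (κ : ℤ) (z : ℂ) (u : V4) : ℂ := Ω (1 - z) u * Kd E κ z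

open Classical in
def ac (τ r : ℤ) (Y : ℕ) (Ω : ℂ → V4 → ℂ) (m : ℤ) (u : V4) : ℂ :=
  if Cl τ r m then (sY Y m : ℂ) *
    (1 / (2 * π) * Iv 2 fun w => Ω w u * ((|(m : ℝ)| : ℝ) : ℂ) ^ (-w)) else 0

def OmE (Ω : ℂ → V4 → ℂ) (M : ℝ) : Prop := ∀ w ∈ Strip (-5) 2, ∀ t : R4,
  DifferentiableAt ℂ (fun x : ℂ × V4 => Ω x.1 x.2) (w, pt (cs 12) t) ∧
    ‖Ω w (pt (cs 12) t)‖ ≤ M / br w.im ^ 14 * dk (pt (cs 12) t)

/-! The term `k = 1` -/

def R1 (ε : ℝ) : Set (ℂ × V4) := {x | x.1 ∈ Strip (ε / 2) (3 / 4) ∧ x.2 ∈ Bx ε 12}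

structure KC (n : ℕ) (Kr H : ℂ → V4 → ℂ) (ε X V M : ℝ) : Prop where
  e0 : 0 < ε
  e1 : ε ≤ 1 / 100
  X1 : 1 ≤ X
  eX : ε * Real.log X ≤ 1
  hol : Hol (R1 ε) fun x => Kr x.1 x.2
  bd : ∀ x ∈ R1 ε, ‖Kr x.1 x.2‖ ≤
    V * X ^ (1 - x.1.re + ∑ j, (x.2 j).re) / br x.1.im ^ n * dn n x.2
  hH : Hol V1 fun x => H x.1 x.2
  bH : ∀ x ∈ V1, ‖H x.1 x.2‖ ≤ M

def hf (u : V4) : ℂ := ∏ j, (u j - 1 / 2)

def G1 (Kr H : ℂ → V4 → ℂ) (z : ℂ) (u : V4) : ℂ :=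
  Kr z u * hf u * (∏ j, Lo 1 (1 + (u j - z))) * ZR z u * H z u

def rl (ε : ℝ) : R4 := fun j => ((j : ℕ) + 1) * ε

def Fl (Kr H : ℂ → V4 → ℂ) (i : Fin 4) (u : V4) : ℂ :=
  Kr (u i) u * hf u / (u i - 1 / 2) * FZ i u * H (u i) u / 2

/-- The integral over `z` of the term `k = 1`. -/
def Y1 (Kr H : ℂ → V4 → ℂ) (σ : ℝ) (c : R4) : ℂ :=
  Iv σ fun z => In c (G1 Kr H z) / (z - 1 / 2)

/-! The exact part -/

structure GC (g : ℂ → ℂ) (C : ℝ) : Prop where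
  hol : ∀ u : ℂ, -(1 / 2) < u.re → DifferentiableAt ℂ g u
  bd : ∀ u ∈ Strip (-(1 / 4)) 13, ‖g u‖ ≤ C * Real.exp (-(3 / 4) * u.im ^ 2)

/-- `gg a c u = (u ^ 2 - 1 / 4) * g1 a c u`. -/
def g1 (a : ℕ) (c : Fin 3 → ℂ) (u : ℂ) : ℂ :=
  -4 * gr a u * cexp (u ^ 2) * (1 + c 0 * u ^ 2 + c 1 * u ^ 4 + c 2 * u ^ 6)

def wr (g : ℂ → ℂ) (γ : ℤ) (u : ℂ) : ℂ :=
  (u + 1 / 2) * g u / (u ^ 7 * (1 - γ * (2 : ℂ) ^ (-(1 / 2 + u))))

def Wr (g : ℂ → ℂ) (γ : ℤ) (u : V4) : ℂ := Vd (fun j => u j ^ 2) ^ 2 * ∏ j, wr g γ (u j)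

def W4 (g : ℂ → ℂ) (γ : ℤ) (u : V4) : ℂ := Wr g γ u * hf u

def cF (Δ : ℝ) (u : V4) : ℂ := ∏ j, (1 - th8 (u j * Δ))

def Tm (g : ℂ → ℂ) (γ : ℤ) (Δ q : ℝ) (m : ℤ) : ℂ :=
  In (cs 12) fun u => W4 g γ u * (1 - cF Δ u) * (q : ℂ) ^ us u * LL m u

def Fm (g : ℂ → ℂ) (γ : ℤ) (Δ q : ℝ) (m : ℤ) : ℂ :=
  In (cs 12) fun u => W4 g γ u * cF Δ u * (q : ℂ) ^ us u * LL m u

def Ow (g : ℂ → ℂ) (γ : ℤ) (c Δ η X : ℝ) (w : ℂ) (u : V4) : ℂ :=
  rho η (w + us u) * (X : ℂ) ^ (w + us u) * (c : ℂ) ^ (-w) * (Wr g γ u * (1 - cF Δ u))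

/-- `Ow` without the factor `Vd ^ 2`. -/
def O0 (g : ℂ → ℂ) (γ : ℤ) (c Δ η X : ℝ) (w : ℂ) (u : V4) : ℂ :=
  rho η (w + us u) * (X : ℂ) ^ (w + us u) * (c : ℂ) ^ (-w) * ((∏ j, wr g γ (u j)) * (1 - cF Δ u))

def Om (g : ℂ → ℂ) (γ : ℤ) (c Δ η X : ℝ) (w : ℂ) (u : V4) : ℂ := Ow g γ c Δ η X w u * hf u

/-- The main term of one class, up to the factor `1 / (8 c)`. -/
def MC (g : ℂ → ℂ) (γ : ℤ) (ε X : ℝ) : ℂ :=
  In (cs ε) fun u => (X : ℂ) ^ (1 + us u) / (1 + us u) * (W4 g γ u * ZO u * HI u)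

/-- The range of the parameters. -/
structure Pm (γ : ℤ) (c Δ η X : ℝ) (Y : ℕ) : Prop where
  hγ : γ ∈ T3
  c1 : 1 ≤ c
  c4 : c ≤ 4
  D1 : 1 ≤ Δ
  h0 : 0 < η
  h1 : η ≤ 1 / 30
  X1 : 1 ≤ X
  XL : 100 ≤ Real.log X
  Y1 : 1 ≤ Y

open Classical in
/-- The sieved term of the exact part. -/
def ta (τ r : ℤ) (g : ℂ → ℂ) (Δ η X : ℝ) (Y : ℕ) (m : ℤ) : ℂ :=
  if Cl τ r m then (sY Y m : ℂ) * (phi η (cq r * |(m : ℝ)| / X) : ℂ) *
    Tm g (gam r) Δ (cq r * |(m : ℝ)|) m else 0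

open Classical in
def tb (τ r : ℤ) (g : ℂ → ℂ) (Δ η X : ℝ) (k : SF) : ℂ :=
  if (k : ℤ) ≠ 1 ∧ Cl τ r k then (phi η (qk k / X) : ℂ) * Tm g (gam k) Δ (qk k) k else 0

def sm (a : ℕ) (η X : ℝ) (k : SF) : ℂ :=
  if (k : ℤ) ≠ 1 ∧ par k = a then (phi η (qk k / X) : ℂ) * Lf k (1 / 2) ^ 4 else 0

/-! Pairs -/

def an (u : V4) : ℂ := (u 0 ^ 2 - u 1 ^ 2) * (u 2 ^ 2 - u 3 ^ 2)

def pr (c : ℝ) (f g : ℂ → ℂ) : ℂ :=
  Iv c (fun u => u ^ 2 * f u) * Iv c g - Iv c f * Iv c fun u => u ^ 2 * g u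

def pw (κ t v : ℝ) (u : ℂ) : ℂ := u * (u ^ 2 - 1 / 4) * cexp (κ * (u - t * I) ^ 2 + v * u)

def Pk (κ t v κ' t' v' : ℝ) (k : ℤ) : ℂ :=
  pr 0 (fun u => pw κ t v u * Lo k (1 / 2 + u)) fun u => pw κ' t' v' u * Lo k (1 / 2 + u)

def Bm (κ t v κ' t' v' : ℝ) (m : ℤ) : ℂ :=
  pr 12 (fun u => pw κ t v u * LS m (1 / 2 + u)) fun u => pw κ' t' v' u * LS m (1 / 2 + u)

def W2 (κ t v κ' t' v' : ℝ) (u : V4) : ℂ :=
  an u * (pw κ t v (u 0) * pw κ' t' v' (u 1) * pw κ (-t) v (u 2) * pw κ' (-t') v' (u 3))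

def amp (κ κ' : ℝ) (c : R4) (k : ℤ) (s : V4) : ℂ :=
  an s * (pw κ (c 0) 0 (s 0) * pw κ' (c 1) 0 (s 1) * pw κ (c 2) 0 (s 2) * pw κ' (c 3) 0 (s 3)) *
    ∏ j, Lo k (1 / 2 + s j)

def ev (s : V4) (V : R4) : ℂ := cexp (∑ j, s j * V j)

def Bd (F : Finset ℤ) (ω : ℤ → ℝ) (f : ℤ → V4 → ℂ) (B : ℝ) : Prop :=
  ∀ V : R4, ∑ k ∈ F, ω k * ‖In (cs 0) fun s => f k s * ev s V‖ ≤ B

def gz (A : ℕ) (w : ℂ) : ℂ := 1 / (lz w * (2 + w) ^ A)

def Ew (w : ℝ) : ℝ := if 0 ≤ w then Real.exp (-3 * w) else Real.exp (w / 4)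

def mx (Z v : ℝ) : ℝ := max 1 (Real.exp v / √Z)

def Kp (κ : ℝ) : Prop := 0 < κ ∧ κ ≤ 1

def PP2 (θ : ℝ) : Prop := ∀ κ κ' : ℝ, Kp κ → Kp κ' → ∃ (A : ℕ) (C : ℝ), 0 < C ∧
  ∀ (K t v t' v' : ℝ) (F : Finset ℤ), 0 < K → SQ F →
    ∑ k ∈ F, om (|(k : ℝ)| / K) * ‖Pk κ t v κ' t' v' k‖ ^ 2 ≤
      C * K * lg K ^ θ * br t ^ A * br t' ^ A

def DI (θ : ℝ) (j j' : ℕ) : Prop := ∀ κ κ' : ℝ, Kp κ → Kp κ' → ∃ (A : ℕ) (C : ℝ), 0 < C ∧
  ∀ Z t v t' v' : ℝ, 1 ≤ Z →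
    ∑ k ∈ Sq Z, ‖Pk κ t v κ' t' v' k‖ ^ 2 ≤
      C * Z * lg Z ^ θ * br t ^ A * br t' ^ A * mx Z v ^ j * mx Z v' ^ j'

/-- The majorant that comes from the Cauchy determinant. -/
def cm (ε : ℝ) (s τ : R4) : ℝ :=
  1 / ((ε + |s 0 * τ 0 + s 2 * τ 2|) * (ε + |s 1 * τ 1 + s 3 * τ 3|)) +
    1 / ((ε + |s 0 * τ 0 + s 3 * τ 3|) * (ε + |s 1 * τ 1 + s 2 * τ 2|))

def sgi (i : Fin 4) : R4 := fun j => if j = i then -1 else 1

end

end Pool.Agent.Q4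
end
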