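import Pool.Agent.P.MP_ea46f5_nt.QM.S1
import Pool.Agent.K.MP_ea46f5_nt.C6
import Pool.Agent.P.MP_ea46f5_nt.QM.S2
import Pool.Agent.K.MP_ea46f5_nt.C3
import Pool.Agent.K.MP_ea46f5_nt.C7
import Pool.Agent.K.MP_ea46f5_nt.C1

-- part Pool.Agent.P.MP_ea46f5_nt.QM.FLSP
section

namespace Pool.Agent.QM

open Complex MeasureTheory Finset
open scoped Real ComplexConjugate

theorem lsp_sum (m : ℤ) {s : ℂ} (hs : 1 < s.re) :
    HasSum (fun n : ℕ => jo m n * (n : ℂ) ^ (-s)) (LS m s) := by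
  rw [LS, funext (jo_eq m)]
  exact hasSum_LSeries_chi m hs

theorem lsp_prod (m : ℤ) {s : ℂ} (hs : 1 < s.re) :
    HasProd (fun p : Nat.Primes => (1 - jo m p * ((p : ℕ) : ℂ) ^ (-s))⁻¹) (LS m s) := by
  let f : ℕ →*₀ ℂ :=
    { toFun := fun n => jo m n * (n : ℂ) ^ (-s)
      map_zero' := by simp [jo_eq, chi_zero]
      map_one' := by simp [jo_eq, chi_one]
      map_mul' := fun a b => by
        simp only [jo_eq, chi_mul, Nat.cast_mul, Int.cast_mul, natCast_mul_natCast_cpow]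
        ring }
  have h := lsp_sum m hs
  have h1 : Summable fun n => ‖f n‖ := summable_norm_iff.2 h.summable
  have h2 := EulerProduct.eulerProduct_completely_multiplicative_hasProd h1
  have h3 : ∑' n, f n = LS m s := h.tsum_eq
  rw [h3] at h2
  exact h2

theorem lsp_term (m : ℤ) {n : ℕ} (hn : n ≠ 0) (s : ℂ) :
    ‖jo m n * (n : ℂ) ^ (-s)‖ ≤ (n : ℝ) ^ (-s.re) := by
  rw [norm_mul, norm_natCast_cpow_of_pos (Nat.pos_of_ne_zero hn), jo_eq, neg_re]
  exact mul_le_of_le_one_left (by positivity) (norm_chi_le m n)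

theorem lsp_le (m : ℤ) {s : ℂ} (hs : 2 ≤ s.re) : ‖LS m s‖ ≤ 2 := by
  have h := lsp_sum m (s := s) (by linarith)
  have h1 : ‖LS m s‖ ≤ π ^ 2 / 6 := by
    refine h.norm_le_of_bounded hasSum_zeta_two fun n => ?_
    rcases eq_or_ne n 0 with rfl | hn
    · simp [jo_eq, chi_zero]
    · refine (lsp_term m hn s).trans ?_
      have h1 : (1 : ℝ) ≤ n := by exact_mod_cast Nat.pos_of_ne_zero hn
      rw [one_div, ← Real.rpow_natCast, ← Real.rpow_neg (by positivity)]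
      exact Real.rpow_le_rpow_of_exponent_le h1 (by push_cast; linarith)
  have h2 := Real.pi_lt_d2
  have h3 := Real.pi_pos
  nlinarith

theorem lsp_ne (m : ℤ) {r : ℕ} (hr : r.Prime) {s : ℂ} (hs : 1 < s.re) :
    1 - jo m r * (r : ℂ) ^ (-s) ≠ 0 := by
  intro h
  have h1 := lsp_term m hr.ne_zero s
  rw [← sub_eq_zero.1 h, norm_one] at h1
  have h2 : (r : ℝ) ^ (-s.re) < 1 :=
    Real.rpow_lt_one_of_one_lt_of_neg (by exact_mod_cast hr.one_lt) (by linarith)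
  linarith

theorem lsp_sq (k : ℤ) {r p : ℕ} (hr : r.Prime) (hp : p.Prime) (h2 : r ≠ 2) :
    jo (k * (r : ℤ) ^ 2) p = if p = r then 0 else jo k p := by
  rw [jo_eq, jo_eq, chi_mul_left]
  by_cases ho : Odd p
  · rw [chi_odd ((r : ℤ) ^ 2) ho]
    split_ifs with h
    · subst h
      rw [jacobiSym.pow_left, (jacobiSym.eq_zero_iff).2 ⟨hp.ne_zero, by simpa using hp.ne_one⟩]
      simp
    · rw [jacobiSym.sq_one', mul_one]
      rw [Int.gcd_natCast_natCast]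
      exact (Nat.coprime_primes hr hp).2 (Ne.symm h)
  · rw [chi_even k ho, if_neg (fun h : p = r => ho (by rw [h]; exact hr.odd_of_ne_two h2))]
    simp

theorem pLSP : LSP := by
  refine ⟨fun m s hs => lsp_sum m hs, fun m s hs => lsp_prod m hs, fun m s hs => lsp_le m hs,
    fun m => ?_, fun m s hs => ?_, fun k r s hr h2 hs => ?_⟩
  · refine (LSeries_differentiableOn (jo m)).mono fun s hs => ?_
    have h1 : LSeries.abscissaOfAbsConv (jo m) ≤ (1 : ℝ) :=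
      LSeries.abscissaOfAbsConv_le_of_forall_lt_LSeriesSummable fun y hy => by
        rw [funext (jo_eq m)]
        exact LSeriesSummable_chi m (by simpa using hy)
    exact h1.trans_lt (by exact_mod_cast hs)
  · have h := lsp_sum m (s := conj s) (by simpa using hs)
    have h1 := (Complex.hasSum_conj'.2 h :)
    refine h1.unique ?_
    have e : (fun n : ℕ => conj (jo m n * (n : ℂ) ^ (-conj s))) =
        fun n : ℕ => jo m n * (n : ℂ) ^ (-s) := by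
      funext n
      have ha : (n : ℂ).arg ≠ π := by
        rw [natCast_arg]
        exact Real.pi_pos.ne
      rw [map_mul, jo_eq, map_intCast, ← map_neg, cpow_conj _ _ ha, conj_conj, map_natCast]
    rw [e]
    exact lsp_sum m hs
  · have h1 := (lsp_prod k hs).mul (hasProd_ite_eq (⟨r, hr⟩ : Nat.Primes)
      (1 - jo k r * (r : ℂ) ^ (-s)))
    refine (lsp_prod _ hs).unique ?_
    have e : (fun p : Nat.Primes => (1 - jo (k * (r : ℤ) ^ 2) p * ((p : ℕ) : ℂ) ^ (-s))⁻¹) =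
        fun p : Nat.Primes => (1 - jo k p * ((p : ℕ) : ℂ) ^ (-s))⁻¹ *
          if p = ⟨r, hr⟩ then 1 - jo k r * (r : ℂ) ^ (-s) else 1 := by
      funext p
      rw [lsp_sq k hr p.2 h2]
      by_cases h : p = ⟨r, hr⟩
      · subst h
        rw [if_pos rfl, if_pos rfl, inv_mul_cancel₀ (lsp_ne k hr hs)]
        simp
      · rw [if_neg h, if_neg (fun h' => h (Subtype.ext h')), mul_one]
    rw [e]
    exact h1

end Pool.Agent.QM
end

-- part Pool.Agent.P.MP_ea46f5_nt.QM.FMT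
section

namespace Pool.Agent.QM

open Complex MeasureTheory Finset
open scoped Real ComplexConjugate

theorem mt_mem_Sq {Z : ℝ} {k : ℤ} :
    k ∈ Sq Z ↔ Squarefree k ∧ k ≠ 1 ∧ Z / 2 < |(k : ℝ)| ∧ |(k : ℝ)| ≤ Z := by
  classical
  unfold Sq
  rw [mem_filter, and_iff_right_iff_imp]
  rintro ⟨-, -, -, h⟩
  have h1 : |(k : ℝ)| ≤ (⌈Z⌉ : ℝ) := h.trans (Int.le_ceil Z)
  have h2 : |k| ≤ ⌈Z⌉ := by exact_mod_cast h1
  exact mem_Icc.2 (abs_le.1 h2)

theorem pMT : MT := by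
  obtain ⟨C, hC, H⟩ := mt_abs
  refine ⟨C, hC, fun A μ Y K hμ hY hK h4 F hF τ => ?_⟩
  have hb : 0 ≤ br τ ^ A := by unfold br; positivity
  have := H (fun k : ℤ => Squarefree k ∧ k ≠ 1) (fun k => |(k : ℝ)|)
    (fun k => ‖Lo k (1 / 2 + τ * I)‖ ^ 4) (μ * br τ ^ A) Y K (mul_nonneg hμ hb) (by linarith) hK
    (fun k => by positivity)
    (fun k hk => by
      have h0 : k ≠ 0 := hk.1.ne_zero
      have : 1 ≤ |k| := Int.one_le_abs h0
      exact_mod_cast this)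
    (fun Z hZ S hS => by
      have h1 := h4 Z hZ τ
      have h2 : ∑ k ∈ S, ‖Lo k (1 / 2 + τ * I)‖ ^ 4 ≤ M4 Z τ :=
        sum_le_sum_of_subset_of_nonneg
          (fun k hk => mt_mem_Sq.2 ⟨(hS k hk).1.1, (hS k hk).1.2, (hS k hk).2⟩)
          (fun k _ _ => by positivity)
      refine h2.trans (h1.trans (le_of_eq ?_))
      unfold lg
      ring) F hF
  have e : (-3 / 4 : ℝ) = -(3 / 4) := by norm_num
  rw [e] at this
  refine le_trans this (le_of_eq ?_)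
  unfold lg
  ring

end Pool.Agent.QM
end

-- part Pool.Agent.P.MP_ea46f5_nt.QM.FPC
section

namespace Pool.Agent.QM

open Complex MeasureTheory Finset
open scoped Real ComplexConjugate

theorem pPC : PC := by
  obtain ⟨R₀, _, h⟩ := pr_many_primes_le
  refine ⟨⟨1 / 2, max 200 R₀, by norm_num, le_max_left _ _, fun R hR => ?_⟩, fun lam hl => ?_⟩
  · refine le_trans (le_of_eq ?_) (h R ((le_max_right _ _).trans hR))
    rw [div_mul_eq_mul_div, one_mul, div_div]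
  · have h1 := pr_primes_inv_le ((Ioc 2 ⌊Real.exp lam⌋₊).filter Nat.Prime) hl (fun r hr => by
      obtain ⟨h2, h3⟩ := mem_filter.1 hr
      refine ⟨h3, (Real.log_le_iff_le_exp (by exact_mod_cast h3.pos)).2 ?_⟩
      exact le_trans (by exact_mod_cast (mem_Ioc.1 h2).2) (Nat.floor_le (Real.exp_pos _).le))
    have h2 := pr_le_primes_inv ((Ioc 2 ⌊Real.exp lam⌋₊).filter Nat.Prime) hl (fun r h3 h4 h5 =>
      mem_filter.2 ⟨mem_Ioc.2 ⟨lt_of_le_of_ne h3.two_le (Ne.symm h4),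
        Nat.le_floor ((Real.log_le_iff_le_exp (by exact_mod_cast h3.pos)).1 h5)⟩, h3⟩)
    unfold sg
    rw [abs_le]
    constructor <;> linarith

end Pool.Agent.QM
end

-- part Pool.Agent.P.MP_ea46f5_nt.QM.FPL
section

namespace Pool.Agent.QM

open Complex MeasureTheory Finset
open scoped Real ComplexConjugate

theorem pl_log {P : Finset ℕ} {lam : ℝ} (h : ∀ p ∈ P, p.Prime ∧ (p : ℝ) ≤ Real.exp lam) :
    ∀ p ∈ P, p.Prime ∧ Real.log p ≤ lam := fun p hp =>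
  ⟨(h p hp).1, (Real.log_le_iff_le_exp (by exact_mod_cast (h p hp).1.pos)).2 (h p hp).2⟩

theorem pPL : PL := by
  refine ⟨15, by norm_num, fun ε h0 h1 => ⟨pr_PL_summable h0 h1, (pr_PL h0 h1).trans ?_⟩,
    fun P lam τ hP hl hτ => pr_PM P hl hτ (pl_log hP), fun P lam hP hl => ?_⟩
  · exact div_le_div_of_nonneg_right (by norm_num) h0.le
  · have h1 := pr_primes_log_div P hl (pl_log hP)
    have h4 : Real.log 4 = 2 * Real.log 2 := by
      rw [show (4 : ℝ) = 2 ^ 2 by norm_num, Real.log_pow]; norm_num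
    linarith [Real.log_two_lt_d9]

end Pool.Agent.QM
end

-- part Pool.Agent.P.MP_ea46f5_nt.QM.FPRI
section

namespace Pool.Agent.QM

open Complex MeasureTheory Finset
open scoped Real ComplexConjugate

theorem pri_neg (hKR : KR) {k : ℤ} (hk : Squarefree k) (h1 : k ≠ 1) {a : ℕ} (h : chi k a = -1) :
    kron (disc k) a = -1 := by
  have ho : Odd a := by
    by_contra hn
    rw [chi_even k hn] at h
    omega
  have e := (hKR k hk h1).1 a ho
  rw [jo_eq, h] at e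
  exact_mod_cast e

theorem pPRI (hKR : KR) : PRI := by
  intro k hk h1 p hp hd
  by_cases h4 : k % 4 = 1
  · have e : disc k = k := if_pos h4
    have hd' : p ∣ k.natAbs := e ▸ hd
    have h2 : p ≠ 2 := by
      rintro rfl
      omega
    obtain ⟨a, ha, hb⟩ := exists_neg_odd hk hp h2 (Int.natCast_dvd.2 hd')
    refine ⟨a, ?_, pri_neg hKR hk h1 hb⟩
    rw [e]
    exact ha.of_mul_left 4
  · have e : (disc k).natAbs = 4 * k.natAbs := by
      rw [disc, if_neg h4]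
      omega
    rw [e] at hd ⊢
    by_cases h2 : p = 2
    · subst h2
      refine ⟨_, ?_, pri_neg hKR hk h1 (exists_neg_two hk h4)⟩
      have : 4 * k.natAbs / 2 = 2 * k.natAbs := by omega
      rw [this]
      exact Nat.add_mod_right _ _
    · have hc : Nat.Coprime p 4 :=
        (((Nat.coprime_primes hp Nat.prime_two).2 h2).pow_right 2 :)
      have hd' : p ∣ k.natAbs := hc.dvd_of_dvd_mul_left hd
      obtain ⟨a, ha, hb⟩ := exists_neg_odd hk hp h2 (Int.natCast_dvd.2 hd')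
      refine ⟨a, ?_, pri_neg hKR hk h1 hb⟩
      rwa [Nat.mul_div_assoc _ hd']

theorem pri_gam (k : ℤ) : gam k = -1 ∨ gam k = 0 ∨ gam k = 1 := by
  unfold gam
  split_ifs <;> simp

theorem pri_norm (k : ℤ) (s : ℂ) : ‖(gam k : ℂ) * (2 : ℂ) ^ (-s)‖ ≤ (2 : ℝ) ^ (-s.re) := by
  have h : ‖(2 : ℂ) ^ (-s)‖ = (2 : ℝ) ^ (-s.re) := by
    have := norm_natCast_cpow_of_pos (n := 2) two_pos (-s)
    simpa using this
  rw [norm_mul, h]
  refine mul_le_of_le_one_left (by positivity) ?_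
  rcases pri_gam k with h | h | h <;> simp [h]

theorem pri_ne (k : ℤ) {s : ℂ} (hs : 0 < s.re) : 1 - (gam k : ℂ) * (2 : ℂ) ^ (-s) ≠ 0 := by
  intro h
  have h1 := pri_norm k s
  rw [← sub_eq_zero.1 h, norm_one] at h1
  have h2 : (2 : ℝ) ^ (-s.re) < 1 :=
    Real.rpow_lt_one_of_one_lt_of_neg (by norm_num) (by linarith)
  linarith

theorem pri_quarter : (2 : ℝ) ^ (-(1 / 4) : ℝ) ≤ 6 / 7 := by
  refine le_of_pow_le_pow_left₀ (n := 4) (by norm_num) (by norm_num) ?_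
  rw [← Real.rpow_natCast, ← Real.rpow_mul (by norm_num)]
  norm_num

theorem pBRG (hLOP : LOP) : BRG := by
  refine ⟨fun d hd => ?_, fun k => ⟨?_, ?_, ?_, ?_⟩, fun k s hs => ?_, fun k hk h1 => ?_⟩
  · obtain ⟨h1, ⟨h4, hs⟩ | ⟨m, rfl, h4, hs⟩⟩ := hd
    · exact ⟨d, hs, h1, if_pos h4⟩
    · exact ⟨m, hs, by omega, if_neg (by omega)⟩
  · unfold qk disc
    split_ifs
    · exact le_rfl
    · push_cast
      rw [abs_mul, abs_of_pos (by norm_num : (0 : ℝ) < 4)]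
      linarith [abs_nonneg (k : ℝ)]
  · unfold qk disc
    split_ifs
    · linarith [abs_nonneg (k : ℝ)]
    · push_cast
      rw [abs_mul, abs_of_pos (by norm_num : (0 : ℝ) < 4)]
  · unfold par
    split_ifs <;> simp
  · rcases pri_gam k with h | h | h <;> simp [h, T3]
  · have h1 := pri_norm k s
    have h2 : (2 : ℝ) ^ (-s.re) ≤ 6 / 7 :=
      (Real.rpow_le_rpow_of_exponent_le (by norm_num) (by linarith)).trans pri_quarter
    have h3 := norm_sub_le (1 : ℂ) ((gam k : ℂ) * (2 : ℂ) ^ (-s))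
    have h4 := norm_sub_norm_le (1 : ℂ) ((gam k : ℂ) * (2 : ℂ) ^ (-s))
    rw [norm_one] at h3 h4
    have h5 : 0 < ‖1 - (gam k : ℂ) * (2 : ℂ) ^ (-s)‖ := by linarith
    have h6 := norm_nonneg (Lo k s)
    rw [Lf, norm_div, ← mul_div_assoc, le_div_iff₀ h5, div_le_iff₀ h5]
    constructor <;> nlinarith
  · refine ((hLOP.2.1 k hk h1).differentiableOn).div ?_ fun s hs => pri_ne k hs
    have : Differentiable ℂ fun s : ℂ => (2 : ℂ) ^ (-s) :=
      differentiable_id.neg.const_cpow (Or.inl two_ne_zero)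
    exact ((differentiable_const _).sub ((differentiable_const _).mul this)).differentiableOn

end Pool.Agent.QM
end

-- part Pool.Agent.P.MP_ea46f5_nt.QM.FPZ
section

namespace Pool.Agent.QM

open Complex MeasureTheory Finset
open scoped Real ComplexConjugate

theorem pPZ (hZT : ZT) : PZ := by
  obtain ⟨_, ⟨C, hC, h⟩, _⟩ := hZT
  refine ⟨fun x hx => ⟨pr_summable_primes_rpow hx, pr_exp_tsum_primes_le hx⟩,
    Real.exp 1 * C, by positivity, fun s h0 h1 => ?_⟩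
  rw [← Complex.re_tsum (pr_summable_primes_cpow h0)]
  refine (pr_PZ h0).trans ?_
  rw [mul_assoc, mul_assoc, ← mul_assoc C]
  exact mul_le_mul_of_nonneg_left (h s h0 (by linarith)) (Real.exp_pos _).le

end Pool.Agent.QM
end

-- part Pool.Agent.P.MP_ea46f5_nt.QM.FPoisa
section

/-!
The Poisson step, first part: the dual sum and the bound P2.
-/

namespace Pool.Agent.QM.Po

open Real Finset NumberTheorySymbols MeasureTheory

/-- The primes dividing `n` to an odd exponent. -/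
def PO (n : ℕ) : Finset ℕ := n.primeFactors.filter fun p => Odd (n.factorization p)

/-- The primes dividing `n` to an even exponent. -/
def PE (n : ℕ) : Finset ℕ := n.primeFactors.filter fun p => ¬ Odd (n.factorization p)

/-- The squarefree part. -/
def sf (n : ℕ) : ℕ := ∏ p ∈ PO n, p

theorem PO_prime {n p : ℕ} (h : p ∈ PO n) : p.Prime :=
  Nat.prime_of_mem_primeFactors (mem_filter.1 h).1

theorem PE_prime {n p : ℕ} (h : p ∈ PE n) : p.Prime :=
  Nat.prime_of_mem_primeFactors (mem_filter.1 h).1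

theorem prod_primes_pos {s : Finset ℕ} (hs : ∀ p ∈ s, p.Prime) : 0 < ∏ p ∈ s, p :=
  prod_pos fun p hp => (hs p hp).pos

theorem sf_pos (n : ℕ) : 0 < sf n := prod_primes_pos fun _ h => PO_prime h

theorem sf_squarefree (n : ℕ) : Squarefree (sf n) := by
  unfold sf
  refine Finset.squarefree_prod_of_pairwise_isCoprime (fun p hp q hq hpq => ?_)
    (fun p hp => (PO_prime hp).prime.squarefree)
  exact Nat.coprime_iff_isRelPrime.1 ((Nat.coprime_primes (PO_prime hp) (PO_prime hq)).2 hpq)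

theorem sf_dvd (n : ℕ) : sf n ∣ n :=
  (prod_dvd_prod_of_subset _ _ _ (filter_subset _ _)).trans (Nat.prod_primeFactors_dvd n)

theorem sf_odd {n : ℕ} (hn : Odd n) : Odd (sf n) := hn.of_dvd_nat (sf_dvd n)

theorem jac_prod (m : ℤ) (s : Finset ℕ) (f : ℕ → ℕ) (hf : ∀ p ∈ s, f p ≠ 0) :
    J(m | ∏ p ∈ s, f p) = ∏ p ∈ s, J(m | f p) := by
  induction s using Finset.induction_on with
  | empty => simp
  | insert a s ha ih =>
    rw [prod_insert ha, prod_insert ha, jacobiSym.mul_right' m (hf a (mem_insert_self _ _))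
      (prod_ne_zero_iff.2 fun p hp => hf p (mem_insert_of_mem hp)),
      ih fun p hp => hf p (mem_insert_of_mem hp)]

theorem jac_prime_eq_zero {p : ℕ} (hp : p.Prime) (m : ℤ) : J(m | p) = 0 ↔ (p : ℤ) ∣ m := by
  have := Fact.mk hp
  rw [← jacobiSym.legendreSym.to_jacobiSym, legendreSym.eq_zero_iff,
    ZMod.intCast_zmod_eq_zero_iff_dvd]

theorem jac_split {n : ℕ} (hn : n ≠ 0) (m : ℤ) :
    (J(m | n) : ℝ) = J(m | sf n) * ∏ p ∈ PE n, ((if (p : ℤ) ∣ m then -1 else 0) + 1 : ℝ) := by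
  have h1 : J(m | n) = ∏ p ∈ n.primeFactors, J(m | p) ^ n.factorization p := by
    conv_lhs => rw [← Nat.prod_factorization_pow_eq_self hn]
    rw [Finsupp.prod, Nat.support_factorization, jac_prod _ _ _
      (fun p hp => pow_ne_zero _ (Nat.prime_of_mem_primeFactors hp).ne_zero)]
    exact prod_congr rfl fun p _ => jacobiSym.pow_right _ _ _
  rw [h1, ← prod_filter_mul_prod_filter_not n.primeFactors (fun p => Odd (n.factorization p)),
    sf, jac_prod m _ (fun p => p) (fun p hp => (PO_prime hp).ne_zero)]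
  push_cast
  congr 1
  · refine prod_congr rfl fun p hp => ?_
    have ho := (mem_filter.1 hp).2
    rcases jacobiSym.trichotomy m p with h | h | h <;> rw [h]
    · simp [ho.pos.ne']
    · simp
    · simp [ho.neg_one_pow]
  · refine prod_congr rfl fun p hp => ?_
    have he := Nat.not_odd_iff_even.1 (mem_filter.1 hp).2
    have hp' := PE_prime hp
    have hv : n.factorization p ≠ 0 := by
      have := (mem_filter.1 hp).1
      rwa [← Nat.support_factorization, Finsupp.mem_support_iff] at this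
    by_cases hd : (p : ℤ) ∣ m
    · rw [if_pos hd, (jac_prime_eq_zero hp' m).2 hd]; simp [hv]
    · rw [if_neg hd]
      rcases jacobiSym.trichotomy m p with h | h | h
      · exact absurd ((jac_prime_eq_zero hp' m).1 h) hd
      · simp [h]
      · simp [h, he.neg_one_pow]

theorem prod_ite_dvd {R : Type*} [CommRing R] {s : Finset ℕ} (hs : ∀ p ∈ s, p.Prime) (H : ℤ)
    (c : ℕ → R) : ∏ p ∈ s, (if (p : ℤ) ∣ H then c p else 0) =
      if ((∏ p ∈ s, p : ℕ) : ℤ) ∣ H then ∏ p ∈ s, c p else 0 := by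
  by_cases h : ∀ p ∈ s, (p : ℤ) ∣ H
  · rw [if_pos, prod_congr rfl fun p hp => if_pos (h p hp)]
    rw [Int.natCast_dvd]
    exact Finset.prod_primes_dvd _ (fun p hp => (hs p hp).prime)
      fun p hp => Int.natCast_dvd.1 (h p hp)
  · rw [if_neg]
    · push Not at h
      obtain ⟨p, hp, hd⟩ := h
      exact prod_eq_zero hp (if_neg hd)
    · intro hd
      exact h fun p hp => (Int.natCast_dvd_natCast.2 (dvd_prod_of_mem _ hp)).trans hd

theorem sieve_prod {R : Type*} [CommRing R] {Q : Finset ℕ} (hQ : ∀ p ∈ Q, p.Prime) (H : ℤ)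
    (a c : ℕ → R) : ∏ p ∈ Q, ((if (p : ℤ) ∣ H then c p else 0) + a p) =
      ∑ s ∈ Q.powerset, (if ((∏ p ∈ s, p : ℕ) : ℤ) ∣ H then ∏ p ∈ s, c p else 0) *
        ∏ p ∈ Q \ s, a p := by
  rw [prod_add]
  exact sum_congr rfl fun s hs => by
    rw [prod_ite_dvd fun p hp => hQ p (mem_powerset.1 hs hp)]

theorem hasSum_dvd {e : ℕ} (he : 0 < e) (n : ℕ) {u : ℝ} (hu : 0 < u) :
    HasSum (fun m : ℤ => if (e : ℤ) ∣ m then (J(m | n) : ℝ) * exp (-π * (m : ℝ) ^ 2 * u) else 0)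
      (J(e | n) * ∑' m : ℤ, (J(m | n) : ℝ) * exp (-π * (m : ℝ) ^ 2 * ((e : ℝ) ^ 2 * u))) := by
  have he' : (0 : ℝ) < e := by exact_mod_cast he
  have hinj : Function.Injective fun m : ℤ => (e : ℤ) * m :=
    mul_right_injective₀ (by exact_mod_cast he.ne')
  rw [← hinj.hasSum_iff]
  · refine ((summable_jac n (y := (e : ℝ) ^ 2 * u) (by positivity)).hasSum.mul_left
      (J(e | n) : ℝ)).congr_fun fun m => ?_
    simp only [Function.comp, dvd_mul_right, if_true, jacobiSym.mul_left]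
    push_cast
    rw [mul_assoc]
    congr 3
    ring
  · intro m hm
    exact if_neg fun ⟨c, hc⟩ => hm ⟨c, hc.symm⟩

theorem theta_jac_odd {n : ℕ} (ho : Odd n) (hs : Squarefree n) {y : ℝ} (hy : 0 < y) :
    ∑' m : ℤ, (J(m | n) : ℝ) * exp (-π * (m : ℝ) ^ 2 * y) =
      (√(n * y))⁻¹ * ∑' h : ℤ, (J(h | n) : ℝ) * exp (-π * (h : ℝ) ^ 2 * (1 / ((n : ℝ) ^ 2 * y))) := by
  by_cases h4 : n % 4 = 1
  · exact theta_jac h4 hs hy
  · have h3 : n % 4 = 3 := by have := Nat.odd_iff.1 ho; omega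
    have h0 : ∀ u : ℝ, ∑' m : ℤ, (J(m | n) : ℝ) * exp (-π * (m : ℝ) ^ 2 * u) = 0 := by
      intro u
      have h := (Equiv.neg ℤ).tsum_eq fun m : ℤ => (J(m | n) : ℝ) * exp (-π * (m : ℝ) ^ 2 * u)
      simp only [Equiv.neg_apply, jacobiSym.neg _ ho, ZMod.χ₄_nat_three_mod_four h3, Int.cast_neg,
        neg_mul, one_mul, even_two, Even.neg_pow, tsum_neg] at h
      simp only [neg_mul]
      linarith
    rw [h0, h0, mul_zero]

theorem gauss_tail {u : ℝ} (hu : 0 < u) (N : ℕ) :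
    ∑ i ∈ range N, exp (-π * ((i : ℝ) + 1) ^ 2 * u) ≤ (√u)⁻¹ / 2 := by
  have hanti : AntitoneOn (fun x : ℝ => exp (-(π * u) * x ^ 2)) (Set.Icc 0 (0 + (N : ℝ))) := by
    intro x hx y _ hxy
    have := hx.1
    simp only
    rw [exp_le_exp, neg_mul, neg_mul, neg_le_neg_iff]
    gcongr
  have h := hanti.sum_le_integral
  have hi : IntegrableOn (fun x : ℝ => exp (-(π * u) * x ^ 2)) (Set.Ioi 0) :=
    (integrable_exp_neg_mul_sq (by positivity)).integrableOn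
  have h2 : ∫ x in (0 : ℝ)..0 + (N : ℝ), exp (-(π * u) * x ^ 2) ≤
      ∫ x in Set.Ioi (0 : ℝ), exp (-(π * u) * x ^ 2) := by
    rw [intervalIntegral.integral_of_le (by simp)]
    exact setIntegral_mono_set hi (Filter.Eventually.of_forall fun x => (exp_pos _).le)
      (Set.Ioc_subset_Ioi_self.eventuallyLE)
  rw [integral_gaussian_Ioi, div_mul_cancel_left₀ pi_ne_zero, sqrt_inv] at h2
  refine le_trans (le_of_eq (sum_congr rfl fun i _ => ?_)) (h.trans h2)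
  congr 1
  push_cast
  ring

theorem theta_sub_le (n : ℕ) {u : ℝ} (hu : 0 < u) :
    |∑' h : ℤ, (J(h | n) : ℝ) * exp (-π * (h : ℝ) ^ 2 * u) - J(0 | n)| ≤ (√u)⁻¹ := by
  have hg : Summable fun i : ℕ => exp (-π * ((i : ℝ) + 1) ^ 2 * u) :=
    summable_of_sum_range_le (fun _ => (exp_pos _).le) (gauss_tail hu)
  have hg2 : ∑' i : ℕ, exp (-π * ((i : ℝ) + 1) ^ 2 * u) ≤ (√u)⁻¹ / 2 :=
    Real.tsum_le_of_sum_range_le (fun _ => (exp_pos _).le) (gauss_tail hu)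
  have key : ∀ f : ℕ → ℤ, (∀ i, ((f i : ℤ) : ℝ) ^ 2 = ((i : ℝ) + 1) ^ 2) →
      (Summable fun i : ℕ => (J(f i | n) : ℝ) * exp (-π * ((f i : ℤ) : ℝ) ^ 2 * u)) ∧
      |∑' i : ℕ, (J(f i | n) : ℝ) * exp (-π * ((f i : ℤ) : ℝ) ^ 2 * u)| ≤ (√u)⁻¹ / 2 := by
    intro f hf
    have hb : ∀ i, ‖(J(f i | n) : ℝ) * exp (-π * ((f i : ℤ) : ℝ) ^ 2 * u)‖ ≤
        exp (-π * ((i : ℝ) + 1) ^ 2 * u) := fun i => by
      rw [norm_mul, Real.norm_eq_abs, Real.norm_of_nonneg (exp_pos _).le, hf]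
      exact mul_le_of_le_one_left (exp_pos _).le (abs_jac_le _ n)
    exact ⟨hg.of_norm_bounded hb, (tsum_of_norm_bounded hg.hasSum hb).trans hg2⟩
  obtain ⟨a1, a2⟩ := key (fun i => i + 1) (fun i => by push_cast; ring)
  obtain ⟨b1, b2⟩ := key (fun i => -(i + 1)) (fun i => by push_cast; ring)
  rw [tsum_of_add_one_of_neg_add_one
    (f := fun h : ℤ => (J(h | n) : ℝ) * exp (-π * (h : ℝ) ^ 2 * u)) a1 b1]
  rw [abs_le] at a2 b2 ⊢
  simp only [Int.cast_zero, ne_eq, OfNat.ofNat_ne_zero, not_false_eq_true, zero_pow, mul_zero,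
    zero_mul, exp_zero, mul_one]
  constructor <;> linarith [a2.1, a2.2, b2.1, b2.2]

/-- The terms of the dual sum. -/
noncomputable def WW (X : ℝ) (n : ℕ) (H : ℤ) : ℝ :=
  ∑ s ∈ (PE n).powerset, (√(sf n))⁻¹ * (∏ p ∈ s, (-1 / p : ℝ)) *
    if ((∏ p ∈ s, p : ℕ) : ℤ) ∣ H then (J(H | sf n) : ℝ) *
      exp (-π * (H : ℝ) ^ 2 * (X ^ 2 / ((sf n : ℝ) ^ 2 * ((∏ p ∈ s, p : ℕ) : ℝ) ^ 4))) else 0

theorem SS_eq {X : ℝ} (hX : 0 < X) {n : ℕ} (hn : Odd n) :
    Sg X n / X = ∑ s ∈ (PE n).powerset, (√(sf n))⁻¹ * (∏ p ∈ s, (-1 / p : ℝ)) *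
      (J((∏ p ∈ s, p : ℕ) | sf n) * ∑' h : ℤ, (J(h | sf n) : ℝ) * exp (-π * (h : ℝ) ^ 2 *
        (X ^ 2 / ((sf n : ℝ) ^ 2 * ((∏ p ∈ s, p : ℕ) : ℝ) ^ 2)))) := by
  have hn0 : (0 : ℝ) < sf n := by exact_mod_cast sf_pos n
  have h1 := hasSum_sum (s := (PE n).powerset) fun s hs =>
    (hasSum_dvd (prod_primes_pos fun p hp => PE_prime (mem_powerset.1 hs hp)) (sf n)
      (u := 1 / X ^ 2) (by positivity)).mul_left (∏ _p ∈ s, (-1 : ℝ))
  have h2 : Sg X n = _ := (h1.congr_fun fun m => ?_).tsum_eq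
  · rw [h2, sum_div]
    refine sum_congr rfl fun s hs => ?_
    have he : (0 : ℝ) < (∏ p ∈ s, p : ℕ) := by
      exact_mod_cast prod_primes_pos fun p hp => PE_prime (mem_powerset.1 hs hp)
    rw [theta_jac_odd (sf_odd hn) (sf_squarefree n) (by positivity), prod_div_distrib,
      ← Nat.cast_prod (fun p => p) s]
    set e : ℝ := ((∏ p ∈ s, p : ℕ) : ℝ)
    have e1 : √(sf n * (e ^ 2 * (1 / X ^ 2))) = √(sf n) * (e / X) := by
      rw [sqrt_mul hn0.le, show e ^ 2 * (1 / X ^ 2) = (e / X) ^ 2 by field_simp,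
        sqrt_sq (by positivity)]
    have e2 : 1 / ((sf n : ℝ) ^ 2 * (e ^ 2 * (1 / X ^ 2))) = X ^ 2 / ((sf n : ℝ) ^ 2 * e ^ 2) := by
      field_simp
    have : 0 < √(sf n : ℝ) := sqrt_pos.2 hn0
    rw [e1, e2]
    field_simp
  · rw [jac_split hn.pos.ne', sieve_prod (fun p hp => PE_prime hp), mul_sum, mul_sum]
    refine sum_congr rfl fun s _ => ?_
    unfold GX
    split_ifs
    · rw [prod_const_one, mul_one_div]; ring
    · simp

theorem hasSum_WW {X : ℝ} (hX : 0 < X) {n : ℕ} (hn : Odd n) : HasSum (WW X n) (Sg X n / X) := by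
  have hn0 : (0 : ℝ) < sf n := by exact_mod_cast sf_pos n
  rw [SS_eq hX hn]
  refine hasSum_sum fun s hs => HasSum.mul_left _ ?_
  have he0 := prod_primes_pos fun p hp => PE_prime (mem_powerset.1 hs hp)
  have he : (0 : ℝ) < (∏ p ∈ s, p : ℕ) := by exact_mod_cast he0
  have h := hasSum_dvd he0 (sf n)
    (u := X ^ 2 / ((sf n : ℝ) ^ 2 * ((∏ p ∈ s, p : ℕ) : ℝ) ^ 4)) (by positivity)
  have e2 : ((∏ p ∈ s, p : ℕ) : ℝ) ^ 2 * (X ^ 2 / ((sf n : ℝ) ^ 2 * ((∏ p ∈ s, p : ℕ) : ℝ) ^ 4)) =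
      X ^ 2 / ((sf n : ℝ) ^ 2 * ((∏ p ∈ s, p : ℕ) : ℝ) ^ 2) := by field_simp
  rwa [e2] at h

theorem Tk_split (k : ℤ) (z : ℂ) (n : ℕ) :
    Tk k z n = (∏ p ∈ PO n, ok k z p) * ∏ p ∈ PE n, ek k z p := by
  rw [Tk, prod_ite]; rfl

theorem WW_zero_eq (X : ℝ) (n : ℕ) : WW X n 0 =
    ∑ s ∈ (PE n).powerset, (√(sf n))⁻¹ * (∏ p ∈ s, (-1 / p : ℝ)) * J(0 | sf n) := by
  simp [WW]

theorem WW_zero (X : ℝ) (n : ℕ) : (WW X n 0 : ℂ) = Tk 1 0 n := by
  rw [WW_zero_eq, Tk_split, ← sum_mul, ← mul_sum, ← prod_one_add]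
  by_cases h : PO n = ∅
  · have h1 : sf n = 1 := by rw [sf, h, prod_empty]
    rw [h, h1]
    simp only [Nat.cast_one, sqrt_one, inv_one, one_mul, jacobiSym.one_right, Int.cast_one,
      mul_one, prod_empty]
    push_cast
    refine prod_congr rfl fun p hp => ?_
    rw [ek, if_neg (by rw [Int.natCast_dvd]; simpa using (PE_prime hp).one_lt.ne')]
    ring
  · obtain ⟨p, hp⟩ := nonempty_iff_ne_empty.2 h
    have h1 : 1 < sf n :=
      lt_of_lt_of_le (PO_prime hp).one_lt (Nat.le_of_dvd (sf_pos n) (dvd_prod_of_mem _ hp))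
    rw [jacobiSym.zero_left h1, prod_eq_zero hp (by simp [ok])]
    simp

theorem sf_mul_le {n : ℕ} (hn : n ≠ 0) : sf n * (2 ^ (PE n).card) ^ 2 ≤ n := by
  conv_rhs => rw [← Nat.prod_factorization_pow_eq_self hn]
  rw [Finsupp.prod, Nat.support_factorization,
    ← prod_filter_mul_prod_filter_not n.primeFactors (fun p => Odd (n.factorization p)),
    ← prod_const, ← prod_pow]
  refine Nat.mul_le_mul (prod_le_prod' fun p hp => ?_) (prod_le_prod' fun p hp => ?_)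
  · exact Nat.le_self_pow (mem_filter.1 hp).2.pos.ne' p
  · have he := Nat.not_odd_iff_even.1 (mem_filter.1 hp).2
    have hv : n.factorization p ≠ 0 := by
      have := (mem_filter.1 hp).1
      rwa [← Nat.support_factorization, Finsupp.mem_support_iff] at this
    have h2 : 2 ≤ n.factorization p := by obtain ⟨c, hc⟩ := he; omega
    exact (Nat.pow_le_pow_left (PE_prime hp).two_le 2).trans
      (Nat.pow_le_pow_right (PE_prime hp).pos h2)

theorem P2_real {X : ℝ} (hX : 0 < X) {n : ℕ} (hn : Odd n) : |Sg X n - X * WW X n 0| ≤ √n := by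
  have hn0 : (0 : ℝ) < sf n := by exact_mod_cast sf_pos n
  have hs : 0 < √(sf n : ℝ) := sqrt_pos.2 hn0
  have h1 : |Sg X n / X - WW X n 0| ≤ ∑ _s ∈ (PE n).powerset, √(sf n : ℝ) / X := by
    rw [SS_eq hX hn, WW_zero_eq, ← sum_sub_distrib]
    refine (abs_sum_le_sum_abs _ _).trans (sum_le_sum fun s hs' => ?_)
    have he : (0 : ℝ) < (∏ p ∈ s, p : ℕ) := by
      exact_mod_cast prod_primes_pos fun p hp => PE_prime (mem_powerset.1 hs' hp)
    have h0 : (J(0 | sf n) : ℝ) = J((∏ p ∈ s, p : ℕ) | sf n) * J(0 | sf n) := by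
      rw [← Int.cast_mul, ← jacobiSym.mul_left, mul_zero]
    have h2 := theta_sub_le (sf n)
      (u := X ^ 2 / ((sf n : ℝ) ^ 2 * ((∏ p ∈ s, p : ℕ) : ℝ) ^ 2)) (by positivity)
    have h3 := abs_jac_le ((∏ p ∈ s, p : ℕ) : ℤ) (sf n)
    rw [h0, ← mul_sub, ← mul_sub, abs_mul, abs_mul, abs_mul, prod_div_distrib,
      ← Nat.cast_prod (fun p => p) s, abs_div, abs_prod]
    set e : ℝ := ((∏ p ∈ s, p : ℕ) : ℝ)
    rw [show X ^ 2 / ((sf n : ℝ) ^ 2 * e ^ 2) = (X / (sf n * e)) ^ 2 by field_simp,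
      sqrt_sq (by positivity)] at h2
    rw [show X ^ 2 / ((sf n : ℝ) ^ 2 * e ^ 2) = (X / (sf n * e)) ^ 2 by field_simp]
    simp only [abs_neg, abs_one, prod_const_one, abs_of_pos he, abs_of_pos (inv_pos.2 hs)]
    calc _ ≤ (√(sf n : ℝ))⁻¹ * (1 / e) * (1 * (X / (sf n * e))⁻¹) := by gcongr
      _ = √(sf n : ℝ) / X := by
        field_simp
        rw [sq_sqrt hn0.le]
  rw [sum_const, card_powerset, nsmul_eq_mul] at h1
  have h2 : ((2 ^ (PE n).card : ℕ) : ℝ) * √(sf n : ℝ) ≤ √n := by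
    apply le_sqrt_of_sq_le
    rw [mul_pow, sq_sqrt hn0.le, mul_comm]
    exact_mod_cast sf_mul_le hn.pos.ne'
  calc |Sg X n - X * WW X n 0| = X * |Sg X n / X - WW X n 0| := by
        rw [← abs_of_pos hX, ← abs_mul, abs_of_pos hX]; congr 1; field_simp
    _ ≤ X * (((2 ^ (PE n).card : ℕ) : ℝ) * (√(sf n : ℝ) / X)) := by gcongr
    _ = ((2 ^ (PE n).card : ℕ) : ℝ) * √(sf n : ℝ) := by field_simp
    _ ≤ √n := h2

end Pool.Agent.QM.Po
end

-- part Pool.Agent.P.MP_ea46f5_nt.QM.FSEP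
section

namespace Pool.Agent.QM

open Complex MeasureTheory Finset
open scoped Real ComplexConjugate

theorem pSEP (_hDEC : DEC) : SEP := by
  refine ⟨49 * Real.exp 8, by positivity, fun F G ρ v t M h hM => ?_⟩
  have key := sep_abs F ρ v (fun k τ => G k (12 + τ * I)) 12 t M (fun k hk => (h k hk).2.1)
    (fun k hk => (h k hk).2.2) (fun k hk => (h k hk).1) (fun y => by
      have h1 := hM y
      have e : Real.exp (-|y|) ^ 2 = Real.exp (-2 * |y|) := by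
        rw [← Real.exp_nat_mul]
        congr 1
        push_cast
        ring
      rw [e]
      refine le_trans (le_of_eq (sum_congr rfl fun k _ => ?_)) h1
      unfold Iv
      congr 4
      funext τ
      push_cast
      congr 4
      ring)
  refine le_trans (le_of_eq (sum_congr rfl fun k _ => ?_)) key
  unfold Iv
  congr 4
  funext τ
  push_cast
  congr 3
  ring

end Pool.Agent.QM
end

-- part Pool.Agent.P.MP_ea46f5_nt.QM.FSTEP
section

namespace Pool.Agent.QM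

open Complex MeasureTheory Finset
open scoped Real ComplexConjugate

theorem step_mem_Sq {Z : ℝ} {k : ℤ} (h : k ∈ Sq Z) :
    Squarefree k ∧ k ≠ 1 ∧ Z / 2 < |(k : ℝ)| ∧ |(k : ℝ)| ≤ Z := by
  classical
  unfold Sq at h
  exact (mem_filter.1 h).2

theorem step_card {Z : ℝ} (hZ : 1 ≤ Z) : ((Sq Z).card : ℝ) ≤ 5 * Z := by
  classical
  have h1 : (Sq Z).card ≤ (Icc (-⌈Z⌉) ⌈Z⌉).card := by
    unfold Sq
    exact card_filter_le _ _
  have h2 : (0 : ℤ) ≤ ⌈Z⌉ := Int.ceil_nonneg (by linarith)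
  have h3 : ((Icc (-⌈Z⌉) ⌈Z⌉).card : ℤ) = ⌈Z⌉ + 1 - -⌈Z⌉ := Int.card_Icc_of_le _ _ (by linarith)
  have h4 : ((Sq Z).card : ℤ) ≤ ⌈Z⌉ + 1 - -⌈Z⌉ := by
    rw [← h3]
    exact_mod_cast h1
  have h5 : ((Sq Z).card : ℝ) ≤ ⌈Z⌉ + 1 - -⌈Z⌉ := by exact_mod_cast h4
  linarith [Int.ceil_lt_add_one Z]

theorem pTRV (hLOB : LOB) : TRV := by
  refine ⟨5 * 8 ^ 4, by norm_num, fun Z t hZ => ⟨?_, step_card hZ⟩⟩
  have hb := st_br t
  have h1 : ∀ k ∈ Sq Z, ‖Lo k (1 / 2 + t * I)‖ ^ 4 ≤ (8 * Z * br t) ^ 4 := by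
    intro k hk
    obtain ⟨a1, a2, -, a4⟩ := step_mem_Sq hk
    have e : (1 / 2 + t * I : ℂ).re = 1 / 2 := by simp
    have b1 := hLOB k (1 / 2 + t * I) a1 a2 (by rw [e]; norm_num)
    have b2 : ‖(1 / 2 + t * I : ℂ)‖ ≤ br t := by
      refine (norm_add_le _ _).trans ?_
      unfold br
      simp only [norm_mul, Complex.norm_real, norm_I, Real.norm_eq_abs, mul_one, norm_div, norm_one,
        Complex.norm_ofNat]
      linarith
    rw [e] at b1
    gcongr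
    calc _ ≤ 4 * |(k : ℝ)| * ‖(1 / 2 + t * I : ℂ)‖ / (1 / 2) := b1
      _ ≤ 4 * Z * br t / (1 / 2) := by gcongr
      _ = _ := by ring
  calc M4 Z t ≤ (Sq Z).card • (8 * Z * br t) ^ 4 := sum_le_card_nsmul _ _ _ h1
    _ = ((Sq Z).card : ℝ) * (8 * Z * br t) ^ 4 := nsmul_eq_mul _ _
    _ ≤ 5 * Z * (8 * Z * br t) ^ 4 := by gcongr; exact step_card hZ
    _ = _ := by ring

theorem step_split (hDL : DL) {Δ : ℝ} (hΔ : 0 ≤ Δ) (t : ℝ) {k : ℤ} (hk : k ≠ 0) :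
    Dq t (fun s => 1 / s) k = Dq t (phs Δ) k + Dq t (phm Δ) k := by
  have h := hDL t k 2 (fun s => 1 / s) (fun j => if j = 0 then phs Δ else phm Δ) 1 hk le_rfl
    (fun j _ => by
      split_ifs
      · exact ⟨_, st_far_phs0 one_pos hΔ⟩
      · exact ⟨_, st_far_phm one_pos hΔ⟩)
    (fun s _ => by
      simp only [sum_range_succ, range_zero, sum_empty, zero_add, if_true, one_ne_zero, if_false]
      unfold phs phm
      ring)
  simpa only [sum_range_succ, range_zero, sum_empty, zero_add, if_true, one_ne_zero, if_false]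
    using h

theorem step_point {x y a b c d : ℝ} (hx : 0 ≤ x) (hxy : x ≤ 2 * y)
    (h : 2 * π * y ^ 2 ≤ a + b + (c + d)) :
    x ^ 4 ≤ 2 * (a ^ 2 + b ^ 2 + c ^ 2 + d ^ 2) := by
  have h1 : 6 * y ^ 2 ≤ a + b + (c + d) := by nlinarith [Real.pi_gt_three, sq_nonneg y]
  have h2 : (6 * y ^ 2) ^ 2 ≤ (a + b + (c + d)) ^ 2 := by gcongr
  have h3 : x ^ 4 ≤ (2 * y) ^ 4 := by gcongr
  have h4 : (a + b + (c + d)) ^ 2 ≤ 4 * (a ^ 2 + b ^ 2 + c ^ 2 + d ^ 2) := by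
    nlinarith [sq_nonneg (a - b), sq_nonneg (a - c), sq_nonneg (a - d), sq_nonneg (b - c),
      sq_nonneg (b - d), sq_nonneg (c - d)]
  have h5 : 0 ≤ y ^ 4 := by positivity
  have e1 : (6 * y ^ 2) ^ 2 = 36 * y ^ 4 := by ring
  have e2 : (2 * y) ^ 4 = 16 * y ^ 4 := by ring
  linarith

theorem step_one {X Y : ℝ} (hX : 1 ≤ X) : 1 ≤ lg X ^ 10 * max 1 (X / Y) ^ 4 :=
  one_le_mul_of_one_le_of_one_le (one_le_pow₀ (st_lg_one hX)) (one_le_pow₀ (le_max_left _ _))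

theorem pSTEP (hSTS : STS) (hSTM : STM) (hAFE : AFE) (hDL : DL) (hBRG : BRG) (hTRV : TRV) : STEP := by
  obtain ⟨c1, H1⟩ := hSTS
  obtain ⟨c2, H2⟩ := hSTM
  obtain ⟨C0, hC0, HT⟩ := hTRV
  set B := c1 + c2 with hB
  obtain ⟨C1, Z1, hC1, H1⟩ := H1 (8 * B + 4) B (1 / 16) (by omega) (by omega) (by norm_num)
  obtain ⟨C2, Z2, hC2, H2⟩ := H2 (8 * B + 4) B (1 / 16) (by omega) (by omega) (by norm_num)
  obtain ⟨Z0, hZ0⟩ := st_big 0
  refine ⟨8 * B + 4, C0 + 4 * C1 + 4 * C2, max Z0 (max Z1 Z2), by omega, by positivity,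
    fun μ Y X t hμ hY h4 hX => ?_⟩
  obtain ⟨h1, hL, -, -⟩ := hZ0 X ((le_max_left _ _).trans hX)
  have hX1 : Z1 ≤ X := ((le_max_left _ _).trans (le_max_right _ _)).trans hX
  have hX2 : Z2 ≤ X := ((le_max_right _ _).trans (le_max_right _ _)).trans hX
  have hbr := st_br t
  have hone := step_one (Y := Y) h1
  set Q := X * lg X ^ 10 * br t ^ (8 * B + 4) * max 1 (X / Y) ^ 4 with hQ
  have hQ1 : X * br t ^ (8 * B + 4) ≤ Q := by
    calc X * br t ^ (8 * B + 4) = X * br t ^ (8 * B + 4) * 1 := (mul_one _).symm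
      _ ≤ X * br t ^ (8 * B + 4) * (lg X ^ 10 * max 1 (X / Y) ^ 4) := by gcongr
      _ = Q := by rw [hQ]; ring
  have hQ0 : 0 ≤ Q := le_trans (by positivity) hQ1
  have eQ : ∀ u : ℝ, u * X * lg X ^ 10 * br t ^ (8 * B + 4) * max 1 (X / Y) ^ 4 = u * Q := by
    intro u
    rw [hQ]
    ring
  rw [eQ]
  rcases le_total (br t ^ (2 * B)) X with hb | hb
  · set Δ := Real.log (Real.log X ^ 3 * br t ^ B) with hΔ
    have hΔ0 : 0 ≤ Δ := Real.log_nonneg
      (one_le_mul_of_one_le_of_one_le (one_le_pow₀ (by linarith)) (one_le_pow₀ hbr))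
    have s1 := H1 μ Y X t hμ hY h4 hX1 hb
    have s2 := H2 μ Y X t hμ hY h4 hX2
    have s3 := H1 μ Y X (-t) hμ hY h4 hX1 (by rwa [st_br_neg])
    have s4 := H2 μ Y X (-t) hμ hY h4 hX2
    rw [st_br_neg] at s3 s4
    rw [eQ, ← hΔ] at s1 s2 s3 s4
    have hp : ∀ k ∈ Sq X, ‖Lo k (1 / 2 + t * I)‖ ^ 4 ≤
        2 * (‖Dq t (phs Δ) k‖ ^ 2 + ‖Dq t (phm Δ) k‖ ^ 2 + ‖Dq (-t) (phs Δ) k‖ ^ 2 +
          ‖Dq (-t) (phm Δ) k‖ ^ 2) := by
      intro k hk
      obtain ⟨a1, a2, -, -⟩ := step_mem_Sq hk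
      have b1 := hAFE k t a1 a2
      rw [step_split hDL hΔ0 t a1.ne_zero, step_split hDL hΔ0 (-t) a1.ne_zero] at b1
      have b2 := (hBRG.2.2.1 k (1 / 2 + t * I) (by simp; norm_num)).1
      exact step_point (norm_nonneg _) b2
        (b1.trans (add_le_add (norm_add_le _ _) (norm_add_le _ _)))
    have hs : M4 X t ≤ _ := sum_le_sum hp
    rw [← mul_sum, sum_add_distrib, sum_add_distrib, sum_add_distrib] at hs
    have h0 : 0 ≤ C0 * Q := by positivity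
    linarith
  · have h2 := (HT X t h1).1
    have h3 : X ^ 4 ≤ (br t ^ (2 * B)) ^ 4 := by gcongr
    calc M4 X t ≤ C0 * X ^ 5 * br t ^ 4 := h2
      _ = C0 * (X * (X ^ 4 * br t ^ 4)) := by ring
      _ ≤ C0 * (X * ((br t ^ (2 * B)) ^ 4 * br t ^ 4)) := by gcongr
      _ = C0 * (X * br t ^ (8 * B + 4)) := by ring
      _ ≤ C0 * Q := by gcongr
      _ ≤ _ := by gcongr; linarith

theorem step_mono {A : ℕ} {μ ν Y : ℝ} (h : H4 A μ Y) (hμ : μ ≤ ν) : H4 A ν Y := by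
  intro Z hZ t
  refine (h Z hZ t).trans ?_
  have h1 := st_lg_one hZ
  have h2 := st_br t
  have h3 : (0 : ℝ) ≤ max 1 (Z / Y) := zero_le_one.trans (le_max_left _ _)
  gcongr

theorem pFOUR (hSTEP : STEP) (hTRV : TRV) (hMT : MT) : FOUR := by
  obtain ⟨A, C, Z₀, hA, hC, H⟩ := hSTEP
  obtain ⟨C0, hC0, HT⟩ := hTRV
  obtain ⟨C2, hC2, HM⟩ := hMT
  have triv : ∀ Y W Z t : ℝ, 1 ≤ Z → 0 ≤ W → Z ≤ W * max 1 (Z / Y) →
      M4 Z t ≤ C0 * W ^ 4 * Z * lg Z ^ 10 * br t ^ A * max 1 (Z / Y) ^ 4 := by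
    intro Y W Z t hZ hW h
    have hbr := st_br t
    have h1 : (1 : ℝ) ≤ lg Z ^ 10 := one_le_pow₀ (st_lg_one hZ)
    calc M4 Z t ≤ C0 * Z ^ 5 * br t ^ 4 := (HT Z t hZ).1
      _ = C0 * Z * 1 * br t ^ 4 * Z ^ 4 := by ring
      _ ≤ C0 * Z * lg Z ^ 10 * br t ^ A * (W * max 1 (Z / Y)) ^ 4 := by gcongr
      _ = _ := by ring
  set C3 := C + C0 * Z₀ ^ 4 with hC3
  have hC30 : 0 < C3 := by positivity
  have step : ∀ μ Y : ℝ, 0 ≤ μ → 1 ≤ Y → H4 A μ Y → H4 A (C3 + μ / 2) Y := by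
    intro μ Y hμ hY h4 Z hZ t
    have h1 := st_lg_one hZ
    have h2 := st_br t
    have h3 : (1 : ℝ) ≤ max 1 (Z / Y) := le_max_left _ _
    rcases le_total Z₀ Z with h | h
    · refine (H μ Y Z t hμ hY h4 h).trans ?_
      have : C ≤ C3 := by rw [hC3]; linarith [show 0 ≤ C0 * Z₀ ^ 4 by positivity]
      gcongr
    · refine (triv Y Z₀ Z t hZ (by linarith) (by nlinarith)).trans ?_
      have : C0 * Z₀ ^ 4 ≤ C3 + μ / 2 := by rw [hC3]; linarith
      gcongr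
  have all : ∀ Y : ℝ, 1 ≤ Y → H4 A (2 * C3 + 1) Y := by
    intro Y hY
    have ind : ∀ n : ℕ, H4 A (2 * C3 + C0 * Y ^ 4 / 2 ^ n) Y := by
      intro n
      induction n with
      | zero =>
        refine step_mono (μ := C0 * Y ^ 4) (fun Z hZ t => triv Y Y Z t hZ (by linarith) ?_)
          (by simp only [pow_zero, div_one]; linarith)
        calc Z = Y * (Z / Y) := by field_simp
          _ ≤ _ := by gcongr; exact le_max_right _ _
      | succ n ih =>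
        refine step_mono (step _ Y (by positivity) hY ih) (le_of_eq ?_)
        rw [pow_succ]
        field_simp
        ring
    obtain ⟨n, hn⟩ := pow_unbounded_of_one_lt (C0 * Y ^ 4) (by norm_num : (1 : ℝ) < 2)
    refine step_mono (ind n) ?_
    have : C0 * Y ^ 4 / 2 ^ n ≤ 1 := (div_le_one (by positivity)).2 hn.le
    linarith
  refine ⟨A, C2 * (2 * C3 + 1), by positivity, fun K hK => ?_⟩
  have h := HM A (2 * C3 + 1) (max 1 K) K (by positivity) (le_max_left _ _) hK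
    (all _ (le_max_left _ _))
  have e : max 1 (K / max 1 K) = 1 :=
    max_eq_left ((div_le_one (by positivity)).2 (le_max_right _ _))
  rwa [e, one_pow, mul_one] at h

end Pool.Agent.QM
end

-- part Pool.Agent.P.MP_ea46f5_nt.QM.FSTM
section

namespace Pool.Agent.QM

open Complex MeasureTheory Finset
open scoped Real ComplexConjugate

theorem stm_arith {C1 C2 η μ X L G bc bA bB m r R D l M : ℝ} (hC1 : 0 < C1)
    (hη : 0 < η) (hX : 0 ≤ X) (hL : 1 ≤ L) (hG : L ≤ G) (hbc : 0 ≤ bc)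
    (hB : 1 ≤ bB) (hA : bB ^ 2 ≤ bA) (hm : 1 ≤ m) (hr0 : 0 ≤ r) (hr : L ^ 3 * r ≤ X)
    (hR : R = L * bB) (hl : l ≤ D) (hD : bc * D ^ 3 ≤ η * R) (hM0 : 0 ≤ M)
    (hM : R ^ 2 * M ≤ C2 * μ * X * (G ^ 10 * m)) :
    C1 * bc * (l / R) * (X * R ^ 2 * (2 * D) ^ 2 * L ^ 8 / L ^ (2 * 0) + (2 * D) ^ 2 *
      (R ^ 2 * M * bA + L ^ 5 * X * R + L ^ 11 * r * R)) ≤
      (12 * C1 * η + 4 * C1 * C2 * η * μ) * X * G ^ 10 * bA * m := by
  have hL0 : 0 < L := by linarith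
  have hG0 : 0 ≤ G := by linarith
  have hbB : 0 < bB := by linarith
  have hB2 : bB ≤ bA := by nlinarith
  have hbA : 0 < bA := by linarith
  have hm0 : 0 ≤ m := by linarith
  have hR0 : 0 < R := by rw [hR]; positivity
  have hGL : L ^ 10 ≤ G ^ 10 * m := by
    calc L ^ 10 ≤ G ^ 10 := by gcongr
      _ = G ^ 10 * 1 := (mul_one _).symm
      _ ≤ _ := by gcongr
  set Q := G ^ 10 * m with hQ
  have hQ0 : 0 ≤ Q := by positivity
  set S := X * R ^ 2 * L ^ 8 + (R ^ 2 * M * bA + L ^ 5 * X * R + L ^ 11 * r * R) with hS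
  have hS0 : 0 ≤ S := by positivity
  have t0 : bc * (l / R) * D ^ 2 ≤ η := by
    calc bc * (l / R) * D ^ 2 ≤ bc * (D / R) * D ^ 2 := by gcongr
      _ = bc * D ^ 3 / R := by ring
      _ ≤ η := by rwa [div_le_iff₀ hR0]
  have t1 : X * R ^ 2 * L ^ 8 ≤ bA * (X * Q) := by
    calc X * R ^ 2 * L ^ 8 = bB ^ 2 * (X * L ^ 10) := by rw [hR]; ring
      _ ≤ _ := by gcongr
  have t2 : R ^ 2 * M * bA ≤ C2 * μ * (bA * (X * Q)) := by
    calc R ^ 2 * M * bA ≤ C2 * μ * X * Q * bA := by gcongr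
      _ = _ := by ring
  have t3 : L ^ 5 * X * R ≤ bA * (X * Q) := by
    have h1 : L ^ 6 ≤ L ^ 10 := pow_le_pow_right₀ hL (by norm_num)
    calc L ^ 5 * X * R = bB * (X * L ^ 6) := by rw [hR]; ring
      _ ≤ _ := by gcongr; exact h1.trans hGL
  have t4 : L ^ 11 * r * R ≤ bA * (X * Q) := by
    have h1 : L ^ 9 ≤ L ^ 10 := pow_le_pow_right₀ hL (by norm_num)
    calc L ^ 11 * r * R = bB * ((L ^ 3 * r) * L ^ 9) := by rw [hR]; ring
      _ ≤ _ := by gcongr; exact h1.trans hGL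
  calc _ = 4 * C1 * (bc * (l / R) * D ^ 2) * S := by
        simp only [mul_zero, pow_zero, div_one, hS]
        ring
    _ ≤ 4 * C1 * η * S := by gcongr
    _ ≤ 4 * C1 * η * (bA * (X * Q) + (C2 * μ * (bA * (X * Q)) + bA * (X * Q) + bA * (X * Q))) := by
        rw [hS]
        gcongr
    _ = _ := by rw [hQ]; ring

theorem pSTM (hTQF : TQF) (hMT : MT) : STM := by
  obtain ⟨c, R₀, -, H⟩ := hTQF
  obtain ⟨C2, hC2, HM⟩ := hMT
  refine ⟨c + 1, fun A B' δ hcB hBA hδ => ?_⟩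
  obtain ⟨C1, hC1, H⟩ := H A
  set η := δ / (4 * C1 * C2) with hη
  have hη0 : 0 < η := by positivity
  obtain ⟨L₀, hL₀⟩ := st_delta B' hη0
  obtain ⟨Z₀, hZ⟩ := st_big (max R₀ L₀)
  refine ⟨12 * C1 * η, Z₀, by positivity, fun μ Y X t hμ hY h4 hX => ?_⟩
  obtain ⟨h1, hL, ha, h6⟩ := hZ X hX
  set L := Real.log X with hLdef
  have hbr := st_br t
  have hL1 : 1 ≤ L := by linarith
  have hbB : 1 ≤ br t ^ B' := one_le_pow₀ hbr
  set R := L * br t ^ B' with hR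
  have hLR : L ≤ R := le_mul_of_one_le_right (by linarith) hbB
  have hR1 : 1 ≤ R := hL1.trans hLR
  have hRE : R ≤ L ^ 3 * br t ^ B' := by
    rw [hR]
    gcongr
    exact le_self_pow₀ hL1 (by norm_num)
  set Δ := Real.log (L ^ 3 * br t ^ B') with hΔ
  have hΔ0 : 0 ≤ Δ := Real.log_nonneg (hR1.trans hRE)
  have hRΔ : Real.log R ≤ Δ := Real.log_le_log (by linarith) hRE
  have hK0 : 0 < X / R ^ 2 := by positivity
  have hKX : X / R ^ 2 ≤ X := div_le_self (by linarith) (one_le_pow₀ hR1)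
  have hε : 0 < 1 / L := by positivity
  have hD := HM A μ Y (X / R ^ 2) hμ hY hK0 h4
  have key := H (phm Δ) X R t (2 * Δ) (2 * Δ) _ 0 h1 hL (((le_max_left _ _).trans ha).trans hLR)
    (by norm_num) (by linarith) (st_far_phm hε hΔ0) (st_near_phm 0 hε hΔ0) hD
  refine key.trans ?_
  have hm : (1 : ℝ) ≤ max 1 (X / Y) ^ 4 := one_le_pow₀ (le_max_left _ _)
  have hlg := st_lg_nonneg hK0.le
  have hm2 : (0 : ℝ) ≤ max 1 (X / R ^ 2 / Y) := zero_le_one.trans (le_max_left _ _)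
  have := stm_arith (C2 := C2) (μ := μ) (X := X) (G := lg X) (bc := br t ^ c) (bA := br t ^ A)
    (bB := br t ^ B') (r := √X) (D := Δ) (l := Real.log R)
    (M := C2 * μ * (X / R ^ 2) * lg (X / R ^ 2) ^ 10 * max 1 (X / R ^ 2 / Y) ^ 4)
    hC1 hη0 (by linarith) hL1 (st_log_le_lg h1) (by positivity) hbB
    (by rw [← pow_mul, mul_comm]; exact pow_le_pow_right₀ hbr hBA) hm
    (Real.sqrt_nonneg _) (st_sqrt (by linarith) h6) hR hRΔ
    (by
      have h7 := hL₀ L (br t) ((le_max_right _ _).trans ha) hL1 hbr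
      calc br t ^ c * Δ ^ 3 ≤ br t ^ c * (η * L * br t) := by gcongr
        _ = η * (L * br t ^ (c + 1)) := by ring
        _ ≤ η * R := by rw [hR]; gcongr)
    (by positivity)
    (by
      have h7 := st_dual_le hK0.le hKX hY
      calc _ = C2 * μ * X * (lg (X / R ^ 2) ^ 10 * max 1 (X / R ^ 2 / Y) ^ 4) := by
            field_simp
        _ ≤ _ := by gcongr)
  refine this.trans (le_of_eq ?_)
  have e : 4 * C1 * C2 * η = δ := by rw [hη]; field_simp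
  rw [e]

end Pool.Agent.QM
end

-- part Pool.Agent.P.MP_ea46f5_nt.QM.FSTS
section

namespace Pool.Agent.QM

open Complex MeasureTheory Finset
open scoped Real ComplexConjugate

theorem sts_arith {C1 C2 δ μ X L G bc bA bB m r E e : ℝ} (hC1 : 0 < C1) (hC2 : 0 < C2)
    (_hδ : 0 < δ) (hμ : 0 ≤ μ) (hX : 0 ≤ X) (hL : 1 ≤ L) (hG : L ≤ G) (hbc : 1 ≤ bc)
    (hA : bc ≤ bA) (hB : bc ≤ bB) (hm : 1 ≤ m) (hr0 : 0 ≤ r) (hr : L ^ 3 * r ≤ X)
    (hE : E = L ^ 3 * bB) (he0 : 0 ≤ e) (he : e ≤ 1) (hδL : 4 * C1 * C2 ≤ δ * L) {M : ℝ}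
    (hM : E * M ≤ C2 * μ * X * (G ^ 10 * m) / E) :
    C1 * bc * (X * 1 * (2 * L) ^ 2 * L ^ 8 / L ^ (2 * 0) + 1 * (2 * L) ^ 2 *
      (E * M * bA + L ^ 5 * X * e + L ^ 11 * r)) ≤ (12 * C1 + δ * μ) * X * G ^ 10 * bA * m := by
  have hL0 : 0 < L := by linarith
  have hG0 : 0 ≤ G := by linarith
  have hbA : 0 < bA := by linarith
  have hbB : 0 < bB := by linarith
  have hm0 : 0 ≤ m := by linarith
  have hGL : L ^ 10 ≤ G ^ 10 * m := by
    calc L ^ 10 ≤ G ^ 10 := by gcongr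
      _ = G ^ 10 * 1 := (mul_one _).symm
      _ ≤ _ := by gcongr
  set Q := G ^ 10 * m with hQ
  have hQ0 : 0 ≤ Q := by positivity
  have t1 : bc * (X * L ^ 10) ≤ bA * (X * Q) := by gcongr
  have t2 : 4 * C1 * (bc * (L ^ 2 * (E * M * bA))) ≤ δ * μ * (bA * (X * Q)) := by
    calc 4 * C1 * (bc * (L ^ 2 * (E * M * bA)))
        ≤ 4 * C1 * (bB * (L ^ 2 * (C2 * μ * X * Q / E * bA))) := by
          have h0 : bc * (L ^ 2 * (E * M * bA)) ≤ bc * (L ^ 2 * (C2 * μ * X * Q / E * bA)) := by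
            gcongr
          have h1 : 0 ≤ L ^ 2 * (C2 * μ * X * Q / E * bA) := by rw [hE]; positivity
          have h2 := mul_le_mul_of_nonneg_right hB h1
          have h3 : 0 ≤ 4 * C1 := by positivity
          exact mul_le_mul_of_nonneg_left (h0.trans h2) h3
      _ = (4 * C1 * C2) / L * μ * (bA * (X * Q)) := by rw [hE]; field_simp
      _ ≤ δ * μ * (bA * (X * Q)) := by
          gcongr
          rwa [div_le_iff₀ hL0]
  have t3 : bc * (L ^ 2 * (L ^ 5 * X * e)) ≤ bA * (X * Q) := by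
    have h1 : L ^ 7 ≤ L ^ 10 := pow_le_pow_right₀ hL (by norm_num)
    calc bc * (L ^ 2 * (L ^ 5 * X * e)) = bc * (X * (L ^ 7 * e)) := by ring
      _ ≤ bA * (X * (Q * 1)) := by gcongr; exact h1.trans hGL
      _ = _ := by ring
  have t4 : bc * (L ^ 2 * (L ^ 11 * r)) ≤ bA * (X * Q) := by
    calc bc * (L ^ 2 * (L ^ 11 * r)) = bc * ((L ^ 3 * r) * L ^ 10) := by ring
      _ ≤ _ := by gcongr
  calc _ = 4 * C1 * (bc * (X * L ^ 10)) + 4 * C1 * (bc * (L ^ 2 * (E * M * bA))) +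
        4 * C1 * (bc * (L ^ 2 * (L ^ 5 * X * e))) + 4 * C1 * (bc * (L ^ 2 * (L ^ 11 * r))) := by
        simp only [mul_zero, pow_zero, div_one]
        ring
    _ ≤ 4 * C1 * (bA * (X * Q)) + δ * μ * (bA * (X * Q)) + 4 * C1 * (bA * (X * Q)) +
        4 * C1 * (bA * (X * Q)) := by gcongr
    _ = _ := by rw [hQ]; ring

theorem pSTS (hTQ : TQ) (hMT : MT) (hTW0 : TW0) : STS := by
  obtain ⟨C₀, B, c, -, H⟩ := hTQ
  obtain ⟨C2, hC2, HM⟩ := hMT
  refine ⟨c, fun A B' δ hcB hcA hδ => ?_⟩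
  obtain ⟨C1, hC1, H⟩ := H A
  obtain ⟨Z₀, hZ⟩ := st_big (4 * C1 * C2 / δ)
  refine ⟨12 * C1, Z₀, by positivity, fun μ Y X t hμ hY h4 hX hb => ?_⟩
  obtain ⟨h1, hL, ha, h6⟩ := hZ X hX
  set L := Real.log X with hLdef
  have hbr := st_br t
  have hL1 : 1 ≤ L := by linarith
  have hbB : 1 ≤ br t ^ B' := one_le_pow₀ hbr
  set E := L ^ 3 * br t ^ B' with hE
  have hE1 : 1 ≤ E := one_le_mul_of_one_le_of_one_le (one_le_pow₀ hL1) hbB
  have hEX : E ≤ X := by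
    refine le_of_sq_le_sq ?_ (by linarith)
    calc E ^ 2 = L ^ 6 * br t ^ (2 * B') := by rw [hE]; ring
      _ ≤ X * X := by gcongr
      _ = X ^ 2 := by ring
  set Δ := Real.log E with hΔ
  have hΔ0 : 0 ≤ Δ := Real.log_nonneg hE1
  have hΔL : Δ ≤ L := Real.log_le_log (by linarith) hEX
  have heΔ : Real.exp Δ = E := Real.exp_log (by linarith)
  have hK : X * Real.exp (-2 * Δ) = X / E ^ 2 := by
    rw [← heΔ, ← Real.exp_nat_mul, div_eq_mul_inv, ← Real.exp_neg]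
    congr 2
    push_cast
    ring
  have hK0 : 0 < X / E ^ 2 := by positivity
  have hKX : X / E ^ 2 ≤ X := div_le_self (by linarith) (one_le_pow₀ hE1)
  have hε : 0 < 1 / L := by positivity
  have hV : 2 / (1 / L) = 2 * L := by field_simp
  have hD := HM A μ Y (X / E ^ 2) hμ hY hK0 h4
  have hF := st_far_phs (Δ := Δ) hε
  have hN := st_near_phs (t := t) C₀ hε hΔ0
  rw [hV] at hF hN
  have key := H (phs Δ) ∅ (fun _ => 1) 0 1 1 X Δ t (2 * L) (2 * L) _ 0 (hTW0 B) h1 hL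
    (by linarith) hΔ0 hΔL (by norm_num) (by linarith) hF hN (by rw [hK]; exact hD)
  simp only [one_mul] at key
  refine key.trans ?_
  rw [heΔ]
  have hm : (1 : ℝ) ≤ max 1 (X / Y) ^ 4 := one_le_pow₀ (le_max_left _ _)
  have := sts_arith (μ := μ) (X := X) (G := lg X) (bc := br t ^ c) (bA := br t ^ A) (bB := br t ^ B')
    (r := √X) (e := Real.exp (-Δ / 2)) hC1 hC2 hδ hμ (by linarith) hL1 (st_log_le_lg h1)
    (one_le_pow₀ hbr) (pow_le_pow_right₀ hbr hcA) (pow_le_pow_right₀ hbr hcB) hm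
    (Real.sqrt_nonneg _) (st_sqrt (by linarith) h6) hE (Real.exp_pos _).le
    (by rw [Real.exp_le_one_iff]; linarith)
    (by rw [div_le_iff₀ hδ] at ha; linarith)
    (M := C2 * μ * (X / E ^ 2) * lg (X / E ^ 2) ^ 10 * max 1 (X / E ^ 2 / Y) ^ 4) (by
      have h7 := st_dual_le hK0.le hKX hY
      calc _ = C2 * μ * X * (lg (X / E ^ 2) ^ 10 * max 1 (X / E ^ 2 / Y) ^ 4) / E := by
            field_simp
        _ ≤ _ := by gcongr)
  simpa only [one_mul] using this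

end Pool.Agent.QM
end

-- part Pool.Agent.P.MP_ea46f5_nt.QM.FZD
section

namespace Pool.Agent.QM

open Complex MeasureTheory Finset
open scoped Real ComplexConjugate

theorem zd7_Q {p : ℕ} (hp0 : 0 < p) (s₁ s₂ : ℂ) :
    Qp s₁ s₂ p = 3 * (p : ℂ) ^ (-(1 + 2 * s₁)) + 4 * (p : ℂ) ^ (-(1 + (s₁ + s₂))) +
      3 * (p : ℂ) ^ (-(1 + 2 * s₂)) := by
  have hc : (p : ℂ) ≠ 0 := by exact_mod_cast hp0.ne'
  have h : ∀ a b : ℂ, xs a p * xs b p = (p : ℂ) ^ (-(1 + (a + b))) := by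
    intro a b
    unfold xs
    rw [← cpow_add _ _ hc]
    congr 1
    ring
  unfold Qp
  rw [sq, sq, h, h, h, two_mul, two_mul]

theorem zd7_norm {p : ℕ} (hp0 : 0 < p) (ε : ℝ) (w : ℂ) (hw : w.re = 2 * ε) :
    ‖(p : ℂ) ^ (-(1 + w))‖ = (p : ℝ) ^ (-(1 + 2 * ε)) := by
  rw [norm_natCast_cpow_of_pos hp0]
  congr 1
  simp [hw]

theorem zd7_pt {p : ℕ} (hp0 : 0 < p) (ε C : ℝ) (s₁ s₂ y : ℂ) (hε : 0 < ε)
    (hC : 0 < C) (h₁ : s₁.re = ε) (h₂ : s₂.re = ε)
    (hL : ‖y - 1 - Qp s₁ s₂ p‖ ≤ C / (p : ℝ) ^ 2) :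
    ‖y - 1‖ ≤ 10 * (p : ℝ) ^ (-(1 + 2 * ε)) + C * (p : ℝ) ^ (-(1 + 7 / 20) : ℝ) ∧
      (y - 1).re + ‖y - 1‖ ^ 2 / 2 ≤ 3 * ((p : ℂ) ^ (-(1 + 2 * s₁))).re +
        3 * ((p : ℂ) ^ (-(1 + 2 * s₂))).re + 4 * (p : ℝ) ^ (-(1 + 2 * ε)) +
        (C + (10 + C) ^ 2) * (p : ℝ) ^ (-(1 + 7 / 20) : ℝ) := by
  have hr : (0 : ℝ) < p := by exact_mod_cast hp0
  have hp1 : (1 : ℝ) ≤ p := by exact_mod_cast hp0
  have n1 := zd7_norm hp0 ε (2 * s₁) (by simp [h₁])
  have n2 := zd7_norm hp0 ε (2 * s₂) (by simp [h₂])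
  have n12 := zd7_norm hp0 ε (s₁ + s₂) (by rw [add_re, h₁, h₂, two_mul])
  have g1 : (p : ℝ) ^ (-(1 + 7 / 20) : ℝ) ≤ (p : ℝ) ^ (-1 : ℝ) :=
    Real.rpow_le_rpow_of_exponent_le hp1 (by norm_num)
  have g2 : (p : ℝ) ^ (-1 : ℝ) * (p : ℝ) ^ (-1 : ℝ) ≤ (p : ℝ) ^ (-(1 + 7 / 20) : ℝ) := by
    rw [← Real.rpow_add hr]
    exact Real.rpow_le_rpow_of_exponent_le hp1 (by norm_num)
  have g3 : (p : ℝ) ^ (-(1 + 2 * ε)) ≤ (p : ℝ) ^ (-1 : ℝ) :=
    Real.rpow_le_rpow_of_exponent_le hp1 (by linarith)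
  have g0 : 0 ≤ (p : ℝ) ^ (-(1 + 7 / 20) : ℝ) := Real.rpow_nonneg hr.le _
  have g4 : C / (p : ℝ) ^ 2 = C * ((p : ℝ) ^ (-1 : ℝ) * (p : ℝ) ^ (-1 : ℝ)) := by
    rw [Real.rpow_neg_one]
    field_simp
  have hD := hL.trans ((le_of_eq g4).trans (mul_le_mul_of_nonneg_left g2 hC.le))
  rw [zd7_Q hp0] at hD
  generalize (p : ℝ) ^ (-(1 + 7 / 20) : ℝ) = g at *
  generalize (p : ℝ) ^ (-1 : ℝ) = r at *
  generalize (p : ℝ) ^ (-(1 + 2 * ε)) = a at *
  generalize (p : ℂ) ^ (-(1 + 2 * s₁)) = W₁ at *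
  generalize (p : ℂ) ^ (-(1 + 2 * s₂)) = W₂ at *
  generalize (p : ℂ) ^ (-(1 + (s₁ + s₂))) = W at *
  clear g4 hL
  have e : y - 1 = (y - 1 - (3 * W₁ + 4 * W + 3 * W₂)) + (3 * W₁ + 4 * W + 3 * W₂) := by ring
  generalize y - 1 - (3 * W₁ + 4 * W + 3 * W₂) = D at e hD
  have n3 : ‖(3 : ℂ)‖ = 3 := by simp
  have n4 : ‖(4 : ℂ)‖ = 4 := by simp
  have t1 := norm_add_le D (3 * W₁ + 4 * W + 3 * W₂)
  have t2 := norm_add_le (3 * W₁ + 4 * W) (3 * W₂)
  have t3 := norm_add_le (3 * W₁) (4 * W)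
  rw [← e] at t1
  rw [norm_mul, n3, n2] at t2
  rw [norm_mul, norm_mul, n3, n4, n1, n12] at t3
  have t4 : ‖y - 1‖ ≤ 10 * a + C * g := by linarith
  refine ⟨t4, ?_⟩
  have t5 : ‖y - 1‖ ≤ (10 + C) * r := by
    have := mul_le_mul_of_nonneg_left g1 hC.le
    linarith
  have t6 : ‖y - 1‖ ^ 2 ≤ (10 + C) ^ 2 * g := by
    calc ‖y - 1‖ ^ 2 ≤ ((10 + C) * r) ^ 2 := pow_le_pow_left₀ (norm_nonneg _) t5 2
      _ = (10 + C) ^ 2 * (r * r) := by ring
      _ ≤ _ := mul_le_mul_of_nonneg_left g2 (sq_nonneg _)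
  have t7 : (y - 1).re = D.re + (3 * W₁.re + 4 * W.re + 3 * W₂.re) := by
    rw [e]
    simp
  have t8 := re_le_norm D
  have t9 := re_le_norm W
  have t10 : 0 ≤ (10 + C) ^ 2 * g := mul_nonneg (sq_nonneg _) g0
  rw [t7]
  linarith

theorem zd7_pz (hPZ : PZ) : ∃ C : ℝ, 0 < C ∧ ∀ (ε : ℝ) (z : ℂ), 0 < ε → ε ≤ 1 / 100 → z.re = ε →
    Summable (fun p : Nat.Primes => (((p : ℕ) : ℂ) ^ (-(1 + 2 * z))).re) ∧
      Real.exp (∑' p : Nat.Primes, (((p : ℕ) : ℂ) ^ (-(1 + 2 * z))).re) ≤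
        C * (br z.im * (1 + 1 / ‖z‖)) := by
  obtain ⟨C₂, hC₂, hZ⟩ := hPZ.2
  refine ⟨2 * C₂, by positivity, fun ε z hε hε1 hz => ⟨?_, ?_⟩⟩
  · refine Summable.of_norm_bounded (hPZ.1 (2 * ε) (by linarith)).1 fun p => ?_
    exact (abs_re_le_norm _).trans (le_of_eq (zd7_norm p.2.pos ε (2 * z) (by simp [hz])))
  · have k8 := hZ (2 * z) (by simp [hz, hε]) (by simp [hz]; linarith)
    have hzp : 0 < ‖z‖ := lt_of_lt_of_le (by rw [hz, abs_of_pos hε]; exact hε) (abs_re_le_norm z)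
    have b1 : br (2 * z).im ≤ 2 * br z.im := by
      unfold br
      simp [abs_mul]
      linarith
    have b2 : 1 + 1 / ‖2 * z‖ ≤ 1 + 1 / ‖z‖ := by
      have n2 : ‖2 * z‖ = 2 * ‖z‖ := by simp
      rw [n2]
      have := one_div_le_one_div_of_le hzp (by linarith : ‖z‖ ≤ 2 * ‖z‖)
      linarith
    have b3 : 0 ≤ br z.im := by unfold br; positivity
    refine k8.trans ?_
    calc _ = C₂ * (br (2 * z).im * (1 + 1 / ‖2 * z‖)) := by ring
      _ ≤ C₂ * (2 * br z.im * (1 + 1 / ‖z‖)) :=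
          mul_le_mul_of_nonneg_left (mul_le_mul b1 b2 (by positivity) (by linarith)) hC₂.le
      _ = _ := by ring

theorem zd7_lam (lam ε : ℝ) (z : ℂ) (hlam : 0 ≤ lam) (hε : 0 < ε) (hel : ε * lam ≤ 1)
    (hz : z.re = ε) : lam * ‖z‖ ≤ 1 + lam * |z.im| := by
  have hzn : ‖z‖ ≤ ε + |z.im| := by
    have := norm_le_abs_re_add_abs_im z
    rwa [hz, abs_of_pos hε] at this
  have := mul_le_mul_of_nonneg_left hzn hlam
  linarith

theorem zd7_inP {p : ℕ} (hp0 : 0 < p) (ε : ℝ) (s₁ s₂ : ℂ) (hε : 0 < ε) (h₁ : s₁.re = ε)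
    (h₂ : s₂.re = ε) :
    0 ≤ 3 * ((p : ℂ) ^ (-(1 + 2 * s₁))).re + 3 * ((p : ℂ) ^ (-(1 + 2 * s₂))).re +
      4 * (p : ℝ) ^ (-(1 + 2 * ε)) + (-10 * (1 / (p : ℝ)) +
        (6 * (min 1 (2 * ‖s₁‖ * Real.log p) / p) + 6 * (min 1 (2 * ‖s₂‖ * Real.log p) / p) +
          8 * (min 1 (2 * ε * Real.log p) / p))) := by
  have a1 := hc_inP hp0 s₁ (by rw [h₁]; exact hε.le)
  have a2 := hc_inP hp0 s₂ (by rw [h₂]; exact hε.le)
  have a3 := hc_inP hp0 (ε : ℂ) (by rw [ofReal_re]; exact hε.le)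
  have a4 := (re_le_norm _).trans (le_of_eq (zd7_norm hp0 ε (2 * (ε : ℂ)) (by simp)))
  rw [Complex.norm_real, Real.norm_of_nonneg hε.le] at a3
  linarith

theorem zd7_prod (hLOC0 : LOC0) (hPRD : PRD) (hPZ : PZ) (hPL : PL) : ∃ C : ℝ, 0 < C ∧
    ∀ (P : Finset ℕ) (lam ε : ℝ) (s₁ s₂ : ℂ), OP P → (∀ p ∈ P, (p : ℝ) ≤ Real.exp lam) →
      0 ≤ lam → 0 < ε → ε ≤ 1 / 100 → ε * lam ≤ 1 → s₁.re = ε → s₂.re = ε →
      ‖∏' p : Nat.Primes, (if (p : ℕ) = 2 ∨ (p : ℕ) ∈ P then 1 else locv 1 0 s₁ s₂ p 0)‖ ≤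
        C * Real.exp (-10 * sg P) * (1 + lam * |s₁.im|) ^ 6 * (1 + lam * |s₂.im|) ^ 6 *
          (1 / ε) ^ 4 * (br s₁.im * (1 + 1 / ‖s₁‖)) ^ 3 * (br s₂.im * (1 + 1 / ‖s₂‖)) ^ 3 := by
  obtain ⟨C, hC, hL, -⟩ := hLOC0
  obtain ⟨C₂, hC₂, hZ⟩ := zd7_pz hPZ
  obtain ⟨C₃, hC₃, -, hL2, -⟩ := hPL
  obtain ⟨C', hC'⟩ : ∃ C' : ℝ, C' = C + (10 + C) ^ 2 := ⟨_, rfl⟩
  have hC12 : 12 ≤ C' := by rw [hC']; nlinarith
  refine ⟨C₂ ^ 6 * Real.exp (C' * (20 / 7) + 20 * C₃ + 16) * 3 ^ 12, by positivity, ?_⟩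
  intro P lam ε s₁ s₂ hP hle hlam hε hε1 hel h₁ h₂
  have r₁ : 0 ≤ s₁.re := by rw [h₁]; exact hε.le
  have r₂ : 0 ≤ s₂.re := by rw [h₂]; exact hε.le
  set u : Nat.Primes → ℂ := fun p => if (p : ℕ) = 2 ∨ (p : ℕ) ∈ P then 0 else
    locv 1 0 s₁ s₂ p 0 - 1 with hu
  have e : (fun p : Nat.Primes => if (p : ℕ) = 2 ∨ (p : ℕ) ∈ P then (1 : ℂ) else
      locv 1 0 s₁ s₂ p 0) = fun p => 1 + u p := by
    funext p
    simp only [hu]
    split_ifs <;> ring
  obtain ⟨S1, S1'⟩ := hPZ.1 (2 * ε) (mul_pos two_pos hε)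
  have S3 := (hPZ.1 (7 / 20) (by norm_num)).1
  have S3' := hc_pz hPZ (7 / 20) (by norm_num)
  have pt := fun (p : Nat.Primes) (h2 : (p : ℕ) ≠ 2) =>
    zd7_pt p.2.pos ε C s₁ s₂ _ hε hC h₁ h₂ (hL p s₁ s₂ p.2 h2 r₁ r₂)
  have Su : Summable fun p => ‖u p‖ := by
    refine Summable.of_nonneg_of_le (fun p => norm_nonneg _) (fun p => ?_)
      ((S1.mul_left 10).add (S3.mul_left C))
    simp only [hu]
    split_ifs with h
    · rw [norm_zero]
      positivity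
    · exact (pt p (not_or.mp h).1).1
  obtain ⟨Sv, hb, -⟩ := hPRD u Su
  obtain ⟨SA, kA⟩ := hZ ε s₁ hε hε1 h₁
  obtain ⟨SB, kB⟩ := hZ ε s₂ hε hε1 h₂
  have S4 := hc_ind P (fun p hp => (hP p hp).1) fun p => -10 * (1 / (p : ℝ)) +
    (6 * (min 1 (2 * ‖s₁‖ * Real.log p) / p) + 6 * (min 1 (2 * ‖s₂‖ * Real.log p) / p) +
      8 * (min 1 (2 * ε * Real.log p) / p))
  have H := ((((SA.hasSum.mul_left 3).add (SB.hasSum.mul_left 3)).add
    (S1.hasSum.mul_left 4)).add (S3.hasSum.mul_left C')).add S4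
  have hle2 := hasSum_le (fun p : Nat.Primes => (show (u p).re + ‖u p‖ ^ 2 / 2 ≤ _ by
    have g0 : 0 ≤ ((p : ℕ) : ℝ) ^ (-(1 + 7 / 20) : ℝ) := by positivity
    simp only [hu]
    by_cases hm : (p : ℕ) ∈ P
    · rw [if_pos (Or.inr hm), if_pos hm]
      have k1 := zd7_inP p.2.pos ε s₁ s₂ hε h₁ h₂
      have k2 := mul_nonneg (le_trans (by norm_num) hC12 : (0 : ℝ) ≤ C') g0
      simp only [zero_re, norm_zero]
      linarith only [k1, k2]
    · rw [if_neg hm]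
      by_cases h2 : (p : ℕ) = 2
      · rw [if_pos (Or.inl h2)]
        have k1 := hc_two s₁ r₁
        have k2 := hc_two s₂ r₂
        rw [← h2] at k1 k2
        have k3 := mul_le_mul_of_nonneg_right hC12 g0
        have k4 : 0 ≤ ((p : ℕ) : ℝ) ^ (-(1 + 2 * ε)) := by positivity
        simp only [zero_re, norm_zero]
        linarith only [k1, k2, k3, k4]
      · rw [if_neg (not_or.mpr ⟨h2, hm⟩), add_zero, hC']
        exact (pt p h2).2)) Sv.hasSum H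
  have k3 : C' * ∑' p : Nat.Primes, ((p : ℕ) : ℝ) ^ (-(1 + 7 / 20) : ℝ) ≤ C' * (20 / 7) :=
    mul_le_mul_of_nonneg_left (S3'.trans (by norm_num)) (le_trans (by norm_num) hC12)
  have hPP : ∀ p ∈ P, p.Prime ∧ (p : ℝ) ≤ Real.exp lam := fun p hp => ⟨(hP p hp).1, hle p hp⟩
  have k41 := hL2 P lam (2 * ‖s₁‖) hPP hlam (by positivity)
  have k42 := hL2 P lam (2 * ‖s₂‖) hPP hlam (by positivity)
  have k43 := hL2 P lam (2 * ε) hPP hlam (by positivity)
  have k44 : Real.log (1 + lam * (2 * ε)) ≤ 2 := by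
    have := Real.log_le_sub_one_of_pos (show 0 < 1 + lam * (2 * ε) by positivity)
    linarith only [this, hel]
  have k5 : ∑ p ∈ P, (-10 * (1 / (p : ℝ)) +
      (6 * (min 1 (2 * ‖s₁‖ * Real.log p) / p) + 6 * (min 1 (2 * ‖s₂‖ * Real.log p) / p) +
        8 * (min 1 (2 * ε * Real.log p) / p))) =
      -10 * sg P + (6 * ∑ p ∈ P, min 1 (2 * ‖s₁‖ * Real.log p) / p +
        6 * ∑ p ∈ P, min 1 (2 * ‖s₂‖ * Real.log p) / p +
        8 * ∑ p ∈ P, min 1 (2 * ε * Real.log p) / p) := by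
    rw [sum_add_distrib, sum_add_distrib, sum_add_distrib, ← mul_sum, ← mul_sum, ← mul_sum,
      ← mul_sum, sg]
  rw [k5] at hle2
  have l1 := zd7_lam lam ε s₁ hlam hε hel h₁
  have l2 := zd7_lam lam ε s₂ hlam hε hel h₂
  have y1 : 0 ≤ lam * |s₁.im| := mul_nonneg hlam (abs_nonneg _)
  have y2 : 0 ≤ lam * |s₂.im| := mul_nonneg hlam (abs_nonneg _)
  have k61 : 1 + lam * (2 * ‖s₁‖) ≤ 3 * (1 + lam * |s₁.im|) := by linarith only [l1, y1]
  have k62 : 1 + lam * (2 * ‖s₂‖) ≤ 3 * (1 + lam * |s₂.im|) := by linarith only [l2, y2]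
  have k71 : 0 < 1 + lam * (2 * ‖s₁‖) := by positivity
  have k72 : 0 < 1 + lam * (2 * ‖s₂‖) := by positivity
  have k8 : 1 + 1 / (2 * ε) ≤ 1 / ε := by
    have h1 : 1 / (2 * ε) = 1 / ε / 2 := by field_simp
    have h2 : 1 / (1 / 100) ≤ 1 / ε := one_div_le_one_div_of_le hε hε1
    rw [h1]
    linarith only [h2]
  rw [e]
  refine hb.trans ?_
  generalize ∑' p : Nat.Primes, (((p : ℕ) : ℂ) ^ (-(1 + 2 * s₁))).re = A₁ at kA hle2
  generalize ∑' p : Nat.Primes, (((p : ℕ) : ℂ) ^ (-(1 + 2 * s₂))).re = A₂ at kB hle2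
  generalize ∑' p : Nat.Primes, ((p : ℕ) : ℝ) ^ (-(1 + 2 * ε)) = A₃ at S1' hle2
  have k10 : ∑' p, ((u p).re + ‖u p‖ ^ 2 / 2) ≤ ((3 : ℕ) : ℝ) * A₁ + ((3 : ℕ) : ℝ) * A₂ +
      ((4 : ℕ) : ℝ) * A₃ + -10 * sg P + ((6 : ℕ) : ℝ) * Real.log (1 + lam * (2 * ‖s₁‖)) +
      ((6 : ℕ) : ℝ) * Real.log (1 + lam * (2 * ‖s₂‖)) + (C' * (20 / 7) + 20 * C₃ + 16) := by
    push_cast
    linarith only [hle2, k3, k41, k42, k43, k44]
  refine (Real.exp_le_exp.mpr k10).trans ?_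
  rw [Real.exp_add _ (C' * (20 / 7) + 20 * C₃ + 16)]
  simp only [Real.exp_add _ (_ * _), Real.exp_nat_mul, Real.exp_log k71, Real.exp_log k72]
  have m1 := pow_le_pow_left₀ (Real.exp_pos _).le kA 3
  have m2 := pow_le_pow_left₀ (Real.exp_pos _).le kB 3
  have m3 := pow_le_pow_left₀ (Real.exp_pos _).le (S1'.trans k8) 4
  have m4 := pow_le_pow_left₀ k71.le k61 6
  have m5 := pow_le_pow_left₀ k72.le k62 6
  have b1 : 0 ≤ br s₁.im := by unfold br; positivity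
  have b2 : 0 ≤ br s₂.im := by unfold br; positivity
  calc _ ≤ (C₂ * (br s₁.im * (1 + 1 / ‖s₁‖))) ^ 3 * (C₂ * (br s₂.im * (1 + 1 / ‖s₂‖))) ^ 3 *
        (1 / ε) ^ 4 * Real.exp (-10 * sg P) * (3 * (1 + lam * |s₁.im|)) ^ 6 *
        (3 * (1 + lam * |s₂.im|)) ^ 6 * Real.exp (C' * (20 / 7) + 20 * C₃ + 16) := by gcongr
    _ = _ := by
      generalize br s₁.im * (1 + 1 / ‖s₁‖) = a₁
      generalize br s₂.im * (1 + 1 / ‖s₂‖) = a₂
      generalize 1 + lam * |s₁.im| = c₁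
      generalize 1 + lam * |s₂.im| = c₂
      generalize 1 / ε = d
      ring

theorem pZD (hEXB : EXB) (hEXL : EXL) (hLOC0 : LOC0) (hPRD : PRD) (hPZ : PZ) (hPL : PL) : ZD := by
  obtain ⟨C₁, hC₁, hprod⟩ := zd7_prod hLOC0 hPRD hPZ hPL
  obtain ⟨C₂, c, hC₂, hE⟩ := hEXB
  refine ⟨C₂ * 3 ^ c * C₁, c + 6, by positivity, ?_⟩
  intro P B R lam T Y ε s₁ s₂ hT hε hε1 hel h₁ h₂
  have hlam := hT.lam0
  have hT0 := hT.T0
  have p1 := hprod P lam ε s₁ s₂ hT.op hT.le hlam hε hε1 hel h₁ h₂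
  have p2 := hEXL.2.2.2.2.2.1 P (mu 1 0 s₁ s₂) (fun _ => 1) R hT.pos
  simp only [mul_one, norm_one, prod_const_one, one_mul] at p2
  have p3 := hE P B R lam T Y 0 s₁ s₂ hT (by simp) (by rw [h₁]; exact hε.le)
    (by rw [h₂]; exact hε.le) (by rw [zero_re, h₁, h₂]; linarith only [hel])
  have l1 := zd7_lam lam ε s₁ hlam hε hel h₁
  have l2 := zd7_lam lam ε s₂ hlam hε hel h₂
  have y1 : 0 ≤ lam * |s₁.im| := mul_nonneg hlam (abs_nonneg _)
  have y2 : 0 ≤ lam * |s₂.im| := mul_nonneg hlam (abs_nonneg _)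
  have k1 : 1 + lam * (‖(0 : ℂ)‖ + ‖s₁‖ + ‖s₂‖) ≤
      3 * ((1 + lam * |s₁.im|) * (1 + lam * |s₂.im|)) := by
    rw [norm_zero]
    linarith only [l1, l2, y1, y2, mul_nonneg y1 y2]
  have k2 := pow_le_pow_left₀ (by positivity) k1 c
  have p4 := p2.trans (p3.trans (mul_le_mul_of_nonneg_left k2 (by positivity)))
  have hex : Real.exp (10 * sg P) * Real.exp (-10 * sg P) = 1 := by
    rw [← Real.exp_add, ← Real.exp_zero]
    congr 1
    ring
  unfold Zk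
  rw [norm_mul]
  refine (mul_le_mul p4 p1 (norm_nonneg _) (by positivity)).trans (le_of_eq ?_)
  rw [mul_pow 3, mul_pow (1 + lam * |s₁.im|), pow_add, pow_add, one_div_pow]
  generalize br s₁.im * (1 + 1 / ‖s₁‖) = a₁
  generalize br s₂.im * (1 + 1 / ‖s₂‖) = a₂
  generalize 1 + lam * |s₁.im| = c₁
  generalize 1 + lam * |s₂.im| = c₂
  linear_combination (C₂ * 3 ^ c * C₁ * T * (c₁ ^ c * c₁ ^ 6) * (c₂ ^ c * c₂ ^ 6) / ε ^ 4 *
    a₁ ^ 3 * a₂ ^ 3) * hex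

end Pool.Agent.QM
end

-- part Pool.Agent.P.MP_ea46f5_nt.QM.FZT
section

namespace Pool.Agent.QM

open Complex MeasureTheory Finset
open scoped Real ComplexConjugate

theorem pZT : ZT := by
  refine ⟨fun s hs => Zt.zeta0_le hs, ⟨4, by norm_num, fun s h0 _ => ?_⟩,
    ⟨120, by norm_num, fun s h0 h1 => ?_⟩⟩
  · exact Zt.z1a (by linarith) fun h => by simp [h] at h0
  · have h := Zt.zeta1_le (s := s - 1) (by simp; linarith)
    have e : (s - 1).im = s.im := by simp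
    have h2 := Complex.norm_le_abs_re_add_abs_im (s - 1)
    have h3 : |(s - 1).re| ≤ 29 := by
      rw [sub_re, one_re, abs_le]; constructor <;> linarith
    rw [e] at h h2
    rw [add_sub_cancel] at h
    have ht := abs_nonneg s.im
    have h4 : 1 + ‖s - 1‖ ≤ 30 * (1 + |s.im|) := by linarith
    calc _ ≤ _ := h
      _ ≤ 4 * (1 + |s.im|) * (30 * (1 + |s.im|)) := by gcongr
      _ = _ := by rw [br]; ring

theorem kz_zeta0 (z : ℂ) : ‖(2 * z : ℂ)‖ / (2 * z : ℂ).re = ‖z‖ / z.re := by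
  have e : (2 * z : ℂ).re = 2 * z.re := by simp
  rw [e, norm_mul, Complex.norm_two, mul_div_mul_left _ _ two_ne_zero]

theorem pKZ (hGAM1 : GAM1) : KZ := by
  intro n
  obtain ⟨C, hC, h⟩ := hGAM1 (n + 1)
  refine ⟨7 * C, by positivity, fun z => ?_⟩
  have hb : 1 ≤ br z.im := by rw [br]; linarith [abs_nonneg z.im]
  have hb0 : 0 < br z.im := by linarith
  have e : (2 * z : ℂ).re = 2 * z.re := by simp
  have hw : ∀ x : ℝ, 0 ≤ x → C / (x * br z.im ^ (n + 1)) ≤ C / (x * br z.im ^ n) := by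
    intro x hx
    rcases hx.eq_or_lt with rfl | hx
    · simp
    · exact div_le_div_of_nonneg_left hC.le (by positivity)
        (mul_le_mul_of_nonneg_left (pow_le_pow_right₀ hb (Nat.le_succ n)) hx.le)
  refine ⟨fun h0 h1 => ?_, fun h0 h1 => ?_, fun h0 h1 => ?_⟩
  · have hn : 0 < ‖z‖ := h0.trans_le (Complex.re_le_norm z)
    have h2 := Zt.z1b (s := 2 * z) (by rw [e]; linarith) (by rw [e]; linarith)
    have h3 : 1 ≤ ‖z‖ / z.re := (one_le_div h0).2 (Complex.re_le_norm z)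
    rw [kz_zeta0] at h2
    have h4 : ‖riemannZeta (2 * z)‖ ≤ 7 * (‖z‖ / z.re) := by linarith
    rw [norm_mul]
    refine (mul_le_mul ((h z h0 (by linarith)).trans (hw _ hn.le)) h4 (norm_nonneg _)
      (by positivity)).trans (le_of_eq ?_)
    field_simp
  · have hr : 0 < z.re := by linarith
    have hn : 1 / 2 ≤ ‖z‖ := h0.le.trans (Complex.re_le_norm z)
    have hx : 0 < z.re - 1 / 2 := by linarith
    have h2 := Zt.z1d (s := 2 * z - 1) (by simp; linarith)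
    have e2 : (2 * z - 1 : ℂ).re = 2 * (z.re - 1 / 2) := by simp; ring
    rw [add_sub_cancel, e2] at h2
    have h3 : 1 / (2 * (z.re - 1 / 2)) ≤ 1 / (z.re - 1 / 2) :=
      one_div_le_one_div_of_le hx (by linarith)
    have h5 : 0 < 1 / (z.re - 1 / 2) := by positivity
    have h4 : ‖riemannZeta (2 * z)‖ ≤ 2 * (1 + 1 / (z.re - 1 / 2)) := by linarith
    have h6 : ‖Gammaℝ z‖ ≤ C / (1 / 2 * br z.im ^ n) :=
      ((h z hr (by linarith)).trans (hw _ (norm_nonneg _))).trans (by gcongr)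
    rw [norm_mul]
    refine (mul_le_mul h6 h4 (norm_nonneg _) (by positivity)).trans ?_
    have e3 : C / (1 / 2 * br z.im ^ n) * (2 * (1 + 1 / (z.re - 1 / 2))) =
        4 * C * (1 + 1 / (z.re - 1 / 2)) / br z.im ^ n := by
      generalize 1 / (z.re - 1 / 2) = u
      field_simp; ring
    rw [e3]
    gcongr
    norm_num
  · have hn : 0 < ‖z‖ := h0.trans_le (Complex.re_le_norm z)
    have h2 := Zt.zeta0_le (s := 2 * z) (by rw [e]; linarith)
    have h3 : 1 ≤ ‖z‖ / z.re := (one_le_div h0).2 (Complex.re_le_norm z)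
    rw [kz_zeta0] at h2
    have h5 : ‖(2 * z - 1 : ℂ)‖ ≤ 3 * br z.im := by
      have := Complex.norm_le_abs_re_add_abs_im z
      rw [abs_of_pos h0] at this
      refine (norm_sub_le _ _).trans ?_
      rw [norm_mul, Complex.norm_two, norm_one, br]
      linarith [abs_nonneg z.im]
    have h4 : ‖riemannZeta₁ (2 * z)‖ ≤ 7 * (br z.im * (‖z‖ / z.re)) := by
      rw [riemannZeta₁]
      refine (norm_add_le _ _).trans ?_
      rw [norm_one, norm_mul]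
      have h6 := mul_le_mul h5 (h2.trans (by linarith : _ ≤ 2 * (‖z‖ / z.re))) (norm_nonneg _)
        (by positivity)
      have h7 := one_le_mul_of_one_le_of_one_le hb h3
      linarith
    rw [norm_mul]
    refine (mul_le_mul (h z h0 (by linarith)) h4 (norm_nonneg _) (by positivity)).trans ?_
    have e3 : C / (‖z‖ * br z.im ^ (n + 1)) * (7 * (br z.im * (‖z‖ / z.re))) =
        7 * C / (z.re * br z.im ^ n) := by
      rw [pow_succ]; field_simp
    rw [e3]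
    gcongr
    nlinarith

end Pool.Agent.QM
end

-- part Pool.Agent.P.MP_ea46f5_nt.QM.FLOC
section

namespace Pool.Agent.QM

open Complex MeasureTheory Finset
open scoped Real ComplexConjugate

theorem pLOC : LOC := by
  have hq : (7 / 10 : ℝ) < 1 := by norm_num
  obtain ⟨C1, hC1, H1⟩ := loc_unram_abs hq
  obtain ⟨C2, hC2, H2⟩ := loc_ram_abs hq
  refine ⟨C1 + C2 + 1, 33, by linarith, by norm_num, fun p k z s₁ s₂ hp h2 hU => ⟨?_, ?_⟩⟩
  · obtain ⟨a1, a2, b1, b2, z0, z7⟩ := hU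
    have h3 := three_le_of hp h2
    have hp0 := hp.pos
    have pp : (0 : ℝ) < p := by linarith
    set r : ℝ := (p : ℝ) ^ (-(9 / 20) : ℝ) with hr
    have r0 : 0 ≤ r := Real.rpow_nonneg pp.le _
    have r1 : r ≤ 7 / 10 := rpow_neg_le h3 (by norm_num)
    have r2 : r ^ 2 = (p : ℝ) ^ (-(9 / 10) : ℝ) := by
      rw [hr, ← Real.rpow_natCast, ← Real.rpow_mul pp.le]; norm_num
    have r3 : r ^ 3 = (p : ℝ) ^ (-(27 / 20) : ℝ) := by
      rw [hr, ← Real.rpow_natCast, ← Real.rpow_mul pp.le]; norm_num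
    have x1 : ‖xs s₁ p‖ ≤ r := loc_xs hp0 b1.le (by norm_num)
    have x2 : ‖xs s₂ p‖ ≤ r := loc_xs hp0 b2.le (by norm_num)
    have r3' : 0 ≤ r ^ 3 := pow_nonneg r0 3
    simp only [sub_re] at a1 a2
    rw [← r3, loc_zero]
    by_cases hk : (p : ℤ) ∣ k
    · have j0 := loc_j0 hp hk
      have e : ∀ s t : ℂ, (p : ℂ) ^ (2 * z - 1) * xs s p * xs t p
          = (p : ℂ) ^ (-(2 + (s - z) + (t - z))) := by
        intro s t
        unfold xs
        rw [cp_add hp0, cp_add hp0]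
        congr 1
        ring
      have n : ∀ s t : ℂ, -(11 / 20) < s.re - z.re → -(11 / 20) < t.re - z.re →
          ‖(p : ℂ) ^ (2 * z - 1) * xs s p * xs t p‖ ≤ r ^ 2 := by
        intro s t hs ht
        rw [e, r2]
        exact norm_cp_le hp0 (by simp; linarith)
      have := H2 r (xs s₁ p) (xs s₂ p) ((p : ℂ) ^ (2 * z - 1)) r0 r1 x1 x2 (n _ _ a1 a1)
        (n _ _ a1 a2) (n _ _ a2 a2)
      rw [e, e, e] at this
      refine le_trans (le_of_eq_of_le (congrArg _ ?_) this) (by nlinarith)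
      unfold fp Qp Up ok ek
      rw [loc_jo hp h2, j0, if_pos hk, show 2 + (s₁ - z) + (s₁ - z) = 2 + 2 * (s₁ - z) by ring,
        show 2 + (s₂ - z) + (s₂ - z) = 2 + 2 * (s₂ - z) by ring]
      simp only [Int.cast_zero, div_eq_mul_inv]
      ring
    · have j1 := loc_j1 hp hk
      set χ : ℂ := (jacobiSym k p : ℂ) with hχ
      have jl : ‖χ‖ ≤ 1 := loc_jle k p
      have eux : ∀ s : ℂ, χ * (p : ℂ) ^ (z - 1 / 2) * xs s p = χ * (p : ℂ) ^ (-(1 + (s - z))) := by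
        intro s
        unfold xs
        rw [mul_assoc, cp_add hp0]
        congr 2
        ring
      have euv : χ * (p : ℂ) ^ (z - 1 / 2) * (χ * (p : ℂ) ^ (-(z + 1 / 2))) = 1 / (p : ℂ) := by
        rw [mul_mul_mul_comm, j1, cp_add hp0, one_mul,
          show z - 1 / 2 + -(z + 1 / 2) = -1 by ring, Complex.cpow_neg_one, one_div]
      have ezz : ∀ s t : ℂ, χ * (p : ℂ) ^ (-(1 + (s - z))) * (χ * (p : ℂ) ^ (-(1 + (t - z))))
          = (p : ℂ) ^ (-(2 + (s - z) + (t - z))) := by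
        intro s t
        rw [mul_mul_mul_comm, j1, cp_add hp0, one_mul]
        congr 1
        ring
      have eo : ok k z p = χ * (p : ℂ) ^ (z - 1 / 2) - χ * (p : ℂ) ^ (-(z + 1 / 2)) := by
        unfold ok
        rw [mul_assoc, mul_sub, cp_add hp0, cp_add hp0, mul_sub,
          show -(1 / 2) + z = z - 1 / 2 by ring, show -(1 / 2) + -z = -(z + 1 / 2) by ring]
      have n : ∀ s : ℂ, -(11 / 20) < s.re - z.re → ‖χ * (p : ℂ) ^ (z - 1 / 2) * xs s p‖ ≤ r := by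
        intro s hs
        rw [eux]
        exact loc_mul_le jl (norm_cp_le hp0 (by simp; linarith))
      have nv : ‖χ * (p : ℂ) ^ (-(z + 1 / 2))‖ ≤ r :=
        loc_mul_le jl (norm_cp_le hp0 (by simp; linarith))
      have nuv : ‖χ * (p : ℂ) ^ (z - 1 / 2) * (χ * (p : ℂ) ^ (-(z + 1 / 2)))‖ ≤ r ^ 2 := by
        rw [euv, r2, one_div, ← Complex.cpow_neg_one]
        exact norm_cp_le hp0 (by simp; norm_num)
      have := H1 r (xs s₁ p) (xs s₂ p) (χ * (p : ℂ) ^ (z - 1 / 2)) (χ * (p : ℂ) ^ (-(z + 1 / 2)))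
        r0 r1 x1 x2 nv (n _ a1) (n _ a2) nuv
      rw [euv, eux, eux, ezz, ezz, ezz, ← eo] at this
      refine le_trans (le_of_eq_of_le (congrArg _ ?_) this) (by nlinarith)
      unfold fp Qp Up ek
      rw [loc_jo hp h2, if_neg hk, show 2 + (s₁ - z) + (s₁ - z) = 2 + 2 * (s₁ - z) by ring,
        show 2 + (s₂ - z) + (s₂ - z) = 2 + 2 * (s₂ - z) by ring, ← hχ]
      simp only [div_eq_mul_inv]
      ring
  · obtain ⟨a1, a2, b1, b2, z0, z7⟩ := hU
    intro v hv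
    have h3 := three_le_of hp h2
    have m1 := loc_mu_le hp h2 k b1.le b2.le z0.le z7.le (y := 1) (by norm_num) (by simp)
    have m2 := loc_mu_le hp h2 k b1.le b2.le z0.le z7.le (y := -1) (by norm_num) (by simp)
    have hf := loc_fp_le hp h2 k a1 a2
    have hl : ‖locv k z s₁ s₂ p v‖ ≤ 4 * (p : ℝ) ^ 13 * (10 / 3) ^ 4 := by
      unfold locv
      rw [loc_sum, Int.cast_zero, zero_pow (by omega), mul_zero, zero_add]
      refine (norm_add_le _ _).trans ?_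
      simp only [norm_mul, norm_pow, Int.cast_neg, Int.cast_one, norm_neg, norm_one, one_pow,
        mul_one]
      linarith
    rw [norm_mul]
    calc _ ≤ 4 * (p : ℝ) ^ 13 * (10 / 3) ^ 4 * (2 ^ 4 * (10 / 3) ^ 10) := by gcongr
      _ = (p : ℝ) ^ 13 * (64 * (10 / 3) ^ 14) := by ring
      _ ≤ (p : ℝ) ^ 13 * 3 ^ 20 := by gcongr; norm_num
      _ ≤ (p : ℝ) ^ 13 * (p : ℝ) ^ 20 := by gcongr
      _ = (p : ℝ) ^ 33 := by ring

end Pool.Agent.QM
end

-- part Pool.Agent.P.MP_ea46f5_nt.QM.FLOC0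
section

namespace Pool.Agent.QM

open Complex MeasureTheory Finset
open scoped Real ComplexConjugate

/-- parameters of the diagonal local factor. -/
structure LD where
  r : ℝ
  x : ℂ
  y : ℂ
  w : ℂ
  h0 : 0 ≤ r
  h1 : r ≤ 7 / 10
  hx : ‖x‖ ≤ r
  hy : ‖y‖ ≤ r
  hw : ‖w‖ ≤ r ^ 2

theorem l0_abs : ∃ C : ℝ, 0 ≤ C ∧ ∀ (r : ℝ) (x y w : ℂ),
    0 ≤ r → r ≤ 7 / 10 → ‖x‖ ≤ r → ‖y‖ ≤ r → ‖w‖ ≤ r ^ 2 →
    ‖w + (1 - w) * ((1 - x) ^ 2 * (1 - y) ^ 2)⁻¹ / 2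
        + (1 - w) * ((1 + x) ^ 2 * (1 + y) ^ 2)⁻¹ / 2
      - 1 - (3 * x ^ 2 + 4 * (x * y) + 3 * y ^ 2)‖ ≤ C * r ^ 4 := by
  have hq : (7 / 10 : ℝ) < 1 := by norm_num
  let r : LD → ℝ := fun i => i.r
  have hr : ∀ i, 0 ≤ r i ∧ r i ≤ 1 := fun i => ⟨i.h0, i.h1.trans hq.le⟩
  have o1 : ∀ {f : LD → ℂ}, (∀ i, ‖f i‖ ≤ i.r) → Og r 1 f :=
    fun h => Og.of_le fun i => by rw [pow_one]; exact h i
  have hx : Og r 1 (fun i => i.x) := o1 fun i => i.hx
  have hy : Og r 1 (fun i => i.y) := o1 fun i => i.hy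
  have hw : Og r 2 (fun i => i.w) := Og.of_le fun i => i.hw
  have bx : ∀ i : LD, ‖i.x‖ ≤ 7 / 10 := fun i => i.hx.trans i.h1
  have bY : ∀ i : LD, ‖i.y‖ ≤ 7 / 10 := fun i => i.hy.trans i.h1
  have bx' : ∀ i : LD, ‖-i.x‖ ≤ 7 / 10 := fun i => by rw [norm_neg]; exact bx i
  have bY' : ∀ i : LD, ‖-i.y‖ ≤ 7 / 10 := fun i => by rw [norm_neg]; exact bY i
  have jw := (jet_F hr hq hx hy bx bY).mul hr (jet_F hr hq hx.neg hy.neg bx' bY')
  have hW0 : Og r 0 (fun i => ((1 - i.x) ^ 2 * (1 - i.y) ^ 2)⁻¹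
      * ((1 + i.x) ^ 2 * (1 + i.y) ^ 2)⁻¹) :=
    (jw.bdd hr).congr fun i => by simp only [sub_neg_eq_add]
  have hxx : Og r 2 _ := hx.mul hx
  have hxy : Og r 2 _ := hx.mul hy
  have hyy : Og r 2 _ := hy.mul hy
  have hQ : Og r 2 (fun i => 3 * (i.x * i.x) + 4 * (i.x * i.y) + 3 * (i.y * i.y)) :=
    ((hxx.cmul 3).add (hxy.cmul 4)).add (hyy.cmul 3)
  have hN : Og r 4 (fun i => -(i.x * i.x) * (i.x * i.x) - (i.y * i.y) * (i.y * i.y)
      - 3 * ((i.x * i.y) * (i.x * i.y)) + 2 * ((i.x * i.x) * (i.y * i.y) * (i.y * i.y))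
      + 2 * ((i.y * i.y) * (i.x * i.x) * (i.x * i.x))
      - (i.x * i.y) * (i.x * i.y) * (i.x * i.y) * (i.x * i.y)) :=
    (((((hxx.neg.mul hxx).sub (hyy.mul hyy)).sub ((hxy.mul hxy).cmul 3)).add
      ((((hxx.mul hyy).mul hyy).mono hr (by norm_num)).cmul 2)).add
      ((((hyy.mul hxx).mul hxx).mono hr (by norm_num)).cmul 2)).sub
      ((((hxy.mul hxy).mul hxy).mul hxy).mono hr (by norm_num))
  have hA : Og r 2 (fun i => (i.x * i.x) * (2 - i.x * i.x)) :=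
    hxx.mul ((Og.const r 2).sub (hxx.mono hr (by norm_num)))
  have hB : Og r 2 (fun i => (i.y * i.y) * (2 - i.y * i.y)) :=
    hyy.mul ((Og.const r 2).sub (hyy.mono hr (by norm_num)))
  have hD : Og r 2 _ := (hA.add hB).sub ((hA.mul hB).mono hr (by norm_num))
  have t1 : Og r 4 _ := (hN.add (hQ.mul hD)).mul hW0
  have t2 : Og r 4 _ := (hw.mul (hQ.add (hN.mono hr (by norm_num)))).mul hW0
  obtain ⟨C, hC0, hC⟩ : Og r 4 (fun i => i.w + (1 - i.w) * ((1 - i.x) ^ 2 * (1 - i.y) ^ 2)⁻¹ / 2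
      + (1 - i.w) * ((1 + i.x) ^ 2 * (1 + i.y) ^ 2)⁻¹ / 2
      - 1 - (3 * i.x ^ 2 + 4 * (i.x * i.y) + 3 * i.y ^ 2)) := by
    refine (t1.sub t2).congr fun i => ?_
    have n1 := one_sub_ne hq (bx i)
    have n2 := one_sub_ne hq (bY i)
    have n3 : 1 + i.x ≠ 0 := by simpa using one_sub_ne hq (bx' i)
    have n4 : 1 + i.y ≠ 0 := by simpa using one_sub_ne hq (bY' i)
    field_simp
    ring
  exact ⟨C, hC0, fun r x y w h0 h1 hx hy hw => hC ⟨r, x, y, w, h0, h1, hx, hy, hw⟩⟩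

theorem l0_one_sub (ξ : ℂ) : ‖1 - ξ‖ ^ 2 ≤ Real.exp (-2 * ξ.re + ‖ξ‖ ^ 2) := by
  refine le_trans (le_of_eq ?_) (Real.add_one_le_exp _)
  rw [Complex.sq_norm, Complex.sq_norm, Complex.normSq_apply, Complex.normSq_apply]
  simp
  ring

theorem l0_inv {ζ : ℂ} {b : ℝ} (h : ‖ζ‖ ≤ b) (hb : b ≤ 7 / 10) :
    ‖(1 - ζ)⁻¹‖ ≤ Real.exp (4 * b) := by
  have b0 : 0 ≤ b := (norm_nonneg _).trans h
  refine (norm_inv_one_sub_le (by linarith) h).trans (le_trans ?_ (Real.add_one_le_exp _))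
  rw [inv_le_iff_one_le_mul₀ (by linarith)]
  nlinarith

theorem pLOC0 : LOC0 := by
  obtain ⟨C, hC0, H⟩ := l0_abs
  refine ⟨C + 50, by linarith, fun p s₁ s₂ hp h2 b1 b2 => ?_,
    fun p z a₁ a₂ ε hp h2 hε n1 n2 hl => ?_⟩
  · have h3 := three_le_of hp h2
    have pp : (0 : ℝ) < p := by linarith
    have t2 : ((p : ℝ) ^ (-(1 / 2) : ℝ)) ^ 2 = 1 / (p : ℝ) := by
      rw [← Real.rpow_natCast, ← Real.rpow_mul pp.le, one_div (p : ℝ), ← Real.rpow_neg_one]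
      norm_num
    have t4 : ((p : ℝ) ^ (-(1 / 2) : ℝ)) ^ 4 = 1 / (p : ℝ) ^ 2 := by
      rw [show 4 = 2 * 2 from rfl, pow_mul, t2, one_div_pow]
    have nd : ¬ (p : ℤ) ∣ 1 := by
      intro h
      have : p ∣ 1 := by exact_mod_cast h
      exact hp.one_lt.ne' (Nat.dvd_one.1 this)
    have := H _ (xs s₁ p) (xs s₂ p) (1 / (p : ℂ)) (Real.rpow_nonneg pp.le _)
      (rpow_neg_le h3 (by norm_num)) (loc_xs hp.pos b1 le_rfl) (loc_xs hp.pos b2 le_rfl)
      (by rw [t2, norm_div, norm_one, Complex.norm_natCast])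
    rw [t4] at this
    rw [loc_zero]
    refine le_trans (le_of_eq_of_le (congrArg _ ?_) this) ?_
    · unfold ek ok Qp
      rw [if_neg nd]
      simp
    · rw [mul_one_div]
      gcongr
      linarith
  · have h3 := three_le_of hp h2
    have hp0 := hp.pos
    have pp : (0 : ℝ) < p := by linarith
    have l0 : 0 ≤ Real.log p := Real.log_natCast_nonneg p
    set b : ℝ := (p : ℝ) ^ (-(3 / 2) : ℝ) with hb
    have b0 : 0 ≤ b := Real.rpow_nonneg pp.le _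
    have b1 : b ≤ 7 / 10 := rpow_neg_le h3 (by norm_num)
    have r1 : -ε ≤ a₁.re := by linarith [(abs_le.1 ((Complex.abs_re_le_norm a₁).trans n1)).1]
    have r2 : -ε ≤ a₂.re := by linarith [(abs_le.1 ((Complex.abs_re_le_norm a₂).trans n2)).1]
    have one : ∀ a : ℂ, ‖a‖ ≤ ε → -ε ≤ a.re → ‖1 - (p : ℂ) ^ (-(1 + a))‖ ^ 2 ≤
        Real.exp (-2 / p + 4 * (ε * Real.log p / p) + b) := by
      intro a ha hre
      refine (l0_one_sub _).trans (Real.exp_le_exp.2 ?_)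
      have q1 : ‖(p : ℂ) ^ (-(1 + a))‖ ^ 2 ≤ b := by
        rw [← norm_pow, sq, cp_add hp0]
        exact norm_cp_le hp0 (by simp; linarith)
      have n : ‖(Real.log p : ℂ) * (-a)‖ ≤ ε * Real.log p := by
        rw [norm_mul, Complex.norm_real, Real.norm_eq_abs, abs_of_nonneg l0, mul_comm, norm_neg]
        gcongr
      have e : (p : ℂ) ^ (-(1 + a)) - ((1 / p : ℝ) : ℂ)
          = ((1 / p : ℝ) : ℂ) * (cexp ((Real.log p : ℂ) * (-a)) - 1) := by
        rw [show -(1 + a) = -1 + -a by ring, ← cp_add hp0, Complex.cpow_neg_one,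
          Complex.cpow_def_of_ne_zero (by exact_mod_cast hp0.ne'), Complex.natCast_log]
        push_cast
        ring
      have q2 : ‖(p : ℂ) ^ (-(1 + a)) - ((1 / p : ℝ) : ℂ)‖ ≤ 2 * (ε * Real.log p / p) := by
        rw [e, norm_mul, Complex.norm_real, Real.norm_eq_abs, abs_of_nonneg (by positivity)]
        calc _ ≤ 1 / (p : ℝ) * (2 * (ε * Real.log p)) := by
              gcongr
              exact (Complex.norm_exp_sub_one_le (n.trans hl)).trans (by linarith)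
          _ = _ := by ring
      have q3 := (abs_le.1 ((Complex.abs_re_le_norm _).trans q2)).1
      rw [sub_re, ofReal_re] at q3
      have : -2 / (p : ℝ) = -2 * (1 / p) := by ring
      linarith
    have two : ∀ s : ℂ, 3 / 2 ≤ s.re → ‖(1 - (p : ℂ) ^ (-s))⁻¹‖ ≤ Real.exp (4 * b) := fun s hs =>
      l0_inv (norm_cp_le hp0 (by rw [neg_re]; linarith)) b1
    have o1 := one a₁ n1 r1
    have o2 := one a₂ n2 r2
    have d1 := two (2 + 2 * a₁) (by simp; linarith)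
    have d2 := two (2 + a₁ + a₂) (by simp; linarith)
    have d3 := two (2 + 2 * a₂) (by simp; linarith)
    have e0 : 0 ≤ ε * Real.log p / p :=
      div_nonneg (mul_nonneg ((norm_nonneg _).trans n1) l0) pp.le
    unfold fp
    rw [loc_jo hp h2, jacobiSym.one_left, add_sub_cancel_left, add_sub_cancel_left, Int.cast_one,
      one_mul, one_mul, div_eq_mul_inv, mul_inv, mul_inv, ← inv_pow, ← inv_pow, ← inv_pow]
    simp only [norm_mul, norm_pow]
    calc _ ≤ Real.exp (-2 / p + 4 * (ε * Real.log p / p) + b)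
          * Real.exp (-2 / p + 4 * (ε * Real.log p / p) + b)
          * (Real.exp (4 * b) ^ 3 * Real.exp (4 * b) ^ 4 * Real.exp (4 * b) ^ 3) := by gcongr
      _ = Real.exp (-4 / p + 8 * (ε * Real.log p / p) + 42 * b) := by
          simp only [← Real.exp_nat_mul, ← Real.exp_add]
          congr 1
          push_cast
          ring
      _ ≤ _ := by
          refine Real.exp_le_exp.2 ?_
          have := mul_nonneg hC0 e0
          have := mul_nonneg hC0 b0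
          linarith

end Pool.Agent.QM
end
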