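import Pool.Agent.K.MP_ea46f5_nt.C7
import Pool.Agent.K.MP_ea46f5_nt.C8
import Pool.Agent.K.MP_ea46f5_nt.C3

-- part Pool.Agent.P.MP_ea46f5_nt.QM.FMG
section

namespace Pool.Agent.QM

open Complex MeasureTheory Finset
open scoped Real ComplexConjugate

/-- parameters of the moment generating bound. -/
structure LM (K : ℝ) where
  t : ℝ
  u : ℂ
  v : ℂ
  x : ℂ
  y : ℂ
  θ : ℝ
  h0 : 0 ≤ t
  h1 : t ≤ 7 / 10
  hu : ‖u‖ ≤ K * t
  hv : ‖v‖ ≤ t
  hx : ‖x‖ ≤ t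
  hy : ‖y‖ ≤ t
  hθ : |θ| ≤ 36

theorem mg_close {K : ℝ} (hK : 0 ≤ K) : ∃ C : ℝ, 0 ≤ C ∧ ∀ (t : ℝ) (u v x y : ℂ),
    0 ≤ t → t ≤ 7 / 10 → ‖u‖ ≤ K * t → ‖v‖ ≤ t → ‖x‖ ≤ t → ‖y‖ ≤ t → ∀ θ : ℝ, |θ| ≤ 36 →
    ‖(1 + u) * (1 - v) * ((1 - x) ^ 2 * (1 - y) ^ 2)⁻¹‖ * Real.exp (θ * t) ≤
      Real.exp ((u - v + 2 * x + 2 * y).re + θ * t + (-u ^ 2 / 2 - v ^ 2 / 2 + x ^ 2 + y ^ 2).re)
        + C * t ^ 3 := by
  have hq : (7 / 10 : ℝ) < 1 := by norm_num
  let r : LM K → ℝ := fun i => i.t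
  have hr : ∀ i, 0 ≤ r i ∧ r i ≤ 1 := fun i => ⟨i.h0, i.h1.trans hq.le⟩
  have o1 : ∀ {f : LM K → ℂ}, (∀ i, ‖f i‖ ≤ i.t) → Og r 1 f :=
    fun h => Og.of_le fun i => by rw [pow_one]; exact h i
  have hx : Og r 1 (fun i => i.x) := o1 fun i => i.hx
  have hy : Og r 1 (fun i => i.y) := o1 fun i => i.hy
  have hv : Og r 1 (fun i => i.v) := o1 fun i => i.hv
  have hu : Og r 1 (fun i => i.u) := ⟨K, hK, fun i => by rw [pow_one]; exact i.hu⟩
  have hθ : Og r 1 (fun i => ((i.θ * i.t : ℝ) : ℂ)) := ⟨36, by norm_num, fun i => by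
    rw [pow_one, Complex.norm_real, Real.norm_eq_abs, abs_mul, abs_of_nonneg i.h0]
    exact mul_le_mul_of_nonneg_right i.hθ i.h0⟩
  have jp := jet_F hr hq hx hy (fun i => i.hx.trans i.h1) (fun i => i.hy.trans i.h1)
  have j1 := (((Jet.lin hu).mul hr (Jet.lin hv.neg)).mul hr jp).mul hr
    (Jet.exp hr hθ (Og.zero r 2))
  have hb : Og r 1 (fun i => i.u - i.v + 2 * i.x + 2 * i.y + ((i.θ * i.t : ℝ) : ℂ)) :=
    (((hu.sub hv).add (hx.cmul 2)).add (hy.cmul 2)).add hθ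
  have hg : Og r 2 (fun i => -i.u ^ 2 / 2 - i.v ^ 2 / 2 + i.x ^ 2 + i.y ^ 2) :=
    (((((hu.mul hu).cmul (-1 / 2)).add ((hv.mul hv).cmul (-1 / 2))).add (hx.mul hx)).add
      (hy.mul hy)).congr fun i => by ring
  have j2 := Jet.exp hr hb hg
  obtain ⟨C, hC0, hC⟩ : Og r 3 (fun i =>
      (1 + i.u) * (1 - i.v) * ((1 - i.x) ^ 2 * (1 - i.y) ^ 2)⁻¹ * cexp ((i.θ * i.t : ℝ) : ℂ)
      - cexp (i.u - i.v + 2 * i.x + 2 * i.y + ((i.θ * i.t : ℝ) : ℂ)
        + (-i.u ^ 2 / 2 - i.v ^ 2 / 2 + i.x ^ 2 + i.y ^ 2))) :=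
    (j1.2.2.sub j2.2.2).congr fun i => by
      simp only [add_zero, ← sub_eq_add_neg]; ring
  refine ⟨C, hC0, fun t u v x y h0 h1 hu hv hx hy θ hθ => ?_⟩
  have h := hC ⟨t, u, v, x, y, θ, h0, h1, hu, hv, hx, hy, hθ⟩
  have h' := (norm_sub_norm_le _ _).trans h
  simp only [r] at h'
  rw [norm_mul, Complex.norm_exp_ofReal, Complex.norm_exp, add_re, add_re, ofReal_re] at h'
  linarith

theorem mg_sq {a : ℂ} {t D E : ℝ} (h0 : 0 ≤ t) (h : ‖a - t‖ ≤ D) (ha : ‖a‖ ≤ E) :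
    |(a ^ 2).re - t ^ 2| ≤ D * (E + t) := by
  have e : (a ^ 2).re - t ^ 2 = ((a - t) * (a + t)).re := by
    simp [sq]; ring
  rw [e]
  refine (Complex.abs_re_le_norm _).trans ?_
  rw [norm_mul]
  refine mul_le_mul h ((norm_add_le _ _).trans ?_) (norm_nonneg _) ((norm_nonneg _).trans h)
  rw [Complex.norm_real, Real.norm_eq_abs, abs_of_nonneg h0]
  linarith

theorem mg_re {a : ℂ} {t D : ℝ} (h : ‖a - t‖ ≤ D) : |a.re - t| ≤ D := by
  have := (Complex.abs_re_le_norm (a - t)).trans h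
  simpa using this

theorem mg_abs {K : ℝ} (hK : 1 ≤ K) : ∃ C : ℝ, 0 < C ∧ ∀ (t η : ℝ) (u v x y : ℂ) (θ : ℝ),
    0 ≤ t → t ≤ 7 / 10 → 0 ≤ η → η ≤ 1 → ‖u‖ ≤ K * t → ‖v‖ ≤ t → ‖x‖ ≤ t → ‖y‖ ≤ t →
    ‖u - t‖ ≤ K * η * t → ‖v - t‖ ≤ K * η * t → ‖x - t‖ ≤ K * η * t → ‖y - t‖ ≤ K * η * t →
    |θ| ≤ 36 →
    t ^ 2 + ‖(1 + u) * (1 - v) * ((1 - x) ^ 2 * (1 - y) ^ 2)⁻¹‖ / 2 * Real.exp (θ * t)
      + ‖(1 - u) * (1 + v) * ((1 + x) ^ 2 * (1 + y) ^ 2)⁻¹‖ / 2 * Real.exp (-θ * t) ≤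
      Real.exp ((10 + 4 * θ + θ ^ 2 / 2) * t ^ 2 + C * (η * t ^ 2 + t ^ 3)) := by
  obtain ⟨C, hC0, hC⟩ := mg_close (K := K) (by linarith)
  set D : ℝ := 6 * K * K + 240 * K + 18 * K ^ 2 with hD
  have D0 : 0 ≤ D := by positivity
  set M : ℝ := 801 + D with hM
  have M0 : 0 ≤ M := by positivity
  refine ⟨D + C + M ^ 2 * Real.exp M + 1, by positivity,
    fun t η u v x y θ h0 h1 e0 e1 hu hv hx hy du dv dx dy hθ => ?_⟩
  have p1 := hC t u v x y h0 h1 hu hv hx hy θ hθ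
  have p2 := hC t (-u) (-v) (-x) (-y) h0 h1 (by rwa [norm_neg]) (by rwa [norm_neg])
    (by rwa [norm_neg]) (by rwa [norm_neg]) (-θ) (by rwa [abs_neg])
  simp only [sub_neg_eq_add, ← sub_eq_add_neg, neg_sq] at p2
  set β : ℝ := (u - v + 2 * x + 2 * y).re + θ * t with hβ
  set γ : ℝ := (-u ^ 2 / 2 - v ^ 2 / 2 + x ^ 2 + y ^ 2).re with hγ
  have e2 : (-u + v + 2 * -x + 2 * -y).re + -θ * t = -β := by
    rw [hβ]; simp; ring
  rw [e2] at p2
  have hc : Real.exp (β + γ) + Real.exp (-β + γ) ≤ 2 * Real.exp (γ + β ^ 2 / 2) := by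
    have := Real.cosh_le_exp_half_sq β
    rw [Real.cosh_eq] at this
    rw [Real.exp_add β γ, Real.exp_add (-β) γ, Real.exp_add γ]
    have := mul_le_mul_of_nonneg_left this (Real.exp_pos γ).le
    linarith
  have t2 : 0 ≤ t ^ 2 := sq_nonneg t
  have s0 : 0 ≤ η * t ^ 2 := mul_nonneg e0 t2
  have s1 : η * t ^ 2 ≤ t ^ 2 := mul_le_of_le_one_left t2 e1
  have Kt : t ≤ K * t := le_mul_of_one_le_left h0 hK
  have hγ' : |γ - t ^ 2| ≤ 6 * K * K * (η * t ^ 2) := by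
    have a1 := abs_le.1 (mg_sq h0 du hu)
    have a2 := abs_le.1 (mg_sq h0 dv (hv.trans Kt))
    have a3 := abs_le.1 (mg_sq h0 dx (hx.trans Kt))
    have a4 := abs_le.1 (mg_sq h0 dy (hy.trans Kt))
    have e : γ = -(u ^ 2).re / 2 - (v ^ 2).re / 2 + (x ^ 2).re + (y ^ 2).re := by
      rw [hγ]; simp only [add_re, sub_re, div_ofNat_re, neg_re]
    have b : K * η * t * (K * t + t) ≤ 2 * K * K * (η * t ^ 2) := by
      calc K * η * t * (K * t + t) ≤ K * η * t * (K * t + K * t) := by gcongr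
        _ = _ := by ring
    rw [abs_le]
    constructor <;> linarith [a1.1, a1.2, a2.1, a2.2, a3.1, a3.2, a4.1, a4.2]
  have hβ' : |β - (4 + θ) * t| ≤ 6 * (K * η * t) := by
    have a1 := abs_le.1 (mg_re du)
    have a2 := abs_le.1 (mg_re dv)
    have a3 := abs_le.1 (mg_re dx)
    have a4 := abs_le.1 (mg_re dy)
    have e : β = u.re - v.re + 2 * x.re + 2 * y.re + θ * t := by
      rw [hβ]; simp
    rw [abs_le]
    constructor <;> linarith [a1.1, a1.2, a2.1, a2.2, a3.1, a3.2, a4.1, a4.2]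
  have hθ' : |4 + θ| ≤ 40 := (abs_add_le _ _).trans (by rw [abs_of_pos (by norm_num)]; linarith)
  have hβ2 : |β ^ 2 / 2 - (4 + θ) ^ 2 / 2 * t ^ 2| ≤ (240 * K + 18 * K ^ 2) * (η * t ^ 2) := by
    set d : ℝ := β - (4 + θ) * t with hd
    have e : β ^ 2 / 2 - (4 + θ) ^ 2 / 2 * t ^ 2 = d * ((4 + θ) * t) + d ^ 2 / 2 := by
      rw [hd]; ring
    have a1 : |d * ((4 + θ) * t)| ≤ 240 * K * (η * t ^ 2) := by
      rw [abs_mul, abs_mul, abs_of_nonneg h0]
      calc |d| * (|4 + θ| * t) ≤ 6 * (K * η * t) * (40 * t) := by gcongr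
        _ = _ := by ring
    have a2 : |d ^ 2 / 2| ≤ 18 * K ^ 2 * (η * t ^ 2) := by
      rw [abs_of_nonneg (by positivity), ← sq_abs]
      calc |d| ^ 2 / 2 ≤ (6 * (K * η * t)) ^ 2 / 2 := by gcongr
        _ = 18 * K ^ 2 * (η * t ^ 2) * η := by ring
        _ ≤ _ := mul_le_of_le_one_right (by positivity) e1
    rw [e]
    exact (abs_add_le _ _).trans (by linarith)
  set A : ℝ := γ + β ^ 2 / 2 with hA
  have hA1 : |A - (1 + (4 + θ) ^ 2 / 2) * t ^ 2| ≤ D * (η * t ^ 2) := by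
    have e : A - (1 + (4 + θ) ^ 2 / 2) * t ^ 2 =
        (γ - t ^ 2) + (β ^ 2 / 2 - (4 + θ) ^ 2 / 2 * t ^ 2) := by rw [hA]; ring
    rw [e, hD]
    exact (abs_add_le _ _).trans (by linarith)
  have hA2 : |A| ≤ M * t ^ 2 := by
    have q1 : (4 + θ) ^ 2 ≤ 40 ^ 2 := by rw [← sq_abs]; gcongr
    have q2 : (1 + (4 + θ) ^ 2 / 2) * t ^ 2 ≤ 801 * t ^ 2 := by gcongr; linarith
    have q3 : 0 ≤ (1 + (4 + θ) ^ 2 / 2) * t ^ 2 := by positivity
    have q4 : D * (η * t ^ 2) ≤ D * t ^ 2 := by gcongr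
    have := abs_le.1 hA1
    rw [abs_le, hM]
    constructor <;> linarith [this.1, this.2]
  have t1 : t ≤ 1 := by linarith
  have hE : Real.exp A ≤ 1 + A + M ^ 2 * Real.exp M * t ^ 3 := by
    have q := Complex.norm_exp_sub_sum_le_norm_mul_exp (A : ℂ) 2
    have e : cexp A - ∑ m ∈ range 2, (A : ℂ) ^ m / (m.factorial : ℂ)
        = ((Real.exp A - 1 - A : ℝ) : ℂ) := by
      simp [sum_range_succ]; ring
    rw [e, Complex.norm_real, Complex.norm_real, Real.norm_eq_abs, Real.norm_eq_abs] at q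
    have q1 : |A| ≤ M := hA2.trans (mul_le_of_le_one_right M0 (pow_le_one₀ h0 t1))
    have q2 : |A| ^ 2 * Real.exp |A| ≤ M ^ 2 * Real.exp M * t ^ 3 := by
      calc |A| ^ 2 * Real.exp |A| ≤ (M * t ^ 2) ^ 2 * Real.exp M := by gcongr
        _ = M ^ 2 * Real.exp M * t ^ 3 * t := by ring
        _ ≤ _ := mul_le_of_le_one_right (by positivity) t1
    linarith [le_abs_self (Real.exp A - 1 - A)]
  refine le_trans ?_ (Real.add_one_le_exp _)
  have t3 : 0 ≤ t ^ 3 := pow_nonneg h0 3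
  have w1 : 0 ≤ C * (η * t ^ 2) := mul_nonneg hC0 s0
  have w2 : 0 ≤ M ^ 2 * Real.exp M * (η * t ^ 2) := by positivity
  have w3 : 0 ≤ D * t ^ 3 := mul_nonneg D0 t3
  have := (abs_le.1 hA1).2
  linarith

theorem mg_pow {p : ℕ} (hp : 0 < p) {w : ℂ} {τ : ℝ} (hw : w.re * Real.log p ≤ 5) (hτ : ‖w‖ ≤ τ) :
    ‖(p : ℂ) ^ w‖ ≤ Real.exp 5 ∧
      ‖(p : ℂ) ^ w - 1‖ ≤ (Real.exp 5 + 2) * min 1 (τ * Real.log p) := by
  have pp : (0 : ℝ) < p := by exact_mod_cast hp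
  have l0 : 0 ≤ Real.log p := Real.log_natCast_nonneg p
  have h1 : ‖(p : ℂ) ^ w‖ ≤ Real.exp 5 := by
    rw [norm_cp hp, Real.rpow_def_of_pos pp, mul_comm]
    exact Real.exp_le_exp.2 hw
  refine ⟨h1, ?_⟩
  have e5 := Real.exp_pos 5
  rcases le_total 1 (τ * Real.log p) with h | h
  · rw [min_eq_left h]
    refine (norm_sub_le _ _).trans ?_
    rw [norm_one]
    linarith
  · rw [min_eq_right h]
    have e : (p : ℂ) ^ w = cexp ((Real.log p : ℂ) * w) := by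
      rw [Complex.cpow_def_of_ne_zero (by exact_mod_cast hp.ne'), Complex.natCast_log]
    have n : ‖(Real.log p : ℂ) * w‖ ≤ τ * Real.log p := by
      rw [norm_mul, Complex.norm_real, Real.norm_eq_abs, abs_of_nonneg l0, mul_comm]
      gcongr
    rw [e]
    refine (Complex.norm_exp_sub_one_le (n.trans h)).trans ?_
    have : 0 ≤ τ * Real.log p := (norm_nonneg _).trans n
    nlinarith

theorem pMG : MG := by
  have e5 := Real.exp_pos 5
  obtain ⟨C, hC, H⟩ := mg_abs (K := Real.exp 5 + 2) (by linarith)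
  refine ⟨C, hC, fun p z s₁ s₂ θ hp h2 z0 b1 b2 hl hθ => ?_⟩
  have h3 := three_le_of hp h2
  have hp0 := hp.pos
  have pp : (0 : ℝ) < p := by linarith
  have l0 : 0 ≤ Real.log p := Real.log_natCast_nonneg p
  set t : ℝ := (p : ℝ) ^ (-(1 / 2) : ℝ) with ht
  have t0 : 0 ≤ t := Real.rpow_nonneg pp.le _
  have t1 : t ≤ 7 / 10 := rpow_neg_le h3 (by norm_num)
  have t2 : t ^ 2 = 1 / (p : ℝ) := by
    rw [ht, ← Real.rpow_natCast, ← Real.rpow_mul pp.le, one_div (p : ℝ), ← Real.rpow_neg_one]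
    norm_num
  have t3 : t ^ 3 = (p : ℝ) ^ (-(3 / 2) : ℝ) := by
    rw [ht, ← Real.rpow_natCast, ← Real.rpow_mul pp.le]; norm_num
  have ts : t = (√(p : ℝ))⁻¹ := by
    rw [ht, Real.sqrt_eq_rpow, Real.rpow_neg pp.le]
  have tc : (t : ℂ) = (p : ℂ) ^ (-(1 / 2 : ℂ)) := by
    rw [ht, Complex.ofReal_cpow pp.le]; simp
  set τ : ℝ := ‖z‖ + ‖s₁‖ + ‖s₂‖ with hτ
  have n0 := norm_nonneg z
  have n1 := norm_nonneg s₁
  have n2 := norm_nonneg s₂
  have key : ∀ w : ℂ, w.re * Real.log p ≤ 5 → ‖w‖ ≤ τ →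
      ‖(t : ℂ) * (p : ℂ) ^ w‖ ≤ (Real.exp 5 + 2) * t ∧
      ‖(t : ℂ) * (p : ℂ) ^ w - t‖ ≤ (Real.exp 5 + 2) * min 1 (τ * Real.log p) * t := by
    intro w hw hn
    obtain ⟨a, b⟩ := mg_pow hp0 hw hn
    have nt : ‖(t : ℂ)‖ = t := by rw [Complex.norm_real, Real.norm_eq_abs, abs_of_nonneg t0]
    constructor
    · rw [norm_mul, nt, mul_comm]
      gcongr
      linarith
    · rw [← mul_sub_one, norm_mul, nt, mul_comm]
      gcongr
  have neg : ∀ w : ℂ, 0 ≤ w.re → ‖(t : ℂ) * (p : ℂ) ^ (-w)‖ ≤ t ∧ (-w).re * Real.log p ≤ 5 := by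
    intro w hw
    constructor
    · rw [tc, cp_add hp0]
      exact norm_cp_le hp0 (by simp; linarith)
    · rw [neg_re]
      have := mul_nonneg hw l0
      linarith
  have ku := key z (by
    have := mul_nonneg b1 l0
    have := mul_nonneg b2 l0
    linarith) (by linarith)
  have kv := key (-z) (neg z z0).2 (by rw [norm_neg]; linarith)
  have kx := key (-s₁) (neg s₁ b1).2 (by rw [norm_neg]; linarith)
  have ky := key (-s₂) (neg s₂ b2).2 (by rw [norm_neg]; linarith)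
  have main := H t (min 1 (τ * Real.log p)) _ _ _ _ θ t0 t1
    (le_min zero_le_one (by positivity)) (min_le_left _ _) ku.1 (neg z z0).1 (neg s₁ b1).1
    (neg s₂ b2).1 ku.2 kv.2 kx.2 ky.2 hθ
  have ex : ∀ s : ℂ, xs s p = (t : ℂ) * (p : ℂ) ^ (-s) := by
    intro s
    unfold xs
    rw [tc, cp_add hp0]
    congr 1
    ring
  have nd : ¬ (p : ℤ) ∣ 1 := by
    intro h
    have : p ∣ 1 := by exact_mod_cast h
    exact hp.one_lt.ne' (Nat.dvd_one.1 this)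
  have ee : ek 1 z p = 1 - (t : ℂ) * (p : ℂ) ^ z * ((t : ℂ) * (p : ℂ) ^ (-z)) := by
    unfold ek
    rw [if_neg nd, mul_mul_mul_comm, cp_add hp0, add_neg_cancel, Complex.cpow_zero, mul_one, ← sq,
      ← Complex.ofReal_pow, t2]
    simp
  have ee' : 1 - ek 1 z p = ((t ^ 2 : ℝ) : ℂ) := by
    unfold ek
    rw [if_neg nd, t2]
    simp
  have eo : ok 1 z p = (t : ℂ) * (p : ℂ) ^ z - (t : ℂ) * (p : ℂ) ^ (-z) := by
    unfold ok
    rw [jacobiSym.one_left, tc]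
    simp only [Int.cast_one, one_mul, mul_sub]
  have m0 : ‖mu 1 z s₁ s₂ p 0‖ = t ^ 2 := by
    unfold mu
    rw [if_pos rfl, ee', Complex.norm_real, Real.norm_eq_abs, abs_of_nonneg (sq_nonneg t)]
  have m1 : mu 1 z s₁ s₂ p 1 = (1 + (t : ℂ) * (p : ℂ) ^ z) * (1 - (t : ℂ) * (p : ℂ) ^ (-z)) *
      ((1 - (t : ℂ) * (p : ℂ) ^ (-s₁)) ^ 2 * (1 - (t : ℂ) * (p : ℂ) ^ (-s₂)) ^ 2)⁻¹ / 2 := by
    unfold mu Fy
    rw [if_neg (by norm_num), ee, eo, ex, ex]
    simp only [Int.cast_one, mul_one, one_mul, one_div]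
    ring
  have m2 : mu 1 z s₁ s₂ p (-1) = (1 - (t : ℂ) * (p : ℂ) ^ z) * (1 + (t : ℂ) * (p : ℂ) ^ (-z)) *
      ((1 + (t : ℂ) * (p : ℂ) ^ (-s₁)) ^ 2 * (1 + (t : ℂ) * (p : ℂ) ^ (-s₂)) ^ 2)⁻¹ / 2 := by
    unfold mu Fy
    rw [if_neg (by norm_num), ee, eo, ex, ex]
    simp only [Int.cast_neg, Int.cast_one, mul_neg, mul_one, sub_neg_eq_add, one_div]
    ring
  have hs : ∑ y ∈ T3, ‖mu 1 z s₁ s₂ p y‖ * Real.exp (θ * y / √(p : ℝ)) =
      ‖mu 1 z s₁ s₂ p 0‖ + ‖mu 1 z s₁ s₂ p 1‖ * Real.exp (θ * t)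
        + ‖mu 1 z s₁ s₂ p (-1)‖ * Real.exp (-θ * t) := by
    unfold T3
    rw [sum_insert (by decide), sum_insert (by decide), sum_singleton, ts]
    simp only [Int.cast_neg, Int.cast_one, Int.cast_zero, mul_zero, zero_mul, Real.exp_zero,
      mul_one, mul_neg, div_eq_mul_inv, neg_mul]
    ring
  rw [hs, m0, m1, m2, norm_div, norm_div, Complex.norm_two]
  refine main.trans (le_of_eq ?_)
  rw [t2, t3]
  congr 1
  ring

end Pool.Agent.QM
end

-- part Pool.Agent.P.MP_ea46f5_nt.QM.FPois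
section

/-!
The Poisson step, second part: the Mellin form of the dual terms and P1.
-/

namespace Pool.Agent.QM.Po

open Real Finset NumberTheorySymbols MeasureTheory

theorem cpow_pos_eq {x : ℝ} (hx : 0 < x) (w : ℂ) : (x : ℂ) ^ w = Complex.exp (Real.log x * w) := by
  rw [Complex.cpow_def_of_ne_zero (by exact_mod_cast hx.ne'), Complex.ofReal_log hx.le]

theorem ncpow_eq {p : ℕ} (hp : 0 < p) (w : ℂ) : (p : ℂ) ^ w = Complex.exp (Real.log p * w) := by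
  rw [← cpow_pos_eq (by exact_mod_cast hp), Complex.ofReal_natCast]

theorem natCast_prod_cpow (s : Finset ℕ) (f : ℕ → ℕ) (w : ℂ) :
    ((∏ p ∈ s, f p : ℕ) : ℂ) ^ w = ∏ p ∈ s, (f p : ℂ) ^ w := by
  induction s using Finset.induction_on with
  | empty => simp
  | insert a s ha ih =>
    rw [prod_insert ha, prod_insert ha, Nat.cast_mul, Complex.natCast_mul_natCast_cpow, ih]

theorem hasSum_zeta {w : ℂ} (hw : 1 < w.re) :
    HasSum (fun j : ℕ => (j : ℂ) ^ (-w)) (riemannZeta w) := by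
  have h := (Complex.summable_one_div_nat_cpow.2 hw).hasSum
  rw [← zeta_eq_tsum_one_div_nat_cpow hw] at h
  simpa only [Complex.cpow_neg, one_div] using h

/-- EP1. -/
theorem ep1 {Q : Finset ℕ} (hQ : ∀ p ∈ Q, p.Prime) (a c : ℕ → ℂ) {w : ℂ} (hw : 1 < w.re) :
    HasSum (fun j : ℕ => (j : ℂ) ^ (-w) * ∏ p ∈ Q, ((if (p : ℤ) ∣ (j : ℤ) then c p else 0) + a p))
      (riemannZeta w * ∏ p ∈ Q, (c p * (p : ℂ) ^ (-w) + a p)) := by
  simp_rw [sieve_prod hQ, prod_add, mul_sum]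
  refine hasSum_sum fun s hs => ?_
  have he := prod_primes_pos fun p hp => hQ p (mem_powerset.1 hs hp)
  have hinj : Function.Injective fun j : ℕ => (∏ p ∈ s, p) * j := mul_right_injective₀ he.ne'
  rw [← hinj.hasSum_iff]
  · have h := (hasSum_zeta hw).mul_right ((∏ p ∈ s, c p * (p : ℂ) ^ (-w)) * ∏ p ∈ Q \ s, a p)
    refine h.congr_fun fun j => ?_
    simp only [Function.comp]
    rw [if_pos (Int.natCast_dvd_natCast.2 (dvd_mul_right _ _)), Nat.cast_mul,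
      Complex.natCast_mul_natCast_cpow, natCast_prod_cpow, prod_mul_distrib]
    ring
  · intro j hj
    rw [if_neg fun hd => hj (by obtain ⟨c, hc⟩ := Int.natCast_dvd_natCast.1 hd; exact ⟨c, hc.symm⟩)]
    simp

theorem integrable_ker {σ x : ℝ} (hσ : 0 < σ) (hx : 0 < x) : Integrable fun t : ℝ =>
    Complex.Gammaℝ (σ + t * Complex.I) / 2 * (x : ℂ) ^ (-(σ + t * Complex.I)) := by
  refine ((integrable_GammaR_line hσ).div_const 2).mul_bdd (c := x ^ (-σ)) ?_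
    (Filter.Eventually.of_forall fun t => ?_)
  · exact (Continuous.const_cpow (by fun_prop)
      (Or.inl (by exact_mod_cast hx.ne'))).aestronglyMeasurable
  · rw [Complex.norm_cpow_eq_rpow_re_of_pos hx]; simp

/-- The arithmetic factor of the dual term. -/
noncomputable def UV (n : ℕ) (z : ℂ) (H : ℤ) : ℂ :=
  (∏ p ∈ PO n, (J(H | p) : ℂ) * (p : ℂ) ^ (z - 1 / 2)) *
    ∏ p ∈ PE n, ((if (p : ℤ) ∣ H then -(p : ℂ) ^ (2 * z - 1) else 0) + 1)

theorem WW_integral {X σ : ℝ} (hX : 0 < X) (hσ : 0 < σ) (n : ℕ) {H : ℤ} (hH : H ≠ 0) :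
    (Integrable fun t : ℝ => Complex.Gammaℝ (σ + t * Complex.I) / 2 *
      ((|(H : ℝ)| * X : ℝ) : ℂ) ^ (-(σ + t * Complex.I)) * UV n (σ + t * Complex.I) H) ∧
    (WW X n H : ℂ) = (1 / (2 * π) : ℂ) * ∫ t : ℝ, Complex.Gammaℝ (σ + t * Complex.I) / 2 *
      ((|(H : ℝ)| * X : ℝ) : ℂ) ^ (-(σ + t * Complex.I)) * UV n (σ + t * Complex.I) H := by
  have hn0 : (0 : ℝ) < sf n := by exact_mod_cast sf_pos n
  have hH' : 0 < |(H : ℝ)| := abs_pos.2 (by exact_mod_cast hH)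
  set co : Finset ℕ → ℝ := fun s => (√(sf n))⁻¹ * (∏ p ∈ s, (-1 / p : ℝ)) *
    if ((∏ p ∈ s, p : ℕ) : ℤ) ∣ H then (J(H | sf n) : ℝ) else 0 with hco
  set x : Finset ℕ → ℝ := fun s => |(H : ℝ)| * X / (sf n * ((∏ p ∈ s, p : ℕ) : ℝ) ^ 2) with hx
  have he : ∀ s ∈ (PE n).powerset, 0 < ∏ p ∈ s, p := fun s hs =>
    prod_primes_pos fun p hp => PE_prime (mem_powerset.1 hs hp)
  have hxp : ∀ s ∈ (PE n).powerset, 0 < x s := fun s hs => by
    have : (0 : ℝ) < (∏ p ∈ s, p : ℕ) := by exact_mod_cast he s hs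
    simp only [hx]; positivity
  have key : ∀ z : ℂ, Complex.Gammaℝ z / 2 * ((|(H : ℝ)| * X : ℝ) : ℂ) ^ (-z) * UV n z H =
      ∑ s ∈ (PE n).powerset, (co s : ℂ) * (Complex.Gammaℝ z / 2 * (x s : ℂ) ^ (-z)) := by
    intro z
    rw [UV, sieve_prod (fun p hp => PE_prime hp), mul_sum, mul_sum]
    refine sum_congr rfl fun s hs => ?_
    simp only [hco]
    split_ifs with hd
    · have h1 : (0 : ℝ) < (∏ p ∈ s, p : ℕ) := by exact_mod_cast he s hs
      have h2 : ∏ p ∈ s, -(p : ℂ) ^ (2 * z - 1) =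
          (∏ _p ∈ s, (-1 : ℂ)) * ((∏ p ∈ s, p : ℕ) : ℂ) ^ (2 * z - 1) := by
        rw [natCast_prod_cpow s (fun p => p), ← prod_mul_distrib]
        exact prod_congr rfl fun p _ => by ring
      have h3 : (x s : ℂ) ^ (-z) = ((|(H : ℝ)| * X : ℝ) : ℂ) ^ (-z) *
          ((sf n : ℂ) ^ (z - 1 / 2) * (√(sf n) : ℝ)) *
          (((∏ p ∈ s, p : ℕ) : ℂ) ^ (2 * z - 1) * (∏ p ∈ s, p : ℕ)) := by
        have a1 : ((√(sf n) : ℝ) : ℂ) = Complex.exp (Real.log (sf n) * (1 / 2)) := by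
          rw [← ncpow_eq (sf_pos n), sqrt_eq_rpow, Complex.ofReal_cpow hn0.le]; simp
        have a2 : ((∏ p ∈ s, p : ℕ) : ℂ) = Complex.exp (Real.log (∏ p ∈ s, p : ℕ) * 1) := by
          rw [← ncpow_eq (he s hs), Complex.cpow_one]
        rw [cpow_pos_eq (hxp s hs), cpow_pos_eq (by positivity), ncpow_eq (sf_pos n),
          ncpow_eq (he s hs), a1]
        conv_rhs => enter [2, 2]; rw [a2]
        simp only [← Complex.exp_add, hx]
        rw [log_div (by positivity) (by positivity), log_mul hn0.ne' (by positivity), log_pow]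
        congr 1
        push_cast
        ring
      have h4 : ((√(sf n) : ℝ) : ℂ) ≠ 0 := by exact_mod_cast (sqrt_pos.2 hn0).ne'
      have h5 : ((∏ p ∈ s, p : ℕ) : ℂ) ≠ 0 := by exact_mod_cast (he s hs).ne'
      rw [h2, h3, prod_mul_distrib, ← natCast_prod_cpow (PO n) (fun p => p), ← Int.cast_prod,
        ← jac_prod H _ (fun p => p) (fun p hp => (PO_prime hp).ne_zero), prod_div_distrib,
        ← Nat.cast_prod (fun p => p) s]
      simp only [Complex.ofReal_mul, Complex.ofReal_inv, Complex.ofReal_div, Complex.ofReal_prod,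
        Complex.ofReal_neg, Complex.ofReal_one, Complex.ofReal_natCast, Complex.ofReal_intCast,
        prod_const_one, ← sf.eq_1]
      field_simp
    · simp
  simp_rw [key]
  have hi : ∀ s ∈ (PE n).powerset, Integrable fun t : ℝ => (co s : ℂ) *
      (Complex.Gammaℝ (σ + t * Complex.I) / 2 * (x s : ℂ) ^ (-(σ + t * Complex.I))) :=
    fun s hs => (integrable_ker hσ (hxp s hs)).const_mul _
  refine ⟨integrable_finsetSum _ hi, ?_⟩
  rw [integral_finsetSum _ hi, mul_sum, WW, Complex.ofReal_sum]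
  refine sum_congr rfl fun s hs => ?_
  rw [integral_const_mul, mul_left_comm, ← gauss_eq_integral hσ (hxp s hs), ← Complex.ofReal_mul]
  congr 1
  simp only [hco, hx]
  split_ifs
  · rw [mul_assoc _ (J(H | sf n) : ℝ), div_pow, mul_pow, sq_abs]
    congr 3
    ring
  · simp

/-- The local value at primes not dividing `j`. -/
noncomputable def aL (n : ℕ) (k : ℤ) (z : ℂ) (p : ℕ) : ℂ :=
  if Odd (n.factorization p) then (J(k | p) : ℂ) * (p : ℂ) ^ (z - 1 / 2)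
  else if (p : ℤ) ∣ k then 1 - (p : ℂ) ^ (2 * z - 1) else 1

/-- The correction at primes dividing `j`. -/
noncomputable def cL (n : ℕ) (k : ℤ) (z : ℂ) (p : ℕ) : ℂ :=
  if Odd (n.factorization p) then -((J(k | p) : ℂ) * (p : ℂ) ^ (z - 1 / 2))
  else if (p : ℤ) ∣ k then 0 else -(p : ℂ) ^ (2 * z - 1)

theorem UU_eq (n : ℕ) (k : ℤ) (z : ℂ) (j : ℕ) : UV n z (k * (j : ℤ) ^ 2) =
    ∏ p ∈ n.primeFactors, ((if (p : ℤ) ∣ (j : ℤ) then cL n k z p else 0) + aL n k z p) := by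
  rw [← prod_filter_mul_prod_filter_not n.primeFactors (fun p => Odd (n.factorization p)), UV]
  congr 1
  · refine prod_congr rfl fun p hp => ?_
    have ho := (mem_filter.1 hp).2
    rw [aL, cL, if_pos ho, if_pos ho, jacobiSym.mul_left, jacobiSym.pow_left]
    by_cases hd : (p : ℤ) ∣ j
    · rw [if_pos hd, (jac_prime_eq_zero (PO_prime hp) j).2 hd]; simp
    · rw [if_neg hd]
      rcases jacobiSym.trichotomy j p with h | h | h
      · exact absurd ((jac_prime_eq_zero (PO_prime hp) j).1 h) hd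
      · simp [h]
      · simp [h]
  · refine prod_congr rfl fun p hp => ?_
    have ho := (mem_filter.1 hp).2
    have hp' : Prime (p : ℤ) := Nat.prime_iff_prime_int.1 (PE_prime hp)
    rw [aL, cL, if_neg ho, if_neg ho]
    simp only [hp'.dvd_mul, hp'.dvd_pow_iff_dvd two_ne_zero]
    by_cases h1 : (p : ℤ) ∣ k <;> by_cases h2 : (p : ℤ) ∣ j <;> simp [h1, h2] <;> ring

theorem loc_eq_TK (n : ℕ) (k : ℤ) (z : ℂ) :
    ∏ p ∈ n.primeFactors, (cL n k z p * (p : ℂ) ^ (-(2 * z)) + aL n k z p) = Tk k z n := by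
  refine prod_congr rfl fun p hp => ?_
  have hp0 := (Nat.prime_of_mem_primeFactors hp).pos
  have hp1 : (p : ℂ) ≠ 0 := by exact_mod_cast hp0.ne'
  unfold aL cL ok ek
  split_ifs
  · have a1 : (p : ℂ) ^ (z - 1 / 2) = (p : ℂ) ^ (-(1 / 2) : ℂ) * (p : ℂ) ^ z := by
      rw [← Complex.cpow_add _ _ hp1]; congr 1; ring
    have a2 : (p : ℂ) ^ (-z) = (p : ℂ) ^ z * (p : ℂ) ^ (-(2 * z)) := by
      rw [← Complex.cpow_add _ _ hp1]; congr 1; ring
    rw [a1, a2]; ring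
  · simp
  · have a1 : (p : ℂ) ^ (2 * z - 1) * (p : ℂ) ^ (-(2 * z)) = 1 / p := by
      rw [← Complex.cpow_add _ _ hp1, one_div, ← Complex.cpow_neg_one]; congr 1; ring
    rw [neg_mul, a1]; ring

theorem norm_jac_le (m : ℤ) (n : ℕ) : ‖(J(m | n) : ℂ)‖ ≤ 1 := by
  rcases jacobiSym.trichotomy m n with h | h | h <;> simp [h]

theorem norm_UU_le (n : ℕ) (z : ℂ) (H : ℤ) : ‖UV n z H‖ ≤
    (∏ p ∈ PO n, (p : ℝ) ^ (z.re - 1 / 2)) * ∏ p ∈ PE n, ((p : ℝ) ^ (2 * z.re - 1) + 1) := by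
  rw [UV, norm_mul, norm_prod, norm_prod]
  gcongr with p hp p hp
  · rw [norm_mul, Complex.norm_natCast_cpow_of_pos (PO_prime hp).pos]
    have : (z - 1 / 2).re = z.re - 1 / 2 := by simp
    rw [this]
    exact mul_le_of_le_one_left (by positivity) (norm_jac_le _ _)
  · refine (norm_add_le _ _).trans ?_
    rw [norm_one]
    gcongr
    split_ifs
    · rw [norm_neg, Complex.norm_natCast_cpow_of_pos (PE_prime hp).pos]; simp
    · rw [norm_zero]; positivity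

theorem hasSum_WW_sq {X σ : ℝ} (hX : 0 < X) (hσ : 1 / 2 < σ) (n : ℕ) {k : ℤ} (hk : k ≠ 0) :
    HasSum (fun j : ℕ => if j = 0 then 0 else (WW X n (k * (j : ℤ) ^ 2) : ℂ)) (Ak k X σ n) := by
  have hσ0 : 0 < σ := by linarith
  have hk' : 0 < |(k : ℝ)| := abs_pos.2 (by exact_mod_cast hk)
  set F : ℕ → ℝ → ℂ := fun j t => Complex.Gammaℝ (σ + t * Complex.I) / 2 *
    ((|(k : ℝ)| * X : ℝ) : ℂ) ^ (-(σ + t * Complex.I)) *
      ((j : ℂ) ^ (-(2 * (σ + t * Complex.I))) * UV n (σ + t * Complex.I) (k * (j : ℤ) ^ 2)) with hF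
  have hre : ∀ t : ℝ, 1 < (2 * (σ + t * Complex.I : ℂ)).re := fun t => by simp; linarith
  have hF0 : F 0 = fun _ => 0 := by
    funext t
    simp only [hF]
    rw [Nat.cast_zero, Complex.zero_cpow (neg_ne_zero.2 (Complex.ne_zero_of_one_lt_re (hre t)))]
    simp
  have hFj : ∀ j : ℕ, j ≠ 0 → F j = fun t : ℝ => Complex.Gammaℝ (σ + t * Complex.I) / 2 *
      ((|((k * (j : ℤ) ^ 2 : ℤ) : ℝ)| * X : ℝ) : ℂ) ^ (-(σ + t * Complex.I)) *
        UV n (σ + t * Complex.I) (k * (j : ℤ) ^ 2) := by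
    intro j hj
    funext t
    have hj0 : (0 : ℝ) < j := by exact_mod_cast Nat.pos_of_ne_zero hj
    have : |((k * (j : ℤ) ^ 2 : ℤ) : ℝ)| * X = |(k : ℝ)| * X * (j : ℝ) ^ 2 := by
      push_cast; rw [abs_mul, abs_pow, sq_abs]; ring
    simp only [hF]
    rw [this, cpow_pos_eq (x := |(k : ℝ)| * X * (j : ℝ) ^ 2) (by positivity),
      cpow_pos_eq (by positivity), ncpow_eq (Nat.pos_of_ne_zero hj),
      log_mul (x := |(k : ℝ)| * X) (y := (j : ℝ) ^ 2) (by positivity) (by positivity), log_pow,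
      mul_assoc (_ / 2), mul_assoc (_ / 2), ← mul_assoc (Complex.exp _), ← Complex.exp_add]
    congr 3
    push_cast
    ring
  have hkj : ∀ j : ℕ, j ≠ 0 → k * (j : ℤ) ^ 2 ≠ 0 := fun j hj =>
    mul_ne_zero hk (pow_ne_zero _ (by exact_mod_cast hj))
  have hint : ∀ j, Integrable (F j) := fun j => by
    by_cases hj : j = 0
    · rw [hj, hF0]; exact integrable_zero _ _ _
    · rw [hFj j hj]; exact (WW_integral hX hσ0 n (hkj j hj)).1
  set M : ℝ := (∏ p ∈ PO n, (p : ℝ) ^ (σ - 1 / 2)) * ∏ p ∈ PE n, ((p : ℝ) ^ (2 * σ - 1) + 1)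
  have hG := (integrable_ker hσ0 (x := |(k : ℝ)| * X) (by positivity)).norm
  have hsum : Summable fun j => ∫ t, ‖F j t‖ := by
    refine Summable.of_nonneg_of_le (fun j => integral_nonneg fun t => norm_nonneg _) (fun j => ?_)
      (((summable_nat_rpow.2 (show -(2 * σ) < -1 by linarith)).mul_right M).mul_left
        (∫ t : ℝ, ‖Complex.Gammaℝ (σ + t * Complex.I) / 2 *
          ((|(k : ℝ)| * X : ℝ) : ℂ) ^ (-(σ + t * Complex.I))‖))
    rw [← integral_mul_const]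
    refine integral_mono (hint j).norm (hG.mul_const _) fun t => ?_
    simp only [hF]
    rw [norm_mul _ (_ * UV _ _ _), norm_mul _ (UV _ _ _),
      Complex.norm_natCast_cpow_of_re_ne_zero _ (by have := hre t; simp at this ⊢; linarith)]
    have h1 := norm_UU_le n (σ + t * Complex.I) (k * (j : ℤ) ^ 2)
    have h2 : (σ + t * Complex.I : ℂ).re = σ := by simp
    have h3 : (-(2 * (σ + t * Complex.I : ℂ))).re = -(2 * σ) := by simp
    rw [h2] at h1
    rw [h3]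
    gcongr
  have h := (hasSum_integral_of_summable_integral_norm hint hsum).mul_left (1 / (2 * π) : ℂ)
  have h2 : ∀ t : ℝ, ∑' j, F j t = Kz k X (σ + t * Complex.I) * Tk k (σ + t * Complex.I) n := by
    intro t
    simp only [hF, UU_eq]
    rw [tsum_mul_left, (ep1 (fun p hp => Nat.prime_of_mem_primeFactors hp) _ _ (hre t)).tsum_eq,
      loc_eq_TK, Kz]
    ring
  simp_rw [h2] at h
  refine h.congr_fun fun j => ?_
  by_cases hj : j = 0
  · simp [hj, hF0]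
  · rw [if_neg hj, (WW_integral hX hσ0 n (hkj j hj)).2, hFj j hj]

theorem sq_mul_unique {a b c d : ℕ} (ha : Squarefree a) (hc : Squarefree c) (hb : b ≠ 0)
    (hd : d ≠ 0) (h : a * b ^ 2 = c * d ^ 2) : b = d := by
  refine Nat.eq_of_factorization_eq hb hd fun p => ?_
  have h1 := congrArg (fun m => m.factorization p) h
  simp only [Nat.factorization_mul ha.ne_zero (pow_ne_zero 2 hb),
    Nat.factorization_mul hc.ne_zero (pow_ne_zero 2 hd), Nat.factorization_pow, Finsupp.add_apply,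
    Finsupp.smul_apply, smul_eq_mul] at h1
  have h2 := ha.natFactorization_le_one p
  have h3 := hc.natFactorization_le_one p
  omega

open Classical in
theorem hasSum_sqfree {f : ℤ → ℂ} {a : ℂ} (h : HasSum f a) :
    HasSum (fun kj : ℤ × ℕ => if Squarefree kj.1 then
      (if kj.2 = 0 then 0 else f (kj.1 * (kj.2 : ℤ) ^ 2)) else 0) (a - f 0) := by
  set S : Set (ℤ × ℕ) := {kj | Squarefree kj.1 ∧ kj.2 ≠ 0}
  let φ : S → ℤ := fun x => x.1.1 * (x.1.2 : ℤ) ^ 2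
  have hinj : Function.Injective φ := by
    rintro ⟨⟨k, j⟩, hk, hj⟩ ⟨⟨k', j'⟩, hk', hj'⟩ h
    simp only [φ] at h hk hj hk' hj'
    have h1 := congrArg Int.natAbs h
    simp only [Int.natAbs_mul, Int.natAbs_pow, Int.natAbs_natCast] at h1
    have h2 := sq_mul_unique (Int.squarefree_natAbs.2 hk) (Int.squarefree_natAbs.2 hk') hj hj' h1
    subst h2
    have h3 := mul_right_cancel₀ (pow_ne_zero 2 (by exact_mod_cast hj : (j : ℤ) ≠ 0)) h
    subst h3
    rfl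
  have h1 := hasSum_ite_sub_hasSum h 0
  rw [← hinj.hasSum_iff] at h1
  · have h2 : ((fun n => if n = 0 then 0 else f n) ∘ φ) =
        (fun kj : ℤ × ℕ => f (kj.1 * (kj.2 : ℤ) ^ 2)) ∘ (Subtype.val : S → ℤ × ℕ) := by
      funext x
      simp only [Function.comp, φ]
      exact if_neg (mul_ne_zero x.2.1.ne_zero (pow_ne_zero _ (by exact_mod_cast x.2.2)))
    rw [h2, hasSum_subtype_iff_indicator] at h1
    refine h1.congr_fun fun kj => ?_
    by_cases a1 : Squarefree kj.1 <;> by_cases a2 : kj.2 = 0 <;> simp [Set.indicator, S, a1, a2]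
  · intro H hH
    refine if_pos (by_contra fun h0 => hH ?_)
    obtain ⟨a, b, -, hb, hab, ha⟩ := Nat.sq_mul_squarefree_of_pos (Int.natAbs_pos.2 h0)
    have hab' : ((b : ℤ) ^ 2 * a) = (H.natAbs : ℤ) := by exact_mod_cast hab
    rcases Int.natAbs_eq H with h1 | h1
    · exact ⟨⟨(a, b), Int.squarefree_natCast.2 ha, hb.ne'⟩, by simp only [φ]; linarith⟩
    · exact ⟨⟨(-a, b), by
        rw [← Int.squarefree_natAbs]; simpa using ha, hb.ne'⟩, by simp only [φ]; linarith⟩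

open Classical in
/-- P1. -/
theorem p1 {X : ℝ} (hX : 0 < X) {n : ℕ} (hn : Odd n) (σ : ℤ → ℝ) (hσ : ∀ k, 1 / 2 < σ k) :
    HasSum (fun k : ℤ => if Squarefree k then Ak k X (σ k) n else 0)
      ((Sg X n : ℂ) / X - Tk 1 0 n) := by
  have h := hasSum_sqfree (Complex.hasSum_ofReal.2 (hasSum_WW hX hn))
  rw [WW_zero, Complex.ofReal_div] at h
  refine h.prod_fiberwise fun k => ?_
  by_cases hk : Squarefree k
  · simp only [if_pos hk]
    exact hasSum_WW_sq hX (hσ k) n hk.ne_zero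
  · simp only [if_neg hk]
    exact hasSum_zero

/-- P1, indexed by the squarefree integers. -/
theorem p1' {X : ℝ} (hX : 0 < X) {n : ℕ} (hn : Odd n) (σ : ℤ → ℝ) (hσ : ∀ k, 1 / 2 < σ k) :
    HasSum (fun k : {k : ℤ // Squarefree k} => Ak k X (σ k) n)
      ((Sg X n : ℂ) / X - Tk 1 0 n) := by
  have h := p1 hX hn σ hσ
  refine (hasSum_subtype_iff_indicator (s := {k : ℤ | Squarefree k})
    (f := fun k : ℤ => Ak k X (σ k) n)).2 (h.congr_fun fun k => ?_)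
  by_cases hk : Squarefree k <;> simp [Set.indicator, hk]

end Pool.Agent.QM.Po

namespace Pool.Agent.QM

open Real Finset

theorem po_T0 (n : ℕ) : Tk 1 0 n = (T0 n : ℂ) := by
  rw [Tk, T0, Complex.ofReal_prod]
  refine prod_congr rfl fun p hp => ?_
  split_ifs
  · simp [ok]
  · rw [ek, if_neg (by
      rw [Int.natCast_dvd]; simpa using (Nat.prime_of_mem_primeFactors hp).one_lt.ne')]
    push_cast; rfl

theorem pP2 : P2 := by
  intro X n hX hn
  have he : (fun m : ℤ => GX X m) = fun m : ℤ => exp (-π * (m : ℝ) ^ 2 * (1 / X ^ 2)) := by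
    funext m; rw [GX, mul_one_div]
  refine ⟨?_, ?_, ?_⟩
  · rw [he]; exact summable_gauss (by positivity)
  · have h := Po.theta_sub_le 1 (u := 1 / X ^ 2) (by positivity)
    simp only [jacobiSym.one_right, Int.cast_one, one_mul] at h
    rw [show 1 / X ^ 2 = (X⁻¹) ^ 2 by field_simp, sqrt_sq (by positivity), inv_inv] at h
    rw [he, show 1 / X ^ 2 = (X⁻¹) ^ 2 by field_simp]
    linarith [(abs_le.1 h).2]
  · have h := Po.WW_zero X n
    rw [po_T0] at h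
    rw [← Complex.ofReal_injective h]
    exact Po.P2_real hX hn

theorem pP1 (_hGAM1 : GAM1) : P1 := by
  intro X n σ hX hn hσ
  have h := (Po.p1' hX hn σ fun k => (hσ k).1).mul_left (X : ℂ)
  have hX' : (X : ℂ) ≠ 0 := by exact_mod_cast hX.ne'
  have e : (X : ℂ) * ((Sg X n : ℂ) / X - Tk 1 0 n) = ((Sg X n - X * T0 n : ℝ) : ℂ) := by
    rw [po_T0]; push_cast; field_simp
  rwa [e] at h

end Pool.Agent.QM
end
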