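import Pool.Agent.K.MP_ea46f5_nt.C11

/-! Fourier representation of a factor that is holomorphic near the imaginary axes. -/

namespace Pool.Agent.Q4

open Complex MeasureTheory Finset
open scoped Real FourierTransform RealInnerProductSpace
open Pool.Agent.QM

/-- The phase `exp (i t . v)`. -/
noncomputable def rex {n : ℕ} (t v : Fin n → ℝ) : ℂ := cexp (((∑ j, t j * v j : ℝ) : ℂ) * I)

theorem rex_norm {n : ℕ} (t v : Fin n → ℝ) : ‖rex t v‖ = 1 := norm_exp_ofReal_mul_I _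

theorem rex_add {n : ℕ} (t v w : Fin n → ℝ) : rex t (v + w) = rex t v * rex t w := by
  unfold rex
  rw [← Complex.exp_add]
  congr 1
  simp only [Pi.add_apply, mul_add, sum_add_distrib]
  push_cast
  ring

theorem rex_add' {n : ℕ} (t u v : Fin n → ℝ) : rex (t + u) v = rex t v * rex u v := by
  unfold rex
  rw [← Complex.exp_add]
  congr 1
  simp only [Pi.add_apply, add_mul, sum_add_distrib]
  push_cast
  ring

theorem rex_cont {n : ℕ} : Continuous fun p : (Fin n → ℝ) × (Fin n → ℝ) => rex p.1 p.2 := by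
  unfold rex; fun_prop

theorem rex_pt {n : ℕ} (c t v : Fin n → ℝ) :
    cexp (∑ j, pt c t j * v j) = (Real.exp (∑ j, c j * v j) : ℝ) * rex t v := by
  unfold rex pt
  rw [ofReal_exp, ← Complex.exp_add]
  congr 1
  push_cast
  rw [sum_mul, ← sum_add_distrib]
  exact sum_congr rfl fun j _ => by ring

theorem rex_pt0 {n : ℕ} (t v : Fin n → ℝ) : cexp (∑ j, pt 0 t j * v j) = rex t v := by
  rw [rex_pt]; simp

/-- Fourier inversion on `Fin n → ℝ`. -/
theorem rep_inv {n : ℕ} (g : (Fin n → ℝ) → ℂ) (hc : Continuous g) (hg : Integrable g)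
    (hh : Integrable fun v : Fin n → ℝ => ∫ t, g t * rex t (-v)) (x : Fin n → ℝ) :
    g x = ∫ v : Fin n → ℝ, ((((2 * π) ^ n)⁻¹ : ℝ) : ℂ) * (∫ t, g t * rex t (-v)) * rex x v := by
  set H : (Fin n → ℝ) → ℂ := fun v => ∫ t, g t * rex t (-v) with hH
  have e1 := PiLp.volume_preserving_toLp (Fin n)
  have e2 := PiLp.volume_preserving_ofLp (Fin n)
  have emb : MeasurableEmbedding (WithLp.toLp 2 : (Fin n → ℝ) → EuclideanSpace ℝ (Fin n)) :=
    (MeasurableEquiv.toLp 2 (Fin n → ℝ)).measurableEmbedding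
  set G : EuclideanSpace ℝ (Fin n) → ℂ := fun y => g y.ofLp with hG
  have hF : ∀ w : EuclideanSpace ℝ (Fin n), 𝓕 G w = H ((2 * π) • w.ofLp) := by
    intro w
    rw [Real.fourier_eq', ← e1.integral_comp emb]
    refine integral_congr_ae (.of_forall fun t => ?_)
    simp only [hG, smul_eq_mul, rex]
    rw [mul_comm]
    congr 4
    simp only [PiLp.inner_apply, mul_sum, Pi.neg_apply, Pi.smul_apply, smul_eq_mul]
    exact sum_congr rfl fun j _ => by simp; ring
  have h2 : (2 * π : ℝ) ≠ 0 := by positivity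
  have hGi : Integrable G := e2.integrable_comp_of_integrable hg
  have hFi : Integrable (𝓕 G) := by
    rw [funext hF]
    exact e2.integrable_comp_of_integrable (hh.comp_smul h2)
  have hGc : Continuous G := hc.comp (PiLp.continuous_ofLp 2 _)
  have inv := hGi.fourierInv_fourier_eq hFi (v := WithLp.toLp 2 x) hGc.continuousAt
  rw [Real.fourierInv_eq', ← e1.integral_comp emb] at inv
  have e3 := Measure.integral_comp_smul_of_nonneg (volume : Measure (Fin n → ℝ))
    (fun v => H v * rex x v) (2 * π) (hR := by positivity)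
  simp only [mul_assoc]
  rw [integral_const_mul]
  rw [Module.finrank_fin_fun, real_smul] at e3
  rw [← e3]
  refine inv.symm.trans (integral_congr_ae (.of_forall fun w => ?_))
  simp only [hF, smul_eq_mul, rex]
  rw [mul_comm]
  congr 4
  simp only [PiLp.inner_apply, mul_sum, Pi.smul_apply, smul_eq_mul]
  exact sum_congr rfl fun j _ => by simp; ring

/-- Superposition of phases, Fubini. -/
theorem sup_eq {n : ℕ} {A : Type} [MeasurableSpace A] (μ : Measure A) [SFinite μ]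
    (φ : A → Fin n → ℝ) (hφ : Measurable φ) (h : A → ℂ) (hh : Integrable h μ)
    (F : (Fin n → ℝ) → ℂ) (hF : Integrable F) :
    Integrable (fun a => h a * ∫ t, F t * rex t (φ a)) μ ∧
      ∫ t, F t * ∫ a, h a * rex t (φ a) ∂μ = ∫ a, h a * (∫ t, F t * rex t (φ a)) ∂μ := by
  have hm : Measurable fun p : (Fin n → ℝ) × A => rex p.1 (φ p.2) :=
    rex_cont.measurable.comp (measurable_fst.prodMk (hφ.comp measurable_snd))
  have hi : Integrable (Function.uncurry fun t a => F t * h a * rex t (φ a)) (volume.prod μ) :=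
    (hF.mul_prod hh).mul_bdd (c := 1) hm.aestronglyMeasurable
      (.of_forall fun p => (rex_norm _ _).le)
  have e : ∀ a, ∫ t, F t * h a * rex t (φ a) = h a * ∫ t, F t * rex t (φ a) := fun a => by
    rw [← integral_const_mul]
    exact integral_congr_ae (.of_forall fun t => by ring)
  constructor
  · have := hi.integral_prod_right
    simp only [Function.uncurry, e] at this
    exact this
  · have := integral_integral_swap hi
    simp only [e] at this
    rw [← this]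
    refine integral_congr_ae (.of_forall fun t => ?_)
    simp only [mul_assoc, integral_const_mul]

/-- Superposition of phases, weighted sums. -/
theorem sup_sum {n : ℕ} {A ι : Type} [MeasurableSpace A] (μ : Measure A) [SFinite μ]
    (φ : A → Fin n → ℝ) (hφ : Measurable φ) (S : Finset ι) (ω ω' : ι → ℝ) (h : ι → A → ℂ)
    (F : ι → (Fin n → ℝ) → ℂ) (E : A → ℝ) (B : ℝ) (hE : Integrable E μ) (hE0 : ∀ a, 0 ≤ E a)
    (hω : ∀ k ∈ S, 0 ≤ ω' k) (hh : ∀ k ∈ S, Integrable (h k) μ) (hF : ∀ k ∈ S, Integrable (F k))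
    (hb : ∀ k ∈ S, ∀ a, ω' k * ‖h k a‖ ≤ E a * ω k)
    (hB : ∀ a, ∑ k ∈ S, ω k * ‖∫ t, F k t * rex t (φ a)‖ ≤ B) :
    ∑ k ∈ S, ω' k * ‖∫ t, F k t * ∫ a, h k a * rex t (φ a) ∂μ‖ ≤ (∫ a, E a ∂μ) * B := by
  have hs := fun k hk => sup_eq μ φ hφ (h k) (hh k hk) (F k) (hF k hk)
  calc ∑ k ∈ S, ω' k * ‖∫ t, F k t * ∫ a, h k a * rex t (φ a) ∂μ‖
      ≤ ∑ k ∈ S, ∫ a, ω' k * ‖h k a * ∫ t, F k t * rex t (φ a)‖ ∂μ := by
        refine sum_le_sum fun k hk => ?_
        rw [(hs k hk).2, integral_const_mul]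
        exact mul_le_mul_of_nonneg_left (norm_integral_le_integral_norm _) (hω k hk)
    _ = ∫ a, ∑ k ∈ S, ω' k * ‖h k a * ∫ t, F k t * rex t (φ a)‖ ∂μ :=
        (integral_finsetSum _ fun k hk => (hs k hk).1.norm.const_mul _).symm
    _ ≤ ∫ a, E a * B ∂μ := by
        refine integral_mono (integrable_finsetSum _ fun k hk => (hs k hk).1.norm.const_mul _)
          (hE.mul_const _) fun a => ?_
        refine le_trans (sum_le_sum fun k hk => ?_) (mul_le_mul_of_nonneg_left (hB a) (hE0 a) |>.trans'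
          (le_of_eq (mul_sum _ _ _).symm))
        rw [norm_mul, ← mul_assoc, ← mul_assoc]
        exact mul_le_mul_of_nonneg_right (hb k hk a) (norm_nonneg _)
    _ = _ := integral_mul_const _ _

theorem pt_add {n : ℕ} (l t c : Fin n → ℝ) : pt l t + pt 0 c = pt l (t + c) := by
  funext j; simp [pt]; ring

theorem norm_cexp_sum {n : ℕ} (s : Fin n → ℂ) (v : Fin n → ℝ) :
    ‖cexp (∑ j, s j * v j)‖ = Real.exp (∑ j, (s j).re * v j) := by
  rw [Complex.norm_exp, re_sum]
  simp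

/-- The hypothesis of the representation: holomorphic on a box, decay centred at `c`. -/
def RH {n : ℕ} (a b c : Fin n → ℝ) (M : ℝ) (R : (Fin n → ℂ) → ℂ) : Prop :=
  Sep (Box a b) R ∧ ∀ s ∈ Box a b, ‖R s‖ ≤ M * ∏ j, 1 / br ((s j).im - c j) ^ 2

theorem RH.nonneg {n : ℕ} {a b c : Fin n → ℝ} {M : ℝ} {R : (Fin n → ℂ) → ℂ} (h : RH a b c M R)
    (h0 : ∀ j, a j ≤ 0 ∧ 0 ≤ b j) : 0 ≤ M := by
  have := (norm_nonneg _).trans (h.2 _ (pt_box (c := 0) h0 c))
  simpa [pt_im, br] using this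

theorem RH.shift {n : ℕ} {a b c : Fin n → ℝ} {M : ℝ} {R : (Fin n → ℂ) → ℂ} (h : RH a b c M R) :
    Sep (Box a b) (fun s => R (s + pt 0 c)) ∧ ∀ s ∈ Box a b, ‖R (s + pt 0 c)‖ ≤ M * dk s := by
  have hm : ∀ s ∈ Box a b, s + pt 0 c ∈ Box a b := fun s hs j => by
    simpa [pt_re] using hs j
  refine ⟨⟨h.1.1.comp (by fun_prop) hm, fun s hs i => ?_⟩, fun s hs => ?_⟩
  · have e : ∀ w, Function.update s i w + pt 0 c =
        Function.update (s + pt 0 c) i (w + pt 0 c i) := fun w => by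
      funext j
      rcases eq_or_ne j i with rfl | hj
      · simp
      · simp [hj]
    simp only [e]
    exact (h.1.2 _ (hm s hs) i).comp (s i) (f := fun w => w + pt 0 c i) (by fun_prop)
  · simpa [pt_im, dk] using h.2 _ (hm s hs)

theorem RH.line {n : ℕ} {a b c : Fin n → ℝ} {M : ℝ} {R : (Fin n → ℂ) → ℂ} (h : RH a b c M R)
    (h0 : ∀ j, a j ≤ 0 ∧ 0 ≤ b j) :
    (Continuous fun t => R (pt 0 t)) ∧ Integrable fun t => R (pt 0 t) := by
  have hc : Continuous fun t => R (pt 0 t) :=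
    h.1.1.comp_continuous (pt_cont 0) (pt_box (c := 0) h0)
  refine ⟨hc, ?_⟩
  have h1 := (pINB n 0 M (fun s => R (s + pt 0 c)) (h.shift.1.1.comp_continuous (pt_cont 0) (pt_box (c := 0) h0))
    fun t => h.shift.2 _ (pt_box (c := 0) h0 t)).1
  simp only [pt_add] at h1
  simpa using h1.comp_sub_right c

/-- The transform decays at every rate allowed by the box. -/
theorem RH.hat_le {n : ℕ} {a b c : Fin n → ℝ} {M : ℝ} {R : (Fin n → ℂ) → ℂ} (h : RH a b c M R)
    (h0 : ∀ j, a j ≤ 0 ∧ 0 ≤ b j) (l : Fin n → ℝ) (hl : ∀ j, a j ≤ l j ∧ l j ≤ b j)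
    (v : Fin n → ℝ) :
    ‖∫ t, R (pt 0 t) * rex t (-v)‖ ≤ M * 2 ^ n * Real.exp (-∑ j, l j * v j) := by
  have hM := h.nonneg h0
  set G : (Fin n → ℂ) → ℂ := fun s => R (s + pt 0 c) * cexp (∑ j, s j * (-v) j) with hG
  have e1 : ∫ t, R (pt 0 t) * rex t (-v) = In 0 G * rex c (-v) := by
    rw [← integral_add_right_eq_self (fun t => R (pt 0 t) * rex t (-v)) c, In,
      ← integral_mul_const]
    refine integral_congr_ae (.of_forall fun t => ?_)
    simp only [hG, pt_add, rex_pt0, rex_add', mul_assoc]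
  have hS : Sep (Box a b) G := by
    refine ⟨h.shift.1.1.mul (by fun_prop), fun s hs i => (h.shift.1.2 s hs i).mul ?_⟩
    refine DifferentiableAt.cexp (DifferentiableAt.fun_sum fun j _ => .mul_const ?_ _)
    rcases eq_or_ne j i with rfl | hj
    · simp
    · simp [hj]
  have hb : ∀ s ∈ Box a b, ‖G s‖ ≤ M * Real.exp (∑ j, (s j).re * (-v) j) * dk s := by
    intro s hs
    rw [hG, norm_mul, norm_cexp_sum, mul_right_comm]
    exact mul_le_mul_of_nonneg_right (h.shift.2 s hs) (Real.exp_pos _).le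
  have e2 : In 0 G = In l G := by
    refine pSDn n a b 0 l (M * Real.exp (∑ j, (|a j| + |b j|) * |v j|)) G h0 hl hS fun s hs => ?_
    refine (hb s hs).trans (mul_le_mul_of_nonneg_right (mul_le_mul_of_nonneg_left
      (Real.exp_le_exp.2 (sum_le_sum fun j _ => ?_)) hM) (dk_pos s).le)
    refine (le_abs_self _).trans ?_
    rw [abs_mul, Pi.neg_apply, abs_neg]
    refine mul_le_mul_of_nonneg_right (abs_le.2 ⟨?_, ?_⟩) (abs_nonneg _)
    · linarith [(hs j).1, neg_abs_le (a j), abs_nonneg (b j)]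
    · linarith [(hs j).2, le_abs_self (b j), abs_nonneg (a j)]
  rw [e1, norm_mul, rex_norm, mul_one, e2, mul_right_comm]
  refine (pINB n l _ G (hS.1.comp_continuous (pt_cont l) (pt_box hl)) fun t => ?_).2
  refine (hb _ (pt_box hl t)).trans (le_of_eq ?_)
  simp [pt_re]

/-- The decay profile of the transform. -/
noncomputable def rE (a b x : ℝ) : ℝ := Real.exp (-(if 0 ≤ x then b else a) * x)

theorem rE_le {a b δ : ℝ} (ha : a ≤ -δ) (hb : δ ≤ b) (x : ℝ) : rE a b x ≤ Real.exp (-δ * |x|) := by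
  unfold rE
  refine Real.exp_le_exp.2 ?_
  split_ifs with hx
  · rw [abs_of_nonneg hx]; nlinarith
  · rw [abs_of_neg (not_le.1 hx)]; nlinarith [not_le.1 hx]

theorem RH.hat_le' {n : ℕ} {a b c : Fin n → ℝ} {M : ℝ} {R : (Fin n → ℂ) → ℂ} (h : RH a b c M R)
    (h0 : ∀ j, a j ≤ 0 ∧ 0 ≤ b j) (v : Fin n → ℝ) :
    ‖∫ t, R (pt 0 t) * rex t (-v)‖ ≤ M * 2 ^ n * ∏ j, rE (a j) (b j) (v j) := by
  refine (h.hat_le h0 (fun j => if 0 ≤ v j then b j else a j) (fun j => ?_) v).trans (le_of_eq ?_)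
  · have := (h0 j).1.trans (h0 j).2
    split_ifs <;> simp [this]
  · simp only [rE, ← Real.exp_sum, neg_mul, sum_neg_distrib]

theorem exp_abs_int {δ : ℝ} (hδ : 0 < δ) :
    Integrable (fun x : ℝ => Real.exp (-δ * |x|)) ∧ ∫ x : ℝ, Real.exp (-δ * |x|) ≤ 2 / δ := by
  have h := pDEC.2.2.1 0
  have e : ∀ x : ℝ, Real.exp (-δ * |x|) = Real.exp (-|2 * δ * x - 0| / 2) := fun x => by
    rw [sub_zero, abs_mul, abs_of_pos (by positivity : 0 < 2 * δ)]; congr 1; ring
  simp only [e]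
  refine ⟨h.1.comp_mul_left' (by positivity : 2 * δ ≠ 0), ?_⟩
  rw [Measure.integral_comp_mul_left (fun t : ℝ => Real.exp (-|t - 0| / 2)) (2 * δ),
    abs_of_pos (by positivity), smul_eq_mul]
  refine (mul_le_mul_of_nonneg_left h.2 (by positivity)).trans (le_of_eq ?_)
  field_simp
  norm_num

theorem exp_abs_pi {n : ℕ} {δ : ℝ} (hδ : 0 < δ) :
    Integrable (fun v : Fin n → ℝ => ∏ j, Real.exp (-δ * |v j|)) ∧
      ∫ v : Fin n → ℝ, ∏ j, Real.exp (-δ * |v j|) ≤ (2 / δ) ^ n := by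
  refine ⟨Integrable.fintype_prod (f := fun _ (x : ℝ) => Real.exp (-δ * |x|))
    fun _ => (exp_abs_int hδ).1, ?_⟩
  rw [integral_fintype_prod_volume_eq_pow (fun x : ℝ => Real.exp (-δ * |x|)), Fintype.card_fin]
  exact pow_le_pow_left₀ (integral_nonneg fun x => by positivity) (exp_abs_int hδ).2 n

/-- The coefficient of the representation. -/
noncomputable def rhat {n : ℕ} (R : (Fin n → ℂ) → ℂ) (v : Fin n → ℝ) : ℂ :=
  ((((2 * π) ^ n)⁻¹ : ℝ) : ℂ) * ∫ t, R (pt 0 t) * rex t (-v)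

/-- The representation. -/
theorem RH.rep {n : ℕ} {a b c : Fin n → ℝ} {M δ : ℝ} {R : (Fin n → ℂ) → ℂ} (h : RH a b c M R)
    (hδ : 0 < δ) (h0 : ∀ j, a j ≤ -δ ∧ δ ≤ b j) :
    Integrable (rhat R) ∧ (∀ v, ‖rhat R v‖ ≤ M * ∏ j, rE (a j) (b j) (v j)) ∧
      (∀ v, ‖rhat R v‖ ≤ M * ∏ j, Real.exp (-δ * |v j|)) ∧
      ∀ t, R (pt 0 t) = ∫ v, rhat R v * rex t v := by
  have h1 : ∀ j, a j ≤ 0 ∧ 0 ≤ b j := fun j => ⟨by linarith [(h0 j).1], by linarith [(h0 j).2]⟩
  have hM := h.nonneg h1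
  have hp : ∀ v : Fin n → ℝ, ∏ j, rE (a j) (b j) (v j) ≤ ∏ j, Real.exp (-δ * |v j|) := fun v =>
    prod_le_prod (fun j _ => (Real.exp_pos _).le) fun j _ => rE_le (h0 j).1 (h0 j).2 _
  have hc : Continuous fun v : Fin n → ℝ => ∫ t, R (pt 0 t) * rex t (-v) := by
    refine continuous_of_dominated (bound := fun t => ‖R (pt 0 t)‖) (fun v => ?_)
      (fun v => .of_forall fun t => ?_) (h.line h1).2.norm (.of_forall fun t => ?_)
    · exact ((h.line h1).1.mul (by unfold rex; fun_prop)).aestronglyMeasurable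
    · rw [norm_mul, rex_norm, mul_one]
    · unfold rex; fun_prop
  have hi : Integrable fun v : Fin n → ℝ => ∫ t, R (pt 0 t) * rex t (-v) :=
    ((exp_abs_pi hδ).1.const_mul (M * 2 ^ n)).mono' hc.aestronglyMeasurable (.of_forall fun v =>
      (h.hat_le' h1 v).trans (mul_le_mul_of_nonneg_left (hp v) (by positivity)))
  have hb : ∀ v, ‖rhat R v‖ ≤ M * ∏ j, rE (a j) (b j) (v j) := by
    intro v
    have hP : 0 ≤ ∏ j, rE (a j) (b j) (v j) := prod_nonneg fun j _ => (Real.exp_pos _).le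
    rw [rhat, norm_mul, norm_real, Real.norm_of_nonneg (by positivity),
      inv_mul_le_iff₀ (by positivity), ← mul_assoc, mul_comm _ M]
    refine (h.hat_le' h1 v).trans (mul_le_mul_of_nonneg_right (mul_le_mul_of_nonneg_left
      (pow_le_pow_left₀ (by norm_num) ?_ n) hM) hP)
    linarith [Real.pi_gt_three]
  exact ⟨hi.const_mul _, hb, fun v => (hb v).trans (mul_le_mul_of_nonneg_left (hp v) hM),
    rep_inv _ (h.line h1).1 (h.line h1).2 hi⟩

end Pool.Agent.Q4
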