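import Pool.Agent.K.MP_ea46f5_nt.C12
import Pool.Agent.K.MP_ea46f5_nt.C11
import Pool.Agent.K.MP_ea46f5_nt.C1

/-! The coefficients `C4`, `cY` and the series `ZY` on the lines of abscissa 12. -/

namespace Pool.Agent.Q4

open Complex MeasureTheory Finset Pool.Agent.QM
open scoped Real ComplexConjugate

theorem c4_eq (u : V4) : C4 u = po (u 0) * po (u 1) * (po (u 2) * po (u 3)) := by
  rw [C4, Fin.prod_univ_four, mul_assoc (po (u 0) * po (u 1))]

theorem c4_even (u : V4) {n : ℕ} (hn : ¬ Odd n) : C4 u n = 0 := by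
  rw [c4_eq]
  exact e0_even _ _ (e0_even _ _ (e0_po_even _) (e0_po_even _))
    (e0_even _ _ (e0_po_even _) (e0_po_even _)) n hn

theorem c4_bd {u : V4} (h : ∀ j, (u j).re = 12) (n : ℕ) : ‖C4 u n‖ ≤ (n : ℝ) ^ (-(19 / 2) : ℝ) := by
  rcases eq_or_ne n 0 with rfl | hn
  · rw [ArithmeticFunction.map_zero, norm_zero]
    exact Real.rpow_nonneg (Nat.cast_nonneg _) _
  have h1 := e0_bd _ _ _ (e0_bd _ _ _ (e0_po_bd _ (h 0)) (e0_po_bd _ (h 1)))
    (e0_bd _ _ _ (e0_po_bd _ (h 2)) (e0_po_bd _ (h 3))) n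
  rw [c4_eq]
  refine le_trans h1 (Real.rpow_le_rpow_of_exponent_le ?_ (by norm_num))
  exact_mod_cast Nat.pos_of_ne_zero hn

theorem c4_mul_cont (f g : V4 → ArithmeticFunction ℂ) (hf : ∀ n, Continuous fun x => f x n)
    (hg : ∀ n, Continuous fun x => g x n) (n : ℕ) : Continuous fun x => (f x * g x) n := by
  simp only [ArithmeticFunction.mul_apply]
  exact continuous_finsetSum _ fun p _ => (hf _).mul (hg _)

theorem c4_cont (n : ℕ) : Continuous fun u : V4 => C4 u n := by
  have h : ∀ (j : Fin 4) (n : ℕ), Continuous fun u : V4 => po (u j) n :=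
    fun j n => (e0_po_cont n).comp (continuous_apply j)
  simp only [c4_eq]
  exact c4_mul_cont _ _ (c4_mul_cont _ _ (h 0) (h 1)) (c4_mul_cont _ _ (h 2) (h 3)) n

theorem c4_LL (hLSP : LSP) (m : ℤ) {u : V4} (h : ∀ j, (u j).re = 12) :
    HasSum (fun n : ℕ => C4 u n * (jacobiSym m n : ℂ)) (LL m u) := by
  have h1 := fun j => e0_po_jo hLSP m (u j) (h j)
  have h2 := e0_conv _ _ (jo m) (e0_jo_mul m) _ _
    (e0_conv _ _ (jo m) (e0_jo_mul m) _ _ (h1 0) (h1 1))
    (e0_conv _ _ (jo m) (e0_jo_mul m) _ _ (h1 2) (h1 3))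
  rw [LL, Fin.prod_univ_four, mul_assoc (LS m _ * LS m _)]
  refine h2.congr_fun fun n => ?_
  rw [← c4_eq]
  by_cases hn : Odd n
  · rw [jo, if_pos hn]
  · rw [c4_even u hn, zero_mul, zero_mul]

theorem pt12 (t : R4) (j : Fin 4) : (pt (cs 12) t j).re = 12 := pt_re _ _ _

theorem LL_le (hLSP : LSP) (m : ℤ) {u : V4} (h : ∀ j, (u j).re = 12) : ‖LL m u‖ ≤ 16 := by
  rw [LL, norm_prod]
  calc _ ≤ ∏ _j : Fin 4, (2 : ℝ) := prod_le_prod (fun _ _ => norm_nonneg _) fun j _ =>
        hLSP.2.2.1 m _ (by simp [h j]; norm_num)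
    _ = _ := by norm_num

theorem LL_cont (hLSP : LSP) (m : ℤ) : Continuous fun t : R4 => LL m (pt (cs 12) t) := by
  unfold LL
  refine continuous_finsetProd _ fun j _ => (hLSP.2.2.2.1 m).continuousOn.comp_continuous
    (continuous_const.add ((continuous_apply j).comp (pt_cont _))) fun t => ?_
  have := pt12 t j
  simp only [Set.mem_ofPred_eq, add_re, this]
  norm_num

theorem AY_pos {Y a : ℕ} (h : a ∈ AY Y) : 0 < a := (mem_filter.1 h).2.pos

theorem norm_mu_le (a : ℕ) : ‖(ArithmeticFunction.moebius a : ℂ)‖ ≤ 1 := by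
  rw [norm_intCast]
  exact_mod_cast ArithmeticFunction.abs_moebius_le_one

theorem cY_le (Y : ℕ) {z : ℂ} (h : z.re ≤ 6) (n : ℕ) : ‖cY Y z n‖ ≤ ∑ a ∈ AY Y, (a : ℝ) ^ 10 := by
  refine (norm_sum_le _ _).trans ((sum_le_sum fun a ha => ?_).trans
    (sum_le_sum_of_subset_of_nonneg (filter_subset _ _) fun _ _ _ => by positivity))
  have h0 := AY_pos (mem_filter.1 ha).1
  rw [norm_mul, norm_natCast_cpow_of_pos h0, ← Real.rpow_natCast]
  refine (mul_le_of_le_one_left (by positivity) (norm_mu_le a)).trans ?_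
  exact Real.rpow_le_rpow_of_exponent_le (by exact_mod_cast h0) (by simp; linarith)

theorem cY_cont (Y n : ℕ) : Continuous fun z => cY Y z n :=
  continuous_finsetSum _ fun a ha => continuous_const.mul (Continuous.const_cpow (by fun_prop)
    (Or.inl (by exact_mod_cast (AY_pos (mem_filter.1 ha).1).ne')))

theorem zy_term (hTKB : TKB) (Y : ℕ) (k : ℤ) {z : ℂ} {u : V4} (h0 : 0 ≤ z.re) (h6 : z.re ≤ 6)
    (h : ∀ j, (u j).re = 12) (n : ℕ) : ‖C4 u n * (cY Y z n * Tk k z n)‖ ≤
      (∑ a ∈ AY Y, (a : ℝ) ^ 10) * (n : ℝ) ^ (-(5 / 2) : ℝ) := by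
  rcases eq_or_ne n 0 with rfl | hn
  · rw [ArithmeticFunction.map_zero, zero_mul, norm_zero]
    positivity
  rw [norm_mul, norm_mul, ← exc_pow, mul_left_comm (∑ a ∈ AY Y, (a : ℝ) ^ 10)]
  exact mul_le_mul (c4_bd h n) (mul_le_mul (cY_le Y h6 n) (hTKB.2.1 k z n h0 h6 hn) (norm_nonneg _)
    (by positivity)) (by positivity) (by positivity)

/-- The bound for `ZY`. -/
noncomputable def zB (Y : ℕ) : ℝ :=
  ∑' n : ℕ, (∑ a ∈ AY Y, (a : ℝ) ^ 10) * (n : ℝ) ^ (-(5 / 2) : ℝ)

theorem zB_nonneg (Y : ℕ) : 0 ≤ zB Y := tsum_nonneg fun n => by positivity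

theorem zy_le (hTKB : TKB) (Y : ℕ) (k : ℤ) {z : ℂ} {u : V4} (h0 : 0 ≤ z.re) (h6 : z.re ≤ 6)
    (h : ∀ j, (u j).re = 12) : ‖ZY Y k z u‖ ≤ zB Y :=
  tsum_of_norm_bounded (exc_sum.mul_left _).hasSum (zy_term hTKB Y k h0 h6 h)

theorem zy_term_cont (hTKB : TKB) (Y : ℕ) (k : ℤ) (n : ℕ) :
    Continuous fun x : ℂ × V4 => C4 x.2 n * (cY Y x.1 n * Tk k x.1 n) :=
  ((c4_cont n).comp continuous_snd).mul
    (((cY_cont Y n).mul (hTKB.2.2.1 k n)).comp continuous_fst)

theorem zy_cont (hTKB : TKB) (Y : ℕ) (k : ℤ) {X : Type} [TopologicalSpace X] {z : X → ℂ}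
    {t : X → R4} (hz : Continuous z) (ht : Continuous t) (h : ∀ x, 0 ≤ (z x).re ∧ (z x).re ≤ 6) :
    Continuous fun x => ZY Y k (z x) (pt (cs 12) (t x)) :=
  continuous_tsum (fun n => Continuous.comp
    (g := fun x : ℂ × V4 => C4 x.2 n * (cY Y x.1 n * Tk k x.1 n))
    (f := fun x => (z x, pt (cs 12) (t x))) (zy_term_cont hTKB Y k n)
    (hz.prodMk ((pt_cont _).comp ht)))
    (exc_sum.mul_left _) fun n x => zy_term hTKB Y k (h x).1 (h x).2 (pt12 _) n

theorem dk_int' (c : R4) : Integrable fun t : R4 => dk (pt c t) := by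
  simp only [dk_pt]
  exact dk_int

theorem ex_swap {ι : Type} [Countable ι] {T : Type} [MeasurableSpace T] {μ : Measure T}
    {F : ι → T → ℂ} {G : T → ℂ} {B : ι → ℝ} {d : T → ℝ} (hB : Summable B) (hd : Integrable d μ)
    (hm : ∀ i, AEStronglyMeasurable (F i) μ) (hb : ∀ i t, ‖F i t‖ ≤ B i * d t)
    (hs : ∀ t, HasSum (fun i => F i t) (G t)) :
    HasSum (fun i => ∫ t, F i t ∂μ) (∫ t, G t ∂μ) := by
  have hint : ∀ i, Integrable (F i) μ := fun i =>
    (hd.const_mul _).mono' (hm i) (Filter.Eventually.of_forall (hb i))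
  have h := hasSum_integral_of_summable_integral_norm hint (by
    refine Summable.of_nonneg_of_le (fun i => integral_nonneg fun t => norm_nonneg _) (fun i => ?_)
      (hB.mul_right (∫ t, d t ∂μ))
    rw [← integral_const_mul]
    exact integral_mono (hint i).norm (hd.const_mul _) (hb i))
  simpa only [(hs _).tsum_eq] using h

theorem ex_jac (m : ℤ) (n : ℕ) : ‖(jacobiSym m n : ℂ)‖ ≤ 1 := by
  rcases jacobiSym.trichotomy m n with h | h | h <;> simp [h]

theorem ex_dbl {ι ι' : Type} {f : ι → ι' → ℂ} {b : ι → ℝ} {c : ι' → ℝ} {g : ι → ℂ} {h : ι' → ℂ}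
    (hb : Summable b) (hc : Summable c) (hf : ∀ i j, ‖f i j‖ ≤ b i * c j)
    (hg : ∀ i, HasSum (f i) (g i)) (hh : ∀ j, HasSum (fun i => f i j) (h j)) :
    Summable h ∧ HasSum g (∑' j, h j) := by
  have h1 : Summable fun x : ι × ι' => f x.1 x.2 :=
    Summable.of_norm_bounded (hb.abs.mul_of_nonneg hc.abs (fun _ => abs_nonneg _)
      fun _ => abs_nonneg _) fun x => (hf x.1 x.2).trans (by rw [← abs_mul]; exact le_abs_self _)
  have h2 := h1.hasSum.prod_fiberwise hg
  have h3 := ((Equiv.prodComm ι' ι).hasSum_iff.2 h1.hasSum).prod_fiberwise hh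
  exact ⟨h3.summable, h3.tsum_eq ▸ h2⟩

theorem ex4 (hLSP : LSP) (hTKB : TKB) {Y : ℕ} {a : ℤ → V4 → ℂ} {c0 : V4 → ℂ}
    {K : ℤ → ℂ → V4 → ℂ} {σ : ℤ → ℝ} (h : PoD Y a c0 K σ) :
    Summable (fun m : ℤ => In (cs 12) fun u => a m u * LL m u) ∧
    HasSum (fun κ : SF => Yk Y K (σ κ) κ) ((∑' m : ℤ, In (cs 12) fun u => a m u * LL m u) -
      In (cs 12) fun u => c0 u * ZY Y 1 0 u) := by
  obtain ⟨A, hA, ba⟩ := h.ba
  obtain ⟨M, bc⟩ := h.bc
  obtain ⟨B, hB, bK⟩ := h.bK
  have hre : ∀ (κ : ℤ) (y : ℝ), 0 ≤ (σ κ + y * I : ℂ).re ∧ (σ κ + y * I : ℂ).re ≤ 6 := fun κ y => by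
    have := h.sg κ
    simp only [add_re, ofReal_re, mul_re, I_re, mul_zero, ofReal_im, I_im, zero_mul, sub_self,
      add_zero]
    constructor <;> linarith [this.1, this.2]
  have hbr : Integrable fun y : ℝ => 1 / br y ^ 2 := sh_int_maj 1
  set cB := ∑ a ∈ AY Y, (a : ℝ) ^ 10 with hcB
  have hcB0 : 0 ≤ cB := by positivity
  have hB0 : ∀ κ, 0 ≤ B κ := fun κ => by
    have h1 := (norm_nonneg _).trans (bK κ 0 0)
    have h2 := dk_pos (pt (cs 12) (0 : R4))
    simpa [br] using nonneg_of_mul_nonneg_left h1 h2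
  -- the left side
  have hL : ∀ t : R4, HasSum (fun m : ℤ => a m (pt (cs 12) t) * LL m (pt (cs 12) t))
      (∑' m : ℤ, a m (pt (cs 12) t) * LL m (pt (cs 12) t)) := fun t =>
    (Summable.of_norm_bounded ((hA.mul_right (dk (pt (cs 12) t))).mul_right 16) fun m => by
      rw [norm_mul]
      exact mul_le_mul (ba m t) (LL_le hLSP m (pt12 t)) (norm_nonneg _)
        ((norm_nonneg _).trans (ba m t))).hasSum
  have hbL : ∀ m t, ‖a m (pt (cs 12) t) * LL m (pt (cs 12) t)‖ ≤ A m * 16 * dk (pt (cs 12) t) :=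
    fun m t => by
      rw [norm_mul, mul_right_comm]
      exact mul_le_mul (ba m t) (LL_le hLSP m (pt12 t)) (norm_nonneg _)
        ((norm_nonneg _).trans (ba m t))
  have h1 := ex_swap (hA.mul_right 16) (dk_int' (cs 12))
    (fun m => ((h.ca m).mul (LL_cont hLSP m)).aestronglyMeasurable) hbL hL
  refine ⟨h1.summable, ?_⟩
  have iL : Integrable fun t : R4 => ∑' m : ℤ, a m (pt (cs 12) t) * LL m (pt (cs 12) t) :=
    ((dk_int' (cs 12)).const_mul (∑' m, A m * 16)).mono'
      (continuous_tsum (fun m => (h.ca m).mul (LL_cont hLSP m)) (hA.abs.mul_right 16)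
        fun m t => (hbL m t).trans (by
          have := dk_le_one (pt (cs 12) t)
          have := dk_pos (pt (cs 12) t)
          have := le_abs_self (A m)
          have := abs_nonneg (A m)
          nlinarith)).aestronglyMeasurable
      (Filter.Eventually.of_forall fun t => by
        rw [← tsum_mul_right]
        exact tsum_of_norm_bounded ((hA.mul_right 16).mul_right _).hasSum fun m => hbL m t)
  have iD : Integrable fun t : R4 => c0 (pt (cs 12) t) * ZY Y 1 0 (pt (cs 12) t) :=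
    (((dk_int' (cs 12)).const_mul M).mul_const (zB Y)).mono'
      (h.cc.mul (zy_cont hTKB Y 1 continuous_const continuous_id fun _ => by
        norm_num)).aestronglyMeasurable
      (Filter.Eventually.of_forall fun t => by
        rw [norm_mul]
        exact mul_le_mul (bc t) (zy_le hTKB Y 1 (by simp) (by simp) (pt12 t)) (norm_nonneg _)
          ((norm_nonneg _).trans (bc t)))
  -- the dual side
  set F : SF → ℝ × R4 → ℂ := fun κ x => K κ (σ κ + x.1 * I) (pt (cs 12) x.2) *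
    ZY Y κ (σ κ + x.1 * I) (pt (cs 12) x.2) with hF
  have bF : ∀ κ x, ‖F κ x‖ ≤ B κ * zB Y * (1 / br x.1 ^ 2 * dk (pt (cs 12) x.2)) := fun κ x => by
    simp only [hF, norm_mul]
    refine (mul_le_mul (bK κ x.1 x.2) (zy_le hTKB Y κ (hre κ _).1 (hre κ _).2 (pt12 _))
      (norm_nonneg _) ((norm_nonneg _).trans (bK κ x.1 x.2))).trans (le_of_eq ?_)
    ring
  have iF : ∀ κ, Integrable (F κ) (volume.prod volume) := fun κ =>
    ((hbr.mul_prod (dk_int' (cs 12))).const_mul _).mono' ((h.cK κ).mul (zy_cont hTKB Y κ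
      (by fun_prop) continuous_snd fun x => hre κ _)).aestronglyMeasurable
      (Filter.Eventually.of_forall (bF κ))
  have e1 : ∀ κ : SF, Yk Y K (σ κ) κ = ∫ t : R4, 1 / (2 * π) * ∫ y : ℝ, F κ (y, t) := fun κ => by
    rw [integral_const_mul, ← integral_integral_swap (f := fun y t => F κ (y, t)) (iF κ)]
    rfl
  have h2 := ex_swap (F := fun (κ : SF) (t : R4) => 1 / (2 * π) * ∫ y : ℝ, F κ (y, t))
    (G := fun t => (∑' m : ℤ, a m (pt (cs 12) t) * LL m (pt (cs 12) t)) -
      c0 (pt (cs 12) t) * ZY Y 1 0 (pt (cs 12) t))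
    ((hB.mul_right (zB Y)).mul_right (‖(1 / (2 * π) : ℂ)‖ * ∫ y : ℝ, 1 / br y ^ 2))
    (dk_int' (cs 12))
    (fun κ => ((iF κ).integral_prod_right.const_mul _).aestronglyMeasurable)
    (fun κ t => by
      have := norm_integral_le_of_norm_le (f := fun y : ℝ => F κ (y, t))
        ((hbr.mul_const (dk (pt (cs 12) t))).const_mul (B κ * zB Y))
        (Filter.Eventually.of_forall fun y => bF κ (y, t))
      rw [integral_const_mul, integral_mul_const] at this
      rw [norm_mul]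
      refine (mul_le_mul_of_nonneg_left this (norm_nonneg _)).trans (le_of_eq ?_)
      ring)
    (fun t => by
      have hu := pt12 t
      generalize hu' : pt (cs 12) t = u at hu
      have d0 := (dk_pos u).le
      obtain ⟨s1, s2⟩ := ex_dbl (f := fun (m : ℤ) (n : ℕ) => a m u * (C4 u n * (jacobiSym m n : ℂ)))
        (hA.mul_right (dk u)) (Real.summable_nat_rpow.2 (by norm_num : (-(19 / 2) : ℝ) < -1))
        (fun m n => by
          rw [norm_mul, norm_mul]
          have := hu' ▸ ba m t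
          exact mul_le_mul this ((mul_le_of_le_one_right (norm_nonneg _)
            (ex_jac m n)).trans (c4_bd hu n)) (by positivity) ((norm_nonneg _).trans this))
        (fun m => (c4_LL hLSP m hu).mul_left _)
        (h := fun n => C4 u n * ∑' m : ℤ, a m u * (jacobiSym m n : ℂ)) fun n =>
          ((Summable.of_norm_bounded (hA.mul_right (dk u)) fun m => by
            rw [norm_mul]
            exact (mul_le_of_le_one_right (norm_nonneg _) (ex_jac m n)).trans
              (hu' ▸ ba m t)).hasSum.mul_left (C4 u n)).congr_fun fun m => mul_left_comm _ _ _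
      have s3 : HasSum (fun n => c0 u * (C4 u n * (cY Y 0 n * Tk 1 0 n))) (c0 u * ZY Y 1 0 u) :=
        (Summable.of_norm_bounded (exc_sum.mul_left _)
          (zy_term hTKB Y 1 (by simp) (by simp) hu)).hasSum.mul_left _
      have bT : ∀ (κ : SF) (n : ℕ) (y : ℝ), ‖K κ (σ κ + y * I) u * (C4 u n *
          (cY Y (σ κ + y * I) n * Tk κ (σ κ + y * I) n))‖ ≤
          cB * (n : ℝ) ^ (-(5 / 2) : ℝ) * (B κ * dk u * (1 / br y ^ 2)) := fun κ n y => by
        rw [norm_mul, mul_comm]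
        refine mul_le_mul (zy_term hTKB Y κ (hre κ y).1 (hre κ y).2 hu n)
          ((hu' ▸ bK κ y t).trans (le_of_eq ?_)) (norm_nonneg _) (by positivity)
        ring
      have s4 := (ex_dbl (f := fun (κ : SF) (n : ℕ) => 1 / (2 * π) * ∫ y : ℝ,
          K κ (σ κ + y * I) u * (C4 u n * (cY Y (σ κ + y * I) n * Tk κ (σ κ + y * I) n)))
        (hB.mul_right (dk u * ((∫ y : ℝ, 1 / br y ^ 2) * ‖(1 / (2 * π) : ℂ)‖))) (exc_sum.mul_left cB)
        (fun κ n => by
          have := norm_integral_le_of_norm_le ((hbr.const_mul _).const_mul _)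
            (Filter.Eventually.of_forall (bT κ n))
          rw [integral_const_mul, integral_const_mul] at this
          rw [norm_mul]
          refine (mul_le_mul_of_nonneg_left this (norm_nonneg _)).trans (le_of_eq ?_)
          ring)
        (g := fun κ => 1 / (2 * π) * ∫ y : ℝ, K κ (σ κ + y * I) u * ZY Y κ (σ κ + y * I) u)
        (fun κ => (ex_swap (exc_sum.mul_left cB) (hbr.const_mul _) (fun n => by
            refine Continuous.aestronglyMeasurable (Continuous.mul ?_ (continuous_const.mul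
              (((cY_cont Y n).mul (hTKB.2.2.1 κ n)).comp (by fun_prop))))
            exact hu' ▸ Continuous.comp (g := fun x : ℝ × R4 => K κ (σ κ + x.1 * I) (pt (cs 12) x.2))
              (f := fun y : ℝ => (y, t)) (h.cK κ) (by fun_prop)) (bT κ)
          fun y => (Summable.of_norm_bounded (exc_sum.mul_left _)
            (zy_term hTKB Y κ (hre κ y).1 (hre κ y).2 hu)).hasSum.mul_left _).mul_left _)
        (h := fun n => C4 u n * (∑' m : ℤ, a m u * (jacobiSym m n : ℂ)) -
          c0 u * (C4 u n * (cY Y 0 n * Tk 1 0 n))) fun n => by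
          by_cases hn : Odd n
          · have := (hu' ▸ h.id t n hn).mul_left (C4 u n)
            rw [mul_sub, mul_left_comm (C4 u n) (c0 u)] at this
            refine this.congr_fun fun κ => ?_
            rw [mul_left_comm (C4 u n), Iv, ← integral_const_mul (C4 u n)]
            simp only [mul_left_comm (C4 u n)]
          · simp only [c4_even u hn, zero_mul, mul_zero, integral_zero, sub_self]
            exact hasSum_zero).2
      rw [s1.tsum_sub s3.summable, s3.tsum_eq, ← s2.tsum_eq] at s4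
      simp only [hF, hu']
      exact s4)
  rw [integral_sub iL iD, ← h1.tsum_eq] at h2
  simp only [← e1] at h2
  exact h2

end Pool.Agent.Q4
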