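import Pool.Agent.K.MP_ea46f5_nt.C13

/-! The leading term of the main term, and the ratio form. -/

namespace Pool.Agent.Q4

open Complex MeasureTheory Finset Pool.Agent.QM
open scoped Real

theorem ld_prod {n : ℕ} (r : ℝ) (f : Fin n → ℂ → ℂ) :
    torusIntegral (fun z : Fin n → ℂ => ∏ j, f j (z j)) 0 (fun _ => r) =
      ∏ j, ∮ w in C(0, r), f j w := by
  simp only [circleIntegral_def_Icc, deriv_circleMap]
  rw [torusIntegral, ← Set.pi_univ_Icc, volume_pi, Measure.restrict_pi_pi,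
    ← integral_fintype_prod_eq_prod]
  simp only [smul_eq_mul, ← prod_mul_distrib, torusMap, circleMap, Pi.zero_apply, zero_add]

noncomputable def ld_mu (l : ℂ) (m : ℕ) : ℂ :=
  if m ≤ 7 then 2 * π * I / (7 - m).factorial * l ^ (7 - m) else 0

theorem ld_one {r : ℝ} (hr : 0 < r) (l : ℂ) (m : ℕ) :
    ∮ w in C(0, r), cexp (l * w) * w ^ m / w ^ 8 = ld_mu l m := by
  have hw : ∀ w ∈ Metric.sphere (0 : ℂ) r, w ≠ 0 := fun w hw e => by
    rw [e] at hw
    simp at hw
    linarith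
  unfold ld_mu
  split_ifs with h
  · have := DifferentiableOn.circleIntegral_one_div_sub_center_pow_smul (c := 0)
      (f := fun w : ℂ => cexp (l * w)) hr (7 - m) (by fun_prop)
    rw [iteratedDeriv_cexp_const_mul] at this
    simp only [sub_zero, smul_eq_mul, mul_zero, Complex.exp_zero, mul_one] at this
    rw [← this]
    refine circleIntegral.integral_congr hr.le fun w h' => ?_
    have h0 := hw w h'
    have e : w ^ 8 = w ^ m * w ^ (7 - m + 1) := by rw [← pow_add]; congr 1; omega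
    simp only [e]
    field_simp
  · rw [circleIntegral.integral_congr (g := fun w => cexp (l * w) * w ^ (m - 8)) hr.le
      fun w h' => ?_]
    · exact DiffContOnCl.circleIntegral_eq_zero hr.le
        (Differentiable.diffContOnCl (by fun_prop))
    · have h0 := hw w h'
      have e : w ^ m = w ^ 8 * w ^ (m - 8) := by rw [← pow_add]; congr 1; omega
      simp only [e]
      field_simp

theorem ld_vd (w : Fin 4 → ℂ) :
    Vd w = ∑ σ : Equiv.Perm (Fin 4), (Equiv.Perm.sign σ : ℤ) * ∏ j, w j ^ (σ j : ℕ) := by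
  rw [Vd, ← Matrix.det_vandermonde, ← Matrix.det_transpose, Matrix.det_apply']
  simp [Matrix.vandermonde]

theorem ld_det (M : Matrix (Fin 4) (Fin 4) ℂ) :
    ∑ τ : Equiv.Perm (Fin 4), ∑ σ : Equiv.Perm (Fin 4),
      ((Equiv.Perm.sign τ : ℤ) * (Equiv.Perm.sign σ : ℤ) : ℂ) * ∏ j, M (σ j) (τ j) =
      24 * M.det := by
  have h : ∀ τ : Equiv.Perm (Fin 4), ∑ σ : Equiv.Perm (Fin 4),
      ((Equiv.Perm.sign τ : ℤ) * (Equiv.Perm.sign σ : ℤ) : ℂ) * ∏ j, M (σ j) (τ j) = M.det :=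
    fun τ => by
      have h1 := Matrix.det_permute' τ M
      rw [Matrix.det_apply'] at h1
      simp only [Matrix.submatrix_apply, id] at h1
      simp only [mul_assoc]
      rw [← mul_sum, h1, ← mul_assoc]
      rcases Int.units_eq_one_or (Equiv.Perm.sign τ) with e | e <;> simp [e]
  simp only [h, sum_const, card_univ, Fintype.card_perm, Fintype.card_fin]
  norm_num [Nat.factorial]

noncomputable def ld_K (L : ℝ) (z : Fin 4 → ℂ) : ℂ :=
  cexp (L * us z) * (Vd z * Vd fun j => z j ^ 2) / P8 z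

theorem ld_ne {r : ℝ} (hr : 0 < r) {r' : ℝ} {z : Fin 4 → ℂ} (hz : z ∈ Ann 4 r r') (j : Fin 4) :
    z j ≠ 0 := norm_pos_iff.1 (hr.trans_le (hz j).1)

theorem ld_main {r : ℝ} (hr : 0 < r) (L : ℝ) :
    ‖On r (ld_K L)‖ = (2 * π) ^ 4 / 201600 * L ^ 10 := by
  set f : Equiv.Perm (Fin 4) → Equiv.Perm (Fin 4) → (Fin 4 → ℂ) → ℂ := fun τ σ z =>
    ((Equiv.Perm.sign τ : ℤ) * (Equiv.Perm.sign σ : ℤ) : ℂ) *
      ∏ j, cexp (L / 2 * z j) * z j ^ ((σ j : ℕ) + 2 * τ j) / z j ^ 8 with hf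
  have e : ld_K L = fun z => ∑ τ, ∑ σ, f τ σ z := by
    funext z
    rw [ld_K, ld_vd, ld_vd, mul_comm (∑ _, _), sum_mul_sum, mul_sum, sum_div]
    refine sum_congr rfl fun τ _ => ?_
    rw [mul_sum, sum_div]
    refine sum_congr rfl fun σ _ => ?_
    simp only [hf, us, P8, Fin.prod_univ_four, Fin.sum_univ_four]
    rw [show (L : ℂ) * ((z 0 + z 1 + z 2 + z 3) / 2) =
      L / 2 * z 0 + L / 2 * z 1 + L / 2 * z 2 + L / 2 * z 3 by ring]
    simp only [Complex.exp_add]
    ring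
  have hi : ∀ τ σ, TorusIntegrable (f τ σ) 0 fun _ => r := fun τ σ =>
    tor_integrable (U := Ann 4 r r) (continuousOn_const.mul (continuousOn_finsetProd _
      fun j _ => ContinuousOn.div (by fun_prop) (by fun_prop)
        fun z hz => pow_ne_zero _ (ld_ne hr hz j))) (tm_ann hr)
  have e2 : torusIntegral (ld_K L) 0 (fun _ => r) =
      ∑ τ, ∑ σ, torusIntegral (f τ σ) 0 fun _ => r := by
    simp only [e, torusIntegral, smul_sum]
    rw [integral_finsetSum _ fun τ _ => integrable_finsetSum _ fun σ _ =>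
      (hi τ σ).function_integrable]
    exact sum_congr rfl fun τ _ => integral_finsetSum _ fun σ _ => (hi τ σ).function_integrable
  have e3 : ∀ τ σ, torusIntegral (f τ σ) 0 (fun _ => r) =
      ((Equiv.Perm.sign τ : ℤ) * (Equiv.Perm.sign σ : ℤ) : ℂ) *
        ∏ j, (Matrix.of fun i k : Fin 4 => ld_mu (L / 2) (i + 2 * k)) (σ j) (τ j) := fun τ σ => by
    rw [hf, torusIntegral_const_mul,
      ld_prod r fun j w => cexp (L / 2 * w) * w ^ ((σ j : ℕ) + 2 * τ j) / w ^ 8]
    simp only [ld_one hr, Matrix.of_apply]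
  have e4 : (Matrix.of fun i k : Fin 4 => ld_mu (L / 2) (i + 2 * k)).det =
      (((2 * π) ^ 4 / 4838400 * L ^ 10 : ℝ) : ℂ) := by
    simp [Matrix.det_succ_row_zero, Fin.sum_univ_succ, ld_mu, Fin.succAbove, Nat.factorial]
    linear_combination (π ^ 4 * L ^ 10 / 302400 : ℂ) * I_pow_four
  rw [On, e2]
  simp only [e3]
  rw [ld_det, e4, I_pow_four, inv_one, one_mul, norm_mul, norm_real, Complex.norm_ofNat,
    Real.norm_of_nonneg (by positivity)]
  ring

theorem ld_vb {s : ℝ} {w : Fin 4 → ℂ} (h : ∀ j, ‖w j‖ ≤ s) : ‖Vd w‖ ≤ (2 * s) ^ 6 := by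
  rw [Vd, norm_prod]
  calc _ ≤ ∏ i : Fin 4, ∏ _j ∈ Ioi i, 2 * s := by
        refine prod_le_prod (fun _ _ => norm_nonneg _) fun i _ => ?_
        rw [norm_prod]
        exact prod_le_prod (fun _ _ => norm_nonneg _) fun j _ =>
          (norm_sub_le _ _).trans (by linarith [h i, h j])
    _ = _ := by
        simp only [prod_const, Fin.card_Ioi, Fin.prod_univ_four]
        norm_num
        ring

theorem ld_us {s : ℝ} {w : Fin 4 → ℂ} (h : ∀ j, ‖w j‖ ≤ s) : ‖us w‖ ≤ 2 * s := by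
  have := (norm_sum_le univ w).trans (sum_le_sum fun j _ => h j)
  rw [us, norm_div, Complex.norm_ofNat]
  simp only [sum_const, card_univ, Fintype.card_fin, nsmul_eq_mul, Nat.cast_ofNat] at this
  linarith

theorem ld_Kb {L : ℝ} (hL : 0 < L) {z : Fin 4 → ℂ} (hz : z ∈ Ann 4 (1 / L) (1 / L)) :
    ‖ld_K L z‖ ≤ Real.exp 2 * 2 ^ 12 * L ^ 14 := by
  have h : ∀ j, ‖z j‖ = 1 / L := fun j => le_antisymm (hz j).2 (hz j).1
  have a1 := ld_vb fun j => (h j).le
  have a2 := ld_vb (w := fun j => z j ^ 2) (s := (1 / L) ^ 2) fun j => by rw [norm_pow, h]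
  have a3 : ‖cexp (L * us z)‖ ≤ Real.exp 2 := by
    refine (Complex.norm_exp_le_exp_norm _).trans (Real.exp_le_exp.2 ?_)
    rw [norm_mul, norm_real, Real.norm_of_nonneg hL.le]
    refine (mul_le_mul_of_nonneg_left (ld_us fun j => (h j).le) hL.le).trans_eq ?_
    field_simp
  have a4 : ‖P8 z‖ = (1 / L) ^ 32 := by
    simp only [P8, norm_prod, norm_pow, h, prod_const, card_univ, Fintype.card_fin, ← pow_mul]
  rw [ld_K, norm_div, norm_mul, norm_mul, a4]
  calc _ ≤ Real.exp 2 * ((2 * (1 / L)) ^ 6 * (2 * (1 / L) ^ 2) ^ 6) / (1 / L) ^ 32 := by gcongr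
    _ = _ := by field_simp

noncomputable def ld_P (a : ℕ) (z : Fin 4 → ℂ) : ℂ :=
  (∏ i, ∏ j ∈ Ici i, riemannZeta₁ (1 + z i + z j)) / 16 * Aprod 4 z * ∏ j, Xh a (z j)

theorem ld_upd {F : (Fin 4 → ℂ) → ℂ} {z : Fin 4 → ℂ} (h : DifferentiableAt ℂ F z) (i : Fin 4) :
    DifferentiableAt ℂ (fun w => F (Function.update z i w)) (z i) :=
  DifferentiableAt.comp (z i) (by rwa [Function.update_eq_self])
    (hasDerivAt_update z i (z i)).differentiableAt

theorem ld_sep {a : ℕ} {r₀ s X : ℝ} (h : r₀ ≤ 1 / 16) (hP : Sep (Pd 4 r₀) (Ph0 a)) (hs : 0 < s)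
    (hX : 0 < X) :
    Sep (Ann 4 s r₀) fun z => ((X : ℂ) ^ (1 + us z) - 1) / (1 + us z) * Ph0 a z / P8 z := by
  have h1 : ∀ z ∈ Ann 4 s r₀, DifferentiableAt ℂ
      (fun z => ((X : ℂ) ^ (1 + us z) - 1) * (1 + us z)⁻¹ * (P8 z)⁻¹) z := fun z hz => by
    have d : DifferentiableAt ℂ (fun z => 1 + us z) z := by
      simp only [us, div_eq_mul_inv]
      fun_prop
    have d' : DifferentiableAt ℂ P8 z := by unfold P8; fun_prop
    have n : 1 + us z ≠ 0 := fun e => by
      have := ld_us fun j => (hz j).2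
      rw [← neg_eq_iff_add_eq_zero.2 e, norm_neg, norm_one] at this
      linarith
    exact (((d.const_cpow (Or.inl (ofReal_ne_zero.2 hX.ne'))).sub_const 1).mul (d.inv n)).mul
      (d'.inv (prod_ne_zero_iff.2 fun j _ => pow_ne_zero _ (ld_ne hs hz j)))
  have h2 := hP.mono (U' := Ann 4 s r₀) fun z hz j => (hz j).2
  simp only [div_eq_mul_inv, mul_right_comm _ (Ph0 a _)]
  exact ⟨fun z hz => (h1 z hz).continuousAt.continuousWithinAt.mul (h2.1 z hz),
    fun z hz i => (ld_upd (h1 z hz) i).mul (h2.2 z hz i)⟩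

theorem pLEAD (hRAD : RAD) (hONB : ONB) (hT : TAY) (hA : A4H) (hP : PH0) (hQ : QINT) : LEAD := by
  intro a ha
  obtain ⟨r₀, hr₀, hr₁, hP⟩ := hP a ha
  obtain ⟨r₁, a₁, a₂, a₃, e, hr₂, hT⟩ := hT a ha (fun _ => 1) (by fun_prop) (fun _ => rfl) rfl
  obtain ⟨hA, -, hA0⟩ := hA
  obtain ⟨hT1, -, hT2⟩ := hT 0 (by simpa using hr₂.le)
  have hg : Gammaℝ (1 / 2 + a) ≠ 0 :=
    Gammaℝ_ne_zero_of_re_pos (by simp; positivity)
  have hX0 : Xh a 0 = 1 := by
    rw [gr, add_zero, div_self hg] at hT2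
    simpa using hT2.symm
  have hP0 : ld_P a 0 ≠ 0 := by simp [ld_P, hX0, hA0, riemannZeta₁_one]
  have c1 : ContinuousAt (ld_P a) 0 := by
    refine ContinuousAt.mul (ContinuousAt.mul ?_ (hA.1.continuousAt ?_)) ?_
    · have := differentiable_riemannZeta₁.continuous
      fun_prop
    · have : IsOpen {z : Fin 4 → ℂ | ∀ i, -(1 / 8) < (z i).re} := by
        rw [Set.ofPred_forall]
        exact isOpen_iInter_of_finite fun i => isOpen_lt continuous_const (by fun_prop)
      exact this.mem_nhds fun i => by simp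
    · exact tendsto_finsetProd _ fun j _ =>
        ContinuousAt.comp (f := fun z : Fin 4 → ℂ => z j) (x := 0) hT1.continuousAt
          (continuous_apply j).continuousAt
  have c2 : ContinuousAt (fun x : ℂ × (Fin 4 → ℂ) => (1 - x.1) / (1 + us x.2) * ld_P a x.2)
      (0, 0) :=
    ContinuousAt.mul (ContinuousAt.div (by fun_prop) (by unfold us; fun_prop) (by simp [us]))
      (ContinuousAt.comp (f := Prod.snd) (x := ((0 : ℂ), (0 : Fin 4 → ℂ))) c1 continuousAt_snd)
  set N := ‖ld_P a 0‖ with hN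
  have hN0 : 0 < N := norm_pos_iff.2 hP0
  obtain ⟨δ, hδ, c3⟩ := Metric.continuousAt_iff.1 c2 (N / (403200 * (Real.exp 2 * 2 ^ 12)))
    (by positivity)
  refine ⟨r₀, N / 604800, Real.exp (1 / r₀ + 1 / δ + 2), hr₀, by positivity,
    fun r X hr hr' hX => ?_⟩
  have hX0 : 0 < X := (Real.exp_pos _).trans_le hX
  have hL := (Real.le_log_iff_exp_le hX0).2 hX
  have i1 : 0 < 1 / r₀ := by positivity
  have i2 : 0 < 1 / δ := by positivity
  have hX1 : 1 ≤ X := (Real.one_le_exp (by linarith)).trans hX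
  have hQ := hQ a r X hr (by linarith) hX1 (hP.mono fun z hz j => (hz j).trans hr')
  set L := Real.log X with hLd
  have hL0 : 0 < L := by linarith
  have hρ : 0 < 1 / L := by positivity
  have hρ1 : 1 / L ≤ r₀ := (one_div_le hL0 hr₀).2 (by linarith)
  have hs := ld_sep hr₁ hP hρ hX0
  rw [hRAD 4 r r₀ _ hr hr' (ld_sep hr₁ hP hr hX0), ← hRAD 4 _ r₀ _ hρ hρ1 hs] at hQ
  have hK : ContinuousOn (fun z => X * ld_P a 0 * ld_K L z) (Ann 4 (1 / L) (1 / L)) := by
    refine continuousOn_const.mul (ContinuousOn.div ?_ (by unfold P8; fun_prop) fun z hz =>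
      prod_ne_zero_iff.2 fun j _ => pow_ne_zero _ (ld_ne hρ hz j))
    unfold us Vd
    fun_prop
  have h1 := hONB.2.1 4 _ _ _ hρ (hs.1.mono fun z hz j => ⟨(hz j).1, (hz j).2.trans hρ1⟩) hK
  have h2 := hONB.1 4 (1 / L) (X * (N / 403200 * L ^ 14)) (fun z => ((X : ℂ) ^ (1 + us z) - 1) /
      (1 + us z) * Ph0 a z / P8 z - X * ld_P a 0 * ld_K L z) hρ fun z hz => by
    have b1 := ld_Kb hL0 hz
    have b2 := ld_us fun j => (hz j).2
    have b3 := c3 (x := (cexp (-(L * (1 + us z))), z)) (by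
      rw [Prod.dist_eq, dist_zero_right, dist_zero_right, max_lt_iff]
      constructor
      · have : (-(L * (1 + us z)) : ℂ).re ≤ -(L - 2) := by
          have := (abs_le.1 ((abs_re_le_norm _).trans b2)).1
          have e : L * (1 / L) = 1 := by field_simp
          simp only [neg_re, re_ofReal_mul, add_re, one_re]
          nlinarith
        rw [Complex.norm_exp]
        refine (Real.exp_le_exp.2 this).trans_lt ?_
        rw [Real.exp_neg, ← one_div, one_div_lt (Real.exp_pos _) hδ]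
        linarith [Real.add_one_le_exp (L - 2)]
      · refine ((pi_norm_le_iff_of_nonneg hρ.le).2 fun j => (hz j).2).trans_lt ?_
        rw [one_div_lt hL0 hδ]
        linarith)
    simp only [dist_eq_norm, sub_zero, us, Pi.zero_apply, sum_const_zero, zero_div, add_zero,
      div_one, one_mul] at b3
    have e1 : (X : ℂ) = cexp L := by rw [← ofReal_exp, hLd, Real.exp_log hX0]
    have e2 : (X : ℂ) ^ (1 + us z) - 1 =
        X * cexp (L * us z) * (1 - cexp (-(L * (1 + us z)))) := by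
      rw [cpow_def_of_ne_zero (ofReal_ne_zero.2 hX0.ne'), ← ofReal_log hX0.le, ← hLd, e1,
        mul_sub, ← Complex.exp_add, ← Complex.exp_add]
      simp [mul_add]
    have e3 : ((X : ℂ) ^ (1 + us z) - 1) / (1 + us z) * Ph0 a z / P8 z -
        X * ld_P a 0 * ld_K L z = X * (((1 - cexp (-(L * (1 + us z)))) / (1 + us z) * ld_P a z -
          ld_P a 0) * ld_K L z) := by
      rw [e2]
      generalize ld_P a 0 = p
      simp only [Ph0, KZ4, ld_K, ld_P]
      ring
    rw [e3, norm_mul, norm_mul, norm_real, Real.norm_of_nonneg hX0.le]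
    refine mul_le_mul_of_nonneg_left
      ((mul_le_mul b3.le b1 (norm_nonneg _) (by positivity)).trans_eq ?_) hX0.le
    field_simp
  rw [h1, On_const_mul] at h2
  have h3 := (norm_sub_norm_le _ _).trans ((norm_sub_rev _ _).trans_le h2)
  rw [norm_mul, norm_mul, norm_real, Real.norm_of_nonneg hX0.le, ld_main hρ, ← hN] at h3
  have h4 := congrArg norm hQ
  rw [norm_mul, norm_real, Real.norm_of_nonneg hX0.le, norm_mul] at h4
  have h5 : ‖(2 / 3 * ((2 * π : ℂ) ^ 4)⁻¹ : ℂ)‖ = 2 / 3 / (2 * π) ^ 4 := by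
    simp [abs_of_pos Real.pi_pos, div_eq_mul_inv]
  have hπ := Real.pi_pos
  refine le_of_mul_le_mul_left ?_ hX0
  rw [h4, h5]
  calc _ = 2 / 3 / (2 * π) ^ 4 * (X * N * ((2 * π) ^ 4 / 201600 * L ^ 10) -
        (2 * π * (1 / L)) ^ 4 * (X * (N / 403200 * L ^ 14))) := by field_simp; norm_num
    _ ≤ _ := by gcongr; linarith

theorem pRATIO (θ : ℝ) (hL : LEAD) (hA : ADD θ) : RATIO θ := by
  intro a ha
  obtain ⟨r₀, hr₀, hA⟩ := hA a ha
  obtain ⟨r₁, c, X₁, hr₁, hc, hL⟩ := hL a ha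
  refine ⟨min r₀ r₁, lt_min hr₀ hr₁, fun r hr hr' δ hδ => ?_⟩
  obtain ⟨C, X₀, h⟩ := hA r hr (hr'.trans (min_le_left _ _)) δ hδ
  refine ⟨C * π ^ 2 / (3 * c), max (max X₀ X₁) 2, fun X hX => ?_⟩
  have h1 := h X ((le_max_left _ _).trans ((le_max_left _ _).trans hX))
  have h2 := hL r X hr (hr'.trans (min_le_right _ _))
    ((le_max_right _ _).trans ((le_max_left _ _).trans hX))
  have hX2 : 2 ≤ X := (le_max_right _ _).trans hX
  have hX0 : 0 < X := by linarith
  have hl : 0 < Real.log X := Real.log_pos (by linarith)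
  have hπ := Real.pi_pos
  have h3 : 3 * X / π ^ 2 * (c * Real.log X ^ 10) ≤ ‖(3 * X / π ^ 2 * Qm 4 a r X : ℂ)‖ := by
    have : ‖(3 * X / π ^ 2 : ℂ)‖ = 3 * X / π ^ 2 := by
      simp [abs_of_pos hπ, abs_of_pos hX0]
    rw [norm_mul, this]
    gcongr
  have h4 : 0 < 3 * X / π ^ 2 * (c * Real.log X ^ 10) := by positivity
  rw [div_sub_one (norm_pos_iff.1 (h4.trans_le h3)), norm_div]
  refine (div_le_div₀ ((norm_nonneg _).trans h1) h1 h4 h3).trans_eq ?_
  rw [show θ - 10 + δ = θ + δ - (10 : ℕ) by push_cast; ring, Real.rpow_sub_natCast hl.ne']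
  field_simp

end Pool.Agent.Q4
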