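import Pool.Agent.P.MP_ea46f5_nt.QM.S2

namespace Pool.Agent.QM

open Complex MeasureTheory Finset
open scoped Real ComplexConjugate

theorem int_term (hE0 : E0) (hTKB : TKB) (l : ℕ) (hl : l ≠ 0) (k : ℤ) (z s₁ s₂ : ℂ)
    (h0 : 0 ≤ z.re) (h6 : z.re ≤ 6) (h1 : s₁.re = 12) (h2 : s₂.re = 12) (n : ℕ) :
    ‖Cf s₁ s₂ n * Tk k z (n * l)‖ ≤ (l : ℝ) ^ 7 * (n : ℝ) ^ (-(5 / 2) : ℝ) := by
  rcases Nat.eq_zero_or_pos n with rfl | hn
  · simp
  · have hn' : (0 : ℝ) < n := by exact_mod_cast hn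
    have a := hE0.2.2.2.1 s₁ s₂ n h1 h2
    have b := hTKB.2.1 k z (n * l) h0 h6 (Nat.mul_ne_zero hn.ne' hl)
    have e : (n : ℝ) ^ (-(19 / 2) : ℝ) * (n : ℝ) ^ 7 = (n : ℝ) ^ (-(5 / 2) : ℝ) := by
      rw [← Real.rpow_natCast, ← Real.rpow_add hn']
      norm_num
    rw [norm_mul]
    calc ‖Cf s₁ s₂ n‖ * ‖Tk k z (n * l)‖
        ≤ (n : ℝ) ^ (-(19 / 2) : ℝ) * ((n * l : ℕ) : ℝ) ^ 7 :=
          mul_le_mul a b (norm_nonneg _) (by positivity)
      _ = (l : ℝ) ^ 7 * ((n : ℝ) ^ (-(19 / 2) : ℝ) * (n : ℝ) ^ 7) := by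
          push_cast
          ring
      _ = _ := by rw [e]

theorem int_summ (l : ℕ) : Summable fun n : ℕ => (l : ℝ) ^ 7 * (n : ℝ) ^ (-(5 / 2) : ℝ) :=
  (Real.summable_nat_rpow.2 (by norm_num)).mul_left _

theorem int_bd (hE0 : E0) (hTKB : TKB) (l : ℕ) (hl : l ≠ 0) (k : ℤ) (z s₁ s₂ : ℂ)
    (h0 : 0 ≤ z.re) (h6 : z.re ≤ 6) (h1 : s₁.re = 12) (h2 : s₂.re = 12) :
    ‖Z1 l k z s₁ s₂‖ ≤ ∑' n : ℕ, (l : ℝ) ^ 7 * (n : ℝ) ^ (-(5 / 2) : ℝ) :=
  tsum_of_norm_bounded (int_summ l).hasSum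
    (int_term hE0 hTKB l hl k z s₁ s₂ h0 h6 h1 h2)

theorem int_cont (hE0 : E0) (hTKB : TKB) (l : ℕ) (hl : l ≠ 0) (k : ℤ) (σ : ℝ)
    (h0 : 0 ≤ σ) (h6 : σ ≤ 6) :
    Continuous fun x : ℝ × ℝ × ℝ =>
      Z1 l k (σ + x.1 * I) (12 + x.2.1 * I) (12 + x.2.2 * I) := by
  unfold Z1
  refine continuous_tsum (fun n => ?_) (int_summ l) (fun n x => ?_)
  · have a : Continuous fun x : ℝ × ℝ × ℝ =>
        (((12 : ℂ) + x.2.1 * I, (12 : ℂ) + x.2.2 * I) : ℂ × ℂ) := by fun_prop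
    have b : Continuous fun x : ℝ × ℝ × ℝ => ((σ : ℂ) + x.1 * I) := by fun_prop
    exact ((hE0.2.2.2.2.1 n).comp a).mul ((hTKB.2.2.1 k (n * l)).comp b)
  · exact int_term hE0 hTKB l hl k _ _ _ (by simpa using h0) (by simpa using h6) (by simp)
      (by simp) n

theorem int_wt (w : ℂ → ℂ) (hw : LI w) : Integrable fun t : ℝ => wt w (12 + t * I) := by
  have h1 : Integrable fun t : ℝ => w (12 + ((-t : ℝ) : ℂ) * I) := Integrable.comp_neg hw
  have h2 : Integrable fun t : ℝ => conj (w (12 + ((-t : ℝ) : ℂ) * I)) :=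
    (Complex.conjCLE.toContinuousLinearMap.integrable_comp h1)
  refine h2.congr (Filter.Eventually.of_forall fun t => ?_)
  have : conj ((12 : ℂ) + t * I) = 12 + ((-t : ℝ) : ℂ) * I := by
    apply Complex.ext <;> simp
  simp only [wt, this]

theorem int_ww (w : ℂ → ℂ) (hw : LI w) :
    Integrable fun t : ℝ × ℝ => w (12 + t.1 * I) * wt w (12 + t.2 * I) := by
  rw [Measure.volume_eq_prod]
  exact Integrable.mul_prod hw (int_wt w hw)

theorem int_one (hE0 : E0) (hTKB : TKB) (w : ℂ → ℂ) (l : ℕ) (k : ℤ) (hw : LI w) (hl : l ≠ 0)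
    (z : ℂ) (h0 : 0 ≤ z.re) (h6 : z.re ≤ 6) :
    Integrable (fun t : ℝ × ℝ =>
      w (12 + t.1 * I) * wt w (12 + t.2 * I) * Z1 l k z (12 + t.1 * I) (12 + t.2 * I)) := by
  have c : Continuous fun t : ℝ × ℝ => Z1 l k z (12 + t.1 * I) (12 + t.2 * I) := by
    have a := (int_cont hE0 hTKB l hl k z.re h0 h6).comp
      (f := fun t : ℝ × ℝ => (z.im, t)) (by fun_prop)
    simpa [Function.comp_def, Complex.re_add_im] using a
  exact (int_ww w hw).mul_bdd c.aestronglyMeasurable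
    (Filter.Eventually.of_forall fun t =>
      int_bd hE0 hTKB l hl k z _ _ h0 h6 (by simp) (by simp))

theorem int_J (w : ℂ → ℂ) (l : ℕ) (k : ℤ) (z : ℂ) :
    J1 w l k z = ∫ t : ℝ × ℝ,
      w (12 + t.1 * I) * wt w (12 + t.2 * I) * Z1 l k z (12 + t.1 * I) (12 + t.2 * I) := by
  simp only [J1, I2, ofReal_ofNat]

theorem int_Jc (hE0 : E0) (hTKB : TKB) (w : ℂ → ℂ) (l : ℕ) (k : ℤ) (hw : LI w) (hl : l ≠ 0)
    (σ : ℝ) (h0 : 0 ≤ σ) (h6 : σ ≤ 6) :
    (Continuous fun y : ℝ => J1 w l k (σ + y * I)) ∧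
      ∃ M : ℝ, ∀ y : ℝ, ‖J1 w l k (σ + y * I)‖ ≤ M := by
  set M : ℝ := ∑' n : ℕ, (l : ℝ) ^ 7 * (n : ℝ) ^ (-(5 / 2) : ℝ) with hM
  have hb : Integrable fun t : ℝ × ℝ => ‖w (12 + t.1 * I) * wt w (12 + t.2 * I)‖ * M :=
    (int_ww w hw).norm.mul_const M
  have hle : ∀ (y : ℝ) (t : ℝ × ℝ), ‖w (12 + t.1 * I) * wt w (12 + t.2 * I) *
      Z1 l k (σ + y * I) (12 + t.1 * I) (12 + t.2 * I)‖ ≤
      ‖w (12 + t.1 * I) * wt w (12 + t.2 * I)‖ * M := by
    intro y t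
    rw [norm_mul]
    exact mul_le_mul_of_nonneg_left (int_bd hE0 hTKB l hl k _ _ _ (by simpa using h0)
      (by simpa using h6) (by simp) (by simp)) (norm_nonneg _)
  simp only [int_J]
  refine ⟨continuous_of_dominated (fun y => ?_) (fun y => Filter.Eventually.of_forall (hle y)) hb
    (Filter.Eventually.of_forall fun t => ?_), _, fun y =>
      norm_integral_le_of_norm_le hb (Filter.Eventually.of_forall (hle y))⟩
  · exact (int_one hE0 hTKB w l k hw hl _ (by simpa using h0)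
      (by simpa using h6)).aestronglyMeasurable
  · exact continuous_const.mul ((int_cont hE0 hTKB l hl k σ h0 h6).comp
      (f := fun y : ℝ => (y, t)) (by fun_prop))

theorem int_Kc (k : ℤ) (X σ : ℝ) (hk : k ≠ 0) (hX : 0 < X) (hσ : 1 / 2 < σ) :
    Continuous fun y : ℝ => Kz k X (σ + y * I) := by
  have hb : (0 : ℝ) < |(k : ℝ)| * X := mul_pos (abs_pos.2 (by exact_mod_cast hk)) hX
  have b : Continuous fun y : ℝ => ((σ : ℂ) + y * I) := by fun_prop
  rw [continuous_iff_continuousAt]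
  intro y
  refine ContinuousAt.comp (g := Kz k X) ?_ b.continuousAt
  set z : ℂ := σ + y * I with hz
  have hre : z.re = σ := by simp [hz]
  unfold Kz
  refine ContinuousAt.mul (ContinuousAt.mul (ContinuousAt.div_const ?_ _) ?_) ?_
  · have h1 : ContinuousAt (fun s : ℂ => (π : ℂ) ^ (-s / 2)) z :=
      ContinuousAt.const_cpow (by fun_prop) (Or.inl (by exact_mod_cast Real.pi_ne_zero))
    have h2 : ContinuousAt (fun s : ℂ => Gamma (s / 2)) z := by
      refine ContinuousAt.comp (g := Gamma) (f := fun s : ℂ => s / 2) ?_ (by fun_prop)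
      refine (differentiableAt_Gamma _ fun m hm => ?_).continuousAt
      have := congrArg Complex.re hm
      simp [hre] at this
      have h : (0 : ℝ) ≤ m := Nat.cast_nonneg m
      linarith
    exact h1.mul h2
  · refine ContinuousAt.comp (g := riemannZeta) (f := fun s : ℂ => 2 * s) ?_ (by fun_prop)
    refine (differentiableAt_riemannZeta fun h => ?_).continuousAt
    have := congrArg Complex.re h
    simp [hre] at this
    linarith
  · exact ContinuousAt.const_cpow (by fun_prop) (Or.inl (ofReal_ne_zero.2 hb.ne'))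

theorem pINT (hE0 : E0) (hTKB : TKB) (hKZ : KZ) (hDEC : DEC) : INT := by
  intro w l k hw hl
  refine ⟨fun z h0 h6 => int_one hE0 hTKB w l k hw hl z h0 h6, fun X σ hk hX hσ h6 => ?_⟩
  obtain ⟨hc, M, hM⟩ := int_Jc hE0 hTKB w l k hw hl σ (by linarith) h6
  obtain ⟨C, hC, hK⟩ := hKZ 2
  have hb : (0 : ℝ) < |(k : ℝ)| * X := mul_pos (abs_pos.2 (by exact_mod_cast hk)) hX
  have hKi : Integrable fun y : ℝ => Kz k X (σ + y * I) := by
    refine Integrable.mono' (hDEC.2.2.2.1.1.const_mul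
      (C * (1 + 1 / (σ - 1 / 2)) / 2 * (|(k : ℝ)| * X) ^ (-σ)))
      (int_Kc k X σ hk hX hσ).aestronglyMeasurable (Filter.Eventually.of_forall fun y => ?_)
    have a := (hK (σ + y * I)).2.1 (by simpa using hσ) (by simp; linarith)
    have e1 : ((σ : ℂ) + y * I).re = σ := by simp
    have e2 : ((σ : ℂ) + y * I).im = y := by simp
    rw [e1, e2] at a
    have e : Kz k X (σ + y * I) = Gammaℝ (σ + y * I) * riemannZeta (2 * (σ + y * I)) *
        (((|(k : ℝ)| * X : ℝ) : ℂ) ^ (-((σ : ℂ) + y * I)) / 2) := by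
      unfold Kz
      ring
    rw [e, norm_mul, norm_div, norm_cpow_eq_rpow_re_of_pos hb, neg_re, e1]
    have hp : (0 : ℝ) ≤ (|(k : ℝ)| * X) ^ (-σ) / ‖(2 : ℂ)‖ := by positivity
    refine (mul_le_mul_of_nonneg_right a hp).trans (le_of_eq ?_)
    simp only [Complex.norm_ofNat]
    ring
  exact hKi.mul_bdd hc.aestronglyMeasurable (Filter.Eventually.of_forall hM)

end Pool.Agent.QM
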