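import Pool.Agent.K.MP_ea46f5_nt.C14
import Pool.Agent.K.MP_ea46f5_nt.C15
import Pool.Agent.K.MP_ea46f5_nt.C6
import Pool.Agent.K.MP_ea46f5_nt.C7
import Pool.Agent.K.MP_ea46f5_nt.C12

-- part Pool.Agent.P.MP_ea46f5_nt.Q4.K1c
section

/-! The contour shifts for the term `k = 1`. -/

namespace Pool.Agent.Q4

open Complex MeasureTheory Finset
open scoped Real
open Pool.Agent.QM

def K1U (e : ℝ) (z : ℂ) (u : Fin 4 → ℂ) : Prop :=
  e / 2 ≤ z.re ∧ z.re ≤ 3 / 4 ∧ ∀ j, e ≤ (u j).re ∧ (u j).re ≤ 12 ∧ -(9 / 20) < (u j).re - z.re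

def K1D (e : ℝ) (Θ : ℂ → (Fin 4 → ℂ) → ℂ) : Prop :=
  ∀ z u, K1U e z u → DifferentiableAt ℂ (fun x : ℂ × (Fin 4 → ℂ) => Θ x.1 x.2) (z, u)

noncomputable def K1F (Θ : ℂ → (Fin 4 → ℂ) → ℂ) (z : ℂ) (u : Fin 4 → ℂ) : ℂ :=
  Θ z u / ((z - 1 / 2) * ∏ j, (u j - z))

variable {e A : ℝ} {Θ : ℂ → (Fin 4 → ℂ) → ℂ}

theorem K1D.dz (h : K1D e Θ) {z : ℂ} {u : Fin 4 → ℂ} (hU : K1U e z u) :
    DifferentiableAt ℂ (fun w => Θ w u) z :=
  (h z u hU).comp z (f := fun w => (w, u)) (by fun_prop)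

theorem K1D.du (h : K1D e Θ) {z : ℂ} {u : Fin 4 → ℂ} (hU : K1U e z u) :
    DifferentiableAt ℂ (Θ z) u :=
  (h z u hU).comp u (f := fun w => (z, w)) (by fun_prop)

theorem k1_sep {n : ℕ} {U : Set (Fin n → ℂ)} {G : (Fin n → ℂ) → ℂ}
    (h : ∀ s ∈ U, DifferentiableAt ℂ G s) : Sep U G := by
  refine ⟨fun s hs => (h s hs).continuousAt.continuousWithinAt, fun s hs i => ?_⟩
  have h1 : DifferentiableAt ℂ G (Function.update s i (s i)) := by
    rw [Function.update_eq_self]; exact h s hs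
  exact h1.comp (s i) (hasFDerivAt_update s (s i)).differentiableAt

theorem k1_ddiv {E : Type*} [NormedAddCommGroup E] [NormedSpace ℂ E] {f g : E → ℂ} {x : E}
    (hf : DifferentiableAt ℂ f x) (hg : DifferentiableAt ℂ g x) (h : g x ≠ 0) :
    DifferentiableAt ℂ (fun y => f y / g y) x := by
  simp only [div_eq_mul_inv]
  exact hf.mul (hg.inv h)

theorem k1_ne {z : ℂ} {u : Fin 4 → ℂ} {m : ℝ} (hm : 0 < m) (h1 : ∀ j, m ≤ |(u j).re - z.re|)
    (h2 : 1 / 4 ≤ |z.re - 1 / 2|) : m ^ 4 / 4 ≤ ‖(z - 1 / 2) * ∏ j, (u j - z)‖ := by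
  have g1 : m ^ 4 ≤ ‖∏ j, (u j - z)‖ := by
    rw [norm_prod]
    calc m ^ 4 = ∏ _j : Fin 4, m := by simp
      _ ≤ _ := prod_le_prod (fun _ _ => hm.le) fun j _ =>
        (h1 j).trans (by simpa using abs_re_le_norm (u j - z))
  have g2 : 1 / 4 ≤ ‖z - 1 / 2‖ := h2.trans (by simpa using abs_re_le_norm (z - 1 / 2))
  rw [norm_mul]
  calc m ^ 4 / 4 = 1 / 4 * m ^ 4 := by ring
    _ ≤ _ := mul_le_mul g2 g1 (by positivity) (norm_nonneg _)

theorem k1_Fbd {z : ℂ} {u : Fin 4 → ℂ} {m : ℝ} (hm : 0 < m) (h1 : ∀ j, m ≤ |(u j).re - z.re|)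
    (h2 : 1 / 4 ≤ |z.re - 1 / 2|) (hb : ‖Θ z u‖ ≤ A / br z.im ^ 2 * dk u) :
    ‖K1F Θ z u‖ ≤ 4 / m ^ 4 * A / br z.im ^ 2 * dk u := by
  rw [K1F, norm_div]
  refine (div_le_div₀ ((norm_nonneg _).trans hb) hb (by positivity) (k1_ne hm h1 h2)).trans
    (le_of_eq ?_)
  field_simp

theorem k1_fub (hd : K1D e Θ) {σ m : ℝ} {c : Fin 4 → ℝ} (hm : 0 < m) (g1 : e / 2 ≤ σ)
    (g2 : σ ≤ 3 / 4) (g3 : ∀ j, e ≤ c j ∧ c j ≤ 12 ∧ -(9 / 20) < c j - σ)
    (h1 : ∀ j, m ≤ |c j - σ|) (h2 : 1 / 4 ≤ |σ - 1 / 2|)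
    (hb : ∀ z u, K1U e z u → z.re = σ → (∀ j, (u j).re = c j) → ‖Θ z u‖ ≤ A / br z.im ^ 2 * dk u) :
    (Iv σ fun z => In c (K1F Θ z)) = In c (fun u => Iv σ fun z => K1F Θ z u) ∧
      (Integrable fun t => Iv σ fun z => K1F Θ z (pt c t)) ∧
      (Integrable fun y : ℝ => In c (K1F Θ (σ + y * I))) ∧
      ‖In c fun u => Iv σ fun z => K1F Θ z u‖ ≤ 4 / m ^ 4 * A * 2 ^ (4 + 1) := by
  have hU : ∀ (y : ℝ) (t : Fin 4 → ℝ), K1U e (σ + y * I) (pt c t) := fun y t => by
    simpa [K1U, pt_re] using ⟨g1, g2, by simpa using g3⟩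
  have hre : ∀ y : ℝ, (σ + y * I : ℂ).re = σ := fun y => by simp
  have him : ∀ y : ℝ, (σ + y * I : ℂ).im = y := fun y => by simp
  have a1 : ∀ (y : ℝ) (t : Fin 4 → ℝ) (j), m ≤ |(pt c t j).re - (σ + y * I : ℂ).re| :=
    fun y t j => by rw [pt_re, hre]; exact h1 j
  have a2 : ∀ y : ℝ, 1 / 4 ≤ |(σ + y * I : ℂ).re - 1 / 2| := fun y => by rw [hre]; exact h2
  refine k1_FUB (Continuous.div ?_ (by unfold pt; fun_prop) fun x => ?_) fun y t => ?_
  · refine continuous_iff_continuousAt.2 fun x => ?_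
    exact ContinuousAt.comp (f := fun x : ℝ × (Fin 4 → ℝ) => ((σ + x.1 * I : ℂ), pt c x.2))
      (hd _ _ (hU x.1 x.2)).continuousAt (by unfold pt; fun_prop)
  · exact norm_pos_iff.1 (lt_of_lt_of_le (by positivity) (k1_ne hm (a1 x.1 x.2) (a2 x.1)))
  · have := k1_Fbd hm (a1 y t) (a2 y) (hb _ _ (hU y t) (hre y) (pt_re c t))
    rwa [him] at this

theorem k1_wk {x A' : ℝ} {s : ℂ} {u : Fin 4 → ℂ} (hA : 0 ≤ A') (h : x ≤ A' / br s.im ^ 2 * dk u) :
    x ≤ A' / br s.im := by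
  have h0 := sh_br_pos s.im
  refine h.trans ((mul_le_of_le_one_right (by positivity) (dk_le_one u)).trans ?_)
  exact div_le_div_of_nonneg_left hA h0 (by nlinarith [sh_br_one s.im])

theorem k1_In_add {n : ℕ} {c : Fin n → ℝ} {G H : (Fin n → ℂ) → ℂ}
    (hG : Integrable fun t => G (pt c t)) (hH : Integrable fun t => H (pt c t)) :
    In c (fun u => G u + H u) = In c G + In c H := integral_add hG hH

theorem k1_In_congr {n : ℕ} {c : Fin n → ℝ} {G H : (Fin n → ℂ) → ℂ}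
    (h : ∀ u : Fin n → ℂ, (∀ j, (u j).re = c j) → G u = H u) : In c G = In c H :=
  integral_congr_ae (.of_forall fun t => h _ (pt_re c t))

/-- Step (a): the pole at `z = 1 / 2`. -/
theorem k1_a (he : 0 < e) (he' : e ≤ 1 / 20) (hd : K1D e Θ)
    (hb : ∀ z u, K1U e z u → ‖Θ z u‖ ≤ A / br z.im ^ 2 * dk u) (hA : 0 ≤ A) :
    (Iv (3 / 4) fun z => In (fun _ => 12) (K1F Θ z)) =
      (Iv (e / 2) fun z => In (fun _ => 12) (K1F Θ z)) +
        2 * π * In (fun _ => 12) fun u => Θ (1 / 2) u / ∏ j, (u j - 1 / 2) := by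
  obtain ⟨a1, a2, -⟩ := k1_fub hd (σ := 3 / 4) (c := fun _ => 12) one_pos (by linarith) le_rfl
    (fun _ => ⟨by linarith, le_rfl, by norm_num⟩) (fun _ => by norm_num [abs_of_pos])
    (by norm_num [abs_of_pos]) fun z u h _ _ => hb z u h
  obtain ⟨b1, b2, -⟩ := k1_fub hd (σ := e / 2) (c := fun _ => 12) one_pos le_rfl (by linarith)
    (fun _ => ⟨by linarith, le_rfl, by linarith⟩) (fun _ => le_abs.2 (.inl (by linarith)))
    (le_abs.2 (.inr (by linarith))) fun z u h _ _ => hb z u h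
  have key : ∀ u : Fin 4 → ℂ, (∀ j, (u j).re = 12) → (Iv (3 / 4) fun z => K1F Θ z u) =
      (Iv (e / 2) fun z => K1F Θ z u) + 2 * π * (Θ (1 / 2) u / ∏ j, (u j - 1 / 2)) := by
    intro u hu
    have hU : ∀ s ∈ Strip (e / 2) (3 / 4), K1U e s u := fun s hs =>
      ⟨hs.1, hs.2, fun j => by rw [hu j]; exact ⟨by linarith, le_rfl, by linarith [hs.2]⟩⟩
    have h1 : ∀ s ∈ Strip (e / 2) (3 / 4), 1 ≤ ‖∏ j, (u j - s)‖ := fun s hs => by
      rw [norm_prod]
      refine one_le_prod fun j _ => le_trans ?_ (re_le_norm _)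
      rw [sub_re, hu j]; linarith [hs.2]
    have hD : ∀ s ∈ Strip (e / 2) (3 / 4),
        DifferentiableAt ℂ (fun z => Θ z u / ∏ j, (u j - z)) s := fun s hs =>
      (hd.dz (hU s hs)).div (by fun_prop) (norm_pos_iff.1 (one_pos.trans_le (h1 s hs)))
    have := pSH1 (e / 2) (3 / 4) A (fun z => Θ z u / ∏ j, (u j - z)) (1 / 2)
      (by norm_num; linarith) (by norm_num)
      ⟨fun s hs => (hD s hs).continuousAt.continuousWithinAt,
        fun s hs => (hD s ⟨hs.1.le, hs.2.le⟩).differentiableWithinAt⟩ fun s hs => by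
        rw [norm_div]
        exact (div_le_self (norm_nonneg _) (h1 s hs)).trans (k1_wk hA (hb _ _ (hU s hs)))
    simpa only [K1F, div_div, mul_comm] using this
  have c2 : Integrable fun t => 2 * π * (Θ (1 / 2) (pt (fun _ => 12) t) /
      ∏ j, (pt (fun _ : Fin 4 => 12) t j - 1 / 2)) :=
    (a2.sub b2).congr (.of_forall fun t => by
      simp only [Pi.sub_apply]; rw [key _ (pt_re _ t)]; ring)
  rw [a1, b1, k1_In_congr key, k1_In_add b2 c2]
  congr 1
  exact integral_const_mul _ _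

/-- Step (c). -/
theorem k1_c (he : 0 < e) (he' : e ≤ 1 / 20) (hd : K1D e Θ)
    (hb : ∀ z u, K1U e z u → ‖Θ z u‖ ≤ A / br z.im ^ 2 * dk u) {ρ : Fin 4 → ℝ}
    (hρ : ∀ j, e ≤ ρ j ∧ ρ j ≤ 4 * e) {z : ℂ} (hz : z.re = e / 2) :
    In (fun _ => 12) (K1F Θ z) = In ρ (K1F Θ z) := by
  have hU : ∀ u ∈ Box (fun _ : Fin 4 => e) fun _ => 12, K1U e z u := fun u hu =>
    ⟨hz.ge, by linarith, fun j => ⟨(hu j).1, (hu j).2, by linarith [(hu j).1]⟩⟩
  have h1 : ∀ u ∈ Box (fun _ : Fin 4 => e) fun _ => 12, ∀ j, e / 2 ≤ |(u j).re - z.re| :=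
    fun u hu j => le_abs.2 (.inl (by linarith [(hu j).1]))
  have h2 : 1 / 4 ≤ |z.re - 1 / 2| := le_abs.2 (.inr (by linarith))
  refine pSDn 4 (fun _ => e) (fun _ => 12) _ _ (4 / (e / 2) ^ 4 * A / br z.im ^ 2) _
    (fun _ => ⟨by linarith, le_rfl⟩) (fun j => ⟨(hρ j).1, by linarith [(hρ j).2]⟩)
    (k1_sep fun u hu => ?_) fun u hu => k1_Fbd (by positivity) (h1 u hu) h2 (hb _ _ (hU u hu))
  exact k1_ddiv (hd.du (hU u hu)) (by fun_prop) (norm_pos_iff.1
    (lt_of_lt_of_le (by positivity) (k1_ne (m := e / 2) (by positivity) (h1 u hu) h2)))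

noncomputable def K1R (Θ : ℂ → (Fin 4 → ℂ) → ℂ) (i : Fin 4) (u : Fin 4 → ℂ) : ℂ :=
  Θ (u i) u / ((u i - 1 / 2) * ∏ j ∈ univ.erase i, (u j - u i))

/-- Step (d), for fixed `u`. -/
theorem k1_d (he : 0 < e) (he' : e ≤ 1 / 20) (hd : K1D e Θ)
    (hb : ∀ z u, K1U e z u → ‖Θ z u‖ ≤ A / br z.im ^ 2 * dk u) (hA : 0 ≤ A) {ρ : Fin 4 → ℝ}
    (hi : Function.Injective ρ) (hρ : ∀ j, e ≤ ρ j ∧ ρ j ≤ 4 * e) (u : Fin 4 → ℂ)
    (hu : ∀ j, (u j).re = ρ j) : (Iv (e / 2) fun z => K1F Θ z u) =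
      (Iv (1 / 4) fun z => K1F Θ z u) + 2 * π * ∑ i, K1R Θ i u := by
  have hU : ∀ s ∈ Strip (e / 2) (1 / 4), K1U e s u := fun s hs =>
    ⟨hs.1, by linarith [hs.2], fun j => by
      rw [hu j]; exact ⟨(hρ j).1, by linarith [(hρ j).2], by linarith [hs.2, (hρ j).1]⟩⟩
  have h1 : ∀ s ∈ Strip (e / 2) (1 / 4), 1 / 4 ≤ ‖s - 1 / 2‖ := fun s hs => by
    rw [norm_sub_rev]
    refine le_trans ?_ (re_le_norm _)
    norm_num; linarith [hs.2]
  have hD : ∀ s ∈ Strip (e / 2) (1 / 4), DifferentiableAt ℂ (fun z => Θ z u / (z - 1 / 2)) s :=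
    fun s hs => (hd.dz (hU s hs)).div (by fun_prop)
      (norm_pos_iff.1 (lt_of_lt_of_le (by norm_num) (h1 s hs)))
  have := k1_SHP (a := e / 2) (b := 1 / 4) (C := 4 * A) (f := fun z => Θ z u / (z - 1 / 2)) u
    (fun i j h => hi (by rw [← hu, ← hu, h])) (fun j => by linarith [hu j, (hρ j).1])
    (fun j => by linarith [hu j, (hρ j).2])
    ⟨fun s hs => (hD s hs).continuousAt.continuousWithinAt,
      fun s hs => (hD s ⟨hs.1.le, hs.2.le⟩).differentiableWithinAt⟩ fun s hs => by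
      have g := k1_wk hA (hb _ _ (hU s hs))
      rw [norm_div]
      refine (div_le_div₀ ((norm_nonneg _).trans g) g (by norm_num) (h1 s hs)).trans (le_of_eq ?_)
      ring
  have e1 : ∀ z : ℂ, Θ z u / (z - 1 / 2) / ∏ j, (z - u j) = K1F Θ z u := fun z => by
    rw [K1F, div_div]
    congr 2
    simp only [Fin.prod_univ_four]; ring
  have e2 : ∀ i, Θ (u i) u / (u i - 1 / 2) / ∏ j ∈ univ.erase i, (u i - u j) = -K1R Θ i u := by
    intro i
    have : ∏ j ∈ univ.erase i, (u i - u j) = -∏ j ∈ univ.erase i, (u j - u i) := by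
      simp only [← neg_sub (u _) (u i), prod_neg, card_erase_of_mem (mem_univ i), card_univ,
        Fintype.card_fin]
      norm_num
    rw [K1R, this, div_neg, div_div]
  simp only [e1, e2, sum_neg_distrib] at this
  linear_combination -this

theorem k1_Rint (he : 0 < e) (he' : e ≤ 1 / 20) (hd : K1D e Θ)
    (hb : ∀ z u, K1U e z u → ‖Θ z u‖ ≤ A / br z.im ^ 2 * dk u) (hA : 0 ≤ A) {ρ : Fin 4 → ℝ}
    (hi : Function.Injective ρ) (hρ : ∀ j, e ≤ ρ j ∧ ρ j ≤ 4 * e) (i : Fin 4) :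
    Integrable fun t => K1R Θ i (pt ρ t) := by
  have hU : ∀ t, K1U e (pt ρ t i) (pt ρ t) := fun t => by
    simp only [K1U, pt_re]
    exact ⟨by linarith [(hρ i).1], by linarith [(hρ i).2], fun j =>
      ⟨(hρ j).1, by linarith [(hρ j).2], by linarith [(hρ j).1, (hρ i).2]⟩⟩
  set m : ℝ := 1 / 4 * ∏ j ∈ univ.erase i, |ρ j - ρ i| with hm
  have hm0 : 0 < m := mul_pos (by norm_num) (prod_pos fun j hj =>
    abs_pos.2 (sub_ne_zero.2 fun h => (mem_erase.1 hj).1 (hi h)))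
  have h1 : ∀ t, m ≤ ‖(pt ρ t i - 1 / 2) * ∏ j ∈ univ.erase i, (pt ρ t j - pt ρ t i)‖ := by
    intro t
    rw [norm_mul, norm_prod]
    refine mul_le_mul ?_ (prod_le_prod (fun _ _ => abs_nonneg _) fun j _ => ?_)
      (prod_nonneg fun _ _ => abs_nonneg _) (norm_nonneg _)
    · rw [norm_sub_rev]
      refine le_trans ?_ (re_le_norm _)
      norm_num [pt_re]; linarith [(hρ i).2]
    · simpa only [sub_re, pt_re] using abs_re_le_norm (pt ρ t j - pt ρ t i)
  refine (pINB 4 ρ (A / m) _ (Continuous.div ?_ (by unfold pt; fun_prop) fun t =>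
    norm_pos_iff.1 (hm0.trans_le (h1 t))) fun t => ?_).1
  · refine continuous_iff_continuousAt.2 fun t => ?_
    exact ContinuousAt.comp (f := fun t => (pt ρ t i, pt ρ t)) (hd _ _ (hU t)).continuousAt
      (by unfold pt; fun_prop)
  · have g : ‖Θ (pt ρ t i) (pt ρ t)‖ ≤ A * dk (pt ρ t) := (hb _ _ (hU t)).trans
      (mul_le_mul_of_nonneg_right (div_le_self hA (one_le_pow₀ (sh_br_one _))) (dk_pos _).le)
    rw [K1R, norm_div]
    exact (div_le_div₀ ((norm_nonneg _).trans g) g hm0 (h1 t)).trans (le_of_eq (by ring))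

/-- All shifts. -/
theorem k1_shift (he : 0 < e) (he' : e ≤ 1 / 20) (hd : K1D e Θ)
    (hb : ∀ z u, K1U e z u → ‖Θ z u‖ ≤ A / br z.im ^ 2 * dk u) (hA : 0 ≤ A) {ρ : Fin 4 → ℝ}
    (hi : Function.Injective ρ) (hρ : ∀ j, e ≤ ρ j ∧ ρ j ≤ 4 * e) :
    (Iv (3 / 4) fun z => In (fun _ => 12) (K1F Θ z)) =
      (In ρ fun u => Iv (1 / 4) fun z => K1F Θ z u) + 2 * π * ∑ i, In ρ (K1R Θ i) +
        2 * π * In (fun _ => 12) fun u => Θ (1 / 2) u / ∏ j, (u j - 1 / 2) := by
  obtain ⟨b1, -⟩ := k1_fub hd (σ := e / 2) (c := ρ) (m := e / 2) (by positivity) le_rfl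
    (by linarith) (fun j => ⟨(hρ j).1, by linarith [(hρ j).2], by linarith [(hρ j).1]⟩)
    (fun j => le_abs.2 (.inl (by linarith [(hρ j).1]))) (le_abs.2 (.inr (by linarith)))
    fun z u h _ _ => hb z u h
  obtain ⟨-, c2, -⟩ := k1_fub hd (σ := 1 / 4) (c := ρ) (m := 1 / 20) (by norm_num) (by linarith)
    (by norm_num) (fun j => ⟨(hρ j).1, by linarith [(hρ j).2], by linarith [(hρ j).1]⟩)
    (fun j => le_abs.2 (.inr (by linarith [(hρ j).2]))) (le_abs.2 (.inr (by linarith)))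
    fun z u h _ _ => hb z u h
  have hR := k1_Rint he he' hd hb hA hi hρ
  have e1 : (Iv (e / 2) fun z => In (fun _ => 12) (K1F Θ z)) =
      Iv (e / 2) fun z => In ρ (K1F Θ z) :=
    integral_congr_ae (.of_forall fun y => k1_c he he' hd hb hρ (by simp))
  rw [k1_a he he' hd hb hA, e1, b1, k1_In_congr (k1_d he he' hd hb hA hi hρ),
    k1_In_add c2 ((integrable_finsetSum _ fun i _ => hR i).const_mul _)]
  congr 2
  unfold In
  rw [integral_const_mul, integral_finsetSum _ fun i _ => hR i]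

theorem k1_Pbd {u : Fin 4 → ℂ} (h : ∀ j, 0 ≤ (u j).re ∧ (u j).re ≤ 12) :
    dk u * ‖∏ j, (u j - 1 / 2)‖ ≤ 12 ^ 4 := by
  rw [dk, norm_prod, ← prod_mul_distrib]
  calc _ ≤ ∏ _j : Fin 4, (12 : ℝ) := prod_le_prod (fun _ _ => by positivity) fun j _ => ?_
    _ = _ := by simp
  have h1 := norm_le_abs_re_add_abs_im (u j - 1 / 2)
  have h2 : |(u j - 1 / 2).re| ≤ 12 := by
    rw [abs_le]; norm_num; constructor <;> linarith [(h j).1, (h j).2]
  have h3 : (u j - 1 / 2).im = (u j).im := by simp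
  rw [h3] at h1
  rw [one_div_mul_eq_div, div_le_iff₀ (pow_pos (sh_br_pos _) 2)]
  unfold br
  nlinarith [abs_nonneg (u j).im]

/-- The core of `K1`. -/
theorem k1_core {B X : ℝ} {Ψ : ℂ → (Fin 4 → ℂ) → ℂ} (he : 0 < e) (he' : e ≤ 1 / 20) (hX : 1 ≤ X)
    (hXe : X ^ e ≤ 3) (hB : 0 ≤ B) {ρ : Fin 4 → ℝ} (hi : Function.Injective ρ)
    (hρ : ∀ j, e ≤ ρ j ∧ ρ j ≤ 4 * e) (hd : K1D e Ψ)
    (hb : ∀ z u, K1U e z u →
      ‖Ψ z u‖ ≤ B * X ^ (1 - z.re + ∑ j, (u j).re) / br z.im ^ 2 * dk u ^ 2) :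
    (∀ i, Integrable fun t => K1R (fun z u => Ψ z u * ∏ j, (u j - 1 / 2)) i (pt ρ t)) ∧
    ‖1 / (2 * π) * (Iv (3 / 4) fun z => In (fun _ => 12)
        (K1F (fun z u => Ψ z u * ∏ j, (u j - 1 / 2)) z)) -
      ∑ i, In ρ (K1R (fun z u => Ψ z u * ∏ j, (u j - 1 / 2)) i)‖ ≤
      10 ^ 20 * B * X ^ (9 / 10 : ℝ) := by
  set Θ : ℂ → (Fin 4 → ℂ) → ℂ := fun z u => Ψ z u * ∏ j, (u j - 1 / 2) with hΘ
  have hX0 : 0 < X := by linarith
  have hdΘ : K1D e Θ := fun z u h => (hd z u h).mul (by fun_prop)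
  have hbΘ : ∀ (x : ℝ) z u, K1U e z u → X ^ (1 - z.re + ∑ j, (u j).re) ≤ x →
      ‖Θ z u‖ ≤ 12 ^ 4 * B * x / br z.im ^ 2 * dk u := by
    intro x z u h hx
    have g := k1_Pbd (u := u) fun j => ⟨he.le.trans (h.2.2 j).1, (h.2.2 j).2.1⟩
    have g0 := dk_pos u
    have g1 := sh_br_pos z.im
    have g2 : 0 ≤ x := le_trans (by positivity) hx
    calc ‖Θ z u‖ ≤ B * x / br z.im ^ 2 * dk u ^ 2 * ‖∏ j, (u j - 1 / 2)‖ := by
          rw [norm_mul]
          refine mul_le_mul_of_nonneg_right ((hb z u h).trans ?_) (norm_nonneg _)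
          gcongr
      _ = B * x / br z.im ^ 2 * dk u * (dk u * ‖∏ j, (u j - 1 / 2)‖) := by ring
      _ ≤ B * x / br z.im ^ 2 * dk u * 12 ^ 4 := by gcongr
      _ = _ := by ring
  have hU49 : ∀ z u, K1U e z u → X ^ (1 - z.re + ∑ j, (u j).re) ≤ X ^ (49 : ℝ) := fun z u h => by
    refine Real.rpow_le_rpow_of_exponent_le hX ?_
    rw [Fin.sum_univ_four]
    linarith [h.1, (h.2.2 0).2.1, (h.2.2 1).2.1, (h.2.2 2).2.1, (h.2.2 3).2.1]
  have h9 : 0 < X ^ (9 / 10 : ℝ) := by positivity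
  obtain ⟨-, -, -, c4⟩ := k1_fub hdΘ (σ := 1 / 4) (c := ρ) (m := 1 / 20)
    (A := 12 ^ 4 * B * (3 ^ 16 * X ^ (9 / 10 : ℝ))) (by norm_num) (by linarith)
    (by norm_num) (fun j => ⟨(hρ j).1, by linarith [(hρ j).2], by linarith [(hρ j).1]⟩)
    (fun j => le_abs.2 (.inr (by linarith [(hρ j).2]))) (le_abs.2 (.inr (by linarith)))
    fun z u h hz hu => hbΘ _ z u h (by
      calc _ ≤ X ^ (e * (16 : ℕ) + 9 / 10) := by
            refine Real.rpow_le_rpow_of_exponent_le hX ?_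
            rw [Fin.sum_univ_four, hz, hu, hu, hu, hu]
            push_cast
            linarith [(hρ 0).2, (hρ 1).2, (hρ 2).2, (hρ 3).2]
        _ ≤ _ := by
            rw [Real.rpow_add hX0, Real.rpow_mul hX0.le, Real.rpow_natCast]
            gcongr)
  have hU : ∀ u ∈ Box (fun _ : Fin 4 => 1 / 10) fun _ => 12, K1U e (1 / 2) u := fun u hu =>
    ⟨by norm_num; linarith, by norm_num, fun j =>
      ⟨by linarith [(hu j).1], (hu j).2, by norm_num; linarith [(hu j).1]⟩⟩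
  have hbΨ : ∀ (x : ℝ), ∀ u ∈ Box (fun _ : Fin 4 => 1 / 10) fun _ => 12,
      X ^ (1 - (1 / 2 : ℂ).re + ∑ j, (u j).re) ≤ x → ‖Ψ (1 / 2) u‖ ≤ B * x * dk u := by
    intro x u hu hx
    have g0 := dk_pos u
    have g2 : 0 ≤ x := le_trans (by positivity) hx
    refine (hb _ u (hU u hu)).trans ?_
    calc _ ≤ B * x / br (1 / 2 : ℂ).im ^ 2 * (dk u * 1) := by
          rw [sq (dk u)]
          gcongr
          exact dk_le_one u
      _ = _ := by simp [br]
  have hbox : ∀ t, pt (fun _ => 1 / 10) t ∈ Box (fun _ : Fin 4 => 1 / 10) fun _ => 12 :=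
    pt_box fun _ => ⟨le_rfl, by norm_num⟩
  have e1 : (In (fun _ => 12) fun u => Θ (1 / 2) u / ∏ j, (u j - 1 / 2)) =
      In (fun _ => 1 / 10) (Ψ (1 / 2)) := by
    rw [← pSDn 4 (fun _ => 1 / 10) (fun _ => 12) (fun _ => 12) _ (B * X ^ (49 : ℝ)) _
      (fun _ => ⟨by norm_num, le_rfl⟩) (fun _ => ⟨le_rfl, by norm_num⟩)
      (k1_sep fun u hu => hd.du (hU u hu)) fun u hu => hbΨ _ u hu (hU49 _ _ (hU u hu))]
    refine k1_In_congr fun u hu => mul_div_cancel_right₀ _ (prod_ne_zero_iff.2 fun j _ h => ?_)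
    have := congrArg re h
    norm_num [hu j] at this
  have c5 := (pINB 4 (fun _ => 1 / 10) (B * X ^ (9 / 10 : ℝ)) (Ψ (1 / 2))
    (continuous_iff_continuousAt.2 fun t =>
      (hd.du (hU _ (hbox t))).continuousAt.comp (pt_cont _).continuousAt)
    fun t => hbΨ _ _ (hbox t) (le_of_eq (by simp only [pt_re]; norm_num))).2
  refine ⟨k1_Rint he he' hdΘ (fun z u h => hbΘ _ z u h (hU49 z u h)) (by positivity) hi hρ, ?_⟩
  rw [k1_shift he he' hdΘ (fun z u h => hbΘ _ z u h (hU49 z u h)) (by positivity) hi hρ, e1]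
  have hπ : (π : ℂ) ≠ 0 := ofReal_ne_zero.2 Real.pi_ne_zero
  have hn : ‖(1 / (2 * π) : ℂ)‖ ≤ 1 := by
    rw [norm_div, norm_one, div_le_one (by simp)]
    simp only [norm_mul, norm_ofNat, norm_real, Real.norm_eq_abs, abs_of_pos Real.pi_pos]
    linarith [Real.pi_gt_three]
  rw [show ∀ a b c : ℂ, 1 / (2 * π) * (a + 2 * π * b + 2 * π * c) - b = 1 / (2 * π) * a + c from
    fun a b c => by field_simp; ring]
  refine (norm_add_le _ _).trans ?_
  rw [norm_mul]
  have := (mul_le_of_le_one_left (norm_nonneg _) hn).trans c4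
  nlinarith [mul_nonneg hB h9.le]

end Pool.Agent.Q4
end

-- part Pool.Agent.P.MP_ea46f5_nt.Q4.PDb
section

/-! Dirichlet series of periodic functions; the kernel. -/

namespace Pool.Agent.Q4

open Complex MeasureTheory Finset Pool.Agent.QM Filter Topology
open scoped Real ComplexConjugate ZMod

theorem per_abel (a : ℕ → ℂ) (B : ℝ) (F : ℂ → ℂ) (hB : ∀ n, ‖∑ k ∈ Icc 1 n, a k‖ ≤ B)
    (hF : Differentiable ℂ F) (hs : ∀ s : ℂ, 1 < s.re → LSeriesSummable a s ∧ F s = LSeries a s)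
    {s : ℂ} (h0 : 0 < s.re) : ‖F s‖ ≤ ‖s‖ * B / s.re := by
  set A : ℕ → ℂ := fun n => ∑ k ∈ Icc 1 n, a k with hA
  have hsm : ∀ t : ℝ, t < 1 → A ⌊t⌋₊ = 0 := fun t ht => by
    rw [Nat.floor_eq_zero.2 ht]; simp [hA]
  have hme : ∀ s : ℂ, mellin (fun t : ℝ => A ⌊t⌋₊) (-s) =
      ∫ t in Set.Ioi (1 : ℝ), A ⌊t⌋₊ * (t : ℂ) ^ (-(s + 1)) := fun s => by
    rw [← integral_Ici_eq_integral_Ioi]
    unfold mellin
    rw [setIntegral_eq_of_subset_of_forall_sdiff_eq_zero (s := Set.Ici (1 : ℝ)) measurableSet_Ioi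
      (Set.Ici_subset_Ioi.2 zero_lt_one)]
    · refine setIntegral_congr_fun measurableSet_Ici fun t _ => ?_
      simp only [smul_eq_mul]
      rw [mul_comm, neg_add', sub_eq_add_neg]
    · intro x hx
      simp only [hsm x (not_le.1 hx.2), smul_zero]
  have hd : ∀ w : ℂ, w.re < 0 → DifferentiableAt ℂ (mellin fun t : ℝ => A ⌊t⌋₊) w := fun w hw => by
    have hm : Measurable fun t : ℝ => A ⌊t⌋₊ :=
      (measurable_of_countable A).comp Nat.measurable_floor
    refine mellin_differentiableAt_of_isBigO_rpow (a := 0) (b := w.re - 1) ?_ ?_ hw ?_ (by linarith)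
    · refine LocallyIntegrable.locallyIntegrableOn ?_ _
      refine (locallyIntegrable_const B).mono hm.aestronglyMeasurable
        (Eventually.of_forall fun t => ?_)
      exact (hB _).trans (le_abs_self _)
    · refine Asymptotics.IsBigO.of_bound B (Eventually.of_forall fun t => ?_)
      simpa using hB ⌊t⌋₊
    · refine Asymptotics.IsBigO.of_bound 0 ?_
      filter_upwards [mem_nhdsWithin_of_mem_nhds (Iio_mem_nhds zero_lt_one)] with t ht
      rw [hsm t ht]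
      simp
  have hU : IsOpen {z : ℂ | 0 < z.re} := isOpen_lt continuous_const Complex.continuous_re
  have h2 : AnalyticOnNhd ℂ (fun z : ℂ => z * mellin (fun t : ℝ => A ⌊t⌋₊) (-z))
      {z : ℂ | 0 < z.re} := by
    refine DifferentiableOn.analyticOnNhd (fun z hz => ?_) hU
    have h3 : (-z).re < 0 := by
      rw [Complex.neg_re]
      exact neg_neg_of_pos hz
    exact (differentiableAt_id.mul
      ((hd _ h3).comp z differentiableAt_id.neg)).differentiableWithinAt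
  have h4 : (2 : ℂ) ∈ {z : ℂ | 0 < z.re} := by simp
  have hr : F s = s * mellin (fun t : ℝ => A ⌊t⌋₊) (-s) := by
    refine (hF.differentiableOn.analyticOnNhd hU).eqOn_of_preconnected_of_eventuallyEq h2
      (convex_halfSpace_re_gt 0).isPreconnected h4 ?_ h0
    have h5 : {z : ℂ | 1 < z.re} ∈ 𝓝 (2 : ℂ) :=
      (isOpen_lt continuous_const Complex.continuous_re).mem_nhds (by simp)
    filter_upwards [h5] with z hz
    rw [(hs z hz).2, hme]
    refine LSeries_eq_mul_integral _ le_rfl (zero_lt_one.trans hz) (hs z hz).1 ?_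
    refine Asymptotics.IsBigO.of_bound B (Eventually.of_forall fun n => ?_)
    simpa using hB n
  have ha : -1 - s.re < -1 := by linarith
  rw [hr, hme, norm_mul, mul_div_assoc]
  refine mul_le_mul_of_nonneg_left ?_ (norm_nonneg _)
  have h6 : ∫ t in Set.Ioi (1 : ℝ), B * t ^ (-1 - s.re) = B / s.re := by
    rw [integral_const_mul, integral_Ioi_rpow_of_lt ha zero_lt_one, Real.one_rpow,
      show -1 - s.re + 1 = -s.re by ring, neg_div_neg_eq, mul_one_div]
  rw [← h6]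
  refine norm_integral_le_of_norm_le
    ((integrableOn_Ioi_rpow_of_lt ha zero_lt_one).const_mul _) ?_
  filter_upwards [ae_restrict_mem measurableSet_Ioi] with t ht
  have ht0 : 0 < t := zero_lt_one.trans ht
  rw [norm_mul, Complex.norm_cpow_eq_rpow_re_of_pos ht0,
    show (-(s + 1)).re = -1 - s.re by simp; ring]
  exact mul_le_mul_of_nonneg_right (hB _) (Real.rpow_nonneg ht0.le _)

theorem per_bdd {N : ℕ} [NeZero N] (Φ : ZMod N → ℂ) (h : ∑ j, Φ j = 0) :
    ∃ B : ℝ, 0 ≤ B ∧ ∀ n : ℕ, ‖∑ k ∈ Icc 1 n, Φ k‖ ≤ B := by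
  set A : ℕ → ℂ := fun n => ∑ k ∈ Icc 1 n, Φ k with hA
  have h1 : ∀ n, A (n + 1) = A n + Φ ((n + 1 : ℕ) : ZMod N) := fun n => by
    simp only [hA]
    rw [sum_Icc_succ_top (by omega)]
  have h2 : ∀ n : ℕ, A n + Φ ((0 : ℕ) : ZMod N) = ∑ k ∈ range n, Φ k + Φ n := by
    intro n
    induction n with
    | zero => simp [hA]
    | succ n ih => rw [h1, sum_range_succ, ← ih]; ring
  have h3 : A N = 0 := by
    have h4 := h2 N
    have h5 := pd_sum_zmod N fun x => Φ x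
    simp only [Int.cast_natCast, ZMod.natCast_zmod_val] at h5
    rw [h5, h, ZMod.natCast_self, Nat.cast_zero] at h4
    exact add_right_cancel h4
  have h6 : ∀ n, A (n + N) = A n := by
    intro n
    induction n with
    | zero => rw [zero_add, h3]; simp [hA]
    | succ n ih =>
      rw [Nat.add_right_comm, h1, h1, ih]
      congr 2
      push_cast
      rw [ZMod.natCast_self, add_zero]
  refine ⟨∑ m ∈ range N, ‖A m‖, by positivity, fun n => ?_⟩
  induction n using Nat.strong_induction_on with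
  | _ n ih =>
    by_cases hn : n < N
    · exact single_le_sum (f := fun m => ‖A m‖) (fun _ _ => norm_nonneg _) (mem_range.2 hn)
    · have hq := NeZero.pos N
      have e : n = n - N + N := by omega
      change ‖A n‖ ≤ _
      rw [e, h6]
      exact ih _ (by omega)

theorem per_ent (hZT : ZT) {N : ℕ} [NeZero N] (Φ : ZMod N → ℂ) :
    ∃ (g : ℂ → ℂ) (C : ℝ), 0 ≤ C ∧ Differentiable ℂ g ∧ g 1 = (∑ j, Φ j) / N ∧
      (∀ u, u ≠ 1 → g u = (u - 1) * ZMod.LFunction Φ u) ∧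
      ∀ u : ℂ, 1 / 4 ≤ u.re → u.re ≤ 2 → ‖g u‖ ≤ C * br u.im ^ 2 := by
  have hN : (N : ℂ) ≠ 0 := NeZero.ne _
  set m : ℂ := (∑ j, Φ j) / N with hm
  have h0 : ∑ j, (Φ j - m) = 0 := by
    rw [sum_sub_distrib, sum_const, card_univ, ZMod.card, nsmul_eq_mul, hm, mul_div_cancel₀ _ hN,
      sub_self]
  obtain ⟨B, hB0, hB⟩ := per_bdd (fun j => Φ j - m) h0
  obtain ⟨C, hC, H⟩ := hZT.2.2
  have hd := ZMod.differentiable_LFunction_of_sum_zero h0
  have hg : Differentiable ℂ fun u => (u - 1) * ZMod.LFunction (fun j => Φ j - m) u +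
      m * riemannZeta₁ u :=
    ((differentiable_id.sub_const 1).mul hd).add (differentiable_riemannZeta₁.const_mul m)
  refine ⟨_, 16 * B + ‖m‖ * C, by positivity, hg, by simp, fun u hu => ?_, fun u h1 h2 => ?_⟩
  · have hU : IsOpen ({1}ᶜ : Set ℂ) := isOpen_compl_singleton
    have h2 : AnalyticOnNhd ℂ (fun u => (u - 1) * ZMod.LFunction Φ u) ({1}ᶜ : Set ℂ) :=
      DifferentiableOn.analyticOnNhd (fun z hz => ((differentiableAt_id.sub_const 1).mul
        (ZMod.differentiableAt_LFunction Φ z (Or.inl hz))).differentiableWithinAt) hU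
    refine (hg.differentiableOn.analyticOnNhd hU).eqOn_of_preconnected_of_eventuallyEq h2
      (isConnected_compl_singleton_of_one_lt_rank (by simp) 1).isPreconnected
      (z₀ := 2) (by norm_num) ?_ hu
    have h5 : {z : ℂ | 1 < z.re} ∈ 𝓝 (2 : ℂ) :=
      (isOpen_lt continuous_const Complex.continuous_re).mem_nhds (by simp)
    filter_upwards [h5] with z hz
    have hz1 : z ≠ 1 := by rintro rfl; simp at hz
    have h6 := ((ZMod.LSeriesSummable_of_one_lt_re (fun j => Φ j - m) hz).LSeriesHasSum.add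
      ((LSeriesHasSum_one hz).smul m)).LSeries_eq
    have h7 : ((fun n : ℕ => Φ n - m) + m • (1 : ℕ → ℂ)) = fun n : ℕ => Φ n := by
      funext n; simp
    rw [h7] at h6
    rw [ZMod.LFunction_eq_LSeries _ hz, ZMod.LFunction_eq_LSeries _ hz, h6,
      riemannZeta_eq_inv_sub_mul hz1]
    have : z - 1 ≠ 0 := sub_ne_zero.2 hz1
    field_simp
  · have h3 := per_abel (fun n => Φ n - m) B _ hB hd (fun s hs =>
      ⟨ZMod.LSeriesSummable_of_one_lt_re (fun j => Φ j - m) hs, ZMod.LFunction_eq_LSeries _ hs⟩)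
      (s := u) (by linarith)
    have hb : 1 ≤ br u.im := by unfold br; linarith [abs_nonneg u.im]
    have h4 : ‖u‖ ≤ 2 * br u.im := (norm_le_abs_re_add_abs_im u).trans (by
      unfold br; rw [abs_of_nonneg (by linarith)]; linarith [abs_nonneg u.im])
    have h5 : ‖u - 1‖ ≤ br u.im := (norm_le_abs_re_add_abs_im _).trans (by
      have : |u.re - 1| ≤ 1 := abs_le.2 ⟨by linarith, by linarith⟩
      unfold br; simpa using this)
    have h6 : ‖u‖ * B / u.re ≤ 8 * br u.im * B := by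
      rw [div_le_iff₀ (by linarith)]
      have := mul_le_mul_of_nonneg_right h4 hB0
      have h7 : 0 ≤ br u.im * B := by positivity
      nlinarith
    refine (norm_add_le _ _).trans ?_
    rw [norm_mul, norm_mul]
    have h8 := mul_le_mul h5 (h3.trans h6) (norm_nonneg _) (by linarith)
    have h9 := mul_le_mul_of_nonneg_left (H u h1 (by linarith)) (norm_nonneg m)
    have h7 : 0 ≤ br u.im ^ 2 * B := by positivity
    nlinarith

theorem norm_ph (h : ℤ) (z : ℂ) : ‖ph h z‖ ≤ Real.exp (π * |z.im| / 2) := by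
  unfold ph
  rw [norm_exp]
  refine Real.exp_le_exp.2 ?_
  have h1 := le_abs_self z.im
  have h2 := neg_abs_le z.im
  have h3 := Real.pi_pos
  rcases Int.sign_trichotomy h with e | e | e <;> rw [e] <;> simp <;> nlinarith

theorem gam_ph (N : ℕ) (h : ℤ) {w z : ℂ} (e : w.im = z.im) (h0 : 1 / 8 ≤ w.re) (h1 : w.re ≤ N) :
    ‖Gamma w‖ * ‖ph h z‖ ≤ 24 * (N + 2).factorial * br z.im ^ (N + 2) := by
  refine (mul_le_mul (Gm.gam_upper N h0 h1) (norm_ph h z) (norm_nonneg _) (by positivity)).trans ?_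
  rw [mul_assoc _ (Real.exp _), ← Real.exp_add, e,
    show -π * |z.im| / 2 + π * |z.im| / 2 = 0 by ring, Real.exp_zero, mul_one]
  rfl

theorem per_ft {N : ℕ} [NeZero N] (f : ℤ → ℂ) (h : ℤ) :
    ZMod.dft (fun a : ZMod N => f a.val) (h : ZMod N) = ft N f h := by
  rw [ZMod.dft_apply, ft]
  refine Eq.trans ?_ (pd_sum_zmod N fun x => f x * cexp (-(2 * π * I * x * h / N))).symm
  refine sum_congr rfl fun a _ => ?_
  have e : -(a * (h : ZMod N)) = ((-(a.val * h) : ℤ) : ZMod N) := by push_cast; simp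
  rw [e, ZMod.stdAddChar_coe, smul_eq_mul, mul_comm]
  congr 2
  push_cast
  ring

theorem per_sum {N : ℕ} [NeZero N] (Φ : ZMod N → ℂ) {u : ℂ} (hu : 1 < u.re) :
    HasSum (fun m : ℕ => if m = 0 then 0 else Φ m * (m : ℂ) ^ (-u)) (ZMod.LFunction Φ u) := by
  rw [ZMod.LFunction_eq_LSeries _ hu]
  refine (ZMod.LSeriesSummable_of_one_lt_re Φ hu).LSeriesHasSum.congr_fun fun m => ?_
  rw [LSeries.term_def, cpow_neg, div_eq_mul_inv]

theorem pPER (hZT : ZT) : PER := by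
  intro N f hN hf
  have : NeZero N := ⟨hN⟩
  set Φ : ZMod N → ℂ := fun a => f a.val with hΦ
  obtain ⟨g, C, hC, hg, hg1, e, hb⟩ := per_ent hZT Φ
  obtain ⟨g1, C1, hC1, -, -, e1, hb1⟩ := per_ent hZT (ZMod.dft Φ)
  obtain ⟨g2, C2, hC2, -, -, e2, hb2⟩ := per_ent hZT (ZMod.dft fun x => Φ (-x))
  obtain ⟨C3, hC3⟩ := (isCompact_closedBall (0 : ℂ) 3).exists_bound_of_continuousOn
    hg.continuous.continuousOn
  have hC3' : 0 ≤ C3 := (norm_nonneg _).trans (hC3 0 (by simp))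
  have hN1 : (1 : ℝ) ≤ N := by exact_mod_cast Nat.pos_of_ne_zero hN
  have hbr : ∀ t : ℝ, 1 ≤ br t := fun t => by unfold br; linarith [abs_nonneg t]
  have hne : ∀ z : ℂ, 0 < z.re → ∀ n : ℕ, z ≠ -n := fun z hz n h => by
    rw [h] at hz
    simp at hz
    linarith [Nat.cast_nonneg (α := ℝ) n]
  refine ⟨g, C + C3 + 2 * N * (24 * (2 + 2).factorial) * (C1 + C2), hg, ?_, fun u hu => ?_,
    fun u hu => ?_, fun z hz => ?_⟩
  · rw [hg1, ← per_ft, Int.cast_zero, ZMod.dft_apply_zero]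
  · obtain ⟨h1, h2⟩ := hu
    have hb6 : ∀ n, n ≤ 6 → br u.im ^ n ≤ br u.im ^ 6 := fun n hn => pow_le_pow_right₀ (hbr _) hn
    have hp : 0 ≤ br u.im ^ 6 := by have := hbr u.im; positivity
    have hK : 0 ≤ 2 * N * (24 * ((2 + 2).factorial : ℝ)) * (C1 + C2) := by positivity
    by_cases h3 : 1 / 4 ≤ u.re
    · have := (hb u h3 h2).trans (mul_le_mul_of_nonneg_left (hb6 2 (by norm_num)) hC)
      nlinarith
    by_cases h4 : |u.im| ≤ 1
    · have h5 := hC3 u (by
        rw [mem_closedBall_zero_iff]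
        refine (norm_le_abs_re_add_abs_im u).trans ?_
        have : |u.re| ≤ 2 := abs_le.2 ⟨by linarith, h2⟩
        linarith)
      have := hb6 0 (by norm_num)
      nlinarith
    push Not at h3 h4
    obtain ⟨z, rfl⟩ : ∃ z, u = 1 - z := ⟨1 - u, by ring⟩
    simp only [sub_re, one_re, sub_im, one_im, zero_sub, abs_neg] at h1 h2 h3 h4
    have hbz : br (1 - z).im = br z.im := by simp [br]
    rw [hbz] at hp ⊢
    have hz1 : 1 ≤ ‖z - 1‖ := le_trans (by simpa using h4.le) (abs_im_le_norm _)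
    have hz2 : z - 1 ≠ 0 := norm_pos_iff.1 (by linarith)
    have hz3 : z ≠ 1 := sub_ne_zero.1 hz2
    have hz0 : 1 - z ≠ 1 := fun h => by
      have : z = 0 := by linear_combination -h
      rw [this] at h3; simp at h3; linarith
    have hz4 : ‖z‖ ≤ 2 * ‖z - 1‖ := by
      have := norm_add_le (z - 1) 1
      rw [sub_add_cancel, norm_one] at this
      linarith
    have key : g (1 - z) = -(z / (z - 1)) * ((N : ℂ) ^ (z - 1) * (2 * π : ℂ) ^ (-z)) *
        (Gamma z * ph 1 z * g1 z + Gamma z * ph (-1) z * g2 z) := by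
      rw [e _ hz0, ZMod.LFunction_one_sub Φ (hne z (by linarith)) (Or.inr hz3), e1 z hz3, e2 z hz3]
      simp only [ph, Int.sign_one, Int.sign_neg_one]
      push_cast
      rw [show π * I * z * -1 / 2 = -π * I * z / 2 by ring, mul_one]
      field_simp
      ring
    have a1 : ‖-(z / (z - 1))‖ ≤ 2 := by
      rw [norm_neg, norm_div, div_le_iff₀ (by linarith)]; exact hz4
    have a2 : ‖(N : ℂ) ^ (z - 1) * (2 * π : ℂ) ^ (-z)‖ ≤ N := by
      rw [norm_mul, norm_natCast_cpow_of_pos (Nat.pos_of_ne_zero hN),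
        show (2 * π : ℂ) = ((2 * π : ℝ) : ℂ) by push_cast; rfl,
        norm_cpow_eq_rpow_re_of_pos (by positivity)]
      have b1 : (N : ℝ) ^ (z - 1).re ≤ N := by
        conv_rhs => rw [← Real.rpow_one N]
        exact Real.rpow_le_rpow_of_exponent_le hN1 (by simp; linarith)
      have b2 : (2 * π) ^ (-z).re ≤ 1 :=
        Real.rpow_le_one_of_one_le_of_nonpos (by linarith [Real.pi_gt_three]) (by simp; linarith)
      calc _ ≤ (N : ℝ) * 1 := mul_le_mul b1 b2 (by positivity) (by positivity)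
        _ = _ := mul_one _
    have a3 : ∀ (h : ℤ) (w : ℂ) (D : ℝ), ‖w‖ ≤ D * br z.im ^ 2 →
        ‖Gamma z * ph h z * w‖ ≤ 24 * (2 + 2).factorial * D * br z.im ^ 6 := fun h w D hw => by
      rw [norm_mul, norm_mul]
      refine (mul_le_mul (gam_ph 2 h rfl (by linarith) (by push_cast; linarith)) hw (norm_nonneg _)
        (by have := hbr z.im; positivity)).trans (le_of_eq ?_)
      ring
    have a4 := (norm_add_le _ _).trans (add_le_add (a3 1 _ _ (hb1 z (by linarith) (by linarith)))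
      (a3 (-1) _ _ (hb2 z (by linarith) (by linarith))))
    rw [key, norm_mul, norm_mul]
    have a5 := mul_le_mul (mul_le_mul a1 a2 (norm_nonneg _) (by norm_num)) a4 (norm_nonneg _)
      (by positivity)
    refine a5.trans ?_
    nlinarith
  · have hu1 : u ≠ 1 := by rintro rfl; simp at hu
    rw [e u hu1, mul_div_cancel_left₀ _ (sub_ne_zero.2 hu1)]
    refine (per_sum Φ hu).congr_fun fun m => ?_
    have := pd_val hf (m : ℤ)
    rw [Int.cast_natCast] at this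
    simp only [hΦ, this]
  · have hz3 : z ≠ 1 := by rintro rfl; simp at hz
    have hz5 : z ≠ 0 := by rintro rfl; simp at hz; linarith
    have hz0 : 1 - z ≠ 1 := fun h => hz5 (by linear_combination -h)
    set K : ℂ := (N : ℂ) ^ (z - 1) * (2 * π : ℂ) ^ (-z) * Gamma z with hK
    have s1 := (per_sum (ZMod.dft Φ) hz).mul_left (K * ph 1 z)
    have s2 := (per_sum (ZMod.dft fun x => Φ (-x)) hz).mul_left (K * ph (-1) z)
    have s3 := HasSum.of_nat_of_neg (f := fun h : ℤ => if h = 0 then 0 else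
      K * ph h z * ft N f h * ((|(h : ℝ)| : ℝ) : ℂ) ^ (-z)) (s1.congr_fun fun m => by
        by_cases hm : m = 0
        · simp [hm]
        · have h1 : ph (m : ℤ) z = ph 1 z := by
            unfold ph
            rw [Int.sign_eq_one_of_pos (by omega), Int.sign_one]
          rw [if_neg hm, if_neg (by omega), h1, ← per_ft, Int.cast_natCast, Int.cast_natCast,
            Nat.abs_cast, ofReal_natCast]
          ring) (s2.congr_fun fun m => by
        by_cases hm : m = 0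
        · simp [hm]
        · have h1 : ph (-(m : ℤ)) z = ph (-1) z := by
            unfold ph
            rw [Int.sign_eq_neg_one_of_neg (by omega), Int.sign_neg_one]
          rw [if_neg hm, if_neg (by omega), h1, ← per_ft, ZMod.dft_comp_neg, Int.cast_neg,
            Int.cast_neg, abs_neg, Int.cast_natCast, Int.cast_natCast, Nat.abs_cast, ofReal_natCast]
          ring)
    rw [if_pos rfl, sub_zero] at s3
    have key : g (1 - z) / -z = K * ph 1 z * ZMod.LFunction (ZMod.dft Φ) z +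
        K * ph (-1) z * ZMod.LFunction (ZMod.dft fun x => Φ (-x)) z := by
      rw [e _ hz0, ZMod.LFunction_one_sub Φ (hne z (by linarith)) (Or.inr hz3)]
      simp only [ph, Int.sign_one, Int.sign_neg_one, hK]
      push_cast
      rw [show π * I * z * -1 / 2 = -π * I * z / 2 by ring, mul_one]
      field_simp
      ring
    rw [key]
    exact s3

theorem norm_brk (c : ℤ) {z : ℂ} (h : -(1 / 2) ≤ z.re) : ‖brk c z‖ ≤ 65 := by
  have a : ∀ b : ℕ, 1 ≤ b → b ≤ 16 → ‖(b : ℂ) ^ (-z)‖ ≤ 16 := fun b h1 h2 => by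
    rw [norm_natCast_cpow_of_pos h1]
    have b1 : (1 : ℝ) ≤ b := by exact_mod_cast h1
    have b2 : (b : ℝ) ≤ 16 := by exact_mod_cast h2
    calc _ ≤ (b : ℝ) ^ (1 : ℝ) := Real.rpow_le_rpow_of_exponent_le b1 (by simp; linarith)
      _ ≤ _ := by rwa [Real.rpow_one]
  have a4 := a 4 (by norm_num) (by norm_num)
  have a16 := a 16 (by norm_num) le_rfl
  push_cast at a4 a16
  have b1 : ‖w8 (4 * c) - w8 c‖ ≤ 2 := (norm_sub_le _ _).trans (by rw [norm_w8, norm_w8]; norm_num)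
  have b2 : ‖1 - w8 (4 * c)‖ ≤ 2 := (norm_sub_le _ _).trans (by rw [norm_w8, norm_one]; norm_num)
  unfold brk
  refine norm_add₃_le.trans ?_
  rw [norm_w8, norm_mul, norm_mul]
  have c1 := mul_le_mul b1 a4 (norm_nonneg _) (by norm_num)
  have c2 := mul_le_mul b2 a16 (norm_nonneg _) (by norm_num)
  linarith

theorem norm_eg (n : ℕ) : ‖eg n‖ = 1 := by
  unfold eg
  split_ifs <;> simp

theorem norm_cf (τ r f k : ℤ) {z : ℂ} (h : -(1 / 2) ≤ z.re) : ‖cf τ r f k z‖ ≤ 65 := by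
  have a : ∀ ν : ℕ, ‖Aq τ r ν k z * (jacobiSym f ν : ℂ)‖ ≤ 65 := fun ν => by
    rw [Aq, norm_mul, norm_mul, norm_mul, norm_eg, one_mul]
    have b1 := mul_le_mul (Po.norm_jac_le (-2 * τ) ν) (norm_brk (-(ν * τ * r * k)) h)
      (norm_nonneg _) zero_le_one
    have b2 := mul_le_mul b1 (Po.norm_jac_le f ν) (norm_nonneg _) (by norm_num)
    linarith
  rw [cf, norm_mul, pd_sumN4]
  have := (norm_add_le _ _).trans (add_le_add (norm_add₃_le.trans
    (add_le_add (add_le_add (a 1) (a 3)) (a 5))) (a 7))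
  have e : ‖(1 / 4 : ℂ)‖ = 1 / 4 := by simp
  rw [e]
  linarith

theorem io_ratio {f : ℤ} (hf : f ∈ F4) {κ : ℤ} (hκ : κ ≠ 0) :
    1 / 2 ≤ |(io f κ : ℝ)| / |(κ : ℝ)| ∧ |(io f κ : ℝ)| / |(κ : ℝ)| ≤ 2 := by
  have h0 : 0 < |(κ : ℝ)| := abs_pos.2 (by exact_mod_cast hκ)
  have h1 : |κ| ≤ 2 * |io f κ| ∧ |io f κ| ≤ 2 * |κ| := by
    unfold io
    rcases pd_F4 hf with h | h | h | h <;> subst h <;> split_ifs <;>
      simp only [abs_eq_max_neg] <;> omega
  rw [le_div_iff₀ h0, div_le_iff₀ h0]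
  have h2 : |(κ : ℝ)| ≤ 2 * |(io f κ : ℝ)| := by exact_mod_cast h1.1
  have h3 : |(io f κ : ℝ)| ≤ 2 * |(κ : ℝ)| := by exact_mod_cast h1.2
  constructor <;> linarith

theorem pKAx : KAx := by
  intro τ r _
  refine ⟨8 ^ 7 * 8 ^ 7 * (4 * (24 * (8 + 2).factorial * 2 ^ 7 * 65)), by positivity,
    fun κ hκ z hz => ?_, fun κ z hκ h1 h2 => ?_, ?_⟩
  · have c : ∀ x : ℂ, x ≠ 0 → DifferentiableAt ℂ (fun z : ℂ => x ^ (-z)) z := fun x hx =>
      differentiableAt_id.neg.const_cpow (Or.inl hx)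
    have c4 := c 4 (by norm_num)
    have c16 := c 16 (by norm_num)
    have hG : DifferentiableAt ℂ (fun z : ℂ => Gamma (z + 1)) z :=
      (differentiableAt_Gamma _ fun m h => by
        have := congrArg re h
        simp at this hz
        linarith [Nat.cast_nonneg (α := ℝ) m]).comp z (differentiableAt_id.add_const 1)
    refine DifferentiableAt.differentiableWithinAt ?_
    unfold EG
    refine ((hG.mul (c _ (by simp))).mul
      ((differentiableAt_id.sub_const 1).const_cpow (Or.inl (by norm_num)))).mul ?_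
    refine DifferentiableAt.fun_sum fun f hf =>
      DifferentiableAt.mul (DifferentiableAt.mul ?_ (c _ ?_)) ?_
    · unfold ph; fun_prop
    · have := (io_ratio hf hκ).1
      exact ofReal_ne_zero.2 (by linarith)
    · unfold cf Aq brk
      fun_prop
  · have a1 : ‖(2 * π : ℂ) ^ (-z)‖ ≤ 8 ^ 7 := by
      rw [show (2 * π : ℂ) = ((2 * π : ℝ) : ℂ) by push_cast; rfl,
        norm_cpow_eq_rpow_re_of_pos (by positivity)]
      calc _ ≤ (2 * π) ^ (1 : ℝ) := Real.rpow_le_rpow_of_exponent_le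
            (by linarith [Real.pi_gt_three]) (by simp; linarith)
        _ ≤ _ := by rw [Real.rpow_one]; linarith [Real.pi_le_four]
    have a2 : ‖(8 : ℂ) ^ (z - 1)‖ ≤ 8 ^ 7 := by
      have := norm_natCast_cpow_of_pos (n := 8) (by norm_num) (z - 1)
      push_cast at this
      rw [this]
      calc _ ≤ (8 : ℝ) ^ ((7 : ℕ) : ℝ) := Real.rpow_le_rpow_of_exponent_le
            (by norm_num) (by simp; linarith)
        _ = _ := Real.rpow_natCast _ _
    have hb : 0 ≤ br z.im := by unfold br; positivity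
    have a3 : ∀ f ∈ F4, ‖Gamma (z + 1) * (ph (io f κ) z *
        ((|(io f κ : ℝ)| / |(κ : ℝ)| : ℝ) : ℂ) ^ (-z) * cf τ r f (io f κ) z)‖ ≤
        24 * (8 + 2).factorial * 2 ^ 7 * 65 * br z.im ^ 10 := fun f hf => by
      obtain ⟨b1, b2⟩ := io_ratio hf hκ
      set x := |(io f κ : ℝ)| / |(κ : ℝ)|
      have b3 : ‖(x : ℂ) ^ (-z)‖ ≤ 2 ^ 7 := by
        rw [norm_cpow_eq_rpow_re_of_pos (by linarith), neg_re]
        by_cases h : 0 ≤ z.re
        · calc x ^ (-z.re) ≤ (1 / 2) ^ (-z.re) :=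
                Real.rpow_le_rpow_of_nonpos (by norm_num) b1 (by linarith)
            _ = 2 ^ z.re := by rw [one_div, Real.inv_rpow (by norm_num), Real.rpow_neg (by norm_num),
                inv_inv]
            _ ≤ 2 ^ ((7 : ℕ) : ℝ) := Real.rpow_le_rpow_of_exponent_le (by norm_num) (by simpa using h2)
            _ = _ := Real.rpow_natCast _ _
        · calc x ^ (-z.re) ≤ 2 ^ (-z.re) := Real.rpow_le_rpow (by linarith) b2 (by linarith)
            _ ≤ 2 ^ ((7 : ℕ) : ℝ) :=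
                Real.rpow_le_rpow_of_exponent_le (by norm_num) (by push_cast; linarith)
            _ = _ := Real.rpow_natCast _ _
      have b4 := gam_ph 8 (io f κ) (w := z + 1) (z := z) (by simp) (by simp; linarith)
        (by simp; linarith)
      rw [norm_mul, norm_mul, norm_mul, ← mul_assoc, ← mul_assoc]
      refine (mul_le_mul (mul_le_mul b4 b3 (norm_nonneg _) (by positivity))
        (norm_cf τ r f _ h1) (norm_nonneg _) (by positivity)).trans (le_of_eq ?_)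
      ring
    have a4 := (norm_sum_le _ _).trans (sum_le_card_nsmul _ _ _ a3)
    rw [← mul_sum, show F4.card = 4 from rfl, nsmul_eq_mul] at a4
    rw [EG, show ∀ a b c d : ℂ, a * b * c * d = b * c * (a * d) by intros; ring, norm_mul, norm_mul]
    refine (mul_le_mul (mul_le_mul a1 a2 (norm_nonneg _) (by positivity)) a4 (norm_nonneg _)
      (by positivity)).trans (le_of_eq ?_)
    push_cast
    ring
  · have e : ∀ f k, cf τ r f k 0 =
        (1 / 4 * ∑ μ ∈ N4, eg μ * (jacobiSym (-2 * τ) μ : ℂ) * (jacobiSym f μ : ℂ)) *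
          (jacobiSym f 1 : ℂ) := fun f k => by
      simp [cf, Aq, brk]
    have e2 := pd_orth (fun μ => eg μ * (jacobiSym (-2 * τ) μ : ℂ)) (ν := 1) (Or.inl rfl)
    simp only [EG, ph, e, zero_add, Gamma_one, neg_zero, cpow_zero, mul_zero, zero_mul, zero_div,
      Complex.exp_zero, one_mul, e2, zero_sub, cpow_neg_one]
    simp [eg]

end Pool.Agent.Q4
end

-- part Pool.Agent.P.MP_ea46f5_nt.Q4.PDe
section

/-! The Gauss sum of the Kronecker symbol and the root number. -/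

namespace Pool.Agent.Q4

open Complex MeasureTheory Finset Pool.Agent.QM NumberTheorySymbols
open scoped Real ComplexConjugate

theorem gk_crt {c ν : ℕ} [NeZero c] (hc : Nat.Coprime c ν) (ho : Odd ν) (hs : Squarefree ν)
    (ψ : MulChar (ZMod c) ℤ) :
    ∑ t ∈ range (c * ν), ((ψ t * J((t : ℤ) | ν) : ℤ) : ℂ) *
      cexp (-(2 * π * I * t * ((-1 : ℤ) : ℂ) / (c * ν : ℕ))) =
      (∑ a ∈ range c, (ψ a : ℂ) * cexp (2 * π * I * a / c)) *
        ((ψ ν * J((c : ℤ) | ν) : ℤ) * eg ν) * ((√(ν : ℝ) : ℝ) : ℂ) := by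
  have : NeZero ν := ⟨ho.pos.ne'⟩
  have h0 : (ν : ℂ) ≠ 0 := by exact_mod_cast ho.pos.ne'
  have h1 : (c : ℂ) ≠ 0 := NeZero.ne _
  have h2 := pd_crt hc (F := fun t => ((ψ t * J(t | ν) : ℤ) : ℂ) *
      cexp (-(2 * π * I * t * ((-1 : ℤ) : ℂ) / (c * ν : ℕ)))) (fun t => by
    have e1 : ((t + (c * ν : ℕ) : ℤ) : ZMod c) = t := by push_cast; simp
    have e2 : J(t + (c * ν : ℕ) | ν) = J(t | ν) := by
      apply jacobiSym.mod_left'
      push_cast
      rw [Int.add_mul_emod_self_right]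
    rw [e1, e2, pd_exp_per _ (mul_ne_zero (NeZero.ne c) ho.pos.ne')])
  simp only [Int.cast_natCast] at h2
  have h3 := pd_gsum ho hs (-1)
  rw [neg_neg, jacobiSym.one_left, Int.cast_one, one_mul] at h3
  rw [h2, show ∀ a b d e : ℂ, a * (b * d) * e = a * b * (d * e) by intros; ring, ← h3, sum_mul,
    sum_mul]
  refine sum_congr rfl fun a _ => ?_
  rw [mul_sum]
  refine sum_congr rfl fun b _ => ?_
  have e1 : ((a * ν + b * c : ℤ) : ZMod c) = a * ν := by push_cast; simp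
  have e2 : J(a * ν + b * c | ν) = J((c : ℤ) | ν) * J((b : ℤ) | ν) := by
    rw [← jacobiSym.mul_left]
    apply jacobiSym.mod_left'
    rw [add_comm, Int.add_mul_emod_self_right, mul_comm]
  have e3 : cexp (-(2 * π * I * ((a * ν + b * c : ℤ) : ℂ) * ((-1 : ℤ) : ℂ) / (c * ν : ℕ))) =
      cexp (2 * π * I * a / c) * cexp (-(2 * π * I * b * ((-1 : ℤ) : ℂ) / ν)) := by
    rw [← Complex.exp_add]
    congr 1
    push_cast
    field_simp
  rw [e1, e2, e3, map_mul]
  push_cast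
  ring

theorem gk_pow (c a : ℕ) : cexp (2 * π * I * a / c) = cexp (2 * π * I / c) ^ a := by
  rw [← Complex.exp_nat_mul]
  congr 1
  ring

theorem gk_four : ∑ a ∈ range 4, (ZMod.χ₄ a : ℂ) * cexp (2 * π * I * a / (4 : ℕ)) = 2 * I := by
  have e : cexp (2 * π * I / (4 : ℕ)) = I := by
    rw [show (2 * π * I / (4 : ℕ) : ℂ) = π / 2 * I by push_cast; ring, Complex.exp_pi_div_two_mul_I]
  simp only [gk_pow, e, sum_range_succ, sum_range_zero, ZMod.χ₄_nat_eq_if_mod_four]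
  norm_num
  ring

theorem gk_w : cexp (2 * π * I / (8 : ℕ)) = ((√2 : ℝ) : ℂ) / 2 * (1 + I) := by
  rw [show (2 * π * I / (8 : ℕ) : ℂ) = ((π / 4 : ℝ) : ℂ) * I by push_cast; ring, exp_mul_I,
    ← ofReal_cos, ← ofReal_sin, Real.cos_pi_div_four, Real.sin_pi_div_four]
  push_cast
  ring

theorem gk_r : ((√2 : ℝ) : ℂ) ^ 2 = 2 := by
  rw [← ofReal_pow, Real.sq_sqrt (by norm_num)]
  rfl

theorem gk_w2 : cexp (2 * π * I / (8 : ℕ)) ^ 2 = I := by
  rw [gk_w]
  linear_combination (1 + I) ^ 2 / 4 * gk_r + I_sq / 2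

theorem gk_eight : ∑ a ∈ range 8, (ZMod.χ₈ a : ℂ) * cexp (2 * π * I * a / (8 : ℕ)) =
    2 * ((√2 : ℝ) : ℂ) ∧ ∑ a ∈ range 8, (ZMod.χ₈' a : ℂ) * cexp (2 * π * I * a / (8 : ℕ)) =
    2 * ((√2 : ℝ) : ℂ) * I := by
  have h1 := gk_w
  have h2 := gk_w2
  simp only [gk_pow, sum_range_succ, sum_range_zero, ZMod.χ₈_nat_eq_if_mod_eight,
    ZMod.χ₈'_nat_eq_if_mod_eight]
  generalize cexp (2 * π * I / (8 : ℕ)) = w at h1 h2
  have h3 : w ^ 3 = I * w := by rw [← h2]; ring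
  have h5 : w ^ 5 = -w := by
    rw [show w ^ 5 = (w ^ 2) ^ 2 * w by ring, h2, I_sq]; ring
  have h7 : w ^ 7 = -(I * w) := by
    rw [show w ^ 7 = w ^ 5 * w ^ 2 by ring, h2, h5]; ring
  norm_num
  rw [h3, h5, h7, h1]
  constructor
  · linear_combination (-((√2 : ℝ) : ℂ)) * I_sq
  · linear_combination ((√2 : ℝ) : ℂ) * I_sq

theorem pGSK : GSK := by
  intro k hk h1
  have h4 : ¬ (2 * 2 : ℤ) ∣ k := fun h => by
    have := hk 2 h
    rw [Int.isUnit_iff] at this
    omega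
  have hsq : ∀ a b : ℕ, ((√((a * a * b : ℕ) : ℝ) : ℝ) : ℂ) = a * ((√(b : ℝ) : ℝ) : ℂ) := fun a b => by
    rw [Nat.cast_mul, Nat.cast_mul, Real.sqrt_mul (by positivity), Real.sqrt_mul_self (by positivity)]
    push_cast
    rfl
  have hq : qk k = ((disc k).natAbs : ℝ) := by rw [qk, ← Int.cast_abs, ← Nat.cast_natAbs]
  rw [hq]
  unfold ft
  simp only [Int.toNat_natCast]
  by_cases c1 : k % 4 = 1
  · have e : disc k = k := if_pos c1
    have h := pd_gsum (ν := k.natAbs) (Nat.odd_iff.2 (by omega)) (Int.squarefree_natAbs.2 hk) (-1)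
    rw [neg_neg, jacobiSym.one_left, Int.cast_one, one_mul] at h
    simp only [e, kr_jac c1 h1]
    rw [h]
    unfold eg par
    split_ifs <;> first | omega | simp
  have e : disc k = 4 * k := if_neg c1
  simp only [e, kr_chi]
  by_cases c2 : k % 4 = 3
  · have ho : Odd k.natAbs := Nat.odd_iff.2 (by omega)
    have h := gk_crt (c := 4) ((Nat.coprime_two_left.2 ho).pow_left 2) ho
      (Int.squarefree_natAbs.2 hk) ZMod.χ₄
    have e2 : ∀ n : ℕ, chi k n = ZMod.χ₄ n * J((n : ℤ) | k.natAbs) := fun n => by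
      by_cases hn : Odd n
      · rw [chi_odd k hn, ← Int.natAbs_neg, ← kr_recip (k := -k) (by omega) hn,
          ← jacobiSym.neg _ hn, neg_neg]
      · rw [chi_even k hn, ZMod.χ₄_nat_eq_if_mod_four, if_pos (by rw [Nat.odd_iff] at hn; omega),
          zero_mul]
    rw [show (4 * k).natAbs = 4 * k.natAbs by omega]
    simp only [e2]
    rw [h, gk_four, Nat.cast_ofNat, jacobiSym.at_four ho, ZMod.χ₄_nat_eq_if_mod_four,
      show 4 * k.natAbs = 2 * 2 * k.natAbs by ring, hsq]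
    unfold eg par
    generalize ((√(k.natAbs : ℝ) : ℝ) : ℂ) = y
    split_ifs <;> first
      | omega
      | (push_cast; ring1)
      | (push_cast; linear_combination (-2 * y) * I_sq)
  · obtain ⟨m, rfl⟩ : ∃ m, k = 2 * m := ⟨k / 2, by omega⟩
    have ho : Odd m.natAbs := Nat.odd_iff.2 (by omega)
    have hs := Int.squarefree_natAbs.2 hk.of_mul_right
    have hco : Nat.Coprime 8 m.natAbs := (Nat.coprime_two_left.2 ho).pow_left 3
    have h9 : J((8 : ℕ) | m.natAbs) = ZMod.χ₈ m.natAbs := by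
      have h5 : J(2 | m.natAbs) ^ 2 = 1 := jacobiSym.sq_one (Nat.coprime_two_left.2 ho)
      rw [show ((8 : ℕ) : ℤ) = 2 ^ 2 * 2 by norm_num, jacobiSym.mul_left, jacobiSym.pow_left, h5,
        one_mul, jacobiSym.at_two ho]
    have e3 : ((√((8 * m.natAbs : ℕ) : ℝ) : ℝ) : ℂ) =
        2 * ((√2 : ℝ) : ℂ) * ((√(m.natAbs : ℝ) : ℝ) : ℂ) := by
      rw [show 8 * m.natAbs = 2 * 2 * (2 * m.natAbs) by ring, hsq, Nat.cast_mul 2,
        Real.sqrt_mul (by positivity)]
      push_cast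
      ring
    rw [show (4 * (2 * m)).natAbs = 8 * m.natAbs by omega, e3]
    by_cases c3 : m % 4 = 1
    · have e2 : ∀ n : ℕ, chi (2 * m) n = ZMod.χ₈ n * J((n : ℤ) | m.natAbs) := fun n => by
        by_cases hn : Odd n
        · rw [chi_odd _ hn, jacobiSym.mul_left, jacobiSym.at_two hn, kr_recip c3 hn]
        · rw [chi_even _ hn, ZMod.χ₈_nat_eq_if_mod_eight,
            if_pos (by rw [Nat.odd_iff] at hn; omega), zero_mul]
      simp only [e2]
      rw [gk_crt hco ho hs ZMod.χ₈, gk_eight.1, h9, ZMod.χ₈_nat_eq_if_mod_eight]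
      unfold eg par
      split_ifs <;> first | omega | (push_cast; ring1)
    · have e2 : ∀ n : ℕ, chi (2 * m) n = ZMod.χ₈' n * J((n : ℤ) | m.natAbs) := fun n => by
        by_cases hn : Odd n
        · rw [chi_odd _ hn, show 2 * m = -2 * -m by ring, jacobiSym.mul_left,
            jacobiSym.at_neg_two hn, kr_recip (k := -m) (by omega) hn, Int.natAbs_neg]
        · rw [chi_even _ hn, ZMod.χ₈'_nat_eq_if_mod_eight,
            if_pos (by rw [Nat.odd_iff] at hn; omega), zero_mul]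
      simp only [e2]
      rw [gk_crt hco ho hs ZMod.χ₈', gk_eight.2, h9, ZMod.χ₈_nat_eq_if_mod_eight,
        ZMod.χ₈'_nat_eq_if_mod_eight]
      unfold eg par
      generalize ((√(m.natAbs : ℝ) : ℝ) : ℂ) = y
      split_ifs <;> first
        | omega
        | (push_cast; ring1)
        | (push_cast; linear_combination (-2 * ((√2 : ℝ) : ℂ) * y) * I_sq)

theorem pFE1 (hKR : KR) (hPRI : PRI) : FE1 := by
  classical
  intro k hk h1 s hs0 hs1
  obtain ⟨k1, k2, k3, k4, k5, k6, k7, k8⟩ := hKR k hk h1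
  have hq : NeZero (disc k).natAbs := ⟨by omega⟩
  have h4 := four_ne hk.ne_zero
  obtain ⟨χ, hχ⟩ := exists_char (disc k).natAbs (kron (disc k)) (by simp [kron]) k3 (fe_mod k4) k7
  obtain ⟨ψ, hψ, eψ⟩ := exists_chiO k
  have hprim : χ.IsPrimitive := fe_prim χ fun p hp hd => by
    obtain ⟨n, a, b⟩ := hPRI k hk h1 p hp hd
    exact ⟨n, a, by rw [hχ, b]; norm_num⟩
  have hne : χ ≠ 1 := by
    intro h
    rw [DirichletCharacter.isPrimitive_def, h, DirichletCharacter.conductor_one] at hprim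
    omega
  have hi : χ⁻¹ = χ := by
    refine MulChar.IsQuadratic.inv fun x => ?_
    rw [← ZMod.natCast_zmod_val x, hχ]
    by_cases hc : x.val.Coprime (disc k).natAbs
    · rcases sq_eq_one_iff.1 (k8 _ hc) with h | h <;> simp [h]
    · simp [k7 _ hc]
  have hcl : ψ = DirichletCharacter.changeLevel (fe_dvd k) χ := by
    refine MulChar.ext fun a => ?_
    have hu : Nat.Coprime (a : ZMod (4 * k.natAbs)).val (4 * k.natAbs) :=
      ZMod.val_coe_unit_coprime a
    have ho : Odd (a : ZMod (4 * k.natAbs)).val :=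
      Nat.coprime_two_right.1 (hu.coprime_dvd_right (by omega))
    rw [DirichletCharacter.changeLevel_eq_cast_of_dvd, ZMod.cast_eq_val, hχ, k1 _ ho, jo_eq, ← hψ,
      ZMod.natCast_zmod_val]
  have hL : ∀ s : ℂ, 0 < s.re → Lf k s = χ.LFunction s := by
    intro s hs
    have e : ∏ p ∈ (4 * k.natAbs).primeFactors, (1 - χ p * (p : ℂ) ^ (-s)) =
        1 - (gam k : ℂ) * (2 : ℂ) ^ (-s) := by
      rw [prod_eq_single_of_mem 2 (Nat.mem_primeFactors.2 ⟨Nat.prime_two, by omega, h4.1⟩),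
        hχ, k2, Nat.cast_ofNat]
      intro p hp h2
      have hpp := Nat.prime_of_mem_primeFactors hp
      have hc : Nat.Coprime p 4 := (((Nat.coprime_primes hpp Nat.prime_two).2 h2).pow_right 2 :)
      have hd : p ∣ (disc k).natAbs :=
        (hc.dvd_of_dvd_mul_left (Nat.dvd_of_mem_primeFactors hp)).trans (fe_dvd' k)
      rw [hχ, k7 p (fun h => (hpp.coprime_iff_not_dvd.1 h) hd)]
      simp
    rw [Lf, eψ, hcl, DirichletCharacter.LFunction_changeLevel _ _ (Or.inl hne), e,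
      mul_div_cancel_right₀ _ (fe_ne k hs)]
  have hm : χ (-1) = (-1) ^ par k := by
    have e : (-1 : ZMod (disc k).natAbs) = (((disc k).natAbs - 1 : ℕ) : ZMod _) := by
      rw [Nat.cast_sub k6.le, ZMod.natCast_self, Nat.cast_one, zero_sub]
    rw [e, hχ, k5]
    push_cast
    rfl
  have hg : ∀ s : ℂ, χ.gammaFactor s = Gammaℝ (s + par k) := by
    intro s
    unfold par at hm ⊢
    split_ifs at hm ⊢ with h
    · rw [DirichletCharacter.Even.gammaFactor_def (hm.trans (pow_zero _))]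
      simp
    · rw [DirichletCharacter.Odd.gammaFactor_def (hm.trans (pow_one _))]
      simp
  have hqk : (qk k : ℂ) = ((disc k).natAbs : ℂ) := by
    rw [qk, ← Int.cast_abs, ← Nat.cast_natAbs]
    rfl
  have hLam : ∀ s : ℂ, 0 < s.re →
      Lam k s = ((disc k).natAbs : ℂ) ^ (s / 2) * χ.completedLFunction s := by
    intro s hs
    have h0 : s ≠ 0 := by
      rintro rfl
      simp at hs
    have hG : Gammaℝ (s + par k) ≠ 0 := Gammaℝ_ne_zero_of_re_pos (by
      rw [add_re, natCast_re]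
      positivity)
    rw [Lam, hL s hs, χ.LFunction_eq_completed_div_gammaFactor s (Or.inl h0), hg, hqk, mul_assoc,
      mul_div_cancel₀ _ hG]
  have hqc : ((disc k).natAbs : ℂ) ≠ 0 := by exact_mod_cast hq.1
  have hW : χ.rootNumber = 1 := by
    have g1 := pGSK k hk h1
    have g2 : gaussSum χ ZMod.stdAddChar =
        ft (disc k).natAbs (fun x => (kron (disc k) x.toNat : ℂ)) (-1) := by
      rw [gaussSum, ft]
      refine Eq.trans ?_ (pd_sum_zmod _ fun x => (kron (disc k) x.toNat : ℂ) *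
        cexp (-(2 * π * I * x * ((-1 : ℤ) : ℂ) / (disc k).natAbs))).symm
      refine sum_congr rfl fun a _ => ?_
      have e : a = ((a.val : ℤ) : ZMod (disc k).natAbs) := by simp
      rw [Int.toNat_natCast, ← hχ, ZMod.natCast_zmod_val]
      conv_lhs => rw [e, ZMod.stdAddChar_coe, ← e]
      congr 2
      push_cast
      ring
    have g3 : (if χ.Even then 0 else 1) = par k := by
      unfold par at hm ⊢
      by_cases h : 0 < k
      · rw [if_pos h] at hm ⊢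
        exact if_pos (hm.trans (pow_zero _))
      · rw [if_neg h] at hm ⊢
        exact if_neg (DirichletCharacter.Odd.not_even χ (hm.trans (pow_one _)))
    have g4 : ((√(qk k) : ℝ) : ℂ) = ((disc k).natAbs : ℂ) ^ (1 / 2 : ℂ) := by
      rw [Real.sqrt_eq_rpow, ofReal_cpow (by unfold qk; positivity), hqk]
      norm_num
    rw [DirichletCharacter.rootNumber, g2, g1, g3, g4,
      mul_div_cancel_left₀ _ (pow_ne_zero _ I_ne_zero), div_self (cpow_ne_zero_iff.2 (Or.inl hqc))]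
  have e : ((disc k).natAbs : ℂ) ^ ((1 - s) / 2) * ((disc k).natAbs : ℂ) ^ (s - 1 / 2) =
      ((disc k).natAbs : ℂ) ^ (s / 2) := by
    rw [← cpow_add _ _ hqc]
    congr 1
    ring
  rw [hLam s hs0, hLam (1 - s) (by simpa using hs1), hprim.completedLFunction_one_sub, hi, ← e, hW]
  ring

end Pool.Agent.Q4
end

-- part Pool.Agent.P.MP_ea46f5_nt.Q4.PrC
section

/-! A fourfold integral with the factor `an` is a product of two pairings. -/

namespace Pool.Agent.Q4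

open Complex MeasureTheory Finset
open scoped Real
open Pool.Agent.QM

theorem prc_prod (c : ℝ) (g : Fin 4 → ℂ → ℂ) (hg : ∀ j, Lc c (g j)) :
    IL (cs c) (fun u => ∏ j, g j (u j)) ∧ In (cs c) (fun u => ∏ j, g j (u j)) = ∏ j, Iv c (g j) :=
  ⟨Integrable.fintype_prod (f := fun j (x : ℝ) => g j (c + x * I)) hg,
    integral_fintype_prod_volume_eq_prod fun j (x : ℝ) => g j (c + x * I)⟩

theorem prc_four (c : ℝ) {g0 g1 g2 g3 : ℂ → ℂ} (h0 : Lc c g0) (h1 : Lc c g1) (h2 : Lc c g2)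
    (h3 : Lc c g3) :
    IL (cs c) (fun u => g0 (u 0) * g1 (u 1) * g2 (u 2) * g3 (u 3)) ∧
      In (cs c) (fun u => g0 (u 0) * g1 (u 1) * g2 (u 2) * g3 (u 3)) =
        Iv c g0 * Iv c g1 * Iv c g2 * Iv c g3 := by
  have := prc_prod c ![g0, g1, g2, g3] fun j => by fin_cases j <;> assumption
  simpa only [Fin.prod_univ_four, Matrix.cons_val_zero, Matrix.cons_val_one, Matrix.cons_val]
    using this

theorem prc_sub {c : R4} {G H : V4 → ℂ} (hG : IL c G) (hH : IL c H) :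
    IL c (fun u => G u - H u) ∧ In c (fun u => G u - H u) = In c G - In c H :=
  ⟨Integrable.sub hG hH, integral_sub hG hH⟩

theorem pr4_core (c : ℝ) (f : Fin 4 → ℂ → ℂ) (hf : ∀ j, Lc c (f j))
    (hg : ∀ j, Lc c fun u => u ^ 2 * f j u) :
    IL (cs c) (fun u => an u * ∏ j, f j (u j)) ∧
      In (cs c) (fun u => an u * ∏ j, f j (u j)) = pr c (f 0) (f 1) * pr c (f 2) (f 3) := by
  have a := prc_four c (hg 0) (hf 1) (hg 2) (hf 3)
  have b := prc_four c (hg 0) (hf 1) (hf 2) (hg 3)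
  have d := prc_four c (hf 0) (hg 1) (hg 2) (hf 3)
  have e := prc_four c (hf 0) (hg 1) (hf 2) (hg 3)
  have k : (fun u : V4 => an u * ∏ j, f j (u j)) = fun u =>
      (u 0 ^ 2 * f 0 (u 0) * f 1 (u 1) * (u 2 ^ 2 * f 2 (u 2)) * f 3 (u 3) -
        u 0 ^ 2 * f 0 (u 0) * f 1 (u 1) * f 2 (u 2) * (u 3 ^ 2 * f 3 (u 3))) -
      (f 0 (u 0) * (u 1 ^ 2 * f 1 (u 1)) * (u 2 ^ 2 * f 2 (u 2)) * f 3 (u 3) -
        f 0 (u 0) * (u 1 ^ 2 * f 1 (u 1)) * f 2 (u 2) * (u 3 ^ 2 * f 3 (u 3))) := by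
    funext u
    rw [an, Fin.prod_univ_four]
    ring
  rw [k]
  refine ⟨(prc_sub (prc_sub a.1 b.1).1 (prc_sub d.1 e.1).1).1, ?_⟩
  rw [(prc_sub (prc_sub a.1 b.1).1 (prc_sub d.1 e.1).1).2, (prc_sub a.1 b.1).2,
    (prc_sub d.1 e.1).2, a.2, b.2, d.2, e.2, pr, pr]
  ring

end Pool.Agent.Q4
end
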