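import Pool.Agent.P.MP_ea46f5_nt.QM.S2
import Pool.Agent.P.MP_ea46f5_nt.QM.S1

-- part Pool.Agent.P.MP_ea46f5_nt.QM.FTA1
section

namespace Pool.Agent.QM

open Complex MeasureTheory Finset
open scoped Real ComplexConjugate

/-- The entire factor of `Lo 1`. -/
noncomputable def ta1A (z s : ℂ) : ℂ :=
  (1 - (2 : ℂ) ^ (-(1 + (s - z)))) * riemannZeta₁ (1 + (s - z))

/-- The integrand with the double poles removed. -/
noncomputable def ta1G (w : ℂ → ℂ) (P : Finset ℕ) (R : (ℕ → ℤ) → ℝ) (z s₁ s₂ : ℂ) : ℂ :=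
  w s₁ * wt w s₂ * (ta1A z s₁ ^ 2 * ta1A z s₂ ^ 2 * IZ3 z s₁ s₂ * Hh P R 1 z s₁ s₂)

theorem ta1_br (t : ℝ) : 1 ≤ br t := le_add_of_nonneg_right (abs_nonneg t)

theorem ta1_br0 (t : ℝ) : 0 < br t := one_pos.trans_le (ta1_br t)

theorem ta1_eq (hLOP : LOP) (w : ℂ → ℂ) (P : Finset ℕ) (R : (ℕ → ℤ) → ℝ) {z s₁ s₂ : ℂ}
    (h1 : s₁ ≠ z) (h2 : s₂ ≠ z) :
    w s₁ * wt w s₂ * Zc P R 1 z s₁ s₂ = ta1G w P R z s₁ s₂ / ((s₁ - z) ^ 2 * (s₂ - z) ^ 2) := by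
  have e : ∀ s : ℂ, s ≠ z → Lo 1 (1 + (s - z)) = ta1A z s / (s - z) := fun s hs => by
    rw [hLOP.2.2 _ (fun e => hs (sub_eq_zero.1 (add_eq_left.1 e))), add_sub_cancel_left, ta1A]
  have g1 := sub_ne_zero.2 h1
  have g2 := sub_ne_zero.2 h2
  rw [Zc, e _ h1, e _ h2, ta1G]
  field_simp

theorem ta1A_diff (z : ℂ) : Differentiable ℂ (ta1A z) := by
  have h : Differentiable ℂ fun s : ℂ => 1 + (s - z) := by fun_prop
  exact ((differentiable_const _).sub (h.neg.const_cpow (Or.inl two_ne_zero))).mul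
    (differentiable_riemannZeta₁.comp h)

theorem ta1A_le (hZT : ZT) : ∃ C : ℝ, 0 < C ∧ ∀ z s : ℂ, -(1 / 2) ≤ (s - z).re → (s - z).re ≤ 12 →
    ‖ta1A z s‖ ≤ C * br (s - z).im ^ 2 := by
  obtain ⟨C, hC, h⟩ := hZT.2.2
  refine ⟨2 * C, by positivity, fun z s h1 h2 => ?_⟩
  have e : (1 + (s - z)).re = 1 + (s - z).re := by simp
  have h3 := h (1 + (s - z)) (by rw [e]; linarith) (by rw [e]; linarith)
  rw [show (1 + (s - z)).im = (s - z).im by simp] at h3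
  have h4 : ‖(2 : ℂ) ^ (-(1 + (s - z)))‖ ≤ 1 := by
    rw [show (2 : ℂ) = ((2 : ℝ) : ℂ) by simp, norm_cpow_eq_rpow_re_of_pos two_pos]
    exact Real.rpow_le_one_of_one_le_of_nonpos one_le_two (by rw [neg_re, e]; linarith)
  have h5 : ‖1 - (2 : ℂ) ^ (-(1 + (s - z)))‖ ≤ 2 :=
    (norm_sub_le _ _).trans (by rw [norm_one]; linarith)
  rw [ta1A, norm_mul, mul_assoc]
  exact mul_le_mul h5 h3 (norm_nonneg _) two_pos.le

theorem ta1_iz (hIZ : IZ) (hDEC : DEC) : ∃ C : ℝ, 0 < C ∧ ∀ z s₁ s₂ : ℂ,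
    -(1 / 2) ≤ (s₁ - z).re → -(1 / 2) ≤ (s₂ - z).re →
    ‖IZ3 z s₁ s₂‖ ≤ C * (br (s₁ - z).im ^ 20 * br (s₂ - z).im ^ 20) := by
  obtain ⟨C, hC, h⟩ := hIZ.2.1
  have key : ∀ a b : ℂ, -(1 / 2) ≤ a.re → -(1 / 2) ≤ b.re →
      ‖iz (2 + a + b)‖ ≤ C * (br a.im * br b.im) ^ 2 := fun a b ha hb => by
    refine (h _ (by simp only [add_re, re_ofNat]; linarith)).trans ?_
    rw [show (2 + a + b).im = a.im + b.im by simp]
    exact mul_le_mul_of_nonneg_left (pow_le_pow_left₀ (ta1_br0 _).le (hDEC.1 _ _) 2) hC.le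
  refine ⟨C ^ 10, by positivity, fun z s₁ s₂ h1 h2 => ?_⟩
  have k1 := key _ _ h1 h1
  have k2 := key _ _ h1 h2
  have k3 := key _ _ h2 h2
  rw [add_assoc, ← two_mul] at k1 k3
  have b1 := ta1_br0 (s₁ - z).im
  have b2 := ta1_br0 (s₂ - z).im
  rw [IZ3, norm_mul, norm_mul, norm_pow, norm_pow, norm_pow]
  calc _ ≤ (C * (br (s₁ - z).im * br (s₁ - z).im) ^ 2) ^ 3 *
        (C * (br (s₁ - z).im * br (s₂ - z).im) ^ 2) ^ 4 *
        (C * (br (s₂ - z).im * br (s₂ - z).im) ^ 2) ^ 3 := by gcongr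
    _ = _ := by ring

theorem ta1_w (hDEC : DEC) {w : ℂ → ℂ} {ε N t₀ W : ℝ} (y : ℝ) (hε : 0 < ε) (hN : 1 ≤ N)
    (hW : 0 ≤ W) (h : Far w ε N t₀ W) : ∃ C : ℝ, 0 ≤ C ∧ ∀ s ∈ Strip ε 12,
      ‖w s‖ * br (s.im - y) ^ 24 ≤ C / br s.im ^ 2 := by
  obtain ⟨C, hC, h1⟩ := hDEC.2.1 26
  have b0 := ta1_br0 t₀
  have b1 := ta1_br0 (-y)
  have hN0 : 0 < N := one_pos.trans_le hN
  refine ⟨W * N ^ (12 : ℝ) * br (-y) ^ 24 * (C * br t₀ ^ 26), by positivity, fun s hs => ?_⟩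
  have b2 := ta1_br0 s.im
  have b3 := ta1_br0 (s.im - y)
  have h2 := h.2 s (by linarith [hs.1]) (by linarith [hs.2])
  have h3 : N ^ s.re ≤ N ^ (12 : ℝ) := Real.rpow_le_rpow_of_exponent_le hN hs.2
  have h4 : Real.exp (-|s.im - t₀|) ≤ Real.exp (-|s.im - t₀| / 2) :=
    Real.exp_le_exp.2 (by linarith [abs_nonneg (s.im - t₀)])
  have h5 : br (s.im - y) ≤ br s.im * br (-y) := by rw [sub_eq_add_neg]; exact hDEC.1 _ _
  rw [le_div_iff₀ (by positivity)]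
  calc ‖w s‖ * br (s.im - y) ^ 24 * br s.im ^ 2
      ≤ W * N ^ (12 : ℝ) * Real.exp (-|s.im - t₀| / 2) * (br s.im * br (-y)) ^ 24 *
        br s.im ^ 2 := by
        have h6 : ‖w s‖ ≤ W * N ^ (12 : ℝ) * Real.exp (-|s.im - t₀| / 2) :=
          h2.trans (by gcongr)
        gcongr
    _ = W * N ^ (12 : ℝ) * br (-y) ^ 24 * (Real.exp (-|s.im - t₀| / 2) * br s.im ^ 26) := by ring
    _ ≤ _ := mul_le_mul_of_nonneg_left (h1 _ _) (by positivity)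

theorem ta1_re {ε : ℝ} {z s : ℂ} (hε : 0 < ε) (hz : z.re = 1 / 2 + ε) (hs : s ∈ Strip ε 12) :
    -(1 / 2) ≤ (s - z).re ∧ (s - z).re ≤ 12 ∧ 0 < s.re := by
  have h1 := hs.1
  have h2 := hs.2
  rw [sub_re, hz]
  exact ⟨by linarith, by linarith, by linarith⟩

theorem ta1_UU {ε : ℝ} {z s₁ s₂ : ℂ} (hε : 0 < ε) (hε' : ε ≤ 1 / 100) (hz : z.re = 1 / 2 + ε)
    (h1 : s₁ ∈ Strip ε 12) (h2 : s₂ ∈ Strip ε 12) : UU z s₁ s₂ :=
  ⟨by linarith [(ta1_re hε hz h1).1], by linarith [(ta1_re hε hz h2).1], (ta1_re hε hz h1).2.2,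
    (ta1_re hε hz h2).2.2, by linarith, by linarith⟩

theorem ta1_H (hH1 : H1) (hLEN : LEN) {P : Finset ℕ} {B : ℕ} {R : (ℕ → ℤ) → ℝ} {Y ε : ℝ} {z : ℂ}
    (hP : OP P) (hl : HasLen P B R Y) (hε : 0 < ε) (hε' : ε ≤ 1 / 100) (hz : z.re = 1 / 2 + ε) :
    ∃ M : ℝ, 0 ≤ M ∧ ∀ s₁ ∈ Strip ε 12, ∀ s₂ ∈ Strip ε 12, ‖Hh P R 1 z s₁ s₂‖ ≤ M := by
  obtain ⟨C, B', hC, -, h⟩ := hH1
  obtain ⟨Y', hY⟩ := (hLEN.2.1 P B R Y hl).2 B'
  have hY0 := (hLEN.2.1 P B' R Y' hY).1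
  refine ⟨C * Y' * (1 + 1 / ε) ^ 3 * (1 + 1 / ε) ^ 4 * (1 + 1 / ε) ^ 3 * (1 + 1 / ε) ^ 2 *
    (1 + 1 / ε) ^ 2, by positivity, fun s₁ h1 s₂ h2 => ?_⟩
  refine (h P R Y' 1 z s₁ s₂ hP hY (ta1_UU hε hε' hz h1 h2)).trans ?_
  have a1 : ε ≤ s₁.re := h1.1
  have a2 : ε ≤ s₂.re := h2.1
  have a3 : ε ≤ s₁.re + s₂.re := by linarith
  have a4 : ε ≤ z.re + s₁.re := by linarith
  have a5 : ε ≤ z.re + s₂.re := by linarith
  have c1 := hε.trans_le a1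
  have c2 := hε.trans_le a2
  have c3 := hε.trans_le a3
  have c4 := hε.trans_le a4
  have c5 := hε.trans_le a5
  gcongr

theorem ta1_izd (hIZ : IZ) {E : Type} [NormedAddCommGroup E] [NormedSpace ℂ E] {z : ℂ}
    {f g : E → ℂ} {x : E} (hf : DifferentiableAt ℂ f x) (hg : DifferentiableAt ℂ g x)
    (h1 : -(1 / 2) ≤ (f x - z).re) (h2 : -(1 / 2) ≤ (g x - z).re) :
    DifferentiableAt ℂ (fun u => IZ3 z (f u) (g u)) x := by
  have k1 : DifferentiableAt ℂ (fun u => iz (2 + 2 * (f u - z))) x :=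
    (hIZ.1 _ (by rw [two_mul]; simp only [add_re, re_ofNat]; linarith)).comp x
      (f := fun u => 2 + 2 * (f u - z)) (by fun_prop)
  have k2 : DifferentiableAt ℂ (fun u => iz (2 + (f u - z) + (g u - z))) x :=
    (hIZ.1 _ (by simp only [add_re, re_ofNat]; linarith)).comp x
      (f := fun u => 2 + (f u - z) + (g u - z)) (by fun_prop)
  have k3 : DifferentiableAt ℂ (fun u => iz (2 + 2 * (g u - z))) x :=
    (hIZ.1 _ (by rw [two_mul]; simp only [add_re, re_ofNat]; linarith)).comp x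
      (f := fun u => 2 + 2 * (g u - z)) (by fun_prop)
  exact ((k1.pow 3).mul (k2.pow 4)).mul (k3.pow 3)

theorem ta1_nice (hHA : HA) (hIZ : IZ) {w : ℂ → ℂ} {P : Finset ℕ} (R : (ℕ → ℤ) → ℝ) {ε : ℝ} {z : ℂ}
    (hP : OP P) (hε : 0 < ε) (hε' : ε ≤ 1 / 100) (hz : z.re = 1 / 2 + ε)
    (d1 : DifferentiableOn ℂ w {s | 0 < s.re}) (d2 : DifferentiableOn ℂ (wt w) {s | 0 < s.re}) :
    Nice2 ε 12 (ta1G w P R z) := by
  have ho : IsOpen {s : ℂ | 0 < s.re} := isOpen_lt continuous_const continuous_re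
  have e1 : ∀ s ∈ Strip ε 12, DifferentiableAt ℂ w s := fun s hs =>
    d1.differentiableAt (ho.mem_nhds (ta1_re hε hz hs).2.2)
  have e2 : ∀ s ∈ Strip ε 12, DifferentiableAt ℂ (wt w) s := fun s hs =>
    d2.differentiableAt (ho.mem_nhds (ta1_re hε hz hs).2.2)
  have hs : ∀ s ∈ OStrip ε 12, s ∈ Strip ε 12 := fun s hs => ⟨hs.1.le, hs.2.le⟩
  obtain ⟨k1, k2⟩ := hHA P R 1 hP
  refine ⟨?_, fun s h u hu => ?_, fun s h u hu => ?_⟩
  · have c1 : ContinuousOn (fun x : ℂ × ℂ => Hh P R 1 z x.1 x.2) (Strip ε 12 ×ˢ Strip ε 12) :=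
      k1.comp (f := fun x : ℂ × ℂ => (z, x.1, x.2)) (by fun_prop)
        fun x hx => ta1_UU hε hε' hz hx.1 hx.2
    have c2 : ContinuousOn (fun x : ℂ × ℂ => IZ3 z x.1 x.2) (Strip ε 12 ×ˢ Strip ε 12) :=
      fun x hx => (ta1_izd hIZ differentiableAt_fst differentiableAt_snd (ta1_re hε hz hx.1).1
        (ta1_re hε hz hx.2).1).continuousAt.continuousWithinAt
    have c3 : ContinuousOn (fun x : ℂ × ℂ => w x.1) (Strip ε 12 ×ˢ Strip ε 12) := fun x hx =>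
      ((e1 _ hx.1).continuousAt.comp continuousAt_fst).continuousWithinAt
    have c4 : ContinuousOn (fun x : ℂ × ℂ => wt w x.2) (Strip ε 12 ×ˢ Strip ε 12) := fun x hx =>
      ((e2 _ hx.2).continuousAt.comp continuousAt_snd).continuousWithinAt
    have c5 : Continuous fun x : ℂ × ℂ => ta1A z x.1 ^ 2 * ta1A z x.2 ^ 2 :=
      (((ta1A_diff z).continuous.comp continuous_fst).pow 2).mul
        (((ta1A_diff z).continuous.comp continuous_snd).pow 2)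
    exact (c3.mul c4).mul ((c5.continuousOn.mul c2).mul c1)
  · have hu' := hs u hu
    exact (((e1 u hu').mul_const _).mul (((((ta1A_diff z u).pow 2).mul_const _).mul
      (ta1_izd hIZ differentiableAt_id (differentiableAt_const s) (ta1_re hε hz hu').1
        (ta1_re hε hz h).1)).mul (k2 z u s (ta1_UU hε hε' hz hu' h)).1)).differentiableWithinAt
  · have hu' := hs u hu
    exact (((e2 u hu').const_mul _).mul (((((ta1A_diff z u).pow 2).const_mul _).mul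
      (ta1_izd hIZ (differentiableAt_const s) differentiableAt_id (ta1_re hε hz h).1
        (ta1_re hε hz hu').1)).mul (k2 z s u (ta1_UU hε hε' hz h hu')).2.1)).differentiableWithinAt

theorem pTA1 (hSD2 : SD2) (hE2 : E2) (hHA : HA) (hH1 : H1) (hIZ : IZ) (hLOP : LOP) (hZT : ZT) (hFW : FW) (hDEC : DEC) (hLEN : LEN) : TA1 := by
  intro w P B R Y ε N t₀ W z hP hl hε hε' hN hF hz
  have hF' := hFW.1 w ε N t₀ W hF
  obtain ⟨d1, -, hW⟩ := hFW.2.1 w ε N t₀ W hε (by linarith) hF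
  obtain ⟨d2, -, -⟩ := hFW.2.1 (wt w) ε N (-t₀) W hε (by linarith) hF'
  have hW0 := hW (by linarith)
  obtain ⟨C1, p1, q1⟩ := ta1_w hDEC z.im hε hN hW0 hF
  obtain ⟨C2, p2, q2⟩ := ta1_w hDEC z.im hε hN hW0 hF'
  obtain ⟨C3, p3, q3⟩ := ta1A_le hZT
  obtain ⟨C4, p4, q4⟩ := ta1_iz hIZ hDEC
  obtain ⟨M, p5, q5⟩ := ta1_H hH1 hLEN hP hl hε hε' hz
  have hb : ∀ s₁ ∈ Strip ε 12, ∀ s₂ ∈ Strip ε 12, ‖ta1G w P R z s₁ s₂‖ ≤
      C3 ^ 4 * C4 * M * (C1 * C2) / (br s₁.im ^ 2 * br s₂.im ^ 2) := fun s₁ h1 s₂ h2 => by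
    obtain ⟨a1, a2, -⟩ := ta1_re hε hz h1
    obtain ⟨a3, a4, -⟩ := ta1_re hε hz h2
    have r1 := q3 z s₁ a1 a2
    have r2 := q3 z s₂ a3 a4
    have r3 := q4 z s₁ s₂ a1 a3
    have r4 := q5 s₁ h1 s₂ h2
    have r5 := q1 s₁ h1
    have r6 := q2 s₂ h2
    rw [sub_im] at r1 r2 r3
    rw [sub_im] at r3
    have b1 := ta1_br0 (s₁.im - z.im)
    have b2 := ta1_br0 (s₂.im - z.im)
    have b3 := ta1_br0 s₁.im
    have b4 := ta1_br0 s₂.im
    rw [ta1G, norm_mul, norm_mul, norm_mul, norm_mul, norm_mul, norm_pow, norm_pow]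
    calc _ ≤ ‖w s₁‖ * ‖wt w s₂‖ * ((C3 * br (s₁.im - z.im) ^ 2) ^ 2 *
          (C3 * br (s₂.im - z.im) ^ 2) ^ 2 *
          (C4 * (br (s₁.im - z.im) ^ 20 * br (s₂.im - z.im) ^ 20)) * M) := by gcongr
      _ = C3 ^ 4 * C4 * M * ((‖w s₁‖ * br (s₁.im - z.im) ^ 24) *
          (‖wt w s₂‖ * br (s₂.im - z.im) ^ 24)) := by ring
      _ ≤ C3 ^ 4 * C4 * M * (C1 / br s₁.im ^ 2 * (C2 / br s₂.im ^ 2)) := by gcongr
      _ = _ := by rw [div_mul_div_comm, ← mul_div_assoc]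
  have key := hSD2 ε 12 _ (ε / 2) (ta1G w P R z) z (by linarith) (by linarith) (by linarith)
    (ta1_nice hHA hIZ R hP hε hε' hz d1 d2) hb
  have n1 : ∀ t : ℝ, ((12 : ℝ) : ℂ) + t * I ≠ z := fun t e => by
    have := congrArg re e
    simp only [add_re, ofReal_re, mul_re, I_re, I_im, ofReal_im] at this
    linarith
  have n2 : ∀ t : ℝ, (ε : ℂ) + t * I ≠ z := fun t e => by
    have := congrArg re e
    simp only [add_re, ofReal_re, mul_re, I_re, I_im, ofReal_im] at this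
    linarith
  have n3 : ∀ θ : ℝ, z + ((ε / 2 : ℝ) : ℂ) * cexp (θ * I) ≠ z := fun θ e =>
    mul_ne_zero (ofReal_ne_zero.2 (by linarith : ε / 2 ≠ 0)) (exp_ne_zero _) (add_eq_left.1 e)
  have e0 : Jk w P R 1 z =
      I2 12 fun s₁ s₂ => ta1G w P R z s₁ s₂ / ((s₁ - z) ^ 2 * (s₂ - z) ^ 2) := by
    unfold Jk I2
    refine integral_congr_ae (Filter.Eventually.of_forall fun t => ?_)
    beta_reduce
    rw [hE2 P R 1 z _ _ hP one_ne_zero (by linarith) (by linarith) (by simp) (by simp),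
      ta1_eq hLOP w P R (n1 _) (n1 _)]
  rw [e0, key]
  unfold Jc I2 Iv Oc
  simp only [ta1_eq hLOP w P R (n2 _) (n2 _), ta1_eq hLOP w P R (n2 _) (n3 _),
    ta1_eq hLOP w P R (n3 _) (n2 _), ta1_eq hLOP w P R (n3 _) (n3 _)]

end Pool.Agent.QM
end

-- part Pool.Agent.P.MP_ea46f5_nt.QM.FTA2
section

namespace Pool.Agent.QM

open Complex MeasureTheory Finset
open scoped Real ComplexConjugate

theorem ta2_br1 (t : ℝ) : 1 ≤ br t := by
  unfold br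
  linarith [abs_nonneg t]

theorem ta2_brneg (t : ℝ) : br (-t) = br t := by
  unfold br
  rw [abs_neg]

theorem ta2_lo (hLOP : LOP) (hZT : ZT) : ∃ C : ℝ, 0 < C ∧ ∀ a : ℂ, a ≠ 0 → -(1 / 2) ≤ a.re →
    a.re ≤ 1 → ‖Lo 1 (1 + a)‖ ^ 2 ≤ C * (br a.im ^ 4 / ‖a‖ ^ 2) := by
  obtain ⟨C, hC, h⟩ := hZT.2.2
  refine ⟨(2 * C) ^ 2, by positivity, fun a ha h1 h2 => ?_⟩
  have hre : (1 + a).re = 1 + a.re := by simp
  have him : (1 + a).im = a.im := by simp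
  have h3 := h (1 + a) (by rw [hre]; linarith) (by rw [hre]; linarith)
  rw [him] at h3
  have h4 : ‖(1 : ℂ) - (2 : ℂ) ^ (-(1 + a))‖ ≤ 2 := by
    refine (norm_sub_le _ _).trans ?_
    have e : ‖(2 : ℂ) ^ (-(1 + a))‖ = (2 : ℝ) ^ (-(1 + a)).re := by
      rw [← Complex.norm_cpow_eq_rpow_re_of_pos two_pos]
      norm_num
    have e2 : (2 : ℝ) ^ (-(1 + a)).re ≤ 1 :=
      Real.rpow_le_one_of_one_le_of_nonpos one_le_two (by rw [neg_re, hre]; linarith)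
    rw [norm_one, e]
    linarith
  have h5 : ‖Lo 1 (1 + a)‖ ≤ 2 * C * (br a.im ^ 2 / ‖a‖) := by
    rw [hLOP.2.2 (1 + a) (by simpa using ha), add_sub_cancel_left, norm_div, norm_mul,
      ← mul_div_assoc, mul_assoc]
    gcongr
  calc ‖Lo 1 (1 + a)‖ ^ 2 ≤ (2 * C * (br a.im ^ 2 / ‖a‖)) ^ 2 := by gcongr
    _ = _ := by ring

theorem ta2_iz (hIZ : IZ) (hDEC : DEC) : ∃ C : ℝ, 0 < C ∧ ∀ z s₁ s₂ : ℂ,
    -(1 / 2) ≤ (s₁ - z).re → -(1 / 2) ≤ (s₂ - z).re →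
    ‖IZ3 z s₁ s₂‖ ≤ C * (br (s₁ - z).im ^ 20 * br (s₂ - z).im ^ 20) := by
  obtain ⟨C, hC, h⟩ := hIZ.2.1
  refine ⟨C ^ 10, by positivity, fun z s₁ s₂ h1 h2 => ?_⟩
  have key : ∀ a b : ℂ, -(1 / 2) ≤ a.re → -(1 / 2) ≤ b.re →
      ‖iz (2 + a + b)‖ ≤ C * (br a.im * br b.im) ^ 2 := fun a b ha hb => by
    have hre : (2 + a + b).re = 2 + a.re + b.re := by simp
    have him : (2 + a + b).im = a.im + b.im := by simp
    refine (h _ (by rw [hre]; linarith)).trans ?_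
    have := hDEC.1 a.im b.im
    have := ta2_br1 (a.im + b.im)
    rw [him]
    gcongr
  unfold IZ3
  generalize s₁ - z = a at h1 ⊢
  generalize s₂ - z = b at h2 ⊢
  have e1 := key a a h1 h1
  have e2 := key a b h1 h2
  have e3 := key b b h2 h2
  rw [show 2 + 2 * a = 2 + a + a by ring, show 2 + 2 * b = 2 + b + b by ring, norm_mul, norm_mul,
    norm_pow, norm_pow, norm_pow]
  calc _ ≤ (C * (br a.im * br a.im) ^ 2) ^ 3 * (C * (br a.im * br b.im) ^ 2) ^ 4 *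
        (C * (br b.im * br b.im) ^ 2) ^ 3 := by gcongr
    _ = _ := by ring

theorem ta2_zc (hH1 : H1) (hIZ : IZ) (hLOP : LOP) (hZT : ZT) (hDEC : DEC) (hLEN : LEN) :
    ∃ (C : ℝ) (B : ℕ), 0 < C ∧ 1 ≤ B ∧
    ∀ (P : Finset ℕ) (R : (ℕ → ℤ) → ℝ) (Y : ℝ) (z s₁ s₂ u₁ u₂ : ℂ) (H A₁ A₂ : ℝ), OP P →
      HasLen P B R Y →
      1 / 2 ≤ z.re → z.re ≤ 1 → 0 < s₁.re → 0 < s₂.re → s₁ - z ≠ 0 → s₂ - z ≠ 0 →
      -(1 / 2) ≤ (s₁ - z).re → (s₁ - z).re ≤ 1 → -(1 / 2) ≤ (s₂ - z).re → (s₂ - z).re ≤ 1 →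
      (1 + 1 / s₁.re) ^ 3 * (1 + 1 / (s₁.re + s₂.re)) ^ 4 * (1 + 1 / s₂.re) ^ 3 ≤ H →
      ‖u₁‖ * (br (s₁ - z).im ^ 24 / ‖s₁ - z‖ ^ 2) ≤ A₁ →
      ‖u₂‖ * (br (s₂ - z).im ^ 24 / ‖s₂ - z‖ ^ 2) ≤ A₂ →
      ‖u₁ * u₂ * Zc P R 1 z s₁ s₂‖ ≤ C * Y * H * (A₁ * A₂) := by
  obtain ⟨C1, hC1, h1⟩ := ta2_lo hLOP hZT
  obtain ⟨C2, hC2, h2⟩ := ta2_iz hIZ hDEC
  obtain ⟨C3, B, hC3, hB, h3⟩ := hH1
  refine ⟨C1 * C1 * C2 * (C3 * 81), B, by positivity, hB,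
    fun P R Y z s₁ s₂ u₁ u₂ H A₁ A₂ hP hY z1 z2 p1 p2 n1 n2 a1 a2 b1 b2 hH hA₁ hA₂ => ?_⟩
  have hY0 : 0 ≤ Y := (hLEN.2.1 P B R Y hY).1
  have e1 := h1 _ n1 a1 a2
  have e2 := h1 _ n2 b1 b2
  have e3 := h2 z s₁ s₂ a1 b1
  have e4 := h3 P R Y 1 z s₁ s₂ hP hY
    ⟨by linarith, by linarith, p1, p2, by linarith, by linarith⟩
  have k : ∀ x : ℝ, 0 < x → (1 + 1 / (z.re + x)) ^ 2 ≤ 9 := fun x hx => by
    have h4 : 1 / (z.re + x) ≤ 2 := by
      rw [div_le_iff₀ (by linarith)]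
      linarith
    have h5 : 0 < 1 / (z.re + x) := one_div_pos.2 (by linarith)
    calc _ ≤ (1 + 2 : ℝ) ^ 2 := by gcongr
      _ = 9 := by norm_num
  have hH0 : 0 ≤ H := le_trans (by positivity) hH
  have e5 : ‖Hh P R 1 z s₁ s₂‖ ≤ C3 * 81 * Y * H := by
    refine e4.trans ?_
    calc _ = C3 * Y * ((1 + 1 / s₁.re) ^ 3 * (1 + 1 / (s₁.re + s₂.re)) ^ 4 * (1 + 1 / s₂.re) ^ 3) *
          (1 + 1 / (z.re + s₁.re)) ^ 2 * (1 + 1 / (z.re + s₂.re)) ^ 2 := by ring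
      _ ≤ C3 * Y * H * 9 * 9 := by
          have := k _ p1
          have := k _ p2
          gcongr
      _ = _ := by ring
  have r1 := ta2_br1 (s₁ - z).im
  have r2 := ta2_br1 (s₂ - z).im
  have hA₁0 : 0 ≤ A₁ := le_trans (by positivity) hA₁
  unfold Zc
  simp only [norm_mul, norm_pow]
  calc _ ≤ ‖u₁‖ * ‖u₂‖ * (C1 * (br (s₁ - z).im ^ 4 / ‖s₁ - z‖ ^ 2) *
        (C1 * (br (s₂ - z).im ^ 4 / ‖s₂ - z‖ ^ 2)) *
        (C2 * (br (s₁ - z).im ^ 20 * br (s₂ - z).im ^ 20)) * (C3 * 81 * Y * H)) := by gcongr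
    _ = C1 * C1 * C2 * (C3 * 81) * Y * H * ((‖u₁‖ * (br (s₁ - z).im ^ 24 / ‖s₁ - z‖ ^ 2)) *
        (‖u₂‖ * (br (s₂ - z).im ^ 24 / ‖s₂ - z‖ ^ 2))) := by ring
    _ ≤ _ := by gcongr

theorem ta2_line (hDEC : DEC) : ∃ C : ℝ, 0 < C ∧ ∀ (w : ℂ → ℂ) (ε N t₀ W t : ℝ) (z : ℂ), 0 < ε →
    ε ≤ 1 / 100 → 1 ≤ N → 0 ≤ W → Far w ε N t₀ W → z.re = 1 / 2 + ε →
    ‖w (ε + t * I)‖ * (br ((ε + t * I : ℂ) - z).im ^ 24 / ‖(ε + t * I : ℂ) - z‖ ^ 2) ≤
      C * W * N ^ ε * br t₀ ^ 24 * br z.im ^ 24 * Real.exp (-|t - t₀| / 2) := by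
  obtain ⟨C, hC, h⟩ := hDEC.2.1 24
  refine ⟨4 * C, by positivity, fun w ε N t₀ W t z hε hε1 hN hW hF hz => ?_⟩
  have hre : (ε + t * I : ℂ).re = ε := by simp
  have him : (ε + t * I : ℂ).im = t := by simp
  have e1 := hF.2 (ε + t * I) (by rw [hre]; linarith) (by rw [hre]; linarith)
  rw [hre, him] at e1
  have e2 : br ((ε + t * I : ℂ) - z).im ≤ br t * br z.im := by
    rw [sub_im, him, sub_eq_add_neg, ← ta2_brneg z.im]
    exact hDEC.1 _ _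
  have e3 : 1 / 2 ≤ ‖(ε + t * I : ℂ) - z‖ := by
    refine le_trans ?_ (abs_re_le_norm _)
    rw [sub_re, hre, hz, show ε - (1 / 2 + ε) = -(1 / 2) by ring, abs_neg]
    exact le_abs_self _
  have r1 := ta2_br1 ((ε + t * I : ℂ) - z).im
  have r2 := ta2_br1 t
  have r3 := ta2_br1 z.im
  have e4 : Real.exp (-|t - t₀|) = Real.exp (-|t - t₀| / 2) * Real.exp (-|t - t₀| / 2) := by
    rw [← Real.exp_add, add_halves]
  have e5 := h t t₀
  calc _ ≤ W * N ^ ε * Real.exp (-|t - t₀|) * ((br t * br z.im) ^ 24 / (1 / 2) ^ 2) := by gcongr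
    _ = 4 * W * N ^ ε * (Real.exp (-|t - t₀| / 2) * br t ^ 24) * br z.im ^ 24 *
        Real.exp (-|t - t₀| / 2) := by rw [e4]; ring
    _ ≤ 4 * W * N ^ ε * (C * br t₀ ^ 24) * br z.im ^ 24 * Real.exp (-|t - t₀| / 2) := by gcongr
    _ = _ := by ring

theorem ta2_sph {ε : ℝ} {z s : ℂ} (hs : s ∈ Metric.sphere z (ε / 2)) :
    ‖s - z‖ = ε / 2 ∧ |(s - z).re| ≤ ε / 2 ∧ |(s - z).im| ≤ ε / 2 := by
  have e : ‖s - z‖ = ε / 2 := mem_sphere_iff_norm.1 hs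
  exact ⟨e, e ▸ abs_re_le_norm _, e ▸ abs_im_le_norm _⟩

theorem ta2_circ (w : ℂ → ℂ) (ε N t₀ W : ℝ) (z s : ℂ) (hε : 0 < ε) (hε1 : ε ≤ 1 / 100)
    (hN : 1 ≤ N) (hW : 0 ≤ W) (hF : Far w ε N t₀ W) (hz : z.re = 1 / 2 + ε)
    (hs : s ∈ Metric.sphere z (ε / 2)) :
    ‖w s‖ * (br (s - z).im ^ 24 / ‖s - z‖ ^ 2) ≤ 2 ^ 26 * W * N ^ (1 / 2 + 2 * ε) / ε ^ 2 := by
  obtain ⟨e, e1, e2⟩ := ta2_sph hs
  rw [sub_re, hz, abs_le] at e1
  have e3 := hF.2 s (by linarith [e1.1]) (by linarith [e1.2])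
  have e4 : N ^ s.re ≤ N ^ (1 / 2 + 2 * ε) :=
    Real.rpow_le_rpow_of_exponent_le hN (by linarith [e1.2])
  have e5 : Real.exp (-|s.im - t₀|) ≤ 1 := Real.exp_le_one_iff.2 (by simp)
  have e6 : br (s - z).im ≤ 2 := by
    unfold br
    linarith
  have r1 := ta2_br1 (s - z).im
  have e7 : ‖w s‖ ≤ W * N ^ (1 / 2 + 2 * ε) * 1 := e3.trans (by gcongr)
  rw [e]
  calc _ ≤ W * N ^ (1 / 2 + 2 * ε) * 1 * (2 ^ 24 / (ε / 2) ^ 2) := by gcongr
    _ = _ := by field_simp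

theorem ta2_mix (hDEC : DEC) (hPH2 : PH2) (F : ℂ → ℂ → ℂ) (ε K u : ℝ) (z : ℂ) (hε : 0 < ε)
    (hK : 0 ≤ K) (h : ∀ (t : ℝ), ∀ s ∈ Metric.sphere z (ε / 2),
      ‖F (ε + t * I) s‖ ≤ K * Real.exp (-|t - u| / 2)) :
    ‖Iv ε fun s₁ => Oc z (ε / 2) fun s₂ => F s₁ s₂‖ ≤ 16 * ε * K := by
  obtain ⟨i1, i2⟩ := hDEC.2.2.1 u
  unfold Iv
  refine (norm_integral_le_of_norm_le (i1.const_mul (4 * ε * K))
    (Filter.Eventually.of_forall fun t => ?_)).trans ?_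
  · refine (hPH2.2.1 z (ε / 2) _ _ (half_pos hε) (h t)).trans ?_
    have := Real.pi_le_four
    calc _ = π * ε * K * Real.exp (-|t - u| / 2) := by ring
      _ ≤ _ := by gcongr
  · rw [integral_const_mul]
    calc _ ≤ 4 * ε * K * 4 := by gcongr
      _ = _ := by ring

theorem ta2_two (hDEC : DEC) (F : ℂ → ℂ → ℂ) (ε K u v : ℝ) (hK : 0 ≤ K)
    (h : ∀ t₁ t₂ : ℝ, ‖F (ε + t₁ * I) (ε + t₂ * I)‖ ≤
      K * (Real.exp (-|t₁ - u| / 2) * Real.exp (-|t₂ - v| / 2))) : ‖I2 ε F‖ ≤ 16 * K := by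
  obtain ⟨i1, i2⟩ := hDEC.2.2.1 u
  obtain ⟨j1, j2⟩ := hDEC.2.2.1 v
  unfold I2
  rw [Measure.volume_eq_prod]
  refine (norm_integral_le_of_norm_le ((i1.mul_prod j1).const_mul K)
    (Filter.Eventually.of_forall fun t => h t.1 t.2)).trans ?_
  rw [integral_const_mul, integral_prod_mul (fun t : ℝ => Real.exp (-|t - u| / 2))
    (fun t : ℝ => Real.exp (-|t - v| / 2))]
  have j3 : 0 ≤ ∫ t : ℝ, Real.exp (-|t - v| / 2) := integral_nonneg fun t => (Real.exp_pos _).le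
  calc _ ≤ K * (4 * 4) := by gcongr
    _ = _ := by ring

theorem ta2_h {x ε : ℝ} (hε : 0 < ε) (hε1 : ε ≤ 1) (hx : ε ≤ x) : 1 + 1 / x ≤ 2 / ε := by
  have h1 : 1 / x ≤ 1 / ε := one_div_le_one_div_of_le hε hx
  have h2 : 1 ≤ 1 / ε := by rw [le_div_iff₀ hε]; linarith
  calc _ ≤ 1 / ε + 1 / ε := add_le_add h2 h1
    _ = _ := by ring

theorem pTA2 (hTA1 : TA1) (hH1 : H1) (hIZ : IZ) (hLOP : LOP) (hZT : ZT) (hFW : FW) (hDEC : DEC) (hPH2 : PH2) (hLEN : LEN) : TA2 := by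
  obtain ⟨C1, B, hC1, hB, h1⟩ := ta2_zc hH1 hIZ hLOP hZT hDEC hLEN
  obtain ⟨C2, hC2, h2⟩ := ta2_line hDEC
  refine ⟨C1 * (16 * 2 ^ 10 * C2 ^ 2 + 32 * 2 ^ 17 * 2 ^ 26 * C2), B, 48, by positivity, hB,
    fun w P R Y ε N t₀ W z hP hY hε hε1 hN hF hz => ?_⟩
  have hY0 : 0 ≤ Y := (hLEN.2.1 P B R Y hY).1
  have hW : 0 ≤ W := (hFW.2.1 w ε N t₀ W hε (by linarith) hF).2.2 (by linarith)
  have hF' := hFW.1 w ε N t₀ W hF
  have hN0 : 0 < N := by linarith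
  have hre : ∀ t : ℝ, (ε + t * I : ℂ).re = ε := fun t => by simp
  have hre' : ∀ t : ℝ, ((ε + t * I : ℂ) - z).re = -(1 / 2) := fun t => by
    rw [sub_re, hre, hz]; ring
  have hne : ∀ t : ℝ, (ε + t * I : ℂ) - z ≠ 0 := fun t e => by
    have := hre' t
    rw [e, zero_re] at this
    norm_num at this
  have hsp : ∀ s ∈ Metric.sphere z (ε / 2), s - z ≠ 0 ∧ -(1 / 2) ≤ (s - z).re ∧ (s - z).re ≤ 1 ∧
      1 / 2 ≤ s.re := fun s hs => by
    obtain ⟨e, e1, -⟩ := ta2_sph hs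
    rw [abs_le] at e1
    refine ⟨norm_pos_iff.1 (by rw [e]; exact half_pos hε), by linarith [e1.1], by linarith [e1.2], ?_⟩
    have := e1.1
    rw [sub_re, hz] at this
    linarith
  have l1 := fun t => h2 w ε N t₀ W t z hε hε1 hN hW hF hz
  have l2 := fun t => h2 (wt w) ε N (-t₀) W t z hε hε1 hN hW hF' hz
  rw [ta2_brneg] at l2
  have r1 := ta2_br1 t₀
  have r2 := ta2_br1 z.im
  have g1 : 1 + 1 / ε ≤ 2 / ε := ta2_h hε (by linarith) le_rfl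
  have g2 : 1 + 1 / (ε + ε) ≤ 2 / ε := ta2_h hε (by linarith) (by linarith)
  have g3 : ∀ x : ℝ, 1 / 2 ≤ x → 1 + 1 / x ≤ 4 := fun x hx =>
    (ta2_h (ε := 1 / 2) (by norm_num) (by norm_num) hx).trans (by norm_num)
  obtain ⟨A, hA⟩ : ∃ A, A = C2 * W * N ^ ε * br t₀ ^ 24 * br z.im ^ 24 := ⟨_, rfl⟩
  obtain ⟨D, hD⟩ : ∃ D, D = 2 ^ 26 * W * N ^ (1 / 2 + 2 * ε) / ε ^ 2 := ⟨_, rfl⟩
  have hA0 : 0 ≤ A := by rw [hA]; positivity
  have hD0 : 0 ≤ D := by rw [hD]; positivity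
  rw [← hA] at l1 l2
  have t1 := ta2_two hDEC (fun s₁ s₂ => w s₁ * wt w s₂ * Zc P R 1 z s₁ s₂) ε
    (C1 * Y * (2 / ε) ^ 10 * (A * A)) t₀ (-t₀) (by positivity) fun t₁ t₂ => by
      refine (h1 P R Y z _ _ _ _ ((2 / ε) ^ 10) _ _ hP hY (by linarith) (by linarith)
        (by rw [hre]; exact hε) (by rw [hre]; exact hε) (hne t₁) (hne t₂) (hre' t₁).ge
        (by rw [hre']; norm_num) (hre' t₂).ge (by rw [hre']; norm_num) ?_ (l1 t₁) (l2 t₂)).trans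
        (le_of_eq (by ring))
      rw [hre, hre]
      calc _ ≤ (2 / ε) ^ 3 * (2 / ε) ^ 4 * (2 / ε) ^ 3 := by gcongr
        _ = _ := by ring
  have t2 := ta2_mix hDEC hPH2 (fun s₁ s₂ => w s₁ * wt w s₂ * Zc P R 1 z s₁ s₂) ε
    (C1 * Y * ((2 / ε) ^ 3 * 4 ^ 7) * (A * D)) t₀ z hε (by positivity) fun t s hs => by
      obtain ⟨q1, q2, q3, q4⟩ := hsp s hs
      refine (h1 P R Y z _ _ _ _ ((2 / ε) ^ 3 * 4 ^ 7) _ D hP hY (by linarith) (by linarith)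
        (by rw [hre]; exact hε) (by linarith) (hne t) q1 (hre' t).ge
        (by rw [hre']; norm_num) q2 q3 ?_ (l1 t)
        (hD ▸ ta2_circ (wt w) ε N (-t₀) W z s hε hε1 hN hW hF' hz hs)).trans (le_of_eq (by ring))
      rw [hre]
      have := g3 _ q4
      have := g3 (ε + s.re) (by linarith)
      have : 0 < s.re := by linarith
      calc _ ≤ (2 / ε) ^ 3 * 4 ^ 4 * 4 ^ 3 := by gcongr
        _ = _ := by ring
  have t3 := ta2_mix hDEC hPH2 (fun s₂ s₁ => w s₁ * wt w s₂ * Zc P R 1 z s₁ s₂) ε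
    (C1 * Y * ((2 / ε) ^ 3 * 4 ^ 7) * (A * D)) (-t₀) z hε (by positivity) fun t s hs => by
      obtain ⟨q1, q2, q3, q4⟩ := hsp s hs
      refine (h1 P R Y z _ _ _ _ ((2 / ε) ^ 3 * 4 ^ 7) D _ hP hY (by linarith) (by linarith)
        (by linarith) (by rw [hre]; exact hε) q1 (hne t) q2 q3 (hre' t).ge
        (by rw [hre']; norm_num) ?_
        (hD ▸ ta2_circ w ε N t₀ W z s hε hε1 hN hW hF hz hs) (l2 t)).trans (le_of_eq (by ring))
      rw [hre]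
      have := g3 _ q4
      have := g3 (s.re + ε) (by linarith)
      have : 0 < s.re := by linarith
      calc _ ≤ 4 ^ 3 * 4 ^ 4 * (2 / ε) ^ 3 := by gcongr
        _ = _ := by ring
  rw [hTA1 w P B R Y ε N t₀ W z hP hY hε hε1 hN hF hz, add_sub_cancel_right]
  refine (norm_add₃_le.trans (add_le_add (add_le_add t1 t2) t3)).trans ?_
  have n1 : N ^ (2 * ε) = N ^ ε * N ^ ε := by rw [← Real.rpow_add hN0, two_mul]
  have n2 : N ^ (1 / 2 + 3 * ε) = N ^ ε * N ^ (1 / 2 + 2 * ε) := by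
    rw [← Real.rpow_add hN0]; congr 1; ring
  obtain ⟨G, hG⟩ : ∃ G, G = br t₀ ^ 24 * br z.im ^ 24 := ⟨_, rfl⟩
  have hG1 : 1 ≤ G := hG ▸ one_le_mul_of_one_le_of_one_le (one_le_pow₀ r1) (one_le_pow₀ r2)
  have hG2 : G ≤ G * G := le_mul_of_one_le_right (by linarith) hG1
  obtain ⟨U, hU⟩ : ∃ U, U = N ^ (2 * ε) / ε ^ 10 := ⟨_, rfl⟩
  obtain ⟨V, hV⟩ : ∃ V, V = N ^ (1 / 2 + 3 * ε) / ε ^ 4 := ⟨_, rfl⟩
  have hU0 : 0 ≤ U := by rw [hU]; positivity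
  have hV0 : 0 ≤ V := by rw [hV]; positivity
  have m1 : 16 * (C1 * Y * (2 / ε) ^ 10 * (A * A)) =
      C1 * Y * W ^ 2 * (16 * 2 ^ 10 * C2 ^ 2 * (G * G) * U) := by
    rw [hA, hG, hU, n1]; ring
  have m2 : 16 * ε * (C1 * Y * ((2 / ε) ^ 3 * 4 ^ 7) * (A * D)) =
      C1 * Y * W ^ 2 * (16 * 2 ^ 17 * 2 ^ 26 * C2 * G * V) := by
    rw [hA, hD, hG, hV, n2]; field_simp; ring
  rw [m1, m2, ← hU, ← hV]
  calc _ = C1 * Y * W ^ 2 * (16 * 2 ^ 10 * C2 ^ 2 * (G * G) * U +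
        32 * 2 ^ 17 * 2 ^ 26 * C2 * G * V) := by ring
    _ ≤ C1 * Y * W ^ 2 * (16 * 2 ^ 10 * C2 ^ 2 * (G * G) * (U + V) +
        32 * 2 ^ 17 * 2 ^ 26 * C2 * (G * G) * (U + V)) := by
      gcongr
      · linarith
      · linarith
    _ = _ := by rw [hG]; ring

end Pool.Agent.QM
end

-- part Pool.Agent.P.MP_ea46f5_nt.QM.FTC1
section

namespace Pool.Agent.QM

open Complex MeasureTheory Finset
open scoped Real ComplexConjugate

theorem tc1_gamma {z : ℂ} (hz : 0 < z.re) : DifferentiableAt ℂ Gammaℝ z := by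
  have h1 : DifferentiableAt ℂ (fun s : ℂ => ((Gammaℝ s)⁻¹)⁻¹) z :=
    (differentiable_Gammaℝ_inv z).inv (inv_ne_zero (Gammaℝ_ne_zero_of_re_pos hz))
  simpa only [inv_inv] using h1

/-- The numerator. -/
noncomputable def tc1_f (X : ℝ) (Φ : ℂ → ℂ) (z : ℂ) : ℂ :=
  Gammaℝ z * riemannZeta₁ (2 * z) / 4 * (X : ℂ) ^ (-z) * Φ z

theorem tc1_eq (X : ℝ) (Φ : ℂ → ℂ) {z : ℂ} (hz : z.re ≠ 1 / 2) :
    Kz 1 X z * Φ z = tc1_f X Φ z / (z - 1 / 2) := by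
  have h0 : z - 1 / 2 ≠ 0 := by
    intro h
    apply hz
    have := congrArg Complex.re h
    simp at this
    linarith
  have h1 : 2 * z ≠ 1 := by
    intro h
    apply h0
    linear_combination h / 2
  have h2 : 2 * z - 1 ≠ 0 := sub_ne_zero.mpr h1
  have e : z - 1 / 2 = (2 * z - 1) / 2 := by ring
  unfold Kz tc1_f
  rw [riemannZeta_eq_inv_sub_mul h1, e]
  simp only [Int.cast_one, abs_one, one_mul]
  field_simp
  ring

theorem tc1_br (t : ℝ) : 1 ≤ br t := by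
  unfold br
  linarith [abs_nonneg t]

theorem pTC1 (hSH1 : SH1) (hKZ : KZ) (hDEC : DEC) : TC1 := by
  intro Φ X ε M hX hε hε1 hΦ h0 hM
  obtain ⟨C, hC, hK⟩ := hKZ 2
  have hX0 : (0 : ℝ) < X := by linarith
  have hXc : (X : ℂ) ≠ 0 := by exact_mod_cast hX0.ne'
  have hopen : IsOpen (OStrip (ε / 2) 6) :=
    (isOpen_lt continuous_const continuous_re).inter (isOpen_lt continuous_re continuous_const)
  have hd : ∀ z ∈ Strip ε (1 / 2 + ε), DifferentiableAt ℂ (tc1_f X Φ) z := by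
    intro z hz
    have hz1 : z ∈ OStrip (ε / 2) 6 := ⟨by linarith [hz.1], by linarith [hz.2]⟩
    have a1 := tc1_gamma (z := z) (by linarith [hz.1])
    have a2 : DifferentiableAt ℂ (fun z : ℂ => riemannZeta₁ (2 * z)) z :=
      (differentiable_riemannZeta₁ _).comp z (by fun_prop)
    have a3 : DifferentiableAt ℂ (fun z : ℂ => (X : ℂ) ^ (-z)) z :=
      DifferentiableAt.const_cpow (by fun_prop) (Or.inl hXc)
    have a4 := hΦ.differentiableAt (hopen.mem_nhds hz1)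
    exact (((a1.mul a2).div_const 4).mul a3).mul a4
  have hM0 : 0 ≤ M := by
    have := hM (ε : ℂ) ⟨by simp, by simp⟩
    exact (norm_nonneg _).trans this
  set D : ℝ := C / ε ^ 2 / 4 * M with hD
  have hD0 : 0 ≤ D := by positivity
  have hb : ∀ z ∈ Strip ε (1 / 2 + ε), ‖tc1_f X Φ z‖ ≤ D / br z.im ^ 2 := by
    intro z hz
    have hz0 : 0 < z.re := by linarith [hz.1]
    have b1 := (hK z).2.2 hz0 (by linarith [hz.2])
    have hbr := tc1_br z.im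
    have b2 : ‖(X : ℂ) ^ (-z)‖ ≤ 1 := by
      rw [Complex.norm_cpow_eq_rpow_re_of_pos hX0]
      exact Real.rpow_le_one_of_one_le_of_nonpos hX (by simp; linarith)
    have b3 : C / (z.re ^ 2 * br z.im ^ 2) ≤ C / (ε ^ 2 * br z.im ^ 2) := by
      have := hz.1
      gcongr
    unfold tc1_f
    rw [norm_mul, norm_mul, norm_div]
    have e4 : ‖(4 : ℂ)‖ = 4 := by simp
    rw [e4]
    calc ‖Gammaℝ z * riemannZeta₁ (2 * z)‖ / 4 * ‖(X : ℂ) ^ (-z)‖ * ‖Φ z‖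
        ≤ C / (ε ^ 2 * br z.im ^ 2) / 4 * 1 * M := by
          have b4 := b1.trans b3
          have b5 := hM z hz
          gcongr
      _ = D / br z.im ^ 2 := by rw [hD]; field_simp
  have hline : ∀ y : ℝ, (((1 / 2 + ε : ℝ) : ℂ) + y * I) ∈ Strip ε (1 / 2 + ε) := fun y =>
    ⟨by simp, by simp⟩
  have hre : ∀ y : ℝ, (((1 / 2 + ε : ℝ) : ℂ) + y * I).re ≠ 1 / 2 := fun y => by
    simp [hε.ne']
  have hre' : ∀ y : ℝ, ((ε : ℂ) + y * I).re ≠ 1 / 2 := fun y => by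
    simp only [add_re, ofReal_re, mul_re, I_re, mul_zero, ofReal_im, I_im, mul_one, sub_self,
      add_zero]
    linarith
  constructor
  · simp only [fun y : ℝ => tc1_eq X Φ (hre y)]
    have hne : ∀ y : ℝ, ε ≤ ‖(((1 / 2 + ε : ℝ) : ℂ) + y * I) - 1 / 2‖ := by
      intro y
      refine le_trans ?_ (Complex.re_le_norm _)
      simp
    refine Integrable.mono' (hDEC.2.2.2.1.1.const_mul (D / ε)) ?_ (ae_of_all _ fun y => ?_)
    · refine Continuous.aestronglyMeasurable (Continuous.div ?_ (by fun_prop) fun y => ?_)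
      · refine continuous_iff_continuousAt.mpr fun y => ?_
        exact ContinuousAt.comp (f := fun y : ℝ => (((1 / 2 + ε : ℝ) : ℂ) + y * I))
          (hd _ (hline y)).continuousAt (by fun_prop)
      · exact norm_pos_iff.mp (hε.trans_le (hne y))
    · have b1 := hb _ (hline y)
      have e : (((1 / 2 + ε : ℝ) : ℂ) + y * I).im = y := by simp
      rw [e] at b1
      have hbr := tc1_br y
      rw [norm_div]
      calc _ ≤ D / br y ^ 2 / ε := by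
            have := hne y
            gcongr
        _ = D / ε * (1 / br y ^ 2) := by field_simp
  · have key := hSH1 ε (1 / 2 + ε) D (tc1_f X Φ) (1 / 2) (by simp; linarith) (by simp; linarith)
      ⟨fun z hz => (hd z hz).continuousAt.continuousWithinAt,
        fun z hz => (hd z ⟨hz.1.le, hz.2.le⟩).differentiableWithinAt⟩
      (fun s hs => (hb s hs).trans (by
        have hbr := tc1_br s.im
        refine div_le_div_of_nonneg_left hD0 (by linarith) ?_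
        nlinarith))
    have e0 : tc1_f X Φ (1 / 2) = 0 := by unfold tc1_f; rw [h0, mul_zero]
    rw [e0, mul_zero, add_zero] at key
    unfold Iv at key ⊢
    simp only [fun y : ℝ => tc1_eq X Φ (hre y), fun y : ℝ => tc1_eq X Φ (hre' y)]
    exact key

end Pool.Agent.QM
end

-- part Pool.Agent.P.MP_ea46f5_nt.QM.FTC2
section

namespace Pool.Agent.QM

open Complex MeasureTheory Finset
open scoped Real ComplexConjugate

lemma tc2_br_le {a : ℂ} (h : ‖a‖ ≤ 1) : br a.im ≤ 2 := by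
  have := (Complex.abs_im_le_norm a).trans h
  unfold br; linarith

lemma tc2_br_pos (t : ℝ) : 0 < br t := by unfold br; positivity

lemma tc2_re_ge (a : ℂ) : -‖a‖ ≤ a.re := by
  have := Complex.abs_re_le_norm a
  have := neg_abs_le a.re
  linarith

lemma tc2_Lo (hLOP : LOP) {C : ℝ} (hC0 : 0 < C)
    (hC : ∀ s : ℂ, 1 / 4 ≤ s.re → s.re ≤ 30 → ‖riemannZeta₁ s‖ ≤ C * br s.im ^ 2)
    {ε : ℝ} (hε : 0 < ε) (hε1 : ε ≤ 1 / 100) {a : ℂ} (ha : ‖a‖ = ε / 2) :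
    ‖Lo 1 (1 + a)‖ ≤ 16 * C / ε := by
  have ha0 : a ≠ 0 := by
    intro h; rw [h, norm_zero] at ha; linarith
  have hre1 := tc2_re_ge a
  have hre2 := Complex.re_le_norm a
  rw [hLOP.2.2 (1 + a) (by simpa using ha0)]
  have e : (1 + a - 1 : ℂ) = a := by ring
  rw [e, norm_div, norm_mul, ha]
  have h1 : ‖(1 - (2 : ℂ) ^ (-(1 + a)))‖ ≤ 2 := by
    refine (norm_sub_le _ _).trans ?_
    have h2 : ‖(2 : ℂ) ^ (-(1 + a))‖ ≤ 1 := by
      have : ‖((2 : ℝ) : ℂ) ^ (-(1 + a))‖ = (2 : ℝ) ^ (-(1 + a)).re :=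
        Complex.norm_cpow_eq_rpow_re_of_pos (by norm_num) _
      have e2 : ((2 : ℝ) : ℂ) = 2 := by norm_num
      rw [e2] at this
      rw [this]
      apply Real.rpow_le_one_of_one_le_of_nonpos (by norm_num)
      simp only [neg_re, add_re, one_re]; linarith
    rw [norm_one]; linarith
  have h3 : ‖riemannZeta₁ (1 + a)‖ ≤ C * 4 := by
    have := hC (1 + a) (by simp only [add_re, one_re]; linarith)
      (by simp only [add_re, one_re]; linarith)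
    refine this.trans ?_
    have hb : br (1 + a).im ≤ 2 := by
      have : (1 + a).im = a.im := by simp
      rw [this]; exact tc2_br_le (by linarith)
    have hb0 := tc2_br_pos (1 + a).im
    have : br (1 + a).im ^ 2 ≤ 4 := by nlinarith
    exact mul_le_mul_of_nonneg_left this hC0.le
  have h4 : ‖(1 - (2 : ℂ) ^ (-(1 + a)))‖ * ‖riemannZeta₁ (1 + a)‖ ≤ 2 * (C * 4) :=
    mul_le_mul h1 h3 (norm_nonneg _) (by norm_num)
  rw [div_le_div_iff₀ (by positivity) hε]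
  nlinarith

lemma tc2_iz {C : ℝ} (hC0 : 0 < C) (hC : ∀ s : ℂ, 1 ≤ s.re → ‖iz s‖ ≤ C * br s.im ^ 2)
    {b : ℂ} (hb : ‖b‖ ≤ 1) : ‖iz (2 + b)‖ ≤ 4 * C := by
  have hre1 := tc2_re_ge b
  have := hC (2 + b) (by simp only [add_re, re_ofNat]; linarith)
  refine this.trans ?_
  have hb2 : br (2 + b).im ≤ 2 := by
    have : (2 + b).im = b.im := by simp
    rw [this]; exact tc2_br_le hb
  have hb0 := tc2_br_pos (2 + b).im
  have : br (2 + b).im ^ 2 ≤ 4 := by nlinarith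
  nlinarith

lemma tc2_IZ3 {C : ℝ} (hC0 : 0 < C) (hC : ∀ s : ℂ, 1 ≤ s.re → ‖iz s‖ ≤ C * br s.im ^ 2)
    {z s₁ s₂ : ℂ} (h1 : ‖s₁ - z‖ ≤ 1 / 2) (h2 : ‖s₂ - z‖ ≤ 1 / 2) :
    ‖IZ3 z s₁ s₂‖ ≤ (4 * C) ^ 10 := by
  unfold IZ3
  have a1 : ‖iz (2 + 2 * (s₁ - z))‖ ≤ 4 * C :=
    tc2_iz hC0 hC (by rw [norm_mul]; simp only [Complex.norm_ofNat]; linarith)
  have a3 : ‖iz (2 + 2 * (s₂ - z))‖ ≤ 4 * C :=
    tc2_iz hC0 hC (by rw [norm_mul]; simp only [Complex.norm_ofNat]; linarith)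
  have a2 : ‖iz (2 + (s₁ - z) + (s₂ - z))‖ ≤ 4 * C := by
    rw [add_assoc]
    exact tc2_iz hC0 hC ((norm_add_le _ _).trans (by linarith))
  rw [norm_mul, norm_mul, norm_pow, norm_pow, norm_pow]
  have e : (4 * C) ^ 10 = (4 * C) ^ 3 * (4 * C) ^ 4 * (4 * C) ^ 3 := by ring
  rw [e]
  gcongr

lemma tc2_near {w : ℂ → ℂ} {ε lam t₀ W : ℝ} {α C₀ : ℕ} (hW : 0 ≤ W) (hl : 0 ≤ lam)
    (h : Near w ε lam t₀ α C₀ W) {s : ℂ} {t : ℝ} (hs : ‖s - (ε + t * I)‖ ≤ ε / 2) :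
    ‖w s‖ ≤ 2 * W * ‖(ε + t * I : ℂ)‖ ^ α / (1 + lam * |t|) ^ C₀ := by
  refine (h s t hs).trans ?_
  have e1 : Real.exp (-|t - t₀|) ≤ 1 := Real.exp_le_one_iff.2 (by simp)
  have e2 : Real.exp (-|t + t₀|) ≤ 1 := Real.exp_le_one_iff.2 (by simp)
  have hp : 0 ≤ W * ‖(ε + t * I : ℂ)‖ ^ α / (1 + lam * |t|) ^ C₀ := by positivity
  calc W * ‖(ε + t * I : ℂ)‖ ^ α / (1 + lam * |t|) ^ C₀ *
        (Real.exp (-|t - t₀|) + Real.exp (-|t + t₀|))
      ≤ W * ‖(ε + t * I : ℂ)‖ ^ α / (1 + lam * |t|) ^ C₀ * 2 :=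
        mul_le_mul_of_nonneg_left (by linarith) hp
    _ = _ := by ring

lemma tc2_alg {r b : ℝ} (hr : 0 < r) (hb : 1 ≤ b) (hrb : r ≤ b) {α m : ℕ} (hm : m + 2 * α = 6) :
    r ^ α * r ^ α * (b * (1 + 1 / r)) ^ 6 / b ^ 12 ≤ 64 * (1 / r ^ m) := by
  have hb0 : 0 < b := by linarith
  have e6 : r ^ 6 = r ^ m * (r ^ α * r ^ α) := by rw [← hm]; ring
  have h1 : 1 + 1 / r ≤ 2 * b / r := by
    rw [le_div_iff₀ hr]
    have : (1 + 1 / r) * r = r + 1 := by field_simp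
    rw [this]; linarith
  calc r ^ α * r ^ α * (b * (1 + 1 / r)) ^ 6 / b ^ 12
      ≤ r ^ α * r ^ α * (b * (2 * b / r)) ^ 6 / b ^ 12 := by gcongr
    _ = 64 * ((r ^ α * r ^ α) / r ^ 6) := by field_simp; ring
    _ = 64 * (1 / r ^ m) := by rw [e6]; field_simp

theorem pTC2 (hHC : HC) (hPH2 : PH2) (hKZ : KZ) (hIZ : IZ) (hLOP : LOP) (hZT : ZT) (hFW : FW) (hDEC : DEC) : TC2 := by
  obtain ⟨CH, c, hCH, hH⟩ := hHC
  obtain ⟨CK, hCK, hK⟩ := hKZ 12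
  obtain ⟨CI, hCI, hI⟩ := hIZ.2.1
  obtain ⟨CZ, hCZ, hZ⟩ := hZT.2.2
  obtain ⟨CD, hCD, hD⟩ := hDEC.2.2.2.2
  refine ⟨CK * π ^ 2 * 4 * (16 * CZ) ^ 4 * (4 * CI) ^ 10 * CH * 64 * CD, c, by positivity, ?_⟩
  intro w P B R lam T Y ε X t₀ W₀ α C₀ hTw hε hε1 hεl hX hα hc hW hN
  have hN' := hFW.2.2.1 w ε lam t₀ W₀ α C₀ hN
  have hl := hTw.lam0
  have hT := hTw.T0
  obtain ⟨m, hm⟩ : ∃ m : ℕ, m + 2 * α = 6 := ⟨6 - 2 * α, by omega⟩
  obtain ⟨hDi, hDb⟩ := hD ε m hε (by omega) (by omega)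
  set A : ℝ := CK * π ^ 2 * 4 * (16 * CZ) ^ 4 * (4 * CI) ^ 10 * CH * 64 * T * W₀ ^ 2 / ε ^ 3 with hA
  have hA0 : 0 ≤ A := by positivity
  have key : ∀ y : ℝ, ‖Kz 1 X (ε + y * I) * Jc w P R ε (ε + y * I)‖ ≤
      A * (1 / ‖(ε + y * I : ℂ)‖ ^ m) := by
    intro y
    set z : ℂ := ε + y * I with hz
    have hzre : z.re = ε := by simp [hz]
    have hzim : z.im = y := by simp [hz]
    have hr : 0 < ‖z‖ := lt_of_lt_of_le hε (hzre ▸ Complex.re_le_norm z)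
    have hb : 1 ≤ br y := by unfold br; linarith [abs_nonneg y]
    have hrb : ‖z‖ ≤ br y := by
      have := Complex.norm_le_abs_re_add_abs_im z
      rw [hzre, hzim, abs_of_pos hε] at this
      unfold br; linarith
    have hq : 1 ≤ 1 + lam * |y| := by
      have := mul_nonneg hl (abs_nonneg y); linarith
    -- the kernel
    have hKz : ‖Kz 1 X z‖ ≤ CK / (ε * br y ^ 12) := by
      have h1 := (hK z).1 (by rw [hzre]; exact hε) (by rw [hzre]; linarith)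
      rw [hzre, hzim] at h1
      have h2 : ‖(((|((1 : ℤ) : ℝ)| * X : ℝ)) : ℂ) ^ (-z)‖ ≤ 1 := by
        have e : |((1 : ℤ) : ℝ)| * X = X := by simp
        rw [e, Complex.norm_cpow_eq_rpow_re_of_pos (by linarith)]
        apply Real.rpow_le_one_of_one_le_of_nonpos hX
        rw [neg_re, hzre]; linarith
      unfold Kz
      have e : Gammaℝ z / 2 * riemannZeta (2 * z) = (Gammaℝ z * riemannZeta (2 * z)) / 2 := by
        ring
      rw [norm_mul, e, norm_div]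
      simp only [Complex.norm_ofNat]
      have h3 := norm_nonneg (Gammaℝ z * riemannZeta (2 * z))
      have h5 := mul_le_of_le_one_right (a := ‖Gammaℝ z * riemannZeta (2 * z)‖ / 2)
        (by positivity) h2
      linarith
    -- the integrand on the circles
    set M : ℝ := 4 * W₀ ^ 2 * (16 * CZ / ε) ^ 4 * (4 * CI) ^ 10 * CH * T *
      (‖z‖ ^ α * ‖z‖ ^ α * (br y * (1 + 1 / ‖z‖)) ^ 6) with hM
    have hin : ∀ s₁ ∈ Metric.sphere z (ε / 2), ∀ s₂ ∈ Metric.sphere z (ε / 2),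
        ‖w s₁ * wt w s₂ * Zc P R 1 z s₁ s₂‖ ≤ M := by
      intro s₁ h1 s₂ h2
      rw [mem_sphere_iff_norm] at h1 h2
      have w1 := tc2_near hW hl hN (s := s₁) (t := y) h1.le
      have w2 := tc2_near hW hl hN' (s := s₂) (t := y) h2.le
      have l1 := tc2_Lo hLOP hCZ hZ hε hε1 h1
      have l2 := tc2_Lo hLOP hCZ hZ hε hε1 h2
      have i3 := tc2_IZ3 hCI hI (z := z) (s₁ := s₁) (s₂ := s₂) (by linarith) (by linarith)
      have hh := hH P B R lam T Y ε z s₁ s₂ hTw hε hε1 hεl hzre h1.le h2.le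
      rw [hzim] at hh
      rw [← hz] at w1 w2
      have hqc : (1 + lam * |y|) ^ c ≤ (1 + lam * |y|) ^ C₀ := pow_le_pow_right₀ hq hc
      have hq0 : 1 ≤ (1 + lam * |y|) ^ C₀ := one_le_pow₀ hq
      have hh' : ‖Hh P R 1 z s₁ s₂‖ ≤
          CH * T * (1 + lam * |y|) ^ C₀ * (br y * (1 + 1 / ‖z‖)) ^ 6 := by
        refine hh.trans ?_
        gcongr
      have w2' : ‖wt w s₂‖ ≤ 2 * W₀ * ‖z‖ ^ α := w2.trans (div_le_self (by positivity) hq0)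
      unfold Zc
      simp only [norm_mul, norm_pow]
      calc ‖w s₁‖ * ‖wt w s₂‖ * (‖Lo 1 (1 + (s₁ - z))‖ ^ 2 * ‖Lo 1 (1 + (s₂ - z))‖ ^ 2 *
            ‖IZ3 z s₁ s₂‖ * ‖Hh P R 1 z s₁ s₂‖)
          ≤ (2 * W₀ * ‖z‖ ^ α / (1 + lam * |y|) ^ C₀) * (2 * W₀ * ‖z‖ ^ α) *
            ((16 * CZ / ε) ^ 2 * (16 * CZ / ε) ^ 2 * (4 * CI) ^ 10 *
              (CH * T * (1 + lam * |y|) ^ C₀ * (br y * (1 + 1 / ‖z‖)) ^ 6)) := by gcongr
        _ = M := by rw [hM]; field_simp; ring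
    have hJ : ‖Jc w P R ε z‖ ≤ 2 * π * (ε / 2) * (2 * π * (ε / 2) * M) := by
      unfold Jc
      refine hPH2.2.1 z (ε / 2) _ _ (by positivity) fun s₁ h1 => ?_
      exact hPH2.2.1 z (ε / 2) _ _ (by positivity) fun s₂ h2 => hin s₁ h1 s₂ h2
    have halg := tc2_alg hr hb hrb hm
    rw [norm_mul]
    calc ‖Kz 1 X z‖ * ‖Jc w P R ε z‖
        ≤ CK / (ε * br y ^ 12) * (2 * π * (ε / 2) * (2 * π * (ε / 2) * M)) :=
          mul_le_mul hKz hJ (norm_nonneg _) (by positivity)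
      _ = A / 64 * (‖z‖ ^ α * ‖z‖ ^ α * (br y * (1 + 1 / ‖z‖)) ^ 6 / br y ^ 12) := by
          rw [hM, hA]; field_simp
      _ ≤ A / 64 * (64 * (1 / ‖z‖ ^ m)) := mul_le_mul_of_nonneg_left halg (by positivity)
      _ = A * (1 / ‖z‖ ^ m) := by ring
  unfold Iv
  refine (norm_integral_le_of_norm_le (hDi.const_mul A) (Filter.Eventually.of_forall key)).trans ?_
  rw [integral_const_mul]
  have e6 : ε ^ 6 = ε ^ m * ε ^ (2 * α) := by rw [← hm]; ring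
  calc A * ∫ t : ℝ, 1 / ‖(ε + t * I : ℂ)‖ ^ m ≤ A * (CD * ε / ε ^ m) :=
        mul_le_mul_of_nonneg_left hDb hA0
    _ = _ := by
        have e8 : ε ^ 8 = ε ^ m * ε ^ (2 * α) * ε ^ 2 := by rw [← e6]; ring
        rw [e8, hA]; field_simp

end Pool.Agent.QM
end

-- part Pool.Agent.P.MP_ea46f5_nt.QM.FTK1
section

namespace Pool.Agent.QM

open Complex MeasureTheory Finset
open scoped Real ComplexConjugate

theorem tk1_br1 (t : ℝ) : 1 ≤ br t := by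
  unfold br; linarith [abs_nonneg t]

theorem tk1_br0 (t : ℝ) : 0 < br t := lt_of_lt_of_le one_pos (tk1_br1 t)

theorem tk1_brneg (t : ℝ) : br (-t) = br t := by
  unfold br; rw [abs_neg]

theorem tk1_brsub (hb : ∀ t u : ℝ, br (t + u) ≤ br t * br u) (t y : ℝ) :
    br (t - y) ≤ br t * br y := by
  have := hb t (-y)
  rwa [tk1_brneg, ← sub_eq_add_neg] at this

theorem tk1_Y0 {P : Finset ℕ} {B : ℕ} {R : (ℕ → ℤ) → ℝ} {Y : ℝ} (h : HasLen P B R Y) : 0 ≤ Y := by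
  obtain ⟨ι, _, l, r, -, -, h3⟩ := h
  exact le_trans (Finset.sum_nonneg fun i _ => by positivity) h3

theorem tk1_inv {x : ℝ} (hx : 1 / 4 ≤ x) : 0 ≤ 1 + 1 / x ∧ 1 + 1 / x ≤ 5 := by
  have h0 : 0 < x := by linarith
  refine ⟨by positivity, ?_⟩
  have : 1 / x ≤ 4 := by rw [div_le_iff₀ h0]; linarith
  linarith

theorem tk1_iz3 {C : ℝ} (hC : 0 < C) (hiz : ∀ s : ℂ, 1 ≤ s.re → ‖iz s‖ ≤ C * br s.im ^ 2)
    (hb : ∀ t u : ℝ, br (t + u) ≤ br t * br u) (z s₁ s₂ : ℂ)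
    (h₁ : z.re - 1 / 2 ≤ s₁.re) (h₂ : z.re - 1 / 2 ≤ s₂.re) :
    ‖IZ3 z s₁ s₂‖ ≤ C ^ 10 * br (s₁.im - z.im) ^ 20 * br (s₂.im - z.im) ^ 20 := by
  have key : ∀ (u : ℂ) (x y : ℝ), 1 ≤ u.re → u.im = x + y → ‖iz u‖ ≤ C * (br x * br y) ^ 2 := by
    intro u x y hu he
    refine (hiz u hu).trans ?_
    rw [he]
    exact mul_le_mul_of_nonneg_left (pow_le_pow_left₀ (tk1_br0 _).le (hb x y) 2) hC.le
  have a1 := key (2 + 2 * (s₁ - z)) (s₁.im - z.im) (s₁.im - z.im) (by simp; linarith)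
    (by simp; ring)
  have a2 := key (2 + (s₁ - z) + (s₂ - z)) (s₁.im - z.im) (s₂.im - z.im) (by simp; linarith)
    (by simp)
  have a3 := key (2 + 2 * (s₂ - z)) (s₂.im - z.im) (s₂.im - z.im) (by simp; linarith)
    (by simp; ring)
  unfold IZ3
  rw [norm_mul, norm_mul, norm_pow, norm_pow, norm_pow]
  generalize br (s₁.im - z.im) = p at *
  generalize br (s₂.im - z.im) = q at *
  calc _ ≤ (C * (p * p) ^ 2) ^ 3 * (C * (p * q) ^ 2) ^ 4 * (C * (q * q) ^ 2) ^ 3 := by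
        gcongr
    _ = _ := by ring

theorem tk1_uu {z s₁ s₂ : ℂ} (hz : 3 / 4 ≤ z.re) (hz' : z.re ≤ 6)
    (h₁ : z.re - 1 / 2 ≤ s₁.re) (h₂ : z.re - 1 / 2 ≤ s₂.re) : UU z s₁ s₂ := by
  refine ⟨?_, ?_, ?_, ?_, ?_, ?_⟩ <;> (try simp only [Complex.sub_re]) <;> linarith

theorem tk1_nice (hHA : HA) (hIZ : IZ) (w v : ℂ → ℂ) (P : Finset ℕ) (R : (ℕ → ℤ) → ℝ) (k : ℤ)
    (z : ℂ) (hP : OP P) (hw : DifferentiableOn ℂ w {s | 0 < s.re})
    (hv : DifferentiableOn ℂ v {s | 0 < s.re}) (hL : Differentiable ℂ (Lo k))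
    (hz : 3 / 4 ≤ z.re) (hz' : z.re ≤ 6) :
    Nice2 (z.re - 1 / 2) 12 fun s₁ s₂ => w s₁ * v s₂ * Zc P R k z s₁ s₂ := by
  have hop : IsOpen {s : ℂ | 0 < s.re} := isOpen_lt continuous_const Complex.continuous_re
  have dw : ∀ s : ℂ, z.re - 1 / 2 ≤ s.re → DifferentiableAt ℂ w s := fun s hs =>
    hw.differentiableAt (hop.mem_nhds (by show 0 < s.re; linarith))
  have dv : ∀ s : ℂ, z.re - 1 / 2 ≤ s.re → DifferentiableAt ℂ v s := fun s hs =>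
    hv.differentiableAt (hop.mem_nhds (by show 0 < s.re; linarith))
  have r1 : ∀ s : ℂ, z.re - 1 / 2 ≤ s.re → 1 ≤ (2 + 2 * (s - z)).re := fun s hs => by
    simp; linarith
  have r2 : ∀ s u : ℂ, z.re - 1 / 2 ≤ s.re → z.re - 1 / 2 ≤ u.re →
      1 ≤ (2 + (s - z) + (u - z)).re := fun s u hs hu => by simp; linarith
  obtain ⟨hc, hd⟩ := hHA P R k hP
  unfold Nice2 Zc IZ3
  refine ⟨?_, ?_, ?_⟩
  · have cH : ContinuousOn (fun x : ℂ × ℂ => Hh P R k z x.1 x.2)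
        (Strip (z.re - 1 / 2) 12 ×ˢ Strip (z.re - 1 / 2) 12) := by
      have hm : Continuous fun x : ℂ × ℂ => ((z, x.1, x.2) : ℂ × ℂ × ℂ) := by fun_prop
      have := ContinuousOn.comp (g := fun x : ℂ × ℂ × ℂ => Hh P R k x.1 x.2.1 x.2.2)
        (f := fun x : ℂ × ℂ => ((z, x.1, x.2) : ℂ × ℂ × ℂ))
        (s := Strip (z.re - 1 / 2) 12 ×ˢ Strip (z.re - 1 / 2) 12) hc hm.continuousOn
        fun x hx => tk1_uu hz hz' hx.1.1 hx.2.1
      simpa only [Function.comp_def] using this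
    intro x hx
    have c1 : ContinuousAt (fun x : ℂ × ℂ => w x.1) x :=
      (dw x.1 hx.1.1).continuousAt.comp continuousAt_fst
    have c2 : ContinuousAt (fun x : ℂ × ℂ => v x.2) x :=
      (dv x.2 hx.2.1).continuousAt.comp continuousAt_snd
    have c3 : ContinuousAt (fun x : ℂ × ℂ => Lo k (1 + (x.1 - z))) x :=
      (hL.continuous.comp (by fun_prop)).continuousAt
    have c4 : ContinuousAt (fun x : ℂ × ℂ => Lo k (1 + (x.2 - z))) x :=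
      (hL.continuous.comp (by fun_prop)).continuousAt
    have c5 : ContinuousAt (fun x : ℂ × ℂ => iz (2 + 2 * (x.1 - z))) x :=
      ContinuousAt.comp (f := fun x : ℂ × ℂ => 2 + 2 * (x.1 - z))
        (hIZ.1 _ (r1 _ hx.1.1)).continuousAt (by fun_prop)
    have c6 : ContinuousAt (fun x : ℂ × ℂ => iz (2 + (x.1 - z) + (x.2 - z))) x :=
      ContinuousAt.comp (f := fun x : ℂ × ℂ => 2 + (x.1 - z) + (x.2 - z))
        (hIZ.1 _ (r2 _ _ hx.1.1 hx.2.1)).continuousAt (by fun_prop)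
    have c7 : ContinuousAt (fun x : ℂ × ℂ => iz (2 + 2 * (x.2 - z))) x :=
      ContinuousAt.comp (f := fun x : ℂ × ℂ => 2 + 2 * (x.2 - z))
        (hIZ.1 _ (r1 _ hx.2.1)).continuousAt (by fun_prop)
    exact (c1.mul c2).continuousWithinAt.mul
      ((((c3.pow 2).mul (c4.pow 2)).mul
        (((c5.pow 3).mul (c6.pow 4)).mul (c7.pow 3))).continuousWithinAt.mul (cH x hx))
  · intro s hs u hu
    have hu' : z.re - 1 / 2 ≤ u.re := hu.1.le
    have c3 : DifferentiableAt ℂ (fun u : ℂ => Lo k (1 + (u - z))) u :=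
      DifferentiableAt.comp (f := fun u : ℂ => 1 + (u - z)) u (hL _) (by fun_prop)
    have c5 : DifferentiableAt ℂ (fun u : ℂ => iz (2 + 2 * (u - z))) u :=
      DifferentiableAt.comp (f := fun u : ℂ => 2 + 2 * (u - z)) u (hIZ.1 _ (r1 _ hu'))
        (by fun_prop)
    have c6 : DifferentiableAt ℂ (fun u : ℂ => iz (2 + (u - z) + (s - z))) u :=
      DifferentiableAt.comp (f := fun u : ℂ => 2 + (u - z) + (s - z)) u
        (hIZ.1 _ (r2 _ _ hu' hs.1)) (by fun_prop)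
    exact (((dw u hu').mul_const _).mul (((((c3.pow 2).mul_const _).mul
      (((c5.pow 3).mul (c6.pow 4)).mul_const _))).mul
        (hd z u s (tk1_uu hz hz' hu' hs.1)).1)).differentiableWithinAt
  · intro s hs u hu
    have hu' : z.re - 1 / 2 ≤ u.re := hu.1.le
    have c3 : DifferentiableAt ℂ (fun u : ℂ => Lo k (1 + (u - z))) u :=
      DifferentiableAt.comp (f := fun u : ℂ => 1 + (u - z)) u (hL _) (by fun_prop)
    have c5 : DifferentiableAt ℂ (fun u : ℂ => iz (2 + 2 * (u - z))) u :=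
      DifferentiableAt.comp (f := fun u : ℂ => 2 + 2 * (u - z)) u (hIZ.1 _ (r1 _ hu'))
        (by fun_prop)
    have c6 : DifferentiableAt ℂ (fun u : ℂ => iz (2 + (s - z) + (u - z))) u :=
      DifferentiableAt.comp (f := fun u : ℂ => 2 + (s - z) + (u - z)) u
        (hIZ.1 _ (r2 _ _ hs.1 hu')) (by fun_prop)
    exact (((dv u hu').const_mul _).mul (((((c3.pow 2).const_mul _).mul
      (((c6.pow 4).const_mul _).mul (c5.pow 3)))).mul
        (hd z s u (tk1_uu hz hz' hs.1 hu')).2.1)).differentiableWithinAt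

/-- One factor of the majorant. -/
noncomputable def tk1_f (k : ℤ) (z : ℂ) (N u : ℝ) (s : ℂ) : ℝ :=
  N ^ s.re * Real.exp (-|s.im - u|) * br (s.im - z.im) ^ 20 * ‖Lo k (1 + (s - z))‖ ^ 2

theorem tk1_G {w v : ℂ → ℂ} {P : Finset ℕ} {R : (ℕ → ℤ) → ℝ} {k : ℤ} {z s₁ s₂ : ℂ}
    {W N u₁ u₂ Ci H : ℝ} (hW : 0 ≤ W) (hN : 0 < N) (hCi : 0 < Ci)
    (hw : ‖w s₁‖ ≤ W * N ^ s₁.re * Real.exp (-|s₁.im - u₁|))
    (hv : ‖v s₂‖ ≤ W * N ^ s₂.re * Real.exp (-|s₂.im - u₂|))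
    (hi : ‖IZ3 z s₁ s₂‖ ≤ Ci ^ 10 * br (s₁.im - z.im) ^ 20 * br (s₂.im - z.im) ^ 20)
    (hH : ‖Hh P R k z s₁ s₂‖ ≤ H) :
    ‖w s₁ * v s₂ * Zc P R k z s₁ s₂‖ ≤
      W ^ 2 * Ci ^ 10 * H * (tk1_f k z N u₁ s₁ * tk1_f k z N u₂ s₂) := by
  unfold Zc tk1_f
  simp only [norm_mul, norm_pow]
  have b1 := tk1_br0 (s₁.im - z.im)
  have b2 := tk1_br0 (s₂.im - z.im)
  calc _ ≤ (W * N ^ s₁.re * Real.exp (-|s₁.im - u₁|)) * (W * N ^ s₂.re * Real.exp (-|s₂.im - u₂|)) *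
        (‖Lo k (1 + (s₁ - z))‖ ^ 2 * ‖Lo k (1 + (s₂ - z))‖ ^ 2 *
          (Ci ^ 10 * br (s₁.im - z.im) ^ 20 * br (s₂.im - z.im) ^ 20) * H) := by
        gcongr
    _ = _ := by ring

theorem tk1_exp (x : ℝ) : Real.exp (-|x|) = Real.exp (-|x| / 2) * Real.exp (-|x| / 2) := by
  rw [← Real.exp_add]; congr 1; ring

theorem tk1_exp1 (x : ℝ) : Real.exp (-|x| / 2) ≤ 1 :=
  Real.exp_le_one_iff.2 (by linarith [abs_nonneg x])

theorem tk1_lo (hLOB : LOB) {k : ℤ} (hk : Squarefree k) (hk1 : k ≠ 1) {s : ℂ}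
    (h1 : 1 / 2 ≤ s.re) (h2 : s.re ≤ 13) : ‖Lo k s‖ ≤ 104 * |(k : ℝ)| * br s.im := by
  refine (hLOB k s hk hk1 (by linarith)).trans ?_
  rw [div_le_iff₀ (by linarith)]
  have hn : ‖s‖ ≤ 13 * br s.im := by
    have := Complex.norm_le_abs_re_add_abs_im s
    rw [abs_of_nonneg (by linarith : 0 ≤ s.re)] at this
    unfold br; linarith [abs_nonneg s.im]
  have hk0 : 0 ≤ |(k : ℝ)| := abs_nonneg _
  have hb := tk1_br0 s.im
  calc 4 * |(k : ℝ)| * ‖s‖ ≤ 4 * |(k : ℝ)| * (13 * br s.im) := by gcongr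
    _ = 104 * |(k : ℝ)| * br s.im * (1 / 2) := by ring
    _ ≤ _ := by gcongr

/-- Decay of one factor in the strip. -/
theorem tk1_dec (hLOB : LOB) (hDEC : DEC) {k : ℤ} (hk : Squarefree k) (hk1 : k ≠ 1) (z : ℂ)
    (N u : ℝ) (hN : 1 ≤ N) (hz : 3 / 4 ≤ z.re) :
    ∃ M : ℝ, 0 ≤ M ∧ ∀ s ∈ Strip (z.re - 1 / 2) 12, tk1_f k z N u s ≤ M / br s.im ^ 2 := by
  obtain ⟨C, hC, h24⟩ := hDEC.2.1 24
  have hby := tk1_br0 z.im
  have hbu := tk1_br0 u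
  refine ⟨N ^ (12 : ℝ) * (104 * |(k : ℝ)|) ^ 2 * br z.im ^ 22 * (C * br u ^ 24), by positivity,
    fun s hs => ?_⟩
  have hb := tk1_br0 s.im
  rw [le_div_iff₀ (by positivity)]
  have h1 : N ^ s.re ≤ N ^ (12 : ℝ) := Real.rpow_le_rpow_of_exponent_le hN hs.2
  have h2 : Real.exp (-|s.im - u|) ≤ Real.exp (-|s.im - u| / 2) :=
    Real.exp_le_exp.2 (by linarith [abs_nonneg (s.im - u)])
  have h3 := tk1_brsub hDEC.1 s.im z.im
  have h4 : ‖Lo k (1 + (s - z))‖ ≤ 104 * |(k : ℝ)| * (br s.im * br z.im) := by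
    have := tk1_lo hLOB hk hk1 (s := 1 + (s - z)) (by have := hs.1; simp; linarith)
      (by have := hs.2; simp; linarith)
    refine this.trans ?_
    have e : (1 + (s - z)).im = s.im - z.im := by simp
    rw [e]; gcongr
  have hb' := tk1_br0 (s.im - z.im)
  unfold tk1_f
  calc _ ≤ N ^ (12 : ℝ) * Real.exp (-|s.im - u| / 2) * (br s.im * br z.im) ^ 20 *
        (104 * |(k : ℝ)| * (br s.im * br z.im)) ^ 2 * br s.im ^ 2 := by gcongr
    _ = N ^ (12 : ℝ) * (104 * |(k : ℝ)|) ^ 2 * br z.im ^ 22 *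
        (Real.exp (-|s.im - u| / 2) * br s.im ^ 24) := by ring
    _ ≤ _ := mul_le_mul_of_nonneg_left (h24 _ _) (by positivity)

/-- The integrand of `Lw` is integrable. -/
theorem tk1_int (hLOB : LOB) (hDEC : DEC) {k : ℤ} (hk : Squarefree k) (hk1 : k ≠ 1)
    (hL : Differentiable ℂ (Lo k)) (u : ℝ) :
    Integrable fun τ : ℝ => Real.exp (-|τ - u| / 2) * ‖Lo k (1 / 2 + τ * I)‖ ^ 4 := by
  obtain ⟨C, hC, h6⟩ := hDEC.2.1 6
  have hc : Continuous fun τ : ℝ => Real.exp (-|τ - u| / 2) * ‖Lo k (1 / 2 + τ * I)‖ ^ 4 := by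
    have : Continuous fun τ : ℝ => Lo k (1 / 2 + τ * I) := hL.continuous.comp (by fun_prop)
    fun_prop
  refine (hDEC.2.2.2.1.1.const_mul ((104 * |(k : ℝ)|) ^ 4 * (C * br u ^ 6))).mono'
    hc.aestronglyMeasurable (Filter.Eventually.of_forall fun τ => ?_)
  rw [Real.norm_of_nonneg (by positivity)]
  have hb := tk1_br0 τ
  have h4 : ‖Lo k (1 / 2 + τ * I)‖ ≤ 104 * |(k : ℝ)| * br τ := by
    have := tk1_lo hLOB hk hk1 (s := 1 / 2 + τ * I) (by simp) (by simp; norm_num)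
    simpa using this
  rw [mul_one_div, le_div_iff₀ (by positivity)]
  calc _ ≤ Real.exp (-|τ - u| / 2) * (104 * |(k : ℝ)| * br τ) ^ 4 * br τ ^ 2 := by gcongr
    _ = (104 * |(k : ℝ)|) ^ 4 * (Real.exp (-|τ - u| / 2) * br τ ^ 6) := by ring
    _ ≤ _ := mul_le_mul_of_nonneg_left (h6 _ _) (by positivity)

/-- One factor on the left line. -/
theorem tk1_line (hb : ∀ t u : ℝ, br (t + u) ≤ br t * br u) {C : ℝ}
    (h20 : ∀ t u : ℝ, Real.exp (-|t - u| / 2) * br t ^ 20 ≤ C * br u ^ 20) (k : ℤ) (z : ℂ)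
    (N u t : ℝ) (hN : 0 < N) :
    tk1_f k z N u (((z.re - 1 / 2 : ℝ) : ℂ) + t * I) ≤
      N ^ (z.re - 1 / 2) * (C * br u ^ 20 * br z.im ^ 20) *
        (Real.exp (-|t - u| / 2) * ‖Lo k (1 / 2 + ((t - z.im : ℝ) : ℂ) * I)‖ ^ 2) := by
  have e1 : (((z.re - 1 / 2 : ℝ) : ℂ) + t * I).re = z.re - 1 / 2 := by simp
  have e2 : (((z.re - 1 / 2 : ℝ) : ℂ) + t * I).im = t := by simp
  have e3 : 1 + ((((z.re - 1 / 2 : ℝ) : ℂ) + t * I) - z) = 1 / 2 + ((t - z.im : ℝ) : ℂ) * I := by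
    apply Complex.ext <;> simp <;> ring
  unfold tk1_f
  rw [e1, e2, e3, tk1_exp]
  have h3 := tk1_brsub hb t z.im
  have hb' := tk1_br0 (t - z.im)
  have hby := tk1_br0 z.im
  generalize ‖Lo k (1 / 2 + ((t - z.im : ℝ) : ℂ) * I)‖ = L
  calc _ ≤ N ^ (z.re - 1 / 2) * (Real.exp (-|t - u| / 2) * Real.exp (-|t - u| / 2)) *
        (br t * br z.im) ^ 20 * L ^ 2 := by gcongr
    _ = N ^ (z.re - 1 / 2) * ((Real.exp (-|t - u| / 2) * br t ^ 20) * br z.im ^ 20) *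
        (Real.exp (-|t - u| / 2) * L ^ 2) := by ring
    _ ≤ _ := mul_le_mul_of_nonneg_right (mul_le_mul_of_nonneg_left
        (mul_le_mul_of_nonneg_right (h20 _ _) (by positivity)) (by positivity)) (by positivity)

theorem pTK1 (hSD0 : SD0) (hE2 : E2) (hHA : HA) (hH1 : H1) (hIZ : IZ) (hLOP : LOP) (hLOB : LOB) (hFW : FW) (hDEC : DEC) : TK1 := by
  obtain ⟨CH, B, hCH, hB, hH⟩ := hH1
  obtain ⟨Ci, hCi, hiz⟩ := hIZ.2.1
  obtain ⟨C, hC, h20⟩ := hDEC.2.1 20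
  refine ⟨2 * Ci ^ 10 * (CH * 5 ^ 14) * C ^ 2, B, 40, by positivity, hB, ?_⟩
  intro w P R Y ε N t₀ W k z hP hlen hε hε' hN hfar hk hk1 hz hz'
  have hN0 : 0 < N := by linarith
  have hY := tk1_Y0 hlen
  have hfar' := hFW.1 w ε N t₀ W hfar
  obtain ⟨dw, -, hW⟩ := hFW.2.1 w ε N t₀ W hε (by linarith) hfar
  obtain ⟨dv, -, -⟩ := hFW.2.1 (wt w) ε N (-t₀) W hε (by linarith) hfar'
  have hW0 := hW hN0
  have hL := hLOP.2.1 k hk hk1
  have hG : ∀ s₁ ∈ Strip (z.re - 1 / 2) 12, ∀ s₂ ∈ Strip (z.re - 1 / 2) 12,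
      ‖w s₁ * wt w s₂ * Zc P R k z s₁ s₂‖ ≤ W ^ 2 * Ci ^ 10 * (CH * Y * 5 ^ 14) *
        (tk1_f k z N t₀ s₁ * tk1_f k z N (-t₀) s₂) := by
    intro s₁ h₁ s₂ h₂
    have p1 := h₁.1
    have p2 := h₂.1
    refine tk1_G hW0 hN0 hCi (hfar.2 s₁ (by linarith) (by linarith [h₁.2]))
      (hfar'.2 s₂ (by linarith) (by linarith [h₂.2])) (tk1_iz3 hCi hiz hDEC.1 z s₁ s₂ p1 p2) ?_
    refine (hH P R Y k z s₁ s₂ hP hlen (tk1_uu hz hz' p1 p2)).trans ?_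
    obtain ⟨a1, b1⟩ := tk1_inv (x := s₁.re) (by linarith)
    obtain ⟨a2, b2⟩ := tk1_inv (x := s₁.re + s₂.re) (by linarith)
    obtain ⟨a3, b3⟩ := tk1_inv (x := s₂.re) (by linarith)
    obtain ⟨a4, b4⟩ := tk1_inv (x := z.re + s₁.re) (by linarith)
    obtain ⟨a5, b5⟩ := tk1_inv (x := z.re + s₂.re) (by linarith)
    calc _ ≤ CH * Y * 5 ^ 3 * 5 ^ 4 * 5 ^ 3 * 5 ^ 2 * 5 ^ 2 := by gcongr
      _ = _ := by ring
  have e1 : Jk w P R k z = I2 12 fun s₁ s₂ => w s₁ * wt w s₂ * Zc P R k z s₁ s₂ := by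
    unfold Jk I2
    refine integral_congr_ae (Filter.Eventually.of_forall fun t => ?_)
    simp only
    rw [hE2 P R k z _ _ hP hk.ne_zero (by linarith) hz' (by simp) (by simp)]
  obtain ⟨M₁, hM₁, d₁⟩ := tk1_dec hLOB hDEC hk hk1 z N t₀ hN hz
  obtain ⟨M₂, hM₂, d₂⟩ := tk1_dec hLOB hDEC hk hk1 z N (-t₀) hN hz
  have f0 : ∀ u s, 0 ≤ tk1_f k z N u s := fun u s => by
    unfold tk1_f
    have := tk1_br0 (s.im - z.im)
    positivity
  have e2 := hSD0 (z.re - 1 / 2) 12 (W ^ 2 * Ci ^ 10 * (CH * Y * 5 ^ 14) * (M₁ * M₂)) _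
    (by linarith) (tk1_nice hHA hIZ w (wt w) P R k z hP dw dv hL hz hz') (by
      intro s₁ h₁ s₂ h₂
      refine (hG s₁ h₁ s₂ h₂).trans ?_
      have b1 := tk1_br0 s₁.im
      have b2 := tk1_br0 s₂.im
      calc _ ≤ W ^ 2 * Ci ^ 10 * (CH * Y * 5 ^ 14) * (M₁ / br s₁.im ^ 2 * (M₂ / br s₂.im ^ 2)) := by
            gcongr
            · exact f0 _ _
            · exact d₁ s₁ h₁
            · exact d₂ s₂ h₂
        _ = _ := by field_simp)
  rw [e1, e2]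
  set L : ℝ → ℝ := fun t => ‖Lo k (1 / 2 + ((t - z.im : ℝ) : ℂ) * I)‖ with hLd
  have iL : ∀ u : ℝ, Integrable (fun t : ℝ => Real.exp (-|t - u| / 2) * L t ^ 4) ∧
      ∫ t : ℝ, Real.exp (-|t - u| / 2) * L t ^ 4 = Lw k (u - z.im) := by
    intro u
    have e : (fun t : ℝ => Real.exp (-|t - u| / 2) * L t ^ 4) = fun t : ℝ =>
        (fun τ : ℝ => Real.exp (-|τ - (u - z.im)| / 2) * ‖Lo k (1 / 2 + τ * I)‖ ^ 4)
          (t - z.im) := by
      funext t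
      simp only [hLd, sub_sub_sub_cancel_right]
    rw [e]
    exact ⟨(tk1_int hLOB hDEC hk hk1 hL (u - z.im)).comp_sub_right z.im,
      integral_sub_right_eq_self
        (fun τ : ℝ => Real.exp (-|τ - (u - z.im)| / 2) * ‖Lo k (1 / 2 + τ * I)‖ ^ 4) z.im⟩
  have hbt := tk1_br0 t₀
  have hby := tk1_br0 z.im
  set D : ℝ := N ^ (z.re - 1 / 2) * (C * br t₀ ^ 20 * br z.im ^ 20) with hD
  have hD0 : 0 ≤ D := by positivity
  set K : ℝ := W ^ 2 * Ci ^ 10 * (CH * Y * 5 ^ 14) * D ^ 2 / 2 with hK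
  have hK0 : 0 ≤ K := by positivity
  have i1 := (iL t₀).1.mul_prod (hDEC.2.2.1 (-t₀)).1
  have i2 := (hDEC.2.2.1 t₀).1.mul_prod (iL (-t₀)).1
  have hLw : ∀ u, 0 ≤ Lw k u := fun u => integral_nonneg fun τ => by positivity
  have main : ‖I2 (z.re - 1 / 2) fun s₁ s₂ => w s₁ * wt w s₂ * Zc P R k z s₁ s₂‖ ≤
      K * (4 * (Lw k (t₀ - z.im) + Lw k (-t₀ - z.im))) := by
    unfold I2
    rw [Measure.volume_eq_prod]
    refine (norm_integral_le_of_norm_le ((i1.add i2).const_mul K)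
      (Filter.Eventually.of_forall fun t => ?_)).trans ?_
    · refine (hG _ ⟨by simp, by simp; linarith⟩ _ ⟨by simp, by simp; linarith⟩).trans ?_
      have l1 := tk1_line hDEC.1 h20 k z N t₀ t.1 hN0
      have l2 := tk1_line hDEC.1 h20 k z N (-t₀) t.2 hN0
      rw [tk1_brneg] at l2
      have am : L t.1 ^ 2 * L t.2 ^ 2 ≤ (L t.1 ^ 4 + L t.2 ^ 4) / 2 := by
        nlinarith [sq_nonneg (L t.1 ^ 2 - L t.2 ^ 2)]
      simp only [Pi.add_apply]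
      calc _ ≤ W ^ 2 * Ci ^ 10 * (CH * Y * 5 ^ 14) *
            (D * (Real.exp (-|t.1 - t₀| / 2) * L t.1 ^ 2) *
              (D * (Real.exp (-|t.2 - -t₀| / 2) * L t.2 ^ 2))) := by
            gcongr
            exact f0 _ _
        _ = W ^ 2 * Ci ^ 10 * (CH * Y * 5 ^ 14) * D ^ 2 *
            (Real.exp (-|t.1 - t₀| / 2) * Real.exp (-|t.2 - -t₀| / 2)) *
              (L t.1 ^ 2 * L t.2 ^ 2) := by ring
        _ ≤ W ^ 2 * Ci ^ 10 * (CH * Y * 5 ^ 14) * D ^ 2 *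
            (Real.exp (-|t.1 - t₀| / 2) * Real.exp (-|t.2 - -t₀| / 2)) *
              ((L t.1 ^ 4 + L t.2 ^ 4) / 2) := by gcongr
        _ = _ := by rw [hK]; ring
    · rw [integral_const_mul, integral_add' i1 i2,
        integral_prod_mul (fun t : ℝ => Real.exp (-|t - t₀| / 2) * L t ^ 4)
          (fun t : ℝ => Real.exp (-|t - -t₀| / 2)),
        integral_prod_mul (fun t : ℝ => Real.exp (-|t - t₀| / 2))
          (fun t : ℝ => Real.exp (-|t - -t₀| / 2) * L t ^ 4), (iL t₀).2, (iL (-t₀)).2]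
      refine mul_le_mul_of_nonneg_left ?_ hK0
      have j1 := mul_le_mul_of_nonneg_left (hDEC.2.2.1 (-t₀)).2 (hLw (t₀ - z.im))
      have j2 := mul_le_mul_of_nonneg_right (hDEC.2.2.1 t₀).2 (hLw (-t₀ - z.im))
      linarith
  refine main.trans (le_of_eq ?_)
  have eN : N ^ (2 * z.re - 1) = (N ^ (z.re - 1 / 2)) ^ 2 := by
    rw [sq, ← Real.rpow_add hN0]; congr 1; ring
  rw [hK, hD, eN]; ring

end Pool.Agent.QM
end

-- part Pool.Agent.P.MP_ea46f5_nt.QM.FTK2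
section

namespace Pool.Agent.QM

open Complex MeasureTheory Finset
open scoped Real ComplexConjugate

theorem tk2_br1 (t : ℝ) : 1 ≤ br t := by
  unfold br; linarith [abs_nonneg t]

theorem tk2_br0 (t : ℝ) : 0 < br t := lt_of_lt_of_le one_pos (tk2_br1 t)

theorem tk2_brneg (t : ℝ) : br (-t) = br t := by simp [br]

theorem tk2_M {A : ℕ} {K M : ℝ} (h : Dual A K M) : 0 ≤ M := by
  have := h ∅ (fun k hk => by simp at hk) 0
  simpa [br] using this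

theorem tk2_exp (hDEC : DEC) (A : ℕ) : ∃ C : ℝ, 0 < C ∧ ∀ τ u : ℝ,
    Real.exp (-|τ - u| / 2) * br τ ^ A ≤ C * br u ^ A * (1 / br (τ - u) ^ 2) := by
  obtain ⟨C, hC, h⟩ := hDEC.2.1 (A + 2)
  refine ⟨C, hC, fun τ u => ?_⟩
  have h1 := h (τ - u) 0
  have h2 : br τ ≤ br (τ - u) * br u := by simpa using hDEC.1 (τ - u) u
  have h3 : br τ ^ A ≤ br (τ - u) ^ A * br u ^ A := by
    rw [← mul_pow]; exact pow_le_pow_left₀ (tk2_br0 _).le h2 A
  have h4 : br 0 = 1 := by simp [br]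
  rw [sub_zero, h4, one_pow, mul_one, pow_add] at h1
  have h5 := tk2_br0 (τ - u)
  have h6 := tk2_br0 u
  rw [mul_one_div, le_div_iff₀ (by positivity)]
  calc _ ≤ Real.exp (-|τ - u| / 2) * (br (τ - u) ^ A * br u ^ A) * br (τ - u) ^ 2 := by gcongr
    _ = Real.exp (-|τ - u| / 2) * (br (τ - u) ^ A * br (τ - u) ^ 2) * br u ^ A := by ring
    _ ≤ _ := by gcongr

theorem tk2_shift (hDEC : DEC) (u : ℝ) : Integrable (fun τ : ℝ => 1 / br (τ - u) ^ 2) ∧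
    ∫ τ : ℝ, 1 / br (τ - u) ^ 2 ≤ 2 := by
  refine ⟨hDEC.2.2.2.1.1.comp_sub_right u, ?_⟩
  rw [integral_sub_right_eq_self (fun t : ℝ => 1 / br t ^ 2) u]
  exact hDEC.2.2.2.1.2

theorem tk2_int (hLOP : LOP) (hLOB : LOB) (hDEC : DEC) (k : ℤ) (h1 : Squarefree k) (h2 : k ≠ 1)
    (u : ℝ) :
    Integrable fun τ : ℝ => Real.exp (-|τ - u| / 2) * ‖Lo k (1 / 2 + τ * I)‖ ^ 4 := by
  obtain ⟨C, hC, h⟩ := tk2_exp hDEC 4
  have hc : Continuous (Lo k) := (hLOP.2.1 k h1 h2).continuous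
  refine Integrable.mono' ((tk2_shift hDEC u).1.const_mul ((8 * |(k : ℝ)|) ^ 4 * (C * br u ^ 4)))
    (Continuous.aestronglyMeasurable (by fun_prop)) (Filter.Eventually.of_forall fun τ => ?_)
  rw [Real.norm_of_nonneg (by positivity)]
  have e1 : (1 / 2 + τ * I : ℂ).re = 1 / 2 := by simp
  have e2 : ‖(1 / 2 + τ * I : ℂ)‖ ≤ br τ := by
    refine (norm_add_le _ _).trans ?_
    unfold br
    simp only [norm_div, norm_one, Complex.norm_ofNat, norm_mul, Complex.norm_real, Complex.norm_I,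
      mul_one, Real.norm_eq_abs]
    linarith
  have e3 := hLOB k (1 / 2 + τ * I) h1 h2 (by rw [e1]; norm_num)
  rw [e1] at e3
  have e4 : ‖Lo k (1 / 2 + τ * I)‖ ≤ 8 * |(k : ℝ)| * br τ := by
    refine e3.trans ?_
    have := mul_le_mul_of_nonneg_left e2 (abs_nonneg (k : ℝ))
    linarith
  calc _ ≤ Real.exp (-|τ - u| / 2) * (8 * |(k : ℝ)| * br τ) ^ 4 := by gcongr
    _ = (8 * |(k : ℝ)|) ^ 4 * (Real.exp (-|τ - u| / 2) * br τ ^ 4) := by ring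
    _ ≤ (8 * |(k : ℝ)|) ^ 4 * (C * br u ^ 4 * (1 / br (τ - u) ^ 2)) :=
      mul_le_mul_of_nonneg_left (h τ u) (by positivity)
    _ = _ := by ring

theorem pTK2 (hLOP : LOP) (hLOB : LOB) (hDEC : DEC) : TK2 := by
  intro A
  obtain ⟨C, hC, h⟩ := tk2_exp hDEC A
  refine ⟨2 * C, by positivity, fun K M u F hD hF => ?_⟩
  have hM := tk2_M hD
  have hi : ∀ k ∈ F, Integrable fun τ : ℝ =>
      om (|(k : ℝ)| / K) * (Real.exp (-|τ - u| / 2) * ‖Lo k (1 / 2 + τ * I)‖ ^ 4) :=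
    fun k hk => (tk2_int hLOP hLOB hDEC k (hF k hk).1 (hF k hk).2 u).const_mul _
  unfold Lw
  simp only [← integral_const_mul]
  rw [← integral_finsetSum F hi]
  have hb := tk2_br0 u
  refine (integral_mono (integrable_finsetSum F hi)
    ((tk2_shift hDEC u).1.const_mul (M * (C * br u ^ A))) fun τ => ?_).trans ?_
  · calc _ = Real.exp (-|τ - u| / 2) *
          ∑ k ∈ F, om (|(k : ℝ)| / K) * ‖Lo k (1 / 2 + τ * I)‖ ^ 4 := by
          rw [Finset.mul_sum]; exact sum_congr rfl fun k _ => by ring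
      _ ≤ Real.exp (-|τ - u| / 2) * (M * br τ ^ A) :=
          mul_le_mul_of_nonneg_left (hD F hF τ) (Real.exp_pos _).le
      _ = M * (Real.exp (-|τ - u| / 2) * br τ ^ A) := by ring
      _ ≤ M * (C * br u ^ A * (1 / br (τ - u) ^ 2)) := mul_le_mul_of_nonneg_left (h τ u) hM
      _ = _ := by ring
  · rw [integral_const_mul]
    calc _ ≤ M * (C * br u ^ A) * 2 :=
          mul_le_mul_of_nonneg_left (tk2_shift hDEC u).2 (by positivity)
      _ = _ := by ring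

theorem tk2_sum (F : Finset ℤ) (f : ℤ → ℝ → ℂ) (G : ℝ → ℝ) (hG : Integrable G)
    (h : ∀ y, ∑ k ∈ F, ‖f k y‖ ≤ G y) : ∑ k ∈ F, ‖∫ y, f k y‖ ≤ ∫ y, G y := by
  classical
  obtain ⟨F', hs, hi, h0⟩ : ∃ F' : Finset ℤ, F' ⊆ F ∧ (∀ k ∈ F', Integrable (f k)) ∧
      ∀ k ∈ F, k ∉ F' → ¬ Integrable (f k) :=
    ⟨F.filter fun k => Integrable (f k), filter_subset _ _, fun k hk => (mem_filter.1 hk).2,
      fun k hk h1 h2 => h1 (mem_filter.2 ⟨hk, h2⟩)⟩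
  have hi' : ∀ k ∈ F', Integrable fun y => ‖f k y‖ := fun k hk => (hi k hk).norm
  have e1 : ∑ k ∈ F', ‖∫ y, f k y‖ = ∑ k ∈ F, ‖∫ y, f k y‖ :=
    sum_subset hs fun k hk h1 => by rw [integral_undef (h0 k hk h1), norm_zero]
  have e2 : ∑ k ∈ F', ‖∫ y, f k y‖ ≤ ∑ k ∈ F', ∫ y, ‖f k y‖ :=
    sum_le_sum fun k _ => norm_integral_le_integral_norm _
  rw [← e1]
  refine e2.trans ?_
  rw [← integral_finsetSum F' hi']
  refine integral_mono (integrable_finsetSum F' hi') hG fun y => ?_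
  exact (sum_le_sum_of_subset_of_nonneg hs fun _ _ _ => norm_nonneg _).trans (h y)

theorem tk2_om (k : ℤ) (hk : k ≠ 0) (X N : ℝ) (hX : 1 ≤ X) (hN : 1 ≤ N) :
    (|(k : ℝ)| * X) ^ (-sk (N ^ 2 / X) k) * N ^ (2 * sk (N ^ 2 / X) k - 1) =
      om (|(k : ℝ)| / (N ^ 2 / X)) / N := by
  have hk0 : 0 < |(k : ℝ)| := abs_pos.2 (by exact_mod_cast hk)
  have hN0 : 0 < N := by linarith
  have hX0 : 0 < X := by linarith
  have hK : 0 < N ^ 2 / X := by positivity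
  have e1 : om (|(k : ℝ)| / (N ^ 2 / X)) = (|(k : ℝ)| / (N ^ 2 / X)) ^ (-sk (N ^ 2 / X) k) := by
    unfold om sk
    split_ifs with h
    · exact min_eq_left (Real.rpow_le_rpow_of_exponent_ge (by positivity)
        ((div_le_one hK).2 h) (by norm_num))
    · exact min_eq_right (Real.rpow_le_rpow_of_exponent_le
        ((one_le_div hK).2 (not_le.1 h).le) (by norm_num))
  rw [e1]
  generalize sk (N ^ 2 / X) k = σ
  have e2 : |(k : ℝ)| / (N ^ 2 / X) = |(k : ℝ)| * X / N ^ (2 : ℝ) := by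
    rw [Real.rpow_two]; field_simp
  rw [e2, Real.div_rpow (by positivity) (by positivity), ← Real.rpow_mul hN0.le,
    Real.rpow_sub_one hN0.ne', mul_neg, Real.rpow_neg hN0.le]
  field_simp

theorem pTMK (hTK1 : TK1) (hTK2 : TK2) (hKZ : KZ) (hDEC : DEC) (hLEN : LEN) : TMK := by
  obtain ⟨C2, B, c, hC2, hB, h1⟩ := hTK1
  refine ⟨B, c, hB, fun A => ?_⟩
  obtain ⟨C3, hC3, h3⟩ := hTK2 A
  obtain ⟨C1, hC1, h2⟩ := hKZ (c + A + 2)
  refine ⟨10 * C1 * C2 * C3, by positivity, ?_⟩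
  intro w P R Y ε X N t₀ W M F hP hL hε hε' hX hN hw hD hF
  have hY : 0 ≤ Y := (hLEN.2.1 P B R Y hL).1
  have hM := tk2_M hD
  have hN0 : 0 < N := by linarith
  have hX0 : 0 < X := by linarith
  have ht := tk2_br0 t₀
  set K := N ^ 2 / X with hK
  set Q := 5 * C1 * C2 * C3 * Y * W ^ 2 * br t₀ ^ (c + A) * M / N with hQ
  have hQ0 : 0 ≤ Q := by positivity
  have key : ∀ y : ℝ, ∑ k ∈ F, ‖Kz k X (sk K k + y * I) * Jk w P R k (sk K k + y * I)‖ ≤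
      Q * (1 / br y ^ 2) := by
    intro y
    have hy := tk2_br0 y
    set D := 5 * C1 / br y ^ (c + A + 2) / 2 * (C2 * Y * W ^ 2 * br t₀ ^ c * br y ^ c / N) with hD'
    have hD0 : 0 ≤ D := by positivity
    have e1 : ∀ k ∈ F, ‖Kz k X (sk K k + y * I) * Jk w P R k (sk K k + y * I)‖ ≤
        D * (om (|(k : ℝ)| / K) * Lw k (t₀ - y) + om (|(k : ℝ)| / K) * Lw k (-t₀ - y)) := by
      intro k hk
      have hk0 : k ≠ 0 := (hF k hk).1.ne_zero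
      have hk1 : 0 < |(k : ℝ)| := abs_pos.2 (by exact_mod_cast hk0)
      have r1 : ((sk K k : ℂ) + y * I).re = sk K k := by simp
      have r2 : ((sk K k : ℂ) + y * I).im = y := by simp
      have s1 : 3 / 4 ≤ sk K k := by unfold sk; split_ifs <;> norm_num
      have s2 : sk K k ≤ 6 := by unfold sk; split_ifs <;> norm_num
      have g1 := h1 w P R Y ε N t₀ W k (sk K k + y * I) hP hL hε hε' hN hw (hF k hk).1 (hF k hk).2
        (by rw [r1]; exact s1) (by rw [r1]; exact s2)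
      have g2 := (h2 (sk K k + y * I)).2.1 (by rw [r1]; linarith) (by rw [r1]; linarith)
      rw [r1, r2] at g1 g2
      have g3 : 1 / (sk K k - 1 / 2) ≤ 4 := by
        rw [div_le_iff₀ (by linarith)]; linarith
      have g4 : ‖Gammaℝ (sk K k + y * I) * riemannZeta (2 * (sk K k + y * I))‖ ≤
          5 * C1 / br y ^ (c + A + 2) := by
        refine g2.trans (div_le_div_of_nonneg_right ?_ (by positivity))
        nlinarith
      have g5 : ‖Kz k X (sk K k + y * I)‖ ≤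
          5 * C1 / br y ^ (c + A + 2) / 2 * (|(k : ℝ)| * X) ^ (-sk K k) := by
        unfold Kz
        rw [norm_mul, Complex.norm_cpow_eq_rpow_re_of_pos (by positivity), Complex.neg_re, r1,
          div_mul_eq_mul_div, norm_div, Complex.norm_ofNat]
        gcongr
      rw [norm_mul]
      refine (mul_le_mul g5 g1 (norm_nonneg _) (by positivity)).trans (le_of_eq ?_)
      have g6 := tk2_om k hk0 X N hX hN
      calc _ = 5 * C1 / br y ^ (c + A + 2) / 2 * (C2 * Y * W ^ 2 * br t₀ ^ c * br y ^ c) *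
            (Lw k (t₀ - y) + Lw k (-t₀ - y)) *
            ((|(k : ℝ)| * X) ^ (-sk K k) * N ^ (2 * sk K k - 1)) := by ring
        _ = _ := by rw [g6, hD']; ring
    have b1 : br (t₀ - y) ^ A ≤ (br t₀ * br y) ^ A := by
      refine pow_le_pow_left₀ (tk2_br0 _).le ?_ A
      have := hDEC.1 t₀ (-y)
      rwa [tk2_brneg, ← sub_eq_add_neg] at this
    have b2 : br (-t₀ - y) ^ A ≤ (br t₀ * br y) ^ A := by
      refine pow_le_pow_left₀ (tk2_br0 _).le ?_ A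
      have := hDEC.1 (-t₀) (-y)
      rwa [tk2_brneg, tk2_brneg, ← sub_eq_add_neg] at this
    have b3 := (h3 K M (t₀ - y) F hD hF).trans
      (mul_le_mul_of_nonneg_left b1 (by positivity))
    have b4 := (h3 K M (-t₀ - y) F hD hF).trans
      (mul_le_mul_of_nonneg_left b2 (by positivity))
    refine (sum_le_sum e1).trans ?_
    rw [← Finset.mul_sum, sum_add_distrib]
    refine (mul_le_mul_of_nonneg_left (add_le_add b3 b4) hD0).trans (le_of_eq ?_)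
    rw [hD', hQ]
    field_simp
    ring
  have k2 := tk2_sum F (fun k y => Kz k X (sk K k + y * I) * Jk w P R k (sk K k + y * I)) _
    (hDEC.2.2.2.1.1.const_mul Q) key
  rw [integral_const_mul] at k2
  have k3 := k2.trans (mul_le_mul_of_nonneg_left hDEC.2.2.2.1.2 hQ0)
  refine le_trans (sum_le_sum fun k _ => ?_) (k3.trans (le_of_eq ?_))
  · unfold Yk Iv
    rw [norm_mul]
    refine mul_le_of_le_one_left (norm_nonneg _) ?_
    rw [norm_div, norm_one, norm_mul, Complex.norm_ofNat, Complex.norm_real,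
      Real.norm_of_nonneg Real.pi_pos.le, div_le_one (by positivity)]
    linarith [Real.pi_gt_three]
  · rw [hQ]; ring

end Pool.Agent.QM
end

-- part Pool.Agent.P.MP_ea46f5_nt.QM.FTKB
section

namespace Pool.Agent.QM

open Complex MeasureTheory Finset
open scoped Real ComplexConjugate

theorem tkb_cpow (p : ℕ) (hp : 2 ≤ p) (w : ℂ) (m : ℕ) (hw : w.re ≤ m) :
    ‖(p : ℂ) ^ w‖ ≤ (p : ℝ) ^ m := by
  rw [Complex.norm_natCast_cpow_of_pos (by omega)]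
  have h1 : (1 : ℝ) ≤ p := by exact_mod_cast (by omega : 1 ≤ p)
  calc (p : ℝ) ^ w.re ≤ (p : ℝ) ^ (m : ℝ) := Real.rpow_le_rpow_of_exponent_le h1 hw
    _ = (p : ℝ) ^ m := Real.rpow_natCast _ _

theorem tkb_jac (k : ℤ) (p : ℕ) : ‖(jacobiSym k p : ℂ)‖ ≤ 1 := by
  rcases jacobiSym.trichotomy k p with h | h | h <;> simp [h]

theorem tkb_ok (k : ℤ) (z : ℂ) (p : ℕ) (hp : 2 ≤ p) (h0 : 0 ≤ z.re) (h6 : z.re ≤ 6) :
    ‖ok k z p‖ ≤ (p : ℝ) ^ 7 := by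
  unfold ok
  have h2 : (2 : ℝ) ≤ p := by exact_mod_cast hp
  have a1 := tkb_jac k p
  have a2 : ‖(p : ℂ) ^ (-(1 / 2 : ℂ))‖ ≤ (p : ℝ) ^ 0 :=
    tkb_cpow p hp _ 0 (by simp)
  have a3 : ‖(p : ℂ) ^ z‖ ≤ (p : ℝ) ^ 6 := tkb_cpow p hp _ 6 (by simpa using h6)
  have a4 : ‖(p : ℂ) ^ (-z)‖ ≤ (p : ℝ) ^ 6 :=
    tkb_cpow p hp _ 6 (by simp only [neg_re]; push_cast; linarith)
  have a5 : ‖(p : ℂ) ^ z - (p : ℂ) ^ (-z)‖ ≤ (p : ℝ) ^ 7 := by
    have h7 : (p : ℝ) ^ 7 = p * (p : ℝ) ^ 6 := by ring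
    have h8 : (0 : ℝ) ≤ (p : ℝ) ^ 6 := by positivity
    calc _ ≤ ‖(p : ℂ) ^ z‖ + ‖(p : ℂ) ^ (-z)‖ := norm_sub_le _ _
      _ ≤ 2 * (p : ℝ) ^ 6 := by linarith
      _ ≤ (p : ℝ) ^ 7 := by rw [h7]; exact mul_le_mul_of_nonneg_right h2 h8
  rw [pow_zero] at a2
  rw [norm_mul, norm_mul]
  calc _ ≤ 1 * 1 * (p : ℝ) ^ 7 := by gcongr
    _ = _ := by ring

theorem tkb_ek (k : ℤ) (z : ℂ) (p : ℕ) (hp : 2 ≤ p) (h6 : z.re ≤ 6) :
    ‖ek k z p‖ ≤ (p : ℝ) ^ 14 := by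
  unfold ek
  have h2 : (2 : ℝ) ≤ p := by exact_mod_cast hp
  have h1 : (1 : ℝ) ≤ (p : ℝ) ^ 13 := one_le_pow₀ (by linarith)
  have h7 : (p : ℝ) ^ 14 = p * (p : ℝ) ^ 13 := by ring
  have h8 : 2 * (p : ℝ) ^ 13 ≤ (p : ℝ) ^ 14 := by
    rw [h7]; exact mul_le_mul_of_nonneg_right h2 (by positivity)
  split_ifs
  · have a3 : ‖(p : ℂ) ^ (2 * z - 1)‖ ≤ (p : ℝ) ^ 13 :=
      tkb_cpow p hp _ 13 (by simp; linarith)
    calc _ ≤ ‖(1 : ℂ)‖ + ‖(p : ℂ) ^ (2 * z - 1)‖ := norm_sub_le _ _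
      _ ≤ _ := by rw [norm_one]; linarith
  · have a3 : ‖(1 / (p : ℂ))‖ ≤ 1 := by
      rw [norm_div, norm_one, Complex.norm_natCast]
      exact div_le_one_of_le₀ (by linarith) (by positivity)
    calc _ ≤ ‖(1 : ℂ)‖ + ‖(1 / (p : ℂ))‖ := norm_sub_le _ _
      _ ≤ _ := by rw [norm_one]; linarith

theorem tkb_sq (n : ℕ) (hn : n ≠ 0) (h : ∀ p ∈ n.primeFactors, ¬ Odd (n.factorization p)) :
    IsSquare n := by
  refine ⟨∏ p ∈ n.primeFactors, p ^ (n.factorization p / 2), ?_⟩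
  rw [← Finset.prod_mul_distrib]
  conv_lhs => rw [← Nat.prod_factorization_pow_eq_self hn]
  rw [Finsupp.prod, Nat.support_factorization]
  refine Finset.prod_congr rfl fun p hp => ?_
  rw [← pow_add]
  have := h p hp
  rw [Nat.odd_iff] at this
  congr 1
  omega

theorem pTKB : TKB := by
  refine ⟨fun n _ => ?_, fun k z n h0 h6 hn => ?_, fun k n => ?_, fun n => ⟨?_, ?_, fun hn hs => ?_⟩⟩
  · unfold Tk T0
    push_cast
    refine Finset.prod_congr rfl fun p hp => ?_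
    have hp' := Nat.prime_of_mem_primeFactors hp
    split_ifs
    · simp [ok]
    · have : ¬ (p : ℤ) ∣ 1 := by
        intro h
        have : p ∣ 1 := by exact_mod_cast h
        exact hp'.not_dvd_one this
      simp [ek, this]
  · unfold Tk
    rw [norm_prod]
    have hn7 : (n : ℝ) ^ 7 = ∏ p ∈ n.primeFactors, ((p : ℝ) ^ n.factorization p) ^ 7 := by
      rw [Finset.prod_pow]
      congr 1
      conv_lhs => rw [← Nat.prod_factorization_pow_eq_self hn]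
      rw [Finsupp.prod, Nat.support_factorization]
      push_cast
      rfl
    rw [hn7]
    refine Finset.prod_le_prod (fun _ _ => norm_nonneg _) fun p hp => ?_
    have hp' := Nat.prime_of_mem_primeFactors hp
    have h1 : (1 : ℝ) ≤ p := by exact_mod_cast hp'.one_le
    have hv : 0 < n.factorization p :=
      hp'.factorization_pos_of_dvd hn (Nat.dvd_of_mem_primeFactors hp)
    rw [← pow_mul]
    split_ifs with ho
    · exact (tkb_ok k z p hp'.two_le h0 h6).trans (pow_le_pow_right₀ h1 (by omega))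
    · rw [Nat.odd_iff] at ho
      exact (tkb_ek k z p hp'.two_le h6).trans (pow_le_pow_right₀ h1 (by omega))
  · unfold Tk
    refine continuous_finsetProd _ fun p hp => ?_
    have hp0 : (p : ℂ) ≠ 0 := by exact_mod_cast (Nat.prime_of_mem_primeFactors hp).ne_zero
    have hc : ∀ f : ℂ → ℂ, Continuous f → Continuous fun z => (p : ℂ) ^ f z := fun f hf =>
      hf.const_cpow (Or.inl hp0)
    split_ifs
    · unfold ok
      exact continuous_const.mul ((hc _ continuous_id).sub (hc _ continuous_neg))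
    · unfold ek
      split_ifs
      · exact continuous_const.sub (hc _ (by fun_prop))
      · exact continuous_const
  · unfold T0
    refine Finset.prod_nonneg fun p hp => ?_
    have h1 : (1 : ℝ) ≤ p := by exact_mod_cast (Nat.prime_of_mem_primeFactors hp).one_le
    split_ifs
    · exact le_rfl
    · exact sub_nonneg.2 (div_le_one_of_le₀ h1 (by positivity))
  · unfold T0
    refine Finset.prod_le_one (fun p hp => ?_) fun p _ => ?_
    · have h1 : (1 : ℝ) ≤ p := by exact_mod_cast (Nat.prime_of_mem_primeFactors hp).one_le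
      split_ifs
      · exact le_rfl
      · exact sub_nonneg.2 (div_le_one_of_le₀ h1 (by positivity))
    · split_ifs
      · exact zero_le_one
      · exact sub_le_self _ (by positivity)
  · unfold T0
    by_contra hne
    refine hs (tkb_sq n hn fun p hp ho => hne ?_)
    exact Finset.prod_eq_zero hp (if_pos ho)

end Pool.Agent.QM
end

-- part Pool.Agent.P.MP_ea46f5_nt.QM.FTM
section

namespace Pool.Agent.QM

open Complex MeasureTheory Finset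
open scoped Real ComplexConjugate

theorem tm_br (t : ℝ) : 1 ≤ br t := le_add_of_nonneg_right (abs_nonneg t)

theorem tm_kz {X : ℝ} (hX : 0 < X) (z : ℂ) :
    ‖Kz 1 X z‖ = ‖Gammaℝ z * riemannZeta (2 * z)‖ / 2 * X ^ (-z.re) := by
  have e : Kz 1 X z = Gammaℝ z * riemannZeta (2 * z) / 2 * (X : ℂ) ^ (-z) := by
    unfold Kz
    rw [Int.cast_one, abs_one, one_mul]
    ring
  rw [e, norm_mul, norm_div, Complex.norm_cpow_eq_rpow_re_of_pos hX, neg_re, Complex.norm_two]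

/-- The integral of the kernel against a function of polynomial growth. -/
theorem tm_int (hKZ : KZ) (hDEC : DEC) (c : ℕ) : ∃ C : ℝ, 0 < C ∧ ∀ (X ε D : ℝ) (f : ℂ → ℂ),
    1 ≤ X → 0 < ε → ε ≤ 1 / 100 → 0 ≤ D →
    (∀ z : ℂ, z.re = 1 / 2 + ε → ‖f z‖ ≤ D * br z.im ^ c) →
    X * ‖Iv (1 / 2 + ε) fun z => Kz 1 X z * f z‖ ≤ C * D * √X / ε := by
  obtain ⟨C, hC, h⟩ := hKZ (c + 2)
  refine ⟨2 * C, by positivity, fun X ε D f hX hε hε1 hD hf => ?_⟩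
  have hX0 : 0 < X := by linarith
  obtain ⟨i1, i2⟩ := hDEC.2.2.2.1
  have hE : 0 ≤ C * D / ε * X ^ (-(1 / 2 + ε)) := by positivity
  have h1 : ‖Iv (1 / 2 + ε) fun z => Kz 1 X z * f z‖ ≤
      ∫ t : ℝ, C * D / ε * X ^ (-(1 / 2 + ε)) * (1 / br t ^ 2) := by
    refine norm_integral_le_of_norm_le (i1.const_mul _) (Filter.Eventually.of_forall fun t => ?_)
    have r1 : (((1 / 2 + ε : ℝ) : ℂ) + t * I).re = 1 / 2 + ε := by simp
    have r2 : (((1 / 2 + ε : ℝ) : ℂ) + t * I).im = t := by simp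
    have b0 : 0 < br t := lt_of_lt_of_le one_pos (tm_br t)
    have k1 := (h (((1 / 2 + ε : ℝ) : ℂ) + t * I)).2.1 (by rw [r1]; linarith) (by rw [r1]; linarith)
    have k2 := hf _ r1
    rw [r1, r2, add_sub_cancel_left] at k1
    rw [r2] at k2
    have k3 : 1 + 1 / ε ≤ 2 / ε := by
      rw [le_div_iff₀ hε, add_mul, one_div_mul_cancel hε.ne']
      linarith
    have k4 : ‖Gammaℝ (((1 / 2 + ε : ℝ) : ℂ) + t * I) *
        riemannZeta (2 * (((1 / 2 + ε : ℝ) : ℂ) + t * I))‖ ≤ C * (2 / ε) / br t ^ (c + 2) :=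
      k1.trans (by gcongr)
    rw [norm_mul, tm_kz hX0, r1]
    calc _ ≤ C * (2 / ε) / br t ^ (c + 2) / 2 * X ^ (-(1 / 2 + ε)) * (D * br t ^ c) := by gcongr
      _ = _ := by rw [pow_add]; field_simp
  rw [integral_const_mul] at h1
  have h2 : X * X ^ (-(1 / 2 + ε)) ≤ √X := by
    rw [Real.sqrt_eq_rpow]
    nth_rewrite 1 [← Real.rpow_one X]
    rw [← Real.rpow_add hX0]
    exact Real.rpow_le_rpow_of_exponent_le hX (by linarith)
  calc _ ≤ X * (C * D / ε * X ^ (-(1 / 2 + ε)) * 2) :=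
        mul_le_mul_of_nonneg_left (h1.trans (mul_le_mul_of_nonneg_left i2 hE)) hX0.le
    _ = 2 * C * D * (X * X ^ (-(1 / 2 + ε))) / ε := by ring
    _ ≤ _ := by gcongr

theorem tm_final {C1 C2 C3 C4 β a1 a2 a3 a4 : ℝ} {c2 c3 : ℕ} (h1 : 0 < C1) (h2 : 0 < C2)
    (h3 : 0 < C3) (h4 : 0 < C4) (hβ : 1 ≤ β) (p1 : 0 ≤ a1) (p2 : 0 ≤ a2) (p3 : 0 ≤ a3)
    (p4 : 0 ≤ a4) :
    C1 * β ^ 8 * a1 + (C3 * β ^ c3 * (a3 + a4) + C4 * a1) + C2 * β ^ c2 * a2 ≤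
      (C1 + C2 + C3 + C4) * β ^ (8 + c2 + c3) * (a1 + (a2 + a3 + a4)) := by
  have e1 : β ^ 8 ≤ β ^ (8 + c2 + c3) := pow_le_pow_right₀ hβ (by omega)
  have e2 : β ^ c2 ≤ β ^ (8 + c2 + c3) := pow_le_pow_right₀ hβ (by omega)
  have e3 : β ^ c3 ≤ β ^ (8 + c2 + c3) := pow_le_pow_right₀ hβ (by omega)
  have e4 : 1 ≤ β ^ (8 + c2 + c3) := one_le_pow₀ hβ
  generalize β ^ (8 + c2 + c3) = G at *
  have f1 : C1 * β ^ 8 * a1 ≤ C1 * G * (a1 + (a2 + a3 + a4)) := by gcongr; linarith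
  have f2 : C2 * β ^ c2 * a2 ≤ C2 * G * (a1 + (a2 + a3 + a4)) := by gcongr; linarith
  have f3 : C3 * β ^ c3 * (a3 + a4) ≤ C3 * G * (a1 + (a2 + a3 + a4)) :=
    mul_le_mul (by gcongr) (by linarith) (by linarith) (by positivity)
  have f4 : C4 * 1 * a1 ≤ C4 * G * (a1 + (a2 + a3 + a4)) := by gcongr; linarith
  linarith

theorem pTM (hTME : TME) (hTMD : TMD) (hTMK : TMK) (hTA2 : TA2) (hJCA : JCA) (hTC1 : TC1) (hTC2 : TC2) (hKZ : KZ) (hFW : FW) (hDEC : DEC) (hLEN : LEN) : TM := by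
  obtain ⟨C1, c1, hC1, h1⟩ := hTMD
  obtain ⟨B2, c2, hB2, h2⟩ := hTMK
  obtain ⟨C3, B3, c3, hC3, -, h3⟩ := hTA2
  obtain ⟨C4, c4, hC4, h4⟩ := hTC2
  obtain ⟨C5, hC5, h5⟩ := tm_int hKZ hDEC c3
  refine ⟨max c1 c4, max B2 B3, 8 + c2 + c3, le_max_of_le_left hB2, fun A => ?_⟩
  obtain ⟨C2, hC2, h2⟩ := h2 A
  refine ⟨C1 + C2 + C5 * C3 + C4, by positivity,
    fun w P R lam T Y ε X N t₀ W₀ W₁ M α F tw hε hε1 hl hX hN hα hW₀ far near dual => ?_⟩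
  have hX0 : 0 < X := by linarith
  have hN0 : 0 < N := by linarith
  have hY : 0 ≤ Y := (hLEN.2.1 P _ R Y tw.len).1
  have hT := tw.T0
  have hM : 0 ≤ M := by simpa [br] using dual ∅ (fun _ h => absurd h (by simp)) 0
  have hβ := tm_br t₀
  have l2 := hLEN.1 P P _ B2 R Y Y tw.len subset_rfl (le_max_left _ _) le_rfl
  have l3 := hLEN.1 P P _ B3 R Y Y tw.len subset_rfl (le_max_right _ _) le_rfl
  obtain ⟨-, hLI, -⟩ := hFW.2.1 w ε N t₀ W₁ hε (by linarith) far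
  obtain ⟨i1, e1⟩ := hTME w P _ R X (N ^ 2 / X) Y (1 / 2 + ε)
    (C2 * Y * W₁ ^ 2 * br t₀ ^ (c2 + A) * M / N) hLI hX0 tw.op tw.len tw.pos (by linarith)
    (by linarith)
  obtain ⟨j1, j2, M', j3⟩ := hJCA w P _ R Y ε N t₀ W₁ tw.op tw.len hε hε1 hN far
  obtain ⟨i2, e2⟩ := hTC1 (Jc w P R ε) X ε M' hX hε hε1 j1 j2 j3
  have b1 := h1 w P _ R lam T Y ε N t₀ W₀ W₁ α _ tw hε hε1 hl hN hα (le_max_left _ _) hW₀ far near
  have b4 := h4 w P _ R lam T Y ε X t₀ W₀ α _ tw hε hε1 hl hX hα (le_max_right _ _) hW₀ near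
  have b3 := h5 X ε (C3 * Y * W₁ ^ 2 * br t₀ ^ c3 *
      (N ^ (2 * ε) / ε ^ 10 + N ^ (1 / 2 + 3 * ε) / ε ^ 4))
    (fun z => Jk w P R 1 z - Jc w P R ε z) hX hε hε1 (by positivity) fun z hz =>
      (h3 w P R Y ε N t₀ W₁ z tw.op l3 hε hε1 hN far hz).trans (le_of_eq (by ring))
  have e3 : Iv (1 / 2 + ε) (fun z => Kz 1 X z * Jk w P R 1 z) =
      Iv (1 / 2 + ε) (fun z => Kz 1 X z * (Jk w P R 1 z - Jc w P R ε z)) +
        Iv ε (fun z => Kz 1 X z * Jc w P R ε z) := by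
    rw [← e2]
    unfold Iv
    simp only [mul_sub]
    rw [integral_sub i1 i2, sub_add_cancel]
  have b5 : ‖Yk w P R X 1 (1 / 2 + ε)‖ ≤
      ‖Iv (1 / 2 + ε) (fun z => Kz 1 X z * (Jk w P R 1 z - Jc w P R ε z))‖ +
        ‖Iv ε (fun z => Kz 1 X z * Jc w P R ε z)‖ := by
    unfold Yk
    rw [e3, norm_mul]
    refine (mul_le_of_le_one_left (norm_nonneg _) ?_).trans (norm_add_le _ _)
    rw [norm_div, norm_one, norm_mul, Complex.norm_two, Complex.norm_real,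
      Real.norm_of_nonneg Real.pi_pos.le, div_le_one (by positivity)]
    linarith [Real.pi_gt_three]
  have b6 : C5 * (C3 * Y * W₁ ^ 2 * br t₀ ^ c3 *
      (N ^ (2 * ε) / ε ^ 10 + N ^ (1 / 2 + 3 * ε) / ε ^ 4)) * √X / ε ≤
      C5 * C3 * br t₀ ^ c3 * (Y * W₁ ^ 2 * (N ^ (3 * ε) * √(X * N) / ε ^ 5) +
        Y * W₁ ^ 2 * (N ^ (3 * ε) * √X / ε ^ 11)) := by
    have k1 : N ^ (2 * ε) ≤ N ^ (3 * ε) := Real.rpow_le_rpow_of_exponent_le hN (by linarith)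
    rw [Real.rpow_add hN0, ← Real.sqrt_eq_rpow, Real.sqrt_mul hX0.le]
    calc _ ≤ C5 * (C3 * Y * W₁ ^ 2 * br t₀ ^ c3 *
          (N ^ (3 * ε) / ε ^ 10 + √N * N ^ (3 * ε) / ε ^ 4)) * √X / ε := by gcongr
      _ = _ := by field_simp; ring
  have fin := tm_final (c2 := c2) (c3 := c3) (a1 := X * T * W₀ ^ 2 * ε ^ (2 * α) / ε ^ 8)
    (a2 := Y * W₁ ^ 2 * (X / N * M * br t₀ ^ A))
    (a3 := Y * W₁ ^ 2 * (N ^ (3 * ε) * √(X * N) / ε ^ 5))
    (a4 := Y * W₁ ^ 2 * (N ^ (3 * ε) * √X / ε ^ 11)) hC1 hC2 (mul_pos hC5 hC3) hC4 hβ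
    (by positivity) (by positivity) (by positivity) (by positivity)
  refine (e1 (fun F' hF' => h2 w P R Y ε X N t₀ W₁ M F' tw.op l2 hε hε1 hX hN far dual hF') F).trans
    (le_trans ?_ (fin.trans (le_of_eq (by ring))))
  have g1 := mul_le_mul_of_nonneg_left b1 hX0.le
  have g4 := mul_le_mul_of_nonneg_left b4 hX0.le
  have g5 := mul_le_mul_of_nonneg_left b5 hX0.le
  have g6 := b3.trans b6
  have q1 : X * (C1 * br t₀ ^ 8 * T * W₀ ^ 2 * ε ^ (2 * α) / ε ^ 8) =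
      C1 * br t₀ ^ 8 * (X * T * W₀ ^ 2 * ε ^ (2 * α) / ε ^ 8) := by ring
  have q4 : X * (C4 * T * W₀ ^ 2 * ε ^ (2 * α) / ε ^ 8) =
      C4 * (X * T * W₀ ^ 2 * ε ^ (2 * α) / ε ^ 8) := by ring
  have q2 : X * (C2 * Y * W₁ ^ 2 * br t₀ ^ (c2 + A) * M / N) =
      C2 * br t₀ ^ c2 * (Y * W₁ ^ 2 * (X / N * M * br t₀ ^ A)) := by ring
  rw [mul_add X, mul_add X, q2]
  rw [q1] at g1
  rw [q4] at g4
  rw [mul_add X] at g5
  linarith

end Pool.Agent.QM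
end

-- part Pool.Agent.P.MP_ea46f5_nt.QM.FTMD
section

namespace Pool.Agent.QM

open Complex MeasureTheory Finset
open scoped Real ComplexConjugate

theorem tmd_one (t : ℝ) : 1 ≤ br t := by
  unfold br; linarith [abs_nonneg t]

theorem tmd_neg (t : ℝ) : br (-t) = br t := by
  simp [br]

theorem tmd_dec (hDEC : DEC) (n : ℕ) : ∃ C : ℝ, 0 < C ∧ ∀ t u : ℝ,
    Real.exp (-|t - u|) * br t ^ n ≤ C * br u ^ n * Real.exp (-|t - u| / 2) := by
  obtain ⟨C, hC, h⟩ := hDEC.2.1 n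
  refine ⟨C, hC, fun t u => ?_⟩
  have e : Real.exp (-|t - u|) = Real.exp (-|t - u| / 2) * Real.exp (-|t - u| / 2) := by
    rw [← Real.exp_add]; congr 1; ring
  calc Real.exp (-|t - u|) * br t ^ n
      = (Real.exp (-|t - u| / 2) * br t ^ n) * Real.exp (-|t - u| / 2) := by rw [e]; ring
    _ ≤ C * br u ^ n * Real.exp (-|t - u| / 2) :=
        mul_le_mul_of_nonneg_right (h t u) (Real.exp_pos _).le

theorem tmd_cube (y : ℝ) (hy : 0 ≤ y) : (1 + y) ^ 3 ≤ 4 * (1 + y ^ 3) := by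
  nlinarith [mul_nonneg (add_nonneg zero_le_one hy) (sq_nonneg (1 - y))]

theorem tmd_pt (x b : ℝ) (α : ℕ) (hx : 0 < x) (hb : 1 ≤ b) (hxb : x ≤ b) (hα : α ≤ 1) :
    x ^ α * (1 + 1 / x) ^ 3 ≤ 4 * (b + 1 / x ^ (3 - α)) := by
  have h := tmd_cube (1 / x) (by positivity)
  interval_cases α
  · simp only [pow_zero, one_mul, Nat.sub_zero]
    rw [div_pow, one_pow] at h
    linarith
  · have e : x * (1 / x) ^ 3 = 1 / x ^ 2 := by field_simp
    have h2 := mul_le_mul_of_nonneg_left h hx.le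
    simp only [pow_one, show 3 - 1 = 2 from rfl]
    nlinarith

theorem tmd_maj (hDEC : DEC) : ∃ K : ℝ, 0 < K ∧ ∀ (ε t₀ : ℝ) (α : ℕ), 0 < ε → ε ≤ 1 → α ≤ 1 →
    ∃ h : ℝ → ℝ, Integrable h ∧ (∀ t, 0 ≤ h t) ∧ ∫ t, h t ≤ K * br t₀ ^ 4 * (ε ^ α / ε ^ 2) ∧
      ∀ t : ℝ, ‖(ε + t * I : ℂ)‖ ^ α * (Real.exp (-|t - t₀|) + Real.exp (-|t + t₀|)) *
        (br t * (1 + 1 / ‖(ε + t * I : ℂ)‖)) ^ 3 ≤ h t := by
  obtain ⟨C3, hC3, h3⟩ := tmd_dec hDEC 3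
  obtain ⟨C4, hC4, h4⟩ := tmd_dec hDEC 4
  obtain ⟨C5, hC5, h5⟩ := hDEC.2.2.2.2
  refine ⟨32 * C4 + 8 * C3 * C5, by positivity, fun ε t₀ α hε hε1 hα => ?_⟩
  obtain ⟨i5, j5⟩ := h5 ε (3 - α) hε (by omega) (by omega)
  obtain ⟨i1, j1⟩ := hDEC.2.2.1 t₀
  obtain ⟨i2, j2⟩ := hDEC.2.2.1 (-t₀)
  have hb := tmd_one t₀
  have hb0 : 0 < br t₀ := by linarith
  refine ⟨fun t => 4 * C4 * br t₀ ^ 4 * (Real.exp (-|t - t₀| / 2) + Real.exp (-|t - -t₀| / 2)) +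
    8 * C3 * br t₀ ^ 3 * (1 / ‖(ε + t * I : ℂ)‖ ^ (3 - α)),
    ((i1.add i2).const_mul _).add (i5.const_mul _), fun t => by positivity, ?_, fun t => ?_⟩
  · have i12 : Integrable fun t : ℝ =>
        Real.exp (-|t - t₀| / 2) + Real.exp (-|t - -t₀| / 2) := i1.add i2
    rw [integral_add (i12.const_mul _) (i5.const_mul _), integral_const_mul, integral_const_mul,
      integral_add i1 i2]
    have e : C5 * ε / ε ^ (3 - α) = C5 * (ε ^ α / ε ^ 2) := by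
      interval_cases α
      · simp only [Nat.sub_zero, pow_zero]; field_simp
      · simp only [show 3 - 1 = 2 from rfl, pow_one]; ring
    have q1 : 1 ≤ ε ^ α / ε ^ 2 := by
      rw [le_div_iff₀ (by positivity), one_mul]
      exact pow_le_pow_of_le_one hε.le hε1 (by omega)
    rw [e] at j5
    set Q := ε ^ α / ε ^ 2
    have b34 : br t₀ ^ 3 ≤ br t₀ ^ 4 := pow_le_pow_right₀ hb (by norm_num)
    have a1 : 4 * C4 * br t₀ ^ 4 * ((∫ t : ℝ, Real.exp (-|t - t₀| / 2)) +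
        ∫ t : ℝ, Real.exp (-|t - -t₀| / 2)) ≤ 4 * C4 * br t₀ ^ 4 * (8 * Q) :=
      mul_le_mul_of_nonneg_left (by linarith) (by positivity)
    have a2 : 8 * C3 * br t₀ ^ 3 * (∫ t : ℝ, 1 / ‖(ε + t * I : ℂ)‖ ^ (3 - α)) ≤
        8 * C3 * br t₀ ^ 4 * (C5 * Q) :=
      (mul_le_mul_of_nonneg_left j5 (by positivity)).trans
        (mul_le_mul_of_nonneg_right (mul_le_mul_of_nonneg_left b34 (by positivity))
          (by positivity))
    calc _ ≤ 4 * C4 * br t₀ ^ 4 * (8 * Q) + 8 * C3 * br t₀ ^ 4 * (C5 * Q) := add_le_add a1 a2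
      _ = _ := by ring
  · set x := ‖(ε + t * I : ℂ)‖ with hx
    have hx0 : 0 < x := by
      have := abs_re_le_norm (ε + t * I : ℂ)
      simp at this
      exact lt_of_lt_of_le (abs_pos.2 hε.ne') this
    have hxb : x ≤ br t := by
      have := norm_add_le (ε : ℂ) (t * I)
      simp at this
      rw [abs_of_pos hε] at this
      unfold br; linarith
    have hp := tmd_pt x (br t) α hx0 (tmd_one t) hxb hα
    have hbt : 0 < br t := by linarith [tmd_one t]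
    have k1 := h4 t t₀
    have k2 := h4 t (-t₀)
    have k3 := h3 t t₀
    have k4 := h3 t (-t₀)
    rw [tmd_neg] at k2 k4
    have l1 : Real.exp (-|t - t₀| / 2) ≤ 1 :=
      Real.exp_le_one_iff.2 (by linarith [abs_nonneg (t - t₀)])
    have l2 : Real.exp (-|t - -t₀| / 2) ≤ 1 :=
      Real.exp_le_one_iff.2 (by linarith [abs_nonneg (t - -t₀)])
    have k3' : Real.exp (-|t - t₀|) * br t ^ 3 ≤ C3 * br t₀ ^ 3 :=
      k3.trans (mul_le_of_le_one_right (by positivity) l1)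
    have k4' : Real.exp (-|t - -t₀|) * br t ^ 3 ≤ C3 * br t₀ ^ 3 :=
      k4.trans (mul_le_of_le_one_right (by positivity) l2)
    rw [show t + t₀ = t - -t₀ by ring]
    set E1 := Real.exp (-|t - t₀|)
    set E2 := Real.exp (-|t - -t₀|)
    have hE : 0 ≤ (E1 + E2) * br t ^ 3 := by positivity
    have hy : 0 ≤ 1 / x ^ (3 - α) := by positivity
    set y := 1 / x ^ (3 - α)
    have m1 : (E1 * br t ^ 3 + E2 * br t ^ 3) * y ≤ (2 * (C3 * br t₀ ^ 3)) * y :=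
      mul_le_mul_of_nonneg_right (by linarith) hy
    calc x ^ α * (E1 + E2) * (br t * (1 + 1 / x)) ^ 3
        = (E1 + E2) * br t ^ 3 * (x ^ α * (1 + 1 / x) ^ 3) := by ring
      _ ≤ (E1 + E2) * br t ^ 3 * (4 * (br t + y)) := mul_le_mul_of_nonneg_left hp hE
      _ = 4 * (E1 * br t ^ 4 + E2 * br t ^ 4) + 4 * ((E1 * br t ^ 3 + E2 * br t ^ 3) * y) := by
          ring
      _ ≤ 4 * (C4 * br t₀ ^ 4 * Real.exp (-|t - t₀| / 2) +
            C4 * br t₀ ^ 4 * Real.exp (-|t - -t₀| / 2)) + 4 * ((2 * (C3 * br t₀ ^ 3)) * y) := by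
          linarith
      _ = _ := by ring

theorem tmd_far (hFW : FW) (hDEC : DEC) (w : ℂ → ℂ) (ε N t₀ W : ℝ) (hε : 0 < ε) (hε1 : ε ≤ 1)
    (hN : 1 ≤ N) (h : Far w ε N t₀ W) :
    ∃ A : ℝ, 0 ≤ A ∧ ∀ s ∈ Strip ε 12, ‖w s‖ ≤ A / br s.im ^ 2 := by
  obtain ⟨C, hC, h2⟩ := tmd_dec hDEC 2
  have hW : 0 ≤ W := (hFW.2.1 w ε N t₀ W hε hε1 h).2.2 (by linarith)
  have hb := tmd_one t₀
  refine ⟨W * N ^ (12 : ℝ) * (C * br t₀ ^ 2), by positivity, fun s hs => ?_⟩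
  have hbs : 0 < br s.im := by linarith [tmd_one s.im]
  rw [le_div_iff₀ (by positivity)]
  have a := h.2 s (by linarith [hs.1]) (by linarith [hs.2])
  have b : N ^ s.re ≤ N ^ (12 : ℝ) := Real.rpow_le_rpow_of_exponent_le hN hs.2
  have l1 : Real.exp (-|s.im - t₀| / 2) ≤ 1 :=
    Real.exp_le_one_iff.2 (by linarith [abs_nonneg (s.im - t₀)])
  have c : Real.exp (-|s.im - t₀|) * br s.im ^ 2 ≤ C * br t₀ ^ 2 :=
    (h2 s.im t₀).trans (mul_le_of_le_one_right (by positivity) l1)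
  calc ‖w s‖ * br s.im ^ 2 ≤ W * N ^ s.re * Real.exp (-|s.im - t₀|) * br s.im ^ 2 :=
        mul_le_mul_of_nonneg_right a (by positivity)
    _ = W * N ^ s.re * (Real.exp (-|s.im - t₀|) * br s.im ^ 2) := by ring
    _ ≤ W * N ^ (12 : ℝ) * (C * br t₀ ^ 2) :=
        mul_le_mul (mul_le_mul_of_nonneg_left b hW) c (by positivity) (by positivity)

theorem tmd_shift (hSD0 : SD0) (hZDA : ZDA) (hFW : FW) (hDEC : DEC) (w : ℂ → ℂ) (P : Finset ℕ)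
    (R : (ℕ → ℤ) → ℝ) (ε N t₀ W : ℝ) (hP : OP P) (hε : 0 < ε) (hε1 : ε ≤ 1) (hN : 1 ≤ N)
    (h : Far w ε N t₀ W) :
    Jk w P R 1 0 = I2 ε fun s₁ s₂ => w s₁ * wt w s₂ * Zk P R 1 0 s₁ s₂ := by
  have h' := hFW.1 w ε N t₀ W h
  obtain ⟨A, hA, ha⟩ := tmd_far hFW hDEC w ε N t₀ W hε hε1 hN h
  obtain ⟨A', hA', ha'⟩ := tmd_far hFW hDEC (wt w) ε N (-t₀) W hε hε1 hN h'
  have d := (hFW.2.1 w ε N t₀ W hε hε1 h).1
  have d' := (hFW.2.1 (wt w) ε N (-t₀) W hε hε1 h').1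
  obtain ⟨⟨n1, n2, n3⟩, M, hM⟩ := hZDA P R ε 12 hP hε (by linarith)
  have s1 : Strip ε 12 ⊆ {s : ℂ | 0 < s.re} := fun s hs => lt_of_lt_of_le hε hs.1
  have s2 : OStrip ε 12 ⊆ {s : ℂ | 0 < s.re} := fun s hs => lt_trans hε hs.1
  refine hSD0 ε 12 (A * A' * M) _ (by linarith) ⟨?_, fun s hs => ?_, fun s hs => ?_⟩ ?_
  · refine ContinuousOn.mul (ContinuousOn.mul ?_ ?_) n1
    · exact (d.continuousOn.mono s1).comp continuousOn_fst fun x hx => hx.1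
    · exact (d'.continuousOn.mono s1).comp continuousOn_snd fun x hx => hx.2
  · exact ((d.mono s2).mul_const _).mul (n2 s hs)
  · exact ((d'.mono s2).const_mul _).mul (n3 s hs)
  · intro s₁ h₁ s₂ h₂
    have b1 : 0 < br s₁.im := by linarith [tmd_one s₁.im]
    have b2 : 0 < br s₂.im := by linarith [tmd_one s₂.im]
    rw [norm_mul, norm_mul]
    calc ‖w s₁‖ * ‖wt w s₂‖ * ‖Zk P R 1 0 s₁ s₂‖
        ≤ A / br s₁.im ^ 2 * (A' / br s₂.im ^ 2) * M :=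
          mul_le_mul (mul_le_mul (ha s₁ h₁) (ha' s₂ h₂) (norm_nonneg _) (by positivity))
            (hM s₁ h₁ s₂ h₂) (norm_nonneg _) (by positivity)
      _ = _ := by field_simp

theorem tmd_near (w : ℂ → ℂ) (ε lam t₀ W : ℝ) (α c C₀ : ℕ) (hε : 0 < ε) (hl : 0 ≤ lam)
    (hc : c ≤ C₀) (hW : 0 ≤ W) (h : Near w ε lam t₀ α C₀ W) (t : ℝ) :
    ‖w (ε + t * I)‖ * (1 + lam * |t|) ^ c ≤
      W * (‖(ε + t * I : ℂ)‖ ^ α * (Real.exp (-|t - t₀|) + Real.exp (-|t + t₀|))) := by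
  have a := h (ε + t * I) t (by simp; linarith)
  have u : 1 ≤ 1 + lam * |t| := by linarith [mul_nonneg hl (abs_nonneg t)]
  have u0 : 0 < 1 + lam * |t| := by linarith
  calc ‖w (ε + t * I)‖ * (1 + lam * |t|) ^ c
      ≤ (W * ‖(ε + t * I : ℂ)‖ ^ α / (1 + lam * |t|) ^ C₀ *
          (Real.exp (-|t - t₀|) + Real.exp (-|t + t₀|))) * (1 + lam * |t|) ^ C₀ :=
        mul_le_mul a (pow_le_pow_right₀ u hc) (by positivity) (by positivity)
    _ = _ := by field_simp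

theorem pTMD (hSD0 : SD0) (hZD : ZD) (hZDA : ZDA) (hFW : FW) (hDEC : DEC) : TMD := by
  obtain ⟨C, c, hC, hZ⟩ := hZD
  obtain ⟨K, hK, hm⟩ := tmd_maj hDEC
  refine ⟨C * K ^ 2, c, by positivity, ?_⟩
  intro w P B R lam T Y ε N t₀ W₀ W₁ α C₀ hT hε hε1 hl hN hα hc hW hF hn
  have hε2 : ε ≤ 1 := by linarith
  obtain ⟨h, hi, h0, hI, hp⟩ := hm ε t₀ α hε hε2 hα
  have hT0 := hT.T0
  have hl0 := hT.lam0
  rw [tmd_shift hSD0 hZDA hFW hDEC w P R ε N t₀ W₁ hT.op hε hε2 hN hF]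
  unfold I2
  have hi2 : Integrable (fun t : ℝ × ℝ => C * T * W₀ ^ 2 / ε ^ 4 * (h t.1 * h t.2)) :=
    (hi.mul_prod hi).const_mul _
  refine (norm_integral_le_of_norm_le hi2 (Filter.Eventually.of_forall fun t => ?_)).trans ?_
  · have a1 := tmd_near w ε lam t₀ W₀ α c C₀ hε hl0 hc hW hn t.1
    have a2 := tmd_near (wt w) ε lam t₀ W₀ α c C₀ hε hl0 hc hW
      (hFW.2.2.1 w ε lam t₀ W₀ α C₀ hn) t.2
    have a3 := hZ P B R lam T Y ε (ε + t.1 * I) (ε + t.2 * I) hT hε hε1 hl (by simp) (by simp)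
    have e1 : ((ε : ℂ) + t.1 * I).im = t.1 := by simp
    have e2 : ((ε : ℂ) + t.2 * I).im = t.2 := by simp
    rw [e1, e2] at a3
    have p1 := hp t.1
    have p2 := hp t.2
    have b1 : 0 < br t.1 := by linarith [tmd_one t.1]
    have b2 : 0 < br t.2 := by linarith [tmd_one t.2]
    set U1 := (br t.1 * (1 + 1 / ‖(ε + t.1 * I : ℂ)‖)) ^ 3 with hU1
    set U2 := (br t.2 * (1 + 1 / ‖(ε + t.2 * I : ℂ)‖)) ^ 3 with hU2
    have u1 : 0 ≤ U1 := by rw [hU1]; positivity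
    have u2 : 0 ≤ U2 := by rw [hU2]; positivity
    have g1 : ‖w (ε + t.1 * I)‖ * (1 + lam * |t.1|) ^ c * U1 ≤ W₀ * h t.1 :=
      (mul_le_mul_of_nonneg_right a1 u1).trans
        (by rw [mul_assoc]; exact mul_le_mul_of_nonneg_left p1 hW)
    have g2 : ‖wt w (ε + t.2 * I)‖ * (1 + lam * |t.2|) ^ c * U2 ≤ W₀ * h t.2 :=
      (mul_le_mul_of_nonneg_right a2 u2).trans
        (by rw [mul_assoc]; exact mul_le_mul_of_nonneg_left p2 hW)
    have g3 := mul_le_mul g1 g2 (by positivity) (mul_nonneg hW (h0 _))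
    rw [norm_mul, norm_mul]
    calc _ ≤ ‖w (ε + t.1 * I)‖ * ‖wt w (ε + t.2 * I)‖ *
          (C * T * (1 + lam * |t.1|) ^ c * (1 + lam * |t.2|) ^ c / ε ^ 4 * U1 * U2) :=
          mul_le_mul_of_nonneg_left a3 (by positivity)
      _ = C * T / ε ^ 4 * (‖w (ε + t.1 * I)‖ * (1 + lam * |t.1|) ^ c * U1 *
          (‖wt w (ε + t.2 * I)‖ * (1 + lam * |t.2|) ^ c * U2)) := by ring
      _ ≤ C * T / ε ^ 4 * (W₀ * h t.1 * (W₀ * h t.2)) :=
          mul_le_mul_of_nonneg_left g3 (by positivity)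
      _ = _ := by ring
  · rw [integral_const_mul, Measure.volume_eq_prod, integral_prod_mul]
    have hI0 : 0 ≤ ∫ t, h t := integral_nonneg h0
    have hb : 0 < br t₀ := by linarith [tmd_one t₀]
    calc C * T * W₀ ^ 2 / ε ^ 4 * ((∫ t, h t) * ∫ t, h t)
        ≤ C * T * W₀ ^ 2 / ε ^ 4 * ((K * br t₀ ^ 4 * (ε ^ α / ε ^ 2)) *
            (K * br t₀ ^ 4 * (ε ^ α / ε ^ 2))) :=
          mul_le_mul_of_nonneg_left (mul_le_mul hI hI hI0 (by positivity)) (by positivity)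
      _ = _ := by rw [two_mul, pow_add]; field_simp

end Pool.Agent.QM
end

-- part Pool.Agent.P.MP_ea46f5_nt.QM.FTME
section

namespace Pool.Agent.QM

open Complex MeasureTheory Finset
open scoped Real ComplexConjugate

theorem tme_odd {P : Finset ℕ} {l : ℕ} (hP : OP P) (h0 : l ≠ 0) (hl : l.primeFactors ⊆ P) :
    Odd l := by
  rcases Nat.even_or_odd l with h | h
  · exact absurd rfl (hP 2 (hl (Nat.mem_primeFactors.2 ⟨Nat.prime_two, h.two_dvd, h0⟩))).2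
  · exact h

theorem tme_Zk {ι : Type} [Fintype ι] (P : Finset ℕ) (R : (ℕ → ℤ) → ℝ) (l : ι → ℕ) (r : ι → ℝ)
    (hR : ∀ x, R x = ∑ i, r i * (mon x (l i) : ℝ)) (k : ℤ) (z s₁ s₂ : ℂ) :
    Zk P R k z s₁ s₂ = ∑ i, (r i : ℂ) * Zk P (fun x => (mon x (l i) : ℝ)) k z s₁ s₂ := by
  unfold Zk Ex
  simp only [hR, ← mul_assoc, ← Finset.sum_mul]
  congr 1
  simp only [Finset.mul_sum, Complex.ofReal_sum, Complex.ofReal_mul]
  rw [Finset.sum_comm]
  refine Finset.sum_congr rfl fun i _ => Finset.sum_congr rfl fun x _ => ?_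
  ring

theorem tme_Jk (hINT : INT) (hE1 : E1) {ι : Type} [Fintype ι] (w : ℂ → ℂ) (P : Finset ℕ)
    (R : (ℕ → ℤ) → ℝ) (l : ι → ℕ) (r : ι → ℝ) (hw : LI w) (hP : OP P)
    (hl : ∀ i, l i ≠ 0 ∧ (l i).primeFactors ⊆ P)
    (hR : ∀ x, R x = ∑ i, r i * (mon x (l i) : ℝ)) (k : ℤ) (z : ℂ) (h0 : 0 ≤ z.re)
    (h6 : z.re ≤ 6) : Jk w P R k z = ∑ i, (r i : ℂ) * J1 w (l i) k z := by
  unfold Jk J1 I2
  have e12 : ((12 : ℝ) : ℂ) = 12 := by norm_num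
  simp only [e12]
  simp only [← integral_const_mul]
  rw [← integral_finsetSum]
  · refine integral_congr_ae (Filter.Eventually.of_forall fun t => ?_)
    have a1 : (12 + t.1 * I : ℂ).re = 12 := by simp
    have a2 : (12 + t.2 * I : ℂ).re = 12 := by simp
    simp only []
    rw [tme_Zk P R l r hR, Finset.mul_sum]
    refine Finset.sum_congr rfl fun i _ => ?_
    rw [hE1 P (l i) k z _ _ hP (hl i).1 (hl i).2 h0 h6 a1 a2]
    ring
  · intro i _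
    exact (((hINT w (l i) k hw (hl i).1).1 z h0 h6).const_mul _)

theorem tme_norm_le {α : Type} {f : α → ℂ} {a : ℂ} {c : ℝ} (h : HasSum f a)
    (hc : ∀ s : Finset α, ∑ x ∈ s, ‖f x‖ ≤ c) : ‖a‖ ≤ c :=
  le_of_tendsto' (Filter.Tendsto.norm h) fun s => (norm_sum_le _ _).trans (hc s)

theorem pTME (hEXA : EXA) (hEXC : EXC) (hINT : INT) (hE1 : E1) (hEXL : EXL) : TME := by
  intro w P B R X K Y σ₁ b hw hX hP hL hR0 h1 h6
  obtain ⟨ι, _, l, r, hl, hR, -⟩ := hL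
  have hodd : ∀ i, Odd (l i) := fun i => tme_odd hP (hl i).1 (hl i).2
  have hJ := tme_Jk hINT hE1 w P R l r hw hP hl hR
  have hline : ∀ (k : ℤ) (σ : ℝ), 1 / 2 < σ → σ ≤ 6 → ∀ y : ℝ,
      Kz k X (σ + y * I) * Jk w P R k (σ + y * I) =
        ∑ i, (r i : ℂ) * (Kz k X (σ + y * I) * J1 w (l i) k (σ + y * I)) := by
    intro k σ a1 a2 y
    have e : (σ + y * I : ℂ).re = σ := by simp
    rw [hJ k _ (by rw [e]; linarith) (by rw [e]; exact a2), Finset.mul_sum]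
    exact Finset.sum_congr rfl fun i _ => by ring
  have hY : ∀ (k : ℤ) (σ : ℝ), k ≠ 0 → 1 / 2 < σ → σ ≤ 6 → Yk w P R X k σ =
      ∑ i, (r i : ℂ) * (1 / (2 * π) * Iv σ fun z => Kz k X z * J1 w (l i) k z) := by
    intro k σ hk a1 a2
    unfold Yk Iv
    simp only [hline k σ a1 a2]
    rw [integral_finsetSum _ fun i _ =>
      ((hINT w (l i) k hw (hl i).1).2 X σ hk hX a1 a2).const_mul _, Finset.mul_sum]
    refine Finset.sum_congr rfl fun i _ => ?_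
    rw [integral_const_mul]
    ring
  refine ⟨?_, fun hb F => ?_⟩
  · simp only [hline 1 σ₁ h1 h6]
    exact integrable_finsetSum _ fun i _ =>
      ((hINT w (l i) 1 hw (hl i).1).2 X σ₁ one_ne_zero hX h1 h6).const_mul _
  set σ : ℤ → ℝ := fun k => if k = 1 then σ₁ else sk K k with hσ
  have hσ1 : ∀ k, 1 / 2 < σ k ∧ σ k ≤ 6 := by
    intro k
    simp only [hσ, sk]
    split_ifs
    · exact ⟨h1, h6⟩
    · norm_num
    · norm_num
  have hσ2 : ∀ k : ℤ, max K 1 < |(k : ℝ)| → σ k = 6 := by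
    intro k hk
    have a1 : k ≠ 1 := by
      rintro rfl
      have := le_max_right K 1
      simp at hk
    have a2 : ¬ |(k : ℝ)| ≤ K := not_le.2 ((le_max_left K 1).trans_lt hk)
    simp only [hσ, sk, if_neg a1, if_neg a2]
  have hA : HasSum (fun m : ℤ => ((GX X m * ‖Dw w m‖ ^ 2 * R (jv m) : ℝ) : ℂ))
      (∑ i, (r i : ℂ) * PsI w X (l i)) := by
    have h := hasSum_sum (s := Finset.univ) fun i _ =>
      (hEXA w X (l i) hw hX (hodd i)).mul_left (r i : ℂ)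
    have e : (fun m : ℤ => ((GX X m * ‖Dw w m‖ ^ 2 * R (jv m) : ℝ) : ℂ)) = fun m : ℤ =>
        ∑ i, (r i : ℂ) * ((GX X m * ‖Dw w m‖ ^ 2 * (jacobiSym m (l i) : ℝ) : ℝ) : ℂ) := by
      funext m
      rw [hR, Finset.mul_sum, Complex.ofReal_sum]
      refine Finset.sum_congr rfl fun i _ => ?_
      rw [hEXL.2.2.2.1 m (l i) (hl i).1 (hodd i), ← Complex.ofReal_mul]
      congr 1
      ring
    rw [e]
    exact h
  have hC : HasSum (fun k : SF => (X : ℂ) * Yk w P R X k (σ k))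
      (∑ i, (r i : ℂ) * PsI w X (l i) - X * Jk w P R 1 0) := by
    have h := hasSum_sum (s := Finset.univ) fun i _ =>
      (hEXC w X (max K 1) (l i) σ hw hX (hodd i) hσ1 hσ2).mul_left (r i : ℂ)
    have e : (fun k : SF => (X : ℂ) * Yk w P R X k (σ k)) = fun k : SF => ∑ i, (r i : ℂ) *
        ((X : ℂ) * (1 / (2 * π) * Iv (σ k) fun z => Kz k X z * J1 w (l i) k z)) := by
      funext k
      rw [hY k (σ k) k.2.ne_zero (hσ1 k).1 (hσ1 k).2, Finset.mul_sum]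
      exact Finset.sum_congr rfl fun i _ => by ring
    have e2 : ∑ i, (r i : ℂ) * PsI w X (l i) - X * Jk w P R 1 0 =
        ∑ i, (r i : ℂ) * (PsI w X (l i) - X * J1 w (l i) 1 0) := by
      rw [hJ 1 0 (by simp) (by simp), Finset.mul_sum, ← Finset.sum_sub_distrib]
      exact Finset.sum_congr rfl fun i _ => by ring
    rw [e, e2]
    exact h
  have hX' : ‖(X : ℂ)‖ = X := by rw [Complex.norm_real, Real.norm_of_nonneg hX.le]
  have hCb := tme_norm_le (c := X * (‖Yk w P R X 1 σ₁‖ + b)) hC fun s => by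
    simp only [norm_mul, hX', ← Finset.mul_sum]
    refine mul_le_mul_of_nonneg_left ?_ hX.le
    have e := Finset.sum_map s (Function.Embedding.subtype _) fun k : ℤ => ‖Yk w P R X k (σ k)‖
    simp only [Function.Embedding.coe_subtype] at e
    rw [← e]
    set G := s.map (Function.Embedding.subtype fun k : ℤ => Squarefree k) with hG
    have hsq : SQ (G.erase 1) := by
      intro k hk
      obtain ⟨a1, a2⟩ := Finset.mem_erase.1 hk
      obtain ⟨k', -, rfl⟩ := Finset.mem_map.1 a2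
      exact ⟨k'.2, a1⟩
    have h2 : ∑ k ∈ G.erase 1, ‖Yk w P R X k (σ k)‖ ≤ b := by
      refine le_of_eq_of_le (Finset.sum_congr rfl fun k hk => ?_) (hb _ hsq)
      simp only [hσ, if_neg (Finset.mem_erase.1 hk).1]
    have h3 : ∑ k ∈ G, ‖Yk w P R X k (σ k)‖ ≤ ∑ k ∈ insert 1 (G.erase 1), ‖Yk w P R X k (σ k)‖ :=
      Finset.sum_le_sum_of_subset_of_nonneg (Finset.subset_insert_iff.2 (by simp))
        fun _ _ _ => norm_nonneg _
    rw [Finset.sum_insert (Finset.notMem_erase _ _)] at h3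
    have h4 : σ 1 = σ₁ := by simp only [hσ, if_true]
    rw [h4] at h3
    linarith
  have hre := Complex.hasSum_re hA
  simp only [Complex.ofReal_re] at hre
  have h5 : ∑ m ∈ F, GX X m * ‖Dw w m‖ ^ 2 * R (jv m) ≤ _ := sum_le_hasSum F (fun m _ =>
    mul_nonneg (mul_nonneg (Real.exp_pos _).le (sq_nonneg _)) (hR0 (jv m))) hre
  have h7 := Complex.re_le_norm (∑ i, (r i : ℂ) * PsI w X (l i))
  have h8 := norm_le_norm_sub_add (∑ i, (r i : ℂ) * PsI w X (l i)) (X * Jk w P R 1 0)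
  rw [norm_mul, hX'] at h8
  linarith

end Pool.Agent.QM
end

-- part Pool.Agent.P.MP_ea46f5_nt.QM.FTQ
section

namespace Pool.Agent.QM

open Complex MeasureTheory Finset
open scoped Real ComplexConjugate

theorem tq_GX (X : ℝ) (k : ℤ) (hk : k ∈ Sq X) (hX : 1 ≤ X) : 1 ≤ Real.exp π * GX X k := by
  classical
  have h : |(k : ℝ)| ≤ X := by
    unfold Sq at hk
    exact (Finset.mem_filter.1 hk).2.2.2.2
  have h2 : (k : ℝ) ^ 2 ≤ X ^ 2 := by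
    rw [← sq_abs (k : ℝ)]
    exact pow_le_pow_left₀ (abs_nonneg _) h 2
  have hX2 : 0 < X ^ 2 := by positivity
  unfold GX
  rw [← Real.exp_add]
  apply Real.one_le_exp
  have h3 : (k : ℝ) ^ 2 / X ^ 2 ≤ 1 := (div_le_one hX2).2 h2
  have h4 : -π * (k : ℝ) ^ 2 / X ^ 2 = -(π * ((k : ℝ) ^ 2 / X ^ 2)) := by ring
  rw [h4]
  have := mul_le_mul_of_nonneg_left h3 Real.pi_pos.le
  linarith

theorem tq_br (t : ℝ) : 0 < br t := by unfold br; positivity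

theorem tq_M {A : ℕ} {K M : ℝ} (h : Dual A K M) : 0 ≤ M := by
  have := h ∅ (fun k hk => by simp at hk) 0
  simpa [br] using this

theorem tq_Y {P : Finset ℕ} {B : ℕ} {R : (ℕ → ℤ) → ℝ} {Y : ℝ} (h : HasLen P B R Y) : 0 ≤ Y := by
  obtain ⟨ι, _, l, r, -, -, h3⟩ := h
  exact le_trans (Finset.sum_nonneg fun i _ => by positivity) h3

theorem tq_far0 {φ : ℂ → ℂ} {ε Δ V : ℝ} (hε : 0 < ε) (hε1 : ε ≤ 1) (hΔ : 0 ≤ Δ)
    (h : FarP φ ε Δ V) : FarP φ ε 0 V := by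
  have hV : 0 ≤ V := by
    have h1 := h.2 1 (by simp; linarith) (by simp)
    have h2 : 0 ≤ V * Real.exp (-Δ * (1 : ℂ).re) := le_trans (norm_nonneg _) h1
    exact nonneg_of_mul_nonneg_left h2 (Real.exp_pos _)
  refine ⟨h.1, fun s hs1 hs2 => le_trans (h.2 s hs1 hs2) ?_⟩
  apply mul_le_mul_of_nonneg_left _ hV
  apply Real.exp_le_exp.2
  have : 0 ≤ Δ * s.re := mul_nonneg hΔ (by linarith)
  linarith

theorem tq_arith (X Δ T Y M V₀ V₁ D b : ℝ) (α : ℕ) (hX : 1 ≤ X) (hL : 100 ≤ Real.log X)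
    (hΔ : 0 ≤ Δ) (hT : 0 ≤ T) (hY : 0 ≤ Y) (hM : 0 ≤ M) (hb : 0 ≤ b) :
    X * T * (D * V₀) ^ 2 * (1 / Real.log X) ^ (2 * α) / (1 / Real.log X) ^ 8 +
      Y * (D * V₁) ^ 2 * (X / (X * Real.exp (-Δ)) * M * b +
        (X * Real.exp (-Δ)) ^ (3 * (1 / Real.log X)) * √(X * (X * Real.exp (-Δ))) /
          (1 / Real.log X) ^ 5 +
        (X * Real.exp (-Δ)) ^ (3 * (1 / Real.log X)) * √X / (1 / Real.log X) ^ 11) ≤
    Real.exp 3 * D ^ 2 * (X * T * V₀ ^ 2 * Real.log X ^ 8 / Real.log X ^ (2 * α) + Y * V₁ ^ 2 *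
        (Real.exp Δ * M * b + Real.log X ^ 5 * X * Real.exp (-Δ / 2) +
          Real.log X ^ 11 * √X)) := by
  have hX0 : 0 < X := by linarith
  set L := Real.log X with hLdef
  have hL0 : 0 < L := by linarith
  have he : 1 ≤ Real.exp 3 := Real.one_le_exp (by norm_num)
  have hN : (X * Real.exp (-Δ)) ^ (3 * (1 / L)) ≤ Real.exp 3 := by
    have h1 : X * Real.exp (-Δ) ≤ X :=
      mul_le_of_le_one_right hX0.le (Real.exp_le_one_iff.2 (by linarith))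
    have h2 : (X * Real.exp (-Δ)) ^ (3 * (1 / L)) ≤ X ^ (3 * (1 / L)) :=
      Real.rpow_le_rpow (by positivity) h1 (by positivity)
    have h3 : X ^ (3 * (1 / L)) = Real.exp 3 := by
      rw [Real.rpow_def_of_pos hX0, ← hLdef]
      congr 1
      field_simp
    exact h3 ▸ h2
  have hs : √(X * (X * Real.exp (-Δ))) = X * Real.exp (-Δ / 2) := by
    have h1 : X * (X * Real.exp (-Δ)) = (X * Real.exp (-Δ / 2)) ^ 2 := by
      have : Real.exp (-Δ) = Real.exp (-Δ / 2) ^ 2 := by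
        rw [← Real.exp_nat_mul]; congr 1; push_cast; ring
      rw [this]; ring
    rw [h1, Real.sqrt_sq (by positivity)]
  have hq : X / (X * Real.exp (-Δ)) = Real.exp Δ := by
    rw [Real.exp_neg]; field_simp
  rw [hs, hq]
  set u := (X * Real.exp (-Δ)) ^ (3 * (1 / L)) with hu
  have hu0 : 0 ≤ u := by rw [hu]; positivity
  have e1 : X * T * (D * V₀) ^ 2 * (1 / L) ^ (2 * α) / (1 / L) ^ 8 =
      D ^ 2 * (X * T * V₀ ^ 2 * L ^ 8 / L ^ (2 * α)) := by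
    rw [one_div, inv_pow, inv_pow]; field_simp
  have e2 : u * (X * Real.exp (-Δ / 2)) / (1 / L) ^ 5 = u * (L ^ 5 * X * Real.exp (-Δ / 2)) := by
    rw [one_div, inv_pow]; field_simp
  have e3 : u * √X / (1 / L) ^ 11 = u * (L ^ 11 * √X) := by
    rw [one_div, inv_pow]; field_simp
  rw [e1, e2, e3]
  set a1 := X * T * V₀ ^ 2 * L ^ 8 / L ^ (2 * α) with ha1
  set a2 := Real.exp Δ * M * b with ha2
  set a3 := L ^ 5 * X * Real.exp (-Δ / 2) with ha3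
  set a4 := L ^ 11 * √X with ha4
  have h1 : 0 ≤ a1 := by rw [ha1]; positivity
  have h2 : 0 ≤ a2 := by rw [ha2]; positivity
  have h3 : 0 ≤ a3 := by rw [ha3]; positivity
  have h4 : 0 ≤ a4 := by rw [ha4]; positivity
  have k1 : a1 ≤ Real.exp 3 * a1 := le_mul_of_one_le_left h1 he
  have k2 : a2 ≤ Real.exp 3 * a2 := le_mul_of_one_le_left h2 he
  have k3 : u * a3 ≤ Real.exp 3 * a3 := mul_le_mul_of_nonneg_right hN h3
  have k4 : u * a4 ≤ Real.exp 3 * a4 := mul_le_mul_of_nonneg_right hN h4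
  have k5 : Y * V₁ ^ 2 * (a2 + u * a3 + u * a4) ≤
      Y * V₁ ^ 2 * (Real.exp 3 * a2 + Real.exp 3 * a3 + Real.exp 3 * a4) :=
    mul_le_mul_of_nonneg_left (by linarith) (by positivity)
  have k6 : D ^ 2 * (a1 + Y * V₁ ^ 2 * (a2 + u * a3 + u * a4)) ≤
      D ^ 2 * (Real.exp 3 * a1 +
        Y * V₁ ^ 2 * (Real.exp 3 * a2 + Real.exp 3 * a3 + Real.exp 3 * a4)) :=
    mul_le_mul_of_nonneg_left (by linarith) (by positivity)
  calc D ^ 2 * a1 + Y * (D * V₁) ^ 2 * (a2 + u * a3 + u * a4)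
      = D ^ 2 * (a1 + Y * V₁ ^ 2 * (a2 + u * a3 + u * a4)) := by ring
    _ ≤ _ := k6
    _ = _ := by ring

theorem pTQ (hTM : TM) (hWT : WT) (hSQD : SQD) : TQ := by
  obtain ⟨C₀, B, c, hB, hTM⟩ := hTM
  obtain ⟨h, Cw, hCw, hWT⟩ := hWT
  obtain ⟨Cs, hCs, hSQD⟩ := hSQD
  refine ⟨C₀, B, c + 2 * h, hB, fun A => ?_⟩
  obtain ⟨C, hC, hTM⟩ := hTM A
  refine ⟨Cs * (Real.exp π * C * Real.exp 3 * Cw ^ 2), by positivity, ?_⟩
  intro φ P R lam T Y X Δ t V₀ V₁ M α hTw hX hL hlam hΔ hΔL hα hV₀ hFar hNear hDual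
  have hX0 : 0 < X := by linarith
  have hL0 : 0 < Real.log X := by linarith
  have hε : 0 < 1 / Real.log X := by positivity
  have hε1 : 1 / Real.log X ≤ 1 / 100 := one_div_le_one_div_of_le (by norm_num) hL
  have hεl : 1 / Real.log X * lam ≤ 1 := by
    rw [one_div, inv_mul_le_iff₀ hL0]; linarith
  have hN : 1 ≤ X * Real.exp (-Δ) := by
    have h1 : X * Real.exp (-Δ) = Real.exp (Real.log X - Δ) := by
      rw [sub_eq_add_neg, Real.exp_add, Real.exp_log hX0]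
    rw [h1]; exact Real.one_le_exp (by linarith)
  have hK : (X * Real.exp (-Δ)) ^ 2 / X = X * Real.exp (-2 * Δ) := by
    have : Real.exp (-2 * Δ) = Real.exp (-Δ) ^ 2 := by
      rw [← Real.exp_nat_mul]; congr 1; push_cast; ring
    rw [this]; field_simp
  have hM := tq_M hDual
  have hY := tq_Y hTw.len
  have hbr := tq_br t
  set S := X * T * V₀ ^ 2 * Real.log X ^ 8 / Real.log X ^ (2 * α) + Y * V₁ ^ 2 *
        (Real.exp Δ * M * br t ^ A + Real.log X ^ 5 * X * Real.exp (-Δ / 2) +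
          Real.log X ^ 11 * √X) with hS
  have key := hSQD φ (fun k => R (jv k)) X t
    (Real.exp π * C * Real.exp 3 * Cw ^ 2 * br t ^ (c + 2 * h) * S) (1 / Real.log X) V₁ hX
    (by linarith) (tq_far0 hε (by linarith) hΔ hFar) (fun k => hTw.pos _) ?_
  · calc _ ≤ _ := key
      _ = _ := by ring
  intro a γ y ha hγ
  obtain ⟨hF, hNr⟩ := hWT a γ t y X Δ lam V₀ V₁ φ α C₀ ha hγ hL hX hTw.lam0 hV₀
  have h1 := hTM (ww a γ t (phy φ y) X) P R lam T Y (1 / Real.log X) X (X * Real.exp (-Δ)) t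
    (Cw * br t ^ h * V₀ * Real.exp (-|y|)) (Cw * br t ^ h * V₁ * Real.exp (-|y|)) M α (Sq X)
    hTw hε hε1 hεl hX hN hα (by positivity) (hF hFar) (hNr hNear) (hK ▸ hDual)
  have h2 := tq_arith X Δ T Y M V₀ V₁ (Cw * br t ^ h * Real.exp (-|y|)) (br t ^ A) α hX hL hΔ
    hTw.T0 hY hM (by positivity)
  have e0 : Cw * br t ^ h * V₀ * Real.exp (-|y|) = Cw * br t ^ h * Real.exp (-|y|) * V₀ := by ring
  have e1 : Cw * br t ^ h * V₁ * Real.exp (-|y|) = Cw * br t ^ h * Real.exp (-|y|) * V₁ := by ring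
  rw [e0, e1] at h1
  rw [← hS] at h2
  have h3 := le_trans h1 (mul_le_mul_of_nonneg_left h2 (by positivity))
  have e2 : Real.exp (-2 * |y|) = Real.exp (-|y|) ^ 2 := by
    rw [← Real.exp_nat_mul]; congr 1; push_cast; ring
  calc ∑ k ∈ Sq X, R (jv k) * ‖Dw (ww a γ t (phy φ y) X) k‖ ^ 2
      ≤ ∑ k ∈ Sq X, Real.exp π *
          (GX X k * ‖Dw (ww a γ t (phy φ y) X) k‖ ^ 2 * R (jv k)) := by
        refine Finset.sum_le_sum fun k hk => ?_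
        have h4 := tq_GX X k hk hX
        have h5 : 0 ≤ R (jv k) * ‖Dw (ww a γ t (phy φ y) X) k‖ ^ 2 :=
          mul_nonneg (hTw.pos _) (by positivity)
        calc _ ≤ (Real.exp π * GX X k) * (R (jv k) * ‖Dw (ww a γ t (phy φ y) X) k‖ ^ 2) :=
              le_mul_of_one_le_left h5 h4
          _ = _ := by ring
    _ = Real.exp π * ∑ k ∈ Sq X, GX X k * ‖Dw (ww a γ t (phy φ y) X) k‖ ^ 2 * R (jv k) := by
        rw [Finset.mul_sum]
    _ ≤ Real.exp π * (C * br t ^ c *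
          (Real.exp 3 * (Cw * br t ^ h * Real.exp (-|y|)) ^ 2 * S)) :=
        mul_le_mul_of_nonneg_left h3 (Real.exp_pos _).le
    _ = _ := by rw [e2]; ring

end Pool.Agent.QM
end
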