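import Pool.Agent.K.MP_ea46f5_nt.C12
import Pool.Agent.K.MP_ea46f5_nt.C8
import Pool.Agent.K.MP_ea46f5_nt.C5

-- part Pool.Agent.P.MP_ea46f5_nt.Q4.S4
section

/-! Statements of the core. A proof of a statement may use the statements above it. -/

namespace Pool.Agent.Q4

open Complex MeasureTheory Finset Pool.Agent.QM
open scoped Real ComplexConjugate

/-! Section 1: toolbox -/

def HSEP : Prop := ∀ (n : ℕ) (U : Set (Fin n → ℂ)) (G : (Fin n → ℂ) → ℂ), Hol U G → Sep U G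

/-- Shift of four lines, trivial bound, Gaussians against polynomials. -/
def SH4 : Prop :=
  (∀ (a b M : ℝ) (c c' : R4) (G : V4 → ℂ), (∀ j, a ≤ c j ∧ c j ≤ b) → (∀ j, a ≤ c' j ∧ c' j ≤ b) →
    Hol (Bx a b) G → (∀ u ∈ Bx a b, ‖G u‖ ≤ M * dn 2 u) →
    In c G = In c' G ∧ IL c G ∧ ‖In c G‖ ≤ 16 * M) ∧
  (∀ (n m : ℕ) (u : V4), gn m u * dn (n + m) u = dn n u ∧ dn (n + m) u ≤ dn n u ∧ 0 < dn n u ∧
    1 ≤ gn n u ∧ dn 2 u = dk u) ∧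
  (∀ (κ : ℝ) (n m : ℕ), 0 < κ → ∃ C : ℝ, 0 < C ∧ ∀ τ t : ℝ,
    br τ ^ n * Real.exp (-κ * (τ - t) ^ 2) ≤ C * br t ^ n * Real.exp (-|τ - t|) ∧
    br τ ^ n * Real.exp (-κ * (τ - t) ^ 2) ≤ C * br t ^ n / br (τ - t) ^ m ∧
    br τ ^ n * Real.exp (-κ * (τ - t) ^ 2) ≤ C * br t ^ (n + m) / br τ ^ m)

/-- Infinite products in several variables. -/
def PRH : Prop := ∀ (E : Type) [NormedAddCommGroup E] [NormedSpace ℂ E] (U : Set E)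
  (y : Nat.Primes → E → ℂ) (b : Nat.Primes → ℝ), IsOpen U → Summable b → (∀ p, Hol U (y p)) →
  (∀ p, ∀ x ∈ U, ‖y p x - 1‖ ≤ b p) →
  Hol U (fun x => ∏' p, y p x) ∧
    ∀ x ∈ U, Multipliable (fun p => y p x) ∧ ‖∏' p, y p x‖ ≤ Real.exp (∑' p, b p)

def PH4 : Prop := ∀ (a b M : ℝ) (c : R4) (F : ℂ → V4 → ℂ),
  (∀ z ∈ Strip a b, ∀ t : R4, DifferentiableAt ℂ (fun x : ℂ × V4 => F x.1 x.2) (z, pt c t) ∧
    ‖F z (pt c t)‖ ≤ M * dk (pt c t)) →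
  Nice a b fun z => In c (F z)

def FUB5 : Prop := ∀ (σ M : ℝ) (c : R4) (F : ℂ → V4 → ℂ),
  (Continuous fun x : ℝ × R4 => F (σ + x.1 * I) (pt c x.2)) →
  (∀ (y : ℝ) (t : R4), ‖F (σ + y * I) (pt c t)‖ ≤ M / br y ^ 2 * dk (pt c t)) →
  Iv σ (fun z => In c (F z)) = In c (fun u => Iv σ fun z => F z u) ∧
    Lc σ (fun z => In c (F z)) ∧ IL c (fun u => Iv σ fun z => F z u) ∧
    ‖Iv σ fun z => In c (F z)‖ ≤ 32 * M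

def SH4P : Prop := ∀ (a b C : ℝ) (f : ℂ → ℂ) (u : V4), (∀ i, a < (u i).re ∧ (u i).re < b) →
  (∀ i j, i ≠ j → u i ≠ u j) → Nice a b f → (∀ s ∈ Strip a b, ‖f s‖ ≤ C / br s.im) →
  Iv b (fun z => f z / ∏ j, (z - u j)) = Iv a (fun z => f z / ∏ j, (z - u j)) +
    2 * π * ∑ i, f (u i) / ∏ j ∈ univ.erase i, (u i - u j)

/-- A sum of norms of integrals; no measurability is needed. -/
def SIV : Prop := ∀ (α : Type) [MeasureSpace α] (F : Finset ℤ) (f : ℤ → α → ℂ) (g : α → ℝ),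
  Integrable g →
  (∀ y, ∑ k ∈ F, ‖f k y‖ ≤ g y) → ∑ k ∈ F, ‖∫ y, f k y‖ ≤ ∫ y, g y

/-- Four factors with bounded fourth moments against a decaying weight. -/
def L4 : Prop := ∀ (A : ℕ) (N B y : ℝ) (F : Finset ℤ) (ω : ℤ → ℝ) (l : ℤ → ℝ → ℝ)
  (G : ℤ → R4 → ℂ), 0 ≤ N → (∀ k ∈ F, 0 ≤ ω k) → (∀ k τ, 0 ≤ l k τ) →
  (∀ τ, ∑ k ∈ F, ω k * l k τ ^ 4 ≤ B * br τ ^ A) →
  (∀ k ∈ F, ∀ t : R4,
    ‖G k t‖ ≤ N * ω k * (∏ j, 1 / br (t j + y) ^ (A + 2)) * ∏ j, l k (t j)) →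
  ∑ k ∈ F, ‖∫ t, G k t‖ ≤ 16 * N * B * br y ^ A

/-- Divisors of the Vandermonde factor. -/
def VDP : Prop := ∃ (C : ℝ) (N : ℕ), 0 < C ∧
  (Differentiable ℂ fun u : V4 => Vd fun j => u j ^ 2) ∧
  (∀ u ∈ Bx (-1) 13, ‖Vd (fun j => u j ^ 2) ^ 2‖ ≤ C * gn N u ∧ ‖an u‖ ≤ C * gn N u ∧
    ‖∏ j, u j‖ ≤ C * gn N u ∧ ‖hf u‖ ≤ C * gn N u) ∧
  (∃ P : V4 → ℂ, Differentiable ℂ P ∧ (∀ u, Vd (fun j => u j ^ 2) ^ 2 = P u * an u) ∧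
    ∀ u ∈ Bx (-1) 13, ‖P u‖ ≤ C * gn N u) ∧
  (∀ i, ∃ P : V4 → ℂ, Differentiable ℂ P ∧
    (∀ u, Vd (fun j => u j ^ 2) ^ 2 = P u * ∏ j ∈ univ.erase i, (u j - u i)) ∧
    ∀ u ∈ Bx (-1) 13, ‖P u‖ ≤ C * gn N u) ∧
  ∀ u : V4, Vd (fun j => u j ^ 2) * (16 * ∏ j, u j) = Vd u * ∏ i, ∏ j ∈ Ici i, (u i + u j)

def PR4 : Prop := ∀ (c : ℝ) (f : Fin 4 → ℂ → ℂ),
  (∀ j, Lc c (f j) ∧ Lc c fun u => u ^ 2 * f j u) →
  IL (cs c) (fun u => an u * ∏ j, f j (u j)) ∧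
    In (cs c) (fun u => an u * ∏ j, f j (u j)) = pr c (f 0) (f 1) * pr c (f 2) (f 3)

def ZF : Prop :=
  Differentiable ℂ lz ∧ lz 0 = 1 / 2 ∧ (∀ w : ℂ, w ≠ 0 → Lo 1 (1 + w) = lz w / w) ∧
  (∀ w : ℂ, iz (1 + w) = w / lz w) ∧ ∃ C : ℝ, 0 < C ∧
    (∀ w : ℂ, -(3 / 4) ≤ w.re → w.re ≤ 29 → ‖lz w‖ ≤ C * br w.im ^ 2) ∧
    ∀ w : ℂ, 0 ≤ w.re → lz w ≠ 0 ∧ ‖(lz w)⁻¹‖ ≤ C * br w.im ^ 2

def XIB : Prop := ∃ (C : ℝ) (c : ℕ), 0 < C ∧ ∀ a : ℕ, a ≤ 1 → ∀ u : ℂ,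
  (-(1 / 2) < u.re → DifferentiableAt ℂ (xi a) u) ∧
    (-(1 / 4) ≤ u.re → u.re ≤ 3 → ‖xi a u‖ ≤ C * br u.im ^ c)

def KZ2 : Prop := ∀ n : ℕ, ∃ C : ℝ, 0 < C ∧ ∀ z : ℂ, 0 < z.re → z.re ≤ 1 / 4 →
  ‖z * (Gammaℝ z * riemannZeta (2 * z))‖ ≤ C / br z.im ^ n

def TH8 : Prop := Differentiable ℂ th8 ∧
  (∀ z : ℂ, ‖th8 z‖ ≤ Real.exp (-z.re) * (1 + ‖z‖) ^ 7) ∧
  ∃ β : ℂ → ℂ, Differentiable ℂ β ∧ (∀ z, 1 - th8 z = z ^ 8 * β z) ∧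
    ∀ z : ℂ, -1 ≤ z.re → ‖β z‖ ≤ 1

def PHW : Prop := ∀ η x : ℝ, 0 < η → 0 < x →
  (∀ c : ℝ, 0 < c → (phi η x : ℂ) = 1 / (2 * π) * Iv c fun v => rho η v * (x : ℂ) ^ (-v)) ∧
  0 ≤ phi η x ∧ phi η x ≤ 1 ∧
  (1 ≤ x → phi η x ≤ Real.exp (-Real.log x ^ 2 / (4 * η ^ 2))) ∧
  (x ≤ 1 → 1 - phi η x ≤ Real.exp (-Real.log x ^ 2 / (4 * η ^ 2))) ∧
  (η ≤ 1 / 30 → phi η x ≤ 2 / x ^ 7)

def DIV : Prop := ∃ C : ℝ, 0 < C ∧ ∀ f : ℕ, (f.divisors.card : ℝ) ^ 5 ≤ C * √(f : ℝ)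

def TC4 : Prop := ∃ C : ℝ, 0 < C ∧ ∀ (ε : ℝ) (c s : R4), 0 < ε → ε ≤ 1 / 100 →
  (∀ j, s j = 1 ∨ s j = -1) →
  Integrable (fun τ : R4 => (∏ j, Real.exp (-|τ j - c j|)) * cm ε s τ) ∧
    ∫ τ : R4, (∏ j, Real.exp (-|τ j - c j|)) * cm ε s τ ≤ C * Real.log (1 / ε) ^ 2

def REP1 : Prop := ∃ C : ℝ, 0 < C ∧ ∀ (f R : ℂ → ℂ) (c M : ℝ), Lc 0 f →
  (∀ u ∈ Strip (-(1 / 4)) 3, DifferentiableAt ℂ R u ∧ ‖R u‖ ≤ M / br (u.im - c) ^ 2) →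
  ‖Iv 0 fun u => R u * f u‖ ≤ C * M * ∫ w : ℝ, Ew w * ‖Iv 0 fun u => f u * cexp (w * u)‖

def REP4 : Prop := ∃ C : ℝ, 0 < C ∧
  ∀ (F : Finset ℤ) (ω ω' Mk : ℤ → ℝ) (f R : ℤ → V4 → ℂ) (c : R4) (δ M B : ℝ), 0 < δ → δ ≤ 1 →
    0 ≤ M → (∀ k ∈ F, 0 ≤ ω k ∧ 0 ≤ ω' k ∧ ω' k * Mk k ≤ M * ω k ∧ IL (cs 0) (f k) ∧
      Hol (Bx (-δ) δ) (R k) ∧
      ∀ s ∈ Bx (-δ) δ, ‖R k s‖ ≤ Mk k * ∏ j, 1 / br ((s j).im - c j) ^ 2) →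
    Bd F ω f B → Bd F ω' (fun k s => f k s * R k s) (C * M * B / δ ^ 4) ∧
      ∀ k ∈ F, IL (cs 0) fun s => f k s * R k s

def MUL : Prop := ∀ (F : Finset ℤ) (ω : ℤ → ℝ) (f : ℤ → V4 → ℂ) (B : ℝ) (h : ℝ → ℂ) (g : ℂ → ℂ)
  (i j : Fin 4), Integrable h → (∀ x : ℝ, g (x * I) = ∫ v : ℝ, h v * cexp (x * I * v)) →
  (∀ k ∈ F, 0 ≤ ω k ∧ IL (cs 0) (f k)) → Bd F ω f B →
  Bd F ω (fun k s => f k s * g (s i + s j)) ((∫ v, ‖h v‖) * B) ∧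
    ∀ k ∈ F, IL (cs 0) fun s => f k s * g (s i + s j)

def IZF : Prop := ∃ (A : ℕ) (h : ℝ → ℂ), Integrable h ∧
  ∀ x : ℝ, gz A (x * I) = ∫ v : ℝ, h v * cexp (x * I * v)

def IZM : Prop := ∃ (A : ℕ) (C : ℝ), 0 < C ∧
  ∀ (F : Finset ℤ) (ω : ℤ → ℝ) (f : ℤ → V4 → ℂ) (B : ℝ), (∀ k ∈ F, 0 ≤ ω k ∧ IL (cs 0) (f k)) →
    Bd F ω f B → Bd F ω (fun k s => f k s * ∏ i, ∏ j ∈ Ici i, gz A (s i + s j)) (C * B)

/-! Section 2: Euler products -/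

def E04 : Prop :=
  (∀ u : V4, (C4 u).IsMultiplicative) ∧ (∀ (u : V4) (n : ℕ), ¬ Odd n → C4 u n = 0) ∧
  (∀ (u : V4) (n : ℕ), (∀ j, (u j).re = 12) → ‖C4 u n‖ ≤ (n : ℝ) ^ (-(19 / 2) : ℝ)) ∧
  (∀ n : ℕ, Continuous fun u : V4 => C4 u n) ∧
  (∀ (m : ℤ) (u : V4), (∀ j, (u j).re = 12) →
    HasSum (fun n : ℕ => C4 u n * (jacobiSym m n : ℂ)) (LL m u)) ∧
  (∀ (u : V4) (p : ℕ) (y : ℂ), p.Prime → p ≠ 2 → (∀ j, 0 ≤ (u j).re) → ‖y‖ ≤ 1 →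
    HasSum (fun j : ℕ => C4 u (p ^ j) * y ^ j) (Fq u p y))

def CYB : Prop :=
  (∀ (z : ℂ) (n : ℕ), cY 1 z n = 1) ∧ (∀ (Y n : ℕ), Continuous fun z => cY Y z n) ∧
  (∀ (Y n : ℕ) (z : ℂ), z.re ≤ 6 → ‖cY Y z n‖ ≤ (Y : ℝ) ^ 11) ∧
  (∀ (Y : ℕ) (k : ℤ) (f : ℕ), Squarefree k → Odd f →
    |sY Y (k * (f : ℤ) ^ 2)| ≤ f.divisors.card ∧ (1 ≤ Y → f = 1 → sY Y (k * (f : ℤ) ^ 2) = 1) ∧
      (1 < f → f ≤ Y → sY Y (k * (f : ℤ) ^ 2) = 0)) ∧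
  ∀ (Y : ℕ) (m : ℤ), |sY Y m| ≤ Y

def E4a : Prop := ∀ (Y : ℕ) (k : ℤ) (z : ℂ) (u : V4), 0 ≤ z.re → z.re ≤ 6 → (∀ j, (u j).re = 12) →
  ZY Y k z u = HY Y z (loc4 k z u) (fun _ => 1) ∧
    Multipliable fun p : Nat.Primes => if (p : ℕ) = 2 then 1 else loc4 k z u p

def LOC4 : Prop := ∃ C : ℝ, 0 < C ∧ ∀ p : ℕ, p.Prime → p ≠ 2 →
  (∀ k : ℤ, ∀ x ∈ Vk, ‖loc4 k x.1 x.2 p * fk k x.1 x.2 p - 1‖ ≤ C * (p : ℝ) ^ (-(11 / 10) : ℝ) ∧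
    ‖fk k x.1 x.2 p‖ ≤ C) ∧
  ∀ x ∈ V1, ‖loc4 1 x.1 x.2 p * n1 x.1 x.2 p - 1‖ ≤ C * (p : ℝ) ^ (-(11 / 10) : ℝ) ∧
    ‖n1 x.1 x.2 p‖ ≤ C

def LOD : Prop := IsOpen Vk ∧ IsOpen V1 ∧ ∀ p : ℕ, p.Prime →
  (∀ k : ℤ, Hol Vk (fun x => loc4 k x.1 x.2 p) ∧ Hol Vk fun x => fk k x.1 x.2 p) ∧
    Hol V1 (fun x => loc4 1 x.1 x.2 p) ∧ Hol V1 fun x => n1 x.1 x.2 p

def HTa : Prop := ∀ C : ℝ, 0 < C → ∃ (C' : ℝ) (B : ℕ), 0 < C' ∧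
  ∀ (U : Set (ℂ × V4)) (y F : ℕ → ℂ × V4 → ℂ) (Y : ℕ), IsOpen U → (∀ x ∈ U, x.1.re < 7) →
    (∀ p : ℕ, p.Prime → p ≠ 2 → Hol U (y p) ∧ Hol U (F p) ∧ ∀ x ∈ U,
      ‖y p x - 1‖ ≤ C * (p : ℝ) ^ (-(11 / 10) : ℝ) ∧ ‖F p x‖ ≤ C) →
    Hol U (fun x => HY Y x.1 (fun p => y p x) fun p => F p x) ∧
      ∀ x ∈ U, ‖HY Y x.1 (fun p => y p x) fun p => F p x‖ ≤ C' * (Y : ℝ) ^ B

def HTb : Prop := ∀ C : ℝ, 0 < C → ∃ C' : ℝ, 0 < C' ∧ ∀ (y F : ℕ → ℂ) (Y : ℕ), 1 ≤ Y →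
  (∀ p : ℕ, p.Prime → p ≠ 2 → ‖y p - 1‖ ≤ C * (p : ℝ) ^ (-(11 / 10) : ℝ) ∧ ‖F p‖ ≤ C) →
  ‖HY Y 0 y F - HJ y F‖ ≤ C' / √(Y : ℝ) ∧ ‖HJ y F‖ ≤ C'

/-- What the analysis uses about `Hk`, `Hone`, `HI`. -/
def HB4 : Prop := ∃ (C : ℝ) (B : ℕ), 0 < C ∧ ∀ Y : ℕ,
  (∀ k : ℤ, Hol Vk (fun x => Hk Y k x.1 x.2) ∧ ∀ x ∈ Vk, ‖Hk Y k x.1 x.2‖ ≤ C * (Y : ℝ) ^ B) ∧
  Hol V1 (fun x => Hone Y x.1 x.2) ∧ (∀ x ∈ V1, ‖Hone Y x.1 x.2‖ ≤ C * (Y : ℝ) ^ B) ∧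
  (1 ≤ Y → ∀ u : V4, (∀ j, 0 ≤ (u j).re) →
    ‖Hone Y 0 u - HI u‖ ≤ C / √(Y : ℝ) ∧ ‖HI u‖ ≤ C) ∧
  ContinuousOn HI {u | ∀ j, 0 ≤ (u j).re}

def E4k : Prop := ∀ (Y : ℕ) (k : ℤ) (z : ℂ) (s : V4), k ≠ 0 → 1 / 2 < z.re → z.re ≤ 6 →
  (∀ j, (sh z s j).re = 12) →
  ZY Y k z (sh z s) = (∏ j, Lo k (1 / 2 + s j)) * IZ4 s * Hk Y k z (sh z s)

def E41 : Prop := ∀ (Y : ℕ) (z : ℂ) (u : V4), 0 ≤ z.re → z.re ≤ 6 → (∀ j, (u j).re = 12) →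
  ZY Y 1 z u = (∏ j, Lo 1 (1 + (u j - z))) * ZR z u * Hone Y z u

def HA4 : Prop := ∀ u : V4, (∀ j, 0 < (u j).re) →
  (∏ i, ∏ j ∈ Ici i, (1 - (2 : ℂ) ^ (-(1 + u i + u j)))) * HI u *
    ((Fq u 2 1 + Fq u 2 (-1) + 1) / 8) = 3 / π ^ 2 * Aprod 4 u

/-- Holomorphy and growth of the zeta factors. -/
def ZB : Prop := ∃ (C : ℝ) (n : ℕ), 0 < C ∧
  Hol {u : V4 | ∀ j, 0 < (u j).re} ZO ∧
  Hol {x : ℂ × V4 | 0 ≤ x.1.re ∧ ∀ j, 0 < (x.2 j).re} (fun x => ZR x.1 x.2) ∧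
  Hol {s : V4 | ∀ j, 0 ≤ (s j).re} IZ4 ∧
  (∀ s ∈ Bx 0 12, ‖IZ4 s‖ ≤ C * gn n s) ∧
  (∀ ε : ℝ, 0 < ε → ε ≤ 1 → ∀ u ∈ Bx ε 12, ‖ZO u‖ ≤ C * gn n u / ε ^ 10 ∧
    ∀ z ∈ Strip 0 6, ‖ZR z u‖ ≤ C * br z.im ^ n * gn n u / ε ^ 10) ∧
  ∀ u : V4, (∀ j, 0 < (u j).re) →
    (∏ j, Lo 1 (1 + (u j - 0))) * ZR 0 u = ZO u ∧ ∀ i, ZR (u i) u = ZX i u

/-! Section 3: expansion -/

def EX4 : Prop := ∀ (Y : ℕ) (a : ℤ → V4 → ℂ) (c0 : V4 → ℂ) (K : ℤ → ℂ → V4 → ℂ) (σ : ℤ → ℝ),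
  PoD Y a c0 K σ →
  Summable (fun m : ℤ => In (cs 12) fun u => a m u * LL m u) ∧
    HasSum (fun κ : SF => Yk Y K (σ κ) κ)
      ((∑' m : ℤ, In (cs 12) fun u => a m u * LL m u) - In (cs 12) fun u => c0 u * ZY Y 1 0 u)

def POG : Prop := ∀ (X M : ℝ) (W : V4 → ℂ) (σ : ℤ → ℝ), 0 < X → SG σ →
  (Continuous fun t : R4 => W (pt (cs 12) t)) → (∀ t, ‖W (pt (cs 12) t)‖ ≤ M * dk (pt (cs 12) t)) →
  PoD 1 (fun m u => GX X m * W u) (fun u => X * W u) (KG X W) σ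

def POC : Prop := ∀ (τ r : ℤ) (E : ℤ → ℂ → ℂ) (C M : ℝ) (Y : ℕ) (Ω : ℂ → V4 → ℂ) (σ : ℤ → ℝ),
  KA E C → PDI τ r E → SG σ → OmE Ω M →
  PoD Y (ac τ r Y Ω) (fun u => Ω 1 u / 8) (KP E Ω) σ

def DSH : Prop := ∃ n : ℕ, ∀ (Y : ℕ) (k : ℤ) (z : ℂ) (W : V4 → ℂ) (M : ℝ), Squarefree k → k ≠ 1 →
  3 / 4 ≤ z.re → z.re ≤ 6 → Hol (Bx (z.re - 1 / 2) 12) W →
  (∀ u ∈ Bx (z.re - 1 / 2) 12, ‖W u‖ ≤ M * dn n u) →
  In (cs 12) (fun u => W u * ZY Y k z u) =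
    In (cs 0) fun s => W (sh z s) * ((∏ j, Lo k (1 / 2 + s j)) * IZ4 s * Hk Y k z (sh z s))

def DG : Prop := ∃ n : ℕ, ∀ (Y : ℕ) (c0 : V4 → ℂ) (ε M : ℝ), 0 < ε → ε ≤ 1 → Hol (Bx ε 12) c0 →
  (∀ u ∈ Bx ε 12, ‖c0 u‖ ≤ M * dn n u) →
  In (cs 12) (fun u => c0 u * ZY Y 1 0 u) = In (cs ε) fun u => c0 u * (ZO u * Hone Y 0 u)

def K1a : Prop := ∃ n₀ : ℕ, ∀ n, n₀ ≤ n → ∀ (Kr H : ℂ → V4 → ℂ) (ε X V M : ℝ), KC n Kr H ε X V M →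
  Y1 Kr H (3 / 4) (cs 12) = Y1 Kr H (ε / 2) (cs 12) + 2 * π * In (cs 12) (G1 Kr H (1 / 2))

def K1b : Prop := ∃ (n₀ : ℕ) (C : ℝ), 0 < C ∧ ∀ n, n₀ ≤ n →
  ∀ (Kr H : ℂ → V4 → ℂ) (ε X V M : ℝ), KC n Kr H ε X V M →
    ‖In (cs 12) (G1 Kr H (1 / 2))‖ ≤ C * V * M * X ^ (9 / 10 : ℝ)

def K1c : Prop := ∃ n₀ : ℕ, ∀ n, n₀ ≤ n → ∀ (Kr H : ℂ → V4 → ℂ) (ε X V M : ℝ), KC n Kr H ε X V M →
  Y1 Kr H (ε / 2) (cs 12) = Y1 Kr H (ε / 2) (rl ε)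

def K1d : Prop := ∃ n₀ : ℕ, ∀ n, n₀ ≤ n → ∀ (Kr H : ℂ → V4 → ℂ) (ε X V M : ℝ), KC n Kr H ε X V M →
  Y1 Kr H (ε / 2) (rl ε) = Y1 Kr H (1 / 4) (rl ε) + 2 * π * ∑ i, In (rl ε) (Fl Kr H i)

def K1e : Prop := ∃ (n₀ : ℕ) (C : ℝ), 0 < C ∧ ∀ n, n₀ ≤ n →
  ∀ (Kr H : ℂ → V4 → ℂ) (ε X V M : ℝ), KC n Kr H ε X V M →
    ‖Y1 Kr H (1 / 4) (rl ε)‖ ≤ C * V * M * X ^ (9 / 10 : ℝ) / ε ^ 10

def K1 : Prop := ∃ (n : ℕ) (C : ℝ), 0 < C ∧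
  ∀ (Y : ℕ) (K : ℤ → ℂ → V4 → ℂ) (Kr : ℂ → V4 → ℂ) (ε X V M : ℝ), KC n Kr (Hone Y) ε X V M →
    (∀ (z : ℂ) (u : V4), z.re = 3 / 4 → K 1 z u = Kr z u * hf u / (z - 1 / 2)) →
    ‖Yk Y K (3 / 4) 1 - ∑ i, In (rl ε) (Fl Kr (Hone Y) i)‖ ≤ C * V * M * X ^ (9 / 10 : ℝ) / ε ^ 10

/-! Section 4: pairs -/

/-- Integrability of packets. -/
def PWI : Prop := ∀ (κ t v : ℝ) (j : ℕ), Kp κ →
  (∀ k : ℤ, Squarefree k → k ≠ 1 → Lc 0 fun u => u ^ j * (pw κ t v u * Lo k (1 / 2 + u))) ∧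
    ∀ m : ℤ, Lc 12 fun u => u ^ j * (pw κ t v u * LS m (1 / 2 + u))

def PKB : Prop := ∀ κ t κ' t' : ℝ, Kp κ → Kp κ' →
  (∀ (v v' : ℝ) (m : ℤ), In (cs 12) (fun u => W2 κ t v κ' t' v' u * LL m u) =
    ((‖Bm κ t v κ' t' v' m‖ ^ 2 : ℝ) : ℂ)) ∧
  ∀ k : ℤ, Squarefree k → k ≠ 1 →
    (∀ v v' : ℝ, Bm κ t v κ' t' v' k = Pk κ t v κ' t' v' k ∧
      Pk κ' t' v' κ t v k = -Pk κ t v κ' t' v' k) ∧
    (∀ v' : ℝ, Continuous fun v => Pk κ t v κ' t' v' k) ∧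
    ∃ M : ℝ, ∀ v v' : ℝ, ‖Pk κ t v κ' t' v' k‖ ≤ M

def BAS : Prop := DI 10 0 0

def MT2 : Prop := ∀ θ : ℝ, 0 ≤ θ → θ ≤ 10 → DI θ 0 0 → PP2 θ

def BP : Prop := ∀ θ : ℝ, PP2 θ → ∀ κ κ' : ℝ, Kp κ → Kp κ' → ∃ (A : ℕ) (C : ℝ), 0 < C ∧
  ∀ (K : ℝ) (c : R4) (F : Finset ℤ), 0 < K → SQ F →
    Bd F (fun k => om (|(k : ℝ)| / K)) (amp κ κ' c) (C * K * lg K ^ θ * ∏ j, br (c j) ^ A) ∧
      ∀ k ∈ F, IL (cs 0) (amp κ κ' c k)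

/-- Size of `W2`; the quotient by `hf`. -/
def W2B : Prop := ∀ (κ κ' : ℝ) (n : ℕ), Kp κ → Kp κ' → ∃ (A : ℕ) (C : ℝ), 0 < C ∧
  ∀ t v t' v' : ℝ, ∃ Q : V4 → ℂ, Differentiable ℂ Q ∧
    (∀ u, W2 κ t v κ' t' v' u = an u * (∏ j, u j) * Q u * hf u) ∧
    ∀ u ∈ Bx 0 12, ‖Q u‖ * gn n u ≤ C * br t ^ A * br t' ^ A *
      Real.exp (v * ((u 0).re + (u 2).re) + v' * ((u 1).re + (u 3).re)) *
      ∏ j, Real.exp (-|(u j).im - (![t, t', -t, -t'] : R4) j|)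

def TMa : Prop := ∀ (κ t v κ' t' v' X K b : ℝ) (F : Finset ℤ), Kp κ → Kp κ' → 0 < X →
  (∀ F' : Finset ℤ, SQ F' → ∑ k ∈ F', ‖Yk 1 (KG X (W2 κ t v κ' t' v')) (s1 K k) k‖ ≤ b) →
  ∑ m ∈ F, GX X m * ‖Bm κ t v κ' t' v' m‖ ^ 2 ≤
    ‖In (cs 12) fun u => X * W2 κ t v κ' t' v' u * ZY 1 1 0 u‖ +
      ‖Yk 1 (KG X (W2 κ t v κ' t' v')) (3 / 4) 1‖ + b

/-- The Cauchy determinant. -/
def CAU : Prop := ∃ (C : ℝ) (n : ℕ), 0 < C ∧ ∀ (ε : ℝ) (τ : R4), 0 < ε → ε ≤ 1 / 100 →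
  ‖an (pt (cs ε) τ) * (∏ j, pt (cs ε) τ j) * ZO (pt (cs ε) τ)‖ ≤
      C * gn n (pt (cs ε) τ) * cm ε (cs 1) τ ∧
    ∀ i, ‖an (pt (rl ε) τ) * (∏ j ∈ univ.erase i, pt (rl ε) τ j) * FZ i (pt (rl ε) τ)‖ ≤
      C * gn n (pt (rl ε) τ) * cm ε (sgi i) τ

def TMb1 : Prop := ∀ κ κ' : ℝ, Kp κ → Kp κ' → ∃ (A : ℕ) (C : ℝ), 0 < C ∧
  ∀ t v t' v' X : ℝ, 1 ≤ X → 100 ≤ Real.log X → Real.exp v ≤ X → Real.exp v' ≤ X →
    ‖In (cs 12) fun u => X * W2 κ t v κ' t' v' u * ZY 1 1 0 u‖ ≤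
      C * br t ^ A * br t' ^ A * X * Real.log (Real.log X) ^ 2

def TMb2 : Prop := ∀ κ κ' : ℝ, Kp κ → Kp κ' → ∃ (A : ℕ) (C : ℝ), 0 < C ∧
  ∀ t v t' v' X : ℝ, 1 ≤ X → 100 ≤ Real.log X → Real.exp v ≤ X → Real.exp v' ≤ X →
    ‖Yk 1 (KG X (W2 κ t v κ' t' v')) (3 / 4) 1‖ ≤
      C * br t ^ A * br t' ^ A * X * Real.log (Real.log X) ^ 2

/-- The dual integrand is an amplitude times a holomorphic factor. -/
def ALG : Prop := ∀ (κ κ' : ℝ) (A : ℕ), Kp κ → Kp κ' → ∃ (A' : ℕ) (C : ℝ), 0 < C ∧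
  ∀ (t v t' v' : ℝ) (k : ℤ) (z : ℂ), 3 / 4 ≤ z.re → z.re ≤ 6 → ∃ R : V4 → ℂ,
    Hol (Bx (-(1 / 40)) (1 / 40)) R ∧
    (∀ s ∈ Bx (-(1 / 40)) (1 / 40), ‖R s‖ ≤ C * br z.im ^ A' * br t ^ A' * br t' ^ A' *
      ∏ j, 1 / br ((s j).im - (![t - z.im, t' - z.im, -t - z.im, -t' - z.im] : R4) j) ^ 2) ∧
    ∀ s ∈ Bx 0 0, W2 κ t v κ' t' v' (sh z s) *
        ((∏ j, Lo k (1 / 2 + s j)) * IZ4 s * Hk 1 k z (sh z s)) =
      cexp ((z - 1 / 2) * (2 * (v + v'))) *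
        (amp (κ / 2) (κ' / 2) ![t - z.im, t' - z.im, -t - z.im, -t' - z.im] k s * R s *
          (∏ i, ∏ j ∈ Ici i, gz A (s i + s j)) * ev s ![v, v', v, v'])

def TMc1 : Prop := ∀ θ : ℝ, PP2 θ → ∀ κ κ' : ℝ, Kp κ → Kp κ' → ∃ (A : ℕ) (C : ℝ), 0 < C ∧
  ∀ (t v t' v' K y : ℝ) (σ : ℤ → ℝ) (F : Finset ℤ), 0 < K → SQ F → (∀ k, 3 / 4 ≤ σ k ∧ σ k ≤ 6) →
    ∑ k ∈ F, om (|(k : ℝ)| / K) * Real.exp (-(σ k - 1 / 2) * (2 * (v + v'))) *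
        ‖In (cs 12) fun u => W2 κ t v κ' t' v' u * ZY 1 k (σ k + y * I) u‖ ≤
      C * br y ^ A * br t ^ A * br t' ^ A * K * lg K ^ θ

def TMc : Prop := ∀ θ : ℝ, PP2 θ → ∀ κ κ' : ℝ, Kp κ → Kp κ' → ∃ (A : ℕ) (C : ℝ), 0 < C ∧
  ∀ (t v t' v' X : ℝ) (F : Finset ℤ), 0 < X → SQ F →
    ∑ k ∈ F, ‖Yk 1 (KG X (W2 κ t v κ' t' v')) (s1 (Real.exp (2 * (v + v')) / X) k) k‖ ≤
      C * br t ^ A * br t' ^ A * Real.exp (v + v') * lg (Real.exp (2 * (v + v')) / X) ^ θ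

def TM2 : Prop := ∀ θ : ℝ, 0 ≤ θ → θ ≤ 10 → PP2 θ → ∀ κ κ' : ℝ, Kp κ → Kp κ' →
  ∃ (A : ℕ) (C : ℝ), 0 < C ∧ ∀ (t v t' v' X : ℝ) (F : Finset ℤ), 1 ≤ X → 100 ≤ Real.log X →
    Real.exp v ≤ X → Real.exp v' ≤ X →
    ∑ m ∈ F, GX X m * ‖Bm κ t v κ' t' v' m‖ ^ 2 ≤ C * br t ^ A * br t' ^ A *
      (X * Real.log (Real.log X) ^ 2 + Real.exp (v + v') * lg X ^ θ)

def FL2 : Prop := ∃ C R₀ : ℝ, 0 < C ∧ 200 ≤ R₀ ∧ ∀ κ t v κ' t' v' Z R M : ℝ, Kp κ → Kp κ' → 0 < Z →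
  R₀ ≤ R → (∀ (w w' : ℝ) (F : Finset ℤ), w ≤ v → w' ≤ v' →
    ∑ m ∈ F, GX (Z * R ^ 2) m * ‖Bm κ t w κ' t' w' m‖ ^ 2 ≤ M) →
  ∑ k ∈ Sq Z, ‖Bm κ t v κ' t' v' k‖ ^ 2 ≤ C * (Real.log R / R) * M

def DIR : Prop := ∀ θ δ : ℝ, 0 ≤ θ → θ ≤ 10 → 0 < δ → PP2 θ → DI (θ / 2 + δ) 2 2

def RF1 : Prop := ∀ κ : ℝ, Kp κ → ∃ (C : ℝ) (c : ℕ), 0 < C ∧
  ∀ (t v κ' t' v' Z : ℝ) (k : ℤ), Kp κ' → 1 ≤ Z → k ∈ Sq Z →
    ‖Pk κ t v κ' t' v' k‖ ≤ C * br t ^ c *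
      ∫ w : ℝ, Ew w * ‖Pk (κ / 2) (-t) (Real.log Z - v + w) κ' t' v' k‖

def RF2 : Prop := ∀ (θ : ℝ) (j : ℕ), (DI θ 2 j → DI θ 0 j) ∧ ∀ j' : ℕ, DI θ j j' → DI θ j' j

def REC : Prop := ∀ θ : ℝ, 0 < θ → PP2 θ

/-! Section 5: the exact part -/

def G1W : Prop := ∀ (a : ℕ) (c : Fin 3 → ℂ), a ≤ 1 →
  (∃ C : ℝ, 0 < C ∧ GC (g1 a c) C) ∧ ∀ u : ℂ, gg a c u = (u ^ 2 - 1 / 4) * g1 a c u

def AFE4 : Prop := ∀ (c : Fin 3 → ℂ) (k : ℤ), Squarefree k → k ≠ 1 →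
  24 * π ^ 4 * Lf k (1 / 2) ^ 4 =
    In (cs 12) fun u => W4 (g1 (par k) c) (gam k) u * (qk k : ℂ) ^ us u * LL k u

def REAL : Prop := ∀ k : ℤ, Squarefree k → k ≠ 1 → (Lf k (1 / 2)).im = 0

/-- Classes modulo 8. -/
def CLM : Prop :=
  (∀ τ r k : ℤ, (τ = 1 ∨ τ = -1) → r ∈ RS → Cl τ r k →
    gam k = gam r ∧ qk k = cq r * |(k : ℝ)| ∧ (τ : ℝ) = (-1) ^ par k) ∧
  (∀ (a : ℕ) (k : ℤ), a ≤ 1 → Squarefree k →
    (par k = a → k % 8 ∈ RS ∧ Cl ((-1) ^ a) (k % 8) k) ∧ ∀ r, Cl ((-1) ^ a) r k → par k = a) ∧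
  (∀ r : ℤ, 1 ≤ cq r ∧ cq r ≤ 4)

/-- Size of the kernel and of the cut-off. -/
def WRB : Prop := ∀ (g : ℂ → ℂ) (C₀ : ℝ) (n : ℕ), GC g C₀ → ∃ C : ℝ, 0 < C ∧ ∀ γ ∈ T3,
  Hol {u : V4 | ∀ j, 0 < (u j).re} (fun u => ∏ j, wr g γ (u j)) ∧
  Hol {u : V4 | ∀ j, 0 < (u j).re} (Wr g γ) ∧
  (∀ Δ : ℝ, Differentiable ℂ (cF Δ)) ∧ Differentiable ℂ hf ∧ Differentiable ℂ us ∧
  ∀ ε Δ : ℝ, 0 < ε → 1 ≤ Δ → ∀ u ∈ Bx ε 12,
    ‖(∏ j, wr g γ (u j)) * (1 - cF Δ u)‖ ≤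
      C * (Δ / min ε 1) ^ 28 * Real.exp (-Δ * ε) * dn n u ∧
    ‖Wr g γ u * (1 - cF Δ u)‖ ≤ C * (Δ / min ε 1) ^ 28 * Real.exp (-Δ * ε) * dn n u ∧
    ‖W4 g γ u * (1 - cF Δ u)‖ ≤ C * (Δ / min ε 1) ^ 28 * Real.exp (-Δ * ε) * dn n u ∧
    ‖W4 g γ u‖ ≤ C * (1 / min ε 1) ^ 28 * dn n u ∧
    ‖W4 g γ u * ZO u‖ ≤ C * (∏ j, 1 / ‖u j‖ ^ 8) * dn n u ∧
    ‖cF Δ u‖ ≤ Δ ^ 32 * ∏ j, ‖u j‖ ^ 8

def AFS : Prop := ∀ (c : Fin 3 → ℂ) (k : ℤ) (Δ : ℝ), Squarefree k → k ≠ 1 → 1 ≤ Δ →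
  24 * π ^ 4 * Lf k (1 / 2) ^ 4 =
    Tm (g1 (par k) c) (gam k) Δ (qk k) k + Fm (g1 (par k) c) (gam k) Δ (qk k) k

/-- The critical piece as an amplitude times a holomorphic factor. -/
def FB1 : Prop := ∀ (g : ℂ → ℂ) (C₀ : ℝ), GC g C₀ → ∃ C : ℝ, 0 < C ∧
  ∀ (k : ℤ) (Δ X : ℝ), Squarefree k → k ≠ 1 → 8 ≤ Δ → 0 < X → ∃ R : V4 → ℂ,
    Hol (Bx (-(1 / Δ)) (1 / Δ)) R ∧
    (∀ s ∈ Bx (-(1 / Δ)) (1 / Δ), ‖R s‖ ≤
      C * Δ ^ 32 * max (qk k / X) (X / qk k) ^ (1 / 4 : ℝ) * ∏ j, 1 / br ((s j).im - cs 0 j) ^ 2) ∧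
    Fm g (gam k) Δ (qk k) k = In (cs 0) fun s =>
      amp (1 / 2) (1 / 2) (cs 0) k s * R s * ev s (cs (Real.log X / 2))

def FB : Prop := ∀ (g : ℂ → ℂ) (C₀ θ : ℝ), GC g C₀ → 0 < θ → ∃ C : ℝ, 0 < C ∧
  ∀ (Δ η X : ℝ) (F : Finset ℤ), 8 ≤ Δ → 0 < η → η ≤ 1 / 30 → 0 < X → SQ F →
    ∑ k ∈ F, phi η (qk k / X) * ‖Fm g (gam k) Δ (qk k) k‖ ≤ C * Δ ^ 36 * X * lg X ^ θ

def OMB : Prop := ∀ (g : ℂ → ℂ) (C₀ : ℝ) (n : ℕ), GC g C₀ → ∃ (C : ℝ) (B : ℕ), 0 < C ∧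
  ∀ (γ : ℤ) (c Δ η X ε : ℝ) (Y : ℕ) (w : ℂ) (u : V4), Pm γ c Δ η X Y → 0 < ε →
    w ∈ Strip (-5) 2 → u ∈ Bx ε 12 → 1 / 4 ≤ (w + us u).re →
    DifferentiableAt ℂ (fun x : ℂ × V4 => O0 g γ c Δ η X x.1 x.2) (w, u) ∧
    DifferentiableAt ℂ (fun x : ℂ × V4 => Ow g γ c Δ η X x.1 x.2) (w, u) ∧
    DifferentiableAt ℂ (fun x : ℂ × V4 => Om g γ c Δ η X x.1 x.2) (w, u) ∧
    ‖O0 g γ c Δ η X w u‖ ≤ C * (Δ / (η * min ε 1)) ^ B * X ^ (w + us u).re *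
      Real.exp (-Δ * ε) / br w.im ^ n * dn n u ∧
    ‖Ow g γ c Δ η X w u‖ ≤ C * (Δ / (η * min ε 1)) ^ B * X ^ (w + us u).re *
      Real.exp (-Δ * ε) / br w.im ^ n * dn n u ∧
    ‖Om g γ c Δ η X w u‖ ≤ C * (Δ / (η * min ε 1)) ^ B * X ^ (w + us u).re *
      Real.exp (-Δ * ε) / br w.im ^ n * dn n u

def PRT : Prop := ∀ (τ r : ℤ) (g : ℂ → ℂ) (Δ η X : ℝ) (Y : ℕ) (m : ℤ), 0 < η → 0 < X →
  In (cs 12) (fun u => ac τ r Y (Om g (gam r) (cq r) Δ η X) m u * LL m u) = ta τ r g Δ η X Y m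

def TK0 : Prop := ∀ (g : ℂ → ℂ) (C₀ C₁ : ℝ) (E : ℤ → ℂ → ℂ), GC g C₀ → KA E C₁ →
  ∃ (C : ℝ) (B : ℕ), 0 < C ∧ ∀ (γ : ℤ) (c Δ η X : ℝ) (Y : ℕ) (F : Finset ℤ), Pm γ c Δ η X Y → SQ F →
    ∑ k ∈ F, ‖Yk Y (KP E (Om g γ c Δ η X)) (s1 (X * Real.exp (-Δ)) k) k‖ ≤
      C * (Y * Δ / η) ^ B * Real.exp (-Δ / 2) * X * lg X ^ 10

/-- A flipped term of the exact part; `Kr` is the kernel without `hf u / (z - 1 / 2)`. -/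
def TF0 : Prop := ∀ (g : ℂ → ℂ) (C₀ C₁ : ℝ) (E : ℤ → ℂ → ℂ), GC g C₀ → KA E C₁ →
  ∃ (C : ℝ) (B : ℕ), 0 < C ∧ ∀ (γ : ℤ) (c Δ η X : ℝ) (Y : ℕ) (i : Fin 4), Pm γ c Δ η X Y →
    ‖In (rl (1 / Real.log X)) (Fl (fun z u => Ow g γ c Δ η X (1 - z) u *
      (E 1 z / z * riemannZeta₁ (2 * z) / 2)) (Hone Y) i)‖ ≤
      C * (Y * Δ * Real.log X / η) ^ B * X ^ (9 / 10 : ℝ)

def TF1 : Prop := ∀ (g : ℂ → ℂ) (C₀ C₁ : ℝ) (E : ℤ → ℂ → ℂ), GC g C₀ → KA E C₁ →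
  ∃ (C : ℝ) (B : ℕ), 0 < C ∧ ∀ (γ : ℤ) (c Δ η X : ℝ) (Y : ℕ), Pm γ c Δ η X Y →
    ‖Yk Y (KP E (Om g γ c Δ η X)) (3 / 4) 1‖ ≤
      C * (Y * Δ * Real.log X / η) ^ B * X ^ (9 / 10 : ℝ)

def TDG : Prop := ∀ (g : ℂ → ℂ) (C₀ : ℝ), GC g C₀ → ∃ C : ℝ, 0 < C ∧
  ∀ (γ : ℤ) (c Δ η X : ℝ) (Y : ℕ), Pm γ c Δ η X Y →
    ‖In (cs 12) (fun u => Om g γ c Δ η X 1 u / 8 * ZY Y 1 0 u) -
        1 / (8 * c) * MC g γ (1 / Real.log X) X‖ ≤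
      C * X * (Δ ^ 32 + η ^ 2 * (Real.log X * Δ) ^ 32 + Real.log X ^ 32 / √(Y : ℝ))

def LSF : Prop := ∀ (k : ℤ) (f : ℕ) (s : ℂ), Odd f → 1 < s.re →
  LS (k * (f : ℤ) ^ 2) s = LS k s * ∏ p ∈ f.primeFactors, (1 - jo k p * (p : ℂ) ^ (-s))

def DB : Prop := ∀ (g : ℂ → ℂ) (C₀ : ℝ) (n : ℕ), GC g C₀ → ∃ C : ℝ, 0 < C ∧
  ∀ (γ k : ℤ) (f : ℕ) (Δ q ε : ℝ), γ ∈ T3 → Odd f → 1 ≤ Δ → 1 ≤ q → 0 < ε → ε ≤ 1 / 100 →
    (Squarefree k → k ≠ 1 → ∃ G : R4 → ℂ, Tm g γ Δ q (k * (f : ℤ) ^ 2) = ∫ t, G t ∧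
      ∀ t : R4, ‖G t‖ ≤ C * (Δ / ε) ^ 28 * q ^ (2 * ε) * (f.divisors.card : ℝ) ^ 4 *
        (∏ j, 1 / br (t j) ^ n) * ∏ j, ‖Lo k (1 / 2 + ε + t j * I)‖) ∧
    ‖Tm g γ Δ q (1 * (f : ℤ) ^ 2)‖ ≤ C * (Δ / ε) ^ 28 * q ^ (2 * ε) * (f.divisors.card : ℝ) ^ 4

def DO : Prop := ∃ (A : ℕ) (C : ℝ), 0 < C ∧ ∀ (ε K τ : ℝ) (F : Finset ℤ), 0 < ε → ε ≤ 1 / 100 →
  0 < K → SQ F →
  ∑ k ∈ F, om (|(k : ℝ)| / K) * ‖Lo k (1 / 2 + ε + τ * I)‖ ^ 4 ≤ C / ε * K * lg K ^ 10 * br τ ^ A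

/-- One value of `f` in the tail of the sieve. -/
def TL1 : Prop := ∀ (g : ℂ → ℂ) (C₀ : ℝ), GC g C₀ → ∃ C : ℝ, 0 < C ∧
  ∀ (γ : ℤ) (c Δ η X : ℝ) (Y f : ℕ) (F : Finset ℤ), Pm γ c Δ η X Y → Odd f →
    (∀ k ∈ F, Squarefree k) →
    ∑ k ∈ F, phi η (c * |((k * (f : ℤ) ^ 2 : ℤ) : ℝ)| / X) *
        ‖Tm g γ Δ (c * |((k * (f : ℤ) ^ 2 : ℤ) : ℝ)|) (k * (f : ℤ) ^ 2)‖ ≤
      C * (Δ * Real.log X) ^ 40 * (f.divisors.card : ℝ) ^ 4 * (X / (f : ℝ) ^ 2)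

def TAIL : Prop := ∀ (g : ℂ → ℂ) (C₀ : ℝ), GC g C₀ → ∃ C : ℝ, 0 < C ∧
  ∀ (τ r : ℤ) (Δ η X : ℝ) (Y : ℕ), (τ = 1 ∨ τ = -1) → r ∈ RS → Pm (gam r) (cq r) Δ η X Y →
    Summable (ta τ r g Δ η X Y) → Summable (tb τ r g Δ η X) ∧
      ‖∑' m, ta τ r g Δ η X Y m - ∑' k, tb τ r g Δ η X k‖ ≤
        C * (Δ * Real.log X) ^ 40 * (X / √(Y : ℝ) + 1)

def AT : Prop := ∀ (g : ℂ → ℂ) (C₀ : ℝ) (τ r : ℤ), GC g C₀ → (τ = 1 ∨ τ = -1) → r ∈ RS →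
  ∃ D₀ : ℝ, ∀ D : ℝ, D₀ ≤ D → ∃ C X₀ : ℝ, ∀ X η : ℝ, X₀ ≤ X → 1 / Real.log X ^ 41 ≤ η →
    η ≤ 1 / Real.log X ^ 39 →
    Summable (tb τ r g (D * Real.log (Real.log X)) η X) ∧
      ‖∑' k, tb τ r g (D * Real.log (Real.log X)) η X k -
          1 / (8 * cq r) * MC g (gam r) (1 / Real.log X) X‖ ≤
        C * X * Real.log (Real.log X) ^ 32

def CSM : Prop := ∀ (a : ℕ) (c : Fin 3 → ℂ) (ε X : ℝ), a ≤ 1 → 0 < ε → ε ≤ 1 → 1 ≤ X →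
  ∑ r ∈ RS, 1 / (8 * cq r : ℂ) * MC (g1 a c) (gam r) ε X = 24 * π ^ 4 * MT a c ε X

def SMO : Prop := ∀ (a : ℕ) (c : Fin 3 → ℂ) (θ : ℝ), a ≤ 1 → 0 < θ → ∃ C X₀ : ℝ, ∀ X η : ℝ,
  X₀ ≤ X → 1 / Real.log X ^ 41 ≤ η → η ≤ 1 / Real.log X ^ 39 →
  Summable (sm a η X) ∧
    ‖∑' k, sm a η X k - MT a c (1 / Real.log X) X‖ ≤ C * X * Real.log X ^ θ

def SHARP : Prop := ADD 0

end Pool.Agent.Q4
end

-- part Pool.Agent.P.MP_ea46f5_nt.Q4.TCa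
section

/-! The factorisation of the dual kernel. -/

namespace Pool.Agent.Q4

open Complex MeasureTheory Finset Pool.Agent.QM
open scoped Real

noncomputable section

def rj (κ T : ℝ) (z s : ℂ) : ℂ :=
  (z - 1 / 2 + s) * ((z - 1 / 2 + s) ^ 2 - 1 / 4) / (s ^ 2 - 1 / 4) *
    cexp (κ * (z - 1 / 2 + s - T * I) ^ 2 - (κ / 2 : ℝ) * (s - (T - z.im : ℝ) * I) ^ 2)

def Rp (A : ℕ) (z : ℂ) (s : V4) : ℂ :=
  16 * (2 * z - 1 + s 0 + s 1) * (2 * z - 1 + s 2 + s 3) *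
    ((s 0 + s 2) * (s 0 + s 3) * (s 1 + s 2) * (s 1 + s 3)) *
    ∏ i, ∏ j ∈ Ici i, (2 + (s i + s j)) ^ A

def Rz (A : ℕ) (κ t κ' t' : ℝ) (z : ℂ) (s : V4) : ℂ :=
  Rp A z s * (rj κ t z (s 0) * rj κ' t' z (s 1) * rj κ (-t) z (s 2) * rj κ' (-t') z (s 3))

def GZ4 (A : ℕ) (s : V4) : ℂ := ∏ i, ∏ j ∈ Ici i, gz A (s i + s j)

end

theorem tc_pw (κ T v : ℝ) (z s : ℂ) (hs : s ^ 2 - 1 / 4 ≠ 0) :
    pw κ T v (z - 1 / 2 + s) * s =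
      pw (κ / 2) (T - z.im) 0 s * rj κ T z s * (cexp (s * v) * cexp ((z - 1 / 2) * v)) := by
  unfold pw rj
  have e : cexp (κ * (z - 1 / 2 + s - T * I) ^ 2 + v * (z - 1 / 2 + s)) =
      cexp ((κ / 2 : ℝ) * (s - (T - z.im : ℝ) * I) ^ 2 + (0 : ℝ) * s) *
      cexp (κ * (z - 1 / 2 + s - T * I) ^ 2 - (κ / 2 : ℝ) * (s - (T - z.im : ℝ) * I) ^ 2) *
      (cexp (s * v) * cexp ((z - 1 / 2) * v)) := by
    simp only [← Complex.exp_add]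
    congr 1
    push_cast
    ring
  rw [e]
  generalize s ^ 2 - 1 / 4 = w at hs ⊢
  field_simp

theorem tc_prod (f : Fin 4 → Fin 4 → ℂ) : ∏ i, ∏ j ∈ Ici i, f i j =
    f 0 0 * f 0 1 * f 0 2 * f 0 3 * (f 1 1 * f 1 2 * f 1 3) * (f 2 2 * f 2 3) * f 3 3 := by
  have h0 : Ici (0 : Fin 4) = {0, 1, 2, 3} := by decide
  have h1 : Ici (1 : Fin 4) = {1, 2, 3} := by decide
  have h2 : Ici (2 : Fin 4) = {2, 3} := by decide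
  have h3 : Ici (3 : Fin 4) = {3} := by decide
  rw [Fin.prod_univ_four, h0, h1, h2, h3]
  simp [mul_assoc]

theorem tc_iz (hiz : ∀ w : ℂ, iz (1 + w) = w / lz w) (A : ℕ) (s : V4) (hs : ∀ j, (s j).re = 0) :
    IZ4 s = (∏ i, ∏ j ∈ Ici i, (s i + s j)) * (∏ i, ∏ j ∈ Ici i, (2 + (s i + s j)) ^ A) *
      GZ4 A s := by
  unfold IZ4 GZ4
  simp only [← prod_mul_distrib]
  refine prod_congr rfl fun i _ => prod_congr rfl fun j _ => ?_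
  have h2 : (2 + (s i + s j)) ≠ 0 := by
    intro h
    have := congrArg Complex.re h
    simp [hs] at this
  rw [add_assoc, hiz, gz, mul_assoc, mul_one_div, mul_comm (lz _), div_mul_eq_div_div,
    div_self (pow_ne_zero _ h2), mul_one_div]

theorem tc_sq {s : ℂ} (hs : |s.re| ≤ 1 / 40) : 1 / 5 ≤ ‖s ^ 2 - 1 / 4‖ := by
  have e : s ^ 2 - 1 / 4 = (s - 1 / 2) * (s + 1 / 2) := by ring
  have h := abs_le.1 hs
  have h1 : 19 / 40 ≤ ‖s - 1 / 2‖ := by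
    refine le_trans ?_ (Complex.abs_re_le_norm _)
    have : (s - 1 / 2).re = s.re - 1 / 2 := by simp
    rw [this, abs_of_nonpos (by linarith)]; linarith
  have h2 : 19 / 40 ≤ ‖s + 1 / 2‖ := by
    refine le_trans ?_ (Complex.abs_re_le_norm _)
    have : (s + 1 / 2).re = s.re + 1 / 2 := by simp
    rw [this, abs_of_nonneg (by linarith)]; linarith
  rw [e, norm_mul]
  calc (1 / 5 : ℝ) ≤ 19 / 40 * (19 / 40) := by norm_num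
    _ ≤ _ := mul_le_mul h1 h2 (by norm_num) (norm_nonneg _)

theorem tc_ne {s : ℂ} (hs : |s.re| ≤ 1 / 40) : s ^ 2 - 1 / 4 ≠ 0 := by
  intro h
  have := tc_sq hs
  rw [h, norm_zero] at this
  norm_num at this

theorem tc_id (hiz : ∀ w : ℂ, iz (1 + w) = w / lz w) (A : ℕ) (κ t v κ' t' v' : ℝ) (k : ℤ) (z : ℂ)
    (s : V4) (hs : ∀ j, (s j).re = 0) :
    W2 κ t v κ' t' v' (sh z s) * (∏ j, Lo k (1 / 2 + s j)) * IZ4 s =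
      cexp ((z - 1 / 2) * (2 * v + 2 * v')) *
        (amp (κ / 2) (κ' / 2) ![t - z.im, t' - z.im, -t - z.im, -t' - z.im] k s *
          Rz A κ t κ' t' z s * GZ4 A s * ev s ![v, v', v, v']) := by
  have hn : ∀ j, s j ^ 2 - 1 / 4 ≠ 0 := fun j => tc_ne (by rw [hs j]; norm_num)
  have h0 := tc_pw κ t v z (s 0) (hn 0)
  have h1 := tc_pw κ' t' v' z (s 1) (hn 1)
  have h2 := tc_pw κ (-t) v z (s 2) (hn 2)
  have h3 := tc_pw κ' (-t') v' z (s 3) (hn 3)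
  have e1 : cexp ((z - 1 / 2) * (2 * v + 2 * v')) = cexp ((z - 1 / 2) * v) *
      cexp ((z - 1 / 2) * v') * cexp ((z - 1 / 2) * v) * cexp ((z - 1 / 2) * v') := by
    simp only [← Complex.exp_add]; congr 1; ring
  have e2 : ev s ![v, v', v, v'] =
      cexp (s 0 * v) * cexp (s 1 * v') * cexp (s 2 * v) * cexp (s 3 * v') := by
    simp only [ev, ← Complex.exp_add, Fin.sum_univ_four]; rfl
  rw [tc_iz hiz A s hs, tc_prod fun i j => s i + s j, e1, e2]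
  unfold W2 amp Rz Rp an sh
  simp only [Matrix.cons_val_zero, Matrix.cons_val_one, Matrix.cons_val]
  generalize (∏ i, ∏ j ∈ Ici i, (2 + (s i + s j)) ^ A) = P at *
  generalize (∏ j, Lo k (1 / 2 + s j)) = Q at *
  calc _ = (pw κ t v (z - 1 / 2 + s 0) * s 0) * (pw κ' t' v' (z - 1 / 2 + s 1) * s 1) *
        (pw κ (-t) v (z - 1 / 2 + s 2) * s 2) * (pw κ' (-t') v' (z - 1 / 2 + s 3) * s 3) *
        ((s 0 ^ 2 - s 1 ^ 2) * (s 2 ^ 2 - s 3 ^ 2) * Q * (16 * (2 * z - 1 + s 0 + s 1) *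
          (2 * z - 1 + s 2 + s 3) * ((s 0 + s 2) * (s 0 + s 3) * (s 1 + s 2) * (s 1 + s 3)) * P) *
          GZ4 A s) := by ring
    _ = _ := by rw [h0, h1, h2, h3]; ring

theorem tc_br1 (t : ℝ) : 1 ≤ br t := by unfold br; linarith [abs_nonneg t]

theorem tc_brm (t u : ℝ) : br (t + u) ≤ br t * br u := by
  unfold br
  have := abs_add_le t u
  nlinarith [abs_nonneg t, abs_nonneg u, mul_nonneg (abs_nonneg t) (abs_nonneg u)]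

theorem tc_norm {s : ℂ} {a : ℝ} (ha : 1 ≤ a) (h : |s.re| ≤ a) : ‖s‖ ≤ a * br s.im := by
  have := Complex.norm_le_abs_re_add_abs_im s
  unfold br
  nlinarith [abs_nonneg s.im]

theorem tc_gauss {κ : ℝ} (hκ : 0 < κ) (n : ℕ) : ∃ C : ℝ, 0 < C ∧ ∀ x : ℝ,
    br x ^ n * Real.exp (-(κ * x ^ 2)) ≤ C := by
  refine ⟨Real.exp ((n : ℝ) ^ 2 / (4 * κ)), Real.exp_pos _, fun x => ?_⟩
  have h1 : br x ^ n ≤ Real.exp (n * |x|) := by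
    rw [Real.exp_nat_mul]
    refine pow_le_pow_left₀ (by linarith [tc_br1 x]) ?_ n
    unfold br
    linarith [Real.add_one_le_exp |x|]
  refine (mul_le_mul_of_nonneg_right h1 (Real.exp_pos _).le).trans ?_
  rw [← Real.exp_add, Real.exp_le_exp, le_div_iff₀ (by positivity), ← sq_abs x]
  nlinarith [sq_nonneg (2 * κ * |x| - n)]

/-- The one-variable factor, with room for a polynomial of degree `n`. -/
theorem tc_rj {κ : ℝ} (hκ : Kp κ) (n : ℕ) : ∃ C : ℝ, 0 < C ∧ ∀ (T : ℝ) (z s : ℂ),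
    3 / 4 ≤ z.re → z.re ≤ 6 → |s.re| ≤ 1 / 40 →
    ‖rj κ T z s‖ * br s.im ^ n ≤
      C * br z.im ^ n * br T ^ (n + 3) * (1 / br (s.im - (T - z.im)) ^ 2) := by
  obtain ⟨C, hC, hg⟩ := tc_gauss (κ := κ / 2) (by linarith [hκ.1]) (n + 5)
  refine ⟨6 * 37 * 5 * Real.exp 36 * C, by positivity, fun T z s h1 h2 hs => ?_⟩
  set x := s.im - (T - z.im) with hx
  set u := z - 1 / 2 + s with hu
  have hsa := abs_le.1 hs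
  have ur : u.re = z.re - 1 / 2 + s.re := by simp [hu]
  have ui : u.im = x + T := by simp [hu, hx]; ring
  have hur : |u.re| ≤ 6 := by rw [ur, abs_le]; constructor <;> linarith
  have b1 := tc_br1 x
  have b2 := tc_br1 T
  have b3 := tc_br1 z.im
  have hb : br u.im ≤ br x * br T := by rw [ui]; exact tc_brm _ _
  have hn : ‖u‖ ≤ 6 * (br x * br T) := (tc_norm (by norm_num) hur).trans (by gcongr)
  have hq : 1 ≤ br x * br T := by nlinarith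
  have hn2 : ‖u ^ 2 - 1 / 4‖ ≤ 37 * (br x * br T) ^ 2 := by
    refine (norm_sub_le _ _).trans ?_
    have : ‖u ^ 2‖ ≤ (6 * (br x * br T)) ^ 2 := by rw [norm_pow]; gcongr
    have h4 : ‖(1 / 4 : ℂ)‖ = 1 / 4 := by simp
    rw [h4]
    nlinarith
  have hs2 : br s.im ≤ br x * br T * br z.im := by
    have : s.im = x + T + -z.im := by rw [hx]; ring
    rw [this]
    refine (tc_brm _ _).trans ?_
    have e : br (-z.im) = br z.im := by simp [br]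
    rw [e]
    gcongr
    exact tc_brm _ _
  have he : ‖cexp (κ * (u - T * I) ^ 2 - (κ / 2 : ℝ) * (s - (T - z.im : ℝ) * I) ^ 2)‖ ≤
      Real.exp 36 * Real.exp (-(κ / 2 * x ^ 2)) := by
    rw [Complex.norm_exp, ← Real.exp_add, Real.exp_le_exp]
    have e : (κ * (u - T * I) ^ 2 - (κ / 2 : ℝ) * (s - (T - z.im : ℝ) * I) ^ 2 : ℂ).re =
        κ * u.re ^ 2 - κ / 2 * s.re ^ 2 - κ / 2 * x ^ 2 := by
      simp only [sq, sub_re, mul_re, mul_im, sub_im, ofReal_re, ofReal_im, I_re, I_im, ui, hx]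
      ring
    rw [e]
    have h36 : u.re ^ 2 ≤ 36 := by rw [← sq_abs]; nlinarith [abs_nonneg u.re]
    have : κ * u.re ^ 2 ≤ 36 := by nlinarith [hκ.1, hκ.2, sq_nonneg u.re]
    have : 0 ≤ κ / 2 * s.re ^ 2 := by have := hκ.1; positivity
    linarith
  have hd := tc_sq hs
  have hr : ‖rj κ T z s‖ ≤ 6 * (br x * br T) * (37 * (br x * br T) ^ 2) / (1 / 5) *
      (Real.exp 36 * Real.exp (-(κ / 2 * x ^ 2))) := by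
    unfold rj
    rw [norm_mul, norm_div, norm_mul]
    gcongr
  have hx0 : 0 < br x := by linarith
  calc _ ≤ 6 * (br x * br T) * (37 * (br x * br T) ^ 2) / (1 / 5) *
        (Real.exp 36 * Real.exp (-(κ / 2 * x ^ 2))) * (br x * br T * br z.im) ^ n := by
        have b0 : 0 ≤ br s.im := by linarith [tc_br1 s.im]
        exact mul_le_mul hr (pow_le_pow_left₀ b0 hs2 n) (pow_nonneg b0 n) (by positivity)
    _ = 6 * 37 * 5 * Real.exp 36 * (br x ^ (n + 5) * Real.exp (-(κ / 2 * x ^ 2))) *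
        br z.im ^ n * br T ^ (n + 3) * (1 / br x ^ 2) := by
        field_simp
        ring
    _ ≤ _ := by gcongr; exact hg x

theorem tc_gn (s : V4) (i : Fin 4) : br (s i).im ≤ gn 1 s := by
  unfold gn
  simp only [pow_one]
  have := prod_le_prod_of_subset_of_one_le (f := fun j => br (s j).im) (subset_univ {i})
    (fun j _ => by linarith [tc_br1 (s j).im]) fun j _ _ => tc_br1 _
  simpa using this

theorem tc_pair (s : V4) (i j : Fin 4) : br (s i + s j).im ≤ gn 1 s ^ 2 := by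
  rw [add_im, sq]
  exact (tc_brm _ _).trans (mul_le_mul (tc_gn s i) (tc_gn s j) (by linarith [tc_br1 (s j).im])
    (by linarith [tc_br1 (s i).im, tc_gn s i]))

theorem tc_Rp (A : ℕ) (z : ℂ) (s : V4) (h1 : 3 / 4 ≤ z.re) (h2 : z.re ≤ 6)
    (hs : ∀ j, |(s j).re| ≤ 1 / 40) :
    ‖Rp A z s‖ ≤ 16 * 144 * 3 ^ (10 * A) * br z.im ^ 4 * gn 1 s ^ (20 * A + 12) := by
  set G := gn 1 s with hG
  have hG1 : 1 ≤ G := (tc_br1 _).trans (tc_gn s 0)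
  have hb := tc_br1 z.im
  have hre : ∀ i j, |(s i + s j).re| ≤ 1 / 20 := fun i j => by
    rw [add_re]; linarith [abs_add_le (s i).re (s j).re, hs i, hs j]
  have a1 : ∀ i j, ‖s i + s j‖ ≤ G ^ 2 := fun i j => by
    have := tc_norm (s := s i + s j) le_rfl ((hre i j).trans (by norm_num))
    linarith [tc_pair s i j]
  have a2 : ∀ i j, ‖(2 + (s i + s j)) ^ A‖ ≤ (3 * G ^ 2) ^ A := fun i j => by
    rw [norm_pow]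
    refine pow_le_pow_left₀ (norm_nonneg _) ((norm_add_le _ _).trans ?_) A
    have : ‖(2 : ℂ)‖ = 2 := by simp
    nlinarith [a1 i j]
  have a3 : ∀ i j, ‖2 * z - 1 + s i + s j‖ ≤ 12 * (br z.im * G ^ 2) := fun i j => by
    have h : ‖2 * z - 1‖ ≤ 11 * br z.im := by
      have e : 2 * z - 1 = 2 * (z - 1 / 2) := by ring
      have := tc_norm (s := z - 1 / 2) (a := 11 / 2) (by norm_num) (by
        have : (z - 1 / 2).re = z.re - 1 / 2 := by simp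
        rw [this, abs_le]; constructor <;> linarith)
      have e2 : (z - 1 / 2).im = z.im := by simp
      rw [e2] at this
      rw [e, norm_mul]
      simp only [Complex.norm_ofNat]
      linarith
    rw [add_assoc]
    refine (norm_add_le _ _).trans ?_
    have h2 : 1 ≤ G ^ 2 := one_le_pow₀ hG1
    nlinarith [a1 i j]
  have a4 : ‖∏ i, ∏ j ∈ Ici i, (2 + (s i + s j)) ^ A‖ ≤ ((3 * G ^ 2) ^ A) ^ 10 := by
    rw [tc_prod fun i j => (2 + (s i + s j)) ^ A]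
    simp only [norm_mul]
    calc _ ≤ (3 * G ^ 2) ^ A * (3 * G ^ 2) ^ A * (3 * G ^ 2) ^ A * (3 * G ^ 2) ^ A *
          ((3 * G ^ 2) ^ A * (3 * G ^ 2) ^ A * (3 * G ^ 2) ^ A) *
          ((3 * G ^ 2) ^ A * (3 * G ^ 2) ^ A) * (3 * G ^ 2) ^ A := by gcongr <;> apply a2
      _ = _ := by ring
  unfold Rp
  simp only [norm_mul, Complex.norm_ofNat]
  calc _ ≤ 16 * (12 * (br z.im * G ^ 2)) * (12 * (br z.im * G ^ 2)) *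
        (G ^ 2 * G ^ 2 * G ^ 2 * G ^ 2) * ((3 * G ^ 2) ^ A) ^ 10 := by
        gcongr <;> first | apply a1 | apply a3
    _ = 16 * 144 * 3 ^ (10 * A) * br z.im ^ 2 * G ^ (20 * A + 12) := by
        rw [mul_pow 3, mul_pow (3 ^ A), ← pow_mul, ← pow_mul, ← pow_mul]; ring
    _ ≤ _ := by gcongr; norm_num

theorem tc_Rz (A : ℕ) {κ κ' : ℝ} (hκ : Kp κ) (hκ' : Kp κ') : ∃ (c : ℕ) (C : ℝ), 0 < C ∧
    ∀ (t t' : ℝ) (z : ℂ) (s : V4), 3 / 4 ≤ z.re → z.re ≤ 6 → (∀ j, |(s j).re| ≤ 1 / 40) →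
      ‖Rz A κ t κ' t' z s‖ ≤ C * br z.im ^ c * br t ^ c * br t' ^ c *
        ∏ j, 1 / br ((s j).im - ![t - z.im, t' - z.im, -t - z.im, -t' - z.im] j) ^ 2 := by
  set n := 20 * A + 12 with hn
  obtain ⟨C, hC, h⟩ := tc_rj hκ n
  obtain ⟨C', hC', h'⟩ := tc_rj hκ' n
  refine ⟨4 * n + 6, 16 * 144 * 3 ^ (10 * A) * (C * C' * C * C'), by positivity,
    fun t t' z s h1 h2 hs => ?_⟩
  have g0 := h t z (s 0) h1 h2 (hs 0)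
  have g1 := h' t' z (s 1) h1 h2 (hs 1)
  have g2 := h (-t) z (s 2) h1 h2 (hs 2)
  have g3 := h' (-t') z (s 3) h1 h2 (hs 3)
  have e : ∀ x : ℝ, br (-x) = br x := fun x => by simp [br]
  rw [e] at g2 g3
  have hp := tc_Rp A z s h1 h2 hs
  have hb := tc_br1 z.im
  have ht := tc_br1 t
  have ht' := tc_br1 t'
  have p0 : ∀ x : ℝ, 0 ≤ br x := fun x => by linarith [tc_br1 x]
  simp only [Fin.prod_univ_four, Matrix.cons_val_zero, Matrix.cons_val_one, Matrix.cons_val]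
  unfold Rz
  simp only [norm_mul]
  set d0 := 1 / br ((s 0).im - (t - z.im)) ^ 2
  set d1 := 1 / br ((s 1).im - (t' - z.im)) ^ 2
  set d2 := 1 / br ((s 2).im - (-t - z.im)) ^ 2
  set d3 := 1 / br ((s 3).im - (-t' - z.im)) ^ 2
  have q : ∀ x : ℝ, 0 ≤ 1 / br x ^ 2 := fun x => by have := p0 x; positivity
  have q0 : 0 ≤ d0 := q _
  have q1 : 0 ≤ d1 := q _
  have q2 : 0 ≤ d2 := q _
  have q3 : 0 ≤ d3 := q _
  have r : ∀ (w : ℂ) (x : ℝ), 0 ≤ ‖w‖ * br x ^ n := fun w x => by have := p0 x; positivity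
  calc _ ≤ 16 * 144 * 3 ^ (10 * A) * br z.im ^ 4 * gn 1 s ^ n *
        (‖rj κ t z (s 0)‖ * ‖rj κ' t' z (s 1)‖ * ‖rj κ (-t) z (s 2)‖ * ‖rj κ' (-t') z (s 3)‖) := by
        gcongr
    _ = 16 * 144 * 3 ^ (10 * A) * br z.im ^ 4 * (‖rj κ t z (s 0)‖ * br (s 0).im ^ n *
        (‖rj κ' t' z (s 1)‖ * br (s 1).im ^ n) * (‖rj κ (-t) z (s 2)‖ * br (s 2).im ^ n) *
        (‖rj κ' (-t') z (s 3)‖ * br (s 3).im ^ n)) := by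
        simp only [gn, Fin.prod_univ_four, pow_one, mul_pow]; ring
    _ ≤ 16 * 144 * 3 ^ (10 * A) * br z.im ^ 4 * (C * br z.im ^ n * br t ^ (n + 3) * d0 *
        (C' * br z.im ^ n * br t' ^ (n + 3) * d1) * (C * br z.im ^ n * br t ^ (n + 3) * d2) *
        (C' * br z.im ^ n * br t' ^ (n + 3) * d3)) := by
        gcongr
        · exact r _ _
        · exact r _ _
        · exact r _ _
    _ = 16 * 144 * 3 ^ (10 * A) * (C * C' * C * C') * br z.im ^ (4 * n + 4) * br t ^ (2 * n + 6) *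
        br t' ^ (2 * n + 6) * (d0 * d1 * d2 * d3) := by ring
    _ ≤ _ := by gcongr <;> omega

theorem tc_hol (A : ℕ) (κ t κ' t' : ℝ) (z : ℂ) (s : V4) (hs : ∀ j, |(s j).re| ≤ 1 / 40) :
    DifferentiableAt ℂ (Rz A κ t κ' t' z) s := by
  have h : ∀ (κ T : ℝ) (j : Fin 4), DifferentiableAt ℂ (fun s : V4 => rj κ T z (s j)) s :=
    fun κ T j => by
      have := tc_ne (hs j)
      unfold rj
      fun_prop (disch := assumption)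
  have hp : DifferentiableAt ℂ (Rp A z) s := by
    unfold Rp
    fun_prop
  unfold Rz
  exact hp.mul ((((h _ _ 0).mul (h _ _ 1)).mul (h _ _ 2)).mul (h _ _ 3))

end Pool.Agent.Q4
end

-- part Pool.Agent.P.MP_ea46f5_nt.Q4.TailA
section

/-! Arithmetic facts for the tail of the exact part. -/

namespace Pool.Agent.Q4

open Complex MeasureTheory Finset Pool.Agent.QM
open scoped Real

/-- The number of prime factors. -/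
def nw (f : ℕ) : ℕ := f.primeFactors.card

theorem tl_pow (B f : ℕ) (hB : B ≠ 0) (hf : f ≠ 0) : B ^ nw f ≤ B ^ B * f := by
  classical
  have h1 := card_filter_add_card_filter_not (s := f.primeFactors) (fun p => p < B)
  have h2 : (f.primeFactors.filter fun p => p < B).card ≤ B := by
    have : (f.primeFactors.filter fun p => p < B) ⊆ range B :=
      fun p hp => mem_range.2 (mem_filter.1 hp).2
    simpa using card_le_card this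
  have h3 : B ^ (f.primeFactors.filter fun p => ¬ p < B).card ≤ f := by
    calc _ ≤ ∏ p ∈ f.primeFactors.filter (fun p => ¬ p < B), p :=
          pow_card_le_prod _ _ _ fun p hp => not_lt.1 (mem_filter.1 hp).2
      _ ≤ f := Nat.le_of_dvd (Nat.pos_of_ne_zero hf)
          ((prod_dvd_prod_of_subset _ _ _ (filter_subset _ _)).trans (Nat.prod_primeFactors_dvd f))
  unfold nw
  rw [← h1, pow_add]
  exact Nat.mul_le_mul (Nat.pow_le_pow_right (Nat.pos_of_ne_zero hB) h2) h3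

theorem tl_32 : ∃ C : ℝ, 0 < C ∧ ∀ f : ℕ, f ≠ 0 → (32 : ℝ) ^ nw f ≤ C * (f : ℝ) ^ (1 / 4 : ℝ) := by
  obtain ⟨B, hB⟩ : ∃ B : ℕ, B = 32 ^ 4 := ⟨_, rfl⟩
  have hB0 : B ≠ 0 := by rw [hB]; norm_num
  have hD : (1 : ℝ) ≤ ((B ^ B : ℕ) : ℝ) := by exact_mod_cast Nat.one_le_pow _ _ (Nat.pos_of_ne_zero hB0)
  refine ⟨((B ^ B : ℕ) : ℝ), by linarith, fun f hf => ?_⟩
  have h : ((B ^ nw f : ℕ) : ℝ) ≤ ((B ^ B * f : ℕ) : ℝ) := by exact_mod_cast tl_pow B f hB0 hf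
  have e1 : ((B ^ nw f : ℕ) : ℝ) = ((32 : ℝ) ^ nw f) ^ 4 := by
    rw [hB, ← pow_mul, ← pow_mul, mul_comm]; push_cast; rfl
  rw [e1, Nat.cast_mul] at h
  generalize ((B ^ B : ℕ) : ℝ) = D at h hD ⊢
  have hf0 : (0 : ℝ) ≤ f := Nat.cast_nonneg f
  have e2 : ((f : ℝ) ^ (1 / 4 : ℝ)) ^ 4 = f := by
    rw [← Real.rpow_natCast, ← Real.rpow_mul hf0]; norm_num
  refine le_of_pow_le_pow_left₀ (n := 4) (by norm_num) (by positivity) (h.trans ?_)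
  rw [mul_pow, e2]
  exact mul_le_mul_of_nonneg_right (le_self_pow₀ hD (by norm_num)) hf0

theorem tl_sY (Y f : ℕ) (k : ℤ) (hk : Squarefree k) (hf : Odd f) :
    sY Y (k * (f : ℤ) ^ 2) =
      ∑ a ∈ f.divisors.filter (fun a => a ≤ Y), ArithmeticFunction.moebius a := by
  have hf0 : f ≠ 0 := hf.pos.ne'
  unfold sY AY
  symm
  refine sum_subset (fun a ha => ?_) fun a ha hn => ?_
  · obtain ⟨h1, h2⟩ := mem_filter.1 ha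
    have h3 := Nat.dvd_of_mem_divisors h1
    refine mem_filter.2 ⟨mem_filter.2 ⟨mem_Icc.2 ⟨Nat.pos_of_mem_divisors h1, h2⟩,
      Odd.of_dvd_nat hf h3⟩, ?_⟩
    exact Dvd.dvd.mul_left (pow_dvd_pow_of_dvd (Int.natCast_dvd_natCast.2 h3) 2) k
  · by_contra h0
    have hs : Squarefree a := ArithmeticFunction.moebius_ne_zero_iff_squarefree.1 h0
    obtain ⟨h1, h2⟩ := mem_filter.1 ha
    have h3 : (a : ℤ) ∣ (f : ℤ) ^ 2 :=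
      hk.dvd_of_squarefree_of_mul_dvd_mul_right (by rwa [← sq])
    have h4 : a ∣ f ^ 2 := by exact_mod_cast h3
    have h5 : a ∣ f := (hs.dvd_pow_iff_dvd (by norm_num)).1 h4
    exact hn (mem_filter.2 ⟨Nat.mem_divisors.2 ⟨h5, hf0⟩, (mem_Icc.1 (mem_filter.1 h1).1).2⟩)

theorem tl_sY_one (Y : ℕ) (k : ℤ) (hk : Squarefree k) (hY : 1 ≤ Y) : sY Y k = 1 := by
  have h := tl_sY Y 1 k hk odd_one
  rw [Nat.cast_one, one_pow, mul_one, Nat.divisors_one, filter_singleton, if_pos hY] at h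
  simpa using h

theorem tl_sY_zero (Y f : ℕ) (k : ℤ) (hk : Squarefree k) (hf : Odd f) (h1 : f ≠ 1) (hY : f ≤ Y) :
    sY Y (k * (f : ℤ) ^ 2) = 0 := by
  rw [tl_sY Y f k hk hf, filter_true_of_mem fun a ha => (Nat.divisor_le ha).trans hY]
  have h := congrArg (fun F : ArithmeticFunction ℤ => F f) ArithmeticFunction.moebius_mul_coe_zeta
  simp only [ArithmeticFunction.coe_mul_zeta_apply] at h
  rw [h, ArithmeticFunction.one_apply_ne h1]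

theorem tl_sY_le (Y f : ℕ) (k : ℤ) (hk : Squarefree k) (hf : Odd f) :
    ‖((sY Y (k * (f : ℤ) ^ 2) : ℤ) : ℂ)‖ ≤ 2 ^ nw f := by
  classical
  have hf0 : f ≠ 0 := hf.pos.ne'
  have h1 : |sY Y (k * (f : ℤ) ^ 2)| ≤ ((f.divisors.filter Squarefree).card : ℤ) := by
    rw [tl_sY Y f k hk hf]
    refine (abs_sum_le_sum_abs _ _).trans ?_
    refine (sum_le_sum_of_subset_of_nonneg (filter_subset _ _) fun _ _ _ => abs_nonneg _).trans ?_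
    rw [card_filter]
    push_cast
    exact sum_le_sum fun a _ => le_of_eq ArithmeticFunction.abs_moebius
  have h2 : (f.divisors.filter Squarefree).card ≤ 2 ^ nw f := by
    unfold nw
    rw [← card_powerset]
    refine card_le_card_of_injOn Nat.primeFactors (fun a ha => ?_) fun a ha b hb hab => ?_
    · exact mem_coe.2 (mem_powerset.2 (Nat.primeFactors_mono
        (Nat.dvd_of_mem_divisors (mem_filter.1 ha).1) hf0))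
    · rw [← Nat.prod_primeFactors_of_squarefree (mem_filter.1 ha).2, hab,
        Nat.prod_primeFactors_of_squarefree (mem_filter.1 hb).2]
  rw [Complex.norm_intCast]
  have h3 : |sY Y (k * (f : ℤ) ^ 2)| ≤ 2 ^ nw f := h1.trans (by exact_mod_cast h2)
  exact_mod_cast h3

/-- Every nonzero integer is a squarefree one times a square. -/
theorem tl_ex (m : ℤ) (hm : m ≠ 0) : ∃ x : ℕ × ℤ, x.1 ≠ 0 ∧ Squarefree x.2 ∧ x.2 * (x.1 : ℤ) ^ 2 = m := by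
  obtain ⟨a, b, -, hb, h1, h2⟩ := Nat.sq_mul_squarefree_of_pos (Int.natAbs_pos.2 hm)
  have h3 : (a : ℤ) * (b : ℤ) ^ 2 = |m| := by
    rw [← Int.natCast_natAbs, ← h1]; push_cast; ring
  rcases abs_choice m with h | h
  · exact ⟨(b, a), hb.ne', Int.squarefree_natCast.2 h2, h3.trans h⟩
  · refine ⟨(b, -a), hb.ne', Int.squarefree_natAbs.1 (by simpa using h2), ?_⟩
    rw [neg_mul, h3, h, neg_neg]

theorem tl_dec (h : ℤ → ℝ) (h0 : ∀ m, 0 ≤ h m) (hz : h 0 = 0) (B : ℝ)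
    (H : ∀ (F₁ : Finset ℤ) (F₂ : Finset ℕ), (∀ k ∈ F₁, Squarefree k) → (∀ f ∈ F₂, f ≠ 0) →
      ∑ f ∈ F₂, ∑ k ∈ F₁, h (k * (f : ℤ) ^ 2) ≤ B) (F : Finset ℤ) : ∑ m ∈ F, h m ≤ B := by
  classical
  choose d hd using tl_ex
  let D : ℤ → ℕ × ℤ := fun m => if hm : m ≠ 0 then d m hm else (1, 1)
  have hD : ∀ m, (D m).1 ≠ 0 ∧ Squarefree (D m).2 ∧ (m ≠ 0 → (D m).2 * ((D m).1 : ℤ) ^ 2 = m) := by
    intro m
    by_cases hm : m ≠ 0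
    · simp only [D, dif_pos hm]; exact ⟨(hd m hm).1, (hd m hm).2.1, fun _ => (hd m hm).2.2⟩
    · simp only [D, dif_neg hm]; exact ⟨one_ne_zero, squarefree_one, fun h => absurd h hm⟩
  refine le_trans ?_ (H (F.image fun m => (D m).2) (F.image fun m => (D m).1)
    (fun k hk => by obtain ⟨m, -, rfl⟩ := mem_image.1 hk; exact (hD m).2.1)
    fun f hf => by obtain ⟨m, -, rfl⟩ := mem_image.1 hf; exact (hD m).1)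
  rw [← sum_product', ← sum_erase F hz]
  refine le_trans (sum_le_sum_of_subset_of_nonneg (fun m hm => ?_) fun _ _ _ => h0 _)
    (sum_image_le_of_nonneg (g := fun x : ℕ × ℤ => x.2 * (x.1 : ℤ) ^ 2) fun _ _ => h0 _)
  exact mem_image.2 ⟨D m, mem_product.2 ⟨mem_image_of_mem _ (mem_of_mem_erase hm),
    mem_image_of_mem _ (mem_of_mem_erase hm)⟩, (hD m).2.2 (ne_of_mem_erase hm)⟩

theorem tl_om0 {x : ℝ} (hx : 0 ≤ x) : 0 ≤ om x :=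
  le_min (Real.rpow_nonneg hx _) (Real.rpow_nonneg hx _)

theorem tl_om (hTRV : TRV) : ∃ C : ℝ, 0 < C ∧ ∀ (K : ℝ) (F : Finset ℤ), 0 < K → SQ F →
    ∑ k ∈ F, om (|(k : ℝ)| / K) ≤ C * K * lg K ^ 10 := by
  obtain ⟨C, hC, H⟩ := mt_abs
  obtain ⟨_, _, hT⟩ := hTRV
  refine ⟨C * (5 * (3 / 2) ^ 10), by positivity, fun K F hK hF => ?_⟩
  have := H (fun k : ℤ => Squarefree k ∧ k ≠ 1) (fun k => |(k : ℝ)|) (fun _ => 1)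
    (5 * (3 / 2) ^ 10) K K (by positivity) hK hK (fun _ => zero_le_one)
    (fun k hk => by
      have : 1 ≤ |k| := Int.one_le_abs hk.1.ne_zero
      exact_mod_cast this)
    (fun Z hZ S hS => by
      have h1 : (S.card : ℝ) ≤ (Sq Z).card := by
        exact_mod_cast card_le_card fun k hk =>
          mt_mem_Sq.2 ⟨(hS k hk).1.1, (hS k hk).1.2, (hS k hk).2⟩
      have h2 := (hT Z 0 hZ).2
      have h3 := lg_ge (K := Z) (by linarith)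
      have h4 : (2 / 3 : ℝ) ^ 10 ≤ Real.log (2 + Z) ^ 10 := by gcongr
      have h5 : (1 : ℝ) ≤ max 1 (Z / K) ^ 4 := one_le_pow₀ (le_max_left _ _)
      rw [sum_const, nsmul_eq_mul, mul_one]
      calc _ ≤ 5 * Z := h1.trans h2
        _ = 5 * (3 / 2) ^ 10 * (Z * (2 / 3) ^ 10 * 1) := by ring
        _ ≤ _ := by gcongr) F hF
  have e : (-3 / 4 : ℝ) = -(3 / 4) := by norm_num
  rw [e, div_self hK.ne', max_self] at this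
  simp only [mul_one, one_pow] at this
  refine le_trans this (le_of_eq ?_)
  unfold lg
  ring

/-- Removing the Euler factors at the primes of `f`. -/
theorem tl_eul (hLSP : LSP) (k : ℤ) (f : ℕ) (hf : Odd f) : ∃ P : ℂ → ℂ, Differentiable ℂ P ∧
    (∀ s : ℂ, 0 ≤ s.re → ‖P s‖ ≤ 2 ^ nw f) ∧
    ∀ s : ℂ, 1 < s.re → LS (k * (f : ℤ) ^ 2) s = LS k s * P s := by
  induction f using induction_on_primes with
  | zero => simp at hf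
  | one => exact ⟨fun _ => 1, differentiable_const _, fun s _ => by simp [nw], fun s _ => by simp⟩
  | prime_mul p a hp ih =>
    obtain ⟨hp1, ha1⟩ := Nat.odd_mul.1 hf
    obtain ⟨P, h1, h2, h3⟩ := ih ha1
    have hp2 : p ≠ 2 := by rintro rfl; exact absurd hp1 (by decide)
    have ha0 : a ≠ 0 := ha1.pos.ne'
    have hp0 : (p : ℂ) ≠ 0 := by exact_mod_cast hp.ne_zero
    refine ⟨fun s => P s * (1 - jo (k * (a : ℤ) ^ 2) p * (p : ℂ) ^ (-s)), ?_, fun s hs => ?_,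
      fun s hs => ?_⟩
    · exact h1.mul ((differentiable_const _).sub ((differentiable_const _).mul
        (differentiable_id.neg.const_cpow (Or.inl hp0))))
    · have e : nw (p * a) = (insert p a.primeFactors).card := by
        unfold nw; rw [Nat.primeFactors_mul hp.ne_zero ha0, hp.primeFactors, insert_eq]
      rw [norm_mul, e]
      by_cases hpa : p ∣ a
      · have e2 : jo (k * (a : ℤ) ^ 2) p = 0 := by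
          have : jacobiSym (k * (a : ℤ) ^ 2) p = 0 := by
            refine jacobiSym.eq_zero_iff.2 ⟨hp.ne_zero, fun hg => ?_⟩
            have hd : (p : ℤ) ∣ k * (a : ℤ) ^ 2 :=
              Dvd.dvd.mul_left (dvd_pow (Int.natCast_dvd_natCast.2 hpa) (by norm_num)) k
            have := Int.dvd_gcd hd (dvd_refl (p : ℤ))
            rw [hg] at this
            exact hp.one_lt.ne' (Nat.dvd_one.1 this)
          simp [jo, this]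
        rw [e2, insert_eq_of_mem (Nat.mem_primeFactors.2 ⟨hp, hpa, ha0⟩)]
        simpa [nw] using h2 s hs
      · rw [card_insert_of_notMem fun h => hpa (Nat.dvd_of_mem_primeFactors h), pow_succ]
        refine mul_le_mul (h2 s hs) ((norm_sub_le _ _).trans ?_) (norm_nonneg _)
          (pow_nonneg zero_le_two _)
        have e3 : ‖jo (k * (a : ℤ) ^ 2) p‖ ≤ 1 := by
          unfold jo
          rw [if_pos hp1]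
          rcases jacobiSym.trichotomy (k * (a : ℤ) ^ 2) p with h | h | h <;> simp [h]
        have e4 : ‖(p : ℂ) ^ (-s)‖ ≤ 1 := by
          rw [Complex.norm_natCast_cpow_of_pos hp.pos]
          exact Real.rpow_le_one_of_one_le_of_nonpos (by exact_mod_cast hp.one_le) (by simpa using hs)
        rw [norm_one, norm_mul]
        exact (add_le_add le_rfl (mul_le_one₀ e3 (norm_nonneg _) e4)).trans one_add_one_eq_two.le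
    · have e : k * ((p * a : ℕ) : ℤ) ^ 2 = k * (a : ℤ) ^ 2 * (p : ℤ) ^ 2 := by push_cast; ring
      rw [e, hLSP.2.2.2.2.2 _ p s hp hp2 hs, h3 s hs, mul_assoc]

end Pool.Agent.Q4
end

-- part Pool.Agent.P.MP_ea46f5_nt.Q4.TailB
section

/-! Size and holomorphy of the weights of the exact part. -/

namespace Pool.Agent.Q4

open Complex MeasureTheory Finset Pool.Agent.QM
open scoped Real

theorem tw_sep {n : ℕ} {U : Set (Fin n → ℂ)} {G : (Fin n → ℂ) → ℂ} (h : Hol U G) : Sep U G := by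
  refine ⟨fun s hs => (h s hs).continuousAt.continuousWithinAt, fun s hs i => ?_⟩
  have h1 : DifferentiableAt ℂ G (Function.update s i (s i)) := by simpa using h s hs
  exact h1.comp (s i) (hasDerivAt_update s i (s i)).differentiableAt

theorem tw_th (z : ℂ) (hz : 0 ≤ z.re) : ‖th8 z‖ ≤ 8 * (1 + ‖z‖) ^ 7 := by
  unfold th8
  have h1 : ‖cexp (-z)‖ ≤ 1 := by
    rw [Complex.norm_exp]; exact Real.exp_le_one_iff.2 (by simpa using hz)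
  have h2 : ‖∑ j ∈ range 8, z ^ j / (j.factorial : ℂ)‖ ≤ 8 * (1 + ‖z‖) ^ 7 := by
    refine (norm_sum_le_of_le (n := fun _ => (1 + ‖z‖) ^ 7) _ fun j hj => ?_).trans (by simp)
    have h0 := norm_nonneg z
    have h3 : (1 : ℝ) ≤ j.factorial := by exact_mod_cast j.factorial_pos
    rw [norm_div, norm_pow, Complex.norm_natCast]
    calc _ ≤ ‖z‖ ^ j := div_le_self (by positivity) h3
      _ ≤ (1 + ‖z‖) ^ j := by gcongr; linarith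
      _ ≤ _ := pow_le_pow_right₀ (by linarith) (by have := mem_range.1 hj; omega)
  rw [norm_mul]
  exact (mul_le_mul h1 h2 (norm_nonneg _) zero_le_one).trans (one_mul _).le

theorem tw_nrm {u : ℂ} {c : ℝ} (hc : 1 ≤ c) (h : |u.re| ≤ c) : ‖u‖ ≤ c * br u.im := by
  have := Complex.norm_le_abs_re_add_abs_im u
  unfold br
  nlinarith [abs_nonneg u.im]

theorem tw_two {s : ℂ} (hs : 1 / 2 ≤ s.re) : ‖(2 : ℂ) ^ (-s)‖ ≤ 3 / 4 := by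
  have e : ‖(2 : ℂ) ^ (-s)‖ = (2 : ℝ) ^ (-s.re) := by
    simpa using Complex.norm_cpow_eq_rpow_re_of_pos (x := 2) (by norm_num) (-s)
  have h1 : (2 : ℝ) ^ (-s.re) ≤ (2 : ℝ) ^ (-(1 / 2) : ℝ) :=
    Real.rpow_le_rpow_of_exponent_le (by norm_num) (by linarith)
  have h2 : ((2 : ℝ) ^ (-(1 / 2) : ℝ)) ^ 2 = 1 / 2 := by
    rw [← Real.rpow_natCast, ← Real.rpow_mul (by norm_num)]; norm_num
  have h3 : (2 : ℝ) ^ (-(1 / 2) : ℝ) ≤ 3 / 4 :=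
    le_of_pow_le_pow_left₀ (n := 2) (by norm_num) (by norm_num) (by rw [h2]; norm_num)
  linarith

theorem tw_den {γ : ℤ} (hγ : γ ∈ T3) {u : ℂ} (hu : 0 ≤ u.re) :
    1 / 4 ≤ ‖1 - γ * (2 : ℂ) ^ (-(1 / 2 + u))‖ := by
  have h1 := tw_two (s := 1 / 2 + u) (by simp; linarith)
  have h2 : ‖(γ : ℂ)‖ ≤ 1 := by
    simp only [T3, mem_insert, mem_singleton] at hγ
    rcases hγ with h | h | h <;> simp [h]
  have h3 := norm_sub_norm_le (1 : ℂ) (γ * (2 : ℂ) ^ (-(1 / 2 + u)))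
  have h4 := mul_le_mul h2 h1 (norm_nonneg _) zero_le_one
  rw [norm_one, norm_mul] at h3
  linarith

theorem tw_gauss (hDEC : DEC) (n : ℕ) : ∃ C : ℝ, 0 < C ∧ ∀ t : ℝ,
    Real.exp (-(3 / 4) * t ^ 2) * br t ^ n ≤ C * Real.exp (-|t|) := by
  obtain ⟨C, hC, h⟩ := hDEC.2.1 n
  refine ⟨Real.exp (3 / 4) * C, by positivity, fun t => ?_⟩
  have h1 := h t 0
  have h4 : br 0 = 1 := by simp [br]
  rw [sub_zero, h4, one_pow, mul_one] at h1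
  have h2 : Real.exp (-(3 / 4) * t ^ 2) ≤
      Real.exp (3 / 4) * Real.exp (-|t|) * Real.exp (-|t| / 2) := by
    rw [← Real.exp_add, ← Real.exp_add, ← sq_abs t]
    exact Real.exp_le_exp.2 (by nlinarith [sq_nonneg (|t| - 1)])
  have h5 := tk2_br0 t
  calc _ ≤ Real.exp (3 / 4) * Real.exp (-|t|) * Real.exp (-|t| / 2) * br t ^ n := by gcongr
    _ = Real.exp (3 / 4) * Real.exp (-|t|) * (Real.exp (-|t| / 2) * br t ^ n) := by ring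
    _ ≤ Real.exp (3 / 4) * Real.exp (-|t|) * C := by gcongr
    _ = _ := by ring

theorem tw_one {ι : Type} (s : Finset ι) (b : ι → ℝ) (h : ∀ j, 1 ≤ b j) : 1 ≤ ∏ j ∈ s, b j := by
  simpa using prod_le_prod (s := s) (f := fun _ => (1 : ℝ)) (g := b) (fun _ _ => zero_le_one)
    fun j _ => h j

theorem tw_single (b : R4) (h : ∀ j, 1 ≤ b j) (i : Fin 4) : b i ≤ ∏ j, b j := by
  rw [← mul_prod_erase _ _ (mem_univ i)]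
  exact le_mul_of_one_le_right (by linarith [h i]) (tw_one _ b h)

theorem tw_vd (w : V4) (Q : ℝ) (h : ∀ j, ‖w j‖ ≤ Q) : ‖Vd w‖ ≤ (2 * Q) ^ 6 := by
  unfold Vd
  rw [norm_prod]
  have h1 : ∀ i : Fin 4, ‖∏ j ∈ Ioi i, (w j - w i)‖ ≤ (2 * Q) ^ (Ioi i).card := fun i => by
    rw [norm_prod, ← prod_const]
    exact prod_le_prod (fun _ _ => norm_nonneg _) fun j _ =>
      (norm_sub_le _ _).trans (by linarith [h i, h j])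
  refine (prod_le_prod (fun _ _ => norm_nonneg _) fun i _ => h1 i).trans (le_of_eq ?_)
  rw [prod_pow_eq_pow_sum]
  rfl

theorem GC.pos {g : ℂ → ℂ} {C : ℝ} (hg : GC g C) : 0 ≤ C := by
  have := hg.bd 0 ⟨by simp, by simp⟩
  simpa using (norm_nonneg _).trans this

theorem tw_wr {g : ℂ → ℂ} {C : ℝ} (hg : GC g C) {γ : ℤ} (hγ : γ ∈ T3) {u : ℂ} (h0 : 0 < u.re)
    (h1 : u.re ≤ 12) :
    ‖wr g γ u‖ ≤ 52 * C * br u.im * Real.exp (-(3 / 4) * u.im ^ 2) / ‖u‖ ^ 7 := by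
  have hC := hg.pos
  have h2 : ‖u + 1 / 2‖ ≤ 13 * br u.im := by
    have := tw_nrm (u := u + 1 / 2) (c := 13) (by norm_num)
      (by rw [abs_le]; simp; constructor <;> linarith)
    simpa using this
  have h3 := hg.bd u ⟨by linarith, by linarith⟩
  have h4 := tw_den hγ h0.le
  have h5 : 0 < ‖u‖ := h0.trans_le (Complex.re_le_norm u)
  have h6 := tk2_br0 u.im
  unfold wr
  rw [norm_div, norm_mul, norm_mul, norm_pow]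
  calc _ ≤ 13 * br u.im * (C * Real.exp (-(3 / 4) * u.im ^ 2)) / (‖u‖ ^ 7 * (1 / 4)) := by gcongr
    _ = _ := by field_simp; ring

theorem tw_bx {a b : ℝ} {u : V4} (hu : u ∈ Bx a b) (j : Fin 4) : a ≤ (u j).re ∧ (u j).re ≤ b := hu j

theorem tw_Wr (hDEC : DEC) {g : ℂ → ℂ} {C₀ : ℝ} (hg : GC g C₀) (n : ℕ) : ∃ C : ℝ, 0 < C ∧
    ∀ γ ∈ T3, ∀ ε : ℝ, 0 < ε → ∀ u ∈ Bx ε 12,
      ‖Wr g γ u‖ ≤ C / ε ^ 28 * ∏ j, Real.exp (-|(u j).im|) / br (u j).im ^ n := by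
  obtain ⟨C, hC, hG⟩ := tw_gauss hDEC (25 + n)
  have hC₀ := hg.pos
  refine ⟨2 ^ 12 * (12 ^ 24 * (52 * (C₀ + 1)) * C) ^ 4, by positivity, fun γ hγ ε hε u hu => ?_⟩
  have hb := fun j => tk2_br1 (u j).im
  have h1 : ∀ i, ‖u i ^ 2‖ ≤ (∏ j, 12 * br (u j).im) ^ 2 := fun i => by
    rw [norm_pow]
    refine pow_le_pow_left₀ (norm_nonneg _) ((tw_nrm (c := 12) (by norm_num) ?_).trans
      (tw_single (fun j => 12 * br (u j).im) (fun j => by linarith [hb j]) i)) 2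
    rw [abs_le]; constructor <;> linarith [tw_bx hu i]
  have h2 := pow_le_pow_left₀ (norm_nonneg _) (tw_vd _ _ h1) 2
  have h3 : ∀ j, (12 * br (u j).im) ^ 24 * ‖wr g γ (u j)‖ ≤
      12 ^ 24 * (52 * (C₀ + 1)) * C / ε ^ 7 * (Real.exp (-|(u j).im|) / br (u j).im ^ n) := by
    intro j
    have e1 := tw_wr hg hγ (hε.trans_le (tw_bx hu j).1) (tw_bx hu j).2
    have e2 : ε ≤ ‖u j‖ := (tw_bx hu j).1.trans (Complex.re_le_norm _)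
    have e3 := hG (u j).im
    have e4 := tk2_br0 (u j).im
    generalize br (u j).im = b at *
    generalize Real.exp (-|(u j).im|) = y at *
    have e5 := Real.exp_pos (-(3 / 4) * (u j).im ^ 2)
    generalize Real.exp (-(3 / 4) * (u j).im ^ 2) = x at *
    calc _ ≤ (12 * b) ^ 24 * (52 * (C₀ + 1) * b * x / ε ^ 7) := by
          refine mul_le_mul_of_nonneg_left (e1.trans ?_) (by positivity)
          gcongr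
          linarith
      _ = 12 ^ 24 * (52 * (C₀ + 1)) / ε ^ 7 * (x * b ^ (25 + n)) / b ^ n := by
          field_simp; ring
      _ ≤ 12 ^ 24 * (52 * (C₀ + 1)) / ε ^ 7 * (C * y) / b ^ n := by gcongr
      _ = _ := by ring
  have h4 := prod_le_prod (s := univ) (fun j _ => mul_nonneg (pow_nonneg (by linarith [hb j]) 24)
    (norm_nonneg _)) fun j _ => h3 j
  rw [prod_mul_distrib, prod_mul_distrib, prod_const, prod_pow] at h4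
  unfold Wr
  rw [norm_mul, norm_pow, norm_prod]
  calc _ ≤ ((2 * (∏ j, 12 * br (u j).im) ^ 2) ^ 6) ^ 2 * ∏ j, ‖wr g γ (u j)‖ :=
        mul_le_mul_of_nonneg_right h2 (prod_nonneg fun _ _ => norm_nonneg _)
    _ = 2 ^ 12 * ((∏ j, 12 * br (u j).im) ^ 24 * ∏ j, ‖wr g γ (u j)‖) := by ring
    _ ≤ 2 ^ 12 * ((12 ^ 24 * (52 * (C₀ + 1)) * C / ε ^ 7) ^ (univ : Finset (Fin 4)).card *
          ∏ j, Real.exp (-|(u j).im|) / br (u j).im ^ n) := by gcongr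
    _ = _ := by
        rw [card_univ, Fintype.card_fin, div_pow, ← pow_mul]
        ring

theorem tw_cut : ∃ C : ℝ, 0 < C ∧ ∀ Δ : ℝ, 1 ≤ Δ → ∀ u ∈ Bx 0 12,
    ‖1 - cF Δ u‖ ≤ C * Δ ^ 28 * ∏ j, br (u j).im ^ 7 := by
  refine ⟨2 * (9 * 13 ^ 7) ^ 4, by positivity, fun Δ hΔ u hu => ?_⟩
  have hb := fun j => tk2_br1 (u j).im
  have h0 : ∀ j, 1 ≤ (13 * Δ * br (u j).im) ^ 7 := fun j =>
    one_le_pow₀ (by nlinarith [hb j])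
  have h1 : ∀ j, ‖1 - th8 (u j * Δ)‖ ≤ 9 * (13 * Δ * br (u j).im) ^ 7 := fun j => by
    have e1 := tw_th (u j * Δ) (by simpa using mul_nonneg (tw_bx hu j).1 (by linarith))
    have e2 : ‖u j‖ ≤ 12 * br (u j).im :=
      tw_nrm (by norm_num) (by rw [abs_le]; constructor <;> linarith [tw_bx hu j])
    have e3 : 1 + ‖u j * Δ‖ ≤ 13 * Δ * br (u j).im := by
      rw [norm_mul, Complex.norm_real, Real.norm_of_nonneg (by linarith)]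
      nlinarith [hb j]
    have e4 := pow_le_pow_left₀ (by positivity) e3 7
    have e5 := norm_sub_le (1 : ℂ) (th8 (u j * Δ))
    rw [norm_one] at e5
    linarith [h0 j]
  have h2 : ‖cF Δ u‖ ≤ ∏ j, 9 * (13 * Δ * br (u j).im) ^ 7 := by
    unfold cF
    rw [norm_prod]
    exact prod_le_prod (fun _ _ => norm_nonneg _) fun j _ => h1 j
  have h3 := tw_one univ (fun j => 9 * (13 * Δ * br (u j).im) ^ 7) fun j => by linarith [h0 j]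
  have h4 := norm_sub_le (1 : ℂ) (cF Δ u)
  rw [norm_one] at h4
  have h5 : ∏ j, 9 * (13 * Δ * br (u j).im) ^ 7 =
      (9 * 13 ^ 7) ^ 4 * Δ ^ 28 * ∏ j, br (u j).im ^ 7 := by
    simp only [Fin.prod_univ_four]; ring
  rw [h5] at h2 h3
  linarith

theorem tw_WB (hDEC : DEC) {g : ℂ → ℂ} {C₀ : ℝ} (hg : GC g C₀) (n : ℕ) : ∃ C : ℝ, 0 < C ∧
    ∀ γ ∈ T3, ∀ Δ ε : ℝ, 1 ≤ Δ → 0 < ε → ∀ u ∈ Bx ε 12, ‖Wr g γ u * (1 - cF Δ u)‖ ≤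
      C * (Δ / ε) ^ 28 * ∏ j, Real.exp (-|(u j).im|) / br (u j).im ^ n := by
  obtain ⟨C, hC, h1⟩ := tw_Wr hDEC hg (n + 7)
  obtain ⟨D, hD, h2⟩ := tw_cut
  refine ⟨C * D, by positivity, fun γ hγ Δ ε hΔ hε u hu => ?_⟩
  have hb := fun j => tk2_br0 (u j).im
  rw [norm_mul]
  refine (mul_le_mul (h1 γ hγ ε hε u hu)
    (h2 Δ hΔ u fun j => ⟨hε.le.trans (tw_bx hu j).1, (tw_bx hu j).2⟩) (norm_nonneg _)
    (mul_nonneg (by positivity) (prod_nonneg fun j _ => by have := hb j; positivity))).trans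
    (le_of_eq ?_)
  have e : ∏ j, Real.exp (-|(u j).im|) / br (u j).im ^ n =
      (∏ j, Real.exp (-|(u j).im|) / br (u j).im ^ (n + 7)) * ∏ j, br (u j).im ^ 7 := by
    rw [← prod_mul_distrib]
    exact prod_congr rfl fun j _ => by have := hb j; rw [pow_add]; field_simp
  rw [e]
  ring

theorem tw_hth : Differentiable ℂ th8 := by unfold th8; fun_prop

theorem tw_hcF (Δ : ℝ) : Differentiable ℂ (cF Δ) := by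
  have := tw_hth
  unfold cF
  simp only [Fin.prod_univ_four]
  fun_prop

theorem tw_hwr {g : ℂ → ℂ} {C : ℝ} (hg : GC g C) {γ : ℤ} (hγ : γ ∈ T3) {u : ℂ} (h0 : 0 < u.re) :
    DifferentiableAt ℂ (wr g γ) u := by
  have h1 := hg.hol u (by linarith)
  have h2 : u ≠ 0 := fun h => by simp [h] at h0
  have h3 : 1 - γ * (2 : ℂ) ^ (-(1 / 2 + u)) ≠ 0 :=
    norm_pos_iff.1 (lt_of_lt_of_le (by norm_num) (tw_den hγ h0.le))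
  have h4 : DifferentiableAt ℂ (fun u : ℂ => (2 : ℂ) ^ (-(1 / 2 + u))) u :=
    DifferentiableAt.const_cpow (by fun_prop) (Or.inl two_ne_zero)
  unfold wr
  exact DifferentiableAt.div (by fun_prop) (by fun_prop) (mul_ne_zero (pow_ne_zero _ h2) h3)

theorem tw_hprod {f : ℂ → ℂ} {u : V4} (h : ∀ j, DifferentiableAt ℂ f (u j)) :
    DifferentiableAt ℂ (fun v : V4 => ∏ j, f (v j)) u := by
  have h1 : ∀ j, DifferentiableAt ℂ (fun v : V4 => f (v j)) u := fun j =>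
    (h j).comp u (differentiableAt_apply j u)
  simp only [Fin.prod_univ_four]
  exact (((h1 0).mul (h1 1)).mul (h1 2)).mul (h1 3)

theorem tw_hvd : Differentiable ℂ fun u : V4 => Vd fun j => u j ^ 2 := by
  unfold Vd
  fun_prop

theorem tw_hWr {g : ℂ → ℂ} {C : ℝ} (hg : GC g C) {γ : ℤ} (hγ : γ ∈ T3) {u : V4}
    (h0 : ∀ j, 0 < (u j).re) : DifferentiableAt ℂ (Wr g γ) u :=
  ((tw_hvd u).pow 2).mul (tw_hprod fun j => tw_hwr hg hγ (h0 j))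

theorem tw_hus : Differentiable ℂ us := by unfold us; fun_prop

theorem tw_npow {q : ℝ} (hq : 0 < q) (w : ℂ) : ‖(q : ℂ) ^ w‖ = q ^ w.re :=
  Complex.norm_cpow_eq_rpow_re_of_pos hq w

theorem tw_usre (u : V4) : (us u).re = (∑ j, (u j).re) / 2 := by simp [us]

end Pool.Agent.Q4
end
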