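import Pool.Agent.K.MP_ea46f5_nt.C23
import Pool.Agent.K.MP_ea46f5_nt.C5
import Pool.Agent.K.MP_ea46f5_nt.C8
import Pool.Agent.K.MP_ea46f5_nt.C6
import Pool.Agent.K.MP_ea46f5_nt.C1
import Pool.Agent.K.MP_ea46f5_nt.C3

-- part Pool.Agent.P.MP_ea46f5_nt.Q4.FAT
section

namespace Pool.Agent.Q4

open Complex MeasureTheory Finset Pool.Agent.QM
open scoped Real ComplexConjugate

theorem at_l1 {L : ℝ} (hL : 100 ≤ L) : 1 ≤ Real.log L ∧ Real.log L ≤ L := by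
  refine ⟨?_, (Real.log_le_sub_one_of_pos (by linarith)).trans (by linarith)⟩
  rw [Real.le_log_iff_exp_le (by linarith)]
  have := Real.exp_one_lt_d9
  linarith

theorem at_Y {L : ℝ} (hL : 100 ≤ L) :
    L ^ 50 ≤ √((⌈L ^ 100⌉₊ : ℕ) : ℝ) ∧ ((⌈L ^ 100⌉₊ : ℕ) : ℝ) ≤ L ^ 101 ∧ 1 ≤ ⌈L ^ 100⌉₊ := by
  have h1 : (1 : ℝ) ≤ L ^ 100 := one_le_pow₀ (by linarith)
  refine ⟨Real.le_sqrt_of_sq_le ?_, ?_, Nat.ceil_pos.2 (by linarith)⟩
  · rw [← pow_mul]
    exact Nat.le_ceil _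
  · have h2 := (Nat.ceil_lt_add_one (show (0 : ℝ) ≤ L ^ 100 by linarith)).le
    rw [pow_succ L 100]
    nlinarith

theorem at_pow (N : ℕ) {L : ℝ} (hL : 0 ≤ L) :
    L ^ N ≤ (N.factorial : ℝ) * 10 ^ N * Real.exp (L / 10) := by
  have h := Real.pow_div_factorial_le_exp (L / 10) (by linarith) N
  have h0 : (0 : ℝ) < N.factorial := by exact_mod_cast N.factorial_pos
  rw [div_le_iff₀ h0, div_pow, div_le_iff₀ (by positivity)] at h
  linarith

theorem at_quot {L D η Y : ℝ} (hL : 100 ≤ L) (hD : 1 ≤ D) (h1 : 1 / L ^ 41 ≤ η)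
    (hY : Y ≤ L ^ 101) : Y * (D * Real.log L) / η ≤ D * L ^ 143 := by
  have hl := at_l1 hL
  have hL0 : 0 < L := by linarith
  have hη : 0 < η := lt_of_lt_of_le (by positivity) h1
  rw [div_le_iff₀ hη]
  calc Y * (D * Real.log L) ≤ L ^ 101 * (D * L) := by gcongr; exacts [by nlinarith [hl.1], hl.2]
    _ = D * L ^ 143 * (1 / L ^ 41) := by field_simp
    _ ≤ _ := by gcongr

theorem at_n1 {L D X Y : ℝ} (hL : 100 ≤ L) (hD : 1 ≤ D) (hX : X = Real.exp L)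
    (hY : L ^ 50 ≤ √Y) : (D * Real.log L * L) ^ 40 * (X / √Y + 1) ≤
      D ^ 40 * (1 + (Nat.factorial 80 : ℝ) * 10 ^ 80) * (X * Real.log L ^ 32) := by
  obtain ⟨hl1, hl2⟩ := at_l1 hL
  have hL0 : 0 < L := by linarith
  have hL1 : 1 ≤ L := by linarith
  have hX0 : 0 < X := hX ▸ Real.exp_pos L
  have h32 : 1 ≤ Real.log L ^ 32 := one_le_pow₀ hl1
  have a1 : (Real.log L * L) ^ 40 * (X / √Y) ≤ X * Real.log L ^ 32 := by
    calc _ ≤ (Real.log L * L) ^ 40 * (X / L ^ 50) := by gcongr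
      _ = X * Real.log L ^ 32 * (Real.log L ^ 8 / L ^ 10) := by field_simp
      _ ≤ X * Real.log L ^ 32 * 1 := by
        gcongr
        rw [div_le_one (by positivity)]
        exact (pow_le_pow_left₀ (by linarith) hl2 8).trans (pow_le_pow_right₀ hL1 (by norm_num))
      _ = _ := mul_one _
  have a2 : (Real.log L * L) ^ 40 ≤ (Nat.factorial 80 : ℝ) * 10 ^ 80 * (X * Real.log L ^ 32) := by
    calc _ ≤ (L * L) ^ 40 := by gcongr
      _ = L ^ 80 := by ring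
      _ ≤ _ := at_pow 80 hL0.le
      _ ≤ (Nat.factorial 80 : ℝ) * 10 ^ 80 * (X * 1) := by
        rw [mul_one, hX]
        gcongr
        linarith
      _ ≤ _ := by gcongr
  generalize (Nat.factorial 80 : ℝ) * 10 ^ 80 = K at a2 ⊢
  calc _ = D ^ 40 * ((Real.log L * L) ^ 40 * (X / √Y) + (Real.log L * L) ^ 40) := by ring
    _ ≤ D ^ 40 * (X * Real.log L ^ 32 + K * (X * Real.log L ^ 32)) := by gcongr
    _ = _ := by ring

theorem at_n2 (B : ℕ) {L D X Q : ℝ} (hL : 100 ≤ L) (hD : 1 ≤ D) (hB : 2 * (143 * B + 20 : ℝ) ≤ D)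
    (hX : X = Real.exp L) (hQ0 : 0 ≤ Q) (hQ : Q ≤ D * L ^ 143) :
    Q ^ B * Real.exp (-(D * Real.log L) / 2) * X * lg X ^ 10 ≤ D ^ B * (X * Real.log L ^ 32) := by
  obtain ⟨hl1, hl2⟩ := at_l1 hL
  have hL0 : 0 < L := by linarith
  have hX0 : 0 < X := hX ▸ Real.exp_pos L
  have hX1 : L + 1 ≤ X := hX ▸ Real.add_one_le_exp L
  have h32 : 1 ≤ Real.log L ^ 32 := one_le_pow₀ hl1
  have hlg0 : 0 ≤ lg X := Real.log_nonneg (by linarith)
  have hlg : lg X ≤ L ^ 2 := by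
    have h1 : lg X ≤ Real.log (X * X) := Real.log_le_log (by linarith) (by nlinarith)
    rw [Real.log_mul hX0.ne' hX0.ne', hX, Real.log_exp] at h1
    rw [hX]
    nlinarith
  have a1 : L ^ (143 * B + 20) * Real.exp (-(D * Real.log L) / 2) ≤ 1 := by
    have : L ^ (143 * B + 20) = Real.exp ((143 * B + 20 : ℕ) * Real.log L) := by
      rw [Real.exp_nat_mul, Real.exp_log hL0]
    rw [this, ← Real.exp_add, Real.exp_le_one_iff]
    push_cast
    nlinarith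
  calc _ ≤ (D * L ^ 143) ^ B * Real.exp (-(D * Real.log L) / 2) * X * (L ^ 2) ^ 10 := by gcongr
    _ = D ^ B * (X * (L ^ (143 * B + 20) * Real.exp (-(D * Real.log L) / 2))) := by
      rw [mul_pow, ← pow_mul, ← pow_mul, pow_add]; ring
    _ ≤ _ := by gcongr; exact a1.trans h32

theorem at_n3 (B : ℕ) {L D X Q : ℝ} (hL : 100 ≤ L) (hD : 1 ≤ D) (hX : X = Real.exp L)
    (hQ0 : 0 ≤ Q) (hQ : Q ≤ D * L ^ 144) : Q ^ B * X ^ (9 / 10 : ℝ) ≤
      D ^ B * (((144 * B).factorial : ℝ) * 10 ^ (144 * B)) * (X * Real.log L ^ 32) := by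
  obtain ⟨hl1, hl2⟩ := at_l1 hL
  have hL0 : 0 < L := by linarith
  have hX0 : 0 < X := hX ▸ Real.exp_pos L
  have h32 : 1 ≤ Real.log L ^ 32 := one_le_pow₀ hl1
  have a1 := at_pow (144 * B) hL0.le
  have hK : 0 ≤ ((144 * B).factorial : ℝ) * 10 ^ (144 * B) := by positivity
  generalize ((144 * B).factorial : ℝ) * 10 ^ (144 * B) = K at a1 hK ⊢
  have a2 : Real.exp (L / 10) * X ^ (9 / 10 : ℝ) = X := by
    rw [hX, ← Real.exp_mul, ← Real.exp_add]
    congr 1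
    ring
  calc _ ≤ (D * L ^ 144) ^ B * X ^ (9 / 10 : ℝ) := by gcongr
    _ = D ^ B * L ^ (144 * B) * X ^ (9 / 10 : ℝ) := by rw [mul_pow, ← pow_mul]
    _ ≤ D ^ B * (K * Real.exp (L / 10)) * X ^ (9 / 10 : ℝ) := by gcongr
    _ = D ^ B * K * (X * 1) := by
      rw [mul_one, mul_assoc, mul_assoc K, a2, mul_assoc]
    _ ≤ _ := by gcongr

theorem at_n4 {L D η Y : ℝ} (hL : 100 ≤ L) (hD : 1 ≤ D) (h0 : 0 < η) (h1 : η ≤ 1 / L ^ 39)
    (hY : L ^ 50 ≤ √Y) :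
    (D * Real.log L) ^ 32 + η ^ 2 * (L * (D * Real.log L)) ^ 32 + L ^ 32 / √Y ≤
      3 * D ^ 32 * Real.log L ^ 32 := by
  obtain ⟨hl1, hl2⟩ := at_l1 hL
  have hL0 : 0 < L := by linarith
  have hL1 : 1 ≤ L := by linarith
  have h32 : 1 ≤ (D * Real.log L) ^ 32 := one_le_pow₀ (by nlinarith)
  have a1 : η ^ 2 * L ^ 32 ≤ 1 := by
    calc _ ≤ (1 / L ^ 39) ^ 2 * L ^ 32 := by gcongr
      _ = 1 / L ^ 46 := by field_simp
      _ ≤ 1 := by
        rw [div_le_one (by positivity)]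
        exact one_le_pow₀ hL1
  have a2 : L ^ 32 / √Y ≤ 1 := by
    rw [div_le_one (lt_of_lt_of_le (by positivity) hY)]
    exact (pow_le_pow_right₀ hL1 (by norm_num)).trans hY
  have a3 : η ^ 2 * (L * (D * Real.log L)) ^ 32 ≤ (D * Real.log L) ^ 32 := by
    rw [mul_pow L, ← mul_assoc]
    exact mul_le_of_le_one_left (by linarith) a1
  rw [mul_assoc 3, ← mul_pow]
  linarith

theorem at_sum (f : ℤ → ℂ) (S : ℂ) (A B : ℝ) (h : HasSum (fun κ : SF => f κ) S) (hA : ‖f 1‖ ≤ A)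
    (hB : ∀ F : Finset ℤ, SQ F → ∑ k ∈ F, ‖f k‖ ≤ B) : ‖S‖ ≤ A + B := by
  refine le_of_tendsto' (Filter.Tendsto.norm h) fun s => (norm_sum_le _ _).trans ?_
  have h1 : ∑ κ ∈ s, ‖f κ‖ = ∑ k ∈ s.map (Function.Embedding.subtype _), ‖f k‖ := by
    rw [sum_map]
    rfl
  have h2 := hB ((s.map (Function.Embedding.subtype _)).erase 1) fun k hk => by
    obtain ⟨κ, _, hκ⟩ := mem_map.1 (mem_of_mem_erase hk)
    exact ⟨hκ ▸ κ.2, ne_of_mem_erase hk⟩
  rw [h1]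
  by_cases h3 : (1 : ℤ) ∈ s.map (Function.Embedding.subtype _)
  · rw [← add_sum_erase _ _ h3]
    linarith
  · rw [erase_eq_of_notMem h3] at h2
    linarith [norm_nonneg (f 1)]

theorem at_SG (K : ℝ) : SG (s1 K) := by
  refine ⟨fun κ => ?_, max 1 K, fun κ hκ => ?_⟩
  · unfold s1 sk
    split_ifs <;> norm_num
  · rw [max_lt_iff] at hκ
    rw [s1, if_neg, sk, if_neg (not_le.2 hκ.2)]
    rintro rfl
    simp at hκ

theorem at_OmE (hSH : SH4) (hOMB : OMB) {g : ℂ → ℂ} {C₀ : ℝ} (hg : GC g C₀) {γ : ℤ}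
    {c Δ η X : ℝ} {Y : ℕ} (hP : Pm γ c Δ η X Y) : ∃ M : ℝ, OmE (Om g γ c Δ η X) M := by
  obtain ⟨C, B, hC, h⟩ := hOMB g C₀ 14 hg
  refine ⟨C * (Δ / (η * min 1 1)) ^ B * X ^ (26 : ℝ) * Real.exp (-Δ * 1), fun w hw t => ?_⟩
  have hre : (w + us (pt (cs 12) t)).re = w.re + 24 := by
    simp [us, pt, cs, Fin.sum_univ_four]
    norm_num
  have hw1 := hw.1
  have hw2 := hw.2
  obtain ⟨_, _, h3, _, _, h6⟩ := h γ c Δ η X 1 Y w (pt (cs 12) t) hP one_pos hw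
    (fun i => by simp [pt, cs]) (by rw [hre]; linarith)
  refine ⟨h3, h6.trans ?_⟩
  obtain ⟨_, b2, b3, _, b5⟩ := hSH.2.1 2 12 (pt (cs 12) t)
  have b6 := (hSH.2.1 14 0 (pt (cs 12) t)).2.2.1
  have hΔ := hP.D1
  have hη := hP.h0
  have hX := hP.X1
  have hb : 0 < br w.im := by unfold br; positivity
  rw [← b5]
  gcongr
  rw [hre]
  linarith

theorem pAT (hKA : KAx) (hFE : FEx) (hPD : PDx) (hSH : SH4) (hEX : EX4) (hPOC : POC) (hCLM : CLM) (hOMB : OMB) (hPRT : PRT) (hTK : TK0) (hTF : TF1) (hTD : TDG) (hTA : TAIL) : AT := by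
  intro g C₀ τ r hg hτ hr
  obtain ⟨C₁, _, hE⟩ := hKA τ r hτ
  have hr8 : 0 ≤ r ∧ r < 8 := by
    simp only [RS, mem_insert, mem_singleton] at hr
    omega
  have hPDI := hPD τ r _ C₁ hE (hFE τ r hτ hr8.1 hr8.2)
  obtain ⟨Ck, Bk, hCk, hk⟩ := hTK g C₀ C₁ _ hg hE
  obtain ⟨Cf, Bf, hCf, hf1⟩ := hTF g C₀ C₁ _ hg hE
  obtain ⟨Cd, hCd, hd⟩ := hTD g C₀ hg
  obtain ⟨Ct, hCt, ht⟩ := hTA g C₀ hg
  refine ⟨2 * (143 * Bk + 20), fun D hD => ?_⟩
  have hD1 : 1 ≤ D := by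
    have : (0 : ℝ) ≤ Bk := Nat.cast_nonneg _
    linarith
  refine ⟨Ct * (D ^ 40 * (1 + (Nat.factorial 80 : ℝ) * 10 ^ 80)) +
    Cf * (D ^ Bf * (((144 * Bf).factorial : ℝ) * 10 ^ (144 * Bf))) + Ck * D ^ Bk +
    Cd * (3 * D ^ 32), Real.exp 100, fun X η hX h1 h2 => ?_⟩
  have hX0 : 0 < X := lt_of_lt_of_le (Real.exp_pos _) hX
  have hL : 100 ≤ Real.log X := (Real.le_log_iff_exp_le hX0).2 hX
  have hXL : X = Real.exp (Real.log X) := (Real.exp_log hX0).symm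
  set L := Real.log X with hLdef
  have hL0 : 0 < L := by linarith
  obtain ⟨hl1, hl2⟩ := at_l1 hL
  obtain ⟨y1, y2, y3⟩ := at_Y hL
  set Y := ⌈L ^ 100⌉₊ with hYdef
  have hη : 0 < η := lt_of_lt_of_le (by positivity) h1
  have hP : Pm (gam r) (cq r) (D * Real.log L) η X Y := by
    refine ⟨?_, (hCLM.2.2 r).1, (hCLM.2.2 r).2, by nlinarith, hη, h2.trans ?_, ?_, hL, y3⟩
    · unfold gam
      split_ifs <;> decide
    · refine one_div_le_one_div_of_le (by norm_num) ?_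
      exact le_trans (by linarith) (le_self_pow₀ (by linarith) (by norm_num))
    · exact le_trans (Real.one_le_exp (by norm_num)) hX
  obtain ⟨M, hM⟩ := at_OmE hSH hOMB hg hP
  obtain ⟨e1, e2⟩ := hEX Y _ _ _ _
    (hPOC τ r _ C₁ M Y _ _ hE hPDI (at_SG (X * Real.exp (-(D * Real.log L)))) hM)
  simp only [hPRT τ r g _ η X Y _ hη hX0] at e1 e2
  obtain ⟨t1, t2⟩ := ht τ r _ η X Y hτ hr hP e1
  refine ⟨t1, ?_⟩
  have s1' : s1 (X * Real.exp (-(D * Real.log L))) 1 = 3 / 4 := if_pos rfl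
  have e3 := at_sum (fun κ => Yk Y (KP (EG τ r) (Om g (gam r) (cq r) (D * Real.log L) η X))
    (s1 (X * Real.exp (-(D * Real.log L))) κ) κ) _ _ _ e2
    (s1'.symm ▸ hf1 _ _ _ η X Y hP) fun F hF => hk _ _ _ η X Y F hP hF
  have e4 := hd _ _ _ η X Y hP
  have hY0 : (0 : ℝ) ≤ Y := Nat.cast_nonneg _
  have q1 := at_quot hL hD1 h1 y2
  have q0 : 0 ≤ (Y : ℝ) * (D * Real.log L) / η := by positivity
  have n1 := at_n1 hL hD1 hXL y1
  have n2 := at_n2 Bk hL hD1 hD hXL q0 q1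
  have n3 := at_n3 Bf (Q := (Y : ℝ) * (D * Real.log L) * L / η) hL hD1 hXL (by positivity) (by
    calc _ = (Y : ℝ) * (D * Real.log L) / η * L := by ring
      _ ≤ D * L ^ 143 * L := by gcongr
      _ = _ := by ring)
  have n4 := at_n4 hL hD1 hη h2 y1
  have m1 := mul_le_mul_of_nonneg_left n1 hCt.le
  have m2 := mul_le_mul_of_nonneg_left n2 hCk.le
  have m3 := mul_le_mul_of_nonneg_left n3 hCf.le
  have m4 := mul_le_mul_of_nonneg_left n4 (mul_pos hCd hX0).le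
  have tri : ∀ a b c d : ℂ, ‖b - d‖ ≤ ‖a - b‖ + ‖a - c‖ + ‖c - d‖ := fun a b c d => by
    rw [show b - d = -(a - b) + (a - c) + (c - d) by ring]
    exact norm_add₃_le.trans (by rw [norm_neg])
  refine (tri _ _ _ _).trans ((add_le_add (add_le_add t2 e3) e4).trans ?_)
  generalize (Nat.factorial 80 : ℝ) * 10 ^ 80 = K at m1 ⊢
  generalize ((144 * Bf).factorial : ℝ) * 10 ^ (144 * Bf) = K' at m3 ⊢
  rw [← hLdef]
  linear_combination m1 + m2 + m3 + m4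

end Pool.Agent.Q4
end

-- part Pool.Agent.P.MP_ea46f5_nt.Q4.FBAS
section

/-! Packets on the line of abscissa zero: size, continuity, the base case. -/

namespace Pool.Agent.Q4

open Complex MeasureTheory Finset Pool.Agent.QM
open scoped Real

theorem bs_brm (t u : ℝ) : br t ≤ br (t - u) * br u := by
  unfold br
  have := abs_add_le (t - u) u
  rw [sub_add_cancel] at this
  nlinarith [abs_nonneg (t - u), abs_nonneg u, mul_nonneg (abs_nonneg (t - u)) (abs_nonneg u)]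

theorem bs_pw {κ : ℝ} (hκ : 0 < κ) (t v τ : ℝ) {n : ℕ} (hn : n ≤ 2) :
    ‖(((0 : ℝ) : ℂ) + τ * I) ^ n * pw κ t v ((0 : ℝ) + τ * I)‖ ≤
      Real.exp (9 / κ) * br t ^ 5 * Real.exp (-|τ - t| / 2) := by
  have hb := tk2_br1 τ
  have hbt := tk2_br0 t
  have hbx := tk2_br0 (τ - t)
  have h1 : ‖((0 : ℝ) : ℂ) + τ * I‖ ≤ br τ := by
    simp [br]
  have h2 : ‖(((0 : ℝ) : ℂ) + τ * I) ^ 2 - 1 / 4‖ ≤ br τ ^ 2 := by
    refine (norm_sub_le _ _).trans ?_
    simp only [ofReal_zero, zero_add, norm_pow, norm_mul, norm_real, norm_I, mul_one,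
      Real.norm_eq_abs, norm_div, norm_one, Complex.norm_ofNat, br]
    nlinarith [abs_nonneg τ]
  have h3 : ‖cexp (κ * (((0 : ℝ) : ℂ) + τ * I - t * I) ^ 2 + v * ((0 : ℝ) + τ * I))‖ =
      Real.exp (-(κ * (τ - t) ^ 2)) := by
    rw [Complex.norm_exp]
    congr 1
    simp [pow_two]
  have h4 : br (τ - t) ^ 5 ≤ Real.exp (5 * |τ - t|) := by
    have := Real.add_one_le_exp |τ - t|
    calc br (τ - t) ^ 5 ≤ Real.exp |τ - t| ^ 5 :=
          pow_le_pow_left₀ hbx.le (by unfold br; linarith) 5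
      _ = _ := by rw [← Real.exp_nat_mul]; norm_num
  have h5 : 5 * |τ - t| + -(κ * (τ - t) ^ 2) ≤ 9 / κ + -|τ - t| / 2 := by
    have e : 9 / κ = κ * (3 / κ) ^ 2 := by field_simp; norm_num
    have e2 : κ * (3 / κ) = 3 := by field_simp
    rw [e, ← sq_abs (τ - t)]
    nlinarith [mul_nonneg hκ.le (sq_nonneg (|τ - t| - 3 / κ)), abs_nonneg (τ - t)]
  unfold pw
  rw [norm_mul, norm_mul, norm_mul, norm_pow, h3]
  calc _ ≤ br τ ^ n * (br τ * br τ ^ 2 * Real.exp (-(κ * (τ - t) ^ 2))) := by gcongr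
    _ ≤ br τ ^ 2 * (br τ * br τ ^ 2 * Real.exp (-(κ * (τ - t) ^ 2))) := by gcongr
    _ = br τ ^ 5 * Real.exp (-(κ * (τ - t) ^ 2)) := by ring
    _ ≤ (br (τ - t) * br t) ^ 5 * Real.exp (-(κ * (τ - t) ^ 2)) := by
        gcongr
        exact bs_brm τ t
    _ = br t ^ 5 * (br (τ - t) ^ 5 * Real.exp (-(κ * (τ - t) ^ 2))) := by ring
    _ ≤ br t ^ 5 * (Real.exp (5 * |τ - t|) * Real.exp (-(κ * (τ - t) ^ 2))) := by gcongr
    _ ≤ br t ^ 5 * (Real.exp (9 / κ) * Real.exp (-|τ - t| / 2)) := by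
        rw [← Real.exp_add, ← Real.exp_add]
        gcongr
    _ = _ := by ring

theorem bs_jen {w g : ℝ → ℝ} (hw0 : ∀ x, 0 ≤ w x) (hg0 : ∀ x, 0 ≤ g x) (hw : Integrable w)
    (hw4 : ∫ x, w x ≤ 4) (hi : Integrable fun x => w x * g x ^ 4) :
    (∫ x, w x * g x) ^ 4 ≤ 108 * ∫ x, w x * g x ^ 4 := by
  set a := ∫ x, w x * g x with ha
  set b := ∫ x, w x * g x ^ 4 with hb
  have hb0 : 0 ≤ b := integral_nonneg fun x => mul_nonneg (hw0 x) (by positivity)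
  have ha0 : 0 ≤ a := integral_nonneg fun x => mul_nonneg (hw0 x) (hg0 x)
  rcases ha0.eq_or_lt with h | h
  · rw [← h]; norm_num; exact hb0
  have h1 : a ≤ ∫ x, (54 / a ^ 3 * (w x * g x ^ 4) + a / 8 * w x) := by
    refine integral_mono_of_nonneg (.of_forall fun x => mul_nonneg (hw0 x) (hg0 x))
      ((hi.const_mul _).add (hw.const_mul _)) (.of_forall fun x => ?_)
    have k : g x ≤ 54 / a ^ 3 * g x ^ 4 + a / 8 := by
      have k1 : g x * a ^ 3 ≤ 54 * g x ^ 4 + a ^ 4 / 8 := by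
        nlinarith [sq_nonneg (36 * g x ^ 2 - a ^ 2), mul_nonneg (sq_nonneg a) (sq_nonneg (6 * g x - a))]
      have e : 54 / a ^ 3 * g x ^ 4 + a / 8 = (54 * g x ^ 4 + a ^ 4 / 8) / a ^ 3 := by field_simp
      rw [e, le_div_iff₀ (by positivity)]
      exact k1
    have := mul_le_mul_of_nonneg_left k (hw0 x)
    linarith
  rw [integral_add (hi.const_mul _) (hw.const_mul _), integral_const_mul, integral_const_mul,
    ← hb] at h1
  have h2 : a / 8 * ∫ x, w x ≤ a / 8 * 4 := mul_le_mul_of_nonneg_left hw4 (by positivity)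
  have h3 : a / 2 ≤ 54 / a ^ 3 * b := by linarith
  rw [div_mul_eq_mul_div, le_div_iff₀ (by positivity)] at h3
  linarith

/-- The weighted first moment of `Lo` near the height `t`. -/
noncomputable def La (k : ℤ) (t : ℝ) : ℝ :=
  ∫ τ : ℝ, Real.exp (-|τ - t| / 2) * ‖Lo k (1 / 2 + τ * I)‖

theorem La_nonneg (k : ℤ) (t : ℝ) : 0 ≤ La k t := integral_nonneg fun _ => by positivity

section
variable (hLOP : LOP) (hLOB : LOB) (hDEC : DEC) {k : ℤ} (h1 : Squarefree k) (h2 : k ≠ 1)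
include hLOP hLOB hDEC h1 h2

theorem bs_int (t : ℝ) :
    Integrable fun τ : ℝ => Real.exp (-|τ - t| / 2) * ‖Lo k (1 / 2 + τ * I)‖ := by
  have hc : Continuous (Lo k) := (hLOP.2.1 k h1 h2).continuous
  refine ((tk2_int hLOP hLOB hDEC k h1 h2 t).add (hDEC.2.2.1 t).1).mono'
    (Continuous.aestronglyMeasurable (by fun_prop)) (.of_forall fun τ => ?_)
  rw [Real.norm_of_nonneg (by positivity)]
  have k : ‖Lo k (1 / 2 + τ * I)‖ ≤ ‖Lo k (1 / 2 + τ * I)‖ ^ 4 + 1 := by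
    nlinarith [sq_nonneg (‖Lo k (1 / 2 + τ * I)‖ ^ 2 - 1 / 2),
      sq_nonneg (‖Lo k (1 / 2 + τ * I)‖ - 1 / 2)]
  have := mul_le_mul_of_nonneg_left k (Real.exp_pos (-|τ - t| / 2)).le
  simp only [Pi.add_apply]
  linarith

theorem bs_La (t : ℝ) : La k t ^ 4 ≤ 108 * Lw k t :=
  bs_jen (fun _ => (Real.exp_pos _).le) (fun _ => norm_nonneg _) (hDEC.2.2.1 t).1
    (hDEC.2.2.1 t).2 (tk2_int hLOP hLOB hDEC k h1 h2 t)

omit hLOP hLOB hDEC h1 h2 in
theorem bs_pt {κ : ℝ} (hκ : 0 < κ) (t v τ : ℝ) {n : ℕ} (hn : n ≤ 2) :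
    ‖(((0 : ℝ) : ℂ) + τ * I) ^ n *
        (pw κ t v ((0 : ℝ) + τ * I) * Lo k (1 / 2 + ((0 : ℝ) + τ * I)))‖ ≤
      Real.exp (9 / κ) * br t ^ 5 * (Real.exp (-|τ - t| / 2) * ‖Lo k (1 / 2 + τ * I)‖) := by
  rw [← mul_assoc, norm_mul, ← mul_assoc]
  refine mul_le_mul (bs_pw hκ t v τ hn) (le_of_eq ?_) (norm_nonneg _)
    (by have := tk2_br0 t; positivity)
  simp

/-- Integrability on the line of abscissa zero. -/
theorem bs_Lc {κ : ℝ} (hκ : 0 < κ) (t v : ℝ) {n : ℕ} (hn : n ≤ 2) :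
    Lc 0 fun u => u ^ n * (pw κ t v u * Lo k (1 / 2 + u)) := by
  have hc : Continuous (Lo k) := (hLOP.2.1 k h1 h2).continuous
  refine ((bs_int hLOP hLOB hDEC h1 h2 t).const_mul (Real.exp (9 / κ) * br t ^ 5)).mono'
    (Continuous.aestronglyMeasurable ?_) (.of_forall fun τ => bs_pt hκ t v τ hn)
  unfold pw
  fun_prop

theorem bs_Iv {κ : ℝ} (hκ : 0 < κ) (t v : ℝ) {n : ℕ} (hn : n ≤ 2) :
    ‖Iv 0 fun u => u ^ n * (pw κ t v u * Lo k (1 / 2 + u))‖ ≤
      Real.exp (9 / κ) * br t ^ 5 * La k t := by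
  unfold La
  rw [← integral_const_mul]
  exact norm_integral_le_of_norm_le ((bs_int hLOP hLOB hDEC h1 h2 t).const_mul _)
    (.of_forall fun τ => bs_pt hκ t v τ hn)

theorem bs_cont {κ : ℝ} (hκ : 0 < κ) (t : ℝ) {n : ℕ} (hn : n ≤ 2) :
    Continuous fun v : ℝ => Iv 0 fun u => u ^ n * (pw κ t v u * Lo k (1 / 2 + u)) := by
  refine continuous_of_dominated (fun v => (bs_Lc hLOP hLOB hDEC h1 h2 hκ t v hn).1)
    (fun v => .of_forall fun τ => bs_pt hκ t v τ hn)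
    ((bs_int hLOP hLOB hDEC h1 h2 t).const_mul _) (.of_forall fun τ => ?_)
  unfold pw
  fun_prop

theorem bs_Pk {κ κ' : ℝ} (hκ : 0 < κ) (hκ' : 0 < κ') (t v t' v' : ℝ) :
    ‖Pk κ t v κ' t' v' k‖ ≤
      2 * (Real.exp (9 / κ) * br t ^ 5 * La k t) * (Real.exp (9 / κ') * br t' ^ 5 * La k t') := by
  have a0 := bs_Iv hLOP hLOB hDEC h1 h2 hκ t v (n := 0) (by norm_num)
  have a2 := bs_Iv hLOP hLOB hDEC h1 h2 hκ t v (n := 2) le_rfl
  have b0 := bs_Iv hLOP hLOB hDEC h1 h2 hκ' t' v' (n := 0) (by norm_num)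
  have b2 := bs_Iv hLOP hLOB hDEC h1 h2 hκ' t' v' (n := 2) le_rfl
  simp only [pow_zero, one_mul] at a0 b0
  have p := (norm_nonneg _).trans a0
  unfold Pk pr
  refine (norm_sub_le _ _).trans ?_
  rw [norm_mul, norm_mul]
  have c1 := mul_le_mul a2 b0 (norm_nonneg _) p
  have c2 := mul_le_mul a0 b2 (norm_nonneg _) p
  linarith

theorem bs_Pc {κ κ' : ℝ} (hκ : 0 < κ) (t t' v' : ℝ) :
    Continuous fun v : ℝ => Pk κ t v κ' t' v' k := by
  have a0 := bs_cont hLOP hLOB hDEC h1 h2 hκ t (n := 0) (by norm_num)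
  have a2 := bs_cont hLOP hLOB hDEC h1 h2 hκ t (n := 2) le_rfl
  simp only [pow_zero, one_mul] at a0
  unfold Pk pr
  exact (a2.mul continuous_const).sub (a0.mul continuous_const)

theorem bs_Pk2 {κ κ' : ℝ} (hκ : 0 < κ) (hκ' : 0 < κ') (t v t' v' : ℝ) :
    ‖Pk κ t v κ' t' v' k‖ ^ 2 ≤ 216 * (Real.exp (9 / κ) * Real.exp (9 / κ')) ^ 2 *
      (br t ^ 10 * br t' ^ 10) * (Lw k t + Lw k t') := by
  have a := bs_La hLOP hLOB hDEC h1 h2 t
  have b := bs_La hLOP hLOB hDEC h1 h2 t'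
  have c : La k t ^ 2 * La k t' ^ 2 ≤ 54 * (Lw k t + Lw k t') := by
    nlinarith [sq_nonneg (La k t ^ 2 - La k t' ^ 2)]
  have hb := tk2_br0 t
  have hb' := tk2_br0 t'
  calc _ ≤ (2 * (Real.exp (9 / κ) * br t ^ 5 * La k t) *
        (Real.exp (9 / κ') * br t' ^ 5 * La k t')) ^ 2 :=
        pow_le_pow_left₀ (norm_nonneg _) (bs_Pk hLOP hLOB hDEC h1 h2 hκ hκ' t v t' v') 2
    _ = 4 * (Real.exp (9 / κ) * Real.exp (9 / κ')) ^ 2 * (br t ^ 10 * br t' ^ 10) *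
        (La k t ^ 2 * La k t' ^ 2) := by ring
    _ ≤ 4 * (Real.exp (9 / κ) * Real.exp (9 / κ')) ^ 2 * (br t ^ 10 * br t' ^ 10) *
        (54 * (Lw k t + Lw k t')) := by gcongr
    _ = _ := by ring

end

theorem om_nonneg {x : ℝ} (hx : 0 ≤ x) : 0 ≤ om x := le_min (by positivity) (by positivity)

theorem lg_pos {Z : ℝ} (hZ : 0 ≤ Z) : 0 < lg Z := by
  have := lg_ge hZ
  unfold lg
  linarith

theorem pp2_ten (hLOP : LOP) (hLOB : LOB) (hDEC : DEC) (hF : FOUR) : PP2 10 := by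
  intro κ κ' hκ hκ'
  obtain ⟨A, C, hC, h4⟩ := hF
  obtain ⟨D, hD, hT⟩ := pTK2 hLOP hLOB hDEC A
  refine ⟨10 + A, 216 * (Real.exp (9 / κ) * Real.exp (9 / κ')) ^ 2 * (2 * D * C), by positivity,
    fun K t v t' v' F hK hS => ?_⟩
  have a := hT K _ t F (h4 K hK) hS
  have b := hT K _ t' F (h4 K hK) hS
  have hb := tk2_br0 t
  have hb' := tk2_br0 t'
  have hl := lg_pos hK.le
  have p : 1 ≤ br t ^ A := one_le_pow₀ (tk2_br1 t)
  have p' : 1 ≤ br t' ^ A := one_le_pow₀ (tk2_br1 t')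
  have q : br t ^ A + br t' ^ A ≤ 2 * (br t ^ A * br t' ^ A) := by nlinarith
  have e10 : lg K ^ (10 : ℝ) = lg K ^ 10 := by exact_mod_cast Real.rpow_natCast (lg K) 10
  set E := 216 * (Real.exp (9 / κ) * Real.exp (9 / κ')) ^ 2 with hE
  calc _ ≤ ∑ k ∈ F, om (|(k : ℝ)| / K) * (E * (br t ^ 10 * br t' ^ 10) * (Lw k t + Lw k t')) :=
        sum_le_sum fun k hk => mul_le_mul_of_nonneg_left
          (bs_Pk2 hLOP hLOB hDEC (hS k hk).1 (hS k hk).2 hκ.1 hκ'.1 t v t' v')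
          (om_nonneg (by positivity))
    _ = E * (br t ^ 10 * br t' ^ 10) *
        (∑ k ∈ F, om (|(k : ℝ)| / K) * Lw k t + ∑ k ∈ F, om (|(k : ℝ)| / K) * Lw k t') := by
        rw [← sum_add_distrib, mul_sum]
        exact sum_congr rfl fun k _ => by ring
    _ ≤ E * (br t ^ 10 * br t' ^ 10) * (D * (C * K * lg K ^ 10) * (br t ^ A + br t' ^ A)) := by
        gcongr
        linarith
    _ ≤ E * (br t ^ 10 * br t' ^ 10) *
        (D * (C * K * lg K ^ 10) * (2 * (br t ^ A * br t' ^ A))) := by gcongr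
    _ = _ := by rw [e10]; ring

/-- The weighted bound gives the dyadic bound. -/
theorem di_of_pp2 {θ : ℝ} (h : PP2 θ) : DI θ 0 0 := by
  intro κ κ' hκ hκ'
  obtain ⟨A, C, hC, H⟩ := h κ κ' hκ hκ'
  refine ⟨A, C, hC, fun Z t v t' v' hZ => ?_⟩
  have hZ0 : 0 < Z := by linarith
  simp only [pow_zero, mul_one]
  refine le_trans (sum_le_sum fun k hk => ?_)
    (H Z t v t' v' (Sq Z) hZ0 fun k hk => ⟨(mt_mem_Sq.1 hk).1, (mt_mem_Sq.1 hk).2.1⟩)
  obtain ⟨-, -, k1, k2⟩ := mt_mem_Sq.1 hk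
  have x0 : 0 < |(k : ℝ)| / Z := div_pos (by linarith) hZ0
  have x1 : |(k : ℝ)| / Z ≤ 1 := (div_le_one hZ0).2 k2
  have : 1 ≤ om (|(k : ℝ)| / Z) :=
    le_min (Real.one_le_rpow_of_pos_of_le_one_of_nonpos x0 x1 (by norm_num))
      (Real.one_le_rpow_of_pos_of_le_one_of_nonpos x0 x1 (by norm_num))
  exact le_mul_of_one_le_left (by positivity) this

theorem pBAS (hLOP : LOP) (hLOB : LOB) (hDEC : DEC) (hF : FOUR) : BAS :=
  di_of_pp2 (pp2_ten hLOP hLOB hDEC hF)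

theorem Pk_swap (κ t v κ' t' v' : ℝ) (k : ℤ) : Pk κ t v κ' t' v' k = -Pk κ' t' v' κ t v k := by
  unfold Pk pr
  ring

theorem sw_core {θ : ℝ} {j j' : ℕ} (h : DI θ j j') : DI θ j' j := by
  intro κ κ' hκ hκ'
  obtain ⟨A, C, hC, H⟩ := h κ' κ hκ' hκ
  refine ⟨A, C, hC, fun Z t v t' v' hZ => ?_⟩
  simp only [Pk_swap κ, norm_neg]
  exact (H Z t' v' t v hZ).trans (le_of_eq (by ring))

end Pool.Agent.Q4
end

-- part Pool.Agent.P.MP_ea46f5_nt.Q4.FBP
section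

namespace Pool.Agent.Q4

open Complex MeasureTheory Finset Pool.Agent.QM
open scoped Real

theorem bp_br1 (t : ℝ) : 1 ≤ br t := by
  unfold br
  linarith [abs_nonneg t]

theorem bp_lg {Z : ℝ} (hZ : 0 ≤ Z) (θ : ℝ) : 0 ≤ lg Z ^ θ := by
  have := lg_ge hZ
  exact Real.rpow_nonneg (by unfold lg; linarith) _

theorem bp_pw (κ t v : ℝ) (u : ℂ) : pw κ t 0 u * cexp (u * v) = pw κ t v u := by
  unfold pw
  rw [mul_assoc, ← Complex.exp_add]
  congr 2
  push_cast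
  ring

theorem bp_id (κ κ' : ℝ) (c V : R4) (k : ℤ) (s : V4) : amp κ κ' c k s * ev s V =
    an s * ∏ j, pw ((![κ, κ', κ, κ'] : R4) j) (c j) (V j) (s j) * Lo k (1 / 2 + s j) := by
  unfold amp ev
  simp only [Fin.prod_univ_four, Fin.sum_univ_four, Complex.exp_add, Matrix.cons_val_zero,
    Matrix.cons_val_one, Matrix.cons_val, ← bp_pw _ _ (V _)]
  ring

theorem pBP (hPR4 : PR4) (hPWI : PWI) : BP := by
  intro θ hP κ κ' hκ hκ'
  obtain ⟨A, C, hC, H⟩ := hP κ κ' hκ hκ'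
  refine ⟨A, C, hC, fun K c F hK hF => ?_⟩
  have hk : ∀ j, Kp ((![κ, κ', κ, κ'] : R4) j) := fun j => by fin_cases j <;> assumption
  have key : ∀ k ∈ F, ∀ V : R4, IL (cs 0) (fun s => amp κ κ' c k s * ev s V) ∧
      In (cs 0) (fun s => amp κ κ' c k s * ev s V) =
        Pk κ (c 0) (V 0) κ' (c 1) (V 1) k * Pk κ (c 2) (V 2) κ' (c 3) (V 3) k := by
    intro k hkF V
    simp only [bp_id]
    exact hPR4 0 (fun j u => pw ((![κ, κ', κ, κ'] : R4) j) (c j) (V j) u * Lo k (1 / 2 + u))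
      fun j => ⟨by simpa using (hPWI _ (c j) (V j) 0 (hk j)).1 k (hF k hkF).1 (hF k hkF).2,
        (hPWI _ (c j) (V j) 2 (hk j)).1 k (hF k hkF).1 (hF k hkF).2⟩
  refine ⟨fun V => ?_, fun k hkF => by simpa [ev] using (key k hkF 0).1⟩
  have a := H K (c 0) (V 0) (c 1) (V 1) F hK hF
  have b := H K (c 2) (V 2) (c 3) (V 3) F hK hF
  have hl := bp_lg hK.le θ
  have p : ∀ j, 1 ≤ br (c j) ^ A := fun j => one_le_pow₀ (bp_br1 _)
  have q1 : 1 ≤ br (c 0) ^ A * br (c 1) ^ A := one_le_mul_of_one_le_of_one_le (p 0) (p 1)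
  have q2 : 1 ≤ br (c 2) ^ A * br (c 3) ^ A := one_le_mul_of_one_le_of_one_le (p 2) (p 3)
  have q : br (c 0) ^ A * br (c 1) ^ A + br (c 2) ^ A * br (c 3) ^ A ≤
      2 * (br (c 0) ^ A * br (c 1) ^ A * (br (c 2) ^ A * br (c 3) ^ A)) := by nlinarith
  calc _ ≤ ∑ k ∈ F, (om (|(k : ℝ)| / K) * ‖Pk κ (c 0) (V 0) κ' (c 1) (V 1) k‖ ^ 2 +
          om (|(k : ℝ)| / K) * ‖Pk κ (c 2) (V 2) κ' (c 3) (V 3) k‖ ^ 2) / 2 := by
        refine sum_le_sum fun k hkF => ?_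
        have o : 0 ≤ om (|(k : ℝ)| / K) := le_min (by positivity) (by positivity)
        rw [(key k hkF V).2, norm_mul]
        nlinarith [mul_nonneg o (sq_nonneg (‖Pk κ (c 0) (V 0) κ' (c 1) (V 1) k‖ -
          ‖Pk κ (c 2) (V 2) κ' (c 3) (V 3) k‖))]
    _ ≤ C * K * lg K ^ θ * (br (c 0) ^ A * br (c 1) ^ A + br (c 2) ^ A * br (c 3) ^ A) / 2 := by
        rw [← sum_div, sum_add_distrib]
        linarith
    _ ≤ C * K * lg K ^ θ *
        (2 * (br (c 0) ^ A * br (c 1) ^ A * (br (c 2) ^ A * br (c 3) ^ A))) / 2 := by gcongr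
    _ = _ := by rw [Fin.prod_univ_four]; ring

theorem rf_cs {E g m : ℝ → ℝ} (hE : ∀ x, 0 ≤ E x) (hg : ∀ x, 0 ≤ g x) (hEm : ∀ x, E x ≤ m x)
    (hm : Integrable m) (hi : Integrable fun x => E x * g x ^ 2) :
    (∫ x, E x * g x) ^ 2 ≤ ((∫ x, m x) + 1) * ∫ x, E x * g x ^ 2 := by
  set a := ∫ x, E x * g x with ha
  set b := ∫ x, E x * g x ^ 2 with hb
  set N := ∫ x, m x with hN
  have hb0 : 0 ≤ b := integral_nonneg fun x => mul_nonneg (hE x) (by positivity)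
  have ha0 : 0 ≤ a := integral_nonneg fun x => mul_nonneg (hE x) (hg x)
  have hN0 : 0 ≤ N := integral_nonneg fun x => (hE x).trans (hEm x)
  rcases ha0.eq_or_lt with h | h
  · rw [← h]; norm_num; positivity
  set l := a / (N + 1) with hl
  have l0 : 0 < l := by positivity
  have h1 : a ≤ ∫ x, (1 / (2 * l) * (E x * g x ^ 2) + l / 2 * m x) := by
    refine integral_mono_of_nonneg (.of_forall fun x => mul_nonneg (hE x) (hg x))
      ((hi.const_mul _).add (hm.const_mul _)) (.of_forall fun x => ?_)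
    have k : g x ≤ 1 / (2 * l) * g x ^ 2 + l / 2 := by
      have e : 1 / (2 * l) * g x ^ 2 + l / 2 = (g x ^ 2 + l ^ 2) / (2 * l) := by field_simp
      rw [e, le_div_iff₀ (by positivity)]
      nlinarith [sq_nonneg (g x - l)]
    have k1 := mul_le_mul_of_nonneg_left k (hE x)
    have k2 := mul_le_mul_of_nonneg_left (hEm x) (half_pos l0).le
    linarith
  rw [integral_add (hi.const_mul _) (hm.const_mul _), integral_const_mul, integral_const_mul,
    ← hb, ← hN] at h1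
  have e1 : l * (N + 1) = a := by rw [hl]; field_simp
  have h3 : l ≤ 1 / (2 * l) * b * (2 / (N + 1)) := by
    rw [mul_div_assoc', le_div_iff₀ (by positivity)]
    nlinarith
  have e2 : 1 / (2 * l) * b * (2 / (N + 1)) = b / a := by rw [← e1]; field_simp
  rw [e2, le_div_iff₀ h] at h3
  calc a ^ 2 = (N + 1) * (l * a) := by rw [← e1]; ring
    _ ≤ _ := by gcongr

theorem rf_E (w : ℝ) : 0 < Ew w ∧ Ew w * max 1 (Real.exp w) ^ 2 ≤ Real.exp (-|w / 2 - 0| / 2) := by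
  unfold Ew
  rw [sub_zero]
  split_ifs with h
  · refine ⟨Real.exp_pos _, ?_⟩
    rw [max_eq_right (Real.one_le_exp h), ← Real.exp_nat_mul, ← Real.exp_add,
      abs_of_nonneg (by linarith)]
    exact Real.exp_le_exp.2 (by push_cast; linarith)
  · refine ⟨Real.exp_pos _, ?_⟩
    rw [max_eq_left (Real.exp_le_one_iff.2 (by linarith)), abs_of_nonpos (by linarith)]
    exact le_of_eq (by rw [one_pow, mul_one]; congr 1; ring)

theorem pRF2 (hDEC : DEC) (hPKB : PKB) (hRF1 : RF1) : RF2 := by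
  intro θ j
  refine ⟨fun h κ κ' hκ hκ' => ?_, fun j' h κ κ' hκ hκ' => ?_⟩
  swap
  · obtain ⟨A, C, hC, H⟩ := h κ' κ hκ' hκ
    refine ⟨A, C, hC, fun Z t v t' v' hZ => ?_⟩
    have e : ∀ k, ‖Pk κ t v κ' t' v' k‖ = ‖Pk κ' t' v' κ t v k‖ := fun k => by
      rw [← norm_neg]
      congr 1
      unfold Pk pr
      ring
    simp only [e]
    exact (H Z t' v' t v hZ).trans (le_of_eq (by ring))
  have hκ2 : Kp (κ / 2) := ⟨half_pos hκ.1, by linarith [hκ.1, hκ.2]⟩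
  obtain ⟨A₁, D₁, hD₁, H₁⟩ := h κ κ' hκ hκ'
  obtain ⟨A₂, D₂, hD₂, H₂⟩ := h (κ / 2) κ' hκ2 hκ'
  obtain ⟨C, c, hC, hR⟩ := hRF1 κ hκ
  set m : ℝ → ℝ := fun w => Real.exp (-|w / 2 - 0| / 2) with hm
  have hmi : Integrable m := (hDEC.2.2.1 0).1.comp_div (R := 2) (by norm_num)
  set N := ∫ w, m w with hN
  have hN0 : 0 ≤ N := integral_nonneg fun _ => (Real.exp_pos _).le
  have hEm : ∀ w, Ew w ≤ m w := fun w => le_trans
    (le_mul_of_one_le_right (rf_E w).1.le (one_le_pow₀ (le_max_left _ _))) (rf_E w).2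
  have hEM : Measurable Ew := by
    unfold Ew
    exact Measurable.ite (measurableSet_le measurable_const measurable_id) (by fun_prop)
      (by fun_prop)
  refine ⟨A₁ + A₂ + 2 * c, D₁ + C ^ 2 * (N + 1) * (D₂ * N), by positivity,
    fun Z t v t' v' hZ => ?_⟩
  have hZ0 : 0 < Z := by linarith
  have hs : 0 < √Z := Real.sqrt_pos.2 hZ0
  have hl := bp_lg hZ0.le θ
  have b1 := bp_br1 t
  have b1' := bp_br1 t'
  have hx : 0 ≤ mx Z v' ^ j := pow_nonneg (zero_le_one.trans (le_max_left _ _)) _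
  set Q := Z * lg Z ^ θ * br t ^ (A₁ + A₂ + 2 * c) * br t' ^ (A₁ + A₂ + 2 * c) * mx Z v' ^ j
    with hQ
  have hQ0 : 0 ≤ Q := by positivity
  suffices k : ∑ k ∈ Sq Z, ‖Pk κ t v κ' t' v' k‖ ^ 2 ≤ D₁ * Q ∨
      ∑ k ∈ Sq Z, ‖Pk κ t v κ' t' v' k‖ ^ 2 ≤ C ^ 2 * (N + 1) * (D₂ * N) * Q by
    have e : (D₁ + C ^ 2 * (N + 1) * (D₂ * N)) * Z * lg Z ^ θ * br t ^ (A₁ + A₂ + 2 * c) *
        br t' ^ (A₁ + A₂ + 2 * c) * mx Z v ^ 0 * mx Z v' ^ j =
        D₁ * Q + C ^ 2 * (N + 1) * (D₂ * N) * Q := by rw [hQ]; ring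
    have p1 : 0 ≤ D₁ * Q := by positivity
    have p2 : 0 ≤ C ^ 2 * (N + 1) * (D₂ * N) * Q := by positivity
    rw [e]
    rcases k with k | k <;> linarith
  rcases le_total (Real.exp v) √Z with hv | hv
  · left
    have e : mx Z v = 1 := max_eq_left ((div_le_one hs).2 hv)
    have := H₁ Z t v t' v' hZ
    rw [e, one_pow, mul_one] at this
    refine this.trans ?_
    calc _ ≤ D₁ * Z * lg Z ^ θ * br t ^ (A₁ + A₂ + 2 * c) * br t' ^ (A₁ + A₂ + 2 * c) *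
          mx Z v' ^ j := by gcongr <;> omega
      _ = _ := by rw [hQ]; ring
  right
  set g : ℤ → ℝ → ℝ := fun k w => ‖Pk (κ / 2) (-t) (Real.log Z - v + w) κ' t' v' k‖ with hg
  have hq : ∀ k ∈ Sq Z, Squarefree k ∧ k ≠ 1 := fun k hk => by
    classical
    unfold Sq at hk
    exact ⟨(mem_filter.1 hk).2.1, (mem_filter.1 hk).2.2.1⟩
  have hi : ∀ k ∈ Sq Z, Integrable fun w => Ew w * g k w ^ 2 := by
    intro k hk
    obtain ⟨-, hc, M, hM⟩ := (hPKB (κ / 2) (-t) κ' t' hκ2 hκ').2 k (hq k hk).1 (hq k hk).2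
    have hgc : Continuous (g k) := ((hc v').comp (continuous_const.add continuous_id)).norm
    refine (hmi.mul_const (M ^ 2)).mono' (hEM.mul (hgc.pow 2).measurable).aestronglyMeasurable
      (.of_forall fun w => ?_)
    rw [Real.norm_of_nonneg (mul_nonneg (rf_E w).1.le (sq_nonneg _))]
    exact mul_le_mul (hEm w) (pow_le_pow_left₀ (norm_nonneg _) (hM _ _) 2) (sq_nonneg _)
      (Real.exp_pos _).le
  set P := D₂ * Z * lg Z ^ θ * br t ^ A₂ * br t' ^ A₂ * mx Z v' ^ j with hP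
  have hP0 : 0 ≤ P := by positivity
  have hsum : ∑ k ∈ Sq Z, ∫ w, Ew w * g k w ^ 2 ≤ P * N := by
    rw [← integral_finsetSum _ hi, hN, ← integral_const_mul]
    refine integral_mono (integrable_finsetSum _ hi) (hmi.const_mul P) fun w => ?_
    have a := H₂ Z (-t) (Real.log Z - v + w) t' v' hZ
    have e : br (-t) = br t := by simp [br]
    have x : mx Z (Real.log Z - v + w) ≤ max 1 (Real.exp w) := by
      refine max_le_max le_rfl ?_
      rw [Real.exp_add, Real.exp_sub, Real.exp_log hZ0, div_le_iff₀ hs, mul_comm]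
      refine mul_le_mul_of_nonneg_left ?_ (Real.exp_pos _).le
      rw [div_le_iff₀ (Real.exp_pos _)]
      nlinarith [Real.mul_self_sqrt hZ0.le]
    have x0 : 0 ≤ mx Z (Real.log Z - v + w) := zero_le_one.trans (le_max_left _ _)
    have hE := (rf_E w).1
    rw [e] at a
    calc _ = Ew w * ∑ k ∈ Sq Z, g k w ^ 2 := (mul_sum _ _ _).symm
      _ ≤ Ew w * (D₂ * Z * lg Z ^ θ * br t ^ A₂ * br t' ^ A₂ * mx Z (Real.log Z - v + w) ^ 2 *
          mx Z v' ^ j) := mul_le_mul_of_nonneg_left a hE.le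
      _ ≤ Ew w * (D₂ * Z * lg Z ^ θ * br t ^ A₂ * br t' ^ A₂ * max 1 (Real.exp w) ^ 2 *
          mx Z v' ^ j) := by gcongr
      _ = P * (Ew w * max 1 (Real.exp w) ^ 2) := by rw [hP]; ring
      _ ≤ P * m w := mul_le_mul_of_nonneg_left (rf_E w).2 hP0
  calc _ ≤ ∑ k ∈ Sq Z, (C * br t ^ c) ^ 2 * ((N + 1) * ∫ w, Ew w * g k w ^ 2) := by
        refine sum_le_sum fun k hk => ?_
        refine (pow_le_pow_left₀ (norm_nonneg _) (hR t v κ' t' v' Z k hκ' hZ hk) 2).trans ?_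
        rw [mul_pow]
        exact mul_le_mul_of_nonneg_left
          (rf_cs (fun w => (rf_E w).1.le) (fun w => norm_nonneg _) hEm hmi (hi k hk)) (sq_nonneg _)
    _ = (C * br t ^ c) ^ 2 * ((N + 1) * ∑ k ∈ Sq Z, ∫ w, Ew w * g k w ^ 2) := by
        rw [← mul_sum, ← mul_sum]
    _ ≤ (C * br t ^ c) ^ 2 * ((N + 1) * (P * N)) := by gcongr
    _ = C ^ 2 * (N + 1) * (D₂ * N) *
        (Z * lg Z ^ θ * br t ^ (A₂ + 2 * c) * br t' ^ A₂ * mx Z v' ^ j) := by rw [hP]; ring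
    _ ≤ _ := by
        rw [hQ]
        gcongr <;> omega

end Pool.Agent.Q4
end

-- part Pool.Agent.P.MP_ea46f5_nt.Q4.FCLM
section

/-! Classes modulo 8 and the truncated Möbius sums. -/

namespace Pool.Agent.Q4

open Complex Finset Pool.Agent.QM

theorem pCLM : CLM := by
  refine ⟨fun τ r k hτ hr hc => ?_, fun a k ha hk => ⟨fun hp => ?_, fun r hc => ?_⟩, fun r => ?_⟩
  · obtain ⟨h1, rfl⟩ := hc
    refine ⟨by simp only [gam, Int.emod_emod_of_dvd _ (dvd_refl (8 : ℤ))], ?_, ?_⟩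
    · have e : k % 8 % 4 = k % 4 := Int.emod_emod_of_dvd _ (by norm_num)
      unfold qk cq disc
      rw [e]
      split_ifs
      · rw [one_mul]
      · push_cast
        rw [abs_mul, abs_of_pos (by norm_num : (0 : ℝ) < 4)]
    · unfold par
      rcases hτ with rfl | rfl
      · rw [if_pos (by omega)]; simp
      · rw [if_neg (by omega)]; simp
  · have h4 : ¬ (2 * 2 : ℤ) ∣ k := fun h => by
      have := Int.isUnit_iff.1 (hk 2 h)
      omega
    have h0 : k ≠ 0 := hk.ne_zero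
    refine ⟨by simp only [RS, mem_insert, mem_singleton]; omega, ?_, rfl⟩
    subst hp
    unfold par
    split_ifs
    · simpa
    · simp only [pow_one]; omega
  · have h1 := hc.1
    unfold par
    interval_cases a
    · rw [if_pos (by simpa using h1)]
    · rw [if_neg (by simp only [pow_one] at h1; omega)]
  · unfold cq
    split_ifs <;> norm_num

theorem cy_mem {Y a : ℕ} (h : a ∈ AY Y) : 1 ≤ a ∧ a ≤ Y := mem_Icc.1 (mem_filter.1 h).1

theorem cy_card (Y : ℕ) (p : ℕ → Prop) [DecidablePred p] : ((AY Y).filter p).card ≤ Y :=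
  (card_filter_le _ _).trans ((card_filter_le _ _).trans (by simp))

theorem cy_abs (s : Finset ℕ) : |∑ a ∈ s, ArithmeticFunction.moebius a| ≤ (s.card : ℤ) := by
  refine (abs_sum_le_sum_abs _ _).trans ?_
  refine (sum_le_card_nsmul _ _ 1 fun a _ => ArithmeticFunction.abs_moebius_le_one).trans ?_
  simp

theorem pCYB : CYB := by
  refine ⟨fun z n => ?_, fun Y n => ?_, fun Y n z hz => ?_, fun Y k f hk hf => ⟨?_, ?_, ?_⟩,
    fun Y m => ?_⟩
  · have h : (AY 1).filter (fun a => a.Coprime n) = {1} := by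
      have : AY 1 = {1} := by decide
      rw [this, filter_singleton, if_pos (Nat.coprime_one_left n)]
    simp [cY, h]
  · refine continuous_finsetSum _ fun a ha => continuous_const.mul (Continuous.const_cpow
      (by fun_prop) (Or.inl ?_))
    have := (cy_mem (mem_filter.1 ha).1).1
    exact Nat.cast_ne_zero.2 (by omega)
  · refine (norm_sum_le _ _).trans ((sum_le_card_nsmul _ _ ((Y : ℝ) ^ 10) fun a ha => ?_).trans ?_)
    · obtain ⟨h1, h2⟩ := cy_mem (mem_filter.1 ha).1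
      have h3 : (1 : ℝ) ≤ a := by exact_mod_cast h1
      have h4 : ‖(ArithmeticFunction.moebius a : ℂ)‖ ≤ 1 := by
        rw [norm_intCast]
        exact_mod_cast ArithmeticFunction.abs_moebius_le_one
      rw [norm_mul, norm_natCast_cpow_of_pos h1]
      calc _ ≤ 1 * (a : ℝ) ^ ((10 : ℕ) : ℝ) :=
            mul_le_mul h4 (Real.rpow_le_rpow_of_exponent_le h3 (by simp; linarith))
              (by positivity) zero_le_one
        _ ≤ _ := by
            rw [one_mul, Real.rpow_natCast]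
            exact pow_le_pow_left₀ (by positivity) (by exact_mod_cast h2) _
    · rw [nsmul_eq_mul, pow_succ' (Y : ℝ) 10]
      exact mul_le_mul_of_nonneg_right (Nat.cast_le.2 (cy_card Y _)) (by positivity)
  · rw [tl_sY Y f k hk hf]
    exact (cy_abs _).trans (by exact_mod_cast card_filter_le _ _)
  · rintro hY rfl
    simpa using tl_sY_one Y k hk hY
  · exact fun h1 h2 => tl_sY_zero Y f k hk hf h1.ne' h2
  · exact (cy_abs _).trans (by exact_mod_cast cy_card Y _)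

end Pool.Agent.Q4
end

-- part Pool.Agent.P.MP_ea46f5_nt.Q4.FCSM
section

/-! The sum of the main terms over the classes modulo 8. -/

namespace Pool.Agent.Q4

open Complex MeasureTheory Finset Pool.Agent.QM
open scoped Real ComplexConjugate

theorem csm_W4 (a : ℕ) (c : Fin 3 → ℂ) (hg : ∀ u, gg a c u = (u ^ 2 - 1 / 4) * g1 a c u) (γ : ℤ)
    (u : V4) : W4 (g1 a c) γ u =
      Vd (fun j => u j ^ 2) ^ 2 * (∏ j, gg a c (u j)) * (∏ j, u j ^ 7)⁻¹ * Fq u 2 γ := by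
  unfold W4 Wr hf Fq
  rw [← prod_inv_distrib, mul_assoc, mul_assoc, mul_assoc, ← prod_mul_distrib, ← prod_mul_distrib,
    ← prod_mul_distrib]
  refine congrArg _ (prod_congr rfl fun j _ => ?_)
  rw [hg, wr, xs, div_eq_mul_inv, mul_inv, Nat.cast_ofNat]
  ring

theorem csm_pt (hLOP : LOP) (hV : VDP) (hA : HA4) (a : ℕ) (c : Fin 3 → ℂ)
    (hg : ∀ u, gg a c u = (u ^ 2 - 1 / 4) * g1 a c u) {u : V4} (hu : ∀ j, 0 < (u j).re) :
    1 / 8 * (W4 (g1 a c) 1 u * ZO u * HI u + W4 (g1 a c) (-1) u * ZO u * HI u +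
      W4 (g1 a c) 0 u * ZO u * HI u) =
      3 / π ^ 2 * (KZ4 u * Aprod 4 u * ∏ j, gg a c (u j)) / P8 u := by
  obtain ⟨-, -, -, -, -, -, -, hv⟩ := hV
  have h0 : ∀ j, u j ≠ 0 := fun j h => by simpa [h] using hu j
  have h1 : ∀ i j, u i + u j ≠ 0 := fun i j h => by
    have := congrArg re h
    rw [add_re, zero_re] at this
    linarith [hu i, hu j]
  have hS : (∏ i, ∏ j ∈ Ici i, (u i + u j)) ≠ 0 :=
    prod_ne_zero_iff.2 fun i _ => prod_ne_zero_iff.2 fun j _ => h1 i j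
  have hP : (∏ j, u j) ≠ 0 := prod_ne_zero_iff.2 fun j _ => h0 j
  have hZ : ZO u = (∏ i, ∏ j ∈ Ici i, (1 - (2 : ℂ) ^ (-(1 + u i + u j)))) *
      (∏ i, ∏ j ∈ Ici i, riemannZeta₁ (1 + u i + u j)) / ∏ i, ∏ j ∈ Ici i, (u i + u j) := by
    unfold ZO
    rw [← prod_mul_distrib, ← prod_div_distrib]
    refine prod_congr rfl fun i _ => ?_
    rw [← prod_mul_distrib, ← prod_div_distrib]
    refine prod_congr rfl fun j _ => ?_
    rw [hLOP.2.2 _ fun h => h1 i j (by linear_combination h)]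
    congr 1; ring
  have hF : Fq u 2 ((0 : ℤ) : ℂ) = 1 := by simp [Fq]
  have h8 : P8 u = (∏ j, u j) ^ 8 := by rw [P8, prod_pow]
  have hVd : Vd u = Vd (fun j => u j ^ 2) * (16 * ∏ j, u j) / ∏ i, ∏ j ∈ Ici i, (u i + u j) := by
    rw [hv u, mul_div_cancel_right₀ _ hS]
  have hA' := hA u hu
  rw [csm_W4 a c hg, csm_W4 a c hg, csm_W4 a c hg, hF, Int.cast_one, Int.cast_neg, Int.cast_one,
    prod_pow, h8, KZ4, hZ, hVd]
  generalize (∏ i, ∏ j ∈ Ici i, (u i + u j)) = S at hS ⊢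
  generalize (∏ j, u j) = P at hP ⊢
  generalize (3 / π ^ 2 : ℂ) = κ at hA' ⊢
  field_simp
  linear_combination (8 * Vd (fun j => u j ^ 2) ^ 2 * (∏ j, gg a c (u j)) *
    ∏ i, ∏ j ∈ Ici i, riemannZeta₁ (1 + u i + u j)) * hA'

theorem csm_int (hI : INB) (hH : HB4) (hZ : ZB) (hW : WRB) {g : ℂ → ℂ} {C₀ ε X : ℝ} (hg : GC g C₀)
    {γ : ℤ} (hγ : γ ∈ T3) (h0 : 0 < ε) (h1 : ε ≤ 1) (hX : 1 ≤ X) : Integrable fun t : R4 =>
      (X : ℂ) ^ (1 + us (pt (cs ε) t)) / (1 + us (pt (cs ε) t)) *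
        (W4 g γ (pt (cs ε) t) * ZO (pt (cs ε) t) * HI (pt (cs ε) t)) := by
  obtain ⟨C, hC, hW⟩ := hW g C₀ 2 hg
  obtain ⟨-, w1, -, w2, w3, w4⟩ := hW γ hγ
  obtain ⟨C', B, hC', hH⟩ := hH
  obtain ⟨-, -, -, k1, k2⟩ := hH 1
  obtain ⟨-, -, -, z1, -⟩ := hZ
  have hre : ∀ (t : R4) j, (pt (cs ε) t j).re = ε := fun t j => by simp [pt, cs]
  have hus : ∀ t : R4, (1 + us (pt (cs ε) t)).re = 1 + 2 * ε := fun t => by
    simp [us, pt, cs]; ring
  have hn : ∀ t : R4, 1 ≤ ‖1 + us (pt (cs ε) t)‖ := fun t =>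
    le_trans (by rw [hus]; linarith) (re_le_norm _)
  have hp : Continuous fun t : R4 => pt (cs ε) t := by unfold pt; fun_prop
  have hX0 : 0 < X := by linarith
  refine (hI 4 (cs ε) (X ^ (1 + 2 * ε) * (C * (1 / ε ^ 8) ^ 4 * C'))
    (fun u => (X : ℂ) ^ (1 + us u) / (1 + us u) * (W4 g γ u * ZO u * HI u)) ?_ fun t => ?_).1
  · have c1 : Continuous fun t : R4 => 1 + us (pt (cs ε) t) :=
      continuous_const.add (w3.continuous.comp hp)
    have c2 : ∀ G : V4 → ℂ, Hol {u : V4 | ∀ j, 0 < (u j).re} G →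
        Continuous fun t : R4 => G (pt (cs ε) t) := fun G hG =>
      continuous_iff_continuousAt.2 fun t =>
        (hG _ fun j => by rw [hre]; exact h0).continuousAt.comp hp.continuousAt
    refine ((c1.const_cpow (Or.inl (ofReal_ne_zero.2 hX0.ne'))).div c1 fun t h => ?_).mul
      ((((c2 _ w1).mul (w2.continuous.comp hp)).mul (c2 _ z1)).mul
        (k2.comp_continuous hp fun t j => by rw [hre]; exact h0.le))
    have := hn t
    rw [h, norm_zero] at this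
    linarith
  · have b1 := (w4 ε 1 h0 le_rfl (pt (cs ε) t) fun j => by
      simp only [hre, cs]; constructor <;> linarith).2.2.2.2.1
    have b2 := (k1 le_rfl (pt (cs ε) t) fun j => by rw [hre]; exact h0.le).2
    have b3 : ∏ j, 1 / ‖pt (cs ε) t j‖ ^ 8 ≤ (1 / ε ^ 8) ^ 4 := by
      refine (prod_le_prod (fun j _ => by positivity) fun j _ => ?_).trans
        (by rw [prod_const, card_univ, Fintype.card_fin])
      have : ε ≤ ‖pt (cs ε) t j‖ := (hre t j).ge.trans (re_le_norm _)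
      gcongr
    have b4 : ‖(X : ℂ) ^ (1 + us (pt (cs ε) t)) / (1 + us (pt (cs ε) t))‖ ≤ X ^ (1 + 2 * ε) := by
      rw [norm_div, norm_cpow_eq_rpow_re_of_pos hX0, hus]
      exact div_le_self (by positivity) (hn t)
    have b5 : 0 ≤ dk (pt (cs ε) t) := prod_nonneg fun j _ => by positivity
    rw [show dn 2 (pt (cs ε) t) = dk (pt (cs ε) t) from rfl] at b1
    rw [norm_mul, norm_mul]
    calc _ ≤ X ^ (1 + 2 * ε) * (C * (1 / ε ^ 8) ^ 4 * dk (pt (cs ε) t) * C') := by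
          gcongr
          exact b1.trans (by gcongr)
      _ = _ := by ring

theorem pCSM (hLOP : LOP) (hI : INB) (hV : VDP) (hH : HB4) (hA : HA4) (hZ : ZB) (hG : G1W)
    (hW : WRB) : CSM := by
  intro a c ε X ha h0 h1 hX
  obtain ⟨⟨C₀, -, hg⟩, hgg⟩ := hG a c ha
  have i1 := csm_int hI hH hZ hW hg (γ := 1) (by decide) h0 h1 hX
  have i2 := csm_int hI hH hZ hW hg (γ := -1) (by decide) h0 h1 hX
  have i3 := csm_int hI hH hZ hW hg (γ := 0) (by decide) h0 h1 hX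
  have hπ : (24 * π ^ 4 : ℂ) ≠ 0 :=
    mul_ne_zero (by norm_num) (pow_ne_zero _ (ofReal_ne_zero.2 Real.pi_ne_zero))
  have e1 : ∑ r ∈ RS, 1 / (8 * cq r : ℂ) * MC (g1 a c) (gam r) ε X =
      1 / 8 * (MC (g1 a c) 1 ε X + MC (g1 a c) (-1) ε X + MC (g1 a c) 0 ε X) := by
    simp [RS, cq, gam]; ring
  rw [e1, MT, ← mul_assoc, mul_comm (3 / π ^ 2 : ℂ), mul_inv_cancel_left₀ hπ]
  unfold MC In
  rw [← integral_add' i1 i2, ← integral_add' (i1.add i2) i3, ← integral_const_mul,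
    ← integral_const_mul]
  refine integral_congr_ae (Filter.Eventually.of_forall fun t => ?_)
  have := csm_pt hLOP hV hA a c hgg (u := pt (cs ε) t) fun j => by simpa [pt, cs] using h0
  simp only [Pi.add_apply]
  change _ = 3 / π ^ 2 * ((X : ℂ) ^ (1 + us (pt (cs ε) t)) / (1 + us (pt (cs ε) t)) *
    (KZ4 (pt (cs ε) t) * Aprod 4 (pt (cs ε) t) * ∏ j, gg a c (pt (cs ε) t j)) / P8 (pt (cs ε) t))
  linear_combination (X : ℂ) ^ (1 + us (pt (cs ε) t)) / (1 + us (pt (cs ε) t)) * this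

end Pool.Agent.Q4
end

-- part Pool.Agent.P.MP_ea46f5_nt.Q4.FDB
section

/-! The single term of the exact part on the lines of small abscissa. -/

namespace Pool.Agent.Q4

open Complex MeasureTheory Finset Pool.Agent.QM
open scoped Real

theorem db_P (k : ℤ) (f : ℕ) (hf : Odd f) :
    Differentiable ℂ (fun s : ℂ => ∏ p ∈ f.primeFactors, (1 - jo k p * (p : ℂ) ^ (-s))) ∧
    ∀ s : ℂ, 0 ≤ s.re →
      ‖∏ p ∈ f.primeFactors, (1 - jo k p * (p : ℂ) ^ (-s))‖ ≤ f.divisors.card := by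
  have hf0 : f ≠ 0 := hf.pos.ne'
  refine ⟨Differentiable.fun_finsetProd fun p hp => ?_, fun s hs => ?_⟩
  · have hp0 : (p : ℂ) ≠ 0 := by exact_mod_cast (Nat.prime_of_mem_primeFactors hp).ne_zero
    exact (differentiable_const _).sub ((differentiable_const _).mul
      (differentiable_id.neg.const_cpow (Or.inl hp0)))
  · rw [norm_prod, Nat.card_divisors hf0]
    push_cast
    refine prod_le_prod (fun _ _ => norm_nonneg _) fun p hp => (norm_sub_le _ _).trans ?_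
    have h1 := Nat.prime_of_mem_primeFactors hp
    have e3 : ‖jo k p‖ ≤ 1 := by
      unfold jo
      split_ifs
      · rcases jacobiSym.trichotomy k p with h | h | h <;> simp [h]
      · simp
    have e4 : ‖(p : ℂ) ^ (-s)‖ ≤ 1 := by
      rw [Complex.norm_natCast_cpow_of_pos h1.pos]
      exact Real.rpow_le_one_of_one_le_of_nonpos (by exact_mod_cast h1.one_le) (by simpa using hs)
    have e5 : (1 : ℝ) ≤ f.factorization p := by
      exact_mod_cast h1.factorization_pos_of_dvd hf0 (Nat.dvd_of_mem_primeFactors hp)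
    rw [norm_one, norm_mul]
    linarith [mul_le_one₀ e3 (norm_nonneg _) e4]

theorem db_q {q b : ℝ} (hq : 1 ≤ q) {u : V4} (hu : ∀ j, (u j).re ≤ b) :
    ‖(q : ℂ) ^ us u‖ ≤ q ^ (2 * b) := by
  rw [tw_npow (by linarith), tw_usre, Fin.sum_univ_four]
  exact Real.rpow_le_rpow_of_exponent_le hq (by linarith [hu 0, hu 1, hu 2, hu 3])

theorem db_hq {q : ℝ} (hq : 0 < q) : Differentiable ℂ fun u : V4 => (q : ℂ) ^ us u :=
  tw_hus.const_cpow (Or.inl (by exact_mod_cast hq.ne'))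

theorem db_gen (hSH4 : SH4) {W : V4 → ℂ} {E : ℂ → ℂ} {ε q M N : ℝ} {m : ℕ} (hε1 : ε ≤ 12)
    (hq : 1 ≤ q) (hM : 0 ≤ M) (hW : Hol (Bx ε 12) W) (hE : Differentiable ℂ E)
    (bW : ∀ u ∈ Bx ε 12, ‖W u‖ ≤ M * dn (2 + m) u)
    (bE : ∀ u ∈ Strip ε 12, ‖E u‖ ≤ N * br u.im ^ m) :
    In (cs 12) (fun u => W u * (q : ℂ) ^ us u * ∏ j, E (u j)) =
      In (cs ε) (fun u => W u * (q : ℂ) ^ us u * ∏ j, E (u j)) ∧
    ‖In (cs ε) fun u => W u * (q : ℂ) ^ us u * ∏ j, E (u j)‖ ≤ 16 * (M * q ^ (2 * ε) * N ^ 4) := by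
  have hs : ∀ b, b ≤ 12 → ∀ u ∈ Bx ε b, u ∈ Bx ε 12 := fun b hb u hu j =>
    ⟨(tw_bx hu j).1, (tw_bx hu j).2.trans hb⟩
  have hH : ∀ b, b ≤ 12 → Hol (Bx ε b) fun u => W u * (q : ℂ) ^ us u * ∏ j, E (u j) :=
    fun b hb u hu => ((hW u (hs b hb u hu)).mul (db_hq (by linarith) u)).mul
      (tw_hprod fun j => hE _)
  have hB : ∀ b, b ≤ 12 → ∀ u ∈ Bx ε b, ‖W u * (q : ℂ) ^ us u * ∏ j, E (u j)‖ ≤
      M * q ^ (2 * b) * N ^ 4 * dn 2 u := by
    intro b hb u hu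
    have h1 := bW u (hs b hb u hu)
    have h2 := db_q hq fun j => (tw_bx hu j).2
    have h3 : ‖∏ j, E (u j)‖ ≤ N ^ 4 * gn m u := by
      rw [norm_prod]
      refine (prod_le_prod (fun _ _ => norm_nonneg _) fun j _ =>
        bE (u j) (tw_bx (hs b hb u hu) j)).trans (le_of_eq ?_)
      rw [prod_mul_distrib, prod_const, card_univ, Fintype.card_fin]
      rfl
    obtain ⟨e1, -, -⟩ := hSH4.2.1 2 m u
    have e2 := (hSH4.2.1 (2 + m) 0 u).2.2.1
    have e3 : 0 ≤ q ^ (2 * b) := Real.rpow_nonneg (by linarith) _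
    rw [norm_mul, norm_mul, ← e1]
    calc _ ≤ M * dn (2 + m) u * q ^ (2 * b) * (N ^ 4 * gn m u) := by gcongr
      _ = _ := by ring
  exact ⟨(hSH4.1 ε 12 _ (cs 12) (cs ε) _ (fun _ => ⟨hε1, le_rfl⟩) (fun _ => ⟨le_rfl, hε1⟩)
    (hH 12 le_rfl) (hB 12 le_rfl)).1, (hSH4.1 ε ε _ (cs ε) (cs ε) _ (fun _ => ⟨le_rfl, le_rfl⟩)
    (fun _ => ⟨le_rfl, le_rfl⟩) (hH ε hε1) (hB ε hε1)).2.2⟩

theorem db_congr {c : R4} {F G : V4 → ℂ} (h : ∀ u : V4, (∀ j, (u j).re = c j) → F u = G u) :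
    In c F = In c G := by
  unfold In
  exact integral_congr_ae (Filter.Eventually.of_forall fun t => h _ fun j => by simp [pt])

theorem pDB (hLOP : LOP) (hLOB : LOB) (hSH4 : SH4) (hZF : ZF) (hWRB : WRB) (hLSF : LSF) : DB := by
  intro g C₀ n hg
  obtain ⟨C1, hC1, h1⟩ := hWRB g C₀ n hg
  obtain ⟨C3, hC3, h3⟩ := hWRB g C₀ (2 + 1) hg
  obtain ⟨C4, hC4, h4⟩ := hWRB g C₀ (2 + 2) hg
  obtain ⟨hz1, -, hz2, -, Cz, hCz, hz3, -⟩ := hZF
  refine ⟨C1 + 16 * C4 * Cz ^ 4, by positivity, fun γ k f Δ q ε hγ hf hΔ hq hε hε1 => ?_⟩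
  have em : min ε 1 = ε := min_eq_left (by linarith)
  have ex : Real.exp (-Δ * ε) ≤ 1 := Real.exp_le_one_iff.2 (by nlinarith)
  have hdn := fun n u => (hSH4.2.1 n 0 u).2.2.1
  obtain ⟨-, hW, hcF, hhf, -, -⟩ := h1 γ hγ
  have hpos : ∀ u ∈ Bx ε 12, ∀ j, 0 < (u j).re := fun u hu j => hε.trans_le (tw_bx hu j).1
  have hcut : ∀ u : V4, DifferentiableAt ℂ (fun u => 1 - cF Δ u) u := fun u =>
    (differentiableAt_const _).sub (hcF Δ u)
  have hq0 : 0 ≤ q ^ (2 * ε) := Real.rpow_nonneg (by linarith) _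
  have hdrop : ∀ (C x : ℝ) (n : ℕ) (u : V4), 0 < C →
      x ≤ C * (Δ / min ε 1) ^ 28 * Real.exp (-Δ * ε) * dn n u →
      x ≤ C * (Δ / ε) ^ 28 * dn n u := fun C x n u hC h => by
    rw [em] at h
    have := hdn n u
    refine h.trans ?_
    calc _ ≤ C * (Δ / ε) ^ 28 * 1 * dn n u := by gcongr
      _ = _ := by ring
  refine ⟨fun k1 k2 => ?_, ?_⟩
  · obtain ⟨p1, p2⟩ := db_P k f hf
    generalize hP : (fun s : ℂ => ∏ p ∈ f.primeFactors, (1 - jo k p * (p : ℂ) ^ (-s))) = P at p1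
    have p3 : ∀ s : ℂ, 0 ≤ s.re → ‖P s‖ ≤ f.divisors.card := by rw [← hP]; exact p2
    have p4 : ∀ s : ℂ, 1 < s.re → LS (k * (f : ℤ) ^ 2) s = Lo k s * P s := fun s hs => by
      rw [hLSF k f s hf hs, hLOP.1 k s k1.ne_zero hs, ← hP]
    have hd := hLOP.2.1 k k1 k2
    have key := (db_gen hSH4 (W := fun u => W4 g γ u * (1 - cF Δ u))
      (E := fun u => Lo k (1 / 2 + u) * P (1 / 2 + u)) (ε := ε) (q := q) (M := C3 * (Δ / ε) ^ 28)
      (N := 104 * |(k : ℝ)| * f.divisors.card) (m := 1) (by linarith) hq (by positivity)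
      (fun u hu => ((hW u (hpos u hu)).mul (hhf u)).mul (hcut u)) (by fun_prop)
      (fun u hu => hdrop _ _ _ _ hC3 ((h3 γ hγ).2.2.2.2.2 ε Δ hε hΔ u hu).2.2.1) fun u hu => by
        obtain ⟨a1, a2⟩ := hu
        have b0 := tk2_br0 u.im
        have b1 : (1 / 2 + u).re = 1 / 2 + u.re := by simp
        have b2 : ‖1 / 2 + u‖ ≤ 13 * br u.im := by
          have := tw_nrm (u := 1 / 2 + u) (c := 13) (by norm_num)
            (by rw [b1, abs_le]; constructor <;> linarith)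
          simpa using this
        have b3 : ‖Lo k (1 / 2 + u)‖ ≤ 104 * |(k : ℝ)| * br u.im := by
          refine (hLOB k _ k1 k2 (by linarith)).trans ?_
          calc _ ≤ 4 * |(k : ℝ)| * (13 * br u.im) / (1 / 2) := by gcongr; linarith
            _ = _ := by ring
        have b4 := p3 (1 / 2 + u) (by linarith)
        rw [norm_mul]
        calc _ ≤ 104 * |(k : ℝ)| * br u.im * f.divisors.card := by gcongr
          _ = _ := by ring).1
    refine ⟨fun t => W4 g γ (pt (cs ε) t) * (1 - cF Δ (pt (cs ε) t)) * (q : ℂ) ^ us (pt (cs ε) t) *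
      ∏ j, (Lo k (1 / 2 + pt (cs ε) t j) * P (1 / 2 + pt (cs ε) t j)), ?_, fun t => ?_⟩
    · refine Eq.trans (db_congr fun u hu => ?_) key
      unfold LL
      rw [prod_congr rfl fun j _ => p4 (1 / 2 + u j) (by simp [hu j, cs]; norm_num)]
    · have hu : pt (cs ε) t ∈ Bx ε 12 := fun j => by
        simp only [pt, cs]; simp; linarith
      have a1 := hdrop _ _ _ _ hC1 ((h1 γ hγ).2.2.2.2.2 ε Δ hε hΔ _ hu).2.2.1
      have a2 := db_q hq (u := pt (cs ε) t) (b := ε) fun j => by simp [pt, cs]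
      have a3 : ‖∏ j, (Lo k (1 / 2 + pt (cs ε) t j) * P (1 / 2 + pt (cs ε) t j))‖ ≤
          (f.divisors.card : ℝ) ^ 4 * ∏ j, ‖Lo k (1 / 2 + ε + t j * I)‖ := by
        rw [norm_prod]
        refine (prod_le_prod (g := fun j => f.divisors.card * ‖Lo k (1 / 2 + ε + t j * I)‖)
          (fun _ _ => norm_nonneg _) fun j _ => ?_).trans (le_of_eq ?_)
        · have e : 1 / 2 + pt (cs ε) t j = 1 / 2 + ε + t j * I := by simp [pt, cs, add_assoc]
          rw [e, norm_mul, mul_comm]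
          exact mul_le_mul_of_nonneg_right (p3 _ (by simp; linarith)) (norm_nonneg _)
        · rw [prod_mul_distrib, prod_const, card_univ, Fintype.card_fin]
      have a4 : dn n (pt (cs ε) t) = ∏ j, 1 / br (t j) ^ n := by simp [dn, pt]
      have a5 := hdn n (pt (cs ε) t)
      have a6 : 0 ≤ ∏ j, ‖Lo k (1 / 2 + ε + t j * I)‖ := prod_nonneg fun _ _ => norm_nonneg _
      have a7 : C1 ≤ C1 + 16 * C4 * Cz ^ 4 := le_add_of_nonneg_right (by positivity)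
      rw [norm_mul, norm_mul, ← a4]
      calc _ ≤ (C1 + 16 * C4 * Cz ^ 4) * (Δ / ε) ^ 28 * dn n (pt (cs ε) t) * q ^ (2 * ε) *
            ((f.divisors.card : ℝ) ^ 4 * ∏ j, ‖Lo k (1 / 2 + ε + t j * I)‖) := by
            gcongr
            exact a1.trans (by gcongr)
        _ = _ := by ring
  · obtain ⟨p1, p2⟩ := db_P 1 f hf
    generalize hP : (fun s : ℂ => ∏ p ∈ f.primeFactors, (1 - jo 1 p * (p : ℂ) ^ (-s))) = P at p1
    have p3 : ∀ s : ℂ, 0 ≤ s.re → ‖P s‖ ≤ f.divisors.card := by rw [← hP]; exact p2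
    have p4 : ∀ u : ℂ, u.re = 12 → (u - 1 / 2) * LS (1 * (f : ℤ) ^ 2) (1 / 2 + u) =
        lz (u - 1 / 2) * P (1 / 2 + u) := fun u hu => by
      have hs : 1 < (1 / 2 + u).re := by simp [hu]; norm_num
      have h0 : u - 1 / 2 ≠ 0 := fun h => by
        have := congrArg re h
        simp [hu] at this
        norm_num at this
      have e : 1 + (u - 1 / 2) = 1 / 2 + u := by ring
      rw [hLSF 1 f _ hf hs, ← hLOP.1 1 _ one_ne_zero hs, ← hP, ← mul_assoc]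
      congr 1
      rw [← e, hz2 _ h0, mul_div_cancel₀ _ h0]
    obtain ⟨key, kb⟩ := db_gen hSH4 (W := fun u => Wr g γ u * (1 - cF Δ u))
      (E := fun u => lz (u - 1 / 2) * P (1 / 2 + u)) (ε := ε) (q := q) (M := C4 * (Δ / ε) ^ 28)
      (N := Cz * f.divisors.card) (m := 2) (by linarith) hq (by positivity)
      (fun u hu => (hW u (hpos u hu)).mul (hcut u)) (by fun_prop)
      (fun u hu => hdrop _ _ _ _ hC4 ((h4 γ hγ).2.2.2.2.2 ε Δ hε hΔ u hu).2.1) fun u hu => by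
        obtain ⟨a1, a2⟩ := hu
        have b0 := tk2_br0 u.im
        have b3 := hz3 (u - 1 / 2) (by simp; linarith) (by simp; linarith)
        have b4 := p3 (1 / 2 + u) (by simp; linarith)
        have b5 : (u - 1 / 2).im = u.im := by simp
        rw [b5] at b3
        rw [norm_mul]
        calc _ ≤ Cz * br u.im ^ 2 * f.divisors.card := by gcongr
          _ = _ := by ring
    have e : Tm g γ Δ q (1 * (f : ℤ) ^ 2) = _ := Eq.trans (db_congr fun u hu => by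
      rw [← prod_congr rfl fun j _ => p4 (u j) (hu j), prod_mul_distrib]
      unfold W4 Q4.hf LL
      ring) key
    rw [e]
    refine kb.trans ?_
    have a7 : 16 * C4 * Cz ^ 4 ≤ C1 + 16 * C4 * Cz ^ 4 := le_add_of_nonneg_left hC1.le
    calc _ = 16 * C4 * Cz ^ 4 * (Δ / ε) ^ 28 * q ^ (2 * ε) * (f.divisors.card : ℝ) ^ 4 := by ring
      _ ≤ _ := by gcongr

end Pool.Agent.Q4
end

-- part Pool.Agent.P.MP_ea46f5_nt.Q4.FDIR
section

/-! The direct bound for pairs. -/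

namespace Pool.Agent.Q4

open Complex MeasureTheory Finset Pool.Agent.QM
open scoped Real ComplexConjugate

theorem dir_lg {Z : ℝ} (hZ : 1 ≤ Z) : 1 ≤ lg Z := by
  unfold lg
  rw [Real.le_log_iff_exp_le (by linarith)]
  have := Real.exp_one_lt_d9
  linarith

theorem dir_num {θ δ R₀ : ℝ} (h0 : 0 ≤ θ) (h10 : θ ≤ 10) (hδ : 0 < δ) :
    ∃ D : ℝ, 0 < D ∧ ∀ Z : ℝ, 1 ≤ Z → ∃ R : ℝ, R₀ ≤ R ∧ 1 ≤ R ∧ 100 ≤ Real.log (Z * R ^ 2) ∧
      Real.log R * R * Real.log (Real.log (Z * R ^ 2)) ^ 2 ≤ D * lg Z ^ (θ / 2 + δ) ∧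
      Real.log R / R * lg (Z * R ^ 2) ^ θ ≤ D * lg Z ^ (θ / 2 + δ) := by
  obtain ⟨R₁, hR₀, hR₁⟩ : ∃ R₁ : ℝ, R₀ ≤ R₁ ∧ Real.exp 50 ≤ R₁ :=
    ⟨max R₀ (Real.exp 50), le_max_left _ _, le_max_right _ _⟩
  have hR1 : 1 ≤ R₁ := (Real.one_le_exp (by norm_num)).trans hR₁
  have ha : 50 ≤ Real.log R₁ := (Real.le_log_iff_exp_le (by linarith)).2 hR₁
  set a := Real.log R₁ with hadef
  obtain ⟨η, hη, rfl⟩ : ∃ η : ℝ, 0 < η ∧ δ = 3 * η := ⟨δ / 3, by positivity, by ring⟩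
  have hE : 1 ≤ 2 * a + 11 := by linarith
  have hlE : 0 ≤ Real.log (2 * a + 11) := Real.log_nonneg hE
  have hD1 : 0 < a + 5 / η := by positivity
  have hF : 0 < Real.log (2 * a + 11) + 1 / η := by positivity
  have hEθ : 0 < (2 * a + 11) ^ θ := by positivity
  refine ⟨(a + 5 / η) * (R₁ * (Real.log (2 * a + 11) + 1 / η) ^ 2 + (2 * a + 11) ^ θ),
    by positivity, fun Z hZ => ?_⟩
  have hl := dir_lg hZ
  set l := lg Z with hldef
  have hl0 : 0 < l := by linarith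
  have hp : 1 ≤ l ^ (θ / 2) := Real.one_le_rpow hl (by linarith)
  have hq : 1 ≤ l ^ η := Real.one_le_rpow hl hη.le
  have hll : 0 ≤ Real.log l := Real.log_nonneg hl
  have hl1 : Real.log l ≤ l ^ η / η := Real.log_le_rpow_div hl0.le hη
  have hl2 : Real.log l ≤ l := (Real.log_le_sub_one_of_pos hl0).trans (by linarith)
  obtain ⟨R, hRa, hRb, hRc⟩ : ∃ R : ℝ, R₁ ≤ R ∧ l ^ (θ / 2) ≤ R ∧ R ≤ R₁ * l ^ (θ / 2) :=
    ⟨max R₁ (l ^ (θ / 2)), le_max_left _ _, le_max_right _ _,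
      max_le (le_mul_of_one_le_right (by linarith) hp) (le_mul_of_one_le_left (by linarith) hR1)⟩
  have hR : 1 ≤ R := hR1.trans hRa
  have hR0 : 0 < R := by linarith
  have hlR0 : 50 ≤ Real.log R := ha.trans (Real.log_le_log (by linarith) hRa)
  have hlR : Real.log R ≤ a + 5 * Real.log l := by
    refine (Real.log_le_log hR0 hRc).trans ?_
    rw [Real.log_mul (by linarith) (by linarith), Real.log_rpow hl0]
    have := mul_le_mul_of_nonneg_right (show θ / 2 ≤ 5 by linarith) hll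
    linarith
  have hlR1 : Real.log R ≤ (a + 5 / η) * l ^ η := by
    have := le_mul_of_one_le_right (show 0 ≤ a by linarith) hq
    have e : (a + 5 / η) * l ^ η = a * l ^ η + 5 * (l ^ η / η) := by ring
    linarith
  have hX : Real.log (Z * R ^ 2) = Real.log Z + 2 * Real.log R := by
    rw [Real.log_mul (by linarith) (by positivity), Real.log_pow]
    norm_num
  have hX100 : 100 ≤ Real.log (Z * R ^ 2) := by
    have := Real.log_nonneg hZ
    linarith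
  have hR2 : 1 ≤ R ^ 2 := one_le_pow₀ hR
  have hXp : 0 < Z * R ^ 2 := by positivity
  have hlgX : lg (Z * R ^ 2) ≤ (2 * a + 11) * l := by
    have h1 : lg (Z * R ^ 2) ≤ Real.log ((2 + Z) * R ^ 2) :=
      Real.log_le_log (by linarith) (by linarith)
    rw [Real.log_mul (by linarith) (by positivity), Real.log_pow] at h1
    have h2 := le_mul_of_one_le_right (show 0 ≤ a by linarith) hl
    have e : Real.log (2 + Z) = l := rfl
    rw [e] at h1
    push_cast at h1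
    linarith
  have hlX : Real.log (Z * R ^ 2) ≤ lg (Z * R ^ 2) := Real.log_le_log hXp (by linarith)
  have hLL : Real.log (Real.log (Z * R ^ 2)) ≤ (Real.log (2 * a + 11) + 1 / η) * l ^ η := by
    refine (Real.log_le_log (by linarith) (hlX.trans hlgX)).trans ?_
    rw [Real.log_mul (by linarith) (by linarith)]
    have := le_mul_of_one_le_right hlE hq
    have e : (Real.log (2 * a + 11) + 1 / η) * l ^ η =
        Real.log (2 * a + 11) * l ^ η + l ^ η / η := by ring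
    linarith
  have hLL0 : 0 ≤ Real.log (Real.log (Z * R ^ 2)) := Real.log_nonneg (by linarith)
  have hpw : l ^ (θ / 2 + 3 * η) = l ^ (θ / 2) * (l ^ η) ^ 3 := by
    rw [Real.rpow_add hl0, mul_comm 3 η, Real.rpow_mul hl0.le]
    norm_num
  have hθ : l ^ θ = l ^ (θ / 2) * l ^ (θ / 2) := by
    rw [← Real.rpow_add hl0]
    norm_num
  have h3 : lg (Z * R ^ 2) ^ θ ≤ (2 * a + 11) ^ θ * (l ^ (θ / 2) * l ^ (θ / 2)) := by
    rw [← hθ, ← Real.mul_rpow (by linarith) hl0.le]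
    exact Real.rpow_le_rpow (by linarith) hlgX h0
  rw [hpw]
  refine ⟨R, hR₀.trans hRa, hR, hX100, ?_, ?_⟩
  · generalize Real.log (Real.log (Z * R ^ 2)) = y at hLL hLL0
    generalize Real.log (2 * a + 11) + 1 / η = F at hLL hF
    generalize (2 * a + 11) ^ θ = E at hEθ
    generalize a + 5 / η = D at hlR1 hD1
    generalize l ^ η = q at hq hLL hlR1
    generalize l ^ (θ / 2) = p at hp hRc
    calc Real.log R * R * y ^ 2 ≤ D * q * (R₁ * p) * (F * q) ^ 2 := by gcongr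
      _ = D * (R₁ * F ^ 2) * (p * q ^ 3) := by ring
      _ ≤ D * (R₁ * F ^ 2 + E) * (p * q ^ 3) := by gcongr; linarith
  · have hy : 0 ≤ lg (Z * R ^ 2) ^ θ := Real.rpow_nonneg (by linarith) _
    generalize lg (Z * R ^ 2) ^ θ = y at h3 hy
    generalize Real.log (2 * a + 11) + 1 / η = F at hF
    generalize (2 * a + 11) ^ θ = E at hEθ h3
    generalize a + 5 / η = D at hlR1 hD1
    generalize l ^ η = q at hq hlR1
    generalize l ^ (θ / 2) = p at hp hRb h3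
    have hq3 : q ≤ q ^ 3 := le_self_pow₀ hq (by norm_num)
    calc Real.log R / R * y ≤ D * q / p * (E * (p * p)) := by gcongr
      _ = D * E * (p * q) := by field_simp
      _ ≤ D * (R₁ * F ^ 2 + E) * (p * q ^ 3) := by
        gcongr
        have : 0 ≤ R₁ * F ^ 2 := by positivity
        linarith

theorem dir_big {Z v : ℝ} (hZ : 1 ≤ Z) (h : Z < Real.exp v) :
    lg Z ^ (10 : ℝ) ≤ 3 * 10 ^ 10 * mx Z v ^ 2 := by
  have hs : 0 < √Z := Real.sqrt_pos.2 (by linarith)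
  have h1 : √Z ≤ mx Z v := by
    refine le_trans ?_ (le_max_right _ _)
    rw [le_div_iff₀ hs, Real.mul_self_sqrt (by linarith)]
    exact h.le
  have h2 : Z ≤ mx Z v ^ 2 := by
    have := pow_le_pow_left₀ hs.le h1 2
    rwa [Real.sq_sqrt (by linarith)] at this
  have h3 : lg Z ≤ (2 + Z) ^ (1 / 10 : ℝ) / (1 / 10) :=
    Real.log_le_rpow_div (by linarith) (by norm_num)
  have h4 := Real.rpow_le_rpow (by have := dir_lg hZ; linarith) h3 (show (0 : ℝ) ≤ 10 by norm_num)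
  rw [Real.div_rpow (by positivity) (by norm_num), ← Real.rpow_mul (by linarith)] at h4
  norm_num at h4 ⊢
  linarith

theorem pDIR (hK : PKB) (hB : BAS) (hT : TM2) (hF : FL2) : DIR := by
  intro θ δ h0 h10 hδ hP κ κ' hκ hκ'
  obtain ⟨A₁, C₁, hC₁, hT⟩ := hT θ h0 h10 hP κ κ' hκ hκ'
  obtain ⟨A₂, C₂, hC₂, hB⟩ := hB κ κ' hκ hκ'
  obtain ⟨C₃, R₀, hC₃, -, hF⟩ := hF
  obtain ⟨D, hD, hN⟩ := dir_num (R₀ := R₀) h0 h10 hδ
  refine ⟨A₁ + A₂, 2 * C₃ * C₁ * D + 3 * 10 ^ 10 * C₂, by positivity, fun Z t v t' v' hZ => ?_⟩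
  have hb : ∀ x : ℝ, 1 ≤ br x := fun x => by
    unfold br
    linarith [abs_nonneg x]
  have hb1 : ∀ x : ℝ, br x ^ A₁ ≤ br x ^ (A₁ + A₂) := fun x =>
    pow_le_pow_right₀ (hb x) (by omega)
  have hb2 : ∀ x : ℝ, br x ^ A₂ ≤ br x ^ (A₁ + A₂) := fun x =>
    pow_le_pow_right₀ (hb x) (by omega)
  have hb0 : ∀ (x : ℝ) (n : ℕ), 0 ≤ br x ^ n := fun x n => pow_nonneg (by linarith [hb x]) n
  have hm : ∀ x : ℝ, 1 ≤ mx Z x := fun x => le_max_left _ _
  have hm2 : ∀ x : ℝ, 1 ≤ mx Z x ^ 2 := fun x => one_le_pow₀ (hm x)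
  have hl : 1 ≤ lg Z ^ (θ / 2 + δ) := Real.one_le_rpow (dir_lg hZ) (by linarith)
  have hZ0 : 0 < Z := by linarith
  have p1 := hb0 t (A₁ + A₂)
  have p2 := hb0 t' (A₁ + A₂)
  have p3 := hm2 v
  have p4 := hm2 v'
  by_cases hv : Real.exp v ≤ Z ∧ Real.exp v' ≤ Z
  · obtain ⟨R, hR₀, hR, hX, n1, n2⟩ := hN Z hZ
    have hZX : Z ≤ Z * R ^ 2 := le_mul_of_one_le_right hZ0.le (one_le_pow₀ hR)
    have hlg : 0 ≤ lg (Z * R ^ 2) ^ θ :=
      Real.rpow_nonneg (by have := dir_lg (hZ.trans hZX); linarith) _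
    have h1 := hF κ t v κ' t' v' Z R (C₁ * br t ^ A₁ * br t' ^ A₁ *
      (Z * R ^ 2 * Real.log (Real.log (Z * R ^ 2)) ^ 2 + Real.exp (v + v') * lg (Z * R ^ 2) ^ θ))
      hκ hκ' hZ0 hR₀ fun w w' F hw hw' => by
        refine (hT t w t' w' (Z * R ^ 2) F (hZ.trans hZX) hX
          ((Real.exp_le_exp.2 hw).trans (hv.1.trans hZX))
          ((Real.exp_le_exp.2 hw').trans (hv.2.trans hZX))).trans ?_
        have q1 := hb0 t A₁
        have q2 := hb0 t' A₁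
        gcongr
    have h2 : ∑ k ∈ Sq Z, ‖Pk κ t v κ' t' v' k‖ ^ 2 = ∑ k ∈ Sq Z, ‖Bm κ t v κ' t' v' k‖ ^ 2 := by
      refine sum_congr rfl fun k hk => ?_
      simp only [Sq, mem_filter] at hk
      rw [(((hK κ t κ' t' hκ hκ').2 k hk.2.1 hk.2.2.1).1 v v').1]
    have hs : 0 < √Z := Real.sqrt_pos.2 hZ0
    have he : ∀ x : ℝ, Real.exp x ≤ √Z * mx Z x ^ 2 := fun x => by
      have a1 : Real.exp x / √Z ≤ mx Z x := le_max_right _ _
      rw [div_le_iff₀' hs] at a1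
      exact a1.trans (mul_le_mul_of_nonneg_left (le_self_pow₀ (hm x) (by norm_num)) hs.le)
    have he2 : Real.exp (v + v') ≤ Z * (mx Z v ^ 2 * mx Z v' ^ 2) := by
      rw [Real.exp_add]
      calc _ ≤ √Z * mx Z v ^ 2 * (√Z * mx Z v' ^ 2) :=
            mul_le_mul (he v) (he v') (Real.exp_pos _).le (by positivity)
        _ = √Z * √Z * (mx Z v ^ 2 * mx Z v' ^ 2) := by ring
        _ = _ := by rw [Real.mul_self_sqrt hZ0.le]
    have hmm : 1 ≤ mx Z v ^ 2 * mx Z v' ^ 2 := one_le_mul_of_one_le_of_one_le p3 p4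
    have hLR : 0 ≤ Real.log R / R := div_nonneg (Real.log_nonneg hR) (by linarith)
    have h3 : Real.log R / R * (Z * R ^ 2 * Real.log (Real.log (Z * R ^ 2)) ^ 2 +
        Real.exp (v + v') * lg (Z * R ^ 2) ^ θ) ≤
        2 * D * Z * lg Z ^ (θ / 2 + δ) * (mx Z v ^ 2 * mx Z v' ^ 2) := by
      have e : Real.log R / R * (Z * R ^ 2 * Real.log (Real.log (Z * R ^ 2)) ^ 2 +
          Real.exp (v + v') * lg (Z * R ^ 2) ^ θ) =
          Z * 1 * (Real.log R * R * Real.log (Real.log (Z * R ^ 2)) ^ 2) +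
            Real.exp (v + v') * (Real.log R / R * lg (Z * R ^ 2) ^ θ) := by
        have : R ≠ 0 := by linarith
        field_simp
      rw [e]
      have hn2 : 0 ≤ Real.log R / R * lg (Z * R ^ 2) ^ θ := mul_nonneg hLR hlg
      have hn1 : 0 ≤ Real.log R * R * Real.log (Real.log (Z * R ^ 2)) ^ 2 :=
        mul_nonneg (mul_nonneg (Real.log_nonneg hR) (by linarith)) (sq_nonneg _)
      calc _ ≤ Z * (mx Z v ^ 2 * mx Z v' ^ 2) * (D * lg Z ^ (θ / 2 + δ)) +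
            Z * (mx Z v ^ 2 * mx Z v' ^ 2) * (D * lg Z ^ (θ / 2 + δ)) :=
            add_le_add (mul_le_mul (mul_le_mul_of_nonneg_left hmm hZ0.le) n1 hn1 (by positivity))
              (mul_le_mul he2 n2 hn2 (by positivity))
        _ = _ := by ring
    rw [h2]
    refine h1.trans ?_
    have q1 := hb0 t A₁
    have q2 := hb0 t' A₁
    have q3 := hb1 t
    have q4 := hb1 t'
    generalize Z * R ^ 2 * Real.log (Real.log (Z * R ^ 2)) ^ 2 +
      Real.exp (v + v') * lg (Z * R ^ 2) ^ θ = y at h3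
    generalize Real.log R / R = x at h3
    generalize lg Z ^ (θ / 2 + δ) = l at hl h3
    calc C₃ * x * (C₁ * br t ^ A₁ * br t' ^ A₁ * y) =
          C₃ * C₁ * br t ^ A₁ * br t' ^ A₁ * (x * y) := by ring
      _ ≤ C₃ * C₁ * br t ^ A₁ * br t' ^ A₁ * (2 * D * Z * l * (mx Z v ^ 2 * mx Z v' ^ 2)) :=
          mul_le_mul_of_nonneg_left h3 (by positivity)
      _ = 2 * C₃ * C₁ * D * Z * l * br t ^ A₁ * br t' ^ A₁ * mx Z v ^ 2 * mx Z v' ^ 2 := by ring
      _ ≤ _ := by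
          have : 2 * C₃ * C₁ * D ≤ 2 * C₃ * C₁ * D + 3 * 10 ^ 10 * C₂ := by
            have : 0 ≤ 3 * 10 ^ 10 * C₂ := by positivity
            linarith
          gcongr
  · have h1 : lg Z ^ (10 : ℝ) ≤ 3 * 10 ^ 10 * (mx Z v ^ 2 * mx Z v' ^ 2) := by
      rcases not_and_or.1 hv with h | h
      · exact (dir_big hZ (not_le.1 h)).trans (mul_le_mul_of_nonneg_left
          (le_mul_of_one_le_right (by linarith) p4) (by norm_num))
      · exact (dir_big hZ (not_le.1 h)).trans (mul_le_mul_of_nonneg_left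
          (le_mul_of_one_le_left (by linarith) p3) (by norm_num))
    refine (hB Z t v t' v' hZ).trans ?_
    have q1 := hb0 t A₂
    have q2 := hb0 t' A₂
    have q3 := hb2 t
    have q4 := hb2 t'
    generalize lg Z ^ (θ / 2 + δ) = l at hl
    generalize lg Z ^ (10 : ℝ) = y at h1
    calc C₂ * Z * y * br t ^ A₂ * br t' ^ A₂ * mx Z v ^ 0 * mx Z v' ^ 0 =
          C₂ * Z * br t ^ A₂ * br t' ^ A₂ * y := by ring
      _ ≤ C₂ * Z * br t ^ A₂ * br t' ^ A₂ * (3 * 10 ^ 10 * (mx Z v ^ 2 * mx Z v' ^ 2)) :=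
          mul_le_mul_of_nonneg_left h1 (by positivity)
      _ = 3 * 10 ^ 10 * C₂ * Z * 1 * br t ^ A₂ * br t' ^ A₂ * mx Z v ^ 2 * mx Z v' ^ 2 := by ring
      _ ≤ _ := by
          have : 3 * 10 ^ 10 * C₂ ≤ 2 * C₃ * C₁ * D + 3 * 10 ^ 10 * C₂ := by
            have : 0 ≤ 2 * C₃ * C₁ * D := by positivity
            linarith
          gcongr

end Pool.Agent.Q4
end

-- part Pool.Agent.P.MP_ea46f5_nt.Q4.FDIV
section

/-! The divisor bound, Euler factors at the primes of `f`, fourth moment off the line. -/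

namespace Pool.Agent.Q4

open Complex MeasureTheory Finset Pool.Agent.QM
open scoped Real

theorem dv_two (a : ℕ) : (a + 1) ^ 10 ≤ 10 ^ 10 * 2 ^ a := by
  have h1 : a + 1 ≤ 10 * 2 ^ (a / 10) := by
    have := Nat.lt_two_pow_self (n := a / 10)
    omega
  calc _ ≤ (10 * 2 ^ (a / 10)) ^ 10 := Nat.pow_le_pow_left h1 10
    _ = 10 ^ 10 * 2 ^ (a / 10 * 10) := by rw [mul_pow, ← pow_mul]
    _ ≤ _ := Nat.mul_le_mul_left _ (Nat.pow_le_pow_right (by norm_num) (Nat.div_mul_le_self a 10))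

theorem dv_nat (D : ℕ) (hD : 10 ^ 10 ≤ D) (N : ℕ) (hN : 1024 ≤ N) (f : ℕ) (hf : f ≠ 0) :
    f.divisors.card ^ 10 ≤ D ^ N * f := by
  classical
  have h1 : ∀ p ∈ f.primeFactors, (f.factorization p + 1) ^ 10 ≤
      (if p < N then D else 1) * p ^ f.factorization p := fun p hp => by
    have h2 := (Nat.prime_of_mem_primeFactors hp).two_le
    split_ifs with h
    · exact (dv_two _).trans (Nat.mul_le_mul hD (Nat.pow_le_pow_left h2 _))
    · calc _ ≤ (2 ^ f.factorization p) ^ 10 := Nat.pow_le_pow_left Nat.lt_two_pow_self 10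
        _ = 1024 ^ f.factorization p := by rw [← pow_mul, mul_comm, pow_mul]; norm_num
        _ ≤ _ := by rw [one_mul]; exact Nat.pow_le_pow_left (by omega) _
  have h3 : (f.primeFactors.filter fun p => p < N).card ≤ N := by
    have : (f.primeFactors.filter fun p => p < N) ⊆ range N :=
      fun p hp => mem_range.2 (mem_filter.1 hp).2
    simpa using card_le_card this
  rw [Nat.card_divisors hf, ← prod_pow]
  refine (prod_le_prod' h1).trans ?_
  rw [prod_mul_distrib, ← Nat.prod_primeFactors_pow_factorization hf, ← prod_filter, prod_const]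
  exact Nat.mul_le_mul_right _ (Nat.pow_le_pow_right (by omega) h3)

theorem pDIV : DIV := by
  obtain ⟨N, hN⟩ : ∃ N : ℕ, 1024 ≤ N := ⟨_, le_rfl⟩
  obtain ⟨D, hD, h⟩ : ∃ D : ℕ, 1 ≤ D ∧ ∀ f : ℕ, f ≠ 0 → f.divisors.card ^ 10 ≤ D * f :=
    ⟨_, Nat.one_le_pow _ _ (by norm_num), dv_nat _ le_rfl N hN⟩
  have hD' : (1 : ℝ) ≤ D := by exact_mod_cast hD
  refine ⟨D, by linarith, fun f => ?_⟩
  rcases eq_or_ne f 0 with rfl | hf
  · simp
  have h1 : (f.divisors.card : ℝ) ^ 10 ≤ D * f := by exact_mod_cast h f hf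
  refine le_of_pow_le_pow_left₀ (n := 2) (by norm_num) (by positivity) ?_
  rw [← pow_mul, mul_pow, Real.sq_sqrt (Nat.cast_nonneg f)]
  exact h1.trans (mul_le_mul_of_nonneg_right (le_self_pow₀ hD' (by norm_num)) (Nat.cast_nonneg f))

theorem pLSF (hLSP : LSP) : LSF := by
  intro k f s hf hs
  induction f using induction_on_primes with
  | zero => simp at hf
  | one => simp
  | prime_mul p a hp ih =>
    obtain ⟨hp1, ha1⟩ := Nat.odd_mul.1 hf
    have hp2 : p ≠ 2 := by rintro rfl; exact absurd hp1 (by decide)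
    have ha0 : a ≠ 0 := ha1.pos.ne'
    have e : k * ((p * a : ℕ) : ℤ) ^ 2 = k * (a : ℤ) ^ 2 * (p : ℤ) ^ 2 := by push_cast; ring
    rw [e, hLSP.2.2.2.2.2 _ p s hp hp2 hs, ih ha1, Nat.primeFactors_mul hp.ne_zero ha0,
      hp.primeFactors, ← insert_eq]
    by_cases hpa : p ∣ a
    · have : jacobiSym (k * (a : ℤ) ^ 2) p = 0 := by
        refine jacobiSym.eq_zero_iff.2 ⟨hp.ne_zero, fun hg => ?_⟩
        have hd : (p : ℤ) ∣ k * (a : ℤ) ^ 2 :=
          Dvd.dvd.mul_left (dvd_pow (Int.natCast_dvd_natCast.2 hpa) (by norm_num)) k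
        have := Int.dvd_gcd hd (dvd_refl (p : ℤ))
        rw [hg] at this
        exact hp.one_lt.ne' (Nat.dvd_one.1 this)
      rw [insert_eq_of_mem (Nat.mem_primeFactors.2 ⟨hp, hpa, ha0⟩)]
      simp [jo, this]
    · have h1 : (a : ℤ).gcd p = 1 := by
        rw [Int.gcd_natCast_natCast]
        exact ((Nat.Prime.coprime_iff_not_dvd hp).2 hpa).symm
      have h2 : jo (k * (a : ℤ) ^ 2) p = jo k p := by
        unfold jo
        rw [jacobiSym.mul_left, jacobiSym.sq_one' h1, mul_one]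
      rw [prod_insert fun h => hpa (Nat.dvd_of_mem_primeFactors h), h2]
      ring

theorem do_exp (s z : ℂ) (h : |s.re - z.re| ≤ 3 / 2) :
    ‖cexp ((s - z) ^ 2)‖ ≤ Real.exp 3 * Real.exp (-|s.im - z.im| / 2) := by
  rw [Complex.norm_exp, ← Real.exp_add]
  refine Real.exp_le_exp.2 ?_
  have e : ((s - z) ^ 2).re = |s.re - z.re| ^ 2 - |s.im - z.im| ^ 2 := by
    rw [sq_abs, sq_abs, sq]; simp; ring
  rw [e]
  nlinarith [abs_nonneg (s.re - z.re), sq_nonneg (|s.im - z.im| - 1 / 4)]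

theorem do_pt (hSH1 : SH1) (hLSP : LSP) (hLOP : LOP) (hLOB : LOB) (hDEC : DEC) : ∃ C : ℝ, 0 < C ∧
    ∀ (k : ℤ) (ε τ : ℝ), Squarefree k → k ≠ 1 → 0 < ε → ε ≤ 1 / 100 →
      ‖Lo k (1 / 2 + ε + τ * I)‖ ^ 4 ≤ C / ε * (1 + Lw k τ) := by
  refine ⟨64 * Real.exp 3, by positivity, fun k ε τ h1 h2 hε hε1 => ?_⟩
  obtain ⟨z, hz⟩ : ∃ z : ℂ, z = 1 / 2 + ε + τ * I := ⟨_, rfl⟩
  have zr : z.re = 1 / 2 + ε := by simp [hz]
  have zi : z.im = τ := by simp [hz]
  rw [← hz]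
  have hd := hLOP.2.1 k h1 h2
  obtain ⟨D, hD, hb⟩ := hDEC.2.1 5
  have hf : Differentiable ℂ fun s => Lo k s ^ 4 * cexp ((s - z) ^ 2) := by fun_prop
  have hE := Real.exp_pos 3
  have key := hSH1 (1 / 2) 2 ((16 * |(k : ℝ)|) ^ 4 * Real.exp 3 * (D * br τ ^ 5)) _ z
    (by linarith) (by linarith) ⟨hf.continuous.continuousOn, hf.differentiableOn⟩ fun s hs => by
      obtain ⟨a1, a2⟩ := hs
      have b0 := tk2_br0 s.im
      have b1 : ‖s‖ ≤ 2 * br s.im := tw_nrm (by norm_num) (by rw [abs_le]; constructor <;> linarith)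
      have b2 : ‖Lo k s‖ ≤ 16 * |(k : ℝ)| * br s.im := by
        refine (hLOB k s h1 h2 (by linarith)).trans ?_
        calc _ ≤ 4 * |(k : ℝ)| * (2 * br s.im) / (1 / 2) := by gcongr
          _ = _ := by ring
      have b3 := do_exp s z (by rw [abs_le]; constructor <;> linarith)
      rw [zi] at b3
      rw [norm_mul, norm_pow, le_div_iff₀ b0]
      calc _ ≤ (16 * |(k : ℝ)| * br s.im) ^ 4 * (Real.exp 3 * Real.exp (-|s.im - τ| / 2)) *
            br s.im := by gcongr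
        _ = (16 * |(k : ℝ)|) ^ 4 * Real.exp 3 * (Real.exp (-|s.im - τ| / 2) * br s.im ^ 5) := by ring
        _ ≤ _ := mul_le_mul_of_nonneg_left (hb _ _) (by positivity)
  have hq : ∀ (c d : ℝ) (t : ℝ), 0 < d → d ≤ |c - z.re| → |c - z.re| ≤ 3 / 2 →
      ‖Lo k (c + t * I) ^ 4 * cexp ((c + t * I - z) ^ 2) / (c + t * I - z)‖ ≤
        Real.exp 3 / d * (Real.exp (-|t - τ| / 2) * ‖Lo k (c + t * I)‖ ^ 4) := by
    intro c d t d0 d1 d2
    have b3 := do_exp (c + t * I) z (by simpa using d2)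
    have b4 : d ≤ ‖(c + t * I - z : ℂ)‖ :=
      d1.trans (by simpa using Complex.abs_re_le_norm (c + t * I - z))
    rw [zi] at b3
    simp only [add_im, ofReal_im, mul_im, ofReal_re, I_im, mul_one, I_re, mul_zero, add_zero,
      zero_add] at b3
    rw [norm_div, norm_mul, norm_pow]
    calc _ ≤ ‖Lo k (c + t * I)‖ ^ 4 * (Real.exp 3 * Real.exp (-|t - τ| / 2)) / d := by gcongr
      _ = _ := by ring
  have i2 : ‖Iv 2 fun s => Lo k s ^ 4 * cexp ((s - z) ^ 2) / (s - z)‖ ≤ 64 * Real.exp 3 := by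
    refine (norm_integral_le_of_norm_le ((hDEC.2.2.1 τ).1.const_mul (16 * Real.exp 3))
      (Filter.Eventually.of_forall fun t => ?_)).trans ?_
    · refine (hq 2 1 t one_pos (by rw [le_abs]; left; linarith)
        (by rw [abs_le]; constructor <;> linarith)).trans ?_
      have b5 : ‖Lo k ((2 : ℝ) + t * I)‖ ≤ 2 := by
        rw [hLOP.1 k _ h1.ne_zero (by simp)]
        exact hLSP.2.2.1 k _ (by simp)
      calc _ ≤ Real.exp 3 / 1 * (Real.exp (-|t - τ| / 2) * 2 ^ 4) := by gcongr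
        _ = _ := by ring
    · rw [integral_const_mul]
      nlinarith [(hDEC.2.2.1 τ).2]
  have i1 : ‖Iv (1 / 2) fun s => Lo k s ^ 4 * cexp ((s - z) ^ 2) / (s - z)‖ ≤
      Real.exp 3 / ε * Lw k τ := by
    refine (norm_integral_le_of_norm_le ((tk2_int hLOP hLOB hDEC k h1 h2 τ).const_mul
      (Real.exp 3 / ε)) (Filter.Eventually.of_forall fun t => ?_)).trans
      (le_of_eq (integral_const_mul _ _))
    have := hq (1 / 2) ε t hε (by rw [le_abs]; right; linarith)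
      (by rw [abs_le]; constructor <;> linarith)
    have e : ((1 / 2 : ℝ) : ℂ) = 1 / 2 := by push_cast; rfl
    rw [e] at this ⊢
    exact this
  have hL : 0 ≤ Lw k τ := integral_nonneg fun t => by positivity
  have e1 := congrArg norm (eq_sub_of_add_eq' key.symm)
  simp only [sub_self, ne_eq, OfNat.ofNat_ne_zero, not_false_eq_true, zero_pow, exp_zero, mul_one,
    norm_mul, norm_pow, Complex.norm_ofNat, Complex.norm_real, Real.norm_of_nonneg Real.pi_pos.le] at e1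
  have e2 := (e1.le.trans (norm_sub_le _ _)).trans (add_le_add i2 i1)
  have e3 : ‖Lo k z‖ ^ 4 ≤ 2 * π * ‖Lo k z‖ ^ 4 :=
    le_mul_of_one_le_left (by positivity) (by linarith [Real.pi_gt_three])
  have e4 : 64 * Real.exp 3 ≤ 64 * Real.exp 3 / ε := le_div_self (by positivity) hε (by linarith)
  have e5 : Real.exp 3 / ε * Lw k τ ≤ 64 * Real.exp 3 / ε * Lw k τ := by gcongr; linarith
  rw [mul_add, mul_one]
  linarith

theorem pDO (hSH1 : SH1) (hLSP : LSP) (hLOP : LOP) (hLOB : LOB) (hDEC : DEC) (hTK2 : TK2)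
    (hTRV : TRV) (hFOUR : FOUR) : DO := by
  obtain ⟨A, C, hC, h4⟩ := hFOUR
  obtain ⟨C1, hC1, h1⟩ := do_pt hSH1 hLSP hLOP hLOB hDEC
  obtain ⟨C2, hC2, h2⟩ := hTK2 A
  obtain ⟨C3, hC3, h3⟩ := tl_om hTRV
  refine ⟨A, C1 * (C3 + C2 * C), by positivity, fun ε K τ F hε hε1 hK hF => ?_⟩
  have a1 := h2 K _ τ F (h4 K hK) hF
  have a2 := h3 K F hK hF
  have a3 : C3 * K * lg K ^ 10 ≤ C3 * K * lg K ^ 10 * br τ ^ A :=
    le_mul_of_one_le_right (by positivity) (one_le_pow₀ (tk2_br1 τ))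
  calc _ ≤ ∑ k ∈ F, om (|(k : ℝ)| / K) * (C1 / ε * (1 + Lw k τ)) :=
        sum_le_sum fun k hk => mul_le_mul_of_nonneg_left
          (h1 k ε τ (hF k hk).1 (hF k hk).2 hε hε1) (tl_om0 (by positivity))
    _ = C1 / ε * (∑ k ∈ F, om (|(k : ℝ)| / K) + ∑ k ∈ F, om (|(k : ℝ)| / K) * Lw k τ) := by
        rw [← sum_add_distrib, mul_sum]
        exact sum_congr rfl fun k _ => by ring
    _ ≤ C1 / ε * (C3 * K * lg K ^ 10 * br τ ^ A + C2 * (C * K * lg K ^ 10) * br τ ^ A) :=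
        mul_le_mul_of_nonneg_left (add_le_add (a2.trans a3) a1) (by positivity)
    _ = _ := by ring

end Pool.Agent.Q4
end

-- part Pool.Agent.P.MP_ea46f5_nt.Q4.FE04
section

namespace Pool.Agent.Q4

open Complex MeasureTheory Finset Pool.Agent.QM
open scoped Real ComplexConjugate

theorem e4_C4 (u : V4) : C4 u = po (u 0) * po (u 1) * (po (u 2) * po (u 3)) := by
  rw [C4, Fin.prod_univ_four, mul_assoc (po (u 0) * po (u 1))]

theorem e4_cf (χ : ℕ → ℂ) (hχ : ∀ a b, χ (a * b) = χ a * χ b) (u : V4) (A : V4)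
    (h : ∀ j, HasSum (fun n => po (u j) n * χ n) (A j)) :
    HasSum (fun n => C4 u n * χ n) (∏ j, A j) := by
  have h1 := e0_conv _ _ χ hχ _ _ (e0_conv _ _ χ hχ _ _ (h 0) (h 1))
    (e0_conv _ _ χ hχ _ _ (h 2) (h 3))
  rw [e4_C4, Fin.prod_univ_four, mul_assoc (A 0 * A 1)]
  exact h1

theorem e4_mult (u : V4) : (C4 u).IsMultiplicative := by
  rw [e4_C4]
  exact ((e0_po_mult _).mul (e0_po_mult _)).mul ((e0_po_mult _).mul (e0_po_mult _))

theorem e4_even (u : V4) (n : ℕ) (hn : ¬ Odd n) : C4 u n = 0 := by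
  rw [e4_C4]
  exact e0_even _ _ (e0_even _ _ (e0_po_even _) (e0_po_even _))
    (e0_even _ _ (e0_po_even _) (e0_po_even _)) n hn

theorem e4_bd (u : V4) (n : ℕ) (h : ∀ j, (u j).re = 12) :
    ‖C4 u n‖ ≤ (n : ℝ) ^ (-(19 / 2) : ℝ) := by
  rcases eq_or_ne n 0 with rfl | hn
  · rw [ArithmeticFunction.map_zero, norm_zero]
    exact Real.rpow_nonneg (Nat.cast_nonneg _) _
  have h1 := e0_bd _ _ _ (e0_bd _ _ _ (e0_po_bd _ (h 0)) (e0_po_bd _ (h 1)))
    (e0_bd _ _ _ (e0_po_bd _ (h 2)) (e0_po_bd _ (h 3))) n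
  rw [e4_C4]
  refine le_trans h1 (Real.rpow_le_rpow_of_exponent_le ?_ (by norm_num))
  exact_mod_cast Nat.pos_of_ne_zero hn

theorem e4_mul_cont (f g : V4 → ArithmeticFunction ℂ) (hf : ∀ n, Continuous fun x => f x n)
    (hg : ∀ n, Continuous fun x => g x n) (n : ℕ) : Continuous fun x => (f x * g x) n := by
  simp only [ArithmeticFunction.mul_apply]
  exact continuous_finsetSum _ fun p _ => (hf _).mul (hg _)

theorem e4_cont (n : ℕ) : Continuous fun u : V4 => C4 u n := by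
  have h : ∀ (j : Fin 4) (n : ℕ), Continuous fun u : V4 => po (u j) n :=
    fun j n => (e0_po_cont n).comp (continuous_apply j)
  simp only [e4_C4]
  exact e4_mul_cont (fun u => po (u 0) * po (u 1)) (fun u => po (u 2) * po (u 3))
    (e4_mul_cont (fun u => po (u 0)) (fun u => po (u 1)) (h 0) (h 1))
    (e4_mul_cont (fun u => po (u 2)) (fun u => po (u 3)) (h 2) (h 3)) n

theorem e4_five (hLSP : LSP) (m : ℤ) (u : V4) (h : ∀ j, (u j).re = 12) :
    HasSum (fun n : ℕ => C4 u n * (jacobiSym m n : ℂ)) (LL m u) := by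
  have h1 := e4_cf (jo m) (e0_jo_mul m) u (fun j => LS m (1 / 2 + u j))
    fun j => e0_po_jo hLSP m (u j) (h j)
  have h3 : (fun n : ℕ => C4 u n * (jacobiSym m n : ℂ)) = fun n => C4 u n * jo m n := by
    funext n
    by_cases hn : Odd n
    · rw [jo, if_pos hn]
    · rw [e4_even u n hn, zero_mul, zero_mul]
  rw [h3]
  exact h1

theorem e4_geom (s : ℂ) (p : ℕ) (y : ℂ) (hp : p.Prime) (h2 : p ≠ 2) (hs : 0 ≤ s.re)
    (hy : ‖y‖ ≤ 1) : HasSum (fun j : ℕ => po s (p ^ j) * y ^ j) (1 - y * xs s p)⁻¹ := by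
  have hodd : Odd p := hp.odd_of_ne_two h2
  have hpo : ∀ j : ℕ, po s (p ^ j) = xs s p ^ j := by
    intro j
    induction j with
    | zero => rw [pow_zero, pow_zero]; exact (e0_po_mult s).1
    | succ j ih => rw [pow_succ, pow_succ, e0_po_mul, ih, e0_po, if_pos hodd, xs]
  have hx : ‖xs s p‖ < 1 := by
    rw [xs, Complex.norm_natCast_cpow_of_pos hp.pos]
    refine Real.rpow_lt_one_of_one_lt_of_neg (by exact_mod_cast hp.one_lt) ?_
    have : (-(1 / 2 + s)).re = -(1 / 2 + s.re) := by simp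
    rw [this]
    linarith
  have hn : ‖xs s p * y‖ < 1 := by
    rw [norm_mul]
    exact lt_of_le_of_lt (mul_le_of_le_one_right (norm_nonneg _) hy) hx
  have h := hasSum_geometric_of_norm_lt_one hn
  rw [mul_comm y]
  simp only [hpo, ← mul_pow]
  exact h

theorem e4_six (u : V4) (p : ℕ) (y : ℂ) (hp : p.Prime) (h2 : p ≠ 2) (hu : ∀ j, 0 ≤ (u j).re)
    (hy : ‖y‖ ≤ 1) : HasSum (fun j : ℕ => C4 u (p ^ j) * y ^ j) (Fq u p y) := by
  rw [e0_restrict p hp y _ (fun n => C4 u n)]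
  exact e4_cf (e0_chi p y) (e0_chi_mul p y) u (fun j => (1 - y * xs (u j) p)⁻¹) fun j =>
    (e0_restrict p hp y _ (fun n => po (u j) n)).mp (e4_geom (u j) p y hp h2 (hu j) hy)

theorem pE04 (hLSP : LSP) : E04 :=
  ⟨e4_mult, e4_even, e4_bd, e4_cont, e4_five hLSP, e4_six⟩

theorem e4_summable (hE : E04) (hTKB : TKB) (P : Finset ℕ) (k : ℤ) {z : ℂ} {u : V4}
    (h0 : 0 ≤ z.re) (h6 : z.re ≤ 6) (hu : ∀ j, (u j).re = 12) :
    Summable fun n => ‖C4 u n * e1_W P (fun _ => 0) k z n‖ := by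
  have hT0 : (0 : ℤ) ∈ T3 := by decide
  refine Summable.of_nonneg_of_le (fun _ => norm_nonneg _) (fun n => ?_)
    (Real.summable_nat_rpow.2 (show (-(5 / 2) : ℝ) < -1 by norm_num))
  rcases eq_or_ne n 0 with rfl | hn
  · simp only [ArithmeticFunction.map_zero, zero_mul, norm_zero]; positivity
  · have hn0 : (0 : ℝ) < n := by exact_mod_cast Nat.pos_of_ne_zero hn
    rw [norm_mul]
    calc _ ≤ (n : ℝ) ^ (-(19 / 2) : ℝ) * (n : ℝ) ^ 7 := by
          gcongr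
          · exact hE.2.2.1 u n hu
          · exact e1_W_le hTKB P (fun _ => hT0) k h0 h6 hn
      _ = _ := by
          rw [← Real.rpow_natCast, ← Real.rpow_add hn0]; norm_num

theorem e4_euler (hE : E04) (hTKB : TKB) (P : Finset ℕ) (k : ℤ) {z : ℂ} {u : V4}
    (h0 : 0 ≤ z.re) (h6 : z.re ≤ 6) (hu : ∀ j, (u j).re = 12) :
    HasProd (fun p : Nat.Primes => if (p : ℕ) = 2 ∨ (p : ℕ) ∈ P then 1 else loc4 k z u p)
      (∑' n, C4 u n * e1_W P (fun _ => 0) k z n) := by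
  have hm := hE.1 u
  have h := EulerProduct.eulerProduct_hasProd (f := fun n => C4 u n * e1_W P (fun _ => 0) k z n)
    (by simp [hm.map_one, e1_W])
    (fun {m n} hmn => by rw [hm.map_mul_of_coprime hmn, e1_W_mul P _ k z hmn]; ring)
    (e4_summable hE hTKB P k h0 h6 hu) (by simp)
  refine h.congr_fun fun p => ?_
  simp only [e1_W_pow P _ k z p.2]
  by_cases hp : (p : ℕ) ∈ P
  · rw [if_pos (Or.inr hp), tsum_eq_single 0]
    · simp [hm.map_one, e1_g, hp]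
    · intro e he
      simp [e1_g, hp, he]
  · by_cases hp2 : (p : ℕ) = 2
    · rw [if_pos (Or.inl hp2), tsum_eq_single 0]
      · simp [hm.map_one, e1_g, e1_t]
      · intro e he
        rw [hE.2.1 u _ (by
          rw [hp2, Nat.not_odd_iff_even]; exact (Nat.even_pow' he).2 even_two), zero_mul]
    · rw [if_neg (not_or.2 ⟨hp2, hp⟩)]
      have hF := fun (y : ℤ) (hy : y ∈ T3) =>
        hE.2.2.2.2.2 u p (y : ℂ) p.2 hp2 (fun j => by rw [hu j]; norm_num) (e1_norm_T3 hy)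
      have hl : loc4 k z u p = ∑ y ∈ T3, e1_m k z p y * Fq u p (y : ℂ) := by
        rw [e1_sumT3, e1_m, e1_m, e1_m, if_neg (show (-1 : ℤ) ≠ 0 by decide),
          if_pos (rfl : (0 : ℤ) = 0), if_neg (show (1 : ℤ) ≠ 0 by decide), loc4]
        have : Fq u p ((0 : ℤ) : ℂ) = 1 := by simp [Fq]
        rw [this]
        push_cast
        ring
      rw [hl]
      simp only [e1_g, if_neg hp, e1_mom, mul_sum]
      refine (HasSum.tsum_eq (hasSum_sum fun y hy => ?_)).symm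
      exact ((hF y hy).mul_left _).congr_fun fun e => by ring

theorem e4_W (a : ℕ) (ha : a ≠ 0) (k : ℤ) (z : ℂ) (n : ℕ) (hn : n ≠ 0) :
    e1_W a.primeFactors (fun _ => 0) k z n = if a.Coprime n then Tk k z n else 0 := by
  rw [e1_W_split]
  split_ifs with h
  · have hd := h.disjoint_primeFactors
    rw [sdiff_eq_self_of_disjoint hd.symm, ← e1_Tk k z n _ subset_rfl, prod_eq_one, one_mul]
    intro p hp
    have : p ∉ n.primeFactors := disjoint_left.1 hd hp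
    rw [← Nat.support_factorization, Finsupp.notMem_support_iff] at this
    rw [this, pow_zero]
  · obtain ⟨p, hp, hpa, hpn⟩ := Nat.Prime.not_coprime_iff_dvd.1 h
    rw [prod_eq_zero (Nat.mem_primeFactors.2 ⟨hp, hpa, ha⟩), zero_mul]
    rw [Int.cast_zero]
    exact zero_pow (hp.factorization_pos_of_dvd hn hpn).ne'

theorem pE4a (hTKB : TKB) (hE : E04) : E4a := by
  intro Y k z u h0 h6 hu
  refine ⟨?_, ?_⟩
  · have h1 : ∀ a ∈ AY Y, HasSum (fun n => (ArithmeticFunction.moebius a : ℂ) * (a : ℂ) ^ (2 * z - 2) *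
        (C4 u n * e1_W a.primeFactors (fun _ => 0) k z n))
        ((ArithmeticFunction.moebius a : ℂ) * (a : ℂ) ^ (2 * z - 2) *
          HP (loc4 k z u) (fun _ => 1) a) := by
      intro a ha
      have ha0 : a ≠ 0 := (mem_filter.1 ha).2.pos.ne'
      refine HasSum.mul_left _ ?_
      have h2 : HP (loc4 k z u) (fun _ => 1) a =
          ∑' n, C4 u n * e1_W a.primeFactors (fun _ => 0) k z n := by
        rw [HP, prod_const_one, one_mul, ← (e4_euler hE hTKB a.primeFactors k h0 h6 hu).tprod_eq]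
        refine tprod_congr fun p => if_congr (or_congr Iff.rfl ?_) rfl rfl
        exact ⟨fun h => Nat.mem_primeFactors.2 ⟨p.2, h, ha0⟩, Nat.dvd_of_mem_primeFactors⟩
      rw [h2]
      exact (e4_summable hE hTKB _ k h0 h6 hu).of_norm.hasSum
    refine ((hasSum_sum h1).congr_fun fun n => ?_).tsum_eq
    rcases eq_or_ne n 0 with rfl | hn
    · simp
    · rw [cY, sum_filter, sum_mul, mul_sum]
      refine sum_congr rfl fun a ha => ?_
      rw [e4_W a (mem_filter.1 ha).2.pos.ne' k z n hn]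
      split_ifs <;> ring
  · have h := (e4_euler hE hTKB ∅ k h0 h6 hu).multipliable
    simpa only [notMem_empty, or_false] using h

end Pool.Agent.Q4
end

-- part Pool.Agent.P.MP_ea46f5_nt.Q4.FE4k
section

namespace Pool.Agent.Q4

open Complex MeasureTheory Finset Pool.Agent.QM
open scoped Real ComplexConjugate

lemma e4k_HP (y F : ℕ → ℂ) (w : Nat.Primes → ℂ) (W : ℂ) (C : ℝ) (a : ℕ) (ha : Odd a)
    (hW : HasProd w W) (h2 : ∀ p : Nat.Primes, (p : ℕ) = 2 → w p = 1)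
    (hw : ∀ p : Nat.Primes, (p : ℕ) ≠ 2 → w p * F p = 1)
    (hC : ∀ p : ℕ, p.Prime → p ≠ 2 → ‖y p * F p - 1‖ ≤ C * (p : ℝ) ^ (-(11 / 10) : ℝ)) :
    HP y (fun _ => 1) a = W * HP (fun p => y p * F p) F a := by
  have ha0 : a ≠ 0 := ha.pos.ne'
  have hn2 : ¬ (2 ∣ a) := ha.not_two_dvd_nat
  have hP : OP a.primeFactors := fun p hp =>
    ⟨Nat.prime_of_mem_primeFactors hp, fun e => hn2 (e ▸ Nat.dvd_of_mem_primeFactors hp)⟩
  have hs : Summable fun p : Nat.Primes =>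
      ‖(if (p : ℕ) = 2 ∨ (p : ℕ) ∣ a then 1 else y p * F p) - 1‖ := by
    refine Summable.of_nonneg_of_le (fun _ => norm_nonneg _) (fun p => ?_)
      ((Nat.Primes.summable_rpow.mpr (show (-(11 / 10) : ℝ) < -1 by norm_num)).mul_left |C|)
    have h0 : (0 : ℝ) ≤ ((p : ℕ) : ℝ) ^ (-(11 / 10) : ℝ) := by positivity
    split_ifs with h
    · simp only [sub_self, norm_zero]
      positivity
    · exact (hC p p.2 (fun e => h (Or.inl e))).trans
        (mul_le_mul_of_nonneg_right (le_abs_self C) h0)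
  have hM : Multipliable fun p : Nat.Primes =>
      (if (p : ℕ) = 2 ∨ (p : ℕ) ∣ a then 1 else y p * F p) := by
    simpa using multipliable_one_add_of_summable hs
  have hA := (hW.mul hM.hasProd).mul (e2_fin a.primeFactors hP F)
  have hB : HasProd (fun p : Nat.Primes =>
      if (p : ℕ) = 2 ∨ (p : ℕ) ∣ a then 1 else y p) _ := hA.congr_fun fun p => by
    by_cases e : (p : ℕ) = 2
    · have hn : (p : ℕ) ∉ a.primeFactors := fun h => (hP _ h).2 e
      rw [if_pos (Or.inl e), if_pos (Or.inl e), if_neg hn, h2 p e]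
      simp
    · by_cases hp : (p : ℕ) ∣ a
      · have hm : (p : ℕ) ∈ a.primeFactors := Nat.mem_primeFactors.mpr ⟨p.2, hp, ha0⟩
        rw [if_pos (Or.inr hp), if_pos (Or.inr hp), if_pos hm, mul_one, hw p e]
      · have hm : (p : ℕ) ∉ a.primeFactors := fun h => hp (Nat.dvd_of_mem_primeFactors h)
        have hn : ¬ ((p : ℕ) = 2 ∨ (p : ℕ) ∣ a) := fun h => h.elim e hp
        rw [if_neg hn, if_neg hn, if_neg hm, mul_one]
        linear_combination (-(y p)) * hw p e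
  unfold HP
  rw [hB.tprod_eq, Finset.prod_const_one]
  ring

lemma e4k_HY (Y : ℕ) (z : ℂ) (y F : ℕ → ℂ) (w : Nat.Primes → ℂ) (W : ℂ) (C : ℝ)
    (hW : HasProd w W) (h2 : ∀ p : Nat.Primes, (p : ℕ) = 2 → w p = 1)
    (hw : ∀ p : Nat.Primes, (p : ℕ) ≠ 2 → w p * F p = 1)
    (hC : ∀ p : ℕ, p.Prime → p ≠ 2 → ‖y p * F p - 1‖ ≤ C * (p : ℝ) ^ (-(11 / 10) : ℝ)) :
    HY Y z y (fun _ => 1) = W * HY Y z (fun p => y p * F p) F := by
  unfold HY
  rw [Finset.mul_sum]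
  refine Finset.sum_congr rfl fun a ha => ?_
  rw [e4k_HP y F w W C a (Finset.mem_filter.mp ha).2 hW h2 hw hC]
  ring

lemma e4k_jo2 (k : ℤ) : jo k 2 = 0 := by simp [jo]

lemma e4k_jo1 (p : ℕ) (hp : p.Prime) (h2 : p ≠ 2) : jo 1 p = 1 := by
  simp [jo, hp.odd_of_ne_two h2]

lemma e4k_ne (p : ℕ) (hp : p.Prime) (s : ℂ) (hs : 1 < s.re) : 1 - (p : ℂ) ^ (-s) ≠ 0 := by
  have := e2_ne p hp 1 s (by simp) (lt_trans zero_lt_one hs)
  rwa [one_mul] at this

lemma e4k_alg (a b : ℂ) (ha : a ≠ 0) (hb : b ≠ 0) : a⁻¹ * b * (a / b) = 1 := by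
  field_simp

lemma e4k_alg1 (a b c : ℂ) (ha : a ≠ 0) (hb : b ≠ 0) (hc : c ≠ 0) :
    a⁻¹ * (b⁻¹ * c) * (a * b / c) = 1 := by
  field_simp

theorem pE4k (hLSP : LSP) (hLOP : LOP) (hIZ : IZ) (hE4a : E4a) (hLOC4 : LOC4) : E4k := by
  intro Y k z s hk hz hz6 hs
  obtain ⟨C, -, hC⟩ := hLOC4
  have hsr : ∀ j, (s j).re = 25 / 2 - z.re := fun j => by
    have := hs j
    simp only [sh, add_re, sub_re] at this
    norm_num at this
    linarith
  have e1 : ∀ j, 1 + (sh z s j - z) = 1 / 2 + s j := fun j => by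
    simp only [sh]
    ring
  have e2 : ∀ i j, 2 + (sh z s i - z) + (sh z s j - z) = 1 + s i + s j := fun i j => by
    simp only [sh]
    ring
  have r1 : ∀ j, 1 < (1 / 2 + s j).re := fun j => by
    simp only [add_re, hsr j]
    norm_num
    linarith
  have r2 : ∀ i j, 1 < (1 + s i + s j).re := fun i j => by
    simp only [add_re, hsr, one_re]
    linarith
  have hV : ((z, sh z s) : ℂ × V4) ∈ Vk := by
    refine ⟨hz, by show z.re < 7; linarith, fun j => ⟨?_, ?_⟩⟩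
    · show 1 / 6 < (sh z s j).re
      rw [hs j]
      norm_num
    · show -(11 / 20) < (sh z s j - z).re
      rw [sub_re, hs j]
      linarith
  have hW := (hasProd_prod (s := (univ : Finset (Fin 4)))
    fun j _ => hLSP.2.1 k _ (r1 j)).mul
    (hasProd_prod (s := (univ : Finset (Fin 4))) fun i _ =>
      hasProd_prod (s := Ici i) fun j _ => hIZ.2.2 _ (r2 i j))
  rw [(hE4a Y k z (sh z s) (by linarith) hz6 hs).1,
    e4k_HY Y z _ (fk k z (sh z s)) _ _ C hW ?_ ?_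
      (fun p hp h2 => ((hC p hp h2).1 k _ hV).1)]
  · unfold Hk IZ4
    rw [Finset.prod_congr rfl fun j _ => hLOP.1 k _ hk (r1 j)]
  · intro p hp
    simp [hp, e4k_jo2]
  · intro p hp
    have n1 : (∏ j, (1 - jo k p * ((p : ℕ) : ℂ) ^ (-(1 / 2 + s j)))) ≠ 0 :=
      Finset.prod_ne_zero_iff.mpr fun j _ =>
        e2_ne p p.2 _ _ (e2_jo_norm k p) (lt_trans zero_lt_one (r1 j))
    have n2 : (∏ i, ∏ j ∈ Ici i, (1 - ((p : ℕ) : ℂ) ^ (-(1 + s i + s j)))) ≠ 0 :=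
      Finset.prod_ne_zero_iff.mpr fun i _ => Finset.prod_ne_zero_iff.mpr fun j _ =>
        e4k_ne p p.2 _ (r2 i j)
    simp only [fk, e1, e2, if_neg hp, Finset.prod_inv_distrib]
    exact e4k_alg _ _ n1 n2

theorem pE41 (hLSP : LSP) (hLOP : LOP) (hIZ : IZ) (hE4a : E4a) (hLOC4 : LOC4) : E41 := by
  intro Y z u hz hz6 hu
  obtain ⟨C, -, hC⟩ := hLOC4
  have r1 : ∀ j, 1 < (1 + (u j - z)).re := fun j => by
    simp only [add_re, sub_re, hu, one_re]
    linarith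
  have r2 : ∀ i j, 1 < (1 + u i + u j).re := fun i j => by
    simp only [add_re, hu, one_re]
    norm_num
  have r3 : ∀ j, 1 < (1 + u j + z).re := fun j => by
    simp only [add_re, hu, one_re]
    linarith
  have hV : ((z, u) : ℂ × V4) ∈ V1 := by
    refine ⟨by show -(1 / 40) < z.re; linarith, by show z.re < 7; linarith, fun j => ⟨?_, ?_⟩⟩
    · show -(1 / 40) < (u j).re
      rw [hu j]
      norm_num
    · show -(9 / 20) < (u j - z).re
      rw [sub_re, hu j]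
      linarith
  have hW := (hasProd_prod (s := (univ : Finset (Fin 4)))
    fun j _ => hLSP.2.1 1 _ (r1 j)).mul
    ((hasProd_prod (s := (univ : Finset (Fin 4))) fun i _ =>
      hasProd_prod (s := Ici i) fun j _ => hLSP.2.1 1 _ (r2 i j)).mul
    (hasProd_prod (s := (univ : Finset (Fin 4))) fun j _ => hIZ.2.2 _ (r3 j)))
  rw [(hE4a Y 1 z u hz hz6 hu).1,
    e4k_HY Y z _ (n1 z u) _ _ C hW ?_ ?_ (fun p hp h2 => ((hC p hp h2).2 _ hV).1)]
  · unfold Hone ZR ZO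
    rw [Finset.prod_congr rfl fun j _ => hLOP.1 1 _ one_ne_zero (r1 j),
      Finset.prod_congr rfl fun i _ => Finset.prod_congr rfl fun j _ =>
        hLOP.1 1 _ one_ne_zero (r2 i j)]
  · intro p hp
    simp [hp, e4k_jo2]
  · intro p hp
    have n1' : (∏ j, (1 - ((p : ℕ) : ℂ) ^ (-(1 + (u j - z))))) ≠ 0 :=
      Finset.prod_ne_zero_iff.mpr fun j _ => e4k_ne p p.2 _ (r1 j)
    have n2 : (∏ i, ∏ j ∈ Ici i, (1 - ((p : ℕ) : ℂ) ^ (-(1 + u i + u j)))) ≠ 0 :=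
      Finset.prod_ne_zero_iff.mpr fun i _ => Finset.prod_ne_zero_iff.mpr fun j _ =>
        e4k_ne p p.2 _ (r2 i j)
    have n3 : (∏ j, (1 - ((p : ℕ) : ℂ) ^ (-(1 + u j + z)))) ≠ 0 :=
      Finset.prod_ne_zero_iff.mpr fun j _ => e4k_ne p p.2 _ (r3 j)
    simp only [n1, e4k_jo1 p p.2 hp, one_mul, if_neg hp, Finset.prod_inv_distrib]
    exact e4k_alg1 _ _ _ n1' n2 n3

end Pool.Agent.Q4
end

-- part Pool.Agent.P.MP_ea46f5_nt.Q4.FFB
section

/-! The critical piece summed over the family. -/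

namespace Pool.Agent.Q4

open Complex MeasureTheory Finset Pool.Agent.QM
open scoped Real

theorem fc_qk (k : ℤ) : |(k : ℝ)| ≤ qk k := by
  unfold qk disc
  split_ifs
  · exact le_rfl
  · push_cast
    rw [abs_mul]
    have : |(4 : ℝ)| = 4 := by norm_num
    rw [this]
    linarith [abs_nonneg (k : ℝ)]

theorem fc_om {x y p : ℝ} (hy : 0 < y) (hyx : y ≤ x) (h0 : 0 ≤ p) (h1 : p ≤ 1)
    (h2 : p ≤ 2 / x ^ 7) : p * max x (1 / x) ^ (1 / 4 : ℝ) ≤ 2 * om y := by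
  have hx : 0 < x := by linarith
  have key : ∀ a : ℝ, 1 / 4 ≤ a → a ≤ 6 → p * max x (1 / x) ^ (1 / 4 : ℝ) ≤ 2 * y ^ (-a) := by
    intro a a1 a2
    have b0 : x ^ (-a) ≤ y ^ (-a) := Real.rpow_le_rpow_of_nonpos hy hyx (by linarith)
    have b1 : 0 ≤ x ^ (-a) := by positivity
    rcases le_total x 1 with h | h
    · have c1 : x ≤ 1 / x := h.trans (by rw [le_div_iff₀ hx]; linarith)
      have c2 : (1 / x) ^ (1 / 4 : ℝ) = x ^ (-(1 / 4) : ℝ) := by
        rw [one_div x, Real.inv_rpow hx.le, Real.rpow_neg hx.le]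
      have c3 : x ^ (-(1 / 4) : ℝ) ≤ x ^ (-a) :=
        Real.rpow_le_rpow_of_exponent_ge hx h (by linarith)
      have c4 : 0 ≤ x ^ (-(1 / 4) : ℝ) := by positivity
      rw [max_eq_right c1, c2]
      nlinarith
    · have c1 : 1 / x ≤ x := le_trans (by rw [div_le_one hx]; exact h) h
      have c2 : 2 / x ^ 7 * x ^ (1 / 4 : ℝ) = 2 * x ^ (-(27 / 4) : ℝ) := by
        have d : x ^ (-(27 / 4) : ℝ) = x ^ (1 / 4 : ℝ) / x ^ 7 := by
          rw [← Real.rpow_natCast x 7, ← Real.rpow_sub hx]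
          norm_num
        rw [d]; ring
      have c3 : x ^ (-(27 / 4) : ℝ) ≤ x ^ (-a) :=
        Real.rpow_le_rpow_of_exponent_le h (by linarith)
      have c4 : 0 ≤ x ^ (1 / 4 : ℝ) := by positivity
      have c5 := mul_le_mul_of_nonneg_right h2 c4
      rw [max_eq_left c1]
      linarith
  unfold om
  rw [mul_min_of_nonneg _ _ (by norm_num : (0 : ℝ) ≤ 2)]
  exact le_min (key (3 / 4) (by norm_num) (by norm_num)) (key 6 (by norm_num) le_rfl)

theorem pFB (hPHW : PHW) (hREP4 : REP4) (hBP : BP) (hREC : REC) (hFB1 : FB1) : FB := by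
  intro g C₀ θ hg hθ
  obtain ⟨C1, hC1, h1⟩ := hFB1 g C₀ hg
  obtain ⟨C2, hC2, h2⟩ := hREP4
  have hK : Kp (1 / 2) := ⟨by norm_num, by norm_num⟩
  obtain ⟨A, C3, hC3, h3⟩ := hBP θ (hREC θ hθ) (1 / 2) (1 / 2) hK hK
  refine ⟨C2 * (2 * C1) * C3, by positivity, fun Δ η X F hΔ hη hη1 hX hF => ?_⟩
  obtain ⟨b1, b2⟩ := h3 X (cs 0) F hX hF
  have hR : ∀ k : ℤ, ∃ R : V4 → ℂ, k ∈ F → Hol (Bx (-(1 / Δ)) (1 / Δ)) R ∧
      (∀ s ∈ Bx (-(1 / Δ)) (1 / Δ), ‖R s‖ ≤ C1 * Δ ^ 32 *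
        max (qk k / X) (X / qk k) ^ (1 / 4 : ℝ) * ∏ j, 1 / br ((s j).im - cs 0 j) ^ 2) ∧
      Fm g (gam k) Δ (qk k) k = In (cs 0) fun s =>
        amp (1 / 2) (1 / 2) (cs 0) k s * R s * ev s (cs (Real.log X / 2)) := fun k => by
    by_cases hk : k ∈ F
    · obtain ⟨R, hR⟩ := h1 k Δ X (hF k hk).1 (hF k hk).2 hΔ hX
      exact ⟨R, fun _ => hR⟩
    · exact ⟨0, fun h => absurd h hk⟩
  choose R hR using hR
  have hΔ0 : 0 < Δ := by linarith
  have b3 := (h2 F (fun k => om (|(k : ℝ)| / X)) (fun k => phi η (qk k / X))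
    (fun k => C1 * Δ ^ 32 * max (qk k / X) (X / qk k) ^ (1 / 4 : ℝ)) (amp (1 / 2) (1 / 2) (cs 0)) R
    (cs 0) (1 / Δ) (2 * C1 * Δ ^ 32) _ (by positivity)
    (by rw [div_le_one hΔ0]; linarith) (by positivity) (fun k hk => ?_) b1).1
    (cs (Real.log X / 2))
  · have e : ∏ j : Fin 4, br (cs 0 j) ^ A = 1 := by simp [cs, br]
    rw [e] at b3
    calc _ = ∑ k ∈ F, phi η (qk k / X) * ‖In (cs 0) fun s =>
          amp (1 / 2) (1 / 2) (cs 0) k s * R k s * ev s (cs (Real.log X / 2))‖ :=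
          sum_congr rfl fun k hk => by rw [(hR k hk).2.2]
      _ ≤ _ := b3
      _ = _ := by field_simp
  · have k0 : (k : ℝ) ≠ 0 := by exact_mod_cast (hF k hk).1.ne_zero
    have c1 : 0 < |(k : ℝ)| / X := by positivity
    have c2 : |(k : ℝ)| / X ≤ qk k / X := by gcongr; exact fc_qk k
    obtain ⟨-, d1, d2, -, -, d3⟩ := hPHW η (qk k / X) hη (by linarith)
    have c3 := fc_om c1 c2 d1 d2 (d3 hη1)
    rw [one_div (qk k / X), inv_div] at c3
    refine ⟨?_, d1, ?_, b2 k hk, (hR k hk).1, (hR k hk).2.1⟩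
    · unfold om
      exact le_min (by positivity) (by positivity)
    · have c4 := mul_le_mul_of_nonneg_left c3 (by positivity : 0 ≤ C1 * Δ ^ 32)
      linarith

end Pool.Agent.Q4
end

-- part Pool.Agent.P.MP_ea46f5_nt.Q4.FFB1
section

/-! The critical piece as an amplitude times a holomorphic factor. -/

namespace Pool.Agent.Q4

open Complex MeasureTheory Finset Pool.Agent.QM
open scoped Real

noncomputable section

def fbD (γ : ℤ) (u : ℂ) : ℂ := 1 - γ * (2 : ℂ) ^ (-(1 / 2 + u))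

def fbr (g β : ℂ → ℂ) (γ : ℤ) (Δ L : ℝ) (u : ℂ) : ℂ :=
  g u * cexp (-(u ^ 2 / 2)) * (Δ ^ 8 * β (u * Δ)) * (fbD γ u)⁻¹ * cexp (u * L / 2)

def fbF (g β : ℂ → ℂ) (k : ℤ) (Δ L : ℝ) (u : ℂ) : ℂ :=
  u * (u ^ 2 - 1 / 4) * Lo k (1 / 2 + u) * g u * (Δ ^ 8 * β (u * Δ)) * (fbD (gam k) u)⁻¹ *
    cexp (u * L / 2)

end

theorem fb_br1 (t : ℝ) : 1 ≤ br t := by
  unfold br; linarith [abs_nonneg t]

theorem fb_den (k : ℤ) {u : ℂ} (hu : -(1 / 8) ≤ u.re) : 1 / 5 ≤ ‖fbD (gam k) u‖ := by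
  have e : ‖(2 : ℂ) ^ (-(1 / 2 + u))‖ = (2 : ℝ) ^ (-(1 / 2 + u.re)) := by
    simpa using Complex.norm_cpow_eq_rpow_re_of_pos (x := 2) (by norm_num) (-(1 / 2 + u))
  have h1 : (2 : ℝ) ^ (-(1 / 2 + u.re)) ≤ (2 : ℝ) ^ (-(3 / 8) : ℝ) :=
    Real.rpow_le_rpow_of_exponent_le (by norm_num) (by linarith)
  have h2 : ((2 : ℝ) ^ (-(3 / 8) : ℝ)) ^ 8 = 1 / 8 := by
    rw [← Real.rpow_natCast, ← Real.rpow_mul (by norm_num)]; norm_num
  have h3 : (2 : ℝ) ^ (-(3 / 8) : ℝ) ≤ 4 / 5 :=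
    le_of_pow_le_pow_left₀ (n := 8) (by norm_num) (by norm_num) (by rw [h2]; norm_num)
  have h4 : ‖(gam k : ℂ)‖ ≤ 1 := by
    unfold gam
    split_ifs <;> simp
  have h5 := norm_sub_norm_le (1 : ℂ) (gam k * (2 : ℂ) ^ (-(1 / 2 + u)))
  have h6 := mul_le_mul h4 (e.le.trans (h1.trans h3)) (norm_nonneg _) zero_le_one
  rw [norm_one, norm_mul] at h5
  unfold fbD
  linarith

theorem fb_ne (k : ℤ) {u : ℂ} (hu : -(1 / 8) ≤ u.re) : fbD (gam k) u ≠ 0 := by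
  intro h
  have := fb_den k hu
  rw [h, norm_zero] at this
  norm_num at this

theorem fb_inv (k : ℤ) {u : ℂ} (hu : -(1 / 8) ≤ u.re) : ‖(fbD (gam k) u)⁻¹‖ ≤ 5 := by
  rw [norm_inv]
  have := fb_den k hu
  rw [inv_le_comm₀ (by linarith) (by norm_num)]
  linarith

theorem fb_dD (γ : ℤ) : Differentiable ℂ (fbD γ) := by
  unfold fbD
  refine (differentiable_const _).sub ((differentiable_const _).mul ?_)
  exact Differentiable.const_cpow (by fun_prop) (Or.inl two_ne_zero)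

theorem fb_nrm {u : ℂ} {c : ℝ} (hc : 1 ≤ c) (h : |u.re| ≤ c) : ‖u‖ ≤ c * br u.im := by
  have := Complex.norm_le_abs_re_add_abs_im u
  unfold br
  nlinarith [abs_nonneg u.im]

theorem fb_exp (u : ℂ) (L : ℝ) : ‖cexp (u * L / 2)‖ = Real.exp (u.re * L / 2) := by
  rw [Complex.norm_exp]; simp

theorem fb_beta {β : ℂ → ℂ} (hβ : ∀ z : ℂ, -1 ≤ z.re → ‖β z‖ ≤ 1) {Δ : ℝ} (hΔ : 0 < Δ) {u : ℂ}
    (hu : -(1 / Δ) ≤ u.re) : ‖(Δ : ℂ) ^ 8 * β (u * Δ)‖ ≤ Δ ^ 8 := by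
  have h1 : -1 ≤ (u * Δ).re := by
    have : -(1 / Δ) * Δ = -1 := by field_simp
    have h2 := mul_le_mul_of_nonneg_right hu hΔ.le
    rw [this] at h2
    simpa using h2
  rw [norm_mul, norm_pow, Complex.norm_real, Real.norm_of_nonneg hΔ.le]
  exact mul_le_of_le_one_right (by positivity) (hβ _ h1)

theorem fb_prod {A : ℂ} {f : Fin 4 → ℂ} {u : V4} {a m κ C : ℝ} {n p : ℕ} (ha : 0 ≤ a) (hm : 0 ≤ m)
    (hA : ‖A‖ ≤ a * gn n u)
    (hf : ∀ j, ‖f j‖ ≤ m * (br (u j).im ^ p * Real.exp (-κ * (u j).im ^ 2)))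
    (hC : ∀ τ : ℝ, br τ ^ (n + p) * Real.exp (-κ * τ ^ 2) ≤ C / br τ ^ 2) :
    ‖A * ∏ j, f j‖ ≤ a * (m * C) ^ 4 * dn 2 u := by
  have h1 : ‖∏ j, f j‖ ≤ ∏ j, m * (br (u j).im ^ p * Real.exp (-κ * (u j).im ^ 2)) := by
    rw [norm_prod]
    exact prod_le_prod (fun _ _ => norm_nonneg _) fun j _ => hf j
  have h0 : ∀ j, 0 < br (u j).im := fun j => by linarith [fb_br1 (u j).im]
  have h2 : 0 ≤ a * gn n u := (norm_nonneg _).trans hA
  have h3 : gn n u * ∏ j, m * (br (u j).im ^ p * Real.exp (-κ * (u j).im ^ 2)) ≤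
      (m * C) ^ 4 * dn 2 u := by
    have e : (m * C) ^ 4 * dn 2 u = ∏ j : Fin 4, m * (C / br (u j).im ^ 2) := by
      unfold dn
      simp only [Fin.prod_univ_four]
      ring
    rw [e]
    unfold gn
    rw [← prod_mul_distrib]
    refine prod_le_prod (fun j _ => by have := h0 j; positivity) fun j _ => ?_
    calc _ = m * (br (u j).im ^ (n + p) * Real.exp (-κ * (u j).im ^ 2)) := by ring
      _ ≤ _ := mul_le_mul_of_nonneg_left (hC _) hm
  rw [norm_mul]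
  calc _ ≤ a * gn n u * ∏ j, m * (br (u j).im ^ p * Real.exp (-κ * (u j).im ^ 2)) :=
        mul_le_mul hA h1 (norm_nonneg _) h2
    _ = a * (gn n u * ∏ j, m * (br (u j).im ^ p * Real.exp (-κ * (u j).im ^ 2))) := by ring
    _ ≤ a * ((m * C) ^ 4 * dn 2 u) := mul_le_mul_of_nonneg_left h3 ha
    _ = _ := by ring

theorem fb_gauss (hSH4 : SH4) (κ : ℝ) (hκ : 0 < κ) (n : ℕ) : ∃ C : ℝ, 0 < C ∧ ∀ τ : ℝ,
    br τ ^ n * Real.exp (-κ * τ ^ 2) ≤ C / br τ ^ 2 := by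
  obtain ⟨C, hC, h⟩ := hSH4.2.2 κ n 2 hκ
  refine ⟨C, hC, fun τ => ?_⟩
  have h1 := (h τ 0).2.1
  have h4 : br 0 = 1 := by simp [br]
  rwa [sub_zero, h4, one_pow, mul_one] at h1

theorem fb_C0 {g : ℂ → ℂ} {C₀ : ℝ} (hg : GC g C₀) : 0 ≤ C₀ := by
  have h := hg.bd 0 ⟨by norm_num, by norm_num⟩
  simpa using (norm_nonneg _).trans h

theorem fb_r_bd {g β : ℂ → ℂ} {C₀ : ℝ} (hg : GC g C₀) (hβ : ∀ z : ℂ, -1 ≤ z.re → ‖β z‖ ≤ 1)
    (k : ℤ) {Δ : ℝ} (hΔ : 8 ≤ Δ) (L : ℝ) {u : ℂ} (h1 : -(1 / Δ) ≤ u.re) (h2 : u.re ≤ 1 / Δ) :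
    ‖fbr g β (gam k) Δ L u‖ ≤ 5 * (C₀ + 1) * Δ ^ 8 * Real.exp (|L| / 16) *
      (br u.im ^ 0 * Real.exp (-(1 / 4) * u.im ^ 2)) := by
  have h8 : 1 / Δ ≤ 1 / 8 := one_div_le_one_div_of_le (by norm_num) hΔ
  have hC := fb_C0 hg
  have a1 := hg.bd u ⟨by linarith, by linarith⟩
  have a2 : ‖cexp (-(u ^ 2 / 2))‖ ≤ Real.exp (u.im ^ 2 / 2) := by
    rw [Complex.norm_exp]
    refine Real.exp_le_exp.2 ?_
    have : (-(u ^ 2 / 2)).re = -((u.re ^ 2 - u.im ^ 2) / 2) := by simp [pow_two]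
    rw [this]; nlinarith [sq_nonneg u.re]
  have a3 := fb_beta hβ (by linarith : 0 < Δ) h1
  have a4 := fb_inv k (u := u) (by linarith)
  have a5 : ‖cexp (u * L / 2)‖ ≤ Real.exp (|L| / 16) := by
    rw [fb_exp]
    refine Real.exp_le_exp.2 ?_
    have b1 : |u.re| ≤ 1 / 8 := abs_le.2 ⟨by linarith, by linarith⟩
    have b2 := le_abs_self (u.re * L)
    rw [abs_mul] at b2
    nlinarith [abs_nonneg L]
  have e : Real.exp (-(3 / 4) * u.im ^ 2) * Real.exp (u.im ^ 2 / 2) =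
      Real.exp (-(1 / 4) * u.im ^ 2) := by
    rw [← Real.exp_add]; ring_nf
  unfold fbr
  rw [norm_mul, norm_mul, norm_mul, norm_mul]
  calc _ ≤ C₀ * Real.exp (-(3 / 4) * u.im ^ 2) * Real.exp (u.im ^ 2 / 2) * Δ ^ 8 * 5 *
        Real.exp (|L| / 16) := by gcongr
    _ = 5 * C₀ * Δ ^ 8 * Real.exp (|L| / 16) *
        (Real.exp (-(3 / 4) * u.im ^ 2) * Real.exp (u.im ^ 2 / 2)) := by ring
    _ ≤ 5 * (C₀ + 1) * Δ ^ 8 * Real.exp (|L| / 16) *
        (Real.exp (-(3 / 4) * u.im ^ 2) * Real.exp (u.im ^ 2 / 2)) := by gcongr; linarith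
    _ = _ := by rw [e, pow_zero, one_mul]

theorem fb_F_bd (hLOB : LOB) {g β : ℂ → ℂ} {C₀ : ℝ} (hg : GC g C₀)
    (hβ : ∀ z : ℂ, -1 ≤ z.re → ‖β z‖ ≤ 1) {k : ℤ} (hk : Squarefree k) (hk1 : k ≠ 1) {Δ : ℝ}
    (hΔ : 8 ≤ Δ) (L : ℝ) {u : ℂ} (h1 : 0 ≤ u.re) (h2 : u.re ≤ 12) :
    ‖fbF g β k Δ L u‖ ≤ 12 * 145 * (104 * |(k : ℝ)|) * C₀ * Δ ^ 8 * 5 * Real.exp (6 * |L|) *
      (br u.im ^ 4 * Real.exp (-(3 / 4) * u.im ^ 2)) := by
  have hC := fb_C0 hg
  have hb := fb_br1 u.im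
  have a0 : ‖u‖ ≤ 12 * br u.im := fb_nrm (by norm_num) (abs_le.2 ⟨by linarith, h2⟩)
  have a0' : ‖u ^ 2 - 1 / 4‖ ≤ 145 * br u.im ^ 2 := by
    refine (norm_sub_le _ _).trans ?_
    have b1 : ‖u‖ ^ 2 ≤ (12 * br u.im) ^ 2 := by gcongr
    have b2 : ‖(1 / 4 : ℂ)‖ = 1 / 4 := by simp
    rw [norm_pow, b2]
    nlinarith
  have aL : ‖Lo k (1 / 2 + u)‖ ≤ 104 * |(k : ℝ)| * br u.im := by
    have hre : (1 / 2 + u : ℂ).re = 1 / 2 + u.re := by simp
    have him : (1 / 2 + u : ℂ).im = u.im := by simp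
    have b1 := hLOB k (1 / 2 + u) hk hk1 (by rw [hre]; linarith)
    have b2 : ‖(1 / 2 + u : ℂ)‖ ≤ 13 * br u.im := by
      rw [← him]
      exact fb_nrm (by norm_num) (by rw [hre]; exact abs_le.2 ⟨by linarith, by linarith⟩)
    rw [hre] at b1
    calc _ ≤ _ := b1
      _ ≤ 4 * |(k : ℝ)| * (13 * br u.im) / (1 / 2) := by gcongr; linarith
      _ = _ := by ring
  have a1 := hg.bd u ⟨by linarith, by linarith⟩
  have hΔ0 : 0 < Δ := by linarith
  have a3 := fb_beta hβ hΔ0 (u := u) (by have : 0 < 1 / Δ := by positivity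
                                         linarith)
  have a4 := fb_inv k (u := u) (by linarith)
  have a5 : ‖cexp (u * L / 2)‖ ≤ Real.exp (6 * |L|) := by
    rw [fb_exp]
    refine Real.exp_le_exp.2 ?_
    nlinarith [abs_nonneg L, le_abs_self L, mul_le_mul_of_nonneg_left (le_abs_self L) h1]
  unfold fbF
  rw [norm_mul, norm_mul, norm_mul, norm_mul, norm_mul, norm_mul]
  calc _ ≤ 12 * br u.im * (145 * br u.im ^ 2) * (104 * |(k : ℝ)| * br u.im) *
        (C₀ * Real.exp (-(3 / 4) * u.im ^ 2)) * Δ ^ 8 * 5 * Real.exp (6 * |L|) := by gcongr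
    _ = _ := by ring

theorem fb_hol {f : ℂ → ℂ} {u : V4} (h : ∀ j, DifferentiableAt ℂ f (u j)) :
    DifferentiableAt ℂ (fun s : V4 => ∏ j, f (s j)) u := by
  have h1 : ∀ j, DifferentiableAt ℂ (fun s : V4 => f (s j)) u := fun j =>
    (h j).comp u (differentiableAt_apply j u)
  simp only [Fin.prod_univ_four]
  exact (((h1 0).mul (h1 1)).mul (h1 2)).mul (h1 3)

theorem fb_r_hol {g β : ℂ → ℂ} {C₀ : ℝ} (hg : GC g C₀) (hβ : Differentiable ℂ β) (k : ℤ)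
    (Δ L : ℝ) {u : ℂ} (h1 : -(1 / 8) ≤ u.re) : DifferentiableAt ℂ (fbr g β (gam k) Δ L) u := by
  have a1 := hg.hol u (by linarith)
  have a2 := ((fb_dD (gam k)) u).inv (fb_ne k h1)
  have a3 : DifferentiableAt ℂ (fun u : ℂ => β (u * Δ)) u := (hβ _).comp u (by fun_prop)
  unfold fbr
  exact (((a1.mul (by fun_prop)).mul (a3.const_mul _)).mul a2).mul (by fun_prop)

theorem fb_F_hol {g β : ℂ → ℂ} {C₀ : ℝ} (hg : GC g C₀) (hβ : Differentiable ℂ β) {k : ℤ}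
    (hL : Differentiable ℂ (Lo k)) (Δ L : ℝ) {u : ℂ} (h1 : -(1 / 8) ≤ u.re) :
    DifferentiableAt ℂ (fbF g β k Δ L) u := by
  have a1 := hg.hol u (by linarith)
  have a2 := ((fb_dD (gam k)) u).inv (fb_ne k h1)
  have a3 : DifferentiableAt ℂ (fun u : ℂ => β (u * Δ)) u := (hβ _).comp u (by fun_prop)
  have a4 : DifferentiableAt ℂ (fun u : ℂ => Lo k (1 / 2 + u)) u := (hL _).comp u (by fun_prop)
  have a5 : DifferentiableAt ℂ (fun u : ℂ => u * (u ^ 2 - 1 / 4)) u := by fun_prop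
  unfold fbF
  exact ((((a5.mul a4).mul a1).mul (a3.const_mul _)).mul a2).mul (by fun_prop)

theorem fb_qk {k : ℤ} (hk : k ≠ 0) : 0 < qk k := by
  unfold qk disc
  rw [abs_pos]
  split_ifs
  · exact_mod_cast hk
  · exact_mod_cast mul_ne_zero (by norm_num) hk

theorem fb_max {q X : ℝ} (hq : 0 < q) (hX : 0 < X) :
    Real.exp (|Real.log q - Real.log X| / 16) ^ 4 = max (q / X) (X / q) ^ (1 / 4 : ℝ) := by
  have h1 : max (q / X) (X / q) = Real.exp |Real.log q - Real.log X| := by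
    rw [abs_eq_max_neg, Real.exp_monotone.map_max, neg_sub, Real.exp_sub, Real.exp_sub,
      Real.exp_log hq, Real.exp_log hX]
  rw [h1, ← Real.exp_mul, ← Real.exp_nat_mul]
  exact congrArg Real.exp (by push_cast; ring)

theorem fb_one {g β : ℂ → ℂ} (hβ : ∀ z, 1 - th8 z = z ^ 8 * β z) (k : ℤ) (Δ L : ℝ) {u : ℂ}
    (hu : u ≠ 0) :
    wr g (gam k) u * (u - 1 / 2) * (1 - th8 (u * Δ)) * cexp (u * L / 2) * Lo k (1 / 2 + u) =
      fbF g β k Δ L u := by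
  rw [hβ]
  unfold wr fbF fbD
  rw [div_eq_mul_inv, mul_inv]
  generalize (1 - (gam k : ℂ) * (2 : ℂ) ^ (-(1 / 2 + u)))⁻¹ = d
  field_simp
  ring

theorem fb_two (g β : ℂ → ℂ) (k : ℤ) (Δ Lq LX : ℝ) (u : ℂ) :
    pw (1 / 2) 0 0 u * Lo k (1 / 2 + u) * fbr g β (gam k) Δ (Lq - LX) u *
      cexp (u * ((LX / 2 : ℝ) : ℂ)) = fbF g β k Δ Lq u := by
  have e1 : cexp (((1 / 2 : ℝ) : ℂ) * (u - ((0 : ℝ) : ℂ) * I) ^ 2 + ((0 : ℝ) : ℂ) * u) *
      cexp (-(u ^ 2 / 2)) = 1 := by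
    rw [← Complex.exp_add, ← Complex.exp_zero]
    exact congrArg cexp (by push_cast; ring)
  have e2 : cexp (u * ((Lq - LX : ℝ) : ℂ) / 2) * cexp (u * ((LX / 2 : ℝ) : ℂ)) =
      cexp (u * Lq / 2) := by
    rw [← Complex.exp_add]
    exact congrArg cexp (by push_cast; ring)
  unfold pw fbr fbF
  rw [← e2]
  linear_combination (u * (u ^ 2 - 1 / 4) * Lo k (1 / 2 + u) * g u * (Δ ^ 8 * β (u * Δ)) *
    (fbD (gam k) u)⁻¹ * (cexp (u * ((Lq - LX : ℝ) : ℂ) / 2) * cexp (u * ((LX / 2 : ℝ) : ℂ)))) * e1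

theorem pFB1 (hSH4 : SH4) (hVDP : VDP) (hTH8 : TH8) (hLOP : LOP) (hLOB : LOB) : FB1 := by
  intro g C₀ hg
  obtain ⟨Cv, N, hCv, -, hv1, ⟨P, hPd, hPe, hPb⟩, -, -⟩ := hVDP
  obtain ⟨-, -, β, hβd, hβe, hβb⟩ := hTH8
  obtain ⟨C3, hC3, h3⟩ := fb_gauss hSH4 (1 / 4) (by norm_num) (N + 0)
  obtain ⟨C4, hC4, h4⟩ := fb_gauss hSH4 (3 / 4) (by norm_num) (N + N + 4)
  have hC := fb_C0 hg
  refine ⟨Cv * (5 * (C₀ + 1) * C3) ^ 4, by positivity, fun k Δ X hk hk1 hΔ hX => ?_⟩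
  have hk0 : k ≠ 0 := hk.ne_zero
  have hq := fb_qk hk0
  have h8 : 1 / Δ ≤ 1 / 8 := one_div_le_one_div_of_le (by norm_num) hΔ
  refine ⟨fun s => P s * ∏ j, fbr g β (gam k) Δ (Real.log (qk k) - Real.log X) (s j),
    fun s hs => ?_, fun s hs => ?_, ?_⟩
  · refine (hPd s).mul (fb_hol fun j => fb_r_hol hg hβd k _ _ ?_)
    have := (hs j).1
    simp only [cs] at this
    linarith
  · have b1 : s ∈ Bx (-1) 13 := fun j => by
      have c1 := (hs j).1
      have c2 := (hs j).2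
      simp only [cs] at c1 c2 ⊢
      constructor <;> linarith
    have b2 := fb_prod (f := fun j => fbr g β (gam k) Δ (Real.log (qk k) - Real.log X) (s j))
      hCv.le (by positivity) (hPb s b1)
      (fun j => fb_r_bd hg hβb k hΔ (Real.log (qk k) - Real.log X) (hs j).1 (hs j).2) h3
    refine b2.trans (le_of_eq ?_)
    rw [← fb_max hq hX]
    simp only [dn, cs, sub_zero]
    ring
  · have hL := hLOP.2.1 k hk hk1
    set G : V4 → ℂ := fun u => P u * an u * ∏ j, fbF g β k Δ (Real.log (qk k)) (u j) with hG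
    have han : Differentiable ℂ an := by unfold an; fun_prop
    have g1 : Hol (Bx 0 12) G := fun u hu => by
      refine ((hPd u).mul (han u)).mul (fb_hol fun j => fb_F_hol hg hβd hL _ _ ?_)
      have := (hu j).1
      simp only [cs] at this
      linarith
    have g2 : ∀ u ∈ Bx 0 12, ‖G u‖ ≤ Cv * Cv * (12 * 145 * (104 * |(k : ℝ)|) * C₀ * Δ ^ 8 * 5 *
        Real.exp (6 * |Real.log (qk k)|) * C4) ^ 4 * dn 2 u := fun u hu => by
      have b1 : u ∈ Bx (-1) 13 := fun j => by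
        have c1 := (hu j).1
        have c2 := (hu j).2
        simp only [cs] at c1 c2 ⊢
        constructor <;> linarith
      have b2 : ‖P u * an u‖ ≤ Cv * Cv * gn (N + N) u := by
        have c1 := hPb u b1
        have c2 := (hv1 u b1).2.1
        have c3 : gn (N + N) u = gn N u * gn N u := by
          unfold gn
          rw [← prod_mul_distrib]
          exact prod_congr rfl fun j _ => pow_add _ _ _
        rw [norm_mul, c3]
        calc _ ≤ Cv * gn N u * (Cv * gn N u) :=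
              mul_le_mul c1 c2 (norm_nonneg _) ((norm_nonneg _).trans c1)
          _ = _ := by ring
      exact fb_prod (f := fun j => fbF g β k Δ (Real.log (qk k)) (u j)) (by positivity)
        (by positivity) b2
        (fun j => fb_F_bd hLOB hg hβb hk hk1 hΔ (Real.log (qk k)) (hu j).1 (hu j).2) h4
    have g3 := (hSH4.1 0 12 _ (cs 12) (cs 0) G (fun j => by simp [cs]) (fun j => by simp [cs])
      g1 g2).1
    have g4 : Fm g (gam k) Δ (qk k) k = In (cs 12) G := by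
      unfold Fm In
      refine integral_congr_ae (Filter.Eventually.of_forall fun t => ?_)
      have c1 : ∀ j, (pt (cs 12) t j).re = 12 := fun j => by simp [pt, cs]
      beta_reduce
      generalize pt (cs 12) t = u at c1
      have c2 : ∀ j, u j ≠ 0 := fun j h => by
        have := c1 j
        rw [h] at this
        norm_num at this
      have c3 : ∀ j, LS k (1 / 2 + u j) = Lo k (1 / 2 + u j) := fun j =>
        (hLOP.1 k _ hk0 (by have := c1 j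
                            simp only [add_re, this]; norm_num)).symm
      have c4 : (qk k : ℂ) ^ us u = ∏ j, cexp (u j * (Real.log (qk k) : ℝ) / 2) := by
        rw [← Complex.exp_sum, Complex.cpow_def_of_ne_zero (by exact_mod_cast hq.ne'),
          ← Complex.ofReal_log hq.le]
        refine congrArg cexp ?_
        simp only [us, Fin.sum_univ_four]
        ring
      simp only [hG]
      rw [← hPe, c4]
      simp only [← fb_one (g := g) hβe k Δ (Real.log (qk k)) (c2 _), W4, Wr, hf, cF, LL, c3,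
        prod_mul_distrib]
      ring
    rw [g4, g3]
    unfold In
    refine integral_congr_ae (Filter.Eventually.of_forall fun t => ?_)
    beta_reduce
    generalize pt (cs 0) t = u
    simp only [hG, ← fb_two g β k Δ (Real.log (qk k)) (Real.log X), amp, ev, cs, Complex.exp_sum,
      Fin.prod_univ_four]
    ring

end Pool.Agent.Q4
end

-- part Pool.Agent.P.MP_ea46f5_nt.Q4.FFL2
section

/-! Inflation for pairs. -/

namespace Pool.Agent.Q4

open Complex MeasureTheory Finset Pool.Agent.QM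
open scoped Real ComplexConjugate

theorem fl2_abs (K : Finset ℤ) (hK : ∀ k ∈ K, Squarefree k) (P : Finset ℕ)
    (hP : ∀ r ∈ P, r.Prime) (hPne : P.Nonempty) (v v' : ℝ)
    (d : ℝ → ℝ → ℤ → ℝ) (hd0 : ∀ a b m, 0 ≤ d a b m)
    (hrel : ∀ a b : ℝ, ∀ k ∈ K, ∀ r ∈ P, d a b k ≤ d a b (k * (r : ℤ) ^ 2) +
      1 / 10 * d (a - Real.log r) b k + 1 / 10 * d a (b - Real.log r) k +
      1 / 100 * d (a - Real.log r) (b - Real.log r) k)
    (B : ℝ) (hB : ∀ a b : ℝ, ∑ k ∈ K, d a b k ^ 2 ≤ B)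
    (G : ℤ → ℝ) (g : ℝ) (hg : 0 < g) (hG : ∀ k ∈ K, ∀ r ∈ P, g ≤ G (k * (r : ℤ) ^ 2))
    (M : ℝ) (hM : ∀ (a b : ℝ) (T : Finset ℤ), a ≤ v → b ≤ v' → ∑ m ∈ T, G m * d a b m ^ 2 ≤ M) :
    ∑ k ∈ K, d v v' k ^ 2 ≤ 2 * M / (g * P.card) := by
  classical
  have hc : (0 : ℝ) < P.card := by exact_mod_cast hPne.card_pos
  set M' := M / (g * P.card) with hM'
  let N : ℝ × ℝ → ℝ := fun x => ∑ k ∈ K, d x.1 x.2 k ^ 2
  let S : Set ℝ := N '' {x | x.1 ≤ v ∧ x.2 ≤ v'}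
  have hSne : S.Nonempty := ⟨N (v, v'), (v, v'), ⟨le_rfl, le_rfl⟩, rfl⟩
  have hSb : BddAbove S := by
    refine ⟨B, ?_⟩
    rintro _ ⟨b, -, rfl⟩
    exact hB _ _
  have hΓ : ∀ a b : ℝ, a ≤ v → b ≤ v' → ∑ k ∈ K, d a b k ^ 2 ≤ sSup S :=
    fun a b ha hb => le_csSup hSb ⟨(a, b), ⟨ha, hb⟩, rfl⟩
  have hsel : ∀ a b : ℝ, a ≤ v → b ≤ v' →
      ∃ r ∈ P, ∑ k ∈ K, d a b (k * (r : ℤ) ^ 2) ^ 2 ≤ M' := by
    intro a b ha hb
    refine exists_le_of_sum_le hPne ?_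
    have hinj : Set.InjOn (fun q : ℕ × ℤ => q.2 * (q.1 : ℤ) ^ 2) (P ×ˢ K : Finset (ℕ × ℤ)) := by
      intro q hq q' hq' e
      rw [mem_coe, mem_product] at hq hq'
      have := fl_inj (hK _ hq'.2) (hP _ hq.1) (hP _ hq'.1) e
      exact Prod.ext this.2 this.1
    have h1 := hM a b ((P ×ˢ K).image fun q : ℕ × ℤ => q.2 * (q.1 : ℤ) ^ 2) ha hb
    rw [sum_image hinj, sum_product] at h1
    have h2 : g * ∑ r ∈ P, ∑ k ∈ K, d a b (k * (r : ℤ) ^ 2) ^ 2 ≤ M := by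
      refine le_trans ?_ h1
      rw [mul_sum]
      refine sum_le_sum fun r hr => ?_
      rw [mul_sum]
      exact sum_le_sum fun k hk => mul_le_mul_of_nonneg_right (hG k hk r hr) (sq_nonneg _)
    rw [sum_const, nsmul_eq_mul, hM']
    have : (P.card : ℝ) * (M / (g * P.card)) = M / g := by field_simp
    rw [this, le_div_iff₀ hg]
    linarith
  have hstep : ∀ a b : ℝ, a ≤ v → b ≤ v' →
      ∑ k ∈ K, d a b k ^ 2 ≤ 100 / 79 * M' + 21 / 100 * sSup S := by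
    intro a b ha hb
    obtain ⟨r, hr, hrM⟩ := hsel a b ha hb
    have hl : 0 ≤ Real.log r := Real.log_natCast_nonneg r
    have h1 : ∑ k ∈ K, d a b k ^ 2 ≤ ∑ k ∈ K, (100 / 79 * d a b (k * (r : ℤ) ^ 2) ^ 2 +
        1 / 10 * d (a - Real.log r) b k ^ 2 + 1 / 10 * d a (b - Real.log r) k ^ 2 +
        1 / 100 * d (a - Real.log r) (b - Real.log r) k ^ 2) := by
      refine sum_le_sum fun k hk => ?_
      have h4 := pow_le_pow_left₀ (hd0 a b k) (hrel a b k hk r hr) 2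
      generalize d a b (k * (r : ℤ) ^ 2) = x at h4 ⊢
      generalize d (a - Real.log r) b k = y at h4 ⊢
      generalize d a (b - Real.log r) k = y' at h4 ⊢
      generalize d (a - Real.log r) (b - Real.log r) k = z at h4 ⊢
      refine h4.trans ?_
      nlinarith [sq_nonneg (100 / 79 * x - y), sq_nonneg (100 / 79 * x - y'),
        sq_nonneg (100 / 79 * x - z), sq_nonneg (y - z), sq_nonneg (y' - z), sq_nonneg (y - y')]
    rw [sum_add_distrib, sum_add_distrib, sum_add_distrib, ← mul_sum, ← mul_sum, ← mul_sum,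
      ← mul_sum] at h1
    have h5 := hΓ (a - Real.log r) b (by linarith) hb
    have h6 := hΓ a (b - Real.log r) ha (by linarith)
    have h7 := hΓ (a - Real.log r) (b - Real.log r) (by linarith) (by linarith)
    linarith
  have hfin : sSup S ≤ 100 / 79 * M' + 21 / 100 * sSup S := by
    refine csSup_le hSne ?_
    rintro _ ⟨b, hb, rfl⟩
    exact hstep b.1 b.2 hb.1 hb.2
  have hM0 : 0 ≤ M' := by
    have := hM v v' ∅ le_rfl le_rfl
    rw [sum_empty] at this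
    positivity
  have h7 := hΓ v v' le_rfl le_rfl
  rw [mul_div_assoc, ← hM']
  linarith

theorem fl2_line (hI : PWI) {κ : ℝ} (hκ : Kp κ) (t v : ℝ) (j : ℕ) (k : ℤ) {r : ℕ} (hr : r.Prime)
    (hr2 : r ≠ 2) :
    (Iv 12 fun u => u ^ j * (pw κ t v u * LS (k * (r : ℤ) ^ 2) (1 / 2 + u))) =
      (Iv 12 fun u => u ^ j * (pw κ t v u * LS k (1 / 2 + u))) -
        jo k r * (r : ℂ) ^ (-(1 / 2 : ℂ)) *
          Iv 12 fun u => u ^ j * (pw κ t (v - Real.log r) u * LS k (1 / 2 + u)) := by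
  have hr0 : (r : ℂ) ≠ 0 := by exact_mod_cast hr.ne_zero
  have i1 := (hI κ t v j hκ).2 k
  have i2 := (hI κ t (v - Real.log r) j hκ).2 k
  unfold Lc at i1 i2
  unfold Iv
  rw [← integral_const_mul, ← integral_sub i1 (i2.const_mul _)]
  refine integral_congr_ae (Filter.Eventually.of_forall fun y => ?_)
  have h1 := pLSP.2.2.2.2.2 k r (1 / 2 + (((12 : ℝ) : ℂ) + y * I)) hr hr2 (by
    simp only [add_re, mul_re, ofReal_re, I_re, ofReal_im, I_im]
    norm_num)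
  simp only
  rw [h1]
  generalize (((12 : ℝ) : ℂ) + y * I) = u
  have e3 : (r : ℂ) ^ (-(1 / 2 + u : ℂ)) =
      (r : ℂ) ^ (-(1 / 2 : ℂ)) * cexp (-(((Real.log r : ℝ) : ℂ) * u)) := by
    rw [neg_add, cpow_add _ _ hr0, cpow_def_of_ne_zero hr0 (-u), ← natCast_log, mul_neg]
  have e4 : pw κ t (v - Real.log r) u = pw κ t v u * cexp (-(((Real.log r : ℝ) : ℂ) * u)) := by
    unfold pw
    rw [mul_assoc _ (cexp _), ← Complex.exp_add]
    congr 2
    push_cast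
    ring
  rw [e3, e4]
  ring

theorem fl2_rel (hI : PWI) {κ κ' : ℝ} (hκ : Kp κ) (hκ' : Kp κ') (t v t' v' : ℝ) (k : ℤ) {r : ℕ}
    (hr : r.Prime) (h100 : 100 < r) :
    ‖Bm κ t v κ' t' v' k‖ ≤ ‖Bm κ t v κ' t' v' (k * (r : ℤ) ^ 2)‖ +
      1 / 10 * ‖Bm κ t (v - Real.log r) κ' t' v' k‖ +
      1 / 10 * ‖Bm κ t v κ' t' (v' - Real.log r) k‖ +
      1 / 100 * ‖Bm κ t (v - Real.log r) κ' t' (v' - Real.log r) k‖ := by
  have hr2 : r ≠ 2 := by omega
  have hr100 : (100 : ℝ) < r := by exact_mod_cast h100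
  have a0 := fl2_line hI hκ t v 0 k hr hr2
  have a2 := fl2_line hI hκ t v 2 k hr hr2
  have b0 := fl2_line hI hκ' t' v' 0 k hr hr2
  have b2 := fl2_line hI hκ' t' v' 2 k hr hr2
  simp only [pow_zero, one_mul] at a0 b0
  have hna : ‖jo k r * (r : ℂ) ^ (-(1 / 2 : ℂ))‖ ≤ 1 / 10 := by
    have e : ‖(r : ℂ) ^ (-(1 / 2 : ℂ))‖ = 1 / Real.sqrt r := by
      rw [norm_natCast_cpow_of_pos hr.pos, Real.sqrt_eq_rpow, one_div ((r : ℝ) ^ _),
        ← Real.rpow_neg (by linarith)]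
      congr 1
      simp
    have hs : (10 : ℝ) ≤ Real.sqrt r := Real.le_sqrt_of_sq_le (by linarith)
    rw [norm_mul, e]
    exact (mul_le_of_le_one_left (by positivity) (fl_jo k r)).trans
      (one_div_le_one_div_of_le (by norm_num) hs)
  generalize jo k r * (r : ℂ) ^ (-(1 / 2 : ℂ)) = a at a0 a2 b0 b2 hna
  have key : Bm κ t v κ' t' v' k = Bm κ t v κ' t' v' (k * (r : ℤ) ^ 2) +
      a * Bm κ t (v - Real.log r) κ' t' v' k + a * Bm κ t v κ' t' (v' - Real.log r) k -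
      a ^ 2 * Bm κ t (v - Real.log r) κ' t' (v' - Real.log r) k := by
    unfold Bm pr
    rw [a0, a2, b0, b2]
    ring
  have hna2 : ‖a ^ 2‖ ≤ 1 / 100 := by
    rw [norm_pow]
    exact (pow_le_pow_left₀ (norm_nonneg _) hna 2).trans (by norm_num)
  rw [key]
  refine (norm_sub_le _ _).trans (add_le_add ((norm_add_le _ _).trans (add_le_add
    ((norm_add_le _ _).trans (add_le_add le_rfl ?_)) ?_)) ?_) <;> rw [norm_mul]
  · exact mul_le_mul_of_nonneg_right hna (norm_nonneg _)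
  · exact mul_le_mul_of_nonneg_right hna (norm_nonneg _)
  · exact mul_le_mul_of_nonneg_right hna2 (norm_nonneg _)

theorem fl2_Sq {Z : ℝ} {k : ℤ} (h : k ∈ Sq Z) : Squarefree k ∧ k ≠ 1 ∧ |(k : ℝ)| ≤ Z := by
  simp only [Sq, mem_filter] at h
  exact ⟨h.2.1, h.2.2.1, h.2.2.2.2⟩

theorem pFL2 (hI : PWI) (hK : PKB) : FL2 := by
  obtain ⟨⟨c, R₀, hc, hR₀, hP⟩, -⟩ := pPC
  refine ⟨2 * Real.exp π / c, R₀, by positivity, hR₀,
    fun κ t v κ' t' v' Z R M hκ hκ' hZ hR hM => ?_⟩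
  have hR1 : 1 < R := by linarith
  have hL : 0 < Real.log R := Real.log_pos hR1
  have hcard := hP R hR
  set P := (Ioc 100 ⌊R⌋₊).filter Nat.Prime with hPdef
  have hpos : 0 < c * R / Real.log R := by positivity
  have hPne : P.Nonempty := by
    rw [← card_pos]
    exact_mod_cast hpos.trans_le hcard
  have hM0 : 0 ≤ M := by simpa using hM v v' ∅ le_rfl le_rfl
  have hPm : ∀ r ∈ P, r.Prime ∧ 100 < r ∧ (r : ℝ) ≤ R := by
    intro r hr
    rw [hPdef, mem_filter, mem_Ioc] at hr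
    exact ⟨hr.2, hr.1.1, (Nat.le_floor_iff (by linarith)).1 hr.1.2⟩
  have hb : ∀ k : ℤ, ∃ B : ℝ, k ∈ Sq Z → ∀ a b : ℝ, ‖Bm κ t a κ' t' b k‖ ≤ B := by
    intro k
    by_cases hk : k ∈ Sq Z
    · obtain ⟨h1, -, B, hB⟩ := (hK κ t κ' t' hκ hκ').2 k (fl2_Sq hk).1 (fl2_Sq hk).2.1
      exact ⟨B, fun _ a b => by rw [(h1 a b).1]; exact hB a b⟩
    · exact ⟨0, fun h => absurd h hk⟩
  choose B hB using hb
  have h := fl2_abs (Sq Z) (fun k hk => (fl2_Sq hk).1) P (fun r hr => (hPm r hr).1) hPne v v'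
    (fun a b m => ‖Bm κ t a κ' t' b m‖) (fun _ _ _ => norm_nonneg _)
    (fun a b k _ r hr => fl2_rel hI hκ hκ' t a t' b k (hPm r hr).1 (hPm r hr).2.1)
    (∑ k ∈ Sq Z, B k ^ 2)
    (fun a b => sum_le_sum fun k hk => pow_le_pow_left₀ (norm_nonneg _) (hB k hk a b) 2)
    (GX (Z * R ^ 2)) (Real.exp (-π)) (Real.exp_pos _) ?_ M hM
  · refine h.trans ?_
    have := Real.exp_pos π
    calc 2 * M / (Real.exp (-π) * P.card) = 2 * Real.exp π * M / P.card := by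
          have : (0 : ℝ) < P.card := hpos.trans_le hcard
          rw [Real.exp_neg]
          field_simp
      _ ≤ 2 * Real.exp π * M / (c * R / Real.log R) :=
          div_le_div_of_nonneg_left (by positivity) hpos hcard
      _ = _ := by field_simp
  · intro k hk r hr
    have hr100 : (100 : ℝ) < r := by exact_mod_cast (hPm r hr).2.1
    have hrR := (hPm r hr).2.2
    have h1 : |(k : ℝ) * (r : ℝ) ^ 2| ≤ Z * R ^ 2 := by
      rw [abs_mul, abs_of_nonneg (sq_nonneg (r : ℝ))]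
      exact mul_le_mul (fl2_Sq hk).2.2 (pow_le_pow_left₀ (by linarith) hrR 2) (sq_nonneg _) hZ.le
    have h2 : ((k : ℝ) * (r : ℝ) ^ 2) ^ 2 ≤ (Z * R ^ 2) ^ 2 := by
      rw [← sq_abs ((k : ℝ) * _)]; exact pow_le_pow_left₀ (abs_nonneg _) h1 2
    unfold GX
    refine Real.exp_le_exp.2 ?_
    push_cast
    rw [le_div_iff₀ (by positivity)]
    have := mul_le_mul_of_nonneg_left h2 Real.pi_pos.le
    linarith

end Pool.Agent.Q4
end

-- part Pool.Agent.P.MP_ea46f5_nt.Q4.FHTb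
section

/-! HTb: the tail of the sieve. HA4: the arithmetic constant. -/

namespace Pool.Agent.Q4

open Complex Finset Pool.Agent.QM Filter Topology
open scoped Real

noncomputable section

/-- the odd primes of a finite set of primes -/
def htS (s : Finset Nat.Primes) : Finset ℕ := (s.map (Function.Embedding.subtype _)).erase 2

def htE : ℝ := ∑' n : ℕ, (n : ℝ) ^ (-(11 / 10) : ℝ)

theorem ht_sum : Summable fun n : ℕ => (n : ℝ) ^ (-(11 / 10) : ℝ) :=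
  Real.summable_nat_rpow.2 (by norm_num)

theorem ht_op (s : Finset Nat.Primes) : OP (htS s) := fun p hp => by
  obtain ⟨h2, h⟩ := mem_erase.1 hp
  obtain ⟨q, -, rfl⟩ := mem_map.1 h
  exact ⟨q.2, h2⟩

theorem ht_prod (s : Finset Nat.Primes) (f : ℕ → ℂ) :
    ∏ p ∈ s, (if (p : ℕ) = 2 then 1 else f p) = ∏ p ∈ htS s, f p := by
  have h := prod_erase (f := fun p : ℕ => if p = 2 then 1 else f p) (a := 2)
    (s.map (Function.Embedding.subtype _)) (if_pos rfl)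
  exact (h.trans (prod_map _ _ _)).symm.trans
    (prod_congr rfl fun p hp => if_neg (mem_erase.1 hp).1)

theorem ht_mult {f : ℕ → ℂ} {C : ℝ} (hC : 0 ≤ C)
    (h : ∀ p : ℕ, p.Prime → p ≠ 2 → ‖f p - 1‖ ≤ C * (p : ℝ) ^ (-(11 / 10) : ℝ)) :
    Multipliable fun p : Nat.Primes => if (p : ℕ) = 2 then 1 else f p := by
  have h1 : Summable fun p : Nat.Primes => ‖(if (p : ℕ) = 2 then 1 else f p) - 1‖ := by
    refine Summable.of_nonneg_of_le (fun _ => norm_nonneg _) (fun p => ?_)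
      ((Nat.Primes.summable_rpow.2 (by norm_num : (-(11 / 10) : ℝ) < -1)).mul_left C)
    split_ifs with h2
    · rw [sub_self, norm_zero]
      positivity
    · exact h p p.2 h2
  simpa only [add_sub_cancel] using multipliable_one_add_of_summable h1

theorem ht_tend {f : ℕ → ℂ} {C : ℝ} (hC : 0 ≤ C)
    (h : ∀ p : ℕ, p.Prime → p ≠ 2 → ‖f p - 1‖ ≤ C * (p : ℝ) ^ (-(11 / 10) : ℝ)) :
    Tendsto (fun s => ∏ p ∈ htS s, f p) atTop
      (𝓝 (∏' p : Nat.Primes, if (p : ℕ) = 2 then 1 else f p)) := by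
  simp only [← ht_prod]
  exact (ht_mult hC h).hasProd

theorem ht_exp {C : ℝ} (hC : 0 ≤ C) (S : Finset ℕ) :
    ∏ p ∈ S, (1 + C * (p : ℝ) ^ (-(11 / 10) : ℝ)) ≤ Real.exp (C * htE) := by
  refine (Real.prod_one_add_le_exp_sum S fun p => by positivity).trans (Real.exp_le_exp.2 ?_)
  rw [← mul_sum]
  exact mul_le_mul_of_nonneg_left (ht_sum.sum_le_tsum S fun p _ => by positivity) hC

theorem ht_le {f : ℕ → ℂ} {C : ℝ} (hC : 0 ≤ C)
    (h : ∀ p : ℕ, p.Prime → p ≠ 2 → ‖f p - 1‖ ≤ C * (p : ℝ) ^ (-(11 / 10) : ℝ)) {S : Finset ℕ}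
    (hS : OP S) : ‖∏ p ∈ S, f p‖ ≤ Real.exp (C * htE) := by
  refine (Finset.norm_prod_le _ _).trans (le_trans (prod_le_prod (fun _ _ => norm_nonneg _)
    fun p hp => ?_) (ht_exp hC S))
  have := norm_add_le (1 : ℂ) (f p - 1)
  rw [add_sub_cancel, norm_one] at this
  linarith [h p (hS p hp).1 (hS p hp).2]

/-- the finite sieve as a sum over sets of primes -/
theorem ht_fin (y F : ℕ → ℂ) (Y : ℕ) {S : Finset ℕ} (hS : OP S)
    (hY : ∀ p : ℕ, p.Prime → p ≠ 2 → p ≤ Y → p ∈ S) :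
    ∑ a ∈ AY Y, (ArithmeticFunction.moebius a : ℂ) * (a : ℂ) ^ (2 * 0 - 2 : ℂ) *
      ((∏ p ∈ a.primeFactors, F p) * ∏ p ∈ S, if p ∣ a then 1 else y p) =
    ∑ T ∈ S.powerset with ∏ p ∈ T, p ≤ Y,
      (∏ p ∈ T, -(F p / (p : ℂ) ^ 2)) * ∏ p ∈ S \ T, y p := by
  have hp : ∀ T ∈ S.powerset.filter fun T => ∏ p ∈ T, p ≤ Y, ∀ p ∈ T, p.Prime ∧ p ≠ 2 :=
    fun T hT p hp => hS p (mem_powerset.1 (mem_filter.1 hT).1 hp)
  have hf := fun T hT => Nat.primeFactors_prod fun p h => (hp T hT p h).1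
  symm
  refine sum_of_injOn (fun T => ∏ p ∈ T, p) (fun T hT T' hT' e => ?_) (fun T hT => ?_)
    (fun a ha hn => ?_) fun T hT => ?_
  · rw [← hf T hT, ← hf T' hT']
    exact congrArg _ e
  · exact mem_filter.2 ⟨mem_Icc.2 ⟨prod_pos fun p h => (hp T hT p h).1.pos, (mem_filter.1 hT).2⟩,
      prod_induction _ Odd (fun _ _ => Odd.mul) odd_one fun p h =>
        (hp T hT p h).1.odd_of_ne_two (hp T hT p h).2⟩
  · obtain ⟨h1, h2⟩ := mem_filter.1 ha
    rw [ArithmeticFunction.moebius_eq_zero_of_not_squarefree fun hs => hn ?_]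
    · simp
    have e := Nat.prod_primeFactors_of_squarefree hs
    refine ⟨a.primeFactors, mem_coe.2 (mem_filter.2 ⟨mem_powerset.2 fun p h => hY p
      (Nat.prime_of_mem_primeFactors h) ?_ ((Nat.le_of_mem_primeFactors h).trans (mem_Icc.1 h1).2),
      e.le.trans (mem_Icc.1 h1).2⟩), e⟩
    rintro rfl
    exact (Nat.not_even_iff_odd.2 h2) (even_iff_two_dvd.2 (Nat.dvd_of_mem_primeFactors h))
  · have e1 : ∏ p ∈ S, (if p ∣ ∏ q ∈ T, q then 1 else y p) = ∏ p ∈ S \ T, y p := by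
      rw [sdiff_eq_filter, prod_filter]
      refine prod_congr rfl fun p h => ?_
      have : p ∣ ∏ q ∈ T, q ↔ p ∈ T := by
        conv_rhs => rw [← hf T hT, Nat.mem_primeFactors]
        exact ⟨fun h' => ⟨(hS p h).1, h', prod_ne_zero_iff.2 fun q hq => (hp T hT q hq).1.ne_zero⟩,
          fun h' => h'.2.1⟩
      simp only [this, ite_not]
    rw [e1, hf T hT, ArithmeticFunction.isMultiplicative_moebius.map_prod_of_prime T
      fun p h => (hp T hT p h).1, ← mul_assoc, show (2 * 0 - 2 : ℂ) = -((2 : ℕ) : ℂ) by simp,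
      cpow_neg, cpow_natCast]
    push_cast
    rw [← prod_pow, ← prod_inv_distrib, ← prod_mul_distrib, ← prod_mul_distrib]
    congr 1
    refine prod_congr rfl fun p h => ?_
    rw [ArithmeticFunction.moebius_apply_prime (hp T hT p h).1]
    push_cast
    ring

theorem ht_F {F : ℂ} {C : ℝ} {p : ℕ} (hp : p.Prime) (h : ‖F‖ ≤ C) :
    ‖F / (p : ℂ) ^ 2‖ * √(p : ℝ) ≤ C * (p : ℝ) ^ (-(11 / 10) : ℝ) := by
  have h0 : (0 : ℝ) < p := by exact_mod_cast hp.pos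
  rw [norm_div, norm_pow, norm_natCast, div_mul_eq_mul_div, mul_div_assoc, Real.sqrt_eq_rpow,
    ← Real.rpow_two, ← Real.rpow_sub h0]
  exact mul_le_mul h (Real.rpow_le_rpow_of_exponent_le (by exact_mod_cast hp.one_le) (by norm_num))
    (by positivity) ((norm_nonneg _).trans h)

theorem ht_tail {y F : ℕ → ℂ} {C : ℝ} (hC : 0 ≤ C) {Y : ℕ} (hY : 1 ≤ Y)
    (h : ∀ p : ℕ, p.Prime → p ≠ 2 → ‖y p - 1‖ ≤ C * (p : ℝ) ^ (-(11 / 10) : ℝ) ∧ ‖F p‖ ≤ C)
    {S : Finset ℕ} (hS : OP S) :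
    ‖∑ T ∈ S.powerset with ¬ ∏ p ∈ T, p ≤ Y,
      (∏ p ∈ T, -(F p / (p : ℂ) ^ 2)) * ∏ p ∈ S \ T, y p‖ ≤ Real.exp (2 * C * htE) / √(Y : ℝ) := by
  have hY' : 0 < √(Y : ℝ) := Real.sqrt_pos.2 (by exact_mod_cast hY)
  have h1 : ∀ T ∈ S.powerset.filter fun T => ¬ ∏ p ∈ T, p ≤ Y,
      ‖(∏ p ∈ T, -(F p / (p : ℂ) ^ 2)) * ∏ p ∈ S \ T, y p‖ ≤
        (∏ p ∈ T, C * (p : ℝ) ^ (-(11 / 10) : ℝ)) * (Real.exp (C * htE) / √(Y : ℝ)) := by
    intro T hT
    obtain ⟨h2, h3⟩ := mem_filter.1 hT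
    have h4 : √(Y : ℝ) ≤ ∏ p ∈ T, √(p : ℝ) := by
      rw [← Real.sqrt_prod _ fun _ _ => Nat.cast_nonneg _]
      exact Real.sqrt_le_sqrt (by rw [← Nat.cast_prod]; exact Nat.cast_le.2 (not_le.1 h3).le)
    have h5 : ‖∏ p ∈ T, -(F p / (p : ℂ) ^ 2)‖ * √(Y : ℝ) ≤
        ∏ p ∈ T, C * (p : ℝ) ^ (-(11 / 10) : ℝ) := by
      refine (mul_le_mul_of_nonneg_left h4 (norm_nonneg _)).trans ?_
      rw [norm_prod, ← prod_mul_distrib]
      refine prod_le_prod (fun _ _ => by positivity) fun p hp => ?_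
      have := hS p (mem_powerset.1 h2 hp)
      rw [norm_neg]
      exact ht_F this.1 (h p this.1 this.2).2
    rw [norm_mul, ← mul_div_assoc, mul_div_right_comm]
    exact mul_le_mul ((le_div_iff₀ hY').2 h5) (ht_le hC (fun p a b => (h p a b).1)
      fun p hp => hS p (mem_sdiff.1 hp).1) (norm_nonneg _)
      ((norm_nonneg _).trans ((le_div_iff₀ hY').2 h5))
  refine (norm_sum_le_of_le _ h1).trans ?_
  rw [← sum_mul, show 2 * C * htE = C * htE + C * htE by ring, Real.exp_add, mul_div_assoc]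
  refine mul_le_mul_of_nonneg_right (le_trans ?_ (ht_exp hC S)) (by positivity)
  rw [prod_one_add]
  exact sum_le_sum_of_subset_of_nonneg (filter_subset _ _) fun T _ _ =>
    prod_nonneg fun _ _ => by positivity

theorem ht_J {y F : ℕ → ℂ} {C : ℝ}
    (h : ∀ p : ℕ, p.Prime → p ≠ 2 → ‖y p - 1‖ ≤ C * (p : ℝ) ^ (-(11 / 10) : ℝ) ∧ ‖F p‖ ≤ C)
    (p : ℕ) (hp : p.Prime) (h2 : p ≠ 2) :
    ‖y p - F p / (p : ℂ) ^ 2 - 1‖ ≤ 2 * C * (p : ℝ) ^ (-(11 / 10) : ℝ) := by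
  have h1 := ht_F hp (h p hp h2).2
  have h3 : 1 ≤ √(p : ℝ) := Real.one_le_sqrt.2 (by exact_mod_cast hp.one_le)
  have h4 := norm_sub_le (y p - 1) (F p / (p : ℂ) ^ 2)
  rw [sub_right_comm]
  nlinarith [(h p hp h2).1, norm_nonneg (F p / (p : ℂ) ^ 2)]

theorem pHTb : HTb := by
  intro C hC
  refine ⟨Real.exp (2 * C * htE), Real.exp_pos _, fun y F Y hY h => ?_⟩
  have hJ := ht_tend (f := fun p => y p - F p / (p : ℂ) ^ 2) (by linarith) (ht_J h)
  refine ⟨?_, le_of_tendsto' hJ.norm fun s => ht_le (by linarith) (ht_J h) (ht_op s)⟩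
  have h1 : Tendsto (fun s => ∑ a ∈ AY Y, (ArithmeticFunction.moebius a : ℂ) *
      (a : ℂ) ^ (2 * 0 - 2 : ℂ) * ((∏ p ∈ a.primeFactors, F p) *
        ∏ p ∈ htS s, if p ∣ a then 1 else y p)) atTop (𝓝 (HY Y 0 y F)) := by
    refine tendsto_finsetSum _ fun a _ => Tendsto.const_mul _ (Tendsto.const_mul _ ?_)
    simp only [ite_or]
    refine ht_tend (f := fun p => if p ∣ a then 1 else y p) hC.le fun p hp h2 => ?_
    split_ifs
    · rw [sub_self, norm_zero]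
      positivity
    · exact (h p hp h2).1
  refine le_of_tendsto (h1.sub hJ).norm ?_
  filter_upwards [eventually_ge_atTop ((range (Y + 1)).subtype Nat.Prime)] with s hs
  rw [ht_fin y F Y (ht_op s) fun p hp h2 hle => mem_erase.2 ⟨h2, mem_map.2
    ⟨⟨p, hp⟩, hs (mem_subtype.2 (mem_range.2 (Nat.lt_succ_of_le hle))), rfl⟩⟩,
    prod_congr rfl fun p _ => (sub_eq_neg_add (y p) _), prod_add,
    ← sum_filter_add_sum_filter_not (htS s).powerset fun T => ∏ p ∈ T, p ≤ Y,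
    sub_add_cancel_left, norm_neg]
  exact ht_tail hC.le hY h (ht_op s)

/-- the factor of `Aprod 4` -/
def haA (u : V4) (p : ℕ) : ℂ :=
  (∏ i, ∏ j ∈ Ici i, (1 - (p : ℂ) ^ (-1 - u i - u j))) *
    (1 / 2 * (∏ j, (1 - (p : ℂ) ^ (-1 / 2 - u j))⁻¹ + ∏ j, (1 + (p : ℂ) ^ (-1 / 2 - u j))⁻¹) +
      1 / (p : ℂ)) * (1 + 1 / (p : ℂ))⁻¹

theorem ha4_A (u : V4) (p : ℕ) : haA u p =
    (∏ i, ∏ j ∈ Ici i, (1 - (p : ℂ) ^ (-(1 + u i + u j)))) *
      (1 / 2 * (Fq u p 1 + Fq u p (-1)) + 1 / (p : ℂ)) * (1 + 1 / (p : ℂ))⁻¹ := by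
  have e1 : ∀ a b : ℂ, -1 - a - b = -(1 + a + b) := fun a b => by ring
  have e2 : ∀ a : ℂ, -1 / 2 - a = -(1 / 2 + a) := fun a => by ring
  simp only [haA, Fq, xs, e1, e2, one_mul, neg_one_mul, sub_neg_eq_add]

theorem ha4_loc {u : V4} (hu : ∀ j, 0 < (u j).re) {p : ℕ} (hp : p.Prime) :
    (loc4 1 0 u p * n1 0 u p - n1 0 u p / (p : ℂ) ^ 2) * (1 - (p : ℂ) ^ (-2 : ℂ))⁻¹ = haA u p := by
  have h0 : (p : ℂ) ≠ 0 := by exact_mod_cast hp.ne_zero
  have h1 : (p : ℂ) + 1 ≠ 0 := by exact_mod_cast p.succ_ne_zero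
  have h2 : (p : ℂ) - 1 ≠ 0 := sub_ne_zero.2 (by exact_mod_cast hp.ne_one)
  have h3 : ∏ j, (1 - (p : ℂ) ^ (-(1 + u j))) ≠ 0 := prod_ne_zero_iff.2 fun j _ e => by
    have h4 := Real.rpow_lt_one_of_one_lt_of_neg (x := p) (z := (-(1 + u j)).re)
      (by exact_mod_cast hp.one_lt) (by have := hu j; simp; linarith)
    rw [← norm_natCast_cpow_of_pos hp.pos, ← sub_eq_zero.1 e, norm_one] at h4
    exact lt_irrefl _ h4
  have h4 : ¬ (p : ℤ) ∣ 1 := fun h => hp.ne_one (by exact_mod_cast Int.eq_one_of_dvd_one (by simp) h)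
  have h5 : (1 - (p : ℂ) ^ (-2 : ℂ))⁻¹ = (p : ℂ) ^ 2 / ((p + 1) * (p - 1)) := by
    rw [cpow_neg, cpow_two, ← inv_div]
    congr 1
    field_simp
    ring
  rw [ha4_A, h5]
  simp only [loc4, n1, ek, ok, if_neg h4, sub_zero, add_zero, neg_zero, sub_self, mul_zero]
  field_simp
  ring

theorem pHA4 (hL : LOC4) : HA4 := by
  intro u hu
  obtain ⟨C, hC, h⟩ := hL
  have hV : ((0 : ℂ), u) ∈ V1 := ⟨by norm_num, by norm_num, fun j =>
    ⟨by linarith [hu j], by have := hu j; simp; linarith⟩⟩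
  have h1 : HasProd _ (HI u) :=
    (ht_mult (f := fun p => loc4 1 0 u p * n1 0 u p - n1 0 u p / (p : ℂ) ^ 2) (by linarith)
      (ht_J (y := fun p => loc4 1 0 u p * n1 0 u p) (F := n1 0 u)
        fun p hp h2 => (h p hp h2).2 (0, u) hV)).hasProd
  have h2 := riemannZeta_eulerProduct_hasProd (s := 2) (by norm_num)
  have h3 : HasProd (fun p : Nat.Primes => if (p : ℕ) = 2 then haA u 2 * (3 / 4) else 1)
      (haA u 2 * (3 / 4)) :=
    hasProd_single (f := fun p : Nat.Primes => if (p : ℕ) = 2 then haA u 2 * (3 / 4) else 1)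
      ⟨2, Nat.prime_two⟩ fun p hp => if_neg fun e => hp (Subtype.ext e)
  have h4 : HasProd (fun p : Nat.Primes => haA u p) (HI u * riemannZeta 2 * (haA u 2 * (3 / 4))) := by
    refine ((h1.mul h2).mul h3).congr_fun fun p => ?_
    by_cases e : (p : ℕ) = 2
    · rw [if_pos e, if_pos e, e, cpow_neg, cpow_two]
      push_cast
      ring
    · rw [if_neg e, if_neg e, mul_one, ha4_loc hu p.2]
  have h5 : Aprod 4 u = _ := h4.tprod_eq
  have h6 : (π : ℂ) ≠ 0 := by exact_mod_cast Real.pi_ne_zero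
  rw [h5, riemannZeta_two, ha4_A]
  push_cast
  field_simp
  ring

end

end Pool.Agent.Q4
end

-- part Pool.Agent.P.MP_ea46f5_nt.Q4.FIZM
section

namespace Pool.Agent.Q4

open Complex MeasureTheory Finset Pool.Agent.QM
open scoped Real

theorem izm_ind (hMUL : MUL) {h : ℝ → ℂ} {g : ℂ → ℂ} (hh : Integrable h)
    (hg : ∀ x : ℝ, g (x * I) = ∫ v : ℝ, h v * cexp (x * I * v)) (F : Finset ℤ) (ω : ℤ → ℝ)
    (f : ℤ → V4 → ℂ) (B : ℝ) (hf : ∀ k ∈ F, 0 ≤ ω k ∧ IL (cs 0) (f k)) (hB : Bd F ω f B)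
    (S : Finset (Σ _ : Fin 4, Fin 4)) :
    Bd F ω (fun k s => f k s * ∏ x ∈ S, g (s x.1 + s x.2)) ((∫ v, ‖h v‖) ^ S.card * B) ∧
      ∀ k ∈ F, IL (cs 0) fun s => f k s * ∏ x ∈ S, g (s x.1 + s x.2) := by
  classical
  induction S using Finset.induction_on with
  | empty => simpa using ⟨hB, fun k hk => (hf k hk).2⟩
  | insert a S ha ih =>
    have := hMUL F ω _ _ h g a.1 a.2 hh hg (fun k hk => ⟨(hf k hk).1, ih.2 k hk⟩) ih.1
    have e : ∀ (k : ℤ) (s : V4), f k s * ∏ x ∈ insert a S, g (s x.1 + s x.2) =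
        f k s * (∏ x ∈ S, g (s x.1 + s x.2)) * g (s a.1 + s a.2) := fun k s => by
      rw [prod_insert ha]
      ring
    simp only [e]
    rw [card_insert_of_notMem ha, pow_succ', mul_assoc]
    exact this

theorem pIZM (hMUL : MUL) (hIZF : IZF) : IZM := by
  obtain ⟨A, h, hh, hg⟩ := hIZF
  set S : Finset (Σ _ : Fin 4, Fin 4) := univ.sigma fun i => Ici i with hS
  have hN : 0 ≤ (∫ v, ‖h v‖) ^ S.card := pow_nonneg (integral_nonneg fun _ => norm_nonneg _) _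
  refine ⟨A, (∫ v, ‖h v‖) ^ S.card + 1, by linarith, fun F ω f B hf hB V => ?_⟩
  have hB0 : 0 ≤ B :=
    (sum_nonneg fun k hk => mul_nonneg (hf k hk).1 (norm_nonneg _)).trans (hB 0)
  have := (izm_ind hMUL hh hg F ω f B hf hB S).1 V
  simp only [hS, prod_sigma] at this
  refine this.trans ?_
  rw [add_mul]
  linarith

end Pool.Agent.Q4
end

-- part Pool.Agent.P.MP_ea46f5_nt.Q4.FLOC4
section

/-! LOC4: the local factors. -/

namespace Pool.Agent.Q4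

open Complex Finset Pool.Agent.QM

section abs
variable {ι : Type} {r : ι → ℝ}

theorem l4_sum {κ : Type} {k : ℕ} (s : Finset κ) {f : κ → ι → ℂ} (h : ∀ j, Og r k (f j)) :
    Og r k fun i => ∑ j ∈ s, f j i := by
  classical
  induction s using Finset.induction_on with
  | empty => exact (Og.zero r k).congr fun i => by simp
  | insert a s ha ih => exact ((h a).add ih).congr fun i => by rw [sum_insert ha]

theorem l4_prod (hr : ∀ i, 0 ≤ r i ∧ r i ≤ 1) {κ : Type} (s : Finset κ) {A b : κ → ι → ℂ}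
    (h : ∀ j, Jet r (A j) (fun _ => 0) (b j)) :
    Jet r (fun i => ∏ j ∈ s, A j i) (fun _ => 0) fun i => ∑ j ∈ s, b j i := by
  classical
  induction s using Finset.induction_on with
  | empty => exact (Jet.quad (Og.zero r 2)).congr (fun i => by simp) (fun _ => rfl) fun i => by simp
  | insert a s ha ih =>
    exact ((h a).mul hr ih).congr (fun i => by rw [prod_insert ha]) (fun i => by simp)
      fun i => by simp [sum_insert ha]

theorem l4_pairs (f : Fin 4 → Fin 4 → ℂ) : ∑ i, ∑ j ∈ Ici i, f i j =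
    f 0 0 + f 0 1 + f 0 2 + f 0 3 + f 1 1 + f 1 2 + f 1 3 + f 2 2 + f 2 3 + f 3 3 := by
  rw [Fin.sum_univ_four, show Ici (0 : Fin 4) = {0, 1, 2, 3} by decide,
    show Ici (1 : Fin 4) = {1, 2, 3} by decide, show Ici (2 : Fin 4) = {2, 3} by decide,
    show Ici (3 : Fin 4) = {3} by decide]
  simp only [mem_insert, mem_singleton, Fin.reduceEq, or_self, not_false_eq_true, sum_insert,
    sum_singleton]
  ring

theorem l4_lin (hr : ∀ i, 0 ≤ r i ∧ r i ≤ 1) {a : Fin 4 → ι → ℂ} (h : ∀ j, Og r 1 (a j)) :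
    Jet r (fun i => ∏ j, (1 - a j i)) (fun i => -∑ j, a j i)
      fun i => (∑ j, a j i) ^ 2 - ∑ j, ∑ l ∈ Ici j, a j i * a l i :=
  (((Jet.lin (h 0).neg).mul hr (Jet.lin (h 1).neg)).mul hr
    ((Jet.lin (h 2).neg).mul hr (Jet.lin (h 3).neg))).congr
    (fun i => by rw [Fin.prod_univ_four]; ring) (fun i => by rw [Fin.sum_univ_four]; ring)
    fun i => by rw [l4_pairs, Fin.sum_univ_four]; ring

theorem l4_fin {A a b : ι → ℂ} (h : Jet r A a b) (h' : Og r 3 fun i => a i + b i) :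
    Og r 3 fun i => A i - 1 :=
  (h.2.2.add h').congr fun i => by ring

theorem l4_sq {x : ℂ} {q : ℝ} (hq : q < 1) (h : ‖x‖ ≤ q) {y : ℂ} (h' : ‖y‖ ≤ q) :
    ‖x * y‖ ≤ q := by
  rw [norm_mul]
  nlinarith [norm_nonneg x, norm_nonneg y]

/-- the jet of the local factor -/
theorem l4_loc (hr : ∀ i, 0 ≤ r i ∧ r i ≤ 1) {q : ℝ} (hq : q < 1) {x : Fin 4 → ι → ℂ}
    {w y : ι → ℂ} (hx : ∀ j, Og r 1 (x j)) (bx : ∀ j i, ‖x j i‖ ≤ q)
    (hy : ∀ j, Og r 1 fun i => y i * x j i) (hw : ∀ j l, Og r 2 fun i => w i * (x j i * x l i)) :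
    Jet r (fun i => w i + (1 - w i + y i) / 2 * ∏ j, (1 - 1 * x j i)⁻¹ +
        (1 - w i - y i) / 2 * ∏ j, (1 - -1 * x j i)⁻¹) (fun i => ∑ j, y i * x j i)
      fun i => ∑ j, ∑ l ∈ Ici j, (x j i * x l i - w i * (x j i * x l i)) := by
  have h2 : ∀ j l, Og r 2 fun i => x j i * x l i := fun j l => (hx j).mul (hx l)
  have hc : ∀ j l, Og r 2 fun i => x j i * x l i - w i * (x j i * x l i) :=
    fun j l => (h2 j l).sub (hw j l)
  have ha := l4_sum univ hy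
  have hb := l4_sum univ fun j => l4_sum (Ici j) (hc j)
  have jD := l4_prod hr univ fun j => Jet.inv2 hr hq (h2 j j) fun i => l4_sq hq (bx j i) (bx j i)
  have hD := jD.bdd hr
  have hD1 : Og r 2 fun i => ∏ j, (1 - x j i * x j i)⁻¹ - 1 :=
    (jD.2.1.add (jD.2.2.mono hr (by norm_num))).congr fun i => by ring
  have m1 : Og r 2 fun i => x 2 i * x 2 i + x 3 i * x 3 i - x 2 i * x 2 i * (x 3 i * x 3 i) :=
    ((h2 2 2).add (h2 3 3)).sub (((h2 2 2).mul (h2 3 3)).mono hr (by norm_num))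
  have m0 := ((h2 1 1).add m1).sub (((h2 1 1).mul m1).mono hr (by norm_num))
  have hN : Og r 4 _ := ((((hc 0 1).mul (h2 2 3)).sub ((hc 0 0).mul m0)).sub
    ((hc 1 1).mul m1)).sub ((hc 2 2).mul (h2 3 3))
  have hE : Og r 3 _ := ((hy 0).mul (((h2 1 2).add (h2 1 3)).add (h2 2 3))).add
    ((hy 1).mul (h2 2 3))
  have t1 : Og r 3 _ := (hb.mul hD1).mono hr (by norm_num)
  have t2 : Og r 3 _ := (hN.mul hD).mono hr (by norm_num)
  have t3 : Og r 3 _ := ha.mul hD1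
  have t4 : Og r 3 _ := hE.mul hD
  refine ⟨ha, hb, (((t1.add t2).add t3).add t4).congr fun i => ?_⟩
  have n1 : ∀ j, 1 - x j i ≠ 0 := fun j => one_sub_ne hq (bx j i)
  have n2 : ∀ j, 1 + x j i ≠ 0 := fun j => by
    simpa using one_sub_ne hq (x := -x j i) (by rw [norm_neg]; exact bx j i)
  have n3 : ∀ j, 1 - x j i * x j i ≠ 0 := fun j => one_sub_ne hq (l4_sq hq (bx j i) (bx j i))
  have e1 : ∏ j, (1 - 1 * x j i)⁻¹ = (∏ j, (1 + x j i)) * ∏ j, (1 - x j i * x j i)⁻¹ := by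
    rw [← prod_mul_distrib]
    refine prod_congr rfl fun j _ => ?_
    rw [one_mul, show 1 - x j i * x j i = (1 + x j i) * (1 - x j i) by ring, mul_inv,
      mul_inv_cancel_left₀ (n2 j)]
  have e2 : ∏ j, (1 - -1 * x j i)⁻¹ = (∏ j, (1 - x j i)) * ∏ j, (1 - x j i * x j i)⁻¹ := by
    rw [← prod_mul_distrib]
    refine prod_congr rfl fun j _ => ?_
    rw [neg_one_mul, sub_neg_eq_add, show 1 - x j i * x j i = (1 - x j i) * (1 + x j i) by ring,
      mul_inv, mul_inv_cancel_left₀ (n1 j)]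
  have e3 : (∏ j, (1 - x j i * x j i)) * ∏ j, (1 - x j i * x j i)⁻¹ = 1 := by
    rw [← prod_mul_distrib]
    exact prod_eq_one fun j _ => mul_inv_cancel₀ (n3 j)
  beta_reduce
  rw [e1, e2]
  generalize ∏ j, (1 - x j i * x j i)⁻¹ = D at e3 ⊢
  simp only [l4_pairs]
  simp only [Fin.prod_univ_four, Fin.sum_univ_four] at e3 ⊢
  linear_combination (1 - w i) * e3

end abs

theorem l4_r {p : ℕ} (hp : p.Prime) (h2 : p ≠ 2) :
    0 ≤ (p : ℝ) ^ (-(11 / 30) : ℝ) ∧ (p : ℝ) ^ (-(11 / 30) : ℝ) ≤ 7 / 10 :=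
  ⟨by positivity, rpow_neg_le (three_le_of hp h2) (by norm_num)⟩

theorem l4_le {p : ℕ} (hp : p.Prime) (k : ℕ) {s : ℂ} (h : s.re ≤ -(11 / 30) * k) :
    ‖(p : ℂ) ^ s‖ ≤ ((p : ℝ) ^ (-(11 / 30) : ℝ)) ^ k := by
  rw [← Real.rpow_natCast, ← Real.rpow_mul (Nat.cast_nonneg p)]
  exact norm_cp_le hp.pos h

theorem l4_cube (p : ℕ) : ((p : ℝ) ^ (-(11 / 30) : ℝ)) ^ 3 = (p : ℝ) ^ (-(11 / 10) : ℝ) := by
  rw [← Real.rpow_natCast, ← Real.rpow_mul (Nat.cast_nonneg p)]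
  norm_num

theorem l4_inv {p : ℕ} : (1 : ℂ) / p = (p : ℂ) ^ (-1 : ℂ) := by
  rw [cpow_neg_one, one_div]

theorem l4_ok {p : ℕ} (hp : p.Prime) (k : ℤ) (z u : ℂ) : ok k z p * xs u p =
    (jacobiSym k p : ℂ) * ((p : ℂ) ^ (-(1 + (u - z))) - (p : ℂ) ^ (-(1 + u + z))) := by
  rw [ok, xs, show -(1 + (u - z)) = -(1 / 2 : ℂ) + z + -(1 / 2 + u) by ring,
    show -(1 + u + z) = -(1 / 2 : ℂ) + -z + -(1 / 2 + u) by ring]
  simp only [← cp_add hp.pos]
  ring

theorem l4_ek {p : ℕ} (hp : p.Prime) (k : ℤ) (z u v : ℂ) : (1 - ek k z p) * (xs u p * xs v p) =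
    (1 - (jacobiSym k p : ℂ) ^ 2) * ((p : ℂ) ^ (-(1 + (u - z))) * (p : ℂ) ^ (-(1 + (v - z)))) +
      (jacobiSym k p : ℂ) ^ 2 * ((p : ℂ) ^ (-1 : ℂ) * (xs u p * xs v p)) := by
  have hg : k.gcd p ≠ 1 ↔ (p : ℤ) ∣ k := by
    rw [Int.natCast_dvd, Int.gcd, Int.natAbs_natCast, Nat.gcd_comm]
    exact (hp.coprime_iff_not_dvd.not.trans not_not)
  unfold ek
  split_ifs with h
  · rw [jacobiSym.eq_zero_iff.2 ⟨hp.ne_zero, hg.2 h⟩]
    simp only [xs, cp_add hp.pos, sub_sub_cancel, Int.cast_zero]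
    rw [show 2 * z - 1 + (-(1 / 2 + u) + -(1 / 2 + v)) = -(1 + (u - z)) + -(1 + (v - z)) by ring]
    ring
  · have h1 : ((jacobiSym k p : ℤ) : ℂ) ^ 2 = 1 := by
      exact_mod_cast jacobiSym.sq_one (not_not.1 (mt hg.1 h))
    rw [h1, l4_inv]
    ring

theorem l4_chi (k : ℤ) (p : ℕ) : ‖((jacobiSym k p : ℤ) : ℂ)‖ ≤ 1 := by
  rcases jacobiSym.trichotomy k p with h | h | h <;> simp [h]

theorem l4_eq (k : ℤ) (z : ℂ) (u : V4) (p : ℕ) : loc4 k z u p =
    (1 - ek k z p) + (1 - (1 - ek k z p) + ok k z p) / 2 * ∏ j, (1 - 1 * xs (u j) p)⁻¹ +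
      (1 - (1 - ek k z p) - ok k z p) / 2 * ∏ j, (1 - -1 * xs (u j) p)⁻¹ := by
  simp only [loc4, Fq, sub_sub_cancel]

/-- the common part of the two cases -/
theorem l4_jet {ι : Type} (p : ι → ℕ) (k : ι → ℤ) (z : ι → ℂ) (u : ι → V4)
    (hp : ∀ i, (p i).Prime ∧ p i ≠ 2) (hu : ∀ i j, -(1 / 40) < (u i j).re)
    (ha : ∀ i j, -(11 / 20) < (u i j - z i).re) (hz : ∀ i, -(1 / 40) < (z i).re) :
    Jet (fun i => (p i : ℝ) ^ (-(11 / 30) : ℝ)) (fun i => loc4 (k i) (z i) (u i) (p i))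
      (fun i => ∑ j, (jacobiSym (k i) (p i) : ℂ) *
        ((p i : ℂ) ^ (-(1 + (u i j - z i))) - (p i : ℂ) ^ (-(1 + u i j + z i))))
      fun i => ∑ j, ∑ l ∈ Ici j, (xs (u i j) (p i) * xs (u i l) (p i) -
        ((1 - (jacobiSym (k i) (p i) : ℂ) ^ 2) *
          ((p i : ℂ) ^ (-(1 + (u i j - z i))) * (p i : ℂ) ^ (-(1 + (u i l - z i)))) +
        (jacobiSym (k i) (p i) : ℂ) ^ 2 *
          ((p i : ℂ) ^ (-1 : ℂ) * (xs (u i j) (p i) * xs (u i l) (p i))))) := by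
  have hr := fun i => l4_r (hp i).1 (hp i).2
  have hr' : ∀ i, 0 ≤ (p i : ℝ) ^ (-(11 / 30) : ℝ) ∧ (p i : ℝ) ^ (-(11 / 30) : ℝ) ≤ 1 :=
    fun i => ⟨(hr i).1, (hr i).2.trans (by norm_num)⟩
  have bx : ∀ j i, ‖xs (u i j) (p i)‖ ≤ ((p i : ℝ) ^ (-(11 / 30) : ℝ)) ^ 1 := fun j i =>
    l4_le (hp i).1 1 (by have := hu i j; simp; linarith)
  have hx := fun j => Og.of_le (bx j)
  have hχ : Og (fun i => (p i : ℝ) ^ (-(11 / 30) : ℝ)) 0 fun i => (jacobiSym (k i) (p i) : ℂ) :=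
    Og.of_le fun i => by rw [pow_zero]; exact l4_chi _ _
  have hξ : ∀ j, Og (fun i => (p i : ℝ) ^ (-(11 / 30) : ℝ)) 1
      fun i => (p i : ℂ) ^ (-(1 + (u i j - z i))) := fun j => Og.of_le fun i =>
    l4_le (hp i).1 1 (by have := ha i j; simp at this ⊢; linarith)
  have hζ : ∀ j, Og (fun i => (p i : ℝ) ^ (-(11 / 30) : ℝ)) 1
      fun i => (p i : ℂ) ^ (-(1 + u i j + z i)) := fun j => Og.of_le fun i =>
    l4_le (hp i).1 1 (by have := hu i j; have := hz i; simp; linarith)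
  have ht : Og (fun i => (p i : ℝ) ^ (-(11 / 30) : ℝ)) 0 fun i => (p i : ℂ) ^ (-1 : ℂ) :=
    Og.of_le fun i => l4_le (hp i).1 0 (by simp)
  refine (l4_loc hr' (q := 7 / 10) (by norm_num) (w := fun i => 1 - ek (k i) (z i) (p i))
    (y := fun i => ok (k i) (z i) (p i)) hx (fun j i => (bx j i).trans (by simpa using (hr i).2))
    (fun j => (hχ.mul ((hξ j).sub (hζ j))).congr fun i => l4_ok (hp i).1 _ _ _)
    fun j l => (((((Og.const _ 1).sub (hχ.mul hχ)).mul ((hξ j).mul (hξ l))).add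
      ((hχ.mul hχ).mul (ht.mul ((hx j).mul (hx l))))).congr fun i => by
        rw [l4_ek (hp i).1, sq])).congr (fun i => l4_eq _ _ _ _)
    (fun i => by simp only [l4_ok (hp i).1]) fun i => by simp only [l4_ek (hp i).1]

theorem l4_out {ι : Type} {p : ι → ℕ} {A F : ι → ℂ}
    (h : Og (fun i => (p i : ℝ) ^ (-(11 / 30) : ℝ)) 3 fun i => A i - 1)
    (h' : Og (fun i => (p i : ℝ) ^ (-(11 / 30) : ℝ)) 0 F) :
    ∃ C : ℝ, 0 < C ∧ ∀ i, ‖A i - 1‖ ≤ C * (p i : ℝ) ^ (-(11 / 10) : ℝ) ∧ ‖F i‖ ≤ C := by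
  obtain ⟨C, h0, h⟩ := h
  obtain ⟨D, h1, h'⟩ := h'
  refine ⟨C + D + 1, by linarith, fun i => ⟨(h i).trans ?_, (h' i).trans (by simp; linarith)⟩⟩
  rw [l4_cube]
  exact mul_le_mul_of_nonneg_right (by linarith) (by positivity)

theorem l4_k {ι : Type} (p : ι → ℕ) (k : ι → ℤ) (z : ι → ℂ) (u : ι → V4)
    (hp : ∀ i, (p i).Prime ∧ p i ≠ 2) (hV : ∀ i, (z i, u i) ∈ Vk) : ∃ C : ℝ, 0 < C ∧ ∀ i,
      ‖loc4 (k i) (z i) (u i) (p i) * fk (k i) (z i) (u i) (p i) - 1‖ ≤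
        C * (p i : ℝ) ^ (-(11 / 10) : ℝ) ∧ ‖fk (k i) (z i) (u i) (p i)‖ ≤ C := by
  have hz : ∀ i, 1 / 2 < (z i).re := fun i => (hV i).1
  have hu : ∀ i j, 1 / 6 < (u i j).re := fun i j => ((hV i).2.2 j).1
  have ha : ∀ i j, -(11 / 20) < (u i j - z i).re := fun i j => ((hV i).2.2 j).2
  have hr := fun i => l4_r (hp i).1 (hp i).2
  have hr' : ∀ i, 0 ≤ (p i : ℝ) ^ (-(11 / 30) : ℝ) ∧ (p i : ℝ) ^ (-(11 / 30) : ℝ) ≤ 1 :=
    fun i => ⟨(hr i).1, (hr i).2.trans (by norm_num)⟩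
  have jl := l4_jet p k z u hp (fun i j => by linarith [hu i j]) ha fun i => by linarith [hz i]
  have hχ : Og (fun i => (p i : ℝ) ^ (-(11 / 30) : ℝ)) 0 fun i => (jacobiSym (k i) (p i) : ℂ) :=
    Og.of_le fun i => by rw [pow_zero]; exact l4_chi _ _
  have bξ : ∀ j i, ‖(p i : ℂ) ^ (-(1 + (u i j - z i)))‖ ≤ ((p i : ℝ) ^ (-(11 / 30) : ℝ)) ^ 1 :=
    fun j i => l4_le (hp i).1 1 (by have := ha i j; simp at this ⊢; linarith)
  have bξ' : ∀ j i, ‖(p i : ℂ) ^ (-(1 + (u i j - z i)))‖ ≤ 7 / 10 :=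
    fun j i => (bξ j i).trans (by simpa using (hr i).2)
  have hξ := fun j => Og.of_le (bξ j)
  have hζ : ∀ j, Og (fun i => (p i : ℝ) ^ (-(11 / 30) : ℝ)) 3
      fun i => (p i : ℂ) ^ (-(1 + u i j + z i)) := fun j => Og.of_le fun i =>
    l4_le (hp i).1 3 (by have := hu i j; have := hz i; simp; linarith)
  have hx : ∀ j l, Og (fun i => (p i : ℝ) ^ (-(11 / 30) : ℝ)) 3
      fun i => xs (u i j) (p i) * xs (u i l) (p i) := fun j l => Og.of_le fun i => by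
    rw [xs, xs, cp_add (hp i).1.pos]
    exact l4_le (hp i).1 3 (by have := hu i j; have := hu i l; simp; linarith)
  have ht : Og (fun i => (p i : ℝ) ^ (-(11 / 30) : ℝ)) 0 fun i => (p i : ℂ) ^ (-1 : ℂ) :=
    Og.of_le fun i => l4_le (hp i).1 0 (by simp)
  have j1 := l4_lin hr' fun j => hχ.mul (hξ j)
  have j2 := l4_prod hr' univ fun j => l4_prod hr' (Ici j) fun l =>
    Jet.inv2 hr' (q := 7 / 10) (by norm_num) ((hξ j).mul (hξ l))
      fun i => l4_sq (by norm_num) (bξ' j i) (bξ' l i)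
  have jf : Jet _ (fun i => fk (k i) (z i) (u i) (p i)) _ _ := (j1.mul hr' j2).congr
    (fun i => by
      simp only [fk, jo, if_pos ((hp i).1.odd_of_ne_two (hp i).2), div_eq_mul_inv,
        prod_inv_distrib, cp_add (hp i).1.pos]
      congr 2
      refine prod_congr rfl fun j _ => prod_congr rfl fun l _ => ?_
      congr 2
      ring) (fun _ => rfl) fun _ => rfl
  have hβ := l4_sum univ fun j => hχ.mul (hζ j)
  have hα := l4_sum univ fun j => hχ.mul (hξ j)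
  have hh := l4_sum univ fun j => l4_sum (Ici j) (hx j)
  refine l4_out (l4_fin (jl.mul hr' jf) ((((hh.sub hβ).sub (((hχ.mul hχ).mul ht).mul hh)).add
    ((hβ.mul hα).mono hr' (by norm_num))).congr fun i => ?_)) (jf.bdd hr')
  simp only [l4_pairs]
  simp only [Fin.sum_univ_four]
  ring

theorem l4_1 {ι : Type} (p : ι → ℕ) (z : ι → ℂ) (u : ι → V4)
    (hp : ∀ i, (p i).Prime ∧ p i ≠ 2) (hV : ∀ i, (z i, u i) ∈ V1) : ∃ C : ℝ, 0 < C ∧ ∀ i,
      ‖loc4 1 (z i) (u i) (p i) * n1 (z i) (u i) (p i) - 1‖ ≤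
        C * (p i : ℝ) ^ (-(11 / 10) : ℝ) ∧ ‖n1 (z i) (u i) (p i)‖ ≤ C := by
  have hz : ∀ i, -(1 / 40) < (z i).re := fun i => (hV i).1
  have hu : ∀ i j, -(1 / 40) < (u i j).re := fun i j => ((hV i).2.2 j).1
  have ha : ∀ i j, -(9 / 20) < (u i j - z i).re := fun i j => ((hV i).2.2 j).2
  have hr := fun i => l4_r (hp i).1 (hp i).2
  have hr' : ∀ i, 0 ≤ (p i : ℝ) ^ (-(11 / 30) : ℝ) ∧ (p i : ℝ) ^ (-(11 / 30) : ℝ) ≤ 1 :=
    fun i => ⟨(hr i).1, (hr i).2.trans (by norm_num)⟩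
  have jl := l4_jet p (fun _ => 1) z u hp hu (fun i j => by linarith [ha i j]) hz
  have hξ : ∀ j, Og (fun i => (p i : ℝ) ^ (-(11 / 30) : ℝ)) 1
      fun i => (p i : ℂ) ^ (-(1 + (u i j - z i))) := fun j => Og.of_le fun i =>
    l4_le (hp i).1 1 (by have := ha i j; simp at this ⊢; linarith)
  have hξ2 : ∀ j l, Og (fun i => (p i : ℝ) ^ (-(11 / 30) : ℝ)) 3 fun i =>
      (p i : ℂ) ^ (-(1 + (u i j - z i))) * (p i : ℂ) ^ (-(1 + (u i l - z i))) :=
    fun j l => Og.of_le fun i => by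
      rw [cp_add (hp i).1.pos]
      exact l4_le (hp i).1 3 (by have := ha i j; have := ha i l; simp at *; linarith)
  have bζ : ∀ j i, ‖(p i : ℂ) ^ (-(1 + u i j + z i))‖ ≤ ((p i : ℝ) ^ (-(11 / 30) : ℝ)) ^ 2 :=
    fun j i => l4_le (hp i).1 2 (by have := hu i j; have := hz i; simp; linarith)
  have hζ := fun j => Og.of_le (bζ j)
  have hx : ∀ j l, Og (fun i => (p i : ℝ) ^ (-(11 / 30) : ℝ)) 2
      fun i => xs (u i j) (p i) * xs (u i l) (p i) := fun j l => Og.of_le fun i => by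
    rw [xs, xs, cp_add (hp i).1.pos]
    exact l4_le (hp i).1 2 (by have := hu i j; have := hu i l; simp; linarith)
  have ht : Og (fun i => (p i : ℝ) ^ (-(11 / 30) : ℝ)) 1 fun i => (p i : ℂ) ^ (-1 : ℂ) :=
    Og.of_le fun i => l4_le (hp i).1 1 (by simp; norm_num)
  have j1 := l4_lin hr' hξ
  have j2 := l4_prod hr' univ fun j => l4_prod hr' (Ici j) fun l => Jet.quad (hx j l).neg
  have j3 := l4_prod hr' univ fun j => Jet.inv2 hr' (q := 7 / 10) (by norm_num) (hζ j)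
    fun i => (bζ j i).trans (by nlinarith [hr i])
  have jf : Jet _ (fun i => n1 (z i) (u i) (p i)) _ _ := ((j1.mul hr' j2).mul hr' j3).congr
    (fun i => by
      simp only [n1, xs, div_eq_mul_inv, prod_inv_distrib, cp_add (hp i).1.pos, ← sub_eq_add_neg]
      congr 2
      refine prod_congr rfl fun j _ => prod_congr rfl fun l _ => ?_
      congr 2
      ring) (fun _ => rfl) fun _ => rfl
  have hβ := l4_sum univ hζ
  have hα := l4_sum univ hξ
  have hh := l4_sum univ fun j => l4_sum (Ici j) (hx j)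
  have h2 := l4_sum univ fun j => l4_sum (Ici j) (hξ2 j)
  refine l4_out (l4_fin (jl.mul hr' jf) ((((hα.mul hβ).sub (ht.mul hh)).sub h2).congr
    fun i => ?_)) (jf.bdd hr')
  simp only [l4_pairs]
  simp only [Fin.sum_univ_four, jacobiSym.one_left, Int.cast_one]
  ring

theorem pLOC4 : LOC4 := by
  obtain ⟨C, h0, h⟩ := l4_k
    (ι := {q : ℕ × ℤ × ℂ × V4 // (q.1.Prime ∧ q.1 ≠ 2) ∧ q.2.2 ∈ Vk}) (fun i => i.1.1)
    (fun i => i.1.2.1) (fun i => i.1.2.2.1) (fun i => i.1.2.2.2) (fun i => i.2.1) fun i => i.2.2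
  obtain ⟨D, h1, h'⟩ := l4_1
    (ι := {q : ℕ × ℂ × V4 // (q.1.Prime ∧ q.1 ≠ 2) ∧ q.2 ∈ V1}) (fun i => i.1.1)
    (fun i => i.1.2.1) (fun i => i.1.2.2) (fun i => i.2.1) fun i => i.2.2
  refine ⟨C + D, by linarith, fun p hp h2 => ⟨fun k x hx => ?_, fun x hx => ?_⟩⟩
  · have := h ⟨(p, k, x), ⟨hp, h2⟩, hx⟩
    exact ⟨this.1.trans (mul_le_mul_of_nonneg_right (by linarith) (by positivity)),
      this.2.trans (by linarith)⟩
  · have := h' ⟨(p, x), ⟨hp, h2⟩, hx⟩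
    exact ⟨this.1.trans (mul_le_mul_of_nonneg_right (by linarith) (by positivity)),
      this.2.trans (by linarith)⟩

end Pool.Agent.Q4
end
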