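import Pool.Agent.K.MP_ea46f5_nt.C23
import Pool.Agent.K.MP_ea46f5_nt.C1
import Pool.Agent.K.MP_ea46f5_nt.C8
import Pool.Agent.K.MP_ea46f5_nt.C22
import Pool.Agent.K.MP_ea46f5_nt.C21
import Pool.Agent.K.MP_ea46f5_nt.C11

-- part Pool.Agent.P.MP_ea46f5_nt.Q4.FLOD
section

namespace Pool.Agent.Q4

open Complex MeasureTheory Finset Pool.Agent.QM
open scoped Real ComplexConjugate

section
variable {E : Type} [NormedAddCommGroup E] [NormedSpace ℂ E]

theorem lod_pow (p : ℕ) (hp : p ≠ 0) {f : E → ℂ} {x : E} (hf : DifferentiableAt ℂ f x) :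
    DifferentiableAt ℂ (fun t => (p : ℂ) ^ f t) x :=
  hf.const_cpow (Or.inl (by exact_mod_cast hp))

theorem lod_div {f g : E → ℂ} {x : E} (hf : DifferentiableAt ℂ f x)
    (hg : DifferentiableAt ℂ g x) (h : g x ≠ 0) : DifferentiableAt ℂ (fun t => f t / g t) x := by
  simp only [div_eq_mul_inv]
  exact hf.fun_mul (hg.fun_inv h)

theorem lod_prod {ι : Type} (s : Finset ι) {f : ι → E → ℂ} {x : E}
    (h : ∀ i ∈ s, DifferentiableAt ℂ (f i) x) :
    DifferentiableAt ℂ (fun t => ∏ i ∈ s, f i t) x := by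
  classical
  exact (HasFDerivAt.finsetProd fun i hi => (h i hi).hasFDerivAt).differentiableAt

end

theorem lod_Fq (p : ℕ) (hp : 2 ≤ p) (y : ℂ) (hy : ‖y‖ ≤ 1) (x : ℂ × V4)
    (hx : ∀ j, -(1 / 2) < (x.2 j).re) :
    DifferentiableAt ℂ (fun t : ℂ × V4 => Fq t.2 p y) x := by
  unfold Fq xs
  refine lod_prod _ fun j _ => DifferentiableAt.fun_inv ((differentiableAt_const _).fun_sub
    ((lod_pow p (by omega) (by fun_prop)).const_mul _)) ?_
  rw [mul_comm]
  exact ha_ne p hp _ (by have := hx j; simp only [add_re]; norm_num; linarith) y hy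

theorem lod_loc4 (k : ℤ) (p : ℕ) (hp : 2 ≤ p) (x : ℂ × V4) (hx : ∀ j, -(1 / 2) < (x.2 j).re) :
    DifferentiableAt ℂ (fun t : ℂ × V4 => loc4 k t.1 t.2 p) x := by
  have hp0 : p ≠ 0 := by omega
  have hek : DifferentiableAt ℂ (fun t : ℂ × V4 => ek k t.1 p) x := by
    unfold ek
    split_ifs
    · exact (differentiableAt_const _).sub (lod_pow p hp0 (by fun_prop))
    · exact differentiableAt_const _
  have hok : DifferentiableAt ℂ (fun t : ℂ × V4 => ok k t.1 p) x := by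
    unfold ok
    exact (differentiableAt_const _).mul
      ((lod_pow p hp0 (by fun_prop)).sub (lod_pow p hp0 (by fun_prop)))
  unfold loc4
  exact (((differentiableAt_const _).fun_sub hek).fun_add
    ((lod_div (hek.fun_add hok) (differentiableAt_const _) two_ne_zero).fun_mul
      (lod_Fq p hp 1 (by simp) x hx))).fun_add
    ((lod_div (hek.fun_sub hok) (differentiableAt_const _) two_ne_zero).fun_mul
      (lod_Fq p hp (-1) (by simp) x hx))

theorem pLOD : LOD := by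
  refine ⟨?_, ?_, fun p hp => ⟨fun k => ⟨fun x hx => ?_, fun x hx => ?_⟩, fun x hx => ?_,
    fun x hx => ?_⟩⟩
  · unfold Vk
    simp only [Set.ofPred_and, Set.ofPred_forall]
    refine IsOpen.inter ?_ (IsOpen.inter ?_ (isOpen_iInter_of_finite fun j => IsOpen.inter ?_ ?_))
      <;> exact isOpen_lt (by fun_prop) (by fun_prop)
  · unfold V1
    simp only [Set.ofPred_and, Set.ofPred_forall]
    refine IsOpen.inter ?_ (IsOpen.inter ?_ (isOpen_iInter_of_finite fun j => IsOpen.inter ?_ ?_))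
      <;> exact isOpen_lt (by fun_prop) (by fun_prop)
  · exact lod_loc4 k p hp.two_le x fun j => by linarith [(hx.2.2 j).1]
  · unfold fk
    refine lod_div (lod_prod _ fun j _ => (differentiableAt_const _).fun_sub
      ((lod_pow p hp.ne_zero (by fun_prop)).const_mul _))
      (lod_prod _ fun i _ => lod_prod _ fun j _ => (differentiableAt_const _).fun_sub
        (lod_pow p hp.ne_zero (by fun_prop))) ?_
    refine prod_ne_zero_iff.2 fun i _ => prod_ne_zero_iff.2 fun j _ => ha_ne1 p hp.two_le _ ?_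
    have h1 := (hx.2.2 i).2
    have h2 := (hx.2.2 j).2
    simp only [add_re, re_ofNat]
    linarith
  · exact lod_loc4 1 p hp.two_le x fun j => by linarith [(hx.2.2 j).1]
  · unfold n1
    refine lod_div ((lod_prod _ fun j _ => (differentiableAt_const _).fun_sub
      (lod_pow p hp.ne_zero (by fun_prop))).fun_mul
      (lod_prod _ fun i _ => lod_prod _ fun j _ => (differentiableAt_const _).fun_sub
        (lod_pow p hp.ne_zero (by fun_prop))))
      (lod_prod _ fun j _ => (differentiableAt_const _).fun_sub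
        (lod_pow p hp.ne_zero (by fun_prop))) ?_
    refine prod_ne_zero_iff.2 fun j _ => ha_ne1 p hp.two_le _ ?_
    have h1 := (hx.2.2 j).1
    have h2 := hx.1
    simp only [add_re, one_re]
    linarith

theorem lod_sum (C : ℝ) : Summable fun p : Nat.Primes => C * ((p : ℕ) : ℝ) ^ (-(11 / 10) : ℝ) :=
  (Nat.Primes.summable_rpow.2 (by norm_num)).mul_left C

theorem lod_odd {Y a p : ℕ} (ha : a ∈ AY Y) (hp : p ∈ a.primeFactors) : p.Prime ∧ p ≠ 2 := by
  refine ⟨Nat.prime_of_mem_primeFactors hp, fun h => ?_⟩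
  have h1 := Nat.dvd_of_mem_primeFactors hp
  rw [h] at h1
  exact Nat.not_even_iff_odd.2 (mem_filter.1 ha).2 (even_iff_two_dvd.2 h1)

theorem pHTa (hPRH : PRH) : HTa := by
  intro C hC
  obtain ⟨B, hB⟩ := pow_unbounded_of_one_lt C (one_lt_two : (1 : ℝ) < 2)
  refine ⟨Real.exp (∑' p : Nat.Primes, C * ((p : ℕ) : ℝ) ^ (-(11 / 10) : ℝ)), 12 + B + 1,
    Real.exp_pos _, fun U y F Y hU h7 h => ?_⟩
  have key := fun a : ℕ => hPRH (ℂ × V4) U
    (fun p x => if (p : ℕ) = 2 ∨ (p : ℕ) ∣ a then 1 else y p x) _ hU (lod_sum C)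
    (fun p x hx => by
      split_ifs with hc
      · exact differentiableAt_const _
      · exact (h p p.2 fun e => hc (Or.inl e)).1 x hx)
    (fun p x hx => by
      split_ifs with hc
      · rw [sub_self, norm_zero]
        positivity
      · exact ((h p p.2 fun e => hc (Or.inl e)).2.2 x hx).1)
  refine ⟨fun x hx => ?_, fun x hx => ?_⟩
  · unfold HY HP
    refine DifferentiableAt.fun_sum fun a ha => DifferentiableAt.fun_mul
      ((lod_pow a ?_ (by fun_prop)).const_mul _) (DifferentiableAt.fun_mul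
        (lod_prod _ fun p hp => (h p (lod_odd ha hp).1 (lod_odd ha hp).2).2.1 x hx)
        ((key a).1 x hx))
    have := (mem_Icc.1 (mem_filter.1 ha).1).1
    omega
  · obtain ⟨M, hM⟩ : ∃ M, M = Real.exp (∑' p : Nat.Primes, C * ((p : ℕ) : ℝ) ^ (-(11 / 10) : ℝ)) :=
      ⟨_, rfl⟩
    have hM0 : 0 < M := hM ▸ Real.exp_pos _
    rw [← hM] at key ⊢
    have h1 : ∀ a ∈ AY Y, ‖(ArithmeticFunction.moebius a : ℂ) * (a : ℂ) ^ (2 * x.1 - 2) *
        HP (fun p => y p x) (fun p => F p x) a‖ ≤ (Y : ℝ) ^ 12 * ((Y : ℝ) ^ B * M) := by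
      intro a ha
      obtain ⟨a1, a2⟩ := mem_Icc.1 (mem_filter.1 ha).1
      have a3 : (1 : ℝ) ≤ a := by exact_mod_cast a1
      have a4 : (a : ℝ) ≤ Y := by exact_mod_cast a2
      have e1 : ‖(ArithmeticFunction.moebius a : ℂ)‖ ≤ 1 := by
        rw [Complex.norm_intCast]
        exact_mod_cast ArithmeticFunction.abs_moebius_le_one
      have e2 : ‖(a : ℂ) ^ (2 * x.1 - 2)‖ ≤ (Y : ℝ) ^ 12 := by
        rw [Complex.norm_natCast_cpow_of_pos a1]
        have e3 : (2 * x.1 - 2).re ≤ (12 : ℕ) := by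
          have := h7 x hx
          simp only [sub_re, mul_re, re_ofNat, im_ofNat, zero_mul, sub_zero]
          push_cast
          linarith
        refine (Real.rpow_le_rpow_of_exponent_le a3 e3).trans ?_
        rw [Real.rpow_natCast]
        exact pow_le_pow_left₀ (by linarith) a4 12
      have e3 : ‖∏ p ∈ a.primeFactors, F p x‖ ≤ (Y : ℝ) ^ B := by
        rw [norm_prod]
        have e4 : ∏ p ∈ a.primeFactors, ‖F p x‖ ≤ ∏ p ∈ a.primeFactors, (p : ℝ) ^ B :=
          prod_le_prod (fun _ _ => norm_nonneg _) fun p hp =>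
            ((h p (lod_odd ha hp).1 (lod_odd ha hp).2).2.2 x hx).2.trans (hB.le.trans
              (pow_le_pow_left₀ zero_le_two (by exact_mod_cast (lod_odd ha hp).1.two_le) B))
        refine e4.trans ?_
        rw [prod_pow, ← Nat.cast_prod]
        refine pow_le_pow_left₀ (Nat.cast_nonneg _) (le_trans ?_ a4) B
        exact_mod_cast Nat.le_of_dvd a1 (Nat.prod_primeFactors_dvd a)
      unfold HP
      rw [norm_mul, norm_mul, norm_mul]
      exact mul_le_mul ((mul_le_of_le_one_left (norm_nonneg _) e1).trans e2)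
        (mul_le_mul e3 ((key a).2 x hx).2 (norm_nonneg _) (by positivity)) (by positivity)
        (by positivity)
    have h2 : ((AY Y).card : ℝ) ≤ Y := by
      have := card_filter_le (Icc 1 Y) Odd
      rw [Nat.card_Icc, Nat.add_sub_cancel] at this
      exact_mod_cast this
    unfold HY
    refine ((norm_sum_le _ _).trans (sum_le_card_nsmul _ _ _ h1)).trans ?_
    rw [nsmul_eq_mul]
    refine (mul_le_mul_of_nonneg_right h2 (by positivity)).trans (le_of_eq ?_)
    ring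

theorem lod_V1 {u : V4} (hu : ∀ j, 0 ≤ (u j).re) : ((0, u) : ℂ × V4) ∈ V1 := by
  refine ⟨by simp, by simp, fun j => ⟨?_, ?_⟩⟩
  · linarith [hu j]
  · simp only [sub_zero]
    linarith [hu j]

theorem pHB4 (hPRH : PRH) (hLOC4 : LOC4) (hLOD : LOD) (hHTa : HTa) (hHTb : HTb) : HB4 := by
  obtain ⟨C, hC, hL⟩ := hLOC4
  obtain ⟨o1, o2, hD⟩ := hLOD
  obtain ⟨C₁, B, hC₁, ha⟩ := hHTa C hC
  obtain ⟨C₂, hC₂, hb⟩ := hHTb C hC
  have hcont : ContinuousOn HI {u | ∀ j, 0 ≤ (u j).re} := by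
    have key := hPRH (ℂ × V4) V1 (fun p x => if (p : ℕ) = 2 then 1 else
        loc4 1 x.1 x.2 p * n1 x.1 x.2 p - n1 x.1 x.2 p / ((p : ℕ) : ℂ) ^ 2) _ o2 (lod_sum (2 * C))
      (fun p x hx => by
        split_ifs with hc
        · exact differentiableAt_const _
        · exact (((hD p p.2).2.1 x hx).fun_mul ((hD p p.2).2.2 x hx)).fun_sub
            (lod_div ((hD p p.2).2.2 x hx) (differentiableAt_const _)
              (pow_ne_zero 2 (by exact_mod_cast p.2.ne_zero))))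
      (fun p x hx => by
        split_ifs with hc
        · rw [sub_self, norm_zero]
          positivity
        · obtain ⟨e1, e2⟩ := (hL p p.2 hc).2 x hx
          have p1 : (1 : ℝ) ≤ ((p : ℕ) : ℝ) := by exact_mod_cast p.2.one_le
          have e3 : ‖n1 x.1 x.2 p / ((p : ℕ) : ℂ) ^ 2‖ ≤ C * ((p : ℕ) : ℝ) ^ (-(11 / 10) : ℝ) := by
            rw [norm_div, norm_pow, Complex.norm_natCast, div_eq_mul_inv]
            refine mul_le_mul e2 ?_ (by positivity) hC.le
            rw [← Real.rpow_natCast, ← Real.rpow_neg (by linarith)]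
            exact Real.rpow_le_rpow_of_exponent_le p1 (by norm_num)
          rw [sub_right_comm]
          refine (norm_sub_le _ _).trans ?_
          linarith)
    intro u hu
    have h1 : ContinuousAt (fun v : V4 => ((0, v) : ℂ × V4)) u := by fun_prop
    exact (ContinuousAt.comp (f := fun v : V4 => ((0, v) : ℂ × V4))
      (key.1 _ (lod_V1 hu)).continuousAt h1).continuousWithinAt
  have m1 : ∀ Y : ℕ, C₁ * (Y : ℝ) ^ B ≤ (C₁ + C₂) * (Y : ℝ) ^ B := fun Y =>
    mul_le_mul_of_nonneg_right (by linarith) (by positivity)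
  refine ⟨C₁ + C₂, B, by linarith, fun Y => ?_⟩
  have hk := fun k : ℤ => ha Vk (fun p x => loc4 k x.1 x.2 p * fk k x.1 x.2 p)
    (fun p x => fk k x.1 x.2 p) Y o1 (fun x hx => hx.2.1) fun p hp h2 =>
      ⟨fun x hx => (((hD p hp).1 k).1 x hx).fun_mul (((hD p hp).1 k).2 x hx), ((hD p hp).1 k).2,
        (hL p hp h2).1 k⟩
  have h1 := ha V1 (fun p x => loc4 1 x.1 x.2 p * n1 x.1 x.2 p)
    (fun p x => n1 x.1 x.2 p) Y o2 (fun x hx => hx.2.1) fun p hp h2 =>
      ⟨fun x hx => ((hD p hp).2.1 x hx).fun_mul ((hD p hp).2.2 x hx), (hD p hp).2.2,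
        (hL p hp h2).2⟩
  refine ⟨fun k => ⟨(hk k).1, fun x hx => ((hk k).2 x hx).trans (m1 Y)⟩, h1.1,
    fun x hx => (h1.2 x hx).trans (m1 Y), fun hY u hu => ?_, hcont⟩
  have h2 := hb (fun p => loc4 1 0 u p * n1 0 u p) (n1 0 u) Y hY fun p hp h2 =>
    (hL p hp h2).2 (0, u) (lod_V1 hu)
  exact ⟨h2.1.trans (div_le_div_of_nonneg_right (by linarith) (Real.sqrt_nonneg _)),
    h2.2.trans (by linarith)⟩

end Pool.Agent.Q4
end

-- part Pool.Agent.P.MP_ea46f5_nt.Q4.FMT2
section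

namespace Pool.Agent.Q4

open Real Finset Pool.Agent.QM

theorem mt2_block {y K θ : ℝ} (hy : 0 < y) (hK : 0 < K) (h0 : 0 ≤ θ) (h10 : θ ≤ 10) :
    om (y ^ 40 / 2) * ((y ^ 40 * K) * lg (y ^ 40 * K) ^ θ) ≤
      64 * 61 ^ 10 * (K * lg K ^ θ) * min y y⁻¹ := by
  unfold om lg
  have hl := lg_ge hK.le
  have hu : 0 < y ^ 40 := by positivity
  have hl2 := lg_ge (K := y ^ 40 * K) (by positivity)
  have hp : 0 ≤ log (2 + K) ^ θ := rpow_nonneg (by linarith) _
  have hp2 : 0 ≤ log (2 + y ^ 40 * K) ^ θ := rpow_nonneg (by linarith) _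
  rcases le_total y 1 with h | h
  · have hu1 : y ^ 40 ≤ 1 := pow_le_one₀ hy.le h
    have e1 : min y y⁻¹ = y := min_eq_left (le_trans h (one_le_inv₀ hy |>.2 h))
    have e2 : (y ^ 40 / 2) ^ (-(3 / 4) : ℝ) ≤ 2 * (y ^ 30)⁻¹ := by
      rw [div_rpow hu.le (by norm_num), ← rpow_natCast, ← rpow_mul hy.le]
      have a1 : ((40 : ℕ) : ℝ) * (-(3 / 4)) = -((30 : ℕ) : ℝ) := by norm_num
      rw [a1, rpow_neg hy.le, rpow_natCast, div_eq_mul_inv, ← rpow_neg (by norm_num), mul_comm]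
      gcongr
      calc (2 : ℝ) ^ (-(-(3 / 4) : ℝ)) ≤ 2 ^ (1 : ℝ) :=
            rpow_le_rpow_of_exponent_le (by norm_num) (by norm_num)
        _ = 2 := rpow_one _
    have e3 : y ^ 40 * K ≤ K := by nlinarith
    have e4 : log (2 + y ^ 40 * K) ^ θ ≤ log (2 + K) ^ θ :=
      rpow_le_rpow (by linarith) (log_le_log (by positivity) (by linarith)) h0
    have e6 : y ^ 10 ≤ y := by
      calc y ^ 10 ≤ y ^ 1 := pow_le_pow_of_le_one hy.le h (by norm_num)
        _ = y := pow_one _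
    rw [e1]
    calc _ ≤ (2 * (y ^ 30)⁻¹) * ((y ^ 40 * K) * log (2 + K) ^ θ) := by
          gcongr
          exact (min_le_left _ _).trans e2
      _ = 2 * (K * log (2 + K) ^ θ) * y ^ 10 := by field_simp
      _ ≤ 64 * 61 ^ 10 * (K * log (2 + K) ^ θ) * y := by
          gcongr
          norm_num
  · have hu1 : 1 ≤ y ^ 40 := one_le_pow₀ h
    have e1 : min y y⁻¹ = y⁻¹ := min_eq_right (le_trans (inv_le_one_of_one_le₀ h) h)
    have e2 : (y ^ 40 / 2) ^ (-6 : ℝ) = 64 * (y ^ 240)⁻¹ := by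
      have a1 : (-6 : ℝ) = -((6 : ℕ) : ℝ) := by norm_num
      rw [a1, rpow_neg (by positivity), rpow_natCast]
      field_simp
      norm_num
    have e4 : log (2 + y ^ 40 * K) ≤ 61 * y * log (2 + K) := by
      have a1 : log (2 + y ^ 40 * K) ≤ log (y ^ 40 * (2 + K)) :=
        log_le_log (by positivity) (by nlinarith)
      rw [log_mul hu.ne' (by positivity), log_pow] at a1
      have a2 : log y ≤ y := (log_le_sub_one_of_pos hy).trans (by linarith)
      push_cast at a1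
      nlinarith
    have e5 : log (2 + y ^ 40 * K) ^ θ ≤ (61 * y) ^ 10 * log (2 + K) ^ θ := by
      refine (rpow_le_rpow (by linarith) e4 h0).trans ?_
      rw [mul_rpow (by positivity) (by linarith)]
      refine mul_le_mul_of_nonneg_right ?_ hp
      rw [← rpow_natCast]
      exact rpow_le_rpow_of_exponent_le (by linarith) (by exact_mod_cast h10)
    have e6 : (y ^ 190)⁻¹ ≤ y⁻¹ := by
      apply inv_anti₀ hy
      calc y = y ^ 1 := (pow_one _).symm
        _ ≤ y ^ 190 := pow_le_pow_right₀ h (by norm_num)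
    rw [e1]
    calc _ ≤ (64 * (y ^ 240)⁻¹) * ((y ^ 40 * K) * ((61 * y) ^ 10 * log (2 + K) ^ θ)) := by
          gcongr
          exact (min_le_right _ _).trans e2.le
      _ = 64 * 61 ^ 10 * (K * log (2 + K) ^ θ) * (y ^ 190)⁻¹ := by
          field_simp
      _ ≤ _ := by gcongr

theorem mt2_abs : ∃ C : ℝ, 0 < C ∧ ∀ (a : ℤ → ℝ) (ν K θ : ℝ), 0 ≤ ν → 0 < K → 0 ≤ θ → θ ≤ 10 →
    (∀ k, 0 ≤ a k) → (∀ Z : ℝ, 1 ≤ Z → ∑ k ∈ Sq Z, a k ≤ ν * (Z * lg Z ^ θ)) →
    ∀ S : Finset ℤ, SQ S → ∑ k ∈ S, om (|(k : ℝ)| / K) * a k ≤ C * ν * (K * lg K ^ θ) := by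
  classical
  set r : ℝ := 2 ^ (1 / 40 : ℝ) with hr
  have hr1 : 1 < r := one_lt_rpow (by norm_num) (by norm_num)
  have hr40 : r ^ 40 = 2 := by
    rw [hr, ← rpow_natCast, ← rpow_mul (by norm_num)]
    norm_num
  have hc : 0 < 4 * r / (r - 1) := div_pos (by linarith) (by linarith)
  refine ⟨64 * 61 ^ 10 * (4 * r / (r - 1)), by positivity, ?_⟩
  intro a ν K θ hν hK h0 h10 ha H S hS
  set n : ℤ → ℝ := fun k => |(k : ℝ)| with hn0
  have hn : ∀ k ∈ S, 1 ≤ n k := fun k hk => by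
    have : 1 ≤ |k| := Int.one_le_abs (hS k hk).1.ne_zero
    simp only [hn0]
    exact_mod_cast this
  set v : ℝ := K ^ (-1 / 40 : ℝ) with hv
  have hv0 : 0 < v := rpow_pos_of_pos hK _
  have hv40 : v ^ 40 * K = 1 := by
    rw [hv, ← rpow_natCast, ← rpow_mul hK.le]
    have : (-1 / 40 : ℝ) * ((40 : ℕ) : ℝ) = -1 := by norm_num
    rw [this, rpow_neg_one]
    field_simp
  have hZ : ∀ j : ℕ, (v * r ^ j) ^ 40 * K = 2 ^ j := by
    intro j
    rw [mul_pow, ← pow_mul, mul_comm j, pow_mul, hr40]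
    linear_combination (2 : ℝ) ^ j * hv40
  have hex : ∀ k, ∃ j : ℕ, n k ≤ 2 ^ j := fun k =>
    (pow_unbounded_of_one_lt (n k) (by norm_num : (1 : ℝ) < 2)).imp fun _ h => h.le
  set c : ℤ → ℕ := fun k => Nat.find (hex k) with hcdef
  have hc1 : ∀ k, n k ≤ 2 ^ c k := fun k => Nat.find_spec (hex k)
  have hc2 : ∀ k ∈ S, (2 : ℝ) ^ c k / 2 < n k := by
    intro k hk
    rcases h0 : c k with _ | j
    · have := hn k hk
      norm_num
      linarith
    · have hj : j < Nat.find (hex k) := by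
        change j < c k
        omega
      have := Nat.find_min (hex k) hj
      rw [pow_succ]
      push Not at this
      linarith
  set B : ℝ := K * lg K ^ θ with hB
  have hB0 : 0 ≤ B := by
    have := lg_ge hK.le
    exact mul_nonneg hK.le (rpow_nonneg (by unfold lg; linarith) _)
  obtain ⟨N, hN⟩ : ∃ N, ∀ k ∈ S, c k ∈ range N :=
    ⟨S.sup c + 1, fun k hk => mem_range.2 (Nat.lt_succ_of_le (le_sup hk))⟩
  rw [← sum_fiberwise_of_maps_to hN]
  have key : ∀ j ∈ range N, ∑ k ∈ S with c k = j, om (n k / K) * a k ≤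
      64 * 61 ^ 10 * ν * B * min (v * r ^ j) (v * r ^ j)⁻¹ := by
    intro j _
    set y := v * r ^ j with hy
    have hy0 : 0 < y := by positivity
    have hb := mt2_block hy0 hK h0 h10
    have hw : 0 ≤ om (y ^ 40 / 2) := le_min (by positivity) (by positivity)
    have hH : ∑ k ∈ S with c k = j, a k ≤ ν * (2 ^ j * lg (2 ^ j) ^ θ) := by
      refine le_trans (sum_le_sum_of_subset_of_nonneg (fun k hk => ?_) fun k _ _ => ha k)
        (H (2 ^ j) (one_le_pow₀ (by norm_num)))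
      obtain ⟨h1, h2⟩ := mem_filter.1 hk
      exact mt_mem_Sq.2 ⟨(hS k h1).1, (hS k h1).2, h2 ▸ hc2 k h1, h2 ▸ hc1 k⟩
    rw [← hZ j, ← hy] at hH
    calc _ ≤ ∑ k ∈ S with c k = j, om (y ^ 40 / 2) * a k := by
          refine sum_le_sum fun k hk => ?_
          obtain ⟨h1, h2⟩ := mem_filter.1 hk
          have h3 := hc2 k h1
          rw [h2, ← hZ j, ← hy] at h3
          have h4 : y ^ 40 / 2 ≤ n k / K := by
            rw [le_div_iff₀ hK]
            linarith
          refine mul_le_mul_of_nonneg_right (min_le_min ?_ ?_) (ha k)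
          · exact rpow_le_rpow_of_nonpos (by positivity) h4 (by norm_num)
          · exact rpow_le_rpow_of_nonpos (by positivity) h4 (by norm_num)
      _ = om (y ^ 40 / 2) * ∑ k ∈ S with c k = j, a k := by rw [mul_sum]
      _ ≤ om (y ^ 40 / 2) * (ν * ((y ^ 40 * K) * lg (y ^ 40 * K) ^ θ)) := by gcongr
      _ = ν * (om (y ^ 40 / 2) * ((y ^ 40 * K) * lg (y ^ 40 * K) ^ θ)) := by ring
      _ ≤ ν * (64 * 61 ^ 10 * B * min y y⁻¹) := by gcongr
      _ = _ := by ring
  calc _ ≤ ∑ j ∈ range N, 64 * 61 ^ 10 * ν * B * min (v * r ^ j) (v * r ^ j)⁻¹ := sum_le_sum key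
    _ = 64 * 61 ^ 10 * ν * B * ∑ j ∈ range N, min (v * r ^ j) (v * r ^ j)⁻¹ := by rw [mul_sum]
    _ ≤ 64 * 61 ^ 10 * ν * B * (4 * r / (r - 1)) := by
        gcongr
        exact geo_min_sum hr1 hv0 N
    _ = _ := by ring

theorem pMT2 : MT2 := by
  intro θ h0 h10 h κ κ' hκ hκ'
  obtain ⟨A, C, hC, H⟩ := h κ κ' hκ hκ'
  obtain ⟨D, hD, G⟩ := mt2_abs
  refine ⟨A, D * C, by positivity, fun K t v t' v' F hK hF => ?_⟩
  have hb : 0 ≤ C * br t ^ A * br t' ^ A := by unfold br; positivity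
  refine (G (fun k => ‖Pk κ t v κ' t' v' k‖ ^ 2) _ K θ hb hK h0 h10 (fun k => by positivity)
    (fun Z hZ => (H Z t v t' v' hZ).trans (le_of_eq (by ring))) F hF).trans (le_of_eq (by ring))

theorem rec_mono {θ θ' : ℝ} (h : θ ≤ θ') (H : PP2 θ) : PP2 θ' := by
  intro κ κ' hκ hκ'
  obtain ⟨A, C, hC, G⟩ := H κ κ' hκ hκ'
  refine ⟨A, C * (2 / 3) ^ (θ - θ'), by positivity, fun K t v t' v' F hK hF => ?_⟩
  refine (G K t v t' v' F hK hF).trans ?_
  have hl : 2 / 3 ≤ lg K := lg_ge hK.le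
  have e : lg K ^ θ ≤ (2 / 3) ^ (θ - θ') * lg K ^ θ' := by
    calc lg K ^ θ = lg K ^ (θ - θ') * lg K ^ θ' := by
          rw [← rpow_add (by linarith)]; congr 1; ring
      _ ≤ _ := mul_le_mul_of_nonneg_right
          (rpow_le_rpow_of_nonpos (by norm_num) hl (by linarith)) (rpow_nonneg (by linarith) _)
  have hb : 0 ≤ br t ^ A * br t' ^ A := by unfold br; positivity
  calc _ = C * K * (br t ^ A * br t' ^ A) * lg K ^ θ := by ring
    _ ≤ C * K * (br t ^ A * br t' ^ A) * ((2 / 3) ^ (θ - θ') * lg K ^ θ') := by gcongr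
    _ = _ := by ring

theorem pREC (hBAS : BAS) (hMT2 : MT2) (hDIR : DIR) (hRF2 : RF2) : REC := by
  have key : ∀ n : ℕ, PP2 (10 * (3 / 4) ^ n) := by
    intro n
    have hle : ∀ n : ℕ, (10 : ℝ) * (3 / 4) ^ n ≤ 10 := fun n => by
      have : (3 / 4 : ℝ) ^ n ≤ 1 := pow_le_one₀ (by norm_num) (by norm_num)
      linarith
    induction n with
    | zero => simpa using hMT2 10 (by norm_num) le_rfl hBAS
    | succ n ih =>
      have a := hDIR _ (10 * (3 / 4) ^ n / 4) (by positivity) (hle n) (by positivity) ih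
      have e : (10 : ℝ) * (3 / 4) ^ n / 2 + 10 * (3 / 4) ^ n / 4 = 10 * (3 / 4) ^ (n + 1) := by
        ring
      rw [e] at a
      exact hMT2 _ (by positivity) (hle _)
        ((hRF2 _ 0).1 ((hRF2 _ 0).2 2 ((hRF2 _ 2).1 a)))
  intro θ hθ
  obtain ⟨n, hn⟩ := exists_pow_lt_of_lt_one (x := θ / 10) (y := (3 / 4 : ℝ)) (by positivity)
    (by norm_num)
  exact rec_mono (by linarith) (key n)

end Pool.Agent.Q4
end

-- part Pool.Agent.P.MP_ea46f5_nt.Q4.FOMB
section

namespace Pool.Agent.Q4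

open Complex MeasureTheory Finset Pool.Agent.QM
open scoped Real ComplexConjugate

theorem ob_br1 (x : ℝ) : 1 ≤ br x := by
  unfold br
  linarith [abs_nonneg x]

theorem ob_five {a b c d e : ℝ} (ha : 0 ≤ a) (hb : 0 ≤ b) (hc : 0 ≤ c) (hd : 0 ≤ d) (he : 0 ≤ e) :
    1 + (a + b + c + d + e) ≤ (1 + a) * ((1 + b) * (1 + c) * (1 + d) * (1 + e)) := by
  have k : ∀ x y z : ℝ, 0 ≤ x → 0 ≤ y → 1 + x ≤ z → 1 + (x + y) ≤ z * (1 + y) :=
    fun x y z hx hy hz => by nlinarith [mul_nonneg hx hy]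
  have h := k _ e _ (by positivity) he (k _ d _ (by positivity) hd
    (k _ c _ (by positivity) hc (k a b _ ha hb le_rfl)))
  linarith

theorem ob_br (w : ℂ) (u : V4) : br w.im ≤ br (w + us u).im * ∏ j, br (u j).im := by
  have h1 : (w + us u).im = w.im + ((u 0).im + (u 1).im + (u 2).im + (u 3).im) / 2 := by
    simp [us, Fin.sum_univ_four]
  rw [Fin.prod_univ_four]
  generalize (w + us u).im = y at h1
  have h2 : |w.im| ≤ |y| + |(u 0).im| + |(u 1).im| + |(u 2).im| + |(u 3).im| := by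
    rw [abs_le]
    constructor <;>
    linarith [le_abs_self y, neg_abs_le y, le_abs_self (u 0).im, neg_abs_le (u 0).im,
      le_abs_self (u 1).im, neg_abs_le (u 1).im, le_abs_self (u 2).im, neg_abs_le (u 2).im,
      le_abs_self (u 3).im, neg_abs_le (u 3).im]
  unfold br
  exact le_trans (by linarith) (ob_five (abs_nonneg y) (abs_nonneg (u 0).im)
    (abs_nonneg (u 1).im) (abs_nonneg (u 2).im) (abs_nonneg (u 3).im))

theorem ob_gauss (hSH : SH4) (n : ℕ) : ∃ C : ℝ, 0 < C ∧ ∀ η y : ℝ, 0 < η → η ≤ 1 →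
    br y ^ n * Real.exp (-(η * y) ^ 2) ≤ C / η ^ n := by
  obtain ⟨C, hC, h⟩ := hSH.2.2 1 n 0 one_pos
  refine ⟨C, hC, fun η y h0 h1 => ?_⟩
  have h2 := (h (η * y) 0).2.1
  have h3 : br 0 = 1 := by simp [br]
  rw [h3, one_pow, pow_zero, mul_one, div_one, sub_zero, neg_mul, one_mul] at h2
  have h4 : η * br y ≤ br (η * y) := by
    unfold br
    rw [abs_mul, abs_of_pos h0]
    linarith
  have h5 := ob_br1 y
  rw [le_div_iff₀ (by positivity)]
  calc _ = (η * br y) ^ n * Real.exp (-(η * y) ^ 2) := by ring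
    _ ≤ br (η * y) ^ n * Real.exp (-(η * y) ^ 2) := by gcongr
    _ ≤ C := h2

theorem ob_pre {η X c : ℝ} {w v : ℂ} (h0 : 0 < η) (h1 : η ≤ 1 / 30) (hX : 1 ≤ X) (c1 : 1 ≤ c)
    (c4 : c ≤ 4) (hw : -5 ≤ w.re) (hv : 1 / 4 ≤ v.re) (hv' : v.re ≤ 26) :
    ‖rho η v * (X : ℂ) ^ v * (c : ℂ) ^ (-w)‖ ≤
      4 * 3 * 4 ^ 5 * X ^ v.re * Real.exp (-(η * v.im) ^ 2) := by
  have a1 : ‖rho η v‖ ≤ 4 * 3 * Real.exp (-(η * v.im) ^ 2) := by
    have b1 : ((η : ℂ) ^ 2 * v ^ 2).re = (η * v.re) ^ 2 + -(η * v.im) ^ 2 := by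
      simp [sq]
      ring
    have b2 : 1 / 4 ≤ ‖v‖ := hv.trans (re_le_norm v)
    have b3 : (η * v.re) ^ 2 ≤ 1 := by
      have : η * v.re ≤ 1 / 30 * 26 := by gcongr
      exact pow_le_one₀ (by positivity) (by linarith)
    have b4 : Real.exp ((η * v.re) ^ 2) ≤ 3 :=
      (Real.exp_le_exp.2 b3).trans (by linarith [Real.exp_one_lt_d9])
    rw [rho, norm_div, norm_exp, b1, Real.exp_add, div_le_iff₀ (by linarith)]
    calc _ ≤ 3 * Real.exp (-(η * v.im) ^ 2) := by gcongr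
      _ = 4 * 3 * Real.exp (-(η * v.im) ^ 2) * (1 / 4) := by ring
      _ ≤ _ := by gcongr
  have a2 : ‖(c : ℂ) ^ (-w)‖ ≤ 4 ^ 5 := by
    rw [norm_cpow_eq_rpow_re_of_pos (by linarith), neg_re]
    calc c ^ (-w.re) ≤ c ^ ((5 : ℕ) : ℝ) :=
          Real.rpow_le_rpow_of_exponent_le c1 (by push_cast; linarith)
      _ = c ^ 5 := Real.rpow_natCast _ _
      _ ≤ 4 ^ 5 := by gcongr
  rw [norm_mul, norm_mul, norm_cpow_eq_rpow_re_of_pos (by linarith : 0 < X)]
  calc _ ≤ 4 * 3 * Real.exp (-(η * v.im) ^ 2) * X ^ v.re * 4 ^ 5 := by gcongr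
    _ = _ := by ring

theorem ob_diff (hus : Differentiable ℂ us) {η X c : ℝ} (hX : 0 < X) (hc : 0 < c) {w : ℂ} {u : V4}
    (hv : 1 / 4 ≤ (w + us u).re) {A : V4 → ℂ} (hA : DifferentiableAt ℂ A u) :
    DifferentiableAt ℂ (fun x : ℂ × V4 => rho η (x.1 + us x.2) * (X : ℂ) ^ (x.1 + us x.2) *
      (c : ℂ) ^ (-x.1) * A x.2) (w, u) := by
  have h1 : DifferentiableAt ℂ (fun x : ℂ × V4 => x.1 + us x.2) (w, u) :=
    differentiableAt_fst.add ((hus.comp differentiable_snd) (w, u))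
  have h2 : w + us u ≠ 0 := fun h => by
    rw [h, zero_re] at hv
    linarith
  refine ((DifferentiableAt.mul ?_ ?_).mul ?_).mul (hA.comp (w, u) differentiableAt_snd)
  · have h3 : DifferentiableAt ℂ (rho η) (w + us u) := by
      unfold rho
      exact DifferentiableAt.div (by fun_prop) differentiableAt_id h2
    exact DifferentiableAt.comp (w, u) (g := rho η) h3 h1
  · exact h1.const_cpow (Or.inl (ofReal_ne_zero.2 hX.ne'))
  · exact differentiableAt_fst.neg.const_cpow (Or.inl (ofReal_ne_zero.2 hc.ne'))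

theorem pOMB (hSH : SH4) (hW : WRB) : OMB := by
  intro g C₀ n hg
  obtain ⟨C, hC, h⟩ := hW g C₀ (n + n) hg
  obtain ⟨C', hC', h'⟩ := ob_gauss hSH n
  refine ⟨4 * 3 * 4 ^ 5 * C * C', 28 + n, by positivity, ?_⟩
  intro γ c Δ η X ε Y w u hP hε hw hu hv
  obtain ⟨d1, d2, d3, d4, d5, hb⟩ := h γ hP.hγ
  obtain ⟨b1, b2, b3, -⟩ := hb ε Δ hε hP.D1 u hu
  have hu0 : ∀ j, 0 < (u j).re := fun j => hε.trans_le (hu j).1
  have hX := hP.X1
  have hc := hP.c1
  have hΔ := hP.D1
  have hη := hP.h0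
  have hη1 : η ≤ 1 := hP.h1.trans (by norm_num)
  have hv' : (w + us u).re ≤ 26 := by
    have h1 : (w + us u).re = w.re + ((u 0).re + (u 1).re + (u 2).re + (u 3).re) / 2 := by
      simp [us, Fin.sum_univ_four]
    have h2 : ∀ j, (u j).re ≤ 12 := fun j => (hu j).2
    linarith [hw.2, h2 0, h2 1, h2 2, h2 3]
  have hm0 : 0 < min ε 1 := lt_min hε one_pos
  have hm1 : min ε 1 ≤ 1 := min_le_right _ _
  have key : ∀ A : ℂ, ‖A‖ ≤ C * (Δ / min ε 1) ^ 28 * Real.exp (-Δ * ε) * dn (n + n) u →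
      ‖rho η (w + us u) * (X : ℂ) ^ (w + us u) * (c : ℂ) ^ (-w) * A‖ ≤
        4 * 3 * 4 ^ 5 * C * C' * (Δ / (η * min ε 1)) ^ (28 + n) * X ^ (w + us u).re *
          Real.exp (-Δ * ε) / br w.im ^ n * dn n u := by
    intro A hA
    have p1 := ob_pre hη hP.h1 hX hc hP.c4 hw.1 hv hv'
    have p2 := h' η (w + us u).im hη hη1
    obtain ⟨s1, -, -, s4, -⟩ := hSH.2.1 n n u
    have s3 := (hSH.2.1 (n + n) 0 u).2.2.1
    have w1 := ob_br1 w.im
    have w2 := ob_br1 (w + us u).im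
    have p3 : br w.im ^ n ≤ br (w + us u).im ^ n * gn n u := by
      rw [gn, prod_pow, ← mul_pow]
      exact pow_le_pow_left₀ (by linarith) (ob_br w u) n
    have p4 : (Δ / min ε 1) ^ 28 / η ^ n ≤ (Δ / (η * min ε 1)) ^ (28 + n) := by
      have r1 : Δ / min ε 1 ≤ Δ / (η * min ε 1) :=
        div_le_div_of_nonneg_left (by linarith) (by positivity) (mul_le_of_le_one_left hm0.le hη1)
      have r2 : 1 / η ≤ Δ / (η * min ε 1) := by
        rw [div_le_div_iff₀ hη (by positivity)]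
        nlinarith
      rw [pow_add, div_eq_mul_one_div, ← one_div_pow]
      exact mul_le_mul (pow_le_pow_left₀ (by positivity) r1 _)
        (pow_le_pow_left₀ (by positivity) r2 _) (by positivity) (by positivity)
    generalize (w + us u).im = y at p1 p2 p3 w2
    have hXr : 0 ≤ X ^ (w + us u).re := Real.rpow_nonneg (by linarith) _
    generalize X ^ (w + us u).re = T at p1 hXr ⊢
    rw [norm_mul, div_mul_eq_mul_div, le_div_iff₀ (by positivity), ← s1]
    calc _ ≤ 4 * 3 * 4 ^ 5 * T * Real.exp (-(η * y) ^ 2) *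
          (C * (Δ / min ε 1) ^ 28 * Real.exp (-Δ * ε) * dn (n + n) u) * (br y ^ n * gn n u) := by
          gcongr
      _ = 4 * 3 * 4 ^ 5 * T * C * (Δ / min ε 1) ^ 28 * Real.exp (-Δ * ε) *
          (gn n u * dn (n + n) u) * (br y ^ n * Real.exp (-(η * y) ^ 2)) := by ring
      _ ≤ 4 * 3 * 4 ^ 5 * T * C * (Δ / min ε 1) ^ 28 * Real.exp (-Δ * ε) *
          (gn n u * dn (n + n) u) * (C' / η ^ n) := by gcongr
      _ = 4 * 3 * 4 ^ 5 * C * C' * ((Δ / min ε 1) ^ 28 / η ^ n) * T * Real.exp (-Δ * ε) *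
          (gn n u * dn (n + n) u) := by ring
      _ ≤ _ := by gcongr
  have e3 : ∀ (w : ℂ) (u : V4), Om g γ c Δ η X w u =
      rho η (w + us u) * (X : ℂ) ^ (w + us u) * (c : ℂ) ^ (-w) * (W4 g γ u * (1 - cF Δ u)) := by
    intro w u
    rw [Om, Ow, W4]
    ring
  have dc : DifferentiableAt ℂ (fun u => 1 - cF Δ u) u := (d3 Δ u).const_sub 1
  refine ⟨ob_diff d5 (by linarith) (by linarith) hv ((d1 u hu0).mul dc),
    ob_diff d5 (by linarith) (by linarith) hv ((d2 u hu0).mul dc), ?_, key _ b1, key _ b2, ?_⟩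
  · simp only [e3]
    exact ob_diff d5 (by linarith) (by linarith) hv (((d2 u hu0).mul (d4 u)).mul dc)
  · rw [e3]
    exact key _ b3

end Pool.Agent.Q4
end

-- part Pool.Agent.P.MP_ea46f5_nt.Q4.FPHW
section

/-! The smooth cut-off `phi`. -/

namespace Pool.Agent.Q4

open Complex MeasureTheory Set Pool.Agent.QM
open scoped Real

theorem ph_total {η : ℝ} (hη : 0 < η) (L : ℝ) :
    Integrable (fun s : ℝ => Real.exp (-(L + s) ^ 2 / (4 * η ^ 2))) ∧
      ∫ s : ℝ, Real.exp (-(L + s) ^ 2 / (4 * η ^ 2)) = 2 * η * √π := by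
  have e : ∀ y : ℝ, -y ^ 2 / (4 * η ^ 2) = -(1 / (4 * η ^ 2)) * y ^ 2 := fun y => by ring
  simp only [e]
  refine ⟨(integrable_exp_neg_mul_sq (by positivity)).comp_add_left L, ?_⟩
  rw [integral_add_left_eq_self (fun y : ℝ => Real.exp (-(1 / (4 * η ^ 2)) * y ^ 2)) L,
    integral_gaussian, show π / (1 / (4 * η ^ 2)) = (2 * η) ^ 2 * π by field_simp; norm_num,
    Real.sqrt_mul (sq_nonneg _), Real.sqrt_sq (by positivity)]

theorem ph_part {η : ℝ} (hη : 0 < η) (L : ℝ) {S : Set ℝ} (hS : MeasurableSet S)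
    (h : ∀ s ∈ S, 0 ≤ L * s) : ∫ s in S, Real.exp (-(L + s) ^ 2 / (4 * η ^ 2)) ≤
      Real.exp (-L ^ 2 / (4 * η ^ 2)) * (2 * η * √π) := by
  obtain ⟨h1, h2⟩ := ph_total hη 0
  rw [← h2, ← integral_const_mul]
  refine (setIntegral_mono_on (ph_total hη L).1.integrableOn (h1.const_mul _).integrableOn hS
    fun s hs => ?_).trans (setIntegral_le_integral (h1.const_mul _)
      (Filter.Eventually.of_forall fun s => by positivity))
  rw [← Real.exp_add, ← add_div]
  gcongr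
  nlinarith [h s hs]

theorem ph_inner {η : ℝ} (hη : 0 < η) (c y : ℝ) :
    ∫ t : ℝ, cexp (η ^ 2 * (c + t * I) ^ 2 - (c + t * I) * y) =
      (√π / η : ℝ) * (Real.exp (-y ^ 2 / (4 * η ^ 2)) : ℝ) := by
  have h0 : (η : ℂ) ≠ 0 := ofReal_ne_zero.2 hη.ne'
  have hb : (-(η : ℂ) ^ 2).re < 0 := by
    rw [neg_re, ← ofReal_pow, ofReal_re, neg_lt_zero]; positivity
  have h := integral_cexp_quadratic hb ((2 * η ^ 2 * c - y) * I) (η ^ 2 * c ^ 2 - c * y)
  have e : ∀ t : ℝ, (η : ℂ) ^ 2 * (c + t * I) ^ 2 - (c + t * I) * y =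
      -(η : ℂ) ^ 2 * t ^ 2 + (2 * η ^ 2 * c - y) * I * t + (η ^ 2 * c ^ 2 - c * y) := fun t => by
    linear_combination (η : ℂ) ^ 2 * t ^ 2 * I_sq
  simp only [e, h]
  congr 1
  · rw [neg_neg, ← ofReal_pow, ← ofReal_div, show (1 / 2 : ℂ) = ((1 / 2 : ℝ) : ℂ) by norm_num,
      ← ofReal_cpow (by positivity), ← Real.sqrt_eq_rpow, Real.sqrt_div' _ (sq_nonneg _),
      Real.sqrt_sq hη.le]
  · rw [ofReal_exp]
    congr 1
    push_cast
    rw [mul_pow, I_sq]
    field_simp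
    ring

theorem ph_mellin {η x c : ℝ} (hη : 0 < η) (hx : 0 < x) (hc : 0 < c) :
    (phi η x : ℂ) = 1 / (2 * π) * Iv c fun v => rho η v * (x : ℂ) ^ (-v) := by
  have e : ∀ t : ℝ, rho η (c + t * I) * (x : ℂ) ^ (-(c + t * I)) = ∫ s in Ioi (0 : ℝ),
      cexp (η ^ 2 * (c + t * I) ^ 2 - (c + t * I) * (Real.log x + s : ℝ)) := fun t => by
    obtain ⟨v, hv⟩ : ∃ v : ℂ, v = c + t * I := ⟨_, rfl⟩
    have h1 : (-v).re < 0 := by simpa [hv] using hc
    have h2 := integral_exp_mul_complex_Ioi h1 0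
    rw [← hv]
    have h3 : ∀ s : ℝ, cexp (η ^ 2 * v ^ 2 - v * (Real.log x + s : ℝ)) =
        cexp (η ^ 2 * v ^ 2) * (x : ℂ) ^ (-v) * cexp (-v * s) := fun s => by
      rw [cpow_def_of_ne_zero (ofReal_ne_zero.2 hx.ne'), ← ofReal_log hx.le, ← Complex.exp_add,
        ← Complex.exp_add]
      congr 1
      push_cast
      ring
    simp only [h3, integral_const_mul, h2, rho]
    simp
    ring
  have hi : Integrable (Function.uncurry fun (t s : ℝ) =>
      cexp (η ^ 2 * (c + t * I) ^ 2 - (c + t * I) * (Real.log x + s : ℝ)))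
      (volume.prod (volume.restrict (Ioi (0 : ℝ)))) := by
    have h1 := ((integrable_exp_neg_mul_sq (b := η ^ 2) (by positivity)).const_mul
      (Real.exp (η ^ 2 * c ^ 2 - c * Real.log x))).mul_prod
      (integrableOn_exp_mul_Ioi (neg_lt_zero.2 hc) 0)
    refine h1.mono' (Continuous.aestronglyMeasurable (by fun_prop))
      (Filter.Eventually.of_forall fun p => le_of_eq ?_)
    rw [Function.uncurry, norm_exp, ← Real.exp_add, ← Real.exp_add]
    congr 1
    simp [sq]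
    ring
  have hπ : 0 < √π := Real.sqrt_pos.2 Real.pi_pos
  have hs : (π : ℂ) = (√π : ℝ) * (√π : ℝ) := by
    rw [← ofReal_mul, Real.mul_self_sqrt Real.pi_pos.le]
  unfold Iv
  simp only [e]
  rw [integral_integral_swap hi]
  simp only [ph_inner hη]
  rw [integral_const_mul, integral_complex_ofReal, phi, hs]
  have h0 : (η : ℂ) ≠ 0 := ofReal_ne_zero.2 hη.ne'
  have h1 : ((√π : ℝ) : ℂ) ≠ 0 := ofReal_ne_zero.2 hπ.ne'
  push_cast
  field_simp

theorem pPHW : PHW := by
  intro η x hη hx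
  have hN : 0 < 2 * η * √π := mul_pos (by linarith) (Real.sqrt_pos.2 Real.pi_pos)
  obtain ⟨h1, h2⟩ := ph_total hη (Real.log x)
  have a1 : phi η x ≤ 1 := by
    rw [phi, one_div, inv_mul_le_iff₀ hN, mul_one, ← h2]
    exact setIntegral_le_integral h1 (Filter.Eventually.of_forall fun s => by positivity)
  have a2 : 1 ≤ x → phi η x ≤ Real.exp (-Real.log x ^ 2 / (4 * η ^ 2)) := fun h => by
    rw [phi, one_div, inv_mul_le_iff₀ hN, mul_comm (2 * η * √π)]
    exact ph_part hη _ measurableSet_Ioi fun s hs => mul_nonneg (Real.log_nonneg h) (le_of_lt hs)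
  refine ⟨fun c hc => ph_mellin hη hx hc, ?_, a1, a2, fun h => ?_, fun h => ?_⟩
  · exact mul_nonneg (by positivity) (integral_nonneg fun s => by positivity)
  · have h3 := ph_part hη (Real.log x) measurableSet_Iic fun s hs =>
      mul_nonneg_of_nonpos_of_nonpos (Real.log_nonpos hx.le h) (show s ≤ 0 from hs)
    have h4 := integral_add_compl (measurableSet_Iic (a := (0 : ℝ))) h1
    rw [compl_Iic, h2] at h4
    rw [phi, sub_le_comm, one_div, le_inv_mul_iff₀ hN]
    linarith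
  · rcases le_total x 1 with h3 | h3
    · rw [le_div_iff₀ (by positivity)]
      have := pow_le_one₀ (n := 7) hx.le h3
      nlinarith [pow_pos hx 7]
    · refine (a2 h3).trans ?_
      have h4 : (2 : ℝ) / x ^ 7 = Real.exp (Real.log 2 - 7 * Real.log x) := by
        rw [Real.exp_sub, Real.exp_log two_pos, show (7 : ℝ) = (7 : ℕ) by norm_num,
          Real.exp_nat_mul, Real.exp_log hx]
      rw [h4, Real.exp_le_exp, neg_div]
      have h5 : 225 * Real.log x ^ 2 ≤ Real.log x ^ 2 / (4 * η ^ 2) := by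
        rw [le_div_iff₀ (by positivity)]
        have : η ^ 2 ≤ (1 / 30) ^ 2 := by gcongr
        nlinarith [sq_nonneg (Real.log x)]
      nlinarith [Real.log_two_gt_d9, sq_nonneg (30 * Real.log x - 7 / 15)]

end Pool.Agent.Q4
end

-- part Pool.Agent.P.MP_ea46f5_nt.Q4.FPRH
section

/-! PRH: infinite products in several variables. -/

namespace Pool.Agent.Q4

open Complex Finset Filter Topology Metric

/-- Weierstrass: a uniform limit of differentiable functions on a normed space. -/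
theorem prh_wei {E ι : Type} [NormedAddCommGroup E] [NormedSpace ℂ E] [Nonempty ι]
    [SemilatticeSup ι] {U : Set E} (hU : IsOpen U) {f : ι → E → ℂ} {g : E → ℂ}
    (hf : ∀ i, Hol U (f i)) (hg : ∀ x ∈ U, Tendsto (fun i => f i x) atTop (𝓝 (g x)))
    (hc : ∀ ε : ℝ, 0 < ε → ∃ N, ∀ i, N ≤ i → ∀ x ∈ U, ‖f i x - f N x‖ ≤ ε) : Hol U g := by
  intro x₀ hx₀
  obtain ⟨R, hR, hsub⟩ := Metric.isOpen_iff.1 hU x₀ hx₀
  have hb : ∀ x ∈ ball x₀ (R / 2), ball x (R / 2) ⊆ U := fun x hx =>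
    (ball_subset_ball' (by rw [mem_ball] at hx; linarith)).trans hsub
  have hm : ∀ x ∈ ball x₀ (R / 2), x ∈ U := fun x hx => hb x hx (mem_ball_self (by linarith))
  have h1 : UniformCauchySeqOn (fun i x => fderiv ℂ (f i) x) atTop (ball x₀ (R / 2)) := by
    refine Metric.uniformCauchySeqOn_iff.2 fun ε hε => ?_
    obtain ⟨N, hN⟩ := hc (ε * R / 16) (by positivity)
    refine ⟨N, fun i hi j hj x hx => ?_⟩
    have h2 : ∀ w ∈ U, ‖f i w - f j w‖ ≤ ε * R / 8 := fun w hw => by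
      have := norm_sub_le_norm_sub_add_norm_sub (f i w) (f N w) (f j w)
      rw [norm_sub_rev (f N w)] at this
      linarith [hN i hi w hw, hN j hj w hw]
    have h3 := norm_fderiv_le_div_of_mapsTo_ball (f := fun w => f i w - f j w) (c := x)
      (R₁ := R / 2) (R₂ := ε * R / 4)
      (fun w hw => ((hf i w (hb x hx hw)).sub (hf j w (hb x hx hw))).differentiableWithinAt)
      (fun w hw => mem_closedBall_iff_norm.2 ((norm_sub_le _ _).trans
        (by linarith [h2 w (hb x hx hw), h2 x (hm x hx)]))) (by linarith)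
    rw [fderiv_fun_sub (hf i x (hm x hx)) (hf j x (hm x hx))] at h3
    rw [dist_eq_norm]
    refine h3.trans_lt ?_
    rw [div_lt_iff₀ (by linarith)]
    nlinarith
  have h2 := h1.tendstoUniformlyOn_of_tendsto
    (f := fun x => limUnder atTop fun i => fderiv ℂ (f i) x)
    fun x hx => (h1.cauchySeq hx).tendsto_limUnder
  exact (hasFDerivAt_of_tendstoUniformlyOn isOpen_ball h2
    (fun i x hx => (hf i x (hm x hx)).hasFDerivAt) (fun x hx => hg x (hm x hx))
    (mem_ball_self (by linarith))).differentiableAt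

theorem prh_one {ι : Type} (s : Finset ι) {y : ι → ℂ} {b : ι → ℝ} (h : ∀ p, ‖y p - 1‖ ≤ b p) :
    ‖∏ p ∈ s, y p - 1‖ ≤ Real.exp (∑ p ∈ s, b p) - 1 := by
  have h1 := s.norm_prod_one_add_sub_one_le fun p => y p - 1
  simp only [add_sub_cancel] at h1
  exact h1.trans (sub_le_sub_right (Real.exp_le_exp.2 (sum_le_sum fun p _ => h p)) 1)

theorem prh_le {ι : Type} (s : Finset ι) {y : ι → ℂ} {b : ι → ℝ} (hb : Summable b)
    (h : ∀ p, ‖y p - 1‖ ≤ b p) : ‖∏ p ∈ s, y p‖ ≤ Real.exp (∑' p, b p) := by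
  have h1 := norm_add_le (∏ p ∈ s, y p - 1) 1
  rw [sub_add_cancel, norm_one] at h1
  have h2 := Real.exp_le_exp.2 (hb.sum_le_tsum s fun p _ => (norm_nonneg _).trans (h p))
  linarith [prh_one s h]

theorem pPRH : PRH := by
  classical
  intro E _ _ U y b hU hb hy h
  have hm : ∀ x ∈ U, Multipliable fun p => y p x := fun x hx => by
    simpa only [add_sub_cancel] using multipliable_one_add_of_summable
      (hb.of_nonneg_of_le (fun _ => norm_nonneg _) fun p => h p x hx)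
  refine ⟨prh_wei hU (f := fun s x => ∏ p ∈ s, y p x) (fun s x hx =>
    (HasFDerivAt.finsetProd fun p _ => (hy p x hx).hasFDerivAt).differentiableAt)
    (fun x hx => (hm x hx).hasProd) fun ε hε => ?_, fun x hx => ⟨hm x hx,
      le_of_tendsto' (Tendsto.norm (hm x hx).hasProd) fun s => prh_le s hb fun p => h p x hx⟩⟩
  have hM := Real.exp_pos (∑' p, b p)
  obtain ⟨N, hN⟩ := summable_iff_vanishing_norm.1 hb
    (Real.log (1 + ε / Real.exp (∑' p, b p))) (Real.log_pos (lt_add_of_pos_right _ (by positivity)))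
  refine ⟨N, fun s hs x hx => ?_⟩
  have h1 := Real.exp_le_exp.2 ((le_abs_self _).trans (hN (s \ N) sdiff_disjoint).le)
  rw [Real.exp_log (by positivity)] at h1
  have h2 := (prh_one (s \ N) fun p => h p x hx).trans (sub_le_iff_le_add'.2 h1)
  rw [← prod_sdiff hs, ← sub_one_mul, norm_mul]
  exact (mul_le_mul h2 (prh_le N hb fun p => h p x hx) (norm_nonneg _) (by positivity)).trans
    (div_mul_cancel₀ _ hM.ne').le

end Pool.Agent.Q4
end

-- part Pool.Agent.P.MP_ea46f5_nt.Q4.FPRT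
section

namespace Pool.Agent.Q4

open Complex MeasureTheory Finset Pool.Agent.QM
open scoped Real ComplexConjugate

theorem prt_iv (hPHW : PHW) {η X q : ℝ} (hη : 0 < η) (hX : 0 < X) (hq : 0 < q) {s : ℂ}
    (hs : s.re = 24) :
    (1 / (2 * π) * Iv 2 fun w => rho η (w + s) * (X : ℂ) ^ (w + s) * (q : ℂ) ^ (-w)) =
      phi η (q / X) * (q : ℂ) ^ s := by
  rw [(hPHW η (q / X) hη (div_pos hq hX)).1 26 (by norm_num), mul_assoc, Iv, Iv,
    ← integral_mul_const, ← integral_add_right_eq_self (fun t : ℝ => rho η ((26 : ℝ) + t * I) *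
      ((q / X : ℝ) : ℂ) ^ (-((26 : ℝ) + t * I : ℂ)) * (q : ℂ) ^ s) s.im]
  congr 2
  funext y
  have e : ((26 : ℝ) + ((y + s.im : ℝ) : ℂ) * I : ℂ) = (2 : ℝ) + y * I + s := by
    apply Complex.ext <;> simp [hs]
    norm_num
  have hq' : (q : ℂ) ≠ 0 := ofReal_ne_zero.2 hq.ne'
  have hX' : (X : ℂ).arg ≠ π := by rw [arg_ofReal_of_nonneg hX.le]; exact Real.pi_pos.ne
  rw [e, div_eq_mul_inv q X, ofReal_mul, mul_cpow_ofReal_nonneg hq.le (inv_nonneg.2 hX.le),
    ofReal_inv, inv_cpow _ _ hX', cpow_neg (X : ℂ), inv_inv,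
    show (-((2 : ℝ) + y * I : ℂ)) = -((2 : ℝ) + y * I + s) + s by ring, cpow_add _ _ hq']
  ring

theorem pPRT (hPHW : PHW) : PRT := by
  intro τ r g Δ η X Y m hη hX
  unfold ac ta
  split_ifs with hm
  · have h0 : m ≠ 0 := by
      rintro rfl
      simpa using hm.1
    have hm0 : 0 < |(m : ℝ)| := abs_pos.2 (by exact_mod_cast h0)
    have hc : 0 < cq r := by unfold cq; split_ifs <;> norm_num
    rw [Tm, In, In, ← integral_const_mul]
    congr 1
    funext t
    have hs : (us (pt (cs 12) t)).re = 24 := by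
      simp [us, pt, cs]
      norm_num
    have h1 := prt_iv hPHW hη hX (mul_pos hc hm0) hs
    have h2 : (Iv 2 fun w => Om g (gam r) (cq r) Δ η X w (pt (cs 12) t) *
        ((|(m : ℝ)| : ℝ) : ℂ) ^ (-w)) = (Iv 2 fun w => rho η (w + us (pt (cs 12) t)) *
          (X : ℂ) ^ (w + us (pt (cs 12) t)) * ((cq r * |(m : ℝ)| : ℝ) : ℂ) ^ (-w)) *
          (W4 g (gam r) (pt (cs 12) t) * (1 - cF Δ (pt (cs 12) t))) := by
      rw [Iv, Iv, ← integral_mul_const]
      congr 1
      funext y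
      rw [ofReal_mul (cq r), mul_cpow_ofReal_nonneg hc.le hm0.le, Om, Ow, W4]
      ring
    rw [h2, ← mul_assoc (1 / (2 * π : ℂ)), h1]
    ring
  · simp [In]

end Pool.Agent.Q4
end

-- part Pool.Agent.P.MP_ea46f5_nt.Q4.FREAL
section

/-! The central value is real; the split of the approximate functional equation. -/

namespace Pool.Agent.Q4

open Complex MeasureTheory Finset Pool.Agent.QM
open scoped Real ComplexConjugate

theorem pREAL (hLSP : LSP) (hLOP : LOP) : REAL := by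
  intro k hk h1
  have hd := hLOP.2.1 k hk h1
  have hd' : Differentiable ℂ fun s => conj (Lo k (conj s)) := fun s => by
    have := (hd (conj s)).conj_conj
    rwa [conj_conj] at this
  have h2 : (fun s => conj (Lo k (conj s))) = Lo k := by
    refine AnalyticOnNhd.eq_of_eventuallyEq (z₀ := 2) (hd'.differentiableOn.analyticOnNhd isOpen_univ)
      (hd.differentiableOn.analyticOnNhd isOpen_univ) ?_
    filter_upwards [(isOpen_lt continuous_const continuous_re).mem_nhds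
      (show (1 : ℝ) < (2 : ℂ).re by norm_num)] with s hs
    rw [hLOP.1 k _ hk.ne_zero (by simpa using hs), hLOP.1 k _ hk.ne_zero hs,
      hLSP.2.2.2.2.1 k s hs]
  have e : conj (1 / 2 : ℂ) = 1 / 2 := by simp [map_ofNat]
  have h3 := congrFun h2 (1 / 2)
  rw [e] at h3
  have h4 : (2 : ℂ) ^ (-(1 / 2 : ℂ)) = (((2 : ℝ) ^ (-(1 / 2 : ℝ)) : ℝ) : ℂ) := by
    rw [ofReal_cpow (by norm_num)]; push_cast; rfl
  rw [← conj_eq_iff_im, Lf, map_div₀, h3, h4]
  simp

theorem afs_int (hI : INB) (hLSP : LSP) {W : V4 → ℂ} {M q : ℝ} (hq : 0 < q) (m : ℤ)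
    (hc : Continuous fun t : R4 => W (pt (cs 12) t))
    (hb : ∀ t : R4, ‖W (pt (cs 12) t)‖ ≤ M * dk (pt (cs 12) t)) : Integrable fun t : R4 =>
      W (pt (cs 12) t) * (q : ℂ) ^ us (pt (cs 12) t) * LL m (pt (cs 12) t) := by
  have hre : ∀ (t : R4) j, (1 / 2 + pt (cs 12) t j).re = 25 / 2 := fun t j => by
    simp [pt, cs]; norm_num
  refine (hI 4 (cs 12) (M * q ^ (24 : ℝ) * 2 ^ 4)
    (fun u => W u * (q : ℂ) ^ us u * LL m u) ?_ fun t => ?_).1
  · refine (hc.mul (Continuous.const_cpow (by unfold us pt; fun_prop)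
      (Or.inl (ofReal_ne_zero.2 hq.ne')))).mul (continuous_finsetProd _ fun j _ => ?_)
    exact (hLSP.2.2.2.1 m).continuousOn.comp_continuous (by unfold pt; fun_prop)
      fun t => by rw [Set.mem_ofPred_eq, hre]; norm_num
  · have b1 : ‖LL m (pt (cs 12) t)‖ ≤ 2 ^ 4 := by
      rw [LL, norm_prod]
      exact (prod_le_prod (fun j _ => norm_nonneg _) fun j _ =>
        hLSP.2.2.1 m _ (by rw [hre]; norm_num)).trans (by simp)
    have b2 : (us (pt (cs 12) t)).re = 24 := by simp [us, pt, cs]; norm_num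
    have b3 := (norm_nonneg _).trans (hb t)
    rw [norm_mul, norm_mul, norm_cpow_eq_rpow_re_of_pos hq, b2]
    calc _ ≤ M * dk (pt (cs 12) t) * q ^ (24 : ℝ) * 2 ^ 4 := by gcongr; exact hb t
      _ = _ := by ring

theorem pAFS (hI : INB) (hLSP : LSP) (hB : BRG) (hG : G1W) (hA : AFE4) (hW : WRB) : AFS := by
  intro c k Δ hk h1 hΔ
  obtain ⟨q1, -, q2, q3⟩ := hB.2.1 k
  have hq : 0 < qk k := (abs_pos.2 (Int.cast_ne_zero.2 hk.ne_zero)).trans_le q1
  obtain ⟨⟨C₀, -, hg⟩, -⟩ := hG (par k) c q2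
  obtain ⟨C, hC, hW⟩ := hW _ C₀ 2 hg
  obtain ⟨-, w1, w0, w2, -, w4⟩ := hW _ q3
  have hp : Continuous fun t : R4 => pt (cs 12) t := by unfold pt; fun_prop
  have c1 : Continuous fun t : R4 => W4 (g1 (par k) c) (gam k) (pt (cs 12) t) :=
    (continuous_iff_continuousAt.2 fun t => (w1 _ fun j => by simp [pt, cs]).continuousAt.comp
      hp.continuousAt).mul (w2.continuous.comp hp)
  have b := fun t : R4 => w4 12 Δ (by norm_num) hΔ (pt (cs 12) t) fun j => by simp [pt, cs]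
  have i1 := afs_int hI hLSP hq k c1 fun t => (b t).2.2.2.1
  have i2 := afs_int hI hLSP (W := fun u => W4 (g1 (par k) c) (gam k) u * (1 - cF Δ u)) hq k
    (c1.mul (continuous_const.sub ((w0 Δ).continuous.comp hp))) fun t => (b t).2.2.1
  rw [hA c k hk h1, ← sub_eq_iff_eq_add']
  unfold Tm Fm In
  rw [← integral_sub i1 i2]
  exact integral_congr_ae (Filter.Eventually.of_forall fun t => by ring)

end Pool.Agent.Q4
end

-- part Pool.Agent.P.MP_ea46f5_nt.Q4.FREP1
section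

namespace Pool.Agent.Q4

open Complex MeasureTheory Finset Pool.Agent.QM
open scoped Real

theorem pREP1 : REP1 := by
  refine ⟨1, one_pos, fun f R c M hf hR => ?_⟩
  have := (rep1_core (δ := 1 / 4) (by norm_num) le_rfl (by norm_num)
    ⟨fun u hu => (hR u hu).1.continuousAt.continuousWithinAt,
      fun u hu => (hR u ⟨hu.1.le, hu.2.le⟩).1.differentiableWithinAt⟩
    (fun u hu => (hR u hu).2) hf).2.2
  simpa only [rE_eq_Ew, one_mul] using this

theorem pREP4 (hS : HSEP) : REP4 := by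
  refine ⟨16, by norm_num, fun F ω ω' Mk f R c δ M B hδ _ hM h hB => ?_⟩
  have := rep4_core' (c := fun _ => c) hδ hM (fun k hk => (h k hk).2.1)
    (fun k hk => (h k hk).2.2.2.1) (fun k hk => ⟨hS _ _ _ (h k hk).2.2.2.2.1, (h k hk).2.2.2.2.2⟩)
    (fun k hk => (h k hk).2.2.1) hB
  rw [mul_div_right_comm]
  exact this.symm

theorem pMUL : MUL := fun F ω f B h g i j hh hg hf hB =>
  (mul_core i j (fun s => g (s i + s j)) h hh le_rfl (fun t => by
    rw [← hg]
    congr 1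
    simp [pt, cs, add_mul]) (fun k hk => (hf k hk).1) (fun k hk => (hf k hk).2) hB).symm

theorem pPR4 : PR4 := fun c f h => pr4_core c f (fun j => (h j).1) fun j => (h j).2

end Pool.Agent.Q4
end

-- part Pool.Agent.P.MP_ea46f5_nt.Q4.FSH4
section

namespace Pool.Agent.Q4

open Complex MeasureTheory Finset Pool.Agent.QM
open scoped Real

theorem pHSEP : HSEP := by
  intro n U G h
  refine ⟨fun x hx => (h x hx).continuousAt.continuousWithinAt, fun s hs i => ?_⟩
  have h1 : DifferentiableAt ℂ (fun w : ℂ => Function.update s i w) (s i) := by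
    rw [differentiableAt_pi]
    intro j
    by_cases hj : j = i
    · subst hj; simp
    · simp [Function.update_of_ne hj]
  have h2 : DifferentiableAt ℂ G (Function.update s i (s i)) := by
    rw [Function.update_eq_self]; exact h s hs
  exact h2.comp (s i) h1

theorem s4_one_le_prod {ι : Type} (s : Finset ι) (f : ι → ℝ) (h : ∀ i ∈ s, 1 ≤ f i) :
    1 ≤ ∏ i ∈ s, f i := by
  have := prod_le_prod (s := s) (f := fun _ => (1 : ℝ)) (g := f) (fun _ _ => zero_le_one) h
  simpa using this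

theorem s4_br1 (t : ℝ) : 1 ≤ br t := by unfold br; linarith [abs_nonneg t]

theorem s4_br0 (t : ℝ) : 0 < br t := lt_of_lt_of_le one_pos (s4_br1 t)

theorem s4_br_add (t u : ℝ) : br (t + u) ≤ br t * br u := by
  unfold br
  have := abs_add_le t u
  nlinarith [abs_nonneg t, abs_nonneg u, mul_nonneg (abs_nonneg t) (abs_nonneg u)]

theorem s4_br_neg (t : ℝ) : br (-t) = br t := by simp [br]

theorem s4_gauss {κ : ℝ} (hκ : 0 < κ) (n : ℕ) : ∃ C : ℝ, 0 < C ∧ ∀ x : ℝ,
    br x ^ n * Real.exp (-κ * x ^ 2) ≤ C * Real.exp (-|x|) := by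
  refine ⟨Real.exp (((n : ℝ) + 1) ^ 2 / (4 * κ)), Real.exp_pos _, fun x => ?_⟩
  have h1 : br x ≤ Real.exp |x| := by unfold br; linarith [Real.add_one_le_exp |x|]
  have h2 : br x ^ n ≤ Real.exp (n * |x|) := by
    rw [Real.exp_nat_mul]; exact pow_le_pow_left₀ (s4_br0 x).le h1 n
  calc br x ^ n * Real.exp (-κ * x ^ 2) ≤ Real.exp (n * |x|) * Real.exp (-κ * x ^ 2) := by gcongr
    _ = Real.exp (n * |x| + -κ * x ^ 2) := by rw [← Real.exp_add]
    _ ≤ Real.exp (((n : ℝ) + 1) ^ 2 / (4 * κ) + -|x|) := by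
        apply Real.exp_le_exp.2
        have h3 : ((n : ℝ) + 1) * |x| - κ * x ^ 2 ≤ ((n : ℝ) + 1) ^ 2 / (4 * κ) := by
          rw [le_div_iff₀ (by positivity), ← sq_abs x]
          nlinarith [sq_nonneg ((n : ℝ) + 1 - 2 * κ * |x|)]
        linarith
    _ = _ := by rw [Real.exp_add]

theorem s4_gauss' {κ : ℝ} (hκ : 0 < κ) (n : ℕ) : ∃ C : ℝ, 0 < C ∧ ∀ x : ℝ,
    br x ^ n * Real.exp (-κ * x ^ 2) ≤ C := by
  obtain ⟨C, hC, h⟩ := s4_gauss hκ n
  refine ⟨C, hC, fun x => (h x).trans ?_⟩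
  have : Real.exp (-|x|) ≤ 1 := Real.exp_le_one_iff.2 (by linarith [abs_nonneg x])
  nlinarith

theorem pSH4 (hS : SDn) (hI : INB) : SH4 := by
  refine ⟨?_, ?_, ?_⟩
  · intro a b M c c' G hc hc' hG hb
    have hmem : ∀ t, pt c t ∈ Bx a b := fun t => pt_box (a := cs a) (b := cs b) hc t
    have hcont : Continuous fun t => G (pt c t) :=
      (pHSEP 4 _ G hG).1.comp_continuous (pt_cont c) hmem
    have h2 := hI 4 c M G hcont fun t => hb _ (hmem t)
    refine ⟨hS 4 (cs a) (cs b) c c' M G hc hc' (pHSEP 4 _ G hG) hb, h2.1, h2.2.trans_eq ?_⟩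
    ring
  · intro n m u
    refine ⟨?_, ?_, ?_, ?_, rfl⟩
    · unfold gn dn
      rw [← prod_mul_distrib]
      refine prod_congr rfl fun i _ => ?_
      have := (s4_br0 (u i).im).ne'
      rw [pow_add]; field_simp
    · unfold dn
      refine prod_le_prod (fun i _ => by have := s4_br0 (u i).im; positivity) fun i _ => ?_
      have h0 := s4_br0 (u i).im
      exact one_div_le_one_div_of_le (by positivity)
        (pow_le_pow_right₀ (s4_br1 _) (Nat.le_add_right n m))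
    · unfold dn
      exact prod_pos fun i _ => by have := s4_br0 (u i).im; positivity
    · unfold gn
      exact s4_one_le_prod _ _ fun i _ => one_le_pow₀ (s4_br1 _)
  · intro κ n m hκ
    obtain ⟨C, hC, h⟩ := s4_gauss hκ (n + m)
    refine ⟨C, hC, fun τ t => ?_⟩
    have e1 : Real.exp (-|τ - t|) ≤ 1 := Real.exp_le_one_iff.2 (by linarith [abs_nonneg (τ - t)])
    have e0 := Real.exp_pos (-κ * (τ - t) ^ 2)
    have b1 : br τ ≤ br t * br (τ - t) := by
      have := s4_br_add t (τ - t); rwa [add_sub_cancel] at this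
    have p0 := s4_br0 τ
    have p1 := s4_br0 t
    have p2 := s4_br0 (τ - t)
    have b2 : ∀ j : ℕ, br τ ^ j ≤ br t ^ j * br (τ - t) ^ j := fun j => by
      rw [← mul_pow]; exact pow_le_pow_left₀ p0.le b1 j
    have h4 := h (τ - t)
    have h5 : br (τ - t) ^ (n + m) * Real.exp (-κ * (τ - t) ^ 2) ≤ C := h4.trans (by nlinarith)
    have b3 : br (τ - t) ^ n ≤ br (τ - t) ^ (n + m) :=
      pow_le_pow_right₀ (s4_br1 _) (Nat.le_add_right n m)
    refine ⟨?_, ?_, ?_⟩
    · calc br τ ^ n * Real.exp (-κ * (τ - t) ^ 2)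
          ≤ br t ^ n * br (τ - t) ^ (n + m) * Real.exp (-κ * (τ - t) ^ 2) := by
            gcongr; exact (b2 n).trans (by gcongr)
        _ = br t ^ n * (br (τ - t) ^ (n + m) * Real.exp (-κ * (τ - t) ^ 2)) := by ring
        _ ≤ br t ^ n * (C * Real.exp (-|τ - t|)) := by gcongr
        _ = _ := by ring
    · rw [le_div_iff₀ (by positivity)]
      calc br τ ^ n * Real.exp (-κ * (τ - t) ^ 2) * br (τ - t) ^ m
          ≤ br t ^ n * br (τ - t) ^ n * Real.exp (-κ * (τ - t) ^ 2) * br (τ - t) ^ m := by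
            gcongr; exact b2 n
        _ = br t ^ n * (br (τ - t) ^ (n + m) * Real.exp (-κ * (τ - t) ^ 2)) := by ring
        _ ≤ br t ^ n * C := by gcongr
        _ = _ := by ring
    · rw [le_div_iff₀ (by positivity)]
      calc br τ ^ n * Real.exp (-κ * (τ - t) ^ 2) * br τ ^ m
          = br τ ^ (n + m) * Real.exp (-κ * (τ - t) ^ 2) := by ring
        _ ≤ br t ^ (n + m) * br (τ - t) ^ (n + m) * Real.exp (-κ * (τ - t) ^ 2) := by
            gcongr; exact b2 _
        _ = br t ^ (n + m) * (br (τ - t) ^ (n + m) * Real.exp (-κ * (τ - t) ^ 2)) := by ring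
        _ ≤ br t ^ (n + m) * C := by gcongr
        _ = _ := by ring

theorem s4_lsum {α : Type} [MeasureSpace α] (F : Finset ℤ) (f : ℤ → α → ENNReal) :
    ∑ k ∈ F, ∫⁻ y, f k y ≤ ∫⁻ y, ∑ k ∈ F, f k y := by
  classical
  induction F using Finset.induction_on with
  | empty => simp
  | insert a S ha ih =>
    simp only [sum_insert ha]
    exact (add_le_add le_rfl ih).trans (le_lintegral_add _ _)

theorem pSIV : SIV := by
  intro α _ F f g hg h
  have g0 : ∀ y, 0 ≤ g y := fun y => (sum_nonneg fun k _ => norm_nonneg _).trans (h y)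
  have h1 : ∑ k ∈ F, ‖∫ y, f k y‖ₑ ≤ ENNReal.ofReal (∫ y, g y) := by
    calc ∑ k ∈ F, ‖∫ y, f k y‖ₑ ≤ ∑ k ∈ F, ∫⁻ y, ‖f k y‖ₑ :=
          sum_le_sum fun k _ => enorm_integral_le_lintegral_enorm _
      _ ≤ ∫⁻ y, ∑ k ∈ F, ‖f k y‖ₑ := s4_lsum F _
      _ ≤ ∫⁻ y, ENNReal.ofReal (g y) := by
          refine lintegral_mono fun y => ?_
          have : ∑ k ∈ F, ‖f k y‖ₑ = ENNReal.ofReal (∑ k ∈ F, ‖f k y‖) := by
            rw [ENNReal.ofReal_sum_of_nonneg fun k _ => norm_nonneg _]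
            exact sum_congr rfl fun k _ => (ofReal_norm _).symm
          rw [this]
          exact ENNReal.ofReal_le_ofReal (h y)
      _ = _ := (ofReal_integral_eq_lintegral_ofReal hg (Filter.Eventually.of_forall g0)).symm
  have h2 : ∑ k ∈ F, ‖∫ y, f k y‖ₑ = ENNReal.ofReal (∑ k ∈ F, ‖∫ y, f k y‖) := by
    rw [ENNReal.ofReal_sum_of_nonneg fun k _ => norm_nonneg _]
    exact sum_congr rfl fun k _ => (ofReal_norm _).symm
  rw [h2] at h1
  exact (ENNReal.ofReal_le_ofReal_iff (integral_nonneg g0)).1 h1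

theorem s4_amgm {a b c d : ℝ} : a * b * c * d ≤ (a ^ 4 + b ^ 4 + c ^ 4 + d ^ 4) / 4 := by
  nlinarith [sq_nonneg (a ^ 2 - b ^ 2), sq_nonneg (c ^ 2 - d ^ 2), sq_nonneg (a * b - c * d)]

theorem pL4 : L4 := by
  intro A N B y F ω l G hN hω hl hB hG
  have B0 : 0 ≤ B := by
    have h1 := (sum_nonneg fun k hk => mul_nonneg (hω k hk) (pow_nonneg (hl k 0) 4)).trans (hB 0)
    have h2 : 0 < br 0 ^ A := pow_pos (s4_br0 0) A
    by_contra hn
    push Not at hn
    nlinarith
  have hint : Integrable fun t : R4 => ∏ i, 1 / br (t i + y) ^ 2 :=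
    (dk_int (n := 4)).comp_add_right (fun _ => y)
  have hval : ∫ t : R4, ∏ i, 1 / br (t i + y) ^ 2 ≤ 16 := by
    have h1 := integral_add_right_eq_self (μ := (volume : Measure R4))
      (fun t : R4 => ∏ i, 1 / br (t i) ^ 2) (fun _ => y)
    have h2 := dk_integral (n := 4)
    simp only [Pi.add_apply] at h1
    rw [h1]; linarith
  have py := s4_br0 y
  refine (pSIV R4 F G (fun t => N * B * br y ^ A * ∏ i, 1 / br (t i + y) ^ 2)
    (hint.const_mul _) fun t => ?_).trans ?_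
  · have pD : 0 ≤ ∏ j, 1 / br (t j + y) ^ (A + 2) :=
      prod_nonneg fun j _ => by have := s4_br0 (t j + y); positivity
    have hj : ∀ j, (∏ i, 1 / br (t i + y) ^ (A + 2)) * br (t j) ^ A ≤
        br y ^ A * ∏ i, 1 / br (t i + y) ^ 2 := by
      intro j
      have b1 : br (t j) ≤ br (t j + y) * br y := by
        have := s4_br_add (t j + y) (-y)
        rwa [add_neg_cancel_right, s4_br_neg] at this
      have b2 : br (t j) ^ A ≤ br (t j + y) ^ A * br y ^ A := by
        rw [← mul_pow]; exact pow_le_pow_left₀ (s4_br0 _).le b1 A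
      rw [← mul_prod_erase univ _ (mem_univ j), ← mul_prod_erase univ (fun i => 1 / br (t i + y) ^ 2)
        (mem_univ j)]
      have p1 := s4_br0 (t j + y)
      have q1 : ∏ i ∈ univ.erase j, 1 / br (t i + y) ^ (A + 2) ≤
          ∏ i ∈ univ.erase j, 1 / br (t i + y) ^ 2 :=
        prod_le_prod (fun i _ => by have := s4_br0 (t i + y); positivity) fun i _ =>
          one_div_le_one_div_of_le (by have := s4_br0 (t i + y); positivity)
            (pow_le_pow_right₀ (s4_br1 _) (Nat.le_add_left 2 A))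
      have q0 : 0 ≤ ∏ i ∈ univ.erase j, 1 / br (t i + y) ^ (A + 2) :=
        prod_nonneg fun i _ => by have := s4_br0 (t i + y); positivity
      calc 1 / br (t j + y) ^ (A + 2) * (∏ i ∈ univ.erase j, 1 / br (t i + y) ^ (A + 2)) * br (t j) ^ A
          ≤ 1 / br (t j + y) ^ (A + 2) * (∏ i ∈ univ.erase j, 1 / br (t i + y) ^ 2) *
            (br (t j + y) ^ A * br y ^ A) := by
            have := s4_br0 (t j)
            gcongr
        _ = _ := by rw [pow_add]; field_simp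
    calc ∑ k ∈ F, ‖G k t‖ ≤ ∑ k ∈ F, N * ω k * (∏ j, 1 / br (t j + y) ^ (A + 2)) *
          ((l k (t 0) ^ 4 + l k (t 1) ^ 4 + l k (t 2) ^ 4 + l k (t 3) ^ 4) / 4) := by
          refine sum_le_sum fun k hk => (hG k hk t).trans ?_
          have := hω k hk
          rw [Fin.prod_univ_four (fun j => l k (t j))]
          gcongr
          exact s4_amgm
      _ = N * (∏ j, 1 / br (t j + y) ^ (A + 2)) / 4 * (∑ k ∈ F, ω k * l k (t 0) ^ 4 +
          ∑ k ∈ F, ω k * l k (t 1) ^ 4 + ∑ k ∈ F, ω k * l k (t 2) ^ 4 +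
          ∑ k ∈ F, ω k * l k (t 3) ^ 4) := by
          rw [← sum_add_distrib, ← sum_add_distrib, ← sum_add_distrib, mul_sum]
          exact sum_congr rfl fun k _ => by ring
      _ ≤ N * (∏ j, 1 / br (t j + y) ^ (A + 2)) / 4 * (B * br (t 0) ^ A + B * br (t 1) ^ A +
          B * br (t 2) ^ A + B * br (t 3) ^ A) := by
          exact mul_le_mul_of_nonneg_left (add_le_add (add_le_add (add_le_add (hB _) (hB _)) (hB _))
            (hB _)) (by positivity)
      _ = N * B / 4 * ((∏ j, 1 / br (t j + y) ^ (A + 2)) * br (t 0) ^ A +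
          (∏ j, 1 / br (t j + y) ^ (A + 2)) * br (t 1) ^ A +
          (∏ j, 1 / br (t j + y) ^ (A + 2)) * br (t 2) ^ A +
          (∏ j, 1 / br (t j + y) ^ (A + 2)) * br (t 3) ^ A) := by ring
      _ ≤ N * B / 4 * (br y ^ A * (∏ i, 1 / br (t i + y) ^ 2) + br y ^ A * (∏ i, 1 / br (t i + y) ^ 2)
          + br y ^ A * (∏ i, 1 / br (t i + y) ^ 2) + br y ^ A * ∏ i, 1 / br (t i + y) ^ 2) := by
          exact mul_le_mul_of_nonneg_left (add_le_add (add_le_add (add_le_add (hj 0) (hj 1)) (hj 2))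
            (hj 3)) (by positivity)
      _ = _ := by ring
  · rw [integral_const_mul]
    calc N * B * br y ^ A * ∫ t : R4, ∏ i, 1 / br (t i + y) ^ 2 ≤ N * B * br y ^ A * 16 := by gcongr
      _ = _ := by ring

end Pool.Agent.Q4
end
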