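import Pool.Agent.K.MP_ea46f5_nt.C23
import Pool.Agent.K.MP_ea46f5_nt.C6

namespace Pool.Agent.Q4

open Complex MeasureTheory Finset Pool.Agent.QM
open scoped Real

theorem sh_par {X μ : ℝ} (hX : 0 < X) (hL : 100 ≤ Real.log X) (hμ : |μ| ≤ 1 / Real.log X ^ 39) :
    X / 3 ≤ X * Real.exp μ ∧ X * Real.exp μ ≤ 3 * X ∧
      Real.log (X * Real.exp μ) ≤ 2 * Real.log X ∧ 1 ≤ Real.log (X * Real.exp μ) ∧
      |X * Real.exp μ - X| * (2 * Real.log X) ^ 10 ≤ 2048 * X ∧
      1 / Real.log (X * Real.exp μ) ^ 41 ≤ 1 / Real.log X ^ 40 ∧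
      1 / Real.log X ^ 40 ≤ 1 / Real.log (X * Real.exp μ) ^ 39 := by
  rw [Real.log_mul hX.ne' (Real.exp_pos _).ne', Real.log_exp]
  set L := Real.log X with hLd
  have L0 : 0 < L := by linarith
  have h1 : |μ| ≤ 1 := hμ.trans (div_le_one_of_le₀ (one_le_pow₀ (by linarith)) (by positivity))
  obtain ⟨h2, h3⟩ := abs_le.1 h1
  have e3 : Real.exp 1 ≤ 3 := by linarith [Real.exp_one_lt_d9]
  have e4 : Real.exp μ ≤ 3 := (Real.exp_le_exp.2 h3).trans e3
  have e5 : 1 ≤ Real.exp μ * 3 := by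
    calc (1 : ℝ) ≤ Real.exp (μ + 1) := Real.one_le_exp (by linarith)
      _ ≤ _ := by rw [Real.exp_add]; gcongr
  refine ⟨by nlinarith, by nlinarith, by linarith, by linarith, ?_, ?_, ?_⟩
  · have e : X * Real.exp μ - X = X * (Real.exp μ - 1) := by ring
    have k : 1 / L ^ 39 * L ^ 10 ≤ 1 := by
      rw [div_mul_eq_mul_div, one_mul, div_le_one (by positivity)]
      exact pow_le_pow_right₀ (by linarith) (by norm_num)
    rw [e, abs_mul, abs_of_pos hX]
    calc _ ≤ X * (2 * (1 / L ^ 39)) * (2 * L) ^ 10 := by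
          gcongr
          linarith [Real.abs_exp_sub_one_le h1]
      _ = 2048 * X * (1 / L ^ 39 * L ^ 10) := by ring
      _ ≤ 2048 * X * 1 := by gcongr
      _ = _ := mul_one _
  · refine one_div_le_one_div_of_le (by positivity) ?_
    calc L ^ 40 ≤ (99 / 100) ^ 41 * L * L ^ 40 :=
          le_mul_of_one_le_left (by positivity) (by nlinarith)
      _ = (99 / 100 * L) ^ 41 := by ring
      _ ≤ _ := pow_le_pow_left₀ (by positivity) (by linarith) _
  · refine one_div_le_one_div_of_le (pow_pos (by linarith) _) ?_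
    calc (L + μ) ^ 39 ≤ (101 / 100 * L) ^ 39 := pow_le_pow_left₀ (by linarith) (by linarith) _
      _ = (101 / 100) ^ 39 * L ^ 39 := by ring
      _ ≤ L * L ^ 39 := by gcongr; nlinarith
      _ = _ := by ring

theorem sh_exp (L : ℝ) : Real.exp (-L ^ 2 / 8) * (2 * L) ^ 10 ≤ 10 ^ 10 := by
  have h := Real.pow_div_factorial_le_exp (L ^ 2 / 8) (by positivity) 5
  have e : Real.exp (-L ^ 2 / 8) * Real.exp (L ^ 2 / 8) = 1 := by
    rw [← Real.exp_add, ← Real.exp_zero]; congr 1; ring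
  have h2 : (2 * L) ^ 10 ≤ 10 ^ 10 * Real.exp (L ^ 2 / 8) := by
    norm_num [Nat.factorial] at h
    nlinarith [Real.exp_pos (L ^ 2 / 8)]
  calc _ ≤ Real.exp (-L ^ 2 / 8) * (10 ^ 10 * Real.exp (L ^ 2 / 8)) := by gcongr
    _ = 10 ^ 10 * (Real.exp (-L ^ 2 / 8) * Real.exp (L ^ 2 / 8)) := by ring
    _ = _ := by rw [e, mul_one]

open Classical in
/-- The squarefree kernels of the discriminants in `Sd a X`. -/
noncomputable def shK (a : ℕ) (X : ℝ) : Finset ℤ :=
  (Icc (-⌈X⌉) ⌈X⌉).filter fun k => Squarefree k ∧ k ≠ 1 ∧ par k = a ∧ qk k < X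

theorem sh_mem (hB : BRG) {a : ℕ} {X : ℝ} {k : ℤ} :
    k ∈ shK a X ↔ Squarefree k ∧ k ≠ 1 ∧ par k = a ∧ qk k < X := by
  classical
  unfold shK
  rw [mem_filter, and_iff_right_iff_imp]
  rintro ⟨-, -, -, h⟩
  have h1 : |(k : ℝ)| ≤ (⌈X⌉ : ℝ) := ((hB.2.1 k).1.trans h.le).trans (Int.le_ceil X)
  have h2 : |k| ≤ ⌈X⌉ := by exact_mod_cast h1
  exact mem_Icc.2 (abs_le.1 h2)

theorem sh_sign {a : ℕ} (ha : a ≤ 1) {k : ℤ} (hk : k ≠ 0) : 0 < (-1) ^ a * disc k ↔ par k = a := by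
  unfold disc par
  interval_cases a <;> split_ifs <;> simp <;> omega

theorem sh_sum (hB : BRG) (hFE : FE) {a : ℕ} (ha : a ≤ 1) (X : ℝ) :
    ∑ d ∈ Sd a X, Lhalf d ^ 4 = ∑ k ∈ shK a X, Lf k (1 / 2) ^ 4 := by
  classical
  have hm : ∀ d : ℤ, d ∈ Sd a X ↔ IsFund d ∧ |(d : ℝ)| < X ∧ 0 < (-1) ^ a * d := by
    intro d
    rw [Sd, mem_filter, Fund, mem_filter, mem_Ioo, neg_lt, Int.lt_ceil, Int.lt_ceil, abs_lt]
    push_cast
    constructor
    · rintro ⟨⟨⟨h1, h2⟩, h3⟩, h4⟩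
      exact ⟨h3, ⟨by linarith, h2⟩, h4⟩
    · rintro ⟨h3, ⟨h1, h2⟩, h4⟩
      exact ⟨⟨⟨by linarith, h2⟩, h3⟩, h4⟩
  symm
  refine sum_bij (fun k _ => disc k) (fun k hk => ?_) (fun k hk k' hk' h => ?_) (fun d hd => ?_)
    fun k hk => ?_
  · obtain ⟨h1, h2, h3, h4⟩ := (sh_mem hB).1 hk
    refine (hm _).2 ⟨?_, h4, (sh_sign ha h1.ne_zero).2 h3⟩
    have h5 : ¬ k % 4 = 0 := fun h => by
      have := h1 2 (by omega)
      rw [Int.isUnit_iff] at this
      omega
    unfold disc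
    split_ifs with h
    · exact ⟨h2, Or.inl ⟨h, h1⟩⟩
    · exact ⟨by omega, Or.inr ⟨k, rfl, by omega, h1⟩⟩
  · unfold disc at h
    split_ifs at h <;> omega
  · obtain ⟨h1, h2, h3⟩ := (hm d).1 hd
    obtain ⟨k, k1, k2, rfl⟩ := hB.1 d h1
    exact ⟨k, (sh_mem hB).2 ⟨k1, k2, (sh_sign ha k1.ne_zero).1 h3, h2⟩, rfl⟩
  · obtain ⟨h1, h2, -⟩ := (sh_mem hB).1 hk
    rw [(hFE k h1 h2).2]

/-- The fourth power of the central value, as a real number. -/
noncomputable def shg (k : ℤ) : ℝ := ‖Lf k (1 / 2)‖ ^ 4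

open Classical in
noncomputable def sht (a : ℕ) (η Y : ℝ) (k : ℤ) : ℝ :=
  if k ≠ 1 ∧ par k = a then phi η (qk k / Y) * shg k else 0

theorem shg_eq (hR : REAL) {k : ℤ} (h1 : Squarefree k) (h2 : k ≠ 1) :
    Lf k (1 / 2) ^ 4 = (shg k : ℂ) := by
  have e : Lf k (1 / 2) = ((Lf k (1 / 2)).re : ℂ) :=
    Complex.ext (by simp) (by simpa using hR k h1 h2)
  unfold shg
  rw [e, Complex.norm_real, Real.norm_eq_abs, Even.pow_abs (by decide)]
  simp

theorem sm_eq (hR : REAL) (a : ℕ) (η Y : ℝ) (k : SF) : sm a η Y k = (sht a η Y k : ℂ) := by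
  unfold sm sht
  split_ifs with h
  · rw [shg_eq hR k.2 h.1]
    simp
  · simp

theorem sh_four (hB : BRG) (hF : FOUR) : ∃ C : ℝ, 0 < C ∧ ∀ (X : ℝ) (F : Finset ℤ), 2 ≤ X → SQ F →
    ∑ k ∈ F, om (|(k : ℝ)| / X) * shg k ≤ C * X * (2 * Real.log X) ^ 10 := by
  obtain ⟨A, C, hC, h⟩ := hF
  refine ⟨7 ^ 4 * C, by positivity, fun X F hX hS => ?_⟩
  have a := h X (by linarith) F hS 0
  have l0 : 0 ≤ lg X := by
    have := lg_ge (K := X) (by linarith)
    unfold lg
    linarith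
  have l1 : lg X ≤ 2 * Real.log X := by
    rw [two_mul, ← Real.log_mul (by linarith) (by linarith)]
    exact Real.log_le_log (by linarith) (by nlinarith)
  simp only [ofReal_zero, zero_mul, add_zero, br, abs_zero, one_pow, mul_one] at a
  calc _ ≤ ∑ k ∈ F, 7 ^ 4 * (om (|(k : ℝ)| / X) * ‖Lo k (1 / 2)‖ ^ 4) := by
        refine sum_le_sum fun k _ => ?_
        have o : 0 ≤ om (|(k : ℝ)| / X) := le_min (by positivity) (by positivity)
        have b := pow_le_pow_left₀ (norm_nonneg _) (hB.2.2.1 k (1 / 2) (by norm_num)).2 4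
        have := mul_le_mul_of_nonneg_left b o
        unfold shg
        linarith
    _ ≤ 7 ^ 4 * (C * X * lg X ^ 10) := by rw [← mul_sum]; gcongr
    _ ≤ 7 ^ 4 * (C * X * (2 * Real.log X) ^ 10) := by gcongr
    _ = _ := by ring

section
variable (hB : BRG) (hP : PHW) {X : ℝ} (hX : 0 < X) (hL : 100 ≤ Real.log X) {k : ℤ} (hk : k ≠ 0)
include hB hP hX hL hk

omit hP hX hL in
theorem sh_q : 0 < |(k : ℝ)| ∧ 0 < qk k := by
  have : 0 < |(k : ℝ)| := abs_pos.2 (by exact_mod_cast hk)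
  exact ⟨this, this.trans_le (hB.2.1 k).1⟩

theorem sh_up (h : qk k < X) :
    1 - phi (1 / Real.log X ^ 40) (qk k / (X * Real.exp (1 / Real.log X ^ 39))) ≤
      Real.exp (-Real.log X ^ 2 / 8) * om (|(k : ℝ)| / X) := by
  obtain ⟨k0, q0⟩ := sh_q hB hk
  set L := Real.log X with hLd
  have L0 : 0 < L := by linarith
  have x0 : 0 < qk k / (X * Real.exp (1 / L ^ 39)) := by positivity
  have l1 : Real.log (qk k / (X * Real.exp (1 / L ^ 39))) ≤ -(1 / L ^ 39) := by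
    rw [Real.log_div q0.ne' (by positivity), Real.log_mul hX.ne' (Real.exp_pos _).ne',
      Real.log_exp]
    linarith [Real.log_le_log q0 h.le]
  have p : 0 < 1 / L ^ 39 := by positivity
  have x1 : qk k / (X * Real.exp (1 / L ^ 39)) ≤ 1 := by
    rw [← Real.log_nonpos_iff x0.le]
    linarith
  have y0 : 0 < |(k : ℝ)| / X := by positivity
  have y1 : |(k : ℝ)| / X ≤ 1 := (div_le_one hX).2 ((hB.2.1 k).1.trans h.le)
  have o : 1 ≤ om (|(k : ℝ)| / X) :=
    le_min (Real.one_le_rpow_of_pos_of_le_one_of_nonpos y0 y1 (by norm_num))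
      (Real.one_le_rpow_of_pos_of_le_one_of_nonpos y0 y1 (by norm_num))
  refine ((hP _ _ (by positivity) x0).2.2.2.2.1 x1).trans
    (le_trans (Real.exp_le_exp.2 ?_) (le_mul_of_one_le_right (Real.exp_pos _).le o))
  rw [div_le_iff₀ (by positivity)]
  have e : -L ^ 2 / 8 * (4 * (1 / L ^ 40) ^ 2) = -(1 / L ^ 39) ^ 2 / 2 := by field_simp; ring
  rw [e]
  nlinarith

theorem sh_dn (h : X ≤ qk k) :
    phi (1 / Real.log X ^ 40) (qk k / (X * Real.exp (-(1 / Real.log X ^ 39)))) ≤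
      Real.exp (-Real.log X ^ 2 / 8) * om (|(k : ℝ)| / X) := by
  obtain ⟨k0, q0⟩ := sh_q hB hk
  set L := Real.log X with hLd
  have L0 : 0 < L := by linarith
  set x := qk k / (X * Real.exp (-(1 / L ^ 39))) with hx
  have x0 : 0 < x := by positivity
  have p : 0 < 1 / L ^ 39 := by positivity
  have l1 : 1 / L ^ 39 ≤ Real.log x := by
    rw [hx, Real.log_div q0.ne' (by positivity), Real.log_mul hX.ne' (Real.exp_pos _).ne',
      Real.log_exp]
    linarith [Real.log_le_log hX h]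
  have x1 : 1 ≤ x := by
    rw [← Real.log_nonneg_iff x0]
    linarith
  have y0 : 0 < |(k : ℝ)| / X := by positivity
  have y1 : |(k : ℝ)| / X ≤ x :=
    div_le_div₀ q0.le (hB.2.1 k).1 (by positivity)
      (mul_le_of_le_one_right hX.le (Real.exp_le_one_iff.2 (by linarith)))
  have o : x ^ (-6 : ℝ) ≤ om (|(k : ℝ)| / X) :=
    le_min ((Real.rpow_le_rpow_of_exponent_le x1 (by norm_num)).trans
      (Real.rpow_le_rpow_of_nonpos y0 y1 (by norm_num)))
      (Real.rpow_le_rpow_of_nonpos y0 y1 (by norm_num))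
  refine ((hP _ _ (by positivity) x0).2.2.2.1 x1).trans
    (le_trans ?_ (mul_le_mul_of_nonneg_left o (Real.exp_pos _).le))
  rw [Real.rpow_def_of_pos x0, ← Real.exp_add, Real.exp_le_exp, div_le_iff₀ (by positivity)]
  have e : (-L ^ 2 / 8 + Real.log x * -6) * (4 * (1 / L ^ 40) ^ 2) =
      -(1 / L ^ 39) ^ 2 / 2 - Real.log x * (1 / L ^ 39) * (24 / L ^ 41) := by field_simp; ring
  have f : 24 / L ^ 41 ≤ 1 / 2 := by
    rw [div_le_div_iff₀ (by positivity) (by norm_num)]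
    have : L ^ 1 ≤ L ^ 41 := pow_le_pow_right₀ (by linarith) (by norm_num)
    linarith
  have g : Real.log x * (1 / L ^ 39) * (24 / L ^ 41) ≤ Real.log x * Real.log x * (1 / 2) := by
    have : 0 ≤ Real.log x := by linarith
    gcongr
  rw [e]
  nlinarith

end

theorem sh_nn (hB : BRG) (hP : PHW) (a : ℕ) {η Y : ℝ} (hη : 0 < η) (hY : 0 < Y) (k : SF) :
    0 ≤ sht a η Y k ∧ sht a η Y k ≤ shg k := by
  have g0 : 0 ≤ shg k := by unfold shg; positivity
  have := hP η (qk k / Y) hη (div_pos (sh_q hB k.2.ne_zero).2 hY)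
  unfold sht
  split_ifs
  · exact ⟨mul_nonneg this.2.1 g0, mul_le_of_le_one_left g0 this.2.2.1⟩
  · exact ⟨le_rfl, g0⟩

/-- The sharp sum lies between two smooth sums. -/
theorem sh_sand (hB : BRG) (hP : PHW) (hF : FOUR) : ∃ C : ℝ, 0 < C ∧ ∀ (a : ℕ) (X : ℝ), 2 ≤ X →
    100 ≤ Real.log X →
    (Summable (fun k : SF => sht a (1 / Real.log X ^ 40) (X * Real.exp (1 / Real.log X ^ 39)) k) →
      ∑ k ∈ shK a X, shg k ≤
        ∑' k : SF, sht a (1 / Real.log X ^ 40) (X * Real.exp (1 / Real.log X ^ 39)) k + C * X) ∧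
    ∑' k : SF, sht a (1 / Real.log X ^ 40) (X * Real.exp (-(1 / Real.log X ^ 39))) k ≤
      ∑ k ∈ shK a X, shg k + C * X := by
  classical
  obtain ⟨C, hC, h4⟩ := sh_four hB hF
  refine ⟨C * 10 ^ 10, by positivity, fun a X hX hL => ?_⟩
  have X0 : 0 < X := by linarith
  have L0 : 0 < Real.log X := by linarith
  have g0 : ∀ k, 0 ≤ shg k := fun k => by unfold shg; positivity
  have err : ∀ F : Finset ℤ, SQ F → ∑ k ∈ F, Real.exp (-Real.log X ^ 2 / 8) * om (|(k : ℝ)| / X) *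
      shg k ≤ C * 10 ^ 10 * X := fun F hS => by
    simp only [mul_assoc]
    rw [← mul_sum]
    calc _ ≤ Real.exp (-Real.log X ^ 2 / 8) * (C * X * (2 * Real.log X) ^ 10) :=
          mul_le_mul_of_nonneg_left (h4 X F hX hS) (Real.exp_pos _).le
      _ = C * X * (Real.exp (-Real.log X ^ 2 / 8) * (2 * Real.log X) ^ 10) := by ring
      _ ≤ C * X * 10 ^ 10 := by gcongr; exact sh_exp _
      _ = _ := by ring
  refine ⟨fun hs => ?_, ?_⟩
  · have a1 := hs.sum_le_tsum ((shK a X).subtype Squarefree) fun k _ =>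
      (sh_nn hB hP a (by positivity) (by positivity) k).1
    rw [sum_subtype_of_mem (sht a _ _) fun k hk => ((sh_mem hB).1 hk).1] at a1
    have a2 := err (shK a X) fun k hk => ⟨((sh_mem hB).1 hk).1, ((sh_mem hB).1 hk).2.1⟩
    refine le_trans ?_ (add_le_add a1 a2)
    rw [← sum_add_distrib]
    refine sum_le_sum fun k hk => ?_
    obtain ⟨h1, h2, h3, h5⟩ := (sh_mem hB).1 hk
    have := mul_le_mul_of_nonneg_right (sh_up hB hP X0 hL h1.ne_zero h5) (g0 k)
    rw [sht, if_pos ⟨h2, h3⟩]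
    linarith
  · refine Real.tsum_le_of_sum_le
      (fun k => (sh_nn hB hP a (by positivity) (by positivity) k).1) fun F => ?_
    set G := (F.map (Function.Embedding.subtype _)).filter fun k => k ≠ 1 ∧ par k = a with hG
    have hq : ∀ k ∈ G, Squarefree k ∧ k ≠ 1 ∧ par k = a := fun k hk => by
      obtain ⟨h1, h2⟩ := mem_filter.1 hk
      obtain ⟨j, -, rfl⟩ := mem_map.1 h1
      exact ⟨j.2, h2⟩
    have e : ∑ k ∈ F, sht a (1 / Real.log X ^ 40) (X * Real.exp (-(1 / Real.log X ^ 39))) k =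
        ∑ k ∈ G, phi (1 / Real.log X ^ 40) (qk k / (X * Real.exp (-(1 / Real.log X ^ 39)))) *
          shg k := by
      rw [hG, sum_filter, sum_map]
      rfl
    rw [e, ← sum_filter_add_sum_filter_not G fun k => qk k < X]
    refine add_le_add ?_ (le_trans (sum_le_sum fun k hk => ?_)
      (err (G.filter fun k => ¬ qk k < X) fun k hk =>
        ⟨(hq k (mem_filter.1 hk).1).1, (hq k (mem_filter.1 hk).1).2.1⟩))
    · refine le_trans (sum_le_sum fun k hk => ?_) (sum_le_sum_of_subset_of_nonneg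
        (fun k hk => ?_) fun k _ _ => g0 k)
      · have h1 := (hq k (mem_filter.1 hk).1).1
        exact mul_le_of_le_one_left (g0 k) (hP _ _ (by positivity)
          (div_pos (sh_q hB h1.ne_zero).2 (by positivity))).2.2.1
      · obtain ⟨h1, h2, h3⟩ := hq k (mem_filter.1 hk).1
        exact (sh_mem hB).2 ⟨h1, h2, h3, (mem_filter.1 hk).2⟩
    · exact mul_le_mul_of_nonneg_right (sh_dn hB hP X0 hL (hq k (mem_filter.1 hk).1).1.ne_zero
        (not_lt.1 (mem_filter.1 hk).2)) (g0 k)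

theorem pSHARP (hB : BRG) (hFE : FE) (hF : FOUR) (hE : ENDP) (hQ : QLIP) (hP : PHW) (hR : REAL)
    (hS : SMO) : SHARP := by
  intro a ha
  obtain ⟨c, r₁, hr₁, hE⟩ := hE a ha
  obtain ⟨r₂, C₂, hr₂, hQ⟩ := hQ a ha
  refine ⟨min r₁ r₂, lt_min hr₁ hr₂, fun r hr hr' δ hδ => ?_⟩
  obtain ⟨C₁, X₁, hE⟩ := hE r hr (hr'.trans (min_le_left _ _))
  obtain ⟨C₃, X₃, hS⟩ := hS a c δ ha hδ
  obtain ⟨C₄, hC₄, hW⟩ := sh_sand hB hP hF
  set D := |C₃| * 3 * 2 ^ δ + |C₁| * 3 + |C₂| * 2048 with hD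
  refine ⟨3 * D + C₄, max (3 * max (max X₁ X₃) 3) (Real.exp 100), fun X hX => ?_⟩
  have hX1 : 3 * max (max X₁ X₃) 3 ≤ X := (le_max_left _ _).trans hX
  have m1 : X₁ ≤ max (max X₁ X₃) 3 := (le_max_left _ _).trans (le_max_left _ _)
  have m2 : X₃ ≤ max (max X₁ X₃) 3 := (le_max_right _ _).trans (le_max_left _ _)
  have m3 : 3 ≤ max (max X₁ X₃) 3 := le_max_right _ _
  have X0 : 0 < X := by linarith
  have hL : 100 ≤ Real.log X := (Real.le_log_iff_exp_le X0).2 ((le_max_right _ _).trans hX)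
  have L0 : 0 < Real.log X := by linarith
  have hT : 1 ≤ Real.log X ^ δ := Real.one_le_rpow (by linarith) hδ.le
  set T := X * Real.log X ^ δ with hTd
  have XT : X ≤ T := le_mul_of_one_le_right X0.le hT
  have side : ∀ μ : ℝ, |μ| ≤ 1 / Real.log X ^ 39 →
      Summable (fun k : SF => sht a (1 / Real.log X ^ 40) (X * Real.exp μ) k) ∧
      ‖((∑' k : SF, sht a (1 / Real.log X ^ 40) (X * Real.exp μ) k : ℝ) : ℂ) -
        3 * X / π ^ 2 * Qm 4 a r X‖ ≤ D * T := by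
    intro μ hμ
    obtain ⟨p1, p2, p3, p4, p5, p6, p7⟩ := sh_par X0 hL hμ
    set Y := X * Real.exp μ with hY
    have Y0 : 0 < Y := by linarith
    obtain ⟨s1, s2⟩ := hS Y _ (by linarith) p6 p7
    have s3 := hE Y (1 / Real.log Y) (by linarith) (by positivity)
      ((div_le_one_of_le₀ p4 (by linarith)).trans (by norm_num))
    rw [funext (sm_eq hR a _ Y)] at s1 s2
    rw [← ofReal_tsum] at s2
    refine ⟨summable_ofReal.1 s1, ?_⟩
    have s4 : ‖Y * Qm 4 a r Y - X * Qm 4 a r X‖ ≤ |C₂| * (|Y - X| * (2 * Real.log X) ^ 10) := by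
      rcases le_total X Y with h | h
      · refine (hQ r X Y hr (hr'.trans (min_le_right _ _)) (by linarith) h).trans ?_
        rw [mul_assoc]
        have : 0 ≤ Y - X := by linarith
        gcongr
        exacts [le_abs_self _, le_abs_self _]
      · rw [norm_sub_rev, abs_sub_comm]
        refine (hQ r Y X hr (hr'.trans (min_le_right _ _)) (by linarith) h).trans ?_
        rw [mul_assoc]
        have : 0 ≤ X - Y := by linarith
        gcongr
        exacts [le_abs_self _, le_abs_self _, by linarith]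
    have s5 : ‖3 * Y / π ^ 2 * Qm 4 a r Y - 3 * X / π ^ 2 * Qm 4 a r X‖ ≤ |C₂| * 2048 * T := by
      have e : 3 * Y / π ^ 2 * Qm 4 a r Y - 3 * X / π ^ 2 * Qm 4 a r X =
          ((3 / π ^ 2 : ℝ) : ℂ) * (Y * Qm 4 a r Y - X * Qm 4 a r X) := by push_cast; ring
      have f : 3 / π ^ 2 ≤ 1 := by
        rw [div_le_one (by positivity)]
        nlinarith [Real.pi_gt_three]
      rw [e, norm_mul, Complex.norm_real, Real.norm_of_nonneg (by positivity)]
      calc _ ≤ 1 * (|C₂| * (2048 * T)) := by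
            gcongr
            exact s4.trans (mul_le_mul_of_nonneg_left (by linarith) (abs_nonneg _))
        _ = _ := by ring
    have s6 : C₃ * Y * Real.log Y ^ δ ≤ |C₃| * 3 * 2 ^ δ * T := by
      have : Real.log Y ^ δ ≤ 2 ^ δ * Real.log X ^ δ := by
        rw [← Real.mul_rpow (by norm_num) L0.le]
        exact Real.rpow_le_rpow (by linarith) p3 hδ.le
      have q : 0 ≤ Real.log Y ^ δ := Real.rpow_nonneg (by linarith) _
      calc _ ≤ |C₃| * (3 * X) * (2 ^ δ * Real.log X ^ δ) := by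
            gcongr
            exact le_abs_self _
        _ = _ := by rw [hTd]; ring
    have s7 : C₁ * Y ≤ |C₁| * 3 * T := by
      calc _ ≤ |C₁| * (3 * T) := by
            gcongr
            exacts [le_abs_self _, by linarith]
        _ = _ := by ring
    have t1 := norm_sub_le_norm_sub_add_norm_sub
      ((∑' k : SF, sht a (1 / Real.log X ^ 40) Y k : ℝ) : ℂ) (MT a c (1 / Real.log Y) Y)
      (3 * X / π ^ 2 * Qm 4 a r X)
    have t2 := norm_sub_le_norm_sub_add_norm_sub (MT a c (1 / Real.log Y) Y)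
      (3 * Y / π ^ 2 * Qm 4 a r Y) (3 * X / π ^ 2 * Qm 4 a r X)
    rw [hD]
    linarith
  have p : 0 < 1 / Real.log X ^ 39 := by positivity
  obtain ⟨u1, u2⟩ := side _ (abs_of_pos p).le
  obtain ⟨-, v2⟩ := side (-(1 / Real.log X ^ 39)) (by rw [abs_neg, abs_of_pos p])
  obtain ⟨w1, w2⟩ := hW a X (by linarith) hL
  have w3 := w1 u1
  set U := ∑' k : SF, sht a (1 / Real.log X ^ 40) (X * Real.exp (1 / Real.log X ^ 39)) k
  set V := ∑' k : SF, sht a (1 / Real.log X ^ 40) (X * Real.exp (-(1 / Real.log X ^ 39))) k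
  set S := ∑ k ∈ shK a X, shg k with hSd
  have e : ∑ d ∈ Sd a X, Lhalf d ^ 4 = (S : ℂ) := by
    rw [sh_sum hB hFE ha, hSd, ofReal_sum]
    exact sum_congr rfl fun k hk => shg_eq hR ((sh_mem hB).1 hk).1 ((sh_mem hB).1 hk).2.1
  have z1 : |U - V| ≤ 2 * (D * T) := by
    have := norm_sub_le_norm_sub_add_norm_sub (U : ℂ) (3 * X / π ^ 2 * Qm 4 a r X) V
    rw [← ofReal_sub, Complex.norm_real, Real.norm_eq_abs, norm_sub_rev _ (V : ℂ)] at this
    linarith
  have z2 : ‖(S : ℂ) - U‖ ≤ 2 * (D * T) + C₄ * T := by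
    have := mul_le_mul_of_nonneg_left XT hC₄.le
    rw [← ofReal_sub, Complex.norm_real, Real.norm_eq_abs, abs_le]
    constructor <;> linarith [le_abs_self (U - V), abs_nonneg (U - V)]
  have z3 := norm_sub_le_norm_sub_add_norm_sub (S : ℂ) U (3 * X / π ^ 2 * Qm 4 a r X)
  rw [e, zero_add, mul_assoc, ← hTd]
  linarith

end Pool.Agent.Q4
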