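import Pool.Agent.K.MP_ea46f5_nt.C23
import Pool.Agent.K.MP_ea46f5_nt.C11
import Pool.Agent.K.MP_ea46f5_nt.C5
import Pool.Agent.K.MP_ea46f5_nt.C17
import Pool.Agent.K.MP_ea46f5_nt.C21
import Pool.Agent.K.MP_ea46f5_nt.C12
import Pool.Agent.K.MP_ea46f5_nt.C22

-- part Pool.Agent.P.MP_ea46f5_nt.Q4.FSMO
section

/-! The smoothed fourth moment from the exact part and the critical piece. -/

namespace Pool.Agent.Q4

open Complex MeasureTheory Finset Pool.Agent.QM
open scoped Real ComplexConjugate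

theorem smo_log {θ L : ℝ} (hθ : 0 < θ) (hL : 1 ≤ L) (n : ℕ) (hn : n ≠ 0) :
    Real.log L ^ n ≤ (n / θ) ^ n * L ^ θ := by
  have hn' : (0 : ℝ) < n := by positivity
  have h := Real.log_le_rpow_div (x := L) (by linarith) (div_pos hθ hn')
  calc Real.log L ^ n ≤ (L ^ (θ / n) / (θ / n)) ^ n := pow_le_pow_left₀ (Real.log_nonneg hL) h n
    _ = (n / θ) ^ n * L ^ θ := by
      rw [div_pow, ← Real.rpow_natCast (L ^ (θ / n)), ← Real.rpow_mul (by linarith),
        div_mul_cancel₀ _ hn'.ne', div_pow, div_pow]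
      field_simp

theorem smo_sum {f : SF → ℂ} {w : ℤ → ℝ} {B : ℝ} (hf : ∀ k : SF, ‖f k‖ ≤ w k)
    (h1 : ∀ k : SF, (k : ℤ) = 1 → f k = 0) (hB : ∀ F : Finset ℤ, SQ F → ∑ k ∈ F, w k ≤ B) :
    Summable f ∧ ‖∑' k, f k‖ ≤ B := by
  classical
  have key : ∀ s : Finset SF, ∑ k ∈ s, ‖f k‖ ≤ B := by
    intro s
    rw [← sum_filter_add_sum_filter_not s fun k : SF => (k : ℤ) = 1,
      sum_eq_zero fun k hk => by rw [h1 k (mem_filter.1 hk).2, norm_zero], zero_add]
    refine (sum_le_sum fun k _ => hf k).trans ?_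
    rw [← sum_image (g := fun k : SF => (k : ℤ)) (f := w) fun x _ y _ h => Subtype.ext h]
    refine hB _ fun k hk => ?_
    obtain ⟨x, hx, rfl⟩ := mem_image.1 hk
    exact ⟨x.2, (mem_filter.1 hx).2⟩
  have hs := summable_of_sum_le (fun k => norm_nonneg (f k)) key
  exact ⟨hs.of_norm, (norm_tsum_le_tsum_norm hs).trans (hs.tsum_le_of_sum_le key)⟩

theorem pSMO (hPHW : PHW) (hBRG : BRG) (hG1W : G1W) (hCLM : CLM) (hAFS : AFS) (hFB : FB) (hAT : AT)
    (hCSM : CSM) : SMO := by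
  classical
  intro a c θ ha hθ
  obtain ⟨⟨C₀, -, hg⟩, -⟩ := hG1W a c ha
  have hτ : ((-1 : ℤ) ^ a = 1 ∨ (-1 : ℤ) ^ a = -1) := neg_one_pow_eq_or ℤ a
  choose! D₀ hD using fun r => hAT _ C₀ ((-1) ^ a) r hg hτ
  set D : ℝ := 8 + ∑ r ∈ RS, |D₀ r| with hDdef
  have hD8 : 8 ≤ D := le_add_of_nonneg_right (sum_nonneg fun r _ => abs_nonneg _)
  have hD0 : ∀ r ∈ RS, D₀ r ≤ D := fun r hr => by
    have := single_le_sum (f := fun r => |D₀ r|) (fun r _ => abs_nonneg _) hr
    have := le_abs_self (D₀ r)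
    linarith
  choose! C X₀ hC using fun r hr => hD r hr D (hD0 r hr)
  obtain ⟨C₁, hC₁, hF⟩ := hFB _ C₀ (θ / 2) hg (half_pos hθ)
  refine ⟨((∑ r ∈ RS, |C r|) * (32 / θ) ^ 32 + C₁ * D ^ 36 * (36 / (θ / 2)) ^ 36 * 2 ^ (θ / 2)) /
    (24 * π ^ 4), Real.exp 3 + ∑ r ∈ RS, |X₀ r|, fun X η hX h1 h2 => ?_⟩
  have hX3 : Real.exp 3 ≤ X := le_trans (le_add_of_nonneg_right
    (sum_nonneg fun r _ => abs_nonneg _)) hX
  have hX4 : 4 ≤ X := le_trans (by linarith [Real.add_one_le_exp 3]) hX3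
  have hX0 : 0 < X := by linarith
  have hXr : ∀ r ∈ RS, X₀ r ≤ X := fun r hr => by
    have := single_le_sum (f := fun r => |X₀ r|) (fun r _ => abs_nonneg _) hr
    have := le_abs_self (X₀ r)
    have := Real.exp_pos 3
    linarith
  set L := Real.log X with hL
  have hL3 : 3 ≤ L := (Real.le_log_iff_exp_le hX0).2 hX3
  have hLL : 1 ≤ Real.log L := (Real.le_log_iff_exp_le (by linarith)).2
    (le_trans Real.exp_one_lt_d9.le (by linarith))
  set Δ := D * Real.log L with hΔ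
  have hΔ8 : 8 ≤ Δ := by nlinarith
  have hη0 : 0 < η := lt_of_lt_of_le (by positivity) h1
  have hη : η ≤ 1 / 30 := h2.trans (one_div_le_one_div_of_le (by norm_num)
    (le_trans (by norm_num) (pow_le_pow_left₀ (by norm_num) hL3 39)))
  have hq : ∀ k : SF, 0 ≤ phi η (qk k / X) := fun k => by
    have h0 : (0 : ℝ) < |((k : ℤ) : ℝ)| := abs_pos.2 (Int.cast_ne_zero.2 k.2.ne_zero)
    exact (hPHW η _ hη0 (div_pos (h0.trans_le (hBRG.2.1 k).1) hX0)).2.1
  set fm : SF → ℂ := fun k => if (k : ℤ) ≠ 1 ∧ par k = a then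
    (phi η (qk k / X) : ℂ) * Fm (g1 a c) (gam k) Δ (qk k) k else 0 with hfm
  obtain ⟨s1, b1⟩ := smo_sum (f := fm)
    (w := fun k => phi η (qk k / X) * ‖Fm (g1 a c) (gam k) Δ (qk k) k‖)
    (fun k => by
      simp only [hfm]
      split_ifs
      · rw [norm_mul, norm_real, Real.norm_of_nonneg (hq k)]
      · rw [norm_zero]; exact mul_nonneg (hq k) (norm_nonneg _))
    (fun k hk => by simp [hfm, hk]) fun F hF' => hF Δ η X F hΔ8 hη0 hη hX0 hF'
  have hπ : (24 * π ^ 4 : ℂ) ≠ 0 :=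
    mul_ne_zero (by norm_num) (pow_ne_zero _ (ofReal_ne_zero.2 Real.pi_ne_zero))
  have hid : ∀ k : SF, 24 * π ^ 4 * sm a η X k =
      ∑ r ∈ RS, tb ((-1) ^ a) r (g1 a c) Δ η X k + fm k := by
    intro k
    have hk := hCLM.2.1 a k ha k.2
    by_cases h : (k : ℤ) ≠ 1 ∧ par k = a
    · obtain ⟨m1, m2⟩ := hk.1 h.2
      rw [sum_eq_single_of_mem (f := fun r => tb ((-1) ^ a) r (g1 a c) Δ η X k) _ m1
        fun r _ hr => by unfold tb; exact if_neg fun h' => hr h'.2.2.symm]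
      simp only [hfm, sm, tb, if_pos h, if_pos (And.intro h.1 m2)]
      have := hAFS c k Δ k.2 h.1 (by linarith)
      rw [h.2] at this
      rw [mul_left_comm, this, mul_add]
    · rw [sum_eq_zero (f := fun r => tb ((-1) ^ a) r (g1 a c) Δ η X k)
        fun r _ => by unfold tb; exact if_neg fun h' => h ⟨h'.1, hk.2 r h'.2⟩]
      simp only [hfm, sm, if_neg h, mul_zero, add_zero]
  have hT := fun r hr => hC r hr X η (hXr r hr) h1 h2
  have s2 : HasSum (fun k : SF => 24 * π ^ 4 * sm a η X k)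
      (∑ r ∈ RS, ∑' k, tb ((-1) ^ a) r (g1 a c) Δ η X k + ∑' k, fm k) := by
    simp only [hid]
    exact (hasSum_sum fun r hr => (hT r hr).1.hasSum).add s1.hasSum
  have s3 : Summable (sm a η X) := (summable_mul_left_iff hπ).1 s2.summable
  refine ⟨s3, ?_⟩
  have e1 := s2.tsum_eq
  rw [tsum_mul_left] at e1
  have e2 := hCSM a c (1 / L) X ha (by positivity) (by
    rw [div_le_one (by linarith)]; linarith) (by linarith)
  have e3 : 24 * π ^ 4 * (∑' k, sm a η X k - MT a c (1 / L) X) =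
      ∑ r ∈ RS, (∑' k, tb ((-1) ^ a) r (g1 a c) Δ η X k -
        1 / (8 * cq r) * MC (g1 a c) (gam r) (1 / L) X) + ∑' k, fm k := by
    rw [mul_sub, e1, ← e2, sum_sub_distrib]; ring
  have e4 : ‖(24 * π ^ 4 : ℂ)‖ = 24 * π ^ 4 := by
    rw [norm_mul, norm_pow, norm_real, Real.norm_of_nonneg Real.pi_pos.le]; simp
  rw [div_mul_eq_mul_div, div_mul_eq_mul_div, le_div_iff₀ (by positivity), mul_comm, ← e4,
    ← norm_mul, e3]
  have l1 := smo_log hθ (by linarith : 1 ≤ L) 32 (by norm_num)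
  have l2 := smo_log (half_pos hθ) (by linarith : 1 ≤ L) 36 (by norm_num)
  have l3 : lg X ^ (θ / 2) ≤ 2 ^ (θ / 2) * L ^ (θ / 2) := by
    rw [← Real.mul_rpow (by norm_num) (by linarith)]
    refine Real.rpow_le_rpow (Real.log_nonneg (by linarith)) ?_ (half_pos hθ).le
    have : 2 * L = Real.log (X ^ 2) := by rw [Real.log_pow]; norm_num [hL]
    rw [this]
    exact Real.log_le_log (by linarith) (by nlinarith)
  have l4 : L ^ (θ / 2) * L ^ (θ / 2) = L ^ θ := by
    rw [← Real.rpow_add (by linarith), add_halves]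
  have b2 : ‖∑ r ∈ RS, (∑' k, tb ((-1) ^ a) r (g1 a c) Δ η X k -
      1 / (8 * cq r) * MC (g1 a c) (gam r) (1 / L) X)‖ ≤
      (∑ r ∈ RS, |C r|) * (X * ((32 / θ) ^ 32 * L ^ θ)) := by
    rw [sum_mul]
    refine (norm_sum_le _ _).trans (sum_le_sum fun r hr => (hT r hr).2.trans ?_)
    rw [mul_assoc]
    refine (mul_le_mul_of_nonneg_right (le_abs_self _) (by positivity)).trans ?_
    gcongr
    exact_mod_cast l1
  have b3 : C₁ * Δ ^ 36 * X * lg X ^ (θ / 2) ≤
      C₁ * (D ^ 36 * ((36 / (θ / 2)) ^ 36 * L ^ (θ / 2))) * X * (2 ^ (θ / 2) * L ^ (θ / 2)) := by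
    have : 0 ≤ lg X ^ (θ / 2) := Real.rpow_nonneg (Real.log_nonneg (by linarith)) _
    rw [hΔ, mul_pow]
    gcongr
    exact_mod_cast l2
  refine (norm_add_le _ _).trans ((add_le_add b2 (b1.trans b3)).trans (le_of_eq ?_))
  rw [← l4]; ring

end Pool.Agent.Q4
end

-- part Pool.Agent.P.MP_ea46f5_nt.Q4.FTAIL
section

namespace Pool.Agent.Q4

open Complex MeasureTheory Finset Pool.Agent.QM
open scoped Real ComplexConjugate

lemma tai_tel (Y N : ℕ) (hY : 1 ≤ Y) (hN : Y ≤ N) :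
    ∑ f ∈ Ioc Y N, 1 / ((f : ℝ) * √(f : ℝ)) ≤ 2 / √(Y : ℝ) - 2 / √(N : ℝ) := by
  induction N, hN using Nat.le_induction with
  | base => simp
  | succ n hn ih =>
    rw [sum_Ioc_succ_top hn]
    have hn1 : (1 : ℝ) ≤ n := by exact_mod_cast hY.trans hn
    have ha : 0 < √(n : ℝ) := Real.sqrt_pos.2 (by linarith)
    have hb : 0 < √((n : ℝ) + 1) := Real.sqrt_pos.2 (by linarith)
    have ha2 : √(n : ℝ) ^ 2 = n := Real.sq_sqrt (by linarith)
    have hb2 : √((n : ℝ) + 1) ^ 2 = n + 1 := Real.sq_sqrt (by linarith)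
    have hab : √(n : ℝ) ≤ √((n : ℝ) + 1) := Real.sqrt_le_sqrt (by linarith)
    push_cast
    have key : 1 / (((n : ℝ) + 1) * √((n : ℝ) + 1)) ≤ 2 / √(n : ℝ) - 2 / √((n : ℝ) + 1) := by
      generalize √(n : ℝ) = a at *
      generalize √((n : ℝ) + 1) = b at *
      rw [← hb2, div_sub_div _ _ ha.ne' hb.ne', div_le_div_iff₀ (by positivity) (by positivity)]
      have h1 : (b - a) * (b + a) = 1 := by nlinarith
      have h2 : 0 ≤ b - a := by linarith
      have h3 : a * b * (b + a) ≤ 2 * (b ^ 2 * b) := by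
        have : a * (b + a) ≤ b * (b + b) := by gcongr
        nlinarith
      calc 1 * (a * b) = (b - a) * (a * b * (b + a)) := by
            linear_combination (-(a * b)) * h1
        _ ≤ (b - a) * (2 * (b ^ 2 * b)) := by gcongr
        _ = (2 * b - a * 2) * (b ^ 2 * b) := by ring
    linarith

lemma tai_sum (Y : ℕ) (hY : 1 ≤ Y) (F : Finset ℕ) :
    ∑ f ∈ F.filter (fun f => Y < f), 1 / ((f : ℝ) * √(f : ℝ)) ≤ 2 / √(Y : ℝ) := by
  have h1 : F.filter (fun f => Y < f) ⊆ Ioc Y (max Y (F.sup id)) := fun f hf =>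
    mem_Ioc.2 ⟨(mem_filter.1 hf).2, le_max_of_le_right (le_sup (f := id) (mem_filter.1 hf).1)⟩
  refine (sum_le_sum_of_subset_of_nonneg h1 fun _ _ _ => by positivity).trans
    ((tai_tel Y _ hY (le_max_left _ _)).trans ?_)
  have : 0 ≤ 2 / √((max Y (F.sup id) : ℕ) : ℝ) := by positivity
  linarith

lemma tai_even (τ r k : ℤ) (f : ℕ) (hr : r ∈ RS) (hf : ¬ Odd f) : ¬ Cl τ r (k * (f : ℤ) ^ 2) := by
  rintro ⟨-, h⟩
  obtain ⟨a, rfl⟩ := Nat.not_odd_iff_even.1 hf
  have e : k * ((a + a : ℕ) : ℤ) ^ 2 = 4 * (k * (a : ℤ) ^ 2) := by push_cast; ring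
  rw [e] at h
  simp only [RS, mem_insert, mem_singleton] at hr
  omega

theorem pTAIL (hPHW : PHW) (hDIV : DIV) (hCYB : CYB) (hCLM : CLM) (hDB : DB) (hTL1 : TL1) :
    TAIL := by
  classical
  intro g C₀ hg
  obtain ⟨Cd, hCd, hDIV⟩ := hDIV
  obtain ⟨C₁, hC₁, hD⟩ := hDB g C₀ 0 hg
  obtain ⟨C₂, hC₂, hT⟩ := hTL1 g C₀ hg
  refine ⟨4 * C₁ + 2 * (C₂ * Cd), by positivity, ?_⟩
  intro τ r Δ η X Y hτ hr hP hS
  set L := Real.log X with hL
  have hL100 : 100 ≤ L := hP.XL
  have hX0 : 0 < X := by linarith [hP.X1]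
  have hc0 : 0 < cq r := by linarith [hP.c1]
  have hΔ := hP.D1
  have hY : (1 : ℝ) ≤ Y := by exact_mod_cast hP.Y1
  have hsY : 0 < √(Y : ℝ) := Real.sqrt_pos.2 (by linarith)
  have hDL : 1 ≤ Δ * L := by nlinarith
  set W := (Δ * L) ^ 40 with hW
  have hW0 : 0 < W := by positivity
  set S : Set ℤ := {m | Squarefree m ∧ m ≠ 1} with hSdef
  have hone : ∀ k : ℤ, Squarefree k → sY Y k = 1 := fun k hk => by
    simpa using (hCYB.2.2.2.1 Y k 1 hk odd_one).2.1 hP.Y1 rfl
  have htb : ∀ k : SF, tb τ r g Δ η X k = S.indicator (ta τ r g Δ η X Y) k := by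
    intro k
    unfold tb
    by_cases h1 : (k : ℤ) = 1
    · rw [if_neg (fun h => h.1 h1), Set.indicator_of_notMem (fun h => h.2 h1)]
    · rw [Set.indicator_of_mem (show (k : ℤ) ∈ S from ⟨k.2, h1⟩)]
      unfold ta
      by_cases h2 : Cl τ r k
      · obtain ⟨e1, e2, -⟩ := hCLM.1 τ r k hτ hr h2
        rw [if_pos ⟨h1, h2⟩, if_pos h2, e1, e2, hone k k.2]
        simp
      · rw [if_neg (fun h => h2 h.2), if_neg h2]
  have hSi : Summable (S.indicator (ta τ r g Δ η X Y)) := hS.indicator S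
  have hfun : tb τ r g Δ η X = fun k : SF => S.indicator (ta τ r g Δ η X Y) k := funext htb
  have htsum : ∑' k : SF, tb τ r g Δ η X k = ∑' m, S.indicator (ta τ r g Δ η X Y) m := by
    rw [hfun]
    refine tsum_subtype_eq_of_support_subset (s := {k : ℤ | Squarefree k}) fun m hm => ?_
    exact (Set.support_indicator_subset hm).1
  refine ⟨hfun ▸ hSi.subtype _, ?_⟩
  rw [htsum, ← hS.tsum_sub hSi]
  set h : ℤ → ℝ := fun m => ‖ta τ r g Δ η X Y m - S.indicator (ta τ r g Δ η X Y) m‖ with hh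
  have hle : ∀ m, h m ≤ ‖ta τ r g Δ η X Y m‖ := fun m => by
    simp only [hh]
    by_cases hm : m ∈ S
    · rw [Set.indicator_of_mem hm, sub_self, norm_zero]; exact norm_nonneg _
    · rw [Set.indicator_of_notMem hm, sub_zero]
  have hphi : ∀ m : ℤ, m ≠ 0 → 0 ≤ phi η (cq r * |(m : ℝ)| / X) ∧
      phi η (cq r * |(m : ℝ)| / X) ≤ 1 := fun m hm => by
    have : 0 < |(m : ℝ)| := abs_pos.2 (by exact_mod_cast hm)
    have := hPHW η (cq r * |(m : ℝ)| / X) hP.h0 (by positivity)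
    exact ⟨this.2.1, this.2.2.1⟩
  have hta : ∀ m : ℤ, m ≠ 0 → ‖ta τ r g Δ η X Y m‖ ≤ ((|sY Y m| : ℤ) : ℝ) *
      (phi η (cq r * |(m : ℝ)| / X) * ‖Tm g (gam r) Δ (cq r * |(m : ℝ)|) m‖) := fun m hm => by
    have hp := (hphi m hm).1
    unfold ta
    split_ifs
    · rw [norm_mul, norm_mul, Complex.norm_intCast, Complex.norm_real, Real.norm_of_nonneg hp,
        mul_assoc]
      push_cast
      exact le_rfl
    · rw [norm_zero]
      have : (0 : ℝ) ≤ ((|sY Y m| : ℤ) : ℝ) := by exact_mod_cast abs_nonneg _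
      positivity
  have h1 : h 1 ≤ 4 * C₁ * W := by
    refine (hle 1).trans ((hta 1 one_ne_zero).trans ?_)
    have hp := hphi 1 one_ne_zero
    have hb := (hD (gam r) 1 1 Δ (cq r) (1 / 100) hP.hγ odd_one hΔ hP.c1 (by norm_num) le_rfl).2
    rw [hone 1 squarefree_one]
    simp only [Nat.cast_one, one_pow, mul_one, Nat.divisors_one, card_singleton, Int.cast_one,
      abs_one, one_mul] at hb hp ⊢
    have e1 : cq r ^ (2 * (1 / 100) : ℝ) ≤ 4 := by
      refine le_trans ?_ hP.c4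
      simpa using Real.rpow_le_rpow_of_exponent_le hP.c1 (show (2 * (1 / 100) : ℝ) ≤ 1 by norm_num)
    have e2 : (Δ / (1 / 100)) ^ 28 ≤ W := by
      have a1 : Δ / (1 / 100) ≤ Δ * L := by
        rw [div_div_eq_mul_div, div_one]
        gcongr
      calc (Δ / (1 / 100)) ^ 28 ≤ (Δ * L) ^ 28 := by gcongr
        _ ≤ W := pow_le_pow_right₀ hDL (by norm_num)
    calc _ ≤ 1 * (C₁ * W * 4) := by
          refine mul_le_mul hp.2 (hb.trans ?_) (norm_nonneg _) zero_le_one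
          gcongr
      _ = _ := by ring
  have hrow : ∀ (F : Finset ℤ) (f : ℕ), (∀ k ∈ F, Squarefree k) → f ≠ 0 →
      ∑ k ∈ F, h (k * (f : ℤ) ^ 2) ≤ (if f = 1 then 4 * C₁ * W else 0) +
        if Y < f then C₂ * Cd * W * X * (1 / ((f : ℝ) * √(f : ℝ))) else 0 := by
    intro F f hF hf0
    by_cases hf1 : f = 1
    · subst hf1
      rw [if_pos rfl, if_neg (not_lt.2 hP.Y1), add_zero]
      simp only [Nat.cast_one, one_pow, mul_one]
      have hz : ∀ k ∈ F, k ≠ 1 → h k = 0 := fun k hk hk1 => by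
        simp only [hh]
        rw [Set.indicator_of_mem (show k ∈ S from ⟨hF k hk, hk1⟩), sub_self, norm_zero]
      by_cases hm : (1 : ℤ) ∈ F
      · rw [sum_eq_single_of_mem 1 hm hz]; exact h1
      · rw [sum_eq_zero fun k hk => hz k hk fun e => hm (e ▸ hk)]; positivity
    rw [if_neg hf1, zero_add]
    have hne : ∀ k ∈ F, k * (f : ℤ) ^ 2 ≠ 0 := fun k hk =>
      mul_ne_zero (hF k hk).ne_zero (pow_ne_zero _ (by exact_mod_cast hf0))
    have hnn : (0 : ℝ) ≤ if Y < f then C₂ * Cd * W * X * (1 / ((f : ℝ) * √(f : ℝ))) else 0 := by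
      split_ifs
      · positivity
      · exact le_rfl
    by_cases hodd : Odd f
    swap
    · refine le_trans (sum_nonpos fun k hk => (hle _).trans (le_of_eq ?_)) hnn
      unfold ta
      rw [if_neg (tai_even τ r k f hr hodd), norm_zero]
    by_cases hYf : Y < f
    swap
    · refine le_trans (sum_nonpos fun k hk => (hle _).trans ((hta _ (hne k hk)).trans
        (le_of_eq ?_))) hnn
      rw [(hCYB.2.2.2.1 Y k f (hF k hk) hodd).2.2 (by omega) (not_lt.1 hYf)]
      simp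
    rw [if_pos hYf]
    have hfR : (0 : ℝ) < f := by exact_mod_cast Nat.pos_of_ne_zero hf0
    have hs : 0 < √(f : ℝ) := Real.sqrt_pos.2 hfR
    have hs2 : √(f : ℝ) * √(f : ℝ) = f := Real.mul_self_sqrt hfR.le
    have hd0 : (0 : ℝ) ≤ f.divisors.card := Nat.cast_nonneg _
    calc ∑ k ∈ F, h (k * (f : ℤ) ^ 2)
        ≤ ∑ k ∈ F, (f.divisors.card : ℝ) *
          (phi η (cq r * |((k * (f : ℤ) ^ 2 : ℤ) : ℝ)| / X) *
            ‖Tm g (gam r) Δ (cq r * |((k * (f : ℤ) ^ 2 : ℤ) : ℝ)|) (k * (f : ℤ) ^ 2)‖) := by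
          refine sum_le_sum fun k hk => (hle _).trans ((hta _ (hne k hk)).trans ?_)
          have a1 : ((|sY Y (k * (f : ℤ) ^ 2)| : ℤ) : ℝ) ≤ (f.divisors.card : ℝ) := by
            exact_mod_cast (hCYB.2.2.2.1 Y k f (hF k hk) hodd).1
          exact mul_le_mul_of_nonneg_right a1
            (mul_nonneg (hphi _ (hne k hk)).1 (norm_nonneg _))
      _ ≤ (f.divisors.card : ℝ) * (C₂ * W * (f.divisors.card : ℝ) ^ 4 * (X / (f : ℝ) ^ 2)) := by
          rw [← mul_sum]
          exact mul_le_mul_of_nonneg_left (hT (gam r) (cq r) Δ η X Y f F hP hodd hF) hd0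
      _ = C₂ * W * (f.divisors.card : ℝ) ^ 5 * (X / (f : ℝ) ^ 2) := by ring
      _ ≤ C₂ * W * (Cd * √(f : ℝ)) * (X / (f : ℝ) ^ 2) := by
          have := hDIV f
          gcongr
      _ = C₂ * Cd * W * X * (1 / ((f : ℝ) * √(f : ℝ))) := by
          field_simp
          nlinarith [hs2]
  have hfin : ∀ F : Finset ℤ, ∑ m ∈ F, h m ≤
      (4 * C₁ + 2 * (C₂ * Cd)) * W * (X / √(Y : ℝ) + 1) := by
    refine tl_dec h (fun m => norm_nonneg _) ?_ _ fun F₁ F₂ hF₁ hF₂ => ?_
    · refine le_antisymm ((hle 0).trans (le_of_eq ?_)) (norm_nonneg _)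
      unfold ta
      rw [if_neg (fun hc => by simpa using hc.1), norm_zero]
    · refine (sum_le_sum fun f hf => hrow F₁ f hF₁ (hF₂ f hf)).trans ?_
      rw [sum_add_distrib, ← sum_filter (fun f => Y < f), ← mul_sum]
      have a1 : ∑ f ∈ F₂, (if f = 1 then 4 * C₁ * W else 0) ≤ 4 * C₁ * W := by
        rw [sum_ite_eq']
        split_ifs
        · exact le_rfl
        · positivity
      have a2 : C₂ * Cd * W * X * ∑ f ∈ F₂.filter (fun f => Y < f), 1 / ((f : ℝ) * √(f : ℝ)) ≤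
          C₂ * Cd * W * X * (2 / √(Y : ℝ)) :=
        mul_le_mul_of_nonneg_left (tai_sum Y hP.Y1 F₂) (by positivity)
      have a3 : 0 ≤ X / √(Y : ℝ) := by positivity
      have a4 : C₂ * Cd * W * X * (2 / √(Y : ℝ)) = 2 * (C₂ * Cd) * W * (X / √(Y : ℝ)) := by ring
      have a5 : 0 ≤ 4 * C₁ * W * (X / √(Y : ℝ)) := by positivity
      have a6 : 0 ≤ 2 * (C₂ * Cd) * W := by positivity
      nlinarith
  have hsum : Summable h := summable_of_sum_le (fun m => norm_nonneg _) hfin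
  exact (norm_tsum_le_tsum_norm hsum).trans (hsum.tsum_le_of_sum_le hfin)

end Pool.Agent.Q4
end

-- part Pool.Agent.P.MP_ea46f5_nt.Q4.FTC4
section

namespace Pool.Agent.Q4

open Complex MeasureTheory Finset Pool.Agent.QM
open scoped Real ENNReal

lemma tc_step (i : Fin 4) {f g : R4 → ℝ≥0∞} (hf : Measurable f) (hg : Measurable g)
    (h : ∀ x : R4, ∫⁻ y, f (Function.update x i y) ≤ ∫⁻ y, g (Function.update x i y)) :
    ∫⁻ x, f x ≤ ∫⁻ x, g x := by
  refine lintegral_le_of_lmarginal_le (μ := fun _ : Fin 4 => (volume : Measure ℝ)) {i} hf hg ?_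
  rw [lmarginal_singleton, lmarginal_singleton]
  exact h

lemma tc_ind {e : ℝ} (he : 0 < e) :
    ∫⁻ x : ℝ, ENNReal.ofReal ((Set.Icc (-1 : ℝ) 1).indicator (fun x => 1 / (e + |x|)) x) ≤
      ENNReal.ofReal (2 * Real.log (1 + 1 / e)) := by
  have hc : Continuous fun x : ℝ => 1 / (e + |x|) :=
    continuous_const.div (continuous_const.add continuous_abs) fun x => by positivity
  have hi : Integrable ((Set.Icc (-1 : ℝ) 1).indicator fun x => 1 / (e + |x|)) :=
    (integrable_indicator_iff measurableSet_Icc).2 (hc.continuousOn.integrableOn_Icc)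
  rw [← ofReal_integral_eq_lintegral_ofReal hi
    (Filter.Eventually.of_forall fun x => Set.indicator_nonneg (fun y _ => by positivity) x)]
  refine ENNReal.ofReal_le_ofReal (le_of_eq ?_)
  rw [integral_indicator measurableSet_Icc, integral_Icc_eq_integral_Ioc,
    ← intervalIntegral.integral_of_le (by norm_num),
    ← intervalIntegral.integral_add_adjacent_intervals (b := 0) (hc.intervalIntegrable _ _)
      (hc.intervalIntegrable _ _)]
  have h1 : ∫ x in (0 : ℝ)..1, 1 / (e + |x|) = Real.log (1 + 1 / e) := by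
    rw [intervalIntegral.integral_congr (g := fun x => 1 / (e + x)) fun x hx => by
      rw [Set.uIcc_of_le (by norm_num)] at hx
      simp only [abs_of_nonneg hx.1]]
    rw [intervalIntegral.integral_comp_add_left (fun x => 1 / x), integral_one_div_of_pos
      (by linarith) (by linarith)]
    congr 1
    field_simp
    ring
  have h2 : ∫ x in (-1 : ℝ)..0, 1 / (e + |x|) = ∫ x in (0 : ℝ)..1, 1 / (e + |x|) := by
    have := intervalIntegral.integral_comp_neg (a := 0) (b := 1) fun x : ℝ => 1 / (e + |x|)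
    simpa using this.symm
  rw [h2, h1]
  ring

/-- one singular denominator -/
lemma tc_one {e N s c : ℝ} {n : ℝ → ℝ} (he : 0 < e) (hs : s = 1 ∨ s = -1) (hN : 0 ≤ N)
    (hn0 : ∀ y, 0 ≤ n y) (hnN : ∀ y, n y ≤ N) (hm : Measurable n)
    (hI : ∫⁻ y, ENNReal.ofReal (n y) ≤ ENNReal.ofReal N) :
    ∫⁻ y, ENNReal.ofReal (n y / (e + |s * y + c|)) ≤
      ENNReal.ofReal (N * (1 + 2 * Real.log (1 + 1 / e))) := by
  set φ : ℝ → ℝ := (Set.Icc (-1 : ℝ) 1).indicator fun x => 1 / (e + |x|) with hφ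
  have hφ0 : ∀ x, 0 ≤ φ x := fun x => Set.indicator_nonneg (fun y _ => by positivity) x
  have hL : 0 ≤ Real.log (1 + 1 / e) := Real.log_nonneg (by have := one_div_pos.2 he; linarith)
  have hp : ∀ y, ENNReal.ofReal (n y / (e + |s * y + c|)) ≤
      ENNReal.ofReal (n y) + ENNReal.ofReal N * ENNReal.ofReal (φ (s * y + c)) := by
    intro y
    rw [← ENNReal.ofReal_mul hN, ← ENNReal.ofReal_add (hn0 y) (mul_nonneg hN (hφ0 _))]
    refine ENNReal.ofReal_le_ofReal ?_
    by_cases h : s * y + c ∈ Set.Icc (-1 : ℝ) 1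
    · rw [hφ, Set.indicator_of_mem h, mul_one_div]
      have : n y / (e + |s * y + c|) ≤ N / (e + |s * y + c|) := by gcongr; exact hnN y
      linarith [hn0 y]
    · have h1 : 1 ≤ |s * y + c| := by
        by_contra h2
        exact h (abs_le.1 (not_le.1 h2).le)
      have : n y / (e + |s * y + c|) ≤ n y := div_le_self (hn0 y) (by linarith)
      linarith [mul_nonneg hN (hφ0 (s * y + c))]
  have ht : ∫⁻ y, ENNReal.ofReal (φ (s * y + c)) = ∫⁻ y, ENNReal.ofReal (φ y) := by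
    rcases hs with rfl | rfl
    · simpa using lintegral_add_right_eq_self (fun y => ENNReal.ofReal (φ y)) c
    · have := lintegral_sub_left_eq_self (μ := (volume : Measure ℝ))
        (fun y => ENNReal.ofReal (φ y)) c
      rw [← this]
      congr 1
      ext y
      congr 2
      ring
  refine (lintegral_mono hp).trans ?_
  rw [lintegral_add_left hm.ennreal_ofReal, lintegral_const_mul' _ _ ENNReal.ofReal_ne_top, ht]
  refine (add_le_add hI (mul_le_mul_right (tc_ind he) _)).trans (le_of_eq ?_)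
  rw [← ENNReal.ofReal_mul hN, ← ENNReal.ofReal_add hN (by positivity)]
  congr 1
  ring

/-- replace one factor by a constant times the indicator of the unit interval -/
lemma tc_rep (i : Fin 4) {a r : R4 → ℝ≥0∞} {B : ℝ≥0∞} (ha : Measurable a) (hr : Measurable r)
    (hru : ∀ x y, r (Function.update x i y) = r x)
    (h : ∀ x : R4, ∫⁻ y, a (Function.update x i y) ≤ B) :
    ∫⁻ x, a x * r x ≤ B * ∫⁻ x : R4, (Set.Icc (0 : ℝ) 1).indicator 1 (x i) * r x := by
  have hm : Measurable fun x : R4 => (Set.Icc (0 : ℝ) 1).indicator (1 : ℝ → ℝ≥0∞) (x i) :=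
    (measurable_one.indicator measurableSet_Icc).comp (measurable_pi_apply i)
  have hmr : Measurable fun x : R4 =>
      (Set.Icc (0 : ℝ) 1).indicator (1 : ℝ → ℝ≥0∞) (x i) * r x := hm.mul hr
  have har : Measurable fun x : R4 => a x * r x := ha.mul hr
  rw [← lintegral_const_mul B hmr]
  refine tc_step i har (hmr.const_mul B) fun x => ?_
  simp only [hru, Function.update_self]
  have hau : Measurable fun y => a (Function.update x i y) := ha.comp (measurable_update x)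
  rw [lintegral_mul_const _ hau, lintegral_const_mul,
    lintegral_mul_const _ (measurable_one.indicator measurableSet_Icc)]
  · rw [lintegral_indicator_one measurableSet_Icc]
    simp only [Real.volume_Icc, sub_zero, ENNReal.ofReal_one, one_mul]
    exact mul_le_mul_left (h x) _
  · exact (measurable_one.indicator measurableSet_Icc).mul_const _

lemma tc_cube : ∫⁻ x : R4, (Set.Icc (0 : ℝ) 1).indicator 1 (x 3) *
    ((Set.Icc (0 : ℝ) 1).indicator 1 (x 2) * ((Set.Icc (0 : ℝ) 1).indicator 1 (x 1) *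
      (Set.Icc (0 : ℝ) 1).indicator (1 : ℝ → ℝ≥0∞) (x 0))) = 1 := by
  have h : ∀ x : R4, (Set.Icc (0 : ℝ) 1).indicator 1 (x 3) *
      ((Set.Icc (0 : ℝ) 1).indicator 1 (x 2) * ((Set.Icc (0 : ℝ) 1).indicator 1 (x 1) *
        (Set.Icc (0 : ℝ) 1).indicator (1 : ℝ → ℝ≥0∞) (x 0))) =
      (Set.Icc (0 : R4) 1).indicator 1 x := by
    intro x
    by_cases hx : x ∈ Set.Icc (0 : R4) 1
    · have : ∀ i, x i ∈ Set.Icc (0 : ℝ) 1 := fun i => ⟨hx.1 i, hx.2 i⟩
      simp [Set.indicator_of_mem, this, hx]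
    · rw [Set.indicator_of_notMem hx]
      by_contra h0
      simp only [mul_eq_zero, not_or] at h0
      have k : ∀ i, (Set.Icc (0 : ℝ) 1).indicator (1 : ℝ → ℝ≥0∞) (x i) ≠ 0 →
          x i ∈ Set.Icc (0 : ℝ) 1 := fun i hi => Set.mem_of_indicator_ne_zero hi
      have k2 : ∀ i, x i ∈ Set.Icc (0 : ℝ) 1 := by
        intro i
        fin_cases i
        exacts [k 0 h0.2.2.2, k 1 h0.2.2.1, k 2 h0.2.1, k 3 h0.1]
      exact hx ⟨fun i => (k2 i).1, fun i => (k2 i).2⟩
  simp only [h]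
  rw [lintegral_indicator_one measurableSet_Icc, Real.volume_Icc_pi]
  simp

/-- two singular denominators -/
lemma tc_two {e N : ℝ} {n : Fin 4 → ℝ → ℝ} (s : R4) (b d : Fin 4) (hb0 : b ≠ 0)
    (hd0 : d ≠ 0) (hd1 : d ≠ 1) (he : 0 < e) (hs : ∀ j, s j = 1 ∨ s j = -1) (hN : 0 ≤ N)
    (hn0 : ∀ j y, 0 ≤ n j y) (hnN : ∀ j y, n j y ≤ N) (hm : ∀ j, Measurable (n j))
    (hI : ∀ j, ∫⁻ y, ENNReal.ofReal (n j y) ≤ ENNReal.ofReal N) :
    ∫⁻ x : R4, ENNReal.ofReal ((∏ j, n j (x j)) *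
      (1 / ((e + |s 0 * x 0 + s b * x b|) * (e + |s 1 * x 1 + s d * x d|)))) ≤
      ENNReal.ofReal (N ^ 4 * (1 + 2 * Real.log (1 + 1 / e)) ^ 2) := by
  set L := 1 + 2 * Real.log (1 + 1 / e) with hL
  have hL0 : 0 ≤ L := by
    have : 0 ≤ Real.log (1 + 1 / e) := Real.log_nonneg (by have := one_div_pos.2 he; linarith)
    linarith
  set a0 : R4 → ℝ≥0∞ := fun x => ENNReal.ofReal (n 0 (x 0) / (e + |s 0 * x 0 + s b * x b|))
  set a1 : R4 → ℝ≥0∞ := fun x => ENNReal.ofReal (n 1 (x 1) / (e + |s 1 * x 1 + s d * x d|))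
  set a2 : R4 → ℝ≥0∞ := fun x => ENNReal.ofReal (n 2 (x 2))
  set a3 : R4 → ℝ≥0∞ := fun x => ENNReal.ofReal (n 3 (x 3))
  set m : Fin 4 → R4 → ℝ≥0∞ := fun i x => (Set.Icc (0 : ℝ) 1).indicator 1 (x i)
  have hmm : ∀ i, Measurable (m i) := fun i =>
    (measurable_one.indicator measurableSet_Icc).comp (measurable_pi_apply i)
  have hn : ∀ j, Measurable fun x : R4 => n j (x j) := fun j =>
    (hm j).comp (measurable_pi_apply j)
  have h0 : Measurable a0 := ((hn 0).div (by fun_prop)).ennreal_ofReal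
  have h1 : Measurable a1 := ((hn 1).div (by fun_prop)).ennreal_ofReal
  have h2 : Measurable a2 := (hn 2).ennreal_ofReal
  have h3 : Measurable a3 := (hn 3).ennreal_ofReal
  have e0 : ∀ x : R4, ENNReal.ofReal ((∏ j, n j (x j)) *
      (1 / ((e + |s 0 * x 0 + s b * x b|) * (e + |s 1 * x 1 + s d * x d|)))) =
      a0 x * (a1 x * (a2 x * a3 x)) := by
    intro x
    have p0 : 0 < e + |s 0 * x 0 + s b * x b| := by positivity
    have p1 : 0 < e + |s 1 * x 1 + s d * x d| := by positivity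
    simp only [a0, a1, a2, a3]
    rw [← ENNReal.ofReal_mul (hn0 2 _), ← ENNReal.ofReal_mul (div_nonneg (hn0 1 _) p1.le),
      ← ENNReal.ofReal_mul (div_nonneg (hn0 0 _) p0.le), Fin.prod_univ_four]
    congr 1
    field_simp
  simp only [e0]
  have s0 := tc_rep 0 (B := ENNReal.ofReal (N * L)) h0 (h1.mul (h2.mul h3))
    (fun x y => by simp [a1, a2, a3, Function.update_of_ne hd0])
    (fun x => by
      simp only [a0, Function.update_self, Function.update_of_ne hb0]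
      exact tc_one he (hs 0) hN (hn0 0) (hnN 0) (hm 0) (hI 0))
  have s1 := tc_rep 1 (B := ENNReal.ofReal (N * L)) h1 ((hmm 0).mul (h2.mul h3))
    (fun x y => by simp [m, a2, a3])
    (fun x => by
      simp only [a1, Function.update_self, Function.update_of_ne hd1]
      exact tc_one he (hs 1) hN (hn0 1) (hnN 1) (hm 1) (hI 1))
  have s2 := tc_rep 2 (B := ENNReal.ofReal N) h2 ((hmm 1).mul ((hmm 0).mul h3))
    (fun x y => by simp [m, a3])
    (fun x => by simpa only [a2, Function.update_self] using hI 2)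
  have s3 := tc_rep 3 (B := ENNReal.ofReal N) h3 ((hmm 2).mul ((hmm 1).mul (hmm 0)))
    (fun x y => by simp [m])
    (fun x => by simpa only [a3, Function.update_self] using hI 3)
  simp only [Pi.mul_apply] at s0 s1 s2 s3
  rw [tc_cube, mul_one] at s3
  have t0 : ∫⁻ x : R4, m 0 x * (a1 x * (a2 x * a3 x)) = ∫⁻ x : R4, a1 x * (m 0 x * (a2 x * a3 x)) :=
    lintegral_congr fun x => by ring
  have t1 : ∫⁻ x : R4, m 1 x * (m 0 x * (a2 x * a3 x)) = ∫⁻ x : R4, a2 x * (m 1 x * (m 0 x * a3 x)) :=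
    lintegral_congr fun x => by ring
  have t2 : ∫⁻ x : R4, m 2 x * (m 1 x * (m 0 x * a3 x)) = ∫⁻ x : R4, a3 x * (m 2 x * (m 1 x * m 0 x)) :=
    lintegral_congr fun x => by ring
  refine s0.trans ((mul_le_mul_right (t0.le.trans (s1.trans (mul_le_mul_right (t1.le.trans
    (s2.trans (mul_le_mul_right (t2.le.trans s3) _))) _))) _).trans (le_of_eq ?_))
  rw [← ENNReal.ofReal_mul hN, ← ENNReal.ofReal_mul (mul_nonneg hN hL0),
    ← ENNReal.ofReal_mul (mul_nonneg hN hL0)]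
  congr 1
  ring

/-- the core of TC2 -/
theorem tc_core {e N : ℝ} {n : Fin 4 → ℝ → ℝ} (s : R4) (he : 0 < e) (hs : ∀ j, s j = 1 ∨ s j = -1)
    (hN : 0 ≤ N) (hn0 : ∀ j y, 0 ≤ n j y) (hnN : ∀ j y, n j y ≤ N) (hm : ∀ j, Measurable (n j))
    (hI : ∀ j, ∫⁻ y, ENNReal.ofReal (n j y) ≤ ENNReal.ofReal N) :
    Integrable (fun x : R4 => (∏ j, n j (x j)) * cm e s x) ∧
      ∫ x : R4, (∏ j, n j (x j)) * cm e s x ≤ 2 * N ^ 4 * (1 + 2 * Real.log (1 + 1 / e)) ^ 2 := by
  have hP : ∀ x : R4, 0 ≤ ∏ j, n j (x j) := fun x => prod_nonneg fun j _ => hn0 j _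
  have hPm : Measurable fun x : R4 => ∏ j, n j (x j) :=
    Finset.measurable_prod _ fun j _ => (hm j).comp (measurable_pi_apply j)
  have h0 : ∀ x : R4, 0 ≤ (∏ j, n j (x j)) * cm e s x := fun x =>
    mul_nonneg (hP x) (by unfold cm; positivity)
  have hM : Measurable fun x : R4 => (∏ j, n j (x j)) * cm e s x :=
    hPm.mul (by unfold cm; fun_prop)
  have hb : ∫⁻ x : R4, ENNReal.ofReal ((∏ j, n j (x j)) * cm e s x) ≤
      ENNReal.ofReal (2 * N ^ 4 * (1 + 2 * Real.log (1 + 1 / e)) ^ 2) := by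
    have a := tc_two s 2 3 (by decide) (by decide) (by decide) he hs hN hn0 hnN hm hI
    have b := tc_two s 3 2 (by decide) (by decide) (by decide) he hs hN hn0 hnN hm hI
    have hq : Measurable fun x : R4 => (∏ j, n j (x j)) *
        (1 / ((e + |s 0 * x 0 + s 2 * x 2|) * (e + |s 1 * x 1 + s 3 * x 3|))) :=
      hPm.mul (by fun_prop)
    refine (lintegral_mono fun x => (congrArg ENNReal.ofReal (mul_add _ _ _)).le.trans
      ENNReal.ofReal_add_le).trans ?_
    rw [lintegral_add_left hq.ennreal_ofReal]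
    refine (add_le_add a b).trans (le_of_eq ?_)
    rw [← ENNReal.ofReal_add (by positivity) (by positivity)]
    congr 1
    ring
  have hi : Integrable fun x : R4 => (∏ j, n j (x j)) * cm e s x :=
    ⟨hM.aestronglyMeasurable, (hasFiniteIntegral_iff_ofReal (Filter.Eventually.of_forall h0)).2
      (hb.trans_lt ENNReal.ofReal_lt_top)⟩
  refine ⟨hi, ?_⟩
  rw [← ofReal_integral_eq_lintegral_ofReal hi (Filter.Eventually.of_forall h0)] at hb
  exact (ENNReal.ofReal_le_ofReal_iff (by positivity)).1 hb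

theorem tc_exp (c : ℝ) : ∫⁻ y : ℝ, ENNReal.ofReal (Real.exp (-|y - c|)) ≤ ENNReal.ofReal 2 := by
  rw [lintegral_sub_right_eq_self (fun y : ℝ => ENNReal.ofReal (Real.exp (-|y|))) c]
  have h1 : IntegrableOn (fun x : ℝ => Real.exp (-x)) (Set.Ioi 0) := integrableOn_exp_neg_Ioi 0
  have hi : Integrable fun y : ℝ => Real.exp (-|y|) := by
    have h2 : IntegrableOn (fun y : ℝ => Real.exp (-|y|)) (Set.Ioi 0) :=
      h1.congr_fun (fun y hy => by simp only [abs_of_pos (Set.mem_Ioi.1 hy)]) measurableSet_Ioi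
    have h3 : IntegrableOn (fun y : ℝ => Real.exp (-|y|)) (Set.Iic 0) :=
      (integrableOn_exp_Iic 0).congr_fun
        (fun y hy => by simp only [abs_of_nonpos (Set.mem_Iic.1 hy), neg_neg]) measurableSet_Iic
    rw [← integrableOn_univ, ← Set.Iic_union_Ioi (a := (0 : ℝ))]
    exact h3.union h2
  rw [← ofReal_integral_eq_lintegral_ofReal hi (.of_forall fun _ => (Real.exp_pos _).le),
    integral_comp_abs (f := fun x => Real.exp (-x)), integral_exp_neg_Ioi_zero, mul_one]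

theorem pTC4 : TC4 := by
  refine ⟨800, by norm_num, fun ε c s h0 h1 hs => ?_⟩
  have := tc_core (N := 2) (n := fun j y => Real.exp (-|y - c j|)) s h0 hs (by norm_num)
    (fun _ _ => (Real.exp_pos _).le)
    (fun j y => (Real.exp_le_one_iff.2 (by simp)).trans (by norm_num))
    (fun j => by fun_prop) fun j => tc_exp (c j)
  refine ⟨this.1, this.2.trans ?_⟩
  have a : 100 ≤ 1 / ε := by rw [le_div_iff₀ h0]; linarith
  have b : 1 ≤ Real.log (1 / ε) := by
    rw [Real.le_log_iff_exp_le (by linarith)]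
    linarith [Real.exp_one_lt_d9]
  have d : Real.log (1 + 1 / ε) ≤ 2 * Real.log (1 / ε) := by
    rw [two_mul, ← Real.log_mul (by linarith) (by linarith)]
    exact Real.log_le_log (by linarith) (by nlinarith)
  have e : 0 ≤ Real.log (1 + 1 / ε) := Real.log_nonneg (by linarith)
  have f : (1 + 2 * Real.log (1 + 1 / ε)) ^ 2 ≤ (5 * Real.log (1 / ε)) ^ 2 :=
    pow_le_pow_left₀ (by linarith) (by linarith) 2
  nlinarith

end Pool.Agent.Q4
end

-- part Pool.Agent.P.MP_ea46f5_nt.Q4.FTDG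
section

/-! The diagonal term of the exact part. -/

namespace Pool.Agent.Q4

open Complex MeasureTheory Finset Pool.Agent.QM
open scoped Real

theorem td_exp (w : ℂ) (h : w.re ≤ 1) : ‖cexp w‖ ≤ 3 ∧ ‖cexp w - 1‖ ≤ 4 * ‖w‖ := by
  have h1 : ‖cexp w‖ ≤ 3 := by
    rw [Complex.norm_exp]
    exact (Real.exp_le_exp.2 h).trans (by linarith [Real.exp_one_lt_d9])
  refine ⟨h1, ?_⟩
  rcases le_total ‖w‖ 1 with h2 | h2
  · linarith [Complex.norm_exp_sub_one_le h2, norm_nonneg w]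
  · have := norm_sub_le (cexp w) 1
    rw [norm_one] at this
    linarith

theorem td_cont {c : R4} {G : V4 → ℂ} (h : ∀ t, DifferentiableAt ℂ G (pt c t)) :
    Continuous fun t => G (pt c t) := by
  have hc : Continuous (pt c) := by unfold pt; fun_prop
  exact continuous_iff_continuousAt.2 fun t => (h t).continuousAt.comp hc.continuousAt

theorem td_v {u : V4} {ε : ℝ} (h0 : 0 < ε) (h1 : ε ≤ 1 / 100) (hu : ∀ j, (u j).re = ε) :
    (1 + us u).re = 1 + 2 * ε ∧ ‖1 + us u‖ ^ 2 ≤ 9 * gn 2 u := by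
  refine ⟨by rw [add_re, tw_usre, Fin.sum_univ_four]; simp [hu]; ring, ?_⟩
  have hb := fun j => tk2_br1 (u j).im
  have a1 : ∀ j, ‖u j‖ ≤ ∏ i, br (u i).im := fun j => by
    have := tw_nrm (u := u j) (c := 1) le_rfl (by rw [hu, abs_le]; constructor <;> linarith)
    rw [one_mul] at this
    exact this.trans (tw_single _ hb j)
  have a2 := tw_one univ _ hb
  have a3 : ‖us u‖ ≤ 2 * ∏ i, br (u i).im := by
    unfold us
    rw [norm_div, Complex.norm_ofNat, div_le_iff₀ (by norm_num)]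
    refine (norm_sum_le _ _).trans ?_
    rw [Fin.sum_univ_four]
    linarith [a1 0, a1 1, a1 2, a1 3]
  have a4 := norm_add_le 1 (us u)
  rw [norm_one] at a4
  have a5 : ‖1 + us u‖ ≤ 3 * ∏ i, br (u i).im := by linarith
  refine (pow_le_pow_left₀ (norm_nonneg _) a5 2).trans (le_of_eq ?_)
  unfold gn
  rw [prod_pow]
  ring

theorem td_alg {a e f h i : ℂ} {A P Q D L η G C Y : ℝ} (hA : 0 ≤ A) (hP : 0 ≤ P) (hC : 0 ≤ C)
    (hY : 1 ≤ Y) (hD : 1 ≤ D) (hG : 1 ≤ G) (ha : ‖a‖ ≤ A * P) (hPL : P ≤ L) (hPQ : P * Q = 1)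
    (he : ‖e‖ ≤ 3) (he1 : ‖e - 1‖ ≤ 36 * η * G) (hf : ‖f‖ ≤ D * Q) (hh : ‖h - i‖ ≤ C / Y)
    (hi : ‖i‖ ≤ C) (hη : 0 ≤ η) :
    ‖a * (e * (1 - f) * h - i)‖ ≤ 72 * C * (D + η * (L * D) + L / Y) * (A * G) := by
  have h1 : ‖h‖ ≤ 2 * C := by
    have := norm_add_le (h - i) i
    rw [sub_add_cancel] at this
    linarith [div_le_self hC hY]
  have hL : 0 ≤ L := hP.trans hPL
  have hf0 := (norm_nonneg _).trans hf
  have e1 : e * (1 - f) * h - i = (e - 1) * h + (h - i) - e * f * h := by ring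
  have h2 : ‖e * (1 - f) * h - i‖ ≤ 36 * η * G * (2 * C) + C / Y + 3 * (D * Q) * (2 * C) := by
    rw [e1]
    refine (norm_sub_le _ _).trans (add_le_add ((norm_add_le _ _).trans (add_le_add ?_ hh)) ?_)
    · rw [norm_mul]; gcongr
    · rw [norm_mul, norm_mul]; gcongr
  have h3 : P * (36 * η * G * (2 * C) + C / Y + 3 * (D * Q) * (2 * C)) ≤
      72 * C * (D + η * (L * D) + L / Y) * G := by
    have b1 : P * (36 * η * G * (2 * C)) ≤ 72 * C * (η * (L * D)) * G := by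
      have : P ≤ L * D := hPL.trans (le_mul_of_one_le_right hL hD)
      calc _ = 72 * C * (η * P) * G := by ring
        _ ≤ _ := by gcongr
    have b2 : P * (C / Y) ≤ 72 * C * (L / Y) * G := by
      calc _ = 1 * C * (P / Y) * 1 := by ring
        _ ≤ _ := by gcongr; norm_num
    have b3 : P * (3 * (D * Q) * (2 * C)) ≤ 72 * C * D * G := by
      calc _ = 6 * C * D * (P * Q) := by ring
        _ ≤ _ := by rw [hPQ]; gcongr; norm_num
    nlinarith
  rw [norm_mul]
  calc _ ≤ A * P * (36 * η * G * (2 * C) + C / Y + 3 * (D * Q) * (2 * C)) := by gcongr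
    _ = A * (P * (36 * η * G * (2 * C) + C / Y + 3 * (D * Q) * (2 * C))) := by ring
    _ ≤ A * (72 * C * (D + η * (L * D) + L / Y) * G) := mul_le_mul_of_nonneg_left h3 hA
    _ = _ := by ring

theorem td_dn (n m : ℕ) (u : V4) : gn m u * dn (n + m) u = dn n u ∧ dn (n + m) u ≤ dn n u ∧
    0 < dn n u ∧ 1 ≤ gn n u ∧ dn 2 u = dk u := by
  have hb := fun j => tk2_br0 (u j).im
  have h0 : ∀ n, 0 < dn n u := fun n => prod_pos fun j _ => by have := hb j; positivity
  have h1 : ∀ n, 1 ≤ gn n u := fun n => tw_one _ _ fun j => one_le_pow₀ (tk2_br1 _)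
  have h2 : gn m u * dn (n + m) u = dn n u := by
    unfold gn dn
    rw [← prod_mul_distrib]
    exact prod_congr rfl fun j _ => by have := hb j; rw [pow_add]; field_simp
  exact ⟨h2, h2 ▸ le_mul_of_one_le_left (h0 _).le (h1 m), h0 n, h1 n, rfl⟩

theorem pTDG (hINB : INB) (hHB4 : HB4) (hZB : ZB) (hDG : DG) (hWRB : WRB) (hOMB : OMB) : TDG := by
  intro g C₀ hg
  obtain ⟨n, hD⟩ := hDG
  obtain ⟨Co, Bo, hCo, hO⟩ := hOMB g C₀ n hg
  obtain ⟨Cw, hCw, hW⟩ := hWRB g C₀ (2 + 2) hg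
  obtain ⟨Ch, Bh, hCh, hH⟩ := hHB4
  obtain ⟨_, _, _, hZ, -⟩ := hZB
  have hE := Real.exp_pos 2
  refine ⟨16 * (72 * Ch * (Real.exp 2 * Cw)), by positivity, fun γ c Δ η X Y hP => ?_⟩
  have hO' := fun ε w u => hO γ c Δ η X ε Y w u hP
  obtain ⟨hγ, c1, c4, D1, h0, h1, X1, XL, Y1⟩ := hP
  obtain ⟨-, hW1, hcF, hhf, hus, hW2⟩ := hW γ hγ
  obtain ⟨-, hH1, -, hH2, hH3⟩ := hH Y
  have hX : 0 < X := by linarith
  have eX : X ^ (1 + 2 * (1 / Real.log X)) = Real.exp 2 * X := by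
    rw [Real.rpow_add hX, Real.rpow_one, Real.rpow_def_of_pos hX, mul_comm]
    congr 2
    field_simp
  generalize Real.log X = L at *
  have hL : 0 < L := by linarith
  have e0 : 0 < 1 / L := by positivity
  have e1 : 1 / L ≤ 1 / 100 := one_div_le_one_div_of_le (by norm_num) XL
  have eL : L = 1 / (1 / L) := by field_simp
  generalize 1 / L = ε at *
  have hO1 := fun u (hu : u ∈ Bx ε 12) => hO' ε 1 u e0 ⟨by simp; norm_num, by simp⟩ hu (by
    rw [add_re, tw_usre, Fin.sum_univ_four, one_re]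
    linarith [(tw_bx hu 0).1, (tw_bx hu 1).1, (tw_bx hu 2).1, (tw_bx hu 3).1])
  have hdn := fun n u => (td_dn n 0 u).2.2.1
  rw [hD Y (fun u => Om g γ c Δ η X 1 u / 8) ε (Co * (Δ / (η * min ε 1)) ^ Bo * X ^ (25 : ℝ)) e0
    (by linarith) (fun u hu => ((hO1 u hu).2.2.1.comp u
      ((differentiableAt_const _).prodMk differentiableAt_id)).mul_const (8 : ℂ)⁻¹) fun u hu => by
      have a1 := (hO1 u hu).2.2.2.2.2
      have a2 : X ^ (1 + us u).re ≤ X ^ (25 : ℝ) := Real.rpow_le_rpow_of_exponent_le X1 (by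
        rw [add_re, tw_usre, Fin.sum_univ_four, one_re]
        linarith [(tw_bx hu 0).2, (tw_bx hu 1).2, (tw_bx hu 2).2, (tw_bx hu 3).2])
      have a3 : Real.exp (-Δ * ε) ≤ 1 := Real.exp_le_one_iff.2 (by nlinarith)
      have a4 : br (1 : ℂ).im ^ n = 1 := by simp [br]
      have a5 := hdn n u
      have a6 : 0 < min ε 1 := lt_min e0 one_pos
      rw [a4, div_one] at a1
      rw [norm_div, Complex.norm_ofNat]
      refine (div_le_self (norm_nonneg _) (by norm_num)).trans (a1.trans ?_)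
      calc _ ≤ Co * (Δ / (η * min ε 1)) ^ Bo * X ^ (25 : ℝ) * 1 * dn n u := by gcongr
        _ = _ := by ring]
  have hr : ∀ (t : R4) j, (pt (cs ε) t j).re = ε := fun t j => by simp [pt, cs]
  have hv := fun t => td_v e0 e1 (hr t)
  have hv1 : ∀ t, 1 ≤ ‖1 + us (pt (cs ε) t)‖ := fun t =>
    le_trans (by rw [(hv t).1]; linarith) (Complex.re_le_norm _)
  have hv0 : ∀ t, 1 + us (pt (cs ε) t) ≠ 0 := fun t => norm_pos_iff.1 (by linarith [hv1 t])
  have hp : ∀ (t : R4) j, 0 < (pt (cs ε) t j).re := fun t j => by rw [hr]; exact e0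
  have hb : ∀ t : R4, pt (cs ε) t ∈ Bx ε 12 := fun t j =>
    ⟨(hr t j).ge, (hr t j).le.trans (by simp only [cs]; linarith)⟩
  obtain ⟨a, ha⟩ : ∃ a : V4 → ℂ, a = fun u =>
    (X : ℂ) ^ (1 + us u) / (1 + us u) * (W4 g γ u * ZO u) := ⟨_, rfl⟩
  obtain ⟨e, he⟩ : ∃ e : V4 → ℂ, e = fun u => cexp (η ^ 2 * (1 + us u) ^ 2) := ⟨_, rfl⟩
  have ca : Continuous fun t => a (pt (cs ε) t) := td_cont fun t => by
    rw [ha]
    have b1 : DifferentiableAt ℂ (fun u => 1 + us u) (pt (cs ε) t) := (hus _).const_add 1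
    have b2 : DifferentiableAt ℂ (fun u => (X : ℂ) ^ (1 + us u)) (pt (cs ε) t) :=
      b1.const_cpow (Or.inl (by exact_mod_cast hX.ne'))
    exact (b2.mul (b1.inv (hv0 t))).mul (((hW1 _ (hp t)).mul (hhf _)).mul (hZ _ (hp t)))
  have ce : Continuous fun t => e (pt (cs ε) t) := td_cont fun t => by rw [he]; fun_prop
  have cf : Continuous fun t => cF Δ (pt (cs ε) t) := td_cont fun t => hcF Δ _
  have ch : Continuous fun t => Hone Y 0 (pt (cs ε) t) := td_cont fun t =>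
    (hH1 (0, pt (cs ε) t) ⟨by simp, by simp, fun j => by
      simp only [sub_zero, hr]; constructor <;> linarith⟩).comp (pt (cs ε) t)
      ((differentiableAt_const _).prodMk differentiableAt_id)
  have ci : Continuous fun t => HI (pt (cs ε) t) :=
    hH3.comp_continuous (by unfold pt; fun_prop) fun t j => (hp t j).le
  have na : ∀ t, ‖a (pt (cs ε) t)‖ ≤ Real.exp 2 * X * Cw * dn (2 + 2) (pt (cs ε) t) *
      ∏ j, 1 / ‖pt (cs ε) t j‖ ^ 8 := fun t => by
    have b1 := (hW2 ε Δ e0 D1 _ (hb t)).2.2.2.2.1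
    have b2 : ‖(X : ℂ) ^ (1 + us (pt (cs ε) t)) / (1 + us (pt (cs ε) t))‖ ≤ Real.exp 2 * X := by
      rw [norm_div, tw_npow hX, (hv t).1, eX]
      exact div_le_self (by positivity) (hv1 t)
    rw [ha]
    simp only
    rw [norm_mul]
    exact (mul_le_mul b2 b1 (norm_nonneg _) (by positivity)).trans (le_of_eq (by ring))
  have hn : ∀ (t : R4) j, ε ≤ ‖pt (cs ε) t j‖ := fun t j => (hr t j).ge.trans (Complex.re_le_norm _)
  have nP : ∀ t : R4, ∏ j, 1 / ‖pt (cs ε) t j‖ ^ 8 ≤ L ^ 32 := fun t => by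
    refine (prod_le_prod (g := fun _ => L ^ 8) (fun _ _ => by positivity) fun j _ => ?_).trans
      (le_of_eq ?_)
    · have := hn t j
      rw [eL, one_div_pow]
      gcongr
    · rw [prod_const, card_univ, Fintype.card_fin, ← pow_mul]
  have hY : (1 : ℝ) ≤ √(Y : ℝ) := Real.one_le_sqrt.2 (by exact_mod_cast Y1)
  have hHt := fun t : R4 => hH2 Y1 (pt (cs ε) t) fun j => (hp t j).le
  have cD : Continuous fun t => a (pt (cs ε) t) * (e (pt (cs ε) t) * (1 - cF Δ (pt (cs ε) t)) *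
      Hone Y 0 (pt (cs ε) t) - HI (pt (cs ε) t)) :=
    ca.fun_mul (((ce.fun_mul (continuous_const.fun_sub cf)).fun_mul ch).fun_sub ci)
  have cB : Continuous fun t => a (pt (cs ε) t) * HI (pt (cs ε) t) := ca.fun_mul ci
  obtain ⟨iD, nD⟩ := hINB 4 (cs ε)
    (72 * Ch * (Δ ^ 32 + η ^ 2 * (L ^ 32 * Δ ^ 32) + L ^ 32 / √(Y : ℝ)) * (Real.exp 2 * X * Cw))
    (fun u => a u * (e u * (1 - cF Δ u) * Hone Y 0 u - HI u)) cD fun t => by
      obtain ⟨b1, -, -, -, b2⟩ := td_dn 2 2 (pt (cs ε) t)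
      have b3 := hdn (2 + 2) (pt (cs ε) t)
      obtain ⟨b4, b5⟩ := td_exp (η ^ 2 * (1 + us (pt (cs ε) t)) ^ 2) (by
        have b6 := (hv t).1
        generalize 1 + us (pt (cs ε) t) = v at b6
        have b7 : ((η : ℂ) ^ 2 * v ^ 2).re = η ^ 2 * (v.re ^ 2 - v.im ^ 2) := by
          rw [← ofReal_pow, re_ofReal_mul, sq v, mul_re, ← sq, ← sq]
        have b8 : v.re ^ 2 - v.im ^ 2 ≤ 4 := by rw [b6]; nlinarith [sq_nonneg v.im]
        have b9 : η ^ 2 ≤ 1 / 900 := by nlinarith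
        rw [b7]
        nlinarith [sq_nonneg η])
      refine (td_alg (η := η ^ 2) (G := gn 2 (pt (cs ε) t)) (by positivity)
        (prod_nonneg fun _ _ => by positivity) hCh.le hY (one_le_pow₀ D1)
        (td_dn 2 0 _).2.2.2.1 (na t) (nP t) ?_ (by rw [he]; exact b4) ?_
        (hW2 ε Δ e0 D1 _ (hb t)).2.2.2.2.2 (hHt t).1 (hHt t).2 (sq_nonneg η)).trans (le_of_eq ?_)
      · rw [← prod_mul_distrib]
        exact prod_eq_one fun j _ => by
          have := e0.trans_le (hn t j)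
          field_simp
      · rw [he]
        refine b5.trans ?_
        rw [norm_mul, norm_pow, norm_pow, Complex.norm_real, Real.norm_of_nonneg h0.le]
        nlinarith [mul_le_mul_of_nonneg_left (hv t).2 (sq_nonneg η)]
      · rw [← b2, ← b1]; ring
  obtain ⟨iB, -⟩ := hINB 4 (cs ε) (Real.exp 2 * X * Cw * L ^ 32 * Ch) (fun u => a u * HI u)
    cB fun t => by
      obtain ⟨-, b1, b3, -, b2⟩ := td_dn 2 2 (pt (cs ε) t)
      have b4 := nP t
      have b5 : 0 ≤ ∏ j, 1 / ‖pt (cs ε) t j‖ ^ 8 := prod_nonneg fun _ _ => by positivity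
      have b6 := (hHt t).2
      rw [norm_mul, ← b2]
      calc _ ≤ Real.exp 2 * X * Cw * dn 2 (pt (cs ε) t) * L ^ 32 * Ch :=
            mul_le_mul ((na t).trans (mul_le_mul (mul_le_mul_of_nonneg_left b1 (by positivity)) b4 b5
              (by positivity))) b6 (norm_nonneg _) (by positivity)
        _ = _ := by ring
  have q1 : MC g γ ε X = In (cs ε) fun u => a u * HI u := by
    unfold MC
    congr 1
    funext u
    rw [ha]
    ring
  have q2 : In (cs ε) (fun u => Om g γ c Δ η X 1 u / 8 * (ZO u * Hone Y 0 u)) =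
      1 / (8 * c) * (In (cs ε) (fun u => a u * (e u * (1 - cF Δ u) * Hone Y 0 u - HI u)) +
        In (cs ε) fun u => a u * HI u) := by
    unfold In
    rw [← integral_add iD iB, ← integral_const_mul]
    congr 1
    funext t
    rw [ha, he]
    simp only [Om, Ow, W4, rho, Complex.cpow_neg_one]
    ring
  rw [q1, q2, mul_add, add_sub_cancel_right, norm_mul]
  have q3 : ‖(1 / (8 * c) : ℂ)‖ ≤ 1 := by
    rw [norm_div, norm_one, norm_mul, Complex.norm_ofNat, Complex.norm_real,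
      Real.norm_of_nonneg (by linarith)]
    exact div_le_one_of_le₀ (by linarith) (by linarith)
  refine (mul_le_of_le_one_left (norm_nonneg _) q3).trans (nD.trans (le_of_eq ?_))
  ring

end Pool.Agent.Q4
end

-- part Pool.Agent.P.MP_ea46f5_nt.Q4.FTF0
section

namespace Pool.Agent.Q4

open Complex MeasureTheory Finset Pool.Agent.QM
open scoped Real ComplexConjugate

theorem tf_C {E : ℤ → ℂ → ℂ} {C : ℝ} (hK : KA E C) : 0 ≤ C := by
  have := (norm_nonneg _).trans (hK.2.1 1 0 one_ne_zero (by simp) (by simp))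
  simpa [br] using this

theorem tf_gn (m : ℕ) (u : V4) : gn m u = gn 1 u ^ m := by simp [gn, prod_pow]

theorem tf_dn (m : ℕ) (u : V4) : dn m u = 1 / gn 1 u ^ m := by simp [gn, dn, prod_pow]

theorem tf_dk (u : V4) : dk u = 1 / gn 1 u ^ 2 := tf_dn 2 u

theorem tf_br (u : V4) (i : Fin 4) : br (u i).im ≤ gn 1 u := by
  rw [gn, ← mul_prod_erase univ _ (mem_univ i), pow_one]
  exact le_mul_of_one_le_right (sh_br_pos _).le (one_le_prod fun _ _ => one_le_pow₀ (sh_br_one _))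

theorem tf_br_sub (t u : ℝ) : br (t - u) ≤ br t * br u := by
  unfold br
  have := abs_sub t u
  nlinarith [abs_nonneg t, abs_nonneg u, mul_nonneg (abs_nonneg t) (abs_nonneg u)]

/-- The factor of the kernel that depends on `z` alone. -/
theorem tf_E (hZT : ZT) {E : ℤ → ℂ → ℂ} {C : ℝ} (hK : KA E C) {z : ℂ} (h0 : 0 < z.re)
    (h1 : z.re ≤ 1) : DifferentiableAt ℂ (fun z => E 1 z / z * riemannZeta₁ (2 * z) / 2) z ∧
      ‖E 1 z / z * riemannZeta₁ (2 * z) / 2‖ ≤ 4 * C * br z.im ^ 11 * (1 / z.re) := by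
  have hC := tf_C hK
  have hn : 0 < ‖z‖ := h0.trans_le (Complex.re_le_norm z)
  have hb := sh_br_one z.im
  constructor
  · refine ((((hK.1 1 one_ne_zero).differentiableAt ?_).div differentiableAt_id
      (norm_pos_iff.1 hn)).mul (by fun_prop)).div_const 2
    exact (isOpen_lt continuous_const continuous_re).mem_nhds (by show _ < z.re; linarith)
  · have e : (2 * z).re = 2 * z.re := by simp
    have h2 := hZT.1 (2 * z) (by rw [e]; linarith)
    have h3 : 1 ≤ ‖z‖ / z.re := (one_le_div h0).2 (Complex.re_le_norm z)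
    rw [e, norm_mul, Complex.norm_two, mul_div_mul_left _ _ two_ne_zero] at h2
    have h5 : ‖(2 * z - 1 : ℂ)‖ ≤ 3 * br z.im := by
      have := Complex.norm_le_abs_re_add_abs_im z
      rw [abs_of_pos h0] at this
      refine (norm_sub_le _ _).trans ?_
      rw [norm_mul, Complex.norm_two, norm_one, br]
      linarith [abs_nonneg z.im]
    have h4 : ‖riemannZeta₁ (2 * z)‖ ≤ 7 * (br z.im * (‖z‖ / z.re)) := by
      rw [riemannZeta₁]
      refine (norm_add_le _ _).trans ?_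
      rw [norm_one, norm_mul]
      have h6 := mul_le_mul h5 (h2.trans (by linarith : _ ≤ 2 * (‖z‖ / z.re))) (norm_nonneg _)
        (by positivity)
      have h7 := one_le_mul_of_one_le_of_one_le hb h3
      linarith
    have h6 := hK.2.1 1 z one_ne_zero (by linarith) (by linarith)
    rw [norm_div, norm_mul, norm_div, Complex.norm_two]
    calc _ ≤ C * br z.im ^ 10 / ‖z‖ * (7 * (br z.im * (‖z‖ / z.re))) / 2 := by gcongr
      _ = 7 / 2 * C * br z.im ^ 11 * (1 / z.re) := by field_simp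
      _ ≤ _ := by gcongr; norm_num

theorem tf_T {γ : ℤ} {c Δ η X : ℝ} {Y : ℕ} (h : Pm γ c Δ η X Y) :
    0 < 1 / Real.log X ∧ 1 / Real.log X ≤ 1 / 100 ∧ Real.log X ≤ Y * Δ * Real.log X / η ∧
      (Y : ℝ) ≤ Y * Δ * Real.log X / η ∧
      Δ / (η * min (1 / Real.log X) 1) ≤ Y * Δ * Real.log X / η := by
  have h1 := h.XL
  have h2 := h.D1
  have h3 := h.h0
  have h4 := h.h1
  have h5 : (1 : ℝ) ≤ Y := by exact_mod_cast h.Y1
  have h6 : 1 / Real.log X ≤ 1 / 100 := one_div_le_one_div_of_le (by norm_num) h1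
  have h7 : 1 ≤ Y * Δ := one_le_mul_of_one_le_of_one_le h5 h2
  have h8 : 1 ≤ Δ * Real.log X := one_le_mul_of_one_le_of_one_le h2 (by linarith)
  refine ⟨by positivity, h6, ?_, ?_, ?_⟩
  · rw [le_div_iff₀ h3]
    nlinarith
  · rw [le_div_iff₀ h3, mul_assoc]
    nlinarith
  · rw [min_eq_left (by linarith), mul_one_div, div_div_eq_mul_div, mul_assoc]
    exact div_le_div_of_nonneg_right (le_mul_of_one_le_left (by linarith) h5) h3.le

theorem tf_dprod {ι : Type} {s : Finset ι} {f : ι → V4 → ℂ} {x : V4}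
    (h : ∀ i ∈ s, DifferentiableAt ℂ (f i) x) :
    DifferentiableAt ℂ (fun y => ∏ i ∈ s, f i y) x := by
  classical
  exact (HasFDerivAt.finsetProd fun i hi => (h i hi).hasFDerivAt).differentiableAt

theorem tf_us (u : V4) : (us u).re = (∑ j, (u j).re) / 2 := by simp [us, re_sum]

theorem pTF0 (hZT : ZT) (hSH4 : SH4) (hVDP : VDP) (hZF : ZF) (hHB4 : HB4) (hZB : ZB)
    (hOMB : OMB) : TF0 := by
  intro g C₀ C₁ E hg hE
  obtain ⟨CV, N, hCV, -, hV1, -, hV3, -⟩ := hVDP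
  obtain ⟨hl1, -, hl3, -, CF, hCF, hl5, -⟩ := hZF
  obtain ⟨CH, BH, hCH, hH⟩ := hHB4
  obtain ⟨CZ, nZ, hCZ, -, hZ2, -, -, hZ5, hZ6⟩ := hZB
  obtain ⟨CO, BO, hCO, hO⟩ := hOMB g C₀ (2 * N + 25 + 2 * nZ) hg
  have hC₁ := tf_C hE
  set C' := CO * CV * (4 * C₁) * CV * 4 * CF ^ 3 * CZ * CH / 2 with hC'
  have hC'0 : 0 ≤ C' := by positivity
  refine ⟨16 * Real.exp 5 * C' + 1, BO + 11 + BH, by positivity, ?_⟩
  intro γ c Δ η X Y i hP
  obtain ⟨e0, e1, t1, t2, t3⟩ := tf_T hP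
  obtain ⟨P, hP1, hP2, hP3⟩ := hV3 i
  obtain ⟨-, H1, H2, -⟩ := hH Y
  have hX : 0 < X := one_pos.trans_le hP.X1
  have hL : 0 < Real.log X := by linarith [hP.XL]
  set ε := 1 / Real.log X with hε
  set T := Y * Δ * Real.log X / η with hT
  have hT0 : 0 < T := hL.trans_le t1
  set G : V4 → ℂ := fun u => O0 g γ c Δ η X (1 - u i) u * P u *
    (E 1 (u i) / u i * riemannZeta₁ (2 * u i) / 2) * hf u / (u i - 1 / 2) *
      (∏ j ∈ univ.erase i, lz (u j - u i)) * ZR (u i) u * Hone Y (u i) u / 2 with hG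
  have hB : ∀ u ∈ Bx ε (1 / 4), ∀ j, ε ≤ (u j).re ∧ (u j).re ≤ 1 / 4 := fun u hu j => hu j
  have hB1 : ∀ u ∈ Bx ε (1 / 4), u ∈ Bx ε 12 := fun u hu j =>
    ⟨(hu j).1, (hB u hu j).2.trans (by norm_num [cs])⟩
  have hB2 : ∀ u ∈ Bx ε (1 / 4), u ∈ Bx (-1) 13 := fun u hu j =>
    ⟨by have := (hB u hu j).1; simp only [cs]; linarith,
      (hB u hu j).2.trans (by norm_num [cs])⟩
  have hB3 : ∀ u ∈ Bx ε (1 / 4), (u i, u) ∈ V1 := fun u hu =>
    ⟨by show _ < (u i).re; linarith [(hB u hu i).1], by show (u i).re < _; linarith [(hB u hu i).2],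
      fun j => by
        simp only [sub_re]
        constructor <;> linarith [(hB u hu j).1, (hB u hu i).2]⟩
  have hB4 : ∀ u ∈ Bx ε (1 / 4), 1 / 4 ≤ (1 - u i + us u).re ∧ (1 - u i + us u).re ≤ 2 :=
    fun u hu => by
      simp only [add_re, sub_re, one_re, tf_us, Fin.sum_univ_four]
      constructor <;> linarith [(hB u hu i).1, (hB u hu i).2, (hB u hu 0).1, (hB u hu 0).2,
        (hB u hu 1).1, (hB u hu 1).2, (hB u hu 2).1, (hB u hu 2).2, (hB u hu 3).1, (hB u hu 3).2]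
  have hO' := fun u hu => hO γ c Δ η X ε Y (1 - u i) u hP e0 (by
    constructor <;> simp only [sub_re, one_re] <;> linarith [(hB u hu i).1, (hB u hu i).2])
    (hB1 u hu) (hB4 u hu).1
  have hE' := fun u hu => tf_E hZT hE (z := u i) (e0.trans_le (hB u hu i).1)
    (by linarith [(hB u hu i).2])
  have hhalf : ∀ u ∈ Bx ε (1 / 4), 1 / 4 ≤ ‖u i - 1 / 2‖ := fun u hu => by
    refine le_trans ?_ (abs_re_le_norm _)
    rw [le_abs]
    right
    simp only [sub_re, div_ofNat_re, one_re]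
    linarith [(hB u hu i).2]
  have hhol : Hol (Bx ε (1 / 4)) G := fun u hu => by
    have a1 : DifferentiableAt ℂ (fun u : V4 => O0 g γ c Δ η X (1 - u i) u) u :=
      (hO' u hu).1.comp u (f := fun u : V4 => (1 - u i, u)) (by fun_prop)
    have a2 : DifferentiableAt ℂ (fun u : V4 =>
        E 1 (u i) / u i * riemannZeta₁ (2 * u i) / 2) u :=
      (hE' u hu).1.comp u (f := fun u : V4 => u i) (by fun_prop)
    have a3 : DifferentiableAt ℂ hf u := by
      unfold hf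
      simp only [Fin.prod_univ_four]
      fun_prop
    have a4 : DifferentiableAt ℂ (fun u : V4 => ∏ j ∈ univ.erase i, lz (u j - u i)) u :=
      tf_dprod fun j _ => (hl1 _).comp u (f := fun u : V4 => u j - u i) (by fun_prop)
    have a5 : DifferentiableAt ℂ (fun u : V4 => ZR (u i) u) u :=
      (hZ2 (u i, u) ⟨e0.le.trans (hB u hu i).1, fun j => e0.trans_le (hB u hu j).1⟩).comp u
        (f := fun u : V4 => (u i, u)) (by fun_prop)
    have a6 : DifferentiableAt ℂ (fun u : V4 => Hone Y (u i) u) u :=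
      (H1 _ (hB3 u hu)).comp u (f := fun u : V4 => (u i, u)) (by fun_prop)
    have a7 : u i - 1 / 2 ≠ 0 := norm_pos_iff.1 (lt_of_lt_of_le (by norm_num) (hhalf u hu))
    have a8 : DifferentiableAt ℂ (fun u : V4 => (u i - 1 / 2)⁻¹) u :=
      DifferentiableAt.inv (h := fun u : V4 => u i - 1 / 2) (by fun_prop) a7
    exact (((((((a1.mul (hP1 u)).mul a2).mul a3).mul a8).mul a4).mul a5).mul a6).mul_const
      (2 : ℂ)⁻¹
  have hbd : ∀ u ∈ Bx ε (1 / 4), ‖G u‖ ≤
      C' * T ^ (BO + 11 + BH) * X ^ (1 - u i + us u).re * dk u := fun u hu => by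
    set q := gn 1 u with hq
    have hβ := tf_br u i
    have hβ1 := sh_br_one (u i).im
    have hq1 : 1 ≤ q := hβ1.trans hβ
    have hε' : 1 / ε ≤ T := by rw [hε, one_div_one_div]; exact t1
    have g1 : ‖O0 g γ c Δ η X (1 - u i) u‖ ≤
        CO * T ^ BO * X ^ (1 - u i + us u).re * (1 / q ^ (2 * N + 25 + 2 * nZ)) := by
      refine (hO' u hu).2.2.2.1.trans ?_
      have b1 : Real.exp (-Δ * ε) ≤ 1 := Real.exp_le_one_iff.2 (by nlinarith [hP.D1])
      have b2 : 1 ≤ br (1 - u i).im ^ (2 * N + 25 + 2 * nZ) := one_le_pow₀ (sh_br_one _)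
      have b3 : 0 < min ε 1 := lt_min e0 one_pos
      have b4 := hP.h0
      have b5 := hP.D1
      rw [tf_dn]
      refine mul_le_mul_of_nonneg_right ((div_le_self (by positivity) b2).trans
        ((mul_le_of_le_one_right (by positivity) b1).trans ?_)) (by positivity)
      gcongr
    have g2 : ‖P u‖ ≤ CV * q ^ N := by simpa only [tf_gn N] using hP3 u (hB2 u hu)
    have g3 : ‖E 1 (u i) / u i * riemannZeta₁ (2 * u i) / 2‖ ≤ 4 * C₁ * q ^ 11 * T := by
      refine (hE' u hu).2.trans ?_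
      have b1 := (one_div_le_one_div_of_le e0 (hB u hu i).1).trans hε'
      have b2 := e0.trans_le (hB u hu i).1
      gcongr
    have g4 : ‖hf u‖ ≤ CV * q ^ N := by simpa only [tf_gn N] using (hV1 u (hB2 u hu)).2.2.2
    have g5 : ‖∏ j ∈ univ.erase i, lz (u j - u i)‖ ≤ (CF * q ^ 4) ^ 3 := by
      rw [norm_prod]
      refine (prod_le_prod (g := fun _ => CF * q ^ 4) (fun _ _ => norm_nonneg _)
        fun j _ => ?_).trans (le_of_eq (by simp))
      refine (hl5 _ (by simp only [sub_re]; linarith [(hB u hu j).1, (hB u hu i).2])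
        (by simp only [sub_re]; linarith [(hB u hu j).2, (hB u hu i).1])).trans ?_
      have b1 : br (u j - u i).im ≤ q ^ 2 := by
        rw [sub_im, sq]
        exact (tf_br_sub _ _).trans (mul_le_mul (tf_br u j) hβ (by linarith) (by linarith))
      have b2 := sh_br_pos (u j - u i).im
      rw [show q ^ 4 = (q ^ 2) ^ 2 by ring]
      gcongr
    have g6 : ‖ZR (u i) u‖ ≤ CZ * q ^ nZ * q ^ nZ * T ^ 10 := by
      refine ((hZ5 ε e0 (by linarith) u (hB1 u hu)).2 (u i)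
        ⟨e0.le.trans (hB u hu i).1, by linarith [(hB u hu i).2]⟩).trans ?_
      rw [tf_gn nZ, div_eq_mul_one_div, ← one_div_pow]
      gcongr
    have g7 : ‖Hone Y (u i) u‖ ≤ CH * T ^ BH := (H2 _ (hB3 u hu)).trans (by gcongr)
    have g8 := hhalf u hu
    simp only [hG]
    rw [norm_div, norm_mul, norm_mul, norm_mul, norm_div, norm_mul, norm_mul, norm_mul,
      Complex.norm_two, tf_dk, ← hq]
    calc _ ≤ CO * T ^ BO * X ^ (1 - u i + us u).re * (1 / q ^ (2 * N + 25 + 2 * nZ)) *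
          (CV * q ^ N) * (4 * C₁ * q ^ 11 * T) * (CV * q ^ N) / (1 / 4) * (CF * q ^ 4) ^ 3 *
          (CZ * q ^ nZ * q ^ nZ * T ^ 10) * (CH * T ^ BH) / 2 := by gcongr
      _ = _ := by
          rw [hC']
          field_simp
          ring
  have hr : ∀ j, ε ≤ rl ε j ∧ rl ε j ≤ 1 / 4 := fun j => by
    have b1 : (0 : ℝ) ≤ (j : ℕ) := Nat.cast_nonneg _
    have b2 : ((j : ℕ) : ℝ) ≤ 3 := by exact_mod_cast Nat.le_of_lt_succ j.2
    unfold rl
    constructor <;> nlinarith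
  have hr' : ∀ j, ε ≤ Function.update (rl ε) i (1 / 4) j ∧
      Function.update (rl ε) i (1 / 4) j ≤ 1 / 4 := fun j => by
    by_cases h : j = i
    · rw [h, Function.update_self]
      exact ⟨by linarith, le_rfl⟩
    · rw [Function.update_of_ne h]
      exact hr j
  have a1 : In (rl ε) (Fl (fun z u => Ow g γ c Δ η X (1 - z) u *
      (E 1 z / z * riemannZeta₁ (2 * z) / 2)) (Hone Y) i) = In (rl ε) G := by
    unfold In
    congr 1
    funext t
    set u := pt (rl ε) t with hu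
    have b1 : (∏ j ∈ univ.erase i, lz (u j - u i)) = (∏ j ∈ univ.erase i, (u j - u i)) *
        ∏ j ∈ univ.erase i, Lo 1 (1 + (u j - u i)) := by
      rw [← prod_mul_distrib]
      refine prod_congr rfl fun j hj => ?_
      have b2 : u j - u i ≠ 0 := fun h => by
        have b3 := congrArg re h
        simp only [hu, sub_re, pt_re, zero_re, rl, ← sub_mul, mul_eq_zero, e0.ne', or_false,
          add_sub_add_right_eq_sub, sub_eq_zero, Nat.cast_inj] at b3
        exact (ne_of_mem_erase hj) (Fin.ext b3)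
      rw [hl3 _ b2, mul_div_cancel₀ _ b2]
    have b2 := (hZ6 u fun j => by rw [hu, pt_re]; exact e0.trans_le (hr j).1).2 i
    simp only [hG, Fl, FZ, Ow, O0, Wr]
    rw [b1, b2, hP2 u]
    ring
  have a2 := (hSH4.1 ε (1 / 4) (C' * T ^ (BO + 11 + BH) * X ^ (2 : ℝ)) (rl ε)
    (Function.update (rl ε) i (1 / 4)) G hr hr' hhol fun u hu => (hbd u hu).trans (by
      have b1 := Real.rpow_le_rpow_of_exponent_le hP.X1 (hB4 u hu).2
      have b2 := dk_pos u
      show _ ≤ _ * dk u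
      gcongr)).1
  have a3 : ∀ t : R4, ‖G (pt (Function.update (rl ε) i (1 / 4)) t)‖ ≤
      C' * T ^ (BO + 11 + BH) * (Real.exp 5 * X ^ (9 / 10 : ℝ)) * ∏ j, 1 / br (t j) ^ 2 :=
    fun t => by
      set u := pt (Function.update (rl ε) i (1 / 4)) t with hu
      have b1 : (1 - u i + us u).re ≤ 5 * ε + 9 / 10 := by
        simp only [add_re, sub_re, one_re, tf_us, hu, pt_re, Function.update_self]
        rw [sum_update_of_mem (mem_univ i)]
        have b2 : ∑ j ∈ univ \ {i}, rl ε j ≤ ∑ j, rl ε j :=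
          sum_le_sum_of_subset_of_nonneg (subset_univ _) fun j _ _ => e0.le.trans (hr j).1
        have b3 : ∑ j, rl ε j = 10 * ε := by
          simp [rl, Fin.sum_univ_four]
          ring
        linarith
      have b2 : X ^ (1 - u i + us u).re ≤ Real.exp 5 * X ^ (9 / 10 : ℝ) := by
        refine (Real.rpow_le_rpow_of_exponent_le hP.X1 b1).trans (le_of_eq ?_)
        rw [Real.rpow_add hX, Real.rpow_def_of_pos hX, hε]
        congr 2
        field_simp
      refine (hbd u fun j => by rw [hu, pt_re]; exact hr' j).trans ?_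
      have b3 := dk_pos u
      rw [← dk_pt, ← hu]
      gcongr
  have a4 := norm_integral_le_of_norm_le (dk_int.const_mul _) (Filter.Eventually.of_forall a3)
  rw [integral_const_mul] at a4
  have a5 := dk_integral (n := 4)
  rw [a1, a2]
  calc _ ≤ C' * T ^ (BO + 11 + BH) * (Real.exp 5 * X ^ (9 / 10 : ℝ)) * 2 ^ 4 :=
        a4.trans (mul_le_mul_of_nonneg_left a5 (by positivity))
    _ = 16 * Real.exp 5 * C' * T ^ (BO + 11 + BH) * X ^ (9 / 10 : ℝ) := by ring
    _ ≤ _ := by gcongr; linarith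

theorem pTF1 (hZT : ZT) (hHB4 : HB4) (hK1 : K1) (hOMB : OMB) (hTF0 : TF0) : TF1 := by
  intro g C₀ C₁ E hg hE
  obtain ⟨CH, BH, hCH, hH⟩ := hHB4
  obtain ⟨n, CK, hCK, hK⟩ := hK1
  obtain ⟨CO, BO, hCO, hO⟩ := hOMB g C₀ (n + 11) hg
  obtain ⟨CT, BT, hCT, hF⟩ := hTF0 g C₀ C₁ E hg hE
  have hC₁ := tf_C hE
  refine ⟨CK * (CO * (8 * C₁)) * CH + 4 * CT, BO + 11 + BH + BT, by positivity, ?_⟩
  intro γ c Δ η X Y hP
  obtain ⟨e0, e1, t1, t2, t3⟩ := tf_T hP
  obtain ⟨-, H1, H2, -⟩ := hH Y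
  have hX : 0 < X := one_pos.trans_le hP.X1
  have hL : 0 < Real.log X := by linarith [hP.XL]
  have hF' := fun i => hF γ c Δ η X Y i hP
  set ε := 1 / Real.log X with hε
  set T := Y * Δ * Real.log X / η with hT
  have hT1 : 1 ≤ T := by linarith [hP.XL]
  have hε' : 1 / ε ≤ T := by rw [hε, one_div_one_div]; exact t1
  have hre : ∀ x ∈ R1 ε, 0 ≤ ∑ j, (x.2 j).re := fun x hx =>
    sum_nonneg fun j _ => e0.le.trans (hx.2 j).1
  have hO' := fun (x : ℂ × V4) (hx : x ∈ R1 ε) => hO γ c Δ η X ε Y (1 - x.1) x.2 hP e0 (by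
    constructor <;> simp only [sub_re, one_re] <;> linarith [hx.1.1, hx.1.2]) hx.2 (by
    simp only [add_re, sub_re, one_re, tf_us]
    linarith [hx.1.2, hre x hx])
  have hE' := fun (x : ℂ × V4) (hx : x ∈ R1 ε) => tf_E hZT hE (z := x.1)
    (by linarith [hx.1.1]) (by linarith [hx.1.2])
  have h1 := hK Y (KP E (Om g γ c Δ η X)) (fun z u => Ow g γ c Δ η X (1 - z) u *
    (E 1 z / z * riemannZeta₁ (2 * z) / 2)) ε X (CO * (8 * C₁) * T ^ (BO + 1)) (CH * T ^ BH)
    { e0 := e0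
      e1 := e1
      X1 := hP.X1
      eX := by rw [hε, one_div_mul_cancel hL.ne']
      hol := fun x hx => ((hO' x hx).2.1.comp x (f := fun x : ℂ × V4 => (1 - x.1, x.2))
        (by fun_prop)).mul ((hE' x hx).1.comp x (f := fun x : ℂ × V4 => x.1) (by fun_prop))
      bd := fun x hx => by
        have g1 := (hO' x hx).2.2.2.2.1
        have g2 := (hE' x hx).2
        have b0 : br (1 - x.1).im = br x.1.im := by simp [br]
        have b1 : Real.exp (-Δ * ε) ≤ 1 := Real.exp_le_one_iff.2 (by nlinarith [hP.D1])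
        have b2 := sh_br_pos x.1.im
        have b3 : 0 < min ε 1 := lt_min e0 one_pos
        have b4 := hP.h0
        have b5 := hP.D1
        have b6 : X ^ (1 - x.1 + us x.2).re ≤ X ^ (1 - x.1.re + ∑ j, (x.2 j).re) := by
          refine Real.rpow_le_rpow_of_exponent_le hP.X1 ?_
          simp only [add_re, sub_re, one_re, tf_us]
          linarith [hre x hx]
        have b7 : 1 / x.1.re ≤ 2 * T := by
          refine (one_div_le_one_div_of_le (half_pos e0) hx.1.1).trans ?_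
          rw [one_div_div, div_eq_mul_one_div]
          linarith
        have b8 : dn (n + 11) x.2 ≤ dn n x.2 :=
          prod_le_prod (fun j _ => by have := sh_br_pos (x.2 j).im; positivity) fun j _ =>
            one_div_le_one_div_of_le (pow_pos (sh_br_pos _) _)
              (pow_le_pow_right₀ (sh_br_one _) (by omega))
        have b9 : 0 < dn (n + 11) x.2 :=
          prod_pos fun j _ => by have := sh_br_pos (x.2 j).im; positivity
        have b10 : 0 < x.1.re := by linarith [hx.1.1]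
        have b11 := b9.trans_le b8
        rw [b0] at g1
        rw [norm_mul]
        calc _ ≤ CO * T ^ BO * X ^ (1 - x.1.re + ∑ j, (x.2 j).re) * 1 / br x.1.im ^ (n + 11) *
              dn n x.2 * (4 * C₁ * br x.1.im ^ 11 * (2 * T)) :=
              mul_le_mul (g1.trans (by gcongr)) (g2.trans (by gcongr)) (norm_nonneg _)
                (by positivity)
          _ = _ := by
              rw [pow_add, pow_add]
              field_simp
              ring
      hH := H1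
      bH := fun x hx => (H2 x hx).trans (by gcongr) }
    (fun z u hz => by
      have b1 : 2 * z ≠ 1 := fun h => by
        have := congrArg re h
        simp [hz] at this
        norm_num at this
      have b2 : z - 1 / 2 ≠ 0 := fun h => b1 (by linear_combination 2 * h)
      rw [KP, Kd, Om, riemannZeta_eq_inv_sub_mul b1, show 2 * z - 1 = 2 * (z - 1 / 2) by ring]
      simp only [Int.cast_one, abs_one, ofReal_one, one_cpow]
      field_simp)
  have h2 := (norm_sum_le _ _).trans (sum_le_sum (s := univ) fun i _ => hF' i)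
  simp only [sum_const, card_univ, Fintype.card_fin, nsmul_eq_mul, Nat.cast_ofNat] at h2
  have h3 := (norm_le_norm_sub_add _ _).trans (add_le_add h1 h2)
  refine h3.trans ?_
  have h4 : T ^ (BO + 1) * T ^ BH * (1 / ε) ^ 10 ≤ T ^ (BO + 11 + BH + BT) :=
    calc _ ≤ T ^ (BO + 1) * T ^ BH * T ^ 10 := by gcongr
      _ = T ^ (BO + 11 + BH) := by ring
      _ ≤ _ := pow_le_pow_right₀ hT1 (by omega)
  have h5 : T ^ BT ≤ T ^ (BO + 11 + BH + BT) := pow_le_pow_right₀ hT1 (by omega)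
  calc _ = CK * (CO * (8 * C₁)) * CH * (T ^ (BO + 1) * T ^ BH * (1 / ε) ^ 10) * X ^ (9 / 10 : ℝ) +
        4 * CT * T ^ BT * X ^ (9 / 10 : ℝ) := by ring
    _ ≤ CK * (CO * (8 * C₁)) * CH * T ^ (BO + 11 + BH + BT) * X ^ (9 / 10 : ℝ) +
        4 * CT * T ^ (BO + 11 + BH + BT) * X ^ (9 / 10 : ℝ) := by gcongr
    _ = _ := by ring

end Pool.Agent.Q4
end

-- part Pool.Agent.P.MP_ea46f5_nt.Q4.FTH8
section

/-! The cut-off `th8` and the weight `g1`. -/

namespace Pool.Agent.Q4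

open Complex MeasureTheory Finset Pool.Agent.QM
open scoped Real ComplexConjugate

theorem th8_eq (z : ℂ) : th8 z = cexp (-z) * (1 + z + z ^ 2 / 2 + z ^ 3 / 6 + z ^ 4 / 24 +
    z ^ 5 / 120 + z ^ 6 / 720 + z ^ 7 / 5040) := by
  simp [th8, sum_range_succ, Nat.factorial]

theorem th8_diff : Differentiable ℂ th8 := by
  rw [funext th8_eq]
  fun_prop

theorem th8_der (w : ℂ) : HasDerivAt th8 (-(cexp (-w) * w ^ 7 / 5040)) w := by
  rw [funext th8_eq]
  have p := fun n : ℕ => hasDerivAt_pow n w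
  have h := (hasDerivAt_neg w).cexp.mul ((((((((hasDerivAt_id w).const_add 1).add
    ((p 2).div_const 2)).add ((p 3).div_const 6)).add ((p 4).div_const 24)).add
    ((p 5).div_const 120)).add ((p 6).div_const 720)).add ((p 7).div_const 5040))
  refine h.congr_deriv ?_
  simp only [Pi.add_apply, id]
  push_cast
  ring

noncomputable def th8b (z : ℂ) : ℂ := ∫ t in (0 : ℝ)..1, cexp (-(t * z)) * (t : ℂ) ^ 7 / 5040

theorem th8b_id (z : ℂ) : 1 - th8 z = z ^ 8 * th8b z := by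
  have h : ∀ t ∈ Set.uIcc (0 : ℝ) 1, HasDerivAt (fun t : ℝ => -th8 (t * z))
      (z ^ 8 * (cexp (-(t * z)) * (t : ℂ) ^ 7 / 5040)) t := fun t _ => by
    have h1 := ((th8_der (t * z)).comp (t : ℂ) ((hasDerivAt_id (t : ℂ)).mul_const z)).comp_ofReal
    refine h1.neg.congr_deriv ?_
    ring
  have h2 := intervalIntegral.integral_eq_sub_of_hasDerivAt h
    (Continuous.intervalIntegrable (by fun_prop) _ _)
  rw [intervalIntegral.integral_const_mul] at h2
  unfold th8b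
  rw [h2]
  simp [th8_eq]
  ring

theorem th8b_diff : Differentiable ℂ th8b := by
  have hc : Continuous th8b :=
    intervalIntegral.continuous_parametric_intervalIntegral_of_continuous'
      (f := fun (z : ℂ) (t : ℝ) => cexp (-(t * z)) * (t : ℂ) ^ 7 / 5040) (by fun_prop) 0 1
  have h : ∀ z : ℂ, z ≠ 0 → DifferentiableAt ℂ th8b z := fun z hz => by
    have h1 : DifferentiableAt ℂ (fun w => (1 - th8 w) / w ^ 8) z :=
      ((th8_diff z).const_sub 1).div (by fun_prop) (pow_ne_zero 8 hz)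
    refine h1.congr_of_eventuallyEq ?_
    filter_upwards [isOpen_ne.mem_nhds hz] with w hw
    rw [th8b_id, mul_div_cancel_left₀ _ (pow_ne_zero 8 hw)]
  intro z
  by_cases hz : z = 0
  · subst hz
    exact (analyticAt_of_differentiable_on_punctured_nhds_of_continuousAt
      (eventually_nhdsWithin_of_forall h) hc.continuousAt).differentiableAt
  · exact h z hz

theorem pTH8 : TH8 := by
  refine ⟨th8_diff, fun z => ?_, th8b, th8b_diff, th8b_id, fun z hz => ?_⟩
  · unfold th8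
    rw [norm_mul, norm_exp, neg_re]
    refine mul_le_mul_of_nonneg_left ((norm_sum_le _ _).trans ?_) (Real.exp_pos _).le
    simp only [norm_div, norm_pow, Complex.norm_natCast]
    have hx := norm_nonneg z
    generalize ‖z‖ = x at hx
    have e : (1 + x) ^ 7 = 1 + 7 * x + 21 * x ^ 2 + 35 * x ^ 3 + 35 * x ^ 4 + 21 * x ^ 5 +
      7 * x ^ 6 + x ^ 7 := by ring
    have p := fun n : ℕ => pow_nonneg hx n
    simp only [sum_range_succ, Nat.factorial, sum_range_zero]
    norm_num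
    linarith [p 2, p 3, p 4, p 5, p 6, p 7]
  · have h := intervalIntegral.norm_integral_le_of_norm_le_const (a := (0 : ℝ)) (b := 1) (C := 1)
      (f := fun t : ℝ => cexp (-(t * z)) * (t : ℂ) ^ 7 / 5040) fun t ht => by
        rw [Set.uIoc_of_le zero_le_one] at ht
        have e : (-(t * z) : ℂ).re = -(t * z.re) := by simp
        rw [norm_div, norm_mul, norm_exp, e, norm_pow, Complex.norm_real,
          Real.norm_of_nonneg ht.1.le, Complex.norm_ofNat, div_le_one (by norm_num)]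
        have h1 : -(t * z.re) ≤ 1 := by
          have := mul_le_mul_of_nonneg_left hz ht.1.le
          linarith [ht.2]
        have h2 := (Real.exp_le_exp.2 h1).trans Real.exp_one_lt_d9.le
        have h3 : t ^ 7 ≤ 1 := pow_le_one₀ ht.1.le ht.2
        have h4 := mul_le_mul h2 h3 (pow_nonneg ht.1.le 7) (by norm_num)
        linarith
    simpa [th8b] using h

theorem pG1W (hG : GAM1) (hS : SH4) : G1W := by
  intro a c ha
  refine ⟨?_, fun u => ?_⟩
  · obtain ⟨C₁, hC₁, h1⟩ := hG 0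
    obtain ⟨C₂, hC₂, h2⟩ := hS.2.2 (1 / 4) 6 0 (by norm_num)
    have ha0 : (0 : ℝ) ≤ a := Nat.cast_nonneg a
    have ha1 : (a : ℝ) ≤ 1 := by exact_mod_cast ha
    refine ⟨4 * (4 * C₁ * (‖(Gammaℝ (1 / 2 + a))⁻¹‖ + 1)) * Real.exp 169 *
      ((1 + ‖c 0‖ + ‖c 1‖ + ‖c 2‖) * 13 ^ 6 * C₂), by positivity, fun u hu => ?_, fun u hu => ?_⟩
    · have hd : DifferentiableAt ℂ Gammaℝ (1 / 2 + a + u) := by
        rw [funext Gammaℝ_def]
        refine DifferentiableAt.mul (DifferentiableAt.const_cpow (by fun_prop)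
          (Or.inl (ofReal_ne_zero.2 Real.pi_ne_zero))) ?_
        refine (differentiableAt_Gamma _ fun m h => ?_).comp _ (by fun_prop)
        have := congrArg re h
        simp at this
        have hm : (0 : ℝ) ≤ m := Nat.cast_nonneg m
        linarith
      have hd' : DifferentiableAt ℂ (gr a) u :=
        (hd.comp u (by fun_prop : DifferentiableAt ℂ (fun u : ℂ => 1 / 2 + a + u) u)).div_const _
      unfold g1
      fun_prop
    · have e : (1 / 2 + a + u : ℂ).re = 1 / 2 + a + u.re := by simp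
      have b1 : ‖gr a u‖ ≤ 4 * C₁ * (‖(Gammaℝ (1 / 2 + a))⁻¹‖ + 1) := by
        have a1 := h1 (1 / 2 + a + u) (by rw [e]; linarith [hu.1]) (by rw [e]; linarith [hu.2])
        have a2 : 1 / 4 ≤ ‖(1 / 2 + a + u : ℂ)‖ :=
          le_trans (by rw [e]; linarith [hu.1]) (re_le_norm _)
        rw [pow_zero, mul_one] at a1
        have a3 := a1.trans (div_le_div_of_nonneg_left hC₁.le (by norm_num) a2)
        unfold gr
        rw [div_eq_mul_inv, norm_mul]
        exact mul_le_mul (by linarith) (by linarith) (norm_nonneg _) (by positivity)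
      have b0 : 1 ≤ br u.im := by
        unfold br
        linarith [abs_nonneg u.im]
      have b2 : ‖u‖ ≤ 13 * br u.im := by
        refine (norm_le_abs_re_add_abs_im u).trans ?_
        have : |u.re| ≤ 13 := abs_le.2 ⟨by linarith [hu.1], hu.2⟩
        unfold br
        linarith [abs_nonneg u.im]
      have b3 : ∀ (x : ℂ) (n : ℕ), n ≤ 6 → ‖x * u ^ n‖ ≤ ‖x‖ * (13 * br u.im) ^ 6 := fun x n hn => by
        rw [norm_mul, norm_pow]
        exact mul_le_mul_of_nonneg_left ((pow_le_pow_left₀ (norm_nonneg _) b2 n).trans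
          (pow_le_pow_right₀ (by linarith) hn)) (norm_nonneg _)
      have b4 : ‖1 + c 0 * u ^ 2 + c 1 * u ^ 4 + c 2 * u ^ 6‖ ≤
          (1 + ‖c 0‖ + ‖c 1‖ + ‖c 2‖) * 13 ^ 6 * br u.im ^ 6 := by
        have a0 : (1 : ℝ) ≤ (13 * br u.im) ^ 6 := one_le_pow₀ (by linarith)
        have a1 := b3 (c 0) 2 (by norm_num)
        have a2 := b3 (c 1) 4 (by norm_num)
        have a3 := b3 (c 2) 6 (by norm_num)
        have a4 := norm_add_le (1 + c 0 * u ^ 2 + c 1 * u ^ 4) (c 2 * u ^ 6)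
        have a5 := norm_add_le (1 + c 0 * u ^ 2) (c 1 * u ^ 4)
        have a6 := norm_add_le 1 (c 0 * u ^ 2)
        rw [norm_one] at a6
        rw [mul_assoc, ← mul_pow]
        linarith
      have b5 : ‖cexp (u ^ 2)‖ ≤ Real.exp 169 * (Real.exp (-(1 / 4) * u.im ^ 2) *
          Real.exp (-(3 / 4) * u.im ^ 2)) := by
        rw [norm_exp, ← Real.exp_add, ← Real.exp_add]
        refine Real.exp_le_exp.2 ?_
        have a1 : (u ^ 2).re = u.re ^ 2 - u.im ^ 2 := by simp [sq]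
        have a2 : u.re ^ 2 ≤ 13 ^ 2 := sq_le_sq' (by linarith [hu.1]) hu.2
        linarith
      have b6 : br u.im ^ 6 * Real.exp (-(1 / 4) * u.im ^ 2) ≤ C₂ := by
        simpa [br] using (h2 u.im 0).2.1
      unfold g1
      rw [norm_mul, norm_mul, norm_mul, norm_neg, Complex.norm_ofNat]
      generalize 4 * C₁ * (‖(Gammaℝ (1 / 2 + a))⁻¹‖ + 1) = P at b1 ⊢
      have hP : 0 ≤ P := (norm_nonneg _).trans b1
      have hN : 0 ≤ (1 + ‖c 0‖ + ‖c 1‖ + ‖c 2‖) * 13 ^ 6 := by positivity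
      generalize (1 + ‖c 0‖ + ‖c 1‖ + ‖c 2‖) * 13 ^ 6 = N at b4 hN ⊢
      calc _ ≤ 4 * P * (Real.exp 169 * (Real.exp (-(1 / 4) * u.im ^ 2) *
            Real.exp (-(3 / 4) * u.im ^ 2))) * (N * br u.im ^ 6) := by gcongr
        _ = 4 * P * Real.exp 169 * (N * (br u.im ^ 6 * Real.exp (-(1 / 4) * u.im ^ 2))) *
            Real.exp (-(3 / 4) * u.im ^ 2) := by ring
        _ ≤ _ := by gcongr
  · unfold gg g1
    ring

end Pool.Agent.Q4
end

-- part Pool.Agent.P.MP_ea46f5_nt.Q4.FTK0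
section

namespace Pool.Agent.Q4

open Complex MeasureTheory Finset Pool.Agent.QM
open scoped Real ComplexConjugate

theorem tk_C {E : ℤ → ℂ → ℂ} {C : ℝ} (hK : KA E C) : 0 ≤ C := by
  have := (norm_nonneg _).trans (hK.2.1 1 0 one_ne_zero (by simp) (by simp))
  simpa [br] using this

theorem tk_br (t u : ℝ) : br t ≤ br (t + u) * br u := by
  unfold br
  have := abs_add_le (t + u) (-u)
  rw [add_neg_cancel_right, abs_neg] at this
  nlinarith [abs_nonneg (t + u), abs_nonneg u, mul_nonneg (abs_nonneg (t + u)) (abs_nonneg u)]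

theorem tk_dn {n m : ℕ} (h : m ≤ n) (u : V4) : dn n u ≤ dn m u :=
  prod_le_prod (fun j _ => by have := sh_br_pos (u j).im; positivity) fun j _ =>
    one_div_le_one_div_of_le (pow_pos (sh_br_pos _) _) (pow_le_pow_right₀ (sh_br_one _) h)

theorem tk_dn0 (n : ℕ) (u : V4) : 0 < dn n u :=
  prod_pos fun j _ => by have := sh_br_pos (u j).im; positivity

theorem tk_om {K x : ℝ} {k : ℤ} (hK : 0 < K) (hx : x = |(k : ℝ)| / K) (h0 : 0 < x) :
    x ^ (-sk K k) = om x := by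
  unfold sk om
  split_ifs with h
  · have h1 : x ≤ 1 := by rw [hx]; exact (div_le_one hK).2 h
    exact (min_eq_left (Real.rpow_le_rpow_of_exponent_ge h0 h1 (by norm_num))).symm
  · have h1 : 1 ≤ x := by rw [hx]; exact (one_le_div hK).2 (not_le.1 h).le
    exact (min_eq_right (Real.rpow_le_rpow_of_exponent_le h1 (by norm_num))).symm

theorem tk_pow {X Δ a σ : ℝ} (hX : 0 < X) (ha : 0 < a) :
    X ^ σ * Real.exp (-Δ * (σ - 1 / 2)) * a ^ (-σ) =
      Real.exp (Δ / 2) * (a / (X * Real.exp (-Δ))) ^ (-σ) := by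
  have h1 : 0 < a / (X * Real.exp (-Δ)) := by positivity
  rw [Real.rpow_def_of_pos hX, Real.rpow_def_of_pos ha, Real.rpow_def_of_pos h1,
    Real.log_div ha.ne' (by positivity), Real.log_mul hX.ne' (by positivity), Real.log_exp,
    ← Real.exp_add, ← Real.exp_add, ← Real.exp_add]
  congr 1
  ring

theorem tk_mono {x y η Δ : ℝ} {Y a b : ℕ} (hY : 1 ≤ Y) (hΔ : 1 ≤ Δ) (h0 : 0 < η) (hx : 0 ≤ x)
    (h : x ≤ y * (Δ / η)) (h1 : η ≤ 1) :
    x ^ a * (Y : ℝ) ^ b ≤ y ^ a * (Y * Δ / η) ^ (a + b) := by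
  have hY' : (1 : ℝ) ≤ Y := by exact_mod_cast hY
  have h2 : 1 ≤ Δ / η := (one_le_div h0).2 (h1.trans hΔ)
  have hy : 0 ≤ y := by
    by_contra h3
    nlinarith [not_le.1 h3]
  rw [pow_add, mul_div_assoc, ← mul_assoc, ← mul_pow]
  refine mul_le_mul (pow_le_pow_left₀ hx (h.trans (mul_le_mul_of_nonneg_left ?_ hy)) a)
    (pow_le_pow_left₀ (by positivity) ?_ b) (by positivity) (by positivity)
  · exact le_mul_of_one_le_left (by positivity) hY'
  · exact le_mul_of_one_le_right (by positivity) h2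

theorem tk_prod (A n N : ℕ) (h : A + 2 + n ≤ N) (y : ℝ) (t : R4) :
    (∏ j, 1 / br (t j + y) ^ N) * ∏ j, br (t j) ^ n ≤
      br y ^ (4 * n) * ∏ j, 1 / br (t j + y) ^ (A + 2) := by
  have h0 := sh_br_pos y
  rw [← prod_mul_distrib, show br y ^ (4 * n) = ∏ _j : Fin 4, br y ^ n by
    simp [← pow_mul, mul_comm], ← prod_mul_distrib]
  refine prod_le_prod (fun j _ => by
    have := sh_br_pos (t j); have := sh_br_pos (t j + y); positivity) fun j _ => ?_
  have h1 := sh_br_one (t j + y)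
  have h2 := sh_br_pos (t j)
  calc _ ≤ 1 / br (t j + y) ^ (A + 2 + n) * (br (t j + y) * br y) ^ n :=
        mul_le_mul (one_div_le_one_div_of_le (by positivity) (pow_le_pow_right₀ h1 h))
          (pow_le_pow_left₀ h2.le (tk_br _ _) n) (by positivity) (by positivity)
    _ = _ := by
        rw [pow_add, mul_pow]
        field_simp

theorem pTK0 (hFOUR : FOUR) (hKDB : KDB) (hSIV : SIV) (hL4 : L4) (hHB4 : HB4) (hZB : ZB)
    (hDSH : DSH) (hOMB : OMB) : TK0 := by
  intro g C₀ C₁ E hg hE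
  obtain ⟨A, C4, hC4, hF⟩ := hFOUR
  obtain ⟨⟨D, hD, hKd⟩, -⟩ := hKDB
  obtain ⟨CH, BH, hCH, hH⟩ := hHB4
  obtain ⟨CZ, nZ, hCZ, -, -, -, hZ, -⟩ := hZB
  obtain ⟨nD, hDS⟩ := hDSH
  obtain ⟨CO, BO, hCO, hO⟩ := hOMB g C₀ (nD + A + 13 + 4 * nZ) hg
  have hC₁ := tk_C hE
  refine ⟨32 * (CO * 4 ^ BO * (5 * D * C₁) * CZ * CH) * C4 + 1, BO + BH, by positivity, ?_⟩
  intro γ c Δ η X Y F hP hFq
  have hX : 0 < X := one_pos.trans_le hP.X1
  have hη := hP.h0
  have hΔ : 0 < Δ := one_pos.trans_le hP.D1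
  set n := nD + A + 13 + 4 * nZ with hn
  set K := X * Real.exp (-Δ) with hK
  have hK0 : 0 < K := by positivity
  set T : ℝ := (Y * Δ / η) ^ (BO + BH) with hT
  have hT0 : 0 ≤ T := by positivity
  set N₀ : ℝ := CO * 4 ^ BO * (5 * D * C₁) * CZ * CH * T * Real.exp (Δ / 2) with hN₀
  have hN0 : 0 ≤ N₀ := by positivity
  have hlg : 0 ≤ lg K := Real.log_nonneg (by linarith)
  have key : ∀ y : ℝ, ∑ k ∈ F, ‖In (cs 12) fun u => KP E (Om g γ c Δ η X) k (sk K k + y * I) u *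
      ZY Y k (sk K k + y * I) u‖ ≤ 16 * N₀ * (C4 * K * lg K ^ 10) * (1 / br y ^ 2) := by
    intro y
    have hy := sh_br_one y
    have h := hL4 A (N₀ / br y ^ (A + 2)) (C4 * K * lg K ^ 10) y F (fun k => om (|(k : ℝ)| / K))
      (fun k τ => ‖Lo k (1 / 2 + τ * I)‖) (fun k t => Kd E k (sk K k + y * I) *
        (Om g γ c Δ η X (1 - (sk K k + y * I)) (sh (sk K k + y * I) (pt (cs 0) t)) *
          ((∏ j, Lo k (1 / 2 + pt (cs 0) t j)) * IZ4 (pt (cs 0) t) *
            Hk Y k (sk K k + y * I) (sh (sk K k + y * I) (pt (cs 0) t)))))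
      (by positivity) (fun k _ => le_min (by positivity) (by positivity)) (fun _ _ => norm_nonneg _)
      (hF K hK0 F hFq) ?_
    · refine le_trans (le_of_eq (sum_congr rfl fun k hk => ?_)) (h.trans (le_of_eq ?_))
      · obtain ⟨hk1, hk2⟩ := hFq k hk
        have hσ : 3 / 4 ≤ sk K k ∧ sk K k ≤ 6 := by unfold sk; split_ifs <;> norm_num
        set z : ℂ := sk K k + y * I with hz
        have hre : z.re = sk K k := by simp [hz]
        have hw : 1 - z ∈ Strip (-5) 2 := by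
          constructor <;> simp [hre] <;> linarith [hσ.1, hσ.2]
        have hu : ∀ u ∈ Bx (z.re - 1 / 2) 12, z.re ≤ (1 - z + us u).re ∧ (1 - z + us u).re ≤ 25 :=
          fun u hu => by
            have a0 := hu 0; have a1 := hu 1; have a2 := hu 2; have a3 := hu 3
            simp only [cs] at a0 a1 a2 a3
            simp only [us, Fin.sum_univ_four, add_re, sub_re, one_re, div_ofNat_re]
            constructor <;> linarith [a0.1, a1.1, a2.1, a3.1, a0.2, a1.2, a2.2, a3.2, hσ.1]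
        have hO' := fun u hu' => hO γ c Δ η X (z.re - 1 / 2) Y (1 - z) u hP (by linarith [hσ.1]) hw
          hu' (by linarith [(hu u hu').1, hσ.1])
        have h1 := hDS Y k z (Om g γ c Δ η X (1 - z)) (CO * (Δ / (η * min (z.re - 1 / 2) 1)) ^ BO *
          X ^ (25 : ℝ) * Real.exp (-Δ * (z.re - 1 / 2)) / br (1 - z).im ^ n) hk1 hk2
          (by linarith [hσ.1]) (by linarith [hσ.2])
          (fun u hu' => (hO' u hu').2.2.1.comp u (f := fun u => (1 - z, u)) (by fun_prop))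
          (fun u hu' => (hO' u hu').2.2.2.2.2.trans (by
            have b1 : 0 < min (z.re - 1 / 2) 1 := lt_min (by linarith [hσ.1]) one_pos
            have b2 := sh_br_pos (1 - z).im
            have b3 := tk_dn0 n u
            have b4 := Real.rpow_le_rpow_of_exponent_le hP.X1 (hu u hu').2
            have b5 := tk_dn (by omega : nD ≤ n) u
            gcongr))
        rw [integral_const_mul]
        congr 1
        refine Eq.trans ?_ (congrArg (fun x => Kd E k z * x) h1)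
        rw [In, In, ← integral_const_mul]
        congr 1
        funext t
        rw [KP]
        ring
      · rw [pow_add]
        field_simp
    · intro k hk t
      obtain ⟨hk1, hk2⟩ := hFq k hk
      have hσ : 3 / 4 ≤ sk K k ∧ sk K k ≤ 6 := by unfold sk; split_ifs <;> norm_num
      have hk0 : 0 < |(k : ℝ)| := abs_pos.2 (by exact_mod_cast hk1.ne_zero)
      have hom := tk_om hK0 rfl (div_pos hk0 hK0)
      set σ := sk K k with hσd
      set z : ℂ := σ + y * I with hz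
      have hre : z.re = σ := by simp [hz]
      have him : z.im = y := by simp [hz]
      set s := pt (cs 0) t with hs
      have ure : ∀ j, (sh z s j).re = σ - 1 / 2 := fun j => by simp [sh, hs, pt, cs, hre]
      have uim : ∀ j, (sh z s j).im = t j + y := fun j => by simp [sh, hs, pt, cs, him, add_comm]
      have hw : 1 - z ∈ Strip (-5) 2 := by
        constructor <;> simp [hre] <;> linarith [hσ.1, hσ.2]
      have hv : (1 - z + us (sh z s)).re = σ := by
        simp only [us, Fin.sum_univ_four, add_re, sub_re, one_re, div_ofNat_re, ure, hre]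
        ring
      have g1 := (hO γ c Δ η X (σ - 1 / 2) Y (1 - z) (sh z s) hP (by linarith [hσ.1]) hw
        (fun j => by simp only [cs, ure]; constructor <;> linarith [hσ.2])
        (by rw [hv]; linarith [hσ.1])).2.2.2.2.2
      have g2 := (hKd E C₁ k z hE hk1.ne_zero (by linarith [hσ.1]) (by linarith [hσ.2])).2
      have g3 := hZ s fun j => by simp [hs, pt, cs]
      have g4 := ((hH Y).1 k).2 (z, sh z s) ⟨by show _ < z.re; linarith [hσ.1],
        by show z.re < _; linarith [hσ.2], fun j => by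
          simp only [sub_re, ure, hre]
          constructor <;> linarith [hσ.1]⟩
      have e1 : br (1 - z).im = br y := by simp [br, him]
      have e2 : dn n (sh z s) = ∏ j, 1 / br (t j + y) ^ n := by simp only [dn, uim]
      have e3 : gn nZ s = ∏ j, br (t j) ^ nZ := by simp only [gn, hs, pt_im]
      have e4 : ‖∏ j, Lo k (1 / 2 + s j)‖ = ∏ j, ‖Lo k (1 / 2 + t j * I)‖ := by
        simp [norm_prod, hs, pt, cs]
      rw [hv, e1, e2] at g1
      rw [hre, him] at g2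
      rw [e3] at g3
      have b1 : 1 / 4 ≤ min (σ - 1 / 2) 1 := le_min (by linarith [hσ.1]) (by norm_num)
      have b2 : 1 + 1 / (σ - 1 / 2) ≤ 5 := by
        have : 1 / (σ - 1 / 2) ≤ 4 := by
          rw [div_le_iff₀ (by linarith [hσ.1])]
          linarith [hσ.1]
        linarith
      have b3 : (Δ / (η * min (σ - 1 / 2) 1)) ^ BO * (Y : ℝ) ^ BH ≤ 4 ^ BO * T :=
        tk_mono hP.Y1 hP.D1 hη (by positivity) (by
          rw [← div_div, div_le_iff₀ (by positivity)]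
          have : 0 < Δ / η := by positivity
          nlinarith) (by linarith [hP.h1])
      have b4 := tk_prod A nZ n (by omega) y t
      have b5 := tk_pow (Δ := Δ) (σ := σ) hX hk0
      rw [← hK, hom] at b5
      have b6 : br y ^ 11 * br y ^ (4 * nZ) / br y ^ n ≤ 1 / br y ^ (A + 2) := by
        rw [div_le_div_iff₀ (by positivity) (by positivity), ← pow_add, ← pow_add, one_mul]
        exact pow_le_pow_right₀ hy (by omega)
      set P1 := ∏ j, 1 / br (t j + y) ^ n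
      set P2 := ∏ j, br (t j) ^ nZ
      set P3 := ∏ j, 1 / br (t j + y) ^ (A + 2)
      set L := ∏ j, ‖Lo k (1 / 2 + t j * I)‖
      have hL : 0 ≤ L := prod_nonneg fun _ _ => norm_nonneg _
      have hP3 : 0 ≤ P3 := prod_nonneg fun j _ => by have := sh_br_pos (t j + y); positivity
      have hom0 : 0 ≤ om (|(k : ℝ)| / K) := le_min (by positivity) (by positivity)
      have g2' : ‖Kd E k z‖ ≤ D * C₁ * 5 * br y ^ 11 * |(k : ℝ)| ^ (-σ) := g2.trans (by gcongr)
      rw [norm_mul, norm_mul, norm_mul, norm_mul, e4]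
      calc _ ≤ D * C₁ * 5 * br y ^ 11 * |(k : ℝ)| ^ (-σ) *
            (CO * (Δ / (η * min (σ - 1 / 2) 1)) ^ BO * X ^ σ * Real.exp (-Δ * (σ - 1 / 2)) /
              br y ^ n * P1 * (L * (CZ * P2) * (CH * (Y : ℝ) ^ BH))) :=
            mul_le_mul g2' (mul_le_mul g1 (mul_le_mul (mul_le_mul_of_nonneg_left g3 hL) g4
              (norm_nonneg _) (mul_nonneg hL ((norm_nonneg _).trans g3))) (by positivity)
              ((norm_nonneg _).trans g1)) (by positivity) (by positivity)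
        _ = CO * (5 * D * C₁) * CZ * CH * L * (br y ^ 11 / br y ^ n) *
            (X ^ σ * Real.exp (-Δ * (σ - 1 / 2)) * |(k : ℝ)| ^ (-σ)) *
            (((Δ / (η * min (σ - 1 / 2) 1)) ^ BO * (Y : ℝ) ^ BH) * (P1 * P2)) := by ring
        _ ≤ CO * (5 * D * C₁) * CZ * CH * L * (br y ^ 11 / br y ^ n) *
            (Real.exp (Δ / 2) * om (|(k : ℝ)| / K)) * ((4 ^ BO * T) * (br y ^ (4 * nZ) * P3)) := by
            rw [b5]
            refine mul_le_mul_of_nonneg_left (mul_le_mul b3 b4 ?_ (by positivity)) (by positivity)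
            exact mul_nonneg (prod_nonneg fun j _ => by have := sh_br_pos (t j + y); positivity)
              (prod_nonneg fun j _ => by have := sh_br_pos (t j); positivity)
        _ = N₀ * (br y ^ 11 * br y ^ (4 * nZ) / br y ^ n) * om (|(k : ℝ)| / K) * P3 * L := by
            rw [hN₀]
            ring
        _ ≤ N₀ * (1 / br y ^ (A + 2)) * om (|(k : ℝ)| / K) * P3 * L := by gcongr
        _ = _ := by ring
  have h2 := hSIV ℝ F _ _ ((sh_int_maj 1).const_mul _) key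
  rw [integral_const_mul] at h2
  have h3 : ∑ k ∈ F, ‖Yk Y (KP E (Om g γ c Δ η X)) (s1 K k) k‖ ≤
      ∑ k ∈ F, ‖∫ y : ℝ, In (cs 12) fun u => KP E (Om g γ c Δ η X) k (sk K k + y * I) u *
        ZY Y k (sk K k + y * I) u‖ := sum_le_sum fun k hk => by
    rw [s1, if_neg (hFq k hk).2, Yk, norm_mul]
    refine mul_le_of_le_one_left (norm_nonneg _) ?_
    rw [norm_div, norm_one, norm_mul, norm_real, Real.norm_of_nonneg Real.pi_pos.le, norm_ofNat,
      div_le_one (by positivity)]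
    linarith [Real.pi_gt_three]
  have h4 : lg K ≤ lg X := Real.log_le_log (by linarith) (by
    have : Real.exp (-Δ) ≤ 1 := Real.exp_le_one_iff.2 (by linarith)
    nlinarith)
  have h5 : Real.exp (Δ / 2) * K = Real.exp (-Δ / 2) * X := by
    rw [hK, mul_left_comm, ← Real.exp_add, mul_comm]
    congr 2
    ring
  have h6 := pDEC.2.2.2.1.2
  have h7 := hlg.trans h4
  calc _ ≤ 16 * N₀ * (C4 * K * lg K ^ 10) * ∫ y : ℝ, 1 / br y ^ 2 := h3.trans h2
    _ ≤ 16 * N₀ * (C4 * K * lg X ^ 10) * 2 := by gcongr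
    _ = 32 * (CO * 4 ^ BO * (5 * D * C₁) * CZ * CH) * C4 * T * (Real.exp (Δ / 2) * K) *
        lg X ^ 10 := by rw [hN₀]; ring
    _ ≤ (32 * (CO * 4 ^ BO * (5 * D * C₁) * CZ * CH) * C4 + 1) * T * (Real.exp (-Δ / 2) * X) *
        lg X ^ 10 := by
        rw [h5]
        gcongr
        linarith
    _ = _ := by ring

end Pool.Agent.Q4
end

-- part Pool.Agent.P.MP_ea46f5_nt.Q4.FTL1
section

/-! The tail of the sieve. -/

namespace Pool.Agent.Q4

open Complex MeasureTheory Finset Pool.Agent.QM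
open scoped Real

theorem tl_phi (hPHW : PHW) {η x c e : ℝ} (h0 : 0 < η) (h1 : η ≤ 1 / 30) (hx : 0 < x) (hc : 1 ≤ c)
    (e0 : 0 ≤ e) (e1 : e ≤ 1) :
    phi η x * x ^ e ≤ 2 * om (x / c) ∧ phi η x * x ^ e ≤ 2 / x := by
  obtain ⟨-, p0, p1, -, -, p7⟩ := hPHW η x h0 hx
  have hxc : x / c ≤ x := div_le_self hx.le hc
  have hxc0 : 0 < x / c := by positivity
  rcases le_total x 1 with h | h
  · have a1 : phi η x * x ^ e ≤ 1 := mul_le_one₀ p1 (by positivity) (Real.rpow_le_one hx.le h e0)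
    have a2 : 1 ≤ om (x / c) := le_min
      (Real.one_le_rpow_of_pos_of_le_one_of_nonpos hxc0 (hxc.trans h) (by norm_num))
      (Real.one_le_rpow_of_pos_of_le_one_of_nonpos hxc0 (hxc.trans h) (by norm_num))
    exact ⟨by linarith, a1.trans ((one_le_div hx).2 (by linarith))⟩
  · have a0 : x ^ e ≤ x := by simpa using Real.rpow_le_rpow_of_exponent_le h e1
    have a3 : x ^ (-6 : ℝ) = 1 / x ^ 6 := by
      rw [Real.rpow_neg hx.le, one_div]; norm_cast
    have a1 : phi η x * x ^ e ≤ 2 * x ^ (-6 : ℝ) := by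
      calc _ ≤ 2 / x ^ 7 * x := mul_le_mul (p7 h1) a0 (by positivity) (by positivity)
        _ = _ := by rw [a3]; field_simp
    have a2 : x ^ (-6 : ℝ) ≤ om (x / c) := le_min
      ((Real.rpow_le_rpow_of_exponent_le h (by norm_num)).trans
        (Real.rpow_le_rpow_of_nonpos hxc0 hxc (by norm_num)))
      (Real.rpow_le_rpow_of_nonpos hxc0 hxc (by norm_num))
    refine ⟨by linarith, a1.trans ?_⟩
    rw [a3, mul_one_div]
    exact div_le_div_of_nonneg_left (by norm_num) hx (le_self_pow₀ h (by norm_num))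

theorem tl_X {X q : ℝ} (X1 : 1 ≤ X) (XL : 100 ≤ Real.log X) (hq : 0 < q) :
    q ^ (2 * (1 / Real.log X)) = Real.exp 2 * (q / X) ^ (2 * (1 / Real.log X)) := by
  have hX : 0 < X := by linarith
  have e : X ^ (2 * (1 / Real.log X)) = Real.exp 2 := by
    rw [Real.rpow_def_of_pos hX]
    congr 1
    field_simp
  rw [← e, ← Real.mul_rpow hX.le (by positivity)]
  congr 1
  field_simp

theorem tl_lg {X K : ℝ} (X1 : 1 ≤ X) (XL : 100 ≤ Real.log X) (hK : 0 < K) (h : K ≤ X) :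
    lg K ^ 10 ≤ (3 * Real.log X) ^ 10 := by
  have h1 : lg K ≤ Real.log (3 * X) := Real.log_le_log (by linarith) (by linarith)
  have h2 : Real.log 3 ≤ 3 - 1 := Real.log_le_sub_one_of_pos (by norm_num)
  rw [Real.log_mul (by norm_num) (by linarith)] at h1
  have h3 : 0 ≤ lg K := Real.log_nonneg (by linarith)
  exact pow_le_pow_left₀ h3 (by linarith) 10

theorem pTL1 (hL4 : L4) (hPHW : PHW) (hDB : DB) (hDO : DO) : TL1 := by
  classical
  intro g C₀ hg
  obtain ⟨A, Co, hCo, hO⟩ := hDO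
  obtain ⟨C, hC, hB⟩ := hDB g C₀ (A + 2) hg
  have hE := Real.exp_pos 2
  refine ⟨2 * Real.exp 2 * C * (16 * Co * 3 ^ 10 + 1), by positivity,
    fun γ c Δ η X Y f F hP hf hF => ?_⟩
  obtain ⟨hγ, c1, c4, D1, h0, h1, X1, XL, Y1⟩ := hP
  have hX : 0 < X := by linarith
  have hf1 : (1 : ℝ) ≤ f := by exact_mod_cast hf.pos
  have hf2 : (1 : ℝ) ≤ (f : ℝ) ^ 2 := one_le_pow₀ hf1
  have tX := fun q hq => tl_X (q := q) X1 XL hq
  have tl := tl_lg X1 XL (K := X / (f : ℝ) ^ 2) (by positivity) (div_le_self hX.le hf2)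
  generalize Real.log X = L at *
  have hL : 0 < L := by linarith
  have e0 : 0 < 1 / L := by positivity
  have e1 : 1 / L ≤ 1 / 100 := one_div_le_one_div_of_le (by norm_num) XL
  have eD : Δ / (1 / L) = Δ * L := by field_simp
  have hDL : 1 ≤ Δ * L := by nlinarith
  obtain ⟨q, hq⟩ : ∃ q : ℤ → ℝ, ∀ k, q k = c * |((k * (f : ℤ) ^ 2 : ℤ) : ℝ)| := ⟨_, fun _ => rfl⟩
  have hq2 : ∀ k, q k = c * (|(k : ℝ)| * (f : ℝ) ^ 2) := fun k => by
    rw [hq]; push_cast; rw [abs_mul, abs_of_nonneg (sq_nonneg (f : ℝ))]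
  have hq1 : ∀ k, Squarefree k → 1 ≤ q k := fun k hk => by
    have : (1 : ℝ) ≤ |(k : ℝ)| := by exact_mod_cast Int.one_le_abs hk.ne_zero
    rw [hq2]
    exact one_le_mul_of_one_le_of_one_le c1 (one_le_mul_of_one_le_of_one_le this hf2)
  have hp := fun k (hk : Squarefree k) => tl_phi hPHW (x := q k / X) (e := 2 * (1 / L)) h0 h1
    (div_pos (by linarith [hq1 k hk]) hX) c1 (by positivity) (by linarith)
  have hp0 : ∀ k, Squarefree k → 0 ≤ phi η (q k / X) := fun k hk =>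
    (hPHW η _ h0 (div_pos (by linarith [hq1 k hk]) hX)).2.1
  simp only [← hq]
  generalize hd : (f.divisors.card : ℝ) ^ 4 = d
  have d0 : 0 ≤ d := by rw [← hd]; positivity
  have hB' := fun k (hk : Squarefree k) => hB γ k f Δ (q k) (1 / L) hγ hf D1 (hq1 k hk) e0 e1
  rw [eD, hd] at hB'
  have hG := fun k (hk : Squarefree k) => (hB' k hk).1 hk
  choose! G hG1 hG2 using hG
  have hS : SQ (F.erase 1) := fun k hk => ⟨hF k (mem_of_mem_erase hk), ne_of_mem_erase hk⟩
  have s1 := hL4 A (2 * Real.exp 2 * C * (Δ * L) ^ 28 * d) _ 0 (F.erase 1)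
    (fun k => om (|(k : ℝ)| / (X / (f : ℝ) ^ 2))) (fun k τ => ‖Lo k (1 / 2 + (1 / L : ℝ) + τ * I)‖)
    (fun k t => (phi η (q k / X) : ℂ) * G k t) (by positivity) (fun k _ => tl_om0 (by positivity))
    (fun _ _ => norm_nonneg _) (fun τ => hO (1 / L) _ τ _ e0 e1 (by positivity) hS)
    fun k hk t => by
      obtain ⟨k1, k2⟩ := hS k hk
      have a1 := hG2 k k1 k2 t
      have a2 := (hp k k1).1
      have a3 : q k / X / c = |(k : ℝ)| / (X / (f : ℝ) ^ 2) := by rw [hq2]; field_simp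
      have a4 : 0 ≤ ∏ j, 1 / br (t j) ^ (A + 2) :=
        prod_nonneg fun j _ => by have := tk2_br0 (t j); positivity
      have a5 : 0 ≤ ∏ j, ‖Lo k (1 / 2 + (1 / L : ℝ) + t j * I)‖ := prod_nonneg fun _ _ => norm_nonneg _
      rw [tX _ (by linarith [hq1 k k1])] at a1
      rw [a3] at a2
      simp only [add_zero]
      rw [norm_mul, Complex.norm_real, Real.norm_of_nonneg (hp0 k k1)]
      refine (mul_le_mul_of_nonneg_left a1 (hp0 k k1)).trans ?_
      generalize (∏ j, 1 / br (t j) ^ (A + 2)) = y at *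
      generalize (∏ j, ‖Lo k (1 / 2 + (1 / L : ℝ) + t j * I)‖) = w at *
      calc _ = Real.exp 2 * C * (Δ * L) ^ 28 * d * y * w *
            (phi η (q k / X) * (q k / X) ^ (2 * (1 / L))) := by ring
        _ ≤ Real.exp 2 * C * (Δ * L) ^ 28 * d * y * w * (2 * om (|(k : ℝ)| / (X / (f : ℝ) ^ 2))) :=
            mul_le_mul_of_nonneg_left a2 (by positivity)
        _ = _ := by ring
  have s2 : ∑ k ∈ F.erase 1, phi η (q k / X) * ‖Tm g γ Δ (q k) (k * (f : ℤ) ^ 2)‖ ≤
      2 * Real.exp 2 * C * (16 * Co * 3 ^ 10) * (Δ * L) ^ 40 * d * (X / (f : ℝ) ^ 2) := by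
    refine le_trans (le_of_eq (sum_congr rfl fun k hk => ?_)) (s1.trans ?_)
    · rw [integral_const_mul, ← hG1 k (hS k hk).1 (hS k hk).2, norm_mul, Complex.norm_real,
        Real.norm_of_nonneg (hp0 k (hS k hk).1)]
    · have b0 : br 0 ^ A = 1 := by simp [br]
      have b1 : L ^ 11 ≤ (Δ * L) ^ 12 :=
        (pow_le_pow_left₀ hL.le (by nlinarith) 11).trans (pow_le_pow_right₀ hDL (by norm_num))
      rw [b0, mul_one]
      calc _ ≤ 16 * (2 * Real.exp 2 * C * (Δ * L) ^ 28 * d) *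
            (Co / (1 / L) * (X / (f : ℝ) ^ 2) * (3 * L) ^ 10) := by gcongr
        _ = 2 * Real.exp 2 * C * (16 * Co * 3 ^ 10) * ((Δ * L) ^ 28 * L ^ 11) * d *
            (X / (f : ℝ) ^ 2) := by field_simp
        _ ≤ 2 * Real.exp 2 * C * (16 * Co * 3 ^ 10) * ((Δ * L) ^ 28 * (Δ * L) ^ 12) * d *
            (X / (f : ℝ) ^ 2) := by gcongr
        _ = _ := by ring
  have s3 : phi η (q 1 / X) * ‖Tm g γ Δ (q 1) (1 * (f : ℤ) ^ 2)‖ ≤
      2 * Real.exp 2 * C * (Δ * L) ^ 40 * d * (X / (f : ℝ) ^ 2) := by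
    have a1 := (hB' 1 squarefree_one).2
    have a2 := (hp 1 squarefree_one).2
    have a3 : 2 / (q 1 / X) ≤ 2 * (X / (f : ℝ) ^ 2) := by
      rw [hq2, Int.cast_one, abs_one, one_mul, div_div_eq_mul_div, mul_div_assoc]
      gcongr
      exact le_mul_of_one_le_left (by positivity) c1
    have a4 : (Δ * L) ^ 28 ≤ (Δ * L) ^ 40 := pow_le_pow_right₀ hDL (by norm_num)
    rw [tX _ (by linarith [hq1 1 squarefree_one])] at a1
    refine (mul_le_mul_of_nonneg_left a1 (hp0 1 squarefree_one)).trans ?_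
    calc _ = Real.exp 2 * C * (Δ * L) ^ 28 * d * (phi η (q 1 / X) * (q 1 / X) ^ (2 * (1 / L))) := by
          ring
      _ ≤ Real.exp 2 * C * (Δ * L) ^ 28 * d * (2 * (X / (f : ℝ) ^ 2)) :=
          mul_le_mul_of_nonneg_left (a2.trans a3) (by positivity)
      _ ≤ Real.exp 2 * C * (Δ * L) ^ 40 * d * (2 * (X / (f : ℝ) ^ 2)) := by gcongr
      _ = _ := by ring
  have s4 : ∑ k ∈ F, phi η (q k / X) * ‖Tm g γ Δ (q k) (k * (f : ℤ) ^ 2)‖ ≤
      ∑ k ∈ insert 1 (F.erase 1), phi η (q k / X) * ‖Tm g γ Δ (q k) (k * (f : ℤ) ^ 2)‖ :=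
    sum_le_sum_of_subset_of_nonneg (subset_insert_iff.2 subset_rfl) fun k hk _ => by
      refine mul_nonneg (hp0 k ?_) (norm_nonneg _)
      rcases mem_insert.1 hk with rfl | h
      exacts [squarefree_one, (hS k h).1]
  rw [sum_insert (notMem_erase _ _)] at s4
  refine s4.trans ((add_le_add s3 s2).trans (le_of_eq ?_))
  ring

end Pool.Agent.Q4
end

-- part Pool.Agent.P.MP_ea46f5_nt.Q4.FTM2
section

/-! The mean square of pairs from its parts. -/

namespace Pool.Agent.Q4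

open Complex MeasureTheory Finset Pool.Agent.QM
open scoped Real ComplexConjugate

theorem tm2_lg {θ X K : ℝ} (h0 : 0 ≤ θ) (h10 : θ ≤ 10) (hX : 1 ≤ X) (hK0 : 0 ≤ K)
    (hK : K ≤ X ^ 3) : lg K ^ θ ≤ 3 ^ 10 * lg X ^ θ := by
  have h1 : lg K ≤ 3 * lg X := by
    unfold lg
    have e : 3 * Real.log (2 + X) = Real.log ((2 + X) ^ 3) := by
      rw [Real.log_pow]
      norm_num
    rw [e]
    refine Real.log_le_log (by linarith) ?_
    have : (2 + X) ^ 3 = X ^ 3 + 6 * X ^ 2 + 12 * X + 8 := by ring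
    have := sq_nonneg X
    linarith
  have h2 : 0 ≤ lg K := Real.log_nonneg (by linarith)
  have h3 : 0 ≤ lg X := Real.log_nonneg (by linarith)
  refine (Real.rpow_le_rpow h2 h1 h0).trans ?_
  rw [Real.mul_rpow (by norm_num) h3]
  refine mul_le_mul_of_nonneg_right ?_ (Real.rpow_nonneg h3 _)
  refine (Real.rpow_le_rpow_of_exponent_le (by norm_num) h10).trans (le_of_eq ?_)
  norm_num

theorem pTM2 (ha : TMa) (hb1 : TMb1) (hb2 : TMb2) (hc : TMc) : TM2 := by
  intro θ h0 h10 hP κ κ' hκ hκ'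
  obtain ⟨A₁, C₁, hC₁, hb1⟩ := hb1 κ κ' hκ hκ'
  obtain ⟨A₂, C₂, hC₂, hb2⟩ := hb2 κ κ' hκ hκ'
  obtain ⟨A₃, C₃, hC₃, hc⟩ := hc θ hP κ κ' hκ hκ'
  refine ⟨A₁ + A₂ + A₃, C₁ + C₂ + 3 ^ 10 * C₃, by positivity,
    fun t v t' v' X F hX hL hv hv' => ?_⟩
  have hX0 : 0 < X := by linarith
  have h1 := ha κ t v κ' t' v' X (Real.exp (2 * (v + v')) / X) _ F hκ hκ' hX0
    fun F' hF' => hc t v t' v' X F' hX0 hF'
  have h2 := hb1 t v t' v' X hX hL hv hv'
  have h3 := hb2 t v t' v' X hX hL hv hv'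
  have h4 : lg (Real.exp (2 * (v + v')) / X) ^ θ ≤ 3 ^ 10 * lg X ^ θ := by
    refine tm2_lg h0 h10 hX (by positivity) ?_
    rw [div_le_iff₀ hX0]
    have e : Real.exp (2 * (v + v')) = (Real.exp v * Real.exp v') ^ 2 := by
      rw [← Real.exp_add, ← Real.exp_nat_mul]
      norm_num
    rw [e]
    calc (Real.exp v * Real.exp v') ^ 2 ≤ (X * X) ^ 2 := by gcongr
      _ = _ := by ring
  have hb : ∀ x : ℝ, 1 ≤ br x := fun x => by
    unfold br
    linarith [abs_nonneg x]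
  have hp : ∀ n : ℕ, n ≤ A₁ + A₂ + A₃ →
      br t ^ n * br t' ^ n ≤ br t ^ (A₁ + A₂ + A₃) * br t' ^ (A₁ + A₂ + A₃) := fun n hn =>
    mul_le_mul (pow_le_pow_right₀ (hb t) hn) (pow_le_pow_right₀ (hb t') hn)
      (pow_nonneg (by linarith [hb t']) _) (pow_nonneg (by linarith [hb t]) _)
  have p1 := hp A₁ (by omega)
  have p2 := hp A₂ (by omega)
  have p3 := hp A₃ (by omega)
  have p0 : 0 ≤ br t ^ A₃ * br t' ^ A₃ :=
    mul_nonneg (pow_nonneg (by linarith [hb t]) _) (pow_nonneg (by linarith [hb t']) _)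
  have hy : 0 ≤ X * Real.log (Real.log X) ^ 2 := by positivity
  have hl : 0 ≤ lg X ^ θ := Real.rpow_nonneg (Real.log_nonneg (by linarith)) _
  have hz : 0 ≤ Real.exp (v + v') * lg X ^ θ := by positivity
  have q1 := mul_le_mul_of_nonneg_right (mul_le_mul_of_nonneg_left p1 hC₁.le) hy
  have q2 := mul_le_mul_of_nonneg_right (mul_le_mul_of_nonneg_left p2 hC₂.le) hy
  have q3 := mul_le_mul_of_nonneg_right (mul_le_mul_of_nonneg_left p3 hC₃.le) hz
  have q4 := mul_le_mul_of_nonneg_left h4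
    (mul_nonneg (mul_nonneg hC₃.le p0) (Real.exp_pos (v + v')).le)
  have pp := p0.trans p3
  have q5 := mul_nonneg (mul_nonneg hC₃.le pp) hy
  have q6 := mul_nonneg (mul_nonneg hC₁.le pp) hz
  have q7 := mul_nonneg (mul_nonneg hC₂.le pp) hz
  linarith

end Pool.Agent.Q4
end

-- part Pool.Agent.P.MP_ea46f5_nt.Q4.FTMc
section

/-! The dual sum of pairs: the integral over the height. -/

namespace Pool.Agent.Q4

open Complex MeasureTheory Finset Pool.Agent.QM
open scoped Real ComplexConjugate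

theorem tmc_om (k : ℤ) (hk : k ≠ 0) {X : ℝ} (V : ℝ) (hX : 0 < X) :
    (|(k : ℝ)| * X) ^ (-sk (Real.exp (2 * V) / X) k) =
      om (|(k : ℝ)| / (Real.exp (2 * V) / X)) *
        Real.exp (-(sk (Real.exp (2 * V) / X) k - 1 / 2) * (2 * V)) * Real.exp (-V) := by
  have hk0 : 0 < |(k : ℝ)| := abs_pos.2 (by exact_mod_cast hk)
  have hK : 0 < Real.exp (2 * V) / X := by positivity
  have e1 : om (|(k : ℝ)| / (Real.exp (2 * V) / X)) =
      (|(k : ℝ)| / (Real.exp (2 * V) / X)) ^ (-sk (Real.exp (2 * V) / X) k) := by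
    unfold om sk
    split_ifs with h
    · exact min_eq_left (Real.rpow_le_rpow_of_exponent_ge (by positivity)
        ((div_le_one hK).2 h) (by norm_num))
    · exact min_eq_right (Real.rpow_le_rpow_of_exponent_le
        ((one_le_div hK).2 (not_le.1 h).le) (by norm_num))
  rw [e1]
  generalize sk (Real.exp (2 * V) / X) k = σ
  have e2 : |(k : ℝ)| * X = |(k : ℝ)| / (Real.exp (2 * V) / X) * Real.exp (2 * V) := by
    field_simp
  rw [e2, Real.mul_rpow (by positivity) (by positivity), ← Real.exp_mul,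
    mul_assoc _ (Real.exp _), ← Real.exp_add]
  congr 2
  ring

theorem pTMc (hKZ : KZ) (hDEC : DEC) (h1 : TMc1) : TMc := by
  intro θ hP κ κ' hκ hκ'
  obtain ⟨A, C2, hC2, h1⟩ := h1 θ hP κ κ' hκ hκ'
  obtain ⟨C1, hC1, h2⟩ := hKZ (A + 2)
  refine ⟨A, 5 * C1 * C2, by positivity, fun t v t' v' X F hX hF => ?_⟩
  have ht := tk2_br0 t
  have ht' := tk2_br0 t'
  have hKV : X * (Real.exp (2 * (v + v')) / X) * Real.exp (-(v + v')) = Real.exp (v + v') := by
    rw [mul_div_cancel₀ _ hX.ne', ← Real.exp_add]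
    congr 1
    ring
  have hom := fun (k : ℤ) (hk : k ≠ 0) => tmc_om k hk (v + v') hX
  have hK : 0 < Real.exp (2 * (v + v')) / X := by positivity
  generalize Real.exp (2 * (v + v')) / X = K at hKV hom hK ⊢
  have hl : 0 ≤ lg K ^ θ := Real.rpow_nonneg (Real.log_nonneg (by linarith)) _
  have hs : ∀ k, 3 / 4 ≤ s1 K k ∧ s1 K k ≤ 6 := fun k => by
    unfold s1 sk
    split_ifs <;> norm_num
  set Q := 5 / 2 * C1 * C2 * br t ^ A * br t' ^ A * Real.exp (v + v') * lg K ^ θ with hQ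
  have hQ0 : 0 ≤ Q := by positivity
  have key : ∀ y : ℝ, ∑ k ∈ F, ‖In (cs 12) fun u =>
      KG X (W2 κ t v κ' t' v') k (s1 K k + y * I) u * ZY 1 k (s1 K k + y * I) u‖ ≤
      Q * (1 / br y ^ 2) := by
    intro y
    have hy := tk2_br0 y
    set D := X * (5 * C1 / br y ^ (A + 2) / 2) * Real.exp (-(v + v')) with hD'
    have hD0 : 0 ≤ D := by positivity
    have e1 : ∀ k ∈ F, ‖In (cs 12) fun u =>
        KG X (W2 κ t v κ' t' v') k (s1 K k + y * I) u * ZY 1 k (s1 K k + y * I) u‖ ≤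
        D * (om (|(k : ℝ)| / K) * Real.exp (-(s1 K k - 1 / 2) * (2 * (v + v'))) *
          ‖In (cs 12) fun u => W2 κ t v κ' t' v' u * ZY 1 k (s1 K k + y * I) u‖) := by
      intro k hk
      have hk0 : k ≠ 0 := (hF k hk).1.ne_zero
      have hk1 : 0 < |(k : ℝ)| := abs_pos.2 (by exact_mod_cast hk0)
      have r1 : ((s1 K k : ℂ) + y * I).re = s1 K k := by simp
      have r2 : ((s1 K k : ℂ) + y * I).im = y := by simp
      have g2 := (h2 (s1 K k + y * I)).2.1 (by rw [r1]; linarith [(hs k).1])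
        (by rw [r1]; linarith [(hs k).2])
      rw [r1, r2] at g2
      have g3 : 1 / (s1 K k - 1 / 2) ≤ 4 := by
        rw [div_le_iff₀ (by linarith [(hs k).1])]; linarith [(hs k).1]
      have g4 : ‖Gammaℝ (s1 K k + y * I) * riemannZeta (2 * (s1 K k + y * I))‖ ≤
          5 * C1 / br y ^ (A + 2) := by
        refine g2.trans (div_le_div_of_nonneg_right ?_ (by positivity))
        have := mul_le_mul_of_nonneg_left g3 hC1.le
        linarith
      have g5 : ‖Kz k X (s1 K k + y * I)‖ ≤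
          5 * C1 / br y ^ (A + 2) / 2 * (|(k : ℝ)| * X) ^ (-s1 K k) := by
        unfold Kz
        rw [norm_mul, Complex.norm_cpow_eq_rpow_re_of_pos (by positivity), Complex.neg_re, r1,
          div_mul_eq_mul_div, norm_div, Complex.norm_ofNat]
        gcongr
      have g6 := hom k hk0
      have g7 : sk K k = s1 K k := by
        unfold s1
        rw [if_neg (hF k hk).2]
      rw [g7] at g6
      have g8 : (In (cs 12) fun u =>
          KG X (W2 κ t v κ' t' v') k (s1 K k + y * I) u * ZY 1 k (s1 K k + y * I) u) =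
          X * Kz k X (s1 K k + y * I) *
            In (cs 12) fun u => W2 κ t v κ' t' v' u * ZY 1 k (s1 K k + y * I) u := by
        unfold In KG
        rw [← integral_const_mul]
        simp only [mul_assoc]
      rw [g8, norm_mul, norm_mul, Complex.norm_real, Real.norm_of_nonneg hX.le]
      refine (mul_le_mul_of_nonneg_right (mul_le_mul_of_nonneg_left g5 hX.le)
        (norm_nonneg _)).trans (le_of_eq ?_)
      rw [g6, hD']
      ring
    refine (sum_le_sum e1).trans ?_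
    rw [← Finset.mul_sum]
    refine (mul_le_mul_of_nonneg_left (h1 t v t' v' K y (s1 K) F hK hF hs) hD0).trans (le_of_eq ?_)
    rw [hD', hQ, ← hKV]
    field_simp
    ring
  have k2 := tk2_sum F (fun k y => In (cs 12) fun u =>
      KG X (W2 κ t v κ' t' v') k (s1 K k + y * I) u * ZY 1 k (s1 K k + y * I) u) _
    (hDEC.2.2.2.1.1.const_mul Q) key
  rw [integral_const_mul] at k2
  have k3 := k2.trans (mul_le_mul_of_nonneg_left hDEC.2.2.2.1.2 hQ0)
  refine le_trans (sum_le_sum fun k _ => ?_) (k3.trans (le_of_eq ?_))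
  · unfold Yk Iv
    rw [norm_mul]
    refine mul_le_of_le_one_left (norm_nonneg _) ?_
    rw [norm_div, norm_one, norm_mul, Complex.norm_ofNat, Complex.norm_real,
      Real.norm_of_nonneg Real.pi_pos.le, div_le_one (by positivity)]
    linarith [Real.pi_gt_three]
  · rw [hQ]; ring

end Pool.Agent.Q4
end

-- part Pool.Agent.P.MP_ea46f5_nt.Q4.FVDP
section

/-! The Vandermonde factor. -/

namespace Pool.Agent.Q4

open Complex Finset Pool.Agent.QM

theorem vd_pm (s : Finset (Fin 4)) (f : Fin 4 → ℂ) :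
    ∏ j ∈ s, f j = ∏ j, if j ∈ s then f j else 1 := (Fintype.prod_ite_mem s f).symm

theorem vd_four (w : V4) : Vd w = (w 1 - w 0) * (w 2 - w 0) * (w 3 - w 0) *
    ((w 2 - w 1) * (w 3 - w 1)) * (w 3 - w 2) := by
  simp +decide only [Vd, vd_pm (Ioi _), Fin.prod_univ_four, if_true, if_false, one_mul, mul_one]

theorem vd_ten (f : Fin 4 → Fin 4 → ℂ) : ∏ i, ∏ j ∈ Ici i, f i j =
    f 0 0 * f 0 1 * f 0 2 * f 0 3 * (f 1 1 * f 1 2 * f 1 3) * (f 2 2 * f 2 3) * f 3 3 := by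
  simp +decide only [vd_pm (Ici _), Fin.prod_univ_four, if_true, if_false, one_mul, mul_one]

theorem vd_br (t : ℝ) : 1 ≤ br t := le_add_of_nonneg_right (abs_nonneg t)

theorem vd_br_add (a b : ℝ) : br (a + b) ≤ br a * br b := by
  unfold br
  nlinarith [abs_add_le a b, mul_nonneg (abs_nonneg a) (abs_nonneg b)]

theorem vd_gn (n : ℕ) (u : V4) : gn n u = gn 1 u ^ n := by
  simp only [gn, pow_one, prod_pow]

theorem vd_le (u : V4) (j : Fin 4) : br (u j).im ≤ gn 1 u := by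
  simp only [gn, pow_one]
  rw [← mul_prod_erase _ _ (mem_univ j)]
  exact le_mul_of_one_le_right (zero_le_one.trans (vd_br _))
    (one_le_prod fun i _ => vd_br _)

theorem vd_one (u : V4) : 1 ≤ gn 1 u := (vd_br _).trans (vd_le u 0)

/-- entire functions bounded by the `m`-th power of `28 gn 1` -/
def Bn (m : ℕ) (f : V4 → ℂ) : Prop :=
  Differentiable ℂ f ∧ ∀ u ∈ Bx (-1) 13, ‖f u‖ ≤ (28 * gn 1 u) ^ m

theorem Bn.mul {m n : ℕ} {f g : V4 → ℂ} (hf : Bn m f) (hg : Bn n g) :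
    Bn (m + n) fun u => f u * g u :=
  ⟨hf.1.mul hg.1, fun u hu => by
    rw [norm_mul, pow_add]
    exact mul_le_mul (hf.2 u hu) (hg.2 u hu) (norm_nonneg _) ((norm_nonneg _).trans (hf.2 u hu))⟩

theorem Bn.le {m : ℕ} {f : V4 → ℂ} (hf : Bn m f) (hm : m ≤ 24) {u : V4} (hu : u ∈ Bx (-1) 13) :
    ‖f u‖ ≤ 28 ^ 24 * gn 24 u := by
  rw [vd_gn, ← mul_pow]
  exact (hf.2 u hu).trans (pow_le_pow_right₀ (by linarith [vd_one u]) hm)

theorem vd_norm {u : V4} (hu : u ∈ Bx (-1) 13) (j : Fin 4) : ‖u j‖ ≤ 13 * gn 1 u := by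
  have h1 : |(u j).re| ≤ 13 := abs_le.2 ⟨le_trans (by norm_num [cs]) (hu j).1, (hu j).2⟩
  have h2 := vd_le u j
  have h3 := norm_le_abs_re_add_abs_im (u j)
  have h4 := abs_nonneg (u j).im
  unfold br at h2
  linarith

theorem bn_x (j : Fin 4) : Bn 1 fun u => u j :=
  ⟨by fun_prop, fun u hu => by linarith [vd_norm hu j, vd_one u]⟩

theorem bn_sub (i j : Fin 4) : Bn 1 fun u => u i - u j :=
  ⟨by fun_prop, fun u hu => by
    linarith [vd_norm hu i, vd_norm hu j, vd_one u, norm_sub_le (u i) (u j)]⟩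

theorem bn_add (i j : Fin 4) : Bn 1 fun u => u i + u j :=
  ⟨by fun_prop, fun u hu => by
    linarith [vd_norm hu i, vd_norm hu j, vd_one u, norm_add_le (u i) (u j)]⟩

theorem bn_half (j : Fin 4) : Bn 1 fun u => u j - 1 / 2 :=
  ⟨by fun_prop, fun u hu => by
    have h : ‖(1 / 2 : ℂ)‖ = 1 / 2 := by simp
    linarith [vd_norm hu j, vd_one u, norm_sub_le (u j) (1 / 2)]⟩

theorem bn_sq (i j : Fin 4) : Bn 2 fun u => u i ^ 2 - u j ^ 2 := by
  simpa only [sq_sub_sq] using (bn_add i j).mul (bn_sub i j)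

theorem bn_vd : Bn 12 fun u => Vd fun j => u j ^ 2 := by
  simpa only [vd_four] using ((((bn_sq 1 0).mul (bn_sq 2 0)).mul (bn_sq 3 0)).mul
    ((bn_sq 2 1).mul (bn_sq 3 1))).mul (bn_sq 3 2)

theorem vd_div (i : Fin 4) : ∃ Q : V4 → ℂ, Bn 9 Q ∧
    ∀ u : V4, Vd (fun j => u j ^ 2) = Q u * ∏ j ∈ univ.erase i, (u j - u i) := by
  have h : ∀ a b c d e : Fin 4, Bn 9 fun u => (u a + u i) * (u b + u i) * (u c + u i) *
      ((u b ^ 2 - u a ^ 2) * (u c ^ 2 - u a ^ 2) * (u d ^ 2 - u e ^ 2)) := fun a b c d e =>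
    (((bn_add a i).mul (bn_add b i)).mul (bn_add c i)).mul
      (((bn_sq b a).mul (bn_sq c a)).mul (bn_sq d e))
  fin_cases i
  · refine ⟨_, h 1 2 3 3 2, fun u => ?_⟩
    simp +decide only [vd_four, vd_pm (erase _ _), Fin.prod_univ_four, if_true, if_false,
      Fin.zero_eta]
    ring
  · refine ⟨_, h 0 2 3 2 3, fun u => ?_⟩
    simp +decide only [vd_four, vd_pm (erase _ _), Fin.prod_univ_four, if_true, if_false,
      Fin.mk_one]
    ring
  · refine ⟨_, h 0 1 3 3 1, fun u => ?_⟩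
    simp +decide only [vd_four, vd_pm (erase _ _), Fin.prod_univ_four, if_true, if_false,
      Fin.reduceFinMk]
    ring
  · refine ⟨_, h 0 1 2 1 2, fun u => ?_⟩
    simp +decide only [vd_four, vd_pm (erase _ _), Fin.prod_univ_four, if_true, if_false,
      Fin.reduceFinMk]
    ring

theorem pVDP : VDP := by
  refine ⟨28 ^ 24, 24, by positivity, bn_vd.1, fun u hu => ⟨?_, ?_, ?_, ?_⟩, ?_, fun i => ?_,
    fun u => ?_⟩
  · simpa only [sq] using (bn_vd.mul bn_vd).le le_rfl hu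
  · exact ((bn_sq 0 1).mul (bn_sq 2 3)).le (by norm_num) hu
  · rw [Fin.prod_univ_four]
    exact ((((bn_x 0).mul (bn_x 1)).mul (bn_x 2)).mul (bn_x 3)).le (by norm_num) hu
  · rw [hf, Fin.prod_univ_four]
    exact ((((bn_half 0).mul (bn_half 1)).mul (bn_half 2)).mul (bn_half 3)).le (by norm_num) hu
  · have h := bn_vd.mul ((((bn_sq 2 0).mul (bn_sq 3 0)).mul (bn_sq 2 1)).mul (bn_sq 3 1))
    refine ⟨_, h.1, fun u => ?_, fun u hu => h.le (by norm_num) hu⟩
    rw [sq, mul_assoc]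
    congr 1
    rw [vd_four, an]
    ring
  · obtain ⟨Q, hQ, e⟩ := vd_div i
    have h := bn_vd.mul hQ
    exact ⟨_, h.1, fun u => by rw [sq, mul_assoc, ← e], fun u hu => h.le (by norm_num) hu⟩
  · rw [vd_four, vd_four, vd_ten, Fin.prod_univ_four]
    ring

end Pool.Agent.Q4
end

-- part Pool.Agent.P.MP_ea46f5_nt.Q4.FZF
section

namespace Pool.Agent.Q4

open Complex MeasureTheory Finset Pool.Agent.QM
open scoped Real

theorem pZF (hLOP : LOP) : ZF := by
  obtain ⟨C, hC, h⟩ := Zg.inv_lz_le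
  refine ⟨Zg.lz_diff, Zg.lz_zero, fun w hw => ?_, Zg.iz_eq, 240 + C, by positivity,
    fun w h0 h1 => (Zg.lz_le h0 h1).trans ?_, fun w hw => ⟨Zg.lz_ne hw, (h w hw).trans ?_⟩⟩
  · rw [hLOP.2.2 _ (by simpa using hw), add_sub_cancel_left, lz]
  · gcongr
    linarith
  · have := Zg.br_one w.im
    exact mul_le_mul (by linarith) (le_self_pow₀ this (by norm_num)) (by linarith) (by positivity)

theorem pXIB : XIB := by
  obtain ⟨C, hC, h⟩ := Zg.xi_le
  have e : ∀ a : ℕ, xi a = fun u => Gammaℝ (1 / 2 + a + u) / Gammaℝ (1 / 2 + a - u) := fun a => by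
    funext u
    rw [xi, div_eq_mul_inv (Gammaℝ _)]
  refine ⟨C, 10, hC, fun a ha u => ?_⟩
  rw [e]
  exact ⟨Zg.xi_diff a, h a u ha⟩

theorem pKZ2 : KZ2 := fun n => by
  simpa only [mul_assoc] using Zg.kz2 n

theorem pIZF : IZF := by
  obtain ⟨g, -, hg, h⟩ := Zg.izf
  refine ⟨9, g, hg, fun x => ?_⟩
  rw [gz, one_div]
  simp only [mul_right_comm (x : ℂ) I]
  exact h x

end Pool.Agent.Q4
end

-- part Pool.Agent.P.MP_ea46f5_nt.Q4.K1m
section

/-! The term `k = 1`. -/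

namespace Pool.Agent.Q4

open Complex MeasureTheory Finset
open scoped Real
open Pool.Agent.QM

theorem k1_dprod {E ι : Type*} [NormedAddCommGroup E] [NormedSpace ℂ E] {s : Finset ι}
    {f : ι → E → ℂ} {x : E} (h : ∀ i ∈ s, DifferentiableAt ℂ (f i) x) :
    DifferentiableAt ℂ (fun y => ∏ i ∈ s, f i y) x := by
  classical
  exact (HasFDerivAt.finsetProd fun i hi => (h i hi).hasFDerivAt).differentiableAt

theorem k1_ite4 {M : Type*} [CommMonoid M] (S : Finset (Fin 4)) (f : Fin 4 → M) :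
    ∏ j ∈ S, f j = ∏ j, if j ∈ S then f j else 1 := by simp [prod_ite_mem]

theorem k1_Ici4 {M : Type*} [CommMonoid M] (f : Fin 4 → Fin 4 → M) :
    ∏ i, ∏ j ∈ Ici i, f i j = f 0 0 * f 0 1 * f 0 2 * f 0 3 * (f 1 1 * f 1 2 * f 1 3) *
      (f 2 2 * f 2 3) * f 3 3 := by
  simp only [k1_ite4 (Ici _)]
  simp [Fin.prod_univ_four]

theorem k1_pairs (A : Fin 4 → Fin 4 → ℂ) (hs : ∀ j l, A j l = A l j) (h0 : ∀ j l, A j l ≠ 0)
    (i : Fin 4) : (∏ j, ∏ l ∈ Ici j, A j l) * ∏ j, (A j i)⁻¹ =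
      ∏ j ∈ univ.erase i, ∏ l ∈ (Ici j).erase i, A j l := by
  rw [k1_Ici4, k1_ite4 (univ.erase i)]
  simp only [k1_ite4 (erase _ _)]
  have := h0 0 0; have := h0 0 1; have := h0 0 2; have := h0 0 3; have := h0 1 1
  have := h0 1 2; have := h0 1 3; have := h0 2 2; have := h0 2 3; have := h0 3 3
  fin_cases i <;>
    simp [Fin.prod_univ_four, hs 1 0, hs 2 0, hs 3 0, hs 2 1, hs 3 1, hs 3 2] <;> field_simp

theorem k1_Lo_lz (hLOP : LOP) {w : ℂ} (hw : w ≠ 0) : Lo 1 (1 + w) = lz w / w := by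
  rw [hLOP.2.2 _ (by simpa using hw), lz, add_sub_cancel_left]

theorem k1_Lo_diff (hLOP : LOP) {w : ℂ} (hw : w ≠ 0) :
    DifferentiableAt ℂ (fun w => Lo 1 (1 + w)) w :=
  ((Zg.lz_diff w).div differentiableAt_id hw).congr_of_eventuallyEq
    ((isOpen_ne.mem_nhds hw : _ ∈ _) |> Filter.mem_of_superset <| fun _ h => k1_Lo_lz hLOP h)

theorem k1_iz_Lo (hLOP : LOP) {w : ℂ} (hw : 0 < w.re) :
    Lo 1 (1 + w) ≠ 0 ∧ iz (1 + w) = (Lo 1 (1 + w))⁻¹ := by
  have h0 : w ≠ 0 := fun h => by simp [h] at hw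
  rw [k1_Lo_lz hLOP h0, inv_div]
  exact ⟨div_ne_zero (Zg.lz_ne hw.le) h0, Zg.iz_eq w⟩

theorem k1_ZR_res (hLOP : LOP) {u : V4} (hu : ∀ j, 0 < (u j).re) (i : Fin 4) :
    ZR (u i) u = ZX i u := by
  have h := fun j l => k1_iz_Lo hLOP (w := u j + u l) (by simpa using add_pos (hu j) (hu l))
  simp only [← add_assoc] at h
  rw [ZR, prod_congr rfl fun j _ => (h j i).2]
  exact k1_pairs (fun j l => Lo 1 (1 + u j + u l)) (fun j l => by rw [add_right_comm])
    (fun j l => (h j l).1) i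

theorem k1_br_sub (t u : ℝ) : br (t - u) ≤ br t * br u := by
  simpa only [sub_eq_add_neg, br, abs_neg] using dec_br t (-u)

theorem k1_ZO_le (hLOP : LOP) {ε : ℝ} (hε : 0 < ε) {u : V4} (hu : ∀ j, ε ≤ (u j).re ∧ (u j).re ≤ 12) :
    ‖ZO u‖ ≤ (240 / ε) ^ 10 * gn 10 u := by
  have h : ∀ i j, ‖Lo 1 (1 + u i + u j)‖ ≤ 240 / ε * (br (u i).im * br (u j).im) ^ 2 := by
    intro i j
    have h1 : ε ≤ (u i + u j).re := by rw [add_re]; linarith [(hu i).1, (hu j).1]
    have h2 := h1.trans (re_le_norm _)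
    rw [add_assoc, k1_Lo_lz hLOP (norm_pos_iff.1 (hε.trans_le h2)), norm_div, div_mul_eq_mul_div]
    refine div_le_div₀ (by positivity) ((Zg.lz_le (by linarith)
      (by rw [add_re]; linarith [(hu i).2, (hu j).2])).trans ?_) hε h2
    have := dec_br (u i).im (u j).im
    have := sh_br_pos (u i + u j).im
    gcongr
    exact dec_br _ _
  rw [ZO, norm_prod]
  refine (prod_le_prod (fun _ _ => norm_nonneg _) fun i _ => (norm_prod _ _).le.trans
    (prod_le_prod (fun _ _ => norm_nonneg _) fun j _ => h i j)).trans (le_of_eq ?_)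
  rw [k1_Ici4, gn, Fin.prod_univ_four]
  ring

theorem k1_dn_mono {n m : ℕ} (h : m ≤ n) (u : V4) : dn n u ≤ dn m u :=
  prod_le_prod (fun j _ => by have := sh_br_pos (u j).im; positivity) fun j _ =>
    one_div_le_one_div_of_le (pow_pos (sh_br_pos _) _) (pow_le_pow_right₀ (sh_br_one _) h)

theorem k1_dn_pos (n : ℕ) (u : V4) : 0 < dn n u :=
  prod_pos fun j _ => by have := sh_br_pos (u j).im; positivity

theorem k1_gn_one (n : ℕ) (u : V4) : 1 ≤ gn n u := one_le_prod fun _ _ => one_le_pow₀ (sh_br_one _)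

theorem k1_gn_mono {n m : ℕ} (h : m ≤ n) (u : V4) : gn m u ≤ gn n u :=
  prod_le_prod (fun _ _ => (pow_pos (sh_br_pos _) _).le) fun _ _ =>
    pow_le_pow_right₀ (sh_br_one _) h

theorem k1_gn_dn (n m : ℕ) (u : V4) : gn m u * dn (n + m) u = dn n u := by
  rw [gn, dn, dn, ← prod_mul_distrib]
  refine prod_congr rfl fun j _ => ?_
  have := sh_br_pos (u j).im
  field_simp
  ring

theorem k1_ZO_hol (hLOP : LOP) {u : V4} (hu : ∀ j, 0 < (u j).re) : DifferentiableAt ℂ ZO u := by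
  refine k1_dprod fun i _ => k1_dprod fun j _ => ?_
  simp only [add_assoc]
  exact (k1_Lo_diff hLOP (w := u i + u j) fun e => by
    have := congrArg re e
    simp at this; linarith [hu i, hu j]).comp u (f := fun x : V4 => x i + x j) (by fun_prop)

noncomputable def K1P (Kr H : ℂ → V4 → ℂ) (z : ℂ) (u : V4) : ℂ :=
  Kr z u * (∏ j, lz (u j - z)) * ZR z u * H z u

theorem K1U.mem {ε : ℝ} (hε : 0 < ε) {z : ℂ} {u : V4} (h : K1U ε z u) :
    (z, u) ∈ R1 ε ∧ (z, u) ∈ V1 :=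
  ⟨⟨⟨h.1, h.2.1⟩, fun j => ⟨(h.2.2 j).1, (h.2.2 j).2.1⟩⟩,
    by have := h.1; show _ < z.re; linarith, by have := h.2.1; show z.re < _; linarith,
    fun j => ⟨by have := (h.2.2 j).1; show _ < (u j).re; linarith, (h.2.2 j).2.2⟩⟩

theorem k1_diff (hLOP : LOP) (hIZ : IZ) {n : ℕ} {Kr H : ℂ → V4 → ℂ} {ε X V M : ℝ}
    (h : KC n Kr H ε X V M) : K1D ε (K1P Kr H) := by
  intro z u hU
  have hm := hU.mem h.e0
  have hu : ∀ j, 0 < (u j).re := fun j => h.e0.trans_le (hU.2.2 j).1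
  have hz : 0 < z.re := lt_of_lt_of_le (half_pos h.e0) hU.1
  refine (((h.hol _ hm.1).mul (k1_dprod fun j _ => ?_)).mul
    (.mul (k1_dprod fun i _ => k1_dprod fun j _ => ?_) (k1_dprod fun j _ => ?_))).mul
    (h.hH _ hm.2)
  · exact (Zg.lz_diff _).comp (z, u) (f := fun x : ℂ × V4 => x.2 j - x.1) (by fun_prop)
  · simp only [add_assoc]
    exact (k1_Lo_diff hLOP (w := u i + u j) fun e => by
      have := congrArg re e
      simp at this; linarith [hu i, hu j]).comp (z, u) (f := fun x : ℂ × V4 => x.2 i + x.2 j)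
      (by fun_prop)
  · exact (hIZ.1 (1 + u j + z) (by simp; linarith [hu j])).comp (z, u)
      (f := fun x : ℂ × V4 => 1 + x.2 j + x.1) (by fun_prop)

theorem k1_bd (hLOP : LOP) {C : ℝ} (hC : 0 < C)
    (hI : ∀ s : ℂ, 1 ≤ s.re → ‖iz s‖ ≤ C * br s.im ^ 2) {n : ℕ} (hn : 18 ≤ n)
    {Kr H : ℂ → V4 → ℂ} {ε X V M : ℝ} (h : KC n Kr H ε X V M) (hV : 0 ≤ V) (z : ℂ) (u : V4)
    (hU : K1U ε z u) : ‖K1P Kr H z u‖ ≤ V * M * (240 * C) ^ 4 * (240 / ε) ^ 10 *
      X ^ (1 - z.re + ∑ j, (u j).re) / br z.im ^ 2 * dk u ^ 2 := by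
  have hm := hU.mem h.e0
  have he := h.e0
  have hX : 0 < X := by linarith [h.X1]
  have hβ := sh_br_pos z.im
  have hb := fun j => sh_br_pos (u j).im
  have g1 : ‖Kr z u‖ ≤ V * X ^ (1 - z.re + ∑ j, (u j).re) / br z.im ^ 18 * dn 18 u := by
    refine (h.bd _ hm.1).trans (mul_le_mul ?_ (k1_dn_mono hn u) (k1_dn_pos _ _).le (by positivity))
    exact div_le_div_of_nonneg_left (by positivity) (by positivity)
      (pow_le_pow_right₀ (sh_br_one _) hn)
  have g2 : ‖∏ j, lz (u j - z)‖ ≤ ∏ j, 240 * (br (u j).im * br z.im) ^ 2 := by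
    rw [norm_prod]
    refine prod_le_prod (fun _ _ => norm_nonneg _) fun j _ => (Zg.lz_le
      (by rw [sub_re]; linarith [(hU.2.2 j).2.2])
      (by rw [sub_re]; linarith [(hU.2.2 j).2.1, hU.1])).trans ?_
    have := sh_br_pos (u j - z).im
    gcongr
    exact k1_br_sub _ _
  have g3 := k1_ZO_le hLOP he fun j => ⟨(hU.2.2 j).1, (hU.2.2 j).2.1⟩
  have g4 : ‖∏ j, iz (1 + u j + z)‖ ≤ ∏ j, C * (br (u j).im * br z.im) ^ 2 := by
    rw [norm_prod]
    refine prod_le_prod (fun _ _ => norm_nonneg _) fun j _ =>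
      (hI _ (by simp; linarith [(hU.2.2 j).1, hU.1])).trans ?_
    have := sh_br_pos (1 + u j + z).im
    gcongr
    simpa using dec_br (u j).im z.im
  have g5 := h.bH _ hm.2
  have p1 := (norm_nonneg _).trans g1
  have p2 := (norm_nonneg _).trans g2
  have p3 := (norm_nonneg _).trans g3
  rw [K1P, ZR, norm_mul, norm_mul, norm_mul, norm_mul]
  refine (mul_le_mul (mul_le_mul (mul_le_mul g1 g2 (norm_nonneg _) p1)
    (mul_le_mul g3 g4 (norm_nonneg _) p3) (by positivity) (mul_nonneg p1 p2)) g5 (norm_nonneg _)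
    (mul_nonneg (mul_nonneg p1 p2) (mul_nonneg p3 ((norm_nonneg _).trans g4)))).trans (le_of_eq ?_)
  have := hb 0; have := hb 1; have := hb 2; have := hb 3
  simp only [dn, gn, dk, Fin.prod_univ_four]
  field_simp

theorem k1_main (hLOP : LOP) (hIZ : IZ) : ∃ C : ℝ, 0 < C ∧ ∀ (n : ℕ) (Kr H : ℂ → V4 → ℂ)
    (ε X V M : ℝ), 18 ≤ n → KC n Kr H ε X V M → 0 ≤ V ∧ 0 ≤ M ∧ (∀ i, IL (rl ε) (Fl Kr H i)) ∧
    ‖1 / (2 * π) * Y1 Kr H (3 / 4) (cs 12) - ∑ i, In (rl ε) (Fl Kr H i)‖ ≤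
      C * V * M * X ^ (9 / 10 : ℝ) / ε ^ 10 := by
  obtain ⟨C, hC, hI⟩ := hIZ.2.1
  refine ⟨10 ^ 20 * (240 * C) ^ 4 * 240 ^ 10, by positivity, fun n Kr H ε X V M hn h => ?_⟩
  have he := h.e0
  have he1 := h.e1
  have hX : 0 < X := by linarith [h.X1]
  have hU0 : K1U ε (1 / 2) fun _ => 1 :=
    ⟨by norm_num; linarith, by norm_num, fun _ => ⟨by norm_num; linarith, by norm_num, by norm_num⟩⟩
  have hM : 0 ≤ M := (norm_nonneg _).trans (h.bH _ (hU0.mem he).2)
  have hV : 0 ≤ V := by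
    have g := nonneg_of_mul_nonneg_left ((norm_nonneg _).trans (h.bd _ (hU0.mem he).1)) (k1_dn_pos _ _)
    rw [mul_div_assoc] at g
    exact nonneg_of_mul_nonneg_left g (div_pos (Real.rpow_pos_of_pos hX _) (pow_pos (sh_br_pos _) _))
  have hXe : X ^ ε ≤ 3 := by
    rw [Real.rpow_def_of_pos hX, mul_comm]
    exact (Real.exp_le_exp.2 h.eX).trans (Real.exp_one_lt_d9.le.trans (by norm_num))
  have hi : Function.Injective (rl ε) := fun i j e => by
    have := mul_right_cancel₀ he.ne' e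
    exact Fin.ext (by exact_mod_cast add_right_cancel this)
  have hρ : ∀ j, ε ≤ rl ε j ∧ rl ε j ≤ 4 * ε := fun j => by
    have h1 : ((j : ℕ) : ℝ) ≤ 3 := by exact_mod_cast Nat.le_of_lt_succ j.2
    have h2 : (0 : ℝ) ≤ (j : ℕ) := Nat.cast_nonneg _
    unfold rl
    constructor <;> nlinarith
  have hd := k1_diff hLOP hIZ h
  have hb := k1_bd hLOP hC hI hn h hV
  have key := k1_core he (by linarith) h.X1 hXe (by positivity) hi hρ hd hb
  have e1 : Y1 Kr H (3 / 4) (cs 12) = Iv (3 / 4) fun z => In (fun _ => 12)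
      (K1F (fun z u => K1P Kr H z u * ∏ j, (u j - 1 / 2)) z) := by
    refine integral_congr_ae (.of_forall fun y => ?_)
    beta_reduce
    generalize hz : (((3 / 4 : ℝ) : ℂ) + y * I) = z
    have hz' : z.re = 3 / 4 := by simp [← hz]
    rw [In, ← integral_div]
    refine k1_In_congr (G := fun u => G1 Kr H z u / (z - 1 / 2)) fun u hu => ?_
    have h0 : ∀ j, u j - z ≠ 0 := fun j e => by
      have := congrArg re e
      rw [sub_re, hu j, hz'] at this
      norm_num [cs] at this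
    simp only [G1, K1F, K1P, hf, fun j => k1_Lo_lz hLOP (h0 j), prod_div_distrib]
    rw [← div_div, div_right_comm]
    congr 1
    ring
  have e2 : ∀ i (u : V4), (∀ j, (u j).re = rl ε j) →
      Fl Kr H i u = K1R (fun z u => K1P Kr H z u * ∏ j, (u j - 1 / 2)) i u := by
    intro i u hu
    have h0 : ∀ j ∈ univ.erase i, Lo 1 (1 + (u j - u i)) = lz (u j - u i) / (u j - u i) :=
      fun j hj => k1_Lo_lz hLOP fun e => (mem_erase.1 hj).1 (hi (by rw [← hu, ← hu, sub_eq_zero.1 e]))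
    have h1 : lz (u i - u i) = 1 / 2 := by rw [sub_self]; exact Zg.lz_zero
    simp only [Fl, K1R, K1P, FZ, hf]
    rw [prod_congr rfl h0, prod_div_distrib, k1_ZR_res hLOP fun j => by linarith [hu j, (hρ j).1],
      ← mul_prod_erase univ (fun j => lz (u j - u i)) (mem_univ i), h1, ← div_div]
    ring
  refine ⟨hV, hM, fun i => ?_, ?_⟩
  · exact (key.1 i).congr (.of_forall fun t => (e2 i _ (pt_re _ t)).symm)
  · rw [e1, sum_congr rfl fun i _ => k1_In_congr (e2 i)]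
    refine key.2.trans (le_of_eq ?_)
    field_simp

end Pool.Agent.Q4
end

-- part Pool.Agent.P.MP_ea46f5_nt.Q4.PDc
section

/-! The functional equation for the Dirichlet series of a class. -/

namespace Pool.Agent.Q4

open Complex MeasureTheory Finset Pool.Agent.QM Pool.Agent.QM.Po NumberTheorySymbols
open scoped Real ComplexConjugate

theorem fx_w8 (c : ℤ) (j : ℕ) : w8 (c * (j : ℤ) ^ 2) = w8 c +
    (w8 (4 * c) - w8 c) * (if 2 ∣ j then 1 else 0) + (1 - w8 (4 * c)) * (if 4 ∣ j then 1 else 0) := by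
  by_cases h2 : 2 ∣ j
  · obtain ⟨i, rfl⟩ := h2
    by_cases h4 : 2 ∣ i
    · obtain ⟨l, rfl⟩ := h4
      rw [if_pos (by omega), if_pos (by omega), w8_congr (b := 0) ⟨2 * c * l ^ 2, by push_cast; ring⟩,
        w8_zero]
      ring
    · obtain ⟨l, rfl⟩ : ∃ l, i = 2 * l + 1 := ⟨i / 2, by omega⟩
      rw [if_pos (by omega), if_neg (by omega),
        w8_congr (b := 4 * c) ⟨2 * c * (l ^ 2 + l), by push_cast; ring⟩]
      ring
  · obtain ⟨l, rfl⟩ : ∃ l, j = 2 * l + 1 := ⟨j / 2, by omega⟩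
    obtain ⟨d, hd⟩ := Int.even_mul_succ_self (l : ℤ)
    rw [if_neg h2, if_neg (by omega),
      w8_congr (b := c) ⟨c * d, by push_cast; linear_combination 4 * c * hd⟩]
    ring

theorem fx_sq {n : ℕ} (hn : Odd n) (k c : ℤ) {z : ℂ} (hz : z.re = 2) :
    HasSum (fun j : ℕ => w8 (c * (j : ℤ) ^ 2) * ((j : ℂ) ^ (-(2 * z)) * UV n z (k * (j : ℤ) ^ 2)))
      (riemannZeta (2 * z) * Tk k z n * brk c z) := by
  have hre : 1 < (2 * z).re := by simp [hz]; norm_num
  have h0 : HasSum (fun j : ℕ => (j : ℂ) ^ (-(2 * z)) * UV n z (k * (j : ℤ) ^ 2))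
      (riemannZeta (2 * z) * Tk k z n) := by
    simp only [UU_eq]
    rw [← loc_eq_TK]
    exact ep1 (fun p hp => Nat.prime_of_mem_primeFactors hp) _ _ hre
  have h1 : ∀ e : ℕ, HasSum (fun j : ℕ => (if 2 ^ e ∣ j then 1 else 0) *
      ((j : ℂ) ^ (-(2 * z)) * UV n z (k * (j : ℤ) ^ 2)))
      (((2 ^ e * 2 ^ e : ℕ) : ℂ) ^ (-z) * (riemannZeta (2 * z) * Tk k z n)) := fun e => by
    have hinj : Function.Injective fun j : ℕ => 2 ^ e * j := mul_right_injective₀ (by positivity)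
    rw [← hinj.hasSum_iff]
    · refine (h0.mul_left _).congr_fun fun j => ?_
      have e1 : UV n z (k * ((2 ^ e * j : ℕ) : ℤ) ^ 2) = UV n z (k * (j : ℤ) ^ 2) := by
        rw [UU_eq, UU_eq]
        refine prod_congr rfl fun p hp => ?_
        have hpp := Nat.prime_of_mem_primeFactors hp
        have hc : Nat.Coprime p (2 ^ e) := (Nat.coprime_two_right.2
          (hn.of_dvd_nat (Nat.dvd_of_mem_primeFactors hp))).pow_right e
        simp only [Int.natCast_dvd_natCast, hc.dvd_mul_left]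
      have e2 : ((2 ^ e * 2 ^ e : ℕ) : ℂ) ^ (-z) = ((2 ^ e : ℕ) : ℂ) ^ (-(2 * z)) := by
        rw [Nat.cast_mul, natCast_mul_natCast_cpow, ← cpow_add _ _ (by simp)]
        congr 1
        ring
      simp only [Function.comp, dvd_mul_right, if_true, e1, e2]
      rw [Nat.cast_mul, natCast_mul_natCast_cpow]
      ring
    · intro j hj
      rw [if_neg fun ⟨c, hc⟩ => hj ⟨c, hc.symm⟩, zero_mul]
  have h2 := ((h0.mul_left (w8 c)).add ((h1 1).mul_left (w8 (4 * c) - w8 c))).add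
    ((h1 2).mul_left (1 - w8 (4 * c)))
  have e : riemannZeta (2 * z) * Tk k z n * brk c z = w8 c * (riemannZeta (2 * z) * Tk k z n) +
      (w8 (4 * c) - w8 c) * (((2 ^ 1 * 2 ^ 1 : ℕ) : ℂ) ^ (-z) * (riemannZeta (2 * z) * Tk k z n)) +
      (1 - w8 (4 * c)) * (((2 ^ 2 * 2 ^ 2 : ℕ) : ℂ) ^ (-z) * (riemannZeta (2 * z) * Tk k z n)) := by
    norm_num [brk]
    ring
  rw [e]
  refine h2.congr_fun fun j => ?_
  rw [fx_w8]
  norm_num only
  ring

theorem fx_UV (n : ℕ) (z : ℂ) (H : ℤ) : UV n z H = (sf n : ℂ) ^ (z - 1 / 2) * (J(H | sf n) : ℂ) *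
    ∑ s ∈ (PE n).powerset, if ((∏ p ∈ s, p : ℕ) : ℤ) ∣ H then
      (-1) ^ s.card * ((∏ p ∈ s, p : ℕ) : ℂ) ^ (2 * z - 1) else 0 := by
  rw [UV, sieve_prod (fun p hp => PE_prime hp), sf, natCast_prod_cpow,
    jac_prod H _ (fun p => p) fun p hp => (PO_prime hp).ne_zero, prod_mul_distrib, mul_comm (∏ _ ∈ _, _)]
  push_cast
  congr 1
  refine sum_congr rfl fun s _ => ?_
  rw [prod_const_one, mul_one, prod_neg, ← Nat.cast_prod, ← Nat.cast_prod, natCast_prod_cpow]

theorem fx_jac {n : ℕ} (hn : n ≠ 0) (m : ℤ) : (J(m | n) : ℂ) = J(m | sf n) *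
    ∑ s ∈ (PE n).powerset, if ((∏ p ∈ s, p : ℕ) : ℤ) ∣ m then (-1) ^ s.card else 0 := by
  have h := jac_split hn m
  rw [sieve_prod (fun p hp => PE_prime hp)] at h
  have h2 := congrArg (fun x : ℝ => (x : ℂ)) h
  push_cast at h2 ⊢
  rw [h2]
  congr 1
  refine sum_congr rfl fun s _ => ?_
  split_ifs <;> simp

theorem fx_odd {n : ℕ} (hn : Odd n) {s : Finset ℕ} (hs : s ∈ (PE n).powerset) :
    Odd (∏ p ∈ s, p) := by
  refine prod_induction _ Odd (fun a b => Odd.mul) odd_one fun p hp => ?_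
  exact hn.of_dvd_nat (Nat.dvd_of_mem_primeFactors (mem_filter.1 (mem_powerset.1 hs hp)).1)

theorem fx_sq8 {e : ℕ} (he : Odd e) : (8 : ℤ) ∣ (e : ℤ) * e - 1 := by
  obtain ⟨m, rfl⟩ := he
  obtain ⟨c, hc⟩ := Int.even_mul_succ_self (m : ℤ)
  exact ⟨c, by push_cast; linear_combination 4 * hc⟩

theorem fx_cl {τ r : ℤ} (hτ : τ = 1 ∨ τ = -1) {F : ℤ → ℂ} {a : ℂ}
    (h : HasSum (fun m : ℕ => if m ≠ 0 ∧ (τ * m) % 8 = r then F (τ * m) else 0) a) :
    HasSum (fun k : CL τ r => F k) a := by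
  have hinj : Function.Injective fun k : CL τ r => (k : ℤ).natAbs := by
    intro k l h
    have h1 := k.2.1
    have h2 := l.2.1
    have h3 : (k : ℤ).natAbs = (l : ℤ).natAbs := h
    refine Subtype.ext ?_
    rcases hτ with e | e <;> subst e <;> omega
  rw [← hinj.hasSum_iff] at h
  · refine h.congr_fun fun k => ?_
    have h1 := k.2.1
    have h2 := k.2.2
    have e : τ * ((k : ℤ).natAbs : ℤ) = k := by rcases hτ with e | e <;> subst e <;> omega
    have e0 : (k : ℤ).natAbs ≠ 0 := by rcases hτ with e | e <;> subst e <;> omega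
    simp only [Function.comp, e]
    rw [if_pos ⟨e0, h2⟩]
  · intro m hm
    refine if_neg fun h => hm ⟨⟨τ * m, ?_, h.2⟩, ?_⟩
    · have := h.1
      rcases hτ with e | e <;> subst e <;> omega
    · rcases hτ with e | e <;> subst e <;> simp

theorem fx_right {τ r : ℤ} (h0 : 0 ≤ r) (h8 : r < 8) (hτ : τ = 1 ∨ τ = -1) {ν e : ℕ} (he : Odd e)
    {u a : ℂ} (h : HasSum (fun m : ℕ => if m = 0 then 0 else
      Phi ν (τ * r * e) m * (m : ℂ) ^ (-u)) a) :
    HasSum (fun m : ℕ => if m ≠ 0 ∧ (τ * m) % 8 = r then (if (e : ℤ) ∣ τ * m then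
      (J(τ * m | ν) : ℂ) * (m : ℂ) ^ (-u) else 0) else 0)
      ((J(τ * e | ν) : ℂ) * (e : ℂ) ^ (-u) * a) := by
  have hinj : Function.Injective fun j : ℕ => e * j := mul_right_injective₀ he.pos.ne'
  rw [← hinj.hasSum_iff]
  · refine (h.mul_left _).congr_fun fun m => ?_
    obtain ⟨d, hd⟩ := fx_sq8 he
    have ht : τ * τ = 1 := by rcases hτ with e | e <;> subst e <;> rfl
    have hiff : (τ * ((e * m : ℕ) : ℤ)) % 8 = r ↔ (m : ℤ) % 8 = (τ * r * e) % 8 := by
      push_cast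
      constructor
      · intro h1
        have h2 : τ * (e * m) = r + 8 * (τ * (e * m) / 8) := by omega
        generalize τ * (e * m) / 8 = t at h2
        have h3 : (m : ℤ) = τ * r * e + 8 * (τ * e * t - d * m) := by
          linear_combination τ * e * h2 - m * hd - e * e * m * ht
        rw [h3, Int.add_mul_emod_self_left]
      · intro h1
        have h2 : (m : ℤ) = τ * r * e + 8 * ((m - τ * r * e) / 8) := by omega
        generalize (m - τ * r * e) / 8 = t at h2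
        have h3 : τ * (e * m) = r + 8 * (r * d + τ * e * t) := by
          linear_combination τ * e * h2 + r * hd + r * e * e * ht
        rw [h3, Int.add_mul_emod_self_left]
        omega
    simp only [Function.comp, hiff]
    by_cases hm : m = 0
    · simp [hm]
    · have hdv : (e : ℤ) ∣ τ * ((e * m : ℕ) : ℤ) := ⟨τ * m, by push_cast; ring⟩
      rw [if_neg hm, if_pos hdv, Phi]
      by_cases hc : (m : ℤ) % 8 = (τ * r * e) % 8
      · rw [if_pos hc, if_pos ⟨mul_ne_zero he.pos.ne' hm, hc⟩, Nat.cast_mul (α := ℂ),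
          natCast_mul_natCast_cpow, Nat.cast_mul, ← mul_assoc τ, jacobiSym.mul_left]
        push_cast
        ring
      · rw [if_neg hc, if_neg fun h => hc h.2]
        simp
  · intro j hj
    have : ¬ (e : ℤ) ∣ τ * j := fun h => hj (by
      have h1 : e ∣ j := by
        rcases hτ with e | e <;> subst e
        · exact Int.natCast_dvd_natCast.1 (by simpa using h)
        · exact Int.natCast_dvd_natCast.1 (by simpa using h)
      obtain ⟨c, hc⟩ := h1
      exact ⟨c, hc.symm⟩)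
    simp [this]

theorem fx_left (τ r : ℤ) {ν e : ℕ} (hν : Odd ν) (hs : Squarefree ν) (he : Odd e) {z a : ℂ}
    (h : HasSum (fun h : ℤ => if h = 0 then 0 else ((8 * ν : ℕ) : ℂ) ^ (z - 1) * (2 * π : ℂ) ^ (-z) *
      Gamma z * ph h z * ft (8 * ν) (Phi ν (τ * r * e)) h * ((|(h : ℝ)| : ℝ) : ℂ) ^ (-z)) a) :
    HasSum (fun H : ℤ => (if H = 0 then 0 else (8 : ℂ) ^ (z - 1) * (2 * π : ℂ) ^ (-z) * Gamma z *
      ph H z * (eg ν * (J(-2 * τ | ν) : ℂ)) * w8 (-(ν * τ * r * H)) * ((|(H : ℝ)| : ℝ) : ℂ) ^ (-z) *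
      ((ν : ℂ) ^ (z - 1 / 2) * (J(H | ν) : ℂ))) *
        if (e : ℤ) ∣ H then (e : ℂ) ^ (2 * z - 1) else 0)
      ((J(τ * e | ν) : ℂ) * (e : ℂ) ^ (-(1 - z)) * a) := by
  have he0 : (0 : ℤ) < e := by exact_mod_cast he.pos
  have hinj : Function.Injective fun j : ℤ => e * j := mul_right_injective₀ he0.ne'
  rw [← hinj.hasSum_iff]
  · refine (h.mul_left _).congr_fun fun m => ?_
    by_cases hm : m = 0
    · simp [hm]
    · have e1 : ph (e * m) z = ph m z := by
        unfold ph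
        rw [Int.sign_mul, Int.sign_eq_one_of_pos he0, one_mul]
      have e2 : ((|((e * m : ℤ) : ℝ)| : ℝ) : ℂ) ^ (-z) =
          (e : ℂ) ^ (-z) * ((|(m : ℝ)| : ℝ) : ℂ) ^ (-z) := by
        rw [Int.cast_mul, abs_mul, Int.cast_natCast, Nat.abs_cast, ofReal_mul,
          mul_cpow_ofReal_nonneg (by positivity) (abs_nonneg _), ofReal_natCast]
      have e3 : ((8 * ν : ℕ) : ℂ) ^ (z - 1) = (8 : ℂ) ^ (z - 1) * (ν : ℂ) ^ (z - 1) := by
        rw [Nat.cast_mul, natCast_mul_natCast_cpow]; rfl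
      have e4 : (ν : ℂ) ^ (z - 1 / 2) = (ν : ℂ) ^ (z - 1) * ((√(ν : ℝ) : ℝ) : ℂ) := by
        rw [Real.sqrt_eq_rpow, ofReal_cpow (by positivity), ofReal_natCast,
          ← cpow_add _ _ (by exact_mod_cast hν.pos.ne')]
        congr 1
        push_cast
        ring
      have e5 : (e : ℂ) ^ (-(1 - z)) = (e : ℂ) ^ (-z) * (e : ℂ) ^ (2 * z - 1) := by
        rw [← cpow_add _ _ (by exact_mod_cast he.pos.ne')]
        congr 1
        ring
      have e6 : w8 (-(ν * τ * r * (e * m))) = w8 (-(ν * (τ * r * e) * m)) := by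
        congr 1
        ring
      simp only [Function.comp]
      rw [if_neg hm, if_neg (mul_ne_zero he0.ne' hm), if_pos (dvd_mul_right _ _), pDFT ν _ m hν hs,
        e1, e2, e3, e4, e5, e6]
      simp only [jacobiSym.mul_left]
      push_cast
      ring
  · intro j hj
    rw [if_neg (c := (e : ℤ) ∣ j) fun ⟨c, hc⟩ => hj ⟨c, hc.symm⟩, mul_zero]

theorem fx_summable {F : SF → ℂ} (C : ℝ) (h : ∀ k : SF, ‖F k‖ ≤ C * |((k : ℤ) : ℝ)| ^ (-2 : ℝ)) :
    Summable F :=
  Summable.of_norm_bounded (((Real.summable_abs_int_rpow (b := 2) one_lt_two).mul_left C).subtype _) h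

theorem fx_twist (hTKB : TKB) {τ r : ℤ} (hτ : τ = 1 ∨ τ = -1) {n : ℕ} (hn : Odd n) {z a : ℂ}
    (hz : z.re = 2)
    (h : HasSum (fun k : SF => (8 : ℂ) ^ (z - 1) * (2 * π : ℂ) ^ (-z) * Gamma z * riemannZeta (2 * z) *
      (ph k z * ((|((k : ℤ) : ℝ)| : ℝ) : ℂ) ^ (-z) * (Aq τ r (sf n) k z * Tk k z n))) a) :
    HasSum (fun κ : SF => Kd (EG τ r) κ z * Tk κ z n) a := by
  obtain ⟨c1, c2, c3⟩ := pCH8
  set K : ℂ := (8 : ℂ) ^ (z - 1) * (2 * π : ℂ) ^ (-z) * Gamma z * riemannZeta (2 * z) with hK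
  set G : ℤ → ℤ → ℂ := fun f k => K * (ph k z * ((|(k : ℝ)| : ℝ) : ℂ) ^ (-z) *
    (cf τ r f k z * Tk (io f k) z n)) with hG
  have hs : ∀ f ∈ F4, Summable fun k : SF => G f k := fun f _ => by
    refine fx_summable (‖K‖ * (Real.exp (π * |z.im| / 2) * (65 * (n : ℝ) ^ 7))) fun k => ?_
    have hk : 0 < |((k : ℤ) : ℝ)| := abs_pos.2 (by exact_mod_cast k.2.ne_zero)
    have a1 := mul_le_mul (norm_cf τ r f k (z := z) (by linarith))
      (hTKB.2.1 (io f k) z n (by linarith) (by linarith) hn.pos.ne') (norm_nonneg _) (by norm_num)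
    have a2 := mul_le_mul (norm_ph k z) a1 (by positivity) (by positivity)
    simp only [hG, norm_mul]
    rw [norm_cpow_eq_rpow_re_of_pos hk, neg_re, hz, mul_assoc ‖K‖, mul_right_comm ‖ph _ _‖]
    gcongr
  have h1 : HasSum (fun k : SF => ∑ f ∈ F4, G f k) (∑ f ∈ F4, ∑' k : SF, G f k) :=
    hasSum_sum fun f hf => (hs f hf).hasSum
  have h2 : a = ∑ f ∈ F4, ∑' k : SF, G f k := h.unique (h1.congr_fun fun k => by
    rw [c1 τ r k (sf n) z hτ (sf_odd hn), sum_mul, mul_sum, mul_sum]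
    refine sum_congr rfl fun f hf => ?_
    simp only [hG]
    rw [← c3 f hf k z n hn, mul_assoc (cf _ _ _ _ _)]
    rfl)
  have h3 : ∀ f ∈ F4, HasSum (fun κ : SF => G f (io f κ)) (∑' k : SF, G f k) := fun f hf => by
    let e : SF ≃ SF :=
      { toFun := fun k => ⟨io f k, (c2 f hf k k.2).1⟩
        invFun := fun k => ⟨io f k, (c2 f hf k k.2).1⟩
        left_inv := fun k => Subtype.ext (c2 f hf k k.2).2
        right_inv := fun k => Subtype.ext (c2 f hf k k.2).2 }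
    exact (e.hasSum_iff (f := fun k : SF => G f k)).2 (hs f hf).hasSum
  rw [h2]
  refine (hasSum_sum h3).congr_fun fun κ => ?_
  have hz0 : z ≠ 0 := by rintro rfl; simp at hz
  have hk : 0 < |((κ : ℤ) : ℝ)| := abs_pos.2 (by exact_mod_cast κ.2.ne_zero)
  rw [Kd, EG, Gamma_add_one z hz0, mul_sum, sum_div, sum_mul, sum_mul, sum_mul]
  refine sum_congr rfl fun f hf => ?_
  have e : ((|((io f κ : ℤ) : ℝ)| : ℝ) : ℂ) ^ (-z) =
      ((|((io f κ : ℤ) : ℝ)| / |((κ : ℤ) : ℝ)| : ℝ) : ℂ) ^ (-z) *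
        ((|((κ : ℤ) : ℝ)| : ℝ) : ℂ) ^ (-z) := by
    rw [← mul_cpow_ofReal_nonneg (by positivity) hk.le, ← ofReal_mul, div_mul_cancel₀ _ hk.ne']
  simp only [hG, hK]
  rw [(c2 f hf κ κ.2).2, e]
  field_simp

theorem pFEx (hPER : PER) (hTKB : TKB) : FEx := by
  classical
  intro τ r hτ h0 h8 n hn
  have hν := sf_odd hn
  have hsf := sf_squarefree n
  choose g C hd h1 hb hr hl using fun e : ℕ => hPER (8 * sf n) (Phi (sf n) (τ * r * e))
    (by have := hν.pos; omega) (pd_Phi_per _ _)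
  set E : Finset ℕ → ℕ := fun s => ∏ p ∈ s, p with hE
  have hEo : ∀ s ∈ (PE n).powerset, Odd (E s) := fun s hs => fx_odd hn hs
  refine ⟨fun u => ∑ s ∈ (PE n).powerset, (-1) ^ s.card *
    ((J(τ * E s | sf n) : ℂ) * (E s : ℂ) ^ (-u) * g (E s) u),
    ∑ s ∈ (PE n).powerset, E s * C (E s), ?_, ?_, fun u hu => ?_, fun u hu => ?_, fun z hz => ?_⟩
  · refine Differentiable.fun_sum fun s hs => Differentiable.const_mul (Differentiable.mul
      (Differentiable.const_mul ?_ _) (hd _)) _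
    exact differentiable_id.neg.const_cpow (Or.inl (by exact_mod_cast (hEo s hs).pos.ne'))
  · have e2 : UV n 0 0 = T0 n := by
      rw [← hTKB.1 n hn, show (0 : ℤ) = 1 * ((0 : ℕ) : ℤ) ^ 2 by simp, UU_eq, ← loc_eq_TK]
      simp
    rw [← e2, fx_UV, mul_sum, sum_div]
    refine sum_congr rfl fun s hs => ?_
    rw [h1, pDFT _ _ 0 hν hsf, if_pos (dvd_zero _)]
    by_cases h : sf n = 1
    · simp [h, eg, w8_zero, hE]
      ring
    · have : J(0 | sf n) = 0 := jacobiSym.zero_left (by have := hν.pos; omega)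
      simp [this]
  · rw [sum_mul]
    refine (norm_sum_le _ _).trans (sum_le_sum fun s hs => ?_)
    have a1 : ‖(E s : ℂ) ^ (-u)‖ ≤ E s := by
      rw [norm_natCast_cpow_of_pos (hEo s hs).pos]
      conv_rhs => rw [← Real.rpow_one (E s)]
      exact Real.rpow_le_rpow_of_exponent_le (by exact_mod_cast (hEo s hs).pos)
        (by have := hu.1; simp; linarith)
    have a2 := mul_le_mul (norm_jac_le (τ * E s) (sf n)) a1 (norm_nonneg _) zero_le_one
    rw [norm_mul, norm_pow, norm_neg, norm_one, one_pow, one_mul, norm_mul, norm_mul, mul_assoc]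
    rw [one_mul] at a2
    rw [← mul_assoc, mul_assoc (E s : ℝ)]
    exact mul_le_mul a2 (hb _ u hu) (norm_nonneg _) (by positivity)
  · refine fx_cl hτ (F := fun k => (J(k | n) : ℂ) * ((|(k : ℝ)| : ℝ) : ℂ) ^ (-u)) ?_
    have h2 := hasSum_sum fun s hs => (fx_right h0 h8 hτ (hEo s hs) (hr (E s) u
      (by linarith))).mul_left ((-1) ^ s.card)
    simp only [← mul_div_assoc, ← sum_div] at h2
    refine h2.congr_fun fun m => ?_
    have e : |((τ * m : ℤ) : ℝ)| = m := by rcases hτ with e | e <;> subst e <;> simp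
    by_cases hc : m ≠ 0 ∧ (τ * m) % 8 = r
    · simp only [if_pos hc]
      rw [fx_jac hn.pos.ne', e, ofReal_natCast, mul_sum, sum_mul]
      refine sum_congr rfl fun s _ => ?_
      simp only [hE]
      split_ifs <;> ring
    · simp only [if_neg hc, mul_zero, sum_const_zero]
  · have h2 := hasSum_sum fun s hs => (fx_left τ r hν hsf (hEo s hs) (hl (E s) z
      (by linarith))).mul_left ((-1) ^ s.card)
    simp only [← mul_div_assoc, ← sum_div] at h2
    set K : ℂ := (8 : ℂ) ^ (z - 1) * (2 * π : ℂ) ^ (-z) * Gamma z with hK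
    have h3 := hasSum_sqfree (f := fun H : ℤ => if H = 0 then 0 else K * ph H z *
      (eg (sf n) * (J(-2 * τ | sf n) : ℂ)) * w8 (-(sf n * τ * r * H)) *
      ((|(H : ℝ)| : ℝ) : ℂ) ^ (-z) * UV n z H) (h2.congr_fun fun H => by
        by_cases hH : H = 0
        · simp [hH]
        · simp only [if_neg hH]
          rw [fx_UV, mul_sum, mul_sum]
          refine sum_congr rfl fun s _ => ?_
          simp only [hE]
          split_ifs <;> ring)
    rw [if_pos rfl, sub_zero] at h3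
    refine fx_twist hTKB hτ hn hz ?_
    have h4 := h3.prod_fiberwise (g := fun k : ℤ => if Squarefree k then K * riemannZeta (2 * z) *
      (ph k z * ((|(k : ℝ)| : ℝ) : ℂ) ^ (-z) * (Aq τ r (sf n) k z * Tk k z n)) else 0) fun k => by
      by_cases hk : Squarefree k
      · simp only [if_pos hk]
        have h5 := (fx_sq hn k (-(sf n * τ * r * k)) hz).mul_left (K * ph k z *
          (eg (sf n) * (J(-2 * τ | sf n) : ℂ)) * ((|(k : ℝ)| : ℝ) : ℂ) ^ (-z))
        rw [show K * riemannZeta (2 * z) * (ph k z * ((|(k : ℝ)| : ℝ) : ℂ) ^ (-z) *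
          (Aq τ r (sf n) k z * Tk k z n)) = K * ph k z * (eg (sf n) * (J(-2 * τ | sf n) : ℂ)) *
            ((|(k : ℝ)| : ℝ) : ℂ) ^ (-z) * (riemannZeta (2 * z) * Tk k z n *
              brk (-(sf n * τ * r * k)) z) by rw [Aq]; ring]
        refine h5.congr_fun fun j => ?_
        by_cases hj : j = 0
        · have : -(2 * z) ≠ 0 := fun h => by
            have := congrArg re h
            simp [hz] at this
          simp [hj, this]
        · have hj0 : (0 : ℤ) < (j : ℤ) ^ 2 := by positivity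
          have e1 : ph (k * (j : ℤ) ^ 2) z = ph k z := by
            unfold ph
            rw [Int.sign_mul, Int.sign_eq_one_of_pos hj0, mul_one]
          have e2 : ((|((k * (j : ℤ) ^ 2 : ℤ) : ℝ)| : ℝ) : ℂ) ^ (-z) =
              ((|(k : ℝ)| : ℝ) : ℂ) ^ (-z) * (j : ℂ) ^ (-(2 * z)) := by
            rw [show |((k * (j : ℤ) ^ 2 : ℤ) : ℝ)| = |(k : ℝ)| * ((j * j : ℕ) : ℝ) by
              push_cast; rw [abs_mul, abs_pow, sq_abs, sq], ofReal_mul,
              mul_cpow_ofReal_nonneg (abs_nonneg _) (by positivity), ofReal_natCast, Nat.cast_mul,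
              natCast_mul_natCast_cpow, ← cpow_add _ _ (by exact_mod_cast hj)]
            congr 2
            ring
          rw [if_neg hj, if_neg (mul_ne_zero hk.ne_zero hj0.ne'), e1, e2,
            show -(sf n * τ * r * (k * (j : ℤ) ^ 2)) = -(sf n * τ * r * k) * (j : ℤ) ^ 2 by ring]
          ring
      · simp only [if_neg hk]
        exact hasSum_zero
    have h6 := (hasSum_subtype_iff_indicator (s := {k : ℤ | Squarefree k})
      (f := fun k : ℤ => K * riemannZeta (2 * z) *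
      (ph k z * ((|(k : ℝ)| : ℝ) : ℂ) ^ (-z) * (Aq τ r (sf n) k z * Tk k z n)))).2
      (h4.congr_fun fun k => by simp [Set.indicator])
    exact h6

end Pool.Agent.Q4
end

-- part Pool.Agent.P.MP_ea46f5_nt.Q4.RFc
section

/-! Reflection of one variable of a pair form. -/

namespace Pool.Agent.Q4

open Complex MeasureTheory Finset
open scoped Real
open Pool.Agent.QM

theorem rf_gam (k : ℤ) : ‖(gam k : ℂ)‖ ≤ 1 := by
  unfold gam
  split_ifs <;> simp

theorem rf_par (k : ℤ) : par k ≤ 1 := by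
  unfold par
  split_ifs <;> simp

theorem rf_qk (k : ℤ) : |(k : ℝ)| ≤ qk k ∧ qk k ≤ 4 * |(k : ℝ)| := by
  have := abs_nonneg (k : ℝ)
  unfold qk disc
  split_ifs
  · exact ⟨le_rfl, by linarith⟩
  · push_cast
    rw [abs_mul, abs_of_pos (by norm_num : (0 : ℝ) < 4)]
    exact ⟨by linarith, le_rfl⟩

theorem rf_sq {Z : ℝ} {k : ℤ} (hk : k ∈ Sq Z) :
    Squarefree k ∧ k ≠ 1 ∧ Z / 2 < |(k : ℝ)| ∧ |(k : ℝ)| ≤ Z := by
  classical
  unfold Sq at hk
  exact (mem_filter.1 hk).2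

theorem rf_two (s : ℂ) : ‖(2 : ℂ) ^ s‖ = (2 : ℝ) ^ s.re := by
  simpa using norm_cpow_eq_rpow_re_of_pos (x := 2) (by norm_num) s

/-- The Euler factor at 2 is bounded below. -/
theorem rf_den {γ : ℂ} (hγ : ‖γ‖ ≤ 1) {s : ℂ} (hs : 1 / 4 ≤ s.re) :
    1 / 7 ≤ ‖1 - γ * (2 : ℂ) ^ (-s)‖ := by
  have h1 : (2 : ℝ) ^ (-s).re ≤ 6 / 7 := by
    refine (Real.rpow_le_rpow_of_exponent_le (by norm_num) (show (-s).re ≤ -(1 / 4) by
      simpa using hs)).trans ?_
    refine (pow_le_pow_iff_left₀ (by positivity) (by norm_num) (by norm_num : 4 ≠ 0)).1 ?_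
    rw [← Real.rpow_natCast, ← Real.rpow_mul (by norm_num)]
    norm_num
  have h2 : ‖γ * (2 : ℂ) ^ (-s)‖ ≤ 6 / 7 := by
    rw [norm_mul, rf_two]
    exact (mul_le_of_le_one_left (by positivity) hγ).trans h1
  have := norm_sub_norm_le (1 : ℂ) (γ * (2 : ℂ) ^ (-s))
  rw [norm_one] at this
  linarith

theorem rf_den_ne {γ : ℂ} (hγ : ‖γ‖ ≤ 1) {s : ℂ} (hs : 1 / 4 ≤ s.re) :
    1 - γ * (2 : ℂ) ^ (-s) ≠ 0 := fun h => by
  have := rf_den hγ hs
  rw [h, norm_zero] at this
  linarith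

theorem rf_num {γ : ℂ} (hγ : ‖γ‖ ≤ 1) {s : ℂ} (hs : -3 ≤ s.re) : ‖1 - γ * (2 : ℂ) ^ (-s)‖ ≤ 9 := by
  have h1 : (2 : ℝ) ^ (-s).re ≤ 8 := by
    refine (Real.rpow_le_rpow_of_exponent_le (by norm_num) (show (-s).re ≤ 3 by
      simp; linarith)).trans ?_
    norm_num
  refine (norm_sub_le _ _).trans ?_
  rw [norm_one, norm_mul, rf_two]
  linarith [mul_le_of_le_one_left (by positivity : 0 ≤ (2 : ℝ) ^ (-s).re) hγ]

/-- The functional equation solved for the reflected value. -/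
theorem rf_fe (hFE : FE1) {k : ℤ} (hk : Squarefree k) (hk1 : k ≠ 1) {u : ℂ} (hu : u.re = 0) :
    Lo k (1 / 2 + -u) = cexp (Real.log (qk k) * u) * xi (par k) u *
      ((1 - gam k * (2 : ℂ) ^ (-(1 / 2 - u))) / (1 - gam k * (2 : ℂ) ^ (-(1 / 2 + u)))) *
      Lo k (1 / 2 + u) := by
  have h := hFE k hk hk1 (1 / 2 + u) (by simp [hu]) (by simp [hu]; norm_num)
  have hq : 0 < qk k := lt_of_lt_of_le (abs_pos.2 (by exact_mod_cast hk.ne_zero)) (rf_qk k).1
  have e : ∀ s : ℂ, (qk k : ℂ) ^ s = cexp (Real.log (qk k) * s) := fun s => by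
    rw [cpow_def_of_ne_zero (by exact_mod_cast hq.ne'), ofReal_log hq.le]
  have e1 : (1 : ℂ) - (1 / 2 + u) = 1 / 2 - u := by ring
  have e2 : cexp (Real.log (qk k) * ((1 / 2 + u) / 2)) =
      cexp (Real.log (qk k) * u) * cexp (Real.log (qk k) * ((1 / 2 - u) / 2)) := by
    rw [← Complex.exp_add]; congr 1; ring
  have n1 := rf_den_ne (rf_gam k) (s := 1 / 2 - u) (by simp [hu]; norm_num)
  have n2 := rf_den_ne (rf_gam k) (s := 1 / 2 + u) (by simp [hu]; norm_num)
  have n3 : Gammaℝ (1 / 2 + par k - u) ≠ 0 :=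
    Gammaℝ_ne_zero_of_re_pos (by simp [hu]; positivity)
  have n4 := Complex.exp_ne_zero (Real.log (qk k) * ((1 / 2 - u) / 2))
  rw [Lam, Lam, Lf, Lf, e1, e, e, e2, add_right_comm (1 / 2 : ℂ) u, sub_add_eq_add_sub] at h
  rw [← sub_eq_add_neg, xi]
  generalize 1 - gam k * (2 : ℂ) ^ (-(1 / 2 - u)) = d1 at h n1 ⊢
  generalize 1 - gam k * (2 : ℂ) ^ (-(1 / 2 + u)) = d2 at h n2 ⊢
  generalize Gammaℝ (1 / 2 + par k - u) = g1 at h n3 ⊢
  generalize cexp (Real.log (qk k) * ((1 / 2 - u) / 2)) = q at h n4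
  generalize Gammaℝ (1 / 2 + par k + u) = g2 at h ⊢
  generalize Lo k (1 / 2 - u) = a at h ⊢
  generalize Lo k (1 / 2 + u) = b at h ⊢
  generalize cexp (Real.log (qk k) * u) = r at h ⊢
  field_simp at h ⊢
  linear_combination h

theorem rf_pw_norm (κ t v y : ℝ) : ‖pw κ t v (y * I)‖ ≤ br y ^ 3 * Real.exp (-(κ * (y - t) ^ 2)) := by
  have h1 : ‖(y * I : ℂ)‖ ≤ br y := by simp [br]
  have h2 : ‖((y * I : ℂ)) ^ 2 - 1 / 4‖ ≤ br y ^ 2 := by
    refine (norm_sub_le _ _).trans ?_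
    have : ‖(1 / 4 : ℂ)‖ = 1 / 4 := by simp
    rw [this, norm_pow]
    simp only [norm_mul, norm_real, Real.norm_eq_abs, norm_I, mul_one, br]
    nlinarith [abs_nonneg y]
  have h3 : (κ * (y * I - t * I) ^ 2 + v * (y * I) : ℂ).re = -(κ * (y - t) ^ 2) := by
    simp only [sq, add_re, sub_re, mul_re, mul_im, sub_im, ofReal_re, ofReal_im, I_re, I_im]
    ring
  rw [pw, norm_mul, norm_mul, Complex.norm_exp, h3, pow_succ' (br y) 2]
  have := sh_br_pos y
  gcongr

/-- Integrability of the packets on the critical line. -/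
theorem rf_lc (hLOP : LOP) (hLOB : LOB) {κ : ℝ} (hκ : 0 < κ) (t v : ℝ) {k : ℤ} (hk : Squarefree k)
    (hk1 : k ≠ 1) (n : ℕ) : Lc 0 fun u => u ^ n * (pw κ t v u * Lo k (1 / 2 + u)) := by
  obtain ⟨C, hC, hg⟩ := tc_gauss hκ (n + 6)
  have hc := (hLOP.2.1 k hk hk1).continuous
  simp only [Lc, ofReal_zero, zero_add]
  refine ((pDEC.2.2.2.1.1.comp_sub_right t).const_mul (8 * |(k : ℝ)| * br t ^ (n + 4) * C)).mono'
    (Continuous.aestronglyMeasurable (by unfold pw; fun_prop)) (.of_forall fun y => ?_)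
  have h1 : ‖(y * I : ℂ)‖ ≤ br y := by simp [br]
  have h2 : ‖Lo k (1 / 2 + y * I)‖ ≤ 8 * |(k : ℝ)| * br y := by
    refine (hLOB k _ hk hk1 (by simp)).trans ?_
    have := tc_norm (s := 1 / 2 + y * I) le_rfl (by simp; norm_num)
    simp only [add_re, add_im, mul_re, mul_im, ofReal_re, ofReal_im, I_re, I_im, div_ofNat_re,
      div_ofNat_im, one_re, one_im, mul_zero, mul_one, sub_self, add_zero, zero_div, zero_add,
      one_mul] at this ⊢
    nlinarith [abs_nonneg (k : ℝ)]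
  have h3 : br y ≤ br (y - t) * br t := by simpa using tc_brm (y - t) t
  have b1 := sh_br_pos y
  have b2 := sh_br_pos (y - t)
  have b3 := sh_br_pos t
  rw [norm_mul, norm_mul, norm_pow]
  calc _ ≤ br y ^ n * (br y ^ 3 * Real.exp (-(κ * (y - t) ^ 2)) * (8 * |(k : ℝ)| * br y)) := by
        gcongr
        exact rf_pw_norm _ _ _ _
    _ = 8 * |(k : ℝ)| * br y ^ (n + 4) * Real.exp (-(κ * (y - t) ^ 2)) := by ring
    _ ≤ 8 * |(k : ℝ)| * (br (y - t) * br t) ^ (n + 4) * Real.exp (-(κ * (y - t) ^ 2)) := by gcongr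
    _ = 8 * |(k : ℝ)| * br t ^ (n + 4) * (br (y - t) ^ (n + 6) * Real.exp (-(κ * (y - t) ^ 2))) *
          (1 / br (y - t) ^ 2) := by field_simp; ring
    _ ≤ _ := by gcongr; exact hg _

theorem rf_pr {c : ℝ} {f : ℂ → ℂ} (g : ℂ → ℂ) (h0 : Lc c f) (h2 : Lc c fun u => u ^ 2 * f u) :
    Lc c (fun u => f u * (u ^ 2 * Iv c g - Iv c fun u => u ^ 2 * g u)) ∧
      pr c f g = Iv c fun u => f u * (u ^ 2 * Iv c g - Iv c fun u => u ^ 2 * g u) := by
  have e : (fun u => f u * (u ^ 2 * Iv c g - Iv c fun u => u ^ 2 * g u)) =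
      fun u => u ^ 2 * f u * Iv c g - f u * Iv c fun u => u ^ 2 * g u := by
    funext u; ring
  rw [e]
  refine ⟨(Integrable.mul_const h2 _).sub (Integrable.mul_const h0 _), ?_⟩
  rw [pr]
  generalize Iv c g = B
  generalize (Iv c fun u => u ^ 2 * g u) = A
  unfold Iv
  rw [integral_sub (Integrable.mul_const h2 _) (Integrable.mul_const h0 _), integral_mul_const,
    integral_mul_const]

theorem rf_neg (f : ℂ → ℂ) : Iv 0 f = Iv 0 fun u => f (-u) := by
  unfold Iv
  rw [← integral_neg_eq_self]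
  simp

/-- The factor produced by the reflection. -/
noncomputable def rfR (κ t l : ℝ) (a : ℕ) (γ : ℂ) (u : ℂ) : ℂ :=
  -(cexp ((κ / 2 : ℝ) * (u + t * I) ^ 2 + l * u) * xi a u *
    ((1 - γ * (2 : ℂ) ^ (-(1 / 2 - u))) / (1 - γ * (2 : ℂ) ^ (-(1 / 2 + u)))))

theorem rf1_core (hFE : FE1) (hLOP : LOP) (hLOB : LOB) {c : ℕ} {C : ℝ} (hC : 0 < C)
    (hx : ∀ a : ℕ, a ≤ 1 → ∀ u ∈ Strip (-(1 / 4)) 3,
      DifferentiableAt ℂ (xi a) u ∧ ‖xi a u‖ ≤ C * br u.im ^ c)
    {κ : ℝ} (hκ : Kp κ) : ∃ C' : ℝ, 0 < C' ∧ ∀ (t v κ' t' v' Z : ℝ) (k : ℤ), 1 ≤ Z → k ∈ Sq Z →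
      Integrable (fun w => Ew w * ‖Pk (κ / 2) (-t) (Real.log Z - v + w) κ' t' v' k‖) ∧
      ‖Pk κ t v κ' t' v' k‖ ≤ C' * br t ^ c *
        ∫ w, Ew w * ‖Pk (κ / 2) (-t) (Real.log Z - v + w) κ' t' v' k‖ := by
  have hκ2 : 0 < κ / 2 := by linarith [hκ.1]
  obtain ⟨G, hG, hg⟩ := tc_gauss hκ2 (c + 2)
  refine ⟨Real.exp 14 * C * 63 * G, by positivity, fun t v κ' t' v' Z k hZ hk => ?_⟩
  obtain ⟨hk0, hk1, hk2, hk3⟩ := rf_sq hk
  have hq := rf_qk k
  have hq0 : 0 < qk k := by linarith [hq.1]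
  set l := Real.log (qk k) - Real.log Z with hl
  have hl3 : |l| ≤ 3 := by
    rw [hl, ← Real.log_div hq0.ne' (by linarith), abs_le]
    have h1 : qk k / Z ≤ 4 := by rw [div_le_iff₀ (by linarith)]; linarith [hq.2]
    have h2 : 1 / 2 ≤ qk k / Z := by rw [le_div_iff₀ (by linarith)]; linarith [hq.1]
    have h3 := Real.one_sub_inv_le_log_of_pos (show 0 < qk k / Z by linarith)
    have h4 : (qk k / Z)⁻¹ ≤ 2 := by rw [inv_le_comm₀ (by linarith) (by norm_num)]; linarith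
    exact ⟨by linarith, by linarith [Real.log_le_sub_one_of_pos (show 0 < qk k / Z by linarith)]⟩
  have hd : ∀ u ∈ Strip (-(1 / 4)) 3, 1 / 4 ≤ (1 / 2 + u : ℂ).re := fun u hu => by
    have := hu.1
    simp only [add_re, div_ofNat_re, one_re]
    linarith
  have hD : ∀ u ∈ Strip (-(1 / 4)) 3, DifferentiableAt ℂ (rfR κ t l (par k) (gam k)) u := by
    intro u hu
    have h1 := (hx _ (rf_par k) u hu).1
    have h2 := rf_den_ne (rf_gam k) (hd u hu)
    unfold rfR
    fun_prop (disch := first | assumption | simp)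
  have hN : Nice (-(1 / 4)) 3 (rfR κ t l (par k) (gam k)) :=
    ⟨fun u hu => (hD u hu).continuousAt.continuousWithinAt,
      fun u hu => (hD u ⟨hu.1.le, hu.2.le⟩).differentiableWithinAt⟩
  have hB : ∀ u ∈ Strip (-(1 / 4)) 3, ‖rfR κ t l (par k) (gam k) u‖ ≤
      Real.exp 14 * C * 63 * G * br t ^ c / br (u.im - -t) ^ 2 := by
    intro u hu
    set x := u.im - -t with hxx
    have h1 : ‖cexp ((κ / 2 : ℝ) * (u + t * I) ^ 2 + l * u)‖ ≤
        Real.exp 14 * Real.exp (-(κ / 2 * x ^ 2)) := by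
      have e : ((κ / 2 : ℝ) * (u + t * I) ^ 2 + l * u : ℂ).re =
          κ / 2 * u.re ^ 2 + l * u.re - κ / 2 * x ^ 2 := by
        simp only [sq, add_re, mul_re, mul_im, add_im, ofReal_re, ofReal_im, I_re, I_im, hxx]
        ring
      have a1 : |u.re| ≤ 3 := abs_le.2 ⟨by linarith [hu.1], hu.2⟩
      have a2 : u.re ^ 2 ≤ 9 := by rw [← sq_abs]; nlinarith [abs_nonneg u.re]
      have a3 : l * u.re ≤ 9 := by
        refine (le_abs_self _).trans ?_
        rw [abs_mul]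
        nlinarith [abs_nonneg u.re, abs_nonneg l]
      rw [Complex.norm_exp, e, ← Real.exp_add, Real.exp_le_exp]
      nlinarith [hκ.1, hκ.2, sq_nonneg u.re]
    have h2 := (hx _ (rf_par k) u hu).2
    have h3 := rf_num (rf_gam k) (s := 1 / 2 - u) (by
      have := hu.2
      simp only [sub_re, div_ofNat_re, one_re]
      linarith)
    have h4 := rf_den (rf_gam k) (hd u hu)
    have h5 : br u.im ≤ br x * br t := by simpa [hxx, br] using tc_brm x (-t)
    have b1 := sh_br_pos u.im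
    have b2 := sh_br_pos x
    have b3 := sh_br_pos t
    rw [rfR, norm_neg, norm_mul, norm_mul, norm_div]
    calc _ ≤ Real.exp 14 * Real.exp (-(κ / 2 * x ^ 2)) * (C * (br x * br t) ^ c) * (9 / (1 / 7)) := by
          gcongr
          exact h2.trans (by gcongr)
      _ = Real.exp 14 * C * 63 * (br x ^ (c + 2) * Real.exp (-(κ / 2 * x ^ 2))) * br t ^ c /
            br x ^ 2 := by field_simp; ring
      _ ≤ _ := by gcongr; exact hg x
  have lc0 : ∀ {κ : ℝ}, 0 < κ → ∀ t v : ℝ, Lc 0 fun u => pw κ t v u * Lo k (1 / 2 + u) :=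
    fun h t v => by simpa using rf_lc hLOP hLOB h t v hk0 hk1 0
  have hp := fun {κ : ℝ} (h : 0 < κ) (t v : ℝ) =>
    rf_pr (fun u => pw κ' t' v' u * Lo k (1 / 2 + u)) (lc0 h t v) (rf_lc hLOP hLOB h t v hk0 hk1 2)
  have key := rep1_core (δ := 1 / 4) (by norm_num) le_rfl (by norm_num) hN hB
    (hp hκ2 (-t) (Real.log Z - v)).1
  unfold Pk
  simp only [(hp hκ2 _ _).2, (hp hκ.1 _ _).2]
  generalize (Iv 0 fun u => pw κ' t' v' u * Lo k (1 / 2 + u)) = B at key ⊢
  generalize (Iv 0 fun u => u ^ 2 * (pw κ' t' v' u * Lo k (1 / 2 + u))) = A at key ⊢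
  have e1 : ∀ w : ℝ, (fun u => pw (κ / 2) (-t) (Real.log Z - v + w) u * Lo k (1 / 2 + u) *
      (u ^ 2 * B - A)) = fun u => pw (κ / 2) (-t) (Real.log Z - v) u * Lo k (1 / 2 + u) *
      (u ^ 2 * B - A) * cexp (w * u) := fun w => by
    funext u
    simp only [pw, ofReal_add, add_mul, ← add_assoc, Complex.exp_add]
    ring
  simp only [e1, ← rE_eq_Ew]
  refine ⟨key.2.1, le_trans (le_of_eq ?_) key.2.2⟩
  rw [rf_neg]
  congr 1
  refine integral_congr_ae (.of_forall fun y => ?_)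
  have hu : (((0 : ℝ) : ℂ) + y * I).re = 0 := by simp
  beta_reduce
  generalize ((0 : ℝ) : ℂ) + y * I = u at hu ⊢
  have e2 : cexp (κ * (-u - t * I) ^ 2 + v * -u) * cexp (Real.log (qk k) * u) =
      cexp ((κ / 2 : ℝ) * (u + t * I) ^ 2 + l * u) *
        cexp ((κ / 2 : ℝ) * (u - (-t : ℝ) * I) ^ 2 + (Real.log Z - v : ℝ) * u) := by
    rw [← Complex.exp_add, ← Complex.exp_add, hl]
    congr 1
    push_cast
    ring
  simp only [rf_fe hFE hk0 hk1 hu, pw, rfR]
  linear_combination (-u * (u ^ 2 - 1 / 4) * xi (par k) u * Lo k (1 / 2 + u) * (u ^ 2 * B - A) *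
    ((1 - gam k * (2 : ℂ) ^ (-(1 / 2 - u))) / (1 - gam k * (2 : ℂ) ^ (-(1 / 2 + u))))) * e2

end Pool.Agent.Q4
end

-- part Pool.Agent.P.MP_ea46f5_nt.Q4.TBa
section

/-! The Cauchy determinant bound. -/

namespace Pool.Agent.Q4

open Complex MeasureTheory Finset Pool.Agent.QM
open scoped Real

theorem tb_den {e : ℝ} (_he : 0 < e) {w : ℂ} (h : e ≤ |w.re|) : (e + |w.im|) / 2 ≤ ‖w‖ := by
  linarith [Complex.abs_re_le_norm w, Complex.abs_im_le_norm w]

theorem tb_ne {e : ℝ} (he : 0 < e) {w : ℂ} (h : e ≤ |w.re|) : w ≠ 0 := by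
  rintro rfl
  simp at h
  linarith

theorem tb_cau {e : ℝ} (he : 0 < e) (x : V4) (h : ∀ i j, i ≠ j → e ≤ |(x i + x j).re|) :
    ‖(x 0 - x 1) * (x 2 - x 3) / ((x 0 + x 2) * (x 0 + x 3) * (x 1 + x 2) * (x 1 + x 3))‖ ≤
      4 * (1 / ((e + |(x 0 + x 2).im|) * (e + |(x 1 + x 3).im|)) +
        1 / ((e + |(x 0 + x 3).im|) * (e + |(x 1 + x 2).im|))) := by
  have n := fun i j hij => tb_ne he (h i j hij)
  have d := fun i j hij => tb_den he (h i j hij)
  have n02 := n 0 2 (by decide)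
  have n03 := n 0 3 (by decide)
  have n12 := n 1 2 (by decide)
  have n13 := n 1 3 (by decide)
  have e1 : (x 0 - x 1) * (x 2 - x 3) / ((x 0 + x 2) * (x 0 + x 3) * (x 1 + x 2) * (x 1 + x 3)) =
      1 / ((x 0 + x 2) * (x 1 + x 3)) - 1 / ((x 0 + x 3) * (x 1 + x 2)) := by
    field_simp
    ring
  have k : ∀ a b : ℂ, (e + |a.im|) / 2 ≤ ‖a‖ → (e + |b.im|) / 2 ≤ ‖b‖ →
      ‖1 / (a * b)‖ ≤ 4 * (1 / ((e + |a.im|) * (e + |b.im|))) := fun a b ha hb => by
    have pa : 0 < e + |a.im| := by positivity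
    have pb : 0 < e + |b.im| := by positivity
    rw [norm_div, norm_one, norm_mul]
    calc _ ≤ 1 / ((e + |a.im|) / 2 * ((e + |b.im|) / 2)) := by gcongr
      _ = _ := by field_simp; norm_num
  rw [e1, mul_add 4]
  exact (norm_sub_le _ _).trans (add_le_add (k _ _ (d 0 2 (by decide)) (d 1 3 (by decide)))
    (k _ _ (d 0 3 (by decide)) (d 1 2 (by decide))))

/-- The common shape of the diagonal and of the flips. -/
theorem tb_core (hLo : ∀ w : ℂ, w ≠ 0 → Lo 1 (1 + w) = lz w / w) {C : ℝ} (hC : 1 ≤ C)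
    (hlz : ∀ w : ℂ, -(3 / 4) ≤ w.re → w.re ≤ 29 → ‖lz w‖ ≤ C * br w.im ^ 2)
    {e : ℝ} (he : 0 < e) (x : V4) (S : Finset (Fin 4)) (hx : ∀ j, |(x j).re| ≤ 1 / 4)
    (h0 : ∀ j, x j ≠ 0) (h : ∀ i j, i ≠ j → e ≤ |(x i + x j).re|) :
    ‖an x * (∏ j ∈ S, x j * Lo 1 (1 + x j + x j)) * (Lo 1 (1 + x 0 + x 1) * Lo 1 (1 + x 0 + x 2) *
        Lo 1 (1 + x 0 + x 3) * Lo 1 (1 + x 1 + x 2) * Lo 1 (1 + x 1 + x 3) *
        Lo 1 (1 + x 2 + x 3))‖ ≤ 4 * C ^ 10 * gn 1 x ^ 40 *
      (1 / ((e + |(x 0 + x 2).im|) * (e + |(x 1 + x 3).im|)) +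
        1 / ((e + |(x 0 + x 3).im|) * (e + |(x 1 + x 2).im|))) := by
  set G := gn 1 x with hG
  have hG1 : 1 ≤ G := (tc_br1 _).trans (tc_gn x 0)
  have hB : 1 ≤ C * G ^ 4 := one_le_mul_of_one_le_of_one_le hC (one_le_pow₀ hG1)
  have hl : ∀ i j, ‖lz (x i + x j)‖ ≤ C * G ^ 4 := fun i j => by
    have a := abs_le.1 (hx i)
    have b := abs_le.1 (hx j)
    refine (hlz _ (by rw [add_re]; linarith) (by rw [add_re]; linarith)).trans ?_
    have : br (x i + x j).im ^ 2 ≤ (G ^ 2) ^ 2 :=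
      pow_le_pow_left₀ (by linarith [tc_br1 (x i + x j).im]) (tc_pair x i j) 2
    calc _ ≤ C * (G ^ 2) ^ 2 := by gcongr
      _ = _ := by ring
  have hd : ‖∏ j ∈ S, x j * Lo 1 (1 + x j + x j)‖ ≤ (C * G ^ 4) ^ 4 := by
    rw [norm_prod]
    calc _ ≤ ∏ _j ∈ S, C * G ^ 4 := by
          refine prod_le_prod (fun _ _ => norm_nonneg _) fun j _ => ?_
          have hn : x j + x j ≠ 0 := by rw [← two_mul]; exact mul_ne_zero two_ne_zero (h0 j)
          have e1 : x j * Lo 1 (1 + x j + x j) = lz (x j + x j) / 2 := by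
            have := h0 j
            rw [add_assoc, hLo _ hn, ← two_mul]; field_simp
          rw [e1, norm_div, Complex.norm_ofNat]
          linarith [hl j j, norm_nonneg (lz (x j + x j))]
      _ = (C * G ^ 4) ^ S.card := by simp
      _ ≤ _ := pow_le_pow_right₀ hB (by simpa using card_le_univ S)
  have n := fun i j hij => tb_ne he (h i j hij)
  have n01 := n 0 1 (by decide)
  have n02 := n 0 2 (by decide)
  have n03 := n 0 3 (by decide)
  have n12 := n 1 2 (by decide)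
  have n13 := n 1 3 (by decide)
  have n23 := n 2 3 (by decide)
  have e1 : an x * (∏ j ∈ S, x j * Lo 1 (1 + x j + x j)) * (Lo 1 (1 + x 0 + x 1) *
        Lo 1 (1 + x 0 + x 2) * Lo 1 (1 + x 0 + x 3) * Lo 1 (1 + x 1 + x 2) * Lo 1 (1 + x 1 + x 3) *
        Lo 1 (1 + x 2 + x 3)) = (∏ j ∈ S, x j * Lo 1 (1 + x j + x j)) *
      (lz (x 0 + x 1) * lz (x 0 + x 2) * lz (x 0 + x 3) * lz (x 1 + x 2) * lz (x 1 + x 3) *
        lz (x 2 + x 3)) *
      ((x 0 - x 1) * (x 2 - x 3) / ((x 0 + x 2) * (x 0 + x 3) * (x 1 + x 2) * (x 1 + x 3))) := by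
    generalize (∏ j ∈ S, x j * Lo 1 (1 + x j + x j)) = P
    simp only [add_assoc]
    rw [hLo _ n01, hLo _ n02, hLo _ n03, hLo _ n12, hLo _ n13, hLo _ n23]
    unfold an
    field_simp
    ring
  rw [e1, norm_mul, norm_mul]
  have hc := tb_cau he x h
  calc _ ≤ (C * G ^ 4) ^ 4 * (C * G ^ 4 * (C * G ^ 4) * (C * G ^ 4) * (C * G ^ 4) * (C * G ^ 4) *
        (C * G ^ 4)) * (4 * (1 / ((e + |(x 0 + x 2).im|) * (e + |(x 1 + x 3).im|)) +
        1 / ((e + |(x 0 + x 3).im|) * (e + |(x 1 + x 2).im|)))) := by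
        simp only [norm_mul]
        gcongr <;> apply hl
    _ = _ := by ring

theorem tb_ZO (hLo : ∀ w : ℂ, w ≠ 0 → Lo 1 (1 + w) = lz w / w) {C : ℝ} (hC : 1 ≤ C)
    (hlz : ∀ w : ℂ, -(3 / 4) ≤ w.re → w.re ≤ 29 → ‖lz w‖ ≤ C * br w.im ^ 2)
    {e : ℝ} (he : 0 < e) (u : V4) (hu : ∀ j, e ≤ (u j).re ∧ (u j).re ≤ 1 / 4) :
    ‖an u * (∏ j, u j) * ZO u‖ ≤ 4 * C ^ 10 * gn 1 u ^ 40 * cm e (cs 1) fun j => (u j).im := by
  have h := tb_core hLo hC hlz he u univ
    (fun j => by rw [abs_le]; constructor <;> linarith [hu j])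
    (fun j => tb_ne he ((hu j).1.trans (le_abs_self _)))
    (fun i j _ => by rw [add_re]; linarith [hu i, hu j, le_abs_self ((u i).re + (u j).re)])
  have e1 : an u * (∏ j, u j) * ZO u = an u * (∏ j, u j * Lo 1 (1 + u j + u j)) *
      (Lo 1 (1 + u 0 + u 1) * Lo 1 (1 + u 0 + u 2) * Lo 1 (1 + u 0 + u 3) * Lo 1 (1 + u 1 + u 2) *
        Lo 1 (1 + u 1 + u 3) * Lo 1 (1 + u 2 + u 3)) := by
    unfold ZO
    rw [tc_prod fun i j => Lo 1 (1 + u i + u j)]
    simp only [Fin.prod_univ_four]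
    ring
  rw [e1]
  simpa [cm, cs] using h

theorem tb_FZ (hLo : ∀ w : ℂ, w ≠ 0 → Lo 1 (1 + w) = lz w / w) {C : ℝ} (hC : 1 ≤ C)
    (hlz : ∀ w : ℂ, -(3 / 4) ≤ w.re → w.re ≤ 29 → ‖lz w‖ ≤ C * br w.im ^ 2)
    {e : ℝ} (he : 0 < e) (u : V4) (hu : ∀ j, e ≤ (u j).re ∧ (u j).re ≤ 1 / 4) (i : Fin 4)
    (hi : ∀ j, j ≠ i → e ≤ |(u j).re - (u i).re|) :
    ‖an u * (∏ j ∈ univ.erase i, u j) * FZ i u‖ ≤
      4 * C ^ 10 * gn 1 u ^ 40 * cm e (sgi i) fun j => (u j).im := by
  set x : V4 := fun j => (sgi i j : ℝ) * u j with hx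
  have xi : x i = -u i := by simp [hx, sgi]
  have xj : ∀ j, j ≠ i → x j = u j := fun j hj => by simp [hx, sgi, hj]
  have hs : ∀ j, x j = u j ∨ x j = -u j := fun j => by
    by_cases hj : j = i
    · right; rw [hj, xi]
    · left; exact xj j hj
  have h := tb_core hLo hC hlz he x (univ.erase i)
    (fun j => by
      have hj : |(u j).re| ≤ 1 / 4 := by rw [abs_le]; constructor <;> linarith [hu j]
      rcases hs j with h | h <;> rw [h]
      · exact hj
      · rwa [neg_re, abs_neg])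
    (fun j => by
      have := tb_ne he ((hu j).1.trans (le_abs_self _))
      rcases hs j with h | h <;> rw [h] <;> simpa using this)
    (fun a b hab => by
      by_cases ha : a = i
      · have hb : b ≠ i := fun hb => hab (ha.trans hb.symm)
        rw [ha, xi, xj b hb, add_re, neg_re, neg_add_eq_sub]
        exact hi b hb
      · by_cases hb : b = i
        · rw [hb, xi, xj a ha, add_re, neg_re, ← sub_eq_add_neg]
          exact hi a ha
        · rw [xj a ha, xj b hb, add_re]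
          linarith [hu a, hu b, le_abs_self ((u a).re + (u b).re)])
  have eg : gn 1 x = gn 1 u := by
    unfold gn
    refine prod_congr rfl fun j _ => ?_
    rcases hs j with h | h <;> rw [h]
    simp [br]
  have ei : ∀ a b, (x a + x b).im = sgi i a * (u a).im + sgi i b * (u b).im := fun a b => by
    simp [hx]
  have e1 : an u * (∏ j ∈ univ.erase i, u j) * FZ i u =
      an x * (∏ j ∈ univ.erase i, x j * Lo 1 (1 + x j + x j)) *
      (Lo 1 (1 + x 0 + x 1) * Lo 1 (1 + x 0 + x 2) * Lo 1 (1 + x 0 + x 3) * Lo 1 (1 + x 1 + x 2) *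
        Lo 1 (1 + x 1 + x 3) * Lo 1 (1 + x 2 + x 3)) := by
    have h0 : Ici (0 : Fin 4) = {0, 1, 2, 3} := by decide
    have h1 : Ici (1 : Fin 4) = {1, 2, 3} := by decide
    have h2 : Ici (2 : Fin 4) = {2, 3} := by decide
    have h3 : Ici (3 : Fin 4) = {3} := by decide
    have u0 : (univ : Finset (Fin 4)) = {0, 1, 2, 3} := by decide
    have f : ∀ a b : ℂ, 1 + -a + b = 1 + (b - a) := fun a b => by ring
    have g : ∀ a b : ℂ, 1 + a + -b = 1 + (a - b) := fun a b => by ring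
    unfold FZ ZX an
    fin_cases i <;> simp [hx, sgi, u0, h0, h1, h2, h3, erase_insert_of_ne, f, g] <;> ring
  rw [e1]
  simpa only [cm, eg, ei] using h

end Pool.Agent.Q4
end
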