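import Pool.Agent.K.MP_ea46f5_nt.C29
import Pool.Agent.K.MP_ea46f5_nt.C23
import Pool.Agent.K.MP_ea46f5_nt.C13
import Pool.Agent.K.MP_ea46f5_nt.C24
import Pool.Agent.K.MP_ea46f5_nt.C26
import Pool.Agent.K.MP_ea46f5_nt.C4
import Pool.Agent.K.MP_ea46f5_nt.C27

-- part Pool.Agent.P.MP_ea46f5_nt.Q4.FDG
section

namespace Pool.Agent.Q4

open Complex MeasureTheory Finset
open scoped Real
open Pool.Agent.QM

theorem pDG (hZB : ZB) (hH : HB4) (hE41 : E41) : DG := by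
  obtain ⟨C, n, hC, z1, -, -, -, z5, z6⟩ := hZB
  obtain ⟨D, B, -, hH⟩ := hH
  refine ⟨2 + n, fun Y c0 ε M h0 h1 hc hb => ?_⟩
  obtain ⟨-, H1, H2, -⟩ := hH Y
  have hp : ∀ u ∈ Bx ε 12, ∀ j, 0 < (u j).re := fun u hu j => h0.trans_le (hu j).1
  have hV : ∀ u ∈ Bx ε 12, ((0 : ℂ), u) ∈ V1 := fun u hu =>
    ⟨by norm_num, by norm_num, fun j => by
      have := hp u hu j
      constructor <;> simp <;> linarith⟩
  rw [← pSDn 4 (cs ε) (cs 12) (cs 12) (cs ε) (M * (C / ε ^ 10) * (D * Y ^ B))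
    (fun u => c0 u * (ZO u * Hone Y 0 u))
    (fun _ => ⟨by unfold cs; linarith, le_rfl⟩) (fun _ => ⟨le_rfl, by unfold cs; linarith⟩)
    (k1_sep fun u hu => (hc u hu).mul ((z1 u (hp u hu)).mul
      ((H1 _ (hV u hu)).comp u (f := fun u => ((0 : ℂ), u)) (by fun_prop)))) fun u hu => ?_]
  · refine k1_In_congr fun u hu => ?_
    rw [hE41 Y 0 u le_rfl (by norm_num) hu, (z6 u fun j => by rw [hu j]; norm_num [cs]).1]
  · have g1 := hb u hu
    have g2 := (z5 ε h0 h1 u hu).1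
    have g3 := H2 _ (hV u hu)
    rw [norm_mul, norm_mul]
    refine (mul_le_mul g1 (mul_le_mul g2 g3 (norm_nonneg _) ((norm_nonneg _).trans g2))
      (by positivity) ((norm_nonneg _).trans g1)).trans (le_of_eq ?_)
    rw [show dk u = dn 2 u from rfl, ← k1_gn_dn 2 n u]
    ring

theorem pDSH (hLOP : LOP) (hLOB : LOB) (hZB : ZB) (hH : HB4) (hE : E4k) : DSH := by
  obtain ⟨C, n, hC, -, -, z3, z4, -⟩ := hZB
  obtain ⟨D, B, -, hH⟩ := hH
  refine ⟨2 + (n + 1), fun Y k z W M hk h1 hz hz' hW hb => ?_⟩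
  obtain ⟨H1, H2⟩ := (hH Y).1 k
  have hk0 : k ≠ 0 := hk.ne_zero
  set r : V4 → V4 := fun u j => u j - (z - 1 / 2) with hr
  have e1 : ∀ u, sh z (r u) = u := fun u => by funext j; simp [sh, hr]
  have e2 : ∀ s, r (sh z s) = s := fun s => by funext j; simp [sh, hr]
  have hre : ∀ u j, (r u j).re = (u j).re - (z.re - 1 / 2) := fun u j => by simp [hr]
  have him : ∀ u j, (r u j).im = (u j).im - z.im := fun u j => by simp [hr]
  have hB : ∀ u ∈ Bx (z.re - 1 / 2) 12, r u ∈ Bx 0 12 := fun u hu j => by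
    have := hu j
    simp only [cs] at this ⊢
    rw [hre]; constructor <;> linarith [this.1, this.2]
  have hV : ∀ u ∈ Bx (z.re - 1 / 2) 12, (z, u) ∈ Vk := fun u hu =>
    ⟨by show _ < z.re; linarith, by show z.re < _; linarith, fun j => by
      have : z.re - 1 / 2 ≤ (u j).re := (hu j).1
      constructor <;> simp <;> linarith⟩
  set G : V4 → ℂ := fun u => W u * ((∏ j, Lo k (1 / 2 + r u j)) * IZ4 (r u) * Hk Y k z u) with hG
  have a1 : In (cs 12) (fun u => W u * ZY Y k z u) = In (cs 12) G := k1_In_congr fun u hu => by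
    have := hE Y k z (r u) hk0 (by linarith) hz' (by rw [e1]; exact hu)
    rw [e1] at this
    rw [this]
  have a3 : In (cs (z.re - 1 / 2)) G = In (cs 0) fun s => G (sh z s) := by
    unfold In
    rw [← integral_add_right_eq_self _ (fun _ => z.im)]
    congr 1
    funext t
    congr 1
    funext j
    apply Complex.ext <;> simp [pt, sh, cs, add_comm]
  have hβ := sh_br_pos z.im
  rw [a1, pSDn 4 (cs (z.re - 1 / 2)) (cs 12) (cs 12) (cs (z.re - 1 / 2))
    (M * ((104 * |(k : ℝ)| * br z.im) ^ 4 * (C * (br z.im ^ n) ^ 4) * (D * Y ^ B))) G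
    (fun _ => ⟨by unfold cs; linarith, le_rfl⟩) (fun _ => ⟨le_rfl, by unfold cs; linarith⟩)
    (k1_sep fun u hu => (hW u hu).mul (((k1_dprod fun j _ => ?_).mul ?_).mul
      ((H1 _ (hV u hu)).comp u (f := fun u => (z, u)) (by fun_prop)))) fun u hu => ?_, a3]
  · simp only [hG, e2]
  · exact (hLOP.2.1 k hk h1 _).comp u (f := fun u => 1 / 2 + r u j) (by simp only [hr]; fun_prop)
  · exact (z3 _ fun j => (hB u hu j).1).comp u (by simp only [hr]; fun_prop)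
  · have g1 := hb u hu
    have g2 : ‖∏ j, Lo k (1 / 2 + r u j)‖ ≤ ∏ j, 104 * |(k : ℝ)| * br z.im * br (u j).im := by
      rw [norm_prod]
      refine prod_le_prod (fun _ _ => norm_nonneg _) fun j _ => ?_
      have b1 : 0 ≤ (r u j).re := (hB u hu j).1
      have b2 : (r u j).re ≤ 12 := (hB u hu j).2
      have b3 : (1 / 2 + r u j).re = 1 / 2 + (r u j).re := by simp
      have b4 : ‖1 / 2 + r u j‖ ≤ 13 * (br z.im * br (u j).im) := by
        have c1 := norm_le_abs_re_add_abs_im (1 / 2 + r u j)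
        have c2 := k1_br_sub (u j).im z.im
        rw [b3, abs_of_nonneg (by linarith), show (1 / 2 + r u j).im = (r u j).im by simp,
          him] at c1
        unfold br at c2 ⊢
        nlinarith [abs_nonneg ((u j).im - z.im)]
      refine (hLOB k _ hk h1 (by linarith)).trans ?_
      calc _ ≤ 4 * |(k : ℝ)| * (13 * (br z.im * br (u j).im)) / (1 / 2) := by
            have := sh_br_pos (u j).im
            gcongr
            linarith
        _ = _ := by ring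
    have g3 : ‖IZ4 (r u)‖ ≤ C * ∏ j, (br (u j).im * br z.im) ^ n := by
      refine (z4 _ (hB u hu)).trans (mul_le_mul_of_nonneg_left (prod_le_prod
        (fun _ _ => (pow_pos (sh_br_pos _) _).le) fun j _ => ?_) hC.le)
      rw [him]
      exact pow_le_pow_left₀ (sh_br_pos _).le (k1_br_sub _ _) n
    have g4 := H2 _ (hV u hu)
    have p2 := (norm_nonneg _).trans g2
    simp only [hG, norm_mul]
    refine (mul_le_mul g1 (mul_le_mul (mul_le_mul g2 g3 (norm_nonneg _) p2) g4 (norm_nonneg _)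
      (mul_nonneg p2 ((norm_nonneg _).trans g3))) (by positivity)
      ((norm_nonneg _).trans g1)).trans (le_of_eq ?_)
    rw [show dk u = dn 2 u from rfl, ← k1_gn_dn 2 (n + 1) u]
    simp only [gn, Fin.prod_univ_four]
    ring

end Pool.Agent.Q4
end

-- part Pool.Agent.P.MP_ea46f5_nt.Q4.FDROP
section

/-! Factors `1 + O(z ^ 8)` in the torus integral; sizes of the weight and of the zeta kernel. -/

namespace Pool.Agent.Q4

open Complex Finset Pool.Agent.QM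

theorem pDROP (hO : ONB) : DROP := by
  intro r F e hr hF he
  have sub : Ann 4 r r ⊆ Pd 4 r := fun z hz i => (hz i).2
  have ne : ∀ z ∈ Ann 4 r r, ∀ i, z i ≠ 0 := fun z hz i =>
    norm_pos_iff.1 (hr.trans_le (hz i).1)
  have ce : ∀ j, ContinuousOn (fun z : V4 => e (z j)) (Ann 4 r r) := fun j z hz =>
    ((he _ (hz j).2).continuousAt.comp (f := fun z : V4 => z j)
      (continuous_apply j).continuousAt).continuousWithinAt
  have cG : ∀ s : Finset (Fin 4), ContinuousOn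
      (fun z => F z * (∏ j ∈ s, (1 + z j ^ 8 * e (z j))) / P8 z) (Ann 4 r r) := fun s =>
    ((hF.1.mono sub).mul (continuousOn_finsetProd _ fun j _ => continuousOn_const.add
      (((continuous_apply j).pow 8).continuousOn.mul (ce j)))).div
      (continuous_finsetProd _ fun j _ => (continuous_apply j).pow 8).continuousOn
      fun z hz => prod_ne_zero_iff.2 fun j _ => pow_ne_zero _ (ne z hz j)
  have key : ∀ s : Finset (Fin 4), On r (fun z => F z * (∏ j ∈ s, (1 + z j ^ 8 * e (z j))) / P8 z) =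
      On r fun z => F z / P8 z := fun s => by
    induction s using Finset.induction_on with
    | empty => simp only [prod_empty, mul_one]
    | insert i s hi ih =>
      rw [← ih, ← sub_eq_zero, ← hO.2.1 4 r _ _ hr (cG _) (cG _)]
      refine hO.2.2 4 r i _ hr ((cG _).sub (cG _)) fun z hz => ⟨fun w =>
        F (Function.update z i w) * e w * ((∏ j ∈ s, (1 + z j ^ 8 * e (z j))) /
          ∏ j ∈ univ.erase i, z j ^ 8), fun w hw => ?_, fun w hw => ?_⟩
      · have h1 : ‖w‖ ≤ r := mem_closedBall_zero_iff.1 hw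
        have h2 : Function.update z i w ∈ Pd 4 r := fun j => by
          rcases eq_or_ne j i with rfl | h
          · rwa [Function.update_self]
          · rw [Function.update_of_ne h]
            exact (hz j).2
        have h3 := hF.2 _ h2 i
        simp only [Function.update_idem, Function.update_self] at h3
        exact ((h3.mul (he w h1)).mul_const _).differentiableWithinAt
      · have h0 : w ≠ 0 := norm_pos_iff.1 (hw ▸ hr)
        have h1 : ∏ j ∈ s, (1 + Function.update z i w j ^ 8 * e (Function.update z i w j)) =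
            ∏ j ∈ s, (1 + z j ^ 8 * e (z j)) := prod_congr rfl fun j hj => by
          rw [Function.update_of_ne (ne_of_mem_of_not_mem hj hi)]
        have h2 : P8 (Function.update z i w) = w ^ 8 * ∏ j ∈ univ.erase i, z j ^ 8 := by
          rw [P8, ← mul_prod_erase _ _ (mem_univ i), Function.update_self]
          exact congrArg _ (prod_congr rfl fun j hj => by
            rw [Function.update_of_ne (ne_of_mem_erase hj)])
        have h3 : ∏ j ∈ univ.erase i, z j ^ 8 ≠ 0 :=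
          prod_ne_zero_iff.2 fun j _ => pow_ne_zero _ (ne z hz j)
        simp only [prod_insert hi, h1, h2, Function.update_self]
        field_simp
        ring
  exact key univ

theorem gb_ten {f : Fin 4 → Fin 4 → ℂ} {B : ℝ} (h : ∀ i j, ‖f i j‖ ≤ B) :
    ‖∏ i, ∏ j ∈ Ici i, f i j‖ ≤ B ^ 10 := by
  have hB : 0 ≤ B := (norm_nonneg _).trans (h 0 0)
  rw [vd_ten]
  simp only [norm_mul]
  calc _ ≤ B * B * B * B * (B * B * B) * (B * B) * B := by gcongr <;> exact h _ _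
    _ = _ := by ring

theorem gb_vd : Bn 6 fun u => Vd u := by
  simpa only [vd_four] using ((((bn_sub 1 0).mul (bn_sub 2 0)).mul (bn_sub 3 0)).mul
    ((bn_sub 2 1).mul (bn_sub 3 1))).mul (bn_sub 3 2)

theorem gb_gg (hG : GAM1) (hS : SH4) (a : ℕ) (c : Fin 3 → ℂ) (ha : a ≤ 1) :
    ∃ C : ℝ, 0 < C ∧ ∀ u : ℂ, -(1 / 4) ≤ u.re → u.re ≤ 13 →
      DifferentiableAt ℂ (gg a c) u ∧ ‖gg a c u‖ ≤ C * Real.exp (-(3 / 4) * u.im ^ 2) := by
  obtain ⟨C₁, hC₁, h1⟩ := hG 0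
  obtain ⟨C₂, hC₂, h2⟩ := hS.2.2 (1 / 4) 8 0 (by norm_num)
  have ha0 : (0 : ℝ) ≤ a := Nat.cast_nonneg a
  have ha1 : (a : ℝ) ≤ 1 := by exact_mod_cast ha
  refine ⟨4 * C₁ * (‖(Gammaℝ (1 / 2 + a))⁻¹‖ + 1) * Real.exp 169 *
    (5 * (1 + ‖c 0‖ + ‖c 1‖ + ‖c 2‖) * 13 ^ 8 * C₂), by positivity, fun u hu hu' => ⟨?_, ?_⟩⟩
  · have hd : DifferentiableAt ℂ Gammaℝ (1 / 2 + a + u) := by
      rw [funext Gammaℝ_def]
      refine DifferentiableAt.mul (DifferentiableAt.const_cpow (by fun_prop)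
        (Or.inl (ofReal_ne_zero.2 Real.pi_ne_zero))) ?_
      refine (differentiableAt_Gamma _ fun m h => ?_).comp _ (by fun_prop)
      have := congrArg re h
      simp at this
      have hm : (0 : ℝ) ≤ m := Nat.cast_nonneg m
      linarith
    have hd' : DifferentiableAt ℂ (gr a) u :=
      (hd.comp u (by fun_prop : DifferentiableAt ℂ (fun u : ℂ => 1 / 2 + a + u) u)).div_const _
    unfold gg
    fun_prop
  · have e : (1 / 2 + a + u : ℂ).re = 1 / 2 + a + u.re := by simp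
    have b1 : ‖gr a u‖ ≤ 4 * C₁ * (‖(Gammaℝ (1 / 2 + a))⁻¹‖ + 1) := by
      have a1 := h1 (1 / 2 + a + u) (by rw [e]; linarith) (by rw [e]; linarith)
      have a2 : 1 / 4 ≤ ‖(1 / 2 + a + u : ℂ)‖ := le_trans (by rw [e]; linarith) (re_le_norm _)
      rw [pow_zero, mul_one] at a1
      have a3 := a1.trans (div_le_div_of_nonneg_left hC₁.le (by norm_num) a2)
      unfold gr
      rw [div_eq_mul_inv, norm_mul]
      exact mul_le_mul (by linarith) (by linarith) (norm_nonneg _) (by positivity)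
    have b0 := vd_br u.im
    have hre : |u.re| ≤ 13 := abs_le.2 ⟨by linarith, hu'⟩
    obtain ⟨T, hT⟩ : ∃ T, T = 13 * br u.im := ⟨_, rfl⟩
    have hT1 : 1 ≤ T := by linarith
    have b2 : ‖u‖ ≤ T := by
      refine (norm_le_abs_re_add_abs_im u).trans ?_
      rw [hT, br]
      linarith [abs_nonneg u.im]
    have b3 : ∀ (x : ℂ) (n m : ℕ), n ≤ m → ‖x * u ^ n‖ ≤ ‖x‖ * T ^ m := fun x n m hn => by
      rw [norm_mul, norm_pow]
      exact mul_le_mul_of_nonneg_left ((pow_le_pow_left₀ (norm_nonneg _) b2 n).trans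
        (pow_le_pow_right₀ hT1 hn)) (norm_nonneg _)
    have b4 : ‖1 + c 0 * u ^ 2 + c 1 * u ^ 4 + c 2 * u ^ 6‖ ≤
        (1 + ‖c 0‖ + ‖c 1‖ + ‖c 2‖) * T ^ 6 := by
      have := norm_add₃_le (a := 1 + c 0 * u ^ 2) (b := c 1 * u ^ 4) (c := c 2 * u ^ 6)
      have h5 := norm_add_le (1 : ℂ) (c 0 * u ^ 2)
      rw [norm_one] at h5
      linarith [b3 (c 0) 2 6 (by norm_num), b3 (c 1) 4 6 (by norm_num), b3 (c 2) 6 6 le_rfl,
        one_le_pow₀ (n := 6) hT1]
    have b5 : ‖1 - 4 * u ^ 2‖ ≤ 5 * T ^ 2 := by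
      have h5 := norm_sub_le (1 : ℂ) (4 * u ^ 2)
      have h6 := b3 4 2 2 le_rfl
      rw [norm_one] at h5
      rw [Complex.norm_ofNat] at h6
      linarith [one_le_pow₀ (n := 2) hT1]
    have b6 : ‖cexp (u ^ 2)‖ ≤ Real.exp 169 * (Real.exp (-(1 / 4) * (u.im - 0) ^ 2) *
        Real.exp (-(3 / 4) * u.im ^ 2)) := by
      rw [norm_exp, ← Real.exp_add, ← Real.exp_add, Real.exp_le_exp, sq, mul_re]
      nlinarith [abs_le.1 hre]
    have b7 := (h2 u.im 0).2.1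
    rw [pow_zero, div_one, show br 0 = 1 by simp [br], one_pow, mul_one] at b7
    rw [gg, norm_mul, norm_mul, norm_mul]
    calc _ ≤ 4 * C₁ * (‖(Gammaℝ (1 / 2 + a))⁻¹‖ + 1) * (5 * T ^ 2 * (Real.exp 169 *
          (Real.exp (-(1 / 4) * (u.im - 0) ^ 2) * Real.exp (-(3 / 4) * u.im ^ 2)))) *
          ((1 + ‖c 0‖ + ‖c 1‖ + ‖c 2‖) * T ^ 6) := by gcongr
      _ = 4 * C₁ * (‖(Gammaℝ (1 / 2 + a))⁻¹‖ + 1) * Real.exp 169 *
          (5 * (1 + ‖c 0‖ + ‖c 1‖ + ‖c 2‖) * 13 ^ 8 *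
            (br u.im ^ 8 * Real.exp (-(1 / 4) * (u.im - 0) ^ 2))) *
          Real.exp (-(3 / 4) * u.im ^ 2) := by rw [hT]; ring
      _ ≤ _ := by gcongr

theorem pGGB (hG : GAM1) (hZ : ZT) (hS : SH4) : GGB := by
  obtain ⟨C, hC, h⟩ := hZ.2.2
  have hV := gb_vd.mul bn_vd
  refine ⟨gb_gg hG hS, fun u => ?_, 28 ^ 24 * C ^ 10, 64, by positivity, fun u hu => ?_⟩
  · refine ((hV.1 u).mul_const (16 : ℂ)⁻¹).mul ?_
    refine (HasFDerivAt.finsetProd fun i _ => DifferentiableAt.hasFDerivAt ?_).differentiableAt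
    refine (HasFDerivAt.finsetProd fun j _ => DifferentiableAt.hasFDerivAt ?_).differentiableAt
    exact (differentiable_riemannZeta₁ _).comp u
      (by fun_prop : DifferentiableAt ℂ (fun u : V4 => 1 + u i + u j) u)
  · have hg := vd_one u
    have h1 := hV.le (by norm_num) (u := u) fun j =>
      ⟨le_trans (by norm_num [cs]) (hu j).1, (hu j).2⟩
    have h2 : ‖∏ i, ∏ j ∈ Ici i, riemannZeta₁ (1 + u i + u j)‖ ≤ (C * gn 1 u ^ 4) ^ 10 := by
      refine gb_ten fun i j => (h _ (by simp only [add_re, one_re]; linarith [(hu i).1, (hu j).1])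
        (by simp only [add_re, one_re]; linarith [(hu i).2, (hu j).2])).trans ?_
      rw [add_assoc, add_im, one_im, zero_add, add_im]
      have h3 : br ((u i).im + (u j).im) ≤ gn 1 u * gn 1 u :=
        (vd_br_add _ _).trans (mul_le_mul (vd_le u i) (vd_le u j) (zero_le_one.trans (vd_br _))
          (by linarith))
      calc _ ≤ C * (gn 1 u * gn 1 u) ^ 2 := mul_le_mul_of_nonneg_left
            (pow_le_pow_left₀ (zero_le_one.trans (vd_br _)) h3 2) hC.le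
        _ = _ := by ring
    change _ ≤ _ * gn 64 u
    rw [KZ4, norm_mul, norm_div, Complex.norm_ofNat, vd_gn 64]
    rw [vd_gn 24] at h1
    calc _ ≤ 28 ^ 24 * gn 1 u ^ 24 * (C * gn 1 u ^ 4) ^ 10 :=
          mul_le_mul ((div_le_self (norm_nonneg _) (by norm_num)).trans h1) h2 (norm_nonneg _)
            (by positivity)
      _ = _ := by ring

end Pool.Agent.Q4
end

-- part Pool.Agent.P.MP_ea46f5_nt.Q4.FENDP
section

namespace Pool.Agent.Q4

open Complex MeasureTheory Finset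
open scoped Real
open Pool.Agent.QM

theorem en_mul {n : ℕ} {U : Set (Fin n → ℂ)} {F G : (Fin n → ℂ) → ℂ} (h : Sep U F) (h' : Sep U G) :
    Sep U fun s => F s * G s := ⟨h.1.mul h'.1, fun s hs i => (h.2 s hs i).mul (h'.2 s hs i)⟩

theorem en_us (u : V4) : (1 + us u).re = 1 + (∑ j, (u j).re) / 2 := by simp [us]

theorem en_ne {u : V4} (h : ∀ j, -(1 / 10) ≤ (u j).re) : 1 / 2 ≤ ‖1 + us u‖ := by
  refine le_trans ?_ (re_le_norm _)
  rw [en_us, Fin.sum_univ_four]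
  linarith [h 0, h 1, h 2, h 3]

theorem en_W {X : ℝ} (hX : 0 < X) (b : ℂ) {u : V4} (h : ∀ j, -(1 / 10) ≤ (u j).re) :
    DifferentiableAt ℂ (fun u : V4 => ((X : ℂ) ^ (1 + us u) - b) / (1 + us u)) u :=
  k1_ddiv ((DifferentiableAt.const_cpow (by unfold us; fun_prop)
    (.inl (ofReal_ne_zero.2 hX.ne'))).sub_const b) (by unfold us; fun_prop)
    (norm_pos_iff.1 (lt_of_lt_of_le (by norm_num) (en_ne h)))

theorem en_P8 {m : ℝ} (hm : 0 < m) {u : V4} (h : ∀ j, m ≤ ‖u j‖) : (m ^ 8) ^ 4 ≤ ‖P8 u‖ := by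
  rw [P8, norm_prod]
  calc _ = ∏ _j : Fin 4, m ^ 8 := by simp
    _ ≤ _ := prod_le_prod (fun _ _ => by positivity) fun j _ => by
      rw [norm_pow]; exact pow_le_pow_left₀ hm.le (h j) 8

theorem en_inv {m : ℝ} (hm : 0 < m) {U : Set V4} (h : ∀ u ∈ U, ∀ j, m ≤ ‖u j‖) :
    Sep U fun u => (P8 u)⁻¹ := k1_sep fun u hu =>
  DifferentiableAt.inv (by unfold P8; fun_prop)
    (norm_pos_iff.1 (lt_of_lt_of_le (by positivity) (en_P8 hm (h u hu))))

theorem en_G (hA : A4H) (hG : GGB) {a : ℕ} (ha : a ≤ 1) (c : Fin 3 → ℂ) : ∃ M : ℝ, 0 < M ∧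
    ∀ X : ℝ, 1 ≤ X → Sep (Box (fun _ => -(1 / 10)) fun _ => 12) (fun u : V4 =>
      (X : ℂ) ^ (1 + us u) / (1 + us u) * (KZ4 u * Aprod 4 u * ∏ j, gg a c (u j))) ∧
    ∀ u ∈ Box (fun _ => -(1 / 10)) fun _ : Fin 4 => 12,
      ‖(X : ℂ) ^ (1 + us u) / (1 + us u) * (KZ4 u * Aprod 4 u * ∏ j, gg a c (u j))‖ ≤
        M * X * dk u * Real.exp (Real.log X / 2 * ∑ j, (u j).re) := by
  obtain ⟨a1, ⟨A, a2⟩, -⟩ := hA
  obtain ⟨g1, g2, K, N, hK, g3⟩ := hG
  obtain ⟨B, hB, g1⟩ := g1 a c ha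
  obtain ⟨D, hD, h4⟩ := pDEC.2.1 (N + 2)
  have hA0 : 0 ≤ A := (norm_nonneg _).trans (a2 0 fun _ => by norm_num)
  refine ⟨2 * (K * (A + 1) * (B * 3 * D) ^ 4), by positivity, fun X hX => ⟨?_, fun u hu => ?_⟩⟩
  · refine en_mul (k1_sep fun u hu => ?_) (en_mul (en_mul (k1_sep fun u _ => g2 u)
      (a1.mono fun u hu j => lt_of_lt_of_le (by norm_num) (hu j).1))
      (k1_sep fun u hu => k1_dprod fun j _ => ?_))
    · simpa only [sub_zero] using en_W (by linarith : 0 < X) 0 fun j => (hu j).1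
    · exact (g1 _ (le_trans (by norm_num) (hu j).1) ((hu j).2.trans (by norm_num))).1.comp u
        (f := fun u : V4 => u j) (by fun_prop)
  · have hX0 : 0 < X := by linarith
    have b1 : ‖(X : ℂ) ^ (1 + us u) / (1 + us u)‖ ≤
        2 * X * Real.exp (Real.log X / 2 * ∑ j, (u j).re) := by
      rw [norm_div, norm_cpow_eq_rpow_re_of_pos hX0, en_us, Real.rpow_add hX0, Real.rpow_one,
        Real.rpow_def_of_pos hX0]
      refine (div_le_div_of_nonneg_left (by positivity) (by norm_num)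
        (en_ne fun j => (hu j).1)).trans (le_of_eq ?_)
      ring_nf
    have hu' : ∀ j, -(1 / 4) ≤ (u j).re ∧ (u j).re ≤ 13 := fun j =>
      ⟨le_trans (by norm_num) (hu j).1, (hu j).2.trans (by norm_num)⟩
    have b2 := g3 u hu'
    have b3 : ‖Aprod 4 u‖ ≤ A + 1 :=
      (a2 u fun j => lt_of_lt_of_le (by norm_num) (hu j).1).trans (by linarith)
    have b4 : (∏ j, br (u j).im ^ N) * ‖∏ j, gg a c (u j)‖ ≤ (B * 3 * D) ^ 4 * dk u := by
      rw [norm_prod, ← prod_mul_distrib, dk,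
        show (B * 3 * D) ^ 4 = ∏ _j : Fin 4, B * 3 * D by simp, ← prod_mul_distrib]
      refine prod_le_prod (fun j _ => by have := sh_br_pos (u j).im; positivity) fun j _ => ?_
      have h0 := sh_br_pos (u j).im
      have h1 := h4 (u j).im 0
      have h2 : Real.exp (-(3 / 4) * (u j).im ^ 2) ≤ 3 * Real.exp (-|(u j).im - 0| / 2) := by
        calc _ ≤ Real.exp (1 + -|(u j).im - 0| / 2) := by
              refine Real.exp_le_exp.2 ?_
              rw [sub_zero, ← sq_abs]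
              nlinarith [sq_nonneg (|(u j).im| - 1)]
          _ ≤ _ := by
              rw [Real.exp_add]
              gcongr
              exact Real.exp_one_lt_d9.le.trans (by norm_num)
      rw [show br 0 = 1 by simp [br], one_pow, mul_one] at h1
      rw [mul_one_div, le_div_iff₀ (by positivity)]
      calc _ ≤ br (u j).im ^ N * (B * (3 * Real.exp (-|(u j).im - 0| / 2))) * br (u j).im ^ 2 := by
            gcongr
            exact (g1 _ (hu' j).1 (hu' j).2).2.trans (by gcongr)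
        _ = B * 3 * (Real.exp (-|(u j).im - 0| / 2) * br (u j).im ^ (N + 2)) := by ring
        _ ≤ _ := by gcongr
    have p : 0 ≤ ∏ j, br (u j).im ^ N := prod_nonneg fun j _ => (pow_pos (sh_br_pos _) _).le
    have b5 : ‖KZ4 u * Aprod 4 u * ∏ j, gg a c (u j)‖ ≤ K * (A + 1) * ((B * 3 * D) ^ 4 * dk u) :=
      calc _ ≤ K * (∏ j, br (u j).im ^ N) * (A + 1) * ‖∏ j, gg a c (u j)‖ :=
            norm_mul_le_of_le (norm_mul_le_of_le b2 b3) le_rfl
        _ = K * (A + 1) * ((∏ j, br (u j).im ^ N) * ‖∏ j, gg a c (u j)‖) := by ring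
        _ ≤ _ := by gcongr
    exact (norm_mul_le_of_le b1 b5).trans (le_of_eq (by ring))

theorem pENDP (hS : SDn) (hT : TOR) (hO : ONB) (hD : DROP) (hY : TAY) (hA : A4H) (hP : PH0)
    (hQ : QINT) (hG : GGB) : ENDP := by
  intro a ha
  obtain ⟨r₁, c₁, c₂, c₃, e, hr₁, hY⟩ := hY a ha (fun u => (1 - 4 * u ^ 2) * cexp (u ^ 2))
    (by fun_prop) (fun u => by simp) (by simp)
  obtain ⟨r₂, hr₂, -, hP⟩ := hP a ha
  obtain ⟨T, hT0, hT⟩ := hT 4 8
  set c : Fin 3 → ℂ := ![c₁, c₂, c₃] with hc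
  obtain ⟨M, hM, hG⟩ := en_G hA hG ha c
  refine ⟨c, min (min r₁ r₂) (1 / 50), by positivity, fun r hr hr' => ?_⟩
  have h1 : r ≤ r₁ := hr'.trans ((min_le_left _ _).trans (min_le_left _ _))
  have h2 : r ≤ r₂ := hr'.trans ((min_le_left _ _).trans (min_le_right _ _))
  have h3 : r ≤ 1 / 50 := hr'.trans (min_le_right _ _)
  have hP' : Sep (Pd 4 r) (Ph0 a) := hP.mono fun z hz j => (hz j).trans h2
  set κ : ℂ := 3 / π ^ 2 * (24 * π ^ 4 : ℂ)⁻¹ with hκ
  set K : ℂ := On r fun z => 1 / (1 + us z) * Ph0 a z / P8 z with hK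
  refine ⟨‖κ‖ * (T * M / r ^ (8 * 4) + ‖K‖), 1, fun X σ hX h0 h12 => ?_⟩
  have hX0 : 0 < X := by linarith
  have hL : 0 ≤ Real.log X / 2 := by have := Real.log_nonneg hX; positivity
  obtain ⟨G1, G2⟩ := hG X hX
  set G : V4 → ℂ := fun u => (X : ℂ) ^ (1 + us u) / (1 + us u) *
    (KZ4 u * Aprod 4 u * ∏ j, gg a c (u j)) with hGd
  set m := min σ (1 / 40) with hm
  have hm0 : 0 < m := by positivity
  have hsub : Box (fun _ : Fin 4 => m) (fun _ => 12) ⊆ Box (fun _ => -(1 / 10)) fun _ => 12 :=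
    fun u hu j => ⟨le_trans (by linarith) (hu j).1, (hu j).2⟩
  have hmn : ∀ u ∈ Box (fun _ : Fin 4 => m) (fun _ => 12), ∀ j, m ≤ ‖u j‖ := fun u hu j =>
    (hu j).1.trans (re_le_norm _)
  have e1 : In (fun _ => σ) (fun u => G u / P8 u) = In (fun _ => 1 / 40) fun u => G u / P8 u := by
    refine hS 4 (fun _ => m) (fun _ => 12) _ _
      (M * X * Real.exp (Real.log X / 2 * 48) / (m ^ 8) ^ 4) _
      (fun _ => ⟨min_le_left _ _, h12⟩) (fun _ => ⟨min_le_right _ _, by norm_num⟩)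
      (en_mul (G1.mono hsub) (en_inv hm0 hmn)) fun u hu => ?_
    have := dk_pos u
    rw [norm_div, div_mul_eq_mul_div]
    refine div_le_div₀ (by positivity) ((G2 u (hsub hu)).trans ?_) (by positivity)
      (en_P8 hm0 (hmn u hu))
    rw [mul_right_comm]
    gcongr
    rw [Fin.sum_univ_four]
    linarith [(hu 0).2, (hu 1).2, (hu 2).2, (hu 3).2]
  have hsub' : Box (fun _ : Fin 4 => -(1 / 10)) (fun _ => 1 / 40) ⊆
      Box (fun _ => -(1 / 10)) fun _ => 12 := fun u hu j => ⟨(hu j).1, (hu j).2.trans (by norm_num)⟩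
  have e2 := hT r (1 / 40) (1 / 10) (Real.log X / 2) (M * X) G hr (by linarith) (by linarith)
    (by linarith) hL (by positivity) (G1.mono hsub') fun u hu => G2 u (hsub' hu)
  have hre : ∀ z ∈ Pd 4 r, ∀ j, -(1 / 10) ≤ (z j).re := fun z hz j => by
    have := (abs_le.1 ((abs_re_le_norm (z j)).trans (hz j))).1
    linarith
  have hF : ∀ b : ℂ, Sep (Pd 4 r) fun z => ((X : ℂ) ^ (1 + us z) - b) / (1 + us z) * Ph0 a z :=
    fun b => en_mul (k1_sep fun z hz => en_W hX0 b (hre z hz)) hP'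
  have hAP : Ann 4 r r ⊆ Pd 4 r := fun z hz j => (hz j).2
  have hc' : ∀ b : ℂ, ContinuousOn
      (fun z => ((X : ℂ) ^ (1 + us z) - b) / (1 + us z) * Ph0 a z / P8 z) (Ann 4 r r) := fun b =>
    (en_mul ((hF b).mono hAP) (en_inv hr fun z hz j => (hz j).1)).1
  have e3 : On r (fun u => G u / P8 u) =
      On r fun z => ((X : ℂ) ^ (1 + us z) - 0) / (1 + us z) * Ph0 a z / P8 z := by
    rw [← hD r _ e hr (hF 0) fun w hw => (hY w (hw.trans h1)).2.1]
    refine On_congr hr fun z hz => ?_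
    have : ∀ j, gg a c (z j) = Xh a (z j) * (1 + z j ^ 8 * e (z j)) := fun j =>
      (hY (z j) ((hz j).2.trans h1)).2.2
    simp only [hGd, this, prod_mul_distrib, Ph0]
    ring
  have e4 : (On r fun z => ((X : ℂ) ^ (1 + us z) - 0) / (1 + us z) * Ph0 a z / P8 z) -
      (On r fun z => ((X : ℂ) ^ (1 + us z) - 1) / (1 + us z) * Ph0 a z / P8 z) = K := by
    rw [← hO.2.1 4 r _ _ hr (hc' 0) (hc' 1)]
    exact On_congr hr fun z _ => by ring
  have e5 := hQ a r X hr (by linarith) hX hP'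
  have hπ : (π : ℂ) ≠ 0 := ofReal_ne_zero.2 Real.pi_ne_zero
  have e6 : MT a c σ X - 3 * X / π ^ 2 * Qm 4 a r X = κ *
      ((In (fun _ => 1 / 40) (fun u => G u / P8 u) - On r fun u => G u / P8 u) + K) := by
    rw [show (3 * X / π ^ 2 * Qm 4 a r X : ℂ) = 3 / π ^ 2 * (X * Qm 4 a r X) by ring, e5, ← e1,
      e3, ← e4, hκ, MT]
    generalize (On r fun z => ((X : ℂ) ^ (1 + us z) - 1) / (1 + us z) * Ph0 a z / P8 z) = x
    generalize (On r fun z => ((X : ℂ) ^ (1 + us z) - 0) / (1 + us z) * Ph0 a z / P8 z) = y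
    generalize (In (fun _ => σ) fun u => G u / P8 u) = w
    field_simp
    ring
  rw [e6, norm_mul, mul_assoc]
  refine mul_le_mul_of_nonneg_left ((norm_add_le _ _).trans ?_) (norm_nonneg _)
  rw [add_mul]
  refine add_le_add (e2.trans (le_of_eq ?_)) (le_mul_of_one_le_right (norm_nonneg _) hX)
  norm_num
  ring

end Pool.Agent.Q4
end

-- part Pool.Agent.P.MP_ea46f5_nt.Q4.FEX4
section

namespace Pool.Agent.Q4

open Pool.Agent.QM

theorem pEX4 (hLSP : LSP) (hTKB : TKB) : EX4 := fun _ _ _ _ _ h => ex4 hLSP hTKB h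

theorem pPOG (hP1 : P1) (hP2 : P2) (hTKB : TKB) (hKZ : KZ) : POG :=
  fun _ _ _ _ hX hσ hc hb => pog hP1 hP2 hTKB hKZ hX hσ hc hb

theorem pPOC (hTKB : TKB) (hKDB : KDB) : POC :=
  fun _ _ _ _ _ Y _ _ hK hP hσ hΩ => poc hTKB hKDB Y hK hP hΩ hσ

end Pool.Agent.Q4
end

-- part Pool.Agent.P.MP_ea46f5_nt.Q4.FK1
section

namespace Pool.Agent.Q4

open Complex MeasureTheory Finset
open scoped Real
open Pool.Agent.QM

theorem pFUB5 : FUB5 := fun σ M c F hc hb => by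
  obtain ⟨h1, h2, h3, h4⟩ := k1_FUB hc hb
  exact ⟨h1, h3, h2, h1 ▸ h4.trans (le_of_eq (by ring))⟩

theorem pSH4P : SH4P := fun _ _ _ _ u h hu hf hm =>
  k1_SHP u (fun i j e => by_contra fun n => hu i j n e) (fun j => (h j).1) (fun j => (h j).2) hf hm

theorem pK1 (hLOP : LOP) (hIZ : IZ) (hE41 : E41) : K1 := by
  obtain ⟨C, hC, h⟩ := k1_main hLOP hIZ
  refine ⟨18, C, hC, fun Y K Kr ε X V M hK hKe => ?_⟩
  have e : Yk Y K (3 / 4) 1 = 1 / (2 * π) * Y1 Kr (Hone Y) (3 / 4) (cs 12) := by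
    unfold Yk Y1
    congr 1
    refine integral_congr_ae (.of_forall fun y => ?_)
    beta_reduce
    generalize hz : (((3 / 4 : ℝ) : ℂ) + y * I) = z
    have hz' : z.re = 3 / 4 := by simp [← hz]
    rw [In, In, ← integral_div]
    refine k1_In_congr (G := fun u => K 1 z u * ZY Y 1 z u)
      (H := fun u => G1 Kr (Hone Y) z u / (z - 1 / 2)) fun u hu => ?_
    rw [hKe z u hz', hE41 Y z u (by linarith) (by linarith) hu, G1]
    ring
  rw [e]
  exact (h 18 Kr _ ε X V M le_rfl hK).2.2.2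

end Pool.Agent.Q4
end

-- part Pool.Agent.P.MP_ea46f5_nt.Q4.FPWI
section

/-! Packets: integrability, the square, the shift. -/

namespace Pool.Agent.Q4

open Complex MeasureTheory Finset Pool.Agent.QM
open scoped Real ComplexConjugate

theorem pk_norm {u : ℂ} (hu : |u.re| ≤ 13) : ‖u‖ ≤ 13 * br u.im := by
  have := Complex.norm_le_abs_re_add_abs_im u
  rw [br]
  linarith [abs_nonneg u.im]

theorem pk_exp (κ t : ℝ) (u : ℂ) :
    ‖cexp (κ * (u - t * I) ^ 2)‖ = Real.exp (κ * u.re ^ 2) * Real.exp (-κ * (u.im - t) ^ 2) := by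
  rw [Complex.norm_exp, ← Real.exp_add]
  congr 1
  simp [pow_two]
  ring

theorem pk_le (hS : SH4) {κ : ℝ} (hκ : Kp κ) (t v : ℝ) (j : ℕ) : ∃ C : ℝ, 0 < C ∧
    ∀ u ∈ Strip 0 12, ‖u ^ j * pw κ t v u‖ * br u.im ≤ C / br u.im ^ 2 := by
  obtain ⟨C, hC, h⟩ := hS.2.2 κ (j + 4) 2 hκ.1
  have hbt := tk2_br0 t
  refine ⟨13 ^ (j + 1) * 170 * (Real.exp 144 * Real.exp (|v| * 12)) * (C * br t ^ (j + 4 + 2)),
    by positivity, fun u hu => ?_⟩
  have hb := tk2_br1 u.im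
  have h1 := pk_norm (u := u) (by rw [abs_le]; constructor <;> linarith [hu.1, hu.2])
  have h2 : ‖u ^ 2 - 1 / 4‖ ≤ 170 * br u.im ^ 2 := by
    refine (norm_sub_le _ _).trans ?_
    rw [norm_pow]
    have : ‖(1 / 4 : ℂ)‖ = 1 / 4 := by simp
    nlinarith [norm_nonneg u]
  have h3 : Real.exp (κ * u.re ^ 2) ≤ Real.exp 144 :=
    Real.exp_le_exp.2 (by nlinarith [hu.1, hu.2, hκ.1, hκ.2, sq_nonneg u.re])
  have h4 : ‖cexp (v * u)‖ ≤ Real.exp (|v| * 12) := by
    rw [Complex.norm_exp, re_ofReal_mul]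
    exact Real.exp_le_exp.2 (by nlinarith [hu.1, hu.2, le_abs_self v, abs_nonneg v])
  rw [pw, Complex.exp_add, norm_mul, norm_mul, norm_mul, norm_mul, norm_pow, pk_exp]
  calc _ ≤ (13 * br u.im) ^ j * (13 * br u.im * (170 * br u.im ^ 2) *
        (Real.exp 144 * Real.exp (-κ * (u.im - t) ^ 2) * Real.exp (|v| * 12))) * br u.im := by
        gcongr
    _ = 13 ^ (j + 1) * 170 * (Real.exp 144 * Real.exp (|v| * 12)) *
        (br u.im ^ (j + 4) * Real.exp (-κ * (u.im - t) ^ 2)) := by ring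
    _ ≤ 13 ^ (j + 1) * 170 * (Real.exp 144 * Real.exp (|v| * 12)) *
        (C * br t ^ (j + 4 + 2) / br u.im ^ 2) := by gcongr; exact (h u.im t).2.2
    _ = _ := by ring

theorem pk_diff (κ t v : ℝ) : Differentiable ℂ (pw κ t v) := by
  unfold pw
  fun_prop

theorem pk_Lo (hS : SH4) (hLOP : LOP) (hLOB : LOB) {κ : ℝ} (hκ : Kp κ) (t v : ℝ) (j : ℕ) {k : ℤ}
    (h1 : Squarefree k) (h2 : k ≠ 1) :
    Differentiable ℂ (fun u => u ^ j * (pw κ t v u * Lo k (1 / 2 + u))) ∧ ∃ C : ℝ,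
      ∀ u ∈ Strip 0 12, ‖u ^ j * (pw κ t v u * Lo k (1 / 2 + u))‖ ≤ C / br u.im ^ 2 := by
  obtain ⟨C, hC, h⟩ := pk_le hS hκ t v j
  refine ⟨(differentiable_id.pow j).mul ((pk_diff κ t v).mul ((hLOP.2.1 k h1 h2).comp
    ((differentiable_const _).add differentiable_id))), 104 * |(k : ℝ)| * C, fun u hu => ?_⟩
  have e1 : (1 / 2 + u).re = 1 / 2 + u.re := by simp
  have e2 : (1 / 2 + u).im = u.im := by simp
  have h3 := hLOB k (1 / 2 + u) h1 h2 (by rw [e1]; linarith [hu.1])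
  have h4 := pk_norm (u := 1 / 2 + u) (by rw [e1, abs_le]; constructor <;> linarith [hu.1, hu.2])
  rw [e2] at h4
  have hb := tk2_br0 u.im
  have h5 : ‖Lo k (1 / 2 + u)‖ ≤ 104 * |(k : ℝ)| * br u.im := by
    refine h3.trans ?_
    rw [div_le_iff₀ (by rw [e1]; linarith [hu.1]), e1]
    have h6 : 0 ≤ |(k : ℝ)| * br u.im * u.re := mul_nonneg (by positivity) hu.1
    nlinarith [mul_le_mul_of_nonneg_left h4 (abs_nonneg (k : ℝ))]
  rw [← mul_assoc, norm_mul]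
  calc _ ≤ ‖u ^ j * pw κ t v u‖ * (104 * |(k : ℝ)| * br u.im) := by gcongr
    _ = 104 * |(k : ℝ)| * (‖u ^ j * pw κ t v u‖ * br u.im) := by ring
    _ ≤ 104 * |(k : ℝ)| * (C / br u.im ^ 2) := by gcongr; exact h u hu
    _ = _ := by ring

theorem pPWI (hS : SH4) (hLSP : LSP) (hLOP : LOP) (hLOB : LOB) : PWI := by
  intro κ t v j hκ
  refine ⟨fun k h1 h2 => ?_, fun m => ?_⟩
  · obtain ⟨hd, C, h⟩ := pk_Lo hS hLOP hLOB hκ t v j h1 h2
    refine sh_int (C := C) (c := 0) (f := fun u => u ^ j * (pw κ t v u * Lo k (1 / 2 + u)))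
      (hd.continuous.comp (f := fun τ : ℝ => ((0 : ℝ) : ℂ) + τ * I) (by fun_prop)) fun τ => ?_
    have h3 := h _ (sh_mem (a := 0) (b := 12) τ le_rfl (by norm_num))
    rwa [show (((0 : ℝ) : ℂ) + τ * I).im = τ by simp] at h3
  · obtain ⟨C, hC, h⟩ := pk_le hS hκ t v j
    have hc : Continuous fun τ : ℝ => LS m (1 / 2 + (((12 : ℝ) : ℂ) + τ * I)) :=
      (hLSP.2.2.2.1 m).continuousOn.comp_continuous (by fun_prop) fun τ => by
        simp; norm_num
    refine sh_int (C := 2 * C) (f := fun u => u ^ j * (pw κ t v u * LS m (1 / 2 + u)))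
      (Continuous.mul (by fun_prop) (((pk_diff κ t v).continuous.comp (by fun_prop)).mul hc))
      fun τ => ?_
    have h1 := h _ (sh_mem (a := 0) (b := 12) τ (by norm_num) le_rfl)
    have e : (((12 : ℝ) : ℂ) + τ * I).im = τ := by simp
    have h2 := hLSP.2.2.1 m (1 / 2 + (((12 : ℝ) : ℂ) + τ * I)) (by simp; norm_num)
    rw [e] at h1
    rw [← mul_assoc, norm_mul, mul_div_assoc]
    nlinarith [tk2_br1 τ, norm_nonneg ((((12 : ℝ) : ℂ) + τ * I) ^ j * pw κ t v ((12 : ℝ) + τ * I))]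

theorem pk_conj {c : ℝ} {f g : ℂ → ℂ} (h : ∀ u : ℂ, u.re = c → g u = conj (f (conj u))) :
    Iv c g = conj (Iv c f) := by
  rw [Iv, Iv, ← integral_conj, ← integral_neg_eq_self]
  refine integral_congr_ae (.of_forall fun τ => ?_)
  simp only [h (c + (-τ : ℝ) * I) (by simp)]
  congr 2
  simp

theorem pk_pw_conj (κ t v : ℝ) (u : ℂ) : pw κ (-t) v u = conj (pw κ t v (conj u)) := by
  simp [pw, ← Complex.exp_conj, map_ofNat]

theorem pPKB (hS : SH4) (hLSP : LSP) (hLOP : LOP) (hLOB : LOB) (hDEC : DEC) (hPR : PR4)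
    (hI : PWI) : PKB := by
  intro κ t κ' t' hκ hκ'
  refine ⟨fun v v' m => ?_, fun k h1 h2 => ⟨fun v v' => ⟨?_, by unfold Pk pr; ring⟩,
    fun v' => bs_Pc hLOP hLOB hDEC h1 h2 hκ.1 t t' v',
    _, fun v v' => bs_Pk hLOP hLOB hDEC h1 h2 hκ.1 hκ'.1 t v t' v'⟩⟩
  · have hL : ∀ κ t v : ℝ, Kp κ → Lc 12 (fun u => pw κ t v u * LS m (1 / 2 + u)) ∧
        Lc 12 fun u => u ^ 2 * (pw κ t v u * LS m (1 / 2 + u)) := fun κ t v hκ =>
      ⟨by simpa using (hI κ t v 0 hκ).2 m, (hI κ t v 2 hκ).2 m⟩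
    have hC : ∀ (κ t v : ℝ) (j : ℕ), (Iv 12 fun u => u ^ j * (pw κ (-t) v u * LS m (1 / 2 + u))) =
        conj (Iv 12 fun u => u ^ j * (pw κ t v u * LS m (1 / 2 + u))) := fun κ t v j =>
      pk_conj fun u hu => by
        have e : (1 / 2 + conj u : ℂ) = conj (1 / 2 + u) := by simp [map_ofNat]
        rw [map_mul, map_mul, ← pk_pw_conj, e, hLSP.2.2.2.2.1 m _ (by simp [hu]; norm_num),
          map_pow, conj_conj]
    have h := (hPR 12 ![fun u => pw κ t v u * LS m (1 / 2 + u),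
      fun u => pw κ' t' v' u * LS m (1 / 2 + u), fun u => pw κ (-t) v u * LS m (1 / 2 + u),
      fun u => pw κ' (-t') v' u * LS m (1 / 2 + u)] fun j => by
        fin_cases j
        exacts [hL _ _ _ hκ, hL _ _ _ hκ', hL _ _ _ hκ, hL _ _ _ hκ']).2
    have a0 := hC κ t v 0
    have b0 := hC κ' t' v' 0
    simp only [pow_zero, one_mul] at a0 b0
    have e : pr 12 (fun u => pw κ (-t) v u * LS m (1 / 2 + u))
        (fun u => pw κ' (-t') v' u * LS m (1 / 2 + u)) = conj (Bm κ t v κ' t' v' m) := by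
      rw [Bm, pr, pr, a0, b0, hC, hC, map_sub, map_mul, map_mul]
    push_cast
    rw [← Complex.mul_conj', ← e]
    refine Eq.trans ?_ h
    congr 1
    funext u
    simp only [W2, LL, Fin.prod_univ_four, Matrix.cons_val]
    ring
  · have hC : ∀ (κ t v : ℝ) (j : ℕ), Kp κ →
        (Iv 12 fun u => u ^ j * (pw κ t v u * LS k (1 / 2 + u))) =
        Iv 0 fun u => u ^ j * (pw κ t v u * Lo k (1 / 2 + u)) := fun κ t v j hκ => by
      obtain ⟨hd, C, h⟩ := pk_Lo hS hLOP hLOB hκ t v j h1 h2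
      rw [← pSH0 0 12 C _ (by norm_num) ⟨hd.continuous.continuousOn, hd.differentiableOn⟩ h]
      refine integral_congr_ae (.of_forall fun τ => ?_)
      simp only [hLOP.1 k (1 / 2 + (((12 : ℝ) : ℂ) + τ * I)) h1.ne_zero (by simp; norm_num)]
    have a0 := hC κ t v 0 hκ
    have b0 := hC κ' t' v' 0 hκ'
    simp only [pow_zero, one_mul] at a0 b0
    rw [Bm, Pk, pr, pr, a0, b0, hC _ _ _ _ hκ, hC _ _ _ _ hκ']

end Pool.Agent.Q4
end

-- part Pool.Agent.P.MP_ea46f5_nt.Q4.FQEQ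
section

/-! The polynomial `Q` as a torus integral; its average; its variation. -/

namespace Pool.Agent.Q4

open Complex MeasureTheory Finset Pool.Agent.QM
open scoped Real

theorem qq_ne {r : ℝ} (hr : 0 < r) {r' : ℝ} {z : V4} (hz : z ∈ Ann 4 r r') (j : Fin 4) :
    z j ≠ 0 := norm_pos_iff.1 (hr.trans_le (hz j).1)

theorem qq_zeta {z : V4} (h0 : ∀ j, z j ≠ 0) :
    Vd (fun j => z j ^ 2) ^ 2 * (∏ i, ∏ j ∈ Ici i, riemannZeta (1 + z i + z j)) *
      ∏ j, z j ^ (1 - 2 * ((4 : ℕ) : ℤ)) = KZ4 z / P8 z := by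
  obtain ⟨-, -, -, -, -, -, -, hV⟩ := pVDP
  have h1 := hV z
  have hp : ∏ j, z j ≠ 0 := prod_ne_zero_iff.2 fun j _ => h0 j
  have e : ∏ j, z j ^ (1 - 2 * ((4 : ℕ) : ℤ)) = (∏ j, z j) / P8 z := by
    unfold P8
    rw [← prod_div_distrib]
    refine prod_congr rfl fun j _ => ?_
    have := h0 j
    rw [zpow_sub₀ this]
    norm_num
  rw [e]
  unfold KZ4
  by_cases h : ∏ i, ∏ j ∈ Ici i, (z i + z j) = 0
  · rw [h, mul_zero] at h1
    have h2 := (mul_eq_zero.1 h1).resolve_right (mul_ne_zero (by norm_num) hp)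
    rw [h2]
    simp
  · have h2 : ∏ i, ∏ j ∈ Ici i, riemannZeta₁ (1 + z i + z j) =
        (∏ i, ∏ j ∈ Ici i, (z i + z j)) * ∏ i, ∏ j ∈ Ici i, riemannZeta (1 + z i + z j) := by
      rw [← prod_mul_distrib]
      refine prod_congr rfl fun i _ => ?_
      rw [← prod_mul_distrib]
      refine prod_congr rfl fun j hj => ?_
      have h3 : z i + z j ≠ 0 :=
        prod_ne_zero_iff.1 (prod_ne_zero_iff.1 h i (mem_univ i)) j hj
      have h4 : 1 + z i + z j - 1 = z i + z j := by ring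
      rw [riemannZeta_eq_inv_sub_mul (s := 1 + z i + z j) (by
        intro h5
        exact h3 (by rw [← h4, h5, sub_self])), h4, mul_inv_cancel_left₀ h3]
    rw [h2]
    linear_combination (Vd (fun j => z j ^ 2) *
      (∏ i, ∏ j ∈ Ici i, riemannZeta (1 + z i + z j)) / 16 / P8 z) * h1

theorem pQEQ : QEQ := by
  intro a r x hr
  unfold Qf On
  rw [tor_congr (g := fun z => cexp (x * us z) * Ph0 a z / P8 z) fun θ => ?_]
  · have e : ((Nat.factorial 4 : ℕ) : ℂ) = 24 := by norm_num [Nat.factorial]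
    rw [e, mul_pow _ I, mul_inv]
    ring
  · have h := qq_zeta (qq_ne hr (tm_ann hr θ))
    generalize torusMap (0 : V4) (fun _ => r) θ = z at h
    have e : (x : ℂ) / 2 * ∑ j, z j = x * us z := by
      unfold us
      ring
    rw [e]
    unfold Gf Ph0 Xh
    linear_combination (cexp (x * us z) * Aprod 4 z *
      ∏ j, Xf a (1 / 2 + z j) ^ (-1 / 2 : ℂ)) * h

theorem qq_us {ρ : ℝ} {z : V4} (hz : ∀ j, ‖z j‖ ≤ ρ) : ‖us z‖ ≤ 2 * ρ := by
  unfold us
  rw [norm_div, Complex.norm_ofNat, div_le_iff₀ (by norm_num)]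
  refine (norm_sum_le _ _).trans ((sum_le_sum fun j _ => hz j).trans ?_)
  simp
  linarith

theorem qq_usd : Differentiable ℂ us := by
  unfold us
  fun_prop

theorem qq_P8d : Differentiable ℂ P8 := by
  unfold P8
  simp only [Fin.prod_univ_four]
  fun_prop

theorem qq_P8 {z : V4} (h0 : ∀ j, z j ≠ 0) : P8 z ≠ 0 :=
  prod_ne_zero_iff.2 fun j _ => pow_ne_zero 8 (h0 j)

theorem qq_sep {r r' : ℝ} (hr : 0 < r) (hr' : r' ≤ 1 / 16) {Ph : V4 → ℂ} (hS : Sep (Pd 4 r') Ph)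
    {E : ℂ → ℂ} (hE : ∀ w : ℂ, ‖w‖ ≤ 1 / 8 → DifferentiableAt ℂ E w) :
    Sep (Ann 4 r r') fun z => E (us z) * Ph z / P8 z := by
  have hsub : Ann 4 r r' ⊆ Pd 4 r' := fun z hz j => (hz j).2
  have h1 : ∀ z ∈ Ann 4 r r', DifferentiableAt ℂ (fun z => E (us z) / P8 z) z := fun z hz =>
    ((hE _ ((qq_us (hsub hz)).trans (by linarith))).comp z (qq_usd z)).mul
      ((qq_P8d z).inv (qq_P8 (qq_ne hr hz)))
  have e : (fun z => E (us z) * Ph z / P8 z) = fun z => E (us z) / P8 z * Ph z := by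
    funext z
    ring
  rw [e]
  refine ⟨ContinuousOn.mul (fun z hz => (h1 z hz).continuousAt.continuousWithinAt)
    (hS.1.mono hsub), fun s hs i => DifferentiableAt.mul ?_ (hS.2 s (hsub hs) i)⟩
  have h2 := h1 s hs
  rw [← Function.update_eq_self i s] at h2
  have h3 := h2.comp (s i) (hasDerivAt_update s i (s i)).differentiableAt
  exact h3

theorem pQINT : QINT := by
  intro a r X hr hr' hX hS
  have hX0 : (X : ℂ) ≠ 0 := ofReal_ne_zero.2 (by linarith)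
  unfold Qm
  rw [mul_inv_cancel_left₀ hX0]
  simp only [pQEQ a r _ hr]
  rw [intervalIntegral.integral_const_mul]
  congr 1
  unfold On
  rw [intervalIntegral.integral_const_mul]
  congr 1
  unfold torusIntegral
  have hc := (qq_sep hr hr' hS (E := fun _ => 1) fun _ _ => differentiableAt_const _).1
  have hc' := hc.comp_continuous (tm_cont fun _ => r) (tm_ann hr)
  have hu : Continuous fun θ : R4 => us (torusMap (0 : V4) (fun _ => r) θ) :=
    qq_usd.continuous.comp (tm_cont _)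
  rw [intervalIntegral_integral_swap]
  · refine setIntegral_congr_fun measurableSet_Icc fun θ _ => ?_
    have h1 := (qq_us fun j => (tm_ann hr θ j).2).trans (show 2 * r ≤ 1 / 8 by linarith)
    simp only [smul_eq_mul]
    generalize torusMap (0 : V4) (fun _ => r) θ = z at h1
    have h2 : -1 < (us z).re := by
      have := (abs_le.1 ((abs_re_le_norm (us z)).trans h1)).1
      linarith
    rw [intervalIntegral.integral_const_mul, intervalIntegral.integral_div,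
      intervalIntegral.integral_mul_const,
      intervalIntegral.integral_congr (g := fun t : ℝ => (t : ℂ) ^ us z) fun t ht => ?_,
      integral_cpow (Or.inl h2), ofReal_one, one_cpow, add_comm (us z)]
    rw [Set.uIcc_of_le hX] at ht
    have ht0 : 0 < t := by linarith [ht.1]
    simp only
    rw [cpow_def_of_ne_zero (ofReal_ne_zero.2 ht0.ne'), ofReal_log ht0.le]
  · rw [Set.uIoc_of_le hX, Measure.prod_restrict]
    refine IntegrableOn.mono_set (ContinuousOn.integrableOn_compact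
      ((isCompact_Icc (a := (1 : ℝ)) (b := X)).prod isCompact_Icc) ?_)
      (Set.prod_mono Set.Ioc_subset_Icc_self le_rfl)
    have hl : ContinuousOn (fun p : ℝ × R4 => Real.log p.1)
        (Set.Icc 1 X ×ˢ Set.Icc (0 : R4) fun _ => 2 * π) :=
      continuousOn_fst.log fun p hp => by have := hp.1.1; linarith
    have h3 := ((continuous_ofReal.comp_continuousOn hl).mul
      (hu.comp continuous_snd).continuousOn).cexp.mul (hc'.comp continuous_snd).continuousOn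
    have h4 : Continuous fun p : ℝ × R4 => ∏ i, (r : ℂ) * cexp (p.2 i * I) * I := by fun_prop
    refine (h4.continuousOn.mul h3).congr fun p _ => ?_
    simp only [Function.uncurry, Function.comp_apply, Pi.mul_apply, smul_eq_mul]
    ring

theorem qq_vd {Q : ℝ} {w : V4} (h : ∀ j, ‖w j‖ ≤ Q) : ‖Vd w‖ ≤ (2 * Q) ^ 6 := by
  have hQ : 0 ≤ Q := (norm_nonneg _).trans (h 0)
  have d : ∀ i j, ‖w i - w j‖ ≤ 2 * Q := fun i j =>
    (norm_sub_le _ _).trans (by linarith [h i, h j])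
  rw [vd_four]
  simp only [norm_mul]
  calc _ ≤ 2 * Q * (2 * Q) * (2 * Q) * (2 * Q * (2 * Q)) * (2 * Q) := by gcongr <;> exact d _ _
    _ = _ := by ring

theorem qq_Ph (hT : TAY) (hA : A4H) {a : ℕ} (ha : a ≤ 1) : ∃ r₀ C : ℝ, 0 < r₀ ∧ 0 ≤ C ∧
    ∀ (ρ : ℝ) (z : V4), ρ ≤ r₀ → (∀ j, ‖z j‖ ≤ ρ) → ‖Ph0 a z‖ ≤ C * ρ ^ 18 := by
  obtain ⟨r₁, _, _, _, _, hr₁, h1⟩ := hT a ha (fun _ => 1) (differentiable_const _)
    (fun _ => rfl) rfl
  obtain ⟨-, ⟨C₁, h2⟩, -⟩ := hA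
  obtain ⟨C₂, h3⟩ := (isCompact_closedBall (0 : ℂ) r₁).exists_bound_of_continuousOn (f := Xh a)
    fun u hu => (h1 u (mem_closedBall_zero_iff.1 hu)).1.continuousAt.continuousWithinAt
  obtain ⟨C₃, h4⟩ := (isCompact_closedBall (0 : V4) 1).exists_bound_of_continuousOn
    (f := fun s => ∏ i, ∏ j ∈ Ici i, riemannZeta₁ (1 + s i + s j))
    (Continuous.continuousOn (continuous_finsetProd _ fun i _ => continuous_finsetProd _
      fun j _ => differentiable_riemannZeta₁.continuous.comp (by fun_prop)))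
  have c1 : 0 ≤ C₁ := (norm_nonneg _).trans (h2 0 fun _ => by simp)
  have c2 : 0 ≤ C₂ := (norm_nonneg _).trans (h3 0 (Metric.mem_closedBall_self hr₁.le))
  have c3 : 0 ≤ C₃ := (norm_nonneg _).trans (h4 0 (Metric.mem_closedBall_self zero_le_one))
  refine ⟨min r₁ (1 / 16), 2 ^ 12 / 16 * C₃ * C₁ * C₂ ^ 4, by positivity, by positivity,
    fun ρ z hρ hz => ?_⟩
  have hρ1 := hρ.trans (min_le_left _ _)
  have hρ2 := hρ.trans (min_le_right _ _)
  have hρ0 : 0 ≤ ρ := (norm_nonneg _).trans (hz 0)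
  have a1 := qq_vd hz
  have a2 := qq_vd (Q := ρ ^ 2) (w := fun j => z j ^ 2) fun j => by
    rw [norm_pow]
    exact pow_le_pow_left₀ (norm_nonneg _) (hz j) 2
  have a3 := h4 z (mem_closedBall_zero_iff.2 ((pi_norm_le_iff_of_nonneg zero_le_one).2
    fun j => (hz j).trans (by linarith)))
  have a4 := h2 z fun j => by
    have := (abs_le.1 ((abs_re_le_norm (z j)).trans (hz j))).1
    linarith
  have a5 : ‖∏ j, Xh a (z j)‖ ≤ C₂ ^ 4 := by
    rw [norm_prod]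
    refine (prod_le_prod (fun _ _ => norm_nonneg _) fun j _ =>
      h3 (z j) (mem_closedBall_zero_iff.2 ((hz j).trans hρ1))).trans ?_
    simp
  unfold Ph0 KZ4
  rw [norm_mul, norm_mul, norm_mul, norm_div, norm_mul, Complex.norm_ofNat]
  calc _ ≤ (2 * ρ) ^ 6 * (2 * ρ ^ 2) ^ 6 / 16 * C₃ * C₁ * C₂ ^ 4 := by gcongr
    _ = _ := by ring

theorem pQLIP (hR : RAD) (hO : ONB) (hT : TAY) (hA : A4H) (hP : PH0) : QLIP := by
  intro a ha
  obtain ⟨r₁, C, hr₁, hC, h1⟩ := qq_Ph hT hA ha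
  obtain ⟨r₂, hr₂, hr₂', hS₂⟩ := hP a ha
  obtain ⟨r₀, hr₀, k1, k2⟩ : ∃ r₀ : ℝ, 0 < r₀ ∧ r₀ ≤ r₁ ∧ r₀ ≤ r₂ :=
    ⟨min r₁ r₂, lt_min hr₁ hr₂, min_le_left _ _, min_le_right _ _⟩
  have hS : ∀ r : ℝ, r ≤ r₀ → Sep (Pd 4 r) (Ph0 a) := fun r hr =>
    hS₂.mono fun z hz j => (hz j).trans (hr.trans k2)
  refine ⟨r₀, 3 * C / r₀ ^ 10, hr₀, fun r X X' hr hrr hX hXX => ?_⟩
  have hE : ∀ Y : ℝ, 0 < Y → ∀ (b w : ℂ), ‖w‖ ≤ 1 / 8 →
      DifferentiableAt ℂ (fun w : ℂ => ((Y : ℂ) ^ (1 + w) - b) / (1 + w)) w := fun Y hY b w hw => by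
    refine DifferentiableAt.div ((DifferentiableAt.const_cpow (by fun_prop)
      (Or.inl (ofReal_ne_zero.2 hY.ne'))).sub_const _) (by fun_prop) fun h => ?_
    rw [(neg_eq_of_add_eq_zero_right h).symm, norm_neg, norm_one] at hw
    linarith
  have hX0 : 0 < X := by linarith
  have hX0' : 0 < X' := by linarith
  have hL : 1 ≤ Real.log X' := by
    rw [Real.le_log_iff_exp_le hX0']
    linarith [Real.exp_one_lt_d9]
  have hr16 : r₀ ≤ 1 / 16 := k2.trans hr₂'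
  set E : ℂ → ℂ := fun w => ((X' : ℂ) ^ (1 + w) - 1) / (1 + w) - ((X : ℂ) ^ (1 + w) - 1) / (1 + w)
    with hEdef
  have hE' : ∀ w : ℂ, ‖w‖ ≤ 1 / 8 → DifferentiableAt ℂ E w := fun w hw =>
    (hE X' hX0' 1 w hw).sub (hE X hX0 1 w hw)
  have hρ : 0 < r₀ / Real.log X' := by positivity
  have hρ1 : r₀ / Real.log X' ≤ r₀ := div_le_self hr₀.le hL
  have hρ2 : r₀ / Real.log X' * Real.log X' = r₀ := by field_simp
  have e1 : X' * Qm 4 a r X' - X * Qm 4 a r X = 2 / 3 * ((2 * π : ℂ) ^ 4)⁻¹ *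
      On (r₀ / Real.log X') fun z => E (us z) * Ph0 a z / P8 z := by
    rw [pQINT a r X' hr (hrr.trans hr16) (by linarith) (hS r hrr),
      pQINT a r X hr (hrr.trans hr16) (by linarith) (hS r hrr), ← mul_sub,
      ← hO.2.1 4 r _ _ hr (qq_sep hr (hrr.trans hr16) (hS r hrr) (hE X' hX0' 1)).1
        (qq_sep hr (hrr.trans hr16) (hS r hrr) (hE X hX0 1)).1,
      hR 4 _ r₀ _ hρ hρ1 (qq_sep hρ hr16 (hS r₀ le_rfl) hE'),
      ← hR 4 r r₀ _ hr hrr (qq_sep hr hr16 (hS r₀ le_rfl) hE')]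
    congr 2
    funext z
    simp only [hEdef]
    ring
  generalize r₀ / Real.log X' = ρ at hρ hρ1 hρ2 e1
  have h2 := hO.1 4 ρ (3 * (X' - X) * (C * ρ ^ 18) / ρ ^ 32)
    (fun z => E (us z) * Ph0 a z / P8 z) hρ fun z hz => by
      have b1 := qq_us fun j => (hz j).2
      have b2 := h1 ρ z (hρ1.trans k1) fun j => (hz j).2
      have b3 : ‖P8 z‖ = ρ ^ 32 := by
        unfold P8
        rw [norm_prod, prod_congr rfl fun j _ => (by
          rw [norm_pow, le_antisymm (hz j).2 (hz j).1] : ‖z j ^ 8‖ = ρ ^ 8)]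
        simp [← pow_mul]
      have b4 : ‖E (us z)‖ ≤ 3 * (X' - X) := by
        generalize us z = w at b1
        have b5 := abs_le.1 ((abs_re_le_norm w).trans b1)
        have b6 : E w = ∫ t in X..X', (t : ℂ) ^ w := by
          rw [integral_cpow (Or.inl (by linarith [b5.1])), add_comm w]
          simp only [hEdef]
          ring
        rw [b6]
        refine (intervalIntegral.norm_integral_le_of_norm_le_const (C := 3) fun t ht => ?_).trans
          (by rw [abs_of_nonneg (by linarith)])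
        rw [Set.uIoc_of_le hXX] at ht
        have t1 : 1 ≤ t := by linarith [ht.1]
        rw [norm_cpow_eq_rpow_re_of_pos (by linarith)]
        refine (Real.rpow_le_rpow_of_exponent_le t1 b5.2).trans
          ((Real.rpow_le_rpow (by linarith) ht.2 (by linarith)).trans ?_)
        rw [Real.rpow_def_of_pos hX0']
        refine (Real.exp_le_exp.2 (show _ ≤ 1 by linarith)).trans ?_
        linarith [Real.exp_one_lt_d9]
      rw [norm_div, norm_mul, b3]
      have : 0 ≤ 3 * (X' - X) := by linarith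
      gcongr
  rw [e1, norm_mul]
  have hπ := Real.pi_pos
  have e2 : ‖(2 / 3 * ((2 * π : ℂ) ^ 4)⁻¹ : ℂ)‖ ≤ ((2 * π) ^ 4)⁻¹ := by
    rw [norm_mul, norm_inv, norm_pow, norm_mul, Complex.norm_real, Real.norm_of_nonneg hπ.le,
      norm_div, Complex.norm_ofNat, Complex.norm_ofNat]
    exact mul_le_of_le_one_left (by positivity) (by norm_num)
  refine (mul_le_mul e2 h2 (norm_nonneg _) (by positivity)).trans (le_of_eq ?_)
  rw [← hρ2]
  have : Real.log X' ≠ 0 := by linarith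
  field_simp

end Pool.Agent.Q4
end

-- part Pool.Agent.P.MP_ea46f5_nt.Q4.FRF1
section

namespace Pool.Agent.Q4

open Complex MeasureTheory Finset Pool.Agent.QM
open scoped Real

theorem pRF1 (hFE : FE1) (hLOP : LOP) (hLOB : LOB) (hX : XIB) : RF1 := by
  intro κ hκ
  obtain ⟨C, c, hC, h⟩ := hX
  obtain ⟨C', hC', h'⟩ := rf1_core hFE hLOP hLOB hC (c := c) (fun a ha u hu =>
    ⟨(h a ha u).1 (by linarith [hu.1]), (h a ha u).2 hu.1 hu.2⟩) hκ
  exact ⟨C', c, hC', fun t v κ' t' v' Z k _ hZ hk => (h' t v κ' t' v' Z k hZ hk).2⟩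

end Pool.Agent.Q4
end

-- part Pool.Agent.P.MP_ea46f5_nt.Q4.FW2B
section

/-! Size of the pair weight, the Cauchy determinant, the dual integrand. -/

namespace Pool.Agent.Q4

open Complex MeasureTheory Finset Pool.Agent.QM
open scoped Real

noncomputable def wq (κ T v : ℝ) (w : ℂ) : ℂ := (w + 1 / 2) * cexp (κ * (w - T * I) ^ 2 + v * w)

theorem w_gn (n : ℕ) (u : V4) : gn n u = gn 1 u ^ n := by simp [gn, prod_pow]

theorem w_dn (n : ℕ) (u : V4) : dn n u = 1 / gn 1 u ^ n := by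
  simp [dn, gn, prod_pow, prod_inv_distrib]

theorem w_g1 (u : V4) : 1 ≤ gn 1 u := (tc_br1 _).trans (tc_gn u 0)

theorem w_neg (t : ℝ) : br (-t) = br t := by simp [br]

theorem wq_bd (hS : SH4) {κ : ℝ} (hκ : Kp κ) (n : ℕ) : ∃ C : ℝ, 0 < C ∧ ∀ (T v : ℝ) (w : ℂ),
    0 ≤ w.re → w.re ≤ 12 → ‖wq κ T v w‖ * br w.im ^ n ≤
      C * br T ^ (n + 1) * Real.exp (v * w.re) * Real.exp (-|w.im - T|) := by
  obtain ⟨C, hC, h⟩ := hS.2.2 κ (n + 1) 0 hκ.1
  refine ⟨13 * Real.exp 144 * C, by positivity, fun T v w h0 h1 => ?_⟩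
  have h2 := (h w.im T).1
  have h3 : ‖w + 1 / 2‖ ≤ 13 * br w.im := by
    have := tc_norm (s := w + 1 / 2) (a := 13) (by norm_num)
      (by rw [abs_le]; constructor <;> simp <;> linarith)
    simpa using this
  have h4 : (κ * (w - T * I) ^ 2 + v * w : ℂ).re =
      κ * w.re ^ 2 + -κ * (w.im - T) ^ 2 + v * w.re := by
    simp [sq]; ring
  have h5 : κ * w.re ^ 2 ≤ 144 := by nlinarith [hκ.1, hκ.2]
  rw [wq, norm_mul, Complex.norm_exp, h4, Real.exp_add, Real.exp_add]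
  have hb := tc_br1 w.im
  calc _ ≤ 13 * br w.im * (Real.exp 144 * Real.exp (-κ * (w.im - T) ^ 2) * Real.exp (v * w.re)) *
        br w.im ^ n := by gcongr
    _ = 13 * Real.exp 144 * Real.exp (v * w.re) *
        (br w.im ^ (n + 1) * Real.exp (-κ * (w.im - T) ^ 2)) := by ring
    _ ≤ 13 * Real.exp 144 * Real.exp (v * w.re) *
        (C * br T ^ (n + 1) * Real.exp (-|w.im - T|)) := by gcongr
    _ = _ := by ring

theorem pW2B (hS : SH4) : W2B := by
  intro κ κ' n hκ hκ'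
  obtain ⟨C, hC, h⟩ := wq_bd hS hκ n
  obtain ⟨D, hD, h'⟩ := wq_bd hS hκ' n
  refine ⟨2 * (n + 1), C ^ 2 * D ^ 2, by positivity, fun t v t' v' =>
    ⟨fun u => wq κ t v (u 0) * wq κ' t' v' (u 1) * wq κ (-t) v (u 2) * wq κ' (-t') v' (u 3),
      by unfold wq; fun_prop, fun u => ?_, fun u hu => ?_⟩⟩
  · simp only [W2, pw, wq, hf, Fin.prod_univ_four]
    ring
  · have a0 := h t v (u 0) (hu 0).1 (hu 0).2
    have a1 := h' t' v' (u 1) (hu 1).1 (hu 1).2
    have a2 := h (-t) v (u 2) (hu 2).1 (hu 2).2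
    have a3 := h' (-t') v' (u 3) (hu 3).1 (hu 3).2
    rw [w_neg] at a2 a3
    have b := fun j => (zero_le_one.trans (tc_br1 (u j).im))
    have c := zero_le_one.trans (tc_br1 t)
    have c' := zero_le_one.trans (tc_br1 t')
    have b0 := b 0
    have b1 := b 1
    have b2 := b 2
    have b3 := b 3
    simp only [gn, Fin.prod_univ_four, norm_mul, Matrix.cons_val_zero, Matrix.cons_val_one,
      Matrix.cons_val, mul_add, Real.exp_add]
    calc _ = ‖wq κ t v (u 0)‖ * br (u 0).im ^ n * (‖wq κ' t' v' (u 1)‖ * br (u 1).im ^ n) *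
          (‖wq κ (-t) v (u 2)‖ * br (u 2).im ^ n) *
          (‖wq κ' (-t') v' (u 3)‖ * br (u 3).im ^ n) := by ring
      _ ≤ _ := by
          refine (mul_le_mul (mul_le_mul (mul_le_mul a0 a1 (by positivity) (by positivity)) a2
            (by positivity) (by positivity)) a3 (by positivity) (by positivity)).trans_eq ?_
          ring

theorem pCAU (hZ : ZF) : CAU := by
  obtain ⟨-, -, hLo, -, C, hC, hlz, -⟩ := hZ
  have hlz' : ∀ w : ℂ, -(3 / 4) ≤ w.re → w.re ≤ 29 → ‖lz w‖ ≤ (C + 1) * br w.im ^ 2 :=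
    fun w h0 h1 => (hlz w h0 h1).trans (by gcongr; linarith)
  refine ⟨4 * (C + 1) ^ 10, 40, by positivity, fun ε τ h0 h1 => ⟨?_, fun i => ?_⟩⟩
  · have := tb_ZO hLo (by linarith) hlz' h0 (pt (cs ε) τ) fun j => by
      simp only [pt, cs, add_re, ofReal_re, mul_re, I_re, ofReal_im, I_im]
      constructor <;> linarith
    rw [w_gn]
    simpa [pt] using this
  · have hr : ∀ j, (pt (rl ε) τ j).re = ((j : ℕ) + 1) * ε := fun j => by simp [pt, rl]
    have := tb_FZ hLo (by linarith) hlz' h0 (pt (rl ε) τ) (fun j => by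
      rw [hr]
      have a : (0 : ℝ) ≤ (j : ℕ) := Nat.cast_nonneg _
      have b : ((j : ℕ) : ℝ) ≤ 3 := by exact_mod_cast Nat.lt_succ_iff.1 j.2
      constructor <;> nlinarith) i (fun j hj => by
      rw [hr, hr, ← sub_mul, abs_mul, abs_of_pos h0]
      refine le_mul_of_one_le_left h0.le ?_
      have a : ((j : ℕ) : ℤ) - (i : ℕ) ≠ 0 := fun h => hj (Fin.ext (by omega))
      have b := Int.one_le_abs a
      rw [add_sub_add_right_eq_sub]
      exact_mod_cast b)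
    rw [w_gn]
    simpa [pt] using this

theorem pALG (hZ : ZF) (hH : HB4) : ALG := by
  intro κ κ' A hκ hκ'
  obtain ⟨c, C, hC, h⟩ := tc_Rz A hκ hκ'
  obtain ⟨D, B, hD, hH⟩ := hH
  refine ⟨c, C * D, by positivity, fun t v t' v' k z h0 h1 => ?_⟩
  obtain ⟨hh, hb⟩ := (hH 1).1 k
  have hs : ∀ s ∈ Bx (-(1 / 40)) (1 / 40), ∀ j, |(s j).re| ≤ 1 / 40 := fun s hs j =>
    abs_le.2 (hs j)
  have hv : ∀ s ∈ Bx (-(1 / 40)) (1 / 40), (z, sh z s) ∈ Vk := fun s hs' => by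
    refine ⟨by dsimp only; linarith, by dsimp only; linarith, fun j => ?_⟩
    have := abs_le.1 (hs s hs' j)
    simp only [sh, add_re, sub_re, one_div, inv_re]
    norm_num
    constructor <;> linarith
  refine ⟨fun s => Rz A κ t κ' t' z s * Hk 1 k z (sh z s), fun s hs' => ?_, fun s hs' => ?_,
    fun s hs' => ?_⟩
  · refine (tc_hol A κ t κ' t' z s (hs s hs')).mul ?_
    exact DifferentiableAt.comp (g := fun x : ℂ × V4 => Hk 1 k x.1 x.2)
      (f := fun s : V4 => (z, sh z s)) s (hh _ (hv s hs')) (by unfold sh; fun_prop)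
  · have a := h t t' z s h0 h1 (hs s hs')
    have b := hb _ (hv s hs')
    simp only [Nat.cast_one, one_pow, mul_one] at b
    rw [norm_mul]
    refine (mul_le_mul a b (norm_nonneg _) ((norm_nonneg _).trans a)).trans_eq ?_
    ring
  · have := tc_id hZ.2.2.2.1 A κ t v κ' t' v' k z s fun j => le_antisymm (hs' j).2 (hs' j).1
    unfold GZ4 at this
    rw [mul_add (2 : ℂ)]
    linear_combination Hk 1 k z (sh z s) * this

/-- What the mean square uses about the pair weight. -/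
theorem w2_all (hV : VDP) (hW : W2B) {κ κ' : ℝ} (hκ : Kp κ) (hκ' : Kp κ') (n : ℕ) :
    ∃ (A : ℕ) (C : ℝ), 0 < C ∧ ∀ t v t' v' : ℝ, ∃ Q : V4 → ℂ, Differentiable ℂ Q ∧
      (∀ u, W2 κ t v κ' t' v' u = an u * (∏ j, u j) * Q u * hf u) ∧ ∀ u ∈ Bx 0 12,
        ‖Q u * hf u‖ * gn n u ≤ C * br t ^ A * br t' ^ A *
          Real.exp (v * ((u 0).re + (u 2).re) + v' * ((u 1).re + (u 3).re)) *
          ∏ j, Real.exp (-|(u j).im - (![t, t', -t, -t'] : R4) j|) ∧
        ‖an u * (∏ j, u j) * Q u‖ ≤ C * br t ^ A * br t' ^ A *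
          Real.exp (v * ((u 0).re + (u 2).re) + v' * ((u 1).re + (u 3).re)) * dn n u ∧
        ‖W2 κ t v κ' t' v' u‖ ≤ C * br t ^ A * br t' ^ A *
          Real.exp (v * ((u 0).re + (u 2).re) + v' * ((u 1).re + (u 3).re)) * dn n u := by
  obtain ⟨D, N, hD, -, hV, -⟩ := hV
  obtain ⟨A, C, hC, h⟩ := hW κ κ' (n + 3 * N) hκ hκ'
  refine ⟨A, (D + 1) ^ 3 * C, by positivity, fun t v t' v' => ?_⟩
  obtain ⟨Q, hQ, hid, hb⟩ := h t v t' v'
  refine ⟨Q, hQ, hid, fun u hu => ?_⟩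
  obtain ⟨-, a1, a2, a3⟩ := hV u fun j => ⟨le_trans (by norm_num [cs]) (hu j).1,
    (hu j).2.trans (by norm_num [cs])⟩
  have b := hb u hu
  have c := tc_br1 t
  have c' := tc_br1 t'
  have hP : ∏ j, Real.exp (-|(u j).im - (![t, t', -t, -t'] : R4) j|) ≤ 1 :=
    prod_le_one (fun _ _ => (Real.exp_pos _).le) fun _ _ =>
      Real.exp_le_one_iff.2 (neg_nonpos.2 (abs_nonneg _))
  have hP0 : 0 ≤ ∏ j, Real.exp (-|(u j).im - (![t, t', -t, -t'] : R4) j|) := by positivity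
  rw [hid, w_dn, w_gn n]
  rw [w_gn] at a1 a2 a3 b
  have hG := w_g1 u
  generalize gn 1 u = G at *
  generalize (∏ j, Real.exp (-|(u j).im - (![t, t', -t, -t'] : R4) j|)) = P at *
  have hE := Real.exp_pos (v * ((u 0).re + (u 2).re) + v' * ((u 1).re + (u 3).re))
  generalize Real.exp (v * ((u 0).re + (u 2).re) + v' * ((u 1).re + (u 3).re)) = E at *
  have hT : 1 ≤ (D + 1) * G ^ N := one_le_mul_of_one_le_of_one_le (by linarith) (one_le_pow₀ hG)
  have k : ∀ x y z : ℝ, 0 ≤ x → 0 ≤ y → 0 ≤ z → x ≤ (D + 1) * G ^ N → y ≤ (D + 1) * G ^ N →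
      z ≤ (D + 1) * G ^ N → x * y * ‖Q u‖ * z * G ^ n ≤
        (D + 1) ^ 3 * C * br t ^ A * br t' ^ A * E * P := fun x y z _ _ _ hx hy hz =>
    calc _ ≤ (D + 1) * G ^ N * ((D + 1) * G ^ N) * ‖Q u‖ * ((D + 1) * G ^ N) * G ^ n := by gcongr
      _ = (D + 1) ^ 3 * (‖Q u‖ * G ^ (n + 3 * N)) := by ring
      _ ≤ (D + 1) ^ 3 * (C * br t ^ A * br t' ^ A * E * P) := by gcongr
      _ = _ := by ring
  have up : ∀ x : ℝ, x ≤ D * G ^ N → x ≤ (D + 1) * G ^ N := fun x hx =>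
    hx.trans (by gcongr; linarith)
  have fin : ∀ x : ℝ, x * G ^ n ≤ (D + 1) ^ 3 * C * br t ^ A * br t' ^ A * E * P →
      x ≤ (D + 1) ^ 3 * C * br t ^ A * br t' ^ A * E * (1 / G ^ n) := fun x hx => by
    rw [mul_one_div, le_div_iff₀ (by positivity)]
    exact hx.trans (mul_le_of_le_one_right (by positivity) hP)
  simp only [norm_mul]
  refine ⟨?_, fin _ ?_, fin _ (k _ _ _ (norm_nonneg _) (norm_nonneg _) (norm_nonneg _) (up _ a1)
    (up _ a2) (up _ a3))⟩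
  · simpa using k 1 1 _ zero_le_one zero_le_one (norm_nonneg _) hT hT (up _ a3)
  · simpa using k _ _ 1 (norm_nonneg _) (norm_nonneg _) zero_le_one (up _ a1) (up _ a2) hT

theorem w2_diff (κ t v κ' t' v' : ℝ) : Differentiable ℂ (W2 κ t v κ' t' v') := by
  unfold W2 an pw
  fun_prop

theorem w2_M (hV : VDP) (hW : W2B) {κ κ' : ℝ} (hκ : Kp κ) (hκ' : Kp κ') (n : ℕ) (t v t' v' : ℝ) :
    ∃ M : ℝ, ∀ u ∈ Bx 0 12, ‖W2 κ t v κ' t' v' u‖ ≤ M * dn n u := by
  obtain ⟨A, C, hC, h⟩ := w2_all hV hW hκ hκ' n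
  obtain ⟨Q, -, -, hb⟩ := h t v t' v'
  refine ⟨C * br t ^ A * br t' ^ A * Real.exp (|v| * 24 + |v'| * 24), fun u hu =>
    (hb u hu).2.2.trans ?_⟩
  have c := tc_br1 t
  have c' := tc_br1 t'
  have hG := w_g1 u
  have a : ∀ j, 0 ≤ (u j).re ∧ (u j).re ≤ 12 := hu
  have k : ∀ (x : ℝ) (i j), x * ((u i).re + (u j).re) ≤ |x| * 24 := fun x i j =>
    mul_le_mul (le_abs_self x) (by linarith [a i, a j]) (by linarith [a i, a j]) (abs_nonneg x)
  have e := Real.exp_le_exp.2 (add_le_add (k v 0 2) (k v' 1 3))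
  rw [w_dn]
  gcongr

end Pool.Agent.Q4
end

-- part Pool.Agent.P.MP_ea46f5_nt.Q4.FWRB
section

namespace Pool.Agent.Q4

open Complex MeasureTheory Finset Pool.Agent.QM
open scoped Real

theorem wb_gn (n : ℕ) (u : V4) : gn n u = gn 1 u ^ n := by
  unfold gn; rw [← prod_pow]; simp

theorem wb_dn (n : ℕ) (u : V4) : dn n u = 1 / gn 1 u ^ n := by
  rw [← wb_gn]; unfold dn gn; rw [prod_div_distrib]; simp

theorem wb_G1 (u : V4) : 1 ≤ gn 1 u := s4_one_le_prod _ _ fun _ _ => one_le_pow₀ (s4_br1 _)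

theorem wb_br (u : V4) (j : Fin 4) : br (u j).im ≤ gn 1 u := by
  have := tw_single (fun j => br (u j).im ^ 1) (fun j => one_le_pow₀ (s4_br1 _)) j
  simpa [gn] using this

theorem wb_nrm {u : V4} {ε : ℝ} (hε : 0 ≤ ε) (hu : u ∈ Bx ε 12) (j : Fin 4) :
    ‖u j‖ ≤ 12 * gn 1 u := by
  have h := tw_bx hu j
  have h1 : ‖u j‖ ≤ 12 * br (u j).im := tw_nrm (by norm_num) (abs_le.2 ⟨by linarith [h.1], h.2⟩)
  linarith [wb_br u j]

theorem wb_prod4 {f : Fin 4 → ℂ} {Q : ℝ} (h : ∀ j, ‖f j‖ ≤ Q) : ‖∏ j, f j‖ ≤ Q ^ 4 := by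
  rw [norm_prod]
  have := prod_le_prod (s := univ) (f := fun j => ‖f j‖) (g := fun _ => Q)
    (fun _ _ => norm_nonneg _) fun j _ => h j
  simpa using this

theorem wb_prod10 {f : Fin 4 → Fin 4 → ℂ} {Q : ℝ} (h : ∀ i j, ‖f i j‖ ≤ Q) :
    ‖∏ i, ∏ j ∈ Ici i, f i j‖ ≤ Q ^ 10 := by
  have h1 : ∀ i : Fin 4, ‖∏ j ∈ Ici i, f i j‖ ≤ Q ^ (Ici i).card := fun i => by
    rw [norm_prod, ← prod_const]
    exact prod_le_prod (fun _ _ => norm_nonneg _) fun j _ => h i j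
  rw [norm_prod]
  refine (prod_le_prod (fun _ _ => norm_nonneg _) fun i _ => h1 i).trans_eq ?_
  rw [prod_pow_eq_pow_sum]
  congr 1

theorem wb_hf {u : V4} {ε : ℝ} (hε : 0 ≤ ε) (hu : u ∈ Bx ε 12) : ‖hf u‖ ≤ (13 * gn 1 u) ^ 4 := by
  refine wb_prod4 fun j => (norm_sub_le _ _).trans ?_
  have := wb_nrm hε hu j
  have := wb_G1 u
  have e : ‖(1 / 2 : ℂ)‖ = 1 / 2 := by simp
  rw [e]; linarith

theorem wb_vd2 {u : V4} {ε : ℝ} (hε : 0 ≤ ε) (hu : u ∈ Bx ε 12) :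
    ‖Vd fun j => u j ^ 2‖ ≤ (288 * gn 1 u ^ 2) ^ 6 := by
  refine (tw_vd _ (144 * gn 1 u ^ 2) fun j => ?_).trans_eq (by ring)
  rw [norm_pow]
  have := wb_nrm hε hu j
  calc ‖u j‖ ^ 2 ≤ (12 * gn 1 u) ^ 2 := by gcongr
    _ = _ := by ring

theorem wb_P {g : ℂ → ℂ} {C₀ : ℝ} (hg : GC g C₀) (m : ℕ) : ∃ C : ℝ, 0 < C ∧ ∀ γ ∈ T3,
    ∀ ε : ℝ, 0 < ε → ∀ u ∈ Bx ε 12,
      ‖∏ j, wr g γ (u j)‖ ≤ C * (∏ j, 1 / ‖u j‖ ^ 7) / gn 1 u ^ m := by
  obtain ⟨D, hD, h⟩ := s4_gauss' (κ := 3 / 4) (by norm_num) (m + 1)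
  have hC := hg.pos
  refine ⟨(52 * (C₀ + 1) * D) ^ 4, by positivity, fun γ hγ ε hε u hu => ?_⟩
  have h1 : ∀ j, ‖wr g γ (u j)‖ ≤ 52 * (C₀ + 1) * D * (1 / ‖u j‖ ^ 7 * (1 / br (u j).im ^ m)) := by
    intro j
    have hb := tw_bx hu j
    refine (tw_wr hg hγ (by linarith [hb.1]) hb.2).trans ?_
    have p := s4_br0 (u j).im
    have h2 : br (u j).im * Real.exp (-(3 / 4) * (u j).im ^ 2) ≤ D / br (u j).im ^ m := by
      rw [le_div_iff₀ (by positivity)]
      have := h (u j).im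
      calc _ = br (u j).im ^ (m + 1) * Real.exp (-(3 / 4) * (u j).im ^ 2) := by ring
        _ ≤ D := this
    calc 52 * C₀ * br (u j).im * Real.exp (-(3 / 4) * (u j).im ^ 2) / ‖u j‖ ^ 7
        = 52 * C₀ * (br (u j).im * Real.exp (-(3 / 4) * (u j).im ^ 2)) * (1 / ‖u j‖ ^ 7) := by ring
      _ ≤ 52 * (C₀ + 1) * (D / br (u j).im ^ m) * (1 / ‖u j‖ ^ 7) := by
          gcongr; linarith
      _ = _ := by ring
  rw [norm_prod]
  refine (prod_le_prod (fun _ _ => norm_nonneg _) fun j _ => h1 j).trans_eq ?_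
  rw [prod_mul_distrib, prod_const, prod_mul_distrib, card_univ, Fintype.card_fin]
  have e : ∏ j, 1 / br (u j).im ^ m = dn m u := rfl
  rw [e, wb_dn]; ring

theorem wb_inv {u : V4} {ε : ℝ} (hε : 0 < ε) (hu : u ∈ Bx ε 12) (m : ℕ) :
    ∏ j, 1 / ‖u j‖ ^ m ≤ (1 / min ε 1) ^ (4 * m) := by
  have p : 0 < min ε 1 := lt_min hε one_pos
  have h1 : ∀ j, 1 / ‖u j‖ ^ m ≤ (1 / min ε 1) ^ m := fun j => by
    have h2 : min ε 1 ≤ ‖u j‖ :=
      (min_le_left _ _).trans ((tw_bx hu j).1.trans (Complex.re_le_norm _))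
    rw [one_div_pow]
    exact one_div_le_one_div_of_le (by positivity) (pow_le_pow_left₀ p.le h2 m)
  refine (prod_le_prod (fun _ _ => by positivity) fun j _ => h1 j).trans_eq ?_
  rw [prod_const, card_univ, Fintype.card_fin, ← pow_mul, mul_comm]

theorem wb_cut (hT : TH8) {u : V4} {ε Δ : ℝ} (hε : 0 < ε) (hΔ : 1 ≤ Δ) (hu : u ∈ Bx ε 12) :
    ‖1 - cF Δ u‖ ≤ 15 * Real.exp (-Δ * ε) * (13 * Δ * gn 1 u) ^ 28 := by
  set E := Real.exp (-Δ * ε) with hE
  set b := (13 * Δ * gn 1 u) ^ 7 with hb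
  have G1 := wb_G1 u
  have E1 : E ≤ 1 := Real.exp_le_one_iff.2 (by nlinarith)
  have E0 : 0 < E := Real.exp_pos _
  have b1 : 1 ≤ b := one_le_pow₀ (by nlinarith)
  have h1 : ∀ j, ‖th8 (u j * Δ)‖ ≤ E * b := fun j => by
    refine (hT.2.1 _).trans ?_
    have h2 := wb_nrm hε.le hu j
    have h3 := (tw_bx hu j).1
    have e1 : (u j * Δ).re = (u j).re * Δ := by simp
    have e2 : ‖u j * Δ‖ = ‖u j‖ * Δ := by
      rw [norm_mul, Complex.norm_real, Real.norm_of_nonneg (by linarith)]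
    rw [e1, e2]
    gcongr
    · exact Real.exp_le_exp.2 (by nlinarith)
    · exact pow_le_pow_left₀ (by positivity) (by nlinarith) 7
  have h2 : ∀ j, ‖1 - th8 (u j * Δ)‖ ≤ 2 * b := fun j => by
    have := norm_sub_le (1 : ℂ) (th8 (u j * Δ))
    rw [norm_one] at this
    nlinarith [h1 j]
  have e : 1 - cF Δ u = th8 (u 0 * Δ) + (1 - th8 (u 0 * Δ)) * th8 (u 1 * Δ) +
      (1 - th8 (u 0 * Δ)) * (1 - th8 (u 1 * Δ)) * th8 (u 2 * Δ) +
      (1 - th8 (u 0 * Δ)) * (1 - th8 (u 1 * Δ)) * (1 - th8 (u 2 * Δ)) * th8 (u 3 * Δ) := by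
    unfold cF; rw [Fin.prod_univ_four]; ring
  have b0 : 0 ≤ b := by linarith
  have t1 : ‖(1 - th8 (u 0 * Δ)) * th8 (u 1 * Δ)‖ ≤ 2 * b * (E * b) := by
    rw [norm_mul]; gcongr; exacts [h2 0, h1 1]
  have t2 : ‖(1 - th8 (u 0 * Δ)) * (1 - th8 (u 1 * Δ)) * th8 (u 2 * Δ)‖ ≤
      2 * b * (2 * b) * (E * b) := by
    rw [norm_mul, norm_mul]; gcongr; exacts [h2 0, h2 1, h1 2]
  have t3 : ‖(1 - th8 (u 0 * Δ)) * (1 - th8 (u 1 * Δ)) * (1 - th8 (u 2 * Δ)) * th8 (u 3 * Δ)‖ ≤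
      2 * b * (2 * b) * (2 * b) * (E * b) := by
    rw [norm_mul, norm_mul, norm_mul]; gcongr; exacts [h2 0, h2 1, h2 2, h1 3]
  have e4 : (13 * Δ * gn 1 u) ^ 28 = b ^ 4 := by rw [hb, ← pow_mul]
  have q1 : b ≤ b ^ 4 := le_self_pow₀ b1 (by norm_num)
  have q2 : b ^ 2 ≤ b ^ 4 := pow_le_pow_right₀ b1 (by norm_num)
  have q3 : b ^ 3 ≤ b ^ 4 := pow_le_pow_right₀ b1 (by norm_num)
  rw [e, e4]
  refine (norm_add_le_of_le (norm_add_le_of_le (norm_add_le_of_le (h1 0) t1) t2) t3).trans ?_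
  nlinarith [mul_le_mul_of_nonneg_left q1 E0.le, mul_le_mul_of_nonneg_left q2 E0.le,
    mul_le_mul_of_nonneg_left q3 E0.le]

theorem wb_cF (hT : TH8) {u : V4} {ε Δ : ℝ} (hε : 0 < ε) (hΔ : 1 ≤ Δ) (hu : u ∈ Bx ε 12) :
    ‖cF Δ u‖ ≤ Δ ^ 32 * ∏ j, ‖u j‖ ^ 8 := by
  obtain ⟨β, -, h1, h2⟩ := hT.2.2
  unfold cF
  rw [norm_prod]
  have h3 : ∀ j, ‖1 - th8 (u j * Δ)‖ ≤ Δ ^ 8 * ‖u j‖ ^ 8 := fun j => by
    have h4 := (tw_bx hu j).1
    have e1 : (u j * Δ).re = (u j).re * Δ := by simp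
    have e2 : ‖u j * Δ‖ = ‖u j‖ * Δ := by
      rw [norm_mul, Complex.norm_real, Real.norm_of_nonneg (by linarith)]
    rw [h1, norm_mul, norm_pow, e2]
    have h5 := h2 (u j * Δ) (by rw [e1]; nlinarith)
    calc (‖u j‖ * Δ) ^ 8 * ‖β (u j * Δ)‖ ≤ (‖u j‖ * Δ) ^ 8 * 1 := by gcongr
      _ = _ := by ring
  refine (prod_le_prod (fun _ _ => norm_nonneg _) fun j _ => h3 j).trans_eq ?_
  rw [prod_mul_distrib, prod_const, card_univ, Fintype.card_fin, ← pow_mul]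

theorem wb_ZO (hV : VDP) (hZ : ZF) : ∃ C : ℝ, 0 < C ∧ ∀ ε : ℝ, 0 < ε → ∀ u ∈ Bx ε 12,
    ‖(Vd fun j => u j ^ 2) * ZO u‖ ≤ C * gn 1 u ^ 46 * ∏ j, 1 / ‖u j‖ := by
  obtain ⟨-, -, z3, -, C, hC, z5, -⟩ := hZ
  obtain ⟨-, -, -, -, -, -, -, v⟩ := hV
  refine ⟨24 ^ 6 * C ^ 10, by positivity, fun ε hε u hu => ?_⟩
  have G1 := wb_G1 u
  have r : ∀ j, 0 < (u j).re := fun j => hε.trans_le (tw_bx hu j).1
  have n1 : ∀ j, u j ≠ 0 := fun j h => by simpa [h] using r j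
  have n2 : ∀ i j, u i + u j ≠ 0 := fun i j h => by
    have := congrArg Complex.re h
    simp only [add_re, zero_re] at this
    linarith [r i, r j]
  have e1 : ZO u = (∏ i, ∏ j ∈ Ici i, lz (u i + u j)) / ∏ i, ∏ j ∈ Ici i, (u i + u j) := by
    unfold ZO
    rw [← prod_div_distrib]
    refine prod_congr rfl fun i _ => ?_
    rw [← prod_div_distrib]
    exact prod_congr rfl fun j _ => by rw [add_assoc, z3 _ (n2 i j)]
  have n3 : (∏ i, ∏ j ∈ Ici i, (u i + u j)) ≠ 0 :=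
    prod_ne_zero_iff.2 fun i _ => prod_ne_zero_iff.2 fun j _ => n2 i j
  have n4 : (∏ j, u j) ≠ 0 := prod_ne_zero_iff.2 fun j _ => n1 j
  have e2 : (Vd fun j => u j ^ 2) * ZO u =
      Vd u * (∏ i, ∏ j ∈ Ici i, lz (u i + u j)) / (16 * ∏ j, u j) := by
    rw [e1, eq_div_iff (mul_ne_zero (by norm_num) n4)]
    calc _ = (Vd fun j => u j ^ 2) * (16 * ∏ j, u j) * (∏ i, ∏ j ∈ Ici i, lz (u i + u j)) /
          ∏ i, ∏ j ∈ Ici i, (u i + u j) := by ring
      _ = _ := by rw [v u]; field_simp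
  have b1 : ‖Vd u‖ ≤ (24 * gn 1 u) ^ 6 :=
    (tw_vd u (12 * gn 1 u) (wb_nrm hε.le hu)).trans_eq (by ring)
  have b2 : ‖∏ i, ∏ j ∈ Ici i, lz (u i + u j)‖ ≤ (C * gn 1 u ^ 4) ^ 10 := by
    refine wb_prod10 fun i j => (z5 _ ?_ ?_).trans ?_
    · rw [add_re]; linarith [r i, r j]
    · rw [add_re]; linarith [(tw_bx hu i).2, (tw_bx hu j).2]
    · rw [add_im]
      have h1 : br ((u i).im + (u j).im) ≤ gn 1 u * gn 1 u :=
        (s4_br_add _ _).trans (mul_le_mul (wb_br u i) (wb_br u j) (s4_br0 _).le (by linarith))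
      have := s4_br0 ((u i).im + (u j).im)
      calc C * br ((u i).im + (u j).im) ^ 2 ≤ C * (gn 1 u * gn 1 u) ^ 2 := by gcongr
        _ = _ := by ring
  have p : 0 < ∏ j, ‖u j‖ := prod_pos fun j _ => norm_pos_iff.2 (n1 j)
  rw [e2, norm_div, norm_mul, norm_mul, norm_prod (f := u), prod_div_distrib, prod_const_one]
  have e3 : ‖(16 : ℂ)‖ = 16 := by simp
  rw [e3]
  calc ‖Vd u‖ * ‖∏ i, ∏ j ∈ Ici i, lz (u i + u j)‖ / (16 * ∏ j, ‖u j‖)
      ≤ (24 * gn 1 u) ^ 6 * (C * gn 1 u ^ 4) ^ 10 / (1 * ∏ j, ‖u j‖) := by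
        gcongr; norm_num
    _ = _ := by ring

theorem pWRB (hT : TH8) (hV : VDP) (hZ : ZF) : WRB := by
  intro g C₀ n hg
  obtain ⟨C, hC, hP⟩ := wb_P hg (n + 62)
  obtain ⟨D, hD, hZO⟩ := wb_ZO hV hZ
  refine ⟨C * (15 * 13 ^ 28 * 288 ^ 12 * 13 ^ 4) * (1 + D), by positivity, fun γ hγ =>
    ⟨fun u hu => tw_hprod fun j => tw_hwr hg hγ (hu j), fun u hu => tw_hWr hg hγ hu, tw_hcF,
      by unfold hf; fun_prop, tw_hus, fun ε Δ hε hΔ u hu => ?_⟩⟩
  have h1 := hP γ hγ ε hε u hu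
  have h2 := wb_inv hε hu 7
  have h3 := wb_cut hT hε hΔ hu
  have h4 := wb_vd2 hε.le hu
  have h5 := wb_hf hε.le hu
  have h6 := hZO ε hε u hu
  have G1 := wb_G1 u
  have pm : 0 < min ε 1 := lt_min hε one_pos
  rw [wb_dn]
  have eΔ : Δ / min ε 1 = Δ * (1 / min ε 1) := by ring
  have μ0 : 0 < 1 / min ε 1 := by positivity
  have E0 : 0 < Real.exp (-Δ * ε) := Real.exp_pos _
  have h9 := wb_cF hT hε hΔ hu
  rw [eΔ]
  clear hP hZO eΔ hV hZ hT
  generalize gn 1 u = G at *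
  generalize Real.exp (-Δ * ε) = E at *
  generalize 1 / min ε 1 = μ at *
  have G0 : 0 < G := by linarith
  have h7 : ‖∏ j, wr g γ (u j)‖ ≤ C * μ ^ 28 / G ^ (n + 62) := h1.trans (by gcongr)
  have key : ∀ (a : ℕ) (K T : ℝ), a ≤ 62 → 0 ≤ K → K ≤ 15 * 13 ^ 28 * 288 ^ 12 * 13 ^ 4 → 0 ≤ T →
      C / G ^ (n + 62) * (K * G ^ a) * T ≤
        C * (15 * 13 ^ 28 * 288 ^ 12 * 13 ^ 4) * (1 + D) * T * (1 / G ^ n) := by
    intro a K T ha hK0 hK hT0
    have h8 : G ^ a ≤ G ^ 62 := pow_le_pow_right₀ G1 ha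
    calc C / G ^ (n + 62) * (K * G ^ a) * T
        ≤ C / G ^ (n + 62) * ((15 * 13 ^ 28 * 288 ^ 12 * 13 ^ 4) * G ^ 62) * T := by gcongr
      _ = C * (15 * 13 ^ 28 * 288 ^ 12 * 13 ^ 4) * 1 * T * (1 / G ^ n) := by
          rw [pow_add]; field_simp
      _ ≤ _ := by gcongr; linarith
  have Δ0 : 0 < Δ := by linarith
  have T0 : 0 ≤ (Δ * μ) ^ 28 * E := mul_nonneg (pow_nonneg (mul_nonneg Δ0.le μ0.le) _) E0.le
  refine ⟨?_, ?_, ?_, ?_, ?_, h9⟩
  · rw [norm_mul]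
    calc _ ≤ C * μ ^ 28 / G ^ (n + 62) * (15 * E * (13 * Δ * G) ^ 28) := by gcongr
      _ = C / G ^ (n + 62) * (15 * 13 ^ 28 * G ^ 28) * ((Δ * μ) ^ 28 * E) := by ring
      _ ≤ _ := (key 28 _ _ (by norm_num) (by norm_num) (by norm_num) T0).trans_eq
        (by ring)
  · unfold Wr
    rw [norm_mul, norm_mul, norm_pow]
    calc _ ≤ ((288 * G ^ 2) ^ 6) ^ 2 * (C * μ ^ 28 / G ^ (n + 62)) *
          (15 * E * (13 * Δ * G) ^ 28) := by gcongr
      _ = C / G ^ (n + 62) * (15 * 13 ^ 28 * 288 ^ 12 * G ^ 52) * ((Δ * μ) ^ 28 * E) := by ring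
      _ ≤ _ := (key 52 _ _ (by norm_num) (by norm_num) (by norm_num) T0).trans_eq
        (by ring)
  · unfold W4 Wr
    rw [norm_mul, norm_mul, norm_mul, norm_pow]
    calc _ ≤ ((288 * G ^ 2) ^ 6) ^ 2 * (C * μ ^ 28 / G ^ (n + 62)) * (13 * G) ^ 4 *
          (15 * E * (13 * Δ * G) ^ 28) := by gcongr
      _ = C / G ^ (n + 62) * (15 * 13 ^ 28 * 288 ^ 12 * 13 ^ 4 * G ^ 56) * ((Δ * μ) ^ 28 * E) := by
          ring
      _ ≤ _ := (key 56 _ _ (by norm_num) (by norm_num) le_rfl T0).trans_eq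
        (by ring)
  · unfold W4 Wr
    rw [norm_mul, norm_mul, norm_pow]
    calc _ ≤ ((288 * G ^ 2) ^ 6) ^ 2 * (C * μ ^ 28 / G ^ (n + 62)) * (13 * G) ^ 4 := by gcongr
      _ = C / G ^ (n + 62) * (288 ^ 12 * 13 ^ 4 * G ^ 28) * μ ^ 28 := by ring
      _ ≤ _ := key 28 _ _ (by norm_num) (by norm_num) (by norm_num) (by positivity)
  · have e : W4 g γ u * ZO u = (Vd fun j => u j ^ 2) * (∏ j, wr g γ (u j)) * hf u *
        ((Vd fun j => u j ^ 2) * ZO u) := by unfold W4 Wr; ring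
    have e8 : ∏ j, 1 / ‖u j‖ ^ 8 = (∏ j, 1 / ‖u j‖ ^ 7) * ∏ j, 1 / ‖u j‖ := by
      rw [← prod_mul_distrib]; exact prod_congr rfl fun j _ => by rw [pow_succ, div_mul_div_comm, mul_one]
    have q7 : 0 ≤ ∏ j, 1 / ‖u j‖ ^ 7 := prod_nonneg fun _ _ => by positivity
    have q1 : 0 ≤ ∏ j, 1 / ‖u j‖ := prod_nonneg fun _ _ => by positivity
    rw [e, norm_mul, norm_mul, norm_mul, e8]
    generalize (∏ j, 1 / ‖u j‖ ^ 7) = T at *
    generalize (∏ j, 1 / ‖u j‖) = T' at *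
    calc _ ≤ (288 * G ^ 2) ^ 6 * (C * T / G ^ (n + 62)) * (13 * G) ^ 4 * (D * G ^ 46 * T') := by
          gcongr
      _ = C * (288 ^ 6 * 13 ^ 4) * D * (T * T') * (1 / G ^ n) := by rw [pow_add]; field_simp
      _ ≤ _ := by
          gcongr
          · norm_num
          · linarith

end Pool.Agent.Q4
end

-- part Pool.Agent.P.MP_ea46f5_nt.Q4.FZB
section

namespace Pool.Agent.Q4

open Complex MeasureTheory Finset
open scoped Real
open Pool.Agent.QM

theorem pZB (hLOP : LOP) (hIZ : IZ) : ZB := by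
  obtain ⟨C, hC, hI⟩ := hIZ.2.1
  refine ⟨C ^ 10 + 240 ^ 10 + 240 ^ 10 * C ^ 4, 12, by positivity, fun u hu => k1_ZO_hol hLOP hu,
    fun x hx => ?_, fun s hs => ?_, fun s hs => ?_, fun ε hε _ u hu => ?_, fun u hu => ?_⟩
  · refine ((k1_ZO_hol hLOP hx.2).comp x differentiableAt_snd).mul (k1_dprod fun j _ => ?_)
    exact (hIZ.1 (1 + x.2 j + x.1) (by simp; linarith [hx.1, hx.2 j])).comp x
      (f := fun x : ℂ × V4 => 1 + x.2 j + x.1) (by fun_prop)
  · refine k1_dprod fun i _ => k1_dprod fun j _ => ?_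
    exact (hIZ.1 (1 + s i + s j) (by simp; linarith [hs i, hs j])).comp s
      (f := fun x : V4 => 1 + x i + x j) (by fun_prop)
  · have h : ∀ i j, ‖iz (1 + s i + s j)‖ ≤ C * (br (s i).im * br (s j).im) ^ 2 := fun i j => by
      have h1 : 0 ≤ (s i).re := (hs i).1
      have h2 : 0 ≤ (s j).re := (hs j).1
      refine (hI _ (by simp; linarith)).trans ?_
      have := sh_br_pos (1 + s i + s j).im
      gcongr
      simpa using dec_br (s i).im (s j).im
    have h1 : ‖IZ4 s‖ ≤ C ^ 10 * gn 10 s := by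
      rw [IZ4, norm_prod]
      refine (prod_le_prod (fun _ _ => norm_nonneg _) fun i _ => (norm_prod _ _).le.trans
        (prod_le_prod (fun _ _ => norm_nonneg _) fun j _ => h i j)).trans (le_of_eq ?_)
      rw [k1_Ici4, gn, Fin.prod_univ_four]
      ring
    exact h1.trans (mul_le_mul (by nlinarith [pow_pos hC 4]) (k1_gn_mono (by norm_num) s)
      (zero_le_one.trans (k1_gn_one _ _)) (by positivity))
  · have h1 := k1_ZO_le hLOP hε (u := u) hu
    have g0 := zero_le_one.trans (k1_gn_one 10 u)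
    have g1 := zero_le_one.trans (k1_gn_one 12 u)
    refine ⟨h1.trans ?_, fun z hz => ?_⟩
    · rw [div_pow, div_mul_eq_mul_div]
      gcongr
      · nlinarith [pow_pos hC 4, pow_pos hC 10]
      · exact k1_gn_mono (by norm_num) u
    · have g4 : ‖∏ j, iz (1 + u j + z)‖ ≤ ∏ j, C * (br (u j).im * br z.im) ^ 2 := by
        rw [norm_prod]
        refine prod_le_prod (fun _ _ => norm_nonneg _) fun j _ => (hI _ ?_).trans ?_
        · have h2 : ε ≤ (u j).re := (hu j).1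
          simp; linarith [hz.1]
        · have := sh_br_pos (1 + u j + z).im
          gcongr
          simpa using dec_br (u j).im z.im
      have hβ := sh_br_one z.im
      rw [ZR, norm_mul]
      calc _ ≤ (240 / ε) ^ 10 * gn 10 u * ∏ j, C * (br (u j).im * br z.im) ^ 2 :=
            mul_le_mul h1 g4 (norm_nonneg _) (by positivity)
        _ = 240 ^ 10 * C ^ 4 * br z.im ^ 8 * gn 12 u / ε ^ 10 := by
            simp only [gn, Fin.prod_univ_four]; ring
        _ ≤ _ := by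
            gcongr
            · nlinarith [pow_pos hC 10]
            · norm_num
  · refine ⟨?_, k1_ZR_res hLOP hu⟩
    simp only [ZR, sub_zero, add_zero, fun j => (k1_iz_Lo hLOP (hu j)).2, prod_inv_distrib]
    have := prod_ne_zero_iff.2 fun j (_ : j ∈ univ) => (k1_iz_Lo hLOP (hu j)).1
    field_simp

end Pool.Agent.Q4
end
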