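import Pool.Agent.K.MP_ea46f5_nt.C30
import Pool.Agent.K.MP_ea46f5_nt.C10
import Pool.Agent.K.MP_ea46f5_nt.C25
import Pool.Agent.K.MP_ea46f5_nt.C26
import Pool.Agent.K.MP_ea46f5_nt.C19
import Pool.Agent.K.MP_ea46f5_nt.C27
import Pool.Agent.K.MP_ea46f5_nt.C13
import Pool.Agent.K.MP_ea46f5_nt.C11
import Pool.Agent.K.MP_ea46f5_nt.C28
import Pool.Agent.K.MP_ea46f5_nt.C29
import Pool.Agent.K.MP_ea46f5_nt.C12
import Pool.Agent.K.MP_ea46f5_nt.C20
import Pool.Agent.K.MP_ea46f5_nt.C21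
import Pool.Agent.K.MP_ea46f5_nt.C31
import Pool.Agent.K.MP_ea46f5_nt.C1
import Pool.Agent.K.MP_ea46f5_nt.C7
import Pool.Agent.K.MP_ea46f5_nt.C2
import Pool.Agent.K.MP_ea46f5_nt.C3
import Pool.Agent.K.MP_ea46f5_nt.C8
import Pool.Agent.K.MP_ea46f5_nt.C9
import Pool.Agent.K.MP_ea46f5_nt.C4
import Pool.Agent.K.MP_ea46f5_nt.C5
import Pool.Agent.K.MP_ea46f5_nt.C6

-- part Pool.Agent.P.MP_ea46f5_nt.Q4.FTMa
section

/-! The mean square of pair forms: expansion, diagonal, flips. -/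

namespace Pool.Agent.Q4

open Complex MeasureTheory Finset Pool.Agent.QM
open scoped Real

theorem ta_s1 (K : ℝ) (k : ℤ) : 3 / 4 ≤ s1 K k ∧ s1 K k ≤ 6 := by
  unfold s1 sk
  split_ifs <;> norm_num

theorem ta_sg (K : ℝ) : SG (s1 K) := by
  refine ⟨fun κ => ⟨by linarith [ta_s1 K κ], (ta_s1 K κ).2⟩, max K 1, fun κ h => ?_⟩
  have h1 : κ ≠ 1 := by
    rintro rfl
    simp at h
  rw [s1, if_neg h1, sk, if_neg (not_le.2 ((le_max_left _ _).trans_lt h))]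

theorem ta_pt (c t : R4) (j : Fin 4) : (pt c t j).re = c j ∧ (pt c t j).im = t j := by simp [pt]

theorem ta_cont (c : R4) : Continuous (pt c : R4 → V4) := by
  unfold pt
  fun_prop

theorem pTMa (hS : SH4) (hV : VDP) (hE : EX4) (hP : POG) (hB : PKB) (hW : W2B) : TMa := by
  intro κ t v κ' t' v' X K b F hκ hκ' hX hb
  obtain ⟨M, hM⟩ := w2_M hV hW hκ hκ' 2 t v t' v'
  have hD := hP X M (W2 κ t v κ' t' v') (s1 K) hX (ta_sg K)
    ((w2_diff κ t v κ' t' v').continuous.comp (ta_cont _)) fun τ => by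
      rw [← (hS.2.1 0 0 _).2.2.2.2]
      exact hM _ fun j => by rw [(ta_pt _ _ j).1]; norm_num [cs]
  obtain ⟨hs, hsum⟩ := hE _ _ _ _ _ hD
  have ht : ∀ m : ℤ, In (cs 12) (fun u => (GX X m : ℂ) * W2 κ t v κ' t' v' u * LL m u) =
      ((GX X m * ‖Bm κ t v κ' t' v' m‖ ^ 2 : ℝ) : ℂ) := fun m => by
    rw [ofReal_mul, ← (hB κ t κ' t' hκ hκ').1 v v' m]
    simp only [In, mul_assoc, integral_const_mul]
  simp only [ht] at hs hsum
  rw [← ofReal_tsum] at hsum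
  have h0 : ∀ m, 0 ≤ GX X m * ‖Bm κ t v κ' t' v' m‖ ^ 2 := fun m => by unfold GX; positivity
  have h1 := (summable_ofReal.1 hs).sum_le_tsum F fun m _ => h0 m
  have h2 := le_of_tendsto' hsum.norm
    (b := ‖Yk 1 (KG X (W2 κ t v κ' t' v')) (3 / 4) 1‖ + b) fun s => by
      refine (norm_sum_le _ _).trans ?_
      have e := sum_map s (Function.Embedding.subtype _)
        fun k => ‖Yk 1 (KG X (W2 κ t v κ' t' v')) (s1 K k) k‖
      simp only [Function.Embedding.coe_subtype] at e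
      rw [← e]
      set G := s.map (Function.Embedding.subtype _)
      have h3 := hb (G.erase 1) fun k hk => by
        obtain ⟨x, -, rfl⟩ := mem_map.1 (mem_of_mem_erase hk)
        exact ⟨x.2, ne_of_mem_erase hk⟩
      calc _ ≤ ∑ k ∈ insert 1 (G.erase 1), ‖Yk 1 (KG X (W2 κ t v κ' t' v')) (s1 K k) k‖ :=
            sum_le_sum_of_subset_of_nonneg (subset_insert_iff.2 subset_rfl)
              fun _ _ _ => norm_nonneg _
        _ ≤ _ := by
            rw [sum_insert (notMem_erase _ _), s1, if_pos rfl]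
            gcongr
  refine h1.trans ((re_le_norm (_ : ℝ)).trans ?_)
  rw [add_assoc]
  exact (norm_le_norm_add_norm_sub' _ _).trans (add_le_add le_rfl h2)

/-- The integral against the Cauchy majorant. -/
theorem tb_int (hT : TC4) : ∃ C : ℝ, 0 < C ∧ ∀ (L E M D v v' : ℝ) (n : ℕ) (c s T : R4)
    (Z Q P f : V4 → ℂ), 100 ≤ L → 0 ≤ E → 0 ≤ D → 0 ≤ M → v ≤ L → v' ≤ L →
    (∀ j, s j = 1 ∨ s j = -1) → (∀ j, 0 ≤ c j) → ∑ j, c j ≤ 10 / L →
    (∀ τ, f (pt c τ) = Z (pt c τ) * Q (pt c τ) * P (pt c τ) ∧ ‖P (pt c τ)‖ ≤ M ∧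
      ‖Z (pt c τ)‖ ≤ D * gn n (pt c τ) * cm (1 / L) s τ ∧
      ‖Q (pt c τ)‖ * gn n (pt c τ) ≤ E * Real.exp (v * ((pt c τ 0).re + (pt c τ 2).re) +
        v' * ((pt c τ 1).re + (pt c τ 3).re)) * ∏ j, Real.exp (-|(pt c τ j).im - T j|)) →
    ‖In c f‖ ≤ C * D * M * E * Real.log L ^ 2 := by
  obtain ⟨C, hC, h⟩ := hT
  refine ⟨Real.exp 10 * C, by positivity,
    fun L E M D v v' n c s T Z Q P f hL hE hD hM hv hv' hs hc hc' hf => ?_⟩
  have hL0 : 0 < L := by linarith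
  obtain ⟨hi, hb⟩ := h (1 / L) T s (by positivity) (one_div_le_one_div_of_le (by norm_num) hL) hs
  rw [one_div_one_div] at hb
  have he : v * (c 0 + c 2) + v' * (c 1 + c 3) ≤ 10 := by
    rw [Fin.sum_univ_four, le_div_iff₀ hL0] at hc'
    nlinarith [hc 0, hc 1, hc 2, hc 3]
  refine (norm_integral_le_of_norm_le (hi.const_mul (D * M * E * Real.exp 10))
    (ae_of_all _ fun τ => ?_)).trans ?_
  · obtain ⟨e, a1, a2, a3⟩ := hf τ
    simp only [(ta_pt c τ _).1, (ta_pt c τ _).2] at a3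
    have hm : 0 ≤ cm (1 / L) s τ := by unfold cm; positivity
    have hg : 0 ≤ gn n (pt c τ) := by rw [w_gn]; exact pow_nonneg (by linarith [w_g1 (pt c τ)]) _
    rw [e, norm_mul, norm_mul]
    calc _ ≤ D * gn n (pt c τ) * cm (1 / L) s τ * ‖Q (pt c τ)‖ * M := by gcongr
      _ = D * M * cm (1 / L) s τ * (‖Q (pt c τ)‖ * gn n (pt c τ)) := by ring
      _ ≤ D * M * cm (1 / L) s τ * (E * Real.exp 10 * ∏ j, Real.exp (-|τ j - T j|)) := by
          refine mul_le_mul_of_nonneg_left (a3.trans ?_) (by positivity)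
          gcongr
      _ = _ := by ring
  · rw [integral_const_mul]
    calc _ ≤ D * M * E * Real.exp 10 * (C * Real.log L ^ 2) := by gcongr
      _ = _ := by ring

theorem tb_sub {ε : ℝ} (h : 0 ≤ ε) {u : V4} (hu : u ∈ Bx ε 12) : u ∈ Bx 0 12 :=
  fun j => ⟨h.trans (hu j).1, (hu j).2⟩

theorem pTMb1 (hV : VDP) (hT : TC4) (hH : HB4) (hD : DG) (hW : W2B) (hC : CAU) : TMb1 := by
  intro κ κ' hκ hκ'
  obtain ⟨C₁, h₁, hT⟩ := tb_int hT
  obtain ⟨C₂, B, h₂, hH⟩ := hH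
  obtain ⟨n₀, hD⟩ := hD
  obtain ⟨C₃, n, h₃, hC⟩ := hC
  obtain ⟨A, C₄, h₄, h⟩ := w2_all hV hW hκ hκ' n
  refine ⟨A, C₁ * C₃ * C₂ * C₄, by positivity, fun t v t' v' X hX hL hv hv' => ?_⟩
  obtain ⟨Q, -, hid, hb⟩ := h t v t' v'
  obtain ⟨M, hM⟩ := w2_M hV hW hκ hκ' n₀ t v t' v'
  have hX0 : 0 < X := by linarith
  have hL0 : 0 < Real.log X := by linarith
  have he : 0 < 1 / Real.log X := by positivity
  have he1 := one_div_le_one_div_of_le (by norm_num) hL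
  have c := tc_br1 t
  have c' := tc_br1 t'
  rw [hD 1 (fun u => X * W2 κ t v κ' t' v' u) (1 / Real.log X) (X * M) he (by linarith)
    (fun u _ => (w2_diff κ t v κ' t' v' u).const_mul _) fun u hu => by
      rw [norm_mul, norm_real, Real.norm_of_nonneg hX0.le, mul_assoc]
      gcongr
      exact hM u (tb_sub he.le hu)]
  refine (hT (Real.log X) (C₄ * br t ^ A * br t' ^ A) (X * C₂) C₃ v v' n _ (cs 1) ![t, t', -t, -t']
    (fun u => an u * (∏ j, u j) * ZO u) (fun u => Q u * hf u) (fun u => X * Hone 1 0 u) _ hL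
    (by positivity) h₃.le (by positivity) ((Real.le_log_iff_exp_le hX0).2 hv)
    ((Real.le_log_iff_exp_le hX0).2 hv') (fun _ => Or.inl rfl) (fun _ => he.le)
    (by simp only [Fin.sum_univ_four]; rw [div_eq_mul_one_div 10]; linarith)
    fun τ => ⟨?_, ?_, (hC _ τ he he1).1, (hb _ fun j => ?_).1⟩).trans_eq (by ring)
  · rw [hid]; ring
  · have := (hH 1).2.2.1 (0, pt (cs (1 / Real.log X)) τ)
      ⟨by norm_num, by norm_num, fun j => by
        simp only [sub_zero, (ta_pt _ _ j).1, cs]; constructor <;> linarith⟩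
    rw [norm_mul, norm_real, Real.norm_of_nonneg hX0.le]
    simp only [Nat.cast_one, one_pow, mul_one] at this
    exact mul_le_mul_of_nonneg_left this hX0.le
  · simp only [(ta_pt _ _ j).1, cs]; constructor <;> linarith

end Pool.Agent.Q4
end

-- part Pool.Agent.P.MP_ea46f5_nt.Q4.FTMc1
section

/-! The dual terms of the pair moment on one horizontal line. -/

namespace Pool.Agent.Q4

open Complex MeasureTheory Finset Pool.Agent.QM

theorem c1_br (t t' y : ℝ) (n : ℕ) :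
    ∏ j, br ((![t - y, t' - y, -t - y, -t' - y] : R4) j) ^ n ≤
      br y ^ (4 * n) * br t ^ (4 * n) * br t' ^ (4 * n) := by
  have h : ∀ x : ℝ, br (x - y) ≤ br x * br y := fun x => by
    rw [sub_eq_add_neg, ← w_neg y]
    exact tc_brm _ _
  have h1 := h (-t)
  have h2 := h (-t')
  rw [w_neg] at h1 h2
  have p : ∀ x : ℝ, 0 ≤ br x := fun x => zero_le_one.trans (tc_br1 x)
  have a := p t
  have b := p t'
  have c := p y
  rw [prod_pow, Fin.prod_univ_four]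
  calc _ ≤ (br t * br y * (br t' * br y) * (br t * br y) * (br t' * br y)) ^ n :=
        pow_le_pow_left₀ (mul_nonneg (mul_nonneg (mul_nonneg (p _) (p _)) (p _)) (p _))
          (mul_le_mul (mul_le_mul (mul_le_mul (h t) (h t') (p _) (by positivity)) h1 (p _)
            (by positivity)) h2 (p _) (by positivity)) n
    _ = br y ^ (4 * n) * br t ^ (2 * n) * br t' ^ (2 * n) := by ring
    _ ≤ _ := by
        gcongr
        exacts [tc_br1 t, by norm_num, tc_br1 t', by norm_num]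

theorem pTMc1 (hV : VDP) (hR : REP4) (hI : IZM) (hD : DSH) (hB : BP) (hW : W2B) (hA : ALG) :
    TMc1 := by
  intro θ hθ κ κ' hκ hκ'
  obtain ⟨A₀, C₀, hC₀, hI⟩ := hI
  obtain ⟨A₁, C₁, hC₁, hA⟩ := hA κ κ' A₀ hκ hκ'
  have half : ∀ {x : ℝ}, Kp x → Kp (x / 2) := fun h => ⟨half_pos h.1, by linarith [h.1, h.2]⟩
  obtain ⟨A₂, C₂, hC₂, hB⟩ := hB θ hθ _ _ (half hκ) (half hκ')
  obtain ⟨C₃, hC₃, hR⟩ := hR
  obtain ⟨n, hD⟩ := hD
  refine ⟨A₁ + 4 * A₂, C₀ * C₃ * C₁ * C₂ * 40 ^ 4, by positivity,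
    fun t v t' v' K y σ F hK hF hσ => ?_⟩
  have re : ∀ k, ((σ k : ℂ) + y * I).re = σ k := fun k => by simp
  have im : ∀ k, ((σ k : ℂ) + y * I).im = y := fun k => by simp
  choose R R1 R2 R3 using fun k => hA t v t' v' k (σ k + y * I) (by rw [re]; exact (hσ k).1)
    (by rw [re]; exact (hσ k).2)
  simp only [im] at R2 R3
  obtain ⟨c, hc⟩ : ∃ c : R4, c = ![t - y, t' - y, -t - y, -t' - y] := ⟨_, rfl⟩
  have hcb := c1_br t t' y A₂
  rw [← hc] at R2 R3 hcb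
  have p : ∀ x : ℝ, 0 ≤ br x := fun x => zero_le_one.trans (tc_br1 x)
  have a := p t
  have b := p t'
  have d := p y
  have ho : ∀ k : ℤ, 0 ≤ om (|(k : ℝ)| / K) := fun k =>
    le_min (Real.rpow_nonneg (by positivity) _) (Real.rpow_nonneg (by positivity) _)
  obtain ⟨B1, B2⟩ := hB K c F hK hF
  obtain ⟨B3, B4⟩ := hR F _ _ (fun _ => C₁ * br y ^ A₁ * br t ^ A₁ * br t' ^ A₁) _ R c (1 / 40)
    (C₁ * br y ^ A₁ * br t ^ A₁ * br t' ^ A₁) _ (by norm_num) (by norm_num) (by positivity)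
    (fun k hk => ⟨ho k, ho k, (mul_comm _ _).le, B2 k hk, R1 k, R2 k⟩) B1
  have B5 := hI F _ _ _ (fun k hk => ⟨ho k, B4 k hk⟩) B3 ![v, v', v, v']
  obtain ⟨M, hM⟩ := w2_M hV hW hκ hκ' n t v t' v'
  have hl : 0 ≤ lg K ^ θ := Real.rpow_nonneg (Real.log_nonneg (by linarith)) _
  refine le_trans (le_of_eq (sum_congr rfl fun k hk => ?_)) (B5.trans ?_)
  · rw [hD 1 k _ _ M (hF k hk).1 (hF k hk).2 (by rw [re]; exact (hσ k).1)
      (by rw [re]; exact (hσ k).2) (fun u _ => w2_diff κ t v κ' t' v' u)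
      (fun u hu => hM u fun j => ⟨le_trans (by simp only [cs, re]; linarith [(hσ k).1]) (hu j).1,
        (hu j).2⟩)]
    have e : ∀ τ : R4, pt (cs 0) τ ∈ Bx 0 0 := fun τ j => by simp [pt, cs]
    unfold In
    simp only [R3 k _ (e _)]
    rw [integral_const_mul, norm_mul, norm_exp, mul_assoc, ← mul_assoc (Real.exp _),
      ← Real.exp_add]
    have e2 : -(σ k - 1 / 2) * (2 * (v + v')) +
        (((σ k : ℂ) + y * I - 1 / 2) * (2 * (v + v'))).re = 0 := by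
      simp
      ring
    rw [e2, Real.exp_zero, one_mul]
  · calc _ = C₀ * C₃ * C₁ * C₂ * 40 ^ 4 * (br y ^ A₁ * br t ^ A₁ * br t' ^ A₁) *
          (∏ j, br (c j) ^ A₂) * K * lg K ^ θ := by ring
      _ ≤ C₀ * C₃ * C₁ * C₂ * 40 ^ 4 * (br y ^ A₁ * br t ^ A₁ * br t' ^ A₁) *
          (br y ^ (4 * A₂) * br t ^ (4 * A₂) * br t' ^ (4 * A₂)) * K * lg K ^ θ := by gcongr
      _ = _ := by ring

end Pool.Agent.Q4
end

-- part Pool.Agent.P.MP_ea46f5_nt.Q4.FTMb2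
section

/-! The term `k = 1` of the mean square of pair forms. -/

namespace Pool.Agent.Q4

open Complex MeasureTheory Finset Pool.Agent.QM
open scoped Real

theorem t2_gam {w : ℂ} (h : 0 < w.re) : DifferentiableAt ℂ Gammaℝ w := by
  have h1 := (Complex.differentiable_Gammaℝ_inv w).inv (inv_ne_zero (Gammaℝ_ne_zero_of_re_pos h))
  exact h1.congr_of_eventuallyEq (Filter.Eventually.of_forall fun s => (inv_inv _).symm)

theorem t2_zeta {z : ℂ} (h : z - 1 / 2 ≠ 0) :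
    riemannZeta₁ (2 * z) = 2 * (z - 1 / 2) * riemannZeta (2 * z) := by
  have h1 : 2 * z ≠ 1 := fun e => h (by linear_combination e / 2)
  have h2 := sub_ne_zero.2 h1
  rw [riemannZeta_eq_inv_sub_mul h1]
  field_simp

theorem t2_pow {L : ℝ} (hL : 100 ≤ L) :
    L ^ 12 * Real.exp L ^ (9 / 10 : ℝ) ≤ 10 ^ 21 * Real.exp L * Real.log L ^ 2 := by
  have h := Real.pow_div_factorial_le_exp (L / 10) (by linarith) 12
  have h1 : 1 ≤ Real.log L := by
    rw [Real.le_log_iff_exp_le (by linarith)]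
    linarith [Real.exp_one_lt_d9]
  have h2 : L ^ 12 ≤ 10 ^ 21 * Real.exp (L / 10) := by
    norm_num [Nat.factorial, div_pow, div_le_iff₀] at h
    linarith [Real.exp_pos (L / 10)]
  have h3 : Real.exp (L / 10) * Real.exp L ^ (9 / 10 : ℝ) = Real.exp L := by
    rw [← Real.exp_mul, ← Real.exp_add]
    congr 1
    ring
  calc _ ≤ 10 ^ 21 * Real.exp (L / 10) * Real.exp L ^ (9 / 10 : ℝ) := by gcongr
    _ = 10 ^ 21 * Real.exp L * 1 ^ 2 := by rw [mul_assoc, h3]; ring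
    _ ≤ _ := by gcongr

theorem pTMb2 (hKZ : KZ) (hV : VDP) (hZ : KZ2) (hT : TC4) (hH : HB4) (hK : K1) (hW : W2B)
    (hC : CAU) : TMb2 := by
  intro κ κ' hκ hκ'
  obtain ⟨C₁, h₁, hT⟩ := tb_int hT
  obtain ⟨C₂, B, h₂, hH⟩ := hH
  obtain ⟨n₀, C₅, h₅, hK⟩ := hK
  obtain ⟨C₃, n₁, h₃, hC⟩ := hC
  obtain ⟨C₆, h₆, hKZ⟩ := hKZ n₀
  obtain ⟨C₇, h₇, hZ⟩ := hZ 0
  obtain ⟨A, C₄, h₄, h⟩ := w2_all hV hW hκ hκ' (n₀ + n₁)
  refine ⟨A, C₄ * C₂ * (C₅ * C₆ * 10 ^ 21 + C₁ * C₃ * C₇), by positivity,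
    fun t v t' v' X hX hL hv hv' => ?_⟩
  obtain ⟨Q, hQ, hid, hb⟩ := h t v t' v'
  obtain ⟨-, hH1, hH2, -⟩ := hH 1
  simp only [Nat.cast_one, one_pow, mul_one] at hH2
  have hX0 : 0 < X := by linarith
  have hXc : (X : ℂ) ≠ 0 := ofReal_ne_zero.2 hX0.ne'
  set L := Real.log X with hLd
  have hL0 : 0 < L := by linarith
  have he : 0 < 1 / L := by positivity
  have he1 := one_div_le_one_div_of_le (by norm_num) hL
  have c := tc_br1 t
  have c' := tc_br1 t'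
  replace hv := (Real.le_log_iff_exp_le hX0).2 hv
  replace hv' := (Real.le_log_iff_exp_le hX0).2 hv'
  set E := C₄ * br t ^ A * br t' ^ A with hE
  have hE0 : 0 < E := by positivity
  set Kr : ℂ → V4 → ℂ := fun z u =>
    X * (Gammaℝ z * riemannZeta₁ (2 * z) / 4 * (X : ℂ) ^ (-z)) * (an u * (∏ j, u j) * Q u) with hKr
  have hkc : KC n₀ Kr (Hone 1) (1 / L) X (C₆ * E * L ^ 2) C₂ := by
    refine ⟨he, he1, hX, by rw [← hLd, one_div_mul_cancel hL0.ne'], fun x hx => ?_,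
      fun x hx => ?_, hH1, hH2⟩
    · have g1 : DifferentiableAt ℂ (fun x : ℂ × V4 => Gammaℝ x.1) x :=
        (t2_gam (lt_of_lt_of_le (half_pos he) hx.1.1)).comp x differentiableAt_fst
      have g2 : DifferentiableAt ℂ (fun x : ℂ × V4 => riemannZeta₁ (2 * x.1)) x :=
        (differentiable_riemannZeta₁ _).comp x (by fun_prop)
      have g3 : DifferentiableAt ℂ (fun x : ℂ × V4 => (X : ℂ) ^ (-x.1)) x :=
        DifferentiableAt.const_cpow (by fun_prop) (Or.inl hXc)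
      have g4 : DifferentiableAt ℂ (fun x : ℂ × V4 => an x.2 * ∏ j, x.2 j) x := by
        simp only [an, Fin.prod_univ_four]
        fun_prop
      have g5 : DifferentiableAt ℂ
          (fun x : ℂ × V4 => Gammaℝ x.1 * riemannZeta₁ (2 * x.1) / 4) x :=
        (g1.mul g2).mul_const _
      exact ((g5.mul g3).const_mul _).mul
        (g4.mul ((hQ _).comp x differentiableAt_snd))
    · obtain ⟨z, u⟩ := x
      obtain ⟨⟨z0, z1⟩, hu⟩ := hx
      dsimp only at z0 z1 hu ⊢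
      have zp : 0 < z.re := (half_pos he).trans_le z0
      have a1 := (hKZ z).2.2 zp (by linarith)
      have a2 := (hb u (tb_sub he.le hu)).2.1
      have bz := tc_br1 z.im
      have hG := w_g1 u
      have u0 : ∀ j, 0 ≤ (u j).re := fun j => he.le.trans (hu j).1
      have a3 : Real.exp (v * ((u 0).re + (u 2).re) + v' * ((u 1).re + (u 3).re)) ≤
          X ^ ∑ j, (u j).re := by
        rw [Real.rpow_def_of_pos hX0, Fin.sum_univ_four]
        exact Real.exp_le_exp.2 (by nlinarith [u0 0, u0 1, u0 2, u0 3])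
      have a4 : dn (n₀ + n₁) u ≤ dn n₀ u := by
        rw [w_dn, w_dn n₀]
        gcongr
        omega
      have a5 : C₆ / (z.re ^ 2 * br z.im ^ n₀) ≤ 4 * L ^ 2 * C₆ / br z.im ^ n₀ := by
        calc _ ≤ C₆ / ((1 / L / 2) ^ 2 * br z.im ^ n₀) := by gcongr
          _ = _ := by field_simp; norm_num
      have d0 : 0 ≤ dn (n₀ + n₁) u := by rw [w_dn]; positivity
      simp only [hKr]
      rw [norm_mul, norm_mul, norm_mul, norm_div, norm_real, Real.norm_of_nonneg hX0.le,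
        norm_cpow_eq_rpow_re_of_pos hX0, neg_re, Complex.norm_ofNat, Real.rpow_add hX0,
        sub_eq_add_neg, Real.rpow_add hX0, Real.rpow_one]
      calc _ ≤ X * (4 * L ^ 2 * C₆ / br z.im ^ n₀ / 4 * X ^ (-z.re)) *
            (E * X ^ (∑ j, (u j).re) * dn n₀ u) := by
            gcongr
            · exact a1.trans a5
            · exact a2.trans (by gcongr)
        _ = _ := by ring
  have hm := hK 1 (KG X (W2 κ t v κ' t' v')) Kr _ X _ _ hkc fun z u hz => by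
    have h0 : z - 1 / 2 ≠ 0 := fun e => by
      have := congrArg re e
      simp [hz] at this
      norm_num at this
    simp only [KG, Kz, hKr, hid, t2_zeta h0, Int.cast_one, abs_one, one_mul]
    generalize z - 1 / 2 = w at h0 ⊢
    field_simp
    ring
  have hr : ∀ τ j, 1 / L ≤ (pt (rl (1 / L)) τ j).re ∧ (pt (rl (1 / L)) τ j).re ≤ 1 / 25 :=
    fun τ j => by
      rw [(ta_pt _ _ j).1, rl]
      have a : (0 : ℝ) ≤ (j : ℕ) := Nat.cast_nonneg _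
      have b : ((j : ℕ) : ℝ) ≤ 3 := by exact_mod_cast Nat.lt_succ_iff.1 j.2
      constructor <;> nlinarith
  have hf : ∀ i, ‖In (rl (1 / L)) (Fl Kr (Hone 1) i)‖ ≤
      C₁ * C₃ * (X * C₇ * C₂ / 4) * E * Real.log L ^ 2 := fun i => by
    refine hT L E _ C₃ v v' (n₀ + n₁) (rl (1 / L)) (sgi i) ![t, t', -t, -t']
      (fun u => an u * (∏ j ∈ univ.erase i, u j) * FZ i u) (fun u => Q u * hf u)
      (fun u => X * (u i * (Gammaℝ (u i) * riemannZeta (2 * u i))) * (X : ℂ) ^ (-u i) *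
        Hone 1 (u i) u / 4) _ hL hE0.le h₃.le (by positivity) hv hv'
      (fun j => by unfold sgi; split_ifs <;> simp) (fun j => by unfold rl; positivity)
      (by simp only [Fin.sum_univ_four, rl]; rw [div_eq_mul_one_div 10]; norm_num; linarith)
      fun τ => ?_
    have hr := hr τ
    have hc := (hC _ τ he he1).2 i
    generalize pt (rl (1 / L)) τ = u at *
    refine ⟨?_, ?_, hc.trans ?_, (hb u fun j => ?_).1⟩
    · have h0 : u i - 1 / 2 ≠ 0 := fun e => by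
        have := congrArg re e
        norm_num at this
        linarith [hr i]
      simp only [Fl, hKr, t2_zeta h0, ← mul_prod_erase univ u (mem_univ i)]
      generalize u i - 1 / 2 = w at h0 ⊢
      field_simp
    · have a1 := hZ (u i) (he.trans_le (hr i).1) (by linarith [hr i])
      have a2 := hH2 (u i, u) ⟨by dsimp only; linarith [hr i], by dsimp only; linarith [hr i],
        fun j => by
          dsimp only
          rw [sub_re]
          constructor <;> linarith [hr i, hr j]⟩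
      have a3 : X ^ (-(u i).re) ≤ 1 :=
        Real.rpow_le_one_of_one_le_of_nonpos hX (by linarith [hr i])
      rw [pow_zero, div_one] at a1
      rw [norm_div, norm_mul, norm_mul, norm_mul, norm_real, Real.norm_of_nonneg hX0.le,
        norm_cpow_eq_rpow_re_of_pos hX0, neg_re, Complex.norm_ofNat]
      calc _ ≤ X * C₇ * 1 * C₂ / 4 := by gcongr
        _ = _ := by ring
    · have hm : 0 ≤ cm (1 / L) (sgi i) τ := by unfold cm; positivity
      have hG := w_g1 u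
      rw [w_gn, w_gn (n₀ + n₁)]
      gcongr
      omega
    · simp only [cs]
      constructor <;> linarith [hr j]
  have hs : ‖∑ i, In (rl (1 / L)) (Fl Kr (Hone 1) i)‖ ≤
      4 * (C₁ * C₃ * (X * C₇ * C₂ / 4) * E * Real.log L ^ 2) := by
    refine (norm_sum_le _ _).trans ((sum_le_sum fun i _ => hf i).trans_eq ?_)
    simp
  have hp := t2_pow hL
  rw [hLd, Real.exp_log hX0, ← hLd] at hp
  refine (norm_le_norm_sub_add _ _).trans ((add_le_add hm hs).trans ?_)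
  calc _ = C₅ * C₆ * C₂ * E * (L ^ 12 * X ^ (9 / 10 : ℝ)) +
        C₁ * C₃ * X * C₇ * C₂ * E * Real.log L ^ 2 := by field_simp
    _ ≤ C₅ * C₆ * C₂ * E * (10 ^ 21 * X * Real.log L ^ 2) +
        C₁ * C₃ * X * C₇ * C₂ * E * Real.log L ^ 2 := by gcongr
    _ = _ := by rw [hE]; ring

end Pool.Agent.Q4
end

-- part Pool.Agent.P.MP_ea46f5_nt.Q4.All
section

namespace Pool.Agent.Q4

open Pool.Agent.QM

theorem main : ADD 0 ∧ RATIO 0 :=
  have hKR : QM.KR := QM.pKR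
  have hPRI : QM.PRI := QM.pPRI hKR
  have hLOP : QM.LOP := QM.pLOP hKR hPRI
  have hBRG : QM.BRG := QM.pBRG hLOP
  have hLSP : QM.LSP := QM.pLSP
  have hFE : QM.FE := QM.pFE hKR hPRI hLOP hLSP
  have hE0 : QM.E0 := QM.pE0 hLSP
  have hP2 : QM.P2 := QM.pP2
  have hEXA : QM.EXA := QM.pEXA hE0 hLSP hP2
  have hGAM1 : QM.GAM1 := QM.pGAM1
  have hP1 : QM.P1 := QM.pP1 hGAM1
  have hTKB : QM.TKB := QM.pTKB
  have hKZ : QM.KZ := QM.pKZ hGAM1
  have hDEC : QM.DEC := QM.pDEC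
  have hINT : QM.INT := QM.pINT hE0 hTKB hKZ hDEC
  have hEXC : QM.EXC := QM.pEXC hP1 hP2 hE0 hTKB hKZ hDEC hINT
  have hEXL : QM.EXL := QM.pEXL
  have hE1 : QM.E1 := QM.pE1 hE0 hEXL hTKB
  have hTME : QM.TME := QM.pTME hEXA hEXC hINT hE1 hEXL
  have hSH0 : QM.SH0 := QM.pSH0
  have hSD0 : QM.SD0 := QM.pSD0 hSH0 hDEC
  have hMG : QM.MG := QM.pMG
  have hPL : QM.PL := QM.pPL
  have hEXB : QM.EXB := QM.pEXB hMG hPL
  have hLOC0 : QM.LOC0 := QM.pLOC0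
  have hPRD : QM.PRD := QM.pPRD
  have hZT : QM.ZT := QM.pZT
  have hPZ : QM.PZ := QM.pPZ hZT
  have hZD : QM.ZD := QM.pZD hEXB hEXL hLOC0 hPRD hPZ hPL
  have hZDA : QM.ZDA := QM.pZDA hLOC0 hPRD
  have hFW : QM.FW := QM.pFW hDEC
  have hTMD : QM.TMD := QM.pTMD hSD0 hZD hZDA hFW hDEC
  have hLOC : QM.LOC := QM.pLOC
  have hIZ : QM.IZ := QM.pIZ
  have hE2 : QM.E2 := QM.pE2 hLOC hLSP hLOP hIZ
  have hHA : QM.HA := QM.pHA hLOC
  have hH1 : QM.H1 := QM.pH1 hLOC hEXL hPRD hPZ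
  have hLOB : QM.LOB := QM.pLOB hLOP
  have hTK1 : QM.TK1 := QM.pTK1 hSD0 hE2 hHA hH1 hIZ hLOP hLOB hFW hDEC
  have hTK2 : QM.TK2 := QM.pTK2 hLOP hLOB hDEC
  have hLEN : QM.LEN := QM.pLEN hEXL
  have hTMK : QM.TMK := QM.pTMK hTK1 hTK2 hKZ hDEC hLEN
  have hSH2 : QM.SH2 := QM.pSH2
  have hSD2 : QM.SD2 := QM.pSD2 hSH2 hDEC
  have hTA1 : QM.TA1 := QM.pTA1 hSD2 hE2 hHA hH1 hIZ hLOP hZT hFW hDEC hLEN
  have hPH2 : QM.PH2 := QM.pPH2
  have hTA2 : QM.TA2 := QM.pTA2 hTA1 hH1 hIZ hLOP hZT hFW hDEC hPH2 hLEN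
  have hJCA : QM.JCA := QM.pJCA hPH2 hHA hH1 hIZ hLOP hZT hFW hLEN
  have hSH1 : QM.SH1 := QM.pSH1
  have hTC1 : QM.TC1 := QM.pTC1 hSH1 hKZ hDEC
  have hHC : QM.HC := QM.pHC hEXB hEXL hLOC hLOC0 hPRD hPZ hPL
  have hTC2 : QM.TC2 := QM.pTC2 hHC hPH2 hKZ hIZ hLOP hZT hFW hDEC
  have hTM : QM.TM := QM.pTM hTME hTMD hTMK hTA2 hJCA hTC1 hTC2 hKZ hFW hDEC hLEN
  have hGAM2 : QM.GAM2 := QM.pGAM2
  have hHB : QM.HB := QM.pHB hGAM2
  have hWT : QM.WT := QM.pWT hHB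
  have hSEP : QM.SEP := QM.pSEP hDEC
  have hSQD : QM.SQD := QM.pSQD hSEP hHB hLSP hBRG hDEC
  have hTQ : QM.TQ := QM.pTQ hTM hWT hSQD
  have hMT : QM.MT := QM.pMT
  have hTW0 : QM.TW0 := QM.pTW0
  have hSTS : QM.STS := QM.pSTS hTQ hMT hTW0
  have hPC : QM.PC := QM.pPC
  have hFL : QM.FL := QM.pFL hLSP hPC
  have hTQF : QM.TQF := QM.pTQF hTM hWT hSQD hFL hFW hTW0
  have hSTM : QM.STM := QM.pSTM hTQF hMT
  have hAFE : QM.AFE := QM.pAFE hFE hSH0 hSH1 hHB hLOP hLOB hBRG hDEC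
  have hDL : QM.DL := QM.pDL hHB hLSP hBRG hDEC
  have hTRV : QM.TRV := QM.pTRV hLOB
  have hSTEP : QM.STEP := QM.pSTEP hSTS hSTM hAFE hDL hBRG hTRV
  have hFOUR : QM.FOUR := QM.pFOUR hSTEP hTRV hMT
  have hSDn : SDn := pSDn
  have hTOR : TOR := pTOR
  have hONB : ONB := pONB
  have hDROP : DROP := pDROP hONB
  have hTAY : TAY := pTAY
  have hA4H : A4H := pA4H
  have hPH0 : PH0 := pPH0 hA4H
  have hQINT : QINT := pQINT
  have hINB : INB := pINB
  have hSH4 : SH4 := pSH4 hSDn hINB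
  have hGGB : GGB := pGGB hGAM1 hZT hSH4
  have hENDP : ENDP := pENDP hSDn hTOR hONB hDROP hTAY hA4H hPH0 hQINT hGGB
  have hRAD : RAD := pRAD
  have hQLIP : QLIP := pQLIP hRAD hONB hTAY hA4H hPH0
  have hPHW : PHW := pPHW
  have hREAL : REAL := pREAL hLSP hLOP
  have hG1W : G1W := pG1W hGAM1 hSH4
  have hCLM : CLM := pCLM
  have hFE1 : FE1 := pFE1 hKR hPRI
  have hAFE4 : AFE4 := pAFE4 hSH4 hG1W hFE1 hLOP hLOB hBRG
  have hTH8 : TH8 := pTH8
  have hVDP : VDP := pVDP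
  have hZF : ZF := pZF hLOP
  have hWRB : WRB := pWRB hTH8 hVDP hZF
  have hAFS : AFS := pAFS hINB hLSP hBRG hG1W hAFE4 hWRB
  have hHSEP : HSEP := pHSEP
  have hREP4 : REP4 := pREP4 hHSEP
  have hPR4 : PR4 := pPR4
  have hPWI : PWI := pPWI hSH4 hLSP hLOP hLOB
  have hBP : BP := pBP hPR4 hPWI
  have hBAS : BAS := pBAS hLOP hLOB hDEC hFOUR
  have hMT2 : MT2 := pMT2
  have hPKB : PKB := pPKB hSH4 hLSP hLOP hLOB hDEC hPR4 hPWI
  have hEX4 : EX4 := pEX4 hLSP hTKB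
  have hPOG : POG := pPOG hP1 hP2 hTKB hKZ
  have hW2B : W2B := pW2B hSH4
  have hTMa : TMa := pTMa hSH4 hVDP hEX4 hPOG hPKB hW2B
  have hTC4 : TC4 := pTC4
  have hPRH : PRH := pPRH
  have hLOC4 : LOC4 := pLOC4
  have hLOD : LOD := pLOD
  have hHTa : HTa := pHTa hPRH
  have hHTb : HTb := pHTb
  have hHB4 : HB4 := pHB4 hPRH hLOC4 hLOD hHTa hHTb
  have hZB : ZB := pZB hLOP hIZ
  have hE04 : E04 := pE04 hLSP
  have hE4a : E4a := pE4a hTKB hE04
  have hE41 : E41 := pE41 hLSP hLOP hIZ hE4a hLOC4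
  have hDG : DG := pDG hZB hHB4 hE41
  have hCAU : CAU := pCAU hZF
  have hTMb1 : TMb1 := pTMb1 hVDP hTC4 hHB4 hDG hW2B hCAU
  have hKZ2 : KZ2 := pKZ2
  have hK1 : K1 := pK1 hLOP hIZ hE41
  have hTMb2 : TMb2 := pTMb2 hKZ hVDP hKZ2 hTC4 hHB4 hK1 hW2B hCAU
  have hMUL : MUL := pMUL
  have hIZF : IZF := pIZF
  have hIZM : IZM := pIZM hMUL hIZF
  have hE4k : E4k := pE4k hLSP hLOP hIZ hE4a hLOC4
  have hDSH : DSH := pDSH hLOP hLOB hZB hHB4 hE4k
  have hALG : ALG := pALG hZF hHB4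
  have hTMc1 : TMc1 := pTMc1 hVDP hREP4 hIZM hDSH hBP hW2B hALG
  have hTMc : TMc := pTMc hKZ hDEC hTMc1
  have hTM2 : TM2 := pTM2 hTMa hTMb1 hTMb2 hTMc
  have hFL2 : FL2 := pFL2 hPWI hPKB
  have hDIR : DIR := pDIR hPKB hBAS hTM2 hFL2
  have hXIB : XIB := pXIB
  have hRF1 : RF1 := pRF1 hFE1 hLOP hLOB hXIB
  have hRF2 : RF2 := pRF2 hDEC hPKB hRF1
  have hREC : REC := pREC hBAS hMT2 hDIR hRF2
  have hFB1 : FB1 := pFB1 hSH4 hVDP hTH8 hLOP hLOB
  have hFB : FB := pFB hPHW hREP4 hBP hREC hFB1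
  have hKAx : KAx := pKAx
  have hPER : PER := pPER hZT
  have hFEx : FEx := pFEx hPER hTKB
  have hKDB : KDB := pKDB hZT
  have hPDx : PDx := pPDx hSH0 hSH1 hTKB hKDB
  have hPOC : POC := pPOC hTKB hKDB
  have hOMB : OMB := pOMB hSH4 hWRB
  have hPRT : PRT := pPRT hPHW
  have hSIV : SIV := pSIV
  have hL4 : L4 := pL4
  have hTK0 : TK0 := pTK0 hFOUR hKDB hSIV hL4 hHB4 hZB hDSH hOMB
  have hTF0 : TF0 := pTF0 hZT hSH4 hVDP hZF hHB4 hZB hOMB
  have hTF1 : TF1 := pTF1 hZT hHB4 hK1 hOMB hTF0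
  have hTDG : TDG := pTDG hINB hHB4 hZB hDG hWRB hOMB
  have hDIV : DIV := pDIV
  have hCYB : CYB := pCYB
  have hLSF : LSF := pLSF hLSP
  have hDB : DB := pDB hLOP hLOB hSH4 hZF hWRB hLSF
  have hDO : DO := pDO hSH1 hLSP hLOP hLOB hDEC hTK2 hTRV hFOUR
  have hTL1 : TL1 := pTL1 hL4 hPHW hDB hDO
  have hTAIL : TAIL := pTAIL hPHW hDIV hCYB hCLM hDB hTL1
  have hAT : AT := pAT hKAx hFEx hPDx hSH4 hEX4 hPOC hCLM hOMB hPRT hTK0 hTF1 hTDG hTAIL
  have hHA4 : HA4 := pHA4 hLOC4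
  have hCSM : CSM := pCSM hLOP hINB hVDP hHB4 hHA4 hZB hG1W hWRB
  have hSMO : SMO := pSMO hPHW hBRG hG1W hCLM hAFS hFB hAT hCSM
  have hSHARP : SHARP := pSHARP hBRG hFE hFOUR hENDP hQLIP hPHW hREAL hSMO
  have hLEAD : LEAD := pLEAD hRAD hONB hTAY hA4H hPH0 hQINT
  ⟨hSHARP, pRATIO 0 hLEAD hSHARP⟩

end Pool.Agent.Q4
end
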