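import Mathlib

-- part Pool.Agent.P.MP_ea46f5_nt.LRMert
section

/-!
Mertens' first theorem on blocks, and primes between Y and 4Y.
-/

namespace Pool.Agent.LRes

open Real Finset Filter
open ArithmeticFunction (vonMangoldt vonMangoldt_nonneg vonMangoldt_apply_prime vonMangoldt_sum)

theorem sum_log_eq (N : ℕ) :
    ∑ n ∈ Ioc 0 N, log n = ∑ d ∈ Ioc 0 N, ((N / d : ℕ) : ℝ) * vonMangoldt d := by
  have : ∀ n ∈ Ioc 0 N, log n = ∑ d ∈ Ioc 0 N, if d ∣ n then vonMangoldt d else 0 := by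
    intro n hn
    have hn' := mem_Ioc.1 hn
    rw [← vonMangoldt_sum, ← sum_filter]
    refine sum_congr ?_ fun _ _ => rfl
    ext d
    simp only [Nat.mem_divisors, mem_filter, mem_Ioc]
    constructor
    · rintro ⟨h1, -⟩
      exact ⟨⟨Nat.pos_of_dvd_of_pos h1 hn'.1, (Nat.le_of_dvd hn'.1 h1).trans hn'.2⟩, h1⟩
    · rintro ⟨-, h2⟩
      exact ⟨h2, hn'.1.ne'⟩
  rw [sum_congr rfl this, sum_comm]
  refine sum_congr rfl fun p _ => ?_
  rw [← sum_filter, sum_const, nsmul_eq_mul, Nat.Ioc_filter_dvd_card_eq_div]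

theorem le_sum_log (N : ℕ) : N * log N - N ≤ ∑ n ∈ Ioc 0 N, log n := by
  induction N with
  | zero => simp
  | succ N ih =>
    rw [sum_Ioc_succ_top (Nat.zero_le _)]
    rcases Nat.eq_zero_or_pos N with rfl | hN
    · simp
    · have h0 : (0 : ℝ) < N := by exact_mod_cast hN
      have h1 := log_le_sub_one_of_pos (x := ((N : ℝ) + 1) / N) (by positivity)
      rw [log_div (by positivity) h0.ne'] at h1
      have h2 : ((N : ℝ) + 1) / N - 1 = 1 / N := by field_simp; ring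
      rw [h2, le_div_iff₀ h0] at h1
      push_cast
      nlinarith

theorem mertens_lower {N : ℕ} (hN : 1 ≤ N) :
    log N - 1 ≤ ∑ d ∈ Ioc 0 N, vonMangoldt d / d := by
  have h0 : (0 : ℝ) < N := by exact_mod_cast hN
  refine le_of_mul_le_mul_left ?_ h0
  have h1 := le_sum_log N
  rw [sum_log_eq] at h1
  rw [mul_sum]
  refine le_trans (by linarith) (h1.trans (sum_le_sum fun d _ => ?_))
  calc ((N / d : ℕ) : ℝ) * vonMangoldt d ≤ (N : ℝ) / d * vonMangoldt d :=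
        mul_le_mul_of_nonneg_right Nat.cast_div_le vonMangoldt_nonneg
    _ = _ := by ring

theorem mertens_upper {N : ℕ} (hN : 1 ≤ N) :
    ∑ d ∈ Ioc 0 N, vonMangoldt d / d ≤ log N + (log 4 + 4) := by
  have h0 : (0 : ℝ) < N := by exact_mod_cast hN
  refine le_of_mul_le_mul_left ?_ h0
  have h1 : ∑ n ∈ Ioc 0 N, log n ≤ N * log N := by
    calc ∑ n ∈ Ioc 0 N, log (n : ℝ) ≤ ∑ n ∈ Ioc 0 N, log N := by
          refine sum_le_sum fun n hn => log_le_log ?_ ?_
          · exact_mod_cast (mem_Ioc.1 hn).1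
          · exact_mod_cast (mem_Ioc.1 hn).2
      _ = N * log N := by simp
  rw [sum_log_eq] at h1
  have h2 := Chebyshev.psi_le_const_mul_self h0.le
  rw [Chebyshev.psi, Nat.floor_natCast] at h2
  have h3 : N * ∑ d ∈ Ioc 0 N, vonMangoldt d / d ≤
      ∑ d ∈ Ioc 0 N, ((N / d : ℕ) : ℝ) * vonMangoldt d + ∑ d ∈ Ioc 0 N, vonMangoldt d := by
    rw [mul_sum, ← sum_add_distrib]
    refine sum_le_sum fun d hd => ?_
    have hd0 : 0 < d := (mem_Ioc.1 hd).1
    have hd0' : (0 : ℝ) < d := by exact_mod_cast hd0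
    have : (N : ℝ) / d ≤ ((N / d : ℕ) : ℝ) + 1 := by
      rw [div_le_iff₀ hd0']
      have : N ≤ (N / d + 1) * d := by
        have := Nat.lt_div_mul_add (a := N) hd0
        nlinarith
      exact_mod_cast this
    calc N * (vonMangoldt d / d) = (N / d) * vonMangoldt d := by ring
      _ ≤ (((N / d : ℕ) : ℝ) + 1) * vonMangoldt d :=
          mul_le_mul_of_nonneg_right this vonMangoldt_nonneg
      _ = _ := by ring
  linarith

theorem mertens_block : ∃ C : ℝ, 0 ≤ C ∧ ∀ u v : ℝ, 0 ≤ u → u ≤ v →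
    v - u - C ≤ ∑ p ∈ Ioc ⌊exp u⌋₊ ⌊exp v⌋₊, if p.Prime then log p / p else 0 := by
  have h := ArithmeticFunction.vonMangoldt.summable_residueClass_non_primes_div (q := 1) 0
  have h1 : ∀ n, ArithmeticFunction.vonMangoldt.residueClass (q := 1) 0 n = vonMangoldt n :=
    fun n => Set.indicator_of_mem (s := {n : ℕ | (n : ZMod 1) = 0})
      (Subsingleton.elim (α := ZMod 1) _ _) _
  simp only [h1] at h
  have hnn : ∀ n : ℕ, 0 ≤ (if n.Prime then 0 else vonMangoldt n) / (n : ℝ) := fun n => by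
    have := vonMangoldt_nonneg (n := n)
    split_ifs <;> positivity
  have hl4 : 0 ≤ log 4 := log_nonneg (by norm_num)
  refine ⟨∑' n : ℕ, (if n.Prime then 0 else vonMangoldt n) / (n : ℝ) + log 4 + 6,
    add_nonneg (add_nonneg (tsum_nonneg hnn) hl4) (by norm_num), fun u v hu huv => ?_⟩
  have hu1 : 1 ≤ ⌊exp u⌋₊ := Nat.le_floor (by simpa using one_le_exp hu)
  have hle : ⌊exp u⌋₊ ≤ ⌊exp v⌋₊ := Nat.floor_le_floor (exp_le_exp.2 huv)
  have h2 := mertens_lower (hu1.trans hle)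
  have h3 := mertens_upper hu1
  rw [← sum_Ioc_consecutive _ (Nat.zero_le _) hle] at h2
  have h4 : log ⌊exp u⌋₊ ≤ u := by
    rw [log_le_iff_le_exp (by exact_mod_cast hu1)]
    exact Nat.floor_le (exp_pos _).le
  have h5 : v - 1 ≤ log ⌊exp v⌋₊ := by
    have h6 : (1 : ℝ) ≤ ⌊exp v⌋₊ := by exact_mod_cast hu1.trans hle
    rw [le_log_iff_exp_le (by linarith), exp_sub, div_le_iff₀ (exp_pos _)]
    have := Nat.lt_floor_add_one (exp v)
    have := add_one_le_exp (1 : ℝ)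
    nlinarith
  have h6 := h.sum_le_tsum (Ioc ⌊exp u⌋₊ ⌊exp v⌋₊) fun n _ => hnn n
  have h7 : ∑ d ∈ Ioc ⌊exp u⌋₊ ⌊exp v⌋₊, vonMangoldt d / d =
      ∑ p ∈ Ioc ⌊exp u⌋₊ ⌊exp v⌋₊, (if p.Prime then log p / p else 0) +
      ∑ n ∈ Ioc ⌊exp u⌋₊ ⌊exp v⌋₊, (if n.Prime then 0 else vonMangoldt n) / (n : ℝ) := by
    rw [← sum_add_distrib]
    refine sum_congr rfl fun n _ => ?_
    split_ifs with hn
    · rw [vonMangoldt_apply_prime hn]; simp
    · simp
  linarith

theorem blocks {C a U δ : ℝ} (hC : ∀ u v : ℝ, 0 ≤ u → u ≤ v →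
      v - u - C ≤ ∑ p ∈ Ioc ⌊exp u⌋₊ ⌊exp v⌋₊, if p.Prime then log p / p else 0)
    (ha : 0 < a) (hU : 0 < U) (hδ : 0 < δ) (hCU : C ≤ δ ^ 2 * U) (i : ℕ)
    (hi : U * (1 + δ) ^ i ≤ δ * a) :
    i * (δ * (1 - δ) / ((1 + δ) ^ 2 * a)) ≤
      ∑ p ∈ Ioc ⌊exp (a + U)⌋₊ ⌊exp (a + U * (1 + δ) ^ i)⌋₊,
        if p.Prime then 1 / (p * (log p - a)) else 0 := by
  induction i with
  | zero => simp
  | succ i ih =>
    set V := U * (1 + δ) ^ i with hV
    have hUV : U ≤ V := le_mul_of_one_le_right hU.le (one_le_pow₀ (by linarith))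
    have hV0 : 0 < V := hU.trans_le hUV
    have hV1 : U * (1 + δ) ^ (i + 1) = V * (1 + δ) := by rw [hV]; ring
    rw [hV1] at hi ⊢
    have hVV : V ≤ V * (1 + δ) := by nlinarith
    rw [← sum_Ioc_consecutive _ (Nat.floor_le_floor (exp_le_exp.2 (by linarith : a + U ≤ a + V)))
      (Nat.floor_le_floor (exp_le_exp.2 (by linarith : a + V ≤ a + V * (1 + δ))))]
    have h1 := ih (hVV.trans hi)
    have h2 := hC (a + V) (a + V * (1 + δ)) (by linarith) (by linarith)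
    have h3 : (∑ p ∈ Ioc ⌊exp (a + V)⌋₊ ⌊exp (a + V * (1 + δ))⌋₊,
        if p.Prime then log p / p else 0) / (V * (1 + δ) * ((1 + δ) * a)) ≤
        ∑ p ∈ Ioc ⌊exp (a + V)⌋₊ ⌊exp (a + V * (1 + δ))⌋₊,
          if p.Prime then 1 / (p * (log p - a)) else 0 := by
      rw [sum_div]
      refine sum_le_sum fun p hp => ?_
      split_ifs with hpp
      · have hp0 : (0 : ℝ) < p := by exact_mod_cast hpp.pos
        have h4 : a + V < log p :=
          (lt_log_iff_exp_lt hp0).2 ((Nat.floor_lt (exp_pos _).le).1 (mem_Ioc.1 hp).1)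
        have h5 : log p ≤ a + V * (1 + δ) :=
          (log_le_iff_le_exp hp0).2 ((Nat.le_floor_iff (exp_pos _).le).1 (mem_Ioc.1 hp).2)
        have h6 : 0 < log p - a := by linarith
        rw [div_div, div_le_div_iff₀ (by positivity) (by positivity)]
        have h7 : (log p - a) * log p ≤ V * (1 + δ) * ((1 + δ) * a) :=
          mul_le_mul (by linarith) (by linarith) (by linarith) (by positivity)
        nlinarith
      · simp
    have h4 : δ * (1 - δ) / ((1 + δ) ^ 2 * a) ≤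
        (∑ p ∈ Ioc ⌊exp (a + V)⌋₊ ⌊exp (a + V * (1 + δ))⌋₊,
        if p.Prime then log p / p else 0) / (V * (1 + δ) * ((1 + δ) * a)) := by
      have : δ * (1 - δ) / ((1 + δ) ^ 2 * a) = δ * (1 - δ) * V / (V * (1 + δ) * ((1 + δ) * a)) := by
        field_simp
      rw [this]
      refine div_le_div_of_nonneg_right ?_ (by positivity)
      nlinarith [mul_le_mul_of_nonneg_left hUV (sq_nonneg δ)]
    push_cast
    linarith

theorem many_primes : ∀ᶠ Y : ℝ in atTop,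
    Y / (2 * log Y) ≤ (((Ioc ⌊Y⌋₊ ⌊4 * Y⌋₊).filter Nat.Prime).card : ℝ) := by
  have e1 := (isLittleO_log_rpow_atTop (r := 1 / 2) (by norm_num)).bound (c := 1 / 100)
    (by norm_num)
  filter_upwards [eventually_ge_atTop 100, e1] with Y hY h1
  have hY0 : 0 < Y := by linarith
  have hlog : 0 < log Y := log_pos (by linarith)
  rw [norm_eq_abs, norm_eq_abs, abs_of_pos hlog, ← sqrt_eq_rpow, abs_of_nonneg (sqrt_nonneg _)]
    at h1
  have hs : √Y * √Y = Y := mul_self_sqrt hY0.le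
  have hs0 : 10 ≤ √Y := le_sqrt_of_sq_le (by linarith)
  have h2 := Chebyshev.theta_ge' (x := 4 * Y) (by linarith)
  have h3 := Chebyshev.theta_le_log4_mul_x hY0.le
  have hl2 := log_two_gt_d9
  have hl2' := log_two_lt_d9
  have hl4 : log 4 = 2 * log 2 := by
    rw [show (4 : ℝ) = 2 ^ 2 by norm_num, log_pow]; norm_num
  have h4 : log (4 * Y) ≤ 2 * log Y := by
    rw [log_mul (by norm_num) hY0.ne']
    have : log 4 ≤ log Y := log_le_log (by norm_num) (by linarith)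
    linarith
  have h5 : log (4 * Y + 2) ≤ 2 * log Y := by
    rw [show 2 * log Y = log (Y ^ 2) by rw [log_pow]; norm_num]
    exact log_le_log (by linarith) (by nlinarith)
  have h6 : √(4 * Y) = 2 * √Y := by
    rw [sqrt_mul (by norm_num), show (4 : ℝ) = 2 ^ 2 by norm_num, sqrt_sq (by norm_num)]
  have h7 : Chebyshev.theta (4 * Y) - Chebyshev.theta Y ≤
      (((Ioc ⌊Y⌋₊ ⌊4 * Y⌋₊).filter Nat.Prime).card : ℝ) * (2 * log Y) := by
    rw [Chebyshev.theta, Chebyshev.theta, sum_filter, sum_filter,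
      ← sum_Ioc_consecutive _ (Nat.zero_le _)
        (Nat.floor_le_floor (by linarith : Y ≤ 4 * Y)), add_sub_cancel_left, ← sum_filter,
      ← nsmul_eq_mul]
    refine sum_le_card_nsmul _ _ _ fun p hp => ?_
    obtain ⟨hp1, hp2⟩ := mem_filter.1 hp
    refine le_trans (log_le_log (by exact_mod_cast hp2.pos) ?_) h4
    exact (Nat.le_floor_iff (by linarith)).1 (mem_Ioc.1 hp1).2
  rw [div_le_iff₀ (by positivity)]
  rw [h6] at h2
  have h8 : 2 * (2 * √Y) * log (4 * Y) ≤ 8 / 100 * Y := by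
    calc 2 * (2 * √Y) * log (4 * Y) ≤ 2 * (2 * √Y) * (2 * (1 / 100 * √Y)) := by
          gcongr; linarith
      _ = 8 / 100 * (√Y * √Y) := by ring
      _ = _ := by rw [hs]
  have h9 : √Y ≤ Y / 10 := by nlinarith
  nlinarith

end Pool.Agent.LRes
end

-- part Pool.Agent.P.MP_ea46f5_nt.LRPsd
section

/-!
Positive definite kernels on a finite set of positive integers, and the Perron inequality.
-/

namespace Pool.Agent.LRes

open Real Finset

/-- Positive definite kernels. -/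
def PD (D : Finset ℕ) (K : ℕ → ℕ → ℝ) : Prop :=
  ∀ ξ : ℕ → ℝ, 0 ≤ ∑ x ∈ D, ∑ y ∈ D, K x y * (ξ x * ξ y)

variable {D : Finset ℕ} {K K' : ℕ → ℕ → ℝ}

theorem PD.congr (h : PD D K) (he : ∀ x ∈ D, ∀ y ∈ D, K x y = K' x y) : PD D K' := fun ξ => by
  refine (h ξ).trans_eq (sum_congr rfl fun x hx => sum_congr rfl fun y hy => ?_)
  rw [he x hx y hy]

theorem PD_one : PD D fun _ _ => 1 := fun ξ => by
  simp_rw [one_mul, ← mul_sum, ← sum_mul]
  exact mul_self_nonneg _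

theorem PD.rank (h : PD D K) (g : ℕ → ℝ) : PD D fun x y => K x y * (g x * g y) := fun ξ => by
  refine (h fun x => g x * ξ x).trans_eq (sum_congr rfl fun x _ => sum_congr rfl fun y _ => ?_)
  ring

theorem PD.add (h : PD D K) (h' : PD D K') : PD D fun x y => K x y + K' x y := fun ξ => by
  simp_rw [add_mul, sum_add_distrib]
  exact add_nonneg (h ξ) (h' ξ)

theorem PD.smul (h : PD D K) {c : ℝ} (hc : 0 ≤ c) : PD D fun x y => c * K x y := fun ξ => by
  simp_rw [mul_assoc, ← mul_sum]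
  exact mul_nonneg hc (h ξ)

theorem PD.series (h : PD D K) (g : ℕ → ℕ → ℝ)
    (hg : ∀ x ∈ D, ∀ y ∈ D, HasSum (fun j => g j x * g j y) (K' x y)) :
    PD D fun x y => K x y * K' x y := fun ξ => by
  have h1 : HasSum (fun j => ∑ x ∈ D, ∑ y ∈ D, K x y * (g j x * g j y) * (ξ x * ξ y))
      (∑ x ∈ D, ∑ y ∈ D, K x y * K' x y * (ξ x * ξ y)) :=
    hasSum_sum fun x hx => hasSum_sum fun y hy => ((hg x hx y hy).mul_left _).mul_right _
  exact h1.nonneg fun j => h.rank (g j) ξ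

/-- The basic kernel. -/
noncomputable def kc (c : ℝ) (x y : ℕ) : ℝ := 1 / (((x : ℝ) + y) * (x * y + c))

theorem PD.mul_kc (h : PD D K) (hD : ∀ x ∈ D, 0 < x) {c : ℝ} (hc : 0 < c) :
    PD D fun x y => K x y * kc c x y := by
  set s := √c with hs
  have hs0 : 0 < s := sqrt_pos.2 hc
  have hsc : c = s ^ 2 := (sq_sqrt hc.le).symm
  refine h.series (fun j x => 2 * √s / ((x : ℝ) + s) ^ 2 * ((((x : ℝ) - s) / (x + s)) ^ 2) ^ j)
    fun x hx y hy => ?_
  have hx0 : (0 : ℝ) < x := by exact_mod_cast hD x hx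
  have hy0 : (0 : ℝ) < y := by exact_mod_cast hD y hy
  have hlt : ∀ u : ℝ, 0 < u → ((u - s) / (u + s)) ^ 2 < 1 := fun u hu => by
    rw [div_pow, div_lt_one (by positivity)]
    nlinarith
  have h1 : (((x : ℝ) - s) / (x + s)) ^ 2 * (((y : ℝ) - s) / (y + s)) ^ 2 < 1 :=
    mul_lt_one_of_nonneg_of_lt_one_left (by positivity) (hlt x hx0) (hlt y hy0).le
  have h2 := (hasSum_geometric_of_lt_one (by positivity) h1).mul_left
    (4 * s / (((x : ℝ) + s) ^ 2 * ((y : ℝ) + s) ^ 2))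
  have h3 : √s * √s = s := mul_self_sqrt hs0.le
  have h4 : 1 - (((x : ℝ) - s) / (x + s)) ^ 2 * (((y : ℝ) - s) / (y + s)) ^ 2 =
      4 * s * ((x + y) * (x * y + s ^ 2)) / (((x : ℝ) + s) ^ 2 * ((y : ℝ) + s) ^ 2) := by
    field_simp
    ring
  have h5 : 4 * s / (((x : ℝ) + s) ^ 2 * ((y : ℝ) + s) ^ 2) *
      (1 - (((x : ℝ) - s) / (x + s)) ^ 2 * (((y : ℝ) - s) / (y + s)) ^ 2)⁻¹ = kc c x y := by
    rw [h4, kc, hsc]
    field_simp
  rw [h5] at h2
  refine h2.congr_fun fun j => ?_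
  rw [mul_pow]
  have : 4 * s / (((x : ℝ) + s) ^ 2 * ((y : ℝ) + s) ^ 2) =
      2 * √s / ((x : ℝ) + s) ^ 2 * (2 * √s / ((y : ℝ) + s) ^ 2) := by
    field_simp
    nlinarith
  rw [this]
  ring

/-- The kernel attached to the theta variable. -/
noncomputable def KK (τ : ℝ) (x y : ℕ) : ℝ :=
  1 / ((x : ℝ) + y) ^ 2 * (x * y * τ / (1 + x * y * τ))

theorem PD_KK (hD : ∀ x ∈ D, 0 < x) {τ : ℝ} (hτ : 0 < τ) : PD D (KK τ) := by
  have h1 := PD_one.mul_kc hD one_pos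
  have h2 := (((h1.rank fun x => x).add h1).mul_kc hD (c := 1 / τ) (by positivity)).rank fun x => x
  refine h2.congr fun x hx y hy => ?_
  have hx0 : (0 : ℝ) < x := by exact_mod_cast hD x hx
  have hy0 : (0 : ℝ) < y := by exact_mod_cast hD y hy
  unfold kc KK
  field_simp
  ring

theorem PD_KK_sub (hD : ∀ x ∈ D, 0 < x) {σ τ : ℝ} (hσ : 0 < σ) (hτ : σ ≤ τ) :
    PD D fun x y => KK τ x y - KK σ x y := by
  have hτ0 : 0 < τ := hσ.trans_le hτ
  have h1 := (((PD_one.mul_kc hD (c := 1 / τ) (by positivity)).mul_kc hD (c := 1 / σ)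
    (by positivity)).rank fun x => x).smul (c := 1 / σ - 1 / τ)
    (sub_nonneg.2 (one_div_le_one_div_of_le hσ hτ))
  refine h1.congr fun x hx y hy => ?_
  have hx0 : (0 : ℝ) < x := by exact_mod_cast hD x hx
  have hy0 : (0 : ℝ) < y := by exact_mod_cast hD y hy
  unfold kc KK
  field_simp
  ring

section resonator

variable {ι : Type} [Fintype ι] [DecidableEq ι]

/-- Symmetric difference. -/
def xo (A B : ι → Bool) : ι → Bool := fun i => xor (A i) (B i)

omit [Fintype ι] [DecidableEq ι] in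
theorem xo_xo (A B : ι → Bool) : xo (xo A B) B = A := by
  funext i; simp [xo]

/-- The resonator. -/
def RR (e : ℕ → (ι → Bool) → ℝ) (M : Finset (ι → Bool)) (ρ : (ι → Bool) → ℝ) (x y : ℕ) : ℝ :=
  ∑ B ∈ M, ρ B * (e x B * e y B)

variable {e : ℕ → (ι → Bool) → ℝ} {M : Finset (ι → Bool)} {ρ : (ι → Bool) → ℝ}

omit [Fintype ι] [DecidableEq ι] in
theorem sum_RR (K : ℕ → ℕ → ℝ) (ξ : ℕ → ℝ) :
    ∑ x ∈ D, ∑ y ∈ D, K x y * RR e M ρ x y * (ξ x * ξ y) =
      ∑ B ∈ M, ρ B * ∑ x ∈ D, ∑ y ∈ D, K x y * ((ξ x * e x B) * (ξ y * e y B)) := by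
  simp_rw [RR, mul_sum, sum_mul]
  simp_rw [sum_comm (s := D) (t := M)]
  refine sum_congr rfl fun B _ => sum_congr rfl fun x _ => sum_congr rfl fun y _ => ?_
  ring

omit [Fintype ι] [DecidableEq ι] in
theorem PD.mul_RR (h : PD D K) (hρ : ∀ B ∈ M, 0 ≤ ρ B) :
    PD D fun x y => K x y * RR e M ρ x y := fun ξ => by
  rw [sum_RR]
  exact sum_nonneg fun B hB => mul_nonneg (hρ B hB) (h _)

theorem perron (h : PD D K) (hρ : ∀ B ∈ M, 0 ≤ ρ B)
    (he : ∀ x ∈ D, ∀ A B, e x A * e x B = e x (xo A B)) (κ : (ι → Bool) → ℝ) (hκ : ∀ A, 0 ≤ κ A)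
    {b : ℝ} (hb : ∀ C ∈ M, b * ρ C ≤ ∑ B ∈ M, κ (xo C B) * ρ B) :
    b * ∑ x ∈ D, ∑ y ∈ D, K x y * RR e M ρ x y * RR e M ρ x y ≤
      ∑ A, κ A * ∑ x ∈ D, ∑ y ∈ D, K x y * RR e M ρ x y * RR e M ρ x y * (e x A * e y A) := by
  set q : (ι → Bool) → ℝ := fun C => ∑ x ∈ D, ∑ y ∈ D, K x y * RR e M ρ x y * (e x C * e y C)
    with hq
  have hq0 : ∀ C, 0 ≤ q C := fun C => h.mul_RR hρ _
  have h1 : ∑ x ∈ D, ∑ y ∈ D, K x y * RR e M ρ x y * RR e M ρ x y = ∑ C ∈ M, ρ C * q C := by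
    have := sum_RR (D := D) (e := e) (M := M) (ρ := ρ) (fun x y => K x y * RR e M ρ x y) fun _ => 1
    simpa using this
  have h2 : ∀ A, ∑ x ∈ D, ∑ y ∈ D, K x y * RR e M ρ x y * RR e M ρ x y * (e x A * e y A) =
      ∑ B ∈ M, ρ B * q (xo A B) := by
    intro A
    rw [sum_RR (fun x y => K x y * RR e M ρ x y) fun x => e x A]
    refine sum_congr rfl fun B _ => ?_
    congr 1
    refine sum_congr rfl fun x hx => sum_congr rfl fun y hy => ?_
    rw [he x hx, he y hy]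
  have h3 : ∀ B, ∑ A, κ A * (ρ B * q (xo A B)) = ∑ C, q C * (κ (xo C B) * ρ B) := by
    intro B
    have hinv : Function.Involutive fun A : ι → Bool => xo A B := fun A => xo_xo A B
    rw [← hinv.bijective.sum_comp]
    refine sum_congr rfl fun C _ => ?_
    simp only [xo_xo]
    ring
  simp_rw [h1, h2, mul_sum]
  rw [sum_comm]
  simp_rw [h3]
  rw [sum_comm]
  simp_rw [← mul_sum]
  calc b * ∑ C ∈ M, ρ C * q C = ∑ C ∈ M, q C * (b * ρ C) := by
        rw [mul_sum]; exact sum_congr rfl fun C _ => by ring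
    _ ≤ ∑ C ∈ M, q C * ∑ B ∈ M, κ (xo C B) * ρ B :=
        sum_le_sum fun C hC => mul_le_mul_of_nonneg_left (hb C hC) (hq0 C)
    _ ≤ _ := sum_le_sum_of_subset_of_nonneg (subset_univ _) fun C _ _ =>
        mul_nonneg (hq0 C) (sum_nonneg fun B hB => mul_nonneg (hκ _) (hρ B hB))

omit [Fintype ι] [DecidableEq ι] in
theorem S_lower (h : PD D K) (hρ : ∀ B ∈ M, 0 ≤ ρ B) (he : ∀ x ∈ D, ∀ A, e x A * e x A = 1) :
    (∑ B ∈ M, ρ B ^ 2) * ∑ x ∈ D, ∑ y ∈ D, K x y ≤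
      ∑ x ∈ D, ∑ y ∈ D, K x y * RR e M ρ x y * RR e M ρ x y := by
  have h1 := sum_RR (D := D) (e := e) (M := M) (ρ := ρ) (fun x y => K x y * RR e M ρ x y) fun _ => 1
  simp only [mul_one, one_mul] at h1
  rw [h1, sum_mul]
  refine sum_le_sum fun C hC => ?_
  rw [sq, mul_assoc, sum_RR K fun x => e x C]
  refine mul_le_mul_of_nonneg_left ?_ (hρ C hC)
  refine le_trans (le_of_eq ?_) (single_le_sum (f := fun B => ρ B * ∑ x ∈ D, ∑ y ∈ D,
    K x y * ((e x C * e x B) * (e y C * e y B))) (fun B hB => mul_nonneg (hρ B hB) (h _)) hC)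
  congr 1
  refine sum_congr rfl fun x hx => sum_congr rfl fun y hy => ?_
  rw [he x hx, he y hy]; ring

omit [Fintype ι] [DecidableEq ι] in
theorem RR_sq_le {x y : ℕ} (hx : ∀ A, e x A * e x A = 1) (hy : ∀ A, e y A * e y A = 1) :
    RR e M ρ x y * RR e M ρ x y ≤ M.card * ∑ B ∈ M, ρ B ^ 2 := by
  rw [← sq, RR]
  refine (sq_sum_le_card_mul_sum_sq).trans_eq ?_
  congr 1
  refine sum_congr rfl fun B _ => ?_
  calc (ρ B * (e x B * e y B)) ^ 2 = ρ B ^ 2 * ((e x B * e x B) * (e y B * e y B)) := by ring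
    _ = _ := by rw [hx, hy]; ring

omit [DecidableEq ι] in
/-- Pruning: a large Rayleigh quotient gives a subeigenvector. -/
theorem prune (κ : (ι → Bool) → ℝ) (hκ : ∀ A, 0 ≤ κ A) (M : Finset (ι → Bool))
    (f : (ι → Bool) → ℝ) (hf : ∀ A, 0 < f A) {lam : ℝ} (hl : 0 < lam) (hM : M.Nonempty)
    (h : lam * ∑ B ∈ M, f B ^ 2 ≤ ∑ C ∈ M, ∑ B ∈ M, κ (xo C B) * (f C * f B)) :
    ∃ S ⊆ M, S.Nonempty ∧ ∀ C ∈ S, lam / 4 * f C ≤ ∑ B ∈ S, κ (xo C B) * f B := by
  set G : Finset (ι → Bool) → ℝ := fun S =>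
    ∑ C ∈ S, ∑ B ∈ S, κ (xo C B) * (f C * f B) - lam / 2 * ∑ B ∈ S, f B ^ 2 with hG
  obtain ⟨S, hS, hmax⟩ := exists_max_image M.powerset G ⟨M, mem_powerset_self M⟩
  have hSM := mem_powerset.1 hS
  have hpos : 0 < ∑ B ∈ M, f B ^ 2 := sum_pos (fun B _ => pow_pos (hf B) 2) hM
  have hGM : 0 < G M := by simp only [hG]; nlinarith
  refine ⟨S, hSM, ?_, fun C hC => ?_⟩
  · rw [nonempty_iff_ne_empty]
    rintro rfl
    have := hmax M (mem_powerset_self M)
    simp only [hG, sum_empty] at this hGM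
    linarith
  · have h1 := hmax (S.erase C) (mem_powerset.2 ((erase_subset _ _).trans hSM))
    have hsym : ∀ A B : ι → Bool, xo A B = xo B A := fun A B => by
      funext i; simp [xo, Bool.xor_comm]
    have e1 : ∑ B ∈ S, f B ^ 2 = f C ^ 2 + ∑ B ∈ S.erase C, f B ^ 2 :=
      (add_sum_erase _ _ hC).symm
    have e2 : ∑ B ∈ S, κ (xo C B) * f B =
        κ (xo C C) * f C + ∑ B ∈ S.erase C, κ (xo C B) * f B := (add_sum_erase _ _ hC).symm
    have e3 : ∑ A ∈ S, ∑ B ∈ S, κ (xo A B) * (f A * f B) =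
        κ (xo C C) * (f C * f C) + 2 * f C * ∑ B ∈ S.erase C, κ (xo C B) * f B +
          ∑ A ∈ S.erase C, ∑ B ∈ S.erase C, κ (xo A B) * (f A * f B) := by
      rw [← add_sum_erase _ _ hC, ← add_sum_erase _ _ hC]
      have : ∑ A ∈ S.erase C, ∑ B ∈ S, κ (xo A B) * (f A * f B) =
          ∑ A ∈ S.erase C, κ (xo C A) * (f A * f C) +
            ∑ A ∈ S.erase C, ∑ B ∈ S.erase C, κ (xo A B) * (f A * f B) := by
        rw [← sum_add_distrib]
        refine sum_congr rfl fun A _ => ?_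
        rw [← add_sum_erase _ _ hC, hsym A C]
      rw [this, mul_sum]
      have e4 : ∑ B ∈ S.erase C, 2 * f C * (κ (xo C B) * f B) =
          ∑ B ∈ S.erase C, κ (xo C B) * (f C * f B) +
            ∑ A ∈ S.erase C, κ (xo C A) * (f A * f C) := by
        rw [← sum_add_distrib]; exact sum_congr rfl fun A _ => by ring
      rw [e4]; ring
    simp only [hG] at h1
    rw [e1, e3] at h1
    rw [e2]
    have hc := hf C
    have hk := hκ (xo C C)
    have : lam / 4 * f C * f C ≤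
        (κ (xo C C) * f C + ∑ B ∈ S.erase C, κ (xo C B) * f B) * f C := by
      nlinarith [mul_nonneg hk (mul_self_nonneg (f C))]
    exact le_of_mul_le_mul_right this hc

end resonator

end Pool.Agent.LRes
end
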