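import Pool.Agent.K.MP_ea46f5_nt.C34

/-!
The squarefree GCD sum through a product measure.
-/

namespace Pool.Agent.LRes

open Real Finset

variable {ι : Type} [Fintype ι] [DecidableEq ι]

theorem sum_prod_one (h : ι → Bool → ℝ) :
    ∑ A : ι → Bool, ∏ i, h i (A i) = ∏ i, (h i true + h i false) := by
  rw [← Fintype.piFinset_univ, ← prod_univ_sum]
  simp

theorem sum_prod_two (h : ι → Bool → Bool → ℝ) :
    ∑ C : ι → Bool, ∑ B : ι → Bool, ∏ i, h i (C i) (B i) =
      ∏ i, (h i true true + h i true false + (h i false true + h i false false)) := by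
  simp_rw [fun C : ι → Bool => sum_prod_one fun i b => h i (C i) b]
  exact sum_prod_one fun i a => h i a true + h i a false

theorem gcd_abstract {l : ι → ℕ} (hl : ∀ i, (l i).Prime) (t : ι → ℝ) (ht : ∀ i, 0 < t i)
    {Λ Z η θ : ℝ} (hΛ : 0 < Λ) (hZ : 1 < Z) (hη : η < 1) (hθ : 0 < θ)
    (hs : ∀ i, t i ^ 2 + 2 * (t i / √(l i)) ≤ η)
    (hΓ : ∑ i, (-log (t i ^ 2) / Λ * (t i ^ 2 + 2 * (t i / √(l i))) +
      log (l i) / log Z * (2 * (t i / √(l i)))) ≤ 1 - θ) :
    ∃ (S : Finset (ι → Bool)) (ρ : (ι → Bool) → ℝ), S.Nonempty ∧ (∀ B, 0 < ρ B) ∧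
      (S.card : ℝ) ≤ exp (Λ + ∑ i, t i ^ 2) ∧
      ∀ C ∈ S, θ * exp ((1 - η) * ∑ i, 2 * (t i / √(l i))) / 4 * ρ C ≤
        ∑ B ∈ S, kap l Z (xo C B) * ρ B := by
  have hl0 : ∀ i, (0 : ℝ) < l i := fun i => by exact_mod_cast (hl i).pos
  have hl1 : ∀ i, (1 : ℝ) ≤ l i := fun i => by exact_mod_cast (hl i).one_le
  have hsq : ∀ i, 0 < √(l i : ℝ) := fun i => sqrt_pos.2 (hl0 i)
  have hy : ∀ i, 0 < t i / √(l i) := fun i => div_pos (ht i) (hsq i)
  have hc : ∀ i, 0 ≤ -log (t i ^ 2) := fun i => by
    have := hs i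
    have := hy i
    exact neg_nonneg.2 (log_nonpos (by positivity) (by linarith))
  have hLZ : 0 < log Z := log_pos hZ
  set f : (ι → Bool) → ℝ := fun A => ∏ i, if A i then t i else 1 with hf
  have hf0 : ∀ A, 0 < f A := fun A => prod_pos fun i _ => by split_ifs; exacts [ht i, one_pos]
  set M := univ.filter fun A : ι → Bool => ∑ i, (if A i then -log (t i ^ 2) else 0) ≤ Λ with hM
  have hf2 : ∑ A, f A ^ 2 = ∏ i, (t i ^ 2 + 1) := by
    have := sum_prod_one fun i (b : Bool) => (if b then t i else 1) ^ 2
    simp only [prod_pow] at this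
    simpa [hf] using this
  have hcard : (M.card : ℝ) ≤ exp (Λ + ∑ i, t i ^ 2) := by
    have h1 : ∀ A ∈ M, (1 : ℝ) ≤ exp Λ * f A ^ 2 := by
      intro A hA
      have h2 : f A ^ 2 = exp (-∑ i, (if A i then -log (t i ^ 2) else 0)) := by
        rw [← sum_neg_distrib, exp_sum, hf, ← prod_pow]
        refine prod_congr rfl fun i _ => ?_
        split_ifs
        · rw [neg_neg, exp_log (pow_pos (ht i) 2)]
        · simp
      rw [h2, ← exp_add]
      exact one_le_exp (by linarith [(mem_filter.1 hA).2])
    calc (M.card : ℝ) = ∑ A ∈ M, (1 : ℝ) := by simp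
      _ ≤ ∑ A ∈ M, exp Λ * f A ^ 2 := sum_le_sum h1
      _ ≤ ∑ A, exp Λ * f A ^ 2 :=
          sum_le_sum_of_subset_of_nonneg (subset_univ _) fun A _ _ => by positivity
      _ = exp Λ * ∏ i, (t i ^ 2 + 1) := by rw [← mul_sum, hf2]
      _ ≤ _ := by
          rw [exp_add, exp_sum]
          exact mul_le_mul_of_nonneg_left
            (prod_le_prod (fun i _ => by positivity) fun i _ => add_one_le_exp _) (exp_pos _).le
  set g : ι → Bool → Bool → ℝ := fun i a b =>
    (if a then t i else 1) * (if b then t i else 1) * (if xor a b then 1 / √(l i) else 1) with hg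
  set v : ι → Bool → Bool → ℝ := fun i a b =>
    (if a || b then -log (t i ^ 2) / Λ else 0) + (if xor a b then log (l i) / log Z else 0) with hv
  have hg0 : ∀ i a b, 0 ≤ g i a b := fun i a b => by
    have := ht i
    have := hsq i
    simp only [hg]; split_ifs <;> positivity
  set G : ι → ℝ := fun i => t i ^ 2 + 1 + 2 * (t i / √(l i)) with hG
  have hw : ∑ C : ι → Bool, ∑ B : ι → Bool, ∏ i, g i (C i) (B i) = ∏ i, G i := by
    rw [sum_prod_two]
    refine prod_congr rfl fun i _ => ?_
    simp [hg, hG]; ring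
  have hwv : ∀ j, ∑ C : ι → Bool, ∑ B : ι → Bool, (∏ i, g i (C i) (B i)) * v j (C j) (B j) ≤
      (∏ i, G i) * (-log (t j ^ 2) / Λ * (t j ^ 2 + 2 * (t j / √(l j))) +
        log (l j) / log Z * (2 * (t j / √(l j)))) := by
    intro j
    set γ := -log (t j ^ 2) / Λ * (t j ^ 2 + 2 * (t j / √(l j))) +
      log (l j) / log Z * (2 * (t j / √(l j))) with hγ
    have h0 : 0 ≤ log (l j) := log_nonneg (hl1 j)
    have hγ0 : 0 ≤ γ := by
      have := hc j
      have := hy j
      positivity
    have h1 := sum_prod_two fun i a b => g i a b * if i = j then v j a b else 1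
    simp only [prod_mul_distrib, prod_ite_eq', mem_univ, if_true] at h1
    rw [h1]
    have h2 : (∏ i, G i) * γ = ∏ i, (G i * if i = j then γ else 1) := by
      simp only [prod_mul_distrib, prod_ite_eq', mem_univ, if_true]
    rw [h2]
    have h3 : ∀ i, (g i true true * (if i = j then v j true true else 1) +
        g i true false * (if i = j then v j true false else 1) +
        (g i false true * (if i = j then v j false true else 1) +
        g i false false * (if i = j then v j false false else 1))) = if i = j then γ else G i := by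
      intro i
      split_ifs with h
      · subst h
        simp [hg, hv, hγ]; ring
      · simp [hg, hG]; ring
    simp_rw [h3]
    have hG1 : ∀ i, 1 ≤ G i := fun i => by
      have := hy i
      simp only [hG]; nlinarith [sq_nonneg (t i)]
    refine prod_le_prod (fun i _ => ?_) fun i _ => ?_
    · split_ifs
      · exact hγ0
      · linarith [hG1 i]
    · split_ifs
      · exact le_mul_of_one_le_left hγ0 (hG1 i)
      · rw [mul_one]
  have hk0 : ∀ A, 0 ≤ kap l Z A := fun A => by unfold kap; split_ifs <;> positivity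
  have hpt : ∀ C B : ι → Bool, (∏ i, g i (C i) (B i)) * (1 - ∑ j, v j (C j) (B j)) ≤
      if C ∈ M then if B ∈ M then kap l Z (xo C B) * (f C * f B) else 0 else 0 := by
    intro C B
    have h0 : 0 ≤ ∏ i, g i (C i) (B i) := prod_nonneg fun i _ => hg0 _ _ _
    have ha : ∀ j, 0 ≤ -log (t j ^ 2) / Λ := fun j => div_nonneg (hc j) hΛ.le
    have hb : ∀ j, 0 ≤ log (l j) / log Z := fun j => div_nonneg (log_nonneg (hl1 j)) hLZ.le
    rcases le_total 1 (∑ j, v j (C j) (B j)) with h | h
    · refine le_trans (mul_nonpos_of_nonneg_of_nonpos h0 (by linarith)) ?_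
      have := hk0 (xo C B)
      have := hf0 C
      have := hf0 B
      split_ifs <;> positivity
    · have hmem : ∀ A : ι → Bool, (∀ j, A j = true → (C j || B j) = true) → A ∈ M := by
        intro A hA
        refine mem_filter.2 ⟨mem_univ _, ?_⟩
        rw [← div_le_one hΛ, sum_div]
        refine le_trans (sum_le_sum fun j _ => ?_) h
        have := ha j
        have := hb j
        simp only [hv]
        by_cases hj : A j = true
        · rw [if_pos hj, if_pos (hA j hj)]
          split_ifs <;> linarith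
        · rw [if_neg hj, zero_div]
          split_ifs <;> linarith
      rw [if_pos (hmem C fun j hj => by simp [hj]), if_pos (hmem B fun j hj => by simp [hj])]
      have hcast : (nn l (xo C B) : ℝ) = ∏ i, if xor (C i) (B i) then (l i : ℝ) else 1 := by
        simp [nn, xo]
      have hZ' : (nn l (xo C B) : ℝ) ≤ Z := by
        rw [← log_le_log_iff (by exact_mod_cast nn_pos hl _) (by linarith), ← div_le_one hLZ, hcast,
          log_prod (fun i _ => by split_ifs; exacts [(hl0 i).ne', one_ne_zero]), sum_div]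
        refine le_trans (sum_le_sum fun j _ => ?_) h
        have := ha j
        have := hb j
        simp only [hv]
        split_ifs <;> (try rw [log_one, zero_div]) <;> linarith
      have heq : kap l Z (xo C B) * (f C * f B) = ∏ i, g i (C i) (B i) := by
        rw [kap, if_pos hZ', hcast, sqrt_prod _ (fun i _ => by split_ifs <;> positivity), one_div,
          ← prod_inv_distrib, hf, ← prod_mul_distrib, ← prod_mul_distrib]
        refine prod_congr rfl fun i _ => ?_
        simp only [hg]
        split_ifs <;> simp [mul_comm]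
      rw [heq]
      have : 0 ≤ ∑ j, v j (C j) (B j) := sum_nonneg fun j _ => by
        have := ha j
        have := hb j
        simp only [hv]
        split_ifs <;> linarith
      exact mul_le_of_le_one_right h0 (by linarith)
  have hmain : θ * ∏ i, G i ≤ ∑ C ∈ M, ∑ B ∈ M, kap l Z (xo C B) * (f C * f B) := by
    have h1 := sum_le_sum fun C (_ : C ∈ univ) => sum_le_sum fun B (_ : B ∈ univ) => hpt C B
    simp only [sum_ite_irrel, sum_ite_mem, univ_inter, sum_const_zero] at h1
    refine le_trans ?_ h1
    simp_rw [mul_sub, sum_sub_distrib, mul_one, mul_sum]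
    rw [hw]
    have h2 : ∑ C : ι → Bool, ∑ B : ι → Bool, ∑ j, (∏ i, g i (C i) (B i)) * v j (C j) (B j) =
        ∑ j, ∑ C : ι → Bool, ∑ B : ι → Bool, (∏ i, g i (C i) (B i)) * v j (C j) (B j) := by
      rw [sum_comm]
      simp_rw [sum_comm (s := (univ : Finset (ι → Bool))) (t := (univ : Finset ι))]
      exact sum_congr rfl fun j _ => sum_comm
    have h3 := sum_le_sum fun j (_ : j ∈ univ) => hwv j
    rw [← mul_sum] at h3
    have h4 : 0 ≤ ∏ i, G i := prod_nonneg fun i _ => by
      have := hy i
      simp only [hG]; positivity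
    rw [h2]
    nlinarith [mul_le_mul_of_nonneg_left hΓ h4]
  have hratio : exp ((1 - η) * ∑ i, 2 * (t i / √(l i))) * ∏ i, (t i ^ 2 + 1) ≤ ∏ i, G i := by
    rw [mul_sum, exp_sum, ← prod_mul_distrib]
    refine prod_le_prod (fun i _ => by positivity) fun i _ => ?_
    have h1 := hy i
    have h2 := hs i
    set y := 2 * (t i / √(l i)) with hyy
    have hy0 : 0 < y := by positivity
    have h3 : (1 - η) * y < 1 := by nlinarith [sq_nonneg (t i)]
    have h4 := exp_bound_div_one_sub_of_interval (x := (1 - η) * y) (by nlinarith) h3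
    refine (mul_le_mul_of_nonneg_right h4 (by positivity)).trans ?_
    rw [one_div_mul_eq_div, div_le_iff₀ (by linarith)]
    simp only [hG, ← hyy]
    have h5 : (1 - η) * (t i ^ 2 + 1 + y) ≤ 1 := by nlinarith [sq_nonneg η]
    nlinarith
  have hne : M.Nonempty := ⟨fun _ => false, by simp [hM, hΛ.le]⟩
  obtain ⟨S, hS1, hS2, hS3⟩ := prune (kap l Z) hk0 M f hf0
    (lam := θ * exp ((1 - η) * ∑ i, 2 * (t i / √(l i)))) (by positivity) hne (by
      refine le_trans ?_ hmain
      rw [mul_assoc]
      refine mul_le_mul_of_nonneg_left (le_trans ?_ hratio) hθ.le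
      rw [← hf2]
      exact mul_le_mul_of_nonneg_left
        (sum_le_sum_of_subset_of_nonneg (subset_univ _) fun A _ _ => by positivity) (exp_pos _).le)
  exact ⟨S, f, hS2, hf0, le_trans (by exact_mod_cast card_le_card hS1) hcard, hS3⟩

end Pool.Agent.LRes
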