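import Pool.Agent.P.MP_ea46f5_nt.Defs

-- part Pool.Agent.P.MP_ea46f5_nt.One
section

set_option autoImplicit false

/-! One-dimensional part: sine coefficients against `Im (z^j / h(z))`. -/

namespace Pool.Agent.KMom

open MeasureTheory Real Finset

/-- Integral over `[0, π]`. -/
noncomputable def I1 (f : ℝ → ℝ) : ℝ := ∫ t in Set.Icc 0 π, f t

theorem intg {f : ℝ → ℝ} (hf : Continuous f) : Integrable f (volume.restrict (Set.Icc 0 π)) :=
  hf.continuousOn.integrableOn_Icc

theorem I1_add {f g : ℝ → ℝ} (hf : Continuous f) (hg : Continuous g) :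
    I1 (fun t => f t + g t) = I1 f + I1 g := integral_add (intg hf) (intg hg)

theorem I1_sub {f g : ℝ → ℝ} (hf : Continuous f) (hg : Continuous g) :
    I1 (fun t => f t - g t) = I1 f - I1 g := integral_sub (intg hf) (intg hg)

theorem I1_smul (c : ℝ) (f : ℝ → ℝ) : I1 (fun t => c * f t) = c * I1 f := integral_const_mul c f

theorem I1_sum {ι : Type} (T : Finset ι) {f : ι → ℝ → ℝ} (hf : ∀ i ∈ T, Continuous (f i)) :
    I1 (fun t => ∑ i ∈ T, f i t) = ∑ i ∈ T, I1 (f i) :=
  integral_finsetSum T fun i hi => intg (hf i hi)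

theorem I1_cos (n : ℤ) (hn : n ≠ 0) : I1 (fun t => cos (n * t)) = 0 := by
  have hn' : (n : ℝ) ≠ 0 := by exact_mod_cast hn
  rw [I1, integral_Icc_eq_integral_Ioc, ← intervalIntegral.integral_of_le pi_pos.le,
    intervalIntegral.integral_comp_mul_left (fun t => cos t) hn', integral_cos]
  simp [sin_int_mul_pi]

/-- Sine coefficient. -/
noncomputable def fh (f : ℝ → ℝ) (j : ℕ) : ℝ := I1 fun t => f t * sin (j * t)

theorem fh_zero (f : ℝ → ℝ) : fh f 0 = 0 := by simp [fh, I1]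

/-- No sine coefficients above `d`. -/
def BL (f : ℝ → ℝ) (d : ℕ) : Prop := Continuous f ∧ ∀ j, d < j → fh f j = 0

theorem BL.mono {f : ℝ → ℝ} {d d' : ℕ} (h : BL f d) (hd : d ≤ d') : BL f d' :=
  ⟨h.1, fun j hj => h.2 j (by omega)⟩

theorem bl_sin (m : ℕ) : BL (fun t => sin (m * t)) m := by
  refine ⟨by fun_prop, fun j hj => ?_⟩
  have h1 := I1_cos ((j : ℤ) - m) (by omega)
  have h2 := I1_cos ((j : ℤ) + m) (by omega)
  have : (fun t : ℝ => sin (m * t) * sin (j * t)) = fun t => (1 / 2 : ℝ) *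
      (cos ((((j : ℤ) - m : ℤ) : ℝ) * t) - cos ((((j : ℤ) + m : ℤ) : ℝ) * t)) := by
    funext t
    push_cast
    rw [sub_mul, add_mul, cos_sub, cos_add]
    ring
  rw [fh, this, I1_smul, I1_sub (by fun_prop) (by fun_prop), h1, h2]
  simp

theorem fh_cos {f : ℝ → ℝ} (hf : Continuous f) (j : ℕ) :
    fh (fun t => cos t * f t) (j + 1) = (fh f (j + 2) + fh f j) / 2 := by
  have : (fun t : ℝ => cos t * f t * sin (((j + 1 : ℕ) : ℝ) * t)) = fun t => (1 / 2 : ℝ) *
      (f t * sin (((j + 2 : ℕ) : ℝ) * t) + f t * sin (j * t)) := by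
    funext t
    have e1 : ((j + 2 : ℕ) : ℝ) * t = ((j + 1 : ℕ) : ℝ) * t + t := by push_cast; ring
    have e2 : (j : ℝ) * t = ((j + 1 : ℕ) : ℝ) * t - t := by push_cast; ring
    rw [e1, e2, sin_add, sin_sub]
    ring
  rw [fh, this, I1_smul, I1_add (by fun_prop) (by fun_prop), fh, fh]
  ring

theorem BL.cos {f : ℝ → ℝ} {d : ℕ} (h : BL f d) : BL (fun t => cos t * f t) (d + 1) := by
  refine ⟨by have := h.1; fun_prop, fun j hj => ?_⟩
  obtain ⟨j, rfl⟩ : ∃ i, j = i + 1 := ⟨j - 1, by omega⟩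
  rw [fh_cos h.1, h.2 _ (by omega), h.2 _ (by omega)]
  simp

theorem bl_mono (e m : ℕ) : BL (fun t => cos t ^ e * sin (m * t)) (m + e) := by
  induction e with
  | zero => simpa using bl_sin m
  | succ e ih =>
    have e1 : (fun t => cos t ^ (e + 1) * sin (m * t)) =
        fun t => cos t * (cos t ^ e * sin (m * t)) := by
      funext t
      ring
    rw [e1]
    exact ih.cos

theorem fh_two {f : ℝ → ℝ} (hf : Continuous f) (j : ℕ) :
    fh (fun t => (2 - 2 * cos t) * f t) (j + 1) = 2 * fh f (j + 1) - fh f (j + 2) - fh f j := by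
  have : (fun t : ℝ => (2 - 2 * cos t) * f t * sin (((j + 1 : ℕ) : ℝ) * t)) = fun t =>
      2 * (f t * sin (((j + 1 : ℕ) : ℝ) * t)) - 2 * (cos t * f t * sin (((j + 1 : ℕ) : ℝ) * t)) := by
    funext t
    ring
  have h2 := fh_cos hf j
  rw [fh] at h2
  rw [fh, this, I1_sub (by fun_prop) (by fun_prop), I1_smul, I1_smul, h2, ← fh]
  ring

theorem bl_Z (k m : ℕ) : BL (fun t => (2 - 2 * cos t) ^ k * sin (m * t)) (m + k) := by
  induction k with
  | zero => simpa using bl_sin m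
  | succ k ih =>
    refine ⟨by fun_prop, fun j hj => ?_⟩
    obtain ⟨j, rfl⟩ : ∃ i, j = i + 1 := ⟨j - 1, by omega⟩
    have := fh_two ih.1 j
    rw [ih.2 _ (by omega), ih.2 _ (by omega), ih.2 _ (by omega)] at this
    convert this using 2
    · funext t
      ring
    · simp

theorem sum_by_parts (a p : ℕ → ℝ) (h0 : a 0 = 0) (hp : p 0 = 0) (K : ℕ) :
    ∑ j ∈ range K, (2 * a (j + 1) - a (j + 2) - a j) * p (j + 1) =
      ∑ j ∈ range K, a (j + 1) * (2 * p (j + 1) - p (j + 2) - p j) +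
        a K * p (K + 1) - a (K + 1) * p K := by
  induction K with
  | zero => simp [h0, hp]
  | succ K ih =>
    rw [sum_range_succ, sum_range_succ, ih]
    ring

open Polynomial in
theorem degree_diff (p : ℝ[X]) (c : ℝ) (n : ℕ) (h : p.degree < (n + 1 : ℕ)) :
    (taylor c p - p).degree < n := by
  by_cases hp : p = 0
  · subst hp
    simp
  have h1 : (taylor c p).degree = p.degree := by
    have : taylor c p ≠ 0 := fun h0 => hp ((taylor_eq_zero c p).1 h0)
    rw [degree_eq_natDegree this, degree_eq_natDegree hp, natDegree_taylor]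
  have h2 := degree_sub_lt_left h1 (fun h0 => hp ((taylor_eq_zero c p).1 h0)) (leadingCoeff_taylor c p)
  rw [h1] at h2
  rw [degree_eq_natDegree hp] at h h2
  have h3 : p.natDegree ≤ n := by
    have : p.natDegree < n + 1 := by exact_mod_cast h
    omega
  exact h2.trans_le (by exact_mod_cast h3)

open Polynomial in
theorem kernel (k m : ℕ) : ∀ p : ℝ[X], (∀ x, p.eval (-x) = -p.eval x) → p.degree < (2 * k : ℕ) →
    ∀ K, m + k ≤ K → ∑ j ∈ range K,
      fh (fun t => (2 - 2 * cos t) ^ k * sin (m * t)) (j + 1) * p.eval ((j + 1 : ℕ) : ℝ) = 0 := by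
  induction k with
  | zero =>
    intro p _ hp K _
    have : p = 0 := by
      rw [← degree_eq_bot]
      simpa using hp
    simp [this]
  | succ k ih =>
    intro p hodd hp K hK
    have hB := bl_Z k m
    have e : (fun t => (2 - 2 * cos t) ^ (k + 1) * sin (m * t)) =
        fun t => (2 - 2 * cos t) * ((2 - 2 * cos t) ^ k * sin (m * t)) := by
      funext t
      ring
    have hp0 : p.eval ((0 : ℕ) : ℝ) = 0 := by
      have := hodd 0
      simp only [neg_zero] at this
      simp only [Nat.cast_zero]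
      linarith
    simp only [e, fh_two hB.1]
    rw [sum_by_parts _ (fun j => p.eval (j : ℝ)) (fh_zero _) hp0, hB.2 K (by omega),
      hB.2 (K + 1) (by omega)]
    set q : ℝ[X] := taylor 1 p - p with hq
    have hq1 : q.degree < (2 * k + 1 : ℕ) := degree_diff p 1 _ (by
      rwa [show 2 * k + 1 + 1 = 2 * (k + 1) by ring])
    have hq2 := degree_diff q (-1) _ hq1
    have hev : ∀ x, (taylor (-1) q - q).eval x = 2 * p.eval x - p.eval (x + 1) - p.eval (x - 1) := by
      intro x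
      simp only [hq, eval_sub, taylor_eval, map_sub]
      rw [show x + -1 + 1 = x by ring, show x + -1 = x - 1 by ring]
      ring
    have := ih (taylor (-1) q - q) (fun x => by
      rw [hev, hev, show -x + 1 = -(x - 1) by ring, show -x - 1 = -(x + 1) by ring, hodd, hodd, hodd]
      ring) hq2 K (by omega)
    simp only [zero_mul, add_zero, sub_zero]
    rw [← this]
    refine sum_congr rfl fun j _ => ?_
    rw [hev]
    push_cast
    rw [show (j : ℝ) + 1 + 1 = j + 2 by ring, show (j : ℝ) + 1 - 1 = j by ring]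

variable (N : ℕ) (h : ℕ → ℝ)

/-- Real part of `h`. -/
noncomputable def Ah (t : ℝ) : ℝ := 1 + ∑ n ∈ Icc 1 N, h n * cos (n * t)

/-- Imaginary part of `h`. -/
noncomputable def Bh (t : ℝ) : ℝ := ∑ n ∈ Icc 1 N, h n * sin (n * t)

/-- The weight `1 / |h|^2`. -/
noncomputable def psi (t : ℝ) : ℝ := (Ah N h t ^ 2 + Bh N h t ^ 2)⁻¹

/-- The function `Im (z^j / h(z))`. -/
noncomputable def phi (j : ℕ) (t : ℝ) : ℝ :=
  psi N h t * (Ah N h t * sin (j * t) - Bh N h t * cos (j * t))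

/-- The coefficients are small. -/
def Small : Prop := ∑ n ∈ Icc 1 N, |h n| ≤ 3 / 4

variable {N h}

theorem Small.abs_sum (hs : Small N h) (g : ℕ → ℝ) (C : ℝ) (hC : 0 ≤ C)
    (hg : ∀ n ∈ Icc 1 N, |g n| ≤ C) : |∑ n ∈ Icc 1 N, h n * g n| ≤ 3 / 4 * C := by
  refine (abs_sum_le_sum_abs _ _).trans ?_
  calc ∑ n ∈ Icc 1 N, |h n * g n| ≤ ∑ n ∈ Icc 1 N, |h n| * C :=
        sum_le_sum fun n hn => by rw [abs_mul]; gcongr; exact hg n hn
    _ ≤ 3 / 4 * C := by rw [← sum_mul]; gcongr; exact hs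

theorem Small.Ah_ge (hs : Small N h) (t : ℝ) : 1 / 4 ≤ Ah N h t := by
  have := hs.abs_sum (fun n => cos (n * t)) 1 zero_le_one fun n _ => abs_cos_le_one _
  rw [Ah]
  linarith [(abs_le.1 this).1]

theorem Small.den_pos (hs : Small N h) (t : ℝ) : 0 < Ah N h t ^ 2 + Bh N h t ^ 2 := by
  have := hs.Ah_ge t
  positivity

theorem cont_Ah : Continuous (Ah N h) := by unfold Ah; fun_prop

theorem cont_Bh : Continuous (Bh N h) := by unfold Bh; fun_prop

theorem Small.cont_psi (hs : Small N h) : Continuous (psi N h) := by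
  have := @cont_Ah N h
  have := @cont_Bh N h
  exact Continuous.inv₀ (by fun_prop) fun t => (hs.den_pos t).ne'

theorem Small.cont_phi (hs : Small N h) (j : ℕ) : Continuous (phi N h j) := by
  have := @cont_Ah N h
  have := @cont_Bh N h
  have := hs.cont_psi
  unfold phi
  fun_prop

theorem Small.rec_phi (hs : Small N h) (j : ℕ) (t : ℝ) :
    phi N h j t + ∑ n ∈ Icc 1 N, h n * phi N h (j + n) t = sin (j * t) := by
  have e : ∀ n ∈ Icc 1 N, h n * phi N h (j + n) t =
      psi N h t * (Ah N h t * sin (j * t) - Bh N h t * cos (j * t)) * (h n * cos (n * t)) +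
      psi N h t * (Ah N h t * cos (j * t) + Bh N h t * sin (j * t)) * (h n * sin (n * t)) := by
    intro n _
    rw [phi]
    push_cast
    rw [add_mul, sin_add, cos_add]
    ring
  have hA : ∑ n ∈ Icc 1 N, h n * cos (n * t) = Ah N h t - 1 := by rw [Ah]; ring
  rw [sum_congr rfl e, sum_add_distrib, ← mul_sum, ← mul_sum, hA, ← Bh, phi, psi]
  have := (hs.den_pos t).ne'
  field_simp
  ring

theorem phi_eq (j : ℕ) (t : ℝ) : phi N h j t =
    psi N h t * (sin (j * t) + ∑ n ∈ Icc 1 N, h n * sin (((j : ℝ) - n) * t)) := by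
  have e : ∀ n ∈ Icc 1 N, h n * sin (((j : ℝ) - n) * t) =
      sin (j * t) * (h n * cos (n * t)) - cos (j * t) * (h n * sin (n * t)) := by
    intro n _
    rw [sub_mul, sin_sub]
    ring
  rw [sum_congr rfl e, sum_sub_distrib, ← mul_sum, ← mul_sum, ← Bh, phi, Ah]
  ring

theorem Small.abs_phi (hs : Small N h) (j : ℕ) (t : ℝ) : |phi N h j t| ≤ 2 * psi N h t := by
  have h1 := hs.abs_sum (fun n => sin (((j : ℝ) - n) * t)) 1 zero_le_one fun n _ => abs_sin_le_one _
  have h2 := abs_sin_le_one (j * t)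
  have h3 : 0 ≤ psi N h t := inv_nonneg.2 (hs.den_pos t).le
  rw [phi_eq, abs_mul, abs_of_nonneg h3, mul_comm]
  gcongr
  linarith [abs_add_le (sin (j * t)) (∑ n ∈ Icc 1 N, h n * sin (((j : ℝ) - n) * t))]

variable (N h) in
/-- Pairing with `phi`. -/
noncomputable def sf (f : ℝ → ℝ) (j : ℕ) : ℝ := I1 fun t => f t * phi N h j t

theorem Small.rec_sf (hs : Small N h) {f : ℝ → ℝ} (hf : Continuous f) (j : ℕ) :
    sf N h f j + ∑ n ∈ Icc 1 N, h n * sf N h f (j + n) = fh f j := by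
  have c := hs.cont_phi
  have e : (fun t => f t * sin (j * t)) = fun t => f t * phi N h j t +
      ∑ n ∈ Icc 1 N, h n * (f t * phi N h (j + n) t) := by
    funext t
    rw [← hs.rec_phi j t, mul_add, mul_sum]
    congr 1
    exact sum_congr rfl fun n _ => by ring
  rw [fh, e, I1_add (by fun_prop) (by fun_prop), I1_sum _ fun n _ => by fun_prop]
  simp only [I1_smul, sf]

theorem Small.sf_zero (hs : Small N h) {f : ℝ → ℝ} {d : ℕ} (hf : BL f d) (j : ℕ) (hj : d < j) :
    sf N h f j = 0 := by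
  have c := hs.cont_phi
  have c2 := hs.cont_psi
  have c3 := hf.1
  set C := I1 fun t => |f t| * (2 * psi N h t) with hC
  have b0 : ∀ j, |sf N h f j| ≤ C := by
    intro j
    refine (abs_integral_le_integral_abs).trans (integral_mono (intg (by fun_prop))
      (intg (by fun_prop)) fun t => ?_)
    simp only [abs_mul]
    gcongr
    exact hs.abs_phi j t
  have hC0 : 0 ≤ C := (abs_nonneg _).trans (b0 0)
  have b : ∀ r : ℕ, ∀ j, d < j → |sf N h f j| ≤ C * (3 / 4) ^ r := by
    intro r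
    induction r with
    | zero => simpa using fun j _ => b0 j
    | succ r ih =>
      intro j hj
      have h1 := hs.rec_sf c3 j
      rw [hf.2 j hj] at h1
      have h2 := hs.abs_sum (fun n => sf N h f (j + n)) (C * (3 / 4) ^ r) (by positivity)
        fun n _ => ih _ (by omega)
      rw [eq_neg_of_add_eq_zero_left h1, abs_neg, pow_succ]
      linarith
  have t : Filter.Tendsto (fun r : ℕ => C * (3 / 4 : ℝ) ^ r) Filter.atTop (nhds (C * 0)) :=
    (tendsto_pow_atTop_nhds_zero_of_lt_one (by norm_num) (by norm_num)).const_mul C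
  have := ge_of_tendsto' t fun r => b r j hj
  rw [mul_zero] at this
  exact abs_nonpos_iff.1 this

section PD

open Polynomial

variable {S : Set ℝ} {J : ℕ}

/-- On `S` the function is a polynomial whose monomials `s^r` have `r J ≤ e`. -/
def PD (S : Set ℝ) (J : ℕ) (g : ℝ → ℝ) (e : ℤ) : Prop :=
  ∃ p : ℝ[X], (∀ s ∈ S, g s = p.eval s) ∧ ∀ r, p.coeff r ≠ 0 → (r * J : ℤ) ≤ e

theorem PD.congr {g g' : ℝ → ℝ} {e : ℤ} (h : PD S J g e) (hg : ∀ s ∈ S, g' s = g s) :
    PD S J g' e := by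
  obtain ⟨p, h1, h2⟩ := h
  exact ⟨p, fun s hs => (hg s hs).trans (h1 s hs), h2⟩

theorem PD.mono {g : ℝ → ℝ} {e e' : ℤ} (h : PD S J g e) (he : e ≤ e') : PD S J g e' := by
  obtain ⟨p, h1, h2⟩ := h
  exact ⟨p, h1, fun r hr => (h2 r hr).trans he⟩

theorem pd_zero (e : ℤ) : PD S J (fun _ => 0) e := ⟨0, by simp, by simp⟩

theorem pd_const (c : ℝ) : PD S J (fun _ => c) 0 := by
  refine ⟨C c, by simp, fun r hr => ?_⟩
  have : r = 0 := by
    by_contra h0
    exact hr (coeff_C_of_ne_zero h0)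
  simp [this]

theorem pd_id : PD S J (fun s => s) J := by
  refine ⟨X, by simp, fun r hr => ?_⟩
  have : r = 1 := by
    by_contra h0
    exact hr (coeff_X_of_ne_one h0)
  simp [this]

theorem PD.add {g g' : ℝ → ℝ} {e : ℤ} (h : PD S J g e) (h' : PD S J g' e) :
    PD S J (fun s => g s + g' s) e := by
  obtain ⟨p, h1, h2⟩ := h
  obtain ⟨q, h3, h4⟩ := h'
  refine ⟨p + q, fun s hs => by simp [h1 s hs, h3 s hs], fun r hr => ?_⟩
  by_cases hp : p.coeff r = 0
  · exact h4 r (by simpa [hp] using hr)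
  · exact h2 r hp

theorem PD.mul {g g' : ℝ → ℝ} {e e' : ℤ} (h : PD S J g e) (h' : PD S J g' e') :
    PD S J (fun s => g s * g' s) (e + e') := by
  obtain ⟨p, h1, h2⟩ := h
  obtain ⟨q, h3, h4⟩ := h'
  refine ⟨p * q, fun s hs => by simp [h1 s hs, h3 s hs], fun r hr => ?_⟩
  rw [coeff_mul] at hr
  obtain ⟨x, hx, hne⟩ := exists_ne_zero_of_sum_ne_zero hr
  have e1 := h2 _ (left_ne_zero_of_mul hne)
  have e2 := h4 _ (right_ne_zero_of_mul hne)
  rw [← mem_antidiagonal.1 hx]
  push_cast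
  linarith

theorem PD.smul {g : ℝ → ℝ} {e : ℤ} (h : PD S J g e) (c : ℝ) : PD S J (fun s => c * g s) e := by
  simpa using (pd_const c).mul h

theorem pd_sum {ι : Type} (T : Finset ι) {g : ι → ℝ → ℝ} {e : ℤ} (h : ∀ i ∈ T, PD S J (g i) e) :
    PD S J (fun s => ∑ i ∈ T, g i s) e := by
  classical
  induction T using Finset.induction_on with
  | empty => simpa using pd_zero e
  | insert a T ha ih =>
    simp only [sum_insert ha]
    exact (h a (by simp)).add (ih fun i hi => h i (by simp [hi]))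

theorem pd_prod {ι : Type} (T : Finset ι) {g : ι → ℝ → ℝ} {e : ι → ℤ}
    (h : ∀ i ∈ T, PD S J (g i) (e i)) : PD S J (fun s => ∏ i ∈ T, g i s) (∑ i ∈ T, e i) := by
  classical
  induction T using Finset.induction_on with
  | empty => simpa using pd_const 1
  | insert a T ha ih =>
    simp only [sum_insert ha, prod_insert ha]
    exact (h a (by simp)).mul (ih fun i hi => h i (by simp [hi]))

theorem pd_sf {α β : ℕ → ℝ} (hS : ∀ s ∈ S, Small N fun n => α n + s * β n)
    (hβ : ∀ n, n < J → β n = 0) {f : ℝ → ℝ} {d : ℕ} (hf : BL f d) (j : ℕ) :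
    PD S J (fun s => sf N (fun n => α n + s * β n) f j) ((d : ℤ) - j) := by
  have key : ∀ r j : ℕ, d < j + r →
      PD S J (fun s => sf N (fun n => α n + s * β n) f j) ((d : ℤ) - j) := by
    intro r
    induction r with
    | zero => exact fun j hj => (pd_zero _).congr fun s hs => (hS s hs).sf_zero hf j hj
    | succ r ih =>
      intro j hj
      by_cases hd : d < j
      · exact (pd_zero _).congr fun s hs => (hS s hs).sf_zero hf j hd
      have h1 : PD S J (fun s => fh f j + ∑ n ∈ Icc 1 N,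
          (-α n * sf N (fun n => α n + s * β n) f (j + n) +
            -β n * (s * sf N (fun n => α n + s * β n) f (j + n)))) ((d : ℤ) - j) := by
        refine ((pd_const _).mono (by omega)).add (pd_sum _ fun n hn => ?_)
        have hn1 := (mem_Icc.1 hn).1
        have h2 := ih (j + n) (by omega)
        refine ((h2.smul _).mono (by push_cast; omega)).add ?_
        by_cases hJ : n < J
        · exact (pd_zero _).congr fun s _ => by simp [hβ n hJ]
        · exact ((pd_id.mul h2).smul _).mono (by push_cast; omega)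
      refine h1.congr fun s hs => ?_
      rw [← (hS s hs).rec_sf hf.1 j, add_assoc, ← sum_add_distrib, sum_eq_zero, add_zero]
      intro n _
      ring
  exact key (d + 1) j (by omega)

/-- The `k`-th difference at the origin. -/
noncomputable def Dk (k : ℕ) (g : ℝ → ℝ) : ℝ :=
  ∑ s ∈ range (k + 1), ((-1 : ℝ) ^ (k - s) * k.choose s) * g s

theorem Dk_poly (k : ℕ) (p : ℝ[X]) (hp : p.natDegree ≤ k) :
    Dk k (fun s => p.eval s) = k.factorial * p.coeff k := by
  have e : Dk k (fun s => p.eval s) = (fwdDiff (1 : ℝ))^[k] p.eval 0 := by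
    rw [fwdDiff_iter_eq_sum_shift, Dk]
    refine sum_congr rfl fun s _ => ?_
    simp
  rw [e]
  rcases hp.lt_or_eq with hp | hp
  · rw [Polynomial.fwdDiff_iter_eq_zero_of_degree_lt hp, coeff_eq_zero_of_natDegree_lt hp]
    simp
  · subst hp
    rw [Polynomial.fwdDiff_iter_degree_eq_factorial]
    simp [mul_comm]

theorem Dk_congr {k : ℕ} {g g' : ℝ → ℝ} (h : ∀ s ∈ Set.Icc (0 : ℝ) k, g s = g' s) :
    Dk k g = Dk k g' := by
  refine sum_congr rfl fun s hs => ?_
  rw [h s ⟨by positivity, by exact_mod_cast Nat.lt_succ_iff.1 (mem_range.1 hs)⟩]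

theorem PD.Dk_zero {k : ℕ} {g : ℝ → ℝ} {e : ℤ} (h : PD (Set.Icc (0 : ℝ) k) J g e)
    (he : e < k * J) : Dk k g = 0 := by
  obtain ⟨p, h1, h2⟩ := h
  have hz : ∀ r, k ≤ r → p.coeff r = 0 := by
    intro r hr
    by_contra h0
    have := h2 r h0
    have : (k : ℤ) * J ≤ r * J := by gcongr
    omega
  rw [Dk_congr h1, Dk_poly k p (natDegree_le_iff_coeff_eq_zero.2 fun r hr => hz r hr.le),
    hz k le_rfl, mul_zero]

end PD

end Pool.Agent.KMom
end

-- part Pool.Agent.P.MP_ea46f5_nt.Two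
section

set_option autoImplicit false

/-! The `N`-dimensional integrals and the determinant identities. -/

namespace Pool.Agent.KMom

open MeasureTheory Real Finset Matrix

variable {N : ℕ} {h : ℕ → ℝ}

/-- Integral over the cube. -/
noncomputable def IN (N : ℕ) (g : (Fin N → ℝ) → ℝ) : ℝ := ∫ θ in box N, g θ

theorem box_compact : IsCompact (box N) := isCompact_univ_pi fun _ => isCompact_Icc

theorem intgN {g : (Fin N → ℝ) → ℝ} (hg : Continuous g) : Integrable g (volume.restrict (box N)) :=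
  hg.continuousOn.integrableOn_compact box_compact

theorem IN_smul (c : ℝ) (g : (Fin N → ℝ) → ℝ) : IN N (fun θ => c * g θ) = c * IN N g :=
  integral_const_mul c g

theorem IN_add {f g : (Fin N → ℝ) → ℝ} (hf : Continuous f) (hg : Continuous g) :
    IN N (fun θ => f θ + g θ) = IN N f + IN N g := integral_add (intgN hf) (intgN hg)

theorem IN_sum {ι : Type} (T : Finset ι) {g : ι → (Fin N → ℝ) → ℝ} (hg : ∀ i ∈ T, Continuous (g i)) :
    IN N (fun θ => ∑ i ∈ T, g i θ) = ∑ i ∈ T, IN N (g i) :=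
  integral_finsetSum T fun i hi => intgN (hg i hi)

theorem IN_prod (f : Fin N → ℝ → ℝ) : IN N (fun θ => ∏ i, f i (θ i)) = ∏ i, I1 (f i) := by
  rw [IN, box, volume_pi, Measure.restrict_pi_pi]
  exact integral_fintype_prod_eq_prod f

theorem IN_pos {g : (Fin N → ℝ) → ℝ} (hg : Continuous g) (h0 : ∀ θ, 0 ≤ g θ) (θ₀ : Fin N → ℝ)
    (h1 : ∀ i, θ₀ i ∈ Set.Ioo 0 π) (h2 : g θ₀ ≠ 0) : 0 < IN N g := by
  rw [IN, setIntegral_pos_iff_support_of_nonneg_ae (ae_of_all _ h0) (intgN hg)]
  have ho : IsOpen (Function.support g ∩ Set.univ.pi fun _ : Fin N => Set.Ioo 0 π) :=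
    hg.isOpen_support.inter (isOpen_set_pi Set.finite_univ fun _ _ => isOpen_Ioo)
  refine (ho.measure_pos volume ⟨θ₀, h2, fun i _ => h1 i⟩).trans_le (measure_mono ?_)
  exact fun θ hθ => ⟨hθ.1, fun i hi => Set.Ioo_subset_Icc_self (hθ.2 i hi)⟩

theorem expand (g u v : Fin N → ℝ → ℝ) (hg : ∀ i, Continuous (g i)) (hu : ∀ i, Continuous (u i))
    (hv : ∀ i, Continuous (v i)) :
    IN N (fun θ => (∏ i, g i (θ i)) * ((of fun m i => u m (θ i)).det * (of fun j i => v j (θ i)).det))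
      = ∑ σ : Equiv.Perm (Fin N), ∑ τ : Equiv.Perm (Fin N),
        ((Equiv.Perm.sign σ : ℤ) : ℝ) * ((Equiv.Perm.sign τ : ℤ) : ℝ) *
          ∏ i, I1 fun t => g i t * u (σ i) t * v (τ i) t := by
  have e : (fun θ : Fin N → ℝ => (∏ i, g i (θ i)) *
      ((of fun m i => u m (θ i)).det * (of fun j i => v j (θ i)).det)) = fun θ =>
      ∑ σ : Equiv.Perm (Fin N), ∑ τ : Equiv.Perm (Fin N),
        ((Equiv.Perm.sign σ : ℤ) : ℝ) * ((Equiv.Perm.sign τ : ℤ) : ℝ) *
          ∏ i, (g i (θ i) * u (σ i) (θ i) * v (τ i) (θ i)) := by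
    funext θ
    rw [det_apply', det_apply', sum_mul_sum, mul_sum]
    refine sum_congr rfl fun σ _ => ?_
    rw [mul_sum]
    refine sum_congr rfl fun τ _ => ?_
    simp only [of_apply, prod_mul_distrib]
    ring
  rw [e, IN_sum _ fun σ _ => by fun_prop]
  refine sum_congr rfl fun σ _ => ?_
  rw [IN_sum _ fun τ _ => by fun_prop]
  refine sum_congr rfl fun τ _ => ?_
  rw [IN_smul, IN_prod fun i t => g i t * u (σ i) t * v (τ i) t]

theorem double_sum (Q : Matrix (Fin N) (Fin N) ℝ) :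
    ∑ σ : Equiv.Perm (Fin N), ∑ τ : Equiv.Perm (Fin N),
        ((Equiv.Perm.sign σ : ℤ) : ℝ) * ((Equiv.Perm.sign τ : ℤ) : ℝ) * ∏ i, Q (σ i) (τ i) =
      N.factorial * Q.det := by
  have e : ∀ σ : Equiv.Perm (Fin N), ∑ τ : Equiv.Perm (Fin N),
      ((Equiv.Perm.sign σ : ℤ) : ℝ) * ((Equiv.Perm.sign τ : ℤ) : ℝ) * ∏ i, Q (σ i) (τ i) = Q.det := by
    intro σ
    have h1 := det_permute σ Q
    rw [← det_transpose, det_apply'] at h1
    simp only [transpose_apply, submatrix_apply, id] at h1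
    simp only [mul_assoc]
    rw [← mul_sum, h1, ← mul_assoc]
    rcases Int.units_eq_one_or (Equiv.Perm.sign σ) with h | h <;> simp [h]
  simp [e, Fintype.card_perm]

open Polynomial in
/-- The polynomials with `p_m (2 cos t) sin t = sin ((m+1) t)`. -/
noncomputable def cheb : ℕ → ℝ[X]
  | 0 => 1
  | 1 => X
  | m + 2 => X * cheb (m + 1) - cheb m

theorem cheb_realize : True := by
  have := @cheb.eq_def
  trivial

open Polynomial in
theorem cheb_spec (m : ℕ) : ((cheb m).Monic ∧ (cheb m).natDegree = m) ∧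
    ∀ t : ℝ, (cheb m).eval (2 * cos t) * sin t = sin ((m + 1) * t) := by
  induction m using Nat.twoStepInduction with
  | zero => simp [cheb]
  | one =>
    refine ⟨by simp [cheb], fun t => ?_⟩
    rw [show ((1 : ℕ) + 1 : ℝ) * t = 2 * t by push_cast; ring, sin_two_mul]
    simp [cheb]
    ring
  | more m h0 h1 =>
    have a1 : (X * cheb (m + 1)).Monic := monic_X.mul h1.1.1
    have a2 : (X * cheb (m + 1)).natDegree = m + 2 := by
      rw [monic_X.natDegree_mul h1.1.1, h1.1.2, natDegree_X]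
      ring
    have a3 : (cheb m).degree < (X * cheb (m + 1)).degree := by
      apply degree_lt_degree
      rw [a2, h0.1.2]
      omega
    refine ⟨⟨a1.sub_of_left a3, ?_⟩, fun t => ?_⟩
    · rw [cheb, natDegree_sub_eq_left_of_natDegree_lt (by rw [a2, h0.1.2]; omega), a2]
    · have b0 := h0.2 t
      have b1 := h1.2 t
      rw [cheb, eval_sub, eval_mul, eval_X, sub_mul, mul_assoc, b0, b1]
      push_cast
      rw [show ((m : ℝ) + 2 + 1) * t = (m + 1 + 1) * t + t by ring,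
        show ((m : ℝ) + 1) * t = (m + 1 + 1) * t - t by ring, sin_add, sin_sub]
      ring

/-- The Weyl denominator. -/
noncomputable def aD (θ : Fin N → ℝ) : ℝ :=
  (of fun (m i : Fin N) => sin (((m.val + 1 : ℕ) : ℝ) * θ i)).det

theorem weyl_eq (θ : Fin N → ℝ) : weyl θ = aD θ * aD θ := by
  have h1 := det_eval_matrixOfPolynomials_eq_det_vandermonde (fun i => 2 * cos (θ i))
    (fun i : Fin N => cheb i) (fun i => (cheb_spec i).1.2) fun i => (cheb_spec i).1.1
  have h2 : aD θ = (∏ i, sin (θ i)) * (vandermonde fun i => 2 * cos (θ i)).det := by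
    rw [h1, ← det_mul_column, aD, ← det_transpose]
    congr 1
    ext i j
    simp only [transpose_apply, of_apply]
    push_cast
    rw [← (cheb_spec j).2, mul_comm]
  rw [h2, det_vandermonde, weyl]
  simp only [prod_pow]
  ring

theorem cont_weyl : Continuous (weyl : (Fin N → ℝ) → ℝ) := by
  unfold weyl
  fun_prop

theorem cont_Z : Continuous (Z : (Fin N → ℝ) → ℝ) := by
  unfold Z
  fun_prop

theorem IN_Z_pos (k : ℕ) : 0 < IN N fun θ => Z θ ^ k * weyl θ := by
  have c1 := @cont_weyl N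
  have c2 := @cont_Z N
  have hZ : ∀ θ : Fin N → ℝ, 0 ≤ Z θ := fun θ =>
    prod_nonneg fun i _ => by linarith [cos_le_one (θ i)]
  have hm : ∀ i : Fin N, (((i.val + 1 : ℕ) : ℝ) / (N + 1)) ∈ Set.Ioo 0 π := by
    intro i
    refine ⟨by positivity, lt_of_le_of_lt ?_ (by linarith [pi_gt_three] : (1 : ℝ) < π)⟩
    rw [div_le_one (by positivity)]
    exact_mod_cast Nat.succ_le_succ i.2.le
  refine IN_pos (by fun_prop) (fun θ => mul_nonneg (pow_nonneg (hZ θ) k) ?_)
    (fun i => ((i.val + 1 : ℕ) : ℝ) / (N + 1)) hm (mul_ne_zero (pow_ne_zero _ ?_) ?_)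
  · rw [weyl_eq]
    exact mul_self_nonneg _
  · refine prod_ne_zero_iff.2 fun i _ h0 => ?_
    have : cos (((i.val + 1 : ℕ) : ℝ) / (N + 1)) = cos 0 := by rw [cos_zero]; linarith
    exact (hm i).1.ne' (injOn_cos (Set.Ioo_subset_Icc_self (hm i)) ⟨le_rfl, pi_pos.le⟩ this)
  · refine mul_ne_zero (prod_ne_zero_iff.2 fun i _ => pow_ne_zero _
      (sin_pos_of_pos_of_lt_pi (hm i).1 (hm i).2).ne')
      (prod_ne_zero_iff.2 fun i _ => prod_ne_zero_iff.2 fun j hj => pow_ne_zero _ fun h0 => ?_)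
    have : cos (((j.val + 1 : ℕ) : ℝ) / (N + 1)) = cos (((i.val + 1 : ℕ) : ℝ) / (N + 1)) := by
      linarith
    have h3 := injOn_cos (Set.Ioo_subset_Icc_self (hm j)) (Set.Ioo_subset_Icc_self (hm i)) this
    rw [div_left_inj' (by positivity)] at h3
    have h4 : j.val + 1 = i.val + 1 := by exact_mod_cast h3
    have h5 : i < j := mem_Ioi.1 hj
    omega

theorem IN_weyl_pos : 0 < IN N weyl := by simpa using IN_Z_pos (N := N) 0

variable (N h) in
/-- The perturbation of the identity in the Toeplitz minus Hankel matrix. -/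
noncomputable def Em : Matrix (Fin N) (Fin N) ℝ := of fun j m => ∑ n ∈ Icc 1 N,
  h n * ((if n + m.val = j.val then 1 else 0) - if n = j.val + m.val + 2 then 1 else 0)

theorem sin_rep (j : Fin N) {n : ℕ} (hn : n ∈ Icc 1 N) (t : ℝ) :
    sin ((((j.val + 1 : ℕ) : ℝ) - n) * t) = ∑ m : Fin N,
      ((if n + m.val = j.val then 1 else 0) - if n = j.val + m.val + 2 then 1 else 0) *
        sin (((m.val + 1 : ℕ) : ℝ) * t) := by
  have hj := j.2
  obtain ⟨hn1, hn2⟩ := mem_Icc.1 hn
  rcases lt_trichotomy n (j.val + 1) with h1 | h1 | h1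
  · rw [sum_eq_single ⟨j.val - n, by omega⟩]
    · rw [if_pos (by simp only; omega), if_neg (by simp only; omega)]
      have : ((j.val - n + 1 : ℕ) : ℝ) = ((j.val + 1 : ℕ) : ℝ) - n := by
        rw [show j.val - n + 1 = j.val + 1 - n by omega, Nat.cast_sub (by omega)]
      simp only [this]
      ring
    · intro m _ hm
      rw [if_neg fun h => hm (Fin.ext (by simp only; omega)), if_neg (by omega)]
      ring
    · simp
  · rw [sum_eq_zero fun m _ => by rw [if_neg (by omega), if_neg (by omega)]; ring, h1]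
    simp
  · rw [sum_eq_single ⟨n - j.val - 2, by omega⟩]
    · rw [if_neg (by simp only; omega), if_pos (by simp only; omega)]
      have : ((n - j.val - 2 + 1 : ℕ) : ℝ) = -(((j.val + 1 : ℕ) : ℝ) - n) := by
        rw [show n - j.val - 2 + 1 = n - (j.val + 1) by omega, Nat.cast_sub (by omega)]
        ring
      simp only [this]
      rw [neg_mul, sin_neg]
      ring
    · intro m _ hm
      rw [if_neg (by omega), if_neg fun h => hm (Fin.ext (by simp only; omega))]
      ring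
    · simp

variable (N h) in
/-- The tilted density. -/
noncomputable def Fh (θ : Fin N → ℝ) : ℝ := (1 + Em N h).det * ∏ i, psi N h (θ i)

theorem Small.cont_Fh (hs : Small N h) : Continuous (Fh N h) := by
  have := hs.cont_psi
  unfold Fh
  fun_prop

theorem det_phi (θ : Fin N → ℝ) :
    (of fun (j i : Fin N) => phi N h (j.val + 1) (θ i)).det = Fh N h θ * aD θ := by
  have e : (of fun (j i : Fin N) => phi N h (j.val + 1) (θ i)) = of fun j i => psi N h (θ i) *
      ((1 + Em N h) * of fun (m i : Fin N) => sin (((m.val + 1 : ℕ) : ℝ) * θ i)) j i := by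
    ext j i
    rw [of_apply, of_apply, phi_eq, Matrix.add_mul, Matrix.one_mul, Matrix.add_apply, of_apply,
      mul_apply]
    congr 2
    simp only [Em, of_apply, sum_mul]
    rw [sum_comm]
    refine sum_congr rfl fun n hn => ?_
    rw [sin_rep j hn, mul_sum]
    exact sum_congr rfl fun m _ => by ring
  rw [e, det_mul_row, det_mul, Fh, aD]
  ring

theorem Small.IN_Fh (hs : Small N h) (g : Fin N → ℝ → ℝ) (hg : ∀ i, Continuous (g i)) :
    IN N (fun θ => Fh N h θ * (∏ i, g i (θ i)) * weyl θ) =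
      ∑ σ : Equiv.Perm (Fin N), ∑ τ : Equiv.Perm (Fin N),
        ((Equiv.Perm.sign σ : ℤ) : ℝ) * ((Equiv.Perm.sign τ : ℤ) : ℝ) *
          ∏ i, sf N h (fun t => g i t * sin ((((σ i).val + 1 : ℕ) : ℝ) * t)) ((τ i).val + 1) := by
  have := expand g (fun m t => sin (((m.val + 1 : ℕ) : ℝ) * t)) (fun j => phi N h (j.val + 1)) hg
    (fun i => by fun_prop) fun i => hs.cont_phi _
  simp only [sf]
  rw [← this]
  congr 1
  funext θ
  rw [det_phi, weyl_eq, ← aD]
  ring

theorem pd_mono {S : Set ℝ} {J : ℕ} {α β : ℕ → ℝ} (hS : ∀ s ∈ S, Small N fun n => α n + s * β n)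
    (hβ : ∀ n, n < J → β n = 0) (e : Fin N → ℕ) :
    PD S J (fun s => IN N fun θ =>
      Fh N (fun n => α n + s * β n) θ * (∏ i, cos (θ i) ^ e i) * weyl θ) (∑ i, e i : ℕ) := by
  refine PD.congr ?_ fun s hs => (hS s hs).IN_Fh (fun i t => cos t ^ e i) fun i => by fun_prop
  refine pd_sum _ fun σ _ => pd_sum _ fun τ _ => PD.smul ?_ _
  refine (pd_prod _ fun i _ => pd_sf hS hβ (bl_mono (e i) ((σ i).val + 1)) ((τ i).val + 1)).mono
    (le_of_eq ?_)
  push_cast
  rw [sum_sub_distrib, sum_add_distrib, Equiv.sum_comp σ fun i => (i.val : ℤ) + 1,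
    Equiv.sum_comp τ fun i => (i.val : ℤ) + 1]
  ring

/-- The functions `(2 - 2 cos t)^k sin ((i+1) t)`. -/
noncomputable def fZ (k i : ℕ) (t : ℝ) : ℝ := (2 - 2 * cos t) ^ k * sin (((i + 1 : ℕ) : ℝ) * t)

theorem Small.IN_FZ (hs : Small N h) (k : ℕ) : IN N (fun θ => Fh N h θ * Z θ ^ k * weyl θ) =
    N.factorial * (of fun i j : Fin N => sf N h (fZ k i) (j.val + 1)).det := by
  rw [← double_sum]
  have := hs.IN_Fh (fun _ t => (2 - 2 * cos t) ^ k) fun _ => by fun_prop
  simp only [prod_pow] at this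
  exact this

theorem IN_Z (k : ℕ) : IN N (fun θ => Z θ ^ k * weyl θ) =
    N.factorial * (of fun i j : Fin N => fh (fZ k i) (j.val + 1)).det := by
  rw [← double_sum]
  have := expand (N := N) (fun _ t => (2 - 2 * cos t) ^ k)
    (fun m t => sin (((m.val + 1 : ℕ) : ℝ) * t)) (fun m t => sin (((m.val + 1 : ℕ) : ℝ) * t))
    (fun _ => by fun_prop) (fun i => by fun_prop) fun i => by fun_prop
  simp only [prod_pow] at this
  simp only [weyl_eq]
  exact this

variable (N h) in
/-- All coefficients of `h`. -/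
noncomputable def hh (a b : ℕ) : ℝ :=
  (if a = b then 1 else 0) + ∑ n ∈ Icc 1 N, if a = b + n then h n else 0

theorem sum_hh (K b : ℕ) (hb : b < K) (x : ℕ → ℝ) (hx : ∀ a, K ≤ a → x a = 0) :
    ∑ a ∈ range K, x a * hh N h a b = x b + ∑ n ∈ Icc 1 N, h n * x (b + n) := by
  simp only [hh, mul_add, sum_add_distrib, mul_ite, mul_one, mul_zero, mul_sum]
  rw [sum_ite_eq', if_pos (mem_range.2 hb), sum_comm]
  congr 1
  refine sum_congr rfl fun n _ => ?_
  rw [sum_ite_eq']
  split_ifs with h1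
  · ring
  · rw [hx _ (by simpa using h1), mul_zero]

theorem hh_sum (K a : ℕ) (ha : a < K) (hN : N ≤ a) (y : ℝ → ℝ) :
    ∑ b ∈ range K, hh N h a b * y b = y a + ∑ n ∈ Icc 1 N, h n * y (a - n) := by
  simp only [hh, add_mul, sum_add_distrib, ite_mul, one_mul, zero_mul, sum_mul]
  rw [sum_ite_eq, if_pos (mem_range.2 ha), sum_comm]
  congr 1
  refine sum_congr rfl fun n hn => ?_
  have hn2 := (mem_Icc.1 hn).2
  rw [sum_eq_single (a - n), if_pos (by omega), Nat.cast_sub (by omega)]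
  · intro b _ hb
    rw [if_neg (by omega)]
  · intro hb
    exact absurd (mem_range.2 (by omega)) hb

theorem sum_idx (k : ℕ) (G : ℕ → ℝ) :
    ∑ a : Fin N ⊕ Fin k, G (finSumFinEquiv a).val = ∑ j ∈ range (N + k), G j := by
  rw [Equiv.sum_comp finSumFinEquiv fun a => G a.val, Fin.sum_univ_eq_sum_range]

variable (N h) in
/-- The small matrix. -/
noncomputable def Wm (k : ℕ) : Matrix (Fin k) (Fin k) ℝ := of fun l r =>
  ((N : ℝ) + l.val + 1) ^ (2 * r.val + 1) +
    ∑ n ∈ Icc 1 N, h n * ((N : ℝ) + l.val - n + 1) ^ (2 * r.val + 1)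

/-- The small matrix for `h = 1`. -/
noncomputable def Ym (N k : ℕ) : Matrix (Fin k) (Fin k) ℝ := of fun l r =>
  ((N : ℝ) + l.val + 1) ^ (2 * r.val + 1)

theorem Small.block (hs : Small N h) (k : ℕ) :
    (of fun i j : Fin N => sf N h (fZ k i) (j.val + 1)).det * (Ym N k).det =
      (of fun i j : Fin N => fh (fZ k i) (j.val + 1)).det * (Wm N h k).det := by
  have hB : ∀ i : Fin N, BL (fZ k i) (N + k) := fun i =>
    (bl_Z k (i.val + 1)).mono (by have := i.2; omega)
  set ι : Fin N ⊕ Fin k → ℕ := fun a => (finSumFinEquiv a).val with hι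
  have ι1 : ∀ i, ι (Sum.inl i) = i.val := fun i => by simp [hι]
  have ι2 : ∀ i, ι (Sum.inr i) = N + i.val := fun i => by simp [hι]
  set X : Matrix (Fin N ⊕ Fin k) (Fin N ⊕ Fin k) ℝ :=
    fromBlocks (of fun i j : Fin N => sf N h (fZ k i) (j.val + 1))
      (of fun (i : Fin N) (j : Fin k) => sf N h (fZ k i) (N + j.val + 1)) 0 1 with hX
  set H : Matrix (Fin N ⊕ Fin k) (Fin N ⊕ Fin k) ℝ := of fun a b => hh N h (ι a) (ι b) with hH
  set M : Matrix (Fin N ⊕ Fin k) (Fin N ⊕ Fin k) ℝ := fromBlocks 1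
    (of fun (i : Fin N) (r : Fin k) => ((i.val : ℝ) + 1) ^ (2 * r.val + 1)) 0 (Ym N k) with hM
  have dH : H.det = 1 := by
    have : H = (of fun a b : Fin (N + k) => hh N h a.val b.val).submatrix finSumFinEquiv
      finSumFinEquiv := rfl
    rw [this, det_submatrix_equiv_self, det_of_isLowerTriangular]
    · refine prod_eq_one fun a _ => ?_
      rw [of_apply, hh, if_pos rfl, sum_eq_zero, add_zero]
      intro n hn
      rw [if_neg (by have := (mem_Icc.1 hn).1; omega)]
    · intro a b hab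
      have : a.val < b.val := hab
      rw [of_apply, hh, if_neg (by omega), sum_eq_zero, add_zero]
      intro n _
      rw [if_neg (by omega)]
  have hX1 : ∀ i a, X (Sum.inl i) a = sf N h (fZ k i) (ι a + 1) := by
    intro i a
    rcases a with a | a
    · simp [hX, ι1]
    · simp [hX, ι2]
  have hM2 : ∀ a r, M a (Sum.inr r) = ((ι a : ℝ) + 1) ^ (2 * r.val + 1) := by
    intro a r
    rcases a with a | a
    · simp [hM, ι1]
    · simp [hM, ι2, Ym]
  have r1 : ∀ i b, (X * H) (Sum.inl i) b = fh (fZ k i) (ι b + 1) := by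
    intro i b
    rw [mul_apply]
    simp only [hX1, hH, of_apply]
    rw [sum_idx k fun a => sf N h (fZ k i) (a + 1) * hh N h a (ι b),
      sum_hh _ _ (finSumFinEquiv b).2 _ fun a ha => hs.sf_zero (hB i) _ (by omega),
      ← hs.rec_sf (hB i).1]
    simp only [add_right_comm]
    rfl
  have r2 : ∀ l b, (X * H) (Sum.inr l) b = hh N h (N + l.val) (ι b) := by
    intro l b
    rw [mul_apply, Fintype.sum_sum_type]
    simp [hX, hH, one_apply, ι2]
  have key : X * H * M = fromBlocks (of fun i j : Fin N => fh (fZ k i) (j.val + 1)) 0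
      (of fun l j => (X * H * M) (Sum.inr l) (Sum.inl j)) (Wm N h k) := by
    ext a b
    rcases a with a | a <;> rcases b with b | b
    · rw [mul_apply, Fintype.sum_sum_type]
      simp [r1, hM, one_apply, ι1]
    · rw [mul_apply]
      simp only [r1, hM2]
      rw [sum_idx k fun j => fh (fZ k a) (j + 1) * ((j : ℝ) + 1) ^ (2 * b.val + 1)]
      have := kernel k (a.val + 1) (Polynomial.X ^ (2 * b.val + 1))
        (fun x => by simp [Odd.neg_pow ⟨b.val, rfl⟩])
        (by rw [Polynomial.degree_X_pow]; have := b.2; exact_mod_cast (by omega))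
        (N + k) (by have := a.2; omega)
      simp only [Polynomial.eval_pow, Polynomial.eval_X] at this
      refine Eq.trans (sum_congr rfl fun j _ => ?_) this
      rw [Nat.cast_add j 1, Nat.cast_one]
      rfl
    · simp
    · rw [mul_apply]
      simp only [r2, hM2]
      rw [sum_idx k fun j => hh N h (N + a.val) j * ((j : ℝ) + 1) ^ (2 * b.val + 1),
        hh_sum _ _ (by have := a.2; omega) (by omega) fun y => (y + 1) ^ (2 * b.val + 1)]
      simp [Wm]
  have := congrArg det key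
  rw [det_mul, det_mul, dH, det_fromBlocks_zero₁₂, hX, hM, det_fromBlocks_zero₂₁,
    det_fromBlocks_zero₂₁] at this
  simpa using this

theorem Small.ratio (hs : Small N h) (k : ℕ) :
    IN N (fun θ => Fh N h θ * Z θ ^ k * weyl θ) * (Ym N k).det =
      IN N (fun θ => Z θ ^ k * weyl θ) * (Wm N h k).det := by
  rw [hs.IN_FZ, IN_Z, mul_assoc, hs.block, mul_assoc]

theorem det_sq_le (E : Matrix (Fin N) (Fin N) ℝ) (b : ℝ) (hE : ∀ j m, |E j m| ≤ b) :
    (1 + E).det ^ 2 ≤ exp (2 * (N * b) + (N * b) ^ 2) := by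
  have hP := posSemidef_conjTranspose_mul_self (1 + E)
  have h1 := hP.1.det_eq_prod_eigenvalues
  have h2 := hP.1.trace_eq_sum_eigenvalues
  rw [det_mul, det_conjTranspose] at h1
  simp only [star_trivial, RCLike.ofReal_real_eq_id, id] at h1 h2
  have h3 : ∏ i, hP.1.eigenvalues i ≤ ∏ i, exp (hP.1.eigenvalues i - 1) :=
    prod_le_prod (fun i _ => hP.eigenvalues_nonneg i) fun i _ => by
      linarith [add_one_le_exp (hP.1.eigenvalues i - 1)]
  rw [sq, h1]
  refine h3.trans ?_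
  rw [← exp_sum, sum_sub_distrib, ← h2]
  refine exp_le_exp.2 ?_
  have h4 : ∀ m : Fin N, ((1 + E)ᴴ * (1 + E) : Matrix (Fin N) (Fin N) ℝ) m m ≤
      1 + 2 * b + N * b ^ 2 := by
    intro m
    have e : ((1 + E)ᴴ * (1 + E) : Matrix (Fin N) (Fin N) ℝ) m m =
        1 + 2 * E m m + ∑ j, E j m ^ 2 := by
      rw [conjTranspose_add, conjTranspose_one, Matrix.add_mul, Matrix.mul_add, Matrix.mul_add,
        Matrix.one_mul, Matrix.one_mul, Matrix.mul_one]
      simp only [Matrix.add_apply, one_apply_eq, conjTranspose_apply, star_trivial, mul_apply, sq]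
      ring
    have e2 : ∑ j, E j m ^ 2 ≤ ∑ _j : Fin N, b ^ 2 :=
      sum_le_sum fun j _ => sq_le_sq' (abs_le.1 (hE j m)).1 (abs_le.1 (hE j m)).2
    simp only [sum_const, card_univ, Fintype.card_fin, nsmul_eq_mul] at e2
    linarith [(abs_le.1 (hE m m)).2]
  have h5 : ((1 + E)ᴴ * (1 + E)).trace ≤ ∑ _m : Fin N, (1 + 2 * b + N * b ^ 2) :=
    sum_le_sum fun m _ => h4 m
  simp only [sum_const, card_univ, Fintype.card_fin, nsmul_eq_mul, mul_one] at h5 ⊢
  nlinarith

theorem abs_Em (b : ℝ) (hb : ∀ n ∈ Icc 1 N, |h n| ≤ b) (hb0 : 0 ≤ b) (j m : Fin N) :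
    |Em N h j m| ≤ 2 * b := by
  have e : ∀ (p : ℕ → Prop) [DecidablePred p], (∀ n n', p n → p n' → n = n') →
      |∑ n ∈ Icc 1 N, h n * if p n then 1 else 0| ≤ b := by
    intro p _ hp
    by_cases hex : ∃ n ∈ Icc 1 N, p n
    · obtain ⟨n, hn, hpn⟩ := hex
      rw [sum_eq_single n, if_pos hpn, mul_one]
      · exact hb n hn
      · intro n' _ hne
        rw [if_neg fun h' => hne (hp _ _ h' hpn), mul_zero]
      · exact fun h' => absurd hn h'
    · rw [sum_eq_zero fun n hn => by rw [if_neg fun h' => hex ⟨n, hn, h'⟩, mul_zero]]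
      simpa using hb0
  have e1 := e (fun n => n + m.val = j.val) fun n n' _ _ => by omega
  have e2 := e (fun n => n = j.val + m.val + 2) fun n n' _ _ => by omega
  simp only [Em, of_apply, mul_sub, sum_sub_distrib]
  exact (abs_sub _ _).trans (by linarith)

end Pool.Agent.KMom
end

-- part Pool.Agent.P.MP_ea46f5_nt.Three
section

set_option autoImplicit false

/-! The small determinants and the Fejer polynomials. -/

namespace Pool.Agent.KMom

open MeasureTheory Real Finset Matrix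

/-- Iterated differences of a power. -/
noncomputable def dp (m s : ℕ) (y : ℝ) : ℝ := (fwdDiff (1 : ℝ))^[s] (fun x : ℝ => x ^ m) y

theorem dp_deriv (m s : ℕ) (y : ℝ) : HasDerivAt (dp m s) (m * dp (m - 1) s y) y := by
  have e : ∀ m, dp m s = fun x => ∑ j ∈ range (s + 1),
      (((-1 : ℤ) ^ (s - j) * s.choose j : ℤ) : ℝ) * (x + j) ^ m := by
    intro m
    funext x
    rw [dp, fwdDiff_iter_eq_sum_shift]
    simp
  rw [e m, e (m - 1), mul_sum]
  refine HasDerivAt.fun_sum fun j _ => ?_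
  have := (((hasDerivAt_id y).add_const (j : ℝ)).fun_pow m).const_mul
    (((-1 : ℤ) ^ (s - j) * s.choose j : ℤ) : ℝ)
  refine this.congr_deriv ?_
  simp only [id]
  ring

theorem dp_mvt (s : ℕ) : ∀ (m : ℕ) (y : ℝ), ∃ ξ ∈ Set.Icc y (y + s),
    dp m s y = m.descFactorial s * ξ ^ (m - s) := by
  induction s with
  | zero => exact fun m y => ⟨y, by simp, by simp [dp]⟩
  | succ s ih =>
    intro m y
    obtain ⟨η, hη, h1⟩ := exists_hasDerivAt_eq_slope (dp m s) (fun x => m * dp (m - 1) s x)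
      (show y < y + 1 by linarith) (fun x _ => (dp_deriv m s x).continuousAt.continuousWithinAt)
      fun x _ => dp_deriv m s x
    obtain ⟨ξ, hξ, h2⟩ := ih (m - 1) η
    refine ⟨ξ, ⟨by linarith [hη.1, hξ.1], by push_cast; linarith [hη.2, hξ.2]⟩, ?_⟩
    have h3 : dp m (s + 1) y = dp m s (y + 1) - dp m s y := by
      rw [dp, Function.iterate_succ_apply']
      rfl
    have h4 : (m.descFactorial (s + 1) : ℝ) = m * (m - 1).descFactorial s := by
      rcases m with _ | m
      · simp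
      · rw [Nat.succ_descFactorial_succ]
        simp
    rw [h3, h4, show m - (s + 1) = m - 1 - s by omega, mul_assoc, ← h2, h1]
    simp

theorem det_newton (k : ℕ) (T : Finset ℕ) (w x : ℕ → ℝ) :
    (of fun l r : Fin k => ∑ n ∈ T, w n * (x n + l.val) ^ (2 * r.val + 1)).det =
      (of fun s r : Fin k => ∑ n ∈ T, w n * dp (2 * r.val + 1) s.val (x n)).det := by
  have e : (of fun l r : Fin k => ∑ n ∈ T, w n * (x n + l.val) ^ (2 * r.val + 1)) =
      (of fun l s : Fin k => (l.val.choose s.val : ℝ)) *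
        of fun s r : Fin k => ∑ n ∈ T, w n * dp (2 * r.val + 1) s.val (x n) := by
    ext l r
    rw [mul_apply]
    simp only [of_apply, mul_sum]
    rw [sum_comm]
    refine sum_congr rfl fun n _ => ?_
    have h1 := shift_eq_sum_fwdDiff_iter (1 : ℝ) (fun y : ℝ => y ^ (2 * r.val + 1)) l.val (x n)
    simp only [nsmul_eq_mul, mul_one] at h1
    rw [h1, Fin.sum_univ_eq_sum_range
      (fun s => (l.val.choose s : ℝ) * (w n * dp (2 * r.val + 1) s (x n))) k, mul_sum,
      ← sum_subset (range_subset_range.2 (Nat.succ_le_of_lt l.2))]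
    · exact sum_congr rfl fun s _ => by rw [dp]; ring
    · intro s _ hs
      rw [Nat.choose_eq_zero_of_lt (by simpa using hs)]
      simp
  rw [e, det_mul, det_of_isLowerTriangular, prod_eq_one, one_mul]
  · intro i _
    simp
  · intro a b hab
    have : a.val < b.val := hab
    simp [Nat.choose_eq_zero_of_lt this]

/-- The scale of the small determinants. -/
noncomputable def Wt (k : ℕ) (x : ℝ) : ℝ := ∏ r : Fin k, x ^ (r.val + 1)

theorem Wt_pos (k : ℕ) {x : ℝ} (hx : 0 < x) : 0 < Wt k x := prod_pos fun _ _ => by positivity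

theorem Wt_mul (k : ℕ) (x y : ℝ) : Wt k (x * y) = Wt k x * Wt k y := by
  simp only [Wt, mul_pow, prod_mul_distrib]

theorem Wt_mono (k : ℕ) {x y : ℝ} (hx : 0 ≤ x) (h : x ≤ y) : Wt k x ≤ Wt k y :=
  prod_le_prod (fun _ _ => by positivity) fun _ _ => by gcongr

theorem near (k : ℕ) : ∃ ρ d : ℝ, 0 < ρ ∧ 0 < d ∧ ∀ (T : Finset ℕ) (w x : ℕ → ℝ) (x₀ μ : ℝ),
    0 < x₀ → 0 < μ → (∀ n ∈ T, 0 ≤ w n) → ∑ n ∈ T, w n = μ →
    (∀ n ∈ T, w n ≠ 0 → x₀ ≤ x n ∧ x n + k ≤ (1 + ρ) * x₀) →
    d * (μ ^ k * Wt k x₀) ≤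
        (of fun l r : Fin k => ∑ n ∈ T, w n * (x n + l.val) ^ (2 * r.val + 1)).det ∧
      (of fun l r : Fin k => ∑ n ∈ T, w n * (x n + l.val) ^ (2 * r.val + 1)).det ≤
        3 * d * (μ ^ k * Wt k x₀) := by
  set E₀ : Fin k → Fin k → ℝ := fun s r => ((2 * r.val + 1).descFactorial s.val : ℝ) with hE₀
  have hd : 0 < (of E₀).det := by
    have h1 := det_eval_matrixOfPolynomials_eq_det_vandermonde
      (fun r : Fin k => ((2 * r.val + 1 : ℕ) : ℝ)) (fun i => descPochhammer ℝ i)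
      (fun i => descPochhammer_natDegree ℝ i) fun i => monic_descPochhammer ℝ i
    simp only [descPochhammer_eval_eq_descFactorial] at h1
    rw [← det_transpose]
    refine lt_of_lt_of_eq ?_ h1
    rw [det_vandermonde]
    refine prod_pos fun i _ => prod_pos fun j hj => sub_pos.2 ?_
    have h0 : i < j := mem_Ioi.1 hj
    have : i.val < j.val := h0
    exact_mod_cast (by omega)
  have hc : Continuous fun E : Fin k → Fin k → ℝ => (of E).det :=
    Continuous.matrix_det continuous_id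
  obtain ⟨η, hη, h2⟩ := Metric.continuous_iff.1 hc E₀ ((of E₀).det / 2) (by positivity)
  have hc2 : Continuous fun ρ : ℝ => (‖E₀‖ + 1) * ((1 + ρ) ^ (2 * k) - 1) := by fun_prop
  obtain ⟨ε, hε, h3⟩ := Metric.continuous_iff.1 hc2 0 η hη
  have h4 := h3 (ε / 2) (by rw [Real.dist_eq, sub_zero, abs_of_pos (by positivity)]; linarith)
  set ρ := ε / 2 with hρ
  have hρ0 : 0 < ρ := by positivity
  have h5 : 1 ≤ (1 + ρ) ^ (2 * k) := one_le_pow₀ (by linarith)
  simp only [add_zero, one_pow, sub_self, mul_zero, Real.dist_eq, sub_zero] at h4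
  rw [abs_of_nonneg (by have := norm_nonneg E₀; nlinarith)] at h4
  refine ⟨ρ, (of E₀).det / 2, hρ0, by positivity, fun T w x x₀ μ hx hμ hw hs hT => ?_⟩
  set E : Fin k → Fin k → ℝ := fun s r =>
    (∑ n ∈ T, w n * dp (2 * r.val + 1) s.val (x n)) * x₀ ^ s.val / (μ * x₀ ^ (2 * r.val + 1)) with hE
  have hdist : dist E E₀ < η := by
    refine lt_of_le_of_lt ((dist_pi_le_iff (by have := norm_nonneg E₀; nlinarith)).2 fun s =>
      (dist_pi_le_iff (by have := norm_nonneg E₀; nlinarith)).2 fun r => ?_) h4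
    have e1 : E s r - E₀ s r = ∑ n ∈ T, w n / μ *
        (dp (2 * r.val + 1) s.val (x n) * x₀ ^ s.val / x₀ ^ (2 * r.val + 1) - E₀ s r) := by
      simp only [mul_sub, sum_sub_distrib]
      rw [← sum_mul, ← sum_div, hs, div_self hμ.ne', one_mul, hE]
      simp only [sum_mul, sum_div]
      congr 1
      exact sum_congr rfl fun n _ => by field_simp
    have e2 : ∀ n ∈ T, |w n / μ *
        (dp (2 * r.val + 1) s.val (x n) * x₀ ^ s.val / x₀ ^ (2 * r.val + 1) - E₀ s r)| ≤
        w n / μ * ((‖E₀‖ + 1) * ((1 + ρ) ^ (2 * k) - 1)) := by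
      intro n hn
      by_cases h0 : w n = 0
      · simp [h0]
      have hwn := hw n hn
      rw [abs_mul, abs_of_nonneg (by positivity)]
      gcongr
      obtain ⟨ξ, hξ, h6⟩ := dp_mvt s.val (2 * r.val + 1) (x n)
      have hE0 : 0 ≤ E₀ s r := by positivity
      have hE1 : E₀ s r ≤ ‖E₀‖ :=
        (le_abs_self _).trans ((norm_le_pi_norm (E₀ s) r).trans (norm_le_pi_norm E₀ s))
      by_cases hsr : 2 * r.val + 1 < s.val
      · have : E₀ s r = 0 := by simp [hE₀, Nat.descFactorial_of_lt hsr]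
        rw [h6, this, Nat.descFactorial_of_lt hsr]
        simp only [Nat.cast_zero, zero_mul, zero_div, sub_self, abs_zero]
        nlinarith
      obtain ⟨j, hj⟩ : ∃ j, 2 * r.val + 1 = s.val + j := ⟨2 * r.val + 1 - s.val, by omega⟩
      have h7 : dp (2 * r.val + 1) s.val (x n) * x₀ ^ s.val / x₀ ^ (2 * r.val + 1) - E₀ s r =
          E₀ s r * ((ξ / x₀) ^ j - 1) := by
        rw [h6, show 2 * r.val + 1 - s.val = j by omega, hE₀]
        simp only
        rw [show x₀ ^ (2 * r.val + 1) = x₀ ^ s.val * x₀ ^ j by rw [hj, pow_add], div_pow]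
        field_simp
      have hsk : (s.val : ℝ) ≤ k := by exact_mod_cast s.2.le
      have h8 : 1 ≤ ξ / x₀ := (one_le_div hx).2 (by linarith [(hT n hn h0).1, hξ.1])
      have h9 : ξ / x₀ ≤ 1 + ρ := (div_le_iff₀ hx).2 (by linarith [(hT n hn h0).2, hξ.2])
      have h10 : 1 ≤ (ξ / x₀) ^ j := one_le_pow₀ h8
      have h11 : (ξ / x₀) ^ j ≤ (1 + ρ) ^ (2 * k) :=
        (pow_le_pow_left₀ (by linarith) h9 j).trans
          (pow_le_pow_right₀ (by linarith) (by have := r.2; omega))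
      rw [h7, abs_of_nonneg (by nlinarith)]
      gcongr
      linarith
    rw [Real.dist_eq, e1]
    refine (abs_sum_le_sum_abs _ _).trans ((sum_le_sum e2).trans ?_)
    rw [← sum_mul, ← sum_div, hs, div_self hμ.ne', one_mul]
  have h12 := h2 E hdist
  rw [Real.dist_eq, abs_lt] at h12
  have h13 : (of fun s r : Fin k => ∑ n ∈ T, w n * dp (2 * r.val + 1) s.val (x n)).det =
      (μ ^ k * Wt k x₀) * (of E).det := by
    have e : (of fun s r : Fin k => ∑ n ∈ T, w n * dp (2 * r.val + 1) s.val (x n)) =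
        of fun s r : Fin k => (x₀ ^ s.val)⁻¹ *
          (of fun s r : Fin k => (μ * x₀ ^ (2 * r.val + 1)) * (of E) s r) s r := by
      ext s r
      simp only [of_apply, hE]
      field_simp
    rw [e, det_mul_column, det_mul_row, ← mul_assoc, ← prod_mul_distrib]
    congr 1
    have : μ ^ k = ∏ _r : Fin k, μ := by simp
    rw [Wt, this, ← prod_mul_distrib]
    refine prod_congr rfl fun r _ => ?_
    rw [show 2 * r.val + 1 = r.val + (r.val + 1) by ring, pow_add x₀ r.val (r.val + 1)]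
    field_simp
  have h14 : 0 < μ ^ k * Wt k x₀ := mul_pos (by positivity) (Wt_pos k hx)
  rw [det_newton, h13]
  constructor <;> nlinarith [h12.1, h12.2]

/-- Coefficients given by counting pairs. -/
noncomputable def cf (M : ℕ) (e : ℕ → ℕ → ℕ) (w : ℝ) (n : ℕ) : ℝ :=
  ∑ p ∈ range M, ∑ q ∈ range M, if e p q = n then w else 0

theorem cf_nonneg (M : ℕ) (e : ℕ → ℕ → ℕ) {w : ℝ} (hw : 0 ≤ w) (n : ℕ) : 0 ≤ cf M e w n :=
  sum_nonneg fun _ _ => sum_nonneg fun _ _ => by split_ifs <;> simp [hw]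

theorem cf_sum (M : ℕ) (e : ℕ → ℕ → ℕ) (w : ℝ) (T : Finset ℕ) (g : ℕ → ℝ) :
    ∑ n ∈ T, cf M e w n * g n =
      ∑ p ∈ range M, ∑ q ∈ range M, if e p q ∈ T then w * g (e p q) else 0 := by
  simp only [cf, sum_mul, ite_mul, zero_mul]
  rw [sum_comm]
  refine sum_congr rfl fun p _ => ?_
  rw [sum_comm]
  exact sum_congr rfl fun q _ => by rw [sum_ite_eq]

theorem cf_le (M : ℕ) (e : ℕ → ℕ → ℕ) {w : ℝ} (hw : 0 ≤ w) (n : ℕ) (f g : ℕ → ℕ)
    (he : ∀ p, ∀ q < M, e p q = n → q = f p ∨ q = g p) : cf M e w n ≤ M * (2 * w) := by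
  have : ∀ p ∈ range M, (∑ q ∈ range M, if e p q = n then w else 0) ≤ 2 * w := by
    intro p _
    rw [← sum_filter, sum_const, nsmul_eq_mul]
    gcongr
    have h1 : (range M).filter (fun q => e p q = n) ⊆ {f p, g p} := fun q hq => by
      simpa using he p q (mem_range.1 (mem_filter.1 hq).1) (mem_filter.1 hq).2
    exact_mod_cast (card_le_card h1).trans card_le_two
  simpa [cf] using sum_le_sum this

theorem cf_ne (M : ℕ) (e : ℕ → ℕ → ℕ) (w : ℝ) (n : ℕ) (h : cf M e w n ≠ 0) :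
    ∃ p < M, ∃ q < M, e p q = n := by
  obtain ⟨p, hp, h1⟩ := exists_ne_zero_of_sum_ne_zero h
  obtain ⟨q, hq, h2⟩ := exists_ne_zero_of_sum_ne_zero h1
  exact ⟨p, mem_range.1 hp, q, mem_range.1 hq, by by_contra h3; simp [h3] at h2⟩

theorem fejer (M : ℕ) (c t : ℝ) :
    ∑ p ∈ range M, ∑ q ∈ range M, cos ((c + p - q) * t) =
      cos (c * t) * ((∑ p ∈ range M, cos (p * t)) ^ 2 + (∑ p ∈ range M, sin (p * t)) ^ 2) := by
  have e : ∀ p q : ℕ, cos ((c + p - q) * t) =
      cos (c * t) * (cos (p * t) * cos (q * t)) + cos (c * t) * (sin (p * t) * sin (q * t)) -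
        sin (c * t) * (sin (p * t) * cos (q * t)) + sin (c * t) * (cos (p * t) * sin (q * t)) := by
    intro p q
    rw [show (c + p - q) * t = c * t + (p * t - q * t) by ring, cos_add, cos_sub, sin_sub]
    ring
  simp only [e, sum_add_distrib, sum_sub_distrib, ← mul_sum, ← sum_mul]
  ring

/-- The damping part. -/
noncomputable def al (M : ℕ) : ℕ → ℝ := cf M Nat.dist (1 / (2 * M ^ 2))

/-- The high frequency part. -/
noncomputable def be (M c k : ℕ) : ℕ → ℝ := cf M (fun p q => c + p - q) (1 / (4 * k * M ^ 2))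

variable {N M c k : ℕ}

theorem be_sum (hM : M ≤ c) (hc : c + M ≤ N) (g : ℕ → ℝ) : ∑ n ∈ Icc 1 N, be M c k n * g n =
    1 / (4 * k * M ^ 2) * ∑ p ∈ range M, ∑ q ∈ range M, g (c + p - q) := by
  rw [be, cf_sum]
  simp only [mul_sum]
  refine sum_congr rfl fun p hp => sum_congr rfl fun q hq => if_pos ?_
  have := mem_range.1 hp
  have := mem_range.1 hq
  rw [mem_Icc]
  omega

theorem be_mass (hM0 : 1 ≤ M) (hk : 1 ≤ k) (hM : M ≤ c) (hc : c + M ≤ N) :
    ∑ n ∈ Icc 1 N, be M c k n = 1 / (4 * k) := by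
  have := be_sum (k := k) hM hc fun _ => 1
  simp only [mul_one, sum_const, card_range, nsmul_eq_mul] at this
  rw [this]
  have : (M : ℝ) ≠ 0 := by positivity
  field_simp

theorem small_fejer (hM0 : 1 ≤ M) (hk : 1 ≤ k) (hM : M ≤ c) (hc : c + M ≤ N) {s : ℝ}
    (hs : s ∈ Set.Icc (0 : ℝ) k) : Small N fun n => al M n + s * be M c k n := by
  have h1 : ∑ n ∈ Icc 1 N, al M n ≤ 1 / 2 := by
    have := cf_sum M Nat.dist (1 / (2 * M ^ 2)) (Icc 1 N) fun _ => 1
    simp only [mul_one] at this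
    rw [al, this]
    calc _ ≤ ∑ _p ∈ range M, ∑ _q ∈ range M, (1 / (2 * M ^ 2) : ℝ) :=
          sum_le_sum fun p _ => sum_le_sum fun q _ => by split_ifs <;> [rfl; positivity]
      _ = 1 / 2 := by
          have : (M : ℝ) ≠ 0 := by positivity
          simp only [sum_const, card_range, nsmul_eq_mul]
          field_simp
  have h2 : ∀ n ∈ Icc 1 N, |al M n + s * be M c k n| = al M n + s * be M c k n := fun n _ =>
    abs_of_nonneg (add_nonneg (cf_nonneg _ _ (by positivity) _)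
      (mul_nonneg hs.1 (cf_nonneg _ _ (by positivity) _)))
  have hk' : (0 : ℝ) < k := by exact_mod_cast hk
  have h3 : s * (1 / (4 * k)) ≤ 1 / 4 := by
    rw [mul_one_div, div_le_div_iff₀ (by positivity) (by positivity)]
    linarith [hs.2]
  rw [Small, sum_congr rfl h2, sum_add_distrib, ← mul_sum, be_mass hM0 hk hM hc]
  linarith

theorem abs_fejer (hM0 : 1 ≤ M) (hk : 1 ≤ k) (hM : M ≤ c) {s : ℝ}
    (hs : s ∈ Set.Icc (0 : ℝ) k) (n : ℕ) : |al M n + s * be M c k n| ≤ 2 / M := by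
  have hM' : (0 : ℝ) < M := by exact_mod_cast hM0
  have hk' : (0 : ℝ) < k := by exact_mod_cast hk
  have h1 : al M n ≤ M * (2 * (1 / (2 * M ^ 2))) :=
    cf_le M _ (by positivity) n (fun p => p + n) (fun p => p - n) fun p q _ h => by
      rw [Nat.dist] at h
      omega
  have h2 : be M c k n ≤ M * (2 * (1 / (4 * k * M ^ 2))) :=
    cf_le M _ (by positivity) n (fun p => c + p - n) (fun p => c + p - n) fun p q hq h => by omega
  have h3 : 0 ≤ be M c k n := cf_nonneg _ _ (by positivity) _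
  have h4 : s * be M c k n ≤ k * (M * (2 * (1 / (4 * k * M ^ 2)))) :=
    mul_le_mul hs.2 h2 h3 hk'.le
  have h5 : 0 ≤ al M n := cf_nonneg _ _ (by positivity) _
  rw [abs_of_nonneg (add_nonneg h5 (mul_nonneg hs.1 h3))]
  have e1 : (M : ℝ) * (2 * (1 / (2 * M ^ 2))) = 1 / M := by field_simp
  have e2 : (k : ℝ) * (M * (2 * (1 / (4 * k * M ^ 2)))) = 1 / 2 * (1 / M) := by field_simp; ring
  have e3 : (2 : ℝ) / M = 2 * (1 / M) := by ring
  have e4 : (0 : ℝ) < 1 / M := by positivity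
  linarith

theorem Ah_fejer (hM0 : 1 ≤ M) (hk : 1 ≤ k) (hM : M ≤ c) (hc : c + M ≤ N) {s : ℝ}
    (hs : s ∈ Set.Icc (0 : ℝ) k) (t : ℝ) :
    1 - 1 / (2 * M) ≤ Ah N (fun n => al M n + s * be M c k n) t := by
  have hM' : (0 : ℝ) < M := by exact_mod_cast hM0
  have hk' : (0 : ℝ) < k := by exact_mod_cast hk
  set K := (∑ p ∈ range M, cos (p * t)) ^ 2 + (∑ p ∈ range M, sin (p * t)) ^ 2 with hK
  have hK0 : 0 ≤ K := by positivity
  have h1 : ∑ n ∈ Icc 1 N, al M n * cos (n * t) = 1 / (2 * M ^ 2) * (K - M) := by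
    have e : ∀ p ∈ range M, ∀ q ∈ range M, (if Nat.dist p q ∈ Icc 1 N then
        1 / (2 * (M : ℝ) ^ 2) * cos ((Nat.dist p q : ℕ) * t) else 0) =
        1 / (2 * M ^ 2) * (cos (((0 : ℝ) + p - q) * t) - if p = q then 1 else 0) := by
      intro p hp q hq
      have := mem_range.1 hp
      have := mem_range.1 hq
      rcases lt_trichotomy p q with h | h | h
      · rw [if_pos (by rw [mem_Icc, Nat.dist]; omega), if_neg h.ne, Nat.dist_eq_sub_of_le h.le,
          Nat.cast_sub h.le, ← cos_neg]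
        congr 2
        ring_nf
      · simp [h]
      · rw [if_pos (by rw [mem_Icc, Nat.dist]; omega), if_neg h.ne',
          Nat.dist_eq_sub_of_le_right h.le, Nat.cast_sub h.le]
        simp
    rw [al, cf_sum, sum_congr rfl fun p hp => sum_congr rfl (e p hp)]
    simp only [← mul_sum, sum_sub_distrib]
    have e2 : ∑ p ∈ range M, ∑ q ∈ range M, (if p = q then (1 : ℝ) else 0) = ∑ _p ∈ range M, 1 :=
      sum_congr rfl fun p hp => by rw [sum_ite_eq, if_pos hp]
    rw [fejer, e2]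
    simp [hK]
  have h2 : ∑ n ∈ Icc 1 N, be M c k n * cos (n * t) = 1 / (4 * k * M ^ 2) * (cos (c * t) * K) := by
    rw [be_sum hM hc, ← fejer]
    congr 1
    refine sum_congr rfl fun p _ => sum_congr rfl fun q hq => ?_
    have := mem_range.1 hq
    rw [Nat.cast_sub (by omega)]
    simp
  have h3 : -(1 / (4 * M ^ 2) * K) ≤ s * (1 / (4 * k * M ^ 2) * (cos (c * t) * K)) := by
    have a1 : -(k : ℝ) ≤ s * cos (c * t) := by nlinarith [neg_one_le_cos (c * t), hs.1, hs.2]
    have a2 : 0 ≤ 1 / (4 * k * (M : ℝ) ^ 2) * K := by positivity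
    have a3 : 1 / (4 * (M : ℝ) ^ 2) * K = k * (1 / (4 * k * M ^ 2) * K) := by field_simp
    nlinarith
  simp only [Ah, add_mul, sum_add_distrib, mul_assoc s, ← mul_sum]
  rw [h1, h2]
  have e1 : 1 / (2 * (M : ℝ) ^ 2) * (K - M) = 2 * (1 / (4 * M ^ 2) * K) - 1 / (2 * M) := by
    field_simp
    ring
  have e2 : 0 ≤ 1 / (4 * (M : ℝ) ^ 2) * K := by positivity
  linarith

theorem Fh_fejer (hM0 : 1 ≤ M) (hk : 1 ≤ k) (hM : M ≤ c) (hc : c + M ≤ N) {s : ℝ}
    (hs : s ∈ Set.Icc (0 : ℝ) k) {R : ℝ} (hR : (N : ℝ) ≤ R * M) (θ : Fin N → ℝ) :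
    |Fh N (fun n => al M n + s * be M c k n) θ| ≤ exp (6 * R + 8 * R ^ 2) := by
  have hM' : (1 : ℝ) ≤ M := by exact_mod_cast hM0
  have hS := small_fejer hM0 hk hM hc hs
  have hN : (N : ℝ) * (2 * (2 / M)) ≤ 4 * R := by
    rw [show (N : ℝ) * (2 * (2 / M)) = 4 * (N / M) by ring]
    have := (div_le_iff₀ (by positivity)).2 hR
    linarith
  have hN0 : 0 ≤ (N : ℝ) * (2 * (2 / M)) := by positivity
  have h1 := det_sq_le _ _ (abs_Em (N := N) (2 / M) (fun n _ => abs_fejer hM0 hk hM hs n)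
    (by positivity))
  have h2 : |(1 + Em N fun n => al M n + s * be M c k n).det| ≤ exp (4 * R + 8 * R ^ 2) := by
    refine abs_le_of_sq_le_sq' (h1.trans ?_) (exp_pos _).le |> abs_le.2
    rw [← exp_nat_mul]
    refine exp_le_exp.2 ?_
    push_cast
    nlinarith
  have h3 : ∀ t, psi N (fun n => al M n + s * be M c k n) t ≤ exp (2 / M) := by
    intro t
    have a1 := Ah_fejer hM0 hk hM hc hs t
    have a2 : exp (-(1 / M)) ≤ 1 - 1 / (2 * M) := by
      have b1 : 0 < 1 / (M : ℝ) := by positivity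
      have b2 : 1 / (M : ℝ) ≤ 1 := (div_le_one (by positivity)).2 hM'
      have b3 := add_one_le_exp (1 / (M : ℝ))
      rw [exp_neg, show 1 / (2 * (M : ℝ)) = 1 / M / 2 by ring, inv_le_comm₀ (exp_pos _) (by linarith)]
      refine le_trans ?_ b3
      rw [inv_le_comm₀ (by linarith) (by linarith), inv_eq_one_div, div_le_iff₀ (by linarith)]
      nlinarith
    have a3 : exp (-(1 / M)) ^ 2 ≤ Ah N (fun n => al M n + s * be M c k n) t ^ 2 :=
      pow_le_pow_left₀ (exp_pos _).le (a2.trans a1) 2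
    rw [psi, inv_le_comm₀ (hS.den_pos t) (exp_pos _), ← exp_neg]
    rw [← exp_nat_mul] at a3
    have a4 : ((2 : ℕ) : ℝ) * -(1 / M) = -(2 / M) := by push_cast; ring
    rw [a4] at a3
    nlinarith [sq_nonneg (Bh N (fun n => al M n + s * be M c k n) t)]
  have h4 : |∏ i, psi N (fun n => al M n + s * be M c k n) (θ i)| ≤ exp (2 * R) := by
    have a0 : ∀ t, 0 ≤ psi N (fun n => al M n + s * be M c k n) t := fun t =>
      inv_nonneg.2 (hS.den_pos t).le
    rw [abs_of_nonneg (prod_nonneg fun i _ => a0 _)]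
    refine (prod_le_prod (fun i _ => a0 _) fun i _ => h3 _).trans ?_
    rw [prod_const, card_univ, Fintype.card_fin, ← exp_nat_mul]
    exact exp_le_exp.2 (by linarith)
  rw [Fh, abs_mul, show 6 * R + 8 * R ^ 2 = (4 * R + 8 * R ^ 2) + 2 * R by ring, exp_add]
  gcongr

end Pool.Agent.KMom
end

-- part Pool.Agent.P.MP_ea46f5_nt.Main
section

set_option autoImplicit false

/-! Assembly. -/

namespace Pool.Agent.KMom

open MeasureTheory Real Finset Matrix

variable {N k : ℕ} {α β : ℕ → ℝ}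

variable (N k α β) in
/-- The `k`-th difference of the tilted densities. -/
noncomputable def F0 (θ : Fin N → ℝ) : ℝ := Dk k fun s => Fh N (fun n => α n + s * β n) θ

theorem mem_Icc_of_range {s : ℕ} (hs : s ∈ range (k + 1)) : (s : ℝ) ∈ Set.Icc (0 : ℝ) k :=
  ⟨by positivity, by exact_mod_cast Nat.lt_succ_iff.1 (mem_range.1 hs)⟩

theorem cont_F0 (hS : ∀ s ∈ Set.Icc (0 : ℝ) k, Small N fun n => α n + s * β n) :
    Continuous (F0 N k α β) :=
  continuous_finsetSum _ fun _ hs => continuous_const.mul (hS _ (mem_Icc_of_range hs)).cont_Fh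

theorem F0_symm (σ : Equiv.Perm (Fin N)) (θ : Fin N → ℝ) : F0 N k α β (θ ∘ σ) = F0 N k α β θ := by
  have e : ∀ h, Fh N h (θ ∘ σ) = Fh N h θ := fun h => by
    rw [Fh, Fh, ← Equiv.prod_comp σ fun i => psi N h (θ i)]
    rfl
  simp only [F0, e]

theorem abs_F0 {K : ℝ} (θ : Fin N → ℝ)
    (hK : ∀ s ∈ Set.Icc (0 : ℝ) k, |Fh N (fun n => α n + s * β n) θ| ≤ K) :
    |F0 N k α β θ| ≤ 2 ^ k * K := by
  rw [F0, Dk]
  refine (abs_sum_le_sum_abs _ _).trans ?_
  have e : (2 : ℝ) ^ k = ∑ s ∈ range (k + 1), (k.choose s : ℝ) := by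
    exact_mod_cast (Nat.sum_range_choose k).symm
  rw [e, sum_mul]
  refine sum_le_sum fun s hs => ?_
  rw [abs_mul, abs_mul, abs_pow, abs_neg, abs_one, one_pow, one_mul, Nat.abs_cast]
  gcongr
  exact hK _ (mem_Icc_of_range hs)

theorem IN_F0 (hS : ∀ s ∈ Set.Icc (0 : ℝ) k, Small N fun n => α n + s * β n)
    {g : (Fin N → ℝ) → ℝ} (hg : Continuous g) :
    IN N (fun θ => F0 N k α β θ * g θ * weyl θ) =
      Dk k fun s => IN N fun θ => Fh N (fun n => α n + s * β n) θ * g θ * weyl θ := by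
  have c := @cont_weyl N
  simp only [F0, Dk, sum_mul, mul_assoc]
  rw [IN_sum _ fun s hs => by
    have := (hS _ (mem_Icc_of_range hs)).cont_Fh
    fun_prop]
  simp only [IN_smul]

theorem orth_F0 {J : ℕ} (hS : ∀ s ∈ Set.Icc (0 : ℝ) k, Small N fun n => α n + s * β n)
    (hβ : ∀ n, n < J → β n = 0) (P : MvPolynomial (Fin N) ℝ) (hP : P.totalDegree < k * J) :
    IN N (fun θ => F0 N k α β θ * MvPolynomial.eval (fun i => cos (θ i)) P * weyl θ) = 0 := by
  have c := @cont_weyl N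
  have c2 := cont_F0 hS
  have e : (fun θ => F0 N k α β θ * MvPolynomial.eval (fun i => cos (θ i)) P * weyl θ) =
      fun θ => ∑ d ∈ P.support, P.coeff d * (F0 N k α β θ * (∏ i, cos (θ i) ^ d i) * weyl θ) := by
    funext θ
    rw [MvPolynomial.eval_eq', mul_sum, sum_mul]
    exact sum_congr rfl fun d _ => by ring
  rw [e, IN_sum _ fun d _ => by fun_prop]
  refine sum_eq_zero fun d hd => ?_
  rw [IN_smul, IN_F0 hS (by fun_prop), (pd_mono hS hβ d).Dk_zero, mul_zero]
  have h1 := MvPolynomial.le_totalDegree hd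
  rw [Finsupp.sum_fintype _ _ fun _ => rfl] at h1
  exact_mod_cast h1.trans_lt hP

theorem Dk_smul (c : ℝ) (g : ℝ → ℝ) : Dk k (fun s => c * g s) = c * Dk k g := by
  simp only [Dk, mul_sum]
  exact sum_congr rfl fun s _ => by ring

theorem corr_F0 (hS : ∀ s ∈ Set.Icc (0 : ℝ) k, Small N fun n => α n + s * β n) :
    (Ym N k).det * IN N (fun θ => F0 N k α β θ * Z θ ^ k * weyl θ) =
      IN N (fun θ => Z θ ^ k * weyl θ) * (k.factorial * (of fun l r : Fin k =>
        ∑ n ∈ Icc 1 N, β n * (((N : ℝ) - n + 1) + l.val) ^ (2 * r.val + 1)).det) := by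
  have c := @cont_Z N
  set B : Matrix (Fin k) (Fin k) ℝ := of fun l r : Fin k =>
    ∑ n ∈ Icc 1 N, β n * (((N : ℝ) - n + 1) + l.val) ^ (2 * r.val + 1) with hB
  set p := ((Polynomial.X : Polynomial ℝ) • B.map Polynomial.C + (Wm N α k).map Polynomial.C).det
    with hp
  have h1 : ∀ s : ℝ, (Wm N (fun n => α n + s * β n) k).det = p.eval s := by
    intro s
    have := (Polynomial.evalRingHom s).map_det
      ((Polynomial.X : Polynomial ℝ) • B.map Polynomial.C + (Wm N α k).map Polynomial.C)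
    rw [Polynomial.coe_evalRingHom] at this
    rw [hp, this]
    congr 1
    ext l r
    simp only [Wm, hB, of_apply, RingHom.mapMatrix_apply, map_apply, Matrix.add_apply,
      Matrix.smul_apply, smul_eq_mul, Polynomial.coe_evalRingHom, Polynomial.eval_add,
      Polynomial.eval_mul, Polynomial.eval_X, Polynomial.eval_C, add_mul, sum_add_distrib, mul_sum]
    have e : ∑ n ∈ Icc 1 N, s * β n * ((N : ℝ) + l.val - n + 1) ^ (2 * r.val + 1) =
        ∑ n ∈ Icc 1 N, s * (β n * ((N : ℝ) - n + 1 + l.val) ^ (2 * r.val + 1)) := by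
      refine sum_congr rfl fun n _ => ?_
      rw [show (N : ℝ) + l.val - n + 1 = N - n + 1 + l.val by ring]
      ring
    rw [e]
    ring
  have h2 := Polynomial.natDegree_det_X_add_C_le B (Wm N α k)
  have h3 := Polynomial.coeff_det_X_add_C_card B (Wm N α k)
  rw [Fintype.card_fin, ← hp] at h2 h3
  rw [IN_F0 hS (by fun_prop), ← Dk_smul, ← h3, ← Dk_poly k p h2, ← Dk_smul]
  refine Dk_congr fun s hs => ?_
  rw [mul_comm, (hS s hs).ratio, h1]

theorem exists_F (k : ℕ) (hk : 1 ≤ k) (δ : ℝ) (hδ : 0 < δ) : ∃ c : ℝ, 0 < c ∧ ∃ N₀ : ℕ, ∀ N, N₀ ≤ N →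
    ∃ F : (Fin N → ℝ) → ℝ, Continuous F ∧
      (∀ (σ : Equiv.Perm (Fin N)) (θ : Fin N → ℝ), F (θ ∘ σ) = F θ) ∧ (∀ θ, |F θ| ≤ 1 / 2) ∧
      (∀ P : MvPolynomial (Fin N) ℝ, P.totalDegree = 0 ∨ (P.totalDegree : ℝ) ≤ (k - δ) * N →
        IN N (fun θ => F θ * MvPolynomial.eval (fun i => cos (θ i)) P * weyl θ) = 0) ∧
      c * IN N (fun θ => Z θ ^ k * weyl θ) ≤ IN N (fun θ => F θ * Z θ ^ k * weyl θ) := by
  obtain ⟨ρ, d, hρ, hd, hn⟩ := near k
  obtain ⟨a, ha⟩ := exists_nat_gt (3 / ρ)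
  have ha' : 3 < ρ * a := by rwa [div_lt_iff₀' hρ] at ha
  have ha1 : 1 ≤ a := by
    rcases a with _ | a
    · simp at ha'
      linarith
    · omega
  obtain ⟨R₀, hR₀⟩ := exists_nat_gt (k * (a + 2) / δ)
  set R := R₀ + a + 3 with hR
  have hk' : (0 : ℝ) < k := by exact_mod_cast hk
  have hRδ : (k : ℝ) * (a + 2) < δ * R := by
    rw [div_lt_iff₀' hδ] at hR₀
    have : (R₀ : ℝ) ≤ R := by exact_mod_cast (by omega)
    nlinarith
  have hR' : (0 : ℝ) < R := by positivity
  set K : ℝ := 2 * (2 ^ k * exp (6 * (2 * R) + 8 * (2 * R) ^ 2)) with hK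
  have hK0 : 0 < K := by positivity
  have hW := Wt_pos k (show (0 : ℝ) < 1 / (2 * R) by positivity)
  refine ⟨k.factorial * (1 / (4 * k)) ^ k * Wt k (1 / (2 * R)) / (3 * K), by positivity, R * k,
    fun N hN => ?_⟩
  set M := N / R with hM
  have hM1 : k ≤ M := (Nat.le_div_iff_mul_le (by omega)).2 (by rwa [mul_comm])
  have hM2 : R * M ≤ N := Nat.mul_div_le N R
  have hM3 : N < R * (M + 1) := Nat.lt_mul_div_succ N (by omega)
  have hM4 : (a + 3) * M ≤ N := le_trans (Nat.mul_le_mul_right _ (by omega)) hM2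
  obtain ⟨c, hc⟩ : ∃ c, N = c + (a + 1) * M := ⟨N - (a + 1) * M,
    (Nat.sub_add_cancel (le_trans (Nat.mul_le_mul_right _ (by omega)) hM4)).symm⟩
  have hM0 : 1 ≤ M := hk.trans hM1
  have hc1 : 2 * M ≤ c := by nlinarith
  have hc2 : c + M ≤ N := by nlinarith
  have hMr : (1 : ℝ) ≤ M := by exact_mod_cast hM0
  have hN1 : (N : ℝ) + 1 ≤ 2 * R * M := by
    have : N + 1 ≤ 2 * R * M := by nlinarith
    exact_mod_cast this
  have hS : ∀ s ∈ Set.Icc (0 : ℝ) k, Small N fun n => al M n + s * be M c k n :=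
    fun s hs => small_fejer hM0 hk (by omega) hc2 hs
  have hβ : ∀ n, n < c - M → be M c k n = 0 := by
    intro n hn
    by_contra h0
    obtain ⟨p, _, q, _, h⟩ := cf_ne _ _ _ _ h0
    omega
  have cF := cont_F0 hS
  refine ⟨fun θ => K⁻¹ * F0 N k (al M) (be M c k) θ, by fun_prop, fun σ θ => by simp only [F0_symm],
    fun θ => ?_, fun P hP => ?_, ?_⟩
  · have := abs_F0 θ fun s hs => Fh_fejer hM0 hk (by omega) hc2 hs (R := 2 * R) (by linarith) θ
    rw [abs_mul, abs_of_pos (inv_pos.2 hK0), inv_mul_le_iff₀ hK0]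
    linarith
  · simp only [mul_assoc K⁻¹]
    rw [IN_smul, orth_F0 hS hβ P, mul_zero]
    rcases hP with hP | hP
    · rw [hP]
      exact Nat.mul_pos hk (by omega)
    · have e1 : ((c - M : ℕ) : ℝ) = N - (a + 2) * M := by
        rw [Nat.cast_sub (by omega), hc]
        push_cast
        ring
      have e2 : (R : ℝ) * M ≤ N := by exact_mod_cast hM2
      have e3 : (P.totalDegree : ℝ) < k * ((c - M : ℕ) : ℝ) := by
        rw [e1]
        nlinarith [mul_le_mul_of_nonneg_left e2 hδ.le, mul_lt_mul_of_pos_right hRδ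
          (show (0 : ℝ) < M by linarith)]
      exact_mod_cast e3
  · have haM : (3 : ℝ) * M ≤ ρ * (a * M) := by nlinarith
    have hkM : (k : ℝ) ≤ M := by exact_mod_cast hM1
    have hcr : (N : ℝ) = c + (a + 1) * M := by exact_mod_cast hc
    have har : (1 : ℝ) ≤ a := by exact_mod_cast ha1
    have hcr0 : (0 : ℝ) ≤ c := by positivity
    have hY := hn {0} (fun _ => 1) (fun _ => N + 1) (N + 1) 1 (by positivity) one_pos (by simp)
      (by simp) fun n _ _ => ⟨le_rfl, by nlinarith⟩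
    have hYm : (of fun l r : Fin k => ∑ _n ∈ ({0} : Finset ℕ), (1 : ℝ) *
        ((N : ℝ) + 1 + l.val) ^ (2 * r.val + 1)) = Ym N k := by
      ext l r
      simp [Ym, add_right_comm]
    rw [hYm, one_pow, one_mul] at hY
    have hB := (hn (Icc 1 N) (be M c k) (fun n => (N : ℝ) - n + 1) (a * M) (1 / (4 * k))
      (by positivity) (by positivity) (fun n _ => cf_nonneg _ _ (by positivity) _)
      (be_mass hM0 hk (by omega) hc2) fun n _ h0 => by
        obtain ⟨p, hp, q, hq, h⟩ := cf_ne _ _ _ _ h0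
        have e1 : n + 1 ≤ c + M := by omega
        have e2 : c + 1 ≤ n + M := by omega
        have e3 : (n : ℝ) + 1 ≤ c + M := by exact_mod_cast e1
        have e4 : (c : ℝ) + 1 ≤ n + M := by exact_mod_cast e2
        constructor <;> nlinarith).1
    have hC := corr_F0 hS
    have hZ := IN_Z_pos (N := N) k
    have hW1 := Wt_pos k (show (0 : ℝ) < N + 1 by positivity)
    have hW2 : Wt k (1 / (2 * R)) * Wt k (N + 1) ≤ Wt k (a * M) := by
      rw [← Wt_mul]
      refine Wt_mono k (by positivity) ?_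
      rw [one_div, inv_mul_le_iff₀ (by positivity)]
      nlinarith [mul_le_mul_of_nonneg_left har (show (0 : ℝ) ≤ 2 * R * M by positivity)]
    have hY0 : 0 < (Ym N k).det := lt_of_lt_of_le (by positivity) hY.1
    simp only [mul_assoc K⁻¹]
    rw [IN_smul]
    set IF := IN N fun θ => F0 N k (al M) (be M c k) θ * Z θ ^ k * weyl θ
    set IZ := IN N fun θ => Z θ ^ k * weyl θ
    set μk : ℝ := (1 / (4 * k)) ^ k
    have hμ : 0 < μk := by positivity
    have hf : (0 : ℝ) < k.factorial := by positivity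
    have s1 : (Ym N k).det * (IZ * (k.factorial * (μk * Wt k (1 / (2 * R))) / 3)) ≤
        (Ym N k).det * IF := by
      rw [hC]
      refine le_trans ?_ (mul_le_mul_of_nonneg_left (mul_le_mul_of_nonneg_left hB hf.le) hZ.le)
      calc _ ≤ 3 * d * Wt k (N + 1) * (IZ * (k.factorial * (μk * Wt k (1 / (2 * R))) / 3)) := by
            gcongr
            exact hY.2
        _ = IZ * (k.factorial * (d * (μk * (Wt k (1 / (2 * R)) * Wt k (N + 1))))) := by ring
        _ ≤ _ := by gcongr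
    have s2 := le_of_mul_le_mul_left s1 hY0
    rw [le_inv_mul_iff₀ hK0]
    refine le_trans (le_of_eq ?_) s2
    field_simp

theorem alt_of {D : ℝ} {F : (Fin N → ℝ) → ℝ} (h1 : Continuous F)
    (h2 : ∀ (σ : Equiv.Perm (Fin N)) (θ : Fin N → ℝ), F (θ ∘ σ) = F θ) (h3 : ∀ θ, |F θ| ≤ 1 / 2)
    (h4 : ∀ P : MvPolynomial (Fin N) ℝ, P.totalDegree = 0 ∨ (P.totalDegree : ℝ) ≤ D →
      IN N (fun θ => F θ * MvPolynomial.eval (fun i => cos (θ i)) P * weyl θ) = 0)
    (ε : ℝ) (hε : |ε| = 1) : Alt N D (fun θ => 1 + ε * F θ) ∧ ∀ g : (Fin N → ℝ) → ℝ, Continuous g →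
      Ex N (fun θ => (1 + ε * F θ) * g θ) =
        (IN N (fun θ => g θ * weyl θ) + ε * IN N fun θ => F θ * g θ * weyl θ) / IN N weyl := by
  have c := @cont_weyl N
  have key : ∀ g : (Fin N → ℝ) → ℝ, Continuous g → Ex N (fun θ => (1 + ε * F θ) * g θ) =
      (IN N (fun θ => g θ * weyl θ) + ε * IN N fun θ => F θ * g θ * weyl θ) / IN N weyl := by
    intro g hg
    rw [← IN_smul, ← IN_add (by fun_prop) (by fun_prop), Ex, IN, IN]
    congr 2
    funext θ
    ring
  refine ⟨⟨by fun_prop, fun σ θ => by rw [h2], fun θ => ?_, ?_, fun P hP => ?_⟩, key⟩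
  · have : |ε * F θ| ≤ 1 / 2 := by rw [abs_mul, hε, one_mul]; exact h3 θ
    constructor <;> linarith [(abs_le.1 this).1, (abs_le.1 this).2]
  · have e1 := key (fun _ => 1) continuous_const
    have e2 := h4 1 (Or.inl MvPolynomial.totalDegree_one)
    simp only [map_one, mul_one, one_mul] at e1 e2
    rw [e1, e2, mul_zero, add_zero]
    exact div_self IN_weyl_pos.ne'
  · have cP : Continuous fun θ : Fin N → ℝ => MvPolynomial.eval (fun i => cos (θ i)) P :=
      (MvPolynomial.continuous_eval P).comp (by fun_prop)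
    rw [key _ cP, h4 P (Or.inr hP), mul_zero, add_zero]
    rfl

theorem main (k : ℕ) (hk : 1 ≤ k) (δ : ℝ) (hδ : 0 < δ) : ∃ c : ℝ, 0 < c ∧ ∃ N₀ : ℕ, ∀ N, N₀ ≤ N →
    0 < Ex N (fun θ => Z θ ^ k) ∧ ∃ ρ₁ ρ₂ : (Fin N → ℝ) → ℝ,
      Alt N ((k - δ) * N) ρ₁ ∧ Alt N ((k - δ) * N) ρ₂ ∧
      (1 + c) * Ex N (fun θ => Z θ ^ k) ≤ Ex N (fun θ => ρ₁ θ * Z θ ^ k) ∧
      Ex N (fun θ => ρ₂ θ * Z θ ^ k) ≤ (1 - c) * Ex N (fun θ => Z θ ^ k) := by
  obtain ⟨c, hc, N₀, h⟩ := exists_F k hk δ hδ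
  refine ⟨c, hc, N₀, fun N hN => ?_⟩
  obtain ⟨F, h1, h2, h3, h4, h5⟩ := h N hN
  have hw := IN_weyl_pos (N := N)
  have cZ : Continuous fun θ : Fin N → ℝ => Z θ ^ k := cont_Z.pow k
  have e : Ex N (fun θ => Z θ ^ k) = IN N (fun θ => Z θ ^ k * weyl θ) / IN N weyl := rfl
  obtain ⟨a1, b1⟩ := alt_of h1 h2 h3 h4 1 abs_one
  obtain ⟨a2, b2⟩ := alt_of h1 h2 h3 h4 (-1) (by simp)
  refine ⟨div_pos (IN_Z_pos k) hw, _, _, a1, a2, ?_, ?_⟩
  · rw [b1 _ cZ, e, ← mul_div_assoc]
    gcongr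
    linarith
  · rw [b2 _ cZ, e, ← mul_div_assoc]
    gcongr
    linarith

end Pool.Agent.KMom
end
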