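import Pool.Agent.P.MP_ea46f5_nt.QM.S2

-- part Pool.Agent.P.MP_ea46f5_nt.QM.FBJ
section

namespace Pool.Agent.QM

open Complex MeasureTheory Finset
open scoped Real ComplexConjugate

lemma bj_err {X Δ g c : ℝ} (hX : 1 ≤ X) (hL : 100 ≤ Real.log X) (h0 : 0 ≤ Δ) (h1 : Δ ≤ Real.log X)
    (hc : 0 ≤ c) (hb : Real.log X ^ 13 ≤ Real.exp (Δ / 4)) (hg : g = X * Real.exp (-2 * Δ)) :
    Real.exp (Δ / 4) * Real.log X ^ 2 * (Real.exp Δ * (c * g * lg g ^ 10) +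
      Real.log X ^ 5 * X * Real.exp (-Δ / 2) + Real.log X ^ 11 * √X) ≤ (1024 * c + 2) * X := by
  set L := Real.log X with hLd
  set E := Real.exp (Δ / 4) with hE
  have X0 : 0 < X := by linarith
  have E0 : 0 < E := Real.exp_pos _
  have E1 : 1 ≤ E := Real.one_le_exp (by linarith)
  have L1 : 1 ≤ L := by linarith
  have e4 : Real.exp Δ = E ^ 4 := by rw [hE, ← Real.exp_nat_mul]; congr 1; push_cast; ring
  have e8 : Real.exp (-2 * Δ) = (E ^ 8)⁻¹ := by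
    rw [hE, ← Real.exp_nat_mul, ← Real.exp_neg]; congr 1; push_cast; ring
  have e2 : Real.exp (-Δ / 2) = (E ^ 2)⁻¹ := by
    rw [hE, ← Real.exp_nat_mul, ← Real.exp_neg]; congr 1; push_cast; ring
  have g0 : 0 ≤ g := by rw [hg]; positivity
  have g1 : g ≤ X := by
    rw [hg]
    exact mul_le_of_le_one_right X0.le (Real.exp_le_one_iff.2 (by linarith))
  have X2 : 2 ≤ X := by linarith [Real.log_le_sub_one_of_pos X0]
  have l0 : 0 ≤ lg g := Real.log_nonneg (by linarith)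
  have l1 : lg g ≤ 2 * L := by
    have : Real.log (2 + g) ≤ Real.log (X ^ 2) := Real.log_le_log (by linarith) (by nlinarith)
    rwa [Real.log_pow] at this
  have s1 : E ^ 2 ≤ √X := by
    refine Real.le_sqrt_of_sq_le ?_
    rw [← pow_mul, ← e4, ← Real.exp_log X0]
    exact Real.exp_le_exp.2 h1
  have p12 : L ^ 12 ≤ E ^ 3 :=
    ((pow_le_pow_right₀ L1 (by norm_num)).trans hb).trans (le_self_pow₀ E1 (by norm_num))
  have p7 : L ^ 7 ≤ E := (pow_le_pow_right₀ L1 (by norm_num)).trans hb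
  have t1 : E * L ^ 2 * (Real.exp Δ * (c * g * lg g ^ 10)) ≤ 1024 * c * X := by
    calc _ ≤ E * L ^ 2 * (Real.exp Δ * (c * g * (2 * L) ^ 10)) := by gcongr
      _ = 1024 * c * X * (L ^ 12 / E ^ 3) := by rw [hg, e4, e8]; field_simp; norm_num
      _ ≤ _ := mul_le_of_le_one_right (by positivity) ((div_le_one (by positivity)).2 p12)
  have t2 : E * L ^ 2 * (L ^ 5 * X * Real.exp (-Δ / 2)) ≤ X := by
    calc _ = X * (L ^ 7 / E) := by rw [e2]; field_simp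
      _ ≤ _ := mul_le_of_le_one_right X0.le ((div_le_one E0).2 p7)
  have t3 : E * L ^ 2 * (L ^ 11 * √X) ≤ X := by
    calc _ = E * L ^ 13 * √X := by ring
      _ ≤ E * E * √X := by gcongr
      _ ≤ √X * √X := by rw [← sq]; gcongr
      _ = X := Real.mul_self_sqrt X0.le
  linarith

theorem pBJ (hTQ : TQ) (hFOUR : FOUR) (hPHI : PHI) (hHRP : HRP) (hLEN : LEN) : BJ := by
  obtain ⟨C₀, B, c, hB, hT⟩ := hTQ
  obtain ⟨A, C4, hC4, hF⟩ := hFOUR
  obtain ⟨CT, hCT, hT⟩ := hT A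
  obtain ⟨CP, hCP, hP⟩ := hPHI C₀
  obtain ⟨CH, hCH, hH⟩ := hHRP
  refine ⟨C₀, B, hB, fun κ Cs k2 k4 => ⟨CT * (CP ^ 2 * (CH + (1024 * C4 + 2) * Real.exp (6 * |Cs|))),
    by positivity, fun X J Bl l lam hX hL sys j i hj hji hi => ?_⟩⟩
  obtain ⟨p1, p2, p3, -⟩ := hP κ _ k2 k4 hL
  set L := Real.log X with hLd
  set Δ := Del κ L j with hΔ
  set σ := sg (PP Bl i J) with hσ
  have X0 : 0 < X := by linarith
  have L0 : 0 < L := by linarith
  have dJ : Del κ L J ≤ Δ := mul_le_mul_of_nonneg_left (Real.exp_le_exp.2 (by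
    have : (j : ℝ) ≤ J := by exact_mod_cast hj
    nlinarith)) L0.le
  have d1 : 1 ≤ Δ := sys.D1.trans dJ
  have dL : Δ ≤ L := mul_le_of_le_one_right L0.le (Real.exp_le_one_iff.2 (by
    have : (0 : ℝ) ≤ j := j.cast_nonneg
    nlinarith))
  have sub : ∀ a ∈ Icc i J, a ∈ Icc 0 J := fun a ha => mem_Icc.2 ⟨Nat.zero_le _, (mem_Icc.1 ha).2⟩
  have blk : Blk (Icc i J) Bl l := ⟨fun a ha => sys.blk.op a (sub a ha),
    fun a ha b hb => sys.blk.disj a (sub a ha) b (sub b hb), fun a ha => sys.blk.ell a (sub a ha),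
    fun a ha => sys.blk.lin a (sub a ha)⟩
  obtain ⟨lm, m0, m1, m2⟩ : ∃ lm : ℝ, 0 ≤ lm ∧ lm ≤ Δ ∧ ∀ p ∈ PP Bl i J, (p : ℝ) ≤ Real.exp lm := by
    rcases le_or_gt i J with h | h
    · refine ⟨lam i, zero_le_one.trans (sys.lam1 i h), sys.lamD i j hji h, fun p hp => ?_⟩
      obtain ⟨a, ha, hp⟩ := mem_biUnion.1 hp
      exact sys.le i a (mem_Icc.1 ha).1 (mem_Icc.1 ha).2 p hp
    · exact ⟨0, le_rfl, by linarith, by simp [PP, Icc_eq_empty_of_lt h]⟩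
  have tw : Tw (PP Bl i J) B (RR (Icc i J) Bl l (-(4 - κ) / 2)) lm
      (CH * Real.exp (((4 - κ) ^ 2 / 2 - 4 * (4 - κ)) * σ)) (Real.exp (Δ / 4)) := by
    refine ⟨fun p hp => ?_, m2, m0, fun x => prod_nonneg fun _ _ => sq_nonneg _, ?_,
      hH _ Bl l (4 - κ) blk (by linarith) (by linarith), by positivity⟩
    · obtain ⟨a, ha, hp⟩ := mem_biUnion.1 hp
      exact blk.op a ha p hp
    · refine hLEN.1 _ _ _ _ _ _ _ (hLEN.2.2.2.1 (Icc i J) Bl l lam _ B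
        (abs_le.2 ⟨by linarith, by linarith⟩) fun a ha => ⟨zero_le_one.trans
          (sys.lam1 a (mem_Icc.1 ha).2), fun p hp => ⟨(blk.op a ha p hp).1,
            sys.le a a le_rfl (mem_Icc.1 ha).2 p hp⟩⟩) Subset.rfl le_rfl
        (Real.exp_le_exp.2 (le_trans ?_ (sys.len1 j hj)))
      refine sum_le_sum_of_subset_of_nonneg (Icc_subset_Icc_left hji) fun a ha _ => ?_
      have := zero_le_one.trans (sys.lam1 a (mem_Icc.1 ha).2)
      positivity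
  obtain ⟨α, V, a1, V0, hN, hV⟩ : ∃ (α : ℕ) (V : ℝ), α ≤ 1 ∧ 0 ≤ V ∧
      NearP (phj (C₀ + 1) (Del κ L) j) (1 / L) lm 0 α C₀ V ∧
      V ^ 2 * L ^ 8 / L ^ (2 * α) = CP ^ 2 * (Δ ^ 4 * L ^ 6) := by
    rcases eq_or_ne j 0 with rfl | h
    · refine ⟨0, CP * L, zero_le_one, by positivity, p2 lm m0 (m1.trans dL), ?_⟩
      simp only [hΔ, Del, Nat.cast_zero, mul_zero, Real.exp_zero]
      ring
    · refine ⟨1, CP * Δ ^ 2, le_rfl, by positivity, p3 j lm h m0 m1, ?_⟩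
      field_simp
  have key := hT _ _ _ _ _ _ X Δ 0 V _ _ α tw hX hL (m1.trans dL) (by linarith) dL a1 V0 (p1 j) hN
    (hF _ (by positivity))
  have er := bj_err hX hL (by linarith) dL hC4.le
    (sys.big.trans (Real.exp_le_exp.2 (by linarith))) rfl
  have s0 : 0 ≤ σ := sum_nonneg fun _ _ => by positivity
  have s1 : σ ≤ Real.log L + |Cs| := by
    rcases le_or_gt i J with h | h
    · have := (abs_le.1 (sys.sig i h)).2
      have : (0 : ℝ) ≤ i := i.cast_nonneg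
      linarith [le_abs_self Cs]
    · have : σ = 0 := by simp [hσ, sg, PP, Icc_eq_empty_of_lt h]
      linarith [abs_nonneg Cs, Real.log_nonneg (show 1 ≤ L by linarith)]
  set G := Real.exp (((4 - κ) ^ 2 / 2 - 4 * (4 - κ)) * σ) with hG
  have g1 : 1 ≤ Real.exp (6 * |Cs|) * (Δ ^ 4 * L ^ 6 * G) := by
    have h1 : 1 ≤ Real.exp (6 * |Cs|) * (L ^ 6 * G) := by
      rw [← Real.exp_log (pow_pos L0 6), hG, ← Real.exp_add, ← Real.exp_add, Real.log_pow]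
      refine Real.one_le_exp ?_
      push_cast
      nlinarith [mul_nonneg s0 (mul_nonneg (show 0 ≤ κ - 2 by linarith) (show 0 ≤ κ + 2 by linarith))]
    have h2 : 1 ≤ Δ ^ 4 := one_le_pow₀ d1
    nlinarith
  refine key.trans ?_
  simp only [br, abs_zero, add_zero, one_pow, mul_one]
  have u1 : X * (CH * G) * V ^ 2 * L ^ 8 / L ^ (2 * α) = CP ^ 2 * (CH * X * (Δ ^ 4 * L ^ 6 * G)) := by
    rw [mul_assoc _ (V ^ 2), mul_div_assoc, hV]
    ring
  have u2 := mul_le_mul_of_nonneg_left (er.trans (le_mul_of_one_le_right (by positivity) g1))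
    (sq_nonneg CP)
  rw [u1]
  refine (mul_le_mul_of_nonneg_left (add_le_add le_rfl (le_trans (le_of_eq ?_) u2)) hCT.le).trans
    (le_of_eq ?_) <;> ring

end Pool.Agent.QM
end

-- part Pool.Agent.P.MP_ea46f5_nt.QM.FCLAa
section

/-!
The real-variable part of the last section: classes, Hoelder, the sums over the block index and over the pieces.
-/

open Real Finset

namespace Pool.Agent.QM

theorem cls_holder2 {ι : Type*} (K : Finset ι) {a b : ℝ} (ha : 0 < a) (hb : 0 < b) (hab : a + b = 1)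
    (f g : ι → ℝ) (hf : ∀ k ∈ K, 0 ≤ f k) (hg : ∀ k ∈ K, 0 ≤ g k) :
    ∑ k ∈ K, f k ^ a * g k ^ b ≤ (∑ k ∈ K, f k) ^ a * (∑ k ∈ K, g k) ^ b := by
  have hpq : (a⁻¹).HolderConjugate (b⁻¹) := Real.HolderConjugate.inv_inv ha hb hab
  have h := Real.inner_le_Lp_mul_Lq_of_nonneg K hpq (f := fun k => f k ^ a) (g := fun k => g k ^ b)
    (fun k hk => rpow_nonneg (hf k hk) _) (fun k hk => rpow_nonneg (hg k hk) _)
  have e1 : ∑ k ∈ K, (f k ^ a) ^ (a⁻¹) = ∑ k ∈ K, f k :=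
    sum_congr rfl fun k hk => rpow_rpow_inv (hf k hk) ha.ne'
  have e2 : ∑ k ∈ K, (g k ^ b) ^ (b⁻¹) = ∑ k ∈ K, g k :=
    sum_congr rfl fun k hk => rpow_rpow_inv (hg k hk) hb.ne'
  simp only [e1, e2, one_div, inv_inv] at h
  exact h

theorem cls_exists_class (good : ℕ → Prop) (j J : ℕ) (hj : j ≤ J + 1) :
    ∃ i, j ≤ i ∧ i ≤ J + 1 ∧ (∀ i' ∈ Icc i J, good i') ∧ (i = j ∨ ¬ good (i - 1)) := by
  classical
  have hex : ∃ i, j ≤ i ∧ i ≤ J + 1 ∧ ∀ i' ∈ Icc i J, good i' :=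
    ⟨J + 1, hj, le_rfl, fun i' hi' => absurd (mem_Icc.1 hi') (by omega)⟩
  refine ⟨Nat.find hex, (Nat.find_spec hex).1, (Nat.find_spec hex).2.1, (Nat.find_spec hex).2.2, ?_⟩
  by_contra hc
  push Not at hc
  obtain ⟨h1, h2⟩ := hc
  have h3 := (Nat.find_spec hex).1
  have h4 := (Nat.find_spec hex).2.1
  have h5 := (Nat.find_spec hex).2.2
  refine Nat.find_min hex (m := Nat.find hex - 1) (by omega) ⟨by omega, by omega, fun i' hi' => ?_⟩
  rw [mem_Icc] at hi'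
  rcases eq_or_ne i' (Nat.find hex - 1) with h | h
  · rw [h]; exact h2
  · exact h5 i' (mem_Icc.2 ⟨by omega, hi'.2⟩)

theorem cls_abs {ι : Type*} (K : Finset ι) {a b c : ℝ} (ha : 0 < a) (hb : 0 < b) (hab : a + b = 1)
    (j J : ℕ) (hj : j ≤ J + 1) (good : ℕ → ι → Prop) (R R' Q : ℕ → ι → ℝ) (B : ι → ℝ)
    (U V : ℕ → ℝ) (hR : ∀ i k, 0 ≤ R i k) (hR' : ∀ i k, 0 ≤ R' i k) (hQ : ∀ i k, 0 ≤ Q i k)
    (hB : ∀ k, 0 ≤ B k)
    (hgood : ∀ i k, (∀ i' ∈ Icc i J, good i' k) → c ≤ R i k ^ a * R' i k ^ b)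
    (hbad : ∀ i k, i ≤ J → ¬ good i k → 1 ≤ Q i k)
    (hU : ∀ i, j ≤ i → i ≤ J + 1 → ∑ k ∈ K, B k ^ 2 * R i k ≤ U i)
    (hV0 : ∑ k ∈ K, R' j k ≤ V j)
    (hV : ∀ i, j ≤ i → i ≤ J → ∑ k ∈ K, R' (i + 1) k * Q i k ≤ V (i + 1)) :
    c * ∑ k ∈ K, B k ^ (2 * a) ≤ ∑ i ∈ Icc j (J + 1), U i ^ a * V i ^ b := by
  classical
  set W : ℕ → ι → ℝ := fun i k => if i = j then R' j k else R' i k * Q (i - 1) k with hW
  have hW0 : ∀ i k, 0 ≤ W i k := fun i k => by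
    simp only [hW]
    split_ifs
    · exact hR' _ _
    · exact mul_nonneg (hR' _ _) (hQ _ _)
  have hpt : ∀ k, c * B k ^ (2 * a) ≤
      ∑ i ∈ Icc j (J + 1), (B k ^ 2 * R i k) ^ a * W i k ^ b := fun k => by
    obtain ⟨i, h1, h2, h3, h4⟩ := cls_exists_class (fun i => good i k) j J hj
    have h5 : R' i k ≤ W i k := by
      simp only [hW]
      split_ifs with h
      · rw [h]
      · rcases h4 with h4 | h4
        · exact absurd h4 h
        · have := hbad (i - 1) k (by omega) h4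
          nlinarith [hR' i k]
    have h6 : c * B k ^ (2 * a) ≤ (B k ^ 2 * R i k) ^ a * W i k ^ b := by
      have e : (B k ^ 2 * R i k) ^ a = B k ^ (2 * a) * R i k ^ a := by
        rw [mul_rpow (sq_nonneg _) (hR i k), rpow_mul (hB k), rpow_two]
      have h7 : R' i k ^ b ≤ W i k ^ b := rpow_le_rpow (hR' i k) h5 hb.le
      have h8 : 0 ≤ B k ^ (2 * a) := rpow_nonneg (hB k) _
      have h9 : 0 ≤ R i k ^ a := rpow_nonneg (hR i k) _
      calc c * B k ^ (2 * a) ≤ (R i k ^ a * R' i k ^ b) * B k ^ (2 * a) :=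
            mul_le_mul_of_nonneg_right (hgood i k h3) h8
        _ ≤ (R i k ^ a * W i k ^ b) * B k ^ (2 * a) := by gcongr
        _ = _ := by rw [e]; ring
    refine h6.trans ?_
    exact single_le_sum (f := fun i => (B k ^ 2 * R i k) ^ a * W i k ^ b)
      (fun i _ => mul_nonneg (rpow_nonneg (mul_nonneg (sq_nonneg _) (hR i k)) _)
        (rpow_nonneg (hW0 i k) _)) (mem_Icc.2 ⟨h1, h2⟩)
  rw [mul_sum]
  refine (sum_le_sum fun k _ => hpt k).trans ?_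
  rw [sum_comm]
  refine sum_le_sum fun i hi => ?_
  rw [mem_Icc] at hi
  refine (cls_holder2 K ha hb hab (fun k => B k ^ 2 * R i k) (fun k => W i k)
    (fun k _ => mul_nonneg (sq_nonneg _) (hR i k)) (fun k _ => hW0 i k)).trans ?_
  have h1 : ∑ k ∈ K, W i k ≤ V i := by
    simp only [hW]
    split_ifs with h
    · rw [h]; exact hV0
    · obtain ⟨i', rfl⟩ : ∃ i', i = i' + 1 := ⟨i - 1, by omega⟩
      simpa using hV i' (by omega) (by omega)
  have h2 : 0 ≤ ∑ k ∈ K, B k ^ 2 * R i k :=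
    sum_nonneg fun k _ => mul_nonneg (sq_nonneg _) (hR i k)
  have h3 : 0 ≤ ∑ k ∈ K, W i k := sum_nonneg fun k _ => hW0 i k
  exact mul_le_mul (rpow_le_rpow h2 (hU i hi.1 hi.2) ha.le) (rpow_le_rpow h3 h1 hb.le)
    (rpow_nonneg h3 _) (rpow_nonneg (h2.trans (hU i hi.1 hi.2)) _)

theorem cls_te_sq_lower (hTE : TE) (l : ℕ) (hl1 : 1 ≤ l) {x : ℝ} (hx : |x| ≤ l / 8) :
    (1 - (1 / 2 : ℝ) ^ l) ^ 2 * exp (2 * x) ≤ Et l x ^ 2 := by
  have h := hTE.1 l x hl1 hx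
  have e0 : exp x / 2 ^ l = (1 / 2 : ℝ) ^ l * exp x := by
    rw [one_div, inv_pow]; ring
  rw [e0] at h
  have h0 : (0 : ℝ) ≤ 1 - (1 / 2 : ℝ) ^ l := by
    have : (1 / 2 : ℝ) ^ l ≤ 1 := pow_le_one₀ (by norm_num) (by norm_num)
    linarith
  have h1 : (1 - (1 / 2 : ℝ) ^ l) * exp x ≤ Et l x := by
    have := (abs_le.1 h).1
    linarith
  have h2 : 0 ≤ (1 - (1 / 2 : ℝ) ^ l) * exp x := mul_nonneg h0 (exp_pos x).le
  calc (1 - (1 / 2 : ℝ) ^ l) ^ 2 * exp (2 * x) = ((1 - (1 / 2 : ℝ) ^ l) * exp x) ^ 2 := by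
        rw [mul_pow, two_mul, exp_add]; ring
    _ ≤ Et l x ^ 2 := pow_le_pow_left₀ h2 h1 2

theorem cls_te_block (hTE : TE) {κ : ℝ} (h2 : 2 < κ) (h4 : κ < 4) (l : ℕ) (hl1 : 1 ≤ l) {P : ℝ} (hP : |P| ≤ l / 40) :
    (1 - (1 / 2 : ℝ) ^ l) ^ 2 ≤
      (Et l (-(4 - κ) * P / 2) ^ 2) ^ (κ / 4) * (Et l (κ * P / 2) ^ 2) ^ ((4 - κ) / 4) := by
  have hl : (0 : ℝ) ≤ l := Nat.cast_nonneg l
  have hP0 := abs_nonneg P
  have h1 : |(-(4 - κ) * P / 2)| ≤ l / 8 := by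
    rw [abs_div, abs_mul, abs_neg, abs_of_pos (by linarith : 0 < 4 - κ), abs_two]
    nlinarith
  have h3 : |κ * P / 2| ≤ l / 8 := by
    rw [abs_div, abs_mul, abs_of_pos (by linarith : 0 < κ), abs_two]
    nlinarith
  set u : ℝ := (1 - (1 / 2 : ℝ) ^ l) ^ 2 with hu
  have hu0 : 0 ≤ u := sq_nonneg _
  have h5 := rpow_le_rpow (mul_nonneg hu0 (exp_pos _).le) (cls_te_sq_lower hTE l hl1 h1)
    (by linarith : 0 ≤ κ / 4)
  have h6 := rpow_le_rpow (mul_nonneg hu0 (exp_pos _).le) (cls_te_sq_lower hTE l hl1 h3)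
    (by linarith : 0 ≤ (4 - κ) / 4)
  refine le_trans (le_of_eq ?_) (mul_le_mul h5 h6 (rpow_nonneg (mul_nonneg hu0 (exp_pos _).le) _)
    (rpow_nonneg (sq_nonneg _) _))
  rw [mul_rpow hu0 (exp_pos _).le, mul_rpow hu0 (exp_pos _).le, ← exp_mul, ← exp_mul]
  have e1 : u ^ (κ / 4) * u ^ ((4 - κ) / 4) = u := by
    rw [← rpow_add' hu0 (by linarith)]
    have : κ / 4 + (4 - κ) / 4 = 1 := by ring
    rw [this, rpow_one]
  have e2 : exp (2 * (-(4 - κ) * P / 2) * (κ / 4)) * exp (2 * (κ * P / 2) * ((4 - κ) / 4)) = 1 := by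
    rw [← exp_add, ← exp_zero]
    congr 1
    ring
  calc u = (u ^ (κ / 4) * u ^ ((4 - κ) / 4)) *
      (exp (2 * (-(4 - κ) * P / 2) * (κ / 4)) * exp (2 * (κ * P / 2) * ((4 - κ) / 4))) := by
        rw [e1, e2, mul_one]
    _ = _ := by ring

theorem cls_one_sub_sum_le_prod (s : Finset ℕ) (u : ℕ → ℝ) (h0 : ∀ i, 0 ≤ u i) (h1 : ∀ i, u i ≤ 1) :
    1 - ∑ i ∈ s, u i ≤ ∏ i ∈ s, (1 - u i) := by
  induction s using Finset.induction_on with
  | empty => simp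
  | insert a s ha ih =>
    rw [sum_insert ha, prod_insert ha]
    have h2 : 0 ≤ ∑ i ∈ s, u i := sum_nonneg fun i _ => h0 i
    nlinarith [h0 a, h1 a, mul_le_mul_of_nonneg_left ih (sub_nonneg.2 (h1 a))]

theorem cls_sum_half_pow_le (l : ℕ → ℕ) (i J : ℕ) (hl : ∀ i' ≤ J, 12 * (i' + 1) ≤ l i') :
    ∑ i' ∈ Icc i J, (1 / 2 : ℝ) ^ l i' ≤ 1 / 2 := by
  have h1 : ∑ i' ∈ Icc i J, (1 / 2 : ℝ) ^ l i' ≤ ∑ i' ∈ Icc i J, (1 / 4) * (1 / 2 : ℝ) ^ i' := by
    refine sum_le_sum fun i' hi' => ?_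
    have := hl i' (mem_Icc.1 hi').2
    calc (1 / 2 : ℝ) ^ l i' ≤ (1 / 2 : ℝ) ^ (i' + 2) :=
          pow_le_pow_of_le_one (by norm_num) (by norm_num) (by omega)
      _ = _ := by rw [pow_add]; ring
  have h2 : ∑ i' ∈ Icc i J, (1 / 2 : ℝ) ^ i' ≤ ∑ i' ∈ range (J + 1), (1 / 2 : ℝ) ^ i' :=
    sum_le_sum_of_subset_of_nonneg (fun x hx => by
      rw [mem_Icc] at hx; rw [mem_range]; omega) fun _ _ _ => by positivity
  have h3 := sum_geometric_two_le (J + 1)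
  rw [← mul_sum] at h1
  linarith

theorem cls_te (hTE : TE) {ι : Type*} (K : Finset ι) {κ : ℝ} (h2 : 2 < κ) (h4 : κ < 4)
    (j J : ℕ) (hj : j ≤ J + 1) (l : ℕ → ℕ) (hl : ∀ i ≤ J, 12 * (i + 1) ≤ l i)
    (P : ℕ → ι → ℝ) (B : ι → ℝ) (hB : ∀ k, 0 ≤ B k) (U V : ℕ → ℝ)
    (hU : ∀ i, j ≤ i → i ≤ J + 1 → ∑ k ∈ K, B k ^ 2 *
      ∏ i' ∈ Icc i J, Et (l i') (-(4 - κ) * P i' k / 2) ^ 2 ≤ U i)
    (hV0 : ∑ k ∈ K, ∏ i' ∈ Icc j J, Et (l i') (κ * P i' k / 2) ^ 2 ≤ V j)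
    (hV : ∀ i, j ≤ i → i ≤ J → ∑ k ∈ K, (∏ i' ∈ Icc (i + 1) J, Et (l i') (κ * P i' k / 2) ^ 2) *
      (40 * P i k / l i) ^ (2 * l i) ≤ V (i + 1)) :
    ∑ k ∈ K, B k ^ (κ / 2) ≤ 4 * ∑ i ∈ Icc j (J + 1), U i ^ (κ / 4) * V i ^ ((4 - κ) / 4) := by
  have h := cls_abs K (a := κ / 4) (b := (4 - κ) / 4) (c := 1 / 4) (by linarith) (by linarith)
    (by ring) j J hj (fun i k => |P i k| ≤ l i / 40)
    (fun i k => ∏ i' ∈ Icc i J, Et (l i') (-(4 - κ) * P i' k / 2) ^ 2)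
    (fun i k => ∏ i' ∈ Icc i J, Et (l i') (κ * P i' k / 2) ^ 2)
    (fun i k => (40 * P i k / l i) ^ (2 * l i)) B U V
    (fun i k => prod_nonneg fun _ _ => sq_nonneg _) (fun i k => prod_nonneg fun _ _ => sq_nonneg _)
    (fun i k => (even_two_mul _).pow_nonneg _) hB ?_ ?_ hU hV0 hV
  · have e : 2 * (κ / 4) = κ / 2 := by ring
    rw [e] at h
    linarith
  · intro i k hg
    rw [← Real.finsetProd_rpow _ _ (fun _ _ => sq_nonneg _),
      ← Real.finsetProd_rpow _ _ (fun _ _ => sq_nonneg _), ← prod_mul_distrib]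
    have h1 := cls_one_sub_sum_le_prod (Icc i J) (fun i' => (1 / 2 : ℝ) ^ l i')
      (fun _ => by positivity) (fun _ => pow_le_one₀ (by norm_num) (by norm_num))
    have h3 := cls_sum_half_pow_le l i J hl
    calc (1 / 4 : ℝ) = (1 / 2) ^ 2 := by norm_num
      _ ≤ (∏ i' ∈ Icc i J, (1 - (1 / 2 : ℝ) ^ l i')) ^ 2 :=
          pow_le_pow_left₀ (by norm_num) (by linarith) 2
      _ = ∏ i' ∈ Icc i J, (1 - (1 / 2 : ℝ) ^ l i') ^ 2 := by rw [prod_pow]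
      _ ≤ _ := prod_le_prod (fun _ _ => sq_nonneg _) fun i' hi' =>
          cls_te_block hTE h2 h4 _ (by have := hl i' (mem_Icc.1 hi').2; omega) (hg i' hi')
  · intro i k hi hb
    have h1 : (0 : ℝ) < l i := by
      have := hl i hi
      exact_mod_cast (by omega : 0 < l i)
    rw [← (even_two_mul (l i)).pow_abs]
    refine one_le_pow₀ ?_
    rw [abs_div, abs_mul, Nat.abs_cast, le_div_iff₀ h1, abs_of_pos (by norm_num : (0 : ℝ) < 40)]
    have := not_le.1 hb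
    linarith

theorem cls_sum_exp_neg_le {γ : ℝ} (hγ : 0 < γ) (s : Finset ℕ) :
    ∑ i ∈ s, exp (-(γ * i)) ≤ 1 + 1 / γ := by
  have hr : exp (-γ) < 1 := by
    rw [← exp_zero]; exact exp_lt_exp.2 (by linarith)
  have hr0 := exp_pos (-γ)
  have h1 : ∑ i ∈ s, exp (-(γ * i)) = ∑ i ∈ s, exp (-γ) ^ i := by
    refine sum_congr rfl fun i _ => ?_
    rw [← exp_nat_mul]; congr 1; ring
  have h2 := (summable_geometric_of_lt_one hr0.le hr).sum_le_tsum s fun i _ => by positivity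
  rw [tsum_geometric_of_lt_one hr0.le hr] at h2
  rw [h1]
  refine h2.trans ?_
  have h3 : exp (-γ) * (1 + γ) ≤ 1 := by
    have := add_one_le_exp γ
    have h4 : exp (-γ) * exp γ = 1 := by rw [← exp_add]; simp
    nlinarith
  rw [inv_le_iff_one_le_mul₀ (by linarith)]
  have h5 : (1 + 1 / γ) * (1 - exp (-γ)) = (1 + γ - exp (-γ) * (1 + γ)) / γ := by
    field_simp
    ring
  rw [h5, le_div_iff₀ hγ]
  linarith

/-- The sum over the class index. -/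
theorem cls_class_sum {κ : ℝ} (h2 : 2 < κ) (h4 : κ < 4) {C0 A A' M : ℝ} (hA : 0 ≤ A) (hA' : 0 ≤ A')
    (hC : 0 ≤ C0) (j J : ℕ) (hj : j ≤ J) (l : ℕ → ℕ) (hl : ∀ i ≤ J, 12 * (i + 1) ≤ l i)
    (σ : ℕ → ℝ) (hσ : ∀ i ≤ J, |σ i - (M - i)| ≤ C0) (hσJ : σ (J + 1) = 0)
    (hlJ : 8 * (M + C0) ≤ l J) :
    ∑ i ∈ Icc j (J + 1), (A * exp (((4 - κ) ^ 2 / 2 - 4 * (4 - κ)) * σ i)) ^ (κ / 4) *
        (A' * exp (κ ^ 2 * σ i / 2) * (if i = j then 1 else exp (-(l (i - 1) : ℝ)))) ^ ((4 - κ) / 4) ≤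
      (2 + exp (8 * C0) * (1 + 1 / (4 - κ))) *
        (A ^ (κ / 4) * A' ^ ((4 - κ) / 4) * exp (-(κ * (4 - κ) / 2 * σ j))) := by
  set β := 4 - κ with hβ
  have hβ0 : 0 < β := by linarith
  have hβ2 : β < 2 := by linarith
  set T := A ^ (κ / 4) * A' ^ (β / 4) with hT
  have hT0 : 0 ≤ T := mul_nonneg (rpow_nonneg hA _) (rpow_nonneg hA' _)
  have hterm : ∀ (s x : ℝ), (A * exp ((β ^ 2 / 2 - 4 * β) * s)) ^ (κ / 4) *
      (A' * exp (κ ^ 2 * s / 2) * exp x) ^ (β / 4) = T * exp (-(κ * β / 2 * s) + β / 4 * x) := by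
    intro s x
    rw [mul_rpow hA (exp_pos _).le, mul_assoc A', ← exp_add, mul_rpow hA' (exp_pos _).le,
      ← exp_mul, ← exp_mul]
    have e : -(κ * β / 2 * s) + β / 4 * x =
        (β ^ 2 / 2 - 4 * β) * s * (κ / 4) + (κ ^ 2 * s / 2 + x) * (β / 4) := by
      rw [hβ]; ring
    rw [e, exp_add, hT]
    ring
  set E := exp (-(κ * β / 2 * σ j)) with hE
  have hE0 : 0 < E := exp_pos _
  have hbd : ∀ i ∈ Icc j (J + 1), (A * exp ((β ^ 2 / 2 - 4 * β) * σ i)) ^ (κ / 4) *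
      (A' * exp (κ ^ 2 * σ i / 2) * (if i = j then 1 else exp (-(l (i - 1) : ℝ)))) ^ (β / 4) ≤
      T * E * ((if i = j then 1 else 0) + (if i = J + 1 then 1 else 0) +
        exp (8 * C0) * exp (-(β * i))) := by
    intro i hi
    rw [mem_Icc] at hi
    have hpos : 0 ≤ exp (8 * C0) * exp (-(β * i)) := by positivity
    by_cases h1 : i = j
    · subst h1
      rw [if_pos rfl, if_pos rfl, if_neg (by omega), ← exp_zero, hterm, exp_zero]
      simp only [mul_zero, add_zero]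
      exact le_mul_of_one_le_right (by positivity) (by linarith)
    · rw [if_neg h1, if_neg h1, hterm, mul_assoc T E]
      refine mul_le_mul_of_nonneg_left ?_ hT0
      by_cases h3 : i = J + 1
      · subst h3
        rw [if_pos rfl, hσJ]
        have h5 := (abs_le.1 (hσ j hj)).2
        have h6 : (0 : ℝ) ≤ j := Nat.cast_nonneg j
        have h7 : (0 : ℝ) ≤ l J := Nat.cast_nonneg _
        have h8 : exp (-(κ * β / 2 * 0) + β / 4 * -(l (J + 1 - 1) : ℝ)) ≤ E := by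
          refine exp_le_exp.2 ?_
          rw [Nat.add_sub_cancel]
          have h9 : κ * σ j ≤ (l J : ℝ) / 2 := by
            rcases le_total (σ j) 0 with h | h
            · nlinarith
            · nlinarith
          nlinarith [mul_le_mul_of_nonneg_left h9 hβ0.le]
        refine h8.trans (le_mul_of_one_le_right hE0.le (by linarith))
      · rw [if_neg h3, zero_add, zero_add, hE, ← exp_add, ← exp_add]
        refine exp_le_exp.2 ?_
        have hiJ : i ≤ J := by omega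
        have h5 := (abs_le.1 (hσ j hj)).2
        have h6 := (abs_le.1 (hσ i hiJ)).1
        have h7 : (12 : ℝ) * i ≤ l (i - 1) := by
          have := hl (i - 1) (by omega)
          have h8 : 12 * i ≤ l (i - 1) := by omega
          exact_mod_cast h8
        have h8 : (0 : ℝ) ≤ j := Nat.cast_nonneg j
        have h8' : (0 : ℝ) ≤ i := Nat.cast_nonneg i
        have h9 : σ j - σ i ≤ i + 2 * C0 := by linarith
        have h10 : κ * (σ j - σ i) ≤ 4 * (i + 2 * C0) := by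
          rcases le_total (σ j - σ i) 0 with h | h
          · nlinarith
          · nlinarith
        nlinarith [mul_le_mul_of_nonneg_left h10 hβ0.le, mul_le_mul_of_nonneg_left h7 hβ0.le,
          mul_le_mul_of_nonneg_right hβ2.le hC]
  refine (sum_le_sum hbd).trans ?_
  rw [← mul_sum, mul_comm]
  refine mul_le_mul_of_nonneg_right ?_ (by positivity)
  rw [sum_add_distrib, sum_add_distrib, ← mul_sum, sum_ite_eq', sum_ite_eq']
  have h5 := mul_le_mul_of_nonneg_left (cls_sum_exp_neg_le hβ0 (Icc j (J + 1))) (exp_pos (8 * C0)).le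
  split_ifs <;> linarith

/-- A substitute for the Minkowski inequality over geometrically decaying pieces. -/
theorem cls_sum_pieces {ι : Type*} (K : Finset ι) {p γ M : ℝ} (hp : 0 < p) (hγ : 0 < γ) (hM : 0 ≤ M)
    (s : Finset ℕ) (B : ℕ → ι → ℝ) (hB : ∀ j k, 0 ≤ B j k)
    (h : ∀ j ∈ s, ∑ k ∈ K, B j k ^ p ≤ M * exp (-(γ * j))) :
    ∑ k ∈ K, (∑ j ∈ s, B j k) ^ p ≤ (1 + 2 * p / γ) ^ p * (1 + 2 / γ) * M := by
  set δ := γ / (2 * p) with hδ
  have hδ0 : 0 < δ := by positivity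
  set W := 1 + 2 * p / γ with hW
  have hW0 : 0 < W := by positivity
  have hWs : ∑ j ∈ s, exp (-(δ * j)) ≤ W := by
    have := cls_sum_exp_neg_le hδ0 s
    rwa [hδ, one_div_div] at this
  have hpt : ∀ k, (∑ j ∈ s, B j k) ^ p ≤ W ^ p * ∑ j ∈ s, exp (γ / 2 * j) * B j k ^ p := by
    intro k
    have hS0 : 0 ≤ ∑ j ∈ s, B j k := sum_nonneg fun j _ => hB j k
    have hnn : ∀ j ∈ s, 0 ≤ exp (γ / 2 * j) * B j k ^ p := fun j _ =>
      mul_nonneg (exp_pos _).le (rpow_nonneg (hB j k) _)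
    rcases s.eq_empty_or_nonempty with rfl | hs
    · simp [zero_rpow hp.ne']
    have h1 : ∑ j ∈ s, (∑ j ∈ s, B j k) * exp (-(δ * j)) ≤ ∑ j ∈ s, W * B j k := by
      rw [← mul_sum, ← mul_sum, mul_comm W]
      exact mul_le_mul_of_nonneg_left hWs hS0
    obtain ⟨j, hj, h2⟩ := exists_le_of_sum_le hs h1
    have h3 : ∑ j ∈ s, B j k ≤ W * (exp (δ * j) * B j k) := by
      have h4 : exp (-(δ * j)) * exp (δ * j) = 1 := by rw [← exp_add]; simp
      calc ∑ j ∈ s, B j k = (∑ j ∈ s, B j k) * exp (-(δ * j)) * exp (δ * j) := by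
            rw [mul_assoc, h4, mul_one]
        _ ≤ W * B j k * exp (δ * j) := mul_le_mul_of_nonneg_right h2 (exp_pos _).le
        _ = _ := by ring
    refine (rpow_le_rpow hS0 h3 hp.le).trans ?_
    rw [mul_rpow hW0.le (mul_nonneg (exp_pos _).le (hB j k)), mul_rpow (exp_pos _).le (hB j k),
      ← exp_mul]
    refine mul_le_mul_of_nonneg_left ?_ (rpow_nonneg hW0.le _)
    have e : δ * j * p = γ / 2 * j := by rw [hδ]; field_simp
    rw [e]
    exact single_le_sum (f := fun j : ℕ => exp (γ / 2 * j) * B j k ^ p) hnn hj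
  refine (sum_le_sum fun k _ => hpt k).trans ?_
  rw [← mul_sum, sum_comm, mul_assoc]
  refine mul_le_mul_of_nonneg_left ?_ (rpow_nonneg hW0.le _)
  have h1 : ∑ j ∈ s, ∑ k ∈ K, exp (γ / 2 * j) * B j k ^ p ≤ ∑ j ∈ s, exp (-(γ / 2 * j)) * M := by
    refine sum_le_sum fun j hj => ?_
    rw [← mul_sum]
    refine (mul_le_mul_of_nonneg_left (h j hj) (exp_pos _).le).trans (le_of_eq ?_)
    rw [mul_comm M, ← mul_assoc, ← exp_add]
    congr 2
    ring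
  refine h1.trans ?_
  rw [← sum_mul]
  refine mul_le_mul_of_nonneg_right ?_ hM
  have := cls_sum_exp_neg_le (γ := γ / 2) (by positivity) s
  rwa [one_div_div] at this

/-- The last step: each value is controlled by the pieces or by the full-length remainder. -/
theorem cls_end_split {ι : Type*} (K : Finset ι) {κ : ℝ} (h2 : 2 < κ) (h4 : κ < 4)
    (y S F : ι → ℝ) (hy : ∀ k, 0 ≤ y k) (hS : ∀ k, 0 ≤ S k)
    (h : ∀ k ∈ K, 2 * y k ^ 2 ≤ S k + F k) :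
    ∑ k ∈ K, y k ^ κ ≤ ∑ k ∈ K, S k ^ (κ / 2) +
      (∑ k ∈ K, y k ^ 2) ^ ((4 - κ) / 2) * (∑ k ∈ K, F k ^ 2) ^ ((κ - 2) / 2) := by
  have h1 := cls_holder2 K (a := (4 - κ) / 2) (b := (κ - 2) / 2) (by linarith) (by linarith) (by ring)
    (fun k => y k ^ 2) (fun k => F k ^ 2) (fun _ _ => sq_nonneg _) (fun _ _ => sq_nonneg _)
  refine le_trans ?_ (add_le_add le_rfl h1)
  rw [← sum_add_distrib]
  refine sum_le_sum fun k hk => ?_
  have e : y k ^ κ = (y k ^ 2) ^ (κ / 2) := by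
    rw [← rpow_two, ← rpow_mul (hy k)]; congr 1; ring
  have hq : 0 ≤ y k ^ 2 := sq_nonneg _
  have h3 : 0 ≤ S k ^ (κ / 2) := rpow_nonneg (hS k) _
  have h5 : 0 ≤ (y k ^ 2) ^ ((4 - κ) / 2) * (F k ^ 2) ^ ((κ - 2) / 2) :=
    mul_nonneg (rpow_nonneg hq _) (rpow_nonneg (sq_nonneg _) _)
  rw [e]
  rcases le_total (y k ^ 2) (S k) with h6 | h6
  · have := rpow_le_rpow hq h6 (by linarith : 0 ≤ κ / 2)
    linarith
  · have h7 : y k ^ 2 ≤ F k := by linarith [h k hk]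
    have h8 : (y k ^ 2) ^ (κ / 2) = (y k ^ 2) ^ ((4 - κ) / 2) * ((y k ^ 2) ^ 2) ^ ((κ - 2) / 2) := by
      rw [← rpow_two (y k ^ 2), ← rpow_mul hq, ← rpow_add' hq (by linarith)]
      congr 1; ring
    have h9 : ((y k ^ 2) ^ 2) ^ ((κ - 2) / 2) ≤ (F k ^ 2) ^ ((κ - 2) / 2) :=
      rpow_le_rpow (sq_nonneg _) (pow_le_pow_left₀ hq h7 2) (by linarith)
    have h10 := mul_le_mul_of_nonneg_left h9 (rpow_nonneg hq ((4 - κ) / 2))
    linarith

/-- The bound for one piece. -/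
theorem cls_piece_bound {κ : ℝ} (h2 : 2 < κ) (h4 : κ < 4) {η C0 Cs X L D : ℝ}
    (hC : 0 ≤ C0) (hCs : 0 ≤ Cs) (hX : 0 ≤ X) (hL : 0 < L) (j J : ℕ) (hj : j ≤ J) (hD0 : 0 ≤ D)
    (hD : D ≤ L * exp (-((1 - η) * j))) (l : ℕ → ℕ) (hl : ∀ i ≤ J, 12 * (i + 1) ≤ l i)
    (σ : ℕ → ℝ) (hσ : ∀ i ≤ J, |σ i - (log L - i)| ≤ Cs) (hσJ : σ (J + 1) = 0)
    (hlJ : 8 * (log L + Cs) ≤ l J) :
    ∑ i ∈ Icc j (J + 1),
      (C0 * X * D ^ 4 * L ^ 6 * exp (((4 - κ) ^ 2 / 2 - 4 * (4 - κ)) * σ i)) ^ (κ / 4) *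
        (C0 * X * exp (κ ^ 2 * σ i / 2) * (if i = j then 1 else exp (-(l (i - 1) : ℝ)))) ^
          ((4 - κ) / 4) ≤
      (2 + exp (8 * Cs) * (1 + 1 / (4 - κ))) * exp (4 * Cs) * C0 * X *
        L ^ (κ * (κ + 1) / 2) * exp (-(κ * ((κ - 2) / 2 - η) * j)) := by
  have hCX : 0 ≤ C0 * X := mul_nonneg hC hX
  have h3 := cls_class_sum h2 h4 (A := C0 * X * D ^ 4 * L ^ 6) (A' := C0 * X) (M := log L)
    (by positivity) hCX hCs j J hj l hl σ hσ hσJ hlJ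
  set c1 := 2 + exp (8 * Cs) * (1 + 1 / (4 - κ)) with hc1
  have hβ : 0 < 4 - κ := by linarith
  have hc0 : 0 ≤ c1 := by positivity
  have h5 : (C0 * X * D ^ 4 * L ^ 6) ^ (κ / 4) * (C0 * X) ^ ((4 - κ) / 4) *
      exp (-(κ * (4 - κ) / 2 * σ j)) ≤
      exp (4 * Cs) * C0 * X * L ^ (κ * (κ + 1) / 2) * exp (-(κ * ((κ - 2) / 2 - η) * j)) := by
    have e1 : D ^ 4 * L ^ 6 ≤ exp (10 * log L - 4 * ((1 - η) * j)) := by
      have h6 : D ^ 4 ≤ (L * exp (-((1 - η) * j))) ^ 4 := pow_le_pow_left₀ hD0 hD 4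
      have h7 : (L * exp (-((1 - η) * j))) ^ 4 * L ^ 6 = exp (10 * log L - 4 * ((1 - η) * j)) := by
        have h8 : exp (10 * log L) = L ^ 10 := by
          rw [show (10 : ℝ) * log L = (10 : ℕ) * log L by norm_num, exp_nat_mul, exp_log hL]
        have h9 : exp (-(4 * ((1 - η) * j))) = exp (-((1 - η) * j)) ^ 4 := by
          rw [← exp_nat_mul]; congr 1; push_cast; ring
        rw [sub_eq_add_neg (10 * log L), exp_add, h8, h9]
        ring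
      rw [← h7]
      gcongr
    have e2 : (C0 * X * D ^ 4 * L ^ 6) ^ (κ / 4) ≤
        (C0 * X) ^ (κ / 4) * exp ((10 * log L - 4 * ((1 - η) * j)) * (κ / 4)) := by
      rw [mul_assoc (C0 * X), mul_rpow hCX (by positivity), exp_mul]
      exact mul_le_mul_of_nonneg_left (rpow_le_rpow (by positivity) e1 (by linarith))
        (rpow_nonneg hCX _)
    have e3 : (C0 * X) ^ (κ / 4) * (C0 * X) ^ ((4 - κ) / 4) = C0 * X := by
      rw [← rpow_add' hCX (by linarith)]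
      have : κ / 4 + (4 - κ) / 4 = 1 := by ring
      rw [this, rpow_one]
    have e4 : exp ((10 * log L - 4 * ((1 - η) * j)) * (κ / 4)) * exp (-(κ * (4 - κ) / 2 * σ j)) ≤
        exp (4 * Cs) * L ^ (κ * (κ + 1) / 2) * exp (-(κ * ((κ - 2) / 2 - η) * j)) := by
      rw [rpow_def_of_pos hL, ← exp_add, ← exp_add, ← exp_add]
      refine exp_le_exp.2 ?_
      have h6 := (abs_le.1 (hσ j hj)).1
      have h7 : 0 ≤ κ * (4 - κ) / 2 := by positivity
      have h8 : κ * (4 - κ) / 2 ≤ 4 := by nlinarith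
      have h9 := mul_le_mul_of_nonneg_left h6 h7
      have h10 := mul_le_mul_of_nonneg_right h8 hCs
      nlinarith
    have h6 : 0 ≤ (C0 * X) ^ ((4 - κ) / 4) := rpow_nonneg hCX _
    calc _ ≤ (C0 * X) ^ (κ / 4) * exp ((10 * log L - 4 * ((1 - η) * j)) * (κ / 4)) *
          (C0 * X) ^ ((4 - κ) / 4) * exp (-(κ * (4 - κ) / 2 * σ j)) := by gcongr
      _ = ((C0 * X) ^ (κ / 4) * (C0 * X) ^ ((4 - κ) / 4)) *
          (exp ((10 * log L - 4 * ((1 - η) * j)) * (κ / 4)) * exp (-(κ * (4 - κ) / 2 * σ j))) := by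
          ring
      _ ≤ (C0 * X) * (exp (4 * Cs) * L ^ (κ * (κ + 1) / 2) *
          exp (-(κ * ((κ - 2) / 2 - η) * j))) := by
          rw [e3]; exact mul_le_mul_of_nonneg_left e4 hCX
      _ = _ := by ring
  calc _ ≤ c1 * (exp (4 * Cs) * C0 * X * L ^ (κ * (κ + 1) / 2) *
        exp (-(κ * ((κ - 2) / 2 - η) * j))) := h3.trans (mul_le_mul_of_nonneg_left h5 hc0)
    _ = _ := by ring

/-- The bound for the values controlled by the full-length remainder. -/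
theorem cls_rest_bound {κ : ℝ} (h2 : 2 < κ) (h4 : κ < 4) {C0 X L D a b : ℝ} (hC : 0 ≤ C0) (hX : 0 ≤ X)
    (hL : 1 ≤ L) (hD0 : 0 ≤ D) (hD : D ≤ C0 * L ^ ((κ - 2) / 16)) (ha0 : 0 ≤ a) (hb0 : 0 ≤ b)
    (ha : a ≤ C0 * X * L ^ (3 + ((κ - 2) / 2) ^ 2))
    (hb : b ≤ C0 * X * D ^ 4 * L ^ 8 * log L) :
    a ^ ((4 - κ) / 2) * b ^ ((κ - 2) / 2) ≤
      (C0 ^ 4 * (4 / (κ - 2))) ^ ((κ - 2) / 2) * C0 * X * L ^ (κ * (κ + 1) / 2) := by
  set φ := (κ - 2) / 2 with hφ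
  have hφ0 : 0 < φ := by rw [hφ]; linarith
  have hφ1 : φ < 1 := by rw [hφ]; linarith
  have hL0 : 0 < L := by linarith
  have hCX : 0 ≤ C0 * X := mul_nonneg hC hX
  have hlog := log_nonneg hL
  have e0 : (4 - κ) / 2 = 1 - φ := by rw [hφ]; ring
  have e1 : 4 / (κ - 2) = 2 / φ := by
    have : κ - 2 ≠ 0 := by linarith
    rw [hφ]; field_simp; norm_num
  have e2 : κ * (κ + 1) / 2 = 3 + 5 * φ + 2 * φ ^ 2 := by rw [hφ]; ring
  have e3 : (κ - 2) / 16 = φ / 8 := by rw [hφ]; ring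
  rw [e0, e1, e2]
  rw [e3] at hD
  have h5 : log L ≤ L ^ (φ / 2) / (φ / 2) := log_le_rpow_div hL0.le (by positivity)
  have h6 : D ^ 4 ≤ C0 ^ 4 * L ^ (φ / 2) := by
    refine (pow_le_pow_left₀ hD0 hD 4).trans (le_of_eq ?_)
    rw [mul_pow, ← rpow_natCast (L ^ (φ / 8)), ← rpow_mul hL0.le]
    congr 2
    push_cast; ring
  have h7 : b ≤ C0 * X * ((C0 ^ 4 * (2 / φ)) * L ^ (8 + φ)) := by
    refine hb.trans ?_
    have h8 : L ^ (8 + φ) = L ^ (φ / 2) * L ^ 8 * L ^ (φ / 2) := by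
      rw [← rpow_natCast L 8, ← rpow_add hL0, ← rpow_add hL0]
      congr 1
      push_cast; ring
    calc C0 * X * D ^ 4 * L ^ 8 * log L
        ≤ C0 * X * (C0 ^ 4 * L ^ (φ / 2)) * L ^ 8 * (L ^ (φ / 2) / (φ / 2)) := by gcongr
      _ = _ := by rw [h8]; field_simp
  have h9 := rpow_le_rpow ha0 ha (by linarith : 0 ≤ 1 - φ)
  have h10 := rpow_le_rpow hb0 h7 hφ0.le
  have hq : 0 ≤ C0 ^ 4 * (2 / φ) := by positivity
  refine (mul_le_mul h9 h10 (rpow_nonneg hb0 _) (rpow_nonneg (by positivity) _)).trans ?_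
  rw [mul_rpow hCX (by positivity), mul_rpow hCX (by positivity), mul_rpow hq (by positivity),
    ← rpow_mul hL0.le, ← rpow_mul hL0.le]
  have e4 : (C0 * X) ^ (1 - φ) * (C0 * X) ^ φ = C0 * X := by
    rw [← rpow_add' hCX (by linarith)]
    simp
  have e5 : L ^ ((3 + φ ^ 2) * (1 - φ)) * L ^ ((8 + φ) * φ) ≤ L ^ (3 + 5 * φ + 2 * φ ^ 2) := by
    rw [← rpow_add hL0]
    refine rpow_le_rpow_of_exponent_le hL ?_
    nlinarith [pow_pos hφ0 3]
  calc _ = (C0 ^ 4 * (2 / φ)) ^ φ * ((C0 * X) ^ (1 - φ) * (C0 * X) ^ φ) *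
        (L ^ ((3 + φ ^ 2) * (1 - φ)) * L ^ ((8 + φ) * φ)) := by ring
    _ ≤ (C0 ^ 4 * (2 / φ)) ^ φ * (C0 * X) * L ^ (3 + 5 * φ + 2 * φ ^ 2) := by
        rw [e4]
        exact mul_le_mul_of_nonneg_left e5 (mul_nonneg (rpow_nonneg hq _) hCX)
    _ = _ := by ring

end Pool.Agent.QM
end

-- part Pool.Agent.P.MP_ea46f5_nt.QM.FCLZ
section

namespace Pool.Agent.QM

open Complex MeasureTheory Finset
open scoped Real ComplexConjugate

theorem clz_blk {S S' : Finset ℕ} {Bl : ℕ → Finset ℕ} {l : ℕ → ℕ} (h : Blk S Bl l) (hs : S' ⊆ S) :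
    Blk S' Bl l :=
  ⟨fun i hi => h.op i (hs hi), fun i hi j hj => h.disj i (hs hi) j (hs hj),
    fun i hi => h.ell i (hs hi), fun i hi => h.lin i (hs hi)⟩

theorem clz_op {S : Finset ℕ} {Bl : ℕ → Finset ℕ} {l : ℕ → ℕ} (h : Blk S Bl l) :
    OP (S.biUnion Bl) := by
  intro p hp
  obtain ⟨i, hi, hp⟩ := mem_biUnion.1 hp
  exact h.op i hi p hp

theorem clz_RR (S : Finset ℕ) (Bl : ℕ → Finset ℕ) (l : ℕ → ℕ) (θ : ℝ) (x : ℕ → ℤ) :
    0 ≤ RR S Bl l θ x := prod_nonneg fun _ _ => sq_nonneg _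

theorem clz_QQ (Bl : Finset ℕ) (l : ℕ) (x : ℕ → ℤ) : 0 ≤ QQ Bl l x := by
  unfold QQ
  rw [pow_mul]
  exact pow_nonneg (sq_nonneg _) _

theorem clz_sg (P : Finset ℕ) : 0 ≤ sg P := sum_nonneg fun _ _ => by positivity

theorem clz_GX {X : ℝ} (hX : 0 < X) {k : ℤ} (hk : k ∈ Sq X) : 1 ≤ Real.exp π * GX X k := by
  unfold GX
  rw [← Real.exp_add]
  apply Real.one_le_exp
  have h1 : |(k : ℝ)| ≤ X := by
    simp only [Sq, mem_filter] at hk
    exact hk.2.2.2.2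
  have h2 : (k : ℝ) ^ 2 ≤ X ^ 2 := by
    rw [← sq_abs]
    exact pow_le_pow_left₀ (abs_nonneg _) h1 2
  have h3 : (k : ℝ) ^ 2 / X ^ 2 ≤ 1 := (div_le_one (by positivity)).2 h2
  have h4 : -π * (k : ℝ) ^ 2 / X ^ 2 = -(π * ((k : ℝ) ^ 2 / X ^ 2)) := by ring
  rw [h4]
  nlinarith [Real.pi_pos]

theorem clz_sum (hZ0 : Z0) {P : Finset ℕ} {B : ℕ} {R : (ℕ → ℤ) → ℝ} {X Y : ℝ} (hP : OP P)
    (hB : 1 ≤ B) (hl : HasLen P B R Y) (hR : ∀ x, 0 ≤ R x) (hX : 0 < X) :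
    ∑ k ∈ Sq X, R (jv k) ≤ Real.exp π * (X * Ex P mu0 R + Y) := by
  refine le_trans ?_ (mul_le_mul_of_nonneg_left (hZ0 P B R X Y (Sq X) hP hB hl hR hX)
    (Real.exp_pos _).le)
  rw [mul_sum]
  refine sum_le_sum fun k hk => ?_
  rw [← mul_assoc]
  exact le_mul_of_one_le_left (hR _) (clz_GX hX hk)

theorem clz_Del {κ L : ℝ} (h4 : κ < 4) (hL : 0 ≤ L) (j : ℕ) : Del κ L j ≤ L := by
  unfold Del
  refine mul_le_of_le_one_right hL (Real.exp_le_one_iff.2 ?_)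
  have : (0 : ℝ) ≤ j := Nat.cast_nonneg j
  nlinarith

theorem pCLZ (hZ0 : Z0) (hZ0E : Z0E) (hLEN : LEN) : CLZ := by
  obtain ⟨C, hC, hE⟩ := hZ0E
  obtain ⟨hL1, -, hL3, hL4, hL5⟩ := hLEN
  refine ⟨Real.exp π * (C + 1), by positivity, ?_⟩
  intro κ Cs X B J Bl l lam h2 h4 hB hX hL hS j i hj hji hi
  have hX0 : 0 < X := by linarith
  have hXe : Real.exp (Real.log X) = X := Real.exp_log hX0
  have hsub : Icc i J ⊆ Icc 0 J := Icc_subset_Icc_left (Nat.zero_le _)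
  have hdat : ∀ a, a ≤ J → 0 ≤ lam a ∧ ∀ p ∈ Bl a, p.Prime ∧ (p : ℝ) ≤ Real.exp (lam a) := by
    intro a ha
    refine ⟨le_trans zero_le_one (hS.lam1 a ha), fun p hp => ⟨?_, hS.le a a le_rfl ha p hp⟩⟩
    exact (hS.blk.op a (mem_Icc.2 ⟨Nat.zero_le _, ha⟩) p hp).1
  have hlen : HasLen ((Icc i J).biUnion Bl) B (RR (Icc i J) Bl l (κ / 2))
      (Real.exp (Real.log X / 4)) := by
    refine hL1 _ _ _ _ _ _ _ (hL4 (Icc i J) Bl l lam (κ / 2) B ?_ fun a ha =>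
      hdat a (mem_Icc.1 ha).2) subset_rfl le_rfl (Real.exp_le_exp.2 ?_)
    · rw [abs_le]; constructor <;> linarith
    · refine le_trans (sum_le_sum_of_subset_of_nonneg (Icc_subset_Icc_left hji) ?_)
        (le_trans (hS.len1 j hj) ?_)
      · intro a ha _
        have := (hdat a (mem_Icc.1 ha).2).1
        positivity
      · have := clz_Del h4 (by linarith : 0 ≤ Real.log X) j
        linarith
  have hg : 1 ≤ Real.exp (κ ^ 2 / 2 * sg (PP Bl i J)) :=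
    Real.one_le_exp (mul_nonneg (by positivity) (clz_sg _))
  obtain ⟨hE1, hE2⟩ := hE (Icc i J) Bl l κ (by linarith) h4.le
  by_cases hij : i = j
  · simp only [Qc, ec, if_pos hij, mul_one]
    have hb := clz_blk hS.blk hsub
    refine le_trans (clz_sum hZ0 (clz_op hb) hB hlen (clz_RR _ _ _ _) hX0) ?_
    have h1 := hE1 hb
    have h3 : Real.exp (Real.log X / 4) ≤ X := by
      conv_rhs => rw [← hXe]
      exact Real.exp_le_exp.2 (by linarith)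
    have h5 : X * Ex ((Icc i J).biUnion Bl) mu0 (RR (Icc i J) Bl l (κ / 2)) ≤
        X * (C * Real.exp (κ ^ 2 / 2 * sg (PP Bl i J))) := mul_le_mul_of_nonneg_left h1 hX0.le
    have h6 : X ≤ X * Real.exp (κ ^ 2 / 2 * sg (PP Bl i J)) := le_mul_of_one_le_right hX0.le hg
    rw [mul_assoc, mul_assoc]
    refine mul_le_mul_of_nonneg_left ?_ (Real.exp_pos _).le
    nlinarith
  · simp only [Qc, ec, if_neg hij]
    have hi1 : i - 1 ≤ J := by omega
    have hn : i - 1 ∉ Icc i J := by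
      rw [mem_Icc]; omega
    have hb : Blk (insert (i - 1) (Icc i J)) Bl l :=
      clz_blk hS.blk (insert_subset (mem_Icc.2 ⟨Nat.zero_le _, hi1⟩) hsub)
    have hq : HasLen ((insert (i - 1) (Icc i J)).biUnion Bl) B (QQ (Bl (i - 1)) (l (i - 1)))
        (Real.exp (Real.log X / 25)) :=
      hL1 _ _ _ _ _ _ _ (hL5 (Bl (i - 1)) (l (i - 1)) (lam (i - 1)) B (hdat _ hi1).1 (hdat _ hi1).2)
        (subset_biUnion_of_mem Bl (mem_insert_self _ _)) le_rfl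
        (Real.exp_le_exp.2 (hS.len2 _ hi1))
    have hr : HasLen ((insert (i - 1) (Icc i J)).biUnion Bl) B (RR (Icc i J) Bl l (κ / 2))
        (Real.exp (Real.log X / 4)) :=
      hL1 _ _ _ _ _ _ _ hlen (biUnion_subset_biUnion_of_subset_left Bl (subset_insert _ _)) le_rfl
        le_rfl
    refine le_trans (clz_sum hZ0 (R := fun x => RR (Icc i J) Bl l (κ / 2) x *
      QQ (Bl (i - 1)) (l (i - 1)) x) (clz_op hb) hB (hL3 _ _ _ _ _ _ hr hq)
      (fun x => mul_nonneg (clz_RR _ _ _ _ _) (clz_QQ _ _ _)) hX0) ?_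
    have h1 := hE2 (i - 1) hn hb
    have h3 : Real.exp (Real.log X / 4) * Real.exp (Real.log X / 25) ≤
        X * Real.exp (-(l (i - 1) : ℝ)) := by
      conv_rhs => rw [← hXe]
      rw [← Real.exp_add, ← Real.exp_add]
      have := hS.lL _ hi1
      exact Real.exp_le_exp.2 (by linarith)
    have h5 := mul_le_mul_of_nonneg_left h1 hX0.le
    have h7 : 0 < X * Real.exp (-(l (i - 1) : ℝ)) := by positivity
    have h6 := le_mul_of_one_le_right h7.le hg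
    rw [mul_assoc, mul_assoc, mul_assoc]
    refine mul_le_mul_of_nonneg_left ?_ (Real.exp_pos _).le
    unfold PP at h6 ⊢
    nlinarith

end Pool.Agent.QM
end

-- part Pool.Agent.P.MP_ea46f5_nt.QM.FDY
section

namespace Pool.Agent.QM

open Complex MeasureTheory Finset
open scoped Real ComplexConjugate

theorem dy_max (n : ℕ) (b w : ℕ → ℝ) (p : ℝ) (hp : 0 < p) (hb : ∀ j, 0 ≤ b j)
    (hw : ∀ j, 0 < w j) (hs : ∑ j ∈ range n, w j ≤ 1) :
    (∑ j ∈ range n, b j) ^ p ≤ ∑ j ∈ range n, (b j / w j) ^ p := by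
  rcases Nat.eq_zero_or_pos n with h0 | h0
  · subst h0
    simp [Real.zero_rpow hp.ne']
  obtain ⟨j0, hj0, hmax⟩ := exists_max_image (range n) (fun j => b j / w j)
    ⟨0, mem_range.2 h0⟩
  have hM : 0 ≤ b j0 / w j0 := div_nonneg (hb _) (hw _).le
  have h1 : ∑ j ∈ range n, b j ≤ b j0 / w j0 := by
    calc ∑ j ∈ range n, b j ≤ ∑ j ∈ range n, w j * (b j0 / w j0) := by
          refine sum_le_sum fun j hj => ?_
          have h := hmax j hj
          have := hw j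
          calc b j = w j * (b j / w j) := by field_simp
            _ ≤ _ := mul_le_mul_of_nonneg_left h this.le
      _ = (∑ j ∈ range n, w j) * (b j0 / w j0) := by rw [sum_mul]
      _ ≤ 1 * (b j0 / w j0) := mul_le_mul_of_nonneg_right hs hM
      _ = _ := one_mul _
  calc (∑ j ∈ range n, b j) ^ p ≤ (b j0 / w j0) ^ p :=
        Real.rpow_le_rpow (sum_nonneg fun j _ => hb j) h1 hp.le
    _ ≤ _ := single_le_sum (f := fun j => (b j / w j) ^ p)
        (fun j _ => Real.rpow_nonneg (div_nonneg (hb _) (hw _).le) _) hj0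

theorem dy_geom (n : ℕ) (r : ℝ) (h0 : 0 ≤ r) (h1 : r < 1) :
    ∑ j ∈ range n, r ^ j ≤ 1 / (1 - r) := by
  have h := (summable_geometric_of_lt_one h0 h1).sum_le_tsum (range n)
    (fun j _ => pow_nonneg h0 j)
  rw [tsum_geometric_of_lt_one h0 h1] at h
  rwa [one_div]

/-- The pointwise split. -/
theorem dy_pt (a S f U φ : ℝ) (ha : 0 ≤ a) (hS : 0 ≤ S) (hU : 0 < U) (h0 : 0 < φ)
    (h1 : φ < 1) (h : π * a ^ 2 ≤ S + f) :
    a ^ (2 + 2 * φ) ≤ S ^ (1 + φ) + a ^ 2 * U ^ φ + f ^ 2 * U ^ (φ - 1) := by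
  have e1 : a ^ (2 + 2 * φ) = (a ^ 2) ^ (1 + φ) := by
    rw [← Real.rpow_natCast a 2, ← Real.rpow_mul ha]
    congr 1
    push_cast
    ring
  have p1 : 0 ≤ S ^ (1 + φ) := Real.rpow_nonneg hS _
  have p2 : 0 ≤ a ^ 2 * U ^ φ := mul_nonneg (sq_nonneg _) (Real.rpow_nonneg hU.le _)
  have p3 : 0 ≤ f ^ 2 * U ^ (φ - 1) := mul_nonneg (sq_nonneg _) (Real.rpow_nonneg hU.le _)
  rw [e1]
  set x := a ^ 2 with hx
  have hx0 : 0 ≤ x := sq_nonneg _
  by_cases c1 : x ≤ S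
  · have := Real.rpow_le_rpow hx0 c1 (by linarith : 0 ≤ 1 + φ)
    linarith
  have hxpos : 0 < x := by linarith
  have e2 : x ^ (1 + φ) = x * x ^ φ := by rw [Real.rpow_add hxpos, Real.rpow_one]
  by_cases c2 : x ≤ U
  · have := mul_le_mul_of_nonneg_left (Real.rpow_le_rpow hx0 c2 h0.le) hx0
    linarith
  have c3 : x ≤ f := by nlinarith [Real.pi_gt_three]
  have e3 : x ^ (1 + φ) = x ^ 2 * x ^ (φ - 1) := by
    rw [← Real.rpow_natCast x 2, ← Real.rpow_add hxpos]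
    congr 1
    push_cast
    ring
  have h4 : x ^ (φ - 1) ≤ U ^ (φ - 1) :=
    Real.rpow_le_rpow_of_nonpos hU (by linarith) (by linarith)
  have h5 : x ^ 2 * x ^ (φ - 1) ≤ f ^ 2 * U ^ (φ - 1) :=
    mul_le_mul (pow_le_pow_left₀ hx0 c3 2) h4 (Real.rpow_nonneg hx0 _) (sq_nonneg _)
  linarith

/-- The sum over the scales. -/
theorem dy_scales (φ : ℝ) (h0 : 0 < φ) : ∃ C : ℝ, 0 < C ∧
    ∀ (F : Finset ℤ) (n : ℕ) (b : ℕ → ℤ → ℝ) (M : ℝ), 0 ≤ M → (∀ j k, 0 ≤ b j k) →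
      (∀ j, j < n → ∑ k ∈ F, b j k ^ (1 + φ) ≤ M * Real.exp (-φ * j)) →
      ∑ k ∈ F, (∑ j ∈ range n, b j k) ^ (1 + φ) ≤ C * M := by
  set p := 1 + φ with hp
  have hp0 : 0 < p := by linarith
  set r := Real.exp (-(φ / (2 * p))) with hr
  have hr0 : 0 < r := Real.exp_pos _
  have hr1 : r < 1 := by
    have : 0 < φ / (2 * p) := by positivity
    rw [hr, Real.exp_lt_one_iff]
    linarith
  set q := Real.exp (-(φ / 2)) with hq
  have hq0 : 0 < q := Real.exp_pos _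
  have hq1 : q < 1 := by
    rw [hq, Real.exp_lt_one_iff]
    linarith
  have hc : 0 < 1 - r := by linarith
  have hc' : 0 < 1 - q := by linarith
  refine ⟨1 / (1 - r) ^ p * (1 / (1 - q)), by positivity, fun F n b M hM hb hbd => ?_⟩
  have hw : ∀ j : ℕ, 0 < (1 - r) * r ^ j := fun j => by positivity
  have hs : ∑ j ∈ range n, (1 - r) * r ^ j ≤ 1 := by
    rw [← mul_sum]
    calc (1 - r) * ∑ j ∈ range n, r ^ j ≤ (1 - r) * (1 / (1 - r)) :=
          mul_le_mul_of_nonneg_left (dy_geom n r hr0.le hr1) hc.le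
      _ = 1 := by field_simp
  have hwp : ∀ j : ℕ, ((1 - r) * r ^ j) ^ p = (1 - r) ^ p * q ^ j := by
    intro j
    rw [Real.mul_rpow hc.le (by positivity), hr, hq, ← Real.exp_nat_mul, ← Real.exp_nat_mul,
      ← Real.exp_mul]
    congr 2
    field_simp
  have hcp : 0 < (1 - r) ^ p := Real.rpow_pos_of_pos hc _
  calc ∑ k ∈ F, (∑ j ∈ range n, b j k) ^ p
      ≤ ∑ k ∈ F, ∑ j ∈ range n, (b j k / ((1 - r) * r ^ j)) ^ p :=
        sum_le_sum fun k _ => dy_max n (fun j => b j k) _ p hp0 (fun j => hb j k) hw hs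
    _ = ∑ j ∈ range n, (∑ k ∈ F, b j k ^ p) / ((1 - r) ^ p * q ^ j) := by
        rw [sum_comm]
        refine sum_congr rfl fun j _ => ?_
        rw [sum_div]
        refine sum_congr rfl fun k _ => ?_
        rw [Real.div_rpow (hb j k) (hw j).le, hwp]
    _ ≤ ∑ j ∈ range n, 1 / (1 - r) ^ p * M * q ^ j := by
        refine sum_le_sum fun j hj => ?_
        have e : Real.exp (-φ * j) = q ^ j * q ^ j := by
          rw [hq, ← Real.exp_nat_mul, ← Real.exp_add]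
          congr 1
          ring
        have hqj : 0 < q ^ j := by positivity
        rw [div_le_iff₀ (by positivity)]
        calc ∑ k ∈ F, b j k ^ p ≤ M * Real.exp (-φ * j) := hbd j (mem_range.1 hj)
          _ = _ := by rw [e]; field_simp
    _ = 1 / (1 - r) ^ p * M * ∑ j ∈ range n, q ^ j := by rw [mul_sum]
    _ ≤ 1 / (1 - r) ^ p * M * (1 / (1 - q)) :=
        mul_le_mul_of_nonneg_left (dy_geom n q hq0.le hq1) (by positivity)
    _ = _ := by ring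

/-- The decomposition of the central value. -/
theorem dy_dec (hAFE : AFE) (hDL : DL) (hPHI : PHI) (A J : ℕ) (κ L : ℝ) (h2 : 2 < κ) (h4 : κ < 4)
    (hL : 100 ≤ L) (k : ℤ) (hk : Squarefree k) (hk1 : k ≠ 1) :
    π * ‖Lf k (1 / 2)‖ ^ 2 ≤ ∑ j ∈ range (J + 1), ‖Dq 0 (phj (A + 1) (Del κ L) j) k‖ +
      ‖Dq 0 (phF (A + 1) (Del κ L J)) k‖ := by
  obtain ⟨C, hC, hP⟩ := hPHI A
  obtain ⟨f1, -, -, f4, f5⟩ := hP κ L h2 h4 hL
  have hD : ∀ j : ℕ, 0 < Del κ L j := fun j => by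
    unfold Del
    have : 0 < L := by linarith
    positivity
  have h1 := hAFE k 0 hk hk1
  simp only [neg_zero, ofReal_zero, zero_mul, add_zero] at h1
  have hL1 : 1 / L ≤ 1 := by
    rw [div_le_one (by linarith)]
    linarith
  have h3 := hDL 0 k (J + 1 + 1) (fun s => 1 / s)
    (fun j => if j < J + 1 then phj (A + 1) (Del κ L) j else phF (A + 1) (Del κ L J)) (1 / L)
    hk.ne_zero hL1 ?_ ?_
  · rw [sum_range_succ, if_neg (lt_irrefl _),
      sum_congr rfl (fun j hj => by rw [if_pos (mem_range.1 hj)])] at h3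
    have h5 : ‖Dq 0 (fun s => 1 / s) k‖ ≤ _ := h3 ▸ norm_add_le _ _
    have h6 := norm_sum_le (range (J + 1)) fun j => Dq 0 (phj (A + 1) (Del κ L) j) k
    linarith
  · intro j _
    by_cases hj : j < J + 1
    · simp only [if_pos hj]
      refine ⟨C * L, (f1 j).1, fun s hs1 hs2 => ((f1 j).2 s hs1 hs2).trans ?_⟩
      refine mul_le_mul_of_nonneg_left (Real.exp_le_exp.2 ?_) (by positivity)
      have : 0 < 1 / L / 2 := by
        have : 0 < L := by linarith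
        positivity
      have := mul_nonneg (hD j).le (by linarith : 0 ≤ s.re)
      linarith
    · simp only [if_neg hj]
      exact ⟨_, (f4 _ (hD J)).1⟩
  · intro s _
    rw [sum_range_succ, if_neg (lt_irrefl _),
      sum_congr rfl (fun j hj => by rw [if_pos (mem_range.1 hj)])]
    exact f5 J s

theorem dy_tail (φ L D : ℝ) (h0 : 0 < φ) (hL : 1 ≤ L) (hD0 : 0 ≤ D) (hD : D ≤ 3 * L ^ (φ / 8)) :
    D ^ 4 * L ^ 8 * Real.log L * (L ^ (5 + φ)) ^ (φ - 1) ≤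
      162 / φ * L ^ ((1 + φ) * (3 + 2 * φ)) := by
  have hL0 : 0 < L := by linarith
  have h1 : D ^ 4 ≤ 81 * L ^ (φ / 2) := by
    calc D ^ 4 ≤ (3 * L ^ (φ / 8)) ^ 4 := pow_le_pow_left₀ hD0 hD 4
      _ = 81 * L ^ (φ / 2) := by
        rw [mul_pow, ← Real.rpow_natCast (L ^ (φ / 8)) 4, ← Real.rpow_mul hL0.le]
        congr 1
        · norm_num
        · congr 1
          push_cast
          ring
  have h2 : Real.log L ≤ L ^ (φ / 2) / (φ / 2) := Real.log_le_rpow_div hL0.le (by linarith)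
  have h3 : 0 ≤ Real.log L := Real.log_nonneg hL
  have e : L ^ (φ / 2) * L ^ 8 * L ^ (φ / 2) * (L ^ (5 + φ)) ^ (φ - 1) =
      L ^ (φ / 2 + 8 + φ / 2 + (5 + φ) * (φ - 1)) := by
    rw [← Real.rpow_mul hL0.le, Real.rpow_add hL0, Real.rpow_add hL0, Real.rpow_add hL0,
      ← Real.rpow_natCast L 8]
    norm_num
  have h4 : L ^ (φ / 2 + 8 + φ / 2 + (5 + φ) * (φ - 1)) ≤ L ^ ((1 + φ) * (3 + 2 * φ)) :=
    Real.rpow_le_rpow_of_exponent_le hL (by nlinarith)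
  calc D ^ 4 * L ^ 8 * Real.log L * (L ^ (5 + φ)) ^ (φ - 1)
      ≤ 81 * L ^ (φ / 2) * L ^ 8 * (L ^ (φ / 2) / (φ / 2)) * (L ^ (5 + φ)) ^ (φ - 1) := by
        gcongr
    _ = 162 / φ * (L ^ (φ / 2) * L ^ 8 * L ^ (φ / 2) * (L ^ (5 + φ)) ^ (φ - 1)) := by
        field_simp
        ring
    _ ≤ _ := by
        rw [e]
        exact mul_le_mul_of_nonneg_left h4 (by positivity)

theorem pDY (hCLS : CLS) (hFF : FF) (hSEC : SEC) (hPAR : PAR) (hAFE : AFE) (hDL : DL) (hPHI : PHI) : DY := by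
  intro κ h2 h4
  obtain ⟨A, B, hCLS⟩ := hCLS
  obtain ⟨Cs, L₀, hCs, hPAR⟩ := hPAR κ B h2 h4
  obtain ⟨C1, hC1, hCLS⟩ := hCLS κ Cs h2 h4 hCs
  obtain ⟨C2, X2, hC2, hFF⟩ := hFF A
  obtain ⟨φ, rfl⟩ : ∃ φ : ℝ, κ = 2 + 2 * φ := ⟨(κ - 2) / 2, by ring⟩
  have h0 : 0 < φ := by linarith
  have h1 : φ < 1 := by linarith
  obtain ⟨C3, hC3, hSEC⟩ := hSEC (φ ^ 2) (by positivity)
  obtain ⟨C4, hC4, hsc⟩ := dy_scales φ h0
  refine ⟨C4 * C1 + C3 + C2 * (162 / φ), max X2 (Real.exp (max L₀ 100)), by positivity,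
    fun X hX => ?_⟩
  have hX2 : X2 ≤ X := le_trans (le_max_left _ _) hX
  have hXe : Real.exp (max L₀ 100) ≤ X := le_trans (le_max_right _ _) hX
  have hX0 : 0 < X := lt_of_lt_of_le (Real.exp_pos _) hXe
  have hLm : max L₀ 100 ≤ Real.log X := (Real.le_log_iff_exp_le hX0).2 hXe
  have hL : 100 ≤ Real.log X := le_trans (le_max_right _ _) hLm
  have hX1 : 1 ≤ X := by
    by_contra hc
    have := Real.log_nonpos hX0.le (not_le.1 hc).le
    linarith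
  obtain ⟨J, Bl, l, lam, hS⟩ := hPAR (Real.log X) (le_trans (le_max_left _ _) hLm)
  have hcl := hCLS X J Bl l lam hX1 hL hS
  have hF := hFF X _ hX2 hS.D1
  have hsec := hSEC X hX1 hL
  have hD1 := hS.D1
  have hD2 := hS.D2
  set L := Real.log X with hLdef
  have hL0 : 0 < L := by linarith
  have eE : (2 + 2 * φ) * (2 + 2 * φ + 1) / 2 = (1 + φ) * (3 + 2 * φ) := by ring
  have e1 : (2 + 2 * φ) / 2 = 1 + φ := by ring
  have e2 : (2 + 2 * φ - 2) / 2 = φ := by ring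
  have e3 : (2 + 2 * φ - 2) / 16 = φ / 8 := by ring
  rw [eE, e1, e2] at hcl
  rw [e3] at hD2
  rw [eE]
  set E := (1 + φ) * (3 + 2 * φ) with hE
  set D := Del (2 + 2 * φ) L J with hD
  have hU : 0 < L ^ (5 + φ) := Real.rpow_pos_of_pos hL0 _
  have hLE : 0 < L ^ E := Real.rpow_pos_of_pos hL0 _
  have t1 := hsc (Sq X) (J + 1) (fun j k => ‖Dq 0 (phj (A + 1) (Del (2 + 2 * φ) L) j) k‖)
    (C1 * X * L ^ E) (by positivity) (fun _ _ => norm_nonneg _)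
    (fun j hj => hcl j (Nat.lt_succ_iff.1 hj))
  have t2 : (∑ k ∈ Sq X, ‖Lf k (1 / 2)‖ ^ 2) * (L ^ (5 + φ)) ^ φ ≤ C3 * X * L ^ E := by
    calc _ ≤ C3 * X * L ^ (3 + φ ^ 2) * (L ^ (5 + φ)) ^ φ :=
          mul_le_mul_of_nonneg_right hsec (by positivity)
      _ = C3 * X * L ^ (3 + φ ^ 2 + (5 + φ) * φ) := by
          rw [← Real.rpow_mul hL0.le, Real.rpow_add hL0 (3 + φ ^ 2), mul_assoc]
      _ = _ := by
          congr 2
          rw [hE]
          ring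
  have t3 : (∑ k ∈ Sq X, ‖Dq 0 (phF (A + 1) D) k‖ ^ 2) * (L ^ (5 + φ)) ^ (φ - 1) ≤
      C2 * (162 / φ) * X * L ^ E := by
    have h := dy_tail φ L D h0 (by linarith) (by linarith) hD2
    calc _ ≤ C2 * X * D ^ 4 * L ^ 8 * Real.log L * (L ^ (5 + φ)) ^ (φ - 1) :=
          mul_le_mul_of_nonneg_right hF (by positivity)
      _ = C2 * X * (D ^ 4 * L ^ 8 * Real.log L * (L ^ (5 + φ)) ^ (φ - 1)) := by ring
      _ ≤ C2 * X * (162 / φ * L ^ E) := mul_le_mul_of_nonneg_left h (by positivity)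
      _ = _ := by ring
  calc ∑ k ∈ Sq X, ‖Lf k (1 / 2)‖ ^ (2 + 2 * φ)
      ≤ ∑ k ∈ Sq X, ((∑ j ∈ range (J + 1),
          ‖Dq 0 (phj (A + 1) (Del (2 + 2 * φ) L) j) k‖) ^ (1 + φ) +
          ‖Lf k (1 / 2)‖ ^ 2 * (L ^ (5 + φ)) ^ φ +
          ‖Dq 0 (phF (A + 1) D) k‖ ^ 2 * (L ^ (5 + φ)) ^ (φ - 1)) := by
        refine sum_le_sum fun k hk => ?_
        have hk' : Squarefree k ∧ k ≠ 1 := by
          simp only [Sq, mem_filter] at hk
          exact ⟨hk.2.1, hk.2.2.1⟩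
        exact dy_pt _ _ _ _ φ (norm_nonneg _) (sum_nonneg fun _ _ => norm_nonneg _)
          hU h0 h1 (dy_dec hAFE hDL hPHI A J _ L h2 h4 hL k hk'.1 hk'.2)
    _ ≤ C4 * (C1 * X * L ^ E) + C3 * X * L ^ E + C2 * (162 / φ) * X * L ^ E := by
        rw [sum_add_distrib, sum_add_distrib, ← sum_mul, ← sum_mul]
        linarith
    _ = _ := by ring

end Pool.Agent.QM
end

-- part Pool.Agent.P.MP_ea46f5_nt.QM.FFF
section

namespace Pool.Agent.QM

open Complex MeasureTheory Finset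
open scoped Real ComplexConjugate

theorem ff_alg {C₁ C₂ C₄ X L D s g l : ℝ} (hC₁ : 0 < C₁) (hC₄ : 0 < C₄) (hX : 0 < X)
    (hL : 1 ≤ L) (hD : 1 ≤ D) (hl : 0 ≤ l) (hg : g ≤ 1024 * L ^ 10) (hs : L ^ 3 * s ≤ X) :
    C₁ * (2 * l / L ^ 2) * (X * (L ^ 2) ^ 2 * (C₂ * D ^ 2) ^ 2 * L ^ 8 / L ^ 2 +
      (C₂ * D) ^ 2 * ((L ^ 2) ^ 2 * (C₄ * (X / (L ^ 2) ^ 2) * g) + L ^ 5 * X * L ^ 2 +
        L ^ 11 * s * L ^ 2)) ≤
    (2 * C₁ * (C₂ ^ 2 + 1) * (3 + 1024 * C₄)) * X * D ^ 4 * L ^ 8 * l := by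
  have hL0 : 0 < L := by linarith
  have h1 : (L ^ 2) ^ 2 * (C₄ * (X / (L ^ 2) ^ 2) * g) ≤ 1024 * C₄ * (X * L ^ 10) := by
    rw [show (L ^ 2) ^ 2 * (C₄ * (X / (L ^ 2) ^ 2) * g) = C₄ * X * g by field_simp]
    have := mul_le_mul_of_nonneg_left hg (show 0 ≤ C₄ * X by positivity)
    linarith
  have h2 : L ^ 5 * X * L ^ 2 ≤ X * L ^ 10 := by
    have := mul_le_mul_of_nonneg_left (pow_le_pow_right₀ hL (show 7 ≤ 10 by norm_num)) hX.le
    linarith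
  have h3 : L ^ 11 * s * L ^ 2 ≤ X * L ^ 10 := by
    have := mul_le_mul_of_nonneg_right hs (show 0 ≤ L ^ 10 by positivity)
    linarith
  have h4 : (C₂ * D) ^ 2 ≤ C₂ ^ 2 * D ^ 4 := by
    rw [mul_pow]
    exact mul_le_mul_of_nonneg_left (pow_le_pow_right₀ hD (by norm_num)) (by positivity)
  have h5 : (C₂ * D) ^ 2 * ((L ^ 2) ^ 2 * (C₄ * (X / (L ^ 2) ^ 2) * g) + L ^ 5 * X * L ^ 2 +
      L ^ 11 * s * L ^ 2) ≤ C₂ ^ 2 * D ^ 4 * ((2 + 1024 * C₄) * (X * L ^ 10)) :=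
    (mul_le_mul_of_nonneg_left (by linarith) (by positivity)).trans
      (mul_le_mul_of_nonneg_right h4 (by positivity))
  have h6 : X * (L ^ 2) ^ 2 * (C₂ * D ^ 2) ^ 2 * L ^ 8 / L ^ 2 =
      C₂ ^ 2 * D ^ 4 * (X * L ^ 10) := by field_simp
  rw [h6]
  refine (mul_le_mul_of_nonneg_left (add_le_add le_rfl h5) (by positivity)).trans ?_
  have h7 : C₁ * (2 * l / L ^ 2) * (C₂ ^ 2 * D ^ 4 * (X * L ^ 10) +
      C₂ ^ 2 * D ^ 4 * ((2 + 1024 * C₄) * (X * L ^ 10))) =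
      C₂ ^ 2 * (2 * C₁ * (3 + 1024 * C₄) * X * D ^ 4 * L ^ 8 * l) := by field_simp; ring
  rw [h7]
  have h8 : 0 ≤ 2 * C₁ * (3 + 1024 * C₄) * X * D ^ 4 * L ^ 8 * l := by positivity
  linarith

theorem pFF (hTQF : TQF) (hFOUR : FOUR) (hPHI : PHI) : FF := by
  intro A
  obtain ⟨c, R₀, hR₀, hT⟩ := hTQF
  obtain ⟨A₄, C₄, hC₄, hF⟩ := hFOUR
  obtain ⟨C₁, hC₁, hT⟩ := hT A₄
  obtain ⟨C₂, hC₂, hP⟩ := hPHI A
  refine ⟨2 * C₁ * (C₂ ^ 2 + 1) * (3 + 1024 * C₄), Real.exp (max 300 R₀), by positivity,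
    fun X D hX hD => ?_⟩
  have hX0 : 0 < X := (Real.exp_pos _).trans_le hX
  have hL : max 300 R₀ ≤ Real.log X := (Real.le_log_iff_exp_le hX0).2 hX
  have hL3 : 300 ≤ Real.log X := (le_max_left _ _).trans hL
  have hLR : R₀ ≤ Real.log X := (le_max_right _ _).trans hL
  have hXL : Real.log X + 1 ≤ X := by
    have := Real.add_one_le_exp (Real.log X)
    rwa [Real.exp_log hX0] at this
  obtain ⟨hfar, hnear⟩ := (hP 3 (Real.log X) (by norm_num) (by norm_num) (by linarith)).2.2.2.1 D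
    (by linarith)
  set L := Real.log X with hLd
  have hK : 0 < X / (L ^ 2) ^ 2 := by positivity
  have h := hT (phF (A + 1) D) X (L ^ 2) 0 (C₂ * D ^ 2) (C₂ * D) _ 1 (by linarith) (by linarith)
    (by nlinarith) le_rfl (by positivity) hfar hnear (hF _ hK)
  have hb : br 0 = 1 := by simp [br]
  rw [hb, one_pow, one_pow, mul_one, mul_one, mul_one, Real.log_pow, ← hLd] at h
  refine h.trans ?_
  have hg : lg (X / (L ^ 2) ^ 2) ^ 10 ≤ 1024 * L ^ 10 := by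
    have h1 : X / (L ^ 2) ^ 2 ≤ X := div_le_self hX0.le (one_le_pow₀ (by nlinarith))
    have h2 : lg (X / (L ^ 2) ^ 2) ≤ 2 * L := by
      have h3 := Real.log_le_log (by linarith) (show 2 + X / (L ^ 2) ^ 2 ≤ X ^ 2 by nlinarith)
      rw [Real.log_pow] at h3
      exact_mod_cast h3
    have h3 : 0 ≤ lg (X / (L ^ 2) ^ 2) := Real.log_nonneg (by linarith)
    have := pow_le_pow_left₀ h3 h2 10
    linarith [show (2 * L) ^ 10 = 1024 * L ^ 10 by ring]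
  have hs : L ^ 3 * √X ≤ X := by
    have h1 := Real.pow_div_factorial_le_exp L (by linarith) 8
    rw [hLd, Real.exp_log hX0, ← hLd] at h1
    have h2 : ((Nat.factorial 8 : ℕ) : ℝ) = 40320 := by norm_num [Nat.factorial]
    rw [h2] at h1
    have h3 : (L ^ 3) ^ 2 ≤ X := by
      have h4 : 40320 ≤ L ^ 2 := by nlinarith
      have h5 := mul_le_mul_of_nonneg_left h4 (show 0 ≤ L ^ 6 by positivity)
      nlinarith
    have h4 : L ^ 3 ≤ √X := Real.le_sqrt_of_sq_le h3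
    have h5 := mul_le_mul_of_nonneg_right h4 (Real.sqrt_nonneg X)
    rwa [Real.mul_self_sqrt hX0.le] at h5
  have := ff_alg (C₂ := C₂) (l := Real.log L) hC₁ hC₄ hX0 (show 1 ≤ L by linarith) hD
    (Real.log_nonneg (by linarith)) hg hs
  exact_mod_cast this

end Pool.Agent.QM
end

-- part Pool.Agent.P.MP_ea46f5_nt.QM.FHRP
section

namespace Pool.Agent.QM

open Real Finset

theorem hrp_sg (S : Finset ℕ) : 0 ≤ sg S := sum_nonneg fun _ _ => by positivity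

theorem hrp_lin (P : Finset ℕ) (ν : ℕ → ℤ → ℝ) (a b : ℝ) (F G H : (ℕ → ℤ) → ℝ) :
    Ex P ν (fun x => a * F x + b * (G x + H x)) =
      a * Ex P ν F + b * (Ex P ν G + Ex P ν H) := by
  unfold Ex
  rw [← sum_add_distrib, mul_sum, mul_sum, ← sum_add_distrib]
  exact sum_congr rfl fun x _ => by ring

theorem hrp_nonneg (hE : EXL) {P : Finset ℕ} {ν : ℕ → ℤ → ℝ} (hν : ∀ p ∈ P, ∀ y, 0 ≤ ν p y)
    {R : (ℕ → ℤ) → ℝ} (hR : ∀ x, 0 ≤ R x) : 0 ≤ Ex P ν R := by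
  refine le_trans (le_of_eq ?_) (hE.2.2.2.2.2.2 P ν (fun _ => 0) R hν hR)
  simp [Ex]

/-- The exponential moment of a block. -/
theorem hrp_mgf (hE : EXL) {P : Finset ℕ} {ν : ℕ → ℤ → ℝ} (hν : ∀ p ∈ P, ∀ y, 0 ≤ ν p y)
    (θ c : ℝ) (η : ℕ → ℝ)
    (h : ∀ p ∈ P, ∑ y ∈ T3, ν p y * exp (θ * y / √(p : ℝ)) ≤ exp (c / p + η p)) :
    Ex P ν (fun x => exp (θ * Pb P x)) ≤ exp (c * sg P + ∑ p ∈ P, η p) := by
  have e : (fun x : ℕ → ℤ => exp (θ * Pb P x)) =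
      fun x => ∏ p ∈ P, (fun (p : ℕ) (y : ℤ) => exp (θ * y / √(p : ℝ))) p (x p) := by
    funext x
    rw [← exp_sum, Pb, mul_sum]
    congr 1
    exact sum_congr rfl fun p _ => by ring
  rw [e, hE.2.1 P ν (fun (p : ℕ) (y : ℤ) => exp (θ * y / √(p : ℝ)))]
  refine (prod_le_prod (fun p hp => sum_nonneg fun y _ =>
    mul_nonneg (hν p hp y) (exp_pos _).le) h).trans (le_of_eq ?_)
  rw [← exp_sum, sum_add_distrib, sg, mul_sum]
  congr 2
  exact sum_congr rfl fun p _ => by ring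

theorem hrp_half (l : ℕ) : exp (-(l : ℝ)) ≤ 1 / 2 ^ l := by
  have h : exp (-1 : ℝ) ≤ 1 / 2 := by
    rw [exp_neg, inv_le_comm₀ (exp_pos _) (by norm_num)]
    have := Real.add_one_le_exp (1 : ℝ)
    linarith
  have : exp (-(l : ℝ)) = exp (-1) ^ l := by rw [← exp_nat_mul]; ring_nf
  rw [this, ← one_div_pow]
  exact pow_le_pow_left₀ (exp_pos _).le h _

theorem hrp_num (l : ℕ) {m m₁ m₂ : ℝ} (h₁ : m₁ ≤ m + l) (h₂ : m₂ ≤ m + l) :
    (1 + 1 / 2 ^ l) ^ 2 * exp m + exp (-2 * l) * (exp m₁ + exp m₂) ≤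
      exp (m + 4 * (1 / 2 ^ l)) := by
  have hu : (0 : ℝ) ≤ 1 / 2 ^ l := by positivity
  have h := hrp_half l
  have k : ∀ t : ℝ, t ≤ m + l → exp (-2 * l) * exp t ≤ 1 / 2 ^ l * exp m := by
    intro t ht
    calc exp (-2 * l) * exp t ≤ exp (-(l : ℝ)) * exp m := by
          rw [← exp_add, ← exp_add]; exact exp_le_exp.2 (by linarith)
      _ ≤ _ := by gcongr
  have k1 := k _ h₁
  have k2 := k _ h₂
  generalize (1 : ℝ) / 2 ^ l = u at *
  have h3 : 1 + 4 * u + (4 * u) ^ 2 / 2 ≤ exp (4 * u) :=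
    Real.quadratic_le_exp_of_nonneg (by linarith)
  rw [exp_add]
  have h4 : ((1 + u) ^ 2 + 2 * u) * exp m ≤ exp (4 * u) * exp m :=
    mul_le_mul_of_nonneg_right (by nlinarith) (exp_pos _).le
  nlinarith

/-- One block of a squared truncated exponential. -/
theorem hrp_block (hTE : TE) (hE : EXL) {P : Finset ℕ} {ν : ℕ → ℤ → ℝ}
    (hν : ∀ p ∈ P, ∀ y, 0 ≤ ν p y) {l : ℕ} (hl : 3300 * sg P + 10 ≤ (l : ℝ)) (θ : ℝ) (c : ℝ → ℝ)
    (η : ℕ → ℝ) (hθ : |θ| ≤ 2)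
    (h : ∀ p ∈ P, ∀ t : ℝ, |t| ≤ 36 →
      ∑ y ∈ T3, ν p y * exp (t * y / √(p : ℝ)) ≤ exp (c t / p + η p))
    (h1 : c (18 * θ) ≤ c (2 * θ) + 3300) (h2 : c (-18 * θ) ≤ c (2 * θ) + 3300) :
    Ex P ν (fun x => Et l (θ * Pb P x) ^ 2) ≤
      exp (c (2 * θ) * sg P + ∑ p ∈ P, η p + 4 * (1 / 2 ^ l)) := by
  have hb := hrp_sg P
  have hl1 : 1 ≤ l := by
    have : (1 : ℝ) ≤ l := by linarith
    exact_mod_cast this
  obtain ⟨hθ1, hθ2⟩ := abs_le.1 hθ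
  have k := hE.2.2.2.2.2.2 P ν (fun x => Et l (θ * Pb P x) ^ 2)
    (fun x => (1 + 1 / 2 ^ l) ^ 2 * exp (2 * θ * Pb P x) +
      exp (-2 * l) * (exp (18 * θ * Pb P x) + exp (-18 * θ * Pb P x))) hν fun x => by
      simpa only [mul_assoc] using hTE.2.1 l (θ * Pb P x) hl1
  rw [hrp_lin] at k
  have k0 := hrp_mgf hE hν (2 * θ) _ η fun p hp => h p hp _ (abs_le.2 ⟨by linarith, by linarith⟩)
  have k1 := hrp_mgf hE hν (18 * θ) _ η fun p hp => h p hp _ (abs_le.2 ⟨by linarith, by linarith⟩)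
  have k2 := hrp_mgf hE hν (-18 * θ) _ η fun p hp =>
    h p hp _ (abs_le.2 ⟨by linarith, by linarith⟩)
  refine k.trans (le_trans ?_ (hrp_num l (m₁ := c (18 * θ) * sg P + ∑ p ∈ P, η p)
    (m₂ := c (-18 * θ) * sg P + ∑ p ∈ P, η p) ?_ ?_))
  · gcongr
  · nlinarith [mul_le_mul_of_nonneg_right h1 hb]
  · nlinarith [mul_le_mul_of_nonneg_right h2 hb]

theorem hrp_geo {S : Finset ℕ} {l : ℕ → ℕ} (h : ∀ i ∈ S, 12 * (i + 1) ≤ l i) :
    ∑ i ∈ S, (1 : ℝ) / 2 ^ l i ≤ 2 := by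
  have h1 : ∑ i ∈ S, (1 : ℝ) / 2 ^ l i ≤ ∑ i ∈ S, ((1 : ℝ) / 2) ^ i := by
    refine sum_le_sum fun i hi => ?_
    rw [← one_div_pow]
    exact pow_le_pow_of_le_one (by norm_num) (by norm_num) (by have := h i hi; omega)
  exact h1.trans (sum_le_hasSum S (fun i _ => by positivity) hasSum_geometric_two)

/-- All blocks. -/
theorem hrp_all (hTE : TE) (hE : EXL) {S : Finset ℕ} {Bl : ℕ → Finset ℕ} {l : ℕ → ℕ}
    (hB : Blk S Bl l) {ν : ℕ → ℤ → ℝ} (hν : ∀ i ∈ S, ∀ p ∈ Bl i, ∀ y, 0 ≤ ν p y) (θ : ℝ)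
    (c : ℝ → ℝ) (η : ℕ → ℝ) (hθ : |θ| ≤ 2)
    (h : ∀ i ∈ S, ∀ p ∈ Bl i, ∀ t : ℝ, |t| ≤ 36 →
      ∑ y ∈ T3, ν p y * exp (t * y / √(p : ℝ)) ≤ exp (c t / p + η p))
    (h1 : c (18 * θ) ≤ c (2 * θ) + 3300) (h2 : c (-18 * θ) ≤ c (2 * θ) + 3300) :
    ∏ i ∈ S, Ex (Bl i) ν (fun x => Et (l i) (θ * Pb (Bl i) x) ^ 2) ≤
      exp 8 * exp (c (2 * θ) * sg (S.biUnion Bl) + ∑ p ∈ S.biUnion Bl, η p) := by
  have hd : (S : Set ℕ).PairwiseDisjoint Bl := fun i hi j hj hij => hB.disj i hi j hj hij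
  refine (prod_le_prod (fun i hi => hrp_nonneg hE (hν i hi) fun x => sq_nonneg _) fun i hi =>
    hrp_block hTE hE (hν i hi) (hB.ell i hi) θ c η hθ (h i hi) h1 h2).trans ?_
  have e : sg (S.biUnion Bl) = ∑ i ∈ S, sg (Bl i) := sum_biUnion hd
  rw [← exp_sum, ← exp_add, sum_add_distrib, sum_add_distrib, ← mul_sum, ← mul_sum, ← e,
    ← sum_biUnion hd]
  exact exp_le_exp.2 (by linarith [hrp_geo hB.lin])

theorem pHRP (hTE : TE) (hEXL : EXL) (hEXF : EXF) : HRP := by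
  refine ⟨exp 8, exp_pos _, fun S Bl l β hB h0 h2 ν η hν _ hm => ?_⟩
  have e := hEXF S Bl ν (fun i u => Et (l i) (-β / 2 * u) ^ 2) hB.disj
  have k := hrp_all hTE hEXL hB (fun i _ p _ y => hν p y) (-β / 2)
    (fun t => 10 + 4 * t + t ^ 2 / 2) η (abs_le.2 ⟨by linarith, by linarith⟩)
    (fun i hi p hp t ht => hm p (mem_biUnion.2 ⟨i, hi, hp⟩) t ht) (by nlinarith) (by nlinarith)
  refine (le_of_eq e).trans (k.trans (le_of_eq ?_))
  rw [mul_assoc (exp 8), ← exp_add (_ * _)]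
  congr 2
  ring

theorem hrp_mu0 {p : ℕ} (hp : p.Prime) (y : ℤ) : 0 ≤ mu0 p y := by
  have h : (1 : ℝ) ≤ p := by exact_mod_cast hp.one_le
  have h1 : 1 / (p : ℝ) ≤ 1 := (div_le_one (by linarith)).2 h
  unfold mu0
  split_ifs
  · positivity
  · linarith

theorem hrp_cosh {p : ℕ} (hp : p.Prime) (t : ℝ) :
    ∑ y ∈ T3, mu0 p y * exp (t * y / √(p : ℝ)) ≤ exp (t ^ 2 / 2 / p + 0) := by
  have h : (1 : ℝ) ≤ p := by exact_mod_cast hp.one_le
  have h0 : 0 ≤ 1 / (p : ℝ) := by positivity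
  have h2 := Real.cosh_le_exp_half_sq (t / √p)
  have h3 := Real.one_le_cosh (t / √p)
  have e : (t / √p) ^ 2 / 2 = t ^ 2 / 2 / p + 0 := by
    rw [div_pow, sq_sqrt (by linarith)]; ring
  rw [e] at h2
  refine le_trans ?_ h2
  unfold T3
  rw [sum_insert (by decide), sum_insert (by decide), sum_singleton]
  rw [Real.cosh_eq] at h3 ⊢
  have e1 : t * ((-1 : ℤ) : ℝ) / √p = -(t / √p) := by push_cast; ring
  have e2 : t * ((0 : ℤ) : ℝ) / √p = 0 := by push_cast; ring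
  have e3 : t * ((1 : ℤ) : ℝ) / √p = t / √p := by push_cast; ring
  rw [e1, e2, e3, exp_zero]
  have m1 : mu0 p (-1) = (1 - 1 / (p : ℝ)) / 2 := if_neg (by decide)
  have m2 : mu0 p 0 = 1 / (p : ℝ) := if_pos rfl
  have m3 : mu0 p 1 = (1 - 1 / (p : ℝ)) / 2 := if_neg (by decide)
  rw [m1, m2, m3]
  nlinarith [mul_le_mul_of_nonneg_left h3 h0]

theorem pZ0E (hTE : TE) (hEXL : EXL) (hEXF : EXF) : Z0E := by
  have main : ∀ (S : Finset ℕ) (Bl : ℕ → Finset ℕ) (l : ℕ → ℕ) (κ : ℝ), 0 ≤ κ → κ ≤ 4 →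
      Blk S Bl l → ∏ i ∈ S, Ex (Bl i) mu0 (fun x => Et (l i) (κ / 2 * Pb (Bl i) x) ^ 2) ≤
        exp 8 * exp (κ ^ 2 / 2 * sg (S.biUnion Bl)) := by
    intro S Bl l κ h0 h4 hB
    have k := hrp_all hTE hEXL hB (fun i hi p hp y => hrp_mu0 (hB.op i hi p hp).1 y) (κ / 2)
      (fun t => t ^ 2 / 2) (fun _ => 0) (abs_le.2 ⟨by linarith, by linarith⟩)
      (fun i hi p hp t _ => hrp_cosh (hB.op i hi p hp).1 t) (by nlinarith) (by nlinarith)
    refine k.trans (le_of_eq ?_)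
    rw [sum_const_zero]
    congr 2
    ring
  refine ⟨2 * exp 8, by positivity, fun S Bl l κ h0 h4 => ⟨fun hB => ?_, fun j hj hB => ?_⟩⟩
  · have e := hEXF S Bl mu0 (fun i u => Et (l i) (κ / 2 * u) ^ 2) hB.disj
    refine (le_of_eq e).trans ((main S Bl l κ h0 h4 hB).trans ?_)
    have := exp_pos (8 : ℝ)
    gcongr
    linarith
  · have hne : ∀ i ∈ S, i ≠ j := fun i hi h => hj (h ▸ hi)
    have e := hEXF (insert j S) Bl mu0
      (fun i u => if i = j then (40 * u / l j) ^ (2 * l j) else Et (l i) (κ / 2 * u) ^ 2) hB.disj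
    have e1 : (fun x => RR S Bl l (κ / 2) x * QQ (Bl j) (l j) x) = fun x => ∏ i ∈ insert j S,
        (fun i (u : ℝ) => if i = j then (40 * u / l j) ^ (2 * l j) else
          Et (l i) (κ / 2 * u) ^ 2) i (Pb (Bl i) x) := by
      funext x
      rw [prod_insert hj, mul_comm]
      simp only [if_true]
      congr 1
      exact prod_congr rfl fun i hi => (if_neg (hne i hi)).symm
    have hS : Blk S Bl l := ⟨fun i hi => hB.op i (mem_insert_of_mem hi),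
      fun i hi i' hi' => hB.disj i (mem_insert_of_mem hi) i' (mem_insert_of_mem hi'),
      fun i hi => hB.ell i (mem_insert_of_mem hi), fun i hi => hB.lin i (mem_insert_of_mem hi)⟩
    have hν : ∀ p ∈ Bl j, ∀ y, 0 ≤ mu0 p y := fun p hp y =>
      hrp_mu0 (hB.op j (mem_insert_self _ _) p hp).1 y
    have hl := hB.ell j (mem_insert_self _ _)
    have hl1 : 1 ≤ l j := by have := hB.lin j (mem_insert_self _ _); omega
    have hq : Ex (Bl j) mu0 (fun x => (40 * Pb (Bl j) x / l j) ^ (2 * l j)) ≤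
        2 * exp (-(l j : ℝ)) := by
      have k := hEXL.2.2.2.2.2.2 (Bl j) mu0 (fun x => (40 * Pb (Bl j) x / l j) ^ (2 * l j))
        (fun x => 0 * exp (0 * Pb (Bl j) x) +
          exp (-2 * l j) * (exp (80 * Pb (Bl j) x) + exp (-80 * Pb (Bl j) x))) hν fun x => by
          rw [zero_mul, zero_add]
          exact hTE.2.2 (l j) _ hl1
      rw [hrp_lin, zero_mul, zero_add] at k
      have k1 := hrp_mgf hEXL hν 80 _ (fun _ => 0) fun p hp =>
        hrp_cosh (hB.op j (mem_insert_self _ _) p hp).1 80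
      have k2 := hrp_mgf hEXL hν (-80) _ (fun _ => 0) fun p hp =>
        hrp_cosh (hB.op j (mem_insert_self _ _) p hp).1 (-80)
      have hb := hrp_sg (Bl j)
      have k3 : ∀ t : ℝ, t ^ 2 = 6400 → exp (t ^ 2 / 2 * sg (Bl j) + ∑ _p ∈ Bl j, (0 : ℝ)) ≤
          exp (l j) := fun t ht => exp_le_exp.2 (by rw [ht, sum_const_zero]; linarith)
      have k4 : exp (-2 * l j) * exp (l j) = exp (-(l j : ℝ)) := by rw [← exp_add]; ring_nf
      have k5 := add_le_add (k1.trans (k3 80 (by norm_num))) (k2.trans (k3 (-80) (by norm_num)))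
      have k6 := mul_le_mul_of_nonneg_left k5 (exp_pos (-2 * l j)).le
      linarith
    rw [e1, e, prod_insert hj]
    simp only [if_true]
    have e2 : ∏ i ∈ S, Ex (Bl i) mu0 (fun x => if i = j then
        (40 * Pb (Bl i) x / l j) ^ (2 * l j) else Et (l i) (κ / 2 * Pb (Bl i) x) ^ 2) =
        ∏ i ∈ S, Ex (Bl i) mu0 (fun x => Et (l i) (κ / 2 * Pb (Bl i) x) ^ 2) :=
      prod_congr rfl fun i hi => by simp only [if_neg (hne i hi)]
    rw [e2]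
    have h5 := mul_le_mul hq (main S Bl l κ h0 h4 hS) (prod_nonneg fun i hi => hrp_nonneg hEXL
      (fun p hp y => hrp_mu0 (hS.op i hi p hp).1 y) fun x => sq_nonneg _) (by positivity)
    exact h5.trans (le_of_eq (by ring))

end Pool.Agent.QM
end

-- part Pool.Agent.P.MP_ea46f5_nt.QM.FMain
section

namespace Pool.Agent.QM

open Complex MeasureTheory Finset
open scoped Real ComplexConjugate

theorem main_geo (n : ℕ) : ∑ j ∈ range n, (1 / 2 : ℝ) ^ j ≤ 2 := by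
  have h := Summable.sum_le_tsum (range n) (fun j _ => by positivity) summable_geometric_two
  rwa [tsum_geometric_two] at h

theorem main_dy {X Y a : ℝ} (hY : 0 < Y) (haY : Y < a) (haX : a ≤ X) :
    ∃ j : ℕ, j < ⌈X / Y⌉₊ ∧ Y ≤ X / 2 ^ j ∧ X / 2 ^ j / 2 < a ∧ a ≤ X / 2 ^ j := by
  have ha : 0 < a := hY.trans haY
  have h1 : 1 ≤ X / a := (one_le_div ha).2 haX
  obtain ⟨j, hj1, hj2⟩ := exists_nat_pow_near h1 (one_lt_two (α := ℝ))
  have hp : (0 : ℝ) < 2 ^ j := by positivity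
  have h3 : a ≤ X / 2 ^ j := by
    rw [le_div_iff₀ hp]
    rw [le_div_iff₀ ha] at hj1
    linarith
  refine ⟨j, ?_, haY.le.trans h3, ?_, h3⟩
  · rw [Nat.lt_ceil]
    have h4 : (j : ℝ) < 2 ^ j := by exact_mod_cast Nat.lt_two_pow_self
    have h5 : X / a ≤ X / Y := div_le_div_of_nonneg_left (ha.le.trans haX) hY haY.le
    linarith
  · rw [div_div, div_lt_iff₀ (by positivity)]
    rw [div_lt_iff₀ ha, pow_succ] at hj2
    linarith

theorem main_bi (S : Finset ℕ) (F : ℕ → Finset ℤ) (g : ℤ → ℝ) (hg : ∀ k, 0 ≤ g k) :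
    ∑ k ∈ S.biUnion F, g k ≤ ∑ j ∈ S, ∑ k ∈ F j, g k := by
  induction S using Finset.induction_on with
  | empty => simp
  | insert a S ha ih =>
    rw [biUnion_insert, sum_insert ha]
    have h6 := sum_union_inter (s₁ := F a) (s₂ := S.biUnion F) (f := g)
    have h7 : 0 ≤ ∑ k ∈ F a ∩ S.biUnion F, g k := sum_nonneg fun k _ => hg k
    linarith

open Classical in
theorem pMAIN (hDY : DY) (hFE : FE) (hBRG : BRG) : MAIN := by
  intro κ h2 h4
  obtain ⟨C, X₀, hC, hD⟩ := hDY κ h2 h4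
  set Y : ℝ := max X₀ 3 with hYdef
  have hY3 : 3 ≤ Y := le_max_right _ _
  set e : ℝ := κ * (κ + 1) / 2 with he
  have he0 : 0 ≤ e := by rw [he]; positivity
  set g : ℤ → ℝ := fun k => ‖Lf k (1 / 2)‖ ^ κ with hg
  have hg0 : ∀ k, 0 ≤ g k := fun k => by rw [hg]; positivity
  set C₀ : ℝ := ∑ k ∈ Icc (-⌈Y⌉) ⌈Y⌉, g k with hC₀
  have hC₀0 : 0 ≤ C₀ := sum_nonneg fun k _ => hg0 k
  refine ⟨C₀ + 2 * C, fun X hX => ?_⟩
  have hX0 : 0 < X := by linarith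
  have hL1 : 1 ≤ Real.log X := by
    rw [Real.le_log_iff_exp_le hX0]
    exact Real.exp_one_lt_d9.le.trans (by linarith)
  have hLe : 1 ≤ Real.log X ^ e := Real.one_le_rpow hL1 he0
  set K : Finset ℤ := (Icc (-⌈X⌉) ⌈X⌉).filter
    fun k => Squarefree k ∧ k ≠ 1 ∧ |(k : ℝ)| ≤ X with hK
  have hsub : Fund X ⊆ K.image disc := by
    intro d hd
    rw [Fund, mem_filter, mem_Ioo] at hd
    obtain ⟨k, hk1, hk2, hk3⟩ := hBRG.1 d hd.2
    have h5 := (hBRG.2.1 k).1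
    rw [qk, hk3] at h5
    have h6 : |(d : ℝ)| ≤ X := by
      rw [abs_le]
      have h7 : -d < ⌈X⌉ := by linarith [hd.1.1]
      have h8 := Int.lt_ceil.1 h7
      have h9 := Int.lt_ceil.1 hd.1.2
      push_cast at h8
      constructor <;> linarith
    have h10 : |(k : ℝ)| ≤ X := h5.trans h6
    refine mem_image.2 ⟨k, ?_, hk3⟩
    rw [hK, mem_filter, mem_Icc]
    have h11 := abs_le.1 (h10.trans (Int.le_ceil X))
    exact ⟨⟨by exact_mod_cast h11.1, by exact_mod_cast h11.2⟩, hk1, hk2, h10⟩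
  have h1 : ∑ d ∈ Fund X, ‖Lhalf d‖ ^ κ ≤ ∑ k ∈ K, g k := by
    calc ∑ d ∈ Fund X, ‖Lhalf d‖ ^ κ ≤ ∑ d ∈ K.image disc, ‖Lhalf d‖ ^ κ :=
          sum_le_sum_of_subset_of_nonneg hsub fun d _ _ => by positivity
      _ ≤ ∑ k ∈ K, ‖Lhalf (disc k)‖ ^ κ :=
          sum_image_le_of_nonneg fun d _ => by positivity
      _ = ∑ k ∈ K, g k := by
          refine sum_congr rfl fun k hk => ?_
          rw [hK, mem_filter] at hk
          rw [(hFE k hk.2.1 hk.2.2.1).2]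
  set S : Finset ℕ := (range ⌈X / Y⌉₊).filter fun j => Y ≤ X / 2 ^ j with hS
  have hsub2 : K ⊆ Icc (-⌈Y⌉) ⌈Y⌉ ∪ S.biUnion fun j => Sq (X / 2 ^ j) := by
    intro k hk
    rw [hK, mem_filter] at hk
    rcases le_or_gt |(k : ℝ)| Y with h | h
    · have h11 := abs_le.1 (h.trans (Int.le_ceil Y))
      exact mem_union_left _ (mem_Icc.2 ⟨by exact_mod_cast h11.1, by exact_mod_cast h11.2⟩)
    · obtain ⟨j, hj1, hj2, hj3, hj4⟩ := main_dy (by linarith) h hk.2.2.2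
      refine mem_union_right _ (mem_biUnion.2 ⟨j, ?_, ?_⟩)
      · rw [hS, mem_filter, mem_range]; exact ⟨hj1, hj2⟩
      · have h11 := abs_le.1 (hj4.trans (Int.le_ceil _))
        rw [Sq, mem_filter, mem_Icc]
        exact ⟨⟨by exact_mod_cast h11.1, by exact_mod_cast h11.2⟩, hk.2.1, hk.2.2.1, hj3, hj4⟩
  have h3 : ∀ j ∈ S, ∑ k ∈ Sq (X / 2 ^ j), g k ≤ C * X * Real.log X ^ e * (1 / 2) ^ j := by
    intro j hj
    rw [hS, mem_filter] at hj
    have hp : (1 : ℝ) ≤ 2 ^ j := one_le_pow₀ one_le_two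
    have h5 : X / 2 ^ j ≤ X := div_le_self hX0.le hp
    have h6 : 3 ≤ X / 2 ^ j := hY3.trans hj.2
    have h7 : Real.log (X / 2 ^ j) ^ e ≤ Real.log X ^ e :=
      Real.rpow_le_rpow (Real.log_nonneg (by linarith)) (Real.log_le_log (by linarith) h5) he0
    calc ∑ k ∈ Sq (X / 2 ^ j), g k ≤ C * (X / 2 ^ j) * Real.log (X / 2 ^ j) ^ e :=
          hD _ ((le_max_left _ _).trans hj.2)
      _ ≤ C * (X / 2 ^ j) * Real.log X ^ e := by gcongr
      _ = C * X * Real.log X ^ e * (1 / 2) ^ j := by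
          rw [one_div, inv_pow]; field_simp
  have h4' : ∑ k ∈ S.biUnion (fun j => Sq (X / 2 ^ j)), g k ≤ C * X * Real.log X ^ e * 2 := by
    calc ∑ k ∈ S.biUnion (fun j => Sq (X / 2 ^ j)), g k
        ≤ ∑ j ∈ S, ∑ k ∈ Sq (X / 2 ^ j), g k := main_bi S _ g hg0
      _ ≤ ∑ j ∈ S, C * X * Real.log X ^ e * (1 / 2) ^ j := sum_le_sum h3
      _ ≤ ∑ j ∈ range ⌈X / Y⌉₊, C * X * Real.log X ^ e * (1 / 2) ^ j :=
          sum_le_sum_of_subset_of_nonneg (filter_subset _ _) fun j _ _ => by positivity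
      _ = C * X * Real.log X ^ e * ∑ j ∈ range ⌈X / Y⌉₊, (1 / 2 : ℝ) ^ j := by rw [mul_sum]
      _ ≤ C * X * Real.log X ^ e * 2 := by
          have := main_geo ⌈X / Y⌉₊
          gcongr
  have h5 : ∑ k ∈ K, g k ≤ C₀ + C * X * Real.log X ^ e * 2 := by
    refine (sum_le_sum_of_subset_of_nonneg hsub2 fun k _ _ => hg0 k).trans ?_
    have h6 := sum_union_inter (s₁ := Icc (-⌈Y⌉) ⌈Y⌉)
      (s₂ := S.biUnion fun j => Sq (X / 2 ^ j)) (f := g)
    have h7 : 0 ≤ ∑ k ∈ Icc (-⌈Y⌉) ⌈Y⌉ ∩ S.biUnion (fun j => Sq (X / 2 ^ j)), g k :=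
      sum_nonneg fun k _ => hg0 k
    linarith
  have h6 : 1 ≤ X * Real.log X ^ e := one_le_mul_of_one_le_of_one_le (by linarith) hLe
  have h7 : C₀ ≤ C₀ * (X * Real.log X ^ e) := le_mul_of_one_le_right hC₀0 h6
  calc ∑ d ∈ Fund X, ‖Lhalf d‖ ^ κ ≤ C₀ + C * X * Real.log X ^ e * 2 := h1.trans h5
    _ ≤ C₀ * (X * Real.log X ^ e) + C * X * Real.log X ^ e * 2 := by linarith
    _ = (C₀ + 2 * C) * X * Real.log X ^ e := by ring

end Pool.Agent.QM
end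

-- part Pool.Agent.P.MP_ea46f5_nt.QM.FPHIa
section

/-! The cut-off `th`, the pieces of `1 / s`, and their far and near bounds. -/

namespace Pool.Agent.QM

open Complex

/-- `φ_0 = θ(sΔ) / s`. -/
noncomputable def phi_ph0 (A : ℕ) (D : ℝ) (s : ℂ) : ℂ := th A (s * D) / s

/-- `φ_j = (θ(sΔ) - θ(sΔ')) / s`. -/
noncomputable def phi_phJ (A : ℕ) (D D' : ℝ) (s : ℂ) : ℂ := (th A (s * D) - th A (s * D')) / s

lemma phi_one_le_norm_one_add {z : ℂ} (hz : 0 ≤ z.re) : 1 ≤ ‖1 + z‖ := by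
  have h := Complex.re_le_norm (1 + z)
  simp only [add_re, one_re] at h
  linarith

lemma phi_one_add_ne_zero {z : ℂ} (hz : 0 ≤ z.re) : (1 + z) ≠ 0 := by
  intro h
  have := phi_one_le_norm_one_add hz
  rw [h, norm_zero] at this
  linarith

lemma phi_re_mul_real (s : ℂ) (D : ℝ) : (s * D).re = s.re * D := by simp

lemma phi_im_mul_real (s : ℂ) (D : ℝ) : (s * D).im = s.im * D := by simp

lemma phi_norm_lin_le (A : ℕ) {z : ℂ} (hz : 0 ≤ z.re) :
    ‖1 + ((A : ℂ) + 1) * z‖ ≤ ((A : ℝ) + 1) * ‖1 + z‖ := by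
  have hA : (0 : ℝ) ≤ A := Nat.cast_nonneg A
  have h0 : 0 ≤ ((A : ℝ) + 1) * ‖1 + z‖ := by positivity
  rw [← sq_le_sq₀ (norm_nonneg _) h0, mul_pow, Complex.sq_norm, Complex.sq_norm,
    Complex.normSq_apply, Complex.normSq_apply]
  simp only [add_re, one_re, mul_re, natCast_re, add_im, natCast_im, one_im, add_zero, zero_mul,
    sub_zero, mul_im, zero_add]
  have h1 : 0 ≤ (A : ℝ) * z.re := mul_nonneg hA hz
  have h2 : 0 ≤ (A : ℝ) * ((A : ℝ) * z.re) := mul_nonneg hA h1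
  nlinarith [mul_nonneg hA hA]

/-- `|θ(z)| ≤ (C+2) e^{-Re z} |1+z|^{-C}` for `A = C + 1`. -/
lemma phi_th_le (C : ℕ) {z : ℂ} (hz : 0 ≤ z.re) :
    ‖th (C + 1) z‖ ≤ ((C : ℝ) + 2) * Real.exp (-z.re) / ‖1 + z‖ ^ C := by
  have h1 := phi_one_le_norm_one_add hz
  have hp : 0 < ‖1 + z‖ := by linarith
  have h2 := phi_norm_lin_le (C + 1) hz
  unfold th
  rw [norm_div, norm_mul, norm_pow, Complex.norm_exp, div_le_div_iff₀ (by positivity) (by positivity)]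
  simp only [neg_re]
  have h3 : ((C + 1 : ℕ) : ℝ) + 1 = (C : ℝ) + 2 := by push_cast; ring
  rw [h3] at h2
  have he := Real.exp_pos (-z.re)
  calc Real.exp (-z.re) * ‖1 + (((C + 1 : ℕ) : ℂ) + 1) * z‖ * ‖1 + z‖ ^ C
      ≤ Real.exp (-z.re) * (((C : ℝ) + 2) * ‖1 + z‖) * ‖1 + z‖ ^ C := by gcongr
    _ = ((C : ℝ) + 2) * Real.exp (-z.re) * ‖1 + z‖ ^ (C + 1) := by ring

lemma phi_th_le_exp (C : ℕ) {z : ℂ} (hz : 0 ≤ z.re) :
    ‖th (C + 1) z‖ ≤ ((C : ℝ) + 2) * Real.exp (-z.re) := by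
  refine (phi_th_le C hz).trans ?_
  have h1 : 1 ≤ ‖1 + z‖ ^ C := one_le_pow₀ (phi_one_le_norm_one_add hz)
  exact div_le_self (by positivity) h1

lemma phi_th_le_const (C : ℕ) {z : ℂ} (hz : 0 ≤ z.re) : ‖th (C + 1) z‖ ≤ (C : ℝ) + 2 := by
  refine (phi_th_le_exp C hz).trans ?_
  have : Real.exp (-z.re) ≤ 1 := Real.exp_le_one_iff.2 (by linarith)
  have h2 : (0 : ℝ) ≤ (C : ℝ) + 2 := by positivity
  nlinarith

lemma phi_pow_one_add_taylor (A : ℕ) {z : ℂ} (hz : ‖z‖ ≤ 1) :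
    ‖(1 + z) ^ A - 1 - (A : ℂ) * z‖ ≤ 3 ^ A * ‖z‖ ^ 2 := by
  induction A with
  | zero => simp
  | succ n ih =>
    have e : (1 + z) ^ (n + 1) - 1 - ((n + 1 : ℕ) : ℂ) * z
        = ((1 + z) ^ n - 1 - (n : ℂ) * z) * (1 + z) + (n : ℂ) * z ^ 2 := by
      push_cast; ring
    have h1 : ‖1 + z‖ ≤ 2 := by
      have := norm_add_le (1 : ℂ) z
      rw [norm_one] at this
      linarith
    have h2 : (n : ℝ) ≤ 3 ^ n := by
      have : n < 3 ^ n := Nat.lt_pow_self (by norm_num)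
      exact_mod_cast this.le
    rw [e]
    calc ‖((1 + z) ^ n - 1 - (n : ℂ) * z) * (1 + z) + (n : ℂ) * z ^ 2‖
        ≤ ‖(1 + z) ^ n - 1 - (n : ℂ) * z‖ * ‖1 + z‖ + (n : ℝ) * ‖z‖ ^ 2 := by
          refine (norm_add_le _ _).trans ?_
          rw [norm_mul, norm_mul, norm_pow, Complex.norm_natCast]
      _ ≤ 3 ^ n * ‖z‖ ^ 2 * 2 + 3 ^ n * ‖z‖ ^ 2 := by gcongr
      _ = 3 ^ (n + 1) * ‖z‖ ^ 2 := by ring

/-- The constant of `phi_th_sub_one`. -/
def phi_thC (C : ℕ) : ℝ := 2 * C + 5 + 3 ^ (C + 1)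

lemma phi_thC_ge (C : ℕ) : (C : ℝ) + 3 ≤ phi_thC C := by
  unfold phi_thC
  have : (0 : ℝ) ≤ 3 ^ (C + 1) := by positivity
  have : (0 : ℝ) ≤ C := Nat.cast_nonneg C
  linarith

lemma phi_thC_pos (C : ℕ) : 0 < phi_thC C := by
  have := phi_thC_ge C
  have : (0 : ℝ) ≤ C := Nat.cast_nonneg C
  linarith

/-- `|θ(z) - 1| ≤ C |z|^2` on the closed right half plane. -/
lemma phi_th_sub_one (C : ℕ) {z : ℂ} (hz : 0 ≤ z.re) :
    ‖th (C + 1) z - 1‖ ≤ phi_thC C * ‖z‖ ^ 2 := by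
  have hC : (0 : ℝ) ≤ C := Nat.cast_nonneg C
  rcases le_total ‖z‖ 1 with h | h
  · have hne : (1 + z) ^ (C + 1) ≠ 0 := pow_ne_zero _ (phi_one_add_ne_zero hz)
    have h1 : 1 ≤ ‖1 + z‖ ^ (C + 1) := one_le_pow₀ (phi_one_le_norm_one_add hz)
    have hr : ‖cexp (-z) - 1 - (-z)‖ ≤ ‖-z‖ ^ 2 :=
      Complex.norm_exp_sub_one_sub_id_le (by rwa [norm_neg])
    rw [norm_neg] at hr
    have hp := phi_pow_one_add_taylor (C + 1) h
    set r := cexp (-z) - 1 - (-z) with hrd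
    set q := (1 + z) ^ (C + 1) - 1 - ((C + 1 : ℕ) : ℂ) * z with hqd
    have e : th (C + 1) z - 1
        = (-(((C : ℂ) + 2) * z ^ 2) + r * (1 + ((C : ℂ) + 2) * z) - q) / (1 + z) ^ (C + 1) := by
      unfold th
      rw [eq_div_iff hne, sub_mul, div_mul_cancel₀ _ hne, hrd, hqd]
      push_cast; ring
    have hn : ‖(C : ℂ) + 2‖ ≤ (C : ℝ) + 2 := by
      refine (norm_add_le _ _).trans ?_
      simp
    have hl : ‖1 + ((C : ℂ) + 2) * z‖ ≤ (C : ℝ) + 3 := by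
      refine (norm_add_le _ _).trans ?_
      rw [norm_one, norm_mul]
      have : ‖(C : ℂ) + 2‖ * ‖z‖ ≤ ((C : ℝ) + 2) * 1 := by gcongr
      linarith
    rw [e, norm_div, norm_pow]
    refine (div_le_self (norm_nonneg _) h1).trans ?_
    calc ‖-(((C : ℂ) + 2) * z ^ 2) + r * (1 + ((C : ℂ) + 2) * z) - q‖
        ≤ ‖(C : ℂ) + 2‖ * ‖z‖ ^ 2 + ‖r‖ * ‖1 + ((C : ℂ) + 2) * z‖ + ‖q‖ := by
          refine (norm_sub_le _ _).trans ?_
          gcongr
          refine (norm_add_le _ _).trans ?_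
          rw [norm_neg, norm_mul, norm_mul, norm_pow]
      _ ≤ ((C : ℝ) + 2) * ‖z‖ ^ 2 + ‖z‖ ^ 2 * ((C : ℝ) + 3) + 3 ^ (C + 1) * ‖z‖ ^ 2 := by gcongr
      _ = phi_thC C * ‖z‖ ^ 2 := by unfold phi_thC; ring
  · have h1 : ‖th (C + 1) z - 1‖ ≤ (C : ℝ) + 3 := by
      refine (norm_sub_le _ _).trans ?_
      have := phi_th_le_const C hz
      rw [norm_one]; linarith
    have h2 : 1 ≤ ‖z‖ ^ 2 := one_le_pow₀ h
    have h3 := phi_thC_ge C
    have h4 := phi_thC_pos C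
    nlinarith

lemma phi_th_diffAt (A : ℕ) {z : ℂ} (hz : 0 ≤ z.re) : DifferentiableAt ℂ (th A) z := by
  unfold th
  refine DifferentiableAt.div (by fun_prop) (by fun_prop) (pow_ne_zero _ (phi_one_add_ne_zero hz))

lemma phi_ne_zero_of_re_pos {s : ℂ} (hs : 0 < s.re) : s ≠ 0 := by
  intro h; rw [h] at hs; simp at hs

lemma phi_th_mul_diffAt (A : ℕ) {D : ℝ} (hD : 0 ≤ D) {s : ℂ} (hs : 0 < s.re) :
    DifferentiableAt ℂ (fun s : ℂ => th A (s * D)) s := by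
  have h : 0 ≤ (s * D).re := by rw [phi_re_mul_real]; positivity
  exact DifferentiableAt.comp (f := fun s : ℂ => s * (D : ℂ)) s (phi_th_diffAt A h) (by fun_prop)

lemma phi_ph0_diffAt (A : ℕ) {D : ℝ} (hD : 0 ≤ D) {s : ℂ} (hs : 0 < s.re) :
    DifferentiableAt ℂ (phi_ph0 A D) s :=
  (phi_th_mul_diffAt A hD hs).div differentiableAt_id (phi_ne_zero_of_re_pos hs)

lemma phi_phJ_diffAt (A : ℕ) {D D' : ℝ} (hD : 0 ≤ D) (hD' : 0 ≤ D') {s : ℂ} (hs : 0 < s.re) :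
    DifferentiableAt ℂ (phi_phJ A D D') s :=
  ((phi_th_mul_diffAt A hD hs).sub (phi_th_mul_diffAt A hD' hs)).div differentiableAt_id
    (phi_ne_zero_of_re_pos hs)

lemma phi_phF_diffAt (A : ℕ) {D : ℝ} (hD : 0 ≤ D) {s : ℂ} (hs : 0 < s.re) :
    DifferentiableAt ℂ (phF A D) s :=
  ((differentiableAt_const _).sub (phi_th_mul_diffAt A hD hs)).div differentiableAt_id
    (phi_ne_zero_of_re_pos hs)

lemma phi_phS_diffAt (D : ℝ) {s : ℂ} (hs : 0 < s.re) : DifferentiableAt ℂ (phs D) s := by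
  unfold phs
  exact DifferentiableAt.div (by fun_prop) differentiableAt_id (phi_ne_zero_of_re_pos hs)

lemma phi_phM_diffAt (D : ℝ) {s : ℂ} (hs : 0 < s.re) : DifferentiableAt ℂ (phm D) s := by
  unfold phm
  exact DifferentiableAt.div (by fun_prop) differentiableAt_id (phi_ne_zero_of_re_pos hs)

/-- The pieces of section 9 add up to `1 / s`. -/
lemma phi_ph_sum (A : ℕ) (D : ℕ → ℝ) (J : ℕ) (s : ℂ) :
    phi_ph0 A (D 0) s + ∑ j ∈ Finset.range J, phi_phJ A (D (j + 1)) (D j) s + phF A (D J) s = 1 / s := by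
  induction J with
  | zero => simp only [phi_ph0, phF, Finset.range_zero, Finset.sum_empty]; ring
  | succ n ih =>
    rw [Finset.sum_range_succ, ← ih]
    simp only [phi_phJ, phF]; ring

/-- The pieces of section 6 add up to `1 / s`. -/
lemma phi_phS_add_phm (D : ℝ) (s : ℂ) : phs D s + phm D s = 1 / s := by
  simp only [phs, phm]; ring

/-! ### Far bounds -/

lemma phi_half_le_norm {e : ℝ} {s : ℂ} (hs : e / 2 ≤ s.re) : e / 2 ≤ ‖s‖ :=
  hs.trans (Complex.re_le_norm s)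

lemma phi_div_far {e : ℝ} (he : 0 < e) {s u : ℂ} (hs : e / 2 ≤ s.re) {M : ℝ} (hu : ‖u‖ ≤ M) :
    ‖u / s‖ ≤ 2 * M / e := by
  have h1 := phi_half_le_norm hs
  have hM : 0 ≤ M := (norm_nonneg _).trans hu
  rw [norm_div]
  calc ‖u‖ / ‖s‖ ≤ M / (e / 2) := by gcongr
    _ = 2 * M / e := by field_simp

lemma phi_ph0_far (C : ℕ) {e D : ℝ} (he : 0 < e) (hD : 0 ≤ D) {s : ℂ} (hs : e / 2 ≤ s.re) :
    ‖phi_ph0 (C + 1) D s‖ ≤ (2 * ((C : ℝ) + 2) / e) * Real.exp (-(D * s.re)) := by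
  have h0 : 0 ≤ (s * D).re := by
    rw [phi_re_mul_real]; exact mul_nonneg (by linarith) hD
  have h := phi_th_le_exp C h0
  rw [phi_re_mul_real, mul_comm s.re D] at h
  refine (phi_div_far he hs h).trans (le_of_eq ?_)
  ring

lemma phi_phJ_far (C : ℕ) {e D D' : ℝ} (he : 0 < e) (hD : 0 ≤ D) (hDD : D ≤ D') {s : ℂ}
    (hs : e / 2 ≤ s.re) :
    ‖phi_phJ (C + 1) D D' s‖ ≤ (4 * ((C : ℝ) + 2) / e) * Real.exp (-(D * s.re)) := by
  have hs0 : 0 ≤ s.re := by linarith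
  have h0 : 0 ≤ (s * D).re := by rw [phi_re_mul_real]; positivity
  have h0' : 0 ≤ (s * D').re := by
    rw [phi_re_mul_real]; exact mul_nonneg hs0 (hD.trans hDD)
  have h := phi_th_le_exp C h0
  have h' := phi_th_le_exp C h0'
  rw [phi_re_mul_real, mul_comm s.re D] at h
  rw [phi_re_mul_real, mul_comm s.re D'] at h'
  have h2 : Real.exp (-(D' * s.re)) ≤ Real.exp (-(D * s.re)) := by
    apply Real.exp_le_exp.2
    have := mul_le_mul_of_nonneg_right hDD hs0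
    linarith
  have h3 : ‖th (C + 1) (s * D) - th (C + 1) (s * D')‖
      ≤ 2 * (((C : ℝ) + 2) * Real.exp (-(D * s.re))) := by
    refine (norm_sub_le _ _).trans ?_
    have : ((C : ℝ) + 2) * Real.exp (-(D' * s.re)) ≤ ((C : ℝ) + 2) * Real.exp (-(D * s.re)) := by
      gcongr
    linarith
  refine (phi_div_far he hs h3).trans (le_of_eq ?_)
  ring

lemma phi_norm_mul_real (s : ℂ) {D : ℝ} (hD : 0 ≤ D) : ‖s * D‖ = ‖s‖ * D := by
  rw [norm_mul, Complex.norm_real, Real.norm_of_nonneg hD]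

/-- `|φ_F(s)| ≤ C |s| Δ^2`. -/
lemma phi_phF_le (C : ℕ) {D : ℝ} (hD : 0 ≤ D) {s : ℂ} (hs : 0 < s.re) :
    ‖phF (C + 1) D s‖ ≤ phi_thC C * D ^ 2 * ‖s‖ := by
  have h0 : 0 ≤ (s * D).re := by rw [phi_re_mul_real]; positivity
  have h := phi_th_sub_one C h0
  have hp : 0 < ‖s‖ := norm_pos_iff.2 (phi_ne_zero_of_re_pos hs)
  unfold phF
  rw [norm_div, norm_sub_rev, div_le_iff₀ hp]
  refine h.trans (le_of_eq ?_)
  rw [phi_norm_mul_real s hD]; ring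

/-- `|φ_F(s)| ≤ C Δ` on the right half plane. -/
lemma phi_phF_far (C : ℕ) {D : ℝ} (hD : 0 ≤ D) {s : ℂ} (hs : 0 < s.re) :
    ‖phF (C + 1) D s‖ ≤ phi_thC C * D := by
  have hp : 0 < ‖s‖ := norm_pos_iff.2 (phi_ne_zero_of_re_pos hs)
  have hc := phi_thC_pos C
  rcases le_total (‖s‖ * D) 1 with h | h
  · refine (phi_phF_le C hD hs).trans ?_
    calc phi_thC C * D ^ 2 * ‖s‖ = phi_thC C * D * (‖s‖ * D) := by ring
      _ ≤ phi_thC C * D * 1 := by gcongr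
      _ = phi_thC C * D := by ring
  · have h0 : 0 ≤ (s * D).re := by rw [phi_re_mul_real]; positivity
    have h1 : ‖1 - th (C + 1) (s * D)‖ ≤ phi_thC C := by
      refine (norm_sub_le _ _).trans ?_
      have := phi_th_le_const C h0
      have := phi_thC_ge C
      rw [norm_one]; linarith
    unfold phF
    rw [norm_div, div_le_iff₀ hp]
    calc ‖1 - th (C + 1) (s * D)‖ ≤ phi_thC C * 1 := by linarith
      _ ≤ phi_thC C * (‖s‖ * D) := by gcongr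
      _ = phi_thC C * D * ‖s‖ := by ring

lemma phi_phS_far {e : ℝ} (he : 0 < e) (D : ℝ) {s : ℂ} (hs : e / 2 ≤ s.re) :
    ‖phs D s‖ ≤ (2 / e) * Real.exp (-(D * s.re)) := by
  have h : ‖cexp (-(s * D))‖ ≤ Real.exp (-(D * s.re)) := by
    rw [Complex.norm_exp, neg_re, phi_re_mul_real, mul_comm]
  refine (phi_div_far he hs h).trans (le_of_eq ?_)
  ring

lemma phi_norm_one_sub_exp_le {z : ℂ} (hz : 0 ≤ z.re) : ‖1 - cexp (-z)‖ ≤ 2 * ‖z‖ := by
  rcases le_total ‖z‖ 1 with h | h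
  · rw [norm_sub_rev]
    have := Complex.norm_exp_sub_one_le (x := -z) (by rwa [norm_neg])
    rwa [norm_neg] at this
  · refine (norm_sub_le _ _).trans ?_
    rw [norm_one, Complex.norm_exp, neg_re]
    have : Real.exp (-z.re) ≤ 1 := Real.exp_le_one_iff.2 (by linarith)
    linarith

/-- `|φ_M(s)| ≤ 2 Δ` on the right half plane. -/
lemma phi_phM_far {D : ℝ} (hD : 0 ≤ D) {s : ℂ} (hs : 0 < s.re) : ‖phm D s‖ ≤ 2 * D := by
  have hp : 0 < ‖s‖ := norm_pos_iff.2 (phi_ne_zero_of_re_pos hs)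
  have h0 : 0 ≤ (s * D).re := by rw [phi_re_mul_real]; positivity
  have h := phi_norm_one_sub_exp_le h0
  unfold phm
  rw [norm_div, div_le_iff₀ hp]
  refine h.trans (le_of_eq ?_)
  rw [phi_norm_mul_real s hD]; ring

/-! ### Near bounds -/

lemma phi_near_re {e t : ℝ} {s : ℂ} (hs : ‖s - (e + t * I)‖ ≤ e / 2) :
    e / 2 ≤ s.re ∧ s.re ≤ 3 * e / 2 := by
  have h := (Complex.abs_re_le_norm (s - (e + t * I))).trans hs
  simp only [sub_re, add_re, ofReal_re, mul_re, I_re, mul_zero, ofReal_im, I_im, mul_one, sub_self,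
    add_zero] at h
  rw [abs_le] at h
  constructor <;> linarith [h.1, h.2]

lemma phi_near_im {e t : ℝ} {s : ℂ} (hs : ‖s - (e + t * I)‖ ≤ e / 2) : |s.im - t| ≤ e / 2 := by
  have h := (Complex.abs_im_le_norm (s - (e + t * I))).trans hs
  simpa using h

lemma phi_near_norm {e t : ℝ} {s : ℂ} (hs : ‖s - (e + t * I)‖ ≤ e / 2) :
    ‖s‖ ≤ 3 / 2 * ‖(e : ℂ) + t * I‖ := by
  have h1 : e ≤ ‖(e : ℂ) + t * I‖ := by
    have := Complex.re_le_norm ((e : ℂ) + t * I)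
    simpa using this
  have h2 : ‖s‖ ≤ ‖s - (e + t * I)‖ + ‖(e : ℂ) + t * I‖ := by
    have := norm_add_le (s - (e + t * I)) ((e : ℂ) + t * I)
    rwa [sub_add_cancel] at this
  linarith

lemma phi_near_lam {e t l D : ℝ} (he : 0 < e) (hl : 0 ≤ l) (hel : e * l ≤ 1) (hlD : l ≤ D) {s : ℂ}
    (hs : ‖s - (e + t * I)‖ ≤ e / 2) : 1 + l * |t| ≤ 3 * ‖1 + s * D‖ := by
  have hD : 0 ≤ D := hl.trans hlD
  have hre := (phi_near_re hs).1
  have h0 : 0 ≤ (s * D).re := by rw [phi_re_mul_real]; exact mul_nonneg (by linarith) hD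
  have h1 := phi_one_le_norm_one_add h0
  have h2 : |s.im| * D ≤ ‖1 + s * D‖ := by
    have := Complex.abs_im_le_norm (1 + s * D)
    rw [add_im, one_im, zero_add, phi_im_mul_real, abs_mul, abs_of_nonneg hD] at this
    exact this
  have h3 : |t| ≤ |s.im| + e / 2 := by
    have := phi_near_im hs
    have h4 := abs_sub_abs_le_abs_sub t s.im
    rw [abs_sub_comm] at this
    linarith
  have h5 : l * |t| ≤ l * (|s.im| + e / 2) := by gcongr
  have h6 : l * |s.im| ≤ D * |s.im| := by gcongr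
  nlinarith

lemma phi_th_near (C : ℕ) {e t l D : ℝ} (he : 0 < e) (hl : 0 ≤ l) (hel : e * l ≤ 1) (hlD : l ≤ D)
    {s : ℂ} (hs : ‖s - (e + t * I)‖ ≤ e / 2) :
    ‖th (C + 1) (s * D)‖ ≤ ((C : ℝ) + 2) * 3 ^ C / (1 + l * |t|) ^ C := by
  have hD : 0 ≤ D := hl.trans hlD
  have hre := (phi_near_re hs).1
  have h0 : 0 ≤ (s * D).re := by rw [phi_re_mul_real]; exact mul_nonneg (by linarith) hD
  have h1 := phi_one_le_norm_one_add h0
  have h2 := phi_near_lam he hl hel hlD hs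
  have hp : 0 < 1 + l * |t| := by positivity
  refine (phi_th_le C h0).trans ?_
  have h3 : Real.exp (-(s * D).re) ≤ 1 := Real.exp_le_one_iff.2 (by linarith)
  rw [div_le_div_iff₀ (by positivity) (by positivity)]
  calc ((C : ℝ) + 2) * Real.exp (-(s * D).re) * (1 + l * |t|) ^ C
      ≤ ((C : ℝ) + 2) * 1 * (3 * ‖1 + s * D‖) ^ C := by gcongr
    _ = ((C : ℝ) + 2) * 3 ^ C * ‖1 + s * D‖ ^ C := by rw [mul_pow]; ring

/-- Near bound of `φ_0` (exponent `α = 0`). -/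
lemma phi_ph0_near (C : ℕ) {e t l D : ℝ} (he : 0 < e) (hl : 0 ≤ l) (hel : e * l ≤ 1) (hlD : l ≤ D)
    {s : ℂ} (hs : ‖s - (e + t * I)‖ ≤ e / 2) :
    ‖phi_ph0 (C + 1) D s‖ ≤ (2 * ((C : ℝ) + 2) * 3 ^ C / e) / (1 + l * |t|) ^ C := by
  refine (phi_div_far he (phi_near_re hs).1 (phi_th_near C he hl hel hlD hs)).trans (le_of_eq ?_)
  ring

/-- Near bound of `φ_j` (exponent `α = 1`). -/
lemma phi_phJ_near (C : ℕ) {e t l D D' : ℝ} (he : 0 < e) (hl : 0 ≤ l) (hel : e * l ≤ 1) (hlD : l ≤ D)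
    (hDD : D ≤ D') (hD3 : D' ≤ 3 * D) {s : ℂ} (hs : ‖s - (e + t * I)‖ ≤ e / 2) :
    ‖phi_phJ (C + 1) D D' s‖
      ≤ (15 * phi_thC C * 3 ^ C * D ^ 2) * ‖(e : ℂ) + t * I‖ / (1 + l * |t|) ^ C := by
  have hD : 0 ≤ D := hl.trans hlD
  have hD' : 0 ≤ D' := hD.trans hDD
  have hre := (phi_near_re hs).1
  have hs0 : 0 < s.re := by linarith
  have hp : 0 < ‖s‖ := norm_pos_iff.2 (phi_ne_zero_of_re_pos hs0)
  have hq : 0 < 1 + l * |t| := by positivity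
  have hc := phi_thC_pos C
  have hn := phi_near_norm hs
  have key : ‖th (C + 1) (s * D) - th (C + 1) (s * D')‖
      ≤ 10 * phi_thC C * 3 ^ C * (‖s‖ * D) ^ 2 / (1 + l * |t|) ^ C := by
    rcases le_total (‖s‖ * D) 1 with h | h
    · have h0 : 0 ≤ (s * D).re := by rw [phi_re_mul_real]; positivity
      have h0' : 0 ≤ (s * D').re := by rw [phi_re_mul_real]; positivity
      have h1 := phi_th_sub_one C h0
      have h2 := phi_th_sub_one C h0'
      rw [phi_norm_mul_real s hD] at h1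
      rw [phi_norm_mul_real s hD'] at h2
      have h3 : (‖s‖ * D') ^ 2 ≤ (‖s‖ * (3 * D)) ^ 2 := by gcongr
      have h4 : ‖th (C + 1) (s * D) - th (C + 1) (s * D')‖ ≤ 10 * phi_thC C * (‖s‖ * D) ^ 2 := by
        have e1 : th (C + 1) (s * D) - th (C + 1) (s * D')
            = (th (C + 1) (s * D) - 1) - (th (C + 1) (s * D') - 1) := by ring
        rw [e1]
        refine (norm_sub_le _ _).trans ?_
        have h5 : phi_thC C * (‖s‖ * D') ^ 2 ≤ phi_thC C * (‖s‖ * (3 * D)) ^ 2 := by gcongr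
        have h6 : phi_thC C * (‖s‖ * (3 * D)) ^ 2 = 9 * (phi_thC C * (‖s‖ * D) ^ 2) := by ring
        linarith
      have h7 : 1 + l * |t| ≤ 3 := by
        have h8 : |t| ≤ |s.im| + e / 2 := by
          have := phi_near_im hs
          have h4 := abs_sub_abs_le_abs_sub t s.im
          rw [abs_sub_comm] at this
          linarith
        have h9 : |s.im| ≤ ‖s‖ := Complex.abs_im_le_norm s
        have h10 : l * |t| ≤ l * (‖s‖ + e / 2) := by gcongr; linarith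
        have h11 : l * ‖s‖ ≤ D * ‖s‖ := by gcongr
        nlinarith
      rw [le_div_iff₀ (by positivity)]
      calc ‖th (C + 1) (s * D) - th (C + 1) (s * D')‖ * (1 + l * |t|) ^ C
          ≤ 10 * phi_thC C * (‖s‖ * D) ^ 2 * 3 ^ C := by gcongr
        _ = 10 * phi_thC C * 3 ^ C * (‖s‖ * D) ^ 2 := by ring
    · have h1 := phi_th_near C he hl hel hlD hs
      have h2 := phi_th_near C he hl hel (hlD.trans hDD) hs
      have h3 : 1 ≤ (‖s‖ * D) ^ 2 := one_le_pow₀ h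
      have h4 := phi_thC_ge C
      have hC : (0 : ℝ) ≤ C := Nat.cast_nonneg C
      refine (norm_sub_le _ _).trans ?_
      calc ‖th (C + 1) (s * D)‖ + ‖th (C + 1) (s * D')‖
          ≤ ((C : ℝ) + 2) * 3 ^ C / (1 + l * |t|) ^ C
            + ((C : ℝ) + 2) * 3 ^ C / (1 + l * |t|) ^ C := add_le_add h1 h2
        _ = (2 * ((C : ℝ) + 2)) * 3 ^ C * 1 / (1 + l * |t|) ^ C := by ring
        _ ≤ 10 * phi_thC C * 3 ^ C * (‖s‖ * D) ^ 2 / (1 + l * |t|) ^ C := by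
          have h5 : 2 * ((C : ℝ) + 2) ≤ 10 * phi_thC C := by linarith
          gcongr
  unfold phi_phJ
  rw [norm_div, div_le_iff₀ hp]
  refine key.trans ?_
  calc 10 * phi_thC C * 3 ^ C * (‖s‖ * D) ^ 2 / (1 + l * |t|) ^ C
      = 10 * phi_thC C * 3 ^ C * D ^ 2 * ‖s‖ / (1 + l * |t|) ^ C * ‖s‖ := by ring
    _ ≤ 10 * phi_thC C * 3 ^ C * D ^ 2 * (3 / 2 * ‖(e : ℂ) + t * I‖) / (1 + l * |t|) ^ C * ‖s‖ := by
      gcongr
    _ = 15 * phi_thC C * 3 ^ C * D ^ 2 * ‖(e : ℂ) + t * I‖ / (1 + l * |t|) ^ C * ‖s‖ := by ring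

/-- Near bound of `φ_F` (exponent `α = 1`, `λ = 0`). -/
lemma phi_phF_near (C : ℕ) {e t D : ℝ} (he : 0 < e) (hD : 0 ≤ D) {s : ℂ}
    (hs : ‖s - (e + t * I)‖ ≤ e / 2) :
    ‖phF (C + 1) D s‖ ≤ (2 * phi_thC C * D ^ 2) * ‖(e : ℂ) + t * I‖ := by
  have hre := (phi_near_re hs).1
  have hc := phi_thC_pos C
  have hn := phi_near_norm hs
  refine (phi_phF_le C hD (by linarith)).trans ?_
  calc phi_thC C * D ^ 2 * ‖s‖ ≤ phi_thC C * D ^ 2 * (2 * ‖(e : ℂ) + t * I‖) := by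
        gcongr
        have := norm_nonneg ((e : ℂ) + t * I)
        linarith
    _ = 2 * phi_thC C * D ^ 2 * ‖(e : ℂ) + t * I‖ := by ring

end Pool.Agent.QM
end

-- part Pool.Agent.P.MP_ea46f5_nt.QM.FQF
section

namespace Pool.Agent.QM

open Complex MeasureTheory Finset
open scoped Real ComplexConjugate

theorem qf_step {t x : ℝ} (ht : 0 < t) (hx : 0 < x) :
    t * (x + 1) ^ (-(t + 1)) ≤ x ^ (-t) - (x + 1) ^ (-t) := by
  have h1 : (0 : ℝ) < x + 1 := by linarith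
  have e1 : (x + 1) ^ (-(t + 1)) = (x + 1) ^ (-t) / (x + 1) := by
    rw [neg_add, Real.rpow_add h1, Real.rpow_neg_one, div_eq_mul_inv]
  have e2 : x ^ (-t) = (x + 1) ^ (-t) * ((x + 1) / x) ^ t := by
    rw [Real.div_rpow h1.le hx.le, Real.rpow_neg h1.le, Real.rpow_neg hx.le]
    have : (0 : ℝ) < (x + 1) ^ t := Real.rpow_pos_of_pos h1 t
    field_simp
  have e3 : 1 + t / (x + 1) ≤ ((x + 1) / x) ^ t := by
    have hq : (0 : ℝ) < (x + 1) / x := by positivity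
    rw [Real.rpow_def_of_pos hq]
    have hl : 1 / (x + 1) ≤ Real.log ((x + 1) / x) := by
      have := Real.one_sub_inv_le_log_of_pos hq
      have e : 1 - ((x + 1) / x)⁻¹ = 1 / (x + 1) := by field_simp; ring
      linarith
    have h2 := Real.add_one_le_exp (Real.log ((x + 1) / x) * t)
    have h3 : t / (x + 1) ≤ Real.log ((x + 1) / x) * t := by
      have := mul_le_mul_of_nonneg_right hl ht.le
      have e : 1 / (x + 1) * t = t / (x + 1) := by ring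
      linarith
    linarith
  have hp : 0 < (x + 1) ^ (-t) := Real.rpow_pos_of_pos h1 _
  rw [e1, e2]
  have := mul_le_mul_of_nonneg_left e3 hp.le
  have e4 : t * ((x + 1) ^ (-t) / (x + 1)) = (x + 1) ^ (-t) * (t / (x + 1)) := by ring
  rw [e4]
  nlinarith

theorem qf_zeta {t : ℝ} (ht : 0 < t) (N : ℕ) :
    ∑ n ∈ range N, (n : ℝ) ^ (-(t + 1)) ≤ 1 + 1 / t := by
  have key : ∀ M : ℕ, ∑ n ∈ range (M + 2), (n : ℝ) ^ (-(t + 1)) ≤
      1 + (1 - ((M : ℝ) + 1) ^ (-t)) / t := by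
    intro M
    induction M with
    | zero =>
      have : -(t + 1) ≠ 0 := by linarith
      rw [sum_range_succ, sum_range_one, Nat.cast_zero, Real.zero_rpow this]
      simp
    | succ M ih =>
      rw [show M + 1 + 2 = (M + 2) + 1 from rfl, sum_range_succ]
      have h1 := qf_step ht (x := (M : ℝ) + 1) (by positivity)
      have e : ((M + 2 : ℕ) : ℝ) = (M : ℝ) + 1 + 1 := by push_cast; ring
      have e' : ((M + 1 : ℕ) : ℝ) = (M : ℝ) + 1 := by push_cast; ring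
      rw [e, e']
      have h2 : ((M : ℝ) + 1 + 1) ^ (-(t + 1)) ≤
          (((M : ℝ) + 1) ^ (-t) - ((M : ℝ) + 1 + 1) ^ (-t)) / t := by
        rw [le_div_iff₀ ht]
        linarith
      have h3 : (1 - ((M : ℝ) + 1 + 1) ^ (-t)) / t = (1 - ((M : ℝ) + 1) ^ (-t)) / t +
          (((M : ℝ) + 1) ^ (-t) - ((M : ℝ) + 1 + 1) ^ (-t)) / t := by ring
      linarith
  have h0 : ∑ n ∈ range N, (n : ℝ) ^ (-(t + 1)) ≤ ∑ n ∈ range (N + 2), (n : ℝ) ^ (-(t + 1)) :=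
    sum_le_sum_of_subset_of_nonneg (range_subset_range.2 (by omega))
      (fun n _ _ => by positivity)
  refine h0.trans ((key N).trans ?_)
  have h1 : 0 ≤ ((N : ℝ) + 1) ^ (-t) := by positivity
  have h2 : (1 - ((N : ℝ) + 1) ^ (-t)) / t ≤ 1 / t :=
    div_le_div_of_nonneg_right (by linarith) ht.le
  linarith

theorem qf_split {a b : ℕ} (ha : a ≠ 0) (h : IsSquare (a * b)) :
    ∃ y : ℕ × ℕ × ℕ, a = y.1 * y.2.1 ^ 2 ∧ b = y.1 * y.2.2 ^ 2 := by
  obtain ⟨c, hc⟩ := h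
  have hg : 0 < Nat.gcd a b := Nat.gcd_pos_of_pos_left _ (Nat.pos_of_ne_zero ha)
  obtain ⟨a', b', hco, ha', hb'⟩ := Nat.exists_coprime a b
  set g := Nat.gcd a b
  have h1 : g ^ 2 * (a' * b') = c ^ 2 := by
    rw [pow_two c, ← hc]
    calc g ^ 2 * (a' * b') = (a' * g) * (b' * g) := by ring
      _ = a * b := by rw [← ha', ← hb']
  have h2 : g ∣ c := (Nat.pow_dvd_pow_iff (by norm_num)).1 ⟨_, h1.symm⟩
  obtain ⟨d, hd⟩ := h2
  have h3 : a' * b' = d ^ 2 := by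
    have : g ^ 2 * (a' * b') = g ^ 2 * d ^ 2 := by rw [h1, hd]; ring
    exact Nat.eq_of_mul_eq_mul_left (by positivity) this
  have hu : IsUnit (gcd a' b') := by
    rw [show gcd a' b' = Nat.gcd a' b' from rfl, hco]; exact isUnit_one
  have hu' : IsUnit (gcd b' a') := by
    rw [show gcd b' a' = Nat.gcd b' a' from rfl, hco.symm]; exact isUnit_one
  obtain ⟨u, hu1⟩ := exists_eq_pow_of_mul_eq_pow hu h3
  obtain ⟨v, hv1⟩ := exists_eq_pow_of_mul_eq_pow hu' (by rw [mul_comm]; exact h3)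
  exact ⟨(g, u, v), by rw [← hu1, mul_comm]; exact ha', by rw [← hv1, mul_comm]; exact hb'⟩

open Classical in
theorem qf_diag {ε : ℝ} (hε : 0 < ε) (s : Finset (ℕ × ℕ)) :
    ∑ x ∈ s, (if x.1 ≠ 0 ∧ IsSquare (x.1 * x.2) then
      (x.1 : ℝ) ^ (-(1 / 2 + ε)) * (x.2 : ℝ) ^ (-(1 / 2 + ε)) else 0) ≤ (1 + 1 / (2 * ε)) ^ 3 := by
  set z : ℕ → ℝ := fun n => (n : ℝ) ^ (-(2 * ε + 1)) with hz
  have hz0 : ∀ n, 0 ≤ z n := fun n => by positivity
  have hzs : ∀ u : Finset ℕ, ∑ n ∈ u, z n ≤ 1 + 1 / (2 * ε) := by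
    intro u
    obtain ⟨N, hN⟩ := u.exists_nat_subset_range
    exact (sum_le_sum_of_subset_of_nonneg hN fun n _ _ => hz0 n).trans
      (qf_zeta (by positivity) N)
  have hex : ∀ x : ℕ × ℕ, ∃ y : ℕ × ℕ × ℕ, x.1 ≠ 0 ∧ IsSquare (x.1 * x.2) →
      x.1 = y.1 * y.2.1 ^ 2 ∧ x.2 = y.1 * y.2.2 ^ 2 := by
    intro x
    by_cases h : x.1 ≠ 0 ∧ IsSquare (x.1 * x.2)
    · obtain ⟨y, hy⟩ := qf_split h.1 h.2
      exact ⟨y, fun _ => hy⟩
    · exact ⟨(0, 0, 0), fun h' => absurd h' h⟩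
  choose σ hσ using hex
  rw [← sum_filter]
  set s' := s.filter fun x : ℕ × ℕ => x.1 ≠ 0 ∧ IsSquare (x.1 * x.2) with hs'
  have hinj : Set.InjOn σ s' := by
    intro x hx x' hx' h
    have h1 := hσ x (mem_filter.1 (mem_coe.1 hx)).2
    have h2 := hσ x' (mem_filter.1 (mem_coe.1 hx')).2
    rw [h] at h1
    exact Prod.ext (h1.1.trans h2.1.symm) (h1.2.trans h2.2.symm)
  have hw : ∀ x ∈ s', (x.1 : ℝ) ^ (-(1 / 2 + ε)) * (x.2 : ℝ) ^ (-(1 / 2 + ε)) =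
      z (σ x).1 * (z (σ x).2.1 * z (σ x).2.2) := by
    intro x hx
    obtain ⟨h1, h2⟩ := hσ x (mem_filter.1 hx).2
    have e : (x.1 : ℝ) * (x.2 : ℝ) = (((σ x).1 : ℝ) * (((σ x).2.1 : ℝ) * ((σ x).2.2 : ℝ))) ^ 2 := by
      have : x.1 * x.2 = ((σ x).1 * ((σ x).2.1 * (σ x).2.2)) ^ 2 := by
        calc x.1 * x.2 = ((σ x).1 * (σ x).2.1 ^ 2) * ((σ x).1 * (σ x).2.2 ^ 2) := by
              rw [← h1, ← h2]
          _ = _ := by ring
      exact_mod_cast this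
    rw [← Real.mul_rpow (by positivity) (by positivity), e, hz]
    simp only
    rw [← Real.mul_rpow (by positivity) (by positivity),
      ← Real.mul_rpow (by positivity) (by positivity), ← Real.rpow_natCast,
      ← Real.rpow_mul (by positivity)]
    congr 1
    push_cast
    ring
  rw [sum_congr rfl hw, ← sum_image (f := fun y : ℕ × ℕ × ℕ => z y.1 * (z y.2.1 * z y.2.2)) hinj]
  set u := s'.image σ
  have hsub : u ⊆ (u.image fun y => y.1) ×ˢ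
      ((u.image fun y => y.2.1) ×ˢ (u.image fun y => y.2.2)) := by
    intro y hy
    simp only [mem_product]
    exact ⟨mem_image_of_mem _ hy, mem_image_of_mem (fun y : ℕ × ℕ × ℕ => y.2.1) hy,
      mem_image_of_mem (fun y : ℕ × ℕ × ℕ => y.2.2) hy⟩
  refine (sum_le_sum_of_subset_of_nonneg hsub fun y _ _ =>
    mul_nonneg (hz0 _) (mul_nonneg (hz0 _) (hz0 _))).trans ?_
  rw [sum_product]
  simp only [sum_product, ← mul_sum, ← sum_mul]
  have hb : 0 ≤ 1 + 1 / (2 * ε) := by positivity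
  calc _ ≤ (1 + 1 / (2 * ε)) * ((1 + 1 / (2 * ε)) * (1 + 1 / (2 * ε))) :=
        mul_le_mul (hzs _) (mul_le_mul (hzs _) (hzs _) (sum_nonneg fun n _ => hz0 n) hb)
          (mul_nonneg (sum_nonneg fun n _ => hz0 n) (sum_nonneg fun n _ => hz0 n)) hb
    _ = _ := by ring

theorem qf_off {c : ℕ → ℝ} {X W : ℝ} (hX : 1 ≤ X) (hW : 0 ≤ W)
    (hc : ∀ n, 0 ≤ c n) (h1 : ∀ n, c n ≤ W) (h2 : ∀ n, n ≠ 0 → c n ≤ W * X / (n : ℝ) ^ 2)
    (u : Finset ℕ) : ∑ n ∈ u, c n ≤ 5 * W * √X := by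
  obtain ⟨M, hM⟩ := u.exists_nat_subset_range
  have hs1 : 1 ≤ √X := Real.one_le_sqrt.2 hX
  have hss : √X * √X = X := Real.mul_self_sqrt (by linarith)
  set N := ⌈√X⌉₊ with hN
  have hN1 : √X ≤ N := Nat.le_ceil _
  have hN2 : (N : ℝ) ≤ √X + 1 := (Nat.ceil_lt_add_one (by linarith)).le
  have hsub : u ⊆ range (N + 1) ∪ Ioo N M := by
    intro n hn
    have := mem_range.1 (hM hn)
    simp only [mem_union, mem_range, mem_Ioo]
    omega
  have hdis : Disjoint (range (N + 1)) (Ioo N M) := by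
    rw [disjoint_left]
    intro n h h'
    simp only [mem_range, mem_Ioo] at h h'
    omega
  refine (sum_le_sum_of_subset_of_nonneg hsub fun n _ _ => hc n).trans ?_
  rw [sum_union hdis]
  have a1 : ∑ n ∈ range (N + 1), c n ≤ (N + 1) * W := by
    refine (sum_le_sum fun n _ => h1 n).trans ?_
    simp
  have a2 : ∑ n ∈ Ioo N M, c n ≤ W * X * (2 / ((N : ℝ) + 1)) := by
    refine le_trans (sum_le_sum fun n hn => h2 n (by have := (mem_Ioo.1 hn).1; omega)) ?_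
    simp only [div_eq_mul_inv (W * X)]
    rw [← mul_sum]
    exact mul_le_mul_of_nonneg_left (sum_Ioo_inv_sq_le N M) (by positivity)
  have a3 : X * (2 / ((N : ℝ) + 1)) ≤ 2 * √X := by
    rw [← mul_div_assoc, div_le_iff₀ (by positivity)]
    nlinarith
  have a4 : W * X * (2 / ((N : ℝ) + 1)) ≤ W * (2 * √X) := by
    rw [mul_assoc]
    exact mul_le_mul_of_nonneg_left a3 hW
  have a5 : ((N : ℝ) + 1) * W ≤ (3 * √X) * W := mul_le_mul_of_nonneg_right (by linarith) hW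
  nlinarith

theorem qf_jac (m : ℤ) (n : ℕ) : |(jacobiSym m n : ℝ)| ≤ 1 := by
  rcases jacobiSym.trichotomy m n with h | h | h <;> simp [h]

/-- The expansion of the square and the exchange of the sums. -/
theorem qf_core (G : ℤ → ℝ) (hG0 : ∀ m, 0 ≤ G m) (hG : Summable G) (a : ℕ → ℂ) (ha0 : a 0 = 0)
    (ha : Summable fun n => ‖a n‖) (F : Finset ℤ) (B : ℝ)
    (hB : ∀ s : Finset (ℕ × ℕ), ∑ x ∈ s, ‖a x.1‖ * ‖a x.2‖ *
      |∑' m : ℤ, G m * (jacobiSym m (x.1 * x.2) : ℝ)| ≤ B) :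
    ∑ m ∈ F, G m * ‖∑' n : ℕ, (jacobiSym m n : ℂ) * a n‖ ^ 2 ≤ B := by
  have hja : ∀ (m : ℤ) (n : ℕ), ‖(jacobiSym m n : ℂ)‖ ≤ 1 := by
    intro m n
    rcases jacobiSym.trichotomy m n with h | h | h <;> simp [h]
  have hs : ∀ m : ℤ, Summable fun n => ‖(jacobiSym m n : ℂ) * a n‖ := fun m =>
    Summable.of_nonneg_of_le (fun _ => norm_nonneg _) (fun n => by
      rw [norm_mul]; exact mul_le_of_le_one_left (norm_nonneg _) (hja m n)) ha
  have hs' : ∀ m : ℤ, Summable fun n => ‖(jacobiSym m n : ℂ) * conj (a n)‖ := fun m => by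
    simpa using hs m
  set f : ℤ × (ℕ × ℕ) → ℂ := fun y =>
    (G y.1 : ℂ) * ((jacobiSym y.1 (y.2.1 * y.2.2) : ℂ) * (a y.2.1 * conj (a y.2.2))) with hf
  have haa : Summable fun x : ℕ × ℕ => ‖a x.1‖ * ‖a x.2‖ :=
    ha.mul_of_nonneg ha (fun _ => norm_nonneg _) (fun _ => norm_nonneg _)
  have hfs : Summable f := by
    have h3 : Summable fun y : ℤ × (ℕ × ℕ) => G y.1 * (‖a y.2.1‖ * ‖a y.2.2‖) :=
      hG.mul_of_nonneg (g := fun x : ℕ × ℕ => ‖a x.1‖ * ‖a x.2‖) haa hG0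
        (fun _ => by positivity)
    refine Summable.of_norm_bounded h3 fun y => ?_
    simp only [hf, norm_mul, Complex.norm_real, Real.norm_eq_abs, abs_of_nonneg (hG0 _),
      Complex.norm_conj]
    exact mul_le_mul_of_nonneg_left (mul_le_of_le_one_left (by positivity) (hja _ _)) (hG0 _)
  have hrow : ∀ m : ℤ, ∑' x : ℕ × ℕ, f (m, x) =
      ((G m * ‖∑' n : ℕ, (jacobiSym m n : ℂ) * a n‖ ^ 2 : ℝ) : ℂ) := by
    intro m
    have e1 : conj (∑' n : ℕ, (jacobiSym m n : ℂ) * a n) =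
        ∑' n : ℕ, (jacobiSym m n : ℂ) * conj (a n) := by
      rw [Complex.conj_tsum]
      simp
    push_cast
    rw [← Complex.mul_conj', e1, tsum_mul_tsum_of_summable_norm (hs m) (hs' m), ← tsum_mul_left]
    refine tsum_congr fun x => ?_
    simp only [hf]
    by_cases h1 : x.1 = 0
    · simp [h1, ha0]
    by_cases h2 : x.2 = 0
    · simp [h2, ha0]
    rw [jacobiSym.mul_right' m h1 h2]
    push_cast
    ring
  have hcol : ∀ x : ℕ × ℕ, ∑' m : ℤ, f (m, x) =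
      ((∑' m : ℤ, G m * (jacobiSym m (x.1 * x.2) : ℝ) : ℝ) : ℂ) * (a x.1 * conj (a x.2)) := by
    intro x
    rw [Complex.ofReal_tsum, ← tsum_mul_right]
    refine tsum_congr fun m => ?_
    simp only [hf]
    push_cast
    ring
  have hsum : Summable fun m : ℤ => G m * ‖∑' n : ℕ, (jacobiSym m n : ℂ) * a n‖ ^ 2 := by
    have := hfs.prod
    simp only [hrow] at this
    exact Complex.summable_ofReal.1 this
  have hT0 : 0 ≤ ∑' m : ℤ, G m * ‖∑' n : ℕ, (jacobiSym m n : ℂ) * a n‖ ^ 2 :=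
    tsum_nonneg fun m => mul_nonneg (hG0 m) (by positivity)
  refine (hsum.sum_le_tsum F fun m _ => mul_nonneg (hG0 m) (by positivity)).trans ?_
  have e : ((∑' m : ℤ, G m * ‖∑' n : ℕ, (jacobiSym m n : ℂ) * a n‖ ^ 2 : ℝ) : ℂ) =
      ∑' x : ℕ × ℕ, ∑' m : ℤ, f (m, x) := by
    rw [Complex.ofReal_tsum, Summable.tsum_comm (f := fun m x => f (m, x)) hfs]
    exact tsum_congr fun m => (hrow m).symm
  have hn : ∀ x : ℕ × ℕ, ‖∑' m : ℤ, f (m, x)‖ = ‖a x.1‖ * ‖a x.2‖ *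
      |∑' m : ℤ, G m * (jacobiSym m (x.1 * x.2) : ℝ)| := by
    intro x
    rw [hcol, norm_mul, norm_mul, Complex.norm_real, Real.norm_eq_abs, Complex.norm_conj]
    ring
  have hnn : (0 : ℕ × ℕ → ℝ) ≤ fun x => ‖∑' m : ℤ, f (m, x)‖ := fun _ => norm_nonneg _
  have hB' : ∀ s : Finset (ℕ × ℕ), ∑ x ∈ s, ‖∑' m : ℤ, f (m, x)‖ ≤ B := fun s => by
    simp only [hn]; exact hB s
  calc _ = ‖((∑' m : ℤ, G m * ‖∑' n : ℕ, (jacobiSym m n : ℂ) * a n‖ ^ 2 : ℝ) : ℂ)‖ := by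
        rw [Complex.norm_real, Real.norm_eq_abs, abs_of_nonneg hT0]
    _ ≤ ∑' x : ℕ × ℕ, ‖∑' m : ℤ, f (m, x)‖ := by
        rw [e]; exact norm_tsum_le_tsum_norm (summable_of_sum_le hnn hB')
    _ ≤ B := Real.tsum_le_of_sum_le hnn hB'

theorem pQF (hP2 : P2) (hTKB : TKB) : QF := by
  classical
  refine ⟨29, by norm_num, fun V X ε W F hX hε hε1 hW hV => ?_⟩
  have hX0 : 0 < X := by linarith
  set a : ℕ → ℂ := fun n => if Odd n then (n : ℂ) ^ (-(1 / 2 : ℂ)) * V n else 0 with ha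
  have ha0 : a 0 = 0 := by simp [ha]
  have hnp : ∀ n : ℕ, n ≠ 0 → ‖(n : ℂ) ^ (-(1 / 2 : ℂ))‖ = (n : ℝ) ^ (-(1 / 2 : ℝ)) := by
    intro n hn
    rw [Complex.norm_natCast_cpow_of_pos (Nat.pos_of_ne_zero hn)]
    simp
  have hodd : ∀ n : ℕ, Odd n → n ≠ 0 := fun n h => by rintro rfl; simp at h
  have hA : ∀ n : ℕ, ‖a n‖ ≤ W * (n : ℝ) ^ (-(1 / 2 + ε)) := by
    intro n
    by_cases h : Odd n
    · have hn := hodd n h
      have hn' : (0 : ℝ) < n := by exact_mod_cast Nat.pos_of_ne_zero hn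
      simp only [ha, if_pos h]
      rw [norm_mul, hnp n hn, neg_add, Real.rpow_add hn']
      calc _ ≤ (n : ℝ) ^ (-(1 / 2 : ℝ)) * (W * (n : ℝ) ^ (-ε)) :=
            mul_le_mul_of_nonneg_left (hV n hn).1 (by positivity)
        _ = _ := by ring
    · simp only [ha, if_neg h, norm_zero]
      positivity
  set c : ℕ → ℝ := fun n => ‖a n‖ * √(n : ℝ) with hc
  have hcV : ∀ n : ℕ, n ≠ 0 → c n ≤ ‖V n‖ := by
    intro n hn
    have hn' : (0 : ℝ) < n := by exact_mod_cast Nat.pos_of_ne_zero hn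
    by_cases h : Odd n
    · simp only [hc, ha, if_pos h]
      rw [norm_mul, hnp n hn, Real.rpow_neg hn'.le, ← Real.sqrt_eq_rpow]
      have : 0 < √(n : ℝ) := Real.sqrt_pos.2 hn'
      apply le_of_eq
      field_simp
    · simp [hc, ha, if_neg h]
  have hc0 : c 0 = 0 := by simp [hc]
  have hcn : ∀ n, 0 ≤ c n := fun n => by positivity
  have hc1 : ∀ n, c n ≤ W := by
    intro n
    by_cases hn : n = 0
    · rw [hn, hc0]; exact hW
    · have hn' : (1 : ℝ) ≤ n := by exact_mod_cast Nat.pos_of_ne_zero hn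
      exact (hcV n hn).trans ((hV n hn).1.trans (mul_le_of_le_one_right hW
        (Real.rpow_le_one_of_one_le_of_nonpos hn' (by linarith))))
  have hc2 : ∀ n, n ≠ 0 → c n ≤ W * X / (n : ℝ) ^ 2 := fun n hn => (hcV n hn).trans (hV n hn).2
  have hoff := qf_off hX hW hcn hc1 hc2
  have hsa : Summable fun n => ‖a n‖ := by
    refine Summable.of_nonneg_of_le (fun _ => norm_nonneg _) (fun n => ?_)
      (summable_of_sum_le hcn hoff)
    by_cases hn : n = 0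
    · rw [hn, ha0, hc0]; simp
    · have hn' : (1 : ℝ) ≤ n := by exact_mod_cast Nat.pos_of_ne_zero hn
      exact le_mul_of_one_le_right (norm_nonneg _) (Real.one_le_sqrt.2 hn')
  have hG0 : ∀ m, 0 ≤ GX X m := fun m => (Real.exp_pos _).le
  have e : ∀ (m : ℤ) (n : ℕ), jo m n * (n : ℂ) ^ (-(1 / 2 : ℂ)) * V n =
      (jacobiSym m n : ℂ) * a n := by
    intro m n
    by_cases h : Odd n
    · simp only [jo, ha, if_pos h]; ring
    · simp [jo, ha, if_neg h]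
  simp only [e]
  refine qf_core (GX X) hG0 (hP2 X 1 hX0 odd_one).1 a ha0 hsa F _ fun s => ?_
  have hpt : ∀ x : ℕ × ℕ, ‖a x.1‖ * ‖a x.2‖ * |∑' m : ℤ, GX X m * (jacobiSym m (x.1 * x.2) : ℝ)| ≤
      W ^ 2 * X * (if x.1 ≠ 0 ∧ IsSquare (x.1 * x.2) then
        (x.1 : ℝ) ^ (-(1 / 2 + ε)) * (x.2 : ℝ) ^ (-(1 / 2 + ε)) else 0) + c x.1 * c x.2 := by
    intro x
    have hite : 0 ≤ (if x.1 ≠ 0 ∧ IsSquare (x.1 * x.2) then
        (x.1 : ℝ) ^ (-(1 / 2 + ε)) * (x.2 : ℝ) ^ (-(1 / 2 + ε)) else 0) := by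
      split_ifs <;> positivity
    have hr : 0 ≤ W ^ 2 * X * (if x.1 ≠ 0 ∧ IsSquare (x.1 * x.2) then
        (x.1 : ℝ) ^ (-(1 / 2 + ε)) * (x.2 : ℝ) ^ (-(1 / 2 + ε)) else 0) + c x.1 * c x.2 :=
      add_nonneg (mul_nonneg (by positivity) hite) (mul_nonneg (hcn _) (hcn _))
    by_cases h1 : Odd x.1
    swap
    · simpa [ha, if_neg h1] using hr
    by_cases h2 : Odd x.2
    swap
    · simpa [ha, if_neg h2] using hr
    have ho : Odd (x.1 * x.2) := h1.mul h2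
    have hp := (hP2 X _ hX0 ho).2.2
    obtain ⟨t0, t1, t2⟩ := hTKB.2.2.2 (x.1 * x.2)
    have hS : |Sg X (x.1 * x.2)| ≤ X * T0 (x.1 * x.2) + √(x.1 : ℝ) * √(x.2 : ℝ) := by
      rw [← Real.sqrt_mul (by positivity), ← Nat.cast_mul]
      have := abs_le.1 hp
      have h3 : 0 ≤ X * T0 (x.1 * x.2) := mul_nonneg hX0.le t0
      rw [abs_le]
      constructor <;> linarith [this.1, this.2]
    have hab : 0 ≤ ‖a x.1‖ * ‖a x.2‖ := by positivity
    have h4 : ‖a x.1‖ * ‖a x.2‖ * (X * T0 (x.1 * x.2)) ≤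
        W ^ 2 * X * (if x.1 ≠ 0 ∧ IsSquare (x.1 * x.2) then
          (x.1 : ℝ) ^ (-(1 / 2 + ε)) * (x.2 : ℝ) ^ (-(1 / 2 + ε)) else 0) := by
      by_cases hq : IsSquare (x.1 * x.2)
      · rw [if_pos ⟨hodd _ h1, hq⟩]
        calc _ ≤ (W * (x.1 : ℝ) ^ (-(1 / 2 + ε))) * (W * (x.2 : ℝ) ^ (-(1 / 2 + ε))) * (X * 1) :=
              mul_le_mul (mul_le_mul (hA _) (hA _) (norm_nonneg _) (by positivity))
                (mul_le_mul_of_nonneg_left t1 hX0.le) (mul_nonneg hX0.le t0) (by positivity)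
          _ = _ := by ring
      · rw [t2 (hodd _ ho) hq]
        simpa using mul_nonneg (by positivity : 0 ≤ W ^ 2 * X) hite
    calc _ ≤ ‖a x.1‖ * ‖a x.2‖ * (X * T0 (x.1 * x.2) + √(x.1 : ℝ) * √(x.2 : ℝ)) :=
          mul_le_mul_of_nonneg_left hS hab
      _ = ‖a x.1‖ * ‖a x.2‖ * (X * T0 (x.1 * x.2)) + c x.1 * c x.2 := by
          simp only [hc]; ring
      _ ≤ _ := by linarith
  refine (sum_le_sum fun x _ => hpt x).trans ?_
  rw [sum_add_distrib, ← mul_sum]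
  have d1 := qf_diag hε s
  have d2 : ∑ x ∈ s, c x.1 * c x.2 ≤ (5 * W * √X) * (5 * W * √X) := by
    have hsub : s ⊆ (s.image Prod.fst) ×ˢ (s.image Prod.snd) := subset_product
    refine (sum_le_sum_of_subset_of_nonneg hsub fun y _ _ => mul_nonneg (hcn _) (hcn _)).trans ?_
    rw [sum_product]
    simp only [← mul_sum, ← sum_mul]
    exact mul_le_mul (hoff _) (hoff _) (sum_nonneg fun n _ => hcn n) (by positivity)
  have hss : √X * √X = X := Real.mul_self_sqrt hX0.le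
  have d3 : (5 * W * √X) * (5 * W * √X) = 25 * (W ^ 2 * X) := by
    calc _ = 25 * W ^ 2 * (√X * √X) := by ring
      _ = _ := by rw [hss]; ring
  have he : 1 ≤ 1 / ε := by rw [le_div_iff₀ hε]; linarith
  have d4 : (1 + 1 / (2 * ε)) ^ 3 ≤ 4 * (1 / ε) ^ 3 := by
    have : 1 + 1 / (2 * ε) ≤ 3 / 2 * (1 / ε) := by
      have : 1 / (2 * ε) = 1 / 2 * (1 / ε) := by field_simp
      linarith
    calc _ ≤ (3 / 2 * (1 / ε)) ^ 3 := pow_le_pow_left₀ (by positivity) this 3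
      _ = 27 / 8 * (1 / ε) ^ 3 := by ring
      _ ≤ _ := mul_le_mul_of_nonneg_right (by norm_num) (by positivity)
  have d5 : 1 ≤ (1 / ε) ^ 3 := one_le_pow₀ he
  have hWX : 0 ≤ W ^ 2 * X := by positivity
  have d6 : 29 * W ^ 2 * X / ε ^ 3 = W ^ 2 * X * (4 * (1 / ε) ^ 3) + 25 * (W ^ 2 * X * (1 / ε) ^ 3) := by
    field_simp
    ring
  rw [d6]
  have d7 := mul_le_mul_of_nonneg_left (d1.trans d4) hWX
  have d8 : W ^ 2 * X ≤ W ^ 2 * X * (1 / ε) ^ 3 := le_mul_of_one_le_right hWX d5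
  linarith

end Pool.Agent.QM
end

-- part Pool.Agent.P.MP_ea46f5_nt.QM.FSEC
section

namespace Pool.Agent.QM

open Complex MeasureTheory Finset
open scoped Real ComplexConjugate

/-- The weight used in the separation step. -/
noncomputable def sec_G (a : ℕ) (γ : ℤ) (X : ℝ) (k : ℤ) (s : ℂ) : ℂ :=
  g0 a γ s * (X : ℂ) ^ (s / 2) * LS k (1 / 2 + s)

lemma sec_LI (hG0B : G0B) (hLSP : LSP) (a : ℕ) (γ : ℤ) (ha : a ≤ 1) (hγ : γ ∈ T3) (X : ℝ)
    (hX : 0 < X) (k : ℤ) : LI (sec_G a γ X k) := by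
  obtain ⟨C, hC, h⟩ := hG0B
  obtain ⟨hd, hb⟩ := h a γ ha hγ
  obtain ⟨-, -, h3, h4, -, -⟩ := hLSP
  have hline : Continuous fun t : ℝ => ((12 : ℂ) + t * I) := by fun_prop
  have hc1 : Continuous fun t : ℝ => g0 a γ (12 + t * I) := by
    refine hd.continuousOn.comp_continuous hline (fun t => ?_)
    simp
  have hc2 : Continuous fun t : ℝ => (X : ℂ) ^ (((12 : ℂ) + t * I) / 2) := by
    refine Continuous.const_cpow (by fun_prop) (Or.inl ?_)
    exact_mod_cast hX.ne'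
  have hc3 : Continuous fun t : ℝ => LS k (1 / 2 + (12 + t * I)) := by
    refine (h4 k).continuousOn.comp_continuous (f := fun t : ℝ => (1 / 2 : ℂ) + (12 + t * I))
      (by fun_prop) (fun t => ?_)
    simp
    norm_num
  have hint : Integrable (fun t : ℝ => (C * X ^ (6 : ℝ) * 2) * Real.exp (-(1 / 2) * t ^ 2)) :=
    (integrable_exp_neg_mul_sq (by norm_num)).const_mul _
  refine hint.mono' ((hc1.mul hc2).mul hc3).aestronglyMeasurable (ae_of_all _ fun t => ?_)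
  have e1 : ‖g0 a γ (12 + t * I)‖ ≤ C * Real.exp (-(1 / 2) * t ^ 2) := by
    have h1 := hb (12 + t * I) (by simp) (by simp; norm_num)
    have h2 : (1 : ℝ) ≤ ‖(12 : ℂ) + t * I‖ := by
      have := Complex.re_le_norm ((12 : ℂ) + t * I)
      simp at this
      linarith
    have h5 : (-((12 : ℂ) + t * I).im ^ 2 / 2) = -(1 / 2) * t ^ 2 := by
      simp
      ring
    rw [h5] at h1
    exact h1.trans (div_le_self (by positivity) h2)
  have e2 : ‖(X : ℂ) ^ (((12 : ℂ) + t * I) / 2)‖ = X ^ (6 : ℝ) := by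
    rw [Complex.norm_cpow_eq_rpow_re_of_pos hX]
    congr 1
    simp
    norm_num
  have e3 : ‖LS k (1 / 2 + (12 + t * I))‖ ≤ 2 := h3 k _ (by simp; norm_num)
  show ‖g0 a γ (12 + t * I) * (X : ℂ) ^ (((12 : ℂ) + t * I) / 2) * LS k (1 / 2 + (12 + t * I))‖ ≤ _
  rw [norm_mul, norm_mul, e2]
  have hx : 0 ≤ X ^ (6 : ℝ) := by positivity
  calc ‖g0 a γ (12 + t * I)‖ * X ^ (6 : ℝ) * ‖LS k (1 / 2 + (12 + t * I))‖
      ≤ (C * Real.exp (-(1 / 2) * t ^ 2)) * X ^ (6 : ℝ) * 2 := by gcongr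
    _ = (C * X ^ (6 : ℝ) * 2) * Real.exp (-(1 / 2) * t ^ 2) := by ring

lemma sec_id (a : ℕ) (γ : ℤ) (X q : ℝ) (hX : 0 < X) (hq : 0 < q) (k : ℤ) (s : ℂ) :
    sec_G a γ X k s * cexp (((Real.log (q / X) / 2 : ℝ) : ℂ) * (s - ((0 : ℝ) : ℂ) * I)) =
      g0 a γ s * (q : ℂ) ^ (s / 2) * LS k (1 / 2 + s) := by
  have hX' : (X : ℂ) ≠ 0 := by exact_mod_cast hX.ne'
  have hq' : (q : ℂ) ≠ 0 := by exact_mod_cast hq.ne'
  have h : (X : ℂ) ^ (s / 2) * cexp (((Real.log (q / X) / 2 : ℝ) : ℂ) * (s - ((0 : ℝ) : ℂ) * I)) =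
      (q : ℂ) ^ (s / 2) := by
    rw [Complex.cpow_def_of_ne_zero hX', Complex.cpow_def_of_ne_zero hq', ← Complex.exp_add,
      ← Complex.ofReal_log hX.le, ← Complex.ofReal_log hq.le, Real.log_div hq.ne' hX.ne']
    congr 1
    push_cast
    ring
  unfold sec_G
  rw [← h]
  ring

lemma sec_id2 (a : ℕ) (γ : ℤ) (X y : ℝ) (k : ℤ) (s : ℂ) :
    sec_G a γ X k s * cexp ((s - ((0 : ℝ) : ℂ) * I + y * I) ^ 2 / 4) =
      w1 a γ X y s * LS k (1 / 2 + s) := by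
  unfold sec_G w1
  have h : s - ((0 : ℝ) : ℂ) * I + y * I = s + y * I := by simp
  rw [h]
  ring

lemma sec_mem {X : ℝ} {k : ℤ} (hk : k ∈ Sq X) :
    Squarefree k ∧ k ≠ 1 ∧ X / 2 < |(k : ℝ)| ∧ |(k : ℝ)| ≤ X := by
  unfold Sq at hk
  simp only [Finset.mem_filter] at hk
  exact hk.2

lemma sec_v {X q : ℝ} (hX : 0 < X) (h1 : X / 2 < q) (h2 : q ≤ 4 * X) :
    |Real.log (q / X) / 2| ≤ 2 := by
  have hq : 0 < q := by linarith
  have hqX : 0 < q / X := by positivity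
  have hu : Real.log (q / X) ≤ q / X - 1 := Real.log_le_sub_one_of_pos hqX
  have hu2 : q / X ≤ 4 := by rw [div_le_iff₀ hX]; linarith
  have hl : 1 - (q / X)⁻¹ ≤ Real.log (q / X) := Real.one_sub_inv_le_log_of_pos hqX
  have hl2 : (q / X)⁻¹ ≤ 2 := by
    rw [inv_div, div_le_iff₀ hq]; linarith
  rw [abs_le]
  constructor <;> linarith

lemma sec_GX {X : ℝ} (hX : 0 < X) {k : ℤ} (h : |(k : ℝ)| ≤ X) :
    1 ≤ Real.exp π * GX X k := by
  unfold GX
  rw [← Real.exp_add]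
  apply Real.one_le_exp
  have h1 : (k : ℝ) ^ 2 ≤ X ^ 2 := by
    rw [← sq_abs (k : ℝ)]
    exact pow_le_pow_left₀ (abs_nonneg _) h 2
  have h2 : (k : ℝ) ^ 2 / X ^ 2 ≤ 1 := by
    rw [div_le_one (by positivity)]; exact h1
  have h3 : -π * (k : ℝ) ^ 2 / X ^ 2 = -(π * ((k : ℝ) ^ 2 / X ^ 2)) := by ring
  rw [h3]
  have h4 : π * ((k : ℝ) ^ 2 / X ^ 2) ≤ π * 1 := mul_le_mul_of_nonneg_left h2 Real.pi_pos.le
  linarith

/-- The mean square of the fixed weights. -/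
lemma sec_fixed (hVB : VB) (hQF : QF) (δ : ℝ) (hδ : 0 < δ) : ∃ C : ℝ, 0 < C ∧
    ∀ (a : ℕ) (γ : ℤ) (X y : ℝ) (F : Finset ℤ), a ≤ 1 → γ ∈ T3 → 1 ≤ X → 100 ≤ Real.log X →
      (∀ k ∈ F, |(k : ℝ)| ≤ X) →
      ∑ k ∈ F, ‖Iv 12 fun s => w1 a γ X y s * LS k (1 / 2 + s)‖ ^ 2 ≤
        C * X * Real.log X ^ (3 + δ) * Real.exp (-2 * |y|) := by
  obtain ⟨C₁, hC₁, h1⟩ := hVB (δ / 2) (by positivity)
  obtain ⟨C₂, hC₂, h2⟩ := hQF
  refine ⟨Real.exp π * C₂ * C₁ ^ 2, by positivity, fun a γ X y F ha hγ hX hL hF => ?_⟩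
  obtain ⟨hV, hI⟩ := h1 a γ X y ha hγ hX hL
  have hX0 : 0 < X := by linarith
  have hL0 : 0 < Real.log X := by linarith
  have hp : 1 ≤ Real.log X ^ (δ / 2) := Real.one_le_rpow (by linarith) (by positivity)
  set W : ℝ := C₁ * Real.exp (-|y|) * Real.log X ^ (δ / 2) with hW
  have hW0 : 0 ≤ W := by positivity
  have hq := h2 (Vn a γ X y) X (1 / Real.log X) W F hX (by positivity)
    (by rw [div_le_one hL0]; linarith) hW0 (fun n hn => by
      refine ⟨(hV n hn).1, (hV n hn).2.trans ?_⟩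
      have : C₁ * Real.exp (-|y|) ≤ W := le_mul_of_one_le_right (by positivity) hp
      gcongr)
  have hW2 : W ^ 2 = C₁ ^ 2 * Real.exp (-2 * |y|) * Real.log X ^ δ := by
    have e1 : Real.exp (-|y|) ^ 2 = Real.exp (-2 * |y|) := by
      rw [← Real.exp_nat_mul]; congr 1; push_cast; ring
    have e2 : (Real.log X ^ (δ / 2)) ^ 2 = Real.log X ^ δ := by
      rw [← Real.rpow_natCast, ← Real.rpow_mul hL0.le]; congr 1; push_cast; ring
    rw [hW, mul_pow, mul_pow, e1, e2]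
  have hpow : Real.log X ^ (3 + δ) = Real.log X ^ 3 * Real.log X ^ δ := by
    rw [Real.rpow_add hL0]
    congr 1
    exact_mod_cast Real.rpow_natCast (Real.log X) 3
  calc ∑ k ∈ F, ‖Iv 12 fun s => w1 a γ X y s * LS k (1 / 2 + s)‖ ^ 2
      ≤ ∑ k ∈ F, Real.exp π * (GX X k *
          ‖∑' n : ℕ, jo k n * (n : ℂ) ^ (-(1 / 2 : ℂ)) * Vn a γ X y n‖ ^ 2) := by
        refine Finset.sum_le_sum fun k hk => ?_
        rw [hI k, ← mul_assoc]
        exact le_mul_of_one_le_left (by positivity) (sec_GX hX0 (hF k hk))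
    _ = Real.exp π * ∑ k ∈ F, GX X k *
          ‖∑' n : ℕ, jo k n * (n : ℂ) ^ (-(1 / 2 : ℂ)) * Vn a γ X y n‖ ^ 2 := by
        rw [Finset.mul_sum]
    _ ≤ Real.exp π * (C₂ * W ^ 2 * X / (1 / Real.log X) ^ 3) :=
        mul_le_mul_of_nonneg_left hq (by positivity)
    _ = Real.exp π * C₂ * C₁ ^ 2 * X * Real.log X ^ (3 + δ) * Real.exp (-2 * |y|) := by
        rw [hW2, hpow]
        field_simp

theorem pSEC (hAF1 : AF1) (hVB : VB) (hQF : QF) (hSEP : SEP) (hG0B : G0B) (hLSP : LSP) (hBRG : BRG) (hDEC : DEC) : SEC := by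
  intro δ hδ
  obtain ⟨C₁, hC₁, h1⟩ := sec_fixed hVB hQF δ hδ
  obtain ⟨C₂, hC₂, h2⟩ := hSEP
  obtain ⟨-, hB, -, -⟩ := hBRG
  refine ⟨6 * (C₂ * C₁), by positivity, fun X hX hL => ?_⟩
  have hX0 : 0 < X := by linarith
  have hL0 : 0 < Real.log X := by linarith
  have key : ∀ j ∈ (range 2) ×ˢ T3,
      ∑ k ∈ (Sq X).filter (fun k => (par k, gam k) = j), ‖Lf k (1 / 2)‖ ^ 2 ≤
        C₂ * (C₁ * X * Real.log X ^ (3 + δ)) := by
    rintro ⟨a, γ⟩ hj
    obtain ⟨ha, hγ⟩ := Finset.mem_product.1 hj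
    have ha1 : a ≤ 1 := by
      have := Finset.mem_range.1 ha
      simp only at this
      omega
    have hγ1 : γ ∈ T3 := hγ
    set F := (Sq X).filter (fun k => (par k, gam k) = (a, γ)) with hF
    have hmem : ∀ k ∈ F, (Squarefree k ∧ k ≠ 1 ∧ X / 2 < |(k : ℝ)| ∧ |(k : ℝ)| ≤ X) ∧
        par k = a ∧ gam k = γ := fun k hk => by
      obtain ⟨hk1, hk2⟩ := Finset.mem_filter.1 hk
      exact ⟨sec_mem hk1, Prod.mk.inj hk2⟩
    have hq : ∀ k ∈ F, X / 2 < qk k ∧ qk k ≤ 4 * X := fun k hk => by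
      obtain ⟨⟨-, -, h3, h4⟩, -⟩ := hmem k hk
      obtain ⟨h5, h6, -⟩ := hB k
      constructor <;> linarith
    have hs := h2 F (sec_G a γ X) (fun _ => 1) (fun k => Real.log (qk k / X) / 2) 0
      (C₁ * X * Real.log X ^ (3 + δ))
      (fun k hk => ⟨sec_LI hG0B hLSP a γ ha1 hγ1 X hX0 k, zero_le_one,
        sec_v hX0 (hq k hk).1 (hq k hk).2⟩)
      (fun y => by
        simp only [one_mul, sec_id2]
        exact h1 a γ X y F ha1 hγ1 hX hL (fun k hk => (hmem k hk).1.2.2.2))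
    refine le_trans (Finset.sum_le_sum fun k hk => ?_) hs
    obtain ⟨⟨h3, h4, -, -⟩, h5, h6⟩ := hmem k hk
    have hq0 : 0 < qk k := by linarith [(hq k hk).1]
    have h7 := hAF1 k h3 h4
    rw [h5, h6] at h7
    simp only [one_mul, sec_id a γ X (qk k) hX0 hq0]
    refine pow_le_pow_left₀ (norm_nonneg _) (le_trans ?_ h7) 2
    exact le_mul_of_one_le_left (norm_nonneg _) (by linarith [Real.pi_gt_three])
  have hmaps : ∀ k ∈ Sq X, (par k, gam k) ∈ (range 2) ×ˢ T3 := fun k _ => by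
    obtain ⟨-, -, h5, h6⟩ := hB k
    exact Finset.mem_product.2 ⟨Finset.mem_range.2 (by simp only; omega), h6⟩
  rw [← Finset.sum_fiberwise_of_maps_to hmaps]
  refine (Finset.sum_le_sum key).trans (le_of_eq ?_)
  have hc : ((range 2) ×ˢ T3).card = 6 := by decide
  rw [Finset.sum_const, hc, nsmul_eq_mul]
  push_cast
  ring

end Pool.Agent.QM
end
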