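import Pool.Agent.P.MP_ea46f5_nt.QM.S2
import Pool.Agent.K.MP_ea46f5_nt.C39
import Pool.Agent.K.MP_ea46f5_nt.C4
import Pool.Agent.K.MP_ea46f5_nt.C3
import Pool.Agent.K.MP_ea46f5_nt.C1
import Pool.Agent.K.MP_ea46f5_nt.C7
import Pool.Agent.K.MP_ea46f5_nt.C8
import Pool.Agent.K.MP_ea46f5_nt.C9
import Pool.Agent.K.MP_ea46f5_nt.C5
import Pool.Agent.K.MP_ea46f5_nt.C6
import Pool.Agent.K.MP_ea46f5_nt.C2

-- part Pool.Agent.P.MP_ea46f5_nt.QM.FTE
section

namespace Pool.Agent.QM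

open Real Finset

theorem te_abs_le (l : ℕ) (x : ℝ) : |Et l x| ≤ exp |x| := by
  unfold Et
  refine (abs_sum_le_sum_abs _ _).trans ?_
  have h := Real.sum_le_exp_of_nonneg (abs_nonneg x) (l + 1)
  refine le_trans (le_of_eq ?_) h
  refine sum_congr rfl fun j _ => ?_
  rw [abs_div, abs_pow, Nat.abs_cast]

theorem te_one (l : ℕ) {x : ℝ} (hx : |x| ≤ l / 8) :
    |Et l x - exp x| ≤ (1 / 2) ^ l * exp x := by
  have hl : (0 : ℝ) ≤ l := Nat.cast_nonneg l
  have h1 : ‖(x : ℂ)‖ / ((l + 1).succ : ℕ) ≤ 1 / 2 := by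
    rw [Complex.norm_real, Real.norm_eq_abs, div_le_iff₀ (by positivity)]
    push_cast
    linarith
  have h2 := Complex.exp_bound' h1
  have h3 : Complex.exp x - ∑ m ∈ range (l + 1), (x : ℂ) ^ m / (m.factorial : ℂ) =
      ((exp x - Et l x : ℝ) : ℂ) := by
    unfold Et
    push_cast
    rfl
  rw [h3, Complex.norm_real, Complex.norm_real, Real.norm_eq_abs, Real.norm_eq_abs,
    abs_sub_comm] at h2
  refine h2.trans ?_
  have h4 : |x| ^ (l + 1) / ((l + 1).factorial : ℝ) ≤ (exp 1 / 8) ^ (l + 1) := by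
    have h5 : |x| ^ (l + 1) ≤ (((l : ℝ) + 1) / 8) ^ (l + 1) :=
      pow_le_pow_left₀ (abs_nonneg x) (by linarith) _
    have h6 := Real.pow_div_factorial_le_exp ((l : ℝ) + 1) (by positivity) (l + 1)
    have h7 : exp ((l : ℝ) + 1) = exp 1 ^ (l + 1) := by
      rw [← Real.exp_nat_mul]; push_cast; ring_nf
    calc |x| ^ (l + 1) / ((l + 1).factorial : ℝ)
        ≤ (((l : ℝ) + 1) / 8) ^ (l + 1) / ((l + 1).factorial : ℝ) := by gcongr
      _ = ((l : ℝ) + 1) ^ (l + 1) / ((l + 1).factorial : ℝ) / 8 ^ (l + 1) := by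
          rw [div_pow]; ring
      _ ≤ exp 1 ^ (l + 1) / 8 ^ (l + 1) := by rw [← h7]; gcongr
      _ = (exp 1 / 8) ^ (l + 1) := by rw [div_pow]
  have he : exp 1 < 2.7182818286 := Real.exp_one_lt_d9
  have he0 : 0 < exp 1 := exp_pos 1
  have h8 : exp (-(1 / 8 : ℝ)) ≥ 7 / 8 := by
    have := Real.add_one_le_exp (-(1 / 8 : ℝ)); linarith
  have h9 : exp (-(1 / 8 : ℝ)) ^ l ≤ exp x := by
    rw [← Real.exp_nat_mul]
    exact exp_le_exp.2 (by have := neg_abs_le x; linarith)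
  have h10 : (exp 1 / 8) ^ l ≤ (1 / 2) ^ l * exp (-(1 / 8 : ℝ)) ^ l := by
    rw [← mul_pow]
    exact pow_le_pow_left₀ (by positivity) (by linarith) _
  calc |x| ^ (l + 1) / ((l + 1).factorial : ℝ) * 2 ≤ (exp 1 / 8) ^ (l + 1) * 2 := by gcongr
    _ = (exp 1 / 8) ^ l * (exp 1 / 4) := by ring
    _ ≤ (exp 1 / 8) ^ l * 1 := by gcongr; linarith
    _ ≤ (1 / 2) ^ l * exp x := by
        rw [mul_one]
        exact h10.trans (by gcongr)

theorem te_two (l : ℕ) (x : ℝ) : Et l x ^ 2 ≤ (1 + (1 / 2) ^ l) ^ 2 * exp (2 * x) +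
    exp (-(2 * l)) * (exp (18 * x) + exp (-(18 * x))) := by
  rcases le_or_gt |x| (l / 8) with hx | hx
  · have h := te_one l hx
    have h1 : |Et l x| ≤ (1 + (1 / 2) ^ l) * exp x := by
      have := abs_sub_abs_le_abs_sub (Et l x) (exp x)
      rw [abs_of_pos (exp_pos x)] at this
      linarith
    have h2 : Et l x ^ 2 ≤ ((1 + (1 / 2) ^ l) * exp x) ^ 2 := by
      rw [← sq_abs (Et l x)]
      exact pow_le_pow_left₀ (abs_nonneg _) h1 2
    have h3 : exp (2 * x) = exp x ^ 2 := by rw [← Real.exp_nat_mul]; norm_num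
    rw [h3, ← mul_pow]
    have : 0 ≤ exp (-(2 * l)) * (exp (18 * x) + exp (-(18 * x))) := by positivity
    linarith
  · have h2 : Et l x ^ 2 ≤ exp |x| ^ 2 := by
      rw [← sq_abs (Et l x)]
      exact pow_le_pow_left₀ (abs_nonneg _) (te_abs_le l x) 2
    have h3 : exp |x| ^ 2 ≤ exp (-(2 * l)) * exp (18 * |x|) := by
      rw [← Real.exp_nat_mul, ← exp_add]
      exact exp_le_exp.2 (by push_cast; linarith)
    have h4 : exp (18 * |x|) ≤ exp (18 * x) + exp (-(18 * x)) := by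
      rcases abs_cases x with h | h
      · rw [h.1]; linarith [exp_pos (-(18 * x))]
      · rw [h.1, mul_neg]; linarith [exp_pos (18 * x)]
    have h5 : exp (-(2 * l)) * exp (18 * |x|) ≤
        exp (-(2 * l)) * (exp (18 * x) + exp (-(18 * x))) := by gcongr
    have : 0 ≤ (1 + (1 / 2) ^ l) ^ 2 * exp (2 * x) := by positivity
    linarith

theorem te_three {l : ℕ} (hl : 1 ≤ l) (x : ℝ) :
    (40 * x / l) ^ (2 * l) ≤ exp (-(2 * l)) * (exp (80 * x) + exp (-(80 * x))) := by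
  have hl0 : (0 : ℝ) < l := by exact_mod_cast hl
  have h1 : (40 * x / l) ^ (2 * l) = (40 * |x| / l) ^ (2 * l) := by
    rw [← (even_two_mul l).pow_abs, abs_div, abs_mul, Nat.abs_cast]
    norm_num
  have h2 : 40 * |x| / l ≤ exp (40 * |x| / l - 1) := by
    have := Real.add_one_le_exp (40 * |x| / l - 1); linarith
  have h3 : (40 * |x| / l) ^ (2 * l) ≤ exp (-(2 * l)) * exp (80 * |x|) := by
    refine (pow_le_pow_left₀ (by positivity) h2 _).trans (le_of_eq ?_)
    rw [← Real.exp_nat_mul, ← exp_add]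
    congr 1
    push_cast
    field_simp
    ring
  have h4 : exp (80 * |x|) ≤ exp (80 * x) + exp (-(80 * x)) := by
    rcases abs_cases x with h | h
    · rw [h.1]; linarith [exp_pos (-(80 * x))]
    · rw [h.1, mul_neg]; linarith [exp_pos (80 * x)]
  rw [h1]
  exact h3.trans (by gcongr)

theorem pTE : TE := by
  refine ⟨fun l x _ hx => ?_, fun l x _ => ?_, fun l x hl => ?_⟩
  · have := te_one l hx
    rwa [one_div, inv_pow, mul_comm, ← div_eq_mul_inv] at this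
  · have := te_two l x
    rwa [one_div_pow, ← neg_mul, ← neg_mul] at this
  · have := te_three hl x
    rwa [← neg_mul, ← neg_mul] at this

end Pool.Agent.QM
end

-- part Pool.Agent.P.MP_ea46f5_nt.QM.FVB
section

namespace Pool.Agent.QM

open Complex MeasureTheory Finset
open scoped Real ComplexConjugate

theorem vb_exp (τ y : ℝ) : -τ ^ 2 / 2 + -(τ + y) ^ 2 / 4 ≤ 3 + -|y| + -|τ| := by
  have h1 : |y| ≤ |τ + y| + |τ| := by
    have := abs_sub (τ + y) τ
    simpa using this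
  have h2 : τ ^ 2 = |τ| ^ 2 := (sq_abs τ).symm
  have h3 : (τ + y) ^ 2 = |τ + y| ^ 2 := (sq_abs _).symm
  rw [h2, h3]
  nlinarith [sq_nonneg (|τ| - 2), sq_nonneg (|τ + y| - 2)]

theorem vb_norm {C : ℝ} (hC : 0 < C) {a : ℕ} {γ : ℤ}
    (hg : ∀ s : ℂ, 0 < s.re → s.re ≤ 13 → ‖g0 a γ s‖ ≤ C * Real.exp (-s.im ^ 2 / 2) / ‖s‖)
    {X : ℝ} (hX : 0 < X) (y : ℝ) (s : ℂ) (h0 : 0 < s.re) (h1 : s.re ≤ 13) :
    ‖w1 a γ X y s‖ ≤ C * Real.exp 3 * Real.exp (s.re ^ 2 / 4) * X ^ (s.re / 2) *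
      Real.exp (-|y|) * (Real.exp (-|s.im|) / ‖s‖) := by
  have hs : 0 < ‖s‖ := lt_of_lt_of_le h0 (re_le_norm s)
  have e1 : ‖(X : ℂ) ^ (s / 2)‖ = X ^ (s.re / 2) := by
    rw [norm_cpow_eq_rpow_re_of_pos hX]
    simp
  have e2 : ‖cexp ((s + y * I) ^ 2 / 4)‖ =
      Real.exp (s.re ^ 2 / 4) * Real.exp (-(s.im + y) ^ 2 / 4) := by
    rw [norm_exp, ← Real.exp_add]
    congr 1
    have : ((s + y * I) ^ 2 / 4 : ℂ) = (s + y * I) ^ 2 / ((4 : ℝ) : ℂ) := by norm_num
    rw [this, div_ofReal_re]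
    simp [pow_two]
    ring
  have e3 : Real.exp (-s.im ^ 2 / 2) * Real.exp (-(s.im + y) ^ 2 / 4) ≤
      Real.exp 3 * Real.exp (-|y|) * Real.exp (-|s.im|) := by
    rw [← Real.exp_add, ← Real.exp_add, ← Real.exp_add]
    exact Real.exp_le_exp.2 (vb_exp _ _)
  unfold w1
  rw [norm_mul, norm_mul, e1, e2]
  have hp : 0 ≤ X ^ (s.re / 2) := (Real.rpow_pos_of_pos hX _).le
  calc ‖g0 a γ s‖ * X ^ (s.re / 2) * (Real.exp (s.re ^ 2 / 4) * Real.exp (-(s.im + y) ^ 2 / 4))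
      ≤ C * Real.exp (-s.im ^ 2 / 2) / ‖s‖ * X ^ (s.re / 2) *
        (Real.exp (s.re ^ 2 / 4) * Real.exp (-(s.im + y) ^ 2 / 4)) := by
        gcongr
        exact hg s h0 h1
    _ = C * Real.exp (s.re ^ 2 / 4) * X ^ (s.re / 2) / ‖s‖ *
        (Real.exp (-s.im ^ 2 / 2) * Real.exp (-(s.im + y) ^ 2 / 4)) := by ring
    _ ≤ C * Real.exp (s.re ^ 2 / 4) * X ^ (s.re / 2) / ‖s‖ *
        (Real.exp 3 * Real.exp (-|y|) * Real.exp (-|s.im|)) := by gcongr
    _ = _ := by ring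

theorem vb_diff {a : ℕ} {γ : ℤ} (hg : DifferentiableOn ℂ (g0 a γ) {s | 0 < s.re})
    {X : ℝ} (hX : 0 < X) (y : ℝ) : DifferentiableOn ℂ (w1 a γ X y) {s | 0 < s.re} := by
  unfold w1
  refine (hg.mul ?_).mul ?_
  · refine Differentiable.differentiableOn ?_
    exact Differentiable.const_cpow (by fun_prop) (Or.inl (by exact_mod_cast hX.ne'))
  · refine Differentiable.differentiableOn ?_
    fun_prop

theorem vb_int {δ : ℝ} (hδ : 0 < δ) :
    Integrable (fun t : ℝ => Real.exp (-|t|) * |t| ^ (δ - 1)) := by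
  have h := Real.GammaIntegral_convergent hδ
  have hp : IntegrableOn (fun t : ℝ => Real.exp (-|t|) * |t| ^ (δ - 1)) (Set.Ioi 0) := by
    refine h.congr_fun (fun x hx => ?_) measurableSet_Ioi
    have hx' : 0 < x := hx
    simp only [abs_of_pos hx']
  have hn : IntegrableOn (fun t : ℝ => Real.exp (-|t|) * |t| ^ (δ - 1)) (Set.Iic 0) := by
    rw [← Measure.map_neg_eq_self (volume : Measure ℝ)]
    let m : MeasurableEmbedding fun x : ℝ => -x := (Homeomorph.neg ℝ).measurableEmbedding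
    rw [m.integrableOn_map_iff]
    simp_rw [Function.comp_def, abs_neg, Set.neg_preimage, Set.neg_Iic, neg_zero]
    exact Iff.mpr integrableOn_Ici_iff_integrableOn_Ioi hp
  have := hn.union hp
  rwa [Set.Iic_union_Ioi, integrableOn_univ] at this

theorem vb_shift (hSH0 : SH0) (hDEC : DEC) {C : ℝ} (hC : 0 < C) {a : ℕ} {γ : ℤ}
    (hd : DifferentiableOn ℂ (g0 a γ) {s | 0 < s.re})
    (hg : ∀ s : ℂ, 0 < s.re → s.re ≤ 13 → ‖g0 a γ s‖ ≤ C * Real.exp (-s.im ^ 2 / 2) / ‖s‖)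
    {X : ℝ} (hX : 1 ≤ X) (y : ℝ) {n : ℕ} (hn : n ≠ 0) {σ : ℝ} (h0 : 0 < σ) (h1 : σ ≤ 12) :
    Vn a γ X y n = Iv σ fun s => w1 a γ X y s * (n : ℂ) ^ (-s) := by
  obtain ⟨-, h2, -⟩ := hDEC
  obtain ⟨D, hD, h2⟩ := h2 2
  have hX0 : 0 < X := by linarith
  have hn0 : 0 < n := Nat.pos_of_ne_zero hn
  have hdf : DifferentiableOn ℂ (fun s => w1 a γ X y s * (n : ℂ) ^ (-s)) {s | 0 < s.re} := by
    refine (vb_diff hd hX0 y).mul (Differentiable.differentiableOn ?_)
    exact Differentiable.const_cpow (by fun_prop) (Or.inl (by exact_mod_cast hn))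
  unfold Vn
  refine hSH0 σ 12 (C * Real.exp 3 * Real.exp (12 ^ 2 / 4) * X ^ ((12 : ℝ) / 2) *
    Real.exp (-|y|) * (D / σ)) _ h1 ⟨?_, ?_⟩ ?_
  · exact hdf.continuousOn.mono fun s hs => lt_of_lt_of_le h0 hs.1
  · exact hdf.mono fun s hs => lt_trans h0 hs.1
  · intro s hs
    have hs0 : 0 < s.re := lt_of_lt_of_le h0 hs.1
    have hs1 : s.re ≤ 12 := hs.2
    have hb := vb_norm hC hg hX0 y s hs0 (by linarith)
    have hnn : ‖(n : ℂ) ^ (-s)‖ ≤ 1 := by
      rw [norm_natCast_cpow_of_pos hn0]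
      exact Real.rpow_le_one_of_one_le_of_nonpos (by exact_mod_cast hn0) (by simp; linarith)
    have hbr : 0 < br s.im := by unfold br; positivity
    have hσ : σ ≤ ‖s‖ := le_trans hs.1 (re_le_norm s)
    have he : Real.exp (-|s.im|) ≤ D / br s.im ^ 2 := by
      have h3 := h2 s.im 0
      have h4 : br 0 = 1 := by simp [br]
      rw [h4, sub_zero, one_pow, mul_one] at h3
      rw [le_div_iff₀ (by positivity)]
      refine le_trans ?_ h3
      gcongr
      have := abs_nonneg s.im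
      linarith
    have hq : Real.exp (-|s.im|) / ‖s‖ ≤ D / σ / br s.im ^ 2 := by
      calc Real.exp (-|s.im|) / ‖s‖ ≤ D / br s.im ^ 2 / σ := by gcongr
        _ = _ := by ring
    rw [norm_mul]
    calc ‖w1 a γ X y s‖ * ‖(n : ℂ) ^ (-s)‖ ≤ ‖w1 a γ X y s‖ * 1 := by gcongr
      _ ≤ C * Real.exp 3 * Real.exp (s.re ^ 2 / 4) * X ^ (s.re / 2) *
          Real.exp (-|y|) * (Real.exp (-|s.im|) / ‖s‖) := by rw [mul_one]; exact hb
      _ ≤ C * Real.exp 3 * Real.exp (12 ^ 2 / 4) * X ^ ((12 : ℝ) / 2) *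
          Real.exp (-|y|) * (D / σ / br s.im ^ 2) := by gcongr
      _ = _ := by ring

theorem vb_line {C : ℝ} (hC : 0 < C) {a : ℕ} {γ : ℤ}
    (hg : ∀ s : ℂ, 0 < s.re → s.re ≤ 13 → ‖g0 a γ s‖ ≤ C * Real.exp (-s.im ^ 2 / 2) / ‖s‖)
    {X : ℝ} (hX : 0 < X) (y : ℝ) {n : ℕ} (hn : n ≠ 0) {σ : ℝ} (h0 : 0 < σ) (h1 : σ ≤ 13)
    {g : ℝ → ℝ} (hi : Integrable g)
    (hb : ∀ t : ℝ, t ≠ 0 → Real.exp (-|t|) / ‖((σ : ℂ) + t * I)‖ ≤ g t) :
    ‖Iv σ fun s => w1 a γ X y s * (n : ℂ) ^ (-s)‖ ≤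
      C * Real.exp 3 * Real.exp (σ ^ 2 / 4) * X ^ (σ / 2) * Real.exp (-|y|) * (n : ℝ) ^ (-σ) *
        ∫ t, g t := by
  have hn0 : 0 < n := Nat.pos_of_ne_zero hn
  unfold Iv
  rw [← integral_const_mul]
  refine norm_integral_le_of_norm_le (hi.const_mul _) ?_
  have hae : ∀ᵐ t : ℝ, t ≠ 0 := by
    rw [ae_iff]
    simp
  filter_upwards [hae] with t ht
  have hre : ((σ : ℂ) + t * I).re = σ := by simp
  have him : ((σ : ℂ) + t * I).im = t := by simp
  have hw := vb_norm hC hg hX y ((σ : ℂ) + t * I) (by rw [hre]; exact h0) (by rw [hre]; exact h1)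
  rw [hre, him] at hw
  rw [norm_mul, norm_natCast_cpow_of_pos hn0, neg_re, hre]
  have hp : 0 ≤ X ^ (σ / 2) := (Real.rpow_pos_of_pos hX _).le
  have hq : 0 ≤ (n : ℝ) ^ (-σ) := Real.rpow_nonneg (Nat.cast_nonneg n) _
  calc ‖w1 a γ X y ((σ : ℂ) + t * I)‖ * (n : ℝ) ^ (-σ)
      ≤ C * Real.exp 3 * Real.exp (σ ^ 2 / 4) * X ^ (σ / 2) * Real.exp (-|y|) * g t *
        (n : ℝ) ^ (-σ) := by
        gcongr
        refine le_trans hw ?_
        gcongr
        exact hb t ht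
    _ = _ := by ring

theorem vb_jo (m : ℤ) (n : ℕ) : ‖jo m n‖ ≤ 1 := by
  unfold jo
  split_ifs
  · rcases jacobiSym.trichotomy m n with h | h | h <;> simp [h]
  · simp

theorem vb_sum (hLSP : LSP) {w : ℂ → ℂ} (hw : Integrable fun t : ℝ => w (((12 : ℝ) : ℂ) + t * I))
    (m : ℤ) :
    (Iv 12 fun s => w s * LS m (1 / 2 + s)) =
      ∑' n : ℕ, jo m n * (n : ℂ) ^ (-(1 / 2 : ℂ)) * Iv 12 fun s => w s * (n : ℂ) ^ (-s) := by
  obtain ⟨h1, -⟩ := hLSP
  set F : ℕ → ℝ → ℂ := fun n t => w (((12 : ℝ) : ℂ) + t * I) *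
    (jo m n * (n : ℂ) ^ (-(1 / 2 + (((12 : ℝ) : ℂ) + t * I)))) with hF
  have hre : ∀ t : ℝ, (1 / 2 + (((12 : ℝ) : ℂ) + t * I) : ℂ).re = 25 / 2 := by
    intro t
    simp
    norm_num
  have hnorm : ∀ (n : ℕ) (t : ℝ),
      ‖jo m n * (n : ℂ) ^ (-(1 / 2 + (((12 : ℝ) : ℂ) + t * I)))‖ ≤ (n : ℝ) ^ (-(25 / 2) : ℝ) := by
    intro n t
    rw [norm_mul, norm_natCast_cpow_of_re_ne_zero n (by rw [neg_re, hre]; norm_num), neg_re, hre]
    have hq : 0 ≤ (n : ℝ) ^ (-(25 / 2) : ℝ) := Real.rpow_nonneg (Nat.cast_nonneg n) _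
    calc ‖jo m n‖ * (n : ℝ) ^ (-(25 / 2) : ℝ) ≤ 1 * (n : ℝ) ^ (-(25 / 2) : ℝ) := by
          gcongr
          exact vb_jo m n
      _ = _ := one_mul _
  have hj0 : jo m 0 = 0 := by simp [jo]
  have hint : ∀ n, Integrable (F n) := by
    intro n
    rcases Nat.eq_zero_or_pos n with rfl | hn
    · simp only [hF, hj0, zero_mul, mul_zero]
      exact integrable_zero _ _ _
    · refine hw.mul_bdd (c := (n : ℝ) ^ (-(25 / 2) : ℝ)) ?_ (Filter.Eventually.of_forall (hnorm n))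
      refine Continuous.aestronglyMeasurable ?_
      refine continuous_const.mul ?_
      exact Continuous.const_cpow (by fun_prop) (Or.inl (by exact_mod_cast hn.ne'))
  have hsum : Summable fun n => ∫ t, ‖F n t‖ := by
    have hs : Summable fun n : ℕ =>
        (∫ t : ℝ, ‖w (((12 : ℝ) : ℂ) + t * I)‖) * (n : ℝ) ^ (-(25 / 2) : ℝ) :=
      (Real.summable_nat_rpow.2 (by norm_num)).mul_left _
    refine Summable.of_nonneg_of_le (fun n => integral_nonneg fun t => norm_nonneg _)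
      (fun n => ?_) hs
    rw [← integral_mul_const]
    refine integral_mono (hint n).norm (hw.norm.mul_const _) fun t => ?_
    simp only [hF]
    rw [norm_mul]
    gcongr
    exact hnorm n t
  have hH := hasSum_integral_of_summable_integral_norm hint hsum
  have e1 : (Iv 12 fun s => w s * LS m (1 / 2 + s)) = ∫ t, ∑' n, F n t := by
    unfold Iv
    refine integral_congr_ae (Filter.Eventually.of_forall fun t => ?_)
    have := (h1 m (1 / 2 + (((12 : ℝ) : ℂ) + t * I)) (by rw [hre]; norm_num)).mul_left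
      (w (((12 : ℝ) : ℂ) + t * I))
    exact this.tsum_eq.symm
  rw [e1, ← hH.tsum_eq]
  refine tsum_congr fun n => ?_
  rcases Nat.eq_zero_or_pos n with rfl | hn
  · simp [hF, hj0]
  · unfold Iv
    rw [← integral_const_mul]
    refine integral_congr_ae (Filter.Eventually.of_forall fun t => ?_)
    have hn' : (n : ℂ) ≠ 0 := by exact_mod_cast hn.ne'
    simp only [hF]
    rw [neg_add, cpow_add _ _ hn']
    ring

theorem pVB (hSH0 : SH0) (hG0B : G0B) (hLSP : LSP) (hDEC : DEC) : VB := by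
  intro δ hδ
  obtain ⟨C, hC, hG⟩ := hG0B
  set d : ℝ := min δ (1 / 2) with hd
  have hd0 : 0 < d := lt_min hδ (by norm_num)
  have hd1 : d ≤ 1 / 2 := min_le_right _ _
  have hdδ : d ≤ δ := min_le_left _ _
  set G : ℝ := ∫ t : ℝ, Real.exp (-|t|) * |t| ^ (d - 1) with hGd
  have hG0 : 0 ≤ G := integral_nonneg fun t => by positivity
  obtain ⟨hi3, hb3⟩ := hDEC.2.2.1 0
  refine ⟨C * Real.exp 3 * Real.exp 1 * (G + 4), by positivity, ?_⟩
  intro a γ X y ha hγ hX hL
  obtain ⟨hdf, hg⟩ := hG a γ ha hγ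
  have hX0 : 0 < X := by linarith
  have hL0 : 0 < Real.log X := by linarith
  refine ⟨fun n hn => ⟨?_, ?_⟩, fun m => ?_⟩
  · set ε : ℝ := 1 / Real.log X with hε
    have hε0 : 0 < ε := by positivity
    have hε1 : ε ≤ 1 := by
      rw [hε, div_le_one hL0]
      linarith
    rw [vb_shift hSH0 hDEC hC hdf hg hX y hn hε0 (by linarith)]
    have hb : ∀ t : ℝ, t ≠ 0 → Real.exp (-|t|) / ‖((ε : ℂ) + t * I)‖ ≤
        Real.log X ^ δ * (Real.exp (-|t|) * |t| ^ (d - 1)) := by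
      intro t ht
      have ht0 : 0 < |t| := abs_pos.2 ht
      have hs1 : ε ≤ ‖((ε : ℂ) + t * I)‖ := by
        have := re_le_norm ((ε : ℂ) + t * I)
        simpa using this
      have hs2 : |t| ≤ ‖((ε : ℂ) + t * I)‖ := by
        have := abs_im_le_norm ((ε : ℂ) + t * I)
        simpa using this
      set r : ℝ := ‖((ε : ℂ) + t * I)‖ with hr
      have hr0 : 0 < r := lt_of_lt_of_le hε0 hs1
      have e1 : r⁻¹ = r ^ (-d) * r ^ (d - 1) := by
        rw [← Real.rpow_add hr0, ← Real.rpow_neg_one]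
        congr 1
        ring
      have e2 : r ^ (-d) ≤ Real.log X ^ δ := by
        calc r ^ (-d) ≤ ε ^ (-d) := Real.rpow_le_rpow_of_nonpos hε0 hs1 (by linarith)
          _ = Real.log X ^ d := by
            rw [hε, one_div, Real.inv_rpow hL0.le, Real.rpow_neg hL0.le, inv_inv]
          _ ≤ Real.log X ^ δ := Real.rpow_le_rpow_of_exponent_le (by linarith) hdδ
      have e3 : r ^ (d - 1) ≤ |t| ^ (d - 1) := Real.rpow_le_rpow_of_nonpos ht0 hs2 (by linarith)
      have e4 : 0 ≤ Real.log X ^ δ := Real.rpow_nonneg hL0.le _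
      calc Real.exp (-|t|) / r = Real.exp (-|t|) * (r ^ (-d) * r ^ (d - 1)) := by
            rw [div_eq_mul_inv, e1]
        _ ≤ Real.exp (-|t|) * (Real.log X ^ δ * |t| ^ (d - 1)) := by gcongr
        _ = _ := by ring
    have hl := vb_line hC hg hX0 y hn hε0 (by linarith) ((vb_int hd0).const_mul _) hb
    rw [integral_const_mul, ← hGd] at hl
    refine le_trans hl ?_
    have e5 : Real.exp (ε ^ 2 / 4) * X ^ (ε / 2) ≤ Real.exp 1 := by
      rw [Real.rpow_def_of_pos hX0, ← Real.exp_add]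
      refine Real.exp_le_exp.2 ?_
      have : Real.log X * (ε / 2) = 1 / 2 := by
        rw [hε]
        field_simp
      rw [this]
      nlinarith
    have e4 : 0 ≤ Real.log X ^ δ := Real.rpow_nonneg hL0.le _
    have hq : 0 ≤ (n : ℝ) ^ (-ε) := Real.rpow_nonneg (Nat.cast_nonneg n) _
    calc C * Real.exp 3 * Real.exp (ε ^ 2 / 4) * X ^ (ε / 2) * Real.exp (-|y|) * (n : ℝ) ^ (-ε) *
          (Real.log X ^ δ * G)
        = C * Real.exp 3 * (Real.exp (ε ^ 2 / 4) * X ^ (ε / 2)) * G * Real.exp (-|y|) *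
          Real.log X ^ δ * (n : ℝ) ^ (-ε) := by ring
      _ ≤ C * Real.exp 3 * Real.exp 1 * (G + 4) * Real.exp (-|y|) *
          Real.log X ^ δ * (n : ℝ) ^ (-ε) := by
          gcongr
          linarith
  · rw [vb_shift hSH0 hDEC hC hdf hg hX y hn (σ := 2) (by norm_num) (by norm_num)]
    have hb : ∀ t : ℝ, t ≠ 0 → Real.exp (-|t|) / ‖(((2 : ℝ) : ℂ) + t * I)‖ ≤
        Real.exp (-|t - 0| / 2) := by
      intro t _
      have hs1 : (2 : ℝ) ≤ ‖(((2 : ℝ) : ℂ) + t * I)‖ := by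
        have := re_le_norm (((2 : ℝ) : ℂ) + t * I)
        simpa using this
      calc Real.exp (-|t|) / ‖(((2 : ℝ) : ℂ) + t * I)‖ ≤ Real.exp (-|t|) :=
            div_le_self (Real.exp_pos _).le (by linarith)
        _ ≤ _ := by
            rw [sub_zero]
            refine Real.exp_le_exp.2 ?_
            have := abs_nonneg t
            linarith
    have hl := vb_line hC hg hX0 y hn (σ := 2) (by norm_num) (by norm_num) hi3 hb
    refine le_trans hl ?_
    have e1 : ((2 : ℝ) ^ 2 / 4) = 1 := by norm_num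
    have e2 : ((2 : ℝ) / 2) = 1 := by norm_num
    have e3 : (n : ℝ) ^ (-(2 : ℝ)) = 1 / (n : ℝ) ^ 2 := by
      rw [Real.rpow_neg (Nat.cast_nonneg n), one_div]
      norm_num
    rw [e1, e2, e3, Real.rpow_one]
    calc C * Real.exp 3 * Real.exp 1 * X * Real.exp (-|y|) * (1 / (n : ℝ) ^ 2) *
          ∫ t : ℝ, Real.exp (-|t - 0| / 2)
        ≤ C * Real.exp 3 * Real.exp 1 * X * Real.exp (-|y|) * (1 / (n : ℝ) ^ 2) * (G + 4) := by
          gcongr
          linarith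
      _ = _ := by ring
  · refine vb_sum hLSP ?_ m
    have hc : Continuous fun t : ℝ => w1 a γ X y (((12 : ℝ) : ℂ) + t * I) := by
      refine (vb_diff hdf hX0 y).continuousOn.comp_continuous (by fun_prop) fun t => ?_
      simp
    refine Integrable.mono' (hi3.const_mul (C * Real.exp 3 * Real.exp (12 ^ 2 / 4) *
      X ^ ((12 : ℝ) / 2) * Real.exp (-|y|))) hc.aestronglyMeasurable
      (Filter.Eventually.of_forall fun t => ?_)
    have hre : (((12 : ℝ) : ℂ) + t * I).re = 12 := by simp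
    have him : (((12 : ℝ) : ℂ) + t * I).im = t := by simp
    have hw := vb_norm hC hg hX0 y (((12 : ℝ) : ℂ) + t * I) (by rw [hre]; norm_num)
      (by rw [hre]; norm_num)
    rw [hre, him] at hw
    refine le_trans hw ?_
    have hp : 0 ≤ X ^ ((12 : ℝ) / 2) := (Real.rpow_pos_of_pos hX0 _).le
    gcongr
    have hs1 : (12 : ℝ) ≤ ‖(((12 : ℝ) : ℂ) + t * I)‖ := by
      have := re_le_norm (((12 : ℝ) : ℂ) + t * I)
      rwa [hre] at this
    calc Real.exp (-|t|) / ‖(((12 : ℝ) : ℂ) + t * I)‖ ≤ Real.exp (-|t|) :=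
          div_le_self (Real.exp_pos _).le (by linarith)
      _ ≤ _ := by
          rw [sub_zero]
          refine Real.exp_le_exp.2 ?_
          have := abs_nonneg t
          linarith

end Pool.Agent.QM
end

-- part Pool.Agent.P.MP_ea46f5_nt.QM.FZ0
section

namespace Pool.Agent.QM

open Finset

theorem z0_mom {p : ℕ} (v : ℕ) : ∑ y ∈ T3, mu0 p y * (y : ℝ) ^ v =
    if v = 0 then 1 else if Odd v then 0 else 1 - 1 / (p : ℝ) := by
  unfold T3
  rw [sum_insert (by decide), sum_insert (by decide), sum_singleton]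
  simp only [mu0]
  rcases Nat.eq_zero_or_pos v with h | h
  · subst h
    norm_num
    ring
  · rw [if_neg h.ne']
    rcases Nat.even_or_odd v with hv | hv
    · rw [if_neg (Nat.not_odd_iff_even.2 hv)]
      simp [hv.neg_one_pow, h.ne']
    · rw [if_pos hv]
      simp [hv.neg_one_pow, h.ne']

theorem z0_mon (hE : EXL) {P : Finset ℕ} {l : ℕ} (h : l.primeFactors ⊆ P) :
    Ex P mu0 (fun x => (mon x l : ℝ)) = T0 l := by
  have e : (fun x : ℕ → ℤ => (mon x l : ℝ)) =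
      fun x => ∏ p ∈ P, (fun p (y : ℤ) => (y : ℝ) ^ l.factorization p) p (x p) := by
    funext x
    rw [hE.2.2.1 P x l h]
    push_cast
    rfl
  rw [e, hE.2.1 P mu0 (fun p (y : ℤ) => (y : ℝ) ^ l.factorization p)]
  simp only [z0_mom]
  unfold T0
  symm
  refine prod_subset_one_on_sdiff h (fun p hp => if_pos ?_) fun p hp => (if_neg ?_).symm
  · rw [← Finsupp.notMem_support_iff, Nat.support_factorization]
    exact (mem_sdiff.1 hp).2
  · rwa [← ne_eq, ← Finsupp.mem_support_iff, Nat.support_factorization]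

theorem pZ0 (hP2 : P2) (hEXL : EXL) : Z0 := by
  intro P B R X Y F hP hB hR hR0 hX
  obtain ⟨ι, _, l, r, h1, h2, h3⟩ := hR
  have hodd : ∀ i, Odd (l i) := fun i => by
    rw [← Nat.not_even_iff_odd, even_iff_two_dvd]
    intro h
    exact (hP 2 ((h1 i).2 (Nat.mem_primeFactors.2 ⟨Nat.prime_two, h, (h1 i).1⟩))).2 rfl
  have hG : ∀ m, 0 ≤ GX X m := fun m => (Real.exp_pos _).le
  have hs : ∀ i, Summable fun m : ℤ => GX X m * (jacobiSym m (l i) : ℝ) := fun i => by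
    refine (hP2 X 1 hX odd_one).1.of_norm_bounded fun m => ?_
    rw [norm_mul, Real.norm_of_nonneg (hG m)]
    refine mul_le_of_le_one_right (hG m) ?_
    rcases jacobiSym.trichotomy m (l i) with h | h | h <;> simp [h]
  have e : ∀ m : ℤ, GX X m * R (jv m) = ∑ i, r i * (GX X m * (jacobiSym m (l i) : ℝ)) := by
    intro m
    rw [h2, mul_sum]
    refine sum_congr rfl fun i _ => ?_
    rw [hEXL.2.2.2.1 m _ (h1 i).1 (hodd i)]
    ring
  have hH : HasSum (fun m : ℤ => GX X m * R (jv m)) (∑ i, r i * Sg X (l i)) := by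
    simp only [e]
    exact hasSum_sum fun i _ => (hs i).hasSum.mul_left _
  refine (sum_le_hasSum F (fun m _ => mul_nonneg (hG m) (hR0 _)) hH).trans ?_
  have e2 : Ex P mu0 R = ∑ i, r i * T0 (l i) := by
    have : ∀ i, r i * T0 (l i) = ∑ x ∈ Fintype.piFinset (fun _ : P => T3),
        (∏ p : P, mu0 p (x p)) * (r i * (mon (ext0 P x) (l i) : ℝ)) := fun i => by
      rw [← z0_mon hEXL (h1 i).2]
      unfold Ex
      rw [mul_sum]
      exact sum_congr rfl fun x _ => by ring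
    simp only [this]
    rw [sum_comm]
    unfold Ex
    exact sum_congr rfl fun x _ => by rw [h2, mul_sum]
  rw [e2, mul_sum]
  refine le_trans ?_ (add_le_add le_rfl h3)
  rw [← sum_add_distrib]
  refine sum_le_sum fun i _ => ?_
  have h4 := (hP2 X (l i) hX (hodd i)).2.2
  have h5 : (1 : ℝ) ≤ l i := by exact_mod_cast Nat.one_le_iff_ne_zero.2 (h1 i).1
  have h6 : √(l i : ℝ) ≤ (l i : ℝ) ^ B := by
    refine le_trans ?_ (le_self_pow₀ h5 (by omega))
    rw [Real.sqrt_le_left (by linarith)]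
    nlinarith
  have h7 : r i * (Sg X (l i) - X * T0 (l i)) ≤ |r i| * (l i : ℝ) ^ B := by
    refine (le_abs_self _).trans ?_
    rw [abs_mul]
    exact mul_le_mul_of_nonneg_left (h4.trans h6) (abs_nonneg _)
  linarith

end Pool.Agent.QM
end

-- part Pool.Agent.P.MP_ea46f5_nt.QM.FCLA
section

namespace Pool.Agent.QM

open Complex MeasureTheory Finset
open scoped Real ComplexConjugate

theorem pCLA (hTE : TE) : CLA := by
  refine ⟨4, by norm_num, ?_⟩
  intro κ J j Bl l F b h2 h4 hB hj hb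
  have hl : ∀ i ≤ J, 12 * (i + 1) ≤ l i := fun i hi => hB.lin i (mem_Icc.2 ⟨Nat.zero_le _, hi⟩)
  have e1 : ∀ i k, RR (Icc i J) Bl l (-(4 - κ) / 2) (jv k) =
      ∏ i' ∈ Icc i J, Et (l i') (-(4 - κ) * Pb (Bl i') (jv k) / 2) ^ 2 := fun i k => by
    unfold RR
    refine prod_congr rfl fun i' _ => ?_
    congr 2
    ring
  have e2 : ∀ i k, RR (Icc i J) Bl l (κ / 2) (jv k) =
      ∏ i' ∈ Icc i J, Et (l i') (κ * Pb (Bl i') (jv k) / 2) ^ 2 := fun i k => by
    unfold RR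
    refine prod_congr rfl fun i' _ => ?_
    congr 2
    ring
  refine cls_te hTE F h2 h4 j J (by omega) l hl (fun i k => Pb (Bl i) (jv k)) b hb
    (fun i => ∑ k ∈ F, RR (Icc i J) Bl l (-(4 - κ) / 2) (jv k) * b k ^ 2)
    (fun i => ∑ k ∈ F, RR (Icc i J) Bl l (κ / 2) (jv k) * Qc Bl l j i (jv k)) ?_ ?_ ?_
  · intro i _ _
    refine le_of_eq (sum_congr rfl fun k _ => ?_)
    rw [e1, mul_comm]
  · refine le_of_eq (sum_congr rfl fun k _ => ?_)
    rw [e2, Qc, if_pos rfl, mul_one]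
  · intro i hi _
    refine le_of_eq (sum_congr rfl fun k _ => ?_)
    rw [e2, Qc, if_neg (by omega), Nat.add_sub_cancel, QQ]

end Pool.Agent.QM
end

-- part Pool.Agent.P.MP_ea46f5_nt.QM.FCLS
section

namespace Pool.Agent.QM

open Complex MeasureTheory Finset
open scoped Real ComplexConjugate

theorem cls_RR_nonneg (S : Finset ℕ) (Bl : ℕ → Finset ℕ) (l : ℕ → ℕ) (θ : ℝ) (x : ℕ → ℤ) :
    0 ≤ RR S Bl l θ x := prod_nonneg fun _ _ => sq_nonneg _

theorem cls_Qc_nonneg (Bl : ℕ → Finset ℕ) (l : ℕ → ℕ) (j i : ℕ) (x : ℕ → ℤ) :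
    0 ≤ Qc Bl l j i x := by
  unfold Qc QQ
  split_ifs
  · exact zero_le_one
  · exact (even_two_mul _).pow_nonneg _

theorem pCLS (hBJ : BJ) (hCLA : CLA) (hCLZ : CLZ) : CLS := by
  obtain ⟨A, B, hB1, hBJ⟩ := hBJ
  obtain ⟨C1, hC1, hCLA⟩ := hCLA
  obtain ⟨C2, hC2, hCLZ⟩ := hCLZ
  refine ⟨A, B, fun κ Cs h2 h4 hCs => ?_⟩
  obtain ⟨C3, hC3, hBJ⟩ := hBJ κ Cs h2 h4
  have hβ : 0 < 4 - κ := by linarith
  set C0 := C2 + C3 with hC0
  have hC00 : 0 < C0 := by positivity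
  refine ⟨C1 * ((2 + Real.exp (8 * Cs) * (1 + 1 / (4 - κ))) * Real.exp (4 * Cs) * C0),
    by positivity, ?_⟩
  intro X J Bl l lam hX hL hS j hj
  set L := Real.log X with hLdef
  have hL0 : 0 < L := by linarith
  have hX0 : 0 ≤ X := by linarith
  have hl : ∀ i ≤ J, 12 * (i + 1) ≤ l i := fun i hi => hS.blk.lin i (mem_Icc.2 ⟨Nat.zero_le _, hi⟩)
  have hD0 : 0 ≤ Del κ L j := by unfold Del; positivity
  have h1 := hCLA κ J j Bl l (Sq X) (fun k => ‖Dq 0 (phj (A + 1) (Del κ L) j) k‖) h2 h4 hS.blk hj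
    (fun _ => norm_nonneg _)
  have hσJ : sg (PP Bl (J + 1) J) = 0 := by
    unfold PP sg
    rw [Icc_eq_empty (by omega)]
    simp
  have h3 := cls_piece_bound h2 h4 (η := (κ - 2) / 32) hC00.le hCs.le hX0 hL0 j J hj hD0
    (le_of_eq (by unfold Del; congr 2; ring)) l hl (fun i => sg (PP Bl i J)) hS.sig hσJ hS.lJ
  have h5 : ∑ i ∈ Icc j (J + 1),
      (∑ k ∈ Sq X, RR (Icc i J) Bl l (-(4 - κ) / 2) (jv k) *
        ‖Dq 0 (phj (A + 1) (Del κ L) j) k‖ ^ 2) ^ (κ / 4) *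
      (∑ k ∈ Sq X, RR (Icc i J) Bl l (κ / 2) (jv k) * Qc Bl l j i (jv k)) ^ ((4 - κ) / 4) ≤
      ∑ i ∈ Icc j (J + 1),
      (C0 * X * Del κ L j ^ 4 * L ^ 6 *
        Real.exp (((4 - κ) ^ 2 / 2 - 4 * (4 - κ)) * sg (PP Bl i J))) ^ (κ / 4) *
        (C0 * X * Real.exp (κ ^ 2 * sg (PP Bl i J) / 2) *
          (if i = j then 1 else Real.exp (-(l (i - 1) : ℝ)))) ^ ((4 - κ) / 4) := by
    refine sum_le_sum fun i hi => ?_
    rw [mem_Icc] at hi
    have h6 := hBJ X J Bl l lam hX hL hS j i hj hi.1 hi.2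
    have h7 := hCLZ κ Cs X B J Bl l lam h2 h4 hB1 hX hL hS j i hj hi.1 hi.2
    have h8 : 0 ≤ ∑ k ∈ Sq X, RR (Icc i J) Bl l (-(4 - κ) / 2) (jv k) *
        ‖Dq 0 (phj (A + 1) (Del κ L) j) k‖ ^ 2 :=
      sum_nonneg fun k _ => mul_nonneg (cls_RR_nonneg _ _ _ _ _) (sq_nonneg _)
    have h9 : 0 ≤ ∑ k ∈ Sq X, RR (Icc i J) Bl l (κ / 2) (jv k) * Qc Bl l j i (jv k) :=
      sum_nonneg fun k _ => mul_nonneg (cls_RR_nonneg _ _ _ _ _) (cls_Qc_nonneg _ _ _ _ _)
    have h10 : 0 ≤ ec l j i := by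
      unfold ec
      split_ifs
      · exact zero_le_one
      · exact (Real.exp_pos _).le
    have e : κ ^ 2 * sg (PP Bl i J) / 2 = κ ^ 2 / 2 * sg (PP Bl i J) := by ring
    have h11 : C3 ≤ C0 := by linarith
    have h12 : C2 ≤ C0 := by linarith
    refine mul_le_mul (Real.rpow_le_rpow h8 (h6.trans ?_) (by linarith))
      (Real.rpow_le_rpow h9 (h7.trans ?_) (by linarith)) (Real.rpow_nonneg h9 _)
      (Real.rpow_nonneg (by positivity) _)
    · gcongr
    · rw [e]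
      change _ ≤ _ * ec l j i
      gcongr
  have h6 : Real.exp (-(κ * ((κ - 2) / 2 - (κ - 2) / 32) * j)) ≤ Real.exp (-((κ - 2) / 2) * j) := by
    refine Real.exp_le_exp.2 ?_
    have h7 : (0 : ℝ) ≤ j := Nat.cast_nonneg j
    have h8 : (κ - 2) / 2 ≤ κ * ((κ - 2) / 2 - (κ - 2) / 32) := by nlinarith
    nlinarith [mul_le_mul_of_nonneg_right h8 h7]
  calc _ ≤ _ := h1
    _ ≤ C1 * ((2 + Real.exp (8 * Cs) * (1 + 1 / (4 - κ))) * Real.exp (4 * Cs) * C0 * X *
        L ^ (κ * (κ + 1) / 2) * Real.exp (-((κ - 2) / 2) * j)) := by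
        refine mul_le_mul_of_nonneg_left ((h5.trans h3).trans ?_) hC1.le
        exact mul_le_mul_of_nonneg_left h6 (by positivity)
    _ = _ := by ring

end Pool.Agent.QM
end

-- part Pool.Agent.P.MP_ea46f5_nt.QM.FPAR
section

namespace Pool.Agent.QM

open Complex MeasureTheory Finset
open scoped Real ComplexConjugate

theorem par_union (N : ℕ → ℕ) (J : ℕ) (hN : ∀ i, i ≤ J → N (i + 1) ≤ N i) (d : ℕ) :
    ∀ i, i + d = J + 1 → N (J + 1) ≤ N i ∧
      PP (fun i => (Ioc (N (i + 1)) (N i)).filter Nat.Prime) i J =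
        (Ioc (N (J + 1)) (N i)).filter Nat.Prime := by
  induction d with
  | zero =>
    intro i hi
    obtain rfl : i = J + 1 := by omega
    refine ⟨le_rfl, ?_⟩
    unfold PP
    rw [Icc_eq_empty (by omega)]
    simp
  | succ d ih =>
    intro i hi
    obtain ⟨h1, h2⟩ := ih (i + 1) (by omega)
    have h3 := hN i (by omega)
    refine ⟨h1.trans h3, ?_⟩
    unfold PP at h2 ⊢
    have e : Icc i J = insert i (Icc (i + 1) J) := by
      ext x
      simp only [mem_Icc, mem_insert]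
      omega
    rw [e, biUnion_insert, h2, ← filter_union]
    congr 1
    ext x
    simp only [mem_Ioc, mem_union]
    omega

theorem par_anti (N : ℕ → ℕ) (J : ℕ) (hN : ∀ i, i ≤ J → N (i + 1) ≤ N i) (i d : ℕ)
    (h : i + d ≤ J + 1) : N (i + d) ≤ N i := by
  induction d with
  | zero => exact le_rfl
  | succ d ih => exact (hN (i + d) (by omega)).trans (ih (by omega))

theorem par_sg_split (a b c : ℕ) (h1 : a ≤ b) (h2 : b ≤ c) :
    sg ((Ioc a c).filter Nat.Prime) =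
      sg ((Ioc a b).filter Nat.Prime) + sg ((Ioc b c).filter Nat.Prime) := by
  unfold sg
  rw [sum_filter, sum_filter, sum_filter, sum_Ioc_consecutive _ h1 h2]

theorem par_blocks (hPC : PC) (J : ℕ) (lam : ℕ → ℝ) (hl1 : ∀ i, i ≤ J → 1 ≤ lam i)
    (hanti : ∀ i i', i ≤ i' → lam i' ≤ lam i) :
    ∃ Bl : ℕ → Finset ℕ, (∀ i, i ≤ J → OP (Bl i)) ∧
      (∀ i, i ≤ J → ∀ j, j ≤ J → i ≠ j → Disjoint (Bl i) (Bl j)) ∧
      (∀ i, i ≤ J → ∀ p ∈ Bl i, (p : ℝ) ≤ Real.exp (lam i)) ∧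
      (∀ i, i ≤ J → |sg (PP Bl i J) - Real.log (lam i)| ≤ 7) ∧
      (∀ i, i < J → sg (Bl i) ≤ Real.log (lam i) - Real.log (lam (i + 1)) + 14) ∧
      sg (Bl J) ≤ Real.log (lam J) + 7 := by
  set N : ℕ → ℕ := fun i => if i ≤ J then ⌊Real.exp (lam i)⌋₊ else 2 with hNdef
  have hN1 : ∀ i, i ≤ J → N i = ⌊Real.exp (lam i)⌋₊ := fun i hi => if_pos hi
  have hNJ : N (J + 1) = 2 := if_neg (by omega)
  have hN2 : ∀ i, 2 ≤ N i := fun i => by
    by_cases hi : i ≤ J
    · rw [hN1 i hi]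
      refine Nat.le_floor ?_
      have := Real.add_one_le_exp (lam i)
      have := hl1 i hi
      push_cast
      linarith
    · exact le_of_eq (if_neg hi).symm
  have hN : ∀ i, i ≤ J → N (i + 1) ≤ N i := fun i hi => by
    by_cases h : i + 1 ≤ J
    · rw [hN1 i hi, hN1 _ h]
      exact Nat.floor_le_floor (Real.exp_le_exp.2 (hanti _ _ (by omega)))
    · obtain rfl : i = J := by omega
      rw [hNJ]
      exact hN2 _
  have hmono : ∀ i i', i ≤ i' → i' ≤ J + 1 → N i' ≤ N i := fun i i' h h' => by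
    obtain ⟨d, rfl⟩ := Nat.exists_eq_add_of_le h
    exact par_anti N J hN i d h'
  have hP : ∀ i, i ≤ J → |sg ((Ioc 2 (N i)).filter Nat.Prime) - Real.log (lam i)| ≤ 7 :=
    fun i hi => by rw [hN1 i hi]; exact hPC.2 _ (hl1 i hi)
  refine ⟨fun i => (Ioc (N (i + 1)) (N i)).filter Nat.Prime, ?_, ?_, ?_, ?_, ?_, ?_⟩
  · intro i _ p hp
    rw [mem_filter, mem_Ioc] at hp
    have := hN2 (i + 1)
    exact ⟨hp.2, by omega⟩
  · intro i hi j hj hij
    rw [disjoint_left]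
    intro p hp hq
    rw [mem_filter, mem_Ioc] at hp hq
    rcases lt_or_gt_of_ne hij with h | h
    · have := hmono (i + 1) j h (by omega)
      omega
    · have := hmono (j + 1) i h (by omega)
      omega
  · intro i hi p hp
    rw [mem_filter, mem_Ioc, hN1 i hi] at hp
    exact (Nat.cast_le.2 hp.1.2).trans (Nat.floor_le (Real.exp_pos _).le)
  · intro i hi
    rw [(par_union N J hN (J + 1 - i) i (by omega)).2, hNJ]
    exact hP i hi
  · intro i hi
    have h1 := par_sg_split 2 (N (i + 1)) (N i) (hN2 _) (hN i hi.le)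
    have h2 := (abs_le.1 (hP i hi.le)).2
    have h3 := (abs_le.1 (hP (i + 1) hi)).1
    linarith
  · have h2 := (abs_le.1 (hP J le_rfl)).2
    beta_reduce
    rw [hNJ]
    linarith

theorem pPAR (hPC : PC) : PAR := by
  intro κ B h2 h4
  obtain ⟨η, hη⟩ : ∃ η : ℝ, η = (κ - 2) / 32 := ⟨_, rfl⟩
  have hη0 : 0 < η := by rw [hη]; linarith
  have hη1 : η < 1 / 16 := by rw [hη]; linarith
  obtain ⟨K, hK⟩ : ∃ K : ℝ, K = 50000 + 12 / η := ⟨_, rfl⟩
  have hK1 : 50000 ≤ K := by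
    have : 0 ≤ 12 / η := by positivity
    linarith
  have hK2 : 12 ≤ K * η := by
    rw [hK, add_mul, div_mul_cancel₀ _ hη0.ne']
    linarith
  have hB : (0 : ℝ) ≤ B := Nat.cast_nonneg B
  obtain ⟨c, hc⟩ : ∃ c : ℝ, c = 1 / (200 * (B + 1) * K) := ⟨_, rfl⟩
  have hc0 : 0 < c := by rw [hc]; positivity
  have hc2 : 200 * (B + 1) * K * c = 1 := by rw [hc]; field_simp
  have hc1 : c ≤ 1 := by
    rw [hc, div_le_one (by positivity)]
    have : 0 ≤ (B : ℝ) * K := by positivity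
    linarith
  obtain ⟨Cs, hCs⟩ : ∃ Cs : ℝ, Cs = 7 + |Real.log c| := ⟨_, rfl⟩
  have hCs0 : 0 < Cs := by rw [hCs]; positivity
  refine ⟨Cs, Real.exp (3 + 52 / η ^ 2 + 1 / (η * c) + 1600 * K + Cs), hCs0, fun L hL => ?_⟩
  have hL0 : 0 < L := (Real.exp_pos _).trans_le hL
  obtain ⟨M, hM⟩ : ∃ M : ℝ, M = Real.log L := ⟨_, rfl⟩
  have hLM : L = Real.exp M := by rw [hM, Real.exp_log hL0]
  have hM0 : 3 + 52 / η ^ 2 + 1 / (η * c) + 1600 * K + Cs ≤ M := by
    rw [hM]; exact (Real.le_log_iff_exp_le hL0).2 hL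
  have p1 : 0 < 52 / η ^ 2 := by positivity
  have p2 : 0 < 1 / (η * c) := by positivity
  have hM3 : 3 ≤ M := by linarith
  have hMa : 52 ≤ η ^ 2 * M := by
    have : 52 / η ^ 2 ≤ M := by linarith
    rwa [div_le_iff₀ (by positivity), mul_comm] at this
  have hMb : 1 ≤ η * c * M := by
    have : 1 / (η * c) ≤ M := by linarith
    rwa [div_le_iff₀ (by positivity), mul_comm] at this
  have hMc : 1600 * K ≤ M := by linarith
  have hMd : Cs ≤ M := by linarith
  obtain ⟨J, hJ⟩ : ∃ J : ℕ, J = ⌊(1 - 2 * η) * M / (1 - η)⌋₊ := ⟨_, rfl⟩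
  have hη2 : 0 < 1 - η := by linarith
  have hJ1 : (1 - η) * J ≤ (1 - 2 * η) * M := by
    have : (J : ℝ) ≤ (1 - 2 * η) * M / (1 - η) := by
      rw [hJ]; exact Nat.floor_le (div_nonneg (mul_nonneg (by linarith) (by linarith)) hη2.le)
    rwa [le_div_iff₀ hη2, mul_comm] at this
  have hJ2 : (1 - 2 * η) * M < (1 - η) * (J + 1) := by
    have : (1 - 2 * η) * M / (1 - η) < J + 1 := by rw [hJ]; exact Nat.lt_floor_add_one _
    rwa [div_lt_iff₀ hη2, mul_comm _ (1 - η)] at this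
  have hJ0 : (0 : ℝ) ≤ J := Nat.cast_nonneg J
  have hJ3 : (J : ℝ) ≤ (1 - η) * M := by
    refine le_of_mul_le_mul_left (hJ1.trans ?_) hη2
    have := mul_nonneg (sq_nonneg η) (by linarith : 0 ≤ M)
    linarith
  have hηM : 0 ≤ η * M := by positivity
  have hJ4 : M / 2 ≤ J := by
    have a1 : 0 ≤ η * J := by positivity
    have a2 := mul_le_mul_of_nonneg_right hη1.le (by linarith : 0 ≤ M)
    linarith
  have hJ5 : (J : ℝ) ≤ M := by linarith
  have hDel : ∀ j : ℕ, Del κ L j = Real.exp (M - (1 - η) * j) := fun j => by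
    unfold Del
    rw [← hη, hLM, ← Real.exp_add]
    congr 1
    ring
  set lam : ℕ → ℝ := fun i => c * Real.exp (M - i) with hlam
  set l : ℕ → ℕ := fun i => ⌈K * Real.exp (η * i)⌉₊ with hl
  have hlo : ∀ i : ℕ, K * Real.exp (η * i) ≤ l i := fun i => Nat.le_ceil _
  have he1 : ∀ i : ℕ, 1 + η * i ≤ Real.exp (η * i) := fun i => by
    have := Real.add_one_le_exp (η * i)
    linarith
  have he2 : ∀ i : ℕ, 1 ≤ Real.exp (η * i) := fun i => Real.one_le_exp (by positivity)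
  have hup : ∀ i : ℕ, (l i : ℝ) ≤ 2 * K * Real.exp (η * i) := fun i => by
    have h1 : (l i : ℝ) < K * Real.exp (η * i) + 1 := Nat.ceil_lt_add_one (by positivity)
    have := mul_le_mul hK1 (he2 i) zero_le_one (by linarith)
    linarith
  have hanti : ∀ i i' : ℕ, i ≤ i' → lam i' ≤ lam i := fun i i' h => by
    have : (i : ℝ) ≤ i' := Nat.cast_le.2 h
    exact mul_le_mul_of_nonneg_left (Real.exp_le_exp.2 (by linarith)) hc0.le
  have hl1 : ∀ i, i ≤ J → 1 ≤ lam i := fun i hi => by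
    refine le_trans ?_ (hanti i J hi)
    have h1 := Real.add_one_le_exp (M - J)
    have h3 : η * M ≤ Real.exp (M - J) := by linarith
    calc (1 : ℝ) ≤ c * (η * M) := by linarith
      _ ≤ _ := mul_le_mul_of_nonneg_left h3 hc0.le
  have hlog : ∀ i : ℕ, Real.log (lam i) = Real.log c + (M - i) := fun i => by
    rw [hlam, Real.log_mul hc0.ne' (Real.exp_pos _).ne', Real.log_exp]
  have hlogc : Real.log c ≤ 0 := Real.log_nonpos hc0.le hc1
  have hlJ : 325000 * M ≤ l J := by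
    refine le_trans ?_ (hlo J)
    have h1 := Real.quadratic_le_exp_of_nonneg (by positivity : 0 ≤ η * J)
    have h3 : η * (M / 2) ≤ η * J := mul_le_mul_of_nonneg_left hJ4 hη0.le
    have h5 : (η * (M / 2)) ^ 2 ≤ (η * J) ^ 2 := pow_le_pow_left₀ (by positivity) h3 2
    have h6 : 13 * M ≤ (η * (M / 2)) ^ 2 := by
      have := mul_le_mul_of_nonneg_right hMa (by linarith : 0 ≤ M)
      linarith
    have h7 : 13 / 2 * M ≤ Real.exp (η * J) := by
      have : 0 ≤ η * J := by positivity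
      linarith
    calc 325000 * M = 50000 * (13 / 2 * M) := by ring
      _ ≤ _ := mul_le_mul hK1 h7 (by linarith) (by linarith)
  have hlL : ∀ i, i ≤ J → (l i : ℝ) ≤ L / 400 := fun i hi => by
    refine (hup i).trans ?_
    have h1 : (i : ℝ) ≤ J := Nat.cast_le.2 hi
    have h3 : Real.exp (η * i) ≤ Real.exp (M / 2) := by
      refine Real.exp_le_exp.2 ?_
      have a1 : (0 : ℝ) ≤ i := Nat.cast_nonneg i
      have := mul_le_mul_of_nonneg_right hη1.le a1
      linarith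
    have h5 := Real.add_one_le_exp (M / 2)
    have h6 : L = Real.exp (M / 2) * Real.exp (M / 2) := by
      rw [← Real.exp_add, hLM]; congr 1; ring
    have h7 : 2 * K ≤ Real.exp (M / 2) / 400 := by linarith
    calc _ ≤ Real.exp (M / 2) / 400 * Real.exp (M / 2) :=
          mul_le_mul h7 h3 (Real.exp_pos _).le (by positivity)
      _ = _ := by rw [h6]; ring
  have hll : ∀ i : ℕ, 2 * (B + 1) * lam i * l i ≤ Del κ L i / 50 := fun i => by
    have h1 : Real.exp (M - i) * Real.exp (η * i) = Del κ L i := by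
      rw [hDel, ← Real.exp_add]; congr 1; ring
    have h3 : 0 ≤ 2 * (B + 1) * lam i := by positivity
    calc _ ≤ 2 * (B + 1) * lam i * (2 * K * Real.exp (η * i)) :=
          mul_le_mul_of_nonneg_left (hup i) h3
      _ = (200 * (B + 1) * K * c) * (Real.exp (M - i) * Real.exp (η * i)) / 50 := by
          simp only [hlam]; ring
      _ = _ := by rw [hc2, h1, one_mul]
  have hDJ : 52 * (M + 1) ≤ Del κ L J := by
    rw [hDel]
    have h1 : Real.exp (2 * η * M) ≤ Real.exp (M - (1 - η) * J) :=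
      Real.exp_le_exp.2 (by linarith)
    have h0 : 0 ≤ 2 * η * M := by positivity
    have h3 := Real.quadratic_le_exp_of_nonneg h0
    have h5 := mul_le_mul_of_nonneg_right hMa (by linarith : 0 ≤ M)
    linarith
  have hDanti : ∀ i j : ℕ, j ≤ i → Del κ L i ≤ Del κ L j := fun i j h => by
    rw [hDel, hDel]
    have : (j : ℝ) ≤ i := Nat.cast_le.2 h
    have := mul_le_mul_of_nonneg_left this hη2.le
    exact Real.exp_le_exp.2 (by linarith)
  obtain ⟨Bl, b1, b2, b3, b4, b5, b6⟩ := par_blocks hPC J lam hl1 hanti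
  refine ⟨J, Bl, l, lam, ⟨?_, ?_, ?_, ?_⟩, ?_, hl1, ?_, ?_, ?_, ?_, ?_, ?_, ?_, ?_, ?_⟩
  · exact fun i hi => b1 i (mem_Icc.1 hi).2
  · exact fun i hi j hj => b2 i (mem_Icc.1 hi).2 j (mem_Icc.1 hj).2
  · intro i hi
    rcases (mem_Icc.1 hi).2.lt_or_eq with h | rfl
    · have h1 := b5 i h
      rw [hlog, hlog] at h1
      push_cast at h1
      have h3 := hlo i
      have h5 := mul_le_mul hK1 (he2 i) zero_le_one (by linarith)
      linarith
    · rw [hlog] at b6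
      linarith
  · intro i _
    have h1 : (12 : ℝ) * (i + 1) ≤ l i := by
      have h3 := mul_le_mul_of_nonneg_left (he1 i) (by linarith : 0 ≤ K)
      have h5 := mul_le_mul_of_nonneg_right hK2 (Nat.cast_nonneg (α := ℝ) i)
      have h6 := hlo i
      linarith
    exact_mod_cast h1
  · exact fun i i' h h' p hp => (b3 i' h' p hp).trans (Real.exp_le_exp.2 (hanti i i' h))
  · intro i j h _
    refine le_trans ?_ (hDanti i j h)
    rw [hDel]
    have h1 : Real.exp (M - i) ≤ Real.exp (M - (1 - η) * i) := by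
      have : 0 ≤ η * i := by positivity
      exact Real.exp_le_exp.2 (by linarith)
    exact (mul_le_of_le_one_left (Real.exp_pos _).le hc1).trans h1
  · intro i hi
    have := hlL i hi
    linarith
  · rw [← hM]
    linarith
  · intro i hi
    have h1 := b4 i hi
    rw [hlog] at h1
    rw [← hM, hCs, abs_le]
    have h3 := abs_le.1 h1
    have h5 := neg_abs_le (Real.log c)
    have h6 := abs_nonneg (Real.log c)
    constructor <;> linarith [h3.1, h3.2]
  · linarith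
  · rw [hDel, Real.rpow_def_of_pos hL0, ← hM]
    have h1 : Real.exp (M - (1 - η) * J) ≤ Real.exp (1 + M * ((κ - 2) / 16)) := by
      have e : (κ - 2) / 16 = 2 * η := by rw [hη]; ring
      rw [e]
      exact Real.exp_le_exp.2 (by linarith)
    rw [Real.exp_add] at h1
    exact h1.trans (mul_le_mul_of_nonneg_right (Real.exp_one_lt_d9.le.trans (by norm_num))
      (Real.exp_pos _).le)
  · intro j hj
    have h1 : ∑ i ∈ Icc j J, (4 + 2 * (B + 1) * lam i * l i) ≤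
        ∑ i ∈ Icc j J, (4 + Del κ L j / 50 * Real.exp (-((1 - η) * (i - j : ℕ)))) := by
      refine sum_le_sum fun i hi => ?_
      have h3 := hll i
      have h5 : Del κ L i = Del κ L j * Real.exp (-((1 - η) * (i - j : ℕ))) := by
        rw [hDel, hDel, ← Real.exp_add, Nat.cast_sub (mem_Icc.1 hi).1]
        congr 1
        ring
      rw [h5] at h3
      linarith
    have h3 : ∑ i ∈ Icc j J, Real.exp (-((1 - η) * (i - j : ℕ))) ≤ 3 := by
      have h5 := cls_sum_exp_neg_le hη2 ((Icc j J).image fun i => i - j)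
      rw [sum_image (fun a ha b hb h => by
        have := (mem_Icc.1 (mem_coe.1 ha)).1
        have := (mem_Icc.1 (mem_coe.1 hb)).1
        omega)] at h5
      have h6 : 1 / (1 - η) ≤ 2 := by
        rw [div_le_iff₀ hη2]
        linarith
      linarith
    refine h1.trans ?_
    rw [sum_add_distrib, ← mul_sum, sum_const, Nat.card_Icc, nsmul_eq_mul]
    have h5 : ((J + 1 - j : ℕ) : ℝ) ≤ J + 1 := by exact_mod_cast Nat.sub_le _ _
    have h6 := hDanti J j hj
    have h7 := mul_le_mul_of_nonneg_left h3 (by linarith : 0 ≤ Del κ L j / 50)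
    linarith
  · intro i hi
    have h1 := hll i
    have h3 := hlL i hi
    have h5 := hDanti i 0 (Nat.zero_le i)
    rw [hDel 0, Nat.cast_zero, mul_zero, sub_zero, ← hLM] at h5
    linarith
  · rw [hLM, ← Real.exp_nat_mul, ← hLM]
    refine Real.exp_le_exp.2 ?_
    push_cast
    linarith

end Pool.Agent.QM
end

-- part Pool.Agent.P.MP_ea46f5_nt.QM.FPHI
section

namespace Pool.Agent.QM

open Complex MeasureTheory Finset
open scoped Real ComplexConjugate

theorem pTHB : THB := by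
  intro A
  refine ⟨phi_thC A, phi_thC_pos A, ?_, fun z hz => ⟨?_, phi_th_sub_one A hz⟩⟩
  · intro z hz
    apply DifferentiableAt.differentiableWithinAt
    have h : (1 + z) ≠ 0 := by
      intro h
      have h2 := congrArg Complex.re h
      simp only [add_re, one_re, zero_re] at h2
      have h3 : -1 < z.re := hz
      linarith
    unfold th
    exact DifferentiableAt.div (by fun_prop) (by fun_prop) (pow_ne_zero _ h)
  · refine (phi_th_le A hz).trans ?_
    have h := phi_thC_ge A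
    have h2 : (A : ℝ) + 2 ≤ phi_thC A := by linarith
    gcongr

lemma phi_Del_pos (κ : ℝ) {L : ℝ} (hL : 0 < L) (j : ℕ) : 0 < Del κ L j := by
  unfold Del; positivity

lemma phi_Del_zero (κ L : ℝ) : Del κ L 0 = L := by simp [Del]

lemma phi_Del_step {κ L : ℝ} (h2 : 2 < κ) (h4 : κ < 4) (hL : 0 < L) (j : ℕ) :
    Del κ L (j + 1) ≤ Del κ L j ∧ Del κ L j ≤ 3 * Del κ L (j + 1) := by
  have e : Del κ L j = Del κ L (j + 1) * Real.exp (1 - (κ - 2) / 32) := by
    unfold Del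
    rw [mul_assoc, ← Real.exp_add]
    congr 2
    push_cast; ring
  have hp := phi_Del_pos κ hL (j + 1)
  have h1 : 1 ≤ Real.exp (1 - (κ - 2) / 32) := Real.one_le_exp (by linarith)
  have h3 : Real.exp (1 - (κ - 2) / 32) ≤ 3 := by
    have : Real.exp (1 - (κ - 2) / 32) ≤ Real.exp 1 := Real.exp_le_exp.2 (by linarith)
    have := Real.exp_one_lt_d9
    linarith
  rw [e]
  constructor <;> nlinarith

lemma phi_phj_zero (A : ℕ) (Δ : ℕ → ℝ) : phj A Δ 0 = phi_ph0 A (Δ 0) := by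
  funext s; simp [phj, phi_ph0]

lemma phi_phj_succ (A : ℕ) (Δ : ℕ → ℝ) (j : ℕ) :
    phj A Δ (j + 1) = phi_phJ A (Δ (j + 1)) (Δ j) := by
  funext s; simp [phj, phi_phJ]

theorem pPHI (_hTHB : THB) : PHI := by
  intro A
  have hc := phi_thC_pos A
  have hg := phi_thC_ge A
  have hA : (0 : ℝ) ≤ A := Nat.cast_nonneg A
  have h3 : (1 : ℝ) ≤ 3 ^ A := one_le_pow₀ (by norm_num)
  have hm : phi_thC A ≤ phi_thC A * 3 ^ A := le_mul_of_one_le_right hc.le h3
  refine ⟨15 * phi_thC A * 3 ^ A, by positivity, ?_⟩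
  intro κ L h2 h4 hL
  have hL0 : 0 < L := by linarith
  have he : 0 < 1 / L := by positivity
  refine ⟨?_, ?_, ?_, ?_, ?_⟩
  · intro j
    rcases j with _ | j
    · rw [phi_phj_zero]
      have hD := (phi_Del_pos κ hL0 0).le
      refine ⟨fun s hs => (phi_ph0_diffAt _ hD hs).differentiableWithinAt, fun s hs _ => ?_⟩
      refine (phi_ph0_far A he hD hs).trans ?_
      rw [neg_mul, div_div_eq_mul_div, div_one]
      have : 2 * ((A : ℝ) + 2) ≤ 15 * phi_thC A * 3 ^ A := by nlinarith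
      gcongr
    · rw [phi_phj_succ]
      have hD := (phi_Del_pos κ hL0 (j + 1)).le
      have hD' := (phi_Del_pos κ hL0 j).le
      refine ⟨fun s hs => (phi_phJ_diffAt _ hD hD' hs).differentiableWithinAt, fun s hs _ => ?_⟩
      refine (phi_phJ_far A he hD (phi_Del_step h2 h4 hL0 j).1 hs).trans ?_
      rw [neg_mul, div_div_eq_mul_div, div_one]
      have : 4 * ((A : ℝ) + 2) ≤ 15 * phi_thC A * 3 ^ A := by nlinarith
      gcongr
  · intro lam hl hlL s τ hs
    rw [phi_phj_zero, phi_Del_zero]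
    have hel : 1 / L * lam ≤ 1 := by
      rw [one_div, inv_mul_le_iff₀ hL0]; linarith
    simp only [ofReal_zero, zero_mul, sub_zero, pow_zero, mul_one]
    refine (phi_ph0_near A he hl hel hlL hs).trans ?_
    rw [div_div_eq_mul_div, div_one]
    have : 2 * ((A : ℝ) + 2) ≤ 15 * phi_thC A := by linarith
    gcongr
  · intro j lam hj hl hlD s τ hs
    obtain ⟨j, rfl⟩ := Nat.exists_eq_succ_of_ne_zero hj
    rw [Nat.succ_eq_add_one] at *
    rw [phi_phj_succ]
    have hst := phi_Del_step h2 h4 hL0 j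
    have hDL : ∀ i, Del κ L i ≤ L := by
      intro i
      induction i with
      | zero => rw [phi_Del_zero]
      | succ n ih => exact (phi_Del_step h2 h4 hL0 n).1.trans ih
    have hel : 1 / L * lam ≤ 1 := by
      rw [one_div, inv_mul_le_iff₀ hL0]; linarith [hDL (j + 1)]
    simp only [ofReal_zero, zero_mul, sub_zero, pow_one]
    exact phi_phJ_near A he hl hel hlD hst.1 hst.2 hs
  · intro D hD
    refine ⟨⟨fun s hs => (phi_phF_diffAt _ hD.le hs).differentiableWithinAt, fun s hs _ => ?_⟩, ?_⟩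
    · have hs0 : 0 < s.re := by linarith
      refine (phi_phF_far A hD.le hs0).trans ?_
      simp only [neg_zero, zero_mul, Real.exp_zero, mul_one]
      have : phi_thC A ≤ 15 * phi_thC A * 3 ^ A := by nlinarith
      gcongr
    · intro s τ hs
      simp only [ofReal_zero, zero_mul, sub_zero, pow_one, pow_zero, div_one]
      refine (phi_phF_near A he hD.le hs).trans ?_
      have : 2 * phi_thC A ≤ 15 * phi_thC A * 3 ^ A := by nlinarith
      gcongr
  · intro J s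
    rw [Finset.sum_range_succ', phi_phj_zero, ← phi_ph_sum (A + 1) (Del κ L) J s]
    simp only [phi_phj_succ]
    ring

end Pool.Agent.QM
end

-- part Pool.Agent.P.MP_ea46f5_nt.QM.All
section

namespace Pool.Agent.QM

theorem main : MAIN :=
  have hLSP : LSP := pLSP
  have hE0 : E0 := pE0 hLSP
  have hP2 : P2 := pP2
  have hEXA : EXA := pEXA hE0 hLSP hP2
  have hGAM1 : GAM1 := pGAM1
  have hP1 : P1 := pP1 hGAM1
  have hTKB : TKB := pTKB
  have hKZ : KZ := pKZ hGAM1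
  have hDEC : DEC := pDEC
  have hINT : INT := pINT hE0 hTKB hKZ hDEC
  have hEXC : EXC := pEXC hP1 hP2 hE0 hTKB hKZ hDEC hINT
  have hEXL : EXL := pEXL
  have hE1 : E1 := pE1 hE0 hEXL hTKB
  have hTME : TME := pTME hEXA hEXC hINT hE1 hEXL
  have hSH0 : SH0 := pSH0
  have hSD0 : SD0 := pSD0 hSH0 hDEC
  have hMG : MG := pMG
  have hPL : PL := pPL
  have hEXB : EXB := pEXB hMG hPL
  have hLOC0 : LOC0 := pLOC0
  have hPRD : PRD := pPRD
  have hZT : ZT := pZT
  have hPZ : PZ := pPZ hZT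
  have hZD : ZD := pZD hEXB hEXL hLOC0 hPRD hPZ hPL
  have hZDA : ZDA := pZDA hLOC0 hPRD
  have hFW : FW := pFW hDEC
  have hTMD : TMD := pTMD hSD0 hZD hZDA hFW hDEC
  have hLOC : LOC := pLOC
  have hKR : KR := pKR
  have hPRI : PRI := pPRI hKR
  have hLOP : LOP := pLOP hKR hPRI
  have hIZ : IZ := pIZ
  have hE2 : E2 := pE2 hLOC hLSP hLOP hIZ
  have hHA : HA := pHA hLOC
  have hH1 : H1 := pH1 hLOC hEXL hPRD hPZ
  have hLOB : LOB := pLOB hLOP
  have hTK1 : TK1 := pTK1 hSD0 hE2 hHA hH1 hIZ hLOP hLOB hFW hDEC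
  have hTK2 : TK2 := pTK2 hLOP hLOB hDEC
  have hLEN : LEN := pLEN hEXL
  have hTMK : TMK := pTMK hTK1 hTK2 hKZ hDEC hLEN
  have hSH2 : SH2 := pSH2
  have hSD2 : SD2 := pSD2 hSH2 hDEC
  have hTA1 : TA1 := pTA1 hSD2 hE2 hHA hH1 hIZ hLOP hZT hFW hDEC hLEN
  have hPH2 : PH2 := pPH2
  have hTA2 : TA2 := pTA2 hTA1 hH1 hIZ hLOP hZT hFW hDEC hPH2 hLEN
  have hJCA : JCA := pJCA hPH2 hHA hH1 hIZ hLOP hZT hFW hLEN
  have hSH1 : SH1 := pSH1
  have hTC1 : TC1 := pTC1 hSH1 hKZ hDEC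
  have hHC : HC := pHC hEXB hEXL hLOC hLOC0 hPRD hPZ hPL
  have hTC2 : TC2 := pTC2 hHC hPH2 hKZ hIZ hLOP hZT hFW hDEC
  have hTM : TM := pTM hTME hTMD hTMK hTA2 hJCA hTC1 hTC2 hKZ hFW hDEC hLEN
  have hGAM2 : GAM2 := pGAM2
  have hHB : HB := pHB hGAM2
  have hWT : WT := pWT hHB
  have hSEP : SEP := pSEP hDEC
  have hBRG : BRG := pBRG hLOP
  have hSQD : SQD := pSQD hSEP hHB hLSP hBRG hDEC
  have hTQ : TQ := pTQ hTM hWT hSQD
  have hMT : MT := pMT
  have hTW0 : TW0 := pTW0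
  have hSTS : STS := pSTS hTQ hMT hTW0
  have hPC : PC := pPC
  have hFL : FL := pFL hLSP hPC
  have hTQF : TQF := pTQF hTM hWT hSQD hFL hFW hTW0
  have hSTM : STM := pSTM hTQF hMT
  have hFE : FE := pFE hKR hPRI hLOP hLSP
  have hAFE : AFE := pAFE hFE hSH0 hSH1 hHB hLOP hLOB hBRG hDEC
  have hDL : DL := pDL hHB hLSP hBRG hDEC
  have hTRV : TRV := pTRV hLOB
  have hSTEP : STEP := pSTEP hSTS hSTM hAFE hDL hBRG hTRV
  have hFOUR : FOUR := pFOUR hSTEP hTRV hMT
  have hTHB : THB := pTHB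
  have hPHI : PHI := pPHI hTHB
  have hTE : TE := pTE
  have hEXF : EXF := pEXF
  have hHRP : HRP := pHRP hTE hEXL hEXF
  have hBJ : BJ := pBJ hTQ hFOUR hPHI hHRP hLEN
  have hCLA : CLA := pCLA hTE
  have hZ0 : Z0 := pZ0 hP2 hEXL
  have hZ0E : Z0E := pZ0E hTE hEXL hEXF
  have hCLZ : CLZ := pCLZ hZ0 hZ0E hLEN
  have hCLS : CLS := pCLS hBJ hCLA hCLZ
  have hFF : FF := pFF hTQF hFOUR hPHI
  have hG0B : G0B := pG0B hGAM2
  have hAF1 : AF1 := pAF1 hFE hSH0 hSH1 hGAM2 hG0B hLOP hLOB hBRG hDEC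
  have hVB : VB := pVB hSH0 hG0B hLSP hDEC
  have hQF : QF := pQF hP2 hTKB
  have hSEC : SEC := pSEC hAF1 hVB hQF hSEP hG0B hLSP hBRG hDEC
  have hPAR : PAR := pPAR hPC
  have hDY : DY := pDY hCLS hFF hSEC hPAR hAFE hDL hPHI
  pMAIN hDY hFE hBRG

end Pool.Agent.QM
end
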